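import Pool.Agent.AGE.Defs

/-!
# Project AGE, layer ACY, definitions (see section 3 of the blueprint, ACY)

`low D x b` is the elementary contraction that lowers the coordinate `x` from `b + 1` to `b`,
restricted to the cubes with property `D`. In the coinduced complex `PP n t` the property is
`Mov n x`: the block of `x` is not yet `n`-dimensional. The operator
`Π = 1 - bd ∘ low - low ∘ bd` is homotopic to the identity; after all `Π` every block is a vertex
or `n`-dimensional and the join part is a vertex.
-/

set_option autoImplicit false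

noncomputable section

namespace AGE

section gen

variable {I : Type} [LinearOrder I]

/-- lower the coordinate `x` of the cube `Q` from `b + 1` to `b`, if `Q` has property `D` -/
def lowQ (D : Cube I → Prop) (x : I) (b : ℤ) (Q : Cube I) : Ch I :=
  open Classical in if x ∉ Q.fr ∧ Q.lo x = b + 1 ∧ D Q then
    sg Q.fr x • one ⟨Function.update Q.lo x b, insert x Q.fr⟩ else 0

/-- the truncated elementary contraction -/
def low (D : Cube I → Prop) (x : I) (b : ℤ) : Ch I →ₗ[ℤ] Ch I :=
  Finsupp.linearCombination ℤ (lowQ D x b)

theorem low_one (D : Cube I → Prop) (x : I) (b : ℤ) (Q : Cube I) :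
    low D x b (one Q) = lowQ D x b Q := by
  simp [low, one]

end gen

variable {J : Type} [LinearOrder J] {N : ℕ} [NeZero N]

/-- the coordinate `x` may be contracted in `Q`: if `x` is in block `g`, then the block `g` of
`Q` is not `n`-dimensional -/
def Mov (n : ℕ) (x : JJ N J) (Q : Cube (JJ N J)) : Prop :=
  ∀ g j, x = JJ.a g j → (blk g Q).dim < n

/-- the value to which the coordinate `x` is contracted -/
def bas (t : Cube J) : JJ N J → ℤ
  | .a _ j => t.lo j
  | .e _ _ => 0

/-- the cubes of `PP n t` with join coordinate `e g0 k0` fixed at `1`, all join coordinates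
outside `W` (except `e g0 k0`) fixed at `0`, and all coordinates in `Z` settled: either the block
is `n`-dimensional, or the coordinate is fixed at its base value -/
structure Stl (n : ℕ) (t : Cube J) (g0 : ZMod N) (k0 : ℕ) (W Z : Finset (JJ N J))
    (Q : Cube (JJ N J)) : Prop where
  mem : Q ∈ PP n t
  top : JJ.e g0 k0 ∉ Q.fr ∧ Q.lo (JJ.e g0 k0) = 1
  out : ∀ g k, (JJ.e g k : JJ N J) ≠ JJ.e g0 k0 → JJ.e g k ∉ W →
    JJ.e g k ∉ Q.fr ∧ Q.lo (JJ.e g k) = 0
  stl : ∀ x ∈ Z, ¬ Mov n x Q ∨ (x ∉ Q.fr ∧ Q.lo x = bas t x)

end AGE
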