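import Pool.Agent.AGE.ACY0

/-!
# Project AGE, layer ACY, module 1: the elementary homotopy identity
-/

set_option autoImplicit false

noncomputable section

namespace AGE

variable {I : Type} [LinearOrder I]

private theorem bd_one' (P : Cube I) : bd (one P) = bdQ P := by
  simp [bd, one]

private theorem sg_sq (s : Finset I) (j : I) : sg s j * sg s j = 1 := by
  unfold sg
  rw [← pow_add, ← two_mul, pow_mul]
  simp

private theorem sg_erase_self (s : Finset I) (x : I) : sg (s.erase x) x = sg s x := by
  unfold sg
  congr 2
  ext y
  simp only [Finset.mem_filter, Finset.mem_erase]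
  constructor
  · rintro ⟨⟨_, h⟩, h2⟩
    exact ⟨h, h2⟩
  · rintro ⟨h, h2⟩
    exact ⟨⟨h2.ne, h⟩, h2⟩

private theorem sg_insert' (s : Finset I) (x j : I) (hx : x ∉ s) :
    sg (insert x s) j = sg s j * (if x < j then -1 else 1) := by
  unfold sg
  by_cases h : x < j
  · have : (insert x s).filter (· < j) = insert x (s.filter (· < j)) := by
      ext y
      simp only [Finset.mem_filter, Finset.mem_insert]
      constructor
      · rintro ⟨h1 | h1, h2⟩
        · exact Or.inl h1
        · exact Or.inr ⟨h1, h2⟩
      · rintro (h1 | ⟨h1, h2⟩)
        · exact ⟨Or.inl h1, h1 ▸ h⟩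
        · exact ⟨Or.inr h1, h2⟩
    rw [this, Finset.card_insert_of_notMem (by simp [hx]), pow_succ, if_pos h]
  · have : (insert x s).filter (· < j) = s.filter (· < j) := by
      ext y
      simp only [Finset.mem_filter, Finset.mem_insert]
      constructor
      · rintro ⟨h1 | h1, h2⟩
        · exact absurd (h1 ▸ h2) h
        · exact ⟨h1, h2⟩
      · rintro ⟨h1, h2⟩
        exact ⟨Or.inr h1, h2⟩
    rw [this, if_neg h, mul_one]

private theorem sg_cancel (s : Finset I) (x j : I) (hx : x ∉ s) (hj : j ∈ s) :
    sg s x * sg (insert x s) j + sg s j * sg (s.erase j) x = 0 := by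
  have h1 := sg_insert' s x j hx
  have h2 : sg s x = sg (s.erase j) x * (if j < x then -1 else 1) := by
    have := sg_insert' (s.erase j) j x (by simp)
    rwa [Finset.insert_erase hj] at this
  rw [h1]
  have hne : x ≠ j := fun h => hx (h ▸ hj)
  rcases lt_or_gt_of_ne hne with h | h
  · rw [if_pos h]
    rw [if_neg h.not_gt] at h2
    rw [h2]
    ring
  · rw [if_neg h.not_gt]
    rw [if_pos h] at h2
    rw [h2]
    ring

/-- on a cube with property `D` whose `x`-coordinate is `b`, `b + 1` or `[b, b + 1]`, the
operator `low` is a homotopy from the identity to the projection `x ↦ b` -/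
theorem low_hom (D : Cube I → Prop)
    (hD : ∀ Q : Cube I, D Q → ∀ j ∈ Q.fr, D (Q.up j) ∧ D (Q.dn j)) (x : I) (b : ℤ)
    (Q : Cube I) (hQ : D Q) (h1 : x ∈ Q.fr → Q.lo x = b)
    (h2 : x ∉ Q.fr → Q.lo x = b ∨ Q.lo x = b + 1) :
    bd (low D x b (one Q)) + low D x b (bd (one Q)) =
      one Q - (if x ∈ Q.fr then 0 else one ⟨Function.update Q.lo x b, Q.fr⟩) := by
  classical
  have hsum : low D x b (bd (one Q)) =
      ∑ j ∈ Q.fr, sg Q.fr j • (lowQ D x b (Q.up j) - lowQ D x b (Q.dn j)) := by
    rw [bd_one', bdQ, map_sum]
    refine Finset.sum_congr rfl fun j _ => ?_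
    rw [map_smul, map_sub, low_one, low_one]
  by_cases hx : x ∈ Q.fr
  · have hlo := h1 hx
    have hz : lowQ D x b Q = 0 := by
      unfold lowQ
      rw [if_neg]
      rintro ⟨h, _⟩
      exact h hx
    rw [low_one, hz, map_zero, zero_add, if_pos hx, sub_zero, hsum]
    rw [Finset.sum_eq_single x]
    · have ha : lowQ D x b (Q.up x) = sg Q.fr x • one Q := by
        unfold lowQ
        rw [if_pos]
        · have : (⟨Function.update (Q.up x).lo x b, insert x (Q.up x).fr⟩ : Cube I) = Q := by
            ext1
            · show Function.update (Function.update Q.lo x (Q.lo x + 1)) x b = Q.lo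
              rw [Function.update_idem, ← hlo, Function.update_eq_self]
            · show insert x (Q.fr.erase x) = Q.fr
              exact Finset.insert_erase hx
          rw [this]
          show sg (Q.fr.erase x) x • one Q = _
          rw [sg_erase_self]
        · refine ⟨?_, ?_, (hD Q hQ x hx).1⟩
          · show x ∉ Q.fr.erase x
            simp
          · show Function.update Q.lo x (Q.lo x + 1) x = b + 1
            simp [hlo]
      have hb : lowQ D x b (Q.dn x) = 0 := by
        unfold lowQ
        rw [if_neg]
        rintro ⟨_, h, _⟩
        have h' : Q.lo x = b + 1 := h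
        omega
      rw [ha, hb, sub_zero, smul_smul, sg_sq, one_smul]
    · intro j hj hjx
      have ha : lowQ D x b (Q.up j) = 0 := by
        unfold lowQ
        rw [if_neg]
        rintro ⟨h, _⟩
        exact h (Finset.mem_erase.2 ⟨hjx.symm, hx⟩)
      have hb : lowQ D x b (Q.dn j) = 0 := by
        unfold lowQ
        rw [if_neg]
        rintro ⟨h, _⟩
        exact h (Finset.mem_erase.2 ⟨hjx.symm, hx⟩)
      rw [ha, hb, sub_zero, smul_zero]
    · intro h
      exact absurd hx h
  · rw [if_neg hx]
    rcases h2 hx with hlo | hlo
    · have hz : lowQ D x b Q = 0 := by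
        unfold lowQ
        rw [if_neg]
        rintro ⟨_, h, _⟩
        omega
      have hQe : (⟨Function.update Q.lo x b, Q.fr⟩ : Cube I) = Q := by
        ext1
        · show Function.update Q.lo x b = Q.lo
          rw [← hlo, Function.update_eq_self]
        · rfl
      rw [low_one, hz, map_zero, zero_add, hQe, sub_self, hsum]
      refine Finset.sum_eq_zero fun j hj => ?_
      have hjx : x ≠ j := fun h => hx (h ▸ hj)
      have ha : lowQ D x b (Q.up j) = 0 := by
        unfold lowQ
        rw [if_neg]
        rintro ⟨_, h, _⟩
        have h' : Function.update Q.lo j (Q.lo j + 1) x = b + 1 := h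
        rw [Function.update_of_ne hjx] at h'
        omega
      have hb : lowQ D x b (Q.dn j) = 0 := by
        unfold lowQ
        rw [if_neg]
        rintro ⟨_, h, _⟩
        have h' : Q.lo x = b + 1 := h
        omega
      rw [ha, hb, sub_zero, smul_zero]
    · have hz : lowQ D x b Q =
          sg Q.fr x • one ⟨Function.update Q.lo x b, insert x Q.fr⟩ := by
        unfold lowQ
        rw [if_pos ⟨hx, hlo, hQ⟩]
      set P : Cube I := ⟨Function.update Q.lo x b, insert x Q.fr⟩ with hP
      have hbP : bd (one P) = sg Q.fr x • (one Q - one ⟨Function.update Q.lo x b, Q.fr⟩) +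
          ∑ j ∈ Q.fr, sg (insert x Q.fr) j • (one (P.up j) - one (P.dn j)) := by
        rw [bd_one', bdQ]
        show ∑ j ∈ insert x Q.fr, sg (insert x Q.fr) j • (one (P.up j) - one (P.dn j)) = _
        rw [Finset.sum_insert hx]
        congr 1
        have e1 : sg (insert x Q.fr) x = sg Q.fr x := by
          rw [← sg_erase_self (insert x Q.fr) x, Finset.erase_insert hx]
        have e2 : P.up x = Q := by
          ext1
          · show Function.update (Function.update Q.lo x b) x
              (Function.update Q.lo x b x + 1) = Q.lo
            rw [Function.update_idem, Function.update_self, ← hlo, Function.update_eq_self]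
          · show (insert x Q.fr).erase x = Q.fr
            exact Finset.erase_insert hx
        have e3 : P.dn x = ⟨Function.update Q.lo x b, Q.fr⟩ := by
          ext1
          · rfl
          · show (insert x Q.fr).erase x = Q.fr
            exact Finset.erase_insert hx
        rw [e1, e2, e3]
      rw [low_one, hz, map_smul, hbP, hsum, smul_add, smul_smul, sg_sq, one_smul, add_assoc,
        Finset.smul_sum, ← Finset.sum_add_distrib, Finset.sum_eq_zero, add_zero]
      intro j hj
      have hjx : x ≠ j := fun h => hx (h ▸ hj)
      have ha : lowQ D x b (Q.up j) = sg (Q.fr.erase j) x • one (P.up j) := by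
        unfold lowQ
        rw [if_pos]
        · have : (⟨Function.update (Q.up j).lo x b, insert x (Q.up j).fr⟩ : Cube I) =
              P.up j := by
            ext1
            · show Function.update (Function.update Q.lo j (Q.lo j + 1)) x b =
                Function.update (Function.update Q.lo x b) j (Function.update Q.lo x b j + 1)
              rw [Function.update_comm hjx.symm, Function.update_of_ne hjx.symm]
            · show insert x (Q.fr.erase j) = (insert x Q.fr).erase j
              rw [Finset.erase_insert_of_ne hjx]
          rw [this]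
          rfl
        · refine ⟨?_, ?_, (hD Q hQ j hj).1⟩
          · show x ∉ Q.fr.erase j
            simp [hx]
          · show Function.update Q.lo j (Q.lo j + 1) x = b + 1
            rw [Function.update_of_ne hjx, hlo]
      have hb : lowQ D x b (Q.dn j) = sg (Q.fr.erase j) x • one (P.dn j) := by
        unfold lowQ
        rw [if_pos]
        · have : (⟨Function.update (Q.dn j).lo x b, insert x (Q.dn j).fr⟩ : Cube I) =
              P.dn j := by
            ext1
            · rfl
            · show insert x (Q.fr.erase j) = (insert x Q.fr).erase j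
              rw [Finset.erase_insert_of_ne hjx]
          rw [this]
          rfl
        · refine ⟨?_, hlo, (hD Q hQ j hj).2⟩
          show x ∉ Q.fr.erase j
          simp [hx]
      rw [ha, hb, ← smul_sub, smul_smul, smul_smul, ← add_smul, sg_cancel Q.fr x j hx hj,
        zero_smul]

end AGE
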