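import Pool.Agent.AGE.ACY1

/-!
# Project AGE, layer ACY, module 2: one step of the contraction stays in the complex

`mov_face`: the property `Mov` passes to faces. `low_mem`: the elementary contraction maps a
settled cube into `PP n t`. `step_mem`: one step `1 - bd ∘ low - low ∘ bd` maps a cube with the
coordinates of `Z` settled to a chain of cubes with the coordinates of `insert x Z` settled.
-/

set_option autoImplicit false
set_option linter.unusedSectionVars false

noncomputable section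

namespace AGE

variable {J : Type} [LinearOrder J] {N : ℕ} [NeZero N]

private theorem ay2_fr (g : ZMod N) (Q : Cube (JJ N J)) (j : J) :
    j ∈ (blk g Q).fr ↔ (JJ.a g j : JJ N J) ∈ Q.fr := by
  simp [blk]

private theorem ay2_lo (g : ZMod N) (Q : Cube (JJ N J)) (j : J) :
    (blk g Q).lo j = Q.lo (JJ.a g j) := rfl

private theorem ay2_hi (g : ZMod N) (Q : Cube (JJ N J)) (j : J) :
    (blk g Q).hi j = Q.hi (JJ.a g j) := by
  unfold Cube.hi
  by_cases h : (JJ.a g j : JJ N J) ∈ Q.fr
  · rw [if_pos h, if_pos ((ay2_fr g Q j).2 h), ay2_lo]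
  · rw [if_neg h, if_neg (fun h' => h ((ay2_fr g Q j).1 h')), ay2_lo]

private theorem ay2_lohi {I : Type} [LinearOrder I] (Q : Cube I) (y : I) : Q.lo y ≤ Q.hi y := by
  unfold Cube.hi
  split_ifs <;> omega

private theorem ay2_EE {P Q : Cube (JJ N J)} (hQ : EE Q)
    (hlo : ∀ g k, 0 ≤ P.lo (JJ.e g k) ∧ P.lo (JJ.e g k) ≤ Q.lo (JJ.e g k))
    (hhi : ∀ g k, P.hi (JJ.e g k) ≤ Q.hi (JJ.e g k))
    (ho : ∃ g k, P.lo (JJ.e g k) = 1) : EE P := by
  refine ⟨fun g k => ⟨(hlo g k).1, (hhi g k).trans (hQ.rng g k).2⟩, ?_, ho, ?_⟩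
  · refine hQ.fin.subset ?_
    rintro ⟨g, k⟩ h
    have h1 : P.lo (JJ.e g k) = 1 := h
    have h2 := (hlo g k).2
    have h3 := ay2_lohi Q (JJ.e g k : JJ N J)
    have h4 := (hQ.rng g k).2
    show Q.lo (JJ.e g k) = 1
    omega
  · intro k g g' h h'
    have h1 := hhi g k
    have h2 := hhi g' k
    have h3 := (hQ.rng g k).2
    have h4 := (hQ.rng g' k).2
    exact hQ.col k g g' (by omega) (by omega)

/-- faces have blocks of smaller dimension -/
private theorem ay2_blk_mono {P Q : Cube (JJ N J)} (h : P.fr ⊆ Q.fr) (g : ZMod N) :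
    (blk g P).dim ≤ (blk g Q).dim := by
  unfold Cube.dim
  apply Finset.card_le_card
  intro j hj
  rw [ay2_fr] at hj ⊢
  exact h hj

theorem mov_face (n : ℕ) (x : JJ N J) (Q : Cube (JJ N J)) (h : Mov n x Q) :
    ∀ y ∈ Q.fr, Mov n x (Q.up y) ∧ Mov n x (Q.dn y) := by
  intro y _
  constructor
  · intro g j hx
    exact lt_of_le_of_lt (ay2_blk_mono (Finset.erase_subset _ _) g) (h g j hx)
  · intro g j hx
    exact lt_of_le_of_lt (ay2_blk_mono (Finset.erase_subset _ _) g) (h g j hx)

private theorem ay2_one_mem {I : Type} [LinearOrder I] {K : Set (Cube I)} {Q : Cube I} {i : ℕ}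
    (h : Q ∈ K) (hi : Q.dim = i) : one Q ∈ CC K i :=
  Finsupp.single_mem_supported ℤ _ (show Q ∈ {Q : Cube I | Q ∈ K ∧ Q.dim = i} from ⟨h, hi⟩)

/-- the new cube -/
private theorem ay2_new_hi {I : Type} [LinearOrder I] (Q : Cube I) (x : I) (b : ℤ) (hx : x ∉ Q.fr)
    (hb : Q.lo x = b + 1) (y : I) :
    (⟨Function.update Q.lo x b, insert x Q.fr⟩ : Cube I).hi y = Q.hi y := by
  unfold Cube.hi
  by_cases hy : y = x
  · subst hy
    simp [hx, hb]
  · simp [hy]

private theorem ay2_fr_insert (g : ZMod N) (Q : Cube (JJ N J)) (x : JJ N J) (b : ℤ)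
    (h : ∀ j, x ≠ JJ.a g j) :
    (blk g (⟨Function.update Q.lo x b, insert x Q.fr⟩ : Cube (JJ N J))).dim = (blk g Q).dim := by
  unfold Cube.dim
  congr 1
  ext j
  rw [ay2_fr, ay2_fr]
  show (JJ.a g j : JJ N J) ∈ insert x Q.fr ↔ _
  rw [Finset.mem_insert]
  constructor
  · rintro (h1 | h1)
    · exact absurd h1.symm (h j)
    · exact h1
  · exact Or.inr

private theorem ay2_fr_insert' (g : ZMod N) (Q : Cube (JJ N J)) (j : J) (b : ℤ)
    (h : (JJ.a g j : JJ N J) ∉ Q.fr) :
    (blk g (⟨Function.update Q.lo (JJ.a g j) b, insert (JJ.a g j) Q.fr⟩ : Cube (JJ N J))).dim =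
      (blk g Q).dim + 1 := by
  unfold Cube.dim
  have : (blk g (⟨Function.update Q.lo (JJ.a g j) b, insert (JJ.a g j) Q.fr⟩ :
      Cube (JJ N J))).fr = insert j (blk g Q).fr := by
    ext j'
    rw [ay2_fr]
    show (JJ.a g j' : JJ N J) ∈ insert (JJ.a g j) Q.fr ↔ _
    rw [Finset.mem_insert, Finset.mem_insert, ay2_fr]
    simp
  rw [this, Finset.card_insert_of_notMem]
  rwa [ay2_fr]

/-- bounds for the coordinates -/
private theorem ay2_rng {n : ℕ} {t : Cube J} {x : JJ N J}
    (hxt : ∀ g j, x = JJ.a g j → j ∈ t.fr) {Q : Cube (JJ N J)} (hQ : Q ∈ PP n t) :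
    bas t x ≤ Q.lo x ∧ Q.hi x ≤ bas t x + 1 := by
  cases x with
  | a g j =>
    have h := (hQ.1 g).1 j
    rw [ay2_lo, ay2_hi] at h
    have hj := hxt g j rfl
    have ht : t.hi j = t.lo j + 1 := by
      unfold Cube.hi
      rw [if_pos hj]
    show t.lo j ≤ _ ∧ _ ≤ t.lo j + 1
    rw [← ht]
    exact h
  | e g k =>
    have h := hQ.2.1.rng g k
    show (0 : ℤ) ≤ _ ∧ _ ≤ (0 : ℤ) + 1
    simpa using h

theorem low_mem (n : ℕ) (t : Cube J) (g0 : ZMod N) (k0 : ℕ) (W Z : Finset (JJ N J))
    (x : JJ N J) (hx0 : x ≠ JJ.e g0 k0) (hxt : ∀ g j, x = JJ.a g j → j ∈ t.fr)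
    (Q : Cube (JJ N J)) (hQ : Stl n t g0 k0 W Z Q) (hi : Q.dim ≤ n + 1) :
    low (Mov n x) x (bas t x) (one Q) ∈ CC (PP n t) (Q.dim + 1) := by
  classical
  rw [low_one]
  unfold lowQ
  by_cases hc : x ∉ Q.fr ∧ Q.lo x = bas t x + 1 ∧ Mov n x Q
  swap
  · rw [if_neg hc]
    exact Submodule.zero_mem _
  rw [if_pos hc]
  obtain ⟨hx, hb, hM⟩ := hc
  refine Submodule.smul_mem _ _ ?_
  have hcard : (⟨Function.update Q.lo x (bas t x), insert x Q.fr⟩ : Cube (JJ N J)).dim =
      Q.dim + 1 := by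
    show (insert x Q.fr).card = Q.fr.card + 1
    exact Finset.card_insert_of_notMem hx
  have hhi := ay2_new_hi Q x (bas t x) hx hb
  set P : Cube (JJ N J) := ⟨Function.update Q.lo x (bas t x), insert x Q.fr⟩ with hP
  have hne : ∀ y, y ≠ x → P.lo y = Q.lo y := fun y hy => Function.update_of_ne hy _ _
  have hxx : P.lo x = bas t x := Function.update_self _ _ _
  have hmem := hQ.mem
  refine ay2_one_mem ⟨fun g => ⟨fun j => ?_, ?_⟩, ?_, by omega⟩ hcard
  · rw [ay2_lo, ay2_hi, hhi]
    have h := (hmem.1 g).1 j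
    rw [ay2_lo, ay2_hi] at h
    refine ⟨?_, h.2⟩
    by_cases hy : (JJ.a g j : JJ N J) = x
    · rw [hy, hxx, ← hy]
      exact le_refl _
    · rw [hne _ hy]
      exact h.1
  · by_cases hy : ∃ j, x = JJ.a g j
    · obtain ⟨j, rfl⟩ := hy
      rw [hP, ay2_fr_insert' g Q j _ hx]
      exact hM g j rfl
    · push Not at hy
      rw [hP, ay2_fr_insert g Q x _ hy]
      exact (hmem.1 g).2
  · refine ay2_EE hmem.2.1 ?_ (fun g k => le_of_eq (hhi _)) ?_
    · intro g k
      by_cases hy : (JJ.e g k : JJ N J) = x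
      · rw [hy, hxx, hb, ← hy]
        exact ⟨le_refl _, by show (0 : ℤ) ≤ 0 + 1; omega⟩
      · rw [hne _ hy]
        exact ⟨(hmem.2.1.rng g k).1, le_refl _⟩
    · refine ⟨g0, k0, ?_⟩
      rw [hne _ hx0.symm]
      exact hQ.top.2

/-- the property `Mov` depends only on the dimensions of the blocks -/
private theorem ay2_mov_congr {n : ℕ} {y : JJ N J} {P Q : Cube (JJ N J)}
    (h : ∀ g j, y = JJ.a g j → (blk g P).dim = (blk g Q).dim) (hm : ¬ Mov n y Q) :
    ¬ Mov n y P := by
  intro hP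
  apply hm
  intro g j hy
  rw [← h g j hy]
  exact hP g j hy

/-- the cubes which occur for an `n`-dimensional block -/
private theorem ay2_caseB (n : ℕ) (t : Cube J) (g0 : ZMod N) (k0 : ℕ) (W Z : Finset (JJ N J))
    (g : ZMod N) (j : J) (hjt : j ∈ t.fr) (Q : Cube (JJ N J)) (hQ : Stl n t g0 k0 W Z Q)
    (hn : (blk g Q).dim = n) (y : JJ N J) (hy : y ∈ Q.fr) (F : Cube (JJ N J))
    (hF : F = Q.up y ∨ F = Q.dn y) :
    lowQ (Mov n (JJ.a g j)) (JJ.a g j) (bas t (JJ.a g j)) F ∈
      CC {P | Stl n t g0 k0 W (insert (JJ.a g j) Z) P} Q.dim := by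
  classical
  have hFfr : F.fr = Q.fr.erase y := by rcases hF with rfl | rfl <;> rfl
  have hFlo : ∀ z, z ≠ y → F.lo z = Q.lo z := by
    intro z hz
    rcases hF with rfl | rfl
    · exact Function.update_of_ne hz _ _
    · rfl
  have hFy : Q.lo y ≤ F.lo y ∧ F.lo y ≤ Q.hi y := by
    have hh : Q.hi y = Q.lo y + 1 := by
      unfold Cube.hi
      rw [if_pos hy]
    rcases hF with rfl | rfl
    · have : (Q.up y).lo y = Q.lo y + 1 := Function.update_self _ _ _
      omega
    · have : (Q.dn y).lo y = Q.lo y := rfl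
      omega
  unfold lowQ
  by_cases hc : (JJ.a g j : JJ N J) ∉ F.fr ∧ F.lo (JJ.a g j) = bas t (JJ.a g j) + 1 ∧
      Mov n (JJ.a g j) F
  swap
  · rw [if_neg hc]
    exact Submodule.zero_mem _
  rw [if_pos hc]
  obtain ⟨hx, hb, hM⟩ := hc
  refine Submodule.smul_mem _ _ ?_
  have hlt : (blk g F).dim < n := hM g j rfl
  -- `y` is in block `g`
  have hyg : ∃ j', y = JJ.a g j' := by
    by_contra hno
    push Not at hno
    have : (blk g F).dim = (blk g Q).dim := by
      unfold Cube.dim
      congr 1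
      ext j'
      rw [ay2_fr, ay2_fr, hFfr, Finset.mem_erase]
      exact ⟨fun h => h.2, fun h => ⟨fun h' => hno j' h'.symm, h⟩⟩
    omega
  obtain ⟨j', rfl⟩ := hyg
  have hFdim : (blk g F).dim + 1 = (blk g Q).dim := by
    have : (blk g F).fr = (blk g Q).fr.erase j' := by
      ext i
      rw [ay2_fr, hFfr, Finset.mem_erase, Finset.mem_erase, ay2_fr]
      simp
    unfold Cube.dim
    rw [this]
    exact Finset.card_erase_add_one ((ay2_fr g Q j').2 hy)
  have hdF : F.dim + 1 = Q.dim := by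
    unfold Cube.dim
    rw [hFfr]
    exact Finset.card_erase_add_one hy
  have hhi := ay2_new_hi F (JJ.a g j) (bas t (JJ.a g j)) hx hb
  have hPn := ay2_fr_insert' g F j (bas t (JJ.a g j)) hx
  have hPg : ∀ g', g' ≠ g → (blk g' (⟨Function.update F.lo (JJ.a g j) (bas t (JJ.a g j)),
      insert (JJ.a g j) F.fr⟩ : Cube (JJ N J))).dim = (blk g' Q).dim := by
    intro g' hg'
    rw [ay2_fr_insert g' F (JJ.a g j) _ (fun i h => hg' (by
      injection h with h1 h2
      exact h1.symm))]
    unfold Cube.dim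
    congr 1
    ext i
    rw [ay2_fr, ay2_fr, hFfr, Finset.mem_erase]
    exact ⟨fun h => h.2, fun h => ⟨fun h' => hg' (by
      injection h' with h1 h2), h⟩⟩
  have hPd : (⟨Function.update F.lo (JJ.a g j) (bas t (JJ.a g j)),
      insert (JJ.a g j) F.fr⟩ : Cube (JJ N J)).dim = Q.dim := by
    show (insert (JJ.a g j) F.fr).card = _
    rw [Finset.card_insert_of_notMem hx]
    exact hdF
  set P : Cube (JJ N J) := ⟨Function.update F.lo (JJ.a g j) (bas t (JJ.a g j)),
      insert (JJ.a g j) F.fr⟩ with hP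
  have hne : ∀ z, z ≠ (JJ.a g j : JJ N J) → P.lo z = F.lo z :=
    fun z hz => Function.update_of_ne hz _ _
  have hxx : P.lo (JJ.a g j) = bas t (JJ.a g j) := Function.update_self _ _ _
  have hFhi : ∀ z, z ≠ (JJ.a g j' : JJ N J) → F.hi z = Q.hi z := by
    intro z hz
    unfold Cube.hi
    rw [hFlo z hz, hFfr]
    simp [hz]
  have hFhi' : F.hi (JJ.a g j') = F.lo (JJ.a g j') := by
    unfold Cube.hi
    rw [hFfr]
    simp
  have hE : ∀ (g' : ZMod N) (k : ℕ), (JJ.e g' k : JJ N J) ≠ JJ.a g j ∧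
      (JJ.e g' k : JJ N J) ≠ JJ.a g j' := fun g' k => ⟨by simp, by simp⟩
  have hElo : ∀ (g' : ZMod N) (k : ℕ), P.lo (JJ.e g' k) = Q.lo (JJ.e g' k) := fun g' k => by
    rw [hne _ (hE g' k).1, hFlo _ (hE g' k).2]
  have hEfr : ∀ (g' : ZMod N) (k : ℕ), (JJ.e g' k : JJ N J) ∈ P.fr ↔ JJ.e g' k ∈ Q.fr := by
    intro g' k
    show JJ.e g' k ∈ insert (JJ.a g j) F.fr ↔ _
    rw [hFfr, Finset.mem_insert, Finset.mem_erase]
    exact ⟨fun h => by
      rcases h with h | h
      · exact absurd h (hE g' k).1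
      · exact h.2, fun h => Or.inr ⟨(hE g' k).2, h⟩⟩
  have hmem := hQ.mem
  refine ay2_one_mem ?_ hPd
  have hPPP : P ∈ PP n t := by
    refine ⟨fun g' => ⟨fun i => ?_, ?_⟩, ?_, by rw [hPd]; exact hmem.2.2⟩
    · rw [ay2_lo, ay2_hi, hhi]
      have h := (hmem.1 g').1 i
      rw [ay2_lo, ay2_hi] at h
      by_cases h1 : (JJ.a g' i : JJ N J) = JJ.a g j
      · have hi1 : i = j := by
          injection h1
        have hb' : F.lo (JJ.a g j) = t.lo j + 1 := hb
        have hFx : F.hi (JJ.a g j) = F.lo (JJ.a g j) := by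
          unfold Cube.hi
          rw [if_neg hx]
        rw [h1, hxx, hi1, hFx, hb']
        refine ⟨le_refl _, ?_⟩
        unfold Cube.hi
        rw [if_pos hjt]
      · rw [hne _ h1]
        by_cases h2 : (JJ.a g' i : JJ N J) = JJ.a g j'
        · have hi2 : i = j' := by
            injection h2
          rw [h2] at h
          rw [h2, hFhi']
          exact ⟨h.1.trans hFy.1, hFy.2.trans h.2⟩
        · rw [hFlo _ h2, hFhi _ h2]
          exact h
    · by_cases hg' : g' = g
      · rw [hg', hPn]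
        omega
      · rw [hPg g' hg']
        exact (hmem.1 g').2
    · refine ay2_EE hmem.2.1 ?_ ?_ ?_
      · intro g' k
        rw [hElo]
        exact ⟨(hmem.2.1.rng g' k).1, le_refl _⟩
      · intro g' k
        rw [hhi, hFhi _ (hE g' k).2]
      · exact ⟨g0, k0, by rw [hElo]; exact hQ.top.2⟩
  refine ⟨hPPP, ⟨fun h => hQ.top.1 ((hEfr _ _).1 h), by rw [hElo]; exact hQ.top.2⟩, ?_, ?_⟩
  · intro g' k h1 h2
    have h := hQ.out g' k h1 h2
    exact ⟨fun h' => h.1 ((hEfr _ _).1 h'), by rw [hElo]; exact h.2⟩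
  · intro z hz
    by_cases hzg : ∃ i, z = JJ.a g i
    · left
      obtain ⟨i, rfl⟩ := hzg
      intro h
      have := h g i rfl
      omega
    · push Not at hzg
      have hzj : z ≠ JJ.a g j := hzg j
      have hzj' : z ≠ JJ.a g j' := hzg j'
      have hzZ : z ∈ Z := (Finset.mem_insert.1 hz).resolve_left hzj
      rcases hQ.stl z hzZ with h | h
      · left
        refine ay2_mov_congr (fun g' i hzi => ?_) h
        refine hPg g' ?_
        rintro rfl
        exact hzg i hzi
      · right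
        refine ⟨?_, ?_⟩
        · show z ∉ insert (JJ.a g j) F.fr
          rw [hFfr, Finset.mem_insert, Finset.mem_erase]
          rintro (h' | h')
          · exact hzj h'
          · exact h.1 h'.2
        · rw [hne _ hzj, hFlo _ hzj']
          exact h.2

theorem step_mem (n : ℕ) (t : Cube J) (g0 : ZMod N) (k0 : ℕ) (W Z : Finset (JJ N J))
    (x : JJ N J) (hx0 : x ≠ JJ.e g0 k0) (hxt : ∀ g j, x = JJ.a g j → j ∈ t.fr)
    (Q : Cube (JJ N J)) (hQ : Stl n t g0 k0 W Z Q) :
    one Q - bd (low (Mov n x) x (bas t x) (one Q)) - low (Mov n x) x (bas t x) (bd (one Q)) ∈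
      CC {P | Stl n t g0 k0 W (insert x Z) P} Q.dim := by
  classical
  have hmem := hQ.mem
  have hr := ay2_rng hxt hmem
  by_cases hM : Mov n x Q
  · have hh := low_hom (Mov n x) (fun Q h => mov_face n x Q h) x (bas t x) Q hM
      (fun h => by
        have : Q.hi x = Q.lo x + 1 := by
          unfold Cube.hi
          rw [if_pos h]
        omega)
      (fun h => by
        have : Q.hi x = Q.lo x := by
          unfold Cube.hi
          rw [if_neg h]
        omega)
    rw [sub_sub, hh]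
    by_cases hx : x ∈ Q.fr
    · rw [if_pos hx, sub_zero, sub_self]
      exact Submodule.zero_mem _
    · rw [if_neg hx, sub_sub_cancel]
      have hlo : Q.hi x = Q.lo x := by
        unfold Cube.hi
        rw [if_neg hx]
      set P : Cube (JJ N J) := ⟨Function.update Q.lo x (bas t x), Q.fr⟩ with hP
      have hne : ∀ y, y ≠ x → P.lo y = Q.lo y := fun y hy => Function.update_of_ne hy _ _
      have hxx : P.lo x = bas t x := Function.update_self _ _ _
      have hhi : ∀ y, y ≠ x → P.hi y = Q.hi y := by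
        intro y hy
        unfold Cube.hi
        rw [hne y hy]
      have hhx : P.hi x = bas t x := by
        unfold Cube.hi
        rw [if_neg hx, hxx]
      have hbl : ∀ g, (blk g P).dim = (blk g Q).dim := fun g => rfl
      refine ay2_one_mem (Q := P) ?_ rfl
      refine ⟨⟨fun g => ⟨fun j => ?_, (hmem.1 g).2⟩, ?_, hmem.2.2⟩, ⟨hQ.top.1, ?_⟩, ?_, ?_⟩
      · rw [ay2_lo, ay2_hi]
        have h := (hmem.1 g).1 j
        rw [ay2_lo, ay2_hi] at h
        by_cases hy : (JJ.a g j : JJ N J) = x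
        · rw [hy, hxx, hhx, ← hy]
          refine ⟨le_refl _, ?_⟩
          show t.lo j ≤ t.hi j
          exact ay2_lohi t j
        · rw [hne _ hy, hhi _ hy]
          exact h
      · refine ay2_EE hmem.2.1 ?_ ?_ ?_
        · intro g k
          by_cases hy : (JJ.e g k : JJ N J) = x
          · rw [hy, hxx]
            refine ⟨?_, hr.1⟩
            rw [← hy]
            exact le_refl _
          · rw [hne _ hy]
            exact ⟨(hmem.2.1.rng g k).1, le_refl _⟩
        · intro g k
          by_cases hy : (JJ.e g k : JJ N J) = x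
          · rw [hy, hhx, hlo]
            exact hr.1
          · rw [hhi _ hy]
        · exact ⟨g0, k0, by rw [hne _ hx0.symm]; exact hQ.top.2⟩
      · rw [hne _ hx0.symm]
        exact hQ.top.2
      · intro g k h1 h2
        have h := hQ.out g k h1 h2
        refine ⟨h.1, ?_⟩
        by_cases hy : (JJ.e g k : JJ N J) = x
        · rw [hy, hxx, ← hy]
          rfl
        · rw [hne _ hy]
          exact h.2
      · intro z hz
        by_cases hzx : z = x
        · right
          rw [hzx]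
          exact ⟨hx, hxx⟩
        · rcases hQ.stl z ((Finset.mem_insert.1 hz).resolve_left hzx) with h | h
          · left
            exact ay2_mov_congr (fun g j _ => hbl g) h
          · right
            exact ⟨h.1, by rw [hne _ hzx]; exact h.2⟩
  · -- the block of `x` is `n`-dimensional
    have hz : low (Mov n x) x (bas t x) (one Q) = 0 := by
      rw [low_one]
      unfold lowQ
      rw [if_neg]
      rintro ⟨_, _, h⟩
      exact hM h
    have hsum : low (Mov n x) x (bas t x) (bd (one Q)) =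
        ∑ y ∈ Q.fr, sg Q.fr y • (lowQ (Mov n x) x (bas t x) (Q.up y) -
          lowQ (Mov n x) x (bas t x) (Q.dn y)) := by
      have : bd (one Q) = bdQ Q := by simp [bd, one]
      rw [this, bdQ, map_sum]
      refine Finset.sum_congr rfl fun j _ => ?_
      rw [map_smul, map_sub, low_one, low_one]
    have hM' := hM
    unfold Mov at hM
    push Not at hM
    obtain ⟨g, j, rfl, hge⟩ := hM
    have hn : (blk g Q).dim = n := le_antisymm (hmem.1 g).2 hge
    have hjt := hxt g j rfl
    rw [hz, map_zero, sub_zero, hsum]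
    refine Submodule.sub_mem _ (ay2_one_mem ?_ rfl) (Submodule.sum_mem _ fun y hy =>
      Submodule.smul_mem _ _ (Submodule.sub_mem _ ?_ ?_))
    · refine ⟨hmem, hQ.top, hQ.out, ?_⟩
      intro z hz'
      by_cases hzx : z = JJ.a g j
      · left
        rw [hzx]
        exact hM'
      · exact hQ.stl z ((Finset.mem_insert.1 hz').resolve_left hzx)
    · exact ay2_caseB n t g0 k0 W Z g j hjt Q hQ hn y hy _ (Or.inl rfl)
    · exact ay2_caseB n t g0 k0 W Z g j hjt Q hQ hn y hy _ (Or.inr rfl)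

end AGE
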