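import Pool.Agent.AGE.ACY0

/-!
# Project AGE, layer ACY, module 3: the contraction preserves the kernel of the projections

If `x` is not in block `h` then `pr h ∘ low` is zero. If `x = a h j` then `pr h ∘ low = low ∘ pr h`, where on the right the coordinate `j` of `J` is lowered
on the cubes of dimension less than `n` (both sides are linear and agree on the basis cubes).
-/

set_option autoImplicit false

noncomputable section

namespace AGE

variable {J : Type} [LinearOrder J] {N : ℕ} [NeZero N]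

private theorem ACY3_lt (h : ZMod N) (i j : J) : (JJ.a h i : JJ N J) < JJ.a h j ↔ i < j := by
  have h1 : (JJ.a h i : JJ N J) < JJ.a h j ↔ JJ.code (JJ.a h i : JJ N J) < JJ.code (JJ.a h j : JJ N J) :=
    Iff.rfl
  rw [h1]
  simp only [JJ.code, Prod.Lex.toLex_lt_toLex, lt_self_iff_false, true_and, false_or,
    WithBot.coe_lt_coe]

omit [LinearOrder J] [NeZero N] in
private theorem ACY3_blk (h : ZMod N) (Q : Cube (JJ N J)) (i : J) : i ∈ (blk h Q).fr ↔ JJ.a h i ∈ Q.fr :=
  Finset.mem_preimage (hf := fun _ _ _ _ hh => (JJ.a.inj hh).2)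

omit [LinearOrder J] [NeZero N] in
private theorem ACY3_pr (h : ZMod N) (Q : Cube (JJ N J)) : pr h (one Q) = prQ h Q := by
  simp [pr, one]

omit [LinearOrder J] [NeZero N] in
private theorem ACY3_prQ0 (h : ZMod N) {Q : Cube (JJ N J)} {y : JJ N J} (hy : y ∈ Q.fr)
    (hn : ∀ j, y ≠ JJ.a h j) : prQ h Q = 0 := by
  rw [prQ, if_neg]
  intro hall
  obtain ⟨j, hj⟩ := hall y hy
  exact hn j hj

private theorem ACY3_ext {A B : Type} [AddCommGroup B] (f g : (A →₀ ℤ) →ₗ[ℤ] B)
    (h : ∀ a, f (Finsupp.single a 1) = g (Finsupp.single a 1)) : f = g := by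
  refine Finsupp.lhom_ext' fun a => ?_
  refine LinearMap.ext_ring ?_
  simpa using h a

private theorem ACY3_zero (n : ℕ) (h : ZMod N) (x : JJ N J) (b : ℤ) (hx : ∀ j, x ≠ JJ.a h j) :
    (pr h) ∘ₗ (low (Mov n x) x b) = 0 := by
  refine ACY3_ext _ _ fun Q => ?_
  rw [LinearMap.comp_apply, LinearMap.zero_apply]
  change pr h (low (Mov n x) x b (one Q)) = 0
  rw [low_one, lowQ]
  split_ifs with hc
  · rw [map_smul, ACY3_pr, ACY3_prQ0 h (Finset.mem_insert_self x Q.fr) hx, smul_zero]
  · exact map_zero _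

private theorem ACY3_com (n : ℕ) (h : ZMod N) (j : J) (b : ℤ) :
    (pr h) ∘ₗ (low (Mov n (JJ.a h j)) (JJ.a h j) b) =
      (low (fun P : Cube J => P.dim < n) j b) ∘ₗ (pr h) := by
  refine ACY3_ext _ _ fun Q => ?_
  rw [LinearMap.comp_apply, LinearMap.comp_apply]
  change pr h (low (Mov n (JJ.a h j)) (JJ.a h j) b (one Q)) =
    low (fun P : Cube J => P.dim < n) j b (pr h (one Q))
  rw [low_one, ACY3_pr]
  by_cases hall : ∀ x ∈ Q.fr, ∃ j, x = JJ.a h j
  · have e1 : prQ h Q = one (blk h Q) := by rw [prQ, if_pos hall]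
    rw [e1, low_one]
    have hc : (JJ.a h j ∉ Q.fr ∧ Q.lo (JJ.a h j) = b + 1 ∧ Mov n (JJ.a h j) Q) ↔
        (j ∉ (blk h Q).fr ∧ (blk h Q).lo j = b + 1 ∧ (blk h Q).dim < n) := by
      have e2 : Mov n (JJ.a h j) Q ↔ (blk h Q).dim < n := by
        constructor
        · intro hm
          exact hm h j rfl
        · intro hd g i hg
          rw [JJ.a.injEq] at hg
          rw [← hg.1]
          exact hd
      have e3 : j ∈ (blk h Q).fr ↔ JJ.a h j ∈ Q.fr := ACY3_blk h Q j
      rw [e2, e3]
      exact Iff.rfl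
    rw [lowQ, lowQ]
    by_cases hcc : (JJ.a h j ∉ Q.fr ∧ Q.lo (JJ.a h j) = b + 1 ∧ Mov n (JJ.a h j) Q)
    · rw [if_pos hcc, if_pos (hc.1 hcc), map_smul, ACY3_pr]
      have e4 : sg Q.fr (JJ.a h j) = sg (blk h Q).fr j := by
        rw [sg, sg]
        congr 1
        have e5 : Q.fr.filter (· < JJ.a h j) =
            ((blk h Q).fr.filter (· < j)).map ⟨JJ.a h, fun _ _ hi => by simpa using hi⟩ := by
          ext y
          simp only [Finset.mem_filter, Finset.mem_map, ACY3_blk]
          constructor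
          · rintro ⟨hy, hlt⟩
            obtain ⟨i, rfl⟩ := hall y hy
            exact ⟨i, ⟨hy, (ACY3_lt h i j).1 hlt⟩, rfl⟩
          · rintro ⟨i, ⟨hi, hlt⟩, rfl⟩
            exact ⟨hi, (ACY3_lt h i j).2 hlt⟩
        rw [e5, Finset.card_map]
      rw [e4]
      congr 1
      rw [prQ, if_pos]
      · congr 1
        ext i
        · simp only [blk, Function.update_apply, JJ.a.injEq, true_and]
        · rw [ACY3_blk, Finset.mem_insert, Finset.mem_insert, ACY3_blk, JJ.a.injEq]
          simp only [true_and]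
      · intro y hy
        rw [Finset.mem_insert] at hy
        rcases hy with rfl | hy
        · exact ⟨j, rfl⟩
        · exact hall y hy
    · rw [if_neg hcc, if_neg fun hh => hcc (hc.2 hh), map_zero]
  · have e1 : prQ h Q = 0 := by rw [prQ, if_neg hall]
    rw [e1, map_zero, lowQ]
    split_ifs with hc
    · rw [map_smul, ACY3_pr]
      push Not at hall
      obtain ⟨y, hy, hyn⟩ := hall
      rw [ACY3_prQ0 h (Finset.mem_insert_of_mem hy) hyn, smul_zero]
    · exact map_zero _

theorem pr_low (n : ℕ) (h : ZMod N) (x : JJ N J) (b : ℤ) (z : Ch (JJ N J)) (hz : pr h z = 0) :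
    pr h (low (Mov n x) x b z) = 0 := by
  by_cases hx : ∃ j, x = JJ.a h j
  · obtain ⟨j, rfl⟩ := hx
    have h1 := LinearMap.congr_fun (ACY3_com n h j b) z
    rw [LinearMap.comp_apply, LinearMap.comp_apply, hz, map_zero] at h1
    exact h1
  · push Not at hx
    have h1 := LinearMap.congr_fun (ACY3_zero n h x b hx) z
    rw [LinearMap.comp_apply, LinearMap.zero_apply] at h1
    exact h1

end AGE
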