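import Pool.Agent.AGE.ACY0

/-!
# Project AGE, layer ACY, module 4: a completely contracted chain with zero projections is zero

Plan. Suppose `Q ∈ z.support`. All join coordinates of `Q` are fixed: `e g0 k0` at `1`, the
coordinates in `W ⊆ Z` at `0` (`stl`; `Mov` is trivially true for join coordinates), the others at
`0` (`out`). Every block `g` of `Q` is `n`-dimensional (`¬ Mov`, and `dim ≤ n` by `PP`) or all
`a g j` (`j ∈ t.fr`) are fixed at `t.lo j`, i.e. the block is the vertex `t.lo` (block `≤ t`: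
for `j ∉ t.fr` it is fixed at `t.lo j` anyway). Since `dim Q = i ≤ n + 1 < 2 n` at most one block
is `n`-dimensional. Let `g` be that block (if there is none, any block, e.g. `g = 0`).
Then all free coordinates of `Q` are in block `g`, so `prQ g Q = one (blk g Q)`. If `Q'` is another
cube of the support with all free coordinates in block `g` and `blk g Q' = blk g Q`, then `Q' = Q`:
the other blocks of `Q'` have dimension `0 < n`, so they are the vertex `t.lo`, and the join parts
agree. Hence the coefficient of `blk g Q` in `pr g z` is `z Q ≠ 0`, a contradiction.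
-/

set_option autoImplicit false

noncomputable section

namespace AGE

variable {J : Type} [LinearOrder J] {N : ℕ} [NeZero N]

private theorem ACY4_join {n : ℕ} {t : Cube J} {g0 : ZMod N} {k0 : ℕ} {W Z : Finset (JJ N J)}
    (hW : W ⊆ Z) {Q : Cube (JJ N J)} (h : Stl n t g0 k0 W Z Q) (g : ZMod N) (k : ℕ) :
    JJ.e g k ∉ Q.fr ∧ Q.lo (JJ.e g k) = if (JJ.e g k : JJ N J) = JJ.e g0 k0 then 1 else 0 := by
  by_cases he : (JJ.e g k : JJ N J) = JJ.e g0 k0
  · rw [if_pos he, he]
    exact h.top
  · rw [if_neg he]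
    by_cases hw : (JJ.e g k : JJ N J) ∈ W
    · rcases h.stl _ (hW hw) with h1 | h1
      · exact absurd (fun g' j hx => by cases hx) h1
      · exact h1
    · exact h.out g k he hw

private theorem ACY4_blk {n : ℕ} {t : Cube J} {g0 : ZMod N} {k0 : ℕ} {W Z : Finset (JJ N J)}
    (hZ : ∀ g, ∀ j ∈ t.fr, JJ.a g j ∈ Z) {Q : Cube (JJ N J)} (h : Stl n t g0 k0 W Z Q)
    (g : ZMod N) (hd : (blk g Q).dim < n) (j : J) :
    JJ.a g j ∉ Q.fr ∧ Q.lo (JJ.a g j) = t.lo j := by
  by_cases hj : j ∈ t.fr
  · rcases h.stl _ (hZ g j hj) with h1 | h1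
    · refine absurd (fun g' j' hx => ?_) h1
      cases hx
      exact hd
    · exact h1
  · have hle := (h.mem.1 g).1 j
    by_cases hf : JJ.a g j ∈ Q.fr
    · simp [Cube.hi, blk, hj, hf] at hle
      omega
    · simp [Cube.hi, blk, hj, hf] at hle
      exact ⟨hf, by omega⟩

private theorem ACY4_card {Q : Cube (JJ N J)} {g g' : ZMod N} (h : g ≠ g') :
    (blk g Q).dim + (blk g' Q).dim ≤ Q.dim := by
  have h1 : Disjoint ((blk g Q).fr.map ⟨JJ.a g, fun _ _ h => by simpa using h⟩)
      ((blk g' Q).fr.map ⟨JJ.a g', fun _ _ h => by simpa using h⟩) := by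
    rw [Finset.disjoint_left]
    intro x hx hx'
    rw [Finset.mem_map] at hx hx'
    obtain ⟨j, _, rfl⟩ := hx
    obtain ⟨j', _, h2⟩ := hx'
    simp only [Function.Embedding.coeFn_mk, JJ.a.injEq] at h2
    exact h h2.1.symm
  have h2 : (blk g Q).fr.map ⟨JJ.a g, fun _ _ h => by simpa using h⟩ ∪
      (blk g' Q).fr.map ⟨JJ.a g', fun _ _ h => by simpa using h⟩ ⊆ Q.fr := by
    intro x hx
    rw [Finset.mem_union, Finset.mem_map, Finset.mem_map] at hx
    rcases hx with ⟨j, hj, rfl⟩ | ⟨j, hj, rfl⟩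
    · simpa [blk] using hj
    · simpa [blk] using hj
  have h3 := Finset.card_le_card h2
  rw [Finset.card_union_of_disjoint h1, Finset.card_map, Finset.card_map] at h3
  exact h3

theorem fin_zero (n : ℕ) (hn : 2 ≤ n) (t : Cube J) (g0 : ZMod N) (k0 : ℕ)
    (W Z : Finset (JJ N J)) (hW : W ⊆ Z) (hZ : ∀ g, ∀ j ∈ t.fr, JJ.a g j ∈ Z)
    (i : ℕ) (hi : i ≤ n + 1) (z : Ch (JJ N J))
    (hz : z ∈ CC {Q | Stl n t g0 k0 W Z Q} i) (hp : ∀ g : ZMod N, pr g z = 0) : z = 0 := by
  classical
  by_contra hne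
  obtain ⟨Q, hQ⟩ := Finsupp.support_nonempty_iff.2 hne
  have hmem : ∀ Q' ∈ z.support, Stl n t g0 k0 W Z Q' ∧ Q'.dim = i := by
    intro Q' hQ'
    have h1 := (Finsupp.mem_supported ℤ z).1 hz (by simpa using hQ')
    exact h1
  obtain ⟨hS, hdim⟩ := hmem Q hQ
  -- the block
  obtain ⟨g, hg⟩ : ∃ g : ZMod N, ∀ g', g' ≠ g → (blk g' Q).dim < n := by
    by_cases hex : ∃ g : ZMod N, ¬ (blk g Q).dim < n
    · obtain ⟨g, hg⟩ := hex
      refine ⟨g, fun g' hg' => ?_⟩
      have h1 := ACY4_card (Q := Q) hg'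
      omega
    · push Not at hex
      exact ⟨0, fun g' _ => hex g'⟩
  have hfree : ∀ x ∈ Q.fr, ∃ j, x = JJ.a g j := by
    intro x hx
    cases x with
    | a g' j =>
      by_cases hgg : g' = g
      · exact ⟨j, by rw [hgg]⟩
      · exact absurd hx (ACY4_blk hZ hS g' (hg g' hgg) j).1
    | e g' k => exact absurd hx (ACY4_join hW hS g' k).1
  have huniq : ∀ Q' ∈ z.support, Q' ≠ Q → (prQ g Q') (blk g Q) = 0 := by
    intro Q' hQ' hQQ
    obtain ⟨hS', _⟩ := hmem Q' hQ'
    unfold prQ
    split_ifs with hf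
    · unfold one
      rw [Finsupp.single_apply, if_neg]
      intro hb
      apply hQQ
      have hbl : ∀ j, Q'.lo (JJ.a g j) = Q.lo (JJ.a g j) := fun j => congrFun (congrArg Cube.lo hb) j
      have hbf : ∀ j, JJ.a g j ∈ Q'.fr ↔ JJ.a g j ∈ Q.fr := by
        intro j
        have h1 := Finset.ext_iff.1 (congrArg Cube.fr hb) j
        simpa [blk] using h1
      have hd' : ∀ g', g' ≠ g → (blk g' Q').dim < n := by
        intro g' hg'
        have h1 : (blk g' Q').fr = ∅ := by
          rw [Finset.eq_empty_iff_forall_notMem]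
          intro j hj
          have h2 : JJ.a g' j ∈ Q'.fr := by simpa [blk] using hj
          obtain ⟨j', h3⟩ := hf _ h2
          rw [JJ.a.injEq] at h3
          exact hg' h3.1
        unfold Cube.dim
        rw [h1, Finset.card_empty]
        omega
      ext x
      · cases x with
        | a g' j =>
          by_cases hgg : g' = g
          · rw [hgg]
            exact hbl j
          · rw [(ACY4_blk hZ hS' g' (hd' g' hgg) j).2, (ACY4_blk hZ hS g' (hg g' hgg) j).2]
        | e g' k => rw [(ACY4_join hW hS' g' k).2, (ACY4_join hW hS g' k).2]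
      · cases x with
        | a g' j =>
          by_cases hgg : g' = g
          · rw [hgg]
            exact hbf j
          · exact iff_of_false (ACY4_blk hZ hS' g' (hd' g' hgg) j).1 (ACY4_blk hZ hS g' (hg g' hgg) j).1
        | e g' k => exact iff_of_false (ACY4_join hW hS' g' k).1 (ACY4_join hW hS g' k).1
    · rfl
  have hval : (pr g z) (blk g Q) = z Q := by
    unfold pr
    rw [Finsupp.linearCombination_apply, Finsupp.sum, Finsupp.finsetSum_apply, Finset.sum_eq_single_of_mem Q hQ]
    · rw [Finsupp.smul_apply]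
      unfold prQ
      rw [if_pos hfree]
      unfold one
      rw [Finsupp.single_eq_same, smul_eq_mul, mul_one]
    · intro Q' hQ' hQQ
      rw [Finsupp.smul_apply, huniq Q' hQ' hQQ, smul_zero]
  rw [hp g] at hval
  exact (Finsupp.mem_support_iff.1 hQ) hval.symm

end AGE
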