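import Pool.Agent.AGE.ACY1

/-!
# Project AGE, layer ACY, module 5: raise a join coordinate in a fresh column

The join coordinate `x0 = e 0 k0`, `k0` larger than all columns used by the cycle `z`, is raised
from `0` to `1` in all cubes of `z`; the cycle `z'` obtained is homologous to `z` by the chain `y` of
the cubes with the new free coordinate `x0` (`low_hom`).
-/

set_option autoImplicit false

noncomputable section

namespace AGE

section gen

variable {I : Type} [LinearOrder I]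

private theorem raise_sum (z : Ch I) : z = ∑ Q ∈ z.support, z Q • one Q := by
  conv_lhs => rw [← Finsupp.sum_single z]
  rw [Finsupp.sum]
  refine Finset.sum_congr rfl fun Q _ => ?_
  rw [one, Finsupp.smul_single, smul_eq_mul, mul_one]

private theorem raise_ext {A : Type} [AddCommGroup A] (f g : Ch I →ₗ[ℤ] A) (z : Ch I)
    (h : ∀ Q ∈ z.support, f (one Q) = g (one Q)) : f z = g z := by
  rw [raise_sum z, map_sum, map_sum]
  refine Finset.sum_congr rfl fun Q hQ => ?_
  rw [map_smul, map_smul, h Q hQ]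

private theorem raise_mem {A : Type} [AddCommGroup A] (f : Ch I →ₗ[ℤ] A) (P : Submodule ℤ A)
    (z : Ch I) (h : ∀ Q ∈ z.support, f (one Q) ∈ P) : f z ∈ P := by
  rw [raise_sum z, map_sum]
  refine P.sum_mem fun Q hQ => ?_
  rw [map_smul]
  exact P.smul_mem _ (h Q hQ)

private theorem raise_one_mem {K : Set (Cube I)} {i : ℕ} {Q : Cube I} (h : Q ∈ K)
    (hd : Q.dim = i) : one Q ∈ CC K i :=
  Finsupp.single_mem_supported ℤ 1 ⟨h, hd⟩

/-- the cube with the coordinate `x` at `1` -/
private def rQ (x : I) (Q : Cube I) : Cube I := ⟨Function.update Q.lo x 1, Q.fr⟩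

private def rU (x : I) : Ch I →ₗ[ℤ] Ch I := Finsupp.linearCombination ℤ fun Q => one (rQ x Q)

private theorem rU_one (x : I) (Q : Cube I) : rU x (one Q) = one (rQ x Q) := by
  simp [rU, one]

private theorem bd_one (Q : Cube I) : bd (one Q) = bdQ Q := by
  simp [bd, one]

private theorem rU_bd (x : I) (Q : Cube I) (hx : x ∉ Q.fr) :
    bd (rU x (one Q)) = rU x (bd (one Q)) := by
  rw [rU_one, bd_one, bd_one, bdQ, bdQ, map_sum]
  refine Finset.sum_congr rfl fun j hj => ?_
  have hjx : j ≠ x := fun h => hx (h ▸ hj)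
  rw [map_smul, map_sub, rU_one, rU_one]
  have e1 : (rQ x Q).up j = rQ x (Q.up j) := by
    ext k
    · show Function.update (Function.update Q.lo x 1) j (Function.update Q.lo x 1 j + 1) k =
        Function.update (Function.update Q.lo j (Q.lo j + 1)) x 1 k
      rw [Function.update_of_ne hjx, Function.update_comm hjx]
    · rfl
  have e2 : (rQ x Q).dn j = rQ x (Q.dn j) := rfl
  rw [e1, e2]
  rfl

private theorem low_rQ (x : I) (Q : Cube I) (hx : x ∉ Q.fr) (h0 : Q.lo x = 0) :
    low (fun _ => True) x 0 (one (rQ x Q)) = sg Q.fr x • one ⟨Q.lo, insert x Q.fr⟩ := by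
  rw [low_one, lowQ, if_pos]
  · have e1 : Function.update (rQ x Q).lo x 0 = Q.lo := by
      show Function.update (Function.update Q.lo x 1) x 0 = Q.lo
      rw [Function.update_idem, ← h0, Function.update_eq_self]
    rw [e1]
    rfl
  · refine ⟨hx, ?_, trivial⟩
    show Function.update Q.lo x 1 x = 0 + 1
    rw [Function.update_self, zero_add]

end gen

variable {J : Type} [LinearOrder J] {N : ℕ} [NeZero N]

/-- the column -/
private def colm : JJ N J → ℕ
  | .a _ _ => 0
  | .e _ k => k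

theorem raise (n : ℕ) (t : Cube J) (i : ℕ) (hi : i ≤ n + 1) (z : Ch (JJ N J))
    (hz : z ∈ CC (PP n t) i) (hb : bd z = 0) :
    ∃ (g0 : ZMod N) (k0 : ℕ) (W : Finset (JJ N J)) (z' y : Ch (JJ N J)),
      JJ.e g0 k0 ∉ W ∧ (∀ x ∈ W, ∃ g k, x = JJ.e g k) ∧
      z' ∈ CC {Q | Stl n t g0 k0 W ∅ Q} i ∧ y ∈ CC (PP n t) (i + 1) ∧ bd y = z' - z ∧
      ∀ g : ZMod N, pr g y = 0 := by
  classical
  have hzQ : ∀ Q ∈ z.support, Q ∈ PP n t ∧ Q.dim = i := by
    intro Q hQ
    exact (Finsupp.mem_supported ℤ z).1 hz (Finset.mem_coe.2 hQ)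
  -- the join coordinates of `z`
  have hfin : Set.Finite {x : JJ N J | (∃ g k, x = JJ.e g k) ∧ ∃ Q ∈ z.support, Q.hi x = 1} := by
    have h1 : Set.Finite (⋃ Q ∈ z.support, ((fun x : ZMod N × ℕ => (JJ.e x.1 x.2 : JJ N J)) ''
        {x : ZMod N × ℕ | Q.lo (.e x.1 x.2) = 1} ∪ (Q.fr : Set (JJ N J)))) := by
      refine Set.Finite.biUnion z.support.finite_toSet fun Q hQ => ?_
      exact ((hzQ Q hQ).1.2.1.fin.image _).union Q.fr.finite_toSet
    refine h1.subset ?_
    rintro x ⟨⟨g, k, rfl⟩, Q, hQ, hx⟩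
    rw [Set.mem_iUnion₂]
    refine ⟨Q, hQ, ?_⟩
    by_cases hf : JJ.e g k ∈ Q.fr
    · exact Or.inr hf
    · left
      rw [Cube.hi, if_neg hf] at hx
      exact ⟨(g, k), hx, rfl⟩
  obtain ⟨W, hWdef⟩ : ∃ W, W = hfin.toFinset := ⟨_, rfl⟩
  have hW : ∀ x, x ∈ W ↔ (∃ g k, x = JJ.e g k) ∧ ∃ Q ∈ z.support, Q.hi x = 1 := by
    intro x
    rw [hWdef, Set.Finite.mem_toFinset]
    rfl
  obtain ⟨k0, hk0⟩ := Infinite.exists_notMem_finset (W.image colm)
  have hk0' : ∀ g : ZMod N, (JJ.e g k0 : JJ N J) ∉ W := fun g hg =>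
    hk0 (Finset.mem_image.2 ⟨_, hg, rfl⟩)
  -- coordinates outside `W` are fixed at `0`
  have hout : ∀ Q ∈ z.support, ∀ g k, (JJ.e g k : JJ N J) ∉ W →
      (JJ.e g k : JJ N J) ∉ Q.fr ∧ Q.lo (JJ.e g k) = 0 := by
    intro Q hQ g k hgk
    have h1 : Q.hi (JJ.e g k) ≠ 1 := fun h => hgk ((hW _).2 ⟨⟨g, k, rfl⟩, Q, hQ, h⟩)
    have h2 := (hzQ Q hQ).1.2.1.rng g k
    have h3 : (JJ.e g k : JJ N J) ∉ Q.fr := by
      intro hf
      rw [Cube.hi, if_pos hf] at h1 h2
      omega
    refine ⟨h3, ?_⟩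
    rw [Cube.hi, if_neg h3] at h1 h2
    omega
  obtain ⟨x0, hx0⟩ : ∃ x0 : JJ N J, x0 = JJ.e 0 k0 := ⟨_, rfl⟩
  have hxf : ∀ Q ∈ z.support, x0 ∉ Q.fr ∧ Q.lo x0 = 0 := by
    intro Q hQ
    rw [hx0]
    exact hout Q hQ 0 k0 (hk0' 0)
  have hxa : ∀ g j, (JJ.a g j : JJ N J) ≠ x0 := by
    intro g j
    rw [hx0]
    exact fun h => by cases h
  -- the raised cubes
  have hr : ∀ Q ∈ z.support, rQ x0 Q ∈ PP n t := by
    intro Q hQ
    obtain ⟨⟨h1, h2, h3⟩, h4⟩ := hzQ Q hQ
    obtain ⟨h5, h6⟩ := hxf Q hQ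
    have hlo : ∀ x, x ≠ x0 → (rQ x0 Q).lo x = Q.lo x := fun x hx => Function.update_of_ne hx _ _
    have hlo0 : (rQ x0 Q).lo x0 = 1 := Function.update_self _ _ _
    have hhi : ∀ x, x ≠ x0 → (rQ x0 Q).hi x = Q.hi x := by
      intro x hx
      unfold Cube.hi
      rw [hlo x hx]
      rfl
    have hhi0 : (rQ x0 Q).hi x0 = 1 := by
      have h7 : x0 ∉ (rQ x0 Q).fr := h5
      unfold Cube.hi
      rw [if_neg h7, hlo0]
    refine ⟨fun g => ?_, ⟨fun g k => ?_, ?_, ⟨0, k0, ?_⟩, fun k g g' hg hg' => ?_⟩, h3⟩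
    · have hblk : blk g (rQ x0 Q) = blk g Q := by
        ext j
        · exact hlo _ (hxa g j)
        · rfl
      rw [hblk]
      exact h1 g
    · by_cases he : (JJ.e g k : JJ N J) = x0
      · rw [he, hlo0, hhi0]
        exact ⟨zero_le_one, le_rfl⟩
      · rw [hlo _ he, hhi _ he]
        exact h2.rng g k
    · refine (h2.fin.union (Set.finite_singleton ((0 : ZMod N), k0))).subset ?_
      rintro ⟨g, k⟩ hgk
      by_cases he : (JJ.e g k : JJ N J) = x0
      · right
        rw [hx0] at he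
        cases he
        rfl
      · left
        have h7 : (rQ x0 Q).lo (JJ.e g k) = 1 := hgk
        rw [hlo _ he] at h7
        exact h7
    · rw [← hx0]
      exact hlo0
    · have hcol : ∀ g, (rQ x0 Q).hi (JJ.e g k) = 1 → k = k0 → g = 0 := by
        intro g hg hk
        by_contra hne
        have he : (JJ.e g k : JJ N J) ≠ x0 := by
          rw [hx0]
          intro h
          cases h
          exact hne rfl
        rw [hhi _ he, hk] at hg
        obtain ⟨h7, h8⟩ := hout Q hQ g k0 (hk0' g)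
        rw [Cube.hi, if_neg h7, h8] at hg
        exact zero_ne_one hg
      by_cases hk : k = k0
      · rw [hcol g hg hk, hcol g' hg' hk]
      · have he : ∀ g : ZMod N, (JJ.e g k : JJ N J) ≠ x0 := by
          intro g h
          rw [hx0] at h
          cases h
          exact hk rfl
        rw [hhi _ (he g)] at hg
        rw [hhi _ (he g')] at hg'
        exact h2.col k g g' hg hg'
  -- the cubes with the free coordinate `x0`
  have hs : ∀ Q ∈ z.support, (⟨Q.lo, insert x0 Q.fr⟩ : Cube (JJ N J)) ∈ PP n t := by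
    intro Q hQ
    obtain ⟨⟨h1, h2, h3⟩, h4⟩ := hzQ Q hQ
    obtain ⟨h5, h6⟩ := hxf Q hQ
    obtain ⟨Q', hQ'⟩ : ∃ Q' : Cube (JJ N J), Q' = ⟨Q.lo, insert x0 Q.fr⟩ := ⟨_, rfl⟩
    rw [← hQ']
    have hlo : Q'.lo = Q.lo := by rw [hQ']
    have hfr : Q'.fr = insert x0 Q.fr := by rw [hQ']
    have hhi : ∀ x, x ≠ x0 → Q'.hi x = Q.hi x := by
      intro x hx
      unfold Cube.hi
      rw [hlo, hfr]
      by_cases hf : x ∈ Q.fr
      · rw [if_pos hf, if_pos (Finset.mem_insert_of_mem hf)]
      · rw [if_neg hf, if_neg]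
        rw [Finset.mem_insert, not_or]
        exact ⟨hx, hf⟩
    have hhi0 : Q'.hi x0 = 1 := by
      unfold Cube.hi
      rw [hfr, if_pos (Finset.mem_insert_self _ _), hlo, h6, zero_add]
    refine ⟨fun g => ?_, ⟨fun g k => ?_, ?_, ?_, fun k g g' hg hg' => ?_⟩, ?_⟩
    · have hblk : blk g Q' = blk g Q := by
        ext j
        · show Q'.lo _ = Q.lo _
          rw [hlo]
        · have m1 : ∀ P : Cube (JJ N J), j ∈ (blk g P).fr ↔ JJ.a g j ∈ P.fr := fun P => by
            simp only [blk, Finset.mem_preimage]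
          rw [m1, m1, hfr, Finset.mem_insert]
          exact ⟨fun h => h.resolve_left (hxa g j), Or.inr⟩
      rw [hblk]
      exact h1 g
    · by_cases he : (JJ.e g k : JJ N J) = x0
      · rw [he, hlo, h6, hhi0]
        exact ⟨le_rfl, le_rfl⟩
      · rw [hlo, hhi _ he]
        exact h2.rng g k
    · rw [hlo]
      exact h2.fin
    · rw [hlo]
      exact h2.one
    · have hcol : ∀ g, Q'.hi (JJ.e g k) = 1 → k = k0 → g = 0 := by
        intro g hg hk
        by_contra hne
        have he : (JJ.e g k : JJ N J) ≠ x0 := by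
          rw [hx0]
          intro h
          cases h
          exact hne rfl
        rw [hhi _ he, hk] at hg
        obtain ⟨h7, h8⟩ := hout Q hQ g k0 (hk0' g)
        rw [Cube.hi, if_neg h7, h8] at hg
        exact zero_ne_one hg
      by_cases hk : k = k0
      · rw [hcol g hg hk, hcol g' hg' hk]
      · have he : ∀ g : ZMod N, (JJ.e g k : JJ N J) ≠ x0 := by
          intro g h
          rw [hx0] at h
          cases h
          exact hk rfl
        rw [hhi _ (he g)] at hg
        rw [hhi _ (he g')] at hg'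
        exact h2.col k g g' hg hg'
    · show Q'.fr.card ≤ n + 2
      have h7 : Q.fr.card = i := h4
      rw [hfr, Finset.card_insert_of_notMem h5]
      omega
  have hbz : bd (rU x0 z) = 0 := by
    have h1 := raise_ext (bd ∘ₗ rU x0) (rU x0 ∘ₗ bd) z fun Q hQ => by
      rw [LinearMap.comp_apply, LinearMap.comp_apply]
      exact rU_bd x0 Q (hxf Q hQ).1
    rw [LinearMap.comp_apply, LinearMap.comp_apply, hb, map_zero] at h1
    exact h1
  refine ⟨0, k0, W, rU x0 z, low (fun _ => True) x0 0 (rU x0 z), hk0' 0, fun x hx => ((hW x).1 hx).1,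
    ?_, ?_, ?_, fun g => ?_⟩
  · refine raise_mem (rU x0) _ z fun Q hQ => ?_
    rw [rU_one]
    refine raise_one_mem ⟨hr Q hQ, ?_, fun g k hne hgk => ?_, fun x hx => ?_⟩ (hzQ Q hQ).2
    · rw [← hx0]
      exact ⟨(hxf Q hQ).1, Function.update_self _ _ _⟩
    · rw [← hx0] at hne
      obtain ⟨h1, h2⟩ := hout Q hQ g k hgk
      refine ⟨h1, ?_⟩
      show Function.update Q.lo x0 1 (JJ.e g k) = 0
      rw [Function.update_of_ne hne, h2]
    · exact absurd hx (Finset.notMem_empty x)
  · refine raise_mem (low (fun _ => True) x0 0 ∘ₗ rU x0) _ z fun Q hQ => ?_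
    obtain ⟨h5, h6⟩ := hxf Q hQ
    rw [LinearMap.comp_apply, rU_one, low_rQ x0 Q h5 h6]
    refine Submodule.smul_mem _ _ (raise_one_mem (hs Q hQ) ?_)
    show (insert x0 Q.fr).card = i + 1
    have h7 : Q.fr.card = i := (hzQ Q hQ).2
    rw [Finset.card_insert_of_notMem h5, h7]
  · have h1 := raise_ext (bd ∘ₗ low (fun _ => True) x0 0 ∘ₗ rU x0 +
      low (fun _ => True) x0 0 ∘ₗ bd ∘ₗ rU x0) (rU x0 - LinearMap.id) z fun Q hQ => by
      obtain ⟨h5, h6⟩ := hxf Q hQ
      simp only [LinearMap.add_apply, LinearMap.comp_apply, LinearMap.sub_apply, LinearMap.id_apply,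
        rU_one]
      rw [low_hom (fun _ => True) (fun _ _ _ _ => ⟨trivial, trivial⟩) x0 0 (rQ x0 Q) trivial
        (fun h => absurd h h5) (fun _ => Or.inr (by
          show Function.update Q.lo x0 1 x0 = 0 + 1
          rw [Function.update_self, zero_add]))]
      have h7 : x0 ∉ (rQ x0 Q).fr := h5
      rw [if_neg h7]
      have e1 : (⟨Function.update (rQ x0 Q).lo x0 0, (rQ x0 Q).fr⟩ : Cube (JJ N J)) = Q := by
        ext x
        · show Function.update (Function.update Q.lo x0 1) x0 0 x = Q.lo x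
          rw [Function.update_idem, ← h6, Function.update_eq_self]
        · rfl
      rw [e1]
    simp only [LinearMap.add_apply, LinearMap.comp_apply, LinearMap.sub_apply, LinearMap.id_apply,
      hbz, map_zero, add_zero] at h1
    exact h1
  · have h1 := raise_ext (pr g ∘ₗ low (fun _ => True) x0 0 ∘ₗ rU x0) 0 z fun Q hQ => by
      obtain ⟨h5, h6⟩ := hxf Q hQ
      rw [LinearMap.comp_apply, LinearMap.comp_apply, rU_one, low_rQ x0 Q h5 h6, map_smul,
        LinearMap.zero_apply]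
      have e1 : pr g (one (⟨Q.lo, insert x0 Q.fr⟩ : Cube (JJ N J))) = 0 := by
        have e2 : pr g (one (⟨Q.lo, insert x0 Q.fr⟩ : Cube (JJ N J))) =
            prQ g ⟨Q.lo, insert x0 Q.fr⟩ := by
          simp [pr, one]
        rw [e2, prQ, if_neg]
        intro h
        obtain ⟨j, hj⟩ := h x0 (Finset.mem_insert_self _ _)
        exact hxa g j hj.symm
      rw [e1, smul_zero]
    rw [LinearMap.comp_apply, LinearMap.comp_apply, LinearMap.zero_apply] at h1
    exact h1

end AGE
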