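import Pool.Agent.AGE.Defs

/-!
# AGE-C1a: the boundary

Plan. `bd_one`: `Finsupp.linearCombination_single`. `bd_bd`: enough on `one Q`; expand both sums; the terms for the ordered pairs `(i, j)`, `i ≠ j` in
`Q.fr`, cancel against those of `(j, i)`: the four cubes are the same (`up/dn` in different directions commute, `Function.update_comm`,
`Finset.erase_right_comm`) and the signs satisfy `sg fr i * sg (fr.erase i) j = - sg fr j * sg (fr.erase j) i` (if `i < j` then removing `i` changes the
number of elements below `j` by one and removing `j` does not change the number of elements below `i`). Use `Finset.sum_sigma'` and an involution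
(`Finset.sum_involution` or split in `i < j` and `j < i`).
-/

set_option autoImplicit false

noncomputable section

namespace AGE

variable {V J : Type} [LinearOrder V] [LinearOrder J]

private theorem sg_erase_lt {s : Finset J} {i j : J} (hi : i ∈ s) (h : i < j) :
    sg (s.erase i) j = - sg s j := by
  unfold sg
  have h1 : (s.erase i).filter (· < j) = (s.filter (· < j)).erase i := by
    ext x
    simp only [Finset.mem_filter, Finset.mem_erase]
    tauto
  have h2 : i ∈ s.filter (· < j) := Finset.mem_filter.2 ⟨hi, h⟩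
  rw [h1, ← Finset.card_erase_add_one h2, pow_succ]
  ring

private theorem sg_erase_gt {s : Finset J} {i j : J} (h : i < j) :
    sg (s.erase j) i = sg s i := by
  unfold sg
  have h1 : (s.erase j).filter (· < i) = s.filter (· < i) := by
    ext x
    simp only [Finset.mem_filter, Finset.mem_erase]
    constructor
    · rintro ⟨⟨_, h2⟩, h3⟩
      exact ⟨h2, h3⟩
    · rintro ⟨h2, h3⟩
      refine ⟨⟨?_, h2⟩, h3⟩
      rintro rfl
      exact absurd (h3.trans h) (lt_irrefl _)
  rw [h1]

private theorem sg_anti {s : Finset J} {i j : J} (hi : i ∈ s) (hj : j ∈ s) (h : i ≠ j) :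
    sg s i * sg (s.erase i) j = - (sg s j * sg (s.erase j) i) := by
  rcases lt_or_gt_of_ne h with h | h
  · rw [sg_erase_lt hi h, sg_erase_gt h]
    ring
  · rw [sg_erase_lt hj h, sg_erase_gt h]
    ring

private theorem up_up (Q : Cube J) {i j : J} (h : i ≠ j) : (Q.up i).up j = (Q.up j).up i := by
  unfold Cube.up
  simp only
  rw [Function.update_of_ne h.symm, Function.update_of_ne h, Function.update_comm h.symm,
    Finset.erase_right_comm]

private theorem up_dn (Q : Cube J) (i j : J) : (Q.up i).dn j = (Q.dn j).up i := by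
  unfold Cube.up Cube.dn
  simp only
  rw [Finset.erase_right_comm]

private theorem dn_dn (Q : Cube J) (i j : J) : (Q.dn i).dn j = (Q.dn j).dn i := by
  unfold Cube.dn
  simp only
  rw [Finset.erase_right_comm]

theorem bd_one (Q : Cube J) : bd (one Q) = bdQ Q := by
  unfold bd one
  rw [Finsupp.linearCombination_single, one_smul]

private theorem bd_bdQ (Q : Cube J) : bd (bdQ Q) = 0 := by
  have h1 : bd (bdQ Q) = ∑ i ∈ Q.fr, ∑ j ∈ Q.fr.erase i,
      (sg Q.fr i * sg (Q.fr.erase i) j) • (one ((Q.up i).up j) - one ((Q.up i).dn j) -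
        (one ((Q.dn i).up j) - one ((Q.dn i).dn j))) := by
    conv_lhs => rw [bdQ]
    rw [map_sum]
    refine Finset.sum_congr rfl fun i _ => ?_
    rw [map_smul, map_sub, bd_one, bd_one, bdQ, bdQ]
    have h2 : (Q.up i).fr = Q.fr.erase i := rfl
    have h3 : (Q.dn i).fr = Q.fr.erase i := rfl
    rw [h2, h3, ← Finset.sum_sub_distrib, Finset.smul_sum]
    refine Finset.sum_congr rfl fun j _ => ?_
    rw [← smul_sub, smul_smul]
  have h5 : ∀ i j : J, j ≠ i → i ∈ Q.fr → j ∈ Q.fr →
      (sg Q.fr j * sg (Q.fr.erase j) i) • (one ((Q.up j).up i) - one ((Q.up j).dn i) -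
        (one ((Q.dn j).up i) - one ((Q.dn j).dn i))) =
      -((sg Q.fr i * sg (Q.fr.erase i) j) • (one ((Q.up i).up j) - one ((Q.up i).dn j) -
        (one ((Q.dn i).up j) - one ((Q.dn i).dn j)))) := by
    intro i j hji hi hj
    have h4 : one ((Q.up j).up i) - one ((Q.up j).dn i) - (one ((Q.dn j).up i) -
        one ((Q.dn j).dn i)) = one ((Q.up i).up j) - one ((Q.up i).dn j) -
        (one ((Q.dn i).up j) - one ((Q.dn i).dn j)) := by
      rw [up_up Q hji, up_dn Q j i, ← up_dn Q i j, dn_dn Q j i]
      abel
    rw [sg_anti hj hi hji, h4, neg_smul]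
  have h2 : bd (bdQ Q) = - bd (bdQ Q) := by
    calc bd (bdQ Q) = ∑ i ∈ Q.fr, ∑ j ∈ Q.fr.erase i,
        (sg Q.fr i * sg (Q.fr.erase i) j) • (one ((Q.up i).up j) - one ((Q.up i).dn j) -
          (one ((Q.dn i).up j) - one ((Q.dn i).dn j))) := h1
      _ = ∑ i ∈ Q.fr, ∑ j ∈ Q.fr.erase i,
        (sg Q.fr j * sg (Q.fr.erase j) i) • (one ((Q.up j).up i) - one ((Q.up j).dn i) -
          (one ((Q.dn j).up i) - one ((Q.dn j).dn i))) := by
          refine Finset.sum_comm' ?_
          intro x y
          simp only [Finset.mem_erase]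
          constructor
          · rintro ⟨h1, h2, h3⟩
            exact ⟨⟨h2.symm, h1⟩, h3⟩
          · rintro ⟨⟨h1, h2⟩, h3⟩
            exact ⟨h2, h1.symm, h3⟩
      _ = ∑ i ∈ Q.fr, ∑ j ∈ Q.fr.erase i, -((sg Q.fr i * sg (Q.fr.erase i) j) •
          (one ((Q.up i).up j) - one ((Q.up i).dn j) -
          (one ((Q.dn i).up j) - one ((Q.dn i).dn j)))) := by
          refine Finset.sum_congr rfl fun i hi => Finset.sum_congr rfl fun j hj => ?_
          rw [Finset.mem_erase] at hj
          exact h5 i j hj.1 hi hj.2
      _ = - bd (bdQ Q) := by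
          rw [h1]
          simp only [Finset.sum_neg_distrib]
  ext P
  have h3 := DFunLike.congr_fun h2 P
  rw [Finsupp.neg_apply] at h3
  rw [Finsupp.zero_apply]
  omega

theorem bd_bd (x : Ch J) : bd (bd x) = 0 := by
  induction x using Finsupp.induction_linear with
  | zero => simp
  | add f g hf hg => rw [map_add, map_add, hf, hg, add_zero]
  | single Q c =>
    have h1 : (Finsupp.single Q c : Ch J) = c • one Q := by
      unfold one
      rw [Finsupp.smul_single, smul_eq_mul, mul_one]
    rw [h1, map_smul, map_smul, bd_one, bd_bdQ, smul_zero]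

private theorem eps_one (Q : Cube J) : eps (one Q) = if Q.fr = ∅ then (1 : ℤ) else 0 := by
  unfold eps one
  rw [Finsupp.linearCombination_single, one_smul]

theorem eps_bd (x : Ch J) : eps (bd x) = 0 := by
  induction x using Finsupp.induction_linear with
  | zero => simp
  | add f g hf hg => rw [map_add, map_add, hf, hg, add_zero]
  | single Q c =>
    have h1 : (Finsupp.single Q c : Ch J) = c • one Q := by
      unfold one
      rw [Finsupp.smul_single, smul_eq_mul, mul_one]
    have h2 : eps (bdQ Q) = 0 := by
      rw [bdQ, map_sum]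
      refine Finset.sum_eq_zero fun i _ => ?_
      rw [map_smul, map_sub, eps_one, eps_one]
      have h3 : (Q.up i).fr = (Q.dn i).fr := rfl
      rw [h3, sub_self, smul_zero]
    rw [h1, map_smul, map_smul, bd_one, h2, smul_zero]

theorem eps_pt (v : J → ℤ) : eps (one (pt v)) = 1 := by
  rw [eps_one]
  exact if_pos rfl

end AGE
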