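import Pool.Agent.AGE.Defs
import Pool.Agent.AGE.C1a

/-!
# AGE-C1b: elementary facts on cubes and chain groups

Plan. Everything is elementary. `up_le`, `dn_le`: coordinatewise, case `k = j`. `bd_mem`: expand `bd` of a supported chain
(`Finsupp.mem_supported`, write `x` as the sum over its support, `Submodule.sum_mem`), the faces `up j`, `dn j` are faces of the cube, dimension drops by one.
`le_dim`: if `Q.Le P` then `Q.fr ⊆ P.fr` (for `j ∈ Q.fr`, `Q.hi j = Q.lo j + 1`). `has_le`: transitivity. `le_of_has`: if all vertices of `Q` are vertices of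
`P`: use the vertices `Q.lo` and `Q.hi`.
-/

set_option autoImplicit false

noncomputable section

namespace AGE

variable {V J : Type} [LinearOrder V] [LinearOrder J]

private theorem C1b_hi_mem {Q : Cube J} {j : J} (h : j ∈ Q.fr) : Q.hi j = Q.lo j + 1 := if_pos h

private theorem C1b_hi_not {Q : Cube J} {j : J} (h : j ∉ Q.fr) : Q.hi j = Q.lo j := if_neg h

private theorem C1b_hi_cases (Q : Cube J) (j : J) :
    (j ∈ Q.fr ∧ Q.hi j = Q.lo j + 1) ∨ (j ∉ Q.fr ∧ Q.hi j = Q.lo j) := by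
  by_cases h : j ∈ Q.fr
  · exact Or.inl ⟨h, C1b_hi_mem h⟩
  · exact Or.inr ⟨h, C1b_hi_not h⟩

theorem Cube.le_refl' (Q : Cube J) : Q.Le Q := fun _ => ⟨le_rfl, le_rfl⟩

theorem Cube.le_trans' {P Q R : Cube J} (h1 : P.Le Q) (h2 : Q.Le R) : P.Le R :=
  fun j => ⟨(h2 j).1.trans (h1 j).1, (h1 j).2.trans (h2 j).2⟩

theorem Cube.fr_subset {Q P : Cube J} (h : Q.Le P) : Q.fr ⊆ P.fr := by
  intro j hj
  by_contra hn
  have h1 := C1b_hi_mem hj
  have h2 := C1b_hi_not hn
  have h3 := h j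
  omega

theorem Cube.le_dim {Q P : Cube J} (h : Q.Le P) : Q.dim ≤ P.dim :=
  Finset.card_le_card (Cube.fr_subset h)

theorem Cube.le_antisymm' {P Q : Cube J} (h1 : P.Le Q) (h2 : Q.Le P) : P = Q :=
  Cube.ext (funext fun j => le_antisymm (h2 j).1 (h1 j).1)
    (Finset.Subset.antisymm (Cube.fr_subset h1) (Cube.fr_subset h2))

theorem Cube.has_of_le {Q P : Cube J} (h : Q.Le P) {v : J → ℤ} (hv : Q.Has v) : P.Has v :=
  fun j => ⟨(h j).1.trans (hv j).1, (hv j).2.trans (h j).2⟩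

private theorem C1b_lo_le_hi (Q : Cube J) (j : J) : Q.lo j ≤ Q.hi j := by
  rcases C1b_hi_cases Q j with h | h
  · omega
  · omega

theorem Cube.le_of_has {Q P : Cube J} (h : ∀ v, Q.Has v → P.Has v) : Q.Le P :=
  fun j => ⟨(h Q.lo (fun j => ⟨le_rfl, C1b_lo_le_hi Q j⟩) j).1,
    (h Q.hi (fun j => ⟨C1b_lo_le_hi Q j, le_rfl⟩) j).2⟩

theorem Cube.has_lo (Q : Cube J) : Q.Has Q.lo := fun j => ⟨le_rfl, C1b_lo_le_hi Q j⟩

theorem Cube.has_hi (Q : Cube J) : Q.Has Q.hi := fun j => ⟨C1b_lo_le_hi Q j, le_rfl⟩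

theorem Cube.pt_le {Q : Cube J} {v : J → ℤ} : (pt v).Le Q ↔ Q.Has v := by
  have h : ∀ j, (pt v).hi j = v j := fun j => C1b_hi_not (Q := pt v) (Finset.notMem_empty j)
  constructor
  · intro h1 j
    have h2 := h1 j
    rw [h j] at h2
    exact h2
  · intro h1 j
    rw [h j]
    exact h1 j

theorem Cube.up_le (Q : Cube J) (j : J) (hj : j ∈ Q.fr) : (Q.up j).Le Q := by
  intro k
  by_cases hk : k = j
  · subst hk
    have h1 : (Q.up k).lo k = Q.lo k + 1 := Function.update_self _ _ _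
    have h2 : (Q.up k).hi k = (Q.up k).lo k := C1b_hi_not (Finset.notMem_erase k Q.fr)
    have h3 := C1b_hi_mem hj
    omega
  · have h1 : (Q.up j).lo k = Q.lo k := Function.update_of_ne hk _ _
    have h4 : k ∈ (Q.up j).fr ↔ k ∈ Q.fr := by
      show k ∈ Q.fr.erase j ↔ k ∈ Q.fr
      rw [Finset.mem_erase]
      exact ⟨fun h => h.2, fun h => ⟨hk, h⟩⟩
    have h2 : (Q.up j).hi k = Q.hi k := by
      unfold Cube.hi
      simp only [h4, h1]
    rw [h1, h2]
    exact ⟨le_rfl, le_rfl⟩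

theorem Cube.dn_le (Q : Cube J) (j : J) (hj : j ∈ Q.fr) : (Q.dn j).Le Q := by
  intro k
  have h1 : (Q.dn j).lo k = Q.lo k := rfl
  by_cases hk : k = j
  · subst hk
    have h2 : (Q.dn k).hi k = (Q.dn k).lo k := C1b_hi_not (Finset.notMem_erase k Q.fr)
    have h3 := C1b_hi_mem hj
    omega
  · have h4 : k ∈ (Q.dn j).fr ↔ k ∈ Q.fr := by
      show k ∈ Q.fr.erase j ↔ k ∈ Q.fr
      rw [Finset.mem_erase]
      exact ⟨fun h => h.2, fun h => ⟨hk, h⟩⟩
    have h2 : (Q.dn j).hi k = Q.hi k := by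
      unfold Cube.hi
      simp only [h4, h1]
    rw [h1, h2]
    exact ⟨le_rfl, le_rfl⟩

theorem closed_faces (P : Cube J) : Closed (Faces P) :=
  fun _ hR _ hQ => Cube.le_trans' hQ hR

theorem closed_grd (M : ℕ) (K : Set (Cube J)) : Closed (Grd M K) := by
  rintro R ⟨P, hP, hR⟩ Q hQ
  exact ⟨P, hP, fun j => ⟨(hR j).1.trans (hQ j).1, (hQ j).2.trans (hR j).2⟩⟩

theorem grd_one (K : Set (Cube J)) (hK : Closed K) : Grd 1 K = K := by
  ext Q
  constructor
  · rintro ⟨P, hP, hQ⟩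
    refine hK P hP Q fun j => ?_
    have h := hQ j
    push_cast at h
    omega
  · intro hQ
    refine ⟨Q, hQ, fun j => ?_⟩
    push_cast
    constructor <;> omega

theorem grd_grd (M M' : ℕ) (K : Set (Cube J)) (hM : 0 < M) (hM' : 0 < M') :
    Grd M' (Grd M K) = Grd (M * M') K := by
  have hM1 : (0 : ℤ) < M := by exact_mod_cast hM
  have hM1' : (0 : ℤ) < M' := by exact_mod_cast hM'
  ext Q
  constructor
  · rintro ⟨R, ⟨P, hP, hR⟩, hQ⟩
    refine ⟨P, hP, fun j => ?_⟩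
    have h1 := hR j
    have h2 := hQ j
    have h3 := mul_le_mul_of_nonneg_left h1.1 hM1'.le
    have h4 := mul_le_mul_of_nonneg_left h1.2 hM1'.le
    push_cast
    constructor
    · calc (M : ℤ) * M' * P.lo j = M' * (M * P.lo j) := by ring
        _ ≤ M' * R.lo j := h3
        _ ≤ Q.lo j := h2.1
    · calc Q.hi j ≤ M' * R.hi j := h2.2
        _ ≤ M' * (M * P.hi j) := h4
        _ = (M : ℤ) * M' * P.hi j := by ring
  · rintro ⟨P, hP, hQ⟩
    have hdiv : ∀ j, (M' : ℤ) * (Q.lo j / M') ≤ Q.lo j ∧ Q.lo j < M' * (Q.lo j / M' + 1) := by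
      intro j
      have e1 := Int.mul_ediv_add_emod (Q.lo j) M'
      have e2 := Int.emod_nonneg (Q.lo j) hM1'.ne'
      have e3 := Int.emod_lt_of_pos (Q.lo j) hM1'
      constructor
      · linarith
      · rw [mul_add, mul_one]
        linarith
    set R : Cube J := ⟨fun j => Q.lo j / M', P.fr.filter fun j => (M' : ℤ) * (Q.lo j / M') < Q.hi j⟩ with hRdef
    have hlo : ∀ j, R.lo j = Q.lo j / M' := fun _ => rfl
    have key : ∀ j, ((M : ℤ) * P.lo j ≤ R.lo j ∧ R.hi j ≤ M * P.hi j) ∧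
        ((M' : ℤ) * R.lo j ≤ Q.lo j ∧ Q.hi j ≤ M' * R.hi j) := by
      intro j
      have h1 := hQ j
      push_cast at h1
      obtain ⟨d1, d2⟩ := hdiv j
      have h2 : (M : ℤ) * P.lo j ≤ Q.lo j / M' := by
        rw [Int.le_ediv_iff_mul_le hM1']
        calc (M : ℤ) * P.lo j * M' = M * M' * P.lo j := by ring
          _ ≤ Q.lo j := h1.1
      have h3 := C1b_lo_le_hi Q j
      have h7 : (M' : ℤ) * (M * P.hi j) = M * M' * P.hi j := by ring
      rcases C1b_hi_cases P j with ⟨hp, hp2⟩ | ⟨hp, hp2⟩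
      · by_cases hj : (M' : ℤ) * (Q.lo j / M') < Q.hi j
        · have h4 : R.hi j = Q.lo j / M' + 1 := C1b_hi_mem (Q := R) (Finset.mem_filter.2 ⟨hp, hj⟩)
          have h5 : Q.hi j ≤ Q.lo j + 1 := by
            rcases C1b_hi_cases Q j with h | h
            · omega
            · omega
          have h6 : Q.lo j / M' < M * P.hi j := by
            by_contra hc
            push Not at hc
            have h8 := mul_le_mul_of_nonneg_left hc hM1'.le
            linarith [h1.2]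
          rw [h4, hlo]
          exact ⟨⟨h2, h6⟩, ⟨d1, by omega⟩⟩
        · have h4 : R.hi j = Q.lo j / M' := C1b_hi_not (Q := R) fun h => hj (Finset.mem_filter.1 h).2
          have h5 : Q.hi j = M' * (Q.lo j / M') := by omega
          have h6 : Q.lo j / M' ≤ M * P.hi j := by
            by_contra hc
            push Not at hc
            have h8 := mul_lt_mul_of_pos_left hc hM1'
            linarith [h1.2]
          rw [h4, hlo]
          exact ⟨⟨h2, h6⟩, ⟨d1, h5.le⟩⟩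
      · have h4 : R.hi j = Q.lo j / M' := C1b_hi_not (Q := R) fun h => hp (Finset.mem_filter.1 h).1
        rw [hp2] at h1 h7 ⊢
        have h5 : Q.lo j = M' * (M * P.lo j) := by linarith [h1.1, h1.2]
        have h6 : Q.lo j / M' = M * P.lo j := by
          rw [h5]
          exact Int.mul_ediv_cancel_left _ hM1'.ne'
        rw [h4, hlo, h6]
        exact ⟨⟨le_rfl, le_rfl⟩, ⟨h5.ge, by linarith [h1.2]⟩⟩
    exact ⟨R, ⟨P, hP, fun j => (key j).1⟩, fun j => (key j).2⟩

theorem grd_dim {M : ℕ} {K : Set (Cube J)} {Q : Cube J} (hM : 0 < M) (h : Q ∈ Grd M K) :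
    ∃ P ∈ K, Q.InM M P ∧ Q.dim ≤ P.dim := by
  obtain ⟨P, hP, hQ⟩ := h
  refine ⟨P, hP, hQ, Finset.card_le_card fun j hj => ?_⟩
  by_contra hn
  have h1 := C1b_hi_mem hj
  have h2 := C1b_hi_not hn
  have h3 := hQ j
  rw [h1, h2] at h3
  omega

private theorem C1b_map {J' : Type} {K : Set (Cube J)} {i : ℕ} {M : Type} [AddCommGroup M] (α : Ch J →ₗ[ℤ] M)
    (S : Submodule ℤ M) (h : ∀ c ∈ K, c.dim = i → α (one c) ∈ S) {x : Ch J}
    (hx : x ∈ CC K i) : α x ∈ S := by
  have h1 : CC K i ≤ S.comap α := by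
    unfold CC
    rw [Finsupp.supported_eq_span_single, Submodule.span_le]
    rintro _ ⟨c, ⟨hc1, hc2⟩, rfl⟩
    exact h c hc1 hc2
  exact h1 hx

private theorem C1b_one {K : Set (Cube J)} {Q : Cube J} {i : ℕ} (h : Q ∈ K) (hi : Q.dim = i) : one Q ∈ CC K i :=
  Finsupp.single_mem_supported ℤ 1 ⟨h, hi⟩

theorem bd_mem {K : Set (Cube J)} (hK : Closed K) {i : ℕ} {x : Ch J} (hx : x ∈ CC K (i + 1)) :
    bd x ∈ CC K i := by
  refine C1b_map (J' := J) bd _ ?_ hx
  intro c hc hi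
  rw [bd_one]
  unfold bdQ
  refine Submodule.sum_mem _ fun j hj => Submodule.smul_mem _ _ (Submodule.sub_mem _ ?_ ?_)
  · refine C1b_one (hK c hc _ (Cube.up_le c j hj)) ?_
    show (c.fr.erase j).card = i
    rw [Finset.card_erase_of_mem hj]
    have : c.fr.card = i + 1 := hi
    omega
  · refine C1b_one (hK c hc _ (Cube.dn_le c j hj)) ?_
    show (c.fr.erase j).card = i
    rw [Finset.card_erase_of_mem hj]
    have : c.fr.card = i + 1 := hi
    omega

theorem bd_zero {K : Set (Cube J)} {x : Ch J} (hx : x ∈ CC K 0) : bd x = 0 := by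
  have h : bd x ∈ (⊥ : Submodule ℤ (Ch J)) := by
    refine C1b_map (J' := J) bd _ ?_ hx
    intro c _ hi
    have h1 : c.fr = ∅ := Finset.card_eq_zero.1 hi
    rw [bd_one]
    unfold bdQ
    rw [h1, Finset.sum_empty]
    exact Submodule.zero_mem _
  exact (Submodule.mem_bot ℤ).1 h

theorem CC_mono {K K' : Set (Cube J)} (h : K ⊆ K') (i : ℕ) : CC K i ≤ CC K' i :=
  Finsupp.supported_mono fun _ hQ => ⟨h hQ.1, hQ.2⟩

theorem one_mem {K : Set (Cube J)} {Q : Cube J} (h : Q ∈ K) : one Q ∈ CC K Q.dim :=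
  C1b_one h rfl

/-- two linear maps which agree on the cubes of `K` agree on the chains of `K` -/
theorem eq_of_one {J' : Type} {K : Set (Cube J)} (α β : Ch J →ₗ[ℤ] Ch J')
    (h : ∀ c ∈ K, α (one c) = β (one c)) {i : ℕ} {x : Ch J} (hx : x ∈ CC K i) : α x = β x := by
  have h1 : (α - β) x ∈ (⊥ : Submodule ℤ (Ch J')) := by
    refine C1b_map (J' := J') (α - β) _ ?_ hx
    intro c hc _
    rw [LinearMap.sub_apply, h c hc, sub_self]
    exact Submodule.zero_mem _
  have h2 := (Submodule.mem_bot ℤ).1 h1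
  rw [LinearMap.sub_apply] at h2
  exact sub_eq_zero.1 h2

/-- linear maps with prescribed values on cubes -/
theorem exists_lin {J' : Type} (v : Cube J → Ch J') : ∃ α : Ch J →ₗ[ℤ] Ch J', ∀ c, α (one c) = v c := by
  refine ⟨Finsupp.linearCombination ℤ v, fun c => ?_⟩
  unfold one
  rw [Finsupp.linearCombination_single, one_smul]

/-- a linear map sending the `i`-cubes of `K` to a submodule sends the `i`-chains of `K` to it -/
theorem map_mem {J' : Type} {K : Set (Cube J)} {i : ℕ} (α : Ch J →ₗ[ℤ] Ch J')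
    (S : Submodule ℤ (Ch J')) (h : ∀ c ∈ K, c.dim = i → α (one c) ∈ S) {x : Ch J}
    (hx : x ∈ CC K i) : α x ∈ S :=
  C1b_map (J' := J') α S h hx

end AGE
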