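import Pool.Agent.AGE.Defs
import Pool.Agent.AGE.C1a
import Pool.Agent.AGE.C1b

/-!
# AGE-PR1 (helper87): the projections `pr g` are chain maps

Both sides are linear, so it is enough to compare them on a cube `Q`. If all free coordinates of `Q` lie in block `g`, the faces of `Q` are sent to the
faces of `blk g Q` with the same signs. Otherwise the two faces of every direction have the same projection.
-/

set_option autoImplicit false

noncomputable section

namespace AGE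

variable {J : Type} [LinearOrder J] {N : ℕ} [NeZero N]

set_option linter.unusedSectionVars false in
theorem pr_one (g : ZMod N) (Q : Cube (JJ N J)) : pr g (one Q) = prQ g Q := by
  unfold pr one
  rw [Finsupp.linearCombination_single, one_smul]

/-- the order on a block is the order of `J` -/
theorem JJ.a_lt_a (g : ZMod N) (j j' : J) : (JJ.a g j : JJ N J) < JJ.a g j' ↔ j < j' := by
  have h1 : (JJ.a g j : JJ N J) < JJ.a g j' ↔ JJ.code (JJ.a g j) < JJ.code (JJ.a g j') := Iff.rfl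
  rw [h1]
  unfold JJ.code
  rw [Prod.Lex.toLex_lt_toLex]
  constructor
  · rintro (h | h)
    · exact absurd h (lt_irrefl _)
    · exact WithBot.coe_lt_coe.1 h.2
  · intro h
    exact Or.inr ⟨rfl, WithBot.coe_lt_coe.2 h⟩

omit [LinearOrder J] [NeZero N] in
private theorem pr1_inj (g : ZMod N) : Function.Injective (JJ.a g : J → JJ N J) := by
  intro i j h
  exact (JJ.a.injEq _ _ _ _ ▸ h : _ ∧ _).2

omit [LinearOrder J] [NeZero N] in
private theorem pr1_mem (g : ZMod N) (Q : Cube (JJ N J)) (j : J) : j ∈ (blk g Q).fr ↔ JJ.a g j ∈ Q.fr :=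
  Finset.mem_preimage (hf := fun _ _ _ _ h => pr1_inj g h)

omit [LinearOrder J] [NeZero N] in
private theorem pr1_sum {M : Type} [AddCommMonoid M] (g : ZMod N) (Q : Cube (JJ N J))
    (h : ∀ x ∈ Q.fr, ∃ j, x = JJ.a g j) (F : JJ N J → M) :
    ∑ x ∈ Q.fr, F x = ∑ j ∈ (blk g Q).fr, F (JJ.a g j) := by
  have h1 : Q.fr = (blk g Q).fr.map ⟨JJ.a g, pr1_inj g⟩ := by
    ext x
    rw [Finset.mem_map]
    constructor
    · intro hx
      obtain ⟨i, rfl⟩ := h x hx
      exact ⟨i, (pr1_mem g Q i).2 hx, rfl⟩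
    · rintro ⟨i, hi, rfl⟩
      exact (pr1_mem g Q i).1 hi
  conv_lhs => rw [h1]
  rw [Finset.sum_map]
  rfl

/-- the sign of a cube with all free coordinates in block `g` -/
theorem sg_blk (g : ZMod N) (Q : Cube (JJ N J)) (h : ∀ x ∈ Q.fr, ∃ j, x = JJ.a g j) (j : J) :
    sg Q.fr (JJ.a g j) = sg (blk g Q).fr j := by
  have h1 : Q.fr.filter (· < JJ.a g j) = ((blk g Q).fr.filter (· < j)).map ⟨JJ.a g, pr1_inj g⟩ := by
    ext x
    rw [Finset.mem_filter, Finset.mem_map]
    constructor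
    · rintro ⟨hx, hlt⟩
      obtain ⟨i, rfl⟩ := h x hx
      exact ⟨i, Finset.mem_filter.2 ⟨(pr1_mem g Q i).2 hx, (JJ.a_lt_a g i j).1 hlt⟩, rfl⟩
    · rintro ⟨i, hi, rfl⟩
      rw [Finset.mem_filter] at hi
      exact ⟨(pr1_mem g Q i).1 hi.1, (JJ.a_lt_a g i j).2 hi.2⟩
  unfold sg
  rw [h1, Finset.card_map]

private theorem pr1_up (g : ZMod N) (Q : Cube (JJ N J)) (j : J) : blk g (Q.up (JJ.a g j)) = (blk g Q).up j := by
  refine Cube.ext (funext fun i => ?_) (Finset.ext fun i => ?_)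
  · show Function.update Q.lo (JJ.a g j) (Q.lo (JJ.a g j) + 1) (JJ.a g i) =
      Function.update (fun i => Q.lo (JJ.a g i)) j (Q.lo (JJ.a g j) + 1) i
    by_cases hij : i = j
    · rw [hij, Function.update_self, Function.update_self]
    · rw [Function.update_of_ne hij, Function.update_of_ne fun h => hij (pr1_inj g h)]
  · rw [pr1_mem]
    show JJ.a g i ∈ Q.fr.erase (JJ.a g j) ↔ i ∈ (blk g Q).fr.erase j
    rw [Finset.mem_erase, Finset.mem_erase, pr1_mem]
    exact ⟨fun h => ⟨fun e => h.1 (congrArg (JJ.a g) e), h.2⟩, fun h => ⟨fun e => h.1 (pr1_inj g e), h.2⟩⟩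

private theorem pr1_dn (g : ZMod N) (Q : Cube (JJ N J)) (j : J) : blk g (Q.dn (JJ.a g j)) = (blk g Q).dn j := by
  refine Cube.ext rfl (Finset.ext fun i => ?_)
  rw [pr1_mem]
  show JJ.a g i ∈ Q.fr.erase (JJ.a g j) ↔ i ∈ (blk g Q).fr.erase j
  rw [Finset.mem_erase, Finset.mem_erase, pr1_mem]
  exact ⟨fun h => ⟨fun e => h.1 (congrArg (JJ.a g) e), h.2⟩, fun h => ⟨fun e => h.1 (pr1_inj g e), h.2⟩⟩

omit [LinearOrder J] [NeZero N] in
private theorem pr1_pos (g : ZMod N) (Q : Cube (JJ N J)) (h : ∀ x ∈ Q.fr, ∃ j, x = JJ.a g j) :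
    prQ g Q = one (blk g Q) := by
  unfold prQ
  exact if_pos h

omit [LinearOrder J] [NeZero N] in
private theorem pr1_neg (g : ZMod N) (Q : Cube (JJ N J)) (h : ¬ ∀ x ∈ Q.fr, ∃ j, x = JJ.a g j) :
    prQ g Q = 0 := by
  unfold prQ
  exact if_neg h

private theorem pr1_face (g : ZMod N) (Q : Cube (JJ N J)) (h : ¬ ∀ x ∈ Q.fr, ∃ j, x = JJ.a g j) {x : JJ N J} :
    prQ g (Q.up x) = prQ g (Q.dn x) := by
  by_cases h1 : ∀ y ∈ Q.fr.erase x, ∃ j, y = JJ.a g j
  · have h2 : ∀ j, x ≠ JJ.a g j := by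
      intro j hj
      apply h
      intro y hy
      by_cases hyx : y = x
      · exact ⟨j, hyx.trans hj⟩
      · exact h1 y (Finset.mem_erase.2 ⟨hyx, hy⟩)
    have h3 : blk g (Q.up x) = blk g (Q.dn x) := by
      refine Cube.ext (funext fun i => ?_) rfl
      show Function.update Q.lo x (Q.lo x + 1) (JJ.a g i) = Q.lo (JJ.a g i)
      rw [Function.update_of_ne (h2 i).symm]
    rw [pr1_pos g (Q.up x) h1, pr1_pos g (Q.dn x) h1, h3]
  · rw [pr1_neg g (Q.up x) h1, pr1_neg g (Q.dn x) h1]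

private theorem pr1_bdQ (g : ZMod N) (Q : Cube (JJ N J)) : pr g (bdQ Q) = bd (prQ g Q) := by
  have h0 : pr g (bdQ Q) = ∑ x ∈ Q.fr, sg Q.fr x • (prQ g (Q.up x) - prQ g (Q.dn x)) := by
    rw [bdQ, map_sum]
    refine Finset.sum_congr rfl fun x _ => ?_
    rw [map_smul, map_sub, pr_one, pr_one]
  rw [h0]
  by_cases h : ∀ x ∈ Q.fr, ∃ j, x = JJ.a g j
  · rw [pr1_pos g Q h, bd_one, bdQ, pr1_sum g Q h]
    refine Finset.sum_congr rfl fun j _ => ?_
    have h1 : ∀ x ∈ (Q.up (JJ.a g j)).fr, ∃ i, x = JJ.a g i := fun x hx => h x (Finset.mem_of_mem_erase hx)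
    have h2 : ∀ x ∈ (Q.dn (JJ.a g j)).fr, ∃ i, x = JJ.a g i := fun x hx => h x (Finset.mem_of_mem_erase hx)
    rw [sg_blk g Q h, pr1_pos g _ h1, pr1_pos g _ h2, pr1_up, pr1_dn]
  · rw [pr1_neg g Q h, map_zero]
    refine Finset.sum_eq_zero fun x _ => ?_
    rw [pr1_face g Q h, sub_self, smul_zero]

theorem pr_bd (g : ZMod N) (x : Ch (JJ N J)) : pr g (bd x) = bd (pr g x) := by
  induction x using Finsupp.induction_linear with
  | zero => rw [map_zero, map_zero, map_zero]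
  | add f h hf hh => rw [map_add, map_add, map_add, map_add, hf, hh]
  | single Q c =>
    have h1 : (Finsupp.single Q c : Ch (JJ N J)) = c • one Q := by
      unfold one
      rw [Finsupp.smul_single, smul_eq_mul, mul_one]
    rw [h1, map_smul, map_smul, map_smul, map_smul, bd_one, pr_one, pr1_bdQ]

end AGE
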