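import Pool.Agent.AGE.Defs
import Pool.Agent.AGE.C1a
import Pool.Agent.AGE.C1b
import Pool.Agent.AGE.ACY0
import Pool.Agent.AGE.ACY1
import Pool.Agent.AGE.ACY2
import Pool.Agent.AGE.ACY3
import Pool.Agent.AGE.ACY4
import Pool.Agent.AGE.ACY5
import Pool.Agent.AGE.PR1

/-!
# Project AGE, layer ACY: the kernel of the projections is acyclic in degrees at most `n + 1` (main statement)
-/

set_option autoImplicit false

noncomputable section

namespace AGE

variable {V J : Type} [LinearOrder V] [LinearOrder J]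

private theorem chain_step {N : ℕ} [NeZero N] (n : ℕ) (t : Cube J) (g0 : ZMod N) (k0 : ℕ)
    (W Z : Finset (JJ N J)) (x : JJ N J) (hx0 : x ≠ JJ.e g0 k0)
    (hxt : ∀ g j, x = JJ.a g j → j ∈ t.fr) (i : ℕ) (hi : i ≤ n + 1) (z : Ch (JJ N J))
    (hz : z ∈ CC {P | Stl n t g0 k0 W Z P} i) (hb : bd z = 0) (hp : ∀ g : ZMod N, pr g z = 0) :
    ∃ z' y : Ch (JJ N J), z' ∈ CC {P | Stl n t g0 k0 W (insert x Z) P} i ∧
      y ∈ CC (PP n t) (i + 1) ∧ bd y = z - z' ∧ ∀ g : ZMod N, pr g y = 0 := by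
  refine ⟨z - bd (low (Mov n x) x (bas t x) z), low (Mov n x) x (bas t x) z, ?_, ?_, ?_, ?_⟩
  · have key := map_mem (K := {P | Stl n t g0 k0 W Z P}) (i := i)
      (LinearMap.id - bd ∘ₗ low (Mov n x) x (bas t x) - low (Mov n x) x (bas t x) ∘ₗ bd)
      (CC {P | Stl n t g0 k0 W (insert x Z) P} i) (fun c hc hd => by
        have := step_mem n t g0 k0 W Z x hx0 hxt c hc
        rw [hd] at this
        exact this) hz
    have e : (LinearMap.id - bd ∘ₗ low (Mov n x) x (bas t x) -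
        low (Mov n x) x (bas t x) ∘ₗ bd : Ch (JJ N J) →ₗ[ℤ] Ch (JJ N J)) z =
        z - bd (low (Mov n x) x (bas t x) z) - low (Mov n x) x (bas t x) (bd z) := rfl
    rw [e, hb, map_zero, sub_zero] at key
    exact key
  · exact map_mem (K := {P | Stl n t g0 k0 W Z P}) (i := i) (low (Mov n x) x (bas t x))
      (CC (PP n t) (i + 1)) (fun c hc hd => by
        have := low_mem n t g0 k0 W Z x hx0 hxt c hc (by omega)
        rw [hd] at this
        exact this) hz
  · simp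
  · intro g
    exact pr_low n g x _ z (hp g)

private theorem chain_all {N : ℕ} [NeZero N] (n : ℕ) (t : Cube J) (g0 : ZMod N) (k0 : ℕ)
    (W Z : Finset (JJ N J)) (hZ : ∀ x ∈ Z, x ≠ JJ.e g0 k0 ∧ ∀ g j, x = JJ.a g j → j ∈ t.fr)
    (i : ℕ) (hi : i ≤ n + 1) (z : Ch (JJ N J))
    (hz : z ∈ CC {P | Stl n t g0 k0 W ∅ P} i) (hb : bd z = 0) (hp : ∀ g : ZMod N, pr g z = 0) :
    ∃ z' y : Ch (JJ N J), z' ∈ CC {P | Stl n t g0 k0 W Z P} i ∧
      y ∈ CC (PP n t) (i + 1) ∧ bd y = z - z' ∧ ∀ g : ZMod N, pr g y = 0 := by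
  classical
  induction Z using Finset.induction_on with
  | empty =>
    exact ⟨z, 0, hz, Submodule.zero_mem _, by simp, fun g => map_zero _⟩
  | insert x Z hx ih =>
    obtain ⟨z1, y1, h1, h2, h3, h4⟩ := ih (fun w hw => hZ w (Finset.mem_insert_of_mem hw))
    have hb1 : bd z1 = 0 := by
      have h5 := bd_bd y1
      rw [h3, map_sub, hb, zero_sub, neg_eq_zero] at h5
      exact h5
    have hp1 : ∀ g : ZMod N, pr g z1 = 0 := by
      intro g
      have h5 := pr_bd g y1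
      rw [h3, map_sub, hp g, h4 g, map_zero, zero_sub, neg_eq_zero] at h5
      exact h5
    have hx' := hZ x (Finset.mem_insert_self x Z)
    obtain ⟨z2, y2, k1, k2, k3, k4⟩ :=
      chain_step n t g0 k0 W Z x hx'.1 hx'.2 i hi z1 h1 hb1 hp1
    refine ⟨z2, y1 + y2, k1, Submodule.add_mem _ h2 k2, ?_, ?_⟩
    · rw [map_add, h3, k3]
      abel
    · intro g
      rw [map_add, h4, k4, add_zero]

theorem acy {N : ℕ} [NeZero N] (n : ℕ) (hn : 2 ≤ n) (t : Cube J) (i : ℕ) (hi : i ≤ n + 1)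
    (z : Ch (JJ N J)) (hz : z ∈ CC (PP n t) i) (hb : 0 < i → bd z = 0)
    (hp : ∀ g : ZMod N, pr g z = 0) :
    ∃ y ∈ CC (PP n t) (i + 1), bd y = z ∧ ∀ g : ZMod N, pr g y = 0 := by
  classical
  have hb' : bd z = 0 := by
    rcases Nat.eq_zero_or_pos i with h | h
    · subst h
      exact bd_zero hz
    · exact hb h
  obtain ⟨g0, k0, W, z', y0, hW1, hW2, hz', hy0, hbd, hpy⟩ := raise n t i hi z hz hb'
  have hbz : bd z' = 0 := by
    have h5 := bd_bd y0
    rw [hbd, map_sub, hb', sub_zero] at h5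
    exact h5
  have hpz : ∀ g : ZMod N, pr g z' = 0 := by
    intro g
    have h5 := pr_bd g y0
    rw [hbd, map_sub, hp g, hpy g, map_zero, sub_zero] at h5
    exact h5
  let Z : Finset (JJ N J) := W ∪ (Finset.univ ×ˢ t.fr).image (fun p : ZMod N × J => JJ.a p.1 p.2)
  obtain ⟨z'', y1, k1, k2, k3, k4⟩ := chain_all n t g0 k0 W Z (by
    intro x hx
    rcases Finset.mem_union.1 hx with h | h
    · obtain ⟨g, k, rfl⟩ := hW2 x h
      refine ⟨fun hh => hW1 (hh ▸ h), ?_⟩
      intro g' j hh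
      cases hh
    · obtain ⟨p, hp1, rfl⟩ := Finset.mem_image.1 h
      refine ⟨by simp, ?_⟩
      intro g' j hh
      have := (Finset.mem_product.1 hp1).2
      cases hh
      exact this) i hi z' hz' hbz hpz
  have hp'' : ∀ g : ZMod N, pr g z'' = 0 := by
    intro g
    have h5 := pr_bd g y1
    rw [k3, map_sub, hpz g, k4 g, map_zero, zero_sub, neg_eq_zero] at h5
    exact h5
  have hzero : z'' = 0 := fin_zero n hn t g0 k0 W Z Finset.subset_union_left
    (fun g j hj => Finset.mem_union_right _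
      (Finset.mem_image.2 ⟨(g, j), Finset.mem_product.2 ⟨Finset.mem_univ _, hj⟩, rfl⟩))
    i hi z'' k1 hp''
  refine ⟨y1 - y0, Submodule.sub_mem _ k2 hy0, ?_, ?_⟩
  · rw [map_sub, k3, hbd, hzero]
    abel
  · intro g
    rw [map_sub, k4, hpy, sub_zero]

end AGE
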