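import Pool.Agent.AGE.ALG0

/-!
# AGE-ALG6 (helper87): two successive lifts over a source with action

The first lift is applied to `con tB tS G - G`, the second one to the norm of its solution: the defect of the norm is a telescoping sum of conjugates of
`G` (`alg6_pow`, `alg6_tel`), which vanishes because the `N`-th powers of the actions are trivial.
-/

set_option autoImplicit false

noncomputable section

namespace AGE
namespace ALG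

open Finsupp

/-- `con` preserves carried maps -/
theorem crd_con {I S B : Type*} [AddCommGroup S] [AddCommGroup B] (J : Set I) (σ : Equiv.Perm I)
    (hJ : ∀ j, j ∈ J ↔ σ j ∈ J) (Z : I → ℕ → Submodule ℤ S) (tS : S →ₗ[ℤ] S)
    (hZt : ∀ j ∈ J, ∀ i, ∀ x ∈ Z (σ j) i, tS x ∈ Z j i) (tB : B →ₗ[ℤ] B)
    (W : I → ℕ → Submodule ℤ B) (hWt : ∀ j ∈ J, ∀ i, ∀ x ∈ W j i, tB x ∈ W (σ j) i) (m k : ℕ)
    (a : S →ₗ[ℤ] B) (ha : Crd J Z W m k a) : Crd J Z W m k (con tB tS a) := by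
  intro j hj i hi x hx
  obtain ⟨j', rfl⟩ := σ.surjective j
  have hj' : j' ∈ J := (hJ j').2 hj
  rw [con_apply]
  exact hWt j' hj' _ _ (ha j' hj' i hi _ (hZt j' hj' i x hx))

private theorem alg6_crd_pow {I S B : Type*} [AddCommGroup S] [AddCommGroup B] (J : Set I) (σ : Equiv.Perm I)
    (hJ : ∀ j, j ∈ J ↔ σ j ∈ J) (Z : I → ℕ → Submodule ℤ S) (tS : S →ₗ[ℤ] S)
    (hZt : ∀ j ∈ J, ∀ i, ∀ x ∈ Z (σ j) i, tS x ∈ Z j i) (tB : B →ₗ[ℤ] B)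
    (W : I → ℕ → Submodule ℤ B) (hWt : ∀ j ∈ J, ∀ i, ∀ x ∈ W j i, tB x ∈ W (σ j) i) (m k : ℕ)
    (a : S →ₗ[ℤ] B) (ha : Crd J Z W m k a) (r : ℕ) : Crd J Z W m k (((con tB tS) ^ r) a) := by
  induction r with
  | zero => exact ha
  | succ r ih =>
    have h1 : ((con tB tS) ^ (r + 1)) a = con tB tS (((con tB tS) ^ r) a) := by
      rw [pow_succ']
      rfl
    rw [h1]
    exact crd_con J σ hJ Z tS hZt tB W hWt m k _ ih

private theorem alg6_pow {I S B : Type*} [AddCommGroup S] [AddCommGroup B] (J : Set I) (σ : Equiv.Perm I)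
    (hJ : ∀ j, j ∈ J ↔ σ j ∈ J) (Z : I → ℕ → Submodule ℤ S) (bS tS : S →ₗ[ℤ] S)
    (hSt : ∀ x, tS (bS x) = bS (tS x))
    (hZt : ∀ j ∈ J, ∀ i, ∀ x ∈ Z (σ j) i, tS x ∈ Z j i) (m : ℕ)
    (bB tB : B →ₗ[ℤ] B) (hBt : ∀ x, tB (bB x) = bB (tB x)) (sg θ : S →ₗ[ℤ] B)
    (h : ∀ j ∈ J, ∀ i ≤ m, ∀ x ∈ Z j i, θ x = bB (sg x) + sg (bS x)) (r : ℕ) :
    ∀ j ∈ J, ∀ i ≤ m, ∀ x ∈ Z j i,
      ((con tB tS) ^ r) θ x = bB (((con tB tS) ^ r) sg x) + ((con tB tS) ^ r) sg (bS x) := by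
  have h1 : ∀ (r : ℕ) (a : S →ₗ[ℤ] B) (x : S),
      ((con tB tS) ^ (r + 1)) a x = tB (((con tB tS) ^ r) a (tS x)) := by
    intro r a x
    rw [pow_succ']
    rfl
  induction r with
  | zero => exact h
  | succ r ih =>
    intro j hj i hi x hx
    obtain ⟨j', rfl⟩ := σ.surjective j
    have hj' : j' ∈ J := (hJ j').2 hj
    rw [h1, h1, h1, ih j' hj' i hi _ (hZt j' hj' i x hx), map_add, hBt, hSt]

private theorem alg6_tel {S B : Type*} [AddCommGroup S] [AddCommGroup B] (tS : S →ₗ[ℤ] S) (tB : B →ₗ[ℤ] B)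
    (G : S →ₗ[ℤ] B) (x : S) (N : ℕ) :
    ∑ r ∈ Finset.range N, ((con tB tS) ^ r) (con tB tS G - G) x = (tB ^ N) (G ((tS ^ N) x)) - G x := by
  have h1 : ∀ r : ℕ, ((con tB tS) ^ r) (con tB tS G - G) x =
      ((con tB tS) ^ (r + 1)) G x - ((con tB tS) ^ r) G x := by
    intro r
    rw [map_sub, LinearMap.sub_apply, pow_succ]
    rfl
  simp_rw [h1]
  rw [Finset.sum_range_sub (fun r => ((con tB tS) ^ r) G x), con_pow_apply]
  rfl

theorem two_lifts {I S B : Type*} [AddCommGroup S] [AddCommGroup B] (J : Set I) (σ : Equiv.Perm I)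
    (hJ : ∀ j, j ∈ J ↔ σ j ∈ J) (Z : I → ℕ → Submodule ℤ S) (bS tS : S →ₗ[ℤ] S)
    (hSt : ∀ x, tS (bS x) = bS (tS x))
    (hZt : ∀ j ∈ J, ∀ i, ∀ x ∈ Z (σ j) i, tS x ∈ Z j i) (m N : ℕ)
    (hZN : ∀ j ∈ J, ∀ i ≤ m, ∀ x ∈ Z j i, (tS ^ N) x = x)
    (bB tB : B →ₗ[ℤ] B) (hBt : ∀ x, tB (bB x) = bB (tB x)) (hBN : ∀ x, (tB ^ N) x = x)
    (W : I → ℕ → Submodule ℤ B) (hWt : ∀ j ∈ J, ∀ i, ∀ x ∈ W j i, tB x ∈ W (σ j) i)
    (hl0 : Lft J Z bS W bB m 0) (hl1 : Lft J Z bS W bB m 1) (G : S →ₗ[ℤ] B)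
    (hG : ∀ j ∈ J, ∀ i ≤ m, ∀ x ∈ Z j i, bB (G x) = G (bS x))
    (hGc : Crd J Z W m 0 (con tB tS G - G)) :
    ∃ sg t : S →ₗ[ℤ] B, Crd J Z W m 1 sg ∧ Crd J Z W m 2 t ∧
      (∀ j ∈ J, ∀ i ≤ m, ∀ x ∈ Z j i, con tB tS G x - G x = bB (sg x) + sg (bS x)) ∧
      (∀ j ∈ J, ∀ i ≤ m, ∀ x ∈ Z j i, nrm N tB tS sg x = bB (t x) - t (bS x)) := by
  have h1 : ∀ j ∈ J, ∀ i ≤ m, ∀ x ∈ Z j i,
      bB ((con tB tS G - G) x) = (1 : ℤ) • (con tB tS G - G) (bS x) := by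
    intro j hj i hi x hx
    obtain ⟨j', rfl⟩ := σ.surjective j
    have hj' : j' ∈ J := (hJ j').2 hj
    have h2 := hG j' hj' i hi _ (hZt j' hj' i x hx)
    rw [one_smul, LinearMap.sub_apply, LinearMap.sub_apply, map_sub, hG _ hj i hi x hx, con_apply, con_apply,
      ← hBt, h2, hSt]
  obtain ⟨sg, hs1, hs2⟩ := hl0 1 (by ring) _ hGc h1
  have hs3 : ∀ j ∈ J, ∀ i ≤ m, ∀ x ∈ Z j i, (con tB tS G - G) x = bB (sg x) + sg (bS x) := by
    intro j hj i hi x hx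
    have h2 := hs2 j hj i hi x hx
    rw [one_smul] at h2
    exact h2
  have hn : ∀ x, nrm N tB tS sg x = ∑ r ∈ Finset.range N, ((con tB tS) ^ r) sg x := by
    intro x
    unfold nrm
    rw [LinearMap.sum_apply, LinearMap.sum_apply]
  have hc : Crd J Z W m 1 (nrm N tB tS sg) := by
    intro j hj i hi x hx
    rw [hn]
    exact Submodule.sum_mem _ fun r _ => alg6_crd_pow J σ hJ Z tS hZt tB W hWt m 1 sg hs1 r j hj i hi x hx
  have h3 : ∀ j ∈ J, ∀ i ≤ m, ∀ x ∈ Z j i, bB (nrm N tB tS sg x) = (-1 : ℤ) • nrm N tB tS sg (bS x) := by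
    intro j hj i hi x hx
    have h4 : bB (nrm N tB tS sg x) + nrm N tB tS sg (bS x) = 0 := by
      rw [hn, hn, map_sum, ← Finset.sum_add_distrib]
      have h5 : ∀ r ∈ Finset.range N, bB (((con tB tS) ^ r) sg x) + ((con tB tS) ^ r) sg (bS x) =
          ((con tB tS) ^ r) (con tB tS G - G) x := fun r _ =>
        (alg6_pow J σ hJ Z bS tS hSt hZt m bB tB hBt sg (con tB tS G - G) hs3 r j hj i hi x hx).symm
      rw [Finset.sum_congr rfl h5, alg6_tel, hZN j hj i hi x hx, hBN, sub_self]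
    rw [neg_smul, one_smul]
    exact eq_neg_of_add_eq_zero_left h4
  obtain ⟨t, ht1, ht2⟩ := hl1 (-1) (by ring) _ hc h3
  refine ⟨sg, t, hs1, ht1, fun j hj i hi x hx => ?_, fun j hj i hi x hx => ?_⟩
  · have h2 := hs3 j hj i hi x hx
    rw [LinearMap.sub_apply] at h2
    exact h2
  · rw [ht2 j hj i hi x hx, neg_smul, one_smul, sub_eq_add_neg]

end ALG
end AGE
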