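import Pool.Agent.AGE.ALG1
import Pool.Agent.AGE.ALG6

/-!
# AGE-ALG9 (helper87): the algebra on `K`: `Lam, nu', w, m` (steps (4), (5), (6) of the blueprint)

Notation: `cn a = con tB tC a`; the carriers `W c i` (they will be `QQ P pr (s c) i`) are acyclic in degrees `≤ n + 1` (`hac`).  `lift_cells A K hA.face bB hT.bb W hT.mono` gives
`Lft K A.E A.bd W bB m k` whenever `m + k ≤ n + 1`.  For `c ∈ K`, `x ∈ A.E c i`: `tC x ∈ A.E (σ⁻¹ c) i`, `σ⁻¹ c ∈ K`; `crd_con` (ALG6): `cn` preserves carried maps.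
PLAN.
(4) `θ = F' - Fs` is carried in `W` of degree 0 (hypothesis `hdf`), `bB θ x = θ (bd x)` on degrees `≤ n` (`hF'b`, `hFb`).  `Lft n 0` with `e = 1`: `Lam`, carried of degree 1:
    (4a) `F' x - Fs x = bB (Lam x) + Lam (bd x)` for `x ∈ A.E c i`, `i ≤ n`.
    On a cell `c ∈ K` with `A.dim c = n + 1`, `x = single c 1`, `y = bd x ∈ A.E c n`: `z := Fs x + Lam y ∈ W c (n+1)` (`hFt`, `Crd`), and `bB z = Fs y + bB (Lam y) = Fs y + (F' y - Fs y - Lam (bd y))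
    = F' y = 0` (`htop`, `bd_bd`, `hFb`).  Choose `nu' (single c 1) ∈ W c (n+2)` with `bB (nu' ..) = z`; extend linearly; then for all `x ∈ A.E c (n+1)`: `nu' x ∈ W c (n+2)` and
    `Fs x + Lam (bd x) = bB (nu' x)` (`E_ind`, `E_ext`).
(5) `u := cn Lam - Lam - s1`, carried of degree 1.  For `x` of degree `≤ n`: `bB (u x) + u (bd x) = [cn (F' - Fs) x - (F' - Fs) x] - [cn F' x - F' x] = 0` because `cn Fs x = Fs x` (`hFc`), using
    `bB ∘ cn Lam + cn Lam ∘ bd = cn (bB ∘ Lam + Lam ∘ bd)` (`hT.tb`, `hA.tb`).  `Lft n 1` with `e = -1`: `w` carried of degree 2, (5a) `u x = bB (w x) - w (bd x)`, degrees `≤ n`.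
    For `x ∈ A.E c (n+1)`, `y := cn nu' x - nu' x - w (bd x)`: `bB (cn nu' x - nu' x) = cn (Fs + Lam ∘ bd) x - (Fs + Lam ∘ bd) x = (cn Lam - Lam) (bd x) = u (bd x)` (`hFc`; `s1 (bd x) = 0`)
    `= bB (w (bd x))` (5a, `bd_bd`), so `bB y = 0`.
(6) `nrm N (cn a - a) x = 0` for every `a` (`con^N = 1`: `hT.tN`, `hA.tN`, `Finset.sum_range_sub`).  So for degrees `≤ n`: `nrm u x = - nrm s1 x = - (bB (t1 x) - t1 (bd x))`, and
    `nrm u = bB ∘ nrm w - nrm w ∘ bd` on these degrees.  `mm := nrm w + t1` is carried of degree 2 and `bB (mm x) = mm (bd x)`, degrees `≤ n`.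
    `Lft (n-1) 2` with `e = 1` (degrees `≤ n - 1`; `n - 1 + 2 = n + 1`): `v` carried of degree 3, `mm x = bB (v x) + v (bd x)` for degrees `≤ n - 1`.
    `m := mm - v ∘ₗ A.bd`: for `x ∈ A.E c n`: `m x ∈ W c (n+2)` (`bd x ∈ A.E c (n-1)`), `bB (m x) = mm (bd x) - bB (v (bd x)) = v (bd (bd x)) = 0`.
    For `x ∈ A.E c (n+1)`: `nrm (cn nu' - nu' - w ∘ bd) x = 0 - (nrm w) (bd x) = - (mm - t1) (bd x) = - mm (bd x) = - m (bd x)` (`t1 (bd x) = 0`, `v (bd (bd x)) = 0`;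
    `nrm (w ∘ₗ A.bd) = (nrm w) ∘ₗ A.bd` by `nrm_apply` and `tC^r ∘ bd = bd ∘ tC^r`).
Do (4) as a separate private lemma.
-/

set_option autoImplicit false

noncomputable section

namespace AGE
namespace ALG

open Finsupp

private theorem alg9_tC {C : Type*} (A : Bas C) (K : Set C) (N : ℕ)
    (σ : Equiv.Perm C) (tC : (C →₀ ℤ) →ₗ[ℤ] (C →₀ ℤ)) (hA : Act A K N σ tC) {c : C} (hc : c ∈ K) {i : ℕ}
    {x : C →₀ ℤ} (hx : x ∈ A.E c i) : ∃ c' ∈ K, tC x ∈ A.E c' i := by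
  have h1 : σ.symm c ∈ K := by
    rw [hA.inv (σ.symm c), Equiv.apply_symm_apply]
    exact hc
  refine ⟨σ.symm c, h1, hA.tE (σ.symm c) h1 i x ?_⟩
  rw [Equiv.apply_symm_apply]
  exact hx

private theorem alg9_tCr {C : Type*} (A : Bas C) (K : Set C) (N : ℕ)
    (σ : Equiv.Perm C) (tC : (C →₀ ℤ) →ₗ[ℤ] (C →₀ ℤ)) (hA : Act A K N σ tC) (r : ℕ) {i : ℕ} :
    ∀ {c : C}, c ∈ K → ∀ {x : C →₀ ℤ}, x ∈ A.E c i → ∃ c' ∈ K, (tC ^ r) x ∈ A.E c' i := by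
  induction r with
  | zero => intro c hc x hx; exact ⟨c, hc, by simpa using hx⟩
  | succ r ih =>
    intro c hc x hx
    obtain ⟨c', hc', hx'⟩ := alg9_tC A K N σ tC hA hc hx
    obtain ⟨c2, hc2, hx2⟩ := ih hc' hx'
    refine ⟨c2, hc2, ?_⟩
    have h3 : (tC ^ (r + 1)) x = (tC ^ r) (tC x) := by
      rw [pow_succ]; rfl
    rw [h3]
    exact hx2

private theorem alg9_comm {B : Type*} [AddCommGroup B] (f g : B →ₗ[ℤ] B) (h : ∀ x, f (g x) = g (f x)) (r : ℕ) :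
    ∀ x, (f ^ r) (g x) = g ((f ^ r) x) := by
  induction r with
  | zero => intro x; simp
  | succ r ih =>
    intro x
    have h3 : ∀ y, (f ^ (r + 1)) y = (f ^ r) (f y) := fun y => by rw [pow_succ]; rfl
    rw [h3, h3, h x, ih]

private theorem alg9_crd_pow {C B : Type*} [AddCommGroup B] (A : Bas C) (K : Set C) (N : ℕ)
    (σ : Equiv.Perm C) (tC : (C →₀ ℤ) →ₗ[ℤ] (C →₀ ℤ)) (hA : Act A K N σ tC)
    (W : C → ℕ → Submodule ℤ B) (bB tB : B →ₗ[ℤ] B) (hT : Tgt A K N σ W bB tB) (m k : ℕ)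
    (a : (C →₀ ℤ) →ₗ[ℤ] B) (ha : Crd K A.E W m k a) (r : ℕ) : Crd K A.E W m k (((con tB tC) ^ r) a) := by
  induction r with
  | zero => simpa using ha
  | succ r ih =>
    have h3 : ((con tB tC) ^ (r + 1)) a = con tB tC (((con tB tC) ^ r) a) := by
      rw [pow_succ']; rfl
    rw [h3]
    exact crd_con K σ hA.inv A.E tC hA.tE tB W hT.tW m k _ ih

private theorem alg9_crd_nrm {C B : Type*} [AddCommGroup B] (A : Bas C) (K : Set C) (N : ℕ)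
    (σ : Equiv.Perm C) (tC : (C →₀ ℤ) →ₗ[ℤ] (C →₀ ℤ)) (hA : Act A K N σ tC)
    (W : C → ℕ → Submodule ℤ B) (bB tB : B →ₗ[ℤ] B) (hT : Tgt A K N σ W bB tB) (m k : ℕ)
    (a : (C →₀ ℤ) →ₗ[ℤ] B) (ha : Crd K A.E W m k a) : Crd K A.E W m k (nrm N tB tC a) := by
  intro c hc i hi x hx
  unfold nrm
  rw [LinearMap.sum_apply, LinearMap.sum_apply]
  exact Submodule.sum_mem _ fun r _ => alg9_crd_pow A K N σ tC hA W bB tB hT m k a ha r c hc i hi x hx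

private theorem alg9_nrm_zero {C B : Type*} [AddCommGroup B] (A : Bas C) (K : Set C) (N : ℕ)
    (σ : Equiv.Perm C) (tC : (C →₀ ℤ) →ₗ[ℤ] (C →₀ ℤ)) (hA : Act A K N σ tC)
    (W : C → ℕ → Submodule ℤ B) (bB tB : B →ₗ[ℤ] B) (hT : Tgt A K N σ W bB tB)
    (a : (C →₀ ℤ) →ₗ[ℤ] B) (x : C →₀ ℤ) : nrm N tB tC (con tB tC a - a) x = 0 := by
  unfold nrm
  rw [LinearMap.sum_apply, LinearMap.sum_apply]
  have h1 : ∀ r ∈ Finset.range N, ((con tB tC) ^ r) (con tB tC a - a) x =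
      ((con tB tC) ^ (r + 1)) a x - ((con tB tC) ^ r) a x := by
    intro r _
    have h3 : ((con tB tC) ^ (r + 1)) a = ((con tB tC) ^ r) (con tB tC a) := by
      rw [pow_succ]; rfl
    rw [h3, map_sub, LinearMap.sub_apply]
  rw [Finset.sum_congr rfl h1, Finset.sum_range_sub (fun r => ((con tB tC) ^ r) a x), con_pow_apply, hA.tN, hT.tN]
  simp

/-- step (4) -/
private theorem alg9_four {C B : Type*} [AddCommGroup B] (A : Bas C) (K : Set C) (n N : ℕ) (hn : 2 ≤ n)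
    (σ : Equiv.Perm C) (tC : (C →₀ ℤ) →ₗ[ℤ] (C →₀ ℤ)) (hA : Act A K N σ tC)
    (W : C → ℕ → Submodule ℤ B) (bB tB : B →ₗ[ℤ] B) (hT : Tgt A K N σ W bB tB)
    (hac : Acyc K W bB (n + 1)) (Fs F' : (C →₀ ℤ) →ₗ[ℤ] B)
    (hdf : Crd K A.E W n 0 (F' - Fs))
    (hFt : ∀ c ∈ K, ∀ x ∈ A.E c (n + 1), Fs x ∈ W c (n + 1))
    (hF'b : ∀ c ∈ K, ∀ i ≤ n, ∀ x ∈ A.E c i, bB (F' x) = F' (A.bd x))
    (hFb : ∀ c ∈ K, ∀ i ≤ n + 1, ∀ x ∈ A.E c i, bB (Fs x) = Fs (A.bd x))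
    (htop : ∀ c ∈ K, ∀ x ∈ A.E c (n + 1), F' (A.bd x) = 0)
    (hl : Lft K A.E A.bd W bB n 0) :
    ∃ Lam nu' : (C →₀ ℤ) →ₗ[ℤ] B, Crd K A.E W n 1 Lam ∧
      (∀ c ∈ K, ∀ i ≤ n, ∀ x ∈ A.E c i, F' x - Fs x = bB (Lam x) + Lam (A.bd x)) ∧
      (∀ c ∈ K, ∀ x ∈ A.E c (n + 1), nu' x ∈ W c (n + 2)) ∧
      (∀ c ∈ K, ∀ x ∈ A.E c (n + 1), Fs x + Lam (A.bd x) = bB (nu' x)) := by
  obtain ⟨Lam, hL1, hL2⟩ := hl 1 (by ring) (F' - Fs) hdf (by
    intro c hc i hi x hx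
    rw [one_smul, LinearMap.sub_apply, LinearMap.sub_apply, map_sub, hF'b c hc i hi x hx,
      hFb c hc i (by omega) x hx])
  have hL3 : ∀ c ∈ K, ∀ i ≤ n, ∀ x ∈ A.E c i, F' x - Fs x = bB (Lam x) + Lam (A.bd x) := by
    intro c hc i hi x hx
    have := hL2 c hc i hi x hx
    rw [one_smul, LinearMap.sub_apply] at this
    exact this
  have hcell : ∀ c : C, c ∈ K → A.dim c = n + 1 →
      ∃ y ∈ W c (n + 2), bB y = Fs (single c 1) + Lam (A.bd (single c 1)) := by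
    intro c hc hd
    have hx : single c (1 : ℤ) ∈ A.E c (n + 1) := by
      have := E_single_self A c
      rwa [hd] at this
    have hy : A.bd (single c (1 : ℤ)) ∈ A.E c n := bd_E A _ hx
    refine hac c hc (n + 1) le_rfl _ (add_mem (hFt c hc _ hx) (hL1 c hc n le_rfl _ hy)) ?_
    have h4 := hL3 c hc n le_rfl _ hy
    rw [A.bd_bd, map_zero, add_zero, htop c hc _ hx, zero_sub] at h4
    rw [map_add, hFb c hc (n + 1) le_rfl _ hx, ← h4, add_neg_cancel]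
  classical
  choose! u hu1 hu2 using hcell
  have hns : ∀ c : C, Finsupp.linearCombination ℤ u (single c (1 : ℤ)) = u c := fun c => by
    rw [Finsupp.linearCombination_single, one_smul]
  refine ⟨Lam, Finsupp.linearCombination ℤ u, hL1, hL3, ?_, ?_⟩
  · intro c hc x hx
    refine E_ind A _ _ (fun c' hc' hd' => ?_) x hx
    rw [hns]
    exact hT.mono c' c hc hc' _ (hu1 c' (hA.face c' c hc hc') hd')
  · intro c hc x hx
    refine E_ext A (Fs + Lam ∘ₗ A.bd) (bB ∘ₗ Finsupp.linearCombination ℤ u) (fun c' hc' hd' => ?_) x hx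
    rw [LinearMap.add_apply, LinearMap.comp_apply, LinearMap.comp_apply, hns]
    exact (hu2 c' (hA.face c' c hc hc') hd').symm

theorem k_level {C B : Type*} [AddCommGroup B] (A : Bas C) (K : Set C) (n N : ℕ) (hn : 2 ≤ n)
    (σ : Equiv.Perm C) (tC : (C →₀ ℤ) →ₗ[ℤ] (C →₀ ℤ)) (hA : Act A K N σ tC)
    (W : C → ℕ → Submodule ℤ B) (bB tB : B →ₗ[ℤ] B) (hT : Tgt A K N σ W bB tB)
    (hac : Acyc K W bB (n + 1)) (Fs F' s1 t1 : (C →₀ ℤ) →ₗ[ℤ] B)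
    (hdf : Crd K A.E W n 0 (F' - Fs))
    (hFt : ∀ c ∈ K, ∀ x ∈ A.E c (n + 1), Fs x ∈ W c (n + 1))
    (hF'b : ∀ c ∈ K, ∀ i ≤ n, ∀ x ∈ A.E c i, bB (F' x) = F' (A.bd x))
    (hFb : ∀ c ∈ K, ∀ i ≤ n + 1, ∀ x ∈ A.E c i, bB (Fs x) = Fs (A.bd x))
    (hFc : ∀ c ∈ K, ∀ i ≤ n + 1, ∀ x ∈ A.E c i, con tB tC Fs x = Fs x)
    (hs1 : Crd K A.E W n 1 s1) (ht1 : Crd K A.E W n 2 t1)
    (hcs : ∀ c ∈ K, ∀ i ≤ n, ∀ x ∈ A.E c i, con tB tC F' x - F' x = bB (s1 x) + s1 (A.bd x))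
    (hns : ∀ c ∈ K, ∀ i ≤ n, ∀ x ∈ A.E c i, nrm N tB tC s1 x = bB (t1 x) - t1 (A.bd x))
    (htop : ∀ c ∈ K, ∀ x ∈ A.E c (n + 1), F' (A.bd x) = 0 ∧ s1 (A.bd x) = 0 ∧ t1 (A.bd x) = 0) :
    ∃ Lam nu' w m : (C →₀ ℤ) →ₗ[ℤ] B,
      (∀ c ∈ K, ∀ x ∈ A.E c n, Lam x ∈ W c (n + 1)) ∧
      (∀ c ∈ K, ∀ x ∈ A.E c (n + 1), nu' x ∈ W c (n + 2)) ∧
      (∀ c ∈ K, ∀ x ∈ A.E c n, w x ∈ W c (n + 2)) ∧
      (∀ c ∈ K, ∀ x ∈ A.E c n, m x ∈ W c (n + 2) ∧ bB (m x) = 0) ∧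
      (∀ c ∈ K, ∀ x ∈ A.E c (n + 1), Fs x + Lam (A.bd x) = bB (nu' x)) ∧
      (∀ c ∈ K, ∀ x ∈ A.E c (n + 1),
        bB ((con tB tC nu' - nu' - w ∘ₗ A.bd) x) = 0 ∧
        nrm N tB tC (con tB tC nu' - nu' - w ∘ₗ A.bd) x = - m (A.bd x)) := by
  have hlf : ∀ m k : ℕ, m + k ≤ n + 1 → Lft K A.E A.bd W bB m k := fun m k h =>
    lift_cells A K hA.face bB hT.bb W hT.mono m k (fun c hc hd z hz h0 => hac c hc (A.dim c + k) (by omega) z hz h0)
  obtain ⟨Lam, nu', hL1, hL3, hnu1, hnu2⟩ := alg9_four A K n N hn σ tC hA W bB tB hT hac Fs F' hdf hFt hF'b hFb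
    (fun c hc x hx => (htop c hc x hx).1) (hlf n 0 (by omega))
  -- (5)
  have hLc : Crd K A.E W n 1 (con tB tC Lam) := crd_con K σ hA.inv A.E tC hA.tE tB W hT.tW n 1 _ hL1
  have hcL : ∀ c ∈ K, ∀ i ≤ n, ∀ x ∈ A.E c i,
      bB (con tB tC Lam x) + con tB tC Lam (A.bd x) = con tB tC F' x - Fs x := by
    intro c hc i hi x hx
    obtain ⟨c', hc', hx'⟩ := alg9_tC A K N σ tC hA hc hx
    have h1 := hL3 c' hc' i hi _ hx'
    have h2 := hFc c hc i (by omega) x hx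
    rw [con_apply] at h2
    rw [con_apply, con_apply, con_apply, ← hT.tb, hA.tb, ← map_add, ← h1, map_sub, h2]
  have hu1 : Crd K A.E W n 1 (con tB tC Lam - Lam - s1) := by
    intro c hc i hi x hx
    rw [LinearMap.sub_apply, LinearMap.sub_apply]
    exact sub_mem (sub_mem (hLc c hc i hi x hx) (hL1 c hc i hi x hx)) (hs1 c hc i hi x hx)
  obtain ⟨w, hw1, hw2⟩ := hlf n 1 (by omega) (-1) (by ring) (con tB tC Lam - Lam - s1) hu1 (by
    intro c hc i hi x hx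
    have h1 := hcL c hc i hi x hx
    have h2 := hL3 c hc i hi x hx
    have h3 := hcs c hc i hi x hx
    rw [LinearMap.sub_apply, LinearMap.sub_apply, LinearMap.sub_apply, LinearMap.sub_apply, map_sub, map_sub,
      neg_one_smul]
    have h4 : bB (con tB tC Lam x) = con tB tC F' x - Fs x - con tB tC Lam (A.bd x) := by
      rw [← h1]; abel
    have h5 : bB (Lam x) = F' x - Fs x - Lam (A.bd x) := by
      rw [h2]; abel
    have h6 : bB (s1 x) = con tB tC F' x - F' x - s1 (A.bd x) := by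
      rw [h3]; abel
    rw [h4, h5, h6]
    abel)
  have hw3 : ∀ c ∈ K, ∀ i ≤ n, ∀ x ∈ A.E c i,
      (con tB tC Lam - Lam - s1) x = bB (w x) - w (A.bd x) := by
    intro c hc i hi x hx
    have := hw2 c hc i hi x hx
    rw [neg_one_smul, ← sub_eq_add_neg] at this
    exact this
  -- (6)
  have hnu3 : ∀ c ∈ K, ∀ i ≤ n, ∀ x ∈ A.E c i,
      nrm N tB tC (con tB tC Lam - Lam - s1) x = bB (nrm N tB tC w x) - nrm N tB tC w (A.bd x) := by
    intro c hc i hi x hx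
    rw [nrm_apply, nrm_apply, nrm_apply, map_sum, ← Finset.sum_sub_distrib]
    refine Finset.sum_congr rfl fun r _ => ?_
    obtain ⟨c', hc', hx'⟩ := alg9_tCr A K N σ tC hA r hc hx
    rw [hw3 c' hc' i hi _ hx', map_sub, alg9_comm tB bB hT.tb r, alg9_comm tC A.bd hA.tb r]
  have hns2 : ∀ c ∈ K, ∀ i ≤ n, ∀ x ∈ A.E c i,
      nrm N tB tC (con tB tC Lam - Lam - s1) x = - (bB (t1 x) - t1 (A.bd x)) := by
    intro c hc i hi x hx
    rw [map_sub, LinearMap.sub_apply, alg9_nrm_zero A K N σ tC hA W bB tB hT Lam x, hns c hc i hi x hx, zero_sub]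
  have hmm1 : Crd K A.E W n 2 (nrm N tB tC w + t1) := by
    intro c hc i hi x hx
    rw [LinearMap.add_apply]
    exact add_mem (alg9_crd_nrm A K N σ tC hA W bB tB hT n 2 w hw1 c hc i hi x hx) (ht1 c hc i hi x hx)
  have hmm2 : ∀ c ∈ K, ∀ i ≤ n, ∀ x ∈ A.E c i,
      bB ((nrm N tB tC w + t1) x) = (nrm N tB tC w + t1) (A.bd x) := by
    intro c hc i hi x hx
    have h1 := hnu3 c hc i hi x hx
    rw [hns2 c hc i hi x hx] at h1
    have h2 : bB (nrm N tB tC w x) = nrm N tB tC w (A.bd x) + -(bB (t1 x) - t1 (A.bd x)) := by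
      rw [h1]; abel
    rw [LinearMap.add_apply, LinearMap.add_apply, map_add, h2]
    abel
  obtain ⟨v, hv1, hv2⟩ := hlf (n - 1) 2 (by omega) 1 (by ring) (nrm N tB tC w + t1)
    (fun c hc i hi x hx => hmm1 c hc i (by omega) x hx)
    (fun c hc i hi x hx => by rw [one_smul]; exact hmm2 c hc i (by omega) x hx)
  refine ⟨Lam, nu', w, (nrm N tB tC w + t1) - v ∘ₗ A.bd, ?_, hnu1, ?_, ?_, hnu2, ?_⟩
  · intro c hc x hx
    exact hL1 c hc n le_rfl x hx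
  · intro c hc x hx
    exact hw1 c hc n le_rfl x hx
  · intro c hc x hx
    obtain ⟨j, rfl⟩ : ∃ j, n = j + 1 := ⟨n - 1, by omega⟩
    have hy : A.bd x ∈ A.E c j := bd_E A x hx
    rw [LinearMap.sub_apply, LinearMap.comp_apply]
    refine ⟨sub_mem (hmm1 c hc (j + 1) le_rfl x hx) (hv1 c hc j (by omega) _ hy), ?_⟩
    have h3 := hv2 c hc j (by omega) _ hy
    rw [A.bd_bd, map_zero, smul_zero, add_zero] at h3
    rw [map_sub, hmm2 c hc (j + 1) le_rfl x hx, h3, sub_self]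
  · intro c hc x hx
    have hy : A.bd x ∈ A.E c n := bd_E A x hx
    constructor
    · obtain ⟨c', hc', hx'⟩ := alg9_tC A K N σ tC hA hc hx
      have h1 := hnu2 c' hc' _ hx'
      have h2 := hnu2 c hc x hx
      have h3 := hw3 c hc n le_rfl _ hy
      rw [A.bd_bd, map_zero, sub_zero, LinearMap.sub_apply, LinearMap.sub_apply, (htop c hc x hx).2.1, sub_zero] at h3
      have h4 := hFc c hc (n + 1) le_rfl x hx
      rw [con_apply] at h4
      have h5 : bB (con tB tC nu' x) = Fs x + con tB tC Lam (A.bd x) := by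
        rw [con_apply, ← hT.tb, ← h1, map_add, h4, con_apply, hA.tb]
      rw [LinearMap.sub_apply, LinearMap.sub_apply, LinearMap.comp_apply, map_sub, map_sub, h5, ← h2, ← h3]
      abel
    · have h1 : nrm N tB tC (w ∘ₗ A.bd) x = nrm N tB tC w (A.bd x) := by
        rw [nrm_apply, nrm_apply]
        refine Finset.sum_congr rfl fun r _ => ?_
        rw [LinearMap.comp_apply, alg9_comm tC A.bd hA.tb r]
      rw [map_sub, LinearMap.sub_apply, alg9_nrm_zero A K N σ tC hA W bB tB hT nu' x, h1, LinearMap.sub_apply,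
        LinearMap.comp_apply, A.bd_bd, map_zero, LinearMap.add_apply, (htop c hc x hx).2.2]
      simp

end ALG
end AGE
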