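import Pool.Agent.AGE.ALG8
import Pool.Agent.AGE.ALG9

/-!
# AGE-ALG10 (helper87, proof helper23): the obstruction algebra, abstract form (assembly of ALG8 and ALG9)

`pull` gives `F', s1, t1`; `k_level` is applied with the carriers `W c i := QQ P pr (s c) i`. The projections of `Fs` are computed from
the projection `pr 0` by the equivariance of `Fs` (`alg10_pr`).
-/

set_option autoImplicit false

noncomputable section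

namespace AGE
namespace ALG

open Finsupp

private theorem alg10_tC {C : Type*} (A : Bas C) (K : Set C) (N : ℕ)
    (σ : Equiv.Perm C) (tC : (C →₀ ℤ) →ₗ[ℤ] (C →₀ ℤ)) (hA : Act A K N σ tC) {c : C} (hc : c ∈ K) {i : ℕ}
    {x : C →₀ ℤ} (hx : x ∈ A.E c i) : ∃ c' ∈ K, tC x ∈ A.E c' i := by
  have h1 : σ.symm c ∈ K := by
    rw [hA.inv (σ.symm c), Equiv.apply_symm_apply]
    exact hc
  refine ⟨σ.symm c, h1, hA.tE (σ.symm c) h1 i x ?_⟩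
  rw [Equiv.apply_symm_apply]
  exact hx

private theorem alg10_prt {D B : Type*} [AddCommGroup B] (E : Bas D) (n N : ℕ) (τ : Equiv.Perm D)
    (tD tDi : (D →₀ ℤ) →ₗ[ℤ] (D →₀ ℤ)) (bB tB : B →ₗ[ℤ] B) (P : D → ℕ → Submodule ℤ B)
    (pr : ℕ → B →ₗ[ℤ] (D →₀ ℤ)) (hc : Coi E n N τ tD tDi bB tB P pr) (x : B) (hx : ∀ g, pr g x = 0) :
    ∀ g, pr g (tB x) = 0 := by
  have h1 : ∀ g, pr (g + 1) (tB x) = 0 := fun g => by rw [hc.prt, hx g, map_zero]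
  intro g
  cases g with
  | zero =>
    obtain ⟨N', hN'⟩ : ∃ N', N = N' + 1 := ⟨N - 1, by have := hc.N0; omega⟩
    have h2 := hc.prN 0 (tB x)
    rw [← h2, hN', Nat.zero_add]
    exact h1 N'
  | succ g => exact h1 g

private theorem alg10_pr {C D B : Type*} [AddCommGroup B] (A : Bas C) (E : Bas D) (K : Set C) (n N : ℕ)
    (σ : Equiv.Perm C) (τ : Equiv.Perm D) (tC : (C →₀ ℤ) →ₗ[ℤ] (C →₀ ℤ))
    (tD tDi : (D →₀ ℤ) →ₗ[ℤ] (D →₀ ℤ)) (hA : Act A K N σ tC)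
    (bB tB : B →ₗ[ℤ] B) (P : D → ℕ → Submodule ℤ B) (pr : ℕ → B →ₗ[ℤ] (D →₀ ℤ))
    (hc : Coi E n N τ tD tDi bB tB P pr) (Fs : (C →₀ ℤ) →ₗ[ℤ] B) (h : (C →₀ ℤ) →ₗ[ℤ] (D →₀ ℤ)) (i : ℕ)
    (hF3 : ∀ c ∈ K, ∀ x ∈ A.E c i, con tB tC Fs x = Fs x)
    (hF4 : ∀ c ∈ K, ∀ x ∈ A.E c i, pr 0 (Fs x) = h x) (g : ℕ) :
    ∀ c ∈ K, ∀ x ∈ A.E c i, pr g (Fs x) = ((con tD tC) ^ g) h x := by
  induction g with
  | zero =>
    intro c hcK x hx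
    rw [pow_zero, Module.End.one_apply]
    exact hF4 c hcK x hx
  | succ g ih =>
    intro c hcK x hx
    obtain ⟨c', hc', hx'⟩ := alg10_tC A K N σ tC hA hcK hx
    have h1 := hF3 c hcK x hx
    rw [con_apply] at h1
    have h2 : ((con tD tC) ^ (g + 1)) h = con tD tC (((con tD tC) ^ g) h) := by
      rw [pow_succ']; rfl
    rw [← h1, hc.prt, ih c' hc' _ hx', h2, con_apply]

theorem alg_abs {C D B : Type*} [AddCommGroup B] (A : Bas C) (E : Bas D) (K : Set C) (s : C → D) (n N : ℕ)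
    (σ : Equiv.Perm C) (τ : Equiv.Perm D) (tC : (C →₀ ℤ) →ₗ[ℤ] (C →₀ ℤ))
    (tD tDi : (D →₀ ℤ) →ₗ[ℤ] (D →₀ ℤ)) (hA : Act A K N σ tC) (hs : Ctl A E K s σ τ)
    (φ lam nu xi : (C →₀ ℤ) →ₗ[ℤ] (D →₀ ℤ)) (hd : DatA A E K s n tC tD φ lam nu xi)
    (bB tB : B →ₗ[ℤ] B) (P : D → ℕ → Submodule ℤ B) (pr : ℕ → B →ₗ[ℤ] (D →₀ ℤ))
    (hc : Coi E n N τ tD tDi bB tB P pr) (Fs : (C →₀ ℤ) →ₗ[ℤ] B)
    (hF1 : ∀ c ∈ K, ∀ i ≤ n + 1, ∀ x ∈ A.E c i, Fs x ∈ P (s c) i)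
    (hF2 : ∀ c ∈ K, ∀ i ≤ n + 1, ∀ x ∈ A.E c i, bB (Fs x) = Fs (A.bd x))
    (hF3 : ∀ c ∈ K, ∀ i ≤ n + 1, ∀ x ∈ A.E c i, con tB tC Fs x = Fs x)
    (hF4 : ∀ c ∈ K, ∀ i ≤ n, ∀ x ∈ A.E c i, pr 0 (Fs x) = hmap E φ lam x)
    (hF5 : ∀ c ∈ K, ∀ x ∈ A.E c (n + 1), pr 0 (Fs x) = 0) :
    ∃ Lam nu' w m : (C →₀ ℤ) →ₗ[ℤ] B,
      (∀ c ∈ K, ∀ x ∈ A.E c n, Lam x ∈ P (s c) (n + 1)) ∧
      (∀ c ∈ K, ∀ x ∈ A.E c (n + 1), nu' x ∈ P (s c) (n + 2)) ∧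
      (∀ c ∈ K, ∀ x ∈ A.E c n, w x ∈ P (s c) (n + 2)) ∧
      (∀ c ∈ K, ∀ x ∈ A.E c n, m x ∈ P (s c) (n + 2) ∧ bB (m x) = 0) ∧
      (∀ c ∈ K, ∀ x ∈ A.E c (n + 1), Fs x + Lam (A.bd x) = bB (nu' x)) ∧
      (∀ c ∈ K, ∀ x ∈ A.E c (n + 1),
        bB ((con tB tC nu' - nu' - w ∘ₗ A.bd) x) = 0 ∧
        nrm N tB tC (con tB tC nu' - nu' - w ∘ₗ A.bd) x = - m (A.bd x)) := by
  obtain ⟨F', s1, t1, hp1, hp2⟩ := pull A E K s n N σ τ tC tD tDi hA hs φ lam nu xi hd bB tB P pr hc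
  have hT : Tgt A K N σ (fun c i => QQ P pr (s c) i) bB tB :=
    { bb := hc.bb
      tb := hc.tb
      tN := hc.tN
      mono := by
        intro a b hb hab i x hx
        rw [mem_QQ] at hx ⊢
        exact ⟨hc.Pm _ _ (hs.mono b hb a hab) i hx.1, hx.2⟩
      tW := by
        intro c hcK i x hx
        rw [mem_QQ] at hx ⊢
        refine ⟨?_, alg10_prt E n N τ tD tDi bB tB P pr hc x hx.2⟩
        rw [hs.equ c hcK]
        exact hc.Pt _ _ _ hx.1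
      bW := by
        intro c _ i x hx
        rw [mem_QQ] at hx ⊢
        exact ⟨hc.Pb _ _ _ hx.1, fun g => by rw [hc.prb, hx.2 g, map_zero]⟩ }
  have hac : Acyc K (fun c i => QQ P pr (s c) i) bB (n + 1) := by
    intro c _ i hi z hz hb
    rw [mem_QQ] at hz
    obtain ⟨y, hy, hyb, hyp⟩ := hc.acy (s c) i hi z hz.1 hb hz.2
    exact ⟨y, mem_QQ.2 ⟨hy, hyp⟩, hyb⟩
  have hFp : ∀ g, ∀ c ∈ K, ∀ i ≤ n, ∀ x ∈ A.E c i, pr g (Fs x) = ((con tD tC) ^ g) (hmap E φ lam) x :=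
    fun g c hcK i hi x hx => alg10_pr A E K n N σ τ tC tD tDi hA bB tB P pr hc Fs (hmap E φ lam) i
      (fun c hcK x hx => hF3 c hcK i (by omega) x hx) (fun c hcK x hx => hF4 c hcK i hi x hx) g c hcK x hx
  have hFz : ∀ g, ∀ c ∈ K, ∀ x ∈ A.E c (n + 1), pr g (Fs x) = 0 := by
    intro g c hcK x hx
    have := alg10_pr A E K n N σ τ tC tD tDi hA bB tB P pr hc Fs 0 (n + 1)
      (fun c hcK x hx => hF3 c hcK (n + 1) le_rfl x hx)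
      (fun c hcK x hx => by rw [hF5 c hcK x hx]; rfl) g c hcK x hx
    rw [this, map_zero]
    rfl
  have hdf : Crd K A.E (fun c i => QQ P pr (s c) i) n 0 (F' - Fs) := by
    intro c hcK i hi x hx
    obtain ⟨h1, -, h3, -⟩ := hp1 c hcK i hi x hx
    rw [LinearMap.sub_apply, add_zero, mem_QQ]
    refine ⟨sub_mem h1 (hF1 c hcK i (by omega) x hx), fun g => ?_⟩
    rw [map_sub, h3 g, hFp g c hcK i hi x hx, sub_self]
  have hFt : ∀ c ∈ K, ∀ x ∈ A.E c (n + 1), Fs x ∈ QQ P pr (s c) (n + 1) := fun c hcK x hx =>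
    mem_QQ.2 ⟨hF1 c hcK (n + 1) le_rfl x hx, fun g => hFz g c hcK x hx⟩
  obtain ⟨Lam, nu', w, m, r1, r2, r3, r4, r5, r6⟩ :=
    k_level A K n N hc.n2 σ tC hA (fun c i => QQ P pr (s c) i) bB tB hT hac Fs F' s1 t1 hdf hFt
      (fun c hcK i hi x hx => (hp1 c hcK i hi x hx).2.1) hF2 hF3
      (fun c hcK i hi x hx => (hp1 c hcK i hi x hx).2.2.2.1)
      (fun c hcK i hi x hx => (hp1 c hcK i hi x hx).2.2.2.2.1)
      (fun c hcK i hi x hx => (hp1 c hcK i hi x hx).2.2.2.2.2.1)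
      (fun c hcK i hi x hx => (hp1 c hcK i hi x hx).2.2.2.2.2.2) hp2
  exact ⟨Lam, nu', w, m, fun c hcK x hx => (mem_QQ.1 (r1 c hcK x hx)).1,
    fun c hcK x hx => (mem_QQ.1 (r2 c hcK x hx)).1, fun c hcK x hx => (mem_QQ.1 (r3 c hcK x hx)).1,
    fun c hcK x hx => ⟨(mem_QQ.1 (r4 c hcK x hx).1).1, (r4 c hcK x hx).2⟩, r5, r6⟩

end ALG
end AGE
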