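import Mathlib

/-!
# AGE (MP_b5674c_gt), obstruction algebra (blueprint, section 3): abstract definitions (helper87)

No cubes here.  Everything is stated for BASED COMPLEXES (`Bas`): a type of cells with a dimension, a face relation `le` and a boundary.

* `A.E t i`     : chains of degree `i` on the faces of the cell `t`;
* `con tB tS a` : `tB ∘ a ∘ tS`; `tB` = action of the GENERATOR on the target, `tS` = action of its INVERSE on the source;
* `nrm N`       : `∑_{i<N} con^i`;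
* `Crd J Z W m k a` : the linear map `a` is carried (degree `k`, in degrees `≤ m`): `a (Z j i) ⊆ W j (i+k)` for `j ∈ J`, `i ≤ m`;
* `Lft`         : the lifting property (acyclic carriers): `bB θ = e θ bS` (`e = ±1`) and `θ` carried imply `θ = bB Λ + e Λ bS`, `Λ` carried
                  of degree `k+1`;
* `M D`         : triples `(a, d, e)`, `d` a sequence of chains; `HZ A n N t i` = the elements of degree `i` with carrier `t` of the complex `H` of the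
                  blueprint: `d` is `N`-periodic, `∑_{m<N} d m = bd e`, in degree `i = n`: `a ∈ E t n`, `d m ∈ E t (n+1)`, `e ∈ E t (n+2)`;
                  in degrees `i ≠ n`: `a ∈ E t i`, `d = 0`, `e = 0`.  (`H` is free on `(a,0,0)`, `β_m`, `γ`, but we never say so.)
* `bdH (a,d,e) = (bd a, 0, 0)`, `can g (a,d,e) = a + bd (∑_{m<g} d m)`,
  `Xi (a,d,e) = (tDi (a + bd (d 0)), fun m => tDi (d (m+1)), tDi e)` (action of the inverse of the generator on `H`).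
-/

set_option autoImplicit false

noncomputable section

namespace AGE
namespace ALG

open Finsupp

/-- A based complex with a face relation. -/
structure Bas (D : Type*) where
  dim : D → ℕ
  le : D → D → Prop
  bd : (D →₀ ℤ) →ₗ[ℤ] (D →₀ ℤ)
  le_refl : ∀ a, le a a
  le_trans : ∀ a b c, le a b → le b c → le a c
  bd_bd : ∀ x, bd (bd x) = 0
  bd_supp : ∀ c c', c' ∈ (bd (single c 1)).support → le c' c ∧ dim c' + 1 = dim c

/-- Chains of degree `i` on the faces of `t`. -/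
def Bas.E {D : Type*} (A : Bas D) (t : D) (i : ℕ) : Submodule ℤ (D →₀ ℤ) :=
  Finsupp.supported ℤ ℤ {c | A.le c t ∧ A.dim c = i}

section Efacts
variable {D : Type*} (A : Bas D)

theorem E_single {c t : D} {i : ℕ} (h : A.le c t) (hd : A.dim c = i) : single c (1 : ℤ) ∈ A.E t i := by
  unfold Bas.E
  rw [Finsupp.mem_supported]
  intro a ha
  have h1 : a = c := by
    have := Finsupp.support_single_subset ha
    simpa using this
  subst h1
  exact ⟨h, hd⟩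

theorem E_single_self (c : D) : single c (1 : ℤ) ∈ A.E c (A.dim c) := E_single A (A.le_refl c) rfl

theorem E_mono {a b : D} (h : A.le a b) (i : ℕ) : A.E a i ≤ A.E b i := by
  unfold Bas.E
  exact Finsupp.supported_mono fun c hc => ⟨A.le_trans _ _ _ hc.1 h, hc.2⟩

/-- induction over the cells of a chain of `E t i` -/
theorem E_ind {B : Type*} [AddCommGroup B] {t : D} {i : ℕ} (L : (D →₀ ℤ) →ₗ[ℤ] B) (W : Submodule ℤ B)
    (h : ∀ c, A.le c t → A.dim c = i → L (single c 1) ∈ W) : ∀ x ∈ A.E t i, L x ∈ W := by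
  intro x hx
  unfold Bas.E at hx
  rw [Finsupp.mem_supported] at hx
  have h1 : x = x.sum fun c r => r • single c (1 : ℤ) := by
    conv_lhs => rw [← Finsupp.sum_single x]
    refine Finsupp.sum_congr fun c _ => ?_
    simp
  rw [h1, Finsupp.sum, map_sum]
  refine Submodule.sum_mem _ fun c hc => ?_
  rw [map_smul]
  exact Submodule.smul_mem _ _ (h c (hx hc).1 (hx hc).2)

/-- two linear maps that agree on the cells agree on `E t i` -/
theorem E_ext {B : Type*} [AddCommGroup B] {t : D} {i : ℕ} (L L' : (D →₀ ℤ) →ₗ[ℤ] B)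
    (h : ∀ c, A.le c t → A.dim c = i → L (single c 1) = L' (single c 1)) : ∀ x ∈ A.E t i, L x = L' x := by
  intro x hx
  have := E_ind A (L - L') (⊥ : Submodule ℤ B) (t := t) (i := i)
    (fun c hc hd => by rw [Submodule.mem_bot, LinearMap.sub_apply, h c hc hd, sub_self]) x hx
  rw [Submodule.mem_bot, LinearMap.sub_apply] at this
  exact sub_eq_zero.mp this

theorem bd_single_mem {c : D} {i : ℕ} (hd : A.dim c = i + 1) : A.bd (single c 1) ∈ A.E c i := by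
  unfold Bas.E
  rw [Finsupp.mem_supported]
  intro c' hc'
  obtain ⟨h1, h2⟩ := A.bd_supp c c' hc'
  exact ⟨h1, by omega⟩

theorem bd_single_zero {c : D} (hd : A.dim c = 0) : A.bd (single c 1) = 0 := by
  rw [← Finsupp.support_eq_empty, Finset.eq_empty_iff_forall_notMem]
  intro c' hc'
  have := (A.bd_supp c c' hc').2
  omega

theorem bd_E {t : D} {i : ℕ} : ∀ x ∈ A.E t (i + 1), A.bd x ∈ A.E t i :=
  E_ind A A.bd _ fun _ hc hd => E_mono A hc i (bd_single_mem A hd)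

theorem bd_E0 {t : D} : ∀ x ∈ A.E t 0, A.bd x = 0 :=
  E_ext A A.bd 0 fun _ _ hd => by rw [bd_single_zero A hd]; rfl

end Efacts

section con
variable {S B : Type*} [AddCommGroup S] [AddCommGroup B]

/-- Conjugation `tB ∘ a ∘ tS`. -/
def con (tB : B →ₗ[ℤ] B) (tS : S →ₗ[ℤ] S) : Module.End ℤ (S →ₗ[ℤ] B) where
  toFun a := tB ∘ₗ a ∘ₗ tS
  map_add' := by intro a b; ext x; simp
  map_smul' := by intro r a; ext x; simp

/-- Norm `∑_{i<N} con^i`. -/
def nrm (N : ℕ) (tB : B →ₗ[ℤ] B) (tS : S →ₗ[ℤ] S) : Module.End ℤ (S →ₗ[ℤ] B) :=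
  ∑ i ∈ Finset.range N, (con tB tS) ^ i

@[simp] theorem con_apply (tB : B →ₗ[ℤ] B) (tS : S →ₗ[ℤ] S) (a : S →ₗ[ℤ] B) (x : S) :
    con tB tS a x = tB (a (tS x)) := rfl

theorem con_pow_apply (tB : B →ₗ[ℤ] B) (tS : S →ₗ[ℤ] S) (a : S →ₗ[ℤ] B) (i : ℕ) (x : S) :
    ((con tB tS) ^ i) a x = (tB ^ i) (a ((tS ^ i) x)) := by
  induction i generalizing a x with
  | zero => simp
  | succ i ih =>
    have h1 : ((con tB tS) ^ (i + 1)) a = ((con tB tS) ^ i) (con tB tS a) := by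
      rw [pow_succ]; rfl
    rw [h1, ih]
    have h2 : (tB ^ (i + 1)) (a ((tS ^ (i + 1)) x)) = (tB ^ i) (tB (a ((tS ^ (i + 1)) x))) := by
      rw [pow_succ]; rfl
    have h3 : (tS ^ (i + 1)) x = tS ((tS ^ i) x) := by
      rw [pow_succ']; rfl
    rw [h2, h3]; rfl

theorem nrm_apply (N : ℕ) (tB : B →ₗ[ℤ] B) (tS : S →ₗ[ℤ] S) (a : S →ₗ[ℤ] B) (x : S) :
    nrm N tB tS a x = ∑ i ∈ Finset.range N, (tB ^ i) (a ((tS ^ i) x)) := by
  unfold nrm
  rw [LinearMap.sum_apply, LinearMap.sum_apply]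
  exact Finset.sum_congr rfl fun i _ => con_pow_apply tB tS a i x

end con

section lift
variable {I S B : Type*} [AddCommGroup S] [AddCommGroup B]

/-- `a` is carried, of degree `k`, in degrees `≤ m`. -/
def Crd (J : Set I) (Z : I → ℕ → Submodule ℤ S) (W : I → ℕ → Submodule ℤ B) (m k : ℕ) (a : S →ₗ[ℤ] B) : Prop :=
  ∀ j ∈ J, ∀ i ≤ m, ∀ x ∈ Z j i, a x ∈ W j (i + k)

/-- The lifting property. -/
def Lft (J : Set I) (Z : I → ℕ → Submodule ℤ S) (bS : S →ₗ[ℤ] S) (W : I → ℕ → Submodule ℤ B) (bB : B →ₗ[ℤ] B)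
    (m k : ℕ) : Prop :=
  ∀ e : ℤ, e * e = 1 → ∀ θ : S →ₗ[ℤ] B, Crd J Z W m k θ →
    (∀ j ∈ J, ∀ i ≤ m, ∀ x ∈ Z j i, bB (θ x) = e • θ (bS x)) →
    ∃ Λ : S →ₗ[ℤ] B, Crd J Z W m (k + 1) Λ ∧
      ∀ j ∈ J, ∀ i ≤ m, ∀ x ∈ Z j i, θ x = bB (Λ x) + e • Λ (bS x)

/-- a linear map which is carried on the cells of `K` is carried -/
theorem crd_cells {C B : Type*} [AddCommGroup B] (A : Bas C) (K : Set C) (hK : ∀ a b, b ∈ K → A.le a b → a ∈ K)
    (W : C → ℕ → Submodule ℤ B) (hW : ∀ a b, b ∈ K → A.le a b → ∀ i, W a i ≤ W b i) (m k : ℕ)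
    (a : (C →₀ ℤ) →ₗ[ℤ] B) (h : ∀ c ∈ K, A.dim c ≤ m → a (single c 1) ∈ W c (A.dim c + k)) :
    Crd K A.E W m k a := by
  intro j hj i hi x hx
  refine E_ind A a _ (fun c hc hd => ?_) x hx
  have h1 := h c (hK _ _ hj hc) (by omega)
  rw [hd] at h1
  exact hW _ _ hj hc _ h1

end lift

section H
variable {D : Type*}

/-- Triples `(a, d, e)`. -/
abbrev M (D : Type*) : Type _ := (D →₀ ℤ) × (ℕ → (D →₀ ℤ)) × (D →₀ ℤ)

/-- `bdH (a, d, e) = (bd a, 0, 0)`. -/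
def bdH (A : Bas D) : M D →ₗ[ℤ] M D :=
  LinearMap.prod (A.bd ∘ₗ LinearMap.fst ℤ _ _) 0

/-- `can g (a, d, e) = a + bd (∑_{m<g} d m)`. -/
def can (A : Bas D) (g : ℕ) : M D →ₗ[ℤ] (D →₀ ℤ) where
  toFun x := x.1 + A.bd (∑ m ∈ Finset.range g, x.2.1 m)
  map_add' := by
    intro x y
    simp only [Prod.fst_add, Prod.snd_add, Pi.add_apply, Finset.sum_add_distrib, map_add]
    abel
  map_smul' := by
    intro r x
    simp only [Prod.smul_fst, Prod.smul_snd, Pi.smul_apply, ← Finset.smul_sum, map_smul, smul_add, RingHom.id_apply]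

/-- The elements of degree `i` with carrier `t` of the complex `H`. -/
def HZ (A : Bas D) (n N : ℕ) (t : D) (i : ℕ) : Submodule ℤ (M D) where
  carrier := {x | x.1 ∈ A.E t i ∧ (∀ m, x.2.1 (m + N) = x.2.1 m) ∧ ∑ m ∈ Finset.range N, x.2.1 m = A.bd x.2.2 ∧
    (∀ m, x.2.1 m ∈ if i = n then A.E t (n + 1) else ⊥) ∧ x.2.2 ∈ if i = n then A.E t (n + 2) else ⊥}
  add_mem' := by
    rintro x y ⟨h1, h2, h3, h4, h5⟩ ⟨k1, k2, k3, k4, k5⟩
    refine ⟨add_mem h1 k1, fun m => ?_, ?_, fun m => add_mem (h4 m) (k4 m), add_mem h5 k5⟩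
    · simp only [Prod.snd_add, Prod.fst_add, Pi.add_apply, h2 m, k2 m]
    · simp only [Prod.snd_add, Prod.fst_add, Pi.add_apply, Finset.sum_add_distrib, h3, k3, map_add]
  zero_mem' := by
    refine ⟨zero_mem _, fun m => rfl, ?_, fun m => zero_mem _, zero_mem _⟩
    simp
  smul_mem' := by
    rintro r x ⟨h1, h2, h3, h4, h5⟩
    refine ⟨Submodule.smul_mem _ r h1, fun m => ?_, ?_, fun m => Submodule.smul_mem _ r (h4 m),
      Submodule.smul_mem _ r h5⟩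
    · simp only [Prod.smul_snd, Prod.smul_fst, Pi.smul_apply, h2 m]
    · simp only [Prod.smul_snd, Prod.smul_fst, Pi.smul_apply, ← Finset.smul_sum, h3, map_smul]

/-- Action of the inverse of the generator on `H`. -/
def Xi (A : Bas D) (tDi : (D →₀ ℤ) →ₗ[ℤ] (D →₀ ℤ)) : M D →ₗ[ℤ] M D where
  toFun x := (tDi (x.1 + A.bd (x.2.1 0)), fun m => tDi (x.2.1 (m + 1)), tDi x.2.2)
  map_add' := by
    intro x y
    refine Prod.ext ?_ (Prod.ext ?_ ?_)
    · simp only [Prod.fst_add, Prod.snd_add, Pi.add_apply, map_add]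
      abel
    · funext m
      simp only [Prod.fst_add, Prod.snd_add, Pi.add_apply, map_add]
    · simp only [Prod.snd_add, map_add]
  map_smul' := by
    intro r x
    refine Prod.ext ?_ (Prod.ext ?_ ?_)
    · simp only [Prod.smul_fst, Prod.smul_snd, Pi.smul_apply, map_smul, ← smul_add, RingHom.id_apply]
    · funext m
      simp only [Prod.smul_fst, Prod.smul_snd, Pi.smul_apply, map_smul, RingHom.id_apply]
    · simp only [Prod.smul_snd, map_smul, RingHom.id_apply]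

/-- generator `β_m` of `H` (`m < N - 1`) -/
def beta (N m : ℕ) : (D →₀ ℤ) →ₗ[ℤ] M D where
  toFun y := (0, fun j => if j % N = m then y else if j % N = N - 1 then -y else 0, 0)
  map_add' := by
    intro x y
    refine Prod.ext (by simp) (Prod.ext ?_ (by simp))
    funext j
    simp only [Prod.snd_add, Prod.fst_add, Pi.add_apply]
    split_ifs
    · rfl
    · abel
    · simp
  map_smul' := by
    intro r x
    refine Prod.ext (by simp) (Prod.ext ?_ (by simp))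
    funext j
    simp only [Prod.smul_snd, Prod.smul_fst, Pi.smul_apply, RingHom.id_apply]
    split_ifs
    · rfl
    · rw [smul_neg]
    · simp

/-- generator `γ` of `H` -/
def gamma (A : Bas D) (N : ℕ) : (D →₀ ℤ) →ₗ[ℤ] M D where
  toFun e := (0, fun j => if j % N = N - 1 then A.bd e else 0, e)
  map_add' := by
    intro x y
    refine Prod.ext (by simp) (Prod.ext ?_ (by simp))
    funext j
    simp only [Prod.snd_add, Prod.fst_add, Pi.add_apply]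
    split_ifs
    · rw [map_add]
    · simp
  map_smul' := by
    intro r x
    refine Prod.ext (by simp) (Prod.ext ?_ (by simp))
    funext j
    simp only [Prod.smul_snd, Prod.smul_fst, Pi.smul_apply, RingHom.id_apply]
    split_ifs
    · rw [map_smul]
    · simp

/-- the linear map on `H` with the components `LA`, `LB m` (`m < N - 1`), `LC` -/
def mkH {B : Type*} [AddCommGroup B] (N : ℕ) (LA : (D →₀ ℤ) →ₗ[ℤ] B) (LB : ℕ → (D →₀ ℤ) →ₗ[ℤ] B)
    (LC : (D →₀ ℤ) →ₗ[ℤ] B) : M D →ₗ[ℤ] B where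
  toFun x := LA x.1 + ∑ m ∈ Finset.range (N - 1), LB m (x.2.1 m) + LC x.2.2
  map_add' := by
    intro x y
    simp only [Prod.fst_add, Prod.snd_add, Pi.add_apply, map_add, Finset.sum_add_distrib]
    abel
  map_smul' := by
    intro r x
    simp only [Prod.smul_fst, Prod.smul_snd, Pi.smul_apply, map_smul, ← Finset.smul_sum, smul_add,
      RingHom.id_apply]

end H

/-! ## the structures -/

/-- A source: a based complex `A`, a set `K` of cells closed under faces, `σ` = action of the generator on the cells, `t` = action of the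
INVERSE of the generator on the chains. -/
structure Act {C : Type*} (A : Bas C) (K : Set C) (N : ℕ) (σ : Equiv.Perm C) (t : (C →₀ ℤ) →ₗ[ℤ] (C →₀ ℤ)) :
    Prop where
  face : ∀ a b, b ∈ K → A.le a b → a ∈ K
  inv : ∀ c, c ∈ K ↔ σ c ∈ K
  tb : ∀ x, t (A.bd x) = A.bd (t x)
  tE : ∀ c ∈ K, ∀ i, ∀ x ∈ A.E (σ c) i, t x ∈ A.E c i
  tN : ∀ x, (t ^ N) x = x

/-- A target with carriers `W c i`, `c ∈ K`; `tB` = action of the generator. -/
structure Tgt {C B : Type*} [AddCommGroup B] (A : Bas C) (K : Set C) (N : ℕ) (σ : Equiv.Perm C)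
    (W : C → ℕ → Submodule ℤ B) (bB tB : B →ₗ[ℤ] B) : Prop where
  bb : ∀ x, bB (bB x) = 0
  tb : ∀ x, tB (bB x) = bB (tB x)
  tN : ∀ x, (tB ^ N) x = x
  mono : ∀ a b, b ∈ K → A.le a b → ∀ i, W a i ≤ W b i
  tW : ∀ c ∈ K, ∀ i, ∀ x ∈ W c i, tB x ∈ W (σ c) i
  bW : ∀ c ∈ K, ∀ i, ∀ x ∈ W c (i + 1), bB x ∈ W c i

/-- The carriers are acyclic in degrees `≤ m`. -/
def Acyc {C B : Type*} [AddCommGroup B] (K : Set C) (W : C → ℕ → Submodule ℤ B) (bB : B →ₗ[ℤ] B) (m : ℕ) : Prop :=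
  ∀ c ∈ K, ∀ i ≤ m, ∀ z ∈ W c i, bB z = 0 → ∃ y ∈ W c (i + 1), bB y = z

/-- The elements of `P t i` killed by all projections. -/
def QQ {D B : Type*} [AddCommGroup B] (P : D → ℕ → Submodule ℤ B) (pr : ℕ → B →ₗ[ℤ] (D →₀ ℤ)) (t : D) (i : ℕ) :
    Submodule ℤ B :=
  P t i ⊓ ⨅ g, LinearMap.ker (pr g)

theorem mem_QQ {D B : Type*} [AddCommGroup B] {P : D → ℕ → Submodule ℤ B} {pr : ℕ → B →ₗ[ℤ] (D →₀ ℤ)} {t : D}
    {i : ℕ} {x : B} : x ∈ QQ P pr t i ↔ x ∈ P t i ∧ ∀ g, pr g x = 0 := by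
  unfold QQ
  simp [Submodule.mem_inf, Submodule.mem_iInf, LinearMap.mem_ker]

/-- The coinduced target over the base complex `A` (cells of `ℤ^J`): carriers `P t i`, projections `pr g`; `tD`, `tDi` = action of the
generator and of its inverse on the chains of the base, `τ` = action of the generator on the cells of the base. -/
structure Coi {D B : Type*} [AddCommGroup B] (A : Bas D) (n N : ℕ) (τ : Equiv.Perm D)
    (tD tDi : (D →₀ ℤ) →ₗ[ℤ] (D →₀ ℤ)) (bB tB : B →ₗ[ℤ] B) (P : D → ℕ → Submodule ℤ B)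
    (pr : ℕ → B →ₗ[ℤ] (D →₀ ℤ)) : Prop where
  n2 : 2 ≤ n
  N0 : 0 < N
  Di : ∀ x, tD (tDi x) = x
  iD : ∀ x, tDi (tD x) = x
  Db : ∀ x, tD (A.bd x) = A.bd (tD x)
  ib : ∀ x, tDi (A.bd x) = A.bd (tDi x)
  DN : ∀ x, (tD ^ N) x = x
  iN : ∀ x, (tDi ^ N) x = x
  DE : ∀ t i, ∀ x ∈ A.E t i, tD x ∈ A.E (τ t) i
  iE : ∀ t i, ∀ x ∈ A.E (τ t) i, tDi x ∈ A.E t i
  bb : ∀ x, bB (bB x) = 0
  tb : ∀ x, tB (bB x) = bB (tB x)
  tN : ∀ x, (tB ^ N) x = x
  Pm : ∀ a b, A.le a b → ∀ i, P a i ≤ P b i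
  Pb : ∀ t i, ∀ x ∈ P t (i + 1), bB x ∈ P t i
  Pb0 : ∀ t, ∀ x ∈ P t 0, bB x = 0
  Pt : ∀ t i, ∀ x ∈ P t i, tB x ∈ P (τ t) i
  prb : ∀ g x, pr g (bB x) = A.bd (pr g x)
  prt : ∀ g x, pr (g + 1) (tB x) = tD (pr g x)
  prN : ∀ g x, pr (g + N) x = pr g x
  acy : ∀ t, ∀ i ≤ n + 1, ∀ z ∈ P t i, bB z = 0 → (∀ g, pr g z = 0) →
    ∃ y ∈ P t (i + 1), bB y = z ∧ ∀ g, pr g y = 0
  sur : ∀ t, ∀ i ≤ n, 0 < i → ∀ a : ℕ → (D →₀ ℤ), (∀ g, a (g + N) = a g) → (∀ g, a g ∈ A.E t i) →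
    ∃ y ∈ P t i, ∀ g, pr g y = a g
  sur0 : ∀ t c, A.le c t → A.dim c = 0 → ∃ y ∈ P t 0, ∀ g, pr g y = single c 1

/-- The obstruction data `φ, lam, nu, xi` on `K` with control `s` (`lam`, `xi` vanish outside degree `n`). -/
structure DatA {C D : Type*} (A : Bas C) (E : Bas D) (K : Set C) (s : C → D) (n : ℕ)
    (tC : (C →₀ ℤ) →ₗ[ℤ] (C →₀ ℤ)) (tD : (D →₀ ℤ) →ₗ[ℤ] (D →₀ ℤ)) (φ lam nu xi : (C →₀ ℤ) →ₗ[ℤ] (D →₀ ℤ)) :
    Prop where
  phC : ∀ c ∈ K, ∀ i, ∀ x ∈ A.E c i, φ x ∈ E.E (s c) i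
  phB : ∀ c ∈ K, ∀ i, ∀ x ∈ A.E c i, E.bd (φ x) = φ (A.bd x)
  phT : ∀ c ∈ K, ∀ i, ∀ x ∈ A.E c i, con tD tC φ x = φ x
  laC : ∀ c ∈ K, ∀ x ∈ A.E c n, lam x ∈ E.E (s c) (n + 1)
  la0 : ∀ c ∈ K, ∀ i, i ≠ n → ∀ x ∈ A.E c i, lam x = 0
  xiC : ∀ c ∈ K, ∀ x ∈ A.E c n, xi x ∈ E.E (s c) (n + 2)
  xi0 : ∀ c ∈ K, ∀ i, i ≠ n → ∀ x ∈ A.E c i, xi x = 0
  eqE : ∀ c ∈ K, ∀ x ∈ A.E c (n + 1), φ x + lam (A.bd x) = E.bd (nu x)
  eqI : ∀ c ∈ K, ∀ x ∈ A.E c (n + 1), con tD tC nu x - nu x = xi (A.bd x)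

/-- The control is monotone and equivariant. -/
structure Ctl {C D : Type*} (A : Bas C) (E : Bas D) (K : Set C) (s : C → D) (σ : Equiv.Perm C)
    (τ : Equiv.Perm D) : Prop where
  mono : ∀ c ∈ K, ∀ a, A.le a c → E.le (s a) (s c)
  equ : ∀ c ∈ K, s (σ c) = τ (s c)

section kappa
variable {C D : Type*}

/-- `h = φ + bd lam` -/
def hmap (E : Bas D) (φ lam : (C →₀ ℤ) →ₗ[ℤ] (D →₀ ℤ)) : (C →₀ ℤ) →ₗ[ℤ] (D →₀ ℤ) := φ + E.bd ∘ₗ lam

/-- `D = con lam - lam - bd xi` -/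
def Dmap (E : Bas D) (tC : (C →₀ ℤ) →ₗ[ℤ] (C →₀ ℤ)) (tD : (D →₀ ℤ) →ₗ[ℤ] (D →₀ ℤ))
    (lam xi : (C →₀ ℤ) →ₗ[ℤ] (D →₀ ℤ)) : (C →₀ ℤ) →ₗ[ℤ] (D →₀ ℤ) := con tD tC lam - lam - E.bd ∘ₗ xi

/-- `K → H`: `x ↦ (h x, (con^m D x)_m, - nrm xi x)` -/
def kappa (E : Bas D) (N : ℕ) (tC : (C →₀ ℤ) →ₗ[ℤ] (C →₀ ℤ)) (tD : (D →₀ ℤ) →ₗ[ℤ] (D →₀ ℤ))
    (φ lam xi : (C →₀ ℤ) →ₗ[ℤ] (D →₀ ℤ)) : (C →₀ ℤ) →ₗ[ℤ] M D :=
  LinearMap.prod (hmap E φ lam)
    (LinearMap.prod (LinearMap.pi fun m => ((con tD tC) ^ m) (Dmap E tC tD lam xi)) (-(nrm N tD tC xi)))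

end kappa

end ALG
end AGE
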