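import Pool.Agent.AGE.Defs
import Pool.Agent.AGE.C1b

/-!
# AGE-C2a: permutations of the coordinates, cubes

Permutations of the coordinates act on cubes; the sign of a permutation on a finite set is
multiplicative.
-/

set_option autoImplicit false

noncomputable section

namespace AGE

variable {V J : Type} [LinearOrder V] [LinearOrder J]

theorem Cube.act_hi (τ : Equiv.Perm J) (Q : Cube J) (j : J) : (Q.act τ).hi j = Q.hi (τ.symm j) := by
  have h : j ∈ (Q.act τ).fr ↔ τ.symm j ∈ Q.fr := by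
    simp only [Cube.act, Finset.mem_map_equiv]
  unfold Cube.hi
  by_cases hj : τ.symm j ∈ Q.fr
  · rw [if_pos (h.2 hj), if_pos hj]; rfl
  · rw [if_neg (fun h' => hj (h.1 h')), if_neg hj]; rfl

private theorem c2a_lo (τ : Equiv.Perm J) (Q : Cube J) (j : J) : (Q.act τ).lo j = Q.lo (τ.symm j) := rfl

theorem Cube.act_has (τ : Equiv.Perm J) (Q : Cube J) (v : J → ℤ) :
    (Q.act τ).Has (actP τ v) ↔ Q.Has v := by
  constructor
  · intro h j
    have := h (τ j)
    rw [Cube.act_hi, c2a_lo] at this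
    simpa [actP] using this
  · intro h j
    rw [Cube.act_hi, c2a_lo]
    exact h (τ.symm j)

theorem Cube.act_le (τ : Equiv.Perm J) (P Q : Cube J) : (P.act τ).Le (Q.act τ) ↔ P.Le Q := by
  constructor
  · intro h j
    have := h (τ j)
    rw [Cube.act_hi, Cube.act_hi, c2a_lo, c2a_lo] at this
    simpa using this
  · intro h j
    rw [Cube.act_hi, Cube.act_hi, c2a_lo, c2a_lo]
    exact h (τ.symm j)

theorem Cube.act_dim (τ : Equiv.Perm J) (Q : Cube J) : (Q.act τ).dim = Q.dim := by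
  simp [Cube.dim, Cube.act]

theorem Cube.act_inM (τ : Equiv.Perm J) (M : ℕ) (P Q : Cube J) :
    (P.act τ).InM M (Q.act τ) ↔ P.InM M Q := by
  constructor
  · intro h j
    have := h (τ j)
    rw [Cube.act_hi, Cube.act_hi, c2a_lo, c2a_lo] at this
    simpa using this
  · intro h j
    rw [Cube.act_hi, Cube.act_hi, c2a_lo, c2a_lo]
    exact h (τ.symm j)

theorem Cube.act_one' (Q : Cube J) : Q.act (1 : Equiv.Perm J) = Q := by
  apply Cube.ext
  · rfl
  · ext x
    simp only [Cube.act, Finset.mem_map_equiv]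
    rfl

theorem Cube.act_mul (τ σ : Equiv.Perm J) (Q : Cube J) : Q.act (τ * σ) = (Q.act σ).act τ := by
  apply Cube.ext
  · rfl
  · ext x
    simp only [Cube.act, Finset.mem_map_equiv]
    rfl

theorem Cube.act_body (τ : Equiv.Perm J) (Q : Cube J) (x : J → ℝ) :
    actP τ x ∈ (Q.act τ).body ↔ x ∈ Q.body := by
  simp only [Cube.body, Set.mem_setOf_eq]
  constructor
  · intro h j
    have := h (τ j)
    rw [Cube.act_hi, c2a_lo] at this
    simpa [actP] using this
  · intro h j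
    rw [Cube.act_hi, c2a_lo]
    exact h (τ.symm j)

theorem actP_mul {R : Type} (τ σ : Equiv.Perm J) (v : J → R) : actP (τ * σ) v = actP τ (actP σ v) := rfl

theorem actP_one {R : Type} (v : J → R) : actP (1 : Equiv.Perm J) v = v := rfl

theorem psg_one (s : Finset J) : psg (1 : Equiv.Perm J) s = 1 := by
  unfold psg
  refine Finset.prod_eq_one fun x _ => Finset.prod_eq_one fun y _ => ?_
  rw [if_neg]
  rintro ⟨h1, h2⟩
  exact absurd h1 (not_lt.2 (le_of_lt h2))

theorem psg_mul (τ σ : Equiv.Perm J) (s : Finset J) :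
    psg (τ * σ) s = psg τ (s.map σ.toEmbedding) * psg σ s := by
  have h1 : psg τ (s.map σ.toEmbedding) =
      ∏ x ∈ s, ∏ y ∈ s, if σ x < σ y ∧ τ (σ y) < τ (σ x) then (-1 : ℤ) else 1 := by
    unfold psg
    rw [Finset.prod_map]
    refine Finset.prod_congr rfl fun x _ => ?_
    rw [Finset.prod_map]
    rfl
  have h2 : (∏ x ∈ s, ∏ y ∈ s, if σ x < σ y ∧ τ (σ y) < τ (σ x) then (-1 : ℤ) else 1) =
      (∏ x ∈ s, ∏ y ∈ s, if x < y ∧ σ x < σ y ∧ τ (σ y) < τ (σ x) then (-1 : ℤ) else 1) *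
      (∏ x ∈ s, ∏ y ∈ s, if y < x ∧ σ x < σ y ∧ τ (σ y) < τ (σ x) then (-1 : ℤ) else 1) := by
    rw [← Finset.prod_mul_distrib]
    refine Finset.prod_congr rfl fun x _ => ?_
    rw [← Finset.prod_mul_distrib]
    refine Finset.prod_congr rfl fun y _ => ?_
    rcases lt_trichotomy x y with h | h | h
    · have h' : ¬ y < x := not_lt.2 h.le
      simp [h, h']
    · subst h
      simp
    · have h' : ¬ x < y := not_lt.2 h.le
      simp [h, h']
  have h3 : (∏ x ∈ s, ∏ y ∈ s, if y < x ∧ σ x < σ y ∧ τ (σ y) < τ (σ x) then (-1 : ℤ) else 1) =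
      ∏ x ∈ s, ∏ y ∈ s, if x < y ∧ σ y < σ x ∧ τ (σ x) < τ (σ y) then (-1 : ℤ) else 1 :=
    Finset.prod_comm
  rw [h1, h2, h3]
  unfold psg
  rw [← Finset.prod_mul_distrib, ← Finset.prod_mul_distrib]
  refine Finset.prod_congr rfl fun x _ => ?_
  rw [← Finset.prod_mul_distrib, ← Finset.prod_mul_distrib]
  refine Finset.prod_congr rfl fun y _ => ?_
  rw [Equiv.Perm.mul_apply, Equiv.Perm.mul_apply]
  rcases lt_trichotomy x y with h | h | h
  · have h5 : σ x ≠ σ y := fun e => h.ne (σ.injective e)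
    have h4 : τ (σ x) ≠ τ (σ y) := fun e => h5 (τ.injective e)
    rcases lt_or_gt_of_ne h4 with h6 | h6
    · rcases lt_or_gt_of_ne h5 with h7 | h7
      · simp [h, h6, h7, not_lt.2 h6.le, not_lt.2 h7.le]
      · simp [h, h6, h7, not_lt.2 h6.le, not_lt.2 h7.le]
    · rcases lt_or_gt_of_ne h5 with h7 | h7
      · simp [h, h6, h7, not_lt.2 h6.le, not_lt.2 h7.le]
      · simp [h, h6, h7, not_lt.2 h6.le, not_lt.2 h7.le]
  · subst h
    simp
  · simp [not_lt.2 h.le]

theorem psg_ori (τ : Equiv.Perm J) (s : Finset J) (h : ∀ x ∈ s, ∀ y ∈ s, x < y → τ x < τ y) :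
    psg τ s = 1 := by
  unfold psg
  refine Finset.prod_eq_one fun x hx => Finset.prod_eq_one fun y hy => ?_
  rw [if_neg]
  rintro ⟨h1, h2⟩
  exact absurd (h x hx y hy h1) (not_lt.2 (le_of_lt h2))

theorem psg_sq (τ : Equiv.Perm J) (s : Finset J) : psg τ s * psg τ s = 1 := by
  unfold psg
  rw [← Finset.prod_mul_distrib]
  refine Finset.prod_eq_one fun x _ => ?_
  rw [← Finset.prod_mul_distrib]
  refine Finset.prod_eq_one fun y _ => ?_
  split_ifs <;> norm_num

theorem inv_grd (τ : Equiv.Perm J) (M : ℕ) (K : Set (Cube J)) (h : Inv τ K) : Inv τ (Grd M K) := by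
  intro Q
  constructor
  · rintro ⟨P, hP, hQ⟩
    exact ⟨P.act τ, (h P).1 hP, (Cube.act_inM τ M Q P).2 hQ⟩
  · rintro ⟨P, hP, hQ⟩
    have e : (P.act τ⁻¹).act τ = P := by
      rw [← Cube.act_mul, mul_inv_cancel, Cube.act_one']
    refine ⟨P.act τ⁻¹, (h _).2 (by rw [e]; exact hP), ?_⟩
    rw [← Cube.act_inM τ, e]
    exact hQ

end AGE
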