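import Pool.Agent.AGE.Defs
import Pool.Agent.AGE.C1b
import Pool.Agent.AGE.C2a

/-!
# AGE-C2b: permutations of the coordinates, chains

A permutation of the coordinates acts on the chains by `psg`, the parity of the number of inversions on the free coordinates of a
cube; the action is multiplicative and commutes with the boundary, because removing one coordinate `j` from the free coordinates
changes `psg` by the product of the signs of `j` and of `τ j`. Formal consequences for the conjugation `con`.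
-/

set_option autoImplicit false

noncomputable section

namespace AGE

variable {V J : Type} [LinearOrder V] [LinearOrder J]

omit [LinearOrder J] in
private theorem C2b_ext {M : Type} [AddCommGroup M] (α β : Ch J →ₗ[ℤ] M)
    (h : ∀ Q, α (one Q) = β (one Q)) : α = β := by
  refine Finsupp.lhom_ext' fun Q => LinearMap.ext_ring ?_
  exact h Q

private theorem C2b_sgn {K : Type} (s : Finset K) (p : K → Prop) [DecidablePred p] :
    (-1 : ℤ) ^ (s.filter p).card = ∏ y ∈ s, if p y then (-1 : ℤ) else 1 := by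
  rw [Finset.prod_ite, Finset.prod_const, Finset.prod_const_one, mul_one]

private theorem C2b_sq {K : Type} [LinearOrder K] (s : Finset K) (j : K) : sg s j * sg s j = 1 := by
  unfold sg
  rw [← pow_add, ← two_mul, pow_mul]
  norm_num

private theorem C2b_ins (τ : Equiv.Perm J) (t : Finset J) (j : J) (hj : j ∉ t) :
    psg τ (insert j t) =
      psg τ t * (sg (insert j t) j * sg ((insert j t).map τ.toEmbedding) (τ j)) := by
  have e1 : sg (insert j t) j = ∏ y ∈ t, if y < j then (-1 : ℤ) else 1 := by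
    unfold sg
    rw [C2b_sgn, Finset.prod_insert hj]
    simp
  have e2 : sg ((insert j t).map τ.toEmbedding) (τ j) = ∏ y ∈ t, if τ y < τ j then (-1 : ℤ) else 1 := by
    unfold sg
    rw [C2b_sgn, Finset.prod_map, Finset.prod_insert hj]
    simp
  rw [e1, e2, ← Finset.prod_mul_distrib]
  unfold psg
  rw [Finset.prod_insert hj, Finset.prod_insert hj]
  have e3 : (∏ x ∈ t, ∏ y ∈ insert j t, if x < y ∧ τ y < τ x then (-1 : ℤ) else 1) =
      (∏ x ∈ t, if x < j ∧ τ j < τ x then (-1 : ℤ) else 1) *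
        ∏ x ∈ t, ∏ y ∈ t, if x < y ∧ τ y < τ x then (-1 : ℤ) else 1 := by
    rw [← Finset.prod_mul_distrib]
    refine Finset.prod_congr rfl fun x _ => ?_
    rw [Finset.prod_insert hj]
  have e4 : (if j < j ∧ τ j < τ j then (-1 : ℤ) else 1) = 1 := by simp
  rw [e3, e4, one_mul, ← mul_assoc, ← Finset.prod_mul_distrib, mul_comm]
  congr 1
  refine Finset.prod_congr rfl fun y hy => ?_
  have hne : y ≠ j := fun e => hj (e ▸ hy)
  have hne' : τ y ≠ τ j := fun e => hne (τ.injective e)
  rcases lt_or_gt_of_ne hne with h1 | h1 <;> rcases lt_or_gt_of_ne hne' with h2 | h2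
  · simp [h1, h2, h1.not_gt, h2.not_gt]
  · simp [h1, h2, h1.not_gt, h2.not_gt]
  · simp [h1, h2, h1.not_gt, h2.not_gt]
  · simp [h1, h2, h1.not_gt, h2.not_gt]

private theorem C2b_era (τ : Equiv.Perm J) (s : Finset J) (j : J) (hj : j ∈ s) :
    sg s j * psg τ (s.erase j) = psg τ s * sg (s.map τ.toEmbedding) (τ j) := by
  have h := C2b_ins τ (s.erase j) j (Finset.notMem_erase j s)
  rw [Finset.insert_erase hj] at h
  rw [h]
  have h1 := C2b_sq (s.map τ.toEmbedding) (τ j)
  calc sg s j * psg τ (s.erase j)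
      = psg τ (s.erase j) * sg s j * 1 := by ring
    _ = psg τ (s.erase j) * sg s j * (sg (s.map τ.toEmbedding) (τ j) * sg (s.map τ.toEmbedding) (τ j)) := by
        rw [h1]
    _ = _ := by ring

theorem act_one (τ : Equiv.Perm J) (Q : Cube J) : act τ (one Q) = psg τ Q.fr • one (Q.act τ) := by
  unfold act
  rw [one, Finsupp.linearCombination_single, one_smul]

theorem act_id (x : Ch J) : act (1 : Equiv.Perm J) x = x := by
  have h : act (1 : Equiv.Perm J) = LinearMap.id := by
    refine C2b_ext _ _ fun Q => ?_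
    rw [act_one, psg_one, one_smul, Cube.act_one', LinearMap.id_apply]
  rw [h, LinearMap.id_apply]

theorem act_mul' (τ σ : Equiv.Perm J) (x : Ch J) : act (τ * σ) x = act τ (act σ x) := by
  have h : act (τ * σ) = act τ ∘ₗ act σ := by
    refine C2b_ext _ _ fun Q => ?_
    rw [LinearMap.comp_apply, act_one, act_one, map_smul, act_one, psg_mul, Cube.act_mul, smul_smul]
    have e : (Q.act σ).fr = Q.fr.map σ.toEmbedding := rfl
    rw [e, mul_comm]
  rw [h, LinearMap.comp_apply]

theorem act_symm_act (τ : Equiv.Perm J) (x : Ch J) : act τ.symm (act τ x) = x := by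
  rw [← act_mul']
  have h : τ.symm * τ = 1 := inv_mul_cancel τ
  rw [h, act_id]

theorem act_act_symm (τ : Equiv.Perm J) (x : Ch J) : act τ (act τ.symm x) = x := by
  rw [← act_mul']
  have h : τ * τ.symm = 1 := mul_inv_cancel τ
  rw [h, act_id]

private theorem C2b_fr (τ : Equiv.Perm J) (s : Finset J) (j : J) :
    (s.erase j).map τ.toEmbedding = (s.map τ.toEmbedding).erase (τ j) := by
  rw [Finset.map_erase]
  rfl

private theorem C2b_up (τ : Equiv.Perm J) (Q : Cube J) (j : J) :
    (Q.up j).act τ = (Q.act τ).up (τ j) := by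
  refine Cube.ext ?_ (C2b_fr τ Q.fr j)
  funext k
  show Function.update Q.lo j (Q.lo j + 1) (τ.symm k) =
    Function.update (actP τ Q.lo) (τ j) (actP τ Q.lo (τ j) + 1) k
  by_cases hk : k = τ j
  · subst hk
    simp [actP]
  · have hk' : τ.symm k ≠ j := fun e => hk (by rw [← e, Equiv.apply_symm_apply])
    rw [Function.update_of_ne hk, Function.update_of_ne hk']
    rfl

private theorem C2b_dn (τ : Equiv.Perm J) (Q : Cube J) (j : J) :
    (Q.dn j).act τ = (Q.act τ).dn (τ j) :=
  Cube.ext rfl (C2b_fr τ Q.fr j)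

private theorem C2b_bd (Q : Cube J) : bd (one Q) = bdQ Q := by
  unfold bd
  rw [one, Finsupp.linearCombination_single, one_smul]

theorem act_bd (τ : Equiv.Perm J) (x : Ch J) : act τ (bd x) = bd (act τ x) := by
  have h : act τ ∘ₗ bd = bd ∘ₗ act τ := by
    refine C2b_ext _ _ fun Q => ?_
    rw [LinearMap.comp_apply, LinearMap.comp_apply, C2b_bd, act_one, map_smul, C2b_bd]
    unfold bdQ
    rw [map_sum]
    have e : (Q.act τ).fr = Q.fr.map τ.toEmbedding := rfl
    rw [e, Finset.sum_map, Finset.smul_sum]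
    refine Finset.sum_congr rfl fun j hj => ?_
    rw [map_smul, map_sub, act_one, act_one]
    have e1 : (Q.up j).fr = Q.fr.erase j := rfl
    have e2 : (Q.dn j).fr = Q.fr.erase j := rfl
    rw [e1, e2, ← smul_sub, smul_smul, smul_smul, C2b_era τ Q.fr j hj, C2b_up, C2b_dn]
    rfl
  exact LinearMap.congr_fun h x

theorem eps_act (τ : Equiv.Perm J) (x : Ch J) : eps (act τ x) = eps x := by
  have h : eps ∘ₗ act τ = eps := by
    refine C2b_ext _ _ fun Q => ?_
    have h1 : ∀ P : Cube J, eps (one P) = if P.fr = ∅ then (1 : ℤ) else 0 := by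
      intro P
      unfold eps
      rw [one, Finsupp.linearCombination_single, one_smul]
    rw [LinearMap.comp_apply, act_one, map_smul, h1, h1]
    have e : (Q.act τ).fr = Q.fr.map τ.toEmbedding := rfl
    rw [e]
    by_cases hQ : Q.fr = ∅
    · simp [hQ, psg]
    · simp [hQ]
  exact LinearMap.congr_fun h x

theorem act_mem {K K' : Set (Cube J)} (τ : Equiv.Perm J) (h : ∀ Q ∈ K, Q.act τ ∈ K') {i : ℕ}
    {x : Ch J} (hx : x ∈ CC K i) : act τ x ∈ CC K' i := by
  refine map_mem (act τ) (CC K' i) (fun c hc hi => ?_) hx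
  rw [act_one]
  refine Submodule.smul_mem _ _ ?_
  have h1 := one_mem (h c hc)
  rwa [Cube.act_dim, hi] at h1

theorem Src.act_one {n N : ℕ} {K : Set (Cube V)} {τ : Equiv.Perm V} (hK : Src n N K τ)
    {c : Cube V} (hc : c ∈ K) : act τ (one c) = one (c.act τ) := by
  rw [AGE.act_one, psg_ori τ c.fr (hK.ori c hc), one_smul]

private theorem C2b_sym {n N : ℕ} {K : Set (Cube V)} {τ : Equiv.Perm V} (hK : Src n N K τ)
    {c : Cube V} (hc : c ∈ K) : c.act τ.symm ∈ K := by
  rw [hK.inv]
  have h : (c.act τ.symm).act τ = c := by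
    rw [← Cube.act_mul]
    have h1 : τ * τ.symm = 1 := mul_inv_cancel τ
    rw [h1, Cube.act_one']
  rwa [h]

theorem Src.act_symm_one {n N : ℕ} {K : Set (Cube V)} {τ : Equiv.Perm V} (hK : Src n N K τ)
    {c : Cube V} (hc : c ∈ K) : act τ.symm (one c) = one (c.act τ.symm) := by
  have hc' := C2b_sym hK hc
  have h : ∀ x ∈ c.fr, ∀ y ∈ c.fr, x < y → τ.symm x < τ.symm y := by
    intro x hx y hy hxy
    by_contra hn
    have hne : τ.symm y ≠ τ.symm x := fun e => hxy.ne (τ.symm.injective e).symm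
    have hlt : τ.symm y < τ.symm x := lt_of_le_of_ne (not_lt.1 hn) hne
    have hx' : τ.symm x ∈ (c.act τ.symm).fr := Finset.mem_map.2 ⟨x, hx, rfl⟩
    have hy' : τ.symm y ∈ (c.act τ.symm).fr := Finset.mem_map.2 ⟨y, hy, rfl⟩
    have h1 := hK.ori _ hc' _ hy' _ hx' hlt
    rw [Equiv.apply_symm_apply, Equiv.apply_symm_apply] at h1
    exact lt_asymm hxy h1
  rw [AGE.act_one, psg_ori τ.symm c.fr h, one_smul]

theorem Src.mem_symm {n N : ℕ} {K : Set (Cube V)} {τ : Equiv.Perm V} (hK : Src n N K τ)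
    {c : Cube V} (hc : c ∈ K) : c.act τ.symm ∈ K :=
  C2b_sym hK hc

private theorem C2b_con (τV : Equiv.Perm V) (τJ : Equiv.Perm J) (α : Ch V →ₗ[ℤ] Ch J) (x : Ch V) :
    con τV τJ α x = act τJ (α (act τV.symm x)) := rfl

theorem con_iter (τV : Equiv.Perm V) (τJ : Equiv.Perm J) (α : Ch V →ₗ[ℤ] Ch J) (i : ℕ)
    (x : Ch V) : (con τV τJ)^[i] α x = act (τJ ^ i) (α (act (τV ^ i).symm x)) := by
  induction i generalizing x with
  | zero =>
    have h1 : (τV ^ 0).symm = 1 := rfl
    rw [Function.iterate_zero, id, pow_zero, act_id, h1, act_id]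
  | succ i ih =>
    rw [Function.iterate_succ_apply', C2b_con, ih, ← act_mul', ← act_mul', ← pow_succ']
    have h1 : (τV ^ (i + 1)).symm = (τV ^ i).symm * τV.symm := by
      have h2 : (τV ^ (i + 1))⁻¹ = (τV ^ i)⁻¹ * τV⁻¹ := by rw [pow_succ', mul_inv_rev]
      exact h2
    rw [h1]

theorem con_period {N : ℕ} (τV : Equiv.Perm V) (τJ : Equiv.Perm J) (hV : τV ^ N = 1)
    (hJ : τJ ^ N = 1) (α : Ch V →ₗ[ℤ] Ch J) : (con τV τJ)^[N] α = α := by
  refine LinearMap.ext fun x => ?_
  have h1 : (1 : Equiv.Perm V).symm = 1 := rfl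
  rw [con_iter, hV, hJ, act_id, h1, act_id]

theorem con_add (τV : Equiv.Perm V) (τJ : Equiv.Perm J) (α β : Ch V →ₗ[ℤ] Ch J) :
    con τV τJ (α + β) = con τV τJ α + con τV τJ β := by
  refine LinearMap.ext fun x => ?_
  rw [C2b_con, LinearMap.add_apply, LinearMap.add_apply, map_add, C2b_con, C2b_con]

theorem con_comp_bd (τV : Equiv.Perm V) (τJ : Equiv.Perm J) (α : Ch V →ₗ[ℤ] Ch J) :
    con τV τJ (α ∘ₗ bd) = con τV τJ α ∘ₗ bd := by
  refine LinearMap.ext fun x => ?_
  rw [C2b_con, LinearMap.comp_apply, LinearMap.comp_apply, C2b_con, act_bd]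

theorem con_bd_comp (τV : Equiv.Perm V) (τJ : Equiv.Perm J) (α : Ch V →ₗ[ℤ] Ch J) :
    con τV τJ (bd ∘ₗ α) = bd ∘ₗ con τV τJ α := by
  refine LinearMap.ext fun x => ?_
  rw [C2b_con, LinearMap.comp_apply, LinearMap.comp_apply, C2b_con, act_bd]

end AGE
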