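import Pool.Agent.AGE.Defs
import Pool.Agent.AGE.ALG0
import Pool.Agent.AGE.C1a
import Pool.Agent.AGE.C1b
import Pool.Agent.AGE.C2a
import Pool.Agent.AGE.C2b

/-!
# Project AGE: the cubes of `ℤ^V` as a based complex (bridge between the abstract algebra and the cubes)
-/

set_option autoImplicit false

noncomputable section

namespace AGE

variable {V J : Type} [LinearOrder V] [LinearOrder J]

theorem bd_one_supp (c c' : Cube V) (h : c' ∈ (bd (one c)).support) : c'.Le c ∧ c'.dim + 1 = c.dim := by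
  rcases Nat.eq_zero_or_pos c.dim with h0 | h0
  · exfalso
    have h1 : bd (one c) = 0 := by
      refine bd_zero (K := Faces c) ?_
      have := one_mem (K := Faces c) (Q := c) (Cube.le_refl' c)
      rwa [h0] at this
    rw [h1] at h
    exact absurd h (Finset.notMem_empty _)
  · obtain ⟨i, hi⟩ : ∃ i, c.dim = i + 1 := ⟨c.dim - 1, by omega⟩
    have h1 : bd (one c) ∈ CC (Faces c) i := by
      refine bd_mem (closed_faces c) ?_
      have := one_mem (K := Faces c) (Q := c) (Cube.le_refl' c)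
      rwa [hi] at this
    unfold CC at h1
    rw [Finsupp.mem_supported] at h1
    obtain ⟨h2, h3⟩ := h1 h
    exact ⟨h2, by omega⟩

/-- the cubes of `ℤ^V` as a based complex -/
def cubeBas (V : Type) [LinearOrder V] : ALG.Bas (Cube V) where
  dim := Cube.dim
  le := Cube.Le
  bd := bd
  le_refl := Cube.le_refl'
  le_trans := fun _ _ _ h1 h2 => Cube.le_trans' h1 h2
  bd_bd := bd_bd
  bd_supp := fun c c' h => bd_one_supp c c' h

theorem cubeBas_E (t : Cube V) (i : ℕ) : (cubeBas V).E t i = CC (Faces t) i := rfl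

theorem cubeBas_bd : (cubeBas V).bd = bd := rfl

theorem act_symm_cube (τ : Equiv.Perm V) (Q : Cube V) : (Q.act τ).act τ.symm = Q := by
  have := (Cube.act_mul τ.symm τ Q).symm
  rw [this]
  have h : (τ.symm * τ : Equiv.Perm V) = 1 := by
    ext x; simp
  rw [h, Cube.act_one']

theorem act_cube_symm (τ : Equiv.Perm V) (Q : Cube V) : (Q.act τ.symm).act τ = Q := by
  have := (Cube.act_mul τ τ.symm Q).symm
  rw [this]
  have h : (τ * τ.symm : Equiv.Perm V) = 1 := by
    ext x; simp
  rw [h, Cube.act_one']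

/-- the action on cubes as a permutation of the cubes -/
def actE (τ : Equiv.Perm V) : Equiv.Perm (Cube V) where
  toFun := Cube.act τ
  invFun := Cube.act τ.symm
  left_inv := act_symm_cube τ
  right_inv := act_cube_symm τ

theorem actE_pow (τ : Equiv.Perm V) (k : ℕ) (Q : Cube V) : ((actE τ) ^ k) Q = Q.act (τ ^ k) := by
  induction k with
  | zero => rw [pow_zero, pow_zero, Cube.act_one']; rfl
  | succ k ih =>
    rw [pow_succ', pow_succ', Equiv.Perm.mul_apply, ih, Cube.act_mul]
    rfl

theorem act_pow (τ : Equiv.Perm V) (k : ℕ) (x : Ch V) : ((act τ) ^ k) x = act (τ ^ k) x := by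
  induction k with
  | zero => rw [pow_zero, pow_zero, act_id]; rfl
  | succ k ih =>
    rw [pow_succ', pow_succ', act_mul', ← ih]
    rfl

theorem act_pow_N {N : ℕ} (τ : Equiv.Perm V) (h : τ ^ N = 1) (x : Ch V) : ((act τ) ^ N) x = x := by
  rw [act_pow, h, act_id]

theorem symm_pow_N {N : ℕ} (τ : Equiv.Perm V) (h : τ ^ N = 1) : (τ.symm) ^ N = 1 := by
  have : (τ⁻¹ : Equiv.Perm V) ^ N = 1 := by rw [inv_pow, h, inv_one]
  exact this

theorem act_faces {τ : Equiv.Perm V} {t : Cube V} {i : ℕ} {x : Ch V} (hx : x ∈ CC (Faces t) i) :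
    act τ x ∈ CC (Faces (t.act τ)) i :=
  act_mem τ (fun Q hQ => (Cube.act_le τ Q t).2 hQ) hx

theorem act_symm_faces {τ : Equiv.Perm V} {t : Cube V} {i : ℕ} {x : Ch V}
    (hx : x ∈ CC (Faces (t.act τ)) i) : act τ.symm x ∈ CC (Faces t) i := by
  have := act_faces (τ := τ.symm) hx
  rwa [act_symm_cube] at this

/-- a good source is a source in the abstract sense -/
theorem src_act {n N : ℕ} {K : Set (Cube V)} {τ : Equiv.Perm V} (hK : Src n N K τ) :
    ALG.Act (cubeBas V) K N (actE τ) (act τ.symm) where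
  face := fun a b hb hab => hK.clo b hb a hab
  inv := fun c => hK.inv c
  tb := fun x => act_bd τ.symm x
  tE := fun c _ i x hx => act_symm_faces hx
  tN := fun x => act_pow_N τ.symm (symm_pow_N τ hK.ord) x

/-- the two norms -/
theorem nrm_eq (N : ℕ) (τV : Equiv.Perm V) (τJ : Equiv.Perm J) (α : Ch V →ₗ[ℤ] Ch J) :
    nrm N τV τJ α = ALG.nrm N (act τJ) (act τV.symm) α := by
  unfold nrm ALG.nrm
  rw [LinearMap.sum_apply]
  refine Finset.sum_congr rfl fun i _ => ?_
  rw [Module.End.pow_apply]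
  rfl

theorem con_eq (τV : Equiv.Perm V) (τJ : Equiv.Perm J) (α : Ch V →ₗ[ℤ] Ch J) :
    con τV τJ α = ALG.con (act τJ) (act τV.symm) α := rfl

end AGE
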