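import Pool.Agent.AGE.Defs
import Pool.Agent.AGE.C2a
import Pool.Agent.AGE.C2b
import Pool.Agent.AGE.PR1

/-!
# AGE-PR2 (helper87): the projections and the permutation `jjp`

The projection to a block is equivariant up to the shift of the blocks, and `jjp` has order dividing `N`.
-/

set_option autoImplicit false

noncomputable section

namespace AGE

variable {J : Type} [LinearOrder J] {N : ℕ} [NeZero N]

omit [LinearOrder J] [NeZero N] in
private theorem pr2_symm_a (τ : Equiv.Perm J) (g : ZMod N) (j : J) :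
    (jjp N τ).symm (JJ.a (g + 1) j) = JJ.a g (τ.symm j) := by
  show (JJ.a (g + 1 - 1) (τ.symm j) : JJ N J) = JJ.a g (τ.symm j)
  rw [add_sub_cancel_right]

omit [LinearOrder J] [NeZero N] in
private theorem pr2_app_a (τ : Equiv.Perm J) (g : ZMod N) (j : J) :
    jjp N τ (JJ.a g j) = JJ.a (g + 1) (τ j) := rfl

omit [LinearOrder J] [NeZero N] in
private theorem pr2_app_e (τ : Equiv.Perm J) (g : ZMod N) (k : ℕ) :
    jjp N τ (JJ.e g k) = JJ.e (g + 1) k := rfl

theorem blk_act (τ : Equiv.Perm J) (g : ZMod N) (Q : Cube (JJ N J)) :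
    blk (g + 1) (Q.act (jjp N τ)) = (blk g Q).act τ := by
  apply Cube.ext
  · funext j
    show Q.lo ((jjp N τ).symm (JJ.a (g + 1) j)) = Q.lo (JJ.a g (τ.symm j))
    rw [pr2_symm_a]
  · ext x
    simp only [blk, Cube.act, Finset.mem_preimage, Finset.mem_map_equiv]
    rw [pr2_symm_a]

omit [NeZero N] in
private theorem pr2_ext {M : Type} [AddCommGroup M] (α β : Ch (JJ N J) →ₗ[ℤ] M)
    (h : ∀ Q, α (one Q) = β (one Q)) : α = β := by
  refine Finsupp.lhom_ext' fun Q => LinearMap.ext_ring ?_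
  exact h Q

omit [LinearOrder J] [NeZero N] in
private theorem pr2_inj (g : ZMod N) : Function.Injective (JJ.a g : J → JJ N J) := by
  intro a b h
  injection h

private theorem pr2_psg (τ : Equiv.Perm J) (g : ZMod N) (s : Finset J) :
    psg (jjp N τ) (s.map ⟨JJ.a g, pr2_inj g⟩) = psg τ s := by
  unfold psg
  rw [Finset.prod_map]
  refine Finset.prod_congr rfl fun x _ => ?_
  rw [Finset.prod_map]
  refine Finset.prod_congr rfl fun y _ => ?_
  have h : ((JJ.a g x : JJ N J) < JJ.a g y ∧ jjp N τ (JJ.a g y) < jjp N τ (JJ.a g x)) ↔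
      (x < y ∧ τ y < τ x) := by
    rw [pr2_app_a, pr2_app_a, JJ.a_lt_a, JJ.a_lt_a]
  show (if ((JJ.a g x : JJ N J) < JJ.a g y ∧ jjp N τ (JJ.a g y) < jjp N τ (JJ.a g x)) then (-1 : ℤ) else 1) = _
  by_cases h1 : x < y ∧ τ y < τ x
  · rw [if_pos h1, if_pos (h.2 h1)]
  · rw [if_neg h1, if_neg (fun h2 => h1 (h.1 h2))]

private theorem pr2_fr (g : ZMod N) (Q : Cube (JJ N J)) (h : ∀ x ∈ Q.fr, ∃ j, x = JJ.a g j) :
    Q.fr = (blk g Q).fr.map ⟨JJ.a g, pr2_inj g⟩ := by
  ext x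
  rw [Finset.mem_map]
  constructor
  · intro hx
    obtain ⟨j, rfl⟩ := h x hx
    exact ⟨j, by simpa [blk] using hx, rfl⟩
  · rintro ⟨j, hj, rfl⟩
    simpa [blk] using hj

private theorem pr2_iff (τ : Equiv.Perm J) (g : ZMod N) (Q : Cube (JJ N J)) :
    (∀ x ∈ (Q.act (jjp N τ)).fr, ∃ j, x = JJ.a (g + 1) j) ↔ ∀ x ∈ Q.fr, ∃ j, x = JJ.a g j := by
  constructor
  · intro h x hx
    have h1 : jjp N τ x ∈ (Q.act (jjp N τ)).fr := by
      simp only [Cube.act, Finset.mem_map_equiv, Equiv.symm_apply_apply]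
      exact hx
    obtain ⟨j, hj⟩ := h _ h1
    refine ⟨τ.symm j, ?_⟩
    rw [← pr2_symm_a, ← hj, Equiv.symm_apply_apply]
  · intro h x hx
    simp only [Cube.act, Finset.mem_map_equiv] at hx
    obtain ⟨j, hj⟩ := h _ hx
    refine ⟨τ j, ?_⟩
    rw [← pr2_app_a, ← hj, Equiv.apply_symm_apply]

private theorem pr2_pos (g : ZMod N) (Q : Cube (JJ N J)) (h : ∀ x ∈ Q.fr, ∃ j, x = JJ.a g j) :
    prQ g Q = one (blk g Q) := by
  unfold prQ
  rw [if_pos h]

private theorem pr2_neg (g : ZMod N) (Q : Cube (JJ N J)) (h : ¬ ∀ x ∈ Q.fr, ∃ j, x = JJ.a g j) :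
    prQ g Q = 0 := by
  unfold prQ
  rw [if_neg h]

theorem pr_act (τ : Equiv.Perm J) (g : ZMod N) (x : Ch (JJ N J)) :
    pr (g + 1) (act (jjp N τ) x) = act τ (pr g x) := by
  have h : pr (g + 1) ∘ₗ act (jjp N τ) = act τ ∘ₗ pr g := by
    refine pr2_ext _ _ fun Q => ?_
    rw [LinearMap.comp_apply, LinearMap.comp_apply, act_one, map_smul, pr_one, pr_one]
    by_cases hQ : ∀ x ∈ Q.fr, ∃ j, x = JJ.a g j
    · rw [pr2_pos g Q hQ, pr2_pos (g + 1) _ ((pr2_iff τ g Q).2 hQ), act_one, blk_act]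
      have e : psg (jjp N τ) Q.fr = psg τ (blk g Q).fr := by
        rw [pr2_fr g Q hQ]
        exact pr2_psg τ g (blk g Q).fr
      rw [e]
    · rw [pr2_neg g Q hQ, pr2_neg (g + 1) _ (fun h => hQ ((pr2_iff τ g Q).1 h)), smul_zero, map_zero]
  exact LinearMap.congr_fun h x

omit [LinearOrder J] [NeZero N] in
private theorem pr2_pow_a (τ : Equiv.Perm J) (k : ℕ) (g : ZMod N) (j : J) :
    ((jjp N τ) ^ k) (JJ.a g j) = JJ.a (g + (k : ZMod N)) ((τ ^ k) j) := by
  induction k with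
  | zero => simp
  | succ k ih =>
    rw [pow_succ', Equiv.Perm.mul_apply, ih, pr2_app_a, pow_succ', Equiv.Perm.mul_apply]
    push_cast
    rw [add_assoc]

omit [LinearOrder J] [NeZero N] in
private theorem pr2_pow_e (τ : Equiv.Perm J) (k : ℕ) (g : ZMod N) (i : ℕ) :
    ((jjp N τ) ^ k) (JJ.e g i) = JJ.e (g + (k : ZMod N)) i := by
  induction k with
  | zero => simp
  | succ k ih =>
    rw [pow_succ', Equiv.Perm.mul_apply, ih, pr2_app_e]
    push_cast
    rw [add_assoc]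

theorem jjp_pow_N (τ : Equiv.Perm J) (h : τ ^ N = 1) : (jjp N τ) ^ N = 1 := by
  ext x
  cases x with
  | a g j =>
    rw [pr2_pow_a, h, ZMod.natCast_self, add_zero]
    rfl
  | e g k =>
    rw [pr2_pow_e, ZMod.natCast_self, add_zero]
    rfl

end AGE
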