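import Pool.Agent.AGE.Defs
import Pool.Agent.AGE.C1b
import Pool.Agent.AGE.C2a
import Pool.Agent.AGE.C2b
import Pool.Agent.AGE.PR2

/-!
# AGE-PR3 (helper87): the complexes `PP n t`

The complexes `PP n t` are closed under faces, monotone in `t` and equivariant.
-/

set_option autoImplicit false

noncomputable section

namespace AGE

variable {J : Type} [LinearOrder J] {N : ℕ} [NeZero N]

private theorem pr3_mem (g : ZMod N) (Q : Cube (JJ N J)) (j : J) :
    j ∈ (blk g Q).fr ↔ JJ.a g j ∈ Q.fr := by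
  simp only [blk, Finset.mem_preimage]

theorem blk_hi (g : ZMod N) (Q : Cube (JJ N J)) (j : J) : (blk g Q).hi j = Q.hi (JJ.a g j) := by
  have h1 : (blk g Q).lo j = Q.lo (JJ.a g j) := rfl
  unfold Cube.hi
  rw [h1]
  by_cases h : JJ.a g j ∈ Q.fr
  · rw [if_pos h, if_pos ((pr3_mem g Q j).2 h)]
  · rw [if_neg h, if_neg fun h' => h ((pr3_mem g Q j).1 h')]

theorem blk_le (g : ZMod N) {Q P : Cube (JJ N J)} (h : Q.Le P) : (blk g Q).Le (blk g P) := by
  intro j
  rw [blk_hi, blk_hi]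
  exact h (JJ.a g j)

private theorem pr3_EE {Q P : Cube (JJ N J)} (h : Q.Le P) (hP : EE P) : EE Q where
  rng g k := ⟨(hP.rng g k).1.trans (h _).1, (h _).2.trans (hP.rng g k).2⟩
  fin := by
    have hinj : Function.Injective fun x : ZMod N × ℕ => (JJ.e x.1 x.2 : JJ N J) := by
      rintro ⟨g, k⟩ ⟨g', k'⟩ hx
      cases hx
      rfl
    refine (hP.fin.union (P.fr.finite_toSet.preimage hinj.injOn)).subset ?_
    rintro ⟨g, k⟩ hx
    have hx' : Q.lo (JJ.e g k) = 1 := hx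
    by_cases hf : (JJ.e g k : JJ N J) ∈ P.fr
    · exact Or.inr hf
    · left
      show P.lo (JJ.e g k) = 1
      have h1 := (h (JJ.e g k)).2
      have h2 := (Q.has_lo (JJ.e g k)).2
      have h3 := (hP.rng g k).2
      have h4 : P.hi (JJ.e g k) = P.lo (JJ.e g k) := by
        rw [Cube.hi, if_neg hf]
      omega
  one := by
    obtain ⟨g, k, hg⟩ := hP.one
    refine ⟨g, k, ?_⟩
    have h1 := h (JJ.e g k)
    have h2 := (Q.has_lo (JJ.e g k)).2
    have h3 := (hP.rng g k).2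
    omega
  col k g g' hg hg' := by
    refine hP.col k g g' ?_ ?_
    · have h1 := (h (JJ.e g k)).2
      have h3 := (hP.rng g k).2
      omega
    · have h1 := (h (JJ.e g' k)).2
      have h3 := (hP.rng g' k).2
      omega

theorem closed_PP (n : ℕ) (t : Cube J) : Closed (PP n t : Set (Cube (JJ N J))) := by
  intro P hP Q hQ
  obtain ⟨h1, h2, h3⟩ := hP
  exact ⟨fun g => ⟨Cube.le_trans' (blk_le g hQ) (h1 g).1, (Cube.le_dim (blk_le g hQ)).trans (h1 g).2⟩,
    pr3_EE hQ h2, (Cube.le_dim hQ).trans h3⟩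

theorem PP_mono (n : ℕ) {t t' : Cube J} (h : t.Le t') : (PP n t : Set (Cube (JJ N J))) ⊆ PP n t' := by
  intro Q hQ
  obtain ⟨h1, h2, h3⟩ := hQ
  exact ⟨fun g => ⟨Cube.le_trans' (h1 g).1 h, (h1 g).2⟩, h2, h3⟩

private theorem pr3_act {τ : Equiv.Perm J} {Q : Cube (JJ N J)} (hQ : EE Q) :
    EE (Q.act (jjp N τ)) := by
  have hlo : ∀ g k, (Q.act (jjp N τ)).lo (JJ.e g k) = Q.lo (JJ.e (g - 1) k) := fun g k => rfl
  have hhi : ∀ g k, (Q.act (jjp N τ)).hi (JJ.e g k) = Q.hi (JJ.e (g - 1) k) := by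
    intro g k
    rw [Cube.act_hi]
    rfl
  refine ⟨fun g k => ?_, ?_, ?_, fun k g g' hg hg' => ?_⟩
  · rw [hlo, hhi]
    exact hQ.rng (g - 1) k
  · have hinj : Function.Injective fun x : ZMod N × ℕ => ((x.1 - 1, x.2) : ZMod N × ℕ) := by
      rintro ⟨g, k⟩ ⟨g', k'⟩ hx
      have h1 := congrArg Prod.fst hx
      have h2 := congrArg Prod.snd hx
      simp only at h1 h2
      rw [sub_left_inj] at h1
      rw [h1, h2]
    refine (hQ.fin.preimage hinj.injOn).subset ?_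
    rintro ⟨g, k⟩ hx
    exact hx
  · obtain ⟨g, k, hg⟩ := hQ.one
    refine ⟨g + 1, k, ?_⟩
    rw [hlo, add_sub_cancel_right]
    exact hg
  · rw [hhi] at hg hg'
    have h1 := hQ.col k _ _ hg hg'
    rwa [sub_left_inj] at h1

theorem PP_act (n : ℕ) (τ : Equiv.Perm J) {t : Cube J} {Q : Cube (JJ N J)} (h : Q ∈ PP n t) :
    Q.act (jjp N τ) ∈ PP n (t.act τ) := by
  obtain ⟨h1, h2, h3⟩ := h
  refine ⟨fun g => ?_, pr3_act h2, ?_⟩
  · have e : g = g - 1 + 1 := (sub_add_cancel g 1).symm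
    rw [e, blk_act, Cube.act_le, Cube.act_dim]
    exact h1 (g - 1)
  · rw [Cube.act_dim]
    exact h3

end AGE
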