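import Pool.Agent.AGE.Defs
import Pool.Agent.AGE.C1b
import Pool.Agent.AGE.PR1

/-!
# AGE-PR4 (helper87): the projections are jointly onto in degrees `≤ n`

PLAN.  For `g : ZMod N` and a face `Q` of `t` let `emb t g Q` be the cube of `ℤ^JJ` with `lo (JJ.a g' j) = if g' = g then Q.lo j else t.lo j`, `lo (JJ.e g' k) = if g' = 0 ∧ k = 0 then 1 else 0`,
`fr = Q.fr.map ⟨JJ.a g, _⟩` (private def, `Finset.map` or `image`).  Facts, for `Q.Le t`, `Q.dim ≤ n`:
* `emb t g Q ∈ PP n t`, `(emb t g Q).dim = Q.dim`: blocks: block `g` is `Q`, block `g' ≠ g` is the vertex `t.lo` (`pt_le`, `has_lo`), of dimension 0; `EE`: the E-part is the single vertex `e 0 0`; dimension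
  `≤ n ≤ n + 2`.
* `prQ g (emb t g Q) = one Q`; if `0 < Q.dim` and `g' ≠ g` then `prQ g' (emb t g Q) = 0` (a free coordinate is not in block `g'`).
`sur_pr`: `y = ∑ g, Finsupp.linearCombination ℤ (fun Q => one (emb t g Q)) (a g)` (finite sum over `ZMod N`: `Fintype`, `NeZero N`); membership: `map_mem`-style (each `a g` is supported on faces of `t`
of dimension `i`); `pr g' y = ∑ g, ..`: for `g ≠ g'` the linear map `x ↦ pr g' (lin_g x)` is 0 on the cubes of dimension `i > 0`, for `g = g'` it is the identity on faces (`eq_of_one`-style).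
`sur_pr0`: `c` a vertex of `t` (`c.dim = 0`, i.e. `c.fr = ∅`): `y = one Q` with `Q.lo (JJ.a g j) = c.lo j` for all `g`, E-part as before, `Q.fr = ∅`; `prQ g Q = one (blk g Q) = one c`.
-/

set_option autoImplicit false

noncomputable section

namespace AGE

variable {J : Type} [LinearOrder J] {N : ℕ} [NeZero N]

/-- the value of the join part of the standard vertex -/
private def pr4_ev (g : ZMod N) (k : ℕ) : ℤ := if g = 0 ∧ k = 0 then 1 else 0

/-- the cube `Q` in block `g`, the lowest vertex of `t` in the other blocks -/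
private def pr4_lo (t : Cube J) (g : ZMod N) (Q : Cube J) : JJ N J → ℤ
  | .a g' j => if g' = g then Q.lo j else t.lo j
  | .e g' k => pr4_ev g' k

private def pr4_emb (t : Cube J) (g : ZMod N) (Q : Cube J) : Cube (JJ N J) :=
  ⟨pr4_lo t g Q, Q.fr.map ⟨JJ.a g, fun _ _ h => by simpa using h⟩⟩

private theorem pr4_mem_a (t : Cube J) (g g' : ZMod N) (Q : Cube J) (j : J) :
    (JJ.a g' j : JJ N J) ∈ (pr4_emb t g Q).fr ↔ g' = g ∧ j ∈ Q.fr := by
  unfold pr4_emb
  rw [Finset.mem_map]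
  constructor
  · rintro ⟨k, hk, h⟩
    have h1 : (JJ.a g k : JJ N J) = JJ.a g' j := h
    injection h1 with h2 h3
    subst h2 h3
    exact ⟨rfl, hk⟩
  · rintro ⟨rfl, h⟩
    exact ⟨j, h, rfl⟩

private theorem pr4_mem_e (t : Cube J) (g g' : ZMod N) (Q : Cube J) (k : ℕ) :
    (JJ.e g' k : JJ N J) ∉ (pr4_emb t g Q).fr := by
  unfold pr4_emb
  rw [Finset.mem_map]
  rintro ⟨j, _, h⟩
  have h1 : (JJ.a g j : JJ N J) = JJ.e g' k := h
  cases h1

private theorem pr4_dim (t : Cube J) (g : ZMod N) (Q : Cube J) : (pr4_emb t g Q).dim = Q.dim :=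
  Finset.card_map _

private theorem pr4_mem_blk (g : ZMod N) (Q : Cube (JJ N J)) (j : J) :
    j ∈ (blk g Q).fr ↔ (JJ.a g j : JJ N J) ∈ Q.fr :=
  Finset.mem_preimage (hf := fun _ _ _ _ h => by simpa using h)

private theorem pr4_blk (t : Cube J) (g : ZMod N) (Q : Cube J) : blk g (pr4_emb t g Q) = Q := by
  refine Cube.ext (funext fun j => ?_) ?_
  · show pr4_lo t g Q (JJ.a g j) = Q.lo j
    unfold pr4_lo
    exact if_pos rfl
  · ext j
    rw [pr4_mem_blk, pr4_mem_a]
    exact ⟨fun h => h.2, fun h => ⟨rfl, h⟩⟩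

private theorem pr4_blk_ne (t : Cube J) (g g' : ZMod N) (Q : Cube J) (h : g' ≠ g) :
    blk g' (pr4_emb t g Q) = pt t.lo := by
  refine Cube.ext (funext fun j => ?_) ?_
  · show pr4_lo t g Q (JJ.a g' j) = t.lo j
    unfold pr4_lo
    exact if_neg h
  · ext j
    rw [pr4_mem_blk, pr4_mem_a]
    constructor
    · intro h1
      exact absurd h1.1 h
    · intro h1
      exact absurd h1 (Finset.notMem_empty j)

/-- a cube whose join part is the standard vertex -/
private theorem pr4_EE (Q : Cube (JJ N J)) (h : ∀ g k, Q.lo (JJ.e g k) = pr4_ev g k)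
    (h' : ∀ g k, (JJ.e g k : JJ N J) ∉ Q.fr) : EE Q := by
  have hh : ∀ g k, Q.hi (JJ.e g k) = pr4_ev g k := by
    intro g k
    unfold Cube.hi
    rw [if_neg (h' g k), h]
  have h1 : ∀ (g : ZMod N) (k : ℕ), pr4_ev g k = 1 → g = 0 ∧ k = 0 := by
    intro g k h2
    unfold pr4_ev at h2
    by_contra h3
    rw [if_neg h3] at h2
    exact absurd h2 (by norm_num)
  constructor
  · intro g k
    rw [h, hh]
    unfold pr4_ev
    split_ifs
    · exact ⟨by norm_num, le_rfl⟩
    · exact ⟨le_rfl, by norm_num⟩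
  · refine (Set.finite_singleton ((0, 0) : ZMod N × ℕ)).subset ?_
    rintro ⟨g, k⟩ h2
    have h3 : Q.lo (JJ.e g k) = 1 := h2
    rw [h] at h3
    obtain ⟨h4, h5⟩ := h1 g k h3
    subst h4 h5
    exact Set.mem_singleton _
  · refine ⟨0, 0, ?_⟩
    rw [h]
    unfold pr4_ev
    exact if_pos ⟨rfl, rfl⟩
  · intro k g g' h2 h3
    rw [hh] at h2 h3
    rw [(h1 _ _ h2).1, (h1 _ _ h3).1]

private theorem pr4_PP (n : ℕ) (t : Cube J) (g : ZMod N) (Q : Cube J) (hQ : Q.Le t)
    (hd : Q.dim ≤ n) : pr4_emb t g Q ∈ (PP n t : Set (Cube (JJ N J))) := by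
  refine ⟨fun g' => ?_, pr4_EE _ (fun _ _ => rfl) (fun _ _ => pr4_mem_e t g _ Q _), ?_⟩
  · by_cases h : g' = g
    · subst h
      rw [pr4_blk]
      exact ⟨hQ, hd⟩
    · rw [pr4_blk_ne t g g' Q h]
      refine ⟨Cube.pt_le.2 t.has_lo, ?_⟩
      show (∅ : Finset J).card ≤ n
      rw [Finset.card_empty]
      exact Nat.zero_le n
  · rw [pr4_dim]
    omega

private theorem pr4_prQ (t : Cube J) (g : ZMod N) (Q : Cube J) :
    prQ g (pr4_emb t g Q) = one Q := by
  unfold prQ
  rw [if_pos, pr4_blk]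
  intro x hx
  cases x with
  | a g' j =>
    rw [pr4_mem_a] at hx
    rw [hx.1]
    exact ⟨j, rfl⟩
  | e g' k => exact absurd hx (pr4_mem_e t g g' Q k)

private theorem pr4_prQ_ne (t : Cube J) (g g' : ZMod N) (Q : Cube J) (h : g' ≠ g)
    (hd : 0 < Q.dim) : prQ g' (pr4_emb t g Q) = 0 := by
  unfold prQ
  rw [if_neg]
  intro h1
  obtain ⟨j, hj⟩ := Finset.card_pos.1 hd
  obtain ⟨j', h2⟩ := h1 (JJ.a g j) ((pr4_mem_a t g g Q j).2 ⟨rfl, hj⟩)
  injection h2 with h3 _
  exact h h3.symm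

theorem sur_pr (n : ℕ) (t : Cube J) (i : ℕ) (hi : i ≤ n) (h0 : 0 < i) (a : ZMod N → Ch J)
    (ha : ∀ g, a g ∈ CC (Faces t) i) :
    ∃ y ∈ CC (PP n t : Set (Cube (JJ N J))) i, ∀ g, pr g y = a g := by
  choose L hL using fun g : ZMod N => exists_lin (J' := JJ N J) (fun Q : Cube J => one (pr4_emb t g Q))
  refine ⟨∑ g, L g (a g), Submodule.sum_mem _ fun g _ => ?_, fun g => ?_⟩
  · refine map_mem (L g) _ ?_ (ha g)
    intro c hc hd
    rw [hL]
    have h1 := one_mem (pr4_PP n t g c hc (by omega))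
    rw [pr4_dim, hd] at h1
    exact h1
  · rw [map_sum, Finset.sum_eq_single g]
    · have h1 : (pr g ∘ₗ L g) (a g) = (LinearMap.id : Ch J →ₗ[ℤ] Ch J) (a g) := by
        refine eq_of_one (K := Faces t) _ _ ?_ (ha g)
        intro c _
        rw [LinearMap.comp_apply, hL, pr_one, pr4_prQ, LinearMap.id_apply]
      exact h1
    · intro g' _ hg
      have h1 : (pr g ∘ₗ L g') (a g') ∈ (⊥ : Submodule ℤ (Ch J)) := by
        refine map_mem _ _ ?_ (ha g')
        intro c _ hd
        rw [LinearMap.comp_apply, hL, pr_one, pr4_prQ_ne t g' g c hg.symm (by omega)]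
        exact Submodule.zero_mem _
      exact (Submodule.mem_bot ℤ).1 h1
    · intro h
      exact absurd (Finset.mem_univ g) h

/-- the vertex of the coinduced complex over a vertex `v` -/
private def pr4_lo0 (v : J → ℤ) : JJ N J → ℤ
  | .a _ j => v j
  | .e g' k => pr4_ev g' k

theorem sur_pr0 (n : ℕ) (t : Cube J) (c : Cube J) (hc : c.Le t) (h0 : c.dim = 0) :
    ∃ y ∈ CC (PP n t : Set (Cube (JJ N J))) 0, ∀ g : ZMod N, pr g y = one c := by
  have hfr : c.fr = ∅ := Finset.card_eq_zero.1 h0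
  have hb : ∀ g : ZMod N, blk g (⟨pr4_lo0 c.lo, ∅⟩ : Cube (JJ N J)) = c := by
    intro g
    refine Cube.ext rfl ?_
    rw [hfr]
    ext j
    rw [pr4_mem_blk]
    constructor
    · intro h
      exact absurd h (Finset.notMem_empty _)
    · intro h
      exact absurd h (Finset.notMem_empty _)
  refine ⟨one ⟨pr4_lo0 c.lo, ∅⟩, ?_, fun g => ?_⟩
  · refine one_mem (Q := (⟨pr4_lo0 c.lo, ∅⟩ : Cube (JJ N J))) ⟨fun g => ?_, ?_, ?_⟩
    · rw [hb]
      exact ⟨hc, by omega⟩
    · exact pr4_EE _ (fun _ _ => rfl) (fun _ _ => Finset.notMem_empty _)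
    · show (∅ : Finset (JJ N J)).card ≤ n + 2
      rw [Finset.card_empty]
      omega
  · rw [pr_one]
    unfold prQ
    rw [if_pos, hb]
    intro x hx
    exact absurd hx (Finset.notMem_empty _)

end AGE
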