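import Pool.Agent.AGE.Defs
import Pool.Agent.AGE.ACY
import Pool.Agent.AGE.BAS
import Pool.Agent.AGE.ALG10
import Pool.Agent.AGE.PR1
import Pool.Agent.AGE.PR2
import Pool.Agent.AGE.PR3
import Pool.Agent.AGE.PR4

/-!
# Project AGE, layer ALG: the obstruction algebra (see section 3 of the blueprint)

The abstract theorem is `ALG.alg_abs` (ALG10); here it is specialised to cubes.
-/

set_option autoImplicit false

noncomputable section

namespace AGE

variable {V J : Type} [LinearOrder V] [LinearOrder J]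

/-- `lam` restricted to dimension `n` -/
private def alg_cut (n : ℕ) (lam : Ch V →ₗ[ℤ] Ch J) : Ch V →ₗ[ℤ] Ch J :=
  Finsupp.linearCombination ℤ (fun c : Cube V => if c.dim = n then lam (one c) else 0)

private theorem alg_cut_one (n : ℕ) (lam : Ch V →ₗ[ℤ] Ch J) (c : Cube V) :
    alg_cut n lam (one c) = if c.dim = n then lam (one c) else 0 := by
  unfold alg_cut one
  rw [Finsupp.linearCombination_single, one_smul]

private theorem alg_cut_eq (n : ℕ) (lam : Ch V →ₗ[ℤ] Ch J) (c : Cube V) {x : Ch V} (hx : x ∈ (cubeBas V).E c n) :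
    alg_cut n lam x = lam x := by
  refine ALG.E_ext (cubeBas V) _ _ (fun d _ hd => ?_) x hx
  have h := alg_cut_one n lam d
  rw [if_pos (show d.dim = n from hd)] at h
  exact h

private theorem alg_cut_zero (n i : ℕ) (hi : i ≠ n) (lam : Ch V →ₗ[ℤ] Ch J) (c : Cube V) {x : Ch V}
    (hx : x ∈ (cubeBas V).E c i) : alg_cut n lam x = 0 := by
  have h := ALG.E_ext (cubeBas V) (alg_cut n lam) 0 (t := c) (i := i) (fun d _ hd => ?_) x hx
  · rw [h]; rfl
  · have h := alg_cut_one n lam d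
    have h2 : d.dim = i := hd
    rw [if_neg (by rw [h2]; exact hi)] at h
    exact h

/-- values on the cells of `K` extend to all chains of faces -/
private theorem alg_ext {n N : ℕ} {K : Set (Cube V)} {τ : Equiv.Perm V} (hK : Src n N K τ) {M : Type} [AddCommGroup M]
    (L : Ch V →ₗ[ℤ] M) (W : Submodule ℤ M) {c : Cube V} (hc : c ∈ K) (i : ℕ)
    (h : ∀ d ∈ K, d.Le c → d.dim = i → L (one d) ∈ W) : ∀ x ∈ (cubeBas V).E c i, L x ∈ W :=
  ALG.E_ind (cubeBas V) L W fun d hd hi => h d (hK.clo c hc d hd) hd hi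

private theorem alg_exteq {n N : ℕ} {K : Set (Cube V)} {τ : Equiv.Perm V} (hK : Src n N K τ) {M : Type} [AddCommGroup M]
    (L L' : Ch V →ₗ[ℤ] M) {c : Cube V} (hc : c ∈ K) (i : ℕ)
    (h : ∀ d ∈ K, d.Le c → d.dim = i → L (one d) = L' (one d)) : ∀ x ∈ (cubeBas V).E c i, L x = L' x :=
  ALG.E_ext (cubeBas V) L L' fun d hd hi => h d (hK.clo c hc d hd) hd hi

private theorem alg_dat {n N : ℕ} (K : Set (Cube V)) (τV : Equiv.Perm V)
    (τJ : Equiv.Perm J) (hK : Src n N K τV) (s : Cube V → Cube J)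
    (hs1 : ∀ c ∈ K, ∀ d : Cube V, d.Le c → (s d).Le (s c))
    (φ lam nu xi : Ch V →ₗ[ℤ] Ch J)
    (hD : Dat n K (fun c => Faces (s c)) τV τJ φ lam nu xi) :
    ALG.DatA (cubeBas V) (cubeBas J) K s n (act τV.symm) (act τJ) φ (alg_cut n lam) nu (alg_cut n xi) := by
  have hfa : ∀ c ∈ K, ∀ d : Cube V, d.Le c → Faces (s d) ⊆ Faces (s c) := fun c hc d hd Q hQ =>
    Cube.le_trans' hQ (hs1 c hc d hd)
  refine ⟨?_, ?_, ?_, ?_, ?_, ?_, ?_, ?_, ?_⟩
  · intro c hc i
    refine alg_ext hK φ _ hc i fun d hd hdc hi => ?_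
    have h := hD.phC d hd
    rw [hi] at h
    exact CC_mono (hfa c hc d hdc) i h
  · intro c hc i
    exact alg_exteq hK (bd ∘ₗ φ) (φ ∘ₗ bd) hc i fun d hd _ _ => hD.phB d hd
  · intro c hc i
    refine alg_exteq hK (ALG.con (act τJ) (act τV.symm) φ) φ hc i fun d hd _ _ => ?_
    have h := hD.phT (d.act τV.symm) (hK.mem_symm hd)
    show act τJ (φ (act τV.symm (one d))) = φ (one d)
    rw [hK.act_symm_one hd, ← h, ← hK.act_symm_one hd, act_act_symm]
  · intro c hc x hx
    rw [alg_cut_eq n lam c hx]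
    refine alg_ext hK lam _ hc n (fun d hd hdc hi => ?_) x hx
    exact CC_mono (hfa c hc d hdc) (n + 1) (hD.laC d hd hi)
  · intro c _ i hi x hx
    exact alg_cut_zero n i hi lam c hx
  · intro c hc x hx
    rw [alg_cut_eq n xi c hx]
    refine alg_ext hK xi _ hc n (fun d hd hdc hi => ?_) x hx
    exact CC_mono (hfa c hc d hdc) (n + 2) (hD.xiC d hd hi)
  · intro c _ i hi x hx
    exact alg_cut_zero n i hi xi c hx
  · intro c hc
    refine alg_exteq hK (φ + alg_cut n lam ∘ₗ bd) (bd ∘ₗ nu) hc (n + 1) fun d hd _ hi => ?_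
    show φ (one d) + alg_cut n lam (bd (one d)) = bd (nu (one d))
    have h1 : bd (one d) ∈ (cubeBas V).E d n := ALG.bd_single_mem (cubeBas V) (c := d) (i := n) hi
    rw [alg_cut_eq n lam d h1]
    exact hD.eqE d hd hi
  · intro c hc
    refine alg_exteq hK (ALG.con (act τJ) (act τV.symm) nu - nu) (alg_cut n xi ∘ₗ bd) hc (n + 1) fun d hd _ hi => ?_
    show ALG.con (act τJ) (act τV.symm) nu (one d) - nu (one d) = alg_cut n xi (bd (one d))
    have h1 : bd (one d) ∈ (cubeBas V).E d n := ALG.bd_single_mem (cubeBas V) (c := d) (i := n) hi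
    rw [alg_cut_eq n xi d h1]
    exact hD.eqI d hd hi

private theorem alg_coi {N : ℕ} [NeZero N] (n : ℕ) (hn : 2 ≤ n) (τJ : Equiv.Perm J) (hJ : τJ ^ N = 1) :
    ALG.Coi (cubeBas J) n N (actE τJ) (act τJ) (act τJ.symm) (bd : Ch (JJ N J) →ₗ[ℤ] Ch (JJ N J))
      (act (jjp N τJ)) (fun t i => CC (PP n t) i) (fun g => pr (g : ZMod N)) where
  n2 := hn
  N0 := Nat.pos_of_ne_zero (NeZero.ne N)
  Di := fun x => act_act_symm τJ x
  iD := fun x => act_symm_act τJ x
  Db := fun x => act_bd τJ x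
  ib := fun x => act_bd τJ.symm x
  DN := fun x => act_pow_N τJ hJ x
  iN := fun x => act_pow_N τJ.symm (symm_pow_N τJ hJ) x
  DE := fun t i x hx => act_faces hx
  iE := fun t i x hx => act_symm_faces hx
  bb := bd_bd
  tb := fun x => act_bd _ x
  tN := fun x => act_pow_N _ (jjp_pow_N τJ hJ) x
  Pm := fun a b hab i => CC_mono (PP_mono n hab) i
  Pb := fun t i x hx => bd_mem (closed_PP n t) hx
  Pb0 := fun t x hx => bd_zero hx
  Pt := fun t i x hx => act_mem (jjp N τJ) (fun Q hQ => PP_act n τJ hQ) hx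
  prb := fun g x => pr_bd _ x
  prt := fun g x => by
    have := pr_act τJ (g : ZMod N) x
    push_cast
    exact this
  prN := fun g x => by
    have : ((g + N : ℕ) : ZMod N) = (g : ZMod N) := by
      push_cast
      rw [ZMod.natCast_self, add_zero]
    simp only [this]
  acy := fun t i hi z hz hb hp => by
    obtain ⟨y, h1, h2, h3⟩ := acy n hn t i hi z hz (fun _ => hb) (fun g => by
      have := hp g.val
      simp only [ZMod.natCast_zmod_val] at this
      exact this)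
    exact ⟨y, h1, h2, fun g => h3 _⟩
  sur := fun t i hi h0 a ha hE => by
    obtain ⟨y, h1, h2⟩ := sur_pr (N := N) n t i hi h0 (fun g => a g.val) (fun g => hE _)
    refine ⟨y, h1, fun g => ?_⟩
    rw [h2]
    have hper : ∀ k r : ℕ, a (r + k * N) = a r := by
      intro k r
      induction k with
      | zero => rw [zero_mul, add_zero]
      | succ k ih => rw [Nat.succ_mul, ← add_assoc, ha, ih]
    have := hper (g / N) (g % N)
    have h4 : g % N + g / N * N = g := by
      rw [mul_comm]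
      exact Nat.mod_add_div g N
    rw [h4] at this
    show a ((g : ZMod N)).val = a g
    rw [ZMod.val_natCast, this]
  sur0 := fun t c hc h0 => by
    obtain ⟨y, h1, h2⟩ := sur_pr0 (N := N) n t c hc h0
    exact ⟨y, h1, fun g => h2 _⟩

theorem alg {N : ℕ} [NeZero N] (n : ℕ) (hn : 2 ≤ n) (K : Set (Cube V)) (τV : Equiv.Perm V)
    (τJ : Equiv.Perm J) (hK : Src n N K τV) (hJ : τJ ^ N = 1) (s : Cube V → Cube J)
    (hs1 : ∀ c ∈ K, ∀ d : Cube V, d.Le c → (s d).Le (s c))
    (hs2 : ∀ c ∈ K, s (c.act τV) = (s c).act τJ)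
    (φ lam nu xi : Ch V →ₗ[ℤ] Ch J)
    (hD : Dat n K (fun c => Faces (s c)) τV τJ φ lam nu xi)
    (Fs : Ch V →ₗ[ℤ] Ch (JJ N J))
    (hF1 : ∀ c ∈ K, Fs (one c) ∈ CC (PP n (s c)) c.dim)
    (hF2 : ∀ c ∈ K, bd (Fs (one c)) = Fs (bd (one c)))
    (hF3 : ∀ c ∈ K, Fs (act τV (one c)) = act (jjp N τJ) (Fs (one c)))
    (hF4 : ∀ c ∈ K, pr 0 (Fs (one c)) = if c.dim < n then φ (one c) else
      if c.dim = n then φ (one c) + bd (lam (one c)) else 0) :
    ∃ Lam nu' w m : Ch V →ₗ[ℤ] Ch (JJ N J),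
      (∀ c ∈ K, c.dim = n → Lam (one c) ∈ CC (PP n (s c)) (n + 1)) ∧
      (∀ c ∈ K, c.dim = n + 1 → nu' (one c) ∈ CC (PP n (s c)) (n + 2)) ∧
      (∀ c ∈ K, c.dim = n → w (one c) ∈ CC (PP n (s c)) (n + 2)) ∧
      (∀ c ∈ K, c.dim = n → m (one c) ∈ CC (PP n (s c)) (n + 2) ∧ bd (m (one c)) = 0) ∧
      (∀ c ∈ K, c.dim = n + 1 → Fs (one c) + Lam (bd (one c)) = bd (nu' (one c))) ∧
      (∀ c ∈ K, c.dim = n + 1 →
        bd ((con τV (jjp N τJ) nu' - nu' - w ∘ₗ bd) (one c)) = 0 ∧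
        nrm N τV (jjp N τJ) (con τV (jjp N τJ) nu' - nu' - w ∘ₗ bd) (one c)
          = - m (bd (one c))) := by
  have hA := src_act hK
  have hs : ALG.Ctl (cubeBas V) (cubeBas J) K s (actE τV) (actE τJ) := ⟨hs1, hs2⟩
  have hd := alg_dat K τV τJ hK s hs1 φ lam nu xi hD
  have hc := alg_coi (J := J) n hn τJ hJ
  have hPm : ∀ c ∈ K, ∀ d : Cube V, d.Le c → (PP n (s d) : Set (Cube (JJ N J))) ⊆ PP n (s c) :=
    fun c hc d hd => PP_mono n (hs1 c hc d hd)
  obtain ⟨Lam, nu', w, m, h1, h2, h3, h4, h5, h6⟩ := ALG.alg_abs (cubeBas V) (cubeBas J) K s n N (actE τV) (actE τJ)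
    (act τV.symm) (act τJ) (act τJ.symm) hA hs φ (alg_cut n lam) nu (alg_cut n xi) hd bd (act (jjp N τJ))
    (fun t i => CC (PP n t) i) (fun g => pr (g : ZMod N)) hc Fs
    (fun c hc i _ => alg_ext hK Fs _ hc i fun d hd hdc hi => by
      have h := hF1 d hd
      rw [hi] at h
      exact CC_mono (hPm c hc d hdc) i h)
    (fun c hc i _ => alg_exteq hK (bd ∘ₗ Fs) (Fs ∘ₗ bd) hc i fun d hd _ _ => hF2 d hd)
    (fun c hc i _ => alg_exteq hK (ALG.con (act (jjp N τJ)) (act τV.symm) Fs) Fs hc i fun d hd _ _ => by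
      have h := hF3 (d.act τV.symm) (hK.mem_symm hd)
      show act (jjp N τJ) (Fs (act τV.symm (one d))) = Fs (one d)
      rw [hK.act_symm_one hd, ← h, ← hK.act_symm_one hd, act_act_symm])
    (fun c hc i hin => alg_exteq hK (pr ((0 : ℕ) : ZMod N) ∘ₗ Fs) (ALG.hmap (cubeBas J) φ (alg_cut n lam)) hc i
      fun d hd _ hi => by
        have h := hF4 d hd
        show pr ((0 : ℕ) : ZMod N) (Fs (one d)) = φ (one d) + bd (alg_cut n lam (one d))
        rw [Nat.cast_zero, h, alg_cut_one]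
        rcases lt_or_eq_of_le hin with h7 | h7
        · rw [if_pos (by rw [hi]; exact h7), if_neg (by rw [hi]; exact h7.ne), map_zero, add_zero]
        · rw [if_neg (by rw [hi, h7]; exact lt_irrefl _), if_pos (by rw [hi, h7]), if_pos (by rw [hi, h7])])
    (fun c hc x hx => by
      have h := alg_exteq hK (pr ((0 : ℕ) : ZMod N) ∘ₗ Fs) 0 hc (n + 1) (fun d hd _ hi => by
        have h := hF4 d hd
        show pr ((0 : ℕ) : ZMod N) (Fs (one d)) = 0
        rw [Nat.cast_zero, h, if_neg (by rw [hi]; omega), if_neg (by rw [hi]; omega)]) x hx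
      exact h)
  have key : ∀ c : Cube V, ∀ i, c.dim = i → one c ∈ (cubeBas V).E c i := fun c i hi => by
    have := ALG.E_single_self (cubeBas V) c
    rw [show (cubeBas V).dim c = i from hi] at this
    exact this
  refine ⟨Lam, nu', w, m, fun c hc hi => h1 c hc _ (key c n hi), fun c hc hi => h2 c hc _ (key c _ hi),
    fun c hc hi => h3 c hc _ (key c n hi), fun c hc hi => h4 c hc _ (key c n hi),
    fun c hc hi => h5 c hc _ (key c _ hi), fun c hc hi => ?_⟩
  have h := h6 c hc _ (key c _ hi)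
  rw [nrm_eq]
  exact h

end AGE
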