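import Pool.Agent.AGE.ALG0

/-!
# AGE-ALG1 (helper87): the lifting lemma for based complexes (acyclic carriers)

The lift is constructed cell by cell, by induction on the dimension.
-/

set_option autoImplicit false

noncomputable section

namespace AGE
namespace ALG

open Finsupp

private theorem alg1_step {C B : Type*} [AddCommGroup B] (A : Bas C) (K : Set C)
    (hK : ∀ a b, b ∈ K → A.le a b → a ∈ K) (bB : B →ₗ[ℤ] B)
    (W : C → ℕ → Submodule ℤ B) (hW : ∀ a b, b ∈ K → A.le a b → ∀ i, W a i ≤ W b i) (m k : ℕ)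
    (hac : ∀ c ∈ K, A.dim c ≤ m → ∀ z ∈ W c (A.dim c + k), bB z = 0 →
      ∃ y ∈ W c (A.dim c + k + 1), bB y = z) (e : ℤ) (θ : (C →₀ ℤ) →ₗ[ℤ] B)
    (hθ : Crd K A.E W m k θ)
    (hb2 : ∀ j ∈ K, ∀ i ≤ m, ∀ x ∈ A.E j i, bB (θ x) = e • θ (A.bd x)) (r : ℕ)
    (Λ : (C →₀ ℤ) →ₗ[ℤ] B)
    (hΛ : ∀ c ∈ K, A.dim c ≤ m → A.dim c < r → Λ (single c 1) ∈ W c (A.dim c + k + 1) ∧
      θ (single c 1) = bB (Λ (single c 1)) + e • Λ (A.bd (single c 1)))
    (c : C) (hc : c ∈ K) (hr : A.dim c = r) (hm : r ≤ m) :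
    ∃ u ∈ W c (A.dim c + k + 1), θ (single c 1) = bB u + e • Λ (A.bd (single c 1)) := by
  have hs : single c (1 : ℤ) ∈ A.E c r := by
    have h1 := E_single_self A c
    rwa [hr] at h1
  have h1 : θ (single c 1) ∈ W c (A.dim c + k) := by
    rw [hr]
    exact hθ c hc r hm _ hs
  have h2 : bB (θ (single c 1)) = e • θ (A.bd (single c 1)) := hb2 c hc r hm _ hs
  have h3 : Λ (A.bd (single c 1)) ∈ W c (A.dim c + k) ∧
      θ (A.bd (single c 1)) = bB (Λ (A.bd (single c 1))) := by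
    cases r with
    | zero =>
        rw [bd_single_zero A hr, map_zero, map_zero, map_zero]
        exact ⟨Submodule.zero_mem _, rfl⟩
    | succ r =>
        have hy : A.bd (single c 1) ∈ A.E c r := bd_single_mem A hr
        refine ⟨?_, ?_⟩
        · refine E_ind A Λ _ (fun c' hle hd => ?_) _ hy
          have hc' : c' ∈ K := hK _ _ hc hle
          have h4 := (hΛ c' hc' (by omega) (by omega)).1
          have h5 : A.dim c' + k + 1 = A.dim c + k := by omega
          rw [h5] at h4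
          exact hW _ _ hc hle _ h4
        · have h4 := E_ext A θ (bB ∘ₗ Λ + e • (Λ ∘ₗ A.bd)) (t := c) (i := r) (fun c' hle hd => by
            rw [LinearMap.add_apply, LinearMap.comp_apply, LinearMap.smul_apply,
              LinearMap.comp_apply]
            exact (hΛ c' (hK _ _ hc hle) (by omega) (by omega)).2) _ hy
          rw [LinearMap.add_apply, LinearMap.comp_apply, LinearMap.smul_apply,
            LinearMap.comp_apply, A.bd_bd, map_zero, smul_zero, add_zero] at h4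
          exact h4
  obtain ⟨u, hu, hu2⟩ := hac c hc (by omega) (θ (single c 1) - e • Λ (A.bd (single c 1)))
    (Submodule.sub_mem _ h1 (Submodule.smul_mem _ _ h3.1)) (by
      rw [map_sub, map_smul, h2, ← h3.2, sub_self])
  exact ⟨u, hu, by rw [hu2, sub_add_cancel]⟩

private theorem alg1_ind {C B : Type*} [AddCommGroup B] (A : Bas C) (K : Set C)
    (hK : ∀ a b, b ∈ K → A.le a b → a ∈ K) (bB : B →ₗ[ℤ] B)
    (W : C → ℕ → Submodule ℤ B) (hW : ∀ a b, b ∈ K → A.le a b → ∀ i, W a i ≤ W b i) (m k : ℕ)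
    (hac : ∀ c ∈ K, A.dim c ≤ m → ∀ z ∈ W c (A.dim c + k), bB z = 0 →
      ∃ y ∈ W c (A.dim c + k + 1), bB y = z) (e : ℤ) (θ : (C →₀ ℤ) →ₗ[ℤ] B)
    (hθ : Crd K A.E W m k θ)
    (hb2 : ∀ j ∈ K, ∀ i ≤ m, ∀ x ∈ A.E j i, bB (θ x) = e • θ (A.bd x)) (r : ℕ) :
    ∃ Λ : (C →₀ ℤ) →ₗ[ℤ] B, ∀ c ∈ K, A.dim c ≤ m → A.dim c < r →
      Λ (single c 1) ∈ W c (A.dim c + k + 1) ∧
      θ (single c 1) = bB (Λ (single c 1)) + e • Λ (A.bd (single c 1)) := by
  classical
  induction r with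
  | zero => exact ⟨0, fun c _ _ h => absurd h (Nat.not_lt_zero _)⟩
  | succ r ih =>
      obtain ⟨Λ, hΛ⟩ := ih
      have hu : ∀ c, ∃ u : B, c ∈ K → A.dim c = r → r ≤ m → u ∈ W c (A.dim c + k + 1) ∧
          θ (single c 1) = bB u + e • Λ (A.bd (single c 1)) := by
        intro c
        by_cases h : c ∈ K ∧ A.dim c = r ∧ r ≤ m
        · obtain ⟨u, hu1, hu2⟩ := alg1_step A K hK bB W hW m k hac e θ hθ hb2 r Λ hΛ c h.1 h.2.1
            h.2.2
          exact ⟨u, fun _ _ _ => ⟨hu1, hu2⟩⟩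
        · exact ⟨0, fun h1 h2 h3 => absurd ⟨h1, h2, h3⟩ h⟩
      choose u hu using hu
      have hv : ∀ c, (Finsupp.linearCombination ℤ
          (fun c => if A.dim c = r then u c else Λ (single c 1))) (single c (1 : ℤ)) =
          if A.dim c = r then u c else Λ (single c 1) := by
        intro c
        rw [Finsupp.linearCombination_single, one_smul]
      generalize Finsupp.linearCombination ℤ
          (fun c => if A.dim c = r then u c else Λ (single c 1)) = Λ' at hv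
      have hbd : ∀ c, A.dim c ≤ r → Λ' (A.bd (single c 1)) = Λ (A.bd (single c 1)) := by
        intro c hcr
        rcases Nat.eq_zero_or_pos (A.dim c) with h0 | h0
        · rw [bd_single_zero A h0, map_zero, map_zero]
        · obtain ⟨d, hd⟩ : ∃ d, A.dim c = d + 1 := ⟨A.dim c - 1, by omega⟩
          refine E_ext A Λ' Λ (fun c' _ hd' => ?_) _ (bd_single_mem A hd)
          rw [hv c', if_neg (by omega)]
      refine ⟨Λ', fun c hc hcm hcr => ?_⟩
      rw [hbd c (by omega), hv c]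
      by_cases hcr' : A.dim c = r
      · rw [if_pos hcr']
        exact hu c hc hcr' (by omega)
      · rw [if_neg hcr']
        exact hΛ c hc hcm (by omega)

theorem lift_cells {C B : Type*} [AddCommGroup B] (A : Bas C) (K : Set C)
    (hK : ∀ a b, b ∈ K → A.le a b → a ∈ K) (bB : B →ₗ[ℤ] B) (hb : ∀ x, bB (bB x) = 0)
    (W : C → ℕ → Submodule ℤ B) (hW : ∀ a b, b ∈ K → A.le a b → ∀ i, W a i ≤ W b i) (m k : ℕ)
    (hac : ∀ c ∈ K, A.dim c ≤ m → ∀ z ∈ W c (A.dim c + k), bB z = 0 →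
      ∃ y ∈ W c (A.dim c + k + 1), bB y = z) :
    Lft K A.E A.bd W bB m k := by
  intro e _ θ hθ hb2
  obtain ⟨Λ, hΛ⟩ := alg1_ind A K hK bB W hW m k hac e θ hθ hb2 (m + 1)
  refine ⟨Λ, crd_cells A K hK W hW m (k + 1) Λ (fun c hc hcm => ?_), fun j hj i hi => ?_⟩
  · exact (hΛ c hc hcm (by omega)).1
  · have h1 := E_ext A θ (bB ∘ₗ Λ + e • (Λ ∘ₗ A.bd)) (t := j) (i := i) (fun c hle hd => by
      rw [LinearMap.add_apply, LinearMap.comp_apply, LinearMap.smul_apply, LinearMap.comp_apply]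
      exact (hΛ c (hK _ _ hj hle) (by omega) (by omega)).2)
    intro x hx
    have h2 := h1 x hx
    rwa [LinearMap.add_apply, LinearMap.comp_apply, LinearMap.smul_apply,
      LinearMap.comp_apply] at h2

end ALG
end AGE
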