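import Pool.Agent.AGE.ALG0

/-!
# AGE-ALG2 (helper87): the generators of `H`

Membership of the generators `(a, 0, 0)`, `beta`, `gamma` in the complex `HZ`, their boundaries, the decomposition of an element of `HZ` in degree `n`
into generators (second components by periodicity modulo `N`), and the values of `can g` and `mkH` on them.  Everything is componentwise.
-/

set_option autoImplicit false

noncomputable section

namespace AGE
namespace ALG

open Finsupp

variable {D B : Type*} [AddCommGroup B] (A : Bas D) (n N : ℕ)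

theorem inl_mem {t : D} {i : ℕ} {a : D →₀ ℤ} (ha : a ∈ A.E t i) : ((a, 0, 0) : M D) ∈ HZ A n N t i := by
  refine ⟨ha, fun m => rfl, ?_, fun m => zero_mem _, zero_mem _⟩
  simp

theorem beta_mem (hN : 0 < N) {c : D} {m : ℕ} (hm : m < N - 1) {y : D →₀ ℤ} (hy : y ∈ A.E c (n + 1)) :
    beta N m y ∈ HZ A n N c n := by
  obtain ⟨K, rfl⟩ : ∃ K, N = K + 1 := ⟨N - 1, by omega⟩
  have hm' : m < K := by omega
  refine ⟨zero_mem _, fun j => ?_, ?_, fun j => ?_, zero_mem _⟩
  · show (if (j + (K + 1)) % (K + 1) = m then y else if (j + (K + 1)) % (K + 1) = K + 1 - 1 then -y else 0) =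
      (if j % (K + 1) = m then y else if j % (K + 1) = K + 1 - 1 then -y else 0)
    rw [Nat.add_mod_right]
  · show ∑ j ∈ Finset.range (K + 1), (if j % (K + 1) = m then y else
      if j % (K + 1) = K + 1 - 1 then -y else 0) = A.bd 0
    rw [map_zero, Finset.sum_range_succ, Finset.sum_eq_single m]
    · rw [Nat.mod_eq_of_lt (by omega : m < K + 1), Nat.mod_eq_of_lt (by omega : K < K + 1), if_pos rfl,
        if_neg (by omega), if_pos (by omega), add_neg_cancel]
    · intro j hj hne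
      have hj' := Finset.mem_range.1 hj
      rw [Nat.mod_eq_of_lt (by omega : j < K + 1), if_neg hne, if_neg (by omega)]
    · intro h
      exact absurd (Finset.mem_range.2 hm') h
  · show (if j % (K + 1) = m then y else if j % (K + 1) = K + 1 - 1 then -y else 0) ∈
      if n = n then A.E c (n + 1) else ⊥
    rw [if_pos rfl]
    split_ifs
    · exact hy
    · exact neg_mem hy
    · exact zero_mem _

theorem gamma_mem (hN : 0 < N) {c : D} {e : D →₀ ℤ} (he : e ∈ A.E c (n + 2)) :
    gamma A N e ∈ HZ A n N c n := by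
  obtain ⟨K, rfl⟩ : ∃ K, N = K + 1 := ⟨N - 1, by omega⟩
  refine ⟨zero_mem _, fun j => ?_, ?_, fun j => ?_, ?_⟩
  · show (if (j + (K + 1)) % (K + 1) = K + 1 - 1 then A.bd e else 0) =
      (if j % (K + 1) = K + 1 - 1 then A.bd e else 0)
    rw [Nat.add_mod_right]
  · show ∑ j ∈ Finset.range (K + 1), (if j % (K + 1) = K + 1 - 1 then A.bd e else 0) = A.bd e
    rw [Finset.sum_range_succ, Finset.sum_eq_zero, Nat.mod_eq_of_lt (by omega : K < K + 1),
      if_pos (by omega), zero_add]
    intro j hj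
    have hj' := Finset.mem_range.1 hj
    rw [Nat.mod_eq_of_lt (by omega : j < K + 1), if_neg (by omega)]
  · show (if j % (K + 1) = K + 1 - 1 then A.bd e else 0) ∈ if n = n then A.E c (n + 1) else ⊥
    rw [if_pos rfl]
    split_ifs
    · exact bd_E A e he
    · exact zero_mem _
  · show e ∈ if n = n then A.E c (n + 2) else ⊥
    rw [if_pos rfl]
    exact he

theorem bdH_beta (m : ℕ) (y : D →₀ ℤ) : bdH A (beta N m y) = 0 :=
  Prod.ext (map_zero A.bd) rfl

theorem bdH_gamma (e : D →₀ ℤ) : bdH A (gamma A N e) = 0 :=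
  Prod.ext (map_zero A.bd) rfl

theorem bdH_inl (a : D →₀ ℤ) : bdH A ((a, 0, 0) : M D) = (A.bd a, 0, 0) := rfl

private theorem alg2_per {x : ℕ → (D →₀ ℤ)} {N : ℕ} (h : ∀ m, x (m + N) = x m) (q r : ℕ) :
    x (r + N * q) = x r := by
  induction q with
  | zero => rfl
  | succ q ih => rw [Nat.mul_succ, ← Nat.add_assoc, h, ih]

theorem HZ_decomp (hN : 0 < N) {t : D} {x : M D} (hx : x ∈ HZ A n N t n) :
    x = (x.1, 0, 0) + ∑ m ∈ Finset.range (N - 1), beta N m (x.2.1 m) + gamma A N x.2.2 := by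
  obtain ⟨K, rfl⟩ : ∃ K, N = K + 1 := ⟨N - 1, by omega⟩
  obtain ⟨h1, h2, h3, h4, h5⟩ := hx
  rw [show K + 1 - 1 = K from rfl]
  refine Prod.ext ?_ (Prod.ext ?_ ?_)
  · rw [Prod.fst_add, Prod.fst_add, Prod.fst_sum]
    show x.1 = x.1 + ∑ m ∈ Finset.range K, (0 : D →₀ ℤ) + 0
    rw [Finset.sum_const_zero, add_zero, add_zero]
  · funext j
    rw [Prod.snd_add, Prod.snd_add, Prod.snd_sum, Prod.fst_add, Prod.fst_add, Prod.fst_sum, Pi.add_apply,
      Pi.add_apply, Finset.sum_apply]
    show x.2.1 j = 0 + ∑ m ∈ Finset.range K, (if j % (K + 1) = m then x.2.1 m else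
      if j % (K + 1) = K + 1 - 1 then -(x.2.1 m) else 0) + (if j % (K + 1) = K + 1 - 1 then A.bd x.2.2 else 0)
    have hj : x.2.1 j = x.2.1 (j % (K + 1)) := by
      conv_lhs => rw [← Nat.mod_add_div j (K + 1)]
      exact alg2_per h2 _ _
    have hlt : j % (K + 1) < K + 1 := Nat.mod_lt _ (Nat.succ_pos K)
    rw [hj, zero_add]
    generalize j % (K + 1) = r at hlt
    rcases Nat.lt_or_ge r K with hr | hr
    · rw [if_neg (by omega), add_zero, Finset.sum_eq_single r]
      · rw [if_pos rfl]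
      · intro m _ hne
        rw [if_neg (Ne.symm hne), if_neg (by omega)]
      · intro h
        exact absurd (Finset.mem_range.2 hr) h
    · have hrK : r = K := by omega
      subst hrK
      rw [if_pos (by omega), ← h3, Finset.sum_range_succ]
      have h6 : ∑ m ∈ Finset.range r, (if r = m then x.2.1 m else
          if r = r + 1 - 1 then -(x.2.1 m) else 0) = -∑ m ∈ Finset.range r, x.2.1 m := by
        rw [← Finset.sum_neg_distrib]
        refine Finset.sum_congr rfl fun m hm => ?_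
        have := Finset.mem_range.1 hm
        rw [if_neg (by omega), if_pos (by omega)]
      rw [h6]
      abel
  · rw [Prod.snd_add, Prod.snd_add, Prod.snd_add, Prod.snd_add, Prod.snd_sum, Prod.snd_sum]
    show x.2.2 = 0 + ∑ m ∈ Finset.range K, (0 : D →₀ ℤ) + x.2.2
    rw [Finset.sum_const_zero, add_zero, zero_add]

theorem HZ_low {t : D} {i : ℕ} (hi : i ≠ n) {x : M D} (hx : x ∈ HZ A n N t i) : x = (x.1, 0, 0) := by
  obtain ⟨h1, h2, h3, h4, h5⟩ := hx
  refine Prod.ext rfl (Prod.ext ?_ ?_)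
  · funext m
    have := h4 m
    rw [if_neg hi] at this
    exact (Submodule.mem_bot ℤ).1 this
  · rw [if_neg hi] at h5
    exact (Submodule.mem_bot ℤ).1 h5

theorem can_beta_mem (g : ℕ) (m : ℕ) {c : D} {y : D →₀ ℤ} (hy : y ∈ A.E c (n + 1)) :
    can A g (beta N m y) ∈ A.E c n := by
  show (0 : D →₀ ℤ) + A.bd (∑ j ∈ Finset.range g, (if j % N = m then y else
    if j % N = N - 1 then -y else 0)) ∈ A.E c n
  rw [zero_add]
  refine bd_E A _ (Submodule.sum_mem _ fun j _ => ?_)
  split_ifs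
  · exact hy
  · exact neg_mem hy
  · exact zero_mem _

theorem can_gamma (g : ℕ) (e : D →₀ ℤ) : can A g (gamma A N e) = 0 := by
  show (0 : D →₀ ℤ) + A.bd (∑ j ∈ Finset.range g, (if j % N = N - 1 then A.bd e else 0)) = 0
  rw [zero_add, map_sum]
  refine Finset.sum_eq_zero fun j _ => ?_
  split_ifs
  · exact A.bd_bd e
  · exact map_zero _

theorem can_inl (g : ℕ) (a : D →₀ ℤ) : can A g ((a, 0, 0) : M D) = a := by
  show a + A.bd (∑ j ∈ Finset.range g, (0 : D →₀ ℤ)) = a
  rw [Finset.sum_const_zero, map_zero, add_zero]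

theorem mkH_inl (LA : (D →₀ ℤ) →ₗ[ℤ] B) (LB : ℕ → (D →₀ ℤ) →ₗ[ℤ] B) (LC : (D →₀ ℤ) →ₗ[ℤ] B)
    (a : D →₀ ℤ) : mkH N LA LB LC ((a, 0, 0) : M D) = LA a := by
  show LA a + ∑ m ∈ Finset.range (N - 1), LB m (0 : D →₀ ℤ) + LC (0 : D →₀ ℤ) = LA a
  rw [map_zero, Finset.sum_eq_zero fun m _ => map_zero _, add_zero, add_zero]

end ALG
end AGE
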