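import Pool.Agent.AGE.ALG1
import Pool.Agent.AGE.ALG2

/-!
# AGE-ALG3 (helper87): the lifting lemma for the complex `H`

The lift is constructed separately on the three components: on the first by the lifting lemma for based complexes, on the
generators `beta` and `gamma` (which are cycles) by the acyclicity of the carriers.
-/

set_option autoImplicit false

noncomputable section

namespace AGE
namespace ALG

open Finsupp

/-- a linear lift on the cells of dimension `d` -/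
private theorem alg3_gen {D B : Type*} [AddCommGroup B] (A : Bas D) (bB : B →ₗ[ℤ] B)
    (W : D → ℕ → Submodule ℤ B) (hW : ∀ a b, A.le a b → ∀ i, W a i ≤ W b i) (d j : ℕ)
    (ψ : (D →₀ ℤ) →ₗ[ℤ] B) (h : ∀ c, A.dim c = d → ∃ y ∈ W c j, bB y = ψ (single c 1)) :
    ∃ L : (D →₀ ℤ) →ₗ[ℤ] B, ∀ t, ∀ x ∈ A.E t d, L x ∈ W t j ∧ bB (L x) = ψ x := by
  classical
  have h1 : ∀ c : D, ∃ y : B, A.dim c = d → y ∈ W c j ∧ bB y = ψ (single c 1) := by
    intro c
    by_cases hc : A.dim c = d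
    · obtain ⟨y, hy1, hy2⟩ := h c hc
      exact ⟨y, fun _ => ⟨hy1, hy2⟩⟩
    · exact ⟨0, fun h2 => absurd h2 hc⟩
  choose u hu using h1
  have hL : ∀ c, Finsupp.linearCombination ℤ u (single c (1 : ℤ)) = u c := by
    intro c
    rw [Finsupp.linearCombination_single, one_smul]
  refine ⟨Finsupp.linearCombination ℤ u, fun t x hx => ⟨?_, ?_⟩⟩
  · refine E_ind A (Finsupp.linearCombination ℤ u) (W t j) (fun c hc hd => ?_) x hx
    rw [hL]
    exact hW c t hc j (hu c hd).1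
  · refine E_ext A (bB ∘ₗ Finsupp.linearCombination ℤ u) ψ (fun c _ hd => ?_) x hx
    rw [LinearMap.comp_apply, hL]
    exact (hu c hd).2

theorem lift_H {D B : Type*} [AddCommGroup B] (A : Bas D) (n N : ℕ) (hN : 0 < N)
    (bB : B →ₗ[ℤ] B) (hb : ∀ x, bB (bB x) = 0)
    (W : D → ℕ → Submodule ℤ B) (hW : ∀ a b, A.le a b → ∀ i, W a i ≤ W b i) (k : ℕ)
    (hac : ∀ t, ∀ i ≤ n, ∀ z ∈ W t (i + k), bB z = 0 → ∃ y ∈ W t (i + k + 1), bB y = z) :
    Lft Set.univ (HZ A n N) (bdH A) W bB n k := by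
  intro e he θ hC hB
  have hcell : ∀ c : D, ∀ d : ℕ, A.dim c = d → single c (1 : ℤ) ∈ A.E c d :=
    fun c d hd => E_single A (A.le_refl c) hd
  obtain ⟨LA, hLA1, hLA2⟩ := lift_cells A Set.univ (fun _ _ _ _ => Set.mem_univ _) bB hb W
    (fun a b _ hab => hW a b hab) n k (fun c _ hd z hz hz0 => hac c (A.dim c) hd z hz hz0) e he
    (θ ∘ₗ LinearMap.inl ℤ (D →₀ ℤ) ((ℕ → (D →₀ ℤ)) × (D →₀ ℤ)))
    (fun j hj i hi a ha => hC j hj i hi _ (inl_mem A n N ha))
    (fun j hj i hi a ha => by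
      have h1 := hB j hj i hi _ (inl_mem A n N ha)
      rw [bdH_inl] at h1
      exact h1)
  have hA : ∀ t : D, ∀ i ≤ n, ∀ a ∈ A.E t i, θ ((a, 0, 0) : M D) = bB (LA a) + e • LA (A.bd a) :=
    fun t i hi a ha => hLA2 t (Set.mem_univ _) i hi a ha
  have hbeta : ∀ m : ℕ, ∃ L : (D →₀ ℤ) →ₗ[ℤ] B, m < N - 1 → ∀ t, ∀ x ∈ A.E t (n + 1),
      L x ∈ W t (n + k + 1) ∧ bB (L x) = θ (beta N m x) := by
    intro m
    by_cases hm : m < N - 1
    · obtain ⟨L, hL⟩ := alg3_gen A bB W hW (n + 1) (n + k + 1) (θ ∘ₗ beta N m) (by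
        intro c hc
        have h1 := beta_mem A n N hN hm (hcell c (n + 1) hc)
        refine hac c n le_rfl _ (hC c (Set.mem_univ _) n le_rfl _ h1) ?_
        rw [LinearMap.comp_apply, hB c (Set.mem_univ _) n le_rfl _ h1, bdH_beta, map_zero, smul_zero])
      exact ⟨L, fun _ => hL⟩
    · exact ⟨0, fun h => absurd h hm⟩
  choose LB hLB using hbeta
  obtain ⟨LC, hLC⟩ := alg3_gen A bB W hW (n + 2) (n + k + 1) (θ ∘ₗ gamma A N) (by
    intro c hc
    have h1 := gamma_mem A n N hN (hcell c (n + 2) hc)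
    refine hac c n le_rfl _ (hC c (Set.mem_univ _) n le_rfl _ h1) ?_
    rw [LinearMap.comp_apply, hB c (Set.mem_univ _) n le_rfl _ h1, bdH_gamma, map_zero, smul_zero])
  refine ⟨mkH N LA LB LC, ?_, ?_⟩
  · intro j hj i hi x hx
    by_cases hin : i = n
    · subst hin
      obtain ⟨h1, -, -, h4, h5⟩ := hx
      simp only [if_true] at h4 h5
      show LA x.1 + ∑ m ∈ Finset.range (N - 1), LB m (x.2.1 m) + LC x.2.2 ∈ W j (i + (k + 1))
      refine Submodule.add_mem _ (Submodule.add_mem _ (hLA1 j hj i hi x.1 h1)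
        (Submodule.sum_mem _ fun m hm => ?_)) ?_
      · exact (hLB m (Finset.mem_range.1 hm) j (x.2.1 m) (h4 m)).1
      · exact (hLC j x.2.2 h5).1
    · have hx0 := HZ_low A n N hin hx
      rw [hx0, mkH_inl]
      exact hLA1 j hj i hi x.1 hx.1
  · intro j hj i hi x hx
    by_cases hin : i = n
    · subst hin
      have hd := HZ_decomp A i N hN hx
      obtain ⟨h1, -, -, h4, h5⟩ := hx
      simp only [if_true] at h4 h5
      have e1 : θ x = θ ((x.1, 0, 0) : M D) + ∑ m ∈ Finset.range (N - 1), θ (beta N m (x.2.1 m)) +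
          θ (gamma A N x.2.2) := by
        rw [← map_sum, ← map_add, ← map_add]
        exact congrArg θ hd
      have e2 : ∑ m ∈ Finset.range (N - 1), θ (beta N m (x.2.1 m)) =
          ∑ m ∈ Finset.range (N - 1), bB (LB m (x.2.1 m)) :=
        Finset.sum_congr rfl fun m hm => ((hLB m (Finset.mem_range.1 hm) j (x.2.1 m) (h4 m)).2).symm
      have e3 : bB (LC x.2.2) = θ (gamma A N x.2.2) := (hLC j x.2.2 h5).2
      have e4 : bdH A x = ((A.bd x.1, 0, 0) : M D) := rfl
      have e5 : mkH N LA LB LC x =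
          LA x.1 + ∑ m ∈ Finset.range (N - 1), LB m (x.2.1 m) + LC x.2.2 := rfl
      rw [e1, e2, hA j i hi x.1 h1, e4, mkH_inl, e5, map_add, map_add, map_sum, e3]
      abel
    · have hx0 := HZ_low A n N hin hx
      have h1 := hA j i hi x.1 hx.1
      rw [hx0, mkH_inl, bdH_inl, mkH_inl]
      exact h1

end ALG
end AGE
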