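import Pool.Agent.AGE.ALG2

/-!
# AGE-ALG4 (helper87): the chain map `G : H → B` over the canonical maps

`alg4_GA` constructs the component on the chains `(a, 0, 0)` by induction on the dimension of the cells, `alg4_GB` the components on the
generators `beta`; `G = mkH N GA GB 0`.
-/

set_option autoImplicit false

noncomputable section

namespace AGE
namespace ALG

open Finsupp

section aux
variable {D B : Type*} [AddCommGroup B]

private theorem alg4_lc (v : D → B) (c : D) : Finsupp.linearCombination ℤ v (single c 1) = v c := by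
  rw [Finsupp.linearCombination_single, one_smul]

private theorem alg4_cell {A : Bas D} {n N : ℕ} {τ : Equiv.Perm D}
    {tD tDi : (D →₀ ℤ) →ₗ[ℤ] (D →₀ ℤ)} {bB tB : B →ₗ[ℤ] B} {P : D → ℕ → Submodule ℤ B}
    {pr : ℕ → B →ₗ[ℤ] (D →₀ ℤ)} (hc : Coi A n N τ tD tDi bB tB P pr) (r : ℕ) (hr : r ≤ n)
    (L : (D →₀ ℤ) →ₗ[ℤ] B)
    (hL : ∀ c, A.dim c < r → L (single c 1) ∈ P c (A.dim c) ∧ bB (L (single c 1)) = L (A.bd (single c 1)) ∧
      ∀ g, pr g (L (single c 1)) = single c 1) (c : D) (hd : A.dim c = r) :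
    ∃ y ∈ P c r, bB y = L (A.bd (single c 1)) ∧ ∀ g, pr g y = single c 1 := by
  rcases r with _ | i
  · obtain ⟨y, hy, hp⟩ := hc.sur0 c c (A.le_refl c) hd
    refine ⟨y, hy, ?_, hp⟩
    rw [bd_single_zero A hd, map_zero, hc.Pb0 c y hy]
  · have hb : A.bd (single c 1) ∈ A.E c i := bd_single_mem A hd
    have h1 : L (A.bd (single c 1)) ∈ P c i := by
      refine E_ind A L (P c i) (fun c' hc' hd' => ?_) _ hb
      have h2 := (hL c' (by omega)).1
      rw [hd'] at h2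
      exact hc.Pm c' c hc' i h2
    have h2 : bB (L (A.bd (single c 1))) = 0 := by
      have h3 := E_ext A (bB ∘ₗ L) (L ∘ₗ A.bd) (t := c) (i := i)
        (fun c' _ hd' => (hL c' (by omega)).2.1) _ hb
      have h4 : bB (L (A.bd (single c 1))) = L (A.bd (A.bd (single c 1))) := h3
      rw [h4, A.bd_bd, map_zero]
    have h3 : ∀ g, pr g (L (A.bd (single c 1))) = A.bd (single c 1) := by
      intro g
      exact E_ext A (pr g ∘ₗ L) LinearMap.id (t := c) (i := i)
        (fun c' _ hd' => (hL c' (by omega)).2.2 g) _ hb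
    obtain ⟨y0, hy0, hp0⟩ := hc.sur c (i + 1) hr (Nat.succ_pos i) (fun _ => single c 1) (fun _ => rfl)
      (fun _ => E_single A (A.le_refl c) hd)
    obtain ⟨y1, hy1, hb1, hp1⟩ := hc.acy c i (by omega) (L (A.bd (single c 1)) - bB y0)
      (sub_mem h1 (hc.Pb c i y0 hy0)) (by rw [map_sub, h2, hc.bb, sub_zero])
      (fun g => by rw [map_sub, h3, hc.prb, hp0, sub_self])
    refine ⟨y0 + y1, add_mem hy0 hy1, ?_, fun g => ?_⟩
    · rw [map_add, hb1]
      abel
    · rw [map_add, hp0, hp1, add_zero]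

private theorem alg4_GA {A : Bas D} {n N : ℕ} {τ : Equiv.Perm D}
    {tD tDi : (D →₀ ℤ) →ₗ[ℤ] (D →₀ ℤ)} {bB tB : B →ₗ[ℤ] B} {P : D → ℕ → Submodule ℤ B}
    {pr : ℕ → B →ₗ[ℤ] (D →₀ ℤ)} (hc : Coi A n N τ tD tDi bB tB P pr) (r : ℕ) (hr : r ≤ n + 1) :
    ∃ L : (D →₀ ℤ) →ₗ[ℤ] B,
    (∀ c, A.dim c < r → L (single c 1) ∈ P c (A.dim c) ∧ bB (L (single c 1)) = L (A.bd (single c 1)) ∧
      ∀ g, pr g (L (single c 1)) = single c 1) := by
  induction r with
  | zero => exact ⟨0, fun c hcc => absurd hcc (Nat.not_lt_zero _)⟩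
  | succ r ih =>
    obtain ⟨L, hL⟩ := ih (by omega)
    have hex : ∀ c : D, ∃ y : B, A.dim c = r →
        (y ∈ P c r ∧ bB y = L (A.bd (single c 1)) ∧ ∀ g, pr g y = single c 1) := by
      intro c
      by_cases hd : A.dim c = r
      · obtain ⟨y, h1, h2, h3⟩ := alg4_cell hc r (by omega) L hL c hd
        exact ⟨y, fun _ => ⟨h1, h2, h3⟩⟩
      · exact ⟨0, fun h => absurd h hd⟩
    choose y hy using hex
    have hv : ∀ c, Finsupp.linearCombination ℤ (fun c => if A.dim c = r then y c else L (single c 1))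
        (single c 1) = if A.dim c = r then y c else L (single c 1) := fun c => alg4_lc _ c
    have hlow : ∀ i, i < r → ∀ c, ∀ x ∈ A.E c i, Finsupp.linearCombination ℤ
        (fun c => if A.dim c = r then y c else L (single c 1)) x = L x := by
      intro i hi c
      refine E_ext A _ L (fun c' _ hd' => ?_)
      rw [hv, if_neg (by omega)]
    have hbd : ∀ c, A.dim c ≤ r → Finsupp.linearCombination ℤ
        (fun c => if A.dim c = r then y c else L (single c 1)) (A.bd (single c 1)) =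
        L (A.bd (single c 1)) := by
      intro c hcr
      rcases Nat.eq_zero_or_pos (A.dim c) with h0 | h0
      · rw [bd_single_zero A h0, map_zero, map_zero]
      · exact hlow (A.dim c - 1) (by omega) c _ (bd_single_mem A (by omega))
    refine ⟨Finsupp.linearCombination ℤ (fun c => if A.dim c = r then y c else L (single c 1)),
      fun c hcr => ?_⟩
    rw [hbd c (by omega), hv]
    by_cases hd : A.dim c = r
    · rw [if_pos hd, hd]
      exact hy c hd
    · rw [if_neg hd]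
      exact hL c (by omega)

private theorem alg4_shift {X : Type*} [AddCommGroup X] {d : ℕ → X} {N : ℕ} (h : ∀ m, d (m + N) = d m)
    (g : ℕ) : ∑ j ∈ Finset.range N, d (g + j) = ∑ j ∈ Finset.range N, d j := by
  induction g with
  | zero => simp
  | succ g ih =>
    have h1 : ∑ j ∈ Finset.range (N + 1), d (g + j) = ∑ j ∈ Finset.range N, d (g + j) + d (g + N) :=
      Finset.sum_range_succ _ _
    have h2 : ∑ j ∈ Finset.range (N + 1), d (g + j) =
        ∑ j ∈ Finset.range N, d (g + (j + 1)) + d (g + 0) := Finset.sum_range_succ' _ _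
    have h3 : ∑ j ∈ Finset.range N, d (g + 1 + j) = ∑ j ∈ Finset.range N, d (g + (j + 1)) :=
      Finset.sum_congr rfl fun j _ => by rw [Nat.add_assoc, Nat.add_comm 1 j]
    rw [h3, ← ih]
    rw [h1, h, Nat.add_zero] at h2
    exact (add_right_cancel h2).symm

private theorem alg4_can_per (A : Bas D) (n N : ℕ) {t : D} {i : ℕ} {x : M D} (hx : x ∈ HZ A n N t i)
    (g : ℕ) : can A (g + N) x = can A g x := by
  obtain ⟨h1, h2, h3, h4, h5⟩ := hx
  show x.1 + A.bd (∑ m ∈ Finset.range (g + N), x.2.1 m) = x.1 + A.bd (∑ m ∈ Finset.range g, x.2.1 m)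
  rw [Finset.sum_range_add, alg4_shift h2, h3, map_add, A.bd_bd, add_zero]

private theorem alg4_bd_can (A : Bas D) (N m g : ℕ) (y : D →₀ ℤ) : A.bd (can A g (beta N m y)) = 0 := by
  show A.bd ((0 : D →₀ ℤ) + A.bd (∑ j ∈ Finset.range g, (if j % N = m then y else
    if j % N = N - 1 then -y else 0))) = 0
  rw [zero_add, A.bd_bd]

private theorem alg4_GB {A : Bas D} {n N : ℕ} {τ : Equiv.Perm D}
    {tD tDi : (D →₀ ℤ) →ₗ[ℤ] (D →₀ ℤ)} {bB tB : B →ₗ[ℤ] B} {P : D → ℕ → Submodule ℤ B}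
    {pr : ℕ → B →ₗ[ℤ] (D →₀ ℤ)} (hc : Coi A n N τ tD tDi bB tB P pr) (m : ℕ) (hm : m < N - 1) :
    ∃ L : (D →₀ ℤ) →ₗ[ℤ] B, ∀ c, A.dim c = n + 1 → L (single c 1) ∈ P c n ∧ bB (L (single c 1)) = 0 ∧
      ∀ g, pr g (L (single c 1)) = can A g (beta N m (single c 1)) := by
  have hex : ∀ c : D, ∃ y : B, A.dim c = n + 1 →
      (y ∈ P c n ∧ bB y = 0 ∧ ∀ g, pr g y = can A g (beta N m (single c 1))) := by
    intro c
    by_cases hd : A.dim c = n + 1
    · have hE : single c (1 : ℤ) ∈ A.E c (n + 1) := E_single A (A.le_refl c) hd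
      obtain ⟨k, hk⟩ : ∃ k, n = k + 1 := ⟨n - 1, by have := hc.n2; omega⟩
      obtain ⟨y0, hy0, hp0⟩ := hc.sur c n le_rfl (by have := hc.n2; omega)
        (fun g => can A g (beta N m (single c 1)))
        (fun g => alg4_can_per A n N (beta_mem A n N hc.N0 hm hE) g)
        (fun g => can_beta_mem A n N g m hE)
      have hb0 : bB y0 ∈ P c k := by
        rw [hk] at hy0
        exact hc.Pb c k y0 hy0
      obtain ⟨y1, hy1, hb1, hp1⟩ := hc.acy c k (by omega) (bB y0) hb0 (hc.bb y0)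
        (fun g => by rw [hc.prb, hp0, alg4_bd_can])
      rw [← hk] at hy1
      refine ⟨y0 - y1, fun _ => ⟨sub_mem hy0 hy1, ?_, fun g => ?_⟩⟩
      · rw [map_sub, hb1, sub_self]
      · rw [map_sub, hp0, hp1, sub_zero]
    · exact ⟨0, fun h => absurd h hd⟩
  choose y hy using hex
  refine ⟨Finsupp.linearCombination ℤ y, fun c hd => ?_⟩
  rw [alg4_lc]
  exact hy c hd

end aux

theorem exists_G {D B : Type*} [AddCommGroup B] (A : Bas D) (n N : ℕ) (τ : Equiv.Perm D)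
    (tD tDi : (D →₀ ℤ) →ₗ[ℤ] (D →₀ ℤ)) (bB tB : B →ₗ[ℤ] B) (P : D → ℕ → Submodule ℤ B)
    (pr : ℕ → B →ₗ[ℤ] (D →₀ ℤ)) (hc : Coi A n N τ tD tDi bB tB P pr) :
    ∃ G : M D →ₗ[ℤ] B, ∀ t, ∀ i ≤ n, ∀ x ∈ HZ A n N t i,
      G x ∈ P t i ∧ bB (G x) = G (bdH A x) ∧ ∀ g, pr g (G x) = can A g x := by
  obtain ⟨GA, hGA⟩ := alg4_GA hc (n + 1) le_rfl
  have hex : ∀ m : ℕ, ∃ L : (D →₀ ℤ) →ₗ[ℤ] B, m < N - 1 → ∀ c, A.dim c = n + 1 →
      L (single c 1) ∈ P c n ∧ bB (L (single c 1)) = 0 ∧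
      ∀ g, pr g (L (single c 1)) = can A g (beta N m (single c 1)) := by
    intro m
    by_cases hm : m < N - 1
    · obtain ⟨L, hL⟩ := alg4_GB hc m hm
      exact ⟨L, fun _ => hL⟩
    · exact ⟨0, fun h => absurd h hm⟩
  choose GB hGB using hex
  have A1 : ∀ t, ∀ i ≤ n, ∀ x ∈ A.E t i, GA x ∈ P t i := fun t i hi =>
    E_ind A GA (P t i) fun c hct hd => by
      have h1 := (hGA c (by omega)).1
      rw [hd] at h1
      exact hc.Pm c t hct i h1
  have A2 : ∀ t, ∀ i ≤ n, ∀ x ∈ A.E t i, bB (GA x) = GA (A.bd x) := fun t i hi =>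
    E_ext A (bB ∘ₗ GA) (GA ∘ₗ A.bd) fun c _ hd => (hGA c (by omega)).2.1
  have A3 : ∀ t, ∀ i ≤ n, ∀ x ∈ A.E t i, ∀ g, pr g (GA x) = x := fun t i hi x hx g =>
    E_ext A (pr g ∘ₗ GA) LinearMap.id (fun c _ hd => (hGA c (by omega)).2.2 g) x hx
  have B1 : ∀ m, m < N - 1 → ∀ t, ∀ x ∈ A.E t (n + 1), GB m x ∈ P t n := fun m hm t =>
    E_ind A (GB m) (P t n) fun c hct hd => hc.Pm c t hct n (hGB m hm c hd).1
  have B2 : ∀ m, m < N - 1 → ∀ t, ∀ x ∈ A.E t (n + 1), bB (GB m x) = 0 := fun m hm t =>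
    E_ext A (bB ∘ₗ GB m) 0 fun c _ hd => (hGB m hm c hd).2.1
  have B3 : ∀ m, m < N - 1 → ∀ t, ∀ x ∈ A.E t (n + 1), ∀ g, pr g (GB m x) = can A g (beta N m x) :=
    fun m hm t x hx g =>
    E_ext A (pr g ∘ₗ GB m) (can A g ∘ₗ beta N m) (fun c _ hd => (hGB m hm c hd).2.2 g) x hx
  refine ⟨mkH N GA GB 0, fun t i hi x hx => ?_⟩
  have hbd : mkH N GA GB 0 (bdH A x) = GA (A.bd x.1) := mkH_inl N GA GB 0 (A.bd x.1)
  rw [hbd]
  have hx1 : x.1 ∈ A.E t i := hx.1
  by_cases hin : i = n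
  · subst hin
    have hG : mkH N GA GB 0 x = GA x.1 + ∑ m ∈ Finset.range (N - 1), GB m (x.2.1 m) := by
      show GA x.1 + ∑ m ∈ Finset.range (N - 1), GB m (x.2.1 m) + 0 = _
      rw [add_zero]
    have hd : ∀ m, x.2.1 m ∈ A.E t (i + 1) := by
      intro m
      have := hx.2.2.2.1 m
      rwa [if_pos rfl] at this
    rw [hG]
    refine ⟨add_mem (A1 t i hi _ hx1) (Submodule.sum_mem _ fun m hm =>
      B1 m (Finset.mem_range.1 hm) t _ (hd m)), ?_, fun g => ?_⟩
    · rw [map_add, map_sum, A2 t i hi _ hx1, Finset.sum_eq_zero fun m hm =>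
        B2 m (Finset.mem_range.1 hm) t _ (hd m), add_zero]
    · have hdec := HZ_decomp A i N hc.N0 hx
      have h1 : can A g x = x.1 + ∑ m ∈ Finset.range (N - 1), can A g (beta N m (x.2.1 m)) := by
        conv_lhs => rw [hdec]
        rw [map_add, map_add, map_sum, can_inl, can_gamma, add_zero]
      rw [h1, map_add, map_sum, A3 t i hi _ hx1 g]
      refine congrArg (fun z => x.1 + z) (Finset.sum_congr rfl fun m hm => ?_)
      exact B3 m (Finset.mem_range.1 hm) t _ (hd m) g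
  · have hlow := HZ_low A n N hin hx
    have hG : mkH N GA GB 0 x = GA x.1 := by
      conv_lhs => rw [hlow]
      exact mkH_inl N GA GB 0 x.1
    have hcan : ∀ g, can A g x = x.1 := by
      intro g
      conv_lhs => rw [hlow]
      exact can_inl A g x.1
    rw [hG]
    exact ⟨A1 t i hi _ hx1, A2 t i hi _ hx1, fun g => by rw [hcan, A3 t i hi _ hx1 g]⟩

end ALG
end AGE
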