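import Pool.Agent.AGE.ALG0

/-!
# AGE-ALG5 (helper87): facts on `bdH`, `can` and `Xi` on the complex `H`

Componentwise computations: `bdH` is a differential of `H` which commutes with `can g` and with `Xi`; `can g` is `N`-periodic in `g`; the powers of `Xi`
are explicit and `Xi ^ N` is the identity of `H`.
-/

set_option autoImplicit false

noncomputable section

namespace AGE
namespace ALG

open Finsupp

variable {D : Type*} (A : Bas D) (n N : ℕ) (τ : Equiv.Perm D) (tD tDi : (D →₀ ℤ) →ₗ[ℤ] (D →₀ ℤ))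

private theorem alg5_bdH (x : M D) : bdH A x = (A.bd x.1, 0, 0) := rfl

private theorem alg5_can (g : ℕ) (x : M D) :
    can A g x = x.1 + A.bd (∑ m ∈ Finset.range g, x.2.1 m) := rfl

private theorem alg5_Xi (x : M D) :
    Xi A tDi x = (tDi (x.1 + A.bd (x.2.1 0)), fun m => tDi (x.2.1 (m + 1)), tDi x.2.2) := rfl

private theorem alg5_HZ {t : D} {i : ℕ} {x : M D} : x ∈ HZ A n N t i ↔
    (x.1 ∈ A.E t i ∧ (∀ m, x.2.1 (m + N) = x.2.1 m) ∧ ∑ m ∈ Finset.range N, x.2.1 m = A.bd x.2.2 ∧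
    (∀ m, x.2.1 m ∈ if i = n then A.E t (n + 1) else ⊥) ∧ x.2.2 ∈ if i = n then A.E t (n + 2) else ⊥) :=
  Iff.rfl

private theorem alg5_shift {B : Type*} [AddCommGroup B] (d : ℕ → B) (g : ℕ) (h : d (g + N) = d g) :
    ∑ m ∈ Finset.range N, d (g + 1 + m) = ∑ m ∈ Finset.range N, d (g + m) := by
  have h1 : ∑ m ∈ Finset.range (N + 1), d (g + m) = ∑ m ∈ Finset.range N, d (g + m) + d (g + N) :=
    Finset.sum_range_succ _ _
  have h2 : ∑ m ∈ Finset.range (N + 1), d (g + m) =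
      ∑ m ∈ Finset.range N, d (g + (m + 1)) + d (g + 0) := Finset.sum_range_succ' _ _
  have h3 : ∑ m ∈ Finset.range N, d (g + (m + 1)) = ∑ m ∈ Finset.range N, d (g + 1 + m) :=
    Finset.sum_congr rfl fun m _ => by rw [show g + (m + 1) = g + 1 + m by omega]
  rw [add_zero] at h2
  rw [h3, h1, h] at h2
  exact (add_right_cancel h2).symm

private theorem alg5_per {B : Type*} [AddCommGroup B] (d : ℕ → B) (h : ∀ m, d (m + N) = d m) (g : ℕ) :
    ∑ m ∈ Finset.range N, d (g + m) = ∑ m ∈ Finset.range N, d m := by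
  induction g with
  | zero => exact Finset.sum_congr rfl fun m _ => by rw [zero_add]
  | succ g ih => rw [alg5_shift N d g (h g), ih]

private theorem alg5_pow (hib : ∀ x, tDi (A.bd x) = A.bd (tDi x)) (k : ℕ) (x : D →₀ ℤ) :
    (tDi ^ k) (A.bd x) = A.bd ((tDi ^ k) x) := by
  induction k with
  | zero => simp
  | succ k ih =>
    rw [pow_succ', Module.End.mul_apply, Module.End.mul_apply, ih, hib]

private theorem alg5_bdsum {t : D} {i : ℕ} {x : M D} (hx : x ∈ HZ A n N t i) (s : Finset ℕ) :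
    A.bd (∑ m ∈ s, x.2.1 m) ∈ A.E t i := by
  have h4 := ((alg5_HZ A n N).1 hx).2.2.2.1
  by_cases hi : i = n
  · subst hi
    refine bd_E A _ (Submodule.sum_mem _ fun m _ => ?_)
    have := h4 m
    rwa [if_pos rfl] at this
  · have h0 : ∑ m ∈ s, x.2.1 m = 0 := by
      refine Finset.sum_eq_zero fun m _ => ?_
      have := h4 m
      rwa [if_neg hi, Submodule.mem_bot] at this
    rw [h0, map_zero]
    exact Submodule.zero_mem _

theorem bdH_bdH (x : M D) : bdH A (bdH A x) = 0 := by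
  rw [alg5_bdH, alg5_bdH]
  exact Prod.ext (A.bd_bd _) rfl

theorem bdH_mem {t : D} {i : ℕ} {x : M D} (hx : x ∈ HZ A n N t (i + 1)) : bdH A x ∈ HZ A n N t i := by
  rw [alg5_bdH, alg5_HZ]
  refine ⟨bd_E A _ hx.1, fun m => rfl, ?_, fun m => Submodule.zero_mem _, Submodule.zero_mem _⟩
  simp

theorem bdH_zero {t : D} {x : M D} (hx : x ∈ HZ A n N t 0) : bdH A x = 0 := by
  rw [alg5_bdH]
  exact Prod.ext (bd_E0 A _ hx.1) rfl

theorem can_bdH (g : ℕ) (x : M D) : can A g (bdH A x) = A.bd (can A g x) := by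
  rw [alg5_bdH, alg5_can, alg5_can, map_add, A.bd_bd]
  simp

theorem can_mem (g : ℕ) {t : D} {i : ℕ} {x : M D} (hx : x ∈ HZ A n N t i) : can A g x ∈ A.E t i := by
  rw [alg5_can]
  exact Submodule.add_mem _ hx.1 (alg5_bdsum A n N hx _)

theorem can_period (g : ℕ) {t : D} {i : ℕ} {x : M D} (hx : x ∈ HZ A n N t i) :
    can A (g + N) x = can A g x := by
  obtain ⟨_, h2, h3, _, _⟩ := (alg5_HZ A n N).1 hx
  rw [alg5_can, alg5_can, Finset.sum_range_add, alg5_per N x.2.1 h2 g, h3, map_add, A.bd_bd, add_zero]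

theorem Xi_mem (hiE : ∀ t i, ∀ x ∈ A.E (τ t) i, tDi x ∈ A.E t i) (hib : ∀ x, tDi (A.bd x) = A.bd (tDi x))
    {t : D} {i : ℕ} {x : M D} (hx : x ∈ HZ A n N (τ t) i) : Xi A tDi x ∈ HZ A n N t i := by
  obtain ⟨h1, h2, h3, h4, h5⟩ := (alg5_HZ A n N).1 hx
  rw [alg5_Xi, alg5_HZ]
  refine ⟨hiE _ _ _ (Submodule.add_mem _ h1 ?_), fun m => ?_, ?_, fun m => ?_, ?_⟩
  · have := alg5_bdsum A n N hx {0}
    rwa [Finset.sum_singleton] at this
  · change tDi (x.2.1 (m + N + 1)) = tDi (x.2.1 (m + 1))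
    rw [show m + N + 1 = (m + 1) + N by omega, h2]
  · change ∑ m ∈ Finset.range N, tDi (x.2.1 (m + 1)) = A.bd (tDi x.2.2)
    have e1 : ∑ m ∈ Finset.range N, x.2.1 (m + 1) = ∑ m ∈ Finset.range N, x.2.1 m := by
      rw [← alg5_per N x.2.1 h2 1]
      exact Finset.sum_congr rfl fun m _ => by rw [add_comm]
    rw [← map_sum, e1, h3, hib]
  · change tDi (x.2.1 (m + 1)) ∈ _
    have h6 := h4 (m + 1)
    by_cases hi : i = n
    · rw [if_pos hi] at h6 ⊢
      exact hiE _ _ _ h6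
    · rw [if_neg hi, Submodule.mem_bot] at h6 ⊢
      rw [h6, map_zero]
  · change tDi x.2.2 ∈ _
    by_cases hi : i = n
    · rw [if_pos hi] at h5 ⊢
      exact hiE _ _ _ h5
    · rw [if_neg hi, Submodule.mem_bot] at h5 ⊢
      rw [h5, map_zero]

theorem Xi_bdH (hib : ∀ x, tDi (A.bd x) = A.bd (tDi x)) (x : M D) :
    Xi A tDi (bdH A x) = bdH A (Xi A tDi x) := by
  rw [alg5_bdH, alg5_bdH, alg5_Xi, alg5_Xi]
  refine Prod.ext ?_ (Prod.ext ?_ ?_)
  · change tDi (A.bd x.1 + A.bd ((0 : ℕ → (D →₀ ℤ)) 0)) = A.bd (tDi (x.1 + A.bd (x.2.1 0)))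
    rw [← hib, map_add A.bd x.1, A.bd_bd, Pi.zero_apply, map_zero]
  · funext m
    exact map_zero tDi
  · exact map_zero tDi

theorem Xi_pow_apply (hib : ∀ x, tDi (A.bd x) = A.bd (tDi x)) (k : ℕ) (x : M D) :
    ((Xi A tDi) ^ k) x = ((tDi ^ k) (x.1 + A.bd (∑ m ∈ Finset.range k, x.2.1 m)),
      fun m => (tDi ^ k) (x.2.1 (m + k)), (tDi ^ k) x.2.2) := by
  induction k with
  | zero => simp
  | succ k ih =>
    rw [pow_succ', Module.End.mul_apply, ih, alg5_Xi]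
    refine Prod.ext ?_ (Prod.ext ?_ ?_)
    · change tDi ((tDi ^ k) (x.1 + A.bd (∑ m ∈ Finset.range k, x.2.1 m)) +
        A.bd ((tDi ^ k) (x.2.1 (0 + k)))) = (tDi ^ (k + 1)) (x.1 + A.bd (∑ m ∈ Finset.range (k + 1), x.2.1 m))
      rw [← alg5_pow A tDi hib, ← map_add (tDi ^ k), pow_succ', Module.End.mul_apply, zero_add,
        Finset.sum_range_succ, map_add A.bd (∑ m ∈ Finset.range k, x.2.1 m), add_assoc]
    · funext m
      change tDi ((tDi ^ k) (x.2.1 (m + 1 + k))) = (tDi ^ (k + 1)) (x.2.1 (m + (k + 1)))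
      rw [pow_succ', Module.End.mul_apply, show m + 1 + k = m + (k + 1) by omega]
    · change tDi ((tDi ^ k) x.2.2) = (tDi ^ (k + 1)) x.2.2
      rw [pow_succ', Module.End.mul_apply]

theorem Xi_pow_N (hib : ∀ x, tDi (A.bd x) = A.bd (tDi x)) (hiN : ∀ x, (tDi ^ N) x = x)
    {t : D} {i : ℕ} {x : M D} (hx : x ∈ HZ A n N t i) : ((Xi A tDi) ^ N) x = x := by
  obtain ⟨_, h2, h3, _, _⟩ := (alg5_HZ A n N).1 hx
  rw [Xi_pow_apply A tDi hib, h3, A.bd_bd, add_zero, hiN, hiN]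
  refine Prod.ext rfl (Prod.ext ?_ rfl)
  funext m
  change (tDi ^ N) (x.2.1 (m + N)) = x.2.1 m
  rw [hiN, h2]

theorem can_Xi (hib : ∀ x, tDi (A.bd x) = A.bd (tDi x)) (hDi : ∀ x, tD (tDi x) = x) (g : ℕ) (x : M D) :
    tD (can A g (Xi A tDi x)) = can A (g + 1) x := by
  rw [alg5_can, alg5_can, alg5_Xi]
  change tD (tDi (x.1 + A.bd (x.2.1 0)) + A.bd (∑ m ∈ Finset.range g, tDi (x.2.1 (m + 1)))) =
    x.1 + A.bd (∑ m ∈ Finset.range (g + 1), x.2.1 m)
  rw [← map_sum, ← hib, ← map_add tDi, hDi, Finset.sum_range_succ', map_add A.bd, add_assoc,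
    add_comm (A.bd (x.2.1 0))]

end ALG
end AGE
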