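import Pool.Agent.AGE.ALG0

/-!
# AGE-ALG7 (helper87): the map `kappa : K → H`

`kappa E N tC tD φ lam xi x = (h x, fun m => (con^m D) x, - nrm xi x)` with `h = φ + bd lam` (`hmap`), `D = con lam - lam - bd xi` (`Dmap`); all definitions in ALG0.
FACTS used again and again, for `c ∈ K`, `x ∈ A.E c i`:
 (F1) `(tC^r) x ∈ A.E (σ^{-r} c) i` and `σ^{-r} c ∈ K` (`hA.tE`, `hA.inv`, induction on `r`);
 (F2) `(con^r a) x = (tD^r) (a ((tC^r) x))` (`con_pow_apply`); if `a` maps `A.E c i` into `E.E (s c) i'` for all `c ∈ K` then so does `con^r a` (`hDE`, `hs.equ`: `s (σ c) = τ (s c)`);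
 (F3) `con^N a = a` (`con_pow_apply`, `hA.tN`, `hDN`), for every `a`; hence `nrm (con a - a) = 0` (`Finset.sum_range_sub`) and `con (nrm a) = nrm a`
      (`con (nrm a) - nrm a = con^N a - a`).
PLAN.
(K1) for `i ≤ n`, `x ∈ A.E c i`: `h x ∈ E.E (s c) i`: `φ x` by `phC`; `bd (lam x)` is 0 if `i ≠ n` (`la0`), in `E.E (s c) n` if `i = n` (`laC`, `bd_E`).  Periodicity: (F3).
     `∑_{m<N} con^m D = nrm (con lam - lam) - nrm (bd ∘ xi) = - bd ∘ (nrm xi)` (tD commutes with bd: `hDb`).  Membership: (F2), `D x ∈ E.E (s c) (n+1)` if `i = n`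
     (`xi x ∈ E (n+2)`, `bd_E`), `D x = 0` if `i ≠ n`, and `nrm xi x ∈ E.E (s c) (n+2)` resp. `= 0`.
(K2) `i ≤ n`: first component: `h (bd x) = bd (h x)`: for `i = 0` both are 0 (`bd_E0`, `phB`).  For `i = i' + 1`: `bd x ∈ A.E c i'`, `i' ≠ n`, so `lam (bd x) = 0`, `φ (bd x) = bd (φ x)`, `bd (bd _) = 0`.
     Other components of `kappa (bd x)` are 0: `D`, `xi` vanish on `A.E c i'`, `i' ≠ n` (and on all `(tC^m) (bd x)`: (F1)).
(K3) `i ≤ n`: `kappa (tC x) = Xi E tDi (kappa x)`.  `(con^m D) (tC x) = (tD^m) (D ((tC^m) (tC x))) = tDi ((tD^(m+1)) (D ((tC^(m+1)) x))) = tDi ((con^(m+1) D) x)` (`hiD`).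
     `h (tC x) = tDi (con h x)` and `con h x = h x + bd (D x)`: `con φ x = φ x` (`phT`), `con (bd ∘ lam) = bd ∘ con lam` (`hDb`), `bd (D x) = bd (con lam x) - bd (lam x) - 0`.
     `(nrm xi) (tC x) = tDi (con (nrm xi) x) = tDi (nrm xi x)` (F3).
(K4) `can E g (kappa x) = h x + bd (∑_{m<g} (con^m D) x) = (con^g h) x`: induction on `g`: `con^(g+1) h x = (con^g (con h)) x`, and `con h = h + bd D` on `(tC^g) x`.
(K5) `x ∈ A.E c (n+1)`, `y = bd x ∈ A.E c n`: `h y = φ (bd x) + bd (lam (bd x)) = bd (φ x + lam (bd x)) = bd (bd (nu x)) = 0` (`phB`, `eqE`).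
     `D (bd x') = 0` for all `c' ∈ K`, `x' ∈ A.E c' (n+1)`: `con lam (bd x') - lam (bd x') = con (lam ∘ bd) x' - ..` (`tC` commutes with `bd`), `lam (bd x') = bd (nu x') - φ x'`,
     `con φ = φ`, so it is `bd (con nu x' - nu x') = bd (xi (bd x'))`.  Then `(con^m D) (bd x) = (tD^m) (D (bd ((tC^m) x))) = 0` by (F1).
     `nrm xi (bd x) = ∑_r (tD^r) (xi (bd ((tC^r) x))) = ∑_r (tD^r) ((con nu - nu) ((tC^r) x)) = (con^N nu - nu) x = 0`.
-/

set_option autoImplicit false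

noncomputable section

namespace AGE
namespace ALG

open Finsupp

section aux
variable {C D : Type*}

private theorem alg7_conN {N : ℕ} {tC : (C →₀ ℤ) →ₗ[ℤ] (C →₀ ℤ)} {tD : (D →₀ ℤ) →ₗ[ℤ] (D →₀ ℤ)}
    (hC : ∀ x, (tC ^ N) x = x) (hD : ∀ x, (tD ^ N) x = x) (a : (C →₀ ℤ) →ₗ[ℤ] (D →₀ ℤ)) :
    ((con tD tC) ^ N) a = a :=
  LinearMap.ext fun x => by rw [con_pow_apply, hC, hD]

private theorem alg7_nrm_eq (N : ℕ) (tC : (C →₀ ℤ) →ₗ[ℤ] (C →₀ ℤ)) (tD : (D →₀ ℤ) →ₗ[ℤ] (D →₀ ℤ))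
    (a : (C →₀ ℤ) →ₗ[ℤ] (D →₀ ℤ)) :
    nrm N tD tC a = ∑ i ∈ Finset.range N, ((con tD tC) ^ i) a := by
  unfold nrm
  rw [LinearMap.sum_apply]

private theorem alg7_nrm_sub {N : ℕ} {tC : (C →₀ ℤ) →ₗ[ℤ] (C →₀ ℤ)} {tD : (D →₀ ℤ) →ₗ[ℤ] (D →₀ ℤ)}
    (hC : ∀ x, (tC ^ N) x = x) (hD : ∀ x, (tD ^ N) x = x) (a : (C →₀ ℤ) →ₗ[ℤ] (D →₀ ℤ)) :
    nrm N tD tC (con tD tC a - a) = 0 := by
  rw [alg7_nrm_eq]
  have h1 : ∀ i ∈ Finset.range N, ((con tD tC) ^ i) (con tD tC a - a) =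
      ((con tD tC) ^ (i + 1)) a - ((con tD tC) ^ i) a := by
    intro i _
    rw [map_sub, pow_succ]
    rfl
  rw [Finset.sum_congr rfl h1, Finset.sum_range_sub (fun i => ((con tD tC) ^ i) a),
    alg7_conN hC hD, pow_zero]
  exact sub_self a

private theorem alg7_con_nrm {N : ℕ} {tC : (C →₀ ℤ) →ₗ[ℤ] (C →₀ ℤ)} {tD : (D →₀ ℤ) →ₗ[ℤ] (D →₀ ℤ)}
    (hC : ∀ x, (tC ^ N) x = x) (hD : ∀ x, (tD ^ N) x = x) (a : (C →₀ ℤ) →ₗ[ℤ] (D →₀ ℤ)) :
    con tD tC (nrm N tD tC a) = nrm N tD tC a := by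
  have h1 := alg7_nrm_sub hC hD a
  rw [map_sub, sub_eq_zero] at h1
  refine Eq.trans ?_ h1
  rw [alg7_nrm_eq, alg7_nrm_eq, map_sum]
  refine Finset.sum_congr rfl fun i _ => ?_
  have h2 : con tD tC (((con tD tC) ^ i) a) = ((con tD tC) * (con tD tC) ^ i) a := rfl
  have h3 : ((con tD tC) ^ i) (con tD tC a) = ((con tD tC) ^ i * (con tD tC)) a := rfl
  rw [h2, h3, ← pow_succ', ← pow_succ]

private theorem alg7_con_succ (tC : (C →₀ ℤ) →ₗ[ℤ] (C →₀ ℤ)) (tD : (D →₀ ℤ) →ₗ[ℤ] (D →₀ ℤ))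
    (a : (C →₀ ℤ) →ₗ[ℤ] (D →₀ ℤ)) (m : ℕ) (x : C →₀ ℤ) :
    ((con tD tC) ^ (m + 1)) a x = tD (((con tD tC) ^ m) a (tC x)) := by
  rw [pow_succ']
  rfl

private theorem alg7_pow_bd {D : Type*} (E : Bas D) (t : (D →₀ ℤ) →ₗ[ℤ] (D →₀ ℤ))
    (h : ∀ x, t (E.bd x) = E.bd (t x)) (r : ℕ) : ∀ x, (t ^ r) (E.bd x) = E.bd ((t ^ r) x) := by
  induction r with
  | zero => intro x; rfl
  | succ r ih =>
    intro x
    have h1 : ∀ y, (t ^ (r + 1)) y = (t ^ r) (t y) := fun y => by rw [pow_succ]; rfl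
    rw [h1, h1, h, ih]

private theorem alg7_tD {D : Type*} (E : Bas D) (τ : Equiv.Perm D) (t : (D →₀ ℤ) →ₗ[ℤ] (D →₀ ℤ))
    (h : ∀ u i, ∀ x ∈ E.E u i, t x ∈ E.E (τ u) i) (r : ℕ) :
    ∀ u i, ∀ x ∈ E.E u i, (t ^ r) x ∈ E.E ((τ ^ r) u) i := by
  induction r with
  | zero => intro u i x hx; exact hx
  | succ r ih =>
    intro u i x hx
    have h1 : (t ^ (r + 1)) x = t ((t ^ r) x) := by rw [pow_succ']; rfl
    have h2 : (τ ^ (r + 1)) u = τ ((τ ^ r) u) := by rw [pow_succ']; rfl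
    rw [h1, h2]
    exact h _ _ _ (ih u i x hx)

/-- (F1) for one step -/
private theorem alg7_F {A : Bas C} {E : Bas D} {K : Set C} {s : C → D} {N : ℕ}
    {σ : Equiv.Perm C} {τ : Equiv.Perm D} {tC : (C →₀ ℤ) →ₗ[ℤ] (C →₀ ℤ)} (hA : Act A K N σ tC)
    (hs : Ctl A E K s σ τ) {c : C} (hc : c ∈ K) {i : ℕ} {x : C →₀ ℤ} (hx : x ∈ A.E c i) :
    ∃ c' ∈ K, tC x ∈ A.E c' i ∧ τ (s c') = s c := by
  have h1 : σ (σ.symm c) = c := Equiv.apply_symm_apply σ c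
  have h2 : σ.symm c ∈ K := (hA.inv _).2 (by rw [h1]; exact hc)
  refine ⟨σ.symm c, h2, hA.tE _ h2 i x (by rw [h1]; exact hx), ?_⟩
  rw [← hs.equ _ h2, h1]

/-- (F1) -/
private theorem alg7_F1 {A : Bas C} {E : Bas D} {K : Set C} {s : C → D} {N : ℕ}
    {σ : Equiv.Perm C} {τ : Equiv.Perm D} {tC : (C →₀ ℤ) →ₗ[ℤ] (C →₀ ℤ)} (hA : Act A K N σ tC)
    (hs : Ctl A E K s σ τ) (r : ℕ) : ∀ c ∈ K, ∀ i, ∀ x ∈ A.E c i,
    ∃ c' ∈ K, (tC ^ r) x ∈ A.E c' i ∧ (τ ^ r) (s c') = s c := by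
  induction r with
  | zero => intro c hc i x hx; exact ⟨c, hc, hx, rfl⟩
  | succ r ih =>
    intro c hc i x hx
    obtain ⟨c1, hc1, hx1, hs1⟩ := alg7_F hA hs hc hx
    obtain ⟨c2, hc2, hx2, hs2⟩ := ih c1 hc1 i (tC x) hx1
    refine ⟨c2, hc2, ?_, ?_⟩
    · have h1 : (tC ^ (r + 1)) x = (tC ^ r) (tC x) := by rw [pow_succ]; rfl
      rw [h1]
      exact hx2
    · have h1 : (τ ^ (r + 1)) (s c2) = τ ((τ ^ r) (s c2)) := by rw [pow_succ']; rfl
      rw [h1, hs2, hs1]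

end aux

theorem kappa_spec {C D : Type*} (A : Bas C) (E : Bas D) (K : Set C) (s : C → D) (n N : ℕ)
    (σ : Equiv.Perm C) (τ : Equiv.Perm D) (tC : (C →₀ ℤ) →ₗ[ℤ] (C →₀ ℤ))
    (tD tDi : (D →₀ ℤ) →ₗ[ℤ] (D →₀ ℤ)) (hA : Act A K N σ tC) (hs : Ctl A E K s σ τ)
    (hiD : ∀ x, tDi (tD x) = x) (hDb : ∀ x, tD (E.bd x) = E.bd (tD x)) (hDN : ∀ x, (tD ^ N) x = x)
    (hDE : ∀ t i, ∀ x ∈ E.E t i, tD x ∈ E.E (τ t) i)
    (φ lam nu xi : (C →₀ ℤ) →ₗ[ℤ] (D →₀ ℤ)) (hd : DatA A E K s n tC tD φ lam nu xi) :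
    (∀ c ∈ K, ∀ i ≤ n, ∀ x ∈ A.E c i, kappa E N tC tD φ lam xi x ∈ HZ E n N (s c) i ∧
      kappa E N tC tD φ lam xi (A.bd x) = bdH E (kappa E N tC tD φ lam xi x) ∧
      kappa E N tC tD φ lam xi (tC x) = Xi E tDi (kappa E N tC tD φ lam xi x) ∧
      ∀ g, can E g (kappa E N tC tD φ lam xi x) = ((con tD tC) ^ g) (hmap E φ lam) x) ∧
    (∀ c ∈ K, ∀ x ∈ A.E c (n + 1), kappa E N tC tD φ lam xi (A.bd x) = 0) := by
  have hD1 : ∀ x, Dmap E tC tD lam xi x = tD (lam (tC x)) - lam x - E.bd (xi x) := fun x => rfl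
  have hh1 : ∀ x, hmap E φ lam x = φ x + E.bd (lam x) := fun x => rfl
  -- `D` on the chains of degree `n` and of other degrees
  have hDn : ∀ c ∈ K, ∀ x ∈ A.E c n, Dmap E tC tD lam xi x ∈ E.E (s c) (n + 1) := by
    intro c hc x hx
    obtain ⟨c', hc', hx', hs'⟩ := alg7_F hA hs hc hx
    rw [hD1]
    refine Submodule.sub_mem _ (Submodule.sub_mem _ ?_ (hd.laC c hc x hx))
      (bd_E E _ (hd.xiC c hc x hx))
    have h1 := hDE _ _ _ (hd.laC c' hc' _ hx')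
    rw [hs'] at h1
    exact h1
  have hD0 : ∀ c ∈ K, ∀ i, i ≠ n → ∀ x ∈ A.E c i, Dmap E tC tD lam xi x = 0 := by
    intro c hc i hi x hx
    obtain ⟨c', hc', hx', -⟩ := alg7_F hA hs hc hx
    rw [hD1, hd.la0 c' hc' i hi _ hx', hd.la0 c hc i hi x hx, hd.xi0 c hc i hi x hx]
    simp
  -- transport by powers
  have hpm : ∀ (a : (C →₀ ℤ) →ₗ[ℤ] (D →₀ ℤ)) (i j : ℕ),
      (∀ c ∈ K, ∀ x ∈ A.E c i, a x ∈ E.E (s c) j) →
      ∀ r, ∀ c ∈ K, ∀ x ∈ A.E c i, (tD ^ r) (a ((tC ^ r) x)) ∈ E.E (s c) j := by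
    intro a i j ha r c hc x hx
    obtain ⟨c', hc', hx', hs'⟩ := alg7_F1 hA hs r c hc i x hx
    have h1 := alg7_tD E τ tD hDE r _ _ _ (ha c' hc' _ hx')
    rw [hs'] at h1
    exact h1
  have hpz : ∀ (a : (C →₀ ℤ) →ₗ[ℤ] (D →₀ ℤ)) (i : ℕ),
      (∀ c ∈ K, ∀ x ∈ A.E c i, a x = 0) →
      ∀ r, ∀ c ∈ K, ∀ x ∈ A.E c i, (tD ^ r) (a ((tC ^ r) x)) = 0 := by
    intro a i ha r c hc x hx
    obtain ⟨c', hc', hx', hs'⟩ := alg7_F1 hA hs r c hc i x hx
    rw [ha c' hc' _ hx', map_zero]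
  -- `con h = h + bd D`
  have hconh : ∀ c ∈ K, ∀ i, ∀ x ∈ A.E c i,
      tD (hmap E φ lam (tC x)) = hmap E φ lam x + E.bd (Dmap E tC tD lam xi x) := by
    intro c hc i x hx
    have h1 : tD (φ (tC x)) = φ x := hd.phT c hc i x hx
    rw [hh1, hh1, hD1, map_add, h1, hDb, map_sub, map_sub, E.bd_bd]
    abel
  -- the norm of `D`
  have hnD : ∀ x, ∑ m ∈ Finset.range N, ((con tD tC) ^ m) (Dmap E tC tD lam xi) x =
      E.bd (-(nrm N tD tC xi) x) := by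
    intro x
    have h1 : ∑ m ∈ Finset.range N, ((con tD tC) ^ m) (Dmap E tC tD lam xi) x =
        nrm N tD tC (Dmap E tC tD lam xi) x := by
      rw [alg7_nrm_eq, LinearMap.sum_apply]
    have h2 : nrm N tD tC (Dmap E tC tD lam xi) =
        nrm N tD tC (con tD tC lam - lam) - nrm N tD tC (E.bd ∘ₗ xi) := by
      rw [← map_sub]
      rfl
    rw [h1, h2, alg7_nrm_sub hA.tN hDN, zero_sub, LinearMap.neg_apply, nrm_apply, map_neg, nrm_apply,
      map_sum]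
    refine congrArg Neg.neg (Finset.sum_congr rfl fun i _ => ?_)
    exact alg7_pow_bd E tD hDb i _
  refine ⟨fun c hc i hi x hx => ⟨⟨?_, ?_, ?_, ?_, ?_⟩, ?_, ?_, ?_⟩, fun c hc x hx => ?_⟩
  · -- h x
    change hmap E φ lam x ∈ E.E (s c) i
    rw [hh1]
    refine Submodule.add_mem _ (hd.phC c hc i x hx) ?_
    by_cases hin : i = n
    · subst hin
      exact bd_E E _ (hd.laC c hc x hx)
    · rw [hd.la0 c hc i hin x hx, map_zero]
      exact Submodule.zero_mem _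
  · -- periodicity
    intro m
    change ((con tD tC) ^ (m + N)) (Dmap E tC tD lam xi) x = ((con tD tC) ^ m) (Dmap E tC tD lam xi) x
    rw [pow_add]
    have h1 : ((con tD tC) ^ m * (con tD tC) ^ N) (Dmap E tC tD lam xi) =
        ((con tD tC) ^ m) (((con tD tC) ^ N) (Dmap E tC tD lam xi)) := rfl
    rw [h1, alg7_conN hA.tN hDN]
  · exact hnD x
  · intro m
    change ((con tD tC) ^ m) (Dmap E tC tD lam xi) x ∈ _
    rw [con_pow_apply]
    by_cases hin : i = n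
    · rw [if_pos hin]
      subst hin
      exact hpm _ _ _ hDn m c hc x hx
    · rw [if_neg hin, Submodule.mem_bot]
      exact hpz _ i (fun c hc x hx => hD0 c hc i hin x hx) m c hc x hx
  · change -(nrm N tD tC xi) x ∈ _
    rw [nrm_apply]
    by_cases hin : i = n
    · rw [if_pos hin]
      subst hin
      exact Submodule.neg_mem _ (Submodule.sum_mem _ fun r _ => hpm xi _ _ hd.xiC r c hc x hx)
    · rw [if_neg hin, Submodule.mem_bot, neg_eq_zero]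
      exact Finset.sum_eq_zero fun r _ =>
        hpz xi i (fun c hc x hx => hd.xi0 c hc i hin x hx) r c hc x hx
  · -- boundary
    have hb : lam (A.bd x) = 0 ∧ (∀ m, ((con tD tC) ^ m) (Dmap E tC tD lam xi) (A.bd x) = 0) ∧
        nrm N tD tC xi (A.bd x) = 0 := by
      rcases Nat.eq_zero_or_pos i with h0 | h0
      · subst h0
        rw [bd_E0 A x hx]
        exact ⟨map_zero _, fun m => map_zero _, map_zero _⟩
      · obtain ⟨i', rfl⟩ : ∃ i', i = i' + 1 := ⟨i - 1, by omega⟩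
        have h1 : A.bd x ∈ A.E c i' := bd_E A x hx
        have h2 : i' ≠ n := by omega
        refine ⟨hd.la0 c hc i' h2 _ h1, fun m => ?_, ?_⟩
        · rw [con_pow_apply]
          exact hpz _ i' (fun c hc x hx => hD0 c hc i' h2 x hx) m c hc _ h1
        · rw [nrm_apply]
          exact Finset.sum_eq_zero fun r _ =>
            hpz xi i' (fun c hc x hx => hd.xi0 c hc i' h2 x hx) r c hc _ h1
    refine Prod.ext ?_ (Prod.ext ?_ ?_)
    · change hmap E φ lam (A.bd x) = E.bd (hmap E φ lam x)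
      rw [hh1, hh1, hb.1, map_zero, add_zero, map_add, E.bd_bd, add_zero, hd.phB c hc i x hx]
    · funext m
      exact hb.2.1 m
    · change -(nrm N tD tC xi) (A.bd x) = 0
      rw [hb.2.2, neg_zero]
  · -- action
    refine Prod.ext ?_ (Prod.ext ?_ ?_)
    · change hmap E φ lam (tC x) = tDi (hmap E φ lam x + E.bd (Dmap E tC tD lam xi x))
      rw [← hconh c hc i x hx, hiD]
    · funext m
      change ((con tD tC) ^ m) (Dmap E tC tD lam xi) (tC x) =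
        tDi (((con tD tC) ^ (m + 1)) (Dmap E tC tD lam xi) x)
      rw [alg7_con_succ, hiD]
    · change -(nrm N tD tC xi) (tC x) = tDi (-(nrm N tD tC xi) x)
      have h1 : nrm N tD tC xi x = tD (nrm N tD tC xi (tC x)) := by
        conv_lhs => rw [← alg7_con_nrm hA.tN hDN xi]
        rfl
      rw [h1, map_neg, hiD]
  · -- the evaluation
    intro g
    have h0 : can E g (kappa E N tC tD φ lam xi x) = hmap E φ lam x +
        E.bd (∑ m ∈ Finset.range g, ((con tD tC) ^ m) (Dmap E tC tD lam xi) x) := rfl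
    rw [h0]
    induction g with
    | zero => simp
    | succ g ih =>
      have ih' := ih rfl
      rw [Finset.sum_range_succ, map_add, ← add_assoc, ih', con_pow_apply, con_pow_apply]
      obtain ⟨c', hc', hx', -⟩ := alg7_F1 hA hs g c hc i x hx
      have h1 : (tD ^ (g + 1)) (hmap E φ lam ((tC ^ (g + 1)) x)) =
          (tD ^ g) (tD (hmap E φ lam (tC ((tC ^ g) x)))) := by
        have h2 : (tC ^ (g + 1)) x = tC ((tC ^ g) x) := by rw [pow_succ']; rfl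
        rw [h2, pow_succ]
        rfl
      rw [con_pow_apply, h1, hconh c' hc' i _ hx', map_add, alg7_pow_bd E tD hDb g]
  · -- the boundaries of degree `n`
    have hla : ∀ c ∈ K, ∀ x ∈ A.E c (n + 1), lam (A.bd x) = E.bd (nu x) - φ x := by
      intro c hc x hx
      rw [← hd.eqE c hc x hx]
      abel
    have hDb0 : ∀ c ∈ K, ∀ x ∈ A.E c (n + 1), Dmap E tC tD lam xi (A.bd x) = 0 := by
      intro c hc x hx
      obtain ⟨c', hc', hx', -⟩ := alg7_F hA hs hc hx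
      have h1 : tD (φ (tC x)) = φ x := hd.phT c hc _ x hx
      have h2 : tD (nu (tC x)) - nu x = xi (A.bd x) := hd.eqI c hc x hx
      rw [hD1, hA.tb, hla c' hc' _ hx', hla c hc x hx, ← h2, map_sub, hDb, h1, map_sub]
      abel
    refine Prod.ext ?_ (Prod.ext ?_ ?_)
    · change hmap E φ lam (A.bd x) = 0
      rw [hh1, ← hd.phB c hc _ x hx, ← map_add, hd.eqE c hc x hx, E.bd_bd]
    · funext m
      change ((con tD tC) ^ m) (Dmap E tC tD lam xi) (A.bd x) = 0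
      obtain ⟨c', hc', hx', -⟩ := alg7_F1 hA hs m c hc _ x hx
      rw [con_pow_apply, alg7_pow_bd A tC hA.tb m, hDb0 c' hc' _ hx', map_zero]
    · change -(nrm N tD tC xi) (A.bd x) = 0
      have h1 : nrm N tD tC xi (A.bd x) = nrm N tD tC (con tD tC nu - nu) x := by
        rw [nrm_apply, nrm_apply]
        refine Finset.sum_congr rfl fun r _ => ?_
        obtain ⟨c', hc', hx', -⟩ := alg7_F1 hA hs r c hc _ x hx
        rw [alg7_pow_bd A tC hA.tb r, ← hd.eqI c' hc' _ hx']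
        rfl
      rw [h1, alg7_nrm_sub hA.tN hDN]
      exact neg_zero

end ALG
end AGE
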