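import Pool.Agent.AGE.ALG3
import Pool.Agent.AGE.ALG4
import Pool.Agent.AGE.ALG5
import Pool.Agent.AGE.ALG6
import Pool.Agent.AGE.ALG7

/-!
# AGE-ALG8 (helper87): pull back along `kappa`: the maps `F', s1, t1` on `K`

PLAN.  `W := QQ P pr` (`mem_QQ`).
1. `exists_G` gives `G`.  Apply `two_lifts` with `J = Set.univ`, index type `D`, `σ = τ`, `Z = HZ E n N`, `bS = bdH E`, `tS = Xi E tDi`, `m = n`:
   `hSt` = `Xi_bdH`, `hZt` = `Xi_mem`, `hZN` = `Xi_pow_N`, `hWt`: `tB x ∈ P (τ t) i` (`Pt`) and `pr g (tB x) = 0`: for `g = g' + 1` by `prt`; for `g = 0`: `pr 0 (tB x) = pr (0 + N) (tB x)`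
   (`prN`), `N = N' + 1` (`N0`).  `hl0`, `hl1` = `lift_H` with `k = 0, 1` (`hac` from `hc.acy`: `i + k ≤ n + 1`; `QQ` is monotone by `Pm`).
   `hGc`: for `x ∈ HZ t i`, `i ≤ n`: `con G x - G x ∈ P t i` (`Xi x ∈ HZ (τ⁻¹ t) i`, `G` of it in `P (τ⁻¹ t) i`, `tB` into `P t i`), and for all `g`: `pr (g+1) (tB (G (Xi x))) = tD (pr g (G (Xi x))) =
   tD (can g (Xi x)) = can (g+1) x = pr (g+1) (G x)` (`can_Xi`), the index 0 again by `prN` (`pr 0 = pr N`).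
2. Put `F' = G ∘ₗ κ`, `s1 = sg ∘ₗ κ`, `t1 = t ∘ₗ κ`, `κ = kappa E N tC tD φ lam xi`, and use `kappa_spec` (`κ x ∈ HZ (s c) i`).
   `con tB tC F' x = tB (G (κ (tC x))) = tB (G (Xi (κ x))) = con tB (Xi E tDi) G (κ x)`.
   `nrm N tB tC s1 x = nrm N tB (Xi E tDi) sg (κ x)`: by `nrm_apply`, termwise `κ ((tC^r) x) = (Xi^r) (κ x)` (induction on `r`, with `(tC^r) x ∈ A.E (σ^{-r} c) i`).
-/

set_option autoImplicit false

noncomputable section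

namespace AGE
namespace ALG

open Finsupp

private theorem alg8_pr {D B : Type*} [AddCommGroup B] {E : Bas D} {n N : ℕ} {τ : Equiv.Perm D}
    {tD tDi : (D →₀ ℤ) →ₗ[ℤ] (D →₀ ℤ)} {bB tB : B →ₗ[ℤ] B} {P : D → ℕ → Submodule ℤ B}
    {pr : ℕ → B →ₗ[ℤ] (D →₀ ℤ)} (hc : Coi E n N τ tD tDi bB tB P pr) (g : ℕ) (x : B) :
    pr g (tB x) = tD (pr (g + (N - 1)) x) := by
  have h0 := hc.N0
  rw [← hc.prN g (tB x), ← hc.prt]
  congr 2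
  omega

private theorem alg8_mono {D B : Type*} [AddCommGroup B] {E : Bas D} {n N : ℕ} {τ : Equiv.Perm D}
    {tD tDi : (D →₀ ℤ) →ₗ[ℤ] (D →₀ ℤ)} {bB tB : B →ₗ[ℤ] B} {P : D → ℕ → Submodule ℤ B}
    {pr : ℕ → B →ₗ[ℤ] (D →₀ ℤ)} (hc : Coi E n N τ tD tDi bB tB P pr) (a b : D) (h : E.le a b) (i : ℕ) :
    QQ P pr a i ≤ QQ P pr b i := by
  intro x hx
  rw [mem_QQ] at hx ⊢
  exact ⟨hc.Pm a b h i hx.1, hx.2⟩

private theorem alg8_acy {D B : Type*} [AddCommGroup B] {E : Bas D} {n N : ℕ} {τ : Equiv.Perm D}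
    {tD tDi : (D →₀ ℤ) →ₗ[ℤ] (D →₀ ℤ)} {bB tB : B →ₗ[ℤ] B} {P : D → ℕ → Submodule ℤ B}
    {pr : ℕ → B →ₗ[ℤ] (D →₀ ℤ)} (hc : Coi E n N τ tD tDi bB tB P pr) (k : ℕ) (hk : k ≤ 1) :
    ∀ t, ∀ i ≤ n, ∀ z ∈ QQ P pr t (i + k), bB z = 0 → ∃ y ∈ QQ P pr t (i + k + 1), bB y = z := by
  intro t i hi z hz hb
  rw [mem_QQ] at hz
  obtain ⟨y, h1, h2, h3⟩ := hc.acy t (i + k) (by omega) z hz.1 hb hz.2
  exact ⟨y, mem_QQ.2 ⟨h1, h3⟩, h2⟩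

private theorem alg8_pow {C D : Type*} (A : Bas C) (K : Set C) (n N : ℕ) (σ : Equiv.Perm C)
    (tC : (C →₀ ℤ) →ₗ[ℤ] (C →₀ ℤ)) (hA : Act A K N σ tC) (X : M D →ₗ[ℤ] M D)
    (κ : (C →₀ ℤ) →ₗ[ℤ] M D) (hκ : ∀ c ∈ K, ∀ i ≤ n, ∀ x ∈ A.E c i, κ (tC x) = X (κ x)) (r : ℕ) :
    ∀ c ∈ K, ∀ i ≤ n, ∀ x ∈ A.E c i, κ ((tC ^ r) x) = (X ^ r) (κ x) := by
  induction r with
  | zero =>
    intro c _ i _ x _
    rfl
  | succ r ih =>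
    intro c hc i hi x hx
    obtain ⟨c', rfl⟩ := σ.surjective c
    have hc' : c' ∈ K := (hA.inv c').2 hc
    have h1 : (tC ^ (r + 1)) x = (tC ^ r) (tC x) := by
      rw [pow_succ]
      rfl
    have h2 : (X ^ (r + 1)) (κ x) = (X ^ r) (X (κ x)) := by
      rw [pow_succ]
      rfl
    rw [h1, h2, ih c' hc' i hi _ (hA.tE c' hc' i x hx), hκ _ hc i hi x hx]

theorem pull {C D B : Type*} [AddCommGroup B] (A : Bas C) (E : Bas D) (K : Set C) (s : C → D) (n N : ℕ)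
    (σ : Equiv.Perm C) (τ : Equiv.Perm D) (tC : (C →₀ ℤ) →ₗ[ℤ] (C →₀ ℤ))
    (tD tDi : (D →₀ ℤ) →ₗ[ℤ] (D →₀ ℤ)) (hA : Act A K N σ tC) (hs : Ctl A E K s σ τ)
    (φ lam nu xi : (C →₀ ℤ) →ₗ[ℤ] (D →₀ ℤ)) (hd : DatA A E K s n tC tD φ lam nu xi)
    (bB tB : B →ₗ[ℤ] B) (P : D → ℕ → Submodule ℤ B) (pr : ℕ → B →ₗ[ℤ] (D →₀ ℤ))
    (hc : Coi E n N τ tD tDi bB tB P pr) :
    ∃ F' s1 t1 : (C →₀ ℤ) →ₗ[ℤ] B,
      (∀ c ∈ K, ∀ i ≤ n, ∀ x ∈ A.E c i, F' x ∈ P (s c) i ∧ bB (F' x) = F' (A.bd x) ∧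
        (∀ g, pr g (F' x) = ((con tD tC) ^ g) (hmap E φ lam) x) ∧
        s1 x ∈ QQ P pr (s c) (i + 1) ∧ t1 x ∈ QQ P pr (s c) (i + 2) ∧
        con tB tC F' x - F' x = bB (s1 x) + s1 (A.bd x) ∧
        nrm N tB tC s1 x = bB (t1 x) - t1 (A.bd x)) ∧
      (∀ c ∈ K, ∀ x ∈ A.E c (n + 1), F' (A.bd x) = 0 ∧ s1 (A.bd x) = 0 ∧ t1 (A.bd x) = 0) := by
  obtain ⟨G, hG⟩ := exists_G E n N τ tD tDi bB tB P pr hc
  have hWt : ∀ j ∈ (Set.univ : Set D), ∀ i, ∀ x ∈ QQ P pr j i, tB x ∈ QQ P pr (τ j) i := by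
    intro j _ i x hx
    rw [mem_QQ] at hx ⊢
    refine ⟨hc.Pt j i x hx.1, fun g => ?_⟩
    rw [alg8_pr hc, hx.2, map_zero]
  have hGc : Crd Set.univ (HZ E n N) (QQ P pr) n 0 (con tB (Xi E tDi) G - G) := by
    intro j _ i hi x hx
    obtain ⟨j', rfl⟩ := τ.surjective j
    have h1 : Xi E tDi x ∈ HZ E n N j' i := Xi_mem E n N τ tDi hc.iE hc.ib hx
    rw [LinearMap.sub_apply, con_apply, mem_QQ]
    refine ⟨Submodule.sub_mem _ (hc.Pt _ _ _ (hG j' i hi _ h1).1) (hG _ i hi x hx).1, fun g => ?_⟩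
    have h2 := hc.N0
    have h3 : g + (N - 1) + 1 = g + N := by omega
    rw [map_sub, alg8_pr hc, (hG j' i hi _ h1).2.2, (hG _ i hi x hx).2.2, can_Xi E tD tDi hc.ib hc.Di, h3,
      can_period E n N g hx, sub_self]
  obtain ⟨sg, t, hs1, ht1, hs2, ht2⟩ := two_lifts (Set.univ : Set D) τ
    (fun j => ⟨fun _ => Set.mem_univ _, fun _ => Set.mem_univ _⟩) (HZ E n N) (bdH E) (Xi E tDi)
    (Xi_bdH E tDi hc.ib) (fun j _ i x hx => Xi_mem E n N τ tDi hc.iE hc.ib hx) n N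
    (fun j _ i _ x hx => Xi_pow_N E n N tDi hc.ib hc.iN hx) bB tB hc.tb hc.tN (QQ P pr) hWt
    (lift_H E n N hc.N0 bB hc.bb (QQ P pr) (alg8_mono hc) 0 (alg8_acy hc 0 (by omega)))
    (lift_H E n N hc.N0 bB hc.bb (QQ P pr) (alg8_mono hc) 1 (alg8_acy hc 1 le_rfl)) G
    (fun j _ i hi x hx => (hG j i hi x hx).2.1) hGc
  obtain ⟨hk1, hk2⟩ := kappa_spec A E K s n N σ τ tC tD tDi hA hs hc.iD hc.Db hc.DN hc.DE φ lam nu xi hd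
  have hpow := alg8_pow A K n N σ tC hA (Xi E tDi) (kappa E N tC tD φ lam xi)
    (fun c hcK i hi x hx => (hk1 c hcK i hi x hx).2.2.1)
  refine ⟨G ∘ₗ kappa E N tC tD φ lam xi, sg ∘ₗ kappa E N tC tD φ lam xi, t ∘ₗ kappa E N tC tD φ lam xi, ?_, ?_⟩
  · intro c hcK i hi x hx
    obtain ⟨k1, k2, k3, k4⟩ := hk1 c hcK i hi x hx
    obtain ⟨g1, g2, g3⟩ := hG (s c) i hi _ k1
    refine ⟨g1, ?_, fun g => ?_, hs1 (s c) (Set.mem_univ _) i hi _ k1, ht1 (s c) (Set.mem_univ _) i hi _ k1, ?_, ?_⟩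
    · rw [LinearMap.comp_apply, LinearMap.comp_apply, g2, k2]
    · rw [LinearMap.comp_apply, g3, k4]
    · have h1 := hs2 (s c) (Set.mem_univ _) i hi _ k1
      rw [con_apply] at h1
      rw [con_apply, LinearMap.comp_apply, LinearMap.comp_apply, LinearMap.comp_apply, LinearMap.comp_apply, k3, k2]
      exact h1
    · have h1 := ht2 (s c) (Set.mem_univ _) i hi _ k1
      rw [nrm_apply] at h1
      rw [nrm_apply, LinearMap.comp_apply, LinearMap.comp_apply, k2, ← h1]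
      refine Finset.sum_congr rfl fun r _ => ?_
      rw [LinearMap.comp_apply, hpow r c hcK i hi x hx]
  · intro c hcK x hx
    have h1 := hk2 c hcK x hx
    rw [LinearMap.comp_apply, LinearMap.comp_apply, LinearMap.comp_apply, h1, map_zero, map_zero, map_zero]
    exact ⟨rfl, rfl, rfl⟩

end ALG
end AGE
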