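import Mathlib

/-!
# Project AGE, module APXf: equivariant selection

A representative `r ω` of every orbit of `⟨σ⟩` is chosen; for `ω = (σ ^ a) (r ω)` in `P` the value is `(ρ ^ a) θ` with
`R (r ω) θ`. It is equivariant since `N` divides the difference of two exponents with the same effect on `r ω`.
-/

set_option autoImplicit false

noncomputable section

namespace AGE

private theorem APXf_nat {Ω : Type} {σ : Equiv.Perm Ω} {P : Set Ω} (hP : ∀ ω, ω ∈ P ↔ σ ω ∈ P)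
    (a : ℕ) (ω : Ω) : ω ∈ P ↔ (σ ^ a) ω ∈ P := by
  induction a with
  | zero => rfl
  | succ a ih =>
    rw [pow_succ', Equiv.Perm.mul_apply, ← hP]
    exact ih

private theorem APXf_int {Ω : Type} {σ : Equiv.Perm Ω} {P : Set Ω} (hP : ∀ ω, ω ∈ P ↔ σ ω ∈ P)
    (i : ℤ) (ω : Ω) : ω ∈ P ↔ (σ ^ i) ω ∈ P := by
  obtain ⟨a, rfl | rfl⟩ := Int.eq_nat_or_neg i
  · rw [zpow_natCast]
    exact APXf_nat hP a ω
  · have h := APXf_nat hP a ((σ ^ (-(a : ℤ))) ω)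
    rw [zpow_neg, zpow_natCast, ← Equiv.Perm.mul_apply, mul_inv_cancel, Equiv.Perm.one_apply] at h
    rw [zpow_neg, zpow_natCast]
    exact h.symm

private theorem APXf_pow {Ω Θ : Type} {σ : Equiv.Perm Ω} {ρ : Equiv.Perm Θ} {N : ℕ} (hρ : ρ ^ N = 1)
    {ω : Ω} (hfre : ∀ a : ℕ, (σ ^ a) ω = ω ↔ N ∣ a) {u v : ℕ} (huv : u ≤ v)
    (h : (σ ^ u) ω = (σ ^ v) ω) : ρ ^ u = ρ ^ v := by
  obtain ⟨d, rfl⟩ := Nat.exists_eq_add_of_le huv
  rw [pow_add, Equiv.Perm.mul_apply] at h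
  have h1 : (σ ^ d) ω = ω := ((σ ^ u).injective h).symm
  obtain ⟨e, rfl⟩ := (hfre d).1 h1
  rw [pow_add, pow_mul, hρ, one_pow, mul_one]

private theorem APXf_R {Ω Θ : Type} {σ : Equiv.Perm Ω} {ρ : Equiv.Perm Θ} {P : Set Ω}
    (hP : ∀ ω, ω ∈ P ↔ σ ω ∈ P) {R : Ω → Θ → Prop} (hRe : ∀ ω ∈ P, ∀ θ, R ω θ → R (σ ω) (ρ θ))
    (a : ℕ) {ω : Ω} (hω : ω ∈ P) {θ : Θ} (h : R ω θ) : R ((σ ^ a) ω) ((ρ ^ a) θ) := by
  induction a with
  | zero => exact h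
  | succ a ih =>
    rw [pow_succ', pow_succ', Equiv.Perm.mul_apply, Equiv.Perm.mul_apply]
    exact hRe _ ((APXf_nat hP a ω).1 hω) _ ih

theorem apx_f {Ω Θ : Type} (σ : Equiv.Perm Ω) (ρ : Equiv.Perm Θ) (N : ℕ) (hN : 0 < N)
    (hρ : ρ ^ N = 1) (P : Set Ω) (hP : ∀ ω, ω ∈ P ↔ σ ω ∈ P)
    (hfre : ∀ ω ∈ P, ∀ a : ℕ, (σ ^ a) ω = ω ↔ N ∣ a) (R : Ω → Θ → Prop)
    (hR : ∀ ω ∈ P, ∃ θ, R ω θ) (hRe : ∀ ω ∈ P, ∀ θ, R ω θ → R (σ ω) (ρ θ)) (θ₀ : Θ)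
    (hθ₀ : ρ θ₀ = θ₀) :
    ∃ b : Ω → Θ, (∀ ω, b (σ ω) = ρ (b ω)) ∧ ∀ ω ∈ P, R ω (b ω) := by
  classical
  obtain ⟨r, hr1, hr2⟩ : ∃ r : Ω → Ω, (∀ ω, ∃ i : ℤ, (σ ^ i) (r ω) = ω) ∧ ∀ ω, r (σ ω) = r ω := by
    refine ⟨fun ω => Quotient.out (Quotient.mk (Equiv.Perm.SameCycle.setoid σ) ω), fun ω => ?_,
      fun ω => ?_⟩
    · exact Quotient.mk_out (s := Equiv.Perm.SameCycle.setoid σ) ω
    · have h1 : Quotient.mk (Equiv.Perm.SameCycle.setoid σ) (σ ω) =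
          Quotient.mk (Equiv.Perm.SameCycle.setoid σ) ω := by
        apply Quotient.sound
        exact ⟨-1, by simp⟩
      show Quotient.out (Quotient.mk (Equiv.Perm.SameCycle.setoid σ) (σ ω)) =
        Quotient.out (Quotient.mk (Equiv.Perm.SameCycle.setoid σ) ω)
      rw [h1]
  have hrP : ∀ ω ∈ P, r ω ∈ P := by
    intro ω hω
    obtain ⟨i, hi⟩ := hr1 ω
    rw [APXf_int hP i (r ω), hi]
    exact hω
  have ha : ∀ ω, ∃ a : ℕ, ω ∈ P → (σ ^ a) (r ω) = ω := by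
    intro ω
    by_cases hω : ω ∈ P
    · obtain ⟨i, hi⟩ := hr1 ω
      have hN' : (N : ℤ) ≠ 0 := by exact_mod_cast hN.ne'
      obtain ⟨a, ha⟩ := Int.eq_ofNat_of_zero_le (Int.emod_nonneg i hN')
      have h2 : i = (a : ℤ) + (N : ℤ) * (i / (N : ℤ)) := by
        rw [← ha]
        exact (Int.emod_add_mul_ediv i N).symm
      have h3 : (σ ^ N) (r ω) = r ω := (hfre (r ω) (hrP ω hω) N).2 dvd_rfl
      have h4 : (σ ^ ((N : ℤ) * (i / (N : ℤ)))) (r ω) = r ω := by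
        rw [zpow_mul, zpow_natCast]
        exact Equiv.Perm.zpow_apply_eq_self_of_apply_eq_self h3 _
      refine ⟨a, fun _ => ?_⟩
      rw [h2, zpow_add, Equiv.Perm.mul_apply, h4, zpow_natCast] at hi
      exact hi
    · exact ⟨0, fun h => absurd h hω⟩
  choose a ha using ha
  have hc : ∀ ω, ∃ θ : Θ, ω ∈ P → R ω θ := by
    intro ω
    by_cases hω : ω ∈ P
    · obtain ⟨θ, hθ⟩ := hR ω hω
      exact ⟨θ, fun _ => hθ⟩
    · exact ⟨θ₀, fun h => absurd h hω⟩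
  choose c hc using hc
  refine ⟨fun ω => if ω ∈ P then (ρ ^ a ω) (c (r ω)) else θ₀, fun ω => ?_, fun ω hω => ?_⟩
  · by_cases hω : ω ∈ P
    · have hσ : σ ω ∈ P := (hP ω).1 hω
      have h1 : (σ ^ a (σ ω)) (r ω) = σ ω := by
        have h := ha (σ ω) hσ
        rwa [hr2] at h
      have h2 : (σ ^ (a ω + 1)) (r ω) = σ ω := by
        rw [pow_succ', Equiv.Perm.mul_apply, ha ω hω]
      have h3 : ρ ^ a (σ ω) = ρ ^ (a ω + 1) := by
        rcases le_total (a (σ ω)) (a ω + 1) with h | h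
        · exact APXf_pow hρ (hfre (r ω) (hrP ω hω)) h (h1.trans h2.symm)
        · exact (APXf_pow hρ (hfre (r ω) (hrP ω hω)) h (h2.trans h1.symm)).symm
      simp only [if_pos hω, if_pos hσ]
      rw [hr2, h3, pow_succ', Equiv.Perm.mul_apply]
    · have hσ : ¬ σ ω ∈ P := fun h => hω ((hP ω).2 h)
      simp only [if_neg hω, if_neg hσ]
      exact hθ₀.symm
  · simp only [if_pos hω]
    have h := APXf_R hP hRe (a ω) (hrP ω hω) (hc (r ω) (hrP ω hω))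
    rwa [ha ω hω] at h

end AGE
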