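import Pool.Agent.AGE.Defs
import Pool.Agent.AGE.C1b
import Pool.Agent.AGE.C2a

/-!
# AGE-C7b: rounding

The roundings of a family of points of the body of a closed complex with mutual distances less than `1 / 2` lie in one cube of the
complex: in a coordinate in which two roundings differ, all points lie strictly between two consecutive integers.
-/

set_option autoImplicit false

noncomputable section

namespace AGE

variable {V J : Type} [LinearOrder V] [LinearOrder J]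

private theorem C7b_le {a : ℤ} {x : ℝ} (h : (a : ℝ) ≤ x) : a ≤ round x := by
  rw [round_eq, Int.le_floor]
  linarith

private theorem C7b_ge {a : ℤ} {x : ℝ} (h : x ≤ (a : ℝ)) : round x ≤ a := by
  rw [round_eq]
  have h1 : ⌊x + 1 / 2⌋ < a + 1 := by
    rw [Int.floor_lt]
    push_cast
    linarith
  omega

private theorem C7b_body (S : Cube J) (y : J → ℝ) (hy : y ∈ S.body) : S.Has (rnd y) :=
  fun j => ⟨C7b_le (hy j).1, C7b_ge (hy j).2⟩

private theorem C7b_hi (S : Cube J) (j : J) : S.hi j = S.lo j ∧ j ∉ S.fr ∨ S.hi j = S.lo j + 1 ∧ j ∈ S.fr := by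
  unfold Cube.hi
  by_cases h : j ∈ S.fr <;> simp [h]

/-- two different roundings in the coordinate `j` -/
private theorem C7b_lt {Y : Set (J → ℝ)} (hd : ∀ y ∈ Y, ∀ z ∈ Y, ∀ j, |y j - z j| < 1 / 2) {Q : Cube J}
    {u : J → ℝ} (hu : u ∈ Y) (huQ : u ∈ Q.body) {j : J} {y z : J → ℝ} (hy : y ∈ Y) (hz : z ∈ Y)
    (h : rnd y j < rnd z j) : j ∈ Q.fr ∧ ∀ w ∈ Y, Q.lo j ≤ rnd w j ∧ rnd w j ≤ Q.lo j + 1 := by
  have h1 : y j + 1 / 2 < (rnd y j : ℝ) + 1 := by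
    have h2 : rnd y j = ⌊y j + 1 / 2⌋ := round_eq (y j)
    rw [h2]
    exact Int.lt_floor_add_one _
  have h3 : (rnd y j : ℝ) + 1 ≤ z j + 1 / 2 := by
    have h2 : rnd z j = ⌊z j + 1 / 2⌋ := round_eq (z j)
    have h4 : ((⌊z j + 1 / 2⌋ : ℤ) : ℝ) ≤ z j + 1 / 2 := Int.floor_le _
    rw [← h2] at h4
    have h5 : (rnd y j : ℝ) + 1 ≤ (rnd z j : ℝ) := by exact_mod_cast h
    linarith
  have hw : ∀ w ∈ Y, (rnd y j : ℝ) < w j ∧ w j < (rnd y j : ℝ) + 1 := by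
    intro w hw
    have e1 := abs_lt.1 (hd w hw z hz j)
    have e2 := abs_lt.1 (hd w hw y hy j)
    constructor <;> linarith
  obtain ⟨u1, u2⟩ := hw u hu
  obtain ⟨v1, v2⟩ := huQ j
  have i1 : Q.lo j < rnd y j + 1 := by
    have : (Q.lo j : ℝ) < ((rnd y j + 1 : ℤ) : ℝ) := by
      push_cast
      linarith
    exact_mod_cast this
  have i2 : rnd y j < Q.hi j := by
    have : ((rnd y j : ℤ) : ℝ) < (Q.hi j : ℝ) := by linarith
    exact_mod_cast this
  rcases C7b_hi Q j with ⟨e, _⟩ | ⟨e, hj⟩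
  · omega
  · have e0 : Q.lo j = rnd y j := by omega
    refine ⟨hj, fun w hwY => ?_⟩
    obtain ⟨w1, w2⟩ := hw w hwY
    rw [e0]
    refine ⟨C7b_le w1.le, C7b_ge ?_⟩
    push_cast
    exact w2.le

theorem round_cube (T : Set (Cube J)) (hT : Closed T) (Y : Set (J → ℝ)) (hY : Y.Nonempty)
    (hYT : Y ⊆ Body T) (hd : ∀ y ∈ Y, ∀ z ∈ Y, ∀ j, |y j - z j| < 1 / 2) :
    ∃ S ∈ T, ∀ y ∈ Y, S.Has (rnd y) := by
  classical
  obtain ⟨u, hu⟩ := hY
  obtain ⟨Q, hQ, huQ⟩ := hYT hu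
  have key : ∀ j, (∃ y ∈ Y, ∃ z ∈ Y, rnd y j ≠ rnd z j) →
      j ∈ Q.fr ∧ ∀ w ∈ Y, Q.lo j ≤ rnd w j ∧ rnd w j ≤ Q.lo j + 1 := by
    rintro j ⟨y, hy, z, hz, hne⟩
    rcases lt_or_gt_of_ne hne with h | h
    · exact C7b_lt hd hu huQ hy hz h
    · exact C7b_lt hd hu huQ hz hy h
  let F : Finset J := Q.fr.filter fun j => ∃ y ∈ Y, ∃ z ∈ Y, rnd y j ≠ rnd z j
  have hF : ∀ j, j ∈ F ↔ ∃ y ∈ Y, ∃ z ∈ Y, rnd y j ≠ rnd z j := by
    intro j
    rw [Finset.mem_filter]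
    exact ⟨fun h => h.2, fun h => ⟨(key j h).1, h⟩⟩
  let S : Cube J := ⟨fun j => if j ∈ F then Q.lo j else rnd u j, F⟩
  have s1 : ∀ j, j ∈ F → S.lo j = Q.lo j ∧ S.hi j = Q.lo j + 1 := by
    intro j hj
    have e : S.lo j = Q.lo j := if_pos hj
    exact ⟨e, by rw [Cube.hi, if_pos hj, e]⟩
  have s2 : ∀ j, j ∉ F → S.lo j = rnd u j ∧ S.hi j = rnd u j := by
    intro j hj
    have e : S.lo j = rnd u j := if_neg hj
    exact ⟨e, by rw [Cube.hi, if_neg hj, e]⟩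
  have hQu := C7b_body Q u huQ
  refine ⟨S, hT Q hQ S fun j => ?_, fun y hy j => ?_⟩
  · by_cases hj : j ∈ F
    · rw [(s1 j hj).1, (s1 j hj).2]
      refine ⟨le_rfl, ?_⟩
      rw [Cube.hi, if_pos (key j ((hF j).1 hj)).1]
    · rw [(s2 j hj).1, (s2 j hj).2]
      exact hQu j
  · by_cases hj : j ∈ F
    · rw [(s1 j hj).1, (s1 j hj).2]
      exact (key j ((hF j).1 hj)).2 y hy
    · rw [(s2 j hj).1, (s2 j hj).2]
      have e : rnd y j = rnd u j := by
        by_contra hne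
        exact hj ((hF j).2 ⟨y, hy, u, hu, hne⟩)
      rw [e]
      exact ⟨le_rfl, le_rfl⟩

/-- the same inside a prescribed cube body -/
theorem round_body (S : Cube J) (y : J → ℝ) (hy : y ∈ S.body) : S.Has (rnd y) :=
  C7b_body S y hy

theorem round_equi (τ : Equiv.Perm J) (y : J → ℝ) : rnd (actP τ y) = actP τ (rnd y) := rfl

end AGE
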