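import Pool.Agent.AGE.APX1
import Pool.Agent.AGE.APXf
import Pool.Agent.AGE.C7b

/-!
# Project AGE, module APX2: approximation of a state
-/

set_option autoImplicit false

noncomputable section

namespace AGE

open TopologicalSpace

private def pw {V : Type} (σ : Equiv.Perm V) : Equiv.Perm (V → ℤ) :=
  Equiv.arrowCongr σ (Equiv.refl ℤ)

private theorem pw_apply {V : Type} (σ : Equiv.Perm V) (v : V → ℤ) : pw σ v = actP σ v := rfl

private theorem pw_pow {V : Type} (σ : Equiv.Perm V) (a : ℕ) (v : V → ℤ) :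
    (pw σ ^ a) v = actP (σ ^ a) v := by
  induction a generalizing v with
  | zero => rfl
  | succ a ih =>
    rw [pow_succ, Equiv.Perm.mul_apply, ih, pw_apply, pow_succ]
    rfl

open Classical in
private def ind {V : Type} (C : Finset V) : V → ℤ := fun j => if j ∈ C then 1 else 0

private theorem ind_pos {V : Type} {C : Finset V} {j : V} (h : j ∈ C) : ind C j = 1 := by
  unfold ind
  rw [if_pos h]

private theorem ind_neg {V : Type} {C : Finset V} {j : V} (h : j ∉ C) : ind C j = 0 := by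
  unfold ind
  rw [if_neg h]

private theorem ind_ne {V : Type} {C : Finset V} {j : V} (h : ind C j ≠ 0) : j ∈ C := by
  by_contra hn
  exact h (ind_neg hn)

private theorem ind_map {V : Type} (σ : Equiv.Perm V) (C : Finset V) :
    actP σ (ind C) = ind (C.map σ.toEmbedding) := by
  funext j
  show ind C (σ.symm j) = _
  by_cases h : σ.symm j ∈ C
  · rw [ind_pos h, ind_pos (Finset.mem_map_equiv.2 h)]
  · rw [ind_neg h, ind_neg (fun h' => h (Finset.mem_map_equiv.1 h'))]

private theorem ind_inj {V : Type} {C D : Finset V} (h : ind C = ind D) : C = D := by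
  ext j
  constructor
  · intro hj
    apply ind_ne
    rw [← h, ind_pos hj]
    norm_num
  · intro hj
    apply ind_ne
    rw [h, ind_pos hj]
    norm_num

private theorem map_pow {V : Type} (σ : Equiv.Perm V) (C : Finset V) (v : V)
    (h : C.map σ.toEmbedding = C) (hv : v ∈ C) : σ v ∈ C := by
  rw [← h]
  exact Finset.mem_map.2 ⟨v, hv, rfl⟩

private theorem box_vertex {V : Type} [LinearOrder V] {S : Set (Finset V)}
    (hsub : ∀ A ∈ S, ∀ B, B ⊆ A → B ∈ S) (Q : Cube V) (A : Finset V) (hA : A.Nonempty)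
    (hd : Disjoint A Q.fr) (hS : A ∪ Q.fr ∈ S) (hlo : ∀ j, Q.lo j = if j ∈ A then 1 else 0)
    (v : V → ℤ) (hv : Q.Has v) : ∃ C ∈ S, A ⊆ C ∧ v = ind C := by
  refine ⟨A ∪ Q.fr.filter (fun j => v j = 1), hsub _ hS _
    (Finset.union_subset_union_right (Finset.filter_subset _ _)), Finset.subset_union_left, ?_⟩
  funext j
  have h := hv j
  unfold Cube.hi at h
  rw [hlo j] at h
  by_cases hjA : j ∈ A
  · have hjf : j ∉ Q.fr := fun hf => Finset.disjoint_left.1 hd hjA hf
    rw [if_pos hjA, if_neg hjf] at h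
    rw [ind_pos (Finset.mem_union_left _ hjA)]
    omega
  · rw [if_neg hjA] at h
    by_cases hjf : j ∈ Q.fr
    · rw [if_pos hjf] at h
      by_cases h1 : v j = 1
      · rw [ind_pos (Finset.mem_union_right _ (Finset.mem_filter.2 ⟨hjf, h1⟩)), h1]
      · rw [ind_neg]
        · omega
        · intro hmem
          rcases Finset.mem_union.1 hmem with h2 | h2
          · exact hjA h2
          · exact h1 (Finset.mem_filter.1 h2).2
    · rw [if_neg hjf] at h
      rw [ind_neg]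
      · omega
      · intro hmem
        rcases Finset.mem_union.1 hmem with h2 | h2
        · exact hjA h2
        · exact hjf (Finset.mem_filter.1 h2).1

theorem apx2 (p : ℕ) [Fact p.Prime] (n : ℕ) {X : Type} [TopologicalSpace X] [CompactSpace X]
    [MetrizableSpace X] [MulAction (Multiplicative ℤ_[p]) X]
    [ContinuousSMul (Multiplicative ℤ_[p]) X]
    (hfree : ∀ (g : Multiplicative ℤ_[p]) (x : X), g • x = x → g = 1)
    (hdim : CovDimLE (Quotient (MulAction.orbitRel (Multiplicative ℤ_[p]) X)) (n + 1))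
    {V : Type} [Fintype V] [LinearOrder V] (q : ℕ) (τV : Equiv.Perm V) (hτ : τV ^ (p ^ q) = 1)
    (K : Set (Cube V)) (hK : K.Finite) (hKc : Closed K) (hKi : Inv τV K)
    (κ : X → V → ℝ) (hκc : Continuous κ)
    (hκe : ∀ x, κ (Multiplicative.ofAdd (1 : ℤ_[p]) • x) = actP τV (κ x))
    (hκb : ∀ x, κ x ∈ Body K) (q₀ : ℕ) :
    ∃ (q' : ℕ) (V' : Type) (_ : Fintype V') (_ : LinearOrder V') (τ' : Equiv.Perm V')
      (col : V' → ℕ) (S : Set (Finset V')) (κ' : X → V' → ℝ) (b : (V' → ℤ) → (V → ℤ)),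
      q₀ ≤ q' ∧ q ≤ q' ∧ Col n (p ^ q') S τ' col ∧ Continuous κ' ∧
      (∀ x, κ' (Multiplicative.ofAdd (1 : ℤ_[p]) • x) = actP τ' (κ' x)) ∧
      (∀ x, κ' x ∈ Body (Box S)) ∧ Equi τ' τV b ∧ VMap (Box S) K b ∧
      (∀ x, ∃ Q ∈ Box S, κ' x ∈ Q.body ∧ ∃ c ∈ K, c.Has (rnd (κ x)) ∧ ∀ v, Q.Has v → c.Has (b v)) := by
  -- the cover
  set N : X → Set X := fun x => {y | ∀ j, |κ y j - κ x j| < 1 / 4} with hN
  have hNo : ∀ x, IsOpen (N x) := by
    intro x
    rw [hN]
    simp only [Set.ofPred_forall]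
    refine isOpen_iInter_of_finite (fun j => ?_)
    refine isOpen_lt ?_ continuous_const
    exact (((continuous_apply j).comp hκc).sub continuous_const).abs
  obtain ⟨F, hF⟩ := isCompact_univ.elim_finite_subcover N hNo (by
    intro x _
    refine Set.mem_iUnion.2 ⟨x, fun j => ?_⟩
    rw [sub_self, abs_zero]
    norm_num)
  obtain ⟨q', V', fV, oV, τ', col, S, ph, hq', hCol, hphc, hph01, hphe, hph1, hphS, hSph, hphU⟩ :=
    apx p n hfree hdim F (fun x => N x.1) (fun x => hNo x.1) (by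
      rw [Set.eq_univ_iff_forall]
      intro y
      obtain ⟨x, hx, hy⟩ := Set.mem_iUnion₂.1 (hF (Set.mem_univ y))
      exact Set.mem_iUnion.2 ⟨⟨x, hx⟩, hy⟩) (max q₀ q)
  have hN0 : 0 < p ^ q' := pow_pos (Fact.out : p.Prime).pos q'
  -- closeness on the stars
  have hclose : ∀ j, ∀ x y, 0 < ph j x → 0 < ph j y → ∀ i, |κ x i - κ y i| < 1 / 2 := by
    intro j x y hx hy i
    obtain ⟨c, hc⟩ := hphU j
    have h1 := hc x hx i
    have h2 := hc y hy i
    rw [abs_lt] at h1 h2 ⊢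
    constructor <;> linarith [h1.1, h1.2, h2.1, h2.2]
  -- a common cube
  have hcube : ∀ j, (∃ x, 0 < ph j x) → ∃ c ∈ K, ∀ y, 0 < ph j y → c.Has (rnd (κ y)) := by
    intro j hj
    obtain ⟨x, hx⟩ := hj
    obtain ⟨c, hc, hc2⟩ := round_cube K hKc {z | ∃ y, 0 < ph j y ∧ z = κ y} ⟨κ x, x, hx, rfl⟩
      (by
        rintro z ⟨y, _, rfl⟩
        exact hκb y)
      (by
        rintro z ⟨y, hy, rfl⟩ z' ⟨y', hy', rfl⟩ i
        exact hclose j y y' hy hy' i)
    exact ⟨c, hc, fun y hy => hc2 _ ⟨y, hy, rfl⟩⟩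
  -- the selection
  set P : Set (V' → ℤ) := {v | ∃ C ∈ S, C.Nonempty ∧ v = ind C} with hPdef
  have hPmap : ∀ v, v ∈ P ↔ pw τ' v ∈ P := by
    intro v
    constructor
    · rintro ⟨C, hC, hne, rfl⟩
      refine ⟨C.map τ'.toEmbedding, (hCol.inv C).1 hC, hne.map, ?_⟩
      rw [pw_apply, ind_map]
    · rintro ⟨C, hC, hne, h⟩
      have hCC : (C.map τ'.symm.toEmbedding).map τ'.toEmbedding = C := by
        ext j
        rw [Finset.mem_map_equiv, Finset.mem_map_equiv]
        simp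
      refine ⟨C.map τ'.symm.toEmbedding, ?_, hne.map, ?_⟩
      · rw [hCol.inv, hCC]
        exact hC
      · apply (pw τ').injective
        rw [h, pw_apply, ind_map, hCC]
  have hfix : ∀ v ∈ P, ∀ a : ℕ, (pw τ' ^ a) v = v ↔ p ^ q' ∣ a := by
    rintro v ⟨C, hC, ⟨j, hj⟩, rfl⟩ a
    rw [pw_pow, ind_map]
    constructor
    · intro h
      have hCa := ind_inj h
      have hja := map_pow (τ' ^ a) C j hCa hj
      have hcol : ∀ a : ℕ, ∀ j, col ((τ' ^ a) j) = col j := by
        intro a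
        induction a with
        | zero => intro j; rfl
        | succ a ih =>
          intro j
          rw [pow_succ, Equiv.Perm.mul_apply, ih, hCol.cin]
      have := hCol.inj C hC _ hja j hj (hcol a j)
      exact (hCol.fre j a).1 this
    · intro hd
      have h1 : ∀ i, (τ' ^ a) i = i := fun i => (hCol.fre i a).2 hd
      have h2 : τ' ^ a = 1 := Equiv.ext h1
      rw [h2]
      congr 1
      ext i
      rw [Finset.mem_map_equiv]
      rfl
  have hqq : q ≤ q' := (le_max_right _ _).trans hq'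
  have hρ : pw τV ^ (p ^ q') = 1 := by
    apply Equiv.ext
    intro v
    rw [pw_pow]
    obtain ⟨m, hm⟩ := pow_dvd_pow p hqq
    rw [hm, pow_mul, hτ, one_pow]
    rfl
  obtain ⟨b, hb1, hb2⟩ := apx_f (pw τ') (pw τV) (p ^ q') hN0 hρ P hPmap hfix
    (fun v θ => ∃ x, (∀ j, v j ≠ 0 → 0 < ph j x) ∧ θ = rnd (κ x))
    (by
      rintro v ⟨C, hC, hne, rfl⟩
      obtain ⟨x, hx⟩ := hSph C hC hne
      exact ⟨rnd (κ x), x, fun j hj => hx j (ind_ne hj), rfl⟩)
    (by
      rintro v hv θ ⟨x, hx, rfl⟩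
      refine ⟨Multiplicative.ofAdd (1 : ℤ_[p]) • x, ?_, ?_⟩
      · intro j hj
        have h1 := hx (τ'.symm j) hj
        have h2 := hphe (τ'.symm j) x
        rw [Equiv.apply_symm_apply] at h2
        rw [h2]
        exact h1
      · rw [hκe, round_equi]
        rfl)
    (fun _ => 0) rfl
  -- the main step: vertices of a cube go to a common cube
  have hmain : ∀ Q : Cube V', ∀ A : Finset V', A.Nonempty → Disjoint A Q.fr → A ∪ Q.fr ∈ S →
      (∀ j, Q.lo j = if j ∈ A then 1 else 0) → ∀ j ∈ A, ∀ v, Q.Has v →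
      ∃ y, 0 < ph j y ∧ b v = rnd (κ y) := by
    intro Q A hA hd hS hlo j hj v hv
    obtain ⟨C, hC, hAC, rfl⟩ := box_vertex hCol.sub Q A hA hd hS hlo v hv
    obtain ⟨y, hy, hby⟩ := hb2 _ ⟨C, hC, hA.mono hAC, rfl⟩
    refine ⟨y, hy j ?_, hby⟩
    rw [ind_pos (hAC hj)]
    norm_num
  -- the carrier
  have hcar : ∀ x, ∃ (Q : Cube V') (A : Finset V'), A.Nonempty ∧ Disjoint A Q.fr ∧
      A ∪ Q.fr ∈ S ∧ (∀ j, Q.lo j = if j ∈ A then 1 else 0) ∧ (∀ j ∈ A, ph j x = 1) ∧
      (fun v => ph v x) ∈ Q.body := by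
    intro x
    classical
    obtain ⟨v, hv⟩ := hph1 x
    have hmemA : ∀ j, j ∈ (Finset.univ.filter fun j => ph j x = 1) ↔ ph j x = 1 := fun j => by
      rw [Finset.mem_filter]
      exact ⟨fun h => h.2, fun h => ⟨Finset.mem_univ _, h⟩⟩
    have hmemB : ∀ j, j ∈ (Finset.univ.filter fun j => 0 < ph j x ∧ ph j x < 1) ↔
        (0 < ph j x ∧ ph j x < 1) := fun j => by
      rw [Finset.mem_filter]
      exact ⟨fun h => h.2, fun h => ⟨Finset.mem_univ _, h⟩⟩
    generalize (Finset.univ.filter fun j => ph j x = 1) = A at hmemA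
    generalize (Finset.univ.filter fun j => 0 < ph j x ∧ ph j x < 1) = B at hmemB
    refine ⟨⟨fun j => if j ∈ A then 1 else 0, B⟩, A, ⟨v, (hmemA v).2 hv⟩, ?_, ?_, fun j => rfl,
      fun j hj => (hmemA j).1 hj, ?_⟩
    · rw [Finset.disjoint_left]
      intro j hj hj'
      have h1 := (hmemA j).1 hj
      have h2 := (hmemB j).1 hj'
      linarith [h2.2]
    · refine hCol.sub _ (hphS x) _ ?_
      intro j hj
      rw [Finset.mem_filter]
      refine ⟨Finset.mem_univ _, ?_⟩
      rcases Finset.mem_union.1 hj with h | h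
      · rw [(hmemA j).1 h]
        norm_num
      · exact ((hmemB j).1 h).1.ne'
    · intro j
      have h01 := hph01 j x
      simp only [Cube.hi]
      by_cases hA : j ∈ A
      · have h1 := (hmemA j).1 hA
        have hB : j ∉ B := fun h => by
          have := ((hmemB j).1 h).2
          linarith
        rw [if_pos hA, if_neg hB, h1]
        norm_num
      · rw [if_neg hA]
        by_cases hB : j ∈ B
        · rw [if_pos hB]
          norm_num
          exact h01
        · rw [if_neg hB]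
          have h0 : ph j x = 0 := by
            by_contra hne
            apply hB
            rw [hmemB]
            refine ⟨lt_of_le_of_ne h01.1 (Ne.symm hne), lt_of_le_of_ne h01.2 ?_⟩
            exact fun h => hA ((hmemA j).2 h)
          rw [h0]
          norm_num
  refine ⟨q', V', fV, oV, τ', col, S, fun x v => ph v x, b, (le_max_left _ _).trans hq', hqq, hCol,
    continuous_pi hphc, ?_, ?_, hb1, ?_, ?_⟩
  · intro x
    funext j
    show ph j _ = ph (τ'.symm j) x
    rw [← hphe (τ'.symm j) x, Equiv.apply_symm_apply]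
  · intro x
    obtain ⟨Q, A, h1, h2, h3, h4, -, h6⟩ := hcar x
    exact ⟨Q, ⟨A, h1, h2, h3, h4⟩, h6⟩
  · rintro Q ⟨A, hA, hd, hS, hlo⟩
    obtain ⟨j, hj⟩ := hA
    obtain ⟨y, hy⟩ := hSph _ hS ⟨j, Finset.mem_union_left _ hj⟩
    obtain ⟨c, hc, hc2⟩ := hcube j ⟨y, hy j (Finset.mem_union_left _ hj)⟩
    refine ⟨c, hc, fun v hv => ?_⟩
    obtain ⟨z, hz, hbz⟩ := hmain Q A ⟨j, hj⟩ hd hS hlo j hj v hv
    rw [hbz]
    exact hc2 z hz
  · intro x
    obtain ⟨Q, A, ⟨j, hj⟩, h2, h3, h4, h5, h6⟩ := hcar x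
    have hjx : 0 < ph j x := by
      rw [h5 j hj]
      norm_num
    obtain ⟨c, hc, hc2⟩ := hcube j ⟨x, hjx⟩
    refine ⟨Q, ⟨A, ⟨j, hj⟩, h2, h3, h4⟩, h6, c, hc, hc2 x hjx, fun v hv => ?_⟩
    obtain ⟨z, hz, hbz⟩ := hmain Q A ⟨j, hj⟩ h2 h3 h4 j hj v hv
    rw [hbz]
    exact hc2 z hz

end AGE
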