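import Pool.Agent.AGE.APX1
import Pool.Agent.AGE.APX2

/-!
# Project AGE, layer APX: coloured approximations of `X`: theorem `apx` is in APX1, theorem
`apx2` in APX2
-/
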