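import Mathlib

/-!
# Project AGE, module APXb: small neighbourhoods with disjoint translates

`apxb_free`: the elements of `ℤ_[p]` not divisible by `p ^ q` form a compact set (`apxb_compact`), so a small
neighbourhood is moved off itself by all of them. `apxb_tube`: the tube lemma for one residue class modulo `p ^ q`.
-/

set_option autoImplicit false

noncomputable section

namespace AGE

private theorem apxb_compact (p : ℕ) [Fact p.Prime] (q : ℕ) :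
    IsCompact {g : ℤ_[p] | ¬ (p : ℤ_[p]) ^ q ∣ g} := by
  refine IsClosed.isCompact ?_
  rw [← isOpen_compl_iff]
  have h1 : {g : ℤ_[p] | ¬ (p : ℤ_[p]) ^ q ∣ g}ᶜ = {g : ℤ_[p] | ‖g‖ < (p : ℝ) ^ (-(q : ℤ) + 1)} := by
    ext g
    rw [Set.mem_compl_iff, Set.mem_ofPred_eq, not_not, Set.mem_ofPred_eq, ← PadicInt.norm_le_pow_iff_norm_lt_pow_add_one,
      PadicInt.norm_le_pow_iff_mem_span_pow, Ideal.mem_span_singleton]
  rw [h1]
  exact isOpen_lt continuous_norm continuous_const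

private theorem apxb_free (p : ℕ) [Fact p.Prime] {X : Type} [TopologicalSpace X] [T2Space X]
    [MulAction (Multiplicative ℤ_[p]) X] [ContinuousSMul (Multiplicative ℤ_[p]) X]
    (hfree : ∀ (g : Multiplicative ℤ_[p]) (x : X), g • x = x → g = 1) (q : ℕ) (x : X) :
    ∃ A : Set X, IsOpen A ∧ x ∈ A ∧
      ∀ g : ℤ_[p], ¬ (p : ℤ_[p]) ^ q ∣ g → ∀ a ∈ A, Multiplicative.ofAdd g • a ∉ A := by
  have hn : IsOpen {y : ℤ_[p] × (X × X) | Multiplicative.ofAdd y.1 • y.2.1 ≠ y.2.2} := by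
    have h1 : IsClosed {y : ℤ_[p] × (X × X) | Multiplicative.ofAdd y.1 • y.2.1 = y.2.2} :=
      isClosed_eq (((continuous_ofAdd.comp continuous_fst)).smul (continuous_fst.comp continuous_snd))
        (continuous_snd.comp continuous_snd)
    exact h1.isOpen_compl
  have hp : {g : ℤ_[p] | ¬ (p : ℤ_[p]) ^ q ∣ g} ×ˢ {((x, x) : X × X)} ⊆
      {y : ℤ_[p] × (X × X) | Multiplicative.ofAdd y.1 • y.2.1 ≠ y.2.2} := by
    rintro ⟨g, b⟩ ⟨hg, hb⟩
    rw [Set.mem_singleton_iff] at hb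
    have hb' : b = (x, x) := hb
    subst hb'
    intro h2
    have h3 := hfree _ _ h2
    have h4 : g = 0 := by
      have := congrArg Multiplicative.toAdd h3
      exact this
    exact hg (by rw [h4]; exact dvd_zero _)
  obtain ⟨u, v, hu, hv, hKu, hxv, huv⟩ := generalized_tube_lemma (apxb_compact p q) isCompact_singleton hn hp
  obtain ⟨u1, v1, hu1, hv1, hx1, hx2, h5⟩ := isOpen_prod_iff.1 hv x x (hxv rfl)
  refine ⟨u1 ∩ v1, hu1.inter hv1, ⟨hx1, hx2⟩, fun g hg a ha hga => ?_⟩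
  have h6 : (g, (a, Multiplicative.ofAdd g • a)) ∈ u ×ˢ v := ⟨hKu hg, h5 ⟨ha.1, hga.2⟩⟩
  exact huv h6 rfl

private theorem apxb_tube (p : ℕ) [Fact p.Prime] {X : Type} [TopologicalSpace X]
    [MulAction (Multiplicative ℤ_[p]) X] [ContinuousSMul (Multiplicative ℤ_[p]) X]
    (I : Type) (U : I → Set X) (hU : ∀ i, IsOpen (U i)) (q : ℕ)
    (h : ∀ x : X, ∃ i, ∀ z : ℤ_[p], Multiplicative.ofAdd ((p : ℤ_[p]) ^ q * z) • x ∈ U i)
    (x : X) (c : ℕ) :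
    ∃ B : Set X, IsOpen B ∧ x ∈ B ∧ ∃ i, ∀ z : ℤ_[p], ∀ a ∈ B,
        Multiplicative.ofAdd ((c : ℤ_[p]) + (p : ℤ_[p]) ^ q * z) • a ∈ U i := by
  obtain ⟨i, hi⟩ := h (Multiplicative.ofAdd (c : ℤ_[p]) • x)
  have hn : IsOpen {y : ℤ_[p] × X | Multiplicative.ofAdd ((c : ℤ_[p]) + (p : ℤ_[p]) ^ q * y.1) • y.2 ∈ U i} := by
    refine (hU i).preimage ?_
    exact (continuous_ofAdd.comp (continuous_const.add (continuous_const.mul continuous_fst))).smul continuous_snd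
  have hp : (Set.univ : Set ℤ_[p]) ×ˢ {x} ⊆
      {y : ℤ_[p] × X | Multiplicative.ofAdd ((c : ℤ_[p]) + (p : ℤ_[p]) ^ q * y.1) • y.2 ∈ U i} := by
    rintro ⟨z, b⟩ ⟨-, hb⟩
    have hb' : b = x := hb
    subst hb'
    show Multiplicative.ofAdd ((c : ℤ_[p]) + (p : ℤ_[p]) ^ q * z) • b ∈ U i
    rw [add_comm, ofAdd_add, mul_smul]
    exact hi z
  obtain ⟨u, v, hu, hv, hKu, hxv, huv⟩ := generalized_tube_lemma isCompact_univ isCompact_singleton hn hp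
  exact ⟨v, hv, hxv rfl, i, fun z a ha => huv (show (z, a) ∈ u ×ˢ v from ⟨hKu (Set.mem_univ z), ha⟩)⟩

theorem apx_b (p : ℕ) [Fact p.Prime] {X : Type} [TopologicalSpace X] [T2Space X]
    [MulAction (Multiplicative ℤ_[p]) X] [ContinuousSMul (Multiplicative ℤ_[p]) X]
    (hfree : ∀ (g : Multiplicative ℤ_[p]) (x : X), g • x = x → g = 1)
    (I : Type) (U : I → Set X) (hU : ∀ i, IsOpen (U i)) (q : ℕ)
    (h : ∀ x : X, ∃ i, ∀ z : ℤ_[p], Multiplicative.ofAdd ((p : ℤ_[p]) ^ q * z) • x ∈ U i)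
    (x : X) :
    ∃ A : Set X, IsOpen A ∧ x ∈ A ∧
      (∀ g : ℤ_[p], ¬ (p : ℤ_[p]) ^ q ∣ g → ∀ a ∈ A, Multiplicative.ofAdd g • a ∉ A) ∧
      ∀ c : ℤ_[p], ∃ i, ∀ z : ℤ_[p], ∀ a ∈ A,
        Multiplicative.ofAdd (c + (p : ℤ_[p]) ^ q * z) • a ∈ U i := by
  obtain ⟨A1, hA1, hxA, hfr⟩ := apxb_free p hfree q x
  choose B hB hxB hi using apxb_tube p I U hU q h x
  refine ⟨A1 ∩ ⋂ c ∈ Finset.range (p ^ q), B c, hA1.inter (isOpen_biInter_finset fun c _ => hB c),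
    ⟨hxA, Set.mem_iInter₂.2 fun c _ => hxB c⟩, fun g hg a ha hga => hfr g hg a ha.1 hga.1, fun c => ?_⟩
  obtain ⟨w, hw⟩ := Ideal.mem_span_singleton.1 (PadicInt.appr_spec q c)
  obtain ⟨i, hi'⟩ := hi (PadicInt.appr c q)
  refine ⟨i, fun z a ha => ?_⟩
  have ha2 : a ∈ B (PadicInt.appr c q) :=
    Set.mem_iInter₂.1 ha.2 _ (Finset.mem_range.2 (PadicInt.appr_lt c q))
  have h1 : c + (p : ℤ_[p]) ^ q * z = (PadicInt.appr c q : ℤ_[p]) + (p : ℤ_[p]) ^ q * (w + z) := by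
    rw [mul_add, ← hw]
    ring
  rw [h1]
  exact hi' (w + z) a ha2

end AGE
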