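import Pool.Agent.AGE.Defs

/-!
# Project AGE, module LIM3: the action of `ℤ_p` on the functions `F`

(lim3a) Every `z : ℤ_[p]` is `a + p ^ m * w` with `a : ℕ`.
(lim3b) The function `F` is equivariant for the natural numbers by induction; the powers `p ^ m * w` act trivially on the
values of `F`, by continuity and the density of the natural numbers in `ℤ_[p]`.
-/

set_option autoImplicit false

noncomputable section

namespace AGE

private theorem LIM3_nat (p : ℕ) [Fact p.Prime] {X : Type}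
    [MulAction (Multiplicative ℤ_[p]) X] {J : Type} (τ : Equiv.Perm J) (F : X → J → ℝ)
    (hFe : ∀ x, F (Multiplicative.ofAdd (1 : ℤ_[p]) • x) = actP τ (F x)) (b : ℕ) :
    ∀ x, F (Multiplicative.ofAdd (b : ℤ_[p]) • x) = actP (τ ^ b) (F x) := by
  induction b with
  | zero =>
    intro x
    rw [Nat.cast_zero, ofAdd_zero, one_smul, pow_zero]
    rfl
  | succ b ih =>
    intro x
    rw [Nat.cast_add, Nat.cast_one, ofAdd_add, mul_smul, ih, hFe, pow_succ]
    rfl

theorem lim3a (p : ℕ) [Fact p.Prime] (m : ℕ) (z : ℤ_[p]) :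
    ∃ (a : ℕ) (w : ℤ_[p]), z = (a : ℤ_[p]) + (p : ℤ_[p]) ^ m * w := by
  have h := PadicInt.appr_spec m z
  rw [Ideal.mem_span_singleton] at h
  obtain ⟨w, hw⟩ := h
  exact ⟨z.appr m, w, by rw [← hw]; ring⟩

theorem lim3b (p : ℕ) [Fact p.Prime] {X : Type} [TopologicalSpace X]
    [MulAction (Multiplicative ℤ_[p]) X] [ContinuousSMul (Multiplicative ℤ_[p]) X]
    {J : Type} (τ : Equiv.Perm J) (m : ℕ) (hτ : τ ^ (p ^ m) = 1) (F : X → J → ℝ)
    (hFc : Continuous F)
    (hFe : ∀ x, F (Multiplicative.ofAdd (1 : ℤ_[p]) • x) = actP τ (F x))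
    (a : ℕ) (w : ℤ_[p]) (x : X) :
    F (Multiplicative.ofAdd ((a : ℤ_[p]) + (p : ℤ_[p]) ^ m * w) • x) = actP (τ ^ a) (F x) := by
  have h1 := LIM3_nat p τ F hFe
  have h2 : (fun w : ℤ_[p] => F (Multiplicative.ofAdd ((p : ℤ_[p]) ^ m * w) • x)) = fun _ => F x := by
    refine PadicInt.denseRange_natCast.equalizer ?_ continuous_const ?_
    · have h3 : Continuous fun w : ℤ_[p] => (p : ℤ_[p]) ^ m * w := continuous_const.mul continuous_id
      exact hFc.comp ((continuous_ofAdd.comp h3).smul continuous_const)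
    · funext b
      show F (Multiplicative.ofAdd ((p : ℤ_[p]) ^ m * (b : ℤ_[p])) • x) = F x
      have h3 : (p : ℤ_[p]) ^ m * (b : ℤ_[p]) = ((p ^ m * b : ℕ) : ℤ_[p]) := by push_cast; rfl
      rw [h3, h1, pow_mul, hτ, one_pow]
      rfl
  have h3 : F (Multiplicative.ofAdd ((p : ℤ_[p]) ^ m * w) • x) = F x := congrFun h2 w
  rw [ofAdd_add, mul_smul, h1, h3]

end AGE
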