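import Pool.Agent.AGE.APXc
import Pool.Agent.AGE.LIM3

/-!
# Project AGE, module APXd: lifted functions

Plan. `V₀ := L × ZMod (p ^ q)` (`L` finite), `τ₀ (j, c) = (j, c + 1)`; `u j` from `apx_c` for
`W j`; `O j c := {x | Quotient.mk _ x ∈ W j ∧ ∃ z : ℤ_[p], ∃ a ∈ A j,
ofAdd (c.val + p ^ q * z) • a = x}`; `u (j, c) x := if x ∈ O j c then u j x else 0`.
* every `O j c` is open: preimage of `W j` under the continuous quotient map, and a union over
  `z` of images of the open set `A j` under homeomorphisms (`isOpenMap_smul`).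
* if `Quotient.mk _ x ∈ W j` then `x = g • a` with `a ∈ A j` (`hWA`, `Quotient.eq`,
  `MulAction.orbitRel_apply`, `MulAction.mem_orbit_iff`), and by `lim3a` `g` is
  `ofAdd (b + p ^ q * w)` with `b` natural; `b = (b : ZMod (p^q)).val + p ^ q * (b / p^q)`
  (`ZMod.val_natCast`, `Nat.div_add_mod`), so `x ∈ O j b`.
* disjointness: `x ∈ O j c ∩ O j c'` gives `ofAdd (c.val + p^q z) • a = ofAdd (c'.val + p^q z') • a'`,
  so `ofAdd (c.val - c'.val + p^q (z - z')) • a = a'`, by `hA1` `p ^ q ∣ c.val - c'.val + ...`, so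
  `p ^ q ∣ (c.val : ℤ_[p]) - c'.val`; for natural numbers divisibility in `ℤ_[p]` by `p ^ q` is
  divisibility in `ℕ`/`ℤ` (`PadicInt.pow_p_dvd_int_iff`, or norm), and both are `< p ^ q`, so `c = c'`.
* continuity of `u (j, c)`: at `x ∈ O j c` it is `u j` near `x`; at a point of `O j c'`, `c' ≠ c`,
  it is `0` near `x`; at other points `u j x = 0` and `0 ≤ u (j, c) ≤ u j` (squeeze).
  (`continuous_iff_continuousAt`.)
* `u (τ₀ v) (t • x) = u v x`, `t = ofAdd 1`: `x ∈ O j c ↔ t • x ∈ O j (c + 1)`: `(c+1).val` is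
  `c.val + 1` or `c.val + 1 - p ^ q` (`ZMod.val_add`), adjust `z` by one; `Quotient.mk (t • x) =
  Quotient.mk x`; `u j` is invariant.
* `{v | 0 < u v x}` injects by `Prod.fst` into `{j | Quotient.mk _ x ∈ W j}` (disjointness), of
  `ncard ≤ d`.
* last item but one: `0 < u (j, c) x` and `0 < u ((τ₀ ^ a) (j, c)) x = u (j, c + a) x` give
  `c = c + a` in `ZMod (p^q)`, so `p ^ q ∣ a` (`ZMod.natCast_eq_zero_iff` etc.).
* `0 < u (j, c) x` gives `x ∈ O j c ⊆ U i` with `i` from `hA2 j c.val`.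
-/

set_option autoImplicit false

noncomputable section

namespace AGE

open TopologicalSpace

private def OO (p : ℕ) [Fact p.Prime] {X : Type} [MulAction (Multiplicative ℤ_[p]) X] (q : ℕ)
    (W : Set (Quotient (MulAction.orbitRel (Multiplicative ℤ_[p]) X))) (A : Set X) (k : ℤ_[p]) :
    Set X :=
  {x | Quotient.mk (MulAction.orbitRel (Multiplicative ℤ_[p]) X) x ∈ W ∧
    ∃ z : ℤ_[p], ∃ a ∈ A, Multiplicative.ofAdd (k + (p : ℤ_[p]) ^ q * z) • a = x}

private theorem mk_smul (p : ℕ) [Fact p.Prime] {X : Type} [MulAction (Multiplicative ℤ_[p]) X]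
    (g : Multiplicative ℤ_[p]) (x : X) :
    Quotient.mk (MulAction.orbitRel (Multiplicative ℤ_[p]) X) (g • x) =
      Quotient.mk (MulAction.orbitRel (Multiplicative ℤ_[p]) X) x := by
  apply Quotient.sound
  exact MulAction.mem_orbit x g

private theorem OO_open (p : ℕ) [Fact p.Prime] {X : Type} [TopologicalSpace X]
    [MulAction (Multiplicative ℤ_[p]) X] [ContinuousSMul (Multiplicative ℤ_[p]) X] (q : ℕ)
    (W : Set (Quotient (MulAction.orbitRel (Multiplicative ℤ_[p]) X))) (A : Set X)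
    (hW : IsOpen W) (hA : IsOpen A) (k : ℤ_[p]) : IsOpen (OO p q W A k) := by
  have h1 : IsOpen {x | Quotient.mk (MulAction.orbitRel (Multiplicative ℤ_[p]) X) x ∈ W} :=
    hW.preimage continuous_quot_mk
  have h2 : IsOpen (⋃ z : ℤ_[p], (fun x => Multiplicative.ofAdd (k + (p : ℤ_[p]) ^ q * z) • x) '' A) :=
    isOpen_iUnion fun z => isOpenMap_smul _ A hA
  have h3 : OO p q W A k = {x | Quotient.mk (MulAction.orbitRel (Multiplicative ℤ_[p]) X) x ∈ W} ∩
      (⋃ z : ℤ_[p], (fun x => Multiplicative.ofAdd (k + (p : ℤ_[p]) ^ q * z) • x) '' A) := by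
    ext x
    simp only [OO, Set.mem_ofPred_eq, Set.mem_inter_iff, Set.mem_iUnion, Set.mem_image]
  rw [h3]
  exact h1.inter h2

private theorem OO_shift (p : ℕ) [Fact p.Prime] {X : Type} [MulAction (Multiplicative ℤ_[p]) X]
    (q : ℕ) (W : Set (Quotient (MulAction.orbitRel (Multiplicative ℤ_[p]) X))) (A : Set X)
    (k k' : ℤ_[p]) (h : (p : ℤ_[p]) ^ q ∣ k - k') {x : X} (hx : x ∈ OO p q W A k) :
    x ∈ OO p q W A k' := by
  obtain ⟨w, hw⟩ := h
  obtain ⟨h1, z, a, ha, hz⟩ := hx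
  refine ⟨h1, z + w, a, ha, ?_⟩
  rw [← hz]
  congr 2
  linear_combination (-1 : ℤ_[p]) * hw

private theorem OO_smul (p : ℕ) [Fact p.Prime] {X : Type} [MulAction (Multiplicative ℤ_[p]) X]
    (q : ℕ) (W : Set (Quotient (MulAction.orbitRel (Multiplicative ℤ_[p]) X))) (A : Set X)
    (k : ℤ_[p]) (x : X) :
    (Multiplicative.ofAdd (1 : ℤ_[p]) • x) ∈ OO p q W A (k + 1) ↔ x ∈ OO p q W A k := by
  constructor
  · rintro ⟨h1, z, a, ha, hz⟩
    refine ⟨by rw [mk_smul] at h1; exact h1, z, a, ha, ?_⟩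
    have e : Multiplicative.ofAdd (k + 1 + (p : ℤ_[p]) ^ q * z) =
        Multiplicative.ofAdd (1 : ℤ_[p]) * Multiplicative.ofAdd (k + (p : ℤ_[p]) ^ q * z) := by
      rw [← ofAdd_add]
      congr 1
      ring
    rw [e, mul_smul] at hz
    exact MulAction.injective _ hz
  · rintro ⟨h1, z, a, ha, hz⟩
    refine ⟨by rw [mk_smul]; exact h1, z, a, ha, ?_⟩
    have e : Multiplicative.ofAdd (k + 1 + (p : ℤ_[p]) ^ q * z) =
        Multiplicative.ofAdd (1 : ℤ_[p]) * Multiplicative.ofAdd (k + (p : ℤ_[p]) ^ q * z) := by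
      rw [← ofAdd_add]
      congr 1
      ring
    rw [e, mul_smul, hz]

private theorem OO_disj (p : ℕ) [Fact p.Prime] {X : Type} [MulAction (Multiplicative ℤ_[p]) X]
    (q : ℕ) (W : Set (Quotient (MulAction.orbitRel (Multiplicative ℤ_[p]) X))) (A : Set X)
    (hA1 : ∀ g : ℤ_[p], ¬ (p : ℤ_[p]) ^ q ∣ g → ∀ a ∈ A, Multiplicative.ofAdd g • a ∉ A)
    (k k' : ℤ_[p]) {x : X} (hx : x ∈ OO p q W A k) (hx' : x ∈ OO p q W A k') :
    (p : ℤ_[p]) ^ q ∣ k - k' := by
  obtain ⟨-, z, a, ha, hz⟩ := hx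
  obtain ⟨-, z', a', ha', hz'⟩ := hx'
  by_contra hcon
  have hn : ¬ (p : ℤ_[p]) ^ q ∣ (k + (p : ℤ_[p]) ^ q * z) - (k' + (p : ℤ_[p]) ^ q * z') := by
    intro hd
    apply hcon
    have e : k - k' = (k + (p : ℤ_[p]) ^ q * z) - (k' + (p : ℤ_[p]) ^ q * z') -
        (p : ℤ_[p]) ^ q * (z - z') := by ring
    rw [e]
    exact dvd_sub hd (dvd_mul_right _ _)
  apply hA1 _ hn a ha
  have e : Multiplicative.ofAdd ((k + (p : ℤ_[p]) ^ q * z) - (k' + (p : ℤ_[p]) ^ q * z')) • a = a' := by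
    rw [ofAdd_sub, div_eq_inv_mul, mul_smul, hz, ← hz', inv_smul_smul]
  rw [e]
  exact ha'

private theorem OO_cover (p : ℕ) [Fact p.Prime] {X : Type} [MulAction (Multiplicative ℤ_[p]) X]
    (q : ℕ) (W : Set (Quotient (MulAction.orbitRel (Multiplicative ℤ_[p]) X))) (A : Set X)
    (hWA : W ⊆ (Quotient.mk (MulAction.orbitRel (Multiplicative ℤ_[p]) X)) '' A) {x : X}
    (hx : Quotient.mk (MulAction.orbitRel (Multiplicative ℤ_[p]) X) x ∈ W) :
    ∃ b : ℕ, x ∈ OO p q W A (b : ℤ_[p]) := by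
  obtain ⟨a, ha, hax⟩ := hWA hx
  have h1 := Quotient.exact hax.symm
  obtain ⟨g, hg⟩ := h1
  obtain ⟨b, w, hbw⟩ := lim3a p q (Multiplicative.toAdd g)
  refine ⟨b, hx, w, a, ha, ?_⟩
  rw [← hbw, ofAdd_toAdd]
  exact hg

private theorem key (p : ℕ) [Fact p.Prime] (q : ℕ) (a b : ℤ) :
    (p : ℤ_[p]) ^ q ∣ (a : ℤ_[p]) - b ↔ ((a : ZMod (p ^ q)) = b) := by
  rw [← Int.cast_sub, PadicInt.pow_p_dvd_int_iff, ← sub_eq_zero, ← Int.cast_sub,
    ZMod.intCast_zmod_eq_zero_iff_dvd]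
  push_cast
  rfl

theorem apx_d (p : ℕ) [Fact p.Prime] {X : Type} [TopologicalSpace X] [CompactSpace X]
    [MetrizableSpace X] [MulAction (Multiplicative ℤ_[p]) X]
    [ContinuousSMul (Multiplicative ℤ_[p]) X] (I : Type) (U : I → Set X) (q d : ℕ)
    (L : Type) [Finite L] (W : L → Set (Quotient (MulAction.orbitRel (Multiplicative ℤ_[p]) X)))
    (hW : ∀ j, IsOpen (W j)) (hWc : ⋃ j, W j = Set.univ) (hWn : ∀ b, {j | b ∈ W j}.ncard ≤ d)
    (A : L → Set X) (hAo : ∀ j, IsOpen (A j))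
    (hWA : ∀ j, W j ⊆ (Quotient.mk (MulAction.orbitRel (Multiplicative ℤ_[p]) X)) '' (A j))
    (hA1 : ∀ j, ∀ g : ℤ_[p], ¬ (p : ℤ_[p]) ^ q ∣ g → ∀ a ∈ A j,
      Multiplicative.ofAdd g • a ∉ A j)
    (hA2 : ∀ j, ∀ c : ℤ_[p], ∃ i, ∀ z : ℤ_[p], ∀ a ∈ A j,
      Multiplicative.ofAdd (c + (p : ℤ_[p]) ^ q * z) • a ∈ U i) :
    ∃ (V₀ : Type) (_ : Fintype V₀) (τ₀ : Equiv.Perm V₀) (u : V₀ → X → ℝ),
      τ₀ ^ (p ^ q) = 1 ∧ (∀ v, Continuous (u v)) ∧ (∀ v x, 0 ≤ u v x) ∧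
      (∀ v x, u (τ₀ v) (Multiplicative.ofAdd (1 : ℤ_[p]) • x) = u v x) ∧
      (∀ x, ∃ v, 0 < u v x) ∧ (∀ x, {v | 0 < u v x}.ncard ≤ d) ∧
      (∀ v, ∀ a : ℕ, ∀ x, 0 < u v x → 0 < u ((τ₀ ^ a) v) x → p ^ q ∣ a) ∧
      ∀ v, ∃ i, ∀ x, 0 < u v x → x ∈ U i := by
  classical
  have : NeZero (p ^ q) := ⟨pow_ne_zero _ (Fact.out : p.Prime).ne_zero⟩
  have hval : ∀ (b : ℕ), (p : ℤ_[p]) ^ q ∣ (b : ℤ_[p]) - (((b : ZMod (p ^ q)).val : ℕ) : ℤ_[p]) := by
    intro b
    have := (key p q (b : ℤ) (((b : ZMod (p ^ q)).val : ℕ) : ℤ)).2 (by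
      push_cast
      rw [ZMod.natCast_zmod_val])
    rwa [Int.cast_natCast, Int.cast_natCast] at this
  have hinj : ∀ c c' : ZMod (p ^ q), (p : ℤ_[p]) ^ q ∣ ((c.val : ℕ) : ℤ_[p]) - ((c'.val : ℕ) : ℤ_[p]) →
      c = c' := by
    intro c c' h
    have := (key p q ((c.val : ℕ) : ℤ) ((c'.val : ℕ) : ℤ)).1 (by simpa using h)
    push_cast at this
    rwa [ZMod.natCast_zmod_val, ZMod.natCast_zmod_val] at this
  have hsucc : ∀ c : ZMod (p ^ q), (p : ℤ_[p]) ^ q ∣ (((c + 1).val : ℕ) : ℤ_[p]) - (((c.val : ℕ) : ℤ_[p]) + 1) := by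
    intro c
    have := (key p q (((c + 1).val : ℕ) : ℤ) (((c.val + 1 : ℕ)) : ℤ)).2 (by
      push_cast
      rw [ZMod.natCast_zmod_val, ZMod.natCast_zmod_val])
    simpa using this
  choose u' hu1 hu2 hu3 hu4 using fun j => apx_c (G := Multiplicative ℤ_[p]) (X := X) (W j) (hW j)
  let O : L → ZMod (p ^ q) → Set X := fun j c => OO p q (W j) (A j) ((c.val : ℕ) : ℤ_[p])
  have hOo : ∀ j c, IsOpen (O j c) := fun j c => OO_open p q (W j) (A j) (hW j) (hAo j) _
  have hOd : ∀ j c c' x, x ∈ O j c → x ∈ O j c' → c = c' := by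
    intro j c c' x h h'
    exact hinj c c' (OO_disj p q (W j) (A j) (hA1 j) _ _ h h')
  have hOc : ∀ j x, Quotient.mk (MulAction.orbitRel (Multiplicative ℤ_[p]) X) x ∈ W j →
      ∃ c, x ∈ O j c := by
    intro j x hx
    obtain ⟨b, hb⟩ := OO_cover p q (W j) (A j) (hWA j) hx
    exact ⟨(b : ZMod (p ^ q)), OO_shift p q (W j) (A j) _ _ (hval b) hb⟩
  have hOs : ∀ j c x, (Multiplicative.ofAdd (1 : ℤ_[p]) • x) ∈ O j (c + 1) ↔ x ∈ O j c := by
    intro j c x
    rw [← OO_smul p q (W j) (A j) ((c.val : ℕ) : ℤ_[p]) x]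
    constructor
    · exact OO_shift p q (W j) (A j) _ _ (hsucc c)
    · apply OO_shift p q (W j) (A j) _ _
      have := (hsucc c).neg_right
      rwa [neg_sub] at this
  let u : L × ZMod (p ^ q) → X → ℝ := fun v x => if x ∈ O v.1 v.2 then u' v.1 x else 0
  have hupos : ∀ v x, 0 < u v x ↔ x ∈ O v.1 v.2 := by
    intro v x
    constructor
    · intro h
      by_contra hn
      simp only [u, if_neg hn, lt_irrefl] at h
    · intro h
      simp only [u, if_pos h]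
      exact (hu4 v.1 x).2 h.1
  have hu0 : ∀ v x, 0 ≤ u v x := by
    intro v x
    simp only [u]
    split_ifs
    · exact hu2 v.1 x
    · exact le_refl _
  let τ₀ : Equiv.Perm (L × ZMod (p ^ q)) := (Equiv.refl L).prodCongr (Equiv.addRight 1)
  have hτ : ∀ (a : ℕ) (v : L × ZMod (p ^ q)), (τ₀ ^ a) v = (v.1, v.2 + (a : ZMod (p ^ q))) := by
    intro a
    induction a with
    | zero => intro v; simp
    | succ a ih =>
      intro v
      rw [pow_succ, Equiv.Perm.mul_apply, ih]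
      simp [τ₀, add_comm, add_left_comm]
  refine ⟨L × ZMod (p ^ q), Fintype.ofFinite _, τ₀, u, ?_, ?_, hu0, ?_, ?_, ?_, ?_, ?_⟩
  · ext v : 1
    rw [hτ]
    simp
  · intro v
    rw [continuous_iff_continuousAt]
    intro x
    by_cases hx : Quotient.mk (MulAction.orbitRel (Multiplicative ℤ_[p]) X) x ∈ W v.1
    · obtain ⟨c, hc⟩ := hOc v.1 x hx
      by_cases hcv : c = v.2
      · rw [hcv] at hc
        apply (hu1 v.1).continuousAt.congr
        filter_upwards [(hOo v.1 v.2).mem_nhds hc] with y hy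
        simp only [u, if_pos hy]
      · apply (continuousAt_const (y := (0 : ℝ))).congr
        filter_upwards [(hOo v.1 c).mem_nhds hc] with y hy
        have : y ∉ O v.1 v.2 := fun h => hcv (hOd v.1 c v.2 y hy h)
        simp only [u, if_neg this]
    · have h0 : u' v.1 x = 0 := by
        have := hu2 v.1 x
        rcases this.lt_or_eq with h | h
        · exact absurd ((hu4 v.1 x).1 h) hx
        · exact h.symm
      have h1 : u v x = 0 := by
        have : x ∉ O v.1 v.2 := fun h => hx h.1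
        simp only [u, if_neg this]
      unfold ContinuousAt
      rw [h1]
      refine squeeze_zero (hu0 v) (g := u' v.1) ?_ ?_
      · intro y
        simp only [u]
        split_ifs
        · exact le_refl _
        · exact hu2 v.1 y
      · have := (hu1 v.1).continuousAt (x := x)
        unfold ContinuousAt at this
        rwa [h0] at this
  · intro v x
    have h1 : τ₀ v = (v.1, v.2 + 1) := rfl
    rw [h1]
    by_cases h : x ∈ O v.1 v.2
    · have h' := (hOs v.1 v.2 x).2 h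
      simp only [u, if_pos h, if_pos h']
      exact hu3 v.1 _ x
    · have h' : (Multiplicative.ofAdd (1 : ℤ_[p]) • x) ∉ O v.1 (v.2 + 1) :=
        fun hh => h ((hOs v.1 v.2 x).1 hh)
      simp only [u, if_neg h, if_neg h']
  · intro x
    have hx : Quotient.mk (MulAction.orbitRel (Multiplicative ℤ_[p]) X) x ∈ ⋃ j, W j := by
      rw [hWc]; trivial
    obtain ⟨j, hj⟩ := Set.mem_iUnion.1 hx
    obtain ⟨c, hc⟩ := hOc j x hj
    exact ⟨(j, c), (hupos (j, c) x).2 hc⟩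
  · intro x
    refine le_trans (Set.ncard_le_ncard_of_injOn Prod.fst ?_ ?_ ?_) (hWn (Quotient.mk _ x))
    · intro v hv
      exact ((hupos v x).1 hv).1
    · intro v hv v' hv' hvv
      have h1 := (hupos v x).1 hv
      have h2 := (hupos v' x).1 hv'
      rw [← hvv] at h2
      exact Prod.ext hvv (hOd v.1 v.2 v'.2 x h1 h2)
    · exact Set.toFinite _
  · intro v a x h1 h2
    rw [hτ] at h2
    have h1' := (hupos v x).1 h1
    have h2' := (hupos _ x).1 h2
    have h3 := hOd v.1 v.2 (v.2 + (a : ZMod (p ^ q))) x h1' h2'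
    have h4 : ((a : ℕ) : ZMod (p ^ q)) = 0 := by
      have := h3.symm
      simpa using this
    exact (ZMod.natCast_eq_zero_iff a (p ^ q)).1 h4
  · intro v
    obtain ⟨i, hi⟩ := hA2 v.1 ((v.2.val : ℕ) : ℤ_[p])
    refine ⟨i, ?_⟩
    intro x hx
    obtain ⟨-, z, a, ha, hz⟩ := (hupos v x).1 hx
    rw [← hz]
    exact hi z a ha

end AGE
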