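import Pool.Agent.AGE.Defs

/-!
# Project AGE, module APXe: the coloured complex of superlevel sets

For a finite family of nonnegative functions `u v` the vertices of the complex are the sets `A` which are, at some point,
strict superlevel sets of `v ↦ u v x`; the function of `A` is the product of the values and of the positive parts of the
differences, divided by the maximum over all `A`. The colour of `A` is `A.card - 1`.
-/

set_option autoImplicit false

noncomputable section

namespace AGE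

open Classical in
private def APXe_psi {X V₀ : Type} [Fintype V₀] (u : V₀ → X → ℝ) (A : Finset V₀) (x : X) : ℝ :=
  (∏ v ∈ A, u v x) * ∏ v ∈ A, ∏ w : V₀, if w ∈ A then 1 else max 0 (u v x - u w x)

section psi

variable {X V₀ : Type} [Fintype V₀] {u : V₀ → X → ℝ}

open Classical in
private theorem APXe_nn (hu0 : ∀ v x, 0 ≤ u v x) (A : Finset V₀) (x : X) : 0 ≤ APXe_psi u A x := by
  unfold APXe_psi
  refine mul_nonneg (Finset.prod_nonneg fun v _ => hu0 v x)
    (Finset.prod_nonneg fun v _ => Finset.prod_nonneg fun w _ => ?_)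
  split_ifs
  · exact zero_le_one
  · exact le_max_left _ _

open Classical in
private theorem APXe_pos (hu0 : ∀ v x, 0 ≤ u v x) (A : Finset V₀) (x : X) :
    0 < APXe_psi u A x ↔ (∀ v ∈ A, 0 < u v x) ∧ ∀ v ∈ A, ∀ w, w ∉ A → u w x < u v x := by
  constructor
  · intro h
    have hne : APXe_psi u A x ≠ 0 := h.ne'
    unfold APXe_psi at hne
    have h1 := left_ne_zero_of_mul hne
    have h2 := right_ne_zero_of_mul hne
    rw [Finset.prod_ne_zero_iff] at h1 h2
    refine ⟨fun v hv => lt_of_le_of_ne (hu0 v x) (h1 v hv).symm, fun v hv w hw => ?_⟩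
    have h3 := h2 v hv
    rw [Finset.prod_ne_zero_iff] at h3
    have h4 := h3 w (Finset.mem_univ w)
    rw [if_neg hw] at h4
    by_contra h5
    exact h4 (max_eq_left (by linarith [not_lt.1 h5]))
  · rintro ⟨h1, h2⟩
    unfold APXe_psi
    refine mul_pos (Finset.prod_pos h1) (Finset.prod_pos fun v hv => Finset.prod_pos fun w _ => ?_)
    split_ifs with h3
    · exact zero_lt_one
    · exact lt_max_of_lt_right (by linarith [h2 v hv w h3])

open Classical in
private theorem APXe_cont [TopologicalSpace X] (huc : ∀ v, Continuous (u v)) (A : Finset V₀) :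
    Continuous (APXe_psi u A) := by
  unfold APXe_psi
  refine (continuous_finsetProd _ fun v _ => huc v).mul
    (continuous_finsetProd _ fun v _ => continuous_finsetProd _ fun w _ => ?_)
  split_ifs
  · exact continuous_const
  · exact continuous_const.max ((huc v).sub (huc w))

open Classical in
private theorem APXe_map {t : Equiv.Perm X} {τ₀ : Equiv.Perm V₀} (hut : ∀ v x, u (τ₀ v) (t x) = u v x)
    (A : Finset V₀) (x : X) : APXe_psi u (A.map τ₀.toEmbedding) (t x) = APXe_psi u A x := by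
  unfold APXe_psi
  rw [Finset.prod_map, Finset.prod_map]
  have h1 : ∀ v ∈ A, u (τ₀.toEmbedding v) (t x) = u v x := fun v _ => hut v x
  rw [Finset.prod_congr rfl h1]
  refine congrArg _ (Finset.prod_congr rfl fun v hv => ?_)
  rw [← Equiv.prod_comp τ₀]
  refine Finset.prod_congr rfl fun w _ => ?_
  have h2 : τ₀ w ∈ A.map τ₀.toEmbedding ↔ w ∈ A := Finset.mem_map' τ₀.toEmbedding
  rw [h1 v hv, hut w x]
  by_cases h3 : w ∈ A
  · rw [if_pos h3, if_pos (h2.2 h3)]
  · rw [if_neg h3, if_neg fun h4 => h3 (h2.1 h4)]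

/-- the vertices -/
private def APXe_V (u : V₀ → X → ℝ) : Type := {A : Finset V₀ // A.Nonempty ∧ ∃ x, 0 < APXe_psi u A x}

private instance : Finite (APXe_V u) := by
  unfold APXe_V
  infer_instance

private theorem APXe_iff {t : Equiv.Perm X} {τ₀ : Equiv.Perm V₀} (hut : ∀ v x, u (τ₀ v) (t x) = u v x)
    (A : Finset V₀) : ((τ₀.finsetCongr A).Nonempty ∧ ∃ x, 0 < APXe_psi u (τ₀.finsetCongr A) x) ↔
      A.Nonempty ∧ ∃ x, 0 < APXe_psi u A x := by
  have h0 : τ₀.finsetCongr A = A.map τ₀.toEmbedding := rfl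
  rw [h0, Finset.map_nonempty]
  refine and_congr_right fun _ => ⟨?_, ?_⟩
  · rintro ⟨x, hx⟩
    refine ⟨t.symm x, ?_⟩
    rw [← APXe_map hut, Equiv.apply_symm_apply]
    exact hx
  · rintro ⟨x, hx⟩
    refine ⟨t x, ?_⟩
    rw [APXe_map hut]
    exact hx

/-- the permutation of the vertices -/
private def APXe_tau {t : Equiv.Perm X} {τ₀ : Equiv.Perm V₀} (hut : ∀ v x, u (τ₀ v) (t x) = u v x) :
    Equiv.Perm (APXe_V u) :=
  Equiv.Perm.subtypePerm τ₀.finsetCongr fun A => APXe_iff hut A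

private theorem APXe_tau_val {t : Equiv.Perm X} {τ₀ : Equiv.Perm V₀} (hut : ∀ v x, u (τ₀ v) (t x) = u v x)
    (A : APXe_V u) : (APXe_tau hut A).1 = A.1.map τ₀.toEmbedding := rfl

private theorem APXe_pow {t : Equiv.Perm X} {τ₀ : Equiv.Perm V₀} (hut : ∀ v x, u (τ₀ v) (t x) = u v x)
    (a : ℕ) (A : APXe_V u) : (((APXe_tau hut) ^ a) A).1 = A.1.map (τ₀ ^ a).toEmbedding := by
  induction a with
  | zero => exact (Finset.map_refl (s := A.1)).symm
  | succ a ih =>
    rw [pow_succ', Equiv.Perm.mul_apply, APXe_tau_val, ih, Finset.map_map]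
    ext v
    simp only [Finset.mem_map, Function.Embedding.trans_apply, Equiv.coe_toEmbedding, pow_succ',
      Equiv.Perm.mul_apply]

end psi

open Classical in
theorem apx_e (n N : ℕ) (hN : 0 < N) {X : Type} [TopologicalSpace X] (t : Equiv.Perm X)
    (I : Type) (U : I → Set X) (V₀ : Type) [Fintype V₀] (τ₀ : Equiv.Perm V₀)
    (hτ : τ₀ ^ N = 1) (u : V₀ → X → ℝ) (huc : ∀ v, Continuous (u v)) (hu0 : ∀ v x, 0 ≤ u v x)
    (hut : ∀ v x, u (τ₀ v) (t x) = u v x) (hpos : ∀ x, ∃ v, 0 < u v x)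
    (hcard : ∀ x, {v | 0 < u v x}.ncard ≤ n + 2)
    (hfree : ∀ v, ∀ a : ℕ, ∀ x, 0 < u v x → 0 < u ((τ₀ ^ a) v) x → N ∣ a)
    (hUi : ∀ v, ∃ i, ∀ x, 0 < u v x → x ∈ U i) :
    ∃ (V : Type) (_ : Fintype V) (_ : LinearOrder V) (τ : Equiv.Perm V) (col : V → ℕ)
      (S : Set (Finset V)) (ph : V → X → ℝ), Col n N S τ col ∧
      (∀ v, Continuous (ph v)) ∧ (∀ v x, 0 ≤ ph v x ∧ ph v x ≤ 1) ∧
      (∀ v x, ph (τ v) (t x) = ph v x) ∧
      (∀ x, ∃ v, ph v x = 1) ∧ (∀ x, (Finset.univ.filter fun v => ph v x ≠ 0) ∈ S) ∧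
      (∀ A ∈ S, A.Nonempty → ∃ x, ∀ v ∈ A, 0 < ph v x) ∧
      (∀ v, ∃ i, ∀ x, 0 < ph v x → x ∈ U i) := by
  rcases isEmpty_or_nonempty X with hX | hX
  · refine ⟨Empty, inferInstance, inferInstance, 1, fun _ => 0, {∅}, fun _ _ => 0, ?_, ?_, ?_, ?_, ?_, ?_, ?_, ?_⟩
    · refine ⟨hN, fun v => v.elim, fun v => v.elim, fun v => v.elim, fun v => v.elim, ?_, ?_, ?_⟩
      · rintro A hA B hB
        rw [Set.mem_singleton_iff] at hA ⊢
        rw [hA, Finset.subset_empty] at hB
        exact hB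
      · intro A
        rw [Set.mem_singleton_iff, Set.mem_singleton_iff, Finset.map_eq_empty]
      · rintro A _ v
        exact v.elim
    · exact fun v => v.elim
    · exact fun v => v.elim
    · exact fun v => v.elim
    · exact fun x => (hX.false x).elim
    · exact fun x => (hX.false x).elim
    · rintro A _ ⟨v, _⟩
      exact v.elim
    · exact fun v => v.elim
  -- `X` is not empty
  have hmem : ∀ x, ∃ A : APXe_V u, 0 < APXe_psi u A.1 x := by
    intro x
    obtain ⟨v0, hv0⟩ := hpos x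
    obtain ⟨v1, -, hv1⟩ := Finset.exists_max_image Finset.univ (fun v => u v x) ⟨v0, Finset.mem_univ v0⟩
    have h1 : 0 < APXe_psi u (Finset.univ.filter fun v => ∀ w, u w x ≤ u v x) x := by
      rw [APXe_pos hu0]
      refine ⟨fun v hv => ?_, fun v hv w hw => ?_⟩
      · rw [Finset.mem_filter] at hv
        exact hv0.trans_le (hv.2 v0)
      · rw [Finset.mem_filter] at hv hw
        have h2 : ¬ ∀ w', u w' x ≤ u w x := fun h3 => hw ⟨Finset.mem_univ _, h3⟩
        push Not at h2
        obtain ⟨w', hw'⟩ := h2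
        exact hw'.trans_le (hv.2 w')
    refine ⟨⟨_, ⟨v1, ?_⟩, x, h1⟩, h1⟩
    rw [Finset.mem_filter]
    exact ⟨Finset.mem_univ _, fun w => hv1 w (Finset.mem_univ w)⟩
  obtain ⟨x₀⟩ := hX
  have hVne : Nonempty (APXe_V u) := ⟨(hmem x₀).choose⟩
  let fV : Fintype (APXe_V u) := Fintype.ofFinite _
  let f : APXe_V u → ℕ ×ₗ Fin (Fintype.card (Finset V₀)) := fun A =>
    toLex (A.1.card - 1, Fintype.equivFin (Finset V₀) A.1)
  have hf : Function.Injective f := by
    intro A B h
    have h1 : (A.1.card - 1, Fintype.equivFin (Finset V₀) A.1) = (B.1.card - 1, Fintype.equivFin (Finset V₀) B.1) :=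
      toLex.injective h
    exact Subtype.ext ((Fintype.equivFin (Finset V₀)).injective (Prod.ext_iff.1 h1).2)
  let oV : LinearOrder (APXe_V u) := LinearOrder.lift' f hf
  have hlt : ∀ A B : APXe_V u, A < B → A.1.card - 1 ≤ B.1.card - 1 := by
    intro A B h
    have h1 : f A < f B := h
    rw [Prod.Lex.lt_iff] at h1
    rcases h1 with h1 | h1
    · exact le_of_lt h1
    · exact le_of_eq h1.1
  obtain ⟨mx, hmx⟩ : ∃ mx : X → ℝ, mx = fun x =>
    (Finset.univ : Finset (APXe_V u)).sup' Finset.univ_nonempty (fun A => APXe_psi u A.1 x) := ⟨_, rfl⟩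
  have hle : ∀ (A : APXe_V u) x, APXe_psi u A.1 x ≤ mx x := by
    intro A x
    rw [hmx]
    exact Finset.le_sup' (fun A : APXe_V u => APXe_psi u A.1 x) (Finset.mem_univ A)
  have hmp : ∀ x, 0 < mx x := by
    intro x
    obtain ⟨A, hA⟩ := hmem x
    exact hA.trans_le (hle A x)
  have hmc : Continuous mx := by
    rw [hmx]
    exact Continuous.finset_sup'_apply Finset.univ_nonempty fun A _ => APXe_cont huc A.1
  have hmt : ∀ x, mx (t x) = mx x := by
    intro x
    apply le_antisymm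
    · rw [hmx]
      refine Finset.sup'_le _ _ fun A _ => ?_
      have h1 := hle ((APXe_tau hut).symm A) x
      rw [← APXe_map hut, ← APXe_tau_val hut, Equiv.apply_symm_apply, hmx] at h1
      exact h1
    · have h2 : mx x = (Finset.univ : Finset (APXe_V u)).sup' Finset.univ_nonempty
          (fun A => APXe_psi u A.1 x) := by rw [hmx]
      rw [h2]
      refine Finset.sup'_le _ _ fun A _ => ?_
      have h1 := hle (APXe_tau hut A) (t x)
      rw [APXe_tau_val, APXe_map hut] at h1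
      exact h1
  have hphp : ∀ (A : APXe_V u) x, 0 < APXe_psi u A.1 x / mx x ↔ 0 < APXe_psi u A.1 x := by
    intro A x
    exact div_pos_iff_of_pos_right (hmp x)
  refine ⟨APXe_V u, fV, oV, APXe_tau hut, fun A => A.1.card - 1, {C | ∃ x, ∀ A ∈ C, 0 < APXe_psi u A.1 x},
    fun A x => APXe_psi u A.1 x / mx x, ?_, ?_, ?_, ?_, ?_, ?_, ?_, ?_⟩
  · refine ⟨hN, ?_, ?_, ?_, hlt, ?_, ?_, ?_⟩
    · intro A a
      constructor
      · intro h
        obtain ⟨⟨v, hv⟩, x, hx⟩ := A.2
        have h1 : A.1.map (τ₀ ^ a).toEmbedding = A.1 := by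
          rw [← APXe_pow hut, h]
        have h2 : (τ₀ ^ a) v ∈ A.1 := by
          have h3 : (τ₀ ^ a) v ∈ A.1.map (τ₀ ^ a).toEmbedding :=
            Finset.mem_map.2 ⟨v, hv, rfl⟩
          rw [h1] at h3
          exact h3
        have h3 := ((APXe_pos hu0 A.1 x).1 hx).1
        exact hfree v a x (h3 v hv) (h3 _ h2)
      · rintro ⟨k, rfl⟩
        refine Subtype.ext ?_
        rw [APXe_pow, pow_mul, hτ, one_pow]
        exact Finset.map_refl
    · intro A
      show (APXe_tau hut A).1.card - 1 = A.1.card - 1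
      rw [APXe_tau_val, Finset.card_map]
    · intro A
      obtain ⟨_, x, hx⟩ := A.2
      have h3 := ((APXe_pos hu0 A.1 x).1 hx).1
      have h4 : A.1.card ≤ n + 2 := by
        refine le_trans ?_ (hcard x)
        rw [← Set.ncard_coe_finset]
        exact Set.ncard_le_ncard (fun v hv => h3 v hv) (Set.toFinite _)
      show A.1.card - 1 ≤ n + 1
      omega
    · rintro C ⟨x, hx⟩ B hB
      exact ⟨x, fun A hA => hx A (hB hA)⟩
    · intro C
      constructor
      · rintro ⟨x, hx⟩
        refine ⟨t x, fun A hA => ?_⟩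
        obtain ⟨B, hB, rfl⟩ := Finset.mem_map.1 hA
        show 0 < APXe_psi u (APXe_tau hut B).1 (t x)
        rw [APXe_tau_val, APXe_map hut]
        exact hx B hB
      · rintro ⟨x, hx⟩
        refine ⟨t.symm x, fun A hA => ?_⟩
        have h1 : 0 < APXe_psi u (APXe_tau hut A).1 x := hx _ (Finset.mem_map.2 ⟨A, hA, rfl⟩)
        rw [← APXe_map hut, Equiv.apply_symm_apply]
        exact h1
    · rintro C ⟨x, hx⟩ A hA B hB (h : A.1.card - 1 = B.1.card - 1)
      have hA1 := (APXe_pos hu0 A.1 x).1 (hx A hA)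
      have hB1 := (APXe_pos hu0 B.1 x).1 (hx B hB)
      have hc : A.1.card = B.1.card := by
        have h1 := A.2.1.card_pos
        have h2 := B.2.1.card_pos
        omega
      refine Subtype.ext ?_
      by_contra hne
      have h3 : ¬ A.1 ⊆ B.1 := fun h4 => hne (Finset.eq_of_subset_of_card_le h4 hc.ge)
      have h4 : ¬ B.1 ⊆ A.1 := fun h5 => hne (Finset.eq_of_subset_of_card_le h5 hc.le).symm
      obtain ⟨v, hv, hv'⟩ := Finset.not_subset.1 h3
      obtain ⟨w, hw, hw'⟩ := Finset.not_subset.1 h4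
      exact lt_asymm (hA1.2 v hv w hw') (hB1.2 w hw v hv')
  · intro A
    exact (APXe_cont huc A.1).div hmc fun x => (hmp x).ne'
  · intro A x
    exact ⟨div_nonneg (APXe_nn hu0 _ _) (hmp x).le, (div_le_one (hmp x)).2 (hle A x)⟩
  · intro A x
    show APXe_psi u (APXe_tau hut A).1 (t x) / mx (t x) = APXe_psi u A.1 x / mx x
    rw [APXe_tau_val, APXe_map hut, hmt]
  · intro x
    obtain ⟨A, -, hA⟩ := Finset.exists_mem_eq_sup' (s := (Finset.univ : Finset (APXe_V u))) Finset.univ_nonempty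
      (fun A => APXe_psi u A.1 x)
    refine ⟨A, ?_⟩
    have h1 : mx x = APXe_psi u A.1 x := by
      rw [hmx]
      exact hA
    show APXe_psi u A.1 x / mx x = 1
    rw [← h1]
    exact div_self (hmp x).ne'
  · intro x
    refine ⟨x, fun A hA => ?_⟩
    rw [Finset.mem_filter] at hA
    have h1 : APXe_psi u A.1 x ≠ 0 := fun h2 => hA.2 (by
      show APXe_psi u A.1 x / mx x = 0
      rw [h2, zero_div])
    exact lt_of_le_of_ne (APXe_nn hu0 _ _) h1.symm
  · rintro C ⟨x, hx⟩ _
    exact ⟨x, fun A hA => (hphp A x).2 (hx A hA)⟩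
  · intro A
    obtain ⟨v, hv⟩ := A.2.1
    obtain ⟨i, hi⟩ := hUi v
    exact ⟨i, fun x hx => hi x (((APXe_pos hu0 A.1 x).1 ((hphp A x).1 hx)).1 v hv)⟩

end AGE
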