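import Pool.Agent.AGE.APXa
import Pool.Agent.AGE.APXb
import Pool.Agent.AGE.APXd
import Pool.Agent.AGE.APXe

/-!
# Project AGE, module APX1: coloured approximations of `X`
-/

set_option autoImplicit false

noncomputable section

namespace AGE

open TopologicalSpace

open Classical in
theorem apx (p : ℕ) [Fact p.Prime] (n : ℕ) {X : Type} [TopologicalSpace X] [CompactSpace X]
    [MetrizableSpace X] [MulAction (Multiplicative ℤ_[p]) X]
    [ContinuousSMul (Multiplicative ℤ_[p]) X]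
    (hfree : ∀ (g : Multiplicative ℤ_[p]) (x : X), g • x = x → g = 1)
    (hdim : CovDimLE (Quotient (MulAction.orbitRel (Multiplicative ℤ_[p]) X)) (n + 1))
    (I : Type) [Finite I] (U : I → Set X) (hU : ∀ i, IsOpen (U i)) (hUc : ⋃ i, U i = Set.univ)
    (q₀ : ℕ) :
    ∃ (q : ℕ) (V : Type) (_ : Fintype V) (_ : LinearOrder V) (τ : Equiv.Perm V) (col : V → ℕ)
      (S : Set (Finset V)) (ph : V → X → ℝ), q₀ ≤ q ∧ Col n (p ^ q) S τ col ∧
      (∀ v, Continuous (ph v)) ∧ (∀ v x, 0 ≤ ph v x ∧ ph v x ≤ 1) ∧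
      (∀ v x, ph (τ v) (Multiplicative.ofAdd (1 : ℤ_[p]) • x) = ph v x) ∧
      (∀ x, ∃ v, ph v x = 1) ∧ (∀ x, (Finset.univ.filter fun v => ph v x ≠ 0) ∈ S) ∧
      (∀ A ∈ S, A.Nonempty → ∃ x, ∀ v ∈ A, 0 < ph v x) ∧
      (∀ v, ∃ i, ∀ x, 0 < ph v x → x ∈ U i) := by
  obtain ⟨q, hq, hq2⟩ := apx_a p I U hU hUc q₀
  choose A hAo hxA hA1 hA2 using apx_b p hfree I U hU q hq2
  -- open cover of the orbit space
  set π : X → Quotient (MulAction.orbitRel (Multiplicative ℤ_[p]) X) :=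
    Quotient.mk (MulAction.orbitRel (Multiplicative ℤ_[p]) X) with hπ
  have hπo : IsOpenMap π := isOpenMap_quotient_mk'_mul
  have hπc : Continuous π := continuous_quotient_mk'
  have hπs : Function.Surjective π := Quotient.mk_surjective
  haveI : CompactSpace (Quotient (MulAction.orbitRel (Multiplicative ℤ_[p]) X)) :=
    Quotient.compactSpace
  obtain ⟨F, hF⟩ := isCompact_univ.elim_finite_subcover (fun x : X => π '' (A x))
    (fun x => hπo _ (hAo x)) (by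
      intro b _
      obtain ⟨x, rfl⟩ := hπs b
      exact Set.mem_iUnion.2 ⟨x, x, hxA x, rfl⟩)
  obtain ⟨L, hL, W, hWo, hWc, hWr, hWn⟩ := hdim F inferInstance (fun x => π '' (A x.1))
    (fun x => hπo _ (hAo x.1)) (by
      rw [Set.eq_univ_iff_forall]
      intro b
      obtain ⟨x, hx, hb⟩ := Set.mem_iUnion₂.1 (hF (Set.mem_univ b))
      exact Set.mem_iUnion.2 ⟨⟨x, hx⟩, hb⟩)
  choose r hr using hWr
  obtain ⟨V₀, fV, τ₀, u, h1, h2, h3, h4, h5, h6, h7, h8⟩ := apx_d p I U q (n + 1 + 1) L W hWo hWc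
    hWn (fun j => A (r j).1) (fun j => hAo _) hr (fun j => hA1 _) (fun j => hA2 _)
  obtain ⟨V, iF, iO, τ, col, S, ph, e1, e2, e3, e4, e5, e6, e7, e8⟩ :=
    apx_e n (p ^ q) (pow_pos (Fact.out : p.Prime).pos q)
      (MulAction.toPerm (Multiplicative.ofAdd (1 : ℤ_[p]))) I U V₀ τ₀ h1 u h2 h3 h4 h5 h6 h7 h8
  exact ⟨q, V, iF, iO, τ, col, S, ph, hq, e1, e2, e3, e4, e5, e6, e7, e8⟩

end AGE
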