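import Mathlib

/-!
# Project AGE, module APXa: a uniform level

Plan. For every `x` choose `i` with `x ∈ U i`. The map `(z, y) ↦ ofAdd z • y` from
`ℤ_[p] × X` to `X` is continuous and sends `(0, x)` into `U i`, so there are a neighbourhood `O` of
`0` in `ℤ_[p]` and an open `A x ∋ x` with `ofAdd z • y ∈ U i` for `z ∈ O`, `y ∈ A x`; there is
`m x : ℕ` such that all multiples of `p ^ m` lie in `O` (`‖p ^ m * z‖ ≤ p ^ (-m)`, metric ball), and
the same for every larger `m` (`p ^ m' = p ^ m * p ^ (m' - m)`). Finite subcover of the `A x`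
(`IsCompact.elim_finite_subcover` / `CompactSpace.elim_nhds_subcover`), `q` = maximum of `q₀` and the
`m x` of the subcover (`Finset.sup`).
-/

set_option autoImplicit false

noncomputable section

namespace AGE

open Topology in
private theorem APXa_local (p : ℕ) [Fact p.Prime] {X : Type} [TopologicalSpace X]
    [MulAction (Multiplicative ℤ_[p]) X] [ContinuousSMul (Multiplicative ℤ_[p]) X]
    (V : Set X) (hV : IsOpen V) (x : X) (hx : x ∈ V) :
    ∃ (m : ℕ) (A : Set X), A ∈ 𝓝 x ∧ ∀ m' : ℕ, m ≤ m' → ∀ z : ℤ_[p], ∀ y ∈ A,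
      Multiplicative.ofAdd ((p : ℤ_[p]) ^ m' * z) • y ∈ V := by
  have hf : Continuous (fun w : ℤ_[p] × X => Multiplicative.ofAdd w.1 • w.2) :=
    (continuous_ofAdd.comp continuous_fst).smul continuous_snd
  have h0 : (fun w : ℤ_[p] × X => Multiplicative.ofAdd w.1 • w.2) ((0 : ℤ_[p]), x) ∈ V := by
    show Multiplicative.ofAdd (0 : ℤ_[p]) • x ∈ V
    rw [ofAdd_zero, one_smul]
    exact hx
  have h1 : (fun w : ℤ_[p] × X => Multiplicative.ofAdd w.1 • w.2) ⁻¹' V ∈ 𝓝 ((0 : ℤ_[p]), x) :=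
    hf.continuousAt.preimage_mem_nhds (hV.mem_nhds h0)
  rw [mem_nhds_prod_iff] at h1
  obtain ⟨O, hO, A, hA, hOA⟩ := h1
  obtain ⟨ε, hε, hball⟩ := Metric.mem_nhds_iff.1 hO
  obtain ⟨m, hm⟩ := PadicInt.exists_pow_neg_lt p hε
  refine ⟨m, A, hA, fun m' hm' z y hy => ?_⟩
  have h2 : (p : ℤ_[p]) ^ m' * z ∈ O := by
    refine hball ?_
    rw [Metric.mem_ball, dist_zero_right]
    refine lt_of_le_of_lt ?_ hm
    have h3 : (p : ℤ_[p]) ^ m' * z = (p : ℤ_[p]) ^ m * ((p : ℤ_[p]) ^ (m' - m) * z) := by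
      rw [← mul_assoc, ← pow_add, Nat.add_sub_cancel' hm']
    rw [h3, norm_mul, PadicInt.norm_p_pow]
    have h4 : ‖(p : ℤ_[p]) ^ (m' - m) * z‖ ≤ 1 := PadicInt.norm_le_one _
    have h5 : (0 : ℝ) ≤ (p : ℝ) ^ (-(m : ℤ)) := by positivity
    calc (p : ℝ) ^ (-(m : ℤ)) * ‖(p : ℤ_[p]) ^ (m' - m) * z‖ ≤ (p : ℝ) ^ (-(m : ℤ)) * 1 :=
          mul_le_mul_of_nonneg_left h4 h5
      _ = (p : ℝ) ^ (-(m : ℤ)) := mul_one _
  exact hOA (Set.mk_mem_prod h2 hy)

theorem apx_a (p : ℕ) [Fact p.Prime] {X : Type} [TopologicalSpace X] [CompactSpace X]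
    [MulAction (Multiplicative ℤ_[p]) X] [ContinuousSMul (Multiplicative ℤ_[p]) X]
    (I : Type) (U : I → Set X) (hU : ∀ i, IsOpen (U i)) (hUc : ⋃ i, U i = Set.univ) (q₀ : ℕ) :
    ∃ q : ℕ, q₀ ≤ q ∧ ∀ x : X, ∃ i, ∀ z : ℤ_[p],
      Multiplicative.ofAdd ((p : ℤ_[p]) ^ q * z) • x ∈ U i := by
  have h1 : ∀ x : X, ∃ i, x ∈ U i := by
    intro x
    have h : x ∈ ⋃ i, U i := by
      rw [hUc]
      exact Set.mem_univ x
    exact Set.mem_iUnion.1 h
  choose i hi using h1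
  have h2 := fun x : X => APXa_local p (U (i x)) (hU (i x)) x (hi x)
  choose m A hA hm using h2
  obtain ⟨t, ht⟩ := CompactSpace.elim_nhds_subcover A hA
  refine ⟨max q₀ (t.sup m), le_max_left _ _, fun x => ?_⟩
  have h3 : x ∈ ⋃ y ∈ t, A y := by
    rw [ht]
    exact Set.mem_univ x
  obtain ⟨y, hy, hxy⟩ := Set.mem_iUnion₂.1 h3
  exact ⟨i y, fun z => hm y _ (le_trans (Finset.le_sup hy) (le_max_right _ _)) z x hxy⟩

end AGE
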