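import Pool.Agent.AGE.LIM5

/-!
# Project AGE, module APXc: invariant functions with prescribed positive sets

For every open set `W` of the orbit space there is a continuous function `u ≥ 0` on `X` which is
invariant and positive exactly on the preimage of `W`: the orbit space is compact Hausdorff (the
orbit relation is the image of the compact space `G × X`), hence metrizable by `lim5`; take the
distance to the complement of `W`.
-/

set_option autoImplicit false

noncomputable section

namespace AGE

open TopologicalSpace

theorem apx_c {G X : Type} [Group G] [TopologicalSpace G] [IsTopologicalGroup G] [CompactSpace G]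
    [TopologicalSpace X] [CompactSpace X] [MetrizableSpace X] [MulAction G X]
    [ContinuousSMul G X] (W : Set (Quotient (MulAction.orbitRel G X))) (hW : IsOpen W) :
    ∃ u : X → ℝ, Continuous u ∧ (∀ x, 0 ≤ u x) ∧ (∀ (g : G) (x : X), u (g • x) = u x) ∧
      ∀ x, 0 < u x ↔ (Quotient.mk (MulAction.orbitRel G X) x) ∈ W := by
  have hq : IsOpenQuotientMap (Quotient.mk (MulAction.orbitRel G X)) :=
    MulAction.isOpenQuotientMap_quotientMk
  have hT2 : T2Space (Quotient (MulAction.orbitRel G X)) := by
    rw [t2Space_iff_of_isOpenQuotientMap hq]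
    have h1 : {q : X × X | Quotient.mk (MulAction.orbitRel G X) q.1 =
        Quotient.mk (MulAction.orbitRel G X) q.2} =
        Set.range (fun p : G × X => (p.1 • p.2, p.2)) := by
      ext ⟨x, y⟩
      constructor
      · intro h
        obtain ⟨g, hg⟩ := MulAction.orbitRel_apply.mp (Quotient.exact h)
        exact ⟨(g, y), by simpa using hg⟩
      · rintro ⟨⟨g, z⟩, h⟩
        obtain ⟨h1, h2⟩ := Prod.mk.inj h
        subst h1 h2
        exact Quotient.sound (MulAction.orbitRel_apply.mpr ⟨g, rfl⟩)
    rw [h1]
    exact (isCompact_range (by fun_prop)).isClosed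
  have hmet : MetrizableSpace (Quotient (MulAction.orbitRel G X)) :=
    lim5 (Quotient.mk (MulAction.orbitRel G X)) hq.continuous hq.surjective
  let _ := metrizableSpaceMetric (Quotient (MulAction.orbitRel G X))
  have hinv : ∀ (g : G) (x : X), Quotient.mk (MulAction.orbitRel G X) (g • x) =
      Quotient.mk (MulAction.orbitRel G X) x :=
    fun g x => Quotient.sound (MulAction.orbitRel_apply.mpr ⟨g, rfl⟩)
  by_cases hne : (Wᶜ).Nonempty
  · refine ⟨fun x => Metric.infDist (Quotient.mk (MulAction.orbitRel G X) x) Wᶜ,
      (Metric.continuous_infDist_pt _).comp hq.continuous, fun x => Metric.infDist_nonneg,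
      fun g x => by simp only [hinv], fun x => ?_⟩
    rw [← hW.isClosed_compl.notMem_iff_infDist_pos hne]
    simp
  · refine ⟨fun _ => 1, continuous_const, fun _ => zero_le_one, fun _ _ => rfl, fun x => ?_⟩
    refine ⟨fun _ => ?_, fun _ => one_pos⟩
    by_contra hx
    exact hne ⟨_, hx⟩

end AGE
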