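import Pool.Agent.AGE.Defs
import Pool.Agent.AGE.PR3

/-!
# Project AGE, layer ASM (steps A and B, base state, recursion): definitions

* `mkC B lo fr`: the cube of the coinduced lattice with blocks `B g` and join part `lo`, `fr`;
* `hcon`: the conjugates `τJ^g h τV^(-g)` of a vertex map `h`, `g : ZMod N`;
* `coF`: the coinduced vertex map `v ↦ (h_g v)_g` together with the vertex map to the infinite
  join given by a colouring `col` and an equivariant map `ρ : V → ZMod N`;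
* `iot g`: the embedding of the chains of `ℤ^J` in block `g` (not a chain map).
-/

set_option autoImplicit false

noncomputable section

namespace AGE

variable {V J : Type} [LinearOrder V] [LinearOrder J] {N : ℕ} [NeZero N]

/-- the cube of the coinduced lattice with given blocks and given join part -/
def mkC (B : ZMod N → Cube J) (l : ZMod N → ℕ → ℤ) (r : Finset (ZMod N × ℕ)) :
    Cube (JJ N J) where
  lo
    | .a g j => (B g).lo j
    | .e g k => l g k
  fr := open Classical in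
    (Finset.univ.biUnion fun g : ZMod N => (B g).fr.image (JJ.a g)) ∪
      r.image (fun x => JJ.e x.1 x.2)

theorem mkC_lo_a (B : ZMod N → Cube J) (l : ZMod N → ℕ → ℤ) (r : Finset (ZMod N × ℕ))
    (g : ZMod N) (j : J) : (mkC B l r).lo (.a g j) = (B g).lo j := rfl

theorem mkC_lo_e (B : ZMod N → Cube J) (l : ZMod N → ℕ → ℤ) (r : Finset (ZMod N × ℕ))
    (g : ZMod N) (k : ℕ) : (mkC B l r).lo (.e g k) = l g k := rfl

theorem mkC_mem_a (B : ZMod N → Cube J) (l : ZMod N → ℕ → ℤ) (r : Finset (ZMod N × ℕ))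
    (g : ZMod N) (j : J) : JJ.a g j ∈ (mkC B l r).fr ↔ j ∈ (B g).fr := by
  simp only [mkC, Finset.mem_union, Finset.mem_biUnion, Finset.mem_univ, true_and,
    Finset.mem_image]
  constructor
  · rintro (⟨g', j', hj, h⟩ | ⟨x, _, h⟩)
    · rw [JJ.a.injEq] at h
      obtain ⟨rfl, rfl⟩ := h
      exact hj
    · cases h
  · intro h
    exact Or.inl ⟨g, j, h, rfl⟩

theorem mkC_mem_e (B : ZMod N → Cube J) (l : ZMod N → ℕ → ℤ) (r : Finset (ZMod N × ℕ))
    (g : ZMod N) (k : ℕ) : JJ.e g k ∈ (mkC B l r).fr ↔ (g, k) ∈ r := by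
  simp only [mkC, Finset.mem_union, Finset.mem_biUnion, Finset.mem_univ, true_and,
    Finset.mem_image]
  constructor
  · rintro (⟨g', j', hj, h⟩ | ⟨x, hx, h⟩)
    · cases h
    · rw [JJ.e.injEq] at h
      obtain ⟨rfl, rfl⟩ := h
      exact hx
  · intro h
    exact Or.inr ⟨(g, k), h, rfl⟩

theorem mem_blk (g : ZMod N) (Q : Cube (JJ N J)) (j : J) :
    j ∈ (blk g Q).fr ↔ JJ.a g j ∈ Q.fr := by
  simp only [blk, Finset.mem_preimage]

theorem blk_lo (g : ZMod N) (Q : Cube (JJ N J)) (j : J) : (blk g Q).lo j = Q.lo (.a g j) := rfl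

theorem blk_mkC (B : ZMod N → Cube J) (l : ZMod N → ℕ → ℤ) (r : Finset (ZMod N × ℕ))
    (g : ZMod N) : blk g (mkC B l r) = B g := by
  apply Cube.ext
  · rfl
  · ext j
    rw [mem_blk, mkC_mem_a]

theorem mkC_hi_a (B : ZMod N → Cube J) (l : ZMod N → ℕ → ℤ) (r : Finset (ZMod N × ℕ))
    (g : ZMod N) (j : J) : (mkC B l r).hi (.a g j) = (B g).hi j := by
  rw [← blk_hi, blk_mkC]

theorem mkC_hi_e (B : ZMod N → Cube J) (l : ZMod N → ℕ → ℤ) (r : Finset (ZMod N × ℕ))
    (g : ZMod N) (k : ℕ) [Decidable ((g, k) ∈ r)] :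
    (mkC B l r).hi (.e g k) = if (g, k) ∈ r then l g k + 1 else l g k := by
  unfold Cube.hi
  by_cases h : (g, k) ∈ r
  · rw [if_pos h, if_pos ((mkC_mem_e B l r g k).2 h), mkC_lo_e]
  · rw [if_neg h, if_neg (fun h' => h ((mkC_mem_e B l r g k).1 h')), mkC_lo_e]

/-- the conjugates of a vertex map -/
def hcon (τV : Equiv.Perm V) (τJ : Equiv.Perm J) (h : (V → ℤ) → (J → ℤ)) (g : ZMod N)
    (v : V → ℤ) : J → ℤ :=
  actP (τJ ^ g.val) (h (actP (τV ^ g.val).symm v))

/-- the coinduced vertex map -/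
def coF (τV : Equiv.Perm V) (τJ : Equiv.Perm J) (ρ : V → ZMod N) (col : V → ℕ)
    (h : (V → ℤ) → (J → ℤ)) (v : V → ℤ) : JJ N J → ℤ
  | .a g j => hcon τV τJ h g v j
  | .e g i => open Classical in if ∃ x, 0 < v x ∧ col x = i ∧ ρ x = g then 1 else 0

theorem coF_zero (τV : Equiv.Perm V) (τJ : Equiv.Perm J) (ρ : V → ZMod N) (col : V → ℕ)
    (h : (V → ℤ) → (J → ℤ)) (v : V → ℤ) (j : J) :
    coF τV τJ ρ col h v (.a 0 j) = h v j := by
  simp only [coF, hcon, ZMod.val_zero, pow_zero]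
  rfl

/-- the cube `Q` in block `g`: the other blocks are the lowest vertex of `Q`, the join part is the
vertex `e g 0` -/
def iotQ (g : ZMod N) (Q : Cube J) : Cube (JJ N J) :=
  mkC (fun g' => if g' = g then Q else pt Q.lo) (fun g' k => if g' = g ∧ k = 0 then 1 else 0) ∅

/-- the embedding of the chains in block `g` -/
def iot (g : ZMod N) : Ch J →ₗ[ℤ] Ch (JJ N J) :=
  Finsupp.linearCombination ℤ (fun Q : Cube J => one (iotQ g Q))

theorem iot_one (g : ZMod N) (Q : Cube J) : iot g (one Q) = one (iotQ g Q) := by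
  unfold iot one
  rw [Finsupp.linearCombination_single, one_smul]

/-- a state with all its parameters -/
structure Pack (p n : ℕ) (X : Type) [TopologicalSpace X] (τX : X → X) where
  q : ℕ
  J : Type
  oJ : LinearOrder J
  τJ : Equiv.Perm J
  A : St p n X τX q J τJ

attribute [instance] Pack.oJ

/-- `P'` is a refinement of `P` as needed for the limit (`LIM`), with scaling factor `8` -/
structure Nxt {p n : ℕ} {X : Type} [TopologicalSpace X] {τX : X → X} (P P' : Pack p n X τX)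
    (e : P.J → P'.J) : Prop where
  q : P.q < P'.q
  inj : Function.Injective e
  a : ∀ Q' ∈ P'.A.T, ∃ Q ∈ P.A.T, Q.dim ≤ n ∧ ∀ j,
    ((8 : ℕ) : ℤ) * Q.lo j ≤ Q'.lo (e j) ∧ Q'.hi (e j) ≤ ((8 : ℕ) : ℤ) * Q.hi j
  b : ∀ x j, |P'.A.F x (e j) / ((8 : ℕ) : ℝ) - P.A.F x j| ≤ 3
  c : ∀ a : ℕ, ¬ p ^ P.q ∣ a → ∀ x, ∃ j,
    ((8 : ℕ) : ℝ) ≤ |P'.A.F (τX^[a] x) j - P'.A.F x j|

end AGE
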