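import Pool.Agent.AGE.ASM0
import Pool.Agent.AGE.PR2
import Pool.Agent.AGE.C1b
import Pool.Agent.AGE.C2a

/-!
# AGE-ASM1: the complexes `PP n t`

Elementary facts on the complexes `PP n t` of the coinduced lattice: faces, monotonicity, the action of the generator
`jjp N τ`, and the separation of the translates.
-/

set_option autoImplicit false

noncomputable section

namespace AGE

variable {V J : Type} [LinearOrder V] [LinearOrder J] {N : ℕ} [NeZero N]

private theorem ASM1_hc {I : Type} [LinearOrder I] (Q : Cube I) (j : I) :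
    (j ∈ Q.fr ∧ Q.hi j = Q.lo j + 1) ∨ (j ∉ Q.fr ∧ Q.hi j = Q.lo j) := by
  by_cases h : j ∈ Q.fr
  · exact Or.inl ⟨h, if_pos h⟩
  · exact Or.inr ⟨h, if_neg h⟩

private theorem ASM1_lh {I : Type} [LinearOrder I] (Q : Cube I) (j : I) : Q.lo j ≤ Q.hi j := by
  rcases ASM1_hc Q j with h | h
  · omega
  · omega

theorem blk_mono (g : ZMod N) {P Q : Cube (JJ N J)} (h : P.Le Q) : (blk g P).Le (blk g Q) := by
  intro j
  rw [blk_hi, blk_hi]
  exact h (.a g j)

theorem ee_face {P Q : Cube (JJ N J)} (h : P.Le Q) (hQ : EE Q) : EE P := by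
  refine ⟨fun g k => ?_, ?_, ?_, ?_⟩
  · have h1 := hQ.rng g k
    have h2 := h (.e g k)
    omega
  · have hinj : Function.Injective (fun x : ZMod N × ℕ => (JJ.e x.1 x.2 : JJ N J)) := by
      rintro ⟨a, b⟩ ⟨c, d⟩ he
      simp only [JJ.e.injEq] at he
      exact Prod.ext he.1 he.2
    refine Set.Finite.subset (hQ.fin.union
      ((Q.fr.finite_toSet).preimage (f := fun x : ZMod N × ℕ => (JJ.e x.1 x.2 : JJ N J)) hinj.injOn)) ?_
    rintro ⟨g, k⟩ hx
    simp only [Set.mem_ofPred_eq] at hx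
    have h1 := hQ.rng g k
    have h2 := h (.e g k)
    have h3 := ASM1_lh P (.e g k)
    rcases ASM1_hc Q (.e g k) with h4 | h4
    · exact Or.inr (Finset.mem_coe.2 h4.1)
    · refine Or.inl ?_
      show Q.lo (.e g k) = 1
      omega
  · obtain ⟨g, k, h0⟩ := hQ.one
    have h1 := hQ.rng g k
    have h2 := h (.e g k)
    have h3 := ASM1_lh P (.e g k)
    exact ⟨g, k, by omega⟩
  · intro k g g' h3 h4
    have h1 := hQ.rng g k
    have h2 := h (.e g k)
    have h1' := hQ.rng g' k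
    have h2' := h (.e g' k)
    exact hQ.col k g g' (by omega) (by omega)

theorem pp_of_le (n : ℕ) (t : Cube J) {P Q : Cube (JJ N J)} (h : P.Le Q)
    (hb : ∀ g, (blk g Q).Le t ∧ (blk g Q).dim ≤ n) (hE : EE Q) (hd : P.dim ≤ n + 2) :
    P ∈ PP n t :=
  ⟨fun g => ⟨Cube.le_trans' (blk_mono g h) (hb g).1, (Cube.le_dim (blk_mono g h)).trans (hb g).2⟩,
    ee_face h hE, hd⟩

theorem closed_pp (n : ℕ) (t : Cube J) : Closed (PP (N := N) n t) :=
  fun _ hP _ h => pp_of_le n t h hP.1 hP.2.1 ((Cube.le_dim h).trans hP.2.2)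

theorem pp_mono (n : ℕ) {t t' : Cube J} (h : t.Le t') : PP (N := N) n t ⊆ PP n t' :=
  fun _ hQ => ⟨fun g => ⟨Cube.le_trans' (hQ.1 g).1 h, (hQ.1 g).2⟩, hQ.2⟩

private theorem ASM1_ee {Q Q' : Cube (JJ N J)} (c : ZMod N)
    (hl : ∀ g k, Q'.lo (.e g k) = Q.lo (.e (g + c) k))
    (hh : ∀ g k, Q'.hi (.e g k) = Q.hi (.e (g + c) k)) (h : EE Q) : EE Q' := by
  refine ⟨fun g k => ?_, ?_, ?_, ?_⟩
  · rw [hl, hh]
    exact h.rng _ _
  · have h1 : {x : ZMod N × ℕ | Q'.lo (.e x.1 x.2) = 1} =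
        (fun x : ZMod N × ℕ => (x.1 + c, x.2)) ⁻¹' {x | Q.lo (.e x.1 x.2) = 1} := by
      ext x
      simp only [Set.mem_ofPred_eq, Set.mem_preimage, hl]
    rw [h1]
    refine h.fin.preimage (Function.Injective.injOn ?_)
    rintro ⟨a, b⟩ ⟨a', b'⟩ he
    simp only [Prod.mk.injEq, add_left_inj] at he
    exact Prod.ext he.1 he.2
  · obtain ⟨g, k, hg⟩ := h.one
    refine ⟨g - c, k, ?_⟩
    rw [hl, sub_add_cancel]
    exact hg
  · intro k g g' h1 h2
    rw [hh] at h1 h2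
    exact add_right_cancel (h.col k _ _ h1 h2)

theorem ee_act (τ : Equiv.Perm J) (Q : Cube (JJ N J)) : EE Q ↔ EE (Q.act (jjp N τ)) := by
  have hs : ∀ (g : ZMod N) (k : ℕ), (jjp N τ).symm (.e g k) = .e (g - 1) k := fun _ _ => rfl
  have hl : ∀ g k, (Q.act (jjp N τ)).lo (.e g k) = Q.lo (.e (g - 1) k) := fun _ _ => rfl
  have hh : ∀ g k, (Q.act (jjp N τ)).hi (.e g k) = Q.hi (.e (g - 1) k) := by
    intro g k
    rw [Cube.act_hi, hs]
  constructor
  · refine ASM1_ee (-1) (fun g k => ?_) (fun g k => ?_)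
    · rw [hl, sub_eq_add_neg]
    · rw [hh, sub_eq_add_neg]
  · refine ASM1_ee 1 (fun g k => ?_) (fun g k => ?_)
    · rw [hl, add_sub_cancel_right]
    · rw [hh, add_sub_cancel_right]

theorem pp_act (n : ℕ) (τ : Equiv.Perm J) (t : Cube J) (Q : Cube (JJ N J)) :
    Q ∈ PP n t ↔ Q.act (jjp N τ) ∈ PP n (t.act τ) := by
  constructor
  · rintro ⟨h1, h2, h3⟩
    refine ⟨fun g => ?_, (ee_act τ Q).1 h2, ?_⟩
    · have h4 := blk_act τ (g - 1) Q
      rw [sub_add_cancel] at h4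
      rw [h4, Cube.act_le, Cube.act_dim]
      exact h1 _
    · rw [Cube.act_dim]
      exact h3
  · rintro ⟨h1, h2, h3⟩
    refine ⟨fun g => ?_, (ee_act τ Q).2 h2, ?_⟩
    · have h4 := h1 (g + 1)
      rw [blk_act, Cube.act_le, Cube.act_dim] at h4
      exact h4
    · rw [Cube.act_dim] at h3
      exact h3

theorem jjp_pow_a (τ : Equiv.Perm J) (a : ℕ) (g : ZMod N) (j : J) :
    (jjp N τ ^ a) (.a g j) = .a (g + a) ((τ ^ a) j) := by
  induction a with
  | zero => simp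
  | succ a ih =>
    rw [pow_succ', pow_succ', Equiv.Perm.mul_apply, Equiv.Perm.mul_apply, ih]
    show JJ.a (g + (a : ZMod N) + 1) (τ ((τ ^ a) j)) = JJ.a (g + ((a + 1 : ℕ) : ZMod N)) (τ ((τ ^ a) j))
    rw [Nat.cast_add, Nat.cast_one, add_assoc]

theorem jjp_pow_e (τ : Equiv.Perm J) (a : ℕ) (g : ZMod N) (k : ℕ) :
    (jjp N τ ^ a) (.e g k) = .e (g + a) k := by
  induction a with
  | zero => simp
  | succ a ih =>
    rw [pow_succ', Equiv.Perm.mul_apply, ih]
    show JJ.e (g + (a : ZMod N) + 1) k = JJ.e (g + ((a + 1 : ℕ) : ZMod N)) k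
    rw [Nat.cast_add, Nat.cast_one, add_assoc]

theorem jjp_pow (τ : Equiv.Perm J) (h : τ ^ N = 1) : jjp N τ ^ N = 1 := by
  ext x
  cases x with
  | a g j => rw [jjp_pow_a, h, ZMod.natCast_self, add_zero]; rfl
  | e g k => rw [jjp_pow_e, ZMod.natCast_self, add_zero]; rfl

theorem sep_pp (T : Set (Cube (JJ N J))) (hT : ∀ Q ∈ T, EE Q) (τ : Equiv.Perm J) :
    Sep T (jjp N τ) N 1 := by
  intro Q hQ
  obtain ⟨g, k, h0⟩ := (hT Q hQ).one
  refine ⟨.e g k, ?_, fun a ha => ?_⟩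
  · rw [h0]
    simp
  · rw [jjp_pow_e]
    have h1 := (hT Q hQ).rng (g + a) k
    have h2 := (hT Q hQ).rng g k
    have h3 := ASM1_lh Q (.e g k)
    have h4 : Q.hi (.e g k) = 1 := by omega
    by_contra h5
    have h6 : Q.hi (.e (g + (a : ZMod N)) k) = 1 := by omega
    have h7 := (hT Q hQ).col k _ _ h6 h4
    have h8 : (a : ZMod N) = 0 := by
      have h9 : g + (a : ZMod N) = g + 0 := by rw [h7, add_zero]
      exact add_left_cancel h9
    exact ha ((ZMod.natCast_eq_zero_iff a N).1 h8)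

end AGE
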