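import Pool.Agent.AGE.ASM0
import Pool.Agent.AGE.C1a
import Pool.Agent.AGE.C1b
import Pool.Agent.AGE.C2b

/-!
# AGE-ASM10: the obstruction data of a homotopic chain map

If `φ` is homotopic to `φ₀` by an equivariant carried homotopy `κ`, then the data `lam, nu, xi` of `φ₀` give the data `lam - κ`, `nu + κ`, `xi` of `φ`.
-/

set_option autoImplicit false

noncomputable section

namespace AGE

variable {V J : Type} [LinearOrder V] [LinearOrder J]

private theorem asm10_con {n N : ℕ} {K : Set (Cube V)} {τV : Equiv.Perm V} (hK : Src n N K τV)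
    (τJ : Equiv.Perm J) (κ : Ch V →ₗ[ℤ] Ch J)
    (hκ2 : ∀ c ∈ K, κ (act τV (one c)) = act τJ (κ (one c))) {c : Cube V} (hc : c ∈ K) :
    con τV τJ κ (one c) = κ (one c) := by
  have h1 : con τV τJ κ (one c) = act τJ (κ (act τV.symm (one c))) := rfl
  rw [h1, Src.act_symm_one hK hc, ← hκ2 _ (Src.mem_symm hK hc), ← Src.act_symm_one hK hc, act_act_symm]

theorem dat_transfer {n N : ℕ} (K : Set (Cube V)) (τV : Equiv.Perm V) (hK : Src n N K τV)
    (τJ : Equiv.Perm J) (C : Cube V → Set (Cube J)) (φ₀ lam nu xi φ κ : Ch V →ₗ[ℤ] Ch J)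
    (h1 : ∀ c ∈ K, c.dim = n → lam (one c) ∈ CC (C c) (n + 1))
    (h2 : ∀ c ∈ K, c.dim = n + 1 → nu (one c) ∈ CC (C c) (n + 2))
    (h3 : ∀ c ∈ K, c.dim = n → xi (one c) ∈ CC (C c) (n + 2))
    (h4 : ∀ c ∈ K, c.dim = n + 1 → φ₀ (one c) + lam (bd (one c)) = bd (nu (one c)))
    (h5 : ∀ c ∈ K, c.dim = n + 1 → con τV τJ nu (one c) - nu (one c) = xi (bd (one c)))
    (hκ1 : ∀ c ∈ K, κ (one c) ∈ CC (C c) (c.dim + 1))
    (hκ2 : ∀ c ∈ K, κ (act τV (one c)) = act τJ (κ (one c)))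
    (hφ : ∀ c ∈ K, φ (one c) = φ₀ (one c) + bd (κ (one c)) + κ (bd (one c)))
    (hφ1 : ∀ c ∈ K, φ (one c) ∈ CC (C c) c.dim)
    (hφ2 : ∀ c ∈ K, bd (φ (one c)) = φ (bd (one c)))
    (hφ3 : ∀ c ∈ K, c.dim = 0 → eps (φ (one c)) = 1)
    (hφ4 : ∀ c ∈ K, φ (act τV (one c)) = act τJ (φ (one c))) :
    Dat n K C τV τJ φ (lam - κ) (nu + κ) xi := by
  refine ⟨hφ1, hφ2, hφ3, hφ4, fun c hc hd => ?_, fun c hc hd => ?_, h3, fun c hc hd => ?_,
    fun c hc hd => ?_⟩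
  · rw [LinearMap.sub_apply]
    have h := hκ1 c hc
    rw [hd] at h
    exact Submodule.sub_mem _ (h1 c hc hd) h
  · rw [LinearMap.add_apply]
    have h := hκ1 c hc
    rw [hd] at h
    exact Submodule.add_mem _ (h2 c hc hd) h
  · rw [hφ c hc, LinearMap.sub_apply, LinearMap.add_apply, map_add, ← h4 c hc hd]
    abel
  · rw [con_add, LinearMap.add_apply, LinearMap.add_apply, asm10_con hK τJ κ hκ2 hc, ← h5 c hc hd]
    abel

end AGE
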