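import Pool.Agent.AGE.Defs
import Pool.Agent.AGE.C1b
import Pool.Agent.AGE.C2a

/-!
# AGE-C6a: spans

The span of `f (Q)`: when the images of the vertices of `Q` lie in a cube, there is a least cube `S` which contains them (in every coordinate its
lowest and highest values are values of `f`), and `Spn f Q = Faces S`.
-/

set_option autoImplicit false

noncomputable section

namespace AGE

variable {V J : Type} [LinearOrder V] [LinearOrder J]

private theorem C6a_hi_mem {Q : Cube J} {j : J} (h : j ∈ Q.fr) : Q.hi j = Q.lo j + 1 := if_pos h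

private theorem C6a_hi_not {Q : Cube J} {j : J} (h : j ∉ Q.fr) : Q.hi j = Q.lo j := if_neg h

open Classical in
theorem spn_eq (f : (V → ℤ) → (J → ℤ)) (Q : Cube V) (S₀ : Cube J)
    (h : ∀ v, Q.Has v → S₀.Has (f v)) :
    ∃ S : Cube J, Spn f Q = Faces S ∧ S.Le S₀ ∧ (∀ v, Q.Has v → S.Has (f v)) := by
  obtain ⟨S, hlo, hfr⟩ : ∃ S : Cube J,
      (∀ j, S.lo j = if ∀ v, Q.Has v → f v j = S₀.hi j then S₀.hi j else S₀.lo j) ∧
      (∀ j, j ∈ S.fr ↔ (j ∈ S₀.fr ∧ ((∃ v, Q.Has v ∧ f v j = S₀.lo j) ∧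
        (∃ v, Q.Has v ∧ f v j = S₀.hi j)))) :=
    ⟨⟨fun j => if ∀ v, Q.Has v → f v j = S₀.hi j then S₀.hi j else S₀.lo j,
      S₀.fr.filter fun j => ((∃ v, Q.Has v ∧ f v j = S₀.lo j) ∧ (∃ v, Q.Has v ∧ f v j = S₀.hi j))⟩,
      fun _ => rfl, fun _ => Finset.mem_filter⟩
  have key : ∀ j, (∃ v, Q.Has v ∧ f v j = S.lo j) ∧ (∃ v, Q.Has v ∧ f v j = S.hi j) ∧
      ∀ v, Q.Has v → S.lo j ≤ f v j ∧ f v j ≤ S.hi j := by
    intro j
    have hq : Q.Has Q.lo := Q.has_lo
    by_cases h0 : j ∈ S₀.fr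
    · have e0 : S₀.hi j = S₀.lo j + 1 := C6a_hi_mem h0
      by_cases h1 : ∀ v, Q.Has v → f v j = S₀.hi j
      · have e1 : S.lo j = S₀.hi j := by rw [hlo, if_pos h1]
        have e2 : j ∉ S.fr := by
          intro hj
          obtain ⟨_, ⟨v, hv, hv2⟩, _⟩ := (hfr j).1 hj
          have := h1 v hv
          omega
        have e3 : S.hi j = S₀.hi j := by rw [C6a_hi_not e2, e1]
        refine ⟨⟨Q.lo, hq, ?_⟩, ⟨Q.lo, hq, ?_⟩, fun v hv => ?_⟩
        · rw [e1]; exact h1 _ hq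
        · rw [e3]; exact h1 _ hq
        · rw [e1, e3, h1 v hv]
          exact ⟨le_rfl, le_rfl⟩
      · have e1 : S.lo j = S₀.lo j := by rw [hlo, if_neg h1]
        push Not at h1
        obtain ⟨w, hw, hw2⟩ := h1
        have hw3 : f w j = S₀.lo j := by
          have := h w hw j
          omega
        by_cases h2 : ∃ v, Q.Has v ∧ f v j = S₀.hi j
        · have e2 : j ∈ S.fr := (hfr j).2 ⟨h0, ⟨w, hw, hw3⟩, h2⟩
          have e3 : S.hi j = S₀.hi j := by rw [C6a_hi_mem e2, e1, e0]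
          rw [e1, e3]
          exact ⟨⟨w, hw, hw3⟩, h2, fun v hv => h v hv j⟩
        · have e2 : j ∉ S.fr := fun hj => h2 ((hfr j).1 hj).2.2
          have e3 : S.hi j = S₀.lo j := by rw [C6a_hi_not e2, e1]
          rw [e1, e3]
          refine ⟨⟨w, hw, hw3⟩, ⟨w, hw, hw3⟩, fun v hv => ?_⟩
          have h3 := h v hv j
          have h4 : f v j ≠ S₀.hi j := fun e => h2 ⟨v, hv, e⟩
          omega
    · have e0 : S₀.hi j = S₀.lo j := C6a_hi_not h0
      have e1 : S.lo j = S₀.lo j := by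
        rw [hlo]
        split_ifs
        · exact e0
        · rfl
      have e2 : j ∉ S.fr := fun hj => h0 ((hfr j).1 hj).1
      have e3 : S.hi j = S₀.lo j := by rw [C6a_hi_not e2, e1]
      have e4 : ∀ v, Q.Has v → f v j = S₀.lo j := fun v hv => by
        have := h v hv j
        omega
      rw [e1, e3]
      exact ⟨⟨Q.lo, hq, e4 _ hq⟩, ⟨Q.lo, hq, e4 _ hq⟩, fun v hv => by
        rw [e4 v hv]
        exact ⟨le_rfl, le_rfl⟩⟩
  have hmin : ∀ S' : Cube J, (∀ v, Q.Has v → S'.Has (f v)) → S.Le S' := by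
    intro S' h' j
    obtain ⟨⟨v, hv, hv2⟩, ⟨w, hw, hw2⟩, _⟩ := key j
    rw [← hv2, ← hw2]
    exact ⟨(h' v hv j).1, (h' w hw j).2⟩
  have hhas : ∀ v, Q.Has v → S.Has (f v) := fun v hv j => (key j).2.2 v hv
  refine ⟨S, ?_, hmin S₀ h, hhas⟩
  ext P
  constructor
  · intro hP
    exact hP S hhas
  · intro hP S' h'
    exact Cube.le_trans' hP (hmin S' h')

theorem spn_mono (f : (V → ℤ) → (J → ℤ)) (Q P : Cube V) (h : P.Le Q) : Spn f P ⊆ Spn f Q :=
  fun _ hR S hS => hR S fun v hv => hS v (Cube.has_of_le h hv)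

private theorem C6a_inv_act (τ : Equiv.Perm J) (S : Cube J) : (S.act τ⁻¹).act τ = S := by
  rw [← Cube.act_mul, mul_inv_cancel, Cube.act_one']

private theorem C6a_inv_actP (τ : Equiv.Perm J) (v : J → ℤ) : actP τ (actP τ⁻¹ v) = v := by
  rw [← actP_mul, mul_inv_cancel, actP_one]

theorem spn_act (τV : Equiv.Perm V) (τJ : Equiv.Perm J) (f : (V → ℤ) → (J → ℤ))
    (hf : Equi τV τJ f) (Q : Cube V) (P : Cube J) : P ∈ Spn f Q ↔ P.act τJ ∈ Spn f (Q.act τV) := by
  constructor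
  · intro hP S hS
    rw [← C6a_inv_act τJ S, Cube.act_le]
    refine hP _ fun v hv => ?_
    rw [← Cube.act_has τJ, C6a_inv_act, ← hf v]
    exact hS _ ((Cube.act_has τV Q v).2 hv)
  · intro hP S hS
    rw [← Cube.act_le τJ]
    refine hP _ fun v hv => ?_
    rw [← C6a_inv_actP τV v] at hv ⊢
    rw [hf, Cube.act_has]
    exact hS _ ((Cube.act_has τV Q _).1 hv)

theorem spn_pt (f : (V → ℤ) → (J → ℤ)) (v : V → ℤ) : Spn f (pt v) = {pt (f v)} := by
  have hpt : ∀ j, (pt (f v)).hi j = f v j := fun j => C6a_hi_not (Q := pt (f v)) (Finset.notMem_empty j)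
  have huniq : ∀ w, (pt v).Has w → w = v := by
    intro w hw
    funext i
    have h1 := hw i
    have h2 : (pt v).hi i = v i := C6a_hi_not (Q := pt v) (Finset.notMem_empty i)
    rw [h2] at h1
    exact le_antisymm h1.2 h1.1
  ext P
  constructor
  · intro hP
    have h1 : P.Le (pt (f v)) := by
      refine hP _ fun w hw => ?_
      rw [huniq w hw]
      exact Cube.has_lo (pt (f v))
    refine Cube.le_antisymm' h1 (Cube.pt_le.2 fun j => ?_)
    have h2 := h1 j
    have h3 := P.has_lo j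
    rw [hpt] at h2
    have h4 : (pt (f v)).lo j = f v j := rfl
    rw [h4] at h2
    omega
  · intro hP
    rw [Set.mem_singleton_iff] at hP
    subst hP
    intro S hS
    exact Cube.pt_le.2 (hS v (Cube.has_lo (pt v)))

theorem spn_sub (f : (V → ℤ) → (J → ℤ)) (Q : Cube V) (S : Cube J)
    (h : ∀ v, Q.Has v → S.Has (f v)) : Spn f Q ⊆ Faces S :=
  fun _ hP => hP S h

end AGE
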