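import Pool.Agent.AGE.ASM0
import Pool.Agent.AGE.C1b
import Pool.Agent.AGE.C6a

/-!
# AGE-ASM8: axial vertex maps hit all vertices of the span; composition of pushes

`ax_span`: for an axial map the coordinate `k` of the image depends only on the coordinates `i` of the vertex with
`j i = k` (`ASM8_agree`), both values of a free coordinate of the span are attained (`ASM8_att`), and the vertex is put
together coordinate by coordinate. `spn_comp_ax`: a cube contains all `f (b v)`, `v` in `Q`, iff it contains all `f w`,
`w` in `S`. `push_comp_ax`: from `spn_comp_ax` and linearity.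
-/

set_option autoImplicit false

noncomputable section

namespace AGE

variable {V J W : Type} [LinearOrder V] [LinearOrder J] [LinearOrder W]

private theorem ASM8_has_cases {Q : Cube V} {v : V → ℤ} (h : Q.Has v) (i : V) :
    v i = Q.lo i ∨ (i ∈ Q.fr ∧ v i = Q.lo i + 1) := by
  have h1 := h i
  unfold Cube.hi at h1
  by_cases hi : i ∈ Q.fr
  · rw [if_pos hi] at h1
    rcases h1 with ⟨h2, h3⟩
    by_cases h4 : v i = Q.lo i
    · exact Or.inl h4
    · exact Or.inr ⟨hi, by omega⟩
  · rw [if_neg hi] at h1
    left
    omega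

private theorem ASM8_has_iff {Q : Cube V} {v : V → ℤ} :
    Q.Has v ↔ ∀ i, v i = Q.lo i ∨ (i ∈ Q.fr ∧ v i = Q.lo i + 1) := by
  constructor
  · intro h i
    exact ASM8_has_cases h i
  · intro h i
    unfold Cube.hi
    rcases h i with h1 | ⟨h1, h2⟩
    · split_ifs <;> omega
    · rw [if_pos h1]
      omega

private theorem ASM8_step (f : (V → ℤ) → (J → ℤ)) (Q : Cube V) (a : V) (ha : a ∈ Q.fr) (j k : J)
    (hj : ∀ v, Q.Has v → ∀ k, k ≠ j →
      f (Function.update v a (Q.lo a + 1)) k = f (Function.update v a (Q.lo a)) k) (hk : k ≠ j)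
    (w : V → ℤ) (hw : Q.Has w) (c : ℤ) (hc : c = Q.lo a ∨ c = Q.lo a + 1) :
    f (Function.update w a c) k = f w k := by
  have h1 := hj w hw k hk
  have h2 : ∀ c' : ℤ, c' = Q.lo a ∨ c' = Q.lo a + 1 →
      f (Function.update w a c') k = f (Function.update w a (Q.lo a)) k := by
    intro c' hc'
    rcases hc' with h | h
    · rw [h]
    · rw [h, h1]
  have h3 := h2 (w a) (by
    rcases ASM8_has_cases hw a with h | h
    · exact Or.inl h
    · exact Or.inr h.2)
  rw [Function.update_eq_self] at h3
  rw [h2 c hc, h3]

private theorem ASM8_agree (f : (V → ℤ) → (J → ℤ)) (Q : Cube V) (jj : ∀ i : V, i ∈ Q.fr → J)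
    (hj : ∀ (i : V) (h : i ∈ Q.fr), ∀ v, Q.Has v → ∀ k, k ≠ jj i h →
      f (Function.update v i (Q.lo i + 1)) k = f (Function.update v i (Q.lo i)) k)
    (v v' : V → ℤ) (hv : Q.Has v) (hv' : Q.Has v') (k : J)
    (h : ∀ (i : V) (hi : i ∈ Q.fr), jj i hi = k → v i = v' i) : f v k = f v' k := by
  have key : ∀ D : Finset V, D ⊆ Q.fr → f (fun i => if i ∈ D then v' i else v i) k = f v k := by
    intro D
    induction D using Finset.induction_on with
    | empty =>
      intro _
      simp
    | insert a D haD ih =>
      intro hD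
      have haQ : a ∈ Q.fr := hD (Finset.mem_insert_self a D)
      have ih' := ih (fun x hx => hD (Finset.mem_insert_of_mem hx))
      have hw : Q.Has (fun i => if i ∈ D then v' i else v i) := by
        intro i
        by_cases hi : i ∈ D
        · simp only [if_pos hi]
          exact hv' i
        · simp only [if_neg hi]
          exact hv i
      have hup : (fun i => if i ∈ insert a D then v' i else v i) =
          Function.update (fun i => if i ∈ D then v' i else v i) a (v' a) := by
        funext i
        by_cases hi : i = a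
        · subst hi
          rw [Function.update_self, if_pos (Finset.mem_insert_self i D)]
        · rw [Function.update_of_ne hi]
          by_cases hi2 : i ∈ D
          · rw [if_pos hi2, if_pos (Finset.mem_insert_of_mem hi2)]
          · rw [if_neg hi2, if_neg]
            intro h5
            rcases Finset.mem_insert.1 h5 with h6 | h6
            · exact hi h6
            · exact hi2 h6
      rw [hup]
      by_cases hka : jj a haQ = k
      · have h3 := h a haQ hka
        have h4 : Function.update (fun i => if i ∈ D then v' i else v i) a (v' a) =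
            (fun i => if i ∈ D then v' i else v i) := by
          have h5 : (fun i => if i ∈ D then v' i else v i) a = v' a := by
            simp only [if_neg haD]
            exact h3
          rw [← h5, Function.update_eq_self]
        rw [h4, ih']
      · rw [ASM8_step f Q a haQ (jj a haQ) k (hj a haQ) (fun h => hka h.symm) _ hw (v' a), ih']
        rcases ASM8_has_cases hv' a with h5 | h5
        · exact Or.inl h5
        · exact Or.inr h5.2
  have h1 := key Q.fr (fun x hx => hx)
  have h2 : (fun i => if i ∈ Q.fr then v' i else v i) = v' := by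
    funext i
    by_cases hi : i ∈ Q.fr
    · rw [if_pos hi]
    · rw [if_neg hi]
      rcases ASM8_has_cases hv i with h3 | h3
      · rcases ASM8_has_cases hv' i with h4 | h4
        · rw [h3, h4]
        · exact absurd h4.1 hi
      · exact absurd h3.1 hi
  rw [h2] at h1
  exact h1.symm

/-- both values of a coordinate of the span are attained -/
private theorem ASM8_att (f : (V → ℤ) → (J → ℤ)) (Q : Cube V) (S : Cube J) (hS : Spn f Q = Faces S)
    (hS' : ∀ v, Q.Has v → S.Has (f v)) (w : J → ℤ) (hw : S.Has w) (k : J) :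
    ∃ v, Q.Has v ∧ f v k = w k := by
  by_contra hno
  push Not at hno
  have hSS : S ∈ Spn f Q := by
    rw [hS]
    exact Cube.le_refl' S
  rcases ASM8_has_cases hw k with h1 | ⟨hk, h1⟩
  · by_cases hk : k ∈ S.fr
    · -- all values are `S.lo k + 1`
      have h2 : S.Le (S.up k) := by
        apply hSS
        intro v hv
        have h3 := hS' v hv
        have h4 := hno v hv
        intro i
        unfold Cube.hi Cube.up
        by_cases hi : i = k
        · subst hi
          rcases ASM8_has_cases h3 i with h5 | ⟨_, h5⟩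
          · exact absurd (h5.trans h1.symm) h4
          · simp only [Function.update_self, Finset.mem_erase, ne_eq, not_true_eq_false, false_and,
              if_false]
            omega
        · have h5 := h3 i
          unfold Cube.hi at h5
          simp only [Function.update_of_ne hi, Finset.mem_erase, ne_eq, hi, not_false_eq_true,
            true_and]
          exact h5
      have h6 := (h2 k).1
      unfold Cube.up at h6
      simp only [Function.update_self] at h6
      omega
    · have h3 := hS' Q.lo (Cube.has_lo Q)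
      rcases ASM8_has_cases h3 k with h5 | ⟨h5, _⟩
      · exact hno Q.lo (Cube.has_lo Q) (h5.trans h1.symm)
      · exact hk h5
  · -- all values are `S.lo k`
    have h2 : S.Le (S.dn k) := by
      apply hSS
      intro v hv
      have h3 := hS' v hv
      have h4 := hno v hv
      intro i
      unfold Cube.hi Cube.dn
      by_cases hi : i = k
      · subst hi
        rcases ASM8_has_cases h3 i with h5 | ⟨_, h5⟩
        · simp only [Finset.mem_erase, ne_eq, not_true_eq_false, false_and, if_false]
          omega
        · exact absurd (h5.trans h1.symm) h4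
      · have h5 := h3 i
        unfold Cube.hi at h5
        simp only [Finset.mem_erase, ne_eq, hi, not_false_eq_true, true_and]
        exact h5
    have h6 := (h2 k).2
    unfold Cube.hi Cube.dn at h6
    simp only [Finset.mem_erase, ne_eq, not_true_eq_false, false_and, if_false, if_pos hk] at h6
    omega

theorem ax_span (K : Set (Cube V)) (f : (V → ℤ) → (J → ℤ)) (hA : Ax K f) (Q : Cube V)
    (hQ : Q ∈ K) (S : Cube J) (hS : Spn f Q = Faces S) (hS' : ∀ v, Q.Has v → S.Has (f v))
    (w : J → ℤ) (hw : S.Has w) : ∃ v, Q.Has v ∧ f v = w := by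
  choose jj hjj using hA Q hQ
  choose vk hvk using ASM8_att f Q S hS hS' w hw
  refine ⟨fun i => if h : i ∈ Q.fr then vk (jj i h) i else Q.lo i, ?_, ?_⟩
  · intro i
    by_cases hi : i ∈ Q.fr
    · simp only [dif_pos hi]
      exact (hvk (jj i hi)).1 i
    · simp only [dif_neg hi]
      exact (Cube.has_lo Q) i
  · funext k
    rw [← (hvk k).2]
    refine ASM8_agree f Q jj hjj _ _ ?_ (hvk k).1 k ?_
    · intro i
      by_cases hi : i ∈ Q.fr
      · simp only [dif_pos hi]
        exact (hvk (jj i hi)).1 i
      · simp only [dif_neg hi]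
        exact (Cube.has_lo Q) i
    · intro i hi hik
      simp only [dif_pos hi]
      rw [hik]

theorem spn_comp_ax (K' : Set (Cube W)) (b : (W → ℤ) → (V → ℤ)) (hA : Ax K' b) (Q : Cube W)
    (hQ : Q ∈ K') (S : Cube V) (hS : Spn b Q = Faces S) (hS' : ∀ v, Q.Has v → S.Has (b v))
    (f : (V → ℤ) → (J → ℤ)) : Spn (f ∘ b) Q = Spn f S := by
  ext P
  constructor
  · intro h R hR
    exact h R (fun v hv => hR (b v) (hS' v hv))
  · intro h R hR
    refine h R (fun w hw => ?_)
    obtain ⟨v, hv, hvw⟩ := ax_span K' b hA Q hQ S hS hS' w hw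
    have h1 := hR v hv
    rw [Function.comp_apply, hvw] at h1
    exact h1

theorem push_comp_ax (K' : Set (Cube W)) (hK' : Closed K') (K : Set (Cube V)) (hK : Closed K)
    (b : (W → ℤ) → (V → ℤ)) (hA : Ax K' b) (hb : VMap K' K b) (f : (V → ℤ) → (J → ℤ))
    (β : Ch W →ₗ[ℤ] Ch V) (φ : Ch V →ₗ[ℤ] Ch J) (hβ : Push K' (Spn b) b β)
    (hφ : Push K (Spn f) f φ) : Push K' (Spn (f ∘ b)) (f ∘ b) (φ ∘ₗ β) := by
  have hspan : ∀ c ∈ K', ∃ S : Cube V, S ∈ K ∧ Spn b c = Faces S ∧ ∀ v, c.Has v → S.Has (b v) := by
    intro c hc
    obtain ⟨S₀, hS₀, h0⟩ := hb c hc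
    obtain ⟨S, h1, h2, h3⟩ := spn_eq b c S₀ h0
    exact ⟨S, hK S₀ hS₀ S h2, h1, h3⟩
  refine ⟨?_, ?_, ?_⟩
  · intro v hv
    obtain ⟨S₀, hS₀, h0⟩ := hb (pt v) hv
    have h1 : (pt v).Has v := Cube.pt_le.1 (Cube.le_refl' (pt v))
    have h2 : pt (b v) ∈ K := hK S₀ hS₀ (pt (b v)) (Cube.pt_le.2 (h0 v h1))
    rw [LinearMap.comp_apply, hβ.vtx v hv, hφ.vtx (b v) h2]
    rfl
  · intro c hc
    obtain ⟨S, hSK, hS, hS'⟩ := hspan c hc
    rw [spn_comp_ax K' b hA c hc S hS hS' f, LinearMap.comp_apply]
    have h1 := hβ.car c hc
    rw [hS] at h1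
    refine map_mem φ (CC (Spn f S) c.dim) ?_ h1
    intro P hP hdim
    have hPK : P ∈ K := hK S hSK P hP
    have h2 := hφ.car P hPK
    rw [hdim] at h2
    exact CC_mono (spn_mono f S P hP) c.dim h2
  · intro c hc
    obtain ⟨S, hSK, hS, hS'⟩ := hspan c hc
    have h1 := hβ.car c hc
    rw [hS] at h1
    have h2 : bd (φ (β (one c))) = φ (bd (β (one c))) := by
      have h3 := eq_of_one (bd ∘ₗ φ) (φ ∘ₗ bd) (K := Faces S) (fun P hP => by
        rw [LinearMap.comp_apply, LinearMap.comp_apply]
        exact hφ.chn P (hK S hSK P hP)) h1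
      rwa [LinearMap.comp_apply, LinearMap.comp_apply] at h3
    rw [LinearMap.comp_apply, LinearMap.comp_apply, h2, hβ.chn c hc]

end AGE
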