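import Pool.Agent.AGE.Defs
import Pool.Agent.AGE.C1b

/-!
# AGE-C3: grid boxes are acyclic

A box is contracted one coordinate at a time: `C3_H m j` is the chain homotopy which moves the coordinate `j` down to `m`, from
the identity to the projection `C3_P m j`. Induction on the set of the coordinates which vary in the box.
-/

set_option autoImplicit false

noncomputable section

namespace AGE

variable {V J : Type} [LinearOrder V] [LinearOrder J]

/-! ## signs -/

private theorem C3_sg_insert (s : Finset J) (j : J) : sg (insert j s) j = sg s j := by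
  unfold sg
  rw [Finset.filter_insert, if_neg (lt_irrefl j)]

private theorem C3_sg_erase (s : Finset J) (j : J) : sg (s.erase j) j = sg s j := by
  unfold sg
  rw [Finset.filter_erase, Finset.erase_eq_of_notMem]
  intro h
  exact lt_irrefl j (Finset.mem_filter.1 h).2

private theorem C3_sg_sq (s : Finset J) (j : J) : sg s j * sg s j = 1 := by
  unfold sg
  rw [← pow_add, ← two_mul, pow_mul]
  norm_num

private theorem C3_sg_comm {s : Finset J} {i j : J} (hi : i ∈ s) (hj : j ∉ s) :
    sg s j * sg (insert j s) i = -(sg s i * sg (s.erase i) j) := by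
  rcases lt_trichotomy i j with hij | hij | hij
  · have h1 : sg (insert j s) i = sg s i := by
      unfold sg
      rw [Finset.filter_insert, if_neg (not_lt.2 hij.le)]
    have h2 : sg s j = -sg (s.erase i) j := by
      unfold sg
      have h3 : i ∈ s.filter (· < j) := Finset.mem_filter.2 ⟨hi, hij⟩
      rw [Finset.filter_erase, ← Finset.card_erase_add_one h3, pow_succ]
      ring
    rw [h1, h2]
    ring
  · exact absurd (hij ▸ hi) hj
  · have h1 : sg (insert j s) i = -sg s i := by
      unfold sg
      have h3 : j ∉ s.filter (· < i) := fun h => hj (Finset.mem_filter.1 h).1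
      rw [Finset.filter_insert, if_pos hij, Finset.card_insert_of_notMem h3, pow_succ]
      ring
    have h2 : sg (s.erase i) j = sg s j := by
      unfold sg
      rw [Finset.filter_erase, Finset.erase_eq_of_notMem]
      intro h
      exact absurd (Finset.mem_filter.1 h).2 (not_lt.2 hij.le)
    rw [h1, h2]
    ring

/-! ## the homotopy -/

/-- the homotopy on a cube -/
private def C3_h (m : ℤ) (j : J) (Q : Cube J) : Ch J :=
  if j ∈ Q.fr then 0 else ∑ t ∈ Finset.range (Q.lo j - m).toNat,
    sg Q.fr j • one ⟨Function.update Q.lo j (m + (t : ℤ)), insert j Q.fr⟩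

/-- the projection of a cube -/
private def C3_p (m : ℤ) (j : J) (Q : Cube J) : Ch J :=
  if j ∈ Q.fr then 0 else one ⟨Function.update Q.lo j m, Q.fr⟩

/-- the homotopy -/
private def C3_H (m : ℤ) (j : J) : Ch J →ₗ[ℤ] Ch J := Finsupp.linearCombination ℤ (C3_h m j)

/-- the projection -/
private def C3_P (m : ℤ) (j : J) : Ch J →ₗ[ℤ] Ch J := Finsupp.linearCombination ℤ (C3_p m j)

private theorem C3_H_one (m : ℤ) (j : J) (Q : Cube J) : C3_H m j (one Q) = C3_h m j Q := by
  unfold C3_H one
  rw [Finsupp.linearCombination_single, one_smul]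

private theorem C3_P_one (m : ℤ) (j : J) (Q : Cube J) : C3_P m j (one Q) = C3_p m j Q := by
  unfold C3_P one
  rw [Finsupp.linearCombination_single, one_smul]

private theorem C3_H_bdQ (m : ℤ) (j : J) (Q : Cube J) :
    C3_H m j (bdQ Q) = ∑ i ∈ Q.fr, sg Q.fr i • (C3_h m j (Q.up i) - C3_h m j (Q.dn i)) := by
  unfold bdQ
  rw [map_sum]
  refine Finset.sum_congr rfl fun i _ => ?_
  rw [map_zsmul, map_sub, C3_H_one, C3_H_one]

/-- the homotopy identity, `j` not free -/
private theorem C3_caseA (m : ℤ) (j : J) (Q : Cube J) (hj : j ∉ Q.fr) (hm : m ≤ Q.lo j) :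
    bd (C3_h m j Q) + C3_H m j (bdQ Q) = one Q - C3_p m j Q := by
  have hT : m + (((Q.lo j - m).toNat : ℕ) : ℤ) = Q.lo j := by
    rw [Int.toNat_of_nonneg (by omega)]
    ring
  -- the two kinds of terms
  have h1 : bd (C3_h m j Q) = ∑ t ∈ Finset.range (Q.lo j - m).toNat,
      ((one (⟨Function.update Q.lo j (m + ((t + 1 : ℕ) : ℤ)), Q.fr⟩ : Cube J) -
        one ⟨Function.update Q.lo j (m + (t : ℤ)), Q.fr⟩) +
      ∑ i ∈ Q.fr, (sg Q.fr j * sg (insert j Q.fr) i) •
        (one ⟨Function.update (Function.update Q.lo i (Q.lo i + 1)) j (m + (t : ℤ)), insert j (Q.fr.erase i)⟩ -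
          one ⟨Function.update Q.lo j (m + (t : ℤ)), insert j (Q.fr.erase i)⟩)) := by
    unfold C3_h
    rw [if_neg hj, map_sum]
    refine Finset.sum_congr rfl fun t _ => ?_
    rw [map_zsmul, bd_one]
    unfold bdQ
    rw [Finset.sum_insert hj, smul_add, Finset.smul_sum]
    congr 1
    · have e1 : (⟨Function.update Q.lo j (m + (t : ℤ)), insert j Q.fr⟩ : Cube J).up j =
          ⟨Function.update Q.lo j (m + ((t + 1 : ℕ) : ℤ)), Q.fr⟩ := by
        unfold Cube.up
        simp only [Function.update_idem, Function.update_self, Finset.erase_insert hj]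
        have e3 : m + (t : ℤ) + 1 = m + ((t + 1 : ℕ) : ℤ) := by
          push_cast
          ring
        rw [e3]
      have e2 : (⟨Function.update Q.lo j (m + (t : ℤ)), insert j Q.fr⟩ : Cube J).dn j =
          ⟨Function.update Q.lo j (m + (t : ℤ)), Q.fr⟩ := by
        unfold Cube.dn
        simp only [Finset.erase_insert hj]
      rw [e1, e2, smul_smul, C3_sg_insert, C3_sg_sq, one_smul]
    · refine Finset.sum_congr rfl fun i hi => ?_
      have hij : i ≠ j := fun h => hj (h ▸ hi)
      have e1 : (⟨Function.update Q.lo j (m + (t : ℤ)), insert j Q.fr⟩ : Cube J).up i =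
          ⟨Function.update (Function.update Q.lo i (Q.lo i + 1)) j (m + (t : ℤ)), insert j (Q.fr.erase i)⟩ := by
        unfold Cube.up
        simp only [Function.update_of_ne hij, Finset.erase_insert_of_ne hij.symm]
        rw [Function.update_comm hij.symm]
      have e2 : (⟨Function.update Q.lo j (m + (t : ℤ)), insert j Q.fr⟩ : Cube J).dn i =
          ⟨Function.update Q.lo j (m + (t : ℤ)), insert j (Q.fr.erase i)⟩ := by
        unfold Cube.dn
        simp only [Finset.erase_insert_of_ne hij.symm]
      rw [e1, e2, smul_smul]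
  have h2 : C3_H m j (bdQ Q) = ∑ t ∈ Finset.range (Q.lo j - m).toNat,
      ∑ i ∈ Q.fr, (sg Q.fr i * sg (Q.fr.erase i) j) •
        (one (⟨Function.update (Function.update Q.lo i (Q.lo i + 1)) j (m + (t : ℤ)), insert j (Q.fr.erase i)⟩ :
            Cube J) - one ⟨Function.update Q.lo j (m + (t : ℤ)), insert j (Q.fr.erase i)⟩) := by
    rw [C3_H_bdQ, Finset.sum_comm]
    refine Finset.sum_congr rfl fun i hi => ?_
    have hij : i ≠ j := fun h => hj (h ▸ hi)
    have hj' : j ∉ Q.fr.erase i := fun h => hj (Finset.mem_of_mem_erase h)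
    have e1 : C3_h m j (Q.up i) = ∑ t ∈ Finset.range (Q.lo j - m).toNat, sg (Q.fr.erase i) j •
        one ⟨Function.update (Function.update Q.lo i (Q.lo i + 1)) j (m + (t : ℤ)), insert j (Q.fr.erase i)⟩ := by
      unfold C3_h Cube.up
      simp only [if_neg hj', Function.update_of_ne hij.symm]
    have e2 : C3_h m j (Q.dn i) = ∑ t ∈ Finset.range (Q.lo j - m).toNat, sg (Q.fr.erase i) j •
        one ⟨Function.update Q.lo j (m + (t : ℤ)), insert j (Q.fr.erase i)⟩ := by
      unfold C3_h Cube.dn
      simp only [if_neg hj']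
    rw [e1, e2, ← Finset.sum_sub_distrib, Finset.smul_sum]
    refine Finset.sum_congr rfl fun t _ => ?_
    rw [← smul_sub, smul_smul]
  rw [h1, h2, ← Finset.sum_add_distrib]
  have h3 : ∀ t ∈ Finset.range (Q.lo j - m).toNat,
      ((one (⟨Function.update Q.lo j (m + ((t + 1 : ℕ) : ℤ)), Q.fr⟩ : Cube J) -
        one ⟨Function.update Q.lo j (m + (t : ℤ)), Q.fr⟩) +
      ∑ i ∈ Q.fr, (sg Q.fr j * sg (insert j Q.fr) i) •
        (one ⟨Function.update (Function.update Q.lo i (Q.lo i + 1)) j (m + (t : ℤ)), insert j (Q.fr.erase i)⟩ -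
          one ⟨Function.update Q.lo j (m + (t : ℤ)), insert j (Q.fr.erase i)⟩)) +
      ∑ i ∈ Q.fr, (sg Q.fr i * sg (Q.fr.erase i) j) •
        (one (⟨Function.update (Function.update Q.lo i (Q.lo i + 1)) j (m + (t : ℤ)), insert j (Q.fr.erase i)⟩ :
            Cube J) - one ⟨Function.update Q.lo j (m + (t : ℤ)), insert j (Q.fr.erase i)⟩) =
      (fun t : ℕ => one (⟨Function.update Q.lo j (m + (t : ℤ)), Q.fr⟩ : Cube J)) (t + 1) -
        (fun t : ℕ => one (⟨Function.update Q.lo j (m + (t : ℤ)), Q.fr⟩ : Cube J)) t := by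
    intro t _
    rw [add_assoc, ← Finset.sum_add_distrib]
    have h4 : ∀ i ∈ Q.fr, (sg Q.fr j * sg (insert j Q.fr) i) •
        (one (⟨Function.update (Function.update Q.lo i (Q.lo i + 1)) j (m + (t : ℤ)), insert j (Q.fr.erase i)⟩ :
            Cube J) - one ⟨Function.update Q.lo j (m + (t : ℤ)), insert j (Q.fr.erase i)⟩) +
        (sg Q.fr i * sg (Q.fr.erase i) j) •
        (one (⟨Function.update (Function.update Q.lo i (Q.lo i + 1)) j (m + (t : ℤ)), insert j (Q.fr.erase i)⟩ :
            Cube J) - one ⟨Function.update Q.lo j (m + (t : ℤ)), insert j (Q.fr.erase i)⟩) = 0 := by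
      intro i hi
      rw [C3_sg_comm hi hj, neg_smul, neg_add_cancel]
    rw [Finset.sum_eq_zero h4, add_zero]
  have h5 := Finset.sum_range_sub (fun t : ℕ => one (⟨Function.update Q.lo j (m + (t : ℤ)), Q.fr⟩ : Cube J))
    (Q.lo j - m).toNat
  rw [Finset.sum_congr rfl h3]
  refine h5.trans ?_
  simp only [hT, Nat.cast_zero, add_zero, Function.update_eq_self]
  unfold C3_p
  rw [if_neg hj]

/-- the homotopy identity, `j` free -/
private theorem C3_caseB (m : ℤ) (j : J) (Q : Cube J) (hj : j ∈ Q.fr) (hm : m ≤ Q.lo j) :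
    bd (C3_h m j Q) + C3_H m j (bdQ Q) = one Q - C3_p m j Q := by
  have h1 : C3_h m j Q = 0 := by
    unfold C3_h
    rw [if_pos hj]
  have h2 : C3_p m j Q = 0 := by
    unfold C3_p
    rw [if_pos hj]
  rw [h1, h2, map_zero, zero_add, sub_zero, C3_H_bdQ, ← Finset.add_sum_erase _ _ hj]
  have h3 : ∀ i ∈ Q.fr.erase j, sg Q.fr i • (C3_h m j (Q.up i) - C3_h m j (Q.dn i)) = 0 := by
    intro i hi
    have h4 : j ∈ Q.fr.erase i := Finset.mem_erase.2 ⟨(Finset.mem_erase.1 hi).1.symm, hj⟩
    have h5 : C3_h m j (Q.up i) = 0 := by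
      unfold C3_h Cube.up
      simp only [if_pos h4]
    have h6 : C3_h m j (Q.dn i) = 0 := by
      unfold C3_h Cube.dn
      simp only [if_pos h4]
    rw [h5, h6, sub_zero, smul_zero]
  rw [Finset.sum_eq_zero h3, add_zero]
  have hj' : j ∉ Q.fr.erase j := Finset.notMem_erase j _
  have hT : m + (((Q.lo j - m).toNat : ℕ) : ℤ) = Q.lo j := by
    rw [Int.toNat_of_nonneg (by omega)]
    ring
  have hT1 : (Q.lo j + 1 - m).toNat = (Q.lo j - m).toNat + 1 := by omega
  have e1 : C3_h m j (Q.up j) = ∑ t ∈ Finset.range ((Q.lo j - m).toNat + 1), sg Q.fr j •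
      one ⟨Function.update Q.lo j (m + (t : ℤ)), Q.fr⟩ := by
    unfold C3_h Cube.up
    simp only [if_neg hj', Function.update_self, Function.update_idem, Finset.insert_erase hj, hT1, C3_sg_erase]
  have e2 : C3_h m j (Q.dn j) = ∑ t ∈ Finset.range (Q.lo j - m).toNat, sg Q.fr j •
      one ⟨Function.update Q.lo j (m + (t : ℤ)), Q.fr⟩ := by
    unfold C3_h Cube.dn
    simp only [if_neg hj', Finset.insert_erase hj, C3_sg_erase]
  rw [e1, e2, Finset.sum_range_succ, add_sub_cancel_left, hT, Function.update_eq_self, smul_smul, C3_sg_sq, one_smul]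

private theorem C3_hom (m : ℤ) (j : J) (Q : Cube J) (hm : m ≤ Q.lo j) :
    bd (C3_H m j (one Q)) + C3_H m j (bd (one Q)) = one Q - C3_P m j (one Q) := by
  rw [C3_H_one, C3_P_one, bd_one]
  by_cases hj : j ∈ Q.fr
  · exact C3_caseB m j Q hj hm
  · exact C3_caseA m j Q hj hm

/-! ## boxes -/

/-- boxes -/
private def C3_box (a b : J → ℤ) : Set (Cube J) := {Q | ∀ j, a j ≤ Q.lo j ∧ Q.hi j ≤ b j}

private theorem C3_lo_hi (Q : Cube J) (j : J) : Q.lo j ≤ Q.hi j := by
  unfold Cube.hi
  split_ifs <;> omega

private theorem C3_H_mem (a b : J → ℤ) (j : J) {i : ℕ} {z : Ch J} (hz : z ∈ CC (C3_box a b) i) :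
    C3_H (a j) j z ∈ CC (C3_box a b) (i + 1) := by
  refine map_mem _ _ (fun c hc hd => ?_) hz
  rw [C3_H_one]
  unfold C3_h
  by_cases hj : j ∈ c.fr
  · rw [if_pos hj]
    exact Submodule.zero_mem _
  · rw [if_neg hj]
    refine Submodule.sum_mem _ fun t ht => ?_
    refine Submodule.smul_mem _ _ ?_
    rw [Finset.mem_range] at ht
    have h1 : (⟨Function.update c.lo j (a j + (t : ℤ)), insert j c.fr⟩ : Cube J) ∈ C3_box a b := by
      intro k
      by_cases hk : k = j
      · subst hk
        have h2 : c.hi k = c.lo k := by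
          unfold Cube.hi
          rw [if_neg hj]
        have h3 := (hc k).2
        rw [h2] at h3
        have h4 : (⟨Function.update c.lo k (a k + (t : ℤ)), insert k c.fr⟩ : Cube J).hi k =
            a k + (t : ℤ) + 1 := by
          unfold Cube.hi
          simp
        rw [h4]
        simp only [Function.update_self]
        constructor
        · omega
        · omega
      · have h4 : (⟨Function.update c.lo j (a j + (t : ℤ)), insert j c.fr⟩ : Cube J).hi k = c.hi k := by
          unfold Cube.hi
          simp [hk]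
        rw [h4]
        simp only [Function.update_of_ne hk]
        exact hc k
    have h2 := one_mem h1
    have h3 : (⟨Function.update c.lo j (a j + (t : ℤ)), insert j c.fr⟩ : Cube J).dim = i + 1 := by
      unfold Cube.dim at hd ⊢
      simp only
      rw [Finset.card_insert_of_notMem hj, hd]
    rw [h3] at h2
    exact h2

private theorem C3_P_mem (a b : J → ℤ) (j : J) {i : ℕ} {z : Ch J} (hz : z ∈ CC (C3_box a b) i) :
    C3_P (a j) j z ∈ CC (C3_box a (Function.update b j (a j))) i := by
  refine map_mem _ _ (fun c hc hd => ?_) hz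
  rw [C3_P_one]
  unfold C3_p
  by_cases hj : j ∈ c.fr
  · rw [if_pos hj]
    exact Submodule.zero_mem _
  · rw [if_neg hj]
    have h1 : (⟨Function.update c.lo j (a j), c.fr⟩ : Cube J) ∈ C3_box a (Function.update b j (a j)) := by
      intro k
      by_cases hk : k = j
      · subst hk
        have h4 : (⟨Function.update c.lo k (a k), c.fr⟩ : Cube J).hi k = a k := by
          unfold Cube.hi
          simp [hj]
        rw [h4]
        simp
      · have h4 : (⟨Function.update c.lo j (a j), c.fr⟩ : Cube J).hi k = c.hi k := by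
          unfold Cube.hi
          simp [hk]
        rw [h4]
        simp only [Function.update_of_ne hk]
        exact hc k
    have h2 := one_mem h1
    have h3 : (⟨Function.update c.lo j (a j), c.fr⟩ : Cube J).dim = i := hd
    rw [h3] at h2
    exact h2

private theorem C3_closed (a b : J → ℤ) : Closed (C3_box a b) := by
  intro P hP Q hQ j
  exact ⟨(hP j).1.trans (hQ j).1, (hQ j).2.trans (hP j).2⟩

/-- boxes are acyclic -/
private theorem C3_acy (s : Finset J) : ∀ (a b : J → ℤ), (∀ j, a j ≤ b j) → (∀ j, j ∉ s → a j = b j) →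
    ∀ (i : ℕ) (z : Ch J), z ∈ CC (C3_box a b) i → bd z = 0 → (i = 0 → eps z = 0) →
    ∃ y ∈ CC (C3_box a b) (i + 1), bd y = z := by
  induction s using Finset.induction_on with
  | empty =>
    intro a b _ hs i z hz hb h0
    have hab : a = b := funext fun j => hs j (Finset.notMem_empty j)
    subst hab
    have hpt : ∀ Q ∈ C3_box a a, Q = pt a := by
      intro Q hQ
      have h1 : ∀ j, Q.lo j = a j := fun j => by
        have := hQ j
        have h2 := C3_lo_hi Q j
        omega
      have h2 : Q.fr = ∅ := by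
        rw [Finset.eq_empty_iff_forall_notMem]
        intro j hj
        have h3 := hQ j
        have h4 : Q.hi j = Q.lo j + 1 := by
          unfold Cube.hi
          rw [if_pos hj]
        omega
      exact Cube.ext (funext h1) h2
    refine ⟨0, Submodule.zero_mem _, ?_⟩
    rw [map_zero]
    symm
    rw [CC, Finsupp.mem_supported] at hz
    ext Q
    rw [Finsupp.zero_apply]
    by_contra hQ
    have h1 := hz (Finsupp.mem_support_iff.2 hQ)
    have h2 := hpt Q h1.1
    have h3 : i = 0 := by
      have h4 := h1.2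
      rw [h2] at h4
      unfold pt Cube.dim at h4
      simpa using h4.symm
    have h5 : z = Finsupp.single (pt a) (z (pt a)) := by
      rw [Finsupp.eq_single_iff]
      refine ⟨fun R hR => ?_, rfl⟩
      rw [Finset.mem_singleton]
      exact hpt R (hz hR).1
    have h6 := h0 h3
    rw [h5] at h6
    have h7 : eps (Finsupp.single (pt a) (z (pt a))) = z (pt a) := by
      unfold eps
      rw [Finsupp.linearCombination_single]
      simp [pt]
    rw [h7] at h6
    rw [h2] at hQ
    exact hQ h6
  | insert j s hj ih =>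
    intro a b hab hs i z hz hb h0
    have key : bd (C3_H (a j) j z) + C3_H (a j) j (bd z) = z - C3_P (a j) j z := by
      have h1 := eq_of_one (K := C3_box a b) (bd ∘ₗ C3_H (a j) j + C3_H (a j) j ∘ₗ bd)
        (LinearMap.id - C3_P (a j) j) (fun c hc => by
          simp only [LinearMap.add_apply, LinearMap.sub_apply, LinearMap.comp_apply, LinearMap.id_apply]
          exact C3_hom (a j) j c (hc j).1) hz
      simpa only [LinearMap.add_apply, LinearMap.sub_apply, LinearMap.comp_apply, LinearMap.id_apply] using h1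
    rw [hb, map_zero, add_zero] at key
    have hP : C3_P (a j) j z = z - bd (C3_H (a j) j z) := by
      rw [key]
      abel
    have hPb : bd (C3_P (a j) j z) = 0 := by
      rw [hP, map_sub, bd_bd, hb, sub_zero]
    have hP0 : i = 0 → eps (C3_P (a j) j z) = 0 := by
      intro hi
      rw [hP, map_sub, eps_bd, h0 hi, sub_zero]
    obtain ⟨y, hy, hyz⟩ := ih a (Function.update b j (a j)) (fun k => by
      by_cases hk : k = j
      · subst hk
        rw [Function.update_self]
      · rw [Function.update_of_ne hk]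
        exact hab k) (fun k hk => by
      by_cases hkj : k = j
      · subst hkj
        rw [Function.update_self]
      · rw [Function.update_of_ne hkj]
        refine hs k fun h => ?_
        rcases Finset.mem_insert.1 h with h | h
        · exact hkj h
        · exact hk h) i _ (C3_P_mem a b j hz) hPb hP0
    have hsub : C3_box a (Function.update b j (a j)) ⊆ C3_box a b := by
      intro Q hQ k
      refine ⟨(hQ k).1, (hQ k).2.trans ?_⟩
      by_cases hk : k = j
      · subst hk
        rw [Function.update_self]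
        exact hab k
      · rw [Function.update_of_ne hk]
    refine ⟨C3_H (a j) j z + y, Submodule.add_mem _ (C3_H_mem a b j hz) (CC_mono hsub _ hy), ?_⟩
    rw [map_add, hyz, hP]
    abel

theorem acy_grd (M : ℕ) (hM : 0 < M) (P : Cube J) (i : ℕ) (z : Ch J)
    (hz : z ∈ CC (Grd M (Faces P)) i) (hb : 0 < i → bd z = 0) (h0 : i = 0 → eps z = 0) :
    ∃ y ∈ CC (Grd M (Faces P)) (i + 1), bd y = z := by
  have hM' : (0 : ℤ) < M := by exact_mod_cast hM
  have hbox : Grd M (Faces P) = C3_box (fun j => (M : ℤ) * P.lo j) (fun j => (M : ℤ) * P.hi j) := by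
    ext Q
    constructor
    · rintro ⟨P', hP', hQ⟩ j
      refine ⟨le_trans ?_ (hQ j).1, (hQ j).2.trans ?_⟩
      · exact mul_le_mul_of_nonneg_left (hP' j).1 hM'.le
      · exact mul_le_mul_of_nonneg_left (hP' j).2 hM'.le
    · intro hQ
      exact ⟨P, Cube.le_refl' P, hQ⟩
  rw [hbox] at hz ⊢
  have hb' : bd z = 0 := by
    rcases Nat.eq_zero_or_pos i with hi | hi
    · subst hi
      exact bd_zero hz
    · exact hb hi
  refine C3_acy P.fr _ _ (fun j => mul_le_mul_of_nonneg_left (C3_lo_hi P j) hM'.le) (fun j hj => ?_) i z hz hb' h0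
  have h1 : P.hi j = P.lo j := by
    unfold Cube.hi
    rw [if_neg hj]
  simp only [h1]

theorem acy_faces (P : Cube J) (i : ℕ) (z : Ch J) (hz : z ∈ CC (Faces P) i)
    (hb : 0 < i → bd z = 0) (h0 : i = 0 → eps z = 0) :
    ∃ y ∈ CC (Faces P) (i + 1), bd y = z := by
  have hbox : Faces P = C3_box P.lo P.hi := rfl
  rw [hbox] at hz ⊢
  have hb' : bd z = 0 := by
    rcases Nat.eq_zero_or_pos i with hi | hi
    · subst hi
      exact bd_zero hz
    · exact hb hi
  refine C3_acy P.fr _ _ (fun j => C3_lo_hi P j) (fun j hj => ?_) i z hz hb' h0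
  unfold Cube.hi
  rw [if_neg hj]

end AGE
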