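import Pool.Agent.AGE.Defs
import Pool.Agent.AGE.C1b
import Pool.Agent.AGE.C2b

/-!
# AGE-C4a: equivariant choice

`eqx`: a problem `P c y` on the cubes `c` of an invariant set `K` on which `τV` acts freely (order `N`) and without changing orientations, which is solvable for every
`c` and equivariant, has a solution which is the value of an equivariant linear map. One chooses a representative in every orbit
(`C4a_set`), solutions for the representatives, and transports them along the orbits; this is well defined by `C4a_wd`.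
-/

set_option autoImplicit false

noncomputable section

namespace AGE

variable {V J : Type} [LinearOrder V] [LinearOrder J]

omit [LinearOrder V] in
private theorem C4a_pow {N : ℕ} {τ : Equiv.Perm V} (hV : τ ^ N = 1) {a b : ℕ} (h : N ∣ b - a) (hab : a ≤ b) :
    τ ^ a = τ ^ b := by
  obtain ⟨m, hm⟩ := h
  have h1 : b = a + N * m := by omega
  rw [h1, pow_add, pow_mul, hV, one_pow, mul_one]

/-- cubes in the same orbit -/
private def C4a_set {N : ℕ} (hN : 0 < N) (τ : Equiv.Perm V) (hV : τ ^ N = 1) : Setoid (Cube V) where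
  r c d := ∃ a : ℕ, c.act (τ ^ a) = d
  iseqv := by
    refine ⟨fun c => ⟨0, by rw [pow_zero, Cube.act_one']⟩, ?_, ?_⟩
    · rintro c d ⟨a, rfl⟩
      refine ⟨N * a - a, ?_⟩
      rw [← Cube.act_mul, ← pow_add, Nat.sub_add_cancel (Nat.le_mul_of_pos_left a hN), pow_mul, hV, one_pow,
        Cube.act_one']
    · rintro c d e ⟨a, rfl⟩ ⟨b, rfl⟩
      exact ⟨b + a, by rw [pow_add, Cube.act_mul]⟩

omit [LinearOrder J] in
private theorem C4a_wd_le {N : ℕ} {τV : Equiv.Perm V} {τJ : Equiv.Perm J} (hJ : τJ ^ N = 1)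
    {r : Cube V} (hfre : ∀ a : ℕ, r.act (τV ^ a) = r → N ∣ a) {a b : ℕ} (hab : a ≤ b)
    (h : r.act (τV ^ a) = r.act (τV ^ b)) : τJ ^ a = τJ ^ b := by
  refine C4a_pow hJ (hfre _ ?_) hab
  have h1 : (r.act (τV ^ (b - a))).act (τV ^ a) = r.act (τV ^ a) := by
    rw [← Cube.act_mul, ← pow_add, Nat.add_sub_cancel' hab, h]
  have h2 : ∀ Q : Cube V, (Q.act (τV ^ a)).act (τV ^ a)⁻¹ = Q := fun Q => by
    rw [← Cube.act_mul, inv_mul_cancel, Cube.act_one']
  rw [← h2 (r.act (τV ^ (b - a))), h1, h2]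

omit [LinearOrder J] in
private theorem C4a_wd {N : ℕ} {τV : Equiv.Perm V} {τJ : Equiv.Perm J} (hJ : τJ ^ N = 1)
    {r : Cube V} (hfre : ∀ a : ℕ, r.act (τV ^ a) = r → N ∣ a) {a b : ℕ}
    (h : r.act (τV ^ a) = r.act (τV ^ b)) : τJ ^ a = τJ ^ b := by
  rcases le_total a b with hab | hab
  · exact C4a_wd_le hJ hfre hab h
  · exact (C4a_wd_le hJ hfre hab h.symm).symm

theorem eqx {N : ℕ} (hN : 0 < N) (K : Set (Cube V)) (τV : Equiv.Perm V) (τJ : Equiv.Perm J)
    (hV : τV ^ N = 1) (hJ : τJ ^ N = 1) (hinv : Inv τV K)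
    (hfre : ∀ c ∈ K, ∀ a : ℕ, c.act (τV ^ a) = c → N ∣ a)
    (hori : ∀ c ∈ K, ∀ x ∈ c.fr, ∀ y ∈ c.fr, x < y → τV x < τV y)
    (P : Cube V → Ch J → Prop) (hP : ∀ c ∈ K, ∃ y, P c y)
    (hPe : ∀ c ∈ K, ∀ y, P c y → P (c.act τV) (act τJ y)) :
    ∃ α : Ch V →ₗ[ℤ] Ch J, (∀ c ∈ K, P c (α (one c))) ∧
      (∀ c ∈ K, α (act τV (one c)) = act τJ (α (one c))) ∧ (∀ c, c ∉ K → α (one c) = 0) := by
  classical
  let S := C4a_set hN τV hV
  have hKa : ∀ (c : Cube V) (a : ℕ), c ∈ K ↔ c.act (τV ^ a) ∈ K := by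
    intro c a
    induction a with
    | zero => rw [pow_zero, Cube.act_one']
    | succ a ih => rw [pow_succ', Cube.act_mul, ← hinv]; exact ih
  let rp : Cube V → Cube V := fun c => (Quotient.mk S c).out
  have hrp : ∀ c, ∃ a : ℕ, (rp c).act (τV ^ a) = c := fun c => Quotient.exact (Quotient.out_eq (Quotient.mk S c))
  choose ex hex using hrp
  have hrK : ∀ c ∈ K, rp c ∈ K := fun c hc => by
    rw [hKa (rp c) (ex c), hex]
    exact hc
  have hrT : ∀ c, rp (c.act τV) = rp c := fun c => by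
    have h : Quotient.mk S (c.act τV) = Quotient.mk S c :=
      (Quotient.sound (s := S) (a := c) (b := c.act τV) ⟨1, by rw [pow_one]⟩).symm
    show (Quotient.mk S (c.act τV)).out = (Quotient.mk S c).out
    rw [h]
  let y : Cube V → Ch J := fun r => if h : r ∈ K then (hP r h).choose else 0
  have hy : ∀ r ∈ K, P r (y r) := fun r h => by
    show P r (if h : r ∈ K then (hP r h).choose else 0)
    rw [dif_pos h]
    exact (hP r h).choose_spec
  have hPa : ∀ r ∈ K, ∀ a : ℕ, P (r.act (τV ^ a)) (act (τJ ^ a) (y r)) := by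
    intro r hr a
    induction a with
    | zero => rw [pow_zero, pow_zero, Cube.act_one', act_id]; exact hy r hr
    | succ a ih =>
      rw [pow_succ', pow_succ', Cube.act_mul, act_mul']
      exact hPe _ ((hKa r a).1 hr) _ ih
  obtain ⟨α, hα⟩ := exists_lin (J' := J) (fun c : Cube V => if c ∈ K then act (τJ ^ ex c) (y (rp c)) else 0)
  have hαK : ∀ c ∈ K, α (one c) = act (τJ ^ ex c) (y (rp c)) := fun c hc => by rw [hα, if_pos hc]
  refine ⟨α, fun c hc => ?_, fun c hc => ?_, fun c hc => by rw [hα, if_neg hc]⟩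
  · rw [hαK c hc]
    have h := hPa (rp c) (hrK c hc) (ex c)
    rwa [hex] at h
  · have hc' : c.act τV ∈ K := (hinv c).1 hc
    rw [act_one, psg_ori τV c.fr (hori c hc), one_smul, hαK _ hc', hαK c hc, hrT, ← act_mul', ← pow_succ']
    have h1 : (rp c).act (τV ^ ex (c.act τV)) = (rp c).act (τV ^ (ex c + 1)) := by
      have h2 := hex (c.act τV)
      rw [hrT] at h2
      rw [h2, pow_succ', Cube.act_mul, hex]
    rw [C4a_wd hJ (hfre _ (hrK c hc)) h1]

end AGE
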