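import Pool.Agent.AGE.Defs
import Pool.Agent.AGE.C1b
import Pool.Agent.AGE.C2b
import Pool.Agent.AGE.C4a

/-!
# AGE-C4b: acyclic carriers, existence and uniqueness up to homotopy

Plan. By induction on the dimension `d`: at step `d` use `eqx` for the invariant set of the `d`-cubes of `K`. Existence: given `φ_d` on the cubes of dimension `< d`
(a linear map, zero on the other cubes), solve for a `d`-cube `c`, `d ≥ 1`: `bd y = φ_d (bd (one c))`, `y ∈ CC (C c) d`: the right side is in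
`CC (C c) (d - 1)` (monotone), a cycle for `d ≥ 2`, and for `d = 1` `eps = 0` because the two vertices have `eps = 1`; `hacy`. The problem is equivariant (`act_bd`,
`Car.equ`). Put `φ_{d+1} = φ_d +` (the map of `eqx`). For `d = 0` the value is `one (pt (f v))`. Homotopy: the same with `bd y = φ' (one c) - φ (one c) - κ_d (bd (one c))`.
In degree `0`: `eps (φ' - φ) = 0`. Nonequivariant versions: `N = 1`, `τV = 1`, `τJ = 1` (`Inv 1 K` etc. are trivial; `act 1 = id`).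
-/

set_option autoImplicit false

noncomputable section

namespace AGE

variable {V J : Type} [LinearOrder V] [LinearOrder J]

/-- acyclic up to degree `m` -/
def Acyc (C : Set (Cube J)) (m : ℕ) : Prop :=
  ∀ i ≤ m, ∀ z ∈ CC C i, (0 < i → bd z = 0) → (i = 0 → eps z = 0) →
    ∃ y ∈ CC C (i + 1), bd y = z

private theorem sub_mem' (K : Set (Cube V)) (i : ℕ) (S : Submodule ℤ (Ch V))
    (h : ∀ c ∈ K, c.dim = i → one c ∈ S) {x : Ch V} (hx : x ∈ CC K i) : x ∈ S :=
  map_mem (LinearMap.id) S h hx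

private theorem bd_one_mem (c : Cube V) {i : ℕ} (h : c.dim = i + 1) :
    bd (one c) ∈ CC (Faces c) i := by
  apply bd_mem (closed_faces c)
  rw [← h]
  exact one_mem (Cube.le_refl' c)

private theorem bd_one_zero (c : Cube V) (h : c.dim = 0) : bd (one c) = 0 := by
  apply bd_zero (K := Faces c)
  rw [← h]
  exact one_mem (Cube.le_refl' c)

private theorem agree {W : Type} [AddCommGroup W] [Module ℤ W] (α β : Ch V →ₗ[ℤ] W) (c : Cube V)
    (h : ∀ d : Cube V, d.Le c → d.dim < c.dim → α (one d) = β (one d)) :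
    α (bd (one c)) = β (bd (one c)) := by
  rcases Nat.eq_zero_or_pos c.dim with h0 | h0
  · rw [bd_one_zero c h0]; simp
  · obtain ⟨i, hi⟩ : ∃ i, c.dim = i + 1 := ⟨c.dim - 1, by omega⟩
    have key : bd (one c) ∈ LinearMap.ker (α - β) := by
      apply sub_mem' (Faces c) i _ _ (bd_one_mem c hi)
      intro d hd hdi
      rw [LinearMap.mem_ker, LinearMap.sub_apply, h d hd (by omega), sub_self]
    rw [LinearMap.mem_ker, LinearMap.sub_apply, sub_eq_zero] at key
    exact key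

private theorem gen {N : ℕ} (hN : 0 < N) (K : Set (Cube V)) (τV : Equiv.Perm V)
    (τJ : Equiv.Perm J) (hV : τV ^ N = 1) (hJ : τJ ^ N = 1) (hinv : Inv τV K)
    (hfre : ∀ c ∈ K, ∀ a : ℕ, c.act (τV ^ a) = c → N ∣ a)
    (hori : ∀ c ∈ K, ∀ x ∈ c.fr, ∀ y ∈ c.fr, x < y → τV x < τV y)
    (Q : (Ch V →ₗ[ℤ] Ch J) → Cube V → Ch J → Prop)
    (hloc : ∀ α β : Ch V →ₗ[ℤ] Ch J, ∀ c ∈ K,
      (∀ d ∈ K, d.dim < c.dim → α (one d) = β (one d)) → ∀ y, Q α c y → Q β c y)
    (hex : ∀ (α : Ch V →ₗ[ℤ] Ch J) (m : ℕ), (∀ c ∈ K, c.dim < m → Q α c (α (one c))) →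
      (∀ c ∈ K, c.dim < m → α (act τV (one c)) = act τJ (α (one c))) →
      ∀ c ∈ K, c.dim = m → ∃ y, Q α c y)
    (heq : ∀ (α : Ch V →ₗ[ℤ] Ch J) (m : ℕ), (∀ c ∈ K, c.dim < m → Q α c (α (one c))) →
      (∀ c ∈ K, c.dim < m → α (act τV (one c)) = act τJ (α (one c))) →
      ∀ c ∈ K, c.dim = m → ∀ y, Q α c y → Q α (c.act τV) (act τJ y)) (m : ℕ) :
    ∃ α : Ch V →ₗ[ℤ] Ch J, (∀ c ∈ K, c.dim < m → Q α c (α (one c))) ∧
      (∀ c ∈ K, c.dim < m → α (act τV (one c)) = act τJ (α (one c))) := by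
  induction m with
  | zero => exact ⟨0, fun c _ h => absurd h (Nat.not_lt_zero _), fun c _ h => absurd h (Nat.not_lt_zero _)⟩
  | succ m ih =>
    obtain ⟨α, h1, h2⟩ := ih
    obtain ⟨β, k1, k2, -⟩ := eqx hN {c | c ∈ K ∧ c.dim = m} τV τJ hV hJ
      (by
        intro c
        simp only [Set.mem_setOf_eq, Cube.act_dim]
        rw [hinv c])
      (fun c hc => hfre c hc.1) (fun c hc => hori c hc.1) (Q α)
      (fun c hc => hex α m h1 h2 c hc.1 hc.2)
      (fun c hc y hy => heq α m h1 h2 c hc.1 hc.2 y hy)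
    obtain ⟨γ, hγ⟩ := exists_lin (J := V) (J' := J)
      (fun c => if c.dim < m then α (one c) else β (one c))
    have hγ1 : ∀ c : Cube V, c.dim < m → γ (one c) = α (one c) := by
      intro c hc
      rw [hγ c, if_pos hc]
    have hγ2 : ∀ c : Cube V, c.dim = m → γ (one c) = β (one c) := by
      intro c hc
      rw [hγ c, if_neg (by omega)]
    refine ⟨γ, ?_, ?_⟩
    · intro c hc hm
      rcases Nat.lt_or_ge c.dim m with hlt | hge
      · rw [hγ1 c hlt]
        exact hloc α γ c hc (fun d _ hd => (hγ1 d (by omega)).symm) _ (h1 c hc hlt)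
      · have hcm : c.dim = m := by omega
        rw [hγ2 c hcm]
        exact hloc α γ c hc (fun d _ hd => (hγ1 d (by omega)).symm) _ (k1 c ⟨hc, hcm⟩)
    · intro c hc hm
      rcases Nat.lt_or_ge c.dim m with hlt | hge
      · have e := h2 c hc hlt
        rw [act_one, map_smul] at e ⊢
        rw [hγ1 c hlt, hγ1 (c.act τV) (by rw [Cube.act_dim]; exact hlt)]
        exact e
      · have hcm : c.dim = m := by omega
        have e := k2 c ⟨hc, hcm⟩
        rw [act_one, map_smul] at e ⊢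
        rw [hγ2 c hcm, hγ2 (c.act τV) (by rw [Cube.act_dim]; exact hcm)]
        exact e

private theorem act_pt (τ : Equiv.Perm J) (w : J → ℤ) :
    act τ (one (pt w)) = one (pt (actP τ w)) := by
  rw [act_one]
  have h1 : psg τ (pt w).fr = 1 := by simp [psg, pt]
  have h2 : (pt w).act τ = pt (actP τ w) := by
    apply Cube.ext
    · rfl
    · simp [pt, Cube.act]
  rw [h1, h2, one_smul]

private theorem dim_pt (w : J → ℤ) : (pt w).dim = 0 := by
  simp [Cube.dim, pt]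

private theorem eq_pt {c : Cube V} (h : c.dim = 0) : c = pt c.lo := by
  apply Cube.ext
  · rfl
  · simpa [pt, Cube.dim] using h

private theorem ex_core {N D : ℕ} (hN : 0 < N) (K : Set (Cube V)) (hKc : Closed K)
    (hKd : ∀ c ∈ K, c.dim ≤ D + 1) (τV : Equiv.Perm V) (τJ : Equiv.Perm J)
    (hV : τV ^ N = 1) (hJ : τJ ^ N = 1) (hinv : Inv τV K)
    (hfre : ∀ c ∈ K, ∀ a : ℕ, c.act (τV ^ a) = c → N ∣ a)
    (hori : ∀ c ∈ K, ∀ x ∈ c.fr, ∀ y ∈ c.fr, x < y → τV x < τV y)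
    (C : Cube V → Set (Cube J)) (hC : Car K C τV τJ)
    (hacy : ∀ c ∈ K, Acyc (C c) D) (f : (V → ℤ) → (J → ℤ)) (hf : Equi τV τJ f)
    (hfC : ∀ v, pt v ∈ K → pt (f v) ∈ C (pt v)) :
    ∃ φ : Ch V →ₗ[ℤ] Ch J, Push K C f φ ∧
      (∀ c ∈ K, φ (act τV (one c)) = act τJ (φ (one c))) := by
  have hmain := gen hN K τV τJ hV hJ hinv hfre hori
    (fun α c y => y ∈ CC (C c) c.dim ∧ bd y = α (bd (one c)) ∧
      (c.dim = 0 → y = one (pt (f c.lo)))) ?_ ?_ ?_ (D + 2)
  · obtain ⟨φ, h1, h2⟩ := hmain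
    refine ⟨φ, ⟨?_, ?_, ?_⟩, ?_⟩
    · intro v hv
      exact (h1 (pt v) hv (by rw [dim_pt]; omega)).2.2 (dim_pt v)
    · intro c hc
      exact (h1 c hc (by have := hKd c hc; omega)).1
    · intro c hc
      exact (h1 c hc (by have := hKd c hc; omega)).2.1
    · intro c hc
      exact h2 c hc (by have := hKd c hc; omega)
  · intro α β c hc hab y hy
    refine ⟨hy.1, ?_, hy.2.2⟩
    rw [hy.2.1]
    exact agree α β c (fun d hd hdd => hab d (hKc c hc d hd) hdd)
  · intro α m h1 h2 c hc hcm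
    rcases Nat.eq_zero_or_pos m with h0 | h0
    · have hc0 : c.dim = 0 := by omega
      have hcp : c = pt c.lo := eq_pt hc0
      refine ⟨one (pt (f c.lo)), ?_, ?_, fun _ => rfl⟩
      · rw [hc0]
        have := one_mem (hfC c.lo (by rw [← hcp]; exact hc))
        rw [dim_pt, ← hcp] at this
        exact this
      · rw [bd_one_zero c hc0, bd_one_zero _ (dim_pt _)]
        simp
    · obtain ⟨i, rfl⟩ : ∃ i, m = i + 1 := ⟨m - 1, by omega⟩
      have hle : i ≤ D := by have := hKd c hc; omega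
      have hz : α (bd (one c)) ∈ CC (C c) i := by
        apply map_mem α (CC (C c) i) (K := Faces c) (i := i) _ (bd_one_mem c hcm)
        intro d hd hdi
        have hdK : d ∈ K := hKc c hc d hd
        have := (h1 d hdK (by omega)).1
        rw [hdi] at this
        exact CC_mono (hC.mon c hc d hd) i this
      have hcyc : bd (α (bd (one c))) = 0 := by
        have e : (bd ∘ₗ α) (bd (one c)) = (α ∘ₗ bd) (bd (one c)) := by
          apply agree
          intro d hd hdd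
          rw [LinearMap.comp_apply, LinearMap.comp_apply]
          exact (h1 d (hKc c hc d hd) (by omega)).2.1
        rw [LinearMap.comp_apply, LinearMap.comp_apply, bd_bd, map_zero] at e
        exact e
      have heps : i = 0 → eps (α (bd (one c))) = 0 := by
        intro hi0
        have e : (eps ∘ₗ α) (bd (one c)) = eps (bd (one c)) := by
          apply agree
          intro d hd hdd
          rw [LinearMap.comp_apply]
          have hd0 : d.dim = 0 := by omega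
          rw [(h1 d (hKc c hc d hd) (by omega)).2.2 hd0, eps_pt, eq_pt hd0, eps_pt]
        rw [LinearMap.comp_apply, eps_bd] at e
        exact e
      obtain ⟨y, hy, hby⟩ := hacy c hc i hle (α (bd (one c))) hz (fun _ => hcyc) heps
      exact ⟨y, by rw [hcm]; exact hy, hby, fun h => absurd h (by omega)⟩
  · intro α m h1 h2 c hc hcm y hy
    refine ⟨?_, ?_, ?_⟩
    · rw [Cube.act_dim]
      exact act_mem τJ (fun Q hQ => (hC.equ c hc Q).1 hQ) hy.1
    · have e1 : act τV (one c) = one (c.act τV) := by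
        rw [act_one, psg_ori τV c.fr (hori c hc), one_smul]
      have e2 : (act τJ ∘ₗ α) (bd (one c)) = (α ∘ₗ act τV) (bd (one c)) := by
        apply agree
        intro d hd hdd
        rw [LinearMap.comp_apply, LinearMap.comp_apply]
        exact (h2 d (hKc c hc d hd) (by omega)).symm
      rw [LinearMap.comp_apply, LinearMap.comp_apply] at e2
      rw [← act_bd, hy.2.1, e2, act_bd, e1]
    · intro h0
      rw [Cube.act_dim] at h0
      rw [hy.2.2 h0, act_pt, ← hf]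
      rfl

private theorem un_core {N D : ℕ} (hN : 0 < N) (K : Set (Cube V)) (hKc : Closed K)
    (hKd : ∀ c ∈ K, c.dim ≤ D) (τV : Equiv.Perm V) (τJ : Equiv.Perm J)
    (hV : τV ^ N = 1) (hJ : τJ ^ N = 1) (hinv : Inv τV K)
    (hfre : ∀ c ∈ K, ∀ a : ℕ, c.act (τV ^ a) = c → N ∣ a)
    (hori : ∀ c ∈ K, ∀ x ∈ c.fr, ∀ y ∈ c.fr, x < y → τV x < τV y)
    (C : Cube V → Set (Cube J)) (hC : Car K C τV τJ)
    (hacy : ∀ c ∈ K, Acyc (C c) D) (φ φ' : Ch V →ₗ[ℤ] Ch J)
    (h1 : ∀ c ∈ K, φ (one c) ∈ CC (C c) c.dim) (h1' : ∀ c ∈ K, φ' (one c) ∈ CC (C c) c.dim)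
    (h2 : ∀ c ∈ K, bd (φ (one c)) = φ (bd (one c)))
    (h2' : ∀ c ∈ K, bd (φ' (one c)) = φ' (bd (one c)))
    (h3 : ∀ c ∈ K, c.dim = 0 → eps (φ (one c)) = eps (φ' (one c)))
    (h4 : ∀ c ∈ K, φ (act τV (one c)) = act τJ (φ (one c)))
    (h4' : ∀ c ∈ K, φ' (act τV (one c)) = act τJ (φ' (one c))) :
    ∃ κ : Ch V →ₗ[ℤ] Ch J, (∀ c ∈ K, κ (one c) ∈ CC (C c) (c.dim + 1)) ∧
      (∀ c ∈ K, φ' (one c) - φ (one c) = bd (κ (one c)) + κ (bd (one c))) ∧
      (∀ c ∈ K, κ (act τV (one c)) = act τJ (κ (one c))) := by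
  have hmain := gen hN K τV τJ hV hJ hinv hfre hori
    (fun α c y => y ∈ CC (C c) (c.dim + 1) ∧ bd y = φ' (one c) - φ (one c) - α (bd (one c)))
    ?_ ?_ ?_ (D + 1)
  · obtain ⟨κ, k1, k2⟩ := hmain
    refine ⟨κ, ?_, ?_, ?_⟩
    · intro c hc
      exact (k1 c hc (by have := hKd c hc; omega)).1
    · intro c hc
      rw [(k1 c hc (by have := hKd c hc; omega)).2]
      abel
    · intro c hc
      exact k2 c hc (by have := hKd c hc; omega)
  · intro α β c hc hab y hy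
    refine ⟨hy.1, ?_⟩
    rw [hy.2, agree α β c (fun d hd hdd => hab d (hKc c hc d hd) hdd)]
  · intro α m k1 k2 c hc hcm
    have hle : m ≤ D := by have := hKd c hc; omega
    have hαm : α (bd (one c)) ∈ CC (C c) m := by
      rcases Nat.eq_zero_or_pos m with h0 | h0
      · rw [bd_one_zero c (by omega), map_zero]
        exact Submodule.zero_mem _
      · obtain ⟨i, rfl⟩ : ∃ i, m = i + 1 := ⟨m - 1, by omega⟩
        apply map_mem α (CC (C c) (i + 1)) (K := Faces c) (i := i) _ (bd_one_mem c hcm)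
        intro d hd hdi
        have hdK : d ∈ K := hKc c hc d hd
        have := (k1 d hdK (by omega)).1
        rw [hdi] at this
        exact CC_mono (hC.mon c hc d hd) (i + 1) this
    have hz : φ' (one c) - φ (one c) - α (bd (one c)) ∈ CC (C c) m := by
      have a1 := h1 c hc
      have a2 := h1' c hc
      rw [hcm] at a1 a2
      exact Submodule.sub_mem _ (Submodule.sub_mem _ a2 a1) hαm
    have hcyc : bd (φ' (one c) - φ (one c) - α (bd (one c))) = 0 := by
      have e : (bd ∘ₗ α) (bd (one c)) = (φ' - φ - α ∘ₗ bd) (bd (one c)) := by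
        apply agree
        intro d hd hdd
        rw [LinearMap.comp_apply, LinearMap.sub_apply, LinearMap.sub_apply,
          LinearMap.comp_apply]
        exact (k1 d (hKc c hc d hd) (by omega)).2
      rw [LinearMap.comp_apply, LinearMap.sub_apply, LinearMap.sub_apply,
          LinearMap.comp_apply, bd_bd, map_zero, sub_zero] at e
      rw [map_sub, map_sub, e, h2 c hc, h2' c hc, sub_self]
    have heps : m = 0 → eps (φ' (one c) - φ (one c) - α (bd (one c))) = 0 := by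
      intro hm0
      rw [bd_one_zero c (by omega), map_zero, sub_zero, map_sub, h3 c hc (by omega), sub_self]
    obtain ⟨y, hy, hby⟩ := hacy c hc m hle _ hz (fun _ => hcyc) heps
    exact ⟨y, by rw [hcm]; exact hy, hby⟩
  · intro α m k1 k2 c hc hcm y hy
    refine ⟨?_, ?_⟩
    · rw [Cube.act_dim]
      exact act_mem τJ (fun Q hQ => (hC.equ c hc Q).1 hQ) hy.1
    · have e1 : act τV (one c) = one (c.act τV) := by
        rw [act_one, psg_ori τV c.fr (hori c hc), one_smul]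
      have e2 : (act τJ ∘ₗ α) (bd (one c)) = (α ∘ₗ act τV) (bd (one c)) := by
        apply agree
        intro d hd hdd
        rw [LinearMap.comp_apply, LinearMap.comp_apply]
        exact (k2 d (hKc c hc d hd) (by omega)).symm
      rw [LinearMap.comp_apply, LinearMap.comp_apply] at e2
      rw [← act_bd, hy.2, map_sub, map_sub, e2, act_bd, ← h4 c hc, ← h4' c hc, e1]

theorem carrier_exists {n N : ℕ} (K : Set (Cube V)) (τV : Equiv.Perm V) (τJ : Equiv.Perm J)
    (hK : Src n N K τV) (hJ : τJ ^ N = 1) (C : Cube V → Set (Cube J)) (hC : Car K C τV τJ)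
    (hacy : ∀ c ∈ K, Acyc (C c) n) (f : (V → ℤ) → (J → ℤ)) (hf : Equi τV τJ f)
    (hfC : ∀ v, pt v ∈ K → pt (f v) ∈ C (pt v)) :
    ∃ φ : Ch V →ₗ[ℤ] Ch J, Push K C f φ ∧
      (∀ c ∈ K, φ (act τV (one c)) = act τJ (φ (one c))) :=
  ex_core hK.pos K hK.clo hK.dim τV τJ hK.ord hJ hK.inv hK.fre hK.ori C hC hacy f hf hfC

theorem carrier_unique {n N : ℕ} (K : Set (Cube V)) (τV : Equiv.Perm V) (τJ : Equiv.Perm J)
    (hK : Src n N K τV) (hJ : τJ ^ N = 1) (C : Cube V → Set (Cube J)) (hC : Car K C τV τJ)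
    (hacy : ∀ c ∈ K, Acyc (C c) (n + 1)) (φ φ' : Ch V →ₗ[ℤ] Ch J)
    (h1 : ∀ c ∈ K, φ (one c) ∈ CC (C c) c.dim) (h1' : ∀ c ∈ K, φ' (one c) ∈ CC (C c) c.dim)
    (h2 : ∀ c ∈ K, bd (φ (one c)) = φ (bd (one c)))
    (h2' : ∀ c ∈ K, bd (φ' (one c)) = φ' (bd (one c)))
    (h3 : ∀ c ∈ K, c.dim = 0 → eps (φ (one c)) = eps (φ' (one c)))
    (h4 : ∀ c ∈ K, φ (act τV (one c)) = act τJ (φ (one c)))
    (h4' : ∀ c ∈ K, φ' (act τV (one c)) = act τJ (φ' (one c))) :
    ∃ κ : Ch V →ₗ[ℤ] Ch J, (∀ c ∈ K, κ (one c) ∈ CC (C c) (c.dim + 1)) ∧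
      (∀ c ∈ K, φ' (one c) - φ (one c) = bd (κ (one c)) + κ (bd (one c))) ∧
      (∀ c ∈ K, κ (act τV (one c)) = act τJ (κ (one c))) :=
  un_core hK.pos K hK.clo hK.dim τV τJ hK.ord hJ hK.inv hK.fre hK.ori C hC hacy φ φ' h1 h1'
    h2 h2' h3 h4 h4'

private theorem inv_one (K : Set (Cube V)) : Inv (1 : Equiv.Perm V) K := by
  intro c
  rw [Cube.act_one']

private theorem car_one (K : Set (Cube V)) (C : Cube V → Set (Cube J))
    (hC : ∀ c ∈ K, Closed (C c)) (hCm : ∀ c ∈ K, ∀ d : Cube V, d.Le c → C d ⊆ C c) :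
    Car K C (1 : Equiv.Perm V) (1 : Equiv.Perm J) := by
  refine ⟨hC, hCm, ?_⟩
  intro c _ Q
  rw [Cube.act_one', Cube.act_one']

theorem carrier_exists' (K : Set (Cube V)) (hKc : Closed K) (m : ℕ) (hKd : ∀ c ∈ K, c.dim ≤ m + 1)
    (C : Cube V → Set (Cube J)) (hC : ∀ c ∈ K, Closed (C c))
    (hCm : ∀ c ∈ K, ∀ d : Cube V, d.Le c → C d ⊆ C c)
    (hacy : ∀ c ∈ K, Acyc (C c) m) (f : (V → ℤ) → (J → ℤ))
    (hfC : ∀ v, pt v ∈ K → pt (f v) ∈ C (pt v)) :
    ∃ φ : Ch V →ₗ[ℤ] Ch J, Push K C f φ := by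
  obtain ⟨φ, h, -⟩ := ex_core (N := 1) Nat.one_pos K hKc hKd 1 1 (one_pow 1) (one_pow 1)
    (inv_one K) (fun _ _ a _ => one_dvd a) (fun _ _ x _ y _ hxy => hxy) C
    (car_one K C hC hCm) hacy f
    (by intro v; rw [actP_one, actP_one]) hfC
  exact ⟨φ, h⟩

theorem carrier_unique' (K : Set (Cube V)) (hKc : Closed K) (m : ℕ) (hKd : ∀ c ∈ K, c.dim ≤ m)
    (C : Cube V → Set (Cube J)) (hC : ∀ c ∈ K, Closed (C c))
    (hCm : ∀ c ∈ K, ∀ d : Cube V, d.Le c → C d ⊆ C c)
    (hacy : ∀ c ∈ K, Acyc (C c) m) (φ φ' : Ch V →ₗ[ℤ] Ch J)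
    (h1 : ∀ c ∈ K, φ (one c) ∈ CC (C c) c.dim) (h1' : ∀ c ∈ K, φ' (one c) ∈ CC (C c) c.dim)
    (h2 : ∀ c ∈ K, bd (φ (one c)) = φ (bd (one c)))
    (h2' : ∀ c ∈ K, bd (φ' (one c)) = φ' (bd (one c)))
    (h3 : ∀ c ∈ K, c.dim = 0 → eps (φ (one c)) = eps (φ' (one c))) :
    ∃ κ : Ch V →ₗ[ℤ] Ch J, (∀ c ∈ K, κ (one c) ∈ CC (C c) (c.dim + 1)) ∧
      (∀ c ∈ K, φ' (one c) - φ (one c) = bd (κ (one c)) + κ (bd (one c))) := by
  obtain ⟨κ, k1, k2, -⟩ := un_core (N := 1) Nat.one_pos K hKc hKd 1 1 (one_pow 1) (one_pow 1)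
    (inv_one K) (fun _ _ a _ => one_dvd a) (fun _ _ x _ y _ hxy => hxy) C
    (car_one K C hC hCm) hacy φ φ' h1 h1' h2 h2' h3
    (by intro c _; rw [act_id, act_id]) (by intro c _; rw [act_id, act_id])
  exact ⟨κ, k1, k2⟩

end AGE
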