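import Pool.Agent.AGE.Defs
import Pool.Agent.AGE.C1b
import Pool.Agent.AGE.C2b

/-!
# AGE-C5: subdivision of chains

Plan. `sub_one_apply`: the sum `subQ M P` runs over pairwise different cubes; they are exactly the `Q` with `Q.InM M P` and `Q.dim = P.dim` (then `Q.fr = P.fr` and
`Q.lo j = M P.lo j + k j`, `0 ≤ k j < M` for `j ∈ P.fr`, `Q.lo j = M P.lo j` otherwise). `sub_bd`: on `one P`: the boundary of `subQ M P` in direction `j` telescopes in
`k j`: the inner faces cancel, the outer ones are `subQ M (P.up j)` and `subQ M (P.dn j)`. `sub_sub`, `sub_act`: compare with `sub_one_apply` or reindex. `eps_sub`: only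
the vertices count.
-/

set_option autoImplicit false

noncomputable section

namespace AGE

variable {V J : Type} [LinearOrder V] [LinearOrder J]

omit [LinearOrder J] in
private theorem C5_ext {M : Type} [AddCommGroup M] (α β : Ch J →ₗ[ℤ] M)
    (h : ∀ Q, α (one Q) = β (one Q)) : α = β := by
  refine Finsupp.lhom_ext' fun Q => LinearMap.ext_ring ?_
  exact h Q

/-- a cube of the subdivision -/
private def C5cub (M : ℕ) (P : Cube J) (k : {j // j ∈ P.fr} → ℕ) : Cube J :=
  ⟨fun j => (M : ℤ) * P.lo j + (if h : j ∈ P.fr then (k ⟨j, h⟩ : ℤ) else 0), P.fr⟩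

private abbrev C5idx (M : ℕ) (P : Cube J) : Finset ({j // j ∈ P.fr} → ℕ) :=
  Fintype.piFinset (fun _ : {j // j ∈ P.fr} => Finset.range M)

private theorem C5_subQ (M : ℕ) (P : Cube J) : subQ M P = ∑ k ∈ C5idx M P, one (C5cub M P k) := rfl

private theorem C5_one (M : ℕ) (P : Cube J) : sub M (one P) = subQ M P := by
  unfold sub one
  rw [Finsupp.linearCombination_single, one_smul]

private theorem C5_mem {M : ℕ} {P : Cube J} {k : {j // j ∈ P.fr} → ℕ} :
    k ∈ C5idx M P ↔ ∀ j, k j < M := by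
  unfold C5idx
  rw [Fintype.mem_piFinset]
  exact forall_congr' fun j => Finset.mem_range

private theorem C5_lo_mem (M : ℕ) (P : Cube J) (k : {j // j ∈ P.fr} → ℕ) {j : J} (h : j ∈ P.fr) :
    (C5cub M P k).lo j = (M : ℤ) * P.lo j + (k ⟨j, h⟩ : ℤ) := by
  show (M : ℤ) * P.lo j + (if h : j ∈ P.fr then (k ⟨j, h⟩ : ℤ) else 0) = _
  rw [dif_pos h]

private theorem C5_lo_not (M : ℕ) (P : Cube J) (k : {j // j ∈ P.fr} → ℕ) {j : J} (h : j ∉ P.fr) :
    (C5cub M P k).lo j = (M : ℤ) * P.lo j := by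
  show (M : ℤ) * P.lo j + (if h : j ∈ P.fr then (k ⟨j, h⟩ : ℤ) else 0) = _
  rw [dif_neg h, add_zero]

private theorem C5_hi_mem {Q : Cube J} {j : J} (h : j ∈ Q.fr) : Q.hi j = Q.lo j + 1 := if_pos h

private theorem C5_hi_not {Q : Cube J} {j : J} (h : j ∉ Q.fr) : Q.hi j = Q.lo j := if_neg h

private theorem C5_fr (M : ℕ) (P : Cube J) (k : {j // j ∈ P.fr} → ℕ) : (C5cub M P k).fr = P.fr := rfl

private theorem C5_inj (M : ℕ) (P : Cube J) (k k' : {j // j ∈ P.fr} → ℕ)
    (h : C5cub M P k = C5cub M P k') : k = k' := by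
  funext j
  have h1 := congrFun (congrArg Cube.lo h) j.1
  rw [C5_lo_mem M P k j.2, C5_lo_mem M P k' j.2] at h1
  have h2 : (k ⟨j.1, j.2⟩ : ℤ) = (k' ⟨j.1, j.2⟩ : ℤ) := by linarith
  exact_mod_cast h2

private theorem C5_inM (M : ℕ) (P : Cube J) (k : {j // j ∈ P.fr} → ℕ) (hk : k ∈ C5idx M P) :
    (C5cub M P k).InM M P := by
  intro j
  by_cases h : j ∈ P.fr
  · have h1 : (C5cub M P k).hi j = (C5cub M P k).lo j + 1 := C5_hi_mem h
    rw [h1, C5_lo_mem M P k h, C5_hi_mem h]
    have h2 := C5_mem.1 hk ⟨j, h⟩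
    have h3 : (k ⟨j, h⟩ : ℤ) < M := by exact_mod_cast h2
    have h4 : (0 : ℤ) ≤ (k ⟨j, h⟩ : ℤ) := Int.natCast_nonneg _
    constructor
    · linarith
    · rw [mul_add, mul_one]
      linarith
  · have h1 : (C5cub M P k).hi j = (C5cub M P k).lo j := C5_hi_not h
    rw [h1, C5_lo_not M P k h, C5_hi_not h]
    exact ⟨le_rfl, le_rfl⟩

private theorem C5_fr_eq {M : ℕ} {P Q : Cube J} (h : Q.InM M P) (hd : Q.dim = P.dim) : Q.fr = P.fr := by
  refine Finset.eq_of_subset_of_card_le (fun j hj => ?_) hd.ge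
  by_contra hn
  have h1 := h j
  rw [C5_hi_mem hj, C5_hi_not hn] at h1
  linarith [h1.1, h1.2]

/-- if the free coordinates agree, a cube of `M` times `P` is a cube of the subdivision -/
private theorem C5_ex (M : ℕ) (P Q : Cube J) (h : Q.InM M P) (hf : Q.fr = P.fr) :
    ∃ k ∈ C5idx M P, C5cub M P k = Q := by
  have key : ∀ j : {j // j ∈ P.fr}, (M : ℤ) * P.lo j.1 ≤ Q.lo j.1 ∧
      Q.lo j.1 + 1 ≤ (M : ℤ) * P.lo j.1 + M := by
    intro j
    have h1 := h j.1
    have h0 : j.1 ∈ Q.fr := by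
      rw [hf]
      exact j.2
    rw [C5_hi_mem h0, C5_hi_mem j.2, mul_add, mul_one] at h1
    exact h1
  refine ⟨fun j => (Q.lo j.1 - (M : ℤ) * P.lo j.1).toNat, ?_, ?_⟩
  · rw [C5_mem]
    intro j
    have h1 := key j
    have h2 : ((Q.lo j.1 - (M : ℤ) * P.lo j.1).toNat : ℤ) = Q.lo j.1 - (M : ℤ) * P.lo j.1 :=
      Int.toNat_of_nonneg (by linarith [h1.1])
    have h3 : ((Q.lo j.1 - (M : ℤ) * P.lo j.1).toNat : ℤ) < M := by
      rw [h2]
      linarith [h1.2]
    exact_mod_cast h3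
  · refine Cube.ext (funext fun j => ?_) hf.symm
    by_cases hj : j ∈ P.fr
    · rw [C5_lo_mem M P _ hj]
      have h1 := key ⟨j, hj⟩
      have h2 : ((Q.lo j - (M : ℤ) * P.lo j).toNat : ℤ) = Q.lo j - (M : ℤ) * P.lo j :=
        Int.toNat_of_nonneg (by linarith [h1.1])
      show (M : ℤ) * P.lo j + ((Q.lo j - (M : ℤ) * P.lo j).toNat : ℤ) = Q.lo j
      rw [h2]
      ring
    · rw [C5_lo_not M P _ hj]
      have h1 := h j
      have h0 : j ∉ Q.fr := by
        rw [hf]
        exact hj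
      rw [C5_hi_not h0, C5_hi_not hj] at h1
      linarith [h1.1, h1.2]

private theorem C5_cnt {K : Type} (s : Finset K) (C : K → Prop) [DecidablePred C] (p : Prop)
    [Decidable p] (h1 : p → ∃ k ∈ s, C k) (h2 : ∀ k ∈ s, C k → p)
    (h3 : ∀ k ∈ s, ∀ k' ∈ s, C k → C k' → k = k') :
    ∑ k ∈ s, (if C k then (1 : ℤ) else 0) = if p then 1 else 0 := by
  by_cases hp : p
  · obtain ⟨k, hk, hc⟩ := h1 hp
    rw [if_pos hp, Finset.sum_eq_single k]
    · rw [if_pos hc]
    · intro k' hk' hne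
      exact if_neg fun h => hne (h3 k' hk' k hk h hc)
    · exact fun h => absurd hk h
  · rw [if_neg hp]
    exact Finset.sum_eq_zero fun k hk => if_neg fun h => hp (h2 k hk h)

omit [LinearOrder J] in
private theorem C5_sum {K : Type} (s : Finset K) (g : K → Cube J) (R : Cube J) (p : Prop)
    [Decidable p] (h1 : p → ∃ k ∈ s, g k = R) (h2 : ∀ k ∈ s, g k = R → p)
    (h3 : ∀ k ∈ s, ∀ k' ∈ s, g k = g k' → k = k') :
    (∑ k ∈ s, one (g k)) R = if p then 1 else 0 := by
  classical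
  rw [Finsupp.finsetSum_apply]
  rw [← C5_cnt s (fun k => g k = R) p h1 h2 fun k hk k' hk' e e' => h3 k hk k' hk' (e.trans e'.symm)]
  refine Finset.sum_congr rfl fun k _ => ?_
  unfold one
  rw [Finsupp.single_apply]

theorem sub_one_apply (M : ℕ) (hM : 0 < M) (P Q : Cube J) [Decidable (Q.InM M P ∧ Q.dim = P.dim)] :
    sub M (one P) Q = if Q.InM M P ∧ Q.dim = P.dim then 1 else 0 := by
  rw [C5_one, C5_subQ]
  refine C5_sum _ _ _ _ ?_ ?_ ?_
  · rintro ⟨h1, h2⟩
    exact C5_ex M P Q h1 (C5_fr_eq h1 h2)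
  · rintro k hk rfl
    exact ⟨C5_inM M P k hk, rfl⟩
  · intro k _ k' _ h
    exact C5_inj M P k k' h

private theorem C5_up (M : ℕ) (P : Cube J) (j : J) (hj : j ∈ P.fr) (R : Cube J)
    [Decidable (R.fr = P.fr.erase j ∧ (⟨Function.update R.lo j (R.lo j - 1), P.fr⟩ : Cube J).InM M P)] :
    (∑ k ∈ C5idx M P, one ((C5cub M P k).up j)) R =
      if R.fr = P.fr.erase j ∧ (⟨Function.update R.lo j (R.lo j - 1), P.fr⟩ : Cube J).InM M P
        then 1 else 0 := by
  refine C5_sum _ _ _ _ ?_ ?_ ?_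
  · rintro ⟨h1, h2⟩
    obtain ⟨k, hk, e⟩ := C5_ex M P _ h2 rfl
    refine ⟨k, hk, ?_⟩
    rw [e]
    refine Cube.ext ?_ h1.symm
    show Function.update (Function.update R.lo j (R.lo j - 1)) j
      (Function.update R.lo j (R.lo j - 1) j + 1) = R.lo
    rw [Function.update_self, Function.update_idem, sub_add_cancel, Function.update_eq_self]
  · rintro k hk rfl
    refine ⟨rfl, ?_⟩
    have e : (⟨Function.update ((C5cub M P k).up j).lo j (((C5cub M P k).up j).lo j - 1), P.fr⟩ : Cube J) =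
        C5cub M P k := by
      refine Cube.ext ?_ rfl
      show Function.update (Function.update (C5cub M P k).lo j ((C5cub M P k).lo j + 1)) j
        (Function.update (C5cub M P k).lo j ((C5cub M P k).lo j + 1) j - 1) = (C5cub M P k).lo
      rw [Function.update_self, Function.update_idem, add_sub_cancel_right, Function.update_eq_self]
    rw [e]
    exact C5_inM M P k hk
  · intro k _ k' _ h
    refine C5_inj M P k k' (Cube.ext (funext fun i => ?_) rfl)
    have h1 := congrArg Cube.lo h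
    have h2 : Function.update (C5cub M P k).lo j ((C5cub M P k).lo j + 1) =
      Function.update (C5cub M P k').lo j ((C5cub M P k').lo j + 1) := h1
    have h3 := congrFun h2 i
    by_cases hi : i = j
    · subst hi
      rw [Function.update_self, Function.update_self] at h3
      linarith
    · rwa [Function.update_of_ne hi, Function.update_of_ne hi] at h3

private theorem C5_dn (M : ℕ) (P : Cube J) (j : J) (hj : j ∈ P.fr) (R : Cube J)
    [Decidable (R.fr = P.fr.erase j ∧ (⟨R.lo, P.fr⟩ : Cube J).InM M P)] :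
    (∑ k ∈ C5idx M P, one ((C5cub M P k).dn j)) R =
      if R.fr = P.fr.erase j ∧ (⟨R.lo, P.fr⟩ : Cube J).InM M P then 1 else 0 := by
  refine C5_sum _ _ _ _ ?_ ?_ ?_
  · rintro ⟨h1, h2⟩
    obtain ⟨k, hk, e⟩ := C5_ex M P _ h2 rfl
    refine ⟨k, hk, ?_⟩
    rw [e]
    exact Cube.ext rfl h1.symm
  · rintro k hk rfl
    exact ⟨rfl, C5_inM M P k hk⟩
  · intro k _ k' _ h
    have h1 : ((C5cub M P k).dn j).lo = ((C5cub M P k').dn j).lo := congrArg Cube.lo h
    exact C5_inj M P k k' (Cube.ext h1 rfl)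

private theorem C5_subup (M : ℕ) (P : Cube J) (j : J) (R : Cube J)
    [Decidable (R.fr = P.fr.erase j ∧ R.InM M (P.up j))] :
    (subQ M (P.up j)) R = if R.fr = P.fr.erase j ∧ R.InM M (P.up j) then 1 else 0 := by
  rw [C5_subQ]
  refine C5_sum _ _ _ _ ?_ ?_ ?_
  · rintro ⟨h1, h2⟩
    exact C5_ex M _ R h2 h1
  · rintro k hk rfl
    exact ⟨rfl, C5_inM M _ k hk⟩
  · intro k _ k' _ h
    exact C5_inj M _ k k' h

private theorem C5_subdn (M : ℕ) (P : Cube J) (j : J) (R : Cube J)
    [Decidable (R.fr = P.fr.erase j ∧ R.InM M (P.dn j))] :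
    (subQ M (P.dn j)) R = if R.fr = P.fr.erase j ∧ R.InM M (P.dn j) then 1 else 0 := by
  rw [C5_subQ]
  refine C5_sum _ _ _ _ ?_ ?_ ?_
  · rintro ⟨h1, h2⟩
    exact C5_ex M _ R h2 h1
  · rintro k hk rfl
    exact ⟨rfl, C5_inM M _ k hk⟩
  · intro k _ k' _ h
    exact C5_inj M _ k k' h

/-- the condition in the other directions -/
private def C5oth (M : ℕ) (P : Cube J) (j : J) (R : Cube J) : Prop :=
  ∀ i, i ≠ j → (M : ℤ) * P.lo i ≤ R.lo i ∧ R.hi i ≤ (M : ℤ) * P.hi i

private theorem C5_split (M : ℕ) (P Q : Cube J) (j : J) :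
    Q.InM M P ↔ (∀ i, i ≠ j → (M : ℤ) * P.lo i ≤ Q.lo i ∧ Q.hi i ≤ (M : ℤ) * P.hi i) ∧
      ((M : ℤ) * P.lo j ≤ Q.lo j ∧ Q.hi j ≤ (M : ℤ) * P.hi j) := by
  constructor
  · exact fun h => ⟨fun i _ => h i, h j⟩
  · rintro ⟨h1, h2⟩ i
    by_cases hi : i = j
    · rw [hi]
      exact h2
    · exact h1 i hi

private theorem C5_hi_of {A B : Cube J} {i : J} (h1 : i ∈ A.fr ↔ i ∈ B.fr) (h2 : A.lo i = B.lo i) :
    A.hi i = B.hi i := by
  unfold Cube.hi
  simp only [h1, h2]

private theorem C5_four (M : ℕ) (hM : 0 < M) (P : Cube J) (j : J) (hj : j ∈ P.fr) (R : Cube J)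
    (hR : R.fr = P.fr.erase j) :
    (R.InM M (P.up j) ↔ C5oth M P j R ∧ R.lo j = M * P.lo j + M) ∧
    (R.InM M (P.dn j) ↔ C5oth M P j R ∧ R.lo j = M * P.lo j) ∧
    ((⟨Function.update R.lo j (R.lo j - 1), P.fr⟩ : Cube J).InM M P ↔
      C5oth M P j R ∧ M * P.lo j + 1 ≤ R.lo j ∧ R.lo j ≤ M * P.lo j + M) ∧
    ((⟨R.lo, P.fr⟩ : Cube J).InM M P ↔
      C5oth M P j R ∧ M * P.lo j ≤ R.lo j ∧ R.lo j + 1 ≤ M * P.lo j + M) := by
  have hjR : j ∉ R.fr := by
    rw [hR]
    exact Finset.notMem_erase j P.fr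
  have hjm : ∀ i, i ≠ j → (i ∈ P.fr.erase j ↔ i ∈ P.fr) := fun i hi => by
    rw [Finset.mem_erase]
    exact ⟨fun h => h.2, fun h => ⟨hi, h⟩⟩
  have hjR' : ∀ i, i ≠ j → (i ∈ R.fr ↔ i ∈ P.fr) := fun i hi => by rw [hR, hjm i hi]
  have u1 : ∀ i, i ≠ j → (P.up j).lo i = P.lo i := fun i hi => Function.update_of_ne hi _ _
  have u2 : ∀ i, i ≠ j → (P.up j).hi i = P.hi i := fun i hi => C5_hi_of (hjm i hi) (u1 i hi)
  have d2 : ∀ i, i ≠ j → (P.dn j).hi i = P.hi i := fun i hi =>
    C5_hi_of (A := P.dn j) (B := P) (hjm i hi) rfl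
  have u3 : (P.up j).lo j = P.lo j + 1 := Function.update_self _ _ _
  have u4 : (P.up j).hi j = P.lo j + 1 := (C5_hi_not (Finset.notMem_erase j P.fr)).trans u3
  have d3 : (P.dn j).hi j = P.lo j := C5_hi_not (Finset.notMem_erase j P.fr)
  have r1 : R.hi j = R.lo j := C5_hi_not hjR
  have p1 : P.hi j = P.lo j + 1 := C5_hi_mem hj
  refine ⟨?_, ?_, ?_, ?_⟩
  · rw [C5_split M (P.up j) R j, u3, u4, r1, mul_add, mul_one]
    refine and_congr ?_ ?_
    · refine forall_congr' fun i => imp_congr_right fun hi => ?_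
      rw [u1 i hi, u2 i hi]
    · constructor
      · rintro ⟨h1, h2⟩
        exact le_antisymm h2 h1
      · intro h
        rw [h]
        exact ⟨le_rfl, le_rfl⟩
  · rw [C5_split M (P.dn j) R j, d3, r1]
    refine and_congr ?_ ?_
    · refine forall_congr' fun i => imp_congr_right fun hi => ?_
      rw [d2 i hi]
      exact Iff.rfl
    · constructor
      · rintro ⟨h1, h2⟩
        exact le_antisymm h2 h1
      · intro h
        rw [h]
        exact ⟨le_rfl, le_rfl⟩
  · rw [C5_split M P _ j]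
    refine and_congr ?_ ?_
    · refine forall_congr' fun i => imp_congr_right fun hi => ?_
      have e1 : (⟨Function.update R.lo j (R.lo j - 1), P.fr⟩ : Cube J).lo i = R.lo i :=
        Function.update_of_ne hi _ _
      rw [e1, C5_hi_of (A := ⟨Function.update R.lo j (R.lo j - 1), P.fr⟩) (B := R) (hjR' i hi).symm e1]
    · have e1 : (⟨Function.update R.lo j (R.lo j - 1), P.fr⟩ : Cube J).lo j = R.lo j - 1 :=
        Function.update_self _ _ _
      have e2 : (⟨Function.update R.lo j (R.lo j - 1), P.fr⟩ : Cube J).hi j = R.lo j - 1 + 1 := by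
        rw [C5_hi_mem (Q := ⟨Function.update R.lo j (R.lo j - 1), P.fr⟩) hj, e1]
      rw [e1, e2, p1, mul_add, mul_one]
      constructor
      · rintro ⟨h1, h2⟩
        exact ⟨by linarith, by linarith⟩
      · rintro ⟨h1, h2⟩
        exact ⟨by linarith, by linarith⟩
  · rw [C5_split M P _ j]
    refine and_congr ?_ ?_
    · refine forall_congr' fun i => imp_congr_right fun hi => ?_
      rw [C5_hi_of (A := ⟨R.lo, P.fr⟩) (B := R) (hjR' i hi).symm rfl]
    · have e2 : (⟨R.lo, P.fr⟩ : Cube J).hi j = R.lo j + 1 := C5_hi_mem (Q := ⟨R.lo, P.fr⟩) hj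
      rw [e2, p1, mul_add, mul_one]

private theorem C5_dir (M : ℕ) (hM : 0 < M) (P : Cube J) (j : J) (hj : j ∈ P.fr) :
    subQ M (P.up j) - subQ M (P.dn j) =
      ∑ k ∈ C5idx M P, (one ((C5cub M P k).up j) - one ((C5cub M P k).dn j)) := by
  classical
  ext R
  rw [Finset.sum_sub_distrib, Finsupp.sub_apply, Finsupp.sub_apply, C5_subup, C5_subdn,
    C5_up M P j hj, C5_dn M P j hj]
  by_cases hR : R.fr = P.fr.erase j
  · obtain ⟨e1, e2, e3, e4⟩ := C5_four M hM P j hj R hR
    have hM' : (0 : ℤ) < M := by exact_mod_cast hM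
    simp only [hR, true_and, e1, e2, e3, e4]
    by_cases ho : C5oth M P j R
    · simp only [ho, true_and]
      split_ifs <;> first | rfl | omega
    · simp only [ho, false_and, if_false]
  · simp only [hR, false_and, if_false]

theorem sub_bd (M : ℕ) (hM : 0 < M) (x : Ch J) : sub M (bd x) = bd (sub M x) := by
  have h : (sub M : Ch J →ₗ[ℤ] Ch J) ∘ₗ bd = bd ∘ₗ sub M := by
    refine C5_ext _ _ fun P => ?_
    rw [LinearMap.comp_apply, LinearMap.comp_apply, bd_one, C5_one, C5_subQ, map_sum]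
    have e1 : ∀ k, bd (one (C5cub M P k)) =
        ∑ j ∈ P.fr, sg P.fr j • (one ((C5cub M P k).up j) - one ((C5cub M P k).dn j)) := fun k => by
      rw [bd_one]
      rfl
    rw [Finset.sum_congr rfl fun k _ => e1 k, Finset.sum_comm]
    unfold bdQ
    rw [map_sum]
    refine Finset.sum_congr rfl fun j hj => ?_
    rw [map_smul, map_sub, C5_one, C5_one, C5_dir M hM P j hj, Finset.smul_sum]
  exact LinearMap.congr_fun h x

theorem sub_mem (M : ℕ) (K : Set (Cube J)) (i : ℕ) {x : Ch J} (hx : x ∈ CC K i) :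
    sub M x ∈ CC (Grd M K) i := by
  refine map_mem (sub M) (CC (Grd M K) i) (fun c hc hi => ?_) hx
  rw [C5_one, C5_subQ]
  refine Submodule.sum_mem _ fun k hk => ?_
  have h1 := one_mem (K := Grd M K) (Q := C5cub M c k) ⟨c, hc, C5_inM M c k hk⟩
  have h2 : (C5cub M c k).dim = i := hi
  rwa [h2] at h1

private theorem C5_nest (M M' : ℕ) (hM : 0 < M) (hM' : 0 < M') (P R : Cube J) :
    ∑ k ∈ C5idx M P, (sub M' (one (C5cub M P k))) R = (sub (M * M') (one P)) R := by
  classical
  have hM1' : (0 : ℤ) < M' := by exact_mod_cast hM'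
  rw [sub_one_apply (M * M') (Nat.mul_pos hM hM') P R]
  rw [Finset.sum_congr rfl fun k _ => sub_one_apply M' hM' (C5cub M P k) R]
  refine C5_cnt _ _ _ ?_ ?_ ?_
  · rintro ⟨h1, h2⟩
    have hf := C5_fr_eq h1 h2
    have hdiv : ∀ j, (M' : ℤ) * (R.lo j / M') ≤ R.lo j ∧ R.lo j + 1 ≤ M' * (R.lo j / M') + M' := by
      intro j
      have e1 := Int.mul_ediv_add_emod (R.lo j) M'
      have e2 := Int.emod_nonneg (R.lo j) hM1'.ne'
      have e3 := Int.emod_lt_of_pos (R.lo j) hM1'
      constructor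
      · linarith
      · linarith
    have hQ : (⟨fun j => if j ∈ P.fr then R.lo j / M' else M * P.lo j, P.fr⟩ : Cube J).InM M P := by
      intro j
      have h3 := h1 j
      by_cases hj : j ∈ P.fr
      · have e1 : (⟨fun j => if j ∈ P.fr then R.lo j / M' else M * P.lo j, P.fr⟩ : Cube J).hi j =
            R.lo j / M' + 1 := by
          rw [C5_hi_mem (Q := ⟨fun j => if j ∈ P.fr then R.lo j / M' else M * P.lo j, P.fr⟩) hj]
          show (if j ∈ P.fr then R.lo j / M' else M * P.lo j) + 1 = _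
          rw [if_pos hj]
        have e2 : (⟨fun j => if j ∈ P.fr then R.lo j / M' else M * P.lo j, P.fr⟩ : Cube J).lo j =
            R.lo j / M' := if_pos hj
        have hjR : j ∈ R.fr := by
          rw [hf]
          exact hj
        rw [C5_hi_mem hjR, C5_hi_mem hj] at h3
        rw [e1, e2, C5_hi_mem hj]
        push_cast at h3
        constructor
        · rw [Int.le_ediv_iff_mul_le hM1']
          calc (M : ℤ) * P.lo j * M' = M * M' * P.lo j := by ring
            _ ≤ R.lo j := h3.1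
        · have h4 : R.lo j / M' < M * (P.lo j + 1) := by
            rw [Int.ediv_lt_iff_lt_mul hM1']
            calc R.lo j < R.lo j + 1 := by linarith
              _ ≤ M * M' * (P.lo j + 1) := h3.2
              _ = M * (P.lo j + 1) * M' := by ring
          linarith
      · have e1 : (⟨fun j => if j ∈ P.fr then R.lo j / M' else M * P.lo j, P.fr⟩ : Cube J).hi j =
            M * P.lo j := by
          rw [C5_hi_not (Q := ⟨fun j => if j ∈ P.fr then R.lo j / M' else M * P.lo j, P.fr⟩) hj]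
          exact if_neg hj
        have e2 : (⟨fun j => if j ∈ P.fr then R.lo j / M' else M * P.lo j, P.fr⟩ : Cube J).lo j =
            M * P.lo j := if_neg hj
        rw [e1, e2, C5_hi_not hj]
        exact ⟨le_rfl, le_rfl⟩
    obtain ⟨k, hk, e⟩ := C5_ex M P _ hQ rfl
    refine ⟨k, hk, ?_, h2⟩
    rw [e]
    intro j
    have h3 := h1 j
    have h5 := hdiv j
    by_cases hj : j ∈ P.fr
    · have e1 : (⟨fun j => if j ∈ P.fr then R.lo j / M' else M * P.lo j, P.fr⟩ : Cube J).hi j =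
          R.lo j / M' + 1 := by
        rw [C5_hi_mem (Q := ⟨fun j => if j ∈ P.fr then R.lo j / M' else M * P.lo j, P.fr⟩) hj]
        show (if j ∈ P.fr then R.lo j / M' else M * P.lo j) + 1 = _
        rw [if_pos hj]
      have e2 : (⟨fun j => if j ∈ P.fr then R.lo j / M' else M * P.lo j, P.fr⟩ : Cube J).lo j =
          R.lo j / M' := if_pos hj
      have hjR : j ∈ R.fr := by
        rw [hf]
        exact hj
      rw [e1, e2, C5_hi_mem hjR, mul_add, mul_one]
      exact h5
    · have e1 : (⟨fun j => if j ∈ P.fr then R.lo j / M' else M * P.lo j, P.fr⟩ : Cube J).hi j =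
          M * P.lo j := by
        rw [C5_hi_not (Q := ⟨fun j => if j ∈ P.fr then R.lo j / M' else M * P.lo j, P.fr⟩) hj]
        exact if_neg hj
      have e2 : (⟨fun j => if j ∈ P.fr then R.lo j / M' else M * P.lo j, P.fr⟩ : Cube J).lo j =
          M * P.lo j := if_neg hj
      rw [e1, e2]
      rw [C5_hi_not hj] at h3
      push_cast at h3
      constructor
      · calc (M' : ℤ) * (M * P.lo j) = M * M' * P.lo j := by ring
          _ ≤ R.lo j := h3.1
      · calc R.hi j ≤ M * M' * P.lo j := h3.2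
          _ = (M' : ℤ) * (M * P.lo j) := by ring
  · rintro k hk ⟨h1, h2⟩
    refine ⟨fun j => ?_, h2⟩
    have h3 := h1 j
    have h4 := C5_inM M P k hk j
    push_cast
    have h5 := mul_le_mul_of_nonneg_left h4.1 hM1'.le
    have h6 := mul_le_mul_of_nonneg_left h4.2 hM1'.le
    constructor
    · calc (M : ℤ) * M' * P.lo j = M' * (M * P.lo j) := by ring
        _ ≤ M' * (C5cub M P k).lo j := h5
        _ ≤ R.lo j := h3.1
    · calc R.hi j ≤ M' * (C5cub M P k).hi j := h3.2
        _ ≤ M' * (M * P.hi j) := h6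
        _ = (M : ℤ) * M' * P.hi j := by ring
  · rintro k hk k' hk' ⟨h1, h2⟩ ⟨h1', -⟩
    have hf : R.fr = (C5cub M P k).fr := C5_fr_eq h1 h2
    refine C5_inj M P k k' (Cube.ext (funext fun j => ?_) rfl)
    by_cases hj : j ∈ P.fr
    · have hjR : j ∈ R.fr := by
        rw [hf]
        exact hj
      have a1 := h1 j
      have a2 := h1' j
      rw [C5_hi_mem hjR, C5_hi_mem (Q := C5cub M P k) hj] at a1
      rw [C5_hi_mem hjR, C5_hi_mem (Q := C5cub M P k') hj] at a2
      have b1 : (C5cub M P k).lo j = R.lo j / M' := by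
        refine le_antisymm ?_ ?_
        · rw [Int.le_ediv_iff_mul_le hM1']
          linarith [a1.1, mul_comm (M' : ℤ) ((C5cub M P k).lo j)]
        · have : R.lo j / M' < (C5cub M P k).lo j + 1 := by
            rw [Int.ediv_lt_iff_lt_mul hM1']
            linarith [a1.2, mul_comm (M' : ℤ) ((C5cub M P k).lo j + 1)]
          linarith
      have b2 : (C5cub M P k').lo j = R.lo j / M' := by
        refine le_antisymm ?_ ?_
        · rw [Int.le_ediv_iff_mul_le hM1']
          linarith [a2.1, mul_comm (M' : ℤ) ((C5cub M P k').lo j)]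
        · have : R.lo j / M' < (C5cub M P k').lo j + 1 := by
            rw [Int.ediv_lt_iff_lt_mul hM1']
            linarith [a2.2, mul_comm (M' : ℤ) ((C5cub M P k').lo j + 1)]
          linarith
      rw [b1, b2]
    · rw [C5_lo_not M P k hj, C5_lo_not M P k' hj]

theorem sub_sub (M M' : ℕ) (hM : 0 < M) (hM' : 0 < M') (x : Ch J) :
    sub M' (sub M x) = sub (M * M') x := by
  have h : (sub M' : Ch J →ₗ[ℤ] Ch J) ∘ₗ sub M = sub (M * M') := by
    refine C5_ext _ _ fun P => ?_
    rw [LinearMap.comp_apply]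
    ext R
    rw [← C5_nest M M' hM hM' P R, C5_one M P, C5_subQ, map_sum, Finsupp.finsetSum_apply]
  exact LinearMap.congr_fun h x

private theorem C5_act (M : ℕ) (τ : Equiv.Perm J) (P : Cube J) :
    subQ M (P.act τ) = ∑ k ∈ C5idx M P, one ((C5cub M P k).act τ) := by
  rw [C5_subQ]
  symm
  have hfr : ∀ x : {j // j ∈ (P.act τ).fr}, τ.symm x.1 ∈ P.fr := fun x => by
    have h := x.2
    unfold Cube.act at h
    simpa [Finset.mem_map_equiv] using h
  have hfr' : ∀ x : {j // j ∈ P.fr}, τ x.1 ∈ (P.act τ).fr := fun x =>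
    Finset.mem_map.2 ⟨x.1, x.2, rfl⟩
  refine Finset.sum_bij' (fun k _ => fun x => k ⟨τ.symm x.1, hfr x⟩)
    (fun k _ => fun x => k ⟨τ x.1, hfr' x⟩) ?_ ?_ ?_ ?_ ?_
  · intro k hk
    rw [C5_mem] at hk ⊢
    exact fun x => hk _
  · intro k hk
    rw [C5_mem] at hk ⊢
    exact fun x => hk _
  · intro k _
    funext x
    show k ⟨τ.symm (τ x.1), _⟩ = k x
    congr 1
    exact Subtype.ext (τ.symm_apply_apply x.1)
  · intro k _
    funext x
    show k ⟨τ (τ.symm x.1), _⟩ = k x
    congr 1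
    exact Subtype.ext (τ.apply_symm_apply x.1)
  · intro k _
    congr 1
    refine Cube.ext (funext fun j => ?_) rfl
    show (C5cub M P k).lo (τ.symm j) = _
    by_cases hj : τ.symm j ∈ P.fr
    · have hj' : j ∈ (P.act τ).fr := by
        have := hfr' ⟨τ.symm j, hj⟩
        simpa using this
      rw [C5_lo_mem M P k hj, C5_lo_mem M (P.act τ) _ hj']
      rfl
    · have hj' : j ∉ (P.act τ).fr := fun h => hj (hfr ⟨j, h⟩)
      rw [C5_lo_not M P k hj, C5_lo_not M (P.act τ) _ hj']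
      rfl

theorem sub_act (M : ℕ) (τ : Equiv.Perm J) (x : Ch J) : sub M (act τ x) = act τ (sub M x) := by
  have h : (sub M : Ch J →ₗ[ℤ] Ch J) ∘ₗ act τ = act τ ∘ₗ sub M := by
    refine C5_ext _ _ fun P => ?_
    rw [LinearMap.comp_apply, LinearMap.comp_apply, act_one, map_smul, C5_one, C5_one, C5_subQ M P,
      map_sum, C5_act, Finset.smul_sum]
    refine Finset.sum_congr rfl fun k _ => ?_
    rw [act_one]
    rfl
  exact LinearMap.congr_fun h x

private theorem C5_card (M : ℕ) (P : Cube J) (h : P.fr = ∅) : (C5idx M P).card = 1 := by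
  have h0 : IsEmpty {j // j ∈ P.fr} :=
    ⟨fun x => (Finset.eq_empty_iff_forall_notMem.1 h) x.1 x.2⟩
  unfold C5idx
  rw [Fintype.card_piFinset]
  exact Finset.prod_of_isEmpty _

theorem eps_sub (M : ℕ) (x : Ch J) : eps (sub M x) = eps x := by
  have h0 : ∀ Q : Cube J, eps (one Q) = if Q.fr = ∅ then (1 : ℤ) else 0 := fun Q => by
    unfold eps one
    rw [Finsupp.linearCombination_single, one_smul]
  have h : eps ∘ₗ sub M = (eps : Ch J →ₗ[ℤ] ℤ) := by
    refine C5_ext _ _ fun P => ?_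
    rw [LinearMap.comp_apply, C5_one, C5_subQ, map_sum, h0]
    rw [Finset.sum_congr rfl fun k _ => h0 (C5cub M P k)]
    by_cases hP : P.fr = ∅
    · have e : ∀ k ∈ C5idx M P, (if (C5cub M P k).fr = ∅ then (1 : ℤ) else 0) = 1 := fun k _ =>
        if_pos hP
      rw [Finset.sum_congr rfl e, Finset.sum_const, C5_card M P hP, if_pos hP]
      simp
    · rw [if_neg hP]
      exact Finset.sum_eq_zero fun k _ => if_neg hP
  exact LinearMap.congr_fun h x

theorem sub_pt (M : ℕ) (v : J → ℤ) : sub M (one (pt v)) = one (pt (fun j => (M : ℤ) * v j)) := by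
  rw [C5_one, C5_subQ]
  have e : ∀ k ∈ C5idx M (pt v), one (C5cub M (pt v) k) = one (pt (fun j => (M : ℤ) * v j)) := by
    intro k _
    congr 1
    refine Cube.ext (funext fun j => ?_) rfl
    exact C5_lo_not M (pt v) k (Finset.notMem_empty j)
  rw [Finset.sum_congr rfl e, Finset.sum_const, C5_card M (pt v) rfl, one_smul]

end AGE
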