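import Pool.Agent.AGE.Defs
import Pool.Agent.AGE.C1b
import Pool.Agent.AGE.C2b
import Pool.Agent.AGE.C3
import Pool.Agent.AGE.C4b
import Pool.Agent.AGE.C6a

/-!
# AGE-C6b: pushes of vertex maps

`push_exists`: `carrier_exists'` / `carrier_exists` with `C = Spn f` (acyclic by `spn_eq` and `acy_faces`; closed; monotone; equivariant by `spn_act`). `push_unique`: induction on
the dimension: the difference `y` of the values on `c` is a cycle in `CC (Spn f c) c.dim`; `Spn f c = Faces S` with `S.dim ≤ c.dim` (cellular), and by `acy_faces` `y` is a boundary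
of a chain of dimension `c.dim + 1 > S.dim`, that is `0`.
-/

set_option autoImplicit false

noncomputable section

namespace AGE

variable {V J : Type} [LinearOrder V] [LinearOrder J]

private theorem C6b_zero {S : Cube J} {i : ℕ} {x : Ch J} (hx : x ∈ CC (Faces S) i)
    (hd : S.dim < i) : x = 0 := by
  have h := map_mem (J' := J) (K := Faces S) (i := i) (LinearMap.id) (⊥ : Submodule ℤ (Ch J))
    (fun c hc hi => by
      have h1 : c.dim ≤ S.dim := Cube.le_dim hc
      omega) hx
  exact (Submodule.mem_bot ℤ).1 h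

private theorem C6b_closed (f : (V → ℤ) → (J → ℤ)) (c : Cube V) : Closed (Spn f c) :=
  fun _ hP _ hQ S hS => Cube.le_trans' hQ (hP S hS)

private theorem C6b_acyc (m : ℕ) (f : (V → ℤ) → (J → ℤ)) (c : Cube V) (S₀ : Cube J)
    (h : ∀ v, c.Has v → S₀.Has (f v)) : Acyc (Spn f c) m := by
  obtain ⟨S, hS, -, -⟩ := spn_eq f c S₀ h
  intro i _ z hz hb h0
  rw [hS] at hz ⊢
  exact acy_faces S i z hz hb h0

theorem push_exists (m : ℕ) (K : Set (Cube V)) (hKc : Closed K) (hKd : ∀ c ∈ K, c.dim ≤ m)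
    (f : (V → ℤ) → (J → ℤ)) (hf : VMap K Set.univ f) :
    ∃ φ : Ch V →ₗ[ℤ] Ch J, Push K (Spn f) f φ := by
  refine carrier_exists' K hKc m (fun c hc => (hKd c hc).trans (Nat.le_succ m)) (Spn f)
    (fun c _ => C6b_closed f c) (fun c _ d hd => spn_mono f c d hd) (fun c hc => ?_) f
    (fun v _ => ?_)
  · obtain ⟨S, -, hS⟩ := hf c hc
    exact C6b_acyc m f c S hS
  · rw [spn_pt]
    exact Set.mem_singleton _

theorem push_exists_equi {n N : ℕ} (K : Set (Cube V)) (τV : Equiv.Perm V) (τJ : Equiv.Perm J)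
    (hK : Src n N K τV) (hJ : τJ ^ N = 1) (f : (V → ℤ) → (J → ℤ)) (hf : VMap K Set.univ f)
    (hfe : Equi τV τJ f) :
    ∃ φ : Ch V →ₗ[ℤ] Ch J, Push K (Spn f) f φ ∧
      (∀ c ∈ K, φ (act τV (one c)) = act τJ (φ (one c))) := by
  refine carrier_exists K τV τJ hK hJ (Spn f)
    ⟨fun c _ => C6b_closed f c, fun c _ d hd => spn_mono f c d hd,
      fun c _ Q => spn_act τV τJ f hfe c Q⟩ (fun c hc => ?_) f hfe (fun v _ => ?_)
  · obtain ⟨S, -, hS⟩ := hf c hc
    exact C6b_acyc n f c S hS
  · rw [spn_pt]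
    exact Set.mem_singleton _

theorem push_unique (K : Set (Cube V)) (hKc : Closed K) (f : (V → ℤ) → (J → ℤ))
    (hf : Cel K Set.univ f) (φ φ' : Ch V →ₗ[ℤ] Ch J) (h : Push K (Spn f) f φ)
    (h' : Push K (Spn f) f φ') : ∀ c ∈ K, φ (one c) = φ' (one c) := by
  have key : ∀ d : ℕ, ∀ c ∈ K, c.dim = d → φ (one c) = φ' (one c) := by
    intro d
    induction d with
    | zero =>
      intro c hc hd
      have h1 : c.fr = ∅ := Finset.card_eq_zero.1 hd
      have h2 : c = pt c.lo := Cube.ext rfl h1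
      have h3 : pt c.lo ∈ K := h2 ▸ hc
      rw [h2, h.vtx _ h3, h'.vtx _ h3]
    | succ d ih =>
      intro c hc hd
      obtain ⟨S₀, -, hd0, hS₀⟩ := hf c hc
      obtain ⟨S, hS, hSS, -⟩ := spn_eq f c S₀ hS₀
      have hSd : S.dim ≤ d + 1 := ((Cube.le_dim hSS).trans hd0).trans hd.le
      have hy : φ (one c) - φ' (one c) ∈ CC (Faces S) (d + 1) := by
        rw [← hS, ← hd]
        exact Submodule.sub_mem _ (h.car c hc) (h'.car c hc)
      have hb : bd (φ (one c) - φ' (one c)) = 0 := by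
        rw [map_sub, h.chn c hc, h'.chn c hc]
        have hbc : bd (one c) ∈ CC K d := by
          refine bd_mem hKc ?_
          rw [← hd]
          exact one_mem hc
        have h1 := map_mem (J' := J) (K := K) (i := d) (φ - φ') (⊥ : Submodule ℤ (Ch J))
          (fun e he hi => by
            rw [LinearMap.sub_apply, ih e he hi, sub_self]
            exact Submodule.zero_mem _) hbc
        have h2 := (Submodule.mem_bot ℤ).1 h1
        rwa [LinearMap.sub_apply] at h2
      obtain ⟨z, hz, hzb⟩ := acy_faces S (d + 1) _ hy (fun _ => hb) (fun h0 => by omega)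
      have hz0 : z = 0 := C6b_zero hz (by omega)
      rw [hz0, map_zero] at hzb
      exact sub_eq_zero.1 hzb.symm
  exact fun c hc => key c.dim c hc rfl

theorem push_zero (K : Set (Cube V)) (f : (V → ℤ) → (J → ℤ)) (φ : Ch V →ₗ[ℤ] Ch J)
    (h : Push K (Spn f) f φ) (c : Cube V) (hc : c ∈ K) (S : Cube J)
    (hS : ∀ v, c.Has v → S.Has (f v)) (hd : S.dim < c.dim) : φ (one c) = 0 :=
  C6b_zero (CC_mono (spn_sub f c S hS) c.dim (h.car c hc)) hd

end AGE
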