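import Pool.Agent.AGE.Defs
import Pool.Agent.AGE.C1b
import Pool.Agent.AGE.C2a
import Pool.Agent.AGE.C6a

/-!
# AGE-C8: staggered dilation

`stag`: every equivariant vertex map becomes cellular and axial on a finer grid, inside the old spans.

Plan. Only finitely many coordinates `j` of `J` vary on the cubes of `K`: let `J₀` be the union of the free coordinates of the cubes `S` with `Spn F c = Faces S`, `c ∈ K` (finite;
invariant under `τJ`, `spn_act`). Choose offsets `o : V → J → ℕ` with `o (τV i) (τJ j) = o i j`, `o i j < M` and `o i` injective on `J₀`: let `M = card J₀ + 1`; for a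
representative `i₀` of every orbit of `V` (all `a` with `(τV^a) i₀ = i₀` are multiples of `N`) let `o i₀` be an injective numbering of `J₀` (0 outside `J₀`) and
`o ((τV^a) i₀) j = o i₀ ((τJ^a).symm j)` (well defined because `τJ^N = 1`). Put `F' v j = F (fun i => (v i + o i j) / M) j`. Equivariance: direct. Let `Q.InM M c`, `c ∈ K`. For a
vertex `v` of `Q` the point `i ↦ (v i + o i j) / M` is a vertex of `c` (`M c.lo i ≤ v i ≤ M c.hi i`, `0 ≤ o < M`; at `v i = M c.hi i` the quotient is `c.hi i`), so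
`F' v j` lies between `S.lo j` and `S.hi j`. Moving `v` in a free direction `i` of `Q` from `Q.lo i` to `Q.lo i + 1` changes the quotient only if `M ∣ Q.lo i + 1 + o i j`, which for `j ∈ J₀` holds for at
most one `j` (injectivity, `o < M`); for `j ∉ J₀` the value does not change at all: axial. So at most one coordinate per free direction: let `fr'` be the set of these coordinates `j(i)`
in which `F'` is not constant on `Q`: the span of `F' (Q)` has dimension at most `card Q.fr` (every coordinate `j` in which `F'` varies over the vertices of `Q` is some `j(i)`: go from one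
vertex to another one direction at a time).
-/

set_option autoImplicit false

noncomputable section

namespace AGE

variable {V J : Type} [LinearOrder V] [LinearOrder J]

private theorem c8_pow {N : ℕ} (τV : Equiv.Perm V) (τJ : Equiv.Perm J)
    (hfr : ∀ i : V, ∀ a : ℕ, (τV ^ a) i = i → N ∣ a) (hJ : τJ ^ N = 1) (r : V) (z w : ℤ)
    (h : (τV ^ z) r = (τV ^ w) r) : τJ ^ z = τJ ^ w := by
  have h1 : (τV ^ (z - w)) r = r := by
    have h2 : z - w = -w + z := by ring
    rw [h2, zpow_add, Equiv.Perm.mul_apply, h, ← Equiv.Perm.mul_apply, ← zpow_add]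
    simp
  have h2 : (τV ^ (z - w).natAbs) r = r := by
    rcases Int.natAbs_eq (z - w) with h3 | h3
    · rw [h3, zpow_natCast] at h1
      exact h1
    · rw [h3, zpow_neg, zpow_natCast] at h1
      rw [Equiv.Perm.inv_eq_iff_eq] at h1
      exact h1.symm
  have h3 : N ∣ (z - w).natAbs := hfr r _ h2
  have h4 : (N : ℤ) ∣ z - w := Int.natCast_dvd.2 h3
  obtain ⟨q, hq⟩ := h4
  have h5 : z = w + N * q := by omega
  rw [h5, zpow_add, zpow_mul, zpow_natCast, hJ, one_zpow, mul_one]

private theorem c8_off {N : ℕ} (hN : 0 < N) (τV : Equiv.Perm V) (τJ : Equiv.Perm J)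
    (hfr : ∀ i : V, ∀ a : ℕ, (τV ^ a) i = i → N ∣ a) (hJ : τJ ^ N = 1) (B : Finset J) :
    ∃ (M : ℕ) (o : V → J → ℕ), 0 < M ∧ (∀ i j, o i j < M) ∧
      (∀ i j, o (τV i) (τJ j) = o i j) ∧
      (∀ i, ∀ j ∈ B, ∀ j' ∈ B, o i j = o i j' → j = j') := by
  classical
  set J₀ : Finset J := (Finset.range N).biUnion (fun a => B.image (τJ ^ a)) with hJ₀
  have hmem : ∀ j ∈ B, ∀ z : ℤ, (τJ ^ z) j ∈ J₀ := by
    intro j hj z
    have h1 : (0 : ℤ) ≤ z % N := Int.emod_nonneg _ (by omega)
    have h2 : z % N < N := Int.emod_lt_of_pos _ (by omega)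
    obtain ⟨a, ha⟩ := Int.eq_ofNat_of_zero_le h1
    have h3 : τJ ^ z = τJ ^ a := by
      have h4 := Int.mul_ediv_add_emod z N
      rw [← h4, zpow_add, zpow_mul, zpow_natCast, hJ, one_zpow, one_mul, ha, zpow_natCast]
    rw [h3, hJ₀, Finset.mem_biUnion]
    refine ⟨a, Finset.mem_range.2 (by omega), Finset.mem_image_of_mem _ hj⟩
  obtain ⟨e, he1, he2⟩ : ∃ e : J → ℕ, (∀ j, e j < J₀.card + 1) ∧
      (∀ j ∈ J₀, ∀ j' ∈ J₀, e j = e j' → j = j') := by
    refine ⟨fun j => if h : j ∈ J₀ then (J₀.equivFin ⟨j, h⟩).val else 0, ?_, ?_⟩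
    · intro j
      by_cases h : j ∈ J₀
      · simp only [dif_pos h]
        have := (J₀.equivFin ⟨j, h⟩).isLt
        omega
      · simp only [dif_neg h]
        omega
    · intro j hj j' hj' h
      simp only [dif_pos hj, dif_pos hj'] at h
      have h1 := J₀.equivFin.injective (Fin.ext h)
      exact congrArg Subtype.val h1
  have hrep : ∃ (r : V → V) (z : V → ℤ), (∀ i, (τV ^ (z i)) (r i) = i) ∧
      ∀ i, r (τV i) = r i := by
    let st := Equiv.Perm.SameCycle.setoid τV
    have h1 : ∀ i : V, Equiv.Perm.SameCycle τV (Quotient.out (Quotient.mk st i)) i := by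
      intro i
      exact Quotient.exact (Quotient.out_eq (Quotient.mk st i))
    choose z hz using h1
    refine ⟨fun i => Quotient.out (Quotient.mk st i), z, hz, ?_⟩
    intro i
    have h2 : Quotient.mk st (τV i) = Quotient.mk st i := by
      apply Quotient.sound
      show Equiv.Perm.SameCycle τV (τV i) i
      exact ⟨-1, by simp⟩
    show Quotient.out (Quotient.mk st (τV i)) = Quotient.out (Quotient.mk st i)
    rw [h2]
  obtain ⟨r, z, hz, hr⟩ := hrep
  refine ⟨J₀.card + 1, fun i j => e ((τJ ^ (-(z i))) j), by omega, fun i j => he1 _, ?_, ?_⟩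
  · intro i j
    show e ((τJ ^ (-(z (τV i)))) (τJ j)) = e ((τJ ^ (-(z i))) j)
    have h1 : τJ ^ (z (τV i)) = τJ ^ (1 + z i) := by
      apply c8_pow τV τJ hfr hJ (r i)
      have h2 := hz (τV i)
      rw [hr] at h2
      rw [h2, zpow_add, zpow_one, Equiv.Perm.mul_apply, hz]
    have h3 : τJ ^ (-(z (τV i))) = τJ ^ (-(z i)) * τJ⁻¹ := by
      rw [zpow_neg, h1, zpow_add, zpow_one, mul_inv_rev, zpow_neg]
    rw [h3, Equiv.Perm.mul_apply]
    congr 2
    exact τJ.symm_apply_apply j
  · intro i j hj j' hj' h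
    have h1 := he2 _ (hmem j hj _) _ (hmem j' hj' _) h
    exact (τJ ^ (-(z i))).injective h1

private theorem c8_div {M : ℕ} (hM : 0 < M) (a : ℤ) (h : ¬ (M : ℤ) ∣ a + 1) :
    (a + 1) / (M : ℤ) = a / M := by
  have hM' : (0 : ℤ) < M := by exact_mod_cast hM
  have h1 := Int.mul_ediv_add_emod a M
  have h2 := Int.emod_nonneg a hM'.ne'
  have h3 := Int.emod_lt_of_pos a hM'
  have h4 : a % M + 1 < M := by
    by_contra hc
    apply h
    refine ⟨a / M + 1, ?_⟩
    rw [mul_add, mul_one]
    omega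
  have h5 : a + 1 = (a % M + 1) + M * (a / M) := by omega
  rw [h5, Int.add_mul_ediv_left _ _ hM'.ne', Int.ediv_eq_zero_of_lt (by omega) h4, zero_add]

theorem stag {n N : ℕ} [Fintype V] [Nonempty J] (K : Set (Cube V)) (τV : Equiv.Perm V)
    (τJ : Equiv.Perm J)
    (hK : Src n N K τV) (hfr : ∀ i : V, ∀ a : ℕ, (τV ^ a) i = i → N ∣ a) (hJ : τJ ^ N = 1)
    (F : (V → ℤ) → (J → ℤ)) (hF : Equi τV τJ F) (hFv : VMap K Set.univ F) :
    ∃ (M : ℕ) (F' : (V → ℤ) → (J → ℤ)), 0 < M ∧ Equi τV τJ F' ∧ Ax (Grd M K) F' ∧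
      (∀ c ∈ K, ∀ Q : Cube V, Q.InM M c →
        ∃ S ∈ Spn F c, S.dim ≤ Q.dim ∧ ∀ v, Q.Has v → S.Has (F' v)) := by
  classical
  have hS : ∀ c : Cube V, ∃ S : Cube J, c ∈ K → Spn F c = Faces S ∧
      ∀ v, c.Has v → S.Has (F v) := by
    intro c
    by_cases hc : c ∈ K
    · obtain ⟨S₀, -, h0⟩ := hFv c hc
      obtain ⟨S, h1, -, h2⟩ := spn_eq F c S₀ h0
      exact ⟨S, fun _ => ⟨h1, h2⟩⟩
    · exact ⟨⟨fun _ => 0, ∅⟩, fun h => absurd h hc⟩
  choose S hS using hS
  set B : Finset J := hK.fin.toFinset.biUnion (fun c => (S c).fr) with hB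
  have hBm : ∀ c ∈ K, ∀ j ∈ (S c).fr, j ∈ B := by
    intro c hc j hj
    rw [hB, Finset.mem_biUnion]
    exact ⟨c, hK.fin.mem_toFinset.2 hc, hj⟩
  obtain ⟨M, o, hM, ho1, ho2, ho3⟩ := c8_off hK.pos τV τJ hfr hJ B
  have hM' : (0 : ℤ) < M := by exact_mod_cast hM
  have ho1' : ∀ i j, (o i j : ℤ) < M := fun i j => by exact_mod_cast ho1 i j
  -- uniqueness
  have huniq : ∀ (i : V) (a : ℤ), ∀ j ∈ B, ∀ j' ∈ B, (M : ℤ) ∣ a + 1 + o i j →
      (M : ℤ) ∣ a + 1 + o i j' → j = j' := by
    intro i a j hj j' hj' h1 h2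
    apply ho3 i j hj j' hj'
    have h3 : (M : ℤ) ∣ (o i j : ℤ) - o i j' := by
      have := dvd_sub h1 h2
      have e : a + 1 + (o i j : ℤ) - (a + 1 + o i j') = (o i j : ℤ) - o i j' := by ring
      rwa [e] at this
    have h4 := ho1' i j
    have h5 := ho1' i j'
    have h6 : (o i j : ℤ) - o i j' = 0 := by
      apply Int.eq_zero_of_abs_lt_dvd h3
      rw [abs_lt]
      constructor <;> omega
    omega
  -- the new points are vertices of `c`
  have hpt : ∀ (c Q : Cube V), Q.InM M c → ∀ v, Q.Has v → ∀ j,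
      c.Has (fun i => (v i + (o i j : ℤ)) / (M : ℤ)) := by
    intro c Q hQ v hv j i
    have h1 := hQ i
    have h2 := hv i
    have h3 := ho1' i j
    have h4 : (0 : ℤ) ≤ o i j := Int.natCast_nonneg _
    constructor
    · rw [Int.le_ediv_iff_mul_le hM', mul_comm]
      linarith
    · show (v i + (o i j : ℤ)) / (M : ℤ) ≤ c.hi i
      have h5 : (v i + (o i j : ℤ)) / (M : ℤ) < c.hi i + 1 := by
        rw [Int.ediv_lt_iff_lt_mul hM', add_mul, one_mul, mul_comm]
        linarith
      omega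
  have hrng : ∀ c ∈ K, ∀ Q : Cube V, Q.InM M c → ∀ v, Q.Has v → ∀ j,
      (S c).lo j ≤ F (fun i => (v i + (o i j : ℤ)) / (M : ℤ)) j ∧
      F (fun i => (v i + (o i j : ℤ)) / (M : ℤ)) j ≤ (S c).hi j := by
    intro c hc Q hQ v hv j
    exact (hS c hc).2 _ (hpt c Q hQ v hv j) j
  have hnot : ∀ c ∈ K, ∀ Q : Cube V, Q.InM M c → ∀ v, Q.Has v → ∀ j, j ∉ (S c).fr →
      F (fun i => (v i + (o i j : ℤ)) / (M : ℤ)) j = (S c).lo j := by
    intro c hc Q hQ v hv j hj
    have h1 := hrng c hc Q hQ v hv j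
    have h2 : (S c).hi j = (S c).lo j := if_neg hj
    omega
  have hhi : ∀ (Q : Cube V) (i : V) (v : V → ℤ), Q.Has v →
      v i = Q.lo i ∨ (i ∈ Q.fr ∧ v i = Q.lo i + 1) := by
    intro Q i v hv
    have h1 := hv i
    by_cases hi : i ∈ Q.fr
    · have h2 : Q.hi i = Q.lo i + 1 := if_pos hi
      rcases (show v i = Q.lo i ∨ v i = Q.lo i + 1 by omega) with h | h
      · exact Or.inl h
      · exact Or.inr ⟨hi, h⟩
    · have h2 : Q.hi i = Q.lo i := if_neg hi
      exact Or.inl (by omega)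
  refine ⟨M, fun v j => F (fun i => (v i + (o i j : ℤ)) / (M : ℤ)) j, hM, ?_, ?_, ?_⟩
  · -- equivariance
    intro v
    funext j
    show F (fun i => (v (τV.symm i) + (o i j : ℤ)) / (M : ℤ)) j
      = F (fun i => (v i + (o i (τJ.symm j) : ℤ)) / (M : ℤ)) (τJ.symm j)
    have h1 := congrFun (hF (fun i => (v i + (o i (τJ.symm j) : ℤ)) / (M : ℤ))) j
    have h2 : actP τJ (F fun i => (v i + (o i (τJ.symm j) : ℤ)) / (M : ℤ)) j
        = F (fun i => (v i + (o i (τJ.symm j) : ℤ)) / (M : ℤ)) (τJ.symm j) := rfl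
    rw [← h2, ← h1]
    congr 1
    funext i
    show (v (τV.symm i) + (o i j : ℤ)) / (M : ℤ)
      = (v (τV.symm i) + (o (τV.symm i) (τJ.symm j) : ℤ)) / (M : ℤ)
    have h3 := ho2 (τV.symm i) (τJ.symm j)
    rw [τV.apply_symm_apply, τJ.apply_symm_apply] at h3
    rw [h3]
  · -- axial
    rintro Q ⟨c, hc, hQ⟩ i hi
    have hup : ∀ v, Q.Has v → Q.Has (Function.update v i (Q.lo i + 1)) ∧
        Q.Has (Function.update v i (Q.lo i)) := by
      intro v hv
      have h2 : Q.hi i = Q.lo i + 1 := if_pos hi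
      constructor
      · intro k
        by_cases hk : k = i
        · subst hk
          rw [Function.update_self]
          omega
        · rw [Function.update_of_ne hk]
          exact hv k
      · intro k
        by_cases hk : k = i
        · subst hk
          rw [Function.update_self]
          omega
        · rw [Function.update_of_ne hk]
          exact hv k
    have hkey : ∀ v, Q.Has v → ∀ k, ¬ (k ∈ B ∧ (M : ℤ) ∣ Q.lo i + 1 + o i k) →
        F (fun i' => (Function.update v i (Q.lo i + 1) i' + (o i' k : ℤ)) / (M : ℤ)) k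
        = F (fun i' => (Function.update v i (Q.lo i) i' + (o i' k : ℤ)) / (M : ℤ)) k := by
      intro v hv k hk
      by_cases hkB : k ∈ B
      · have hk2 : ¬ (M : ℤ) ∣ Q.lo i + 1 + o i k := fun h => hk ⟨hkB, h⟩
        congr 1
        funext i'
        by_cases hi' : i' = i
        · subst hi'
          rw [Function.update_self, Function.update_self]
          have e : Q.lo i' + 1 + (o i' k : ℤ) = Q.lo i' + (o i' k : ℤ) + 1 := by ring
          rw [e] at hk2 ⊢
          exact c8_div hM _ hk2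
        · rw [Function.update_of_ne hi', Function.update_of_ne hi']
      · have hkS : k ∉ (S c).fr := fun h => hkB (hBm c hc k h)
        rw [hnot c hc Q hQ _ (hup v hv).1 k hkS, hnot c hc Q hQ _ (hup v hv).2 k hkS]
    by_cases hex : ∃ k ∈ B, (M : ℤ) ∣ Q.lo i + 1 + o i k
    · obtain ⟨j, hj, hj2⟩ := hex
      refine ⟨j, fun v hv k hk => hkey v hv k ?_⟩
      rintro ⟨h1, h2⟩
      exact hk (huniq i (Q.lo i) k h1 j hj h2 hj2)
    · refine ⟨Classical.arbitrary J, fun v hv k _ => hkey v hv k ?_⟩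
      rintro ⟨h1, h2⟩
      exact hex ⟨k, h1, h2⟩
  · -- spans
    intro c hc Q hQ
    set F' : (V → ℤ) → (J → ℤ) := fun v j => F (fun i => (v i + (o i j : ℤ)) / (M : ℤ)) j with hF'
    have hr' : ∀ v, Q.Has v → ∀ j, (S c).lo j ≤ F' v j ∧ F' v j ≤ (S c).hi j :=
      fun v hv j => hrng c hc Q hQ v hv j
    set fr' : Finset J := (S c).fr.filter
      (fun j => ∃ v, Q.Has v ∧ F' v j ≠ F' Q.lo j) with hfr'
    have hcon : ∀ v, Q.Has v → ∀ j, j ∉ fr' → F' v j = F' Q.lo j := by
      intro v hv j hj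
      by_cases hjS : j ∈ (S c).fr
      · by_contra hne
        exact hj (Finset.mem_filter.2 ⟨hjS, v, hv, hne⟩)
      · have h1 := hnot c hc Q hQ v hv j hjS
        have h2 := hnot c hc Q hQ Q.lo Q.has_lo j hjS
        show F (fun i => (v i + (o i j : ℤ)) / (M : ℤ)) j
          = F (fun i => (Q.lo i + (o i j : ℤ)) / (M : ℤ)) j
        rw [h1, h2]
    have hex : ∀ j ∈ fr', ∃ i ∈ Q.fr, (M : ℤ) ∣ Q.lo i + 1 + o i j := by
      intro j hj
      obtain ⟨hjS, v, hv, hne⟩ := Finset.mem_filter.1 hj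
      by_contra hcn
      push Not at hcn
      apply hne
      show F (fun i => (v i + (o i j : ℤ)) / (M : ℤ)) j
        = F (fun i => (Q.lo i + (o i j : ℤ)) / (M : ℤ)) j
      congr 1
      funext i
      rcases hhi Q i v hv with h | ⟨hi, h⟩
      · rw [h]
      · rw [h]
        have h2 := hcn i hi
        have e : Q.lo i + 1 + (o i j : ℤ) = Q.lo i + (o i j : ℤ) + 1 := by ring
        rw [e] at h2 ⊢
        exact c8_div hM _ h2
    have hdim : fr'.card ≤ Q.fr.card := by
      refine Finset.card_le_card_of_forall_subsingleton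
        (fun j i => (M : ℤ) ∣ Q.lo i + 1 + o i j) (fun j hj => hex j hj) ?_
      intro i hi j hj j' hj'
      have hj1 := hj.1
      have hj2 := hj'.1
      exact huniq i (Q.lo i) j (hBm c hc j (Finset.mem_filter.1 hj1).1) j'
        (hBm c hc j' (Finset.mem_filter.1 hj2).1) hj.2 hj'.2
    refine ⟨⟨fun j => if j ∈ fr' then (S c).lo j else F' Q.lo j, fr'⟩, ?_, hdim, ?_⟩
    · rw [(hS c hc).1]
      intro j
      have h1 := hr' Q.lo Q.has_lo j
      by_cases hj : j ∈ fr'
      · have hjS : j ∈ (S c).fr := (Finset.mem_filter.1 hj).1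
        have h2 : (S c).hi j = (S c).lo j + 1 := if_pos hjS
        unfold Cube.hi
        simp only [if_pos hj, if_pos hjS]
        exact ⟨le_rfl, le_rfl⟩
      · have h3 : (⟨fun j => if j ∈ fr' then (S c).lo j else F' Q.lo j, fr'⟩ : Cube J).hi j
            = F' Q.lo j := by
          unfold Cube.hi
          simp only [if_neg hj]
        rw [h3]
        show (S c).lo j ≤ (if j ∈ fr' then (S c).lo j else F' Q.lo j) ∧ _
        rw [if_neg hj]
        exact h1
    · intro v hv j
      have h1 := hr' v hv j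
      by_cases hj : j ∈ fr'
      · have hjS : j ∈ (S c).fr := (Finset.mem_filter.1 hj).1
        have h2 : (S c).hi j = (S c).lo j + 1 := if_pos hjS
        unfold Cube.hi
        simp only [if_pos hj]
        omega
      · unfold Cube.hi
        simp only [if_neg hj]
        have h2 := hcon v hv j hj
        omega

end AGE
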