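import Pool.Agent.AGE.Defs
import Pool.Agent.AGE.C1b
import Pool.Agent.AGE.C2a

/-!
# AGE-C7a: the multi-affine extension

On a closed unit cube the extension is given by one polynomial formula (`real_cube`); it is continuous (locally finite closed cover by
the unit cubes), stays in the cubes (convex combination of the values at the vertices) and is equivariant.
-/

set_option autoImplicit false

noncomputable section

namespace AGE

variable {V J : Type} [LinearOrder V] [LinearOrder J]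

private theorem C7a_prod [Fintype V] (A : Finset V) (u v : V → ℝ) :
    (∏ i ∈ A, u i) * (∏ i ∈ Aᶜ, v i) = ∏ i, if i ∈ A then u i else v i := by
  rw [Finset.prod_ite]
  congr 1
  · rw [Finset.filter_mem_eq_inter, Finset.univ_inter]
  · refine Finset.prod_congr ?_ fun _ _ => rfl
    ext i
    simp

omit [LinearOrder J] in
private theorem C7a_cube [Fintype V] (f : (V → ℤ) → (J → ℤ)) (a : V → ℤ) (x : V → ℝ)
    (hx : ∀ i, (a i : ℝ) ≤ x i ∧ x i ≤ a i + 1) (j : J) :
    real f x j = ∑ A : Finset V, (∏ i ∈ A, (x i - a i)) * (∏ i ∈ Aᶜ, (1 - (x i - a i))) *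
      (f (fun i => a i + if i ∈ A then 1 else 0) j : ℝ) := by
  unfold real
  simp_rw [C7a_prod]
  set I1 : Finset V := Finset.univ.filter fun i => x i = a i + 1 with hI1
  have m1 : ∀ i, i ∈ I1 ↔ x i = a i + 1 := fun i => by rw [hI1, Finset.mem_filter]; simp
  have fl1 : ∀ i, i ∈ I1 → ⌊x i⌋ = a i + 1 := fun i hi => by
    rw [(m1 i).1 hi]
    exact_mod_cast Int.floor_intCast (a i + 1)
  have fr1 : ∀ i, i ∈ I1 → Int.fract (x i) = 0 := fun i hi => by
    rw [Int.fract, fl1 i hi, (m1 i).1 hi]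
    push_cast
    ring
  have fl0 : ∀ i, i ∉ I1 → ⌊x i⌋ = a i := fun i hi => by
    rw [Int.floor_eq_iff]
    refine ⟨(hx i).1, lt_of_le_of_ne (hx i).2 fun h => hi ((m1 i).2 h)⟩
  have fr0 : ∀ i, i ∉ I1 → Int.fract (x i) = x i - a i := fun i hi => by
    rw [Int.fract, fl0 i hi]
  have hL : ∑ A : Finset V, (∏ i, if i ∈ A then Int.fract (x i) else 1 - Int.fract (x i)) *
      (f (fun i => ⌊x i⌋ + if i ∈ A then 1 else 0) j : ℝ) =
      ∑ A ∈ Finset.univ.filter (fun A : Finset V => Disjoint A I1),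
        (∏ i, if i ∈ A then Int.fract (x i) else 1 - Int.fract (x i)) *
        (f (fun i => ⌊x i⌋ + if i ∈ A then 1 else 0) j : ℝ) := by
    symm
    apply Finset.sum_filter_of_ne
    intro A _ hA
    by_contra hd
    obtain ⟨i, hi, hi'⟩ := Finset.not_disjoint_iff.1 hd
    apply hA
    rw [Finset.prod_eq_zero (Finset.mem_univ i), zero_mul]
    rw [if_pos hi, fr1 i hi']
  have hR : ∑ A : Finset V, (∏ i, if i ∈ A then (x i - a i) else 1 - (x i - a i)) *
      (f (fun i => a i + if i ∈ A then 1 else 0) j : ℝ) =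
      ∑ A ∈ Finset.univ.filter (fun A : Finset V => I1 ⊆ A),
        (∏ i, if i ∈ A then (x i - a i) else 1 - (x i - a i)) *
        (f (fun i => a i + if i ∈ A then 1 else 0) j : ℝ) := by
    symm
    apply Finset.sum_filter_of_ne
    intro A _ hA
    by_contra hd
    obtain ⟨i, hi, hi'⟩ := Finset.not_subset.1 hd
    apply hA
    rw [Finset.prod_eq_zero (Finset.mem_univ i), zero_mul]
    rw [if_neg hi', (m1 i).1 hi]
    ring
  rw [hL, hR]
  refine Finset.sum_nbij' (fun A => A ∪ I1) (fun A => A \ I1) ?_ ?_ ?_ ?_ ?_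
  · intro A _
    rw [Finset.mem_filter]
    exact ⟨Finset.mem_univ _, Finset.subset_union_right⟩
  · intro A _
    rw [Finset.mem_filter]
    exact ⟨Finset.mem_univ _, Finset.sdiff_disjoint⟩
  · intro A hA
    rw [Finset.mem_filter] at hA
    exact Finset.union_sdiff_cancel_right hA.2
  · intro A hA
    rw [Finset.mem_filter] at hA
    exact Finset.sdiff_union_of_subset hA.2
  · intro A hA
    rw [Finset.mem_filter] at hA
    have hd := Finset.disjoint_left.1 hA.2
    congr 1
    · refine Finset.prod_congr rfl fun i _ => ?_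
      by_cases h1 : i ∈ I1
      · have h2 : i ∉ A := fun h => hd h h1
        rw [if_neg h2, if_pos (Finset.mem_union_right _ h1), fr1 i h1, (m1 i).1 h1]
        ring
      · by_cases h2 : i ∈ A
        · rw [if_pos h2, if_pos (Finset.mem_union_left _ h2), fr0 i h1]
        · rw [if_neg h2, if_neg (by rw [Finset.mem_union]; tauto), fr0 i h1]
    · congr 2
      funext i
      by_cases h1 : i ∈ I1
      · have h2 : i ∉ A := fun h => hd h h1
        rw [if_neg h2, if_pos (Finset.mem_union_right _ h1), fl1 i h1, add_zero]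
      · by_cases h2 : i ∈ A
        · rw [if_pos h2, if_pos (Finset.mem_union_left _ h2), fl0 i h1]
        · rw [if_neg h2, if_neg (by rw [Finset.mem_union]; tauto), fl0 i h1]

theorem real_vertex [Fintype V] (f : (V → ℤ) → (J → ℤ)) (v : V → ℤ) :
    real f (fun i => (v i : ℝ)) = fun j => (f v j : ℝ) := by
  funext j
  rw [C7a_cube f v (fun i => (v i : ℝ)) (fun i => ⟨le_rfl, by linarith⟩) j,
    Finset.sum_eq_single (∅ : Finset V)]
  · simp
  · intro A _ hA
    obtain ⟨i, hi⟩ := Finset.nonempty_iff_ne_empty.2 hA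
    rw [Finset.prod_eq_zero hi (sub_self _), zero_mul, zero_mul]
  · intro h
    exact absurd (Finset.mem_univ _) h

theorem real_cube [Fintype V] (f : (V → ℤ) → (J → ℤ)) (a : V → ℤ) (x : V → ℝ)
    (hx : ∀ i, (a i : ℝ) ≤ x i ∧ x i ≤ a i + 1) (j : J) :
    real f x j = ∑ A : Finset V, (∏ i ∈ A, (x i - a i)) * (∏ i ∈ Aᶜ, (1 - (x i - a i))) *
      (f (fun i => a i + if i ∈ A then 1 else 0) j : ℝ) := C7a_cube f a x hx j

theorem real_continuous [Fintype V] (f : (V → ℤ) → (J → ℤ)) : Continuous (real f) := by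
  refine continuous_pi fun j => ?_
  let c : (V → ℤ) → Set (V → ℝ) := fun a => {x | ∀ i, (a i : ℝ) ≤ x i ∧ x i ≤ a i + 1}
  refine LocallyFinite.continuous (f := c) ?_ ?_ ?_ ?_
  · intro x0
    refine ⟨{x | ∀ i, x i ∈ Set.Ioo (x0 i - 1) (x0 i + 1)}, ?_, ?_⟩
    · have h1 : {x : V → ℝ | ∀ i, x i ∈ Set.Ioo (x0 i - 1) (x0 i + 1)} =
          Set.pi Set.univ fun i => Set.Ioo (x0 i - 1) (x0 i + 1) := by
        ext x
        simp
      rw [h1]
      exact set_pi_mem_nhds Set.finite_univ fun i _ => Ioo_mem_nhds (by linarith) (by linarith)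
    · refine (Set.finite_Icc (fun i => ⌊x0 i⌋ - 3) (fun i => ⌊x0 i⌋ + 3)).subset ?_
      rintro a ⟨x, hx1, hx2⟩
      have key : ∀ i, ⌊x0 i⌋ - 3 ≤ a i ∧ a i ≤ ⌊x0 i⌋ + 3 := by
        intro i
        have h1 := hx1 i
        have h2 := hx2 i
        have h3 := Int.floor_le (x0 i)
        have h4 := Int.lt_floor_add_one (x0 i)
        have h5 := h2.1
        have h6 := h2.2
        constructor
        · have : ((⌊x0 i⌋ - 3 : ℤ) : ℝ) ≤ (a i : ℝ) := by
            push_cast
            linarith [h1.1, h1.2]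
          exact_mod_cast this
        · have : (a i : ℝ) ≤ ((⌊x0 i⌋ + 3 : ℤ) : ℝ) := by
            push_cast
            linarith [h1.1, h1.2]
          exact_mod_cast this
      exact ⟨fun i => (key i).1, fun i => (key i).2⟩
  · rw [Set.eq_univ_iff_forall]
    intro x
    rw [Set.mem_iUnion]
    exact ⟨fun i => ⌊x i⌋, fun i => ⟨Int.floor_le _, (Int.lt_floor_add_one _).le⟩⟩
  · intro a
    have h1 : c a = ⋂ i, {x : V → ℝ | (a i : ℝ) ≤ x i ∧ x i ≤ a i + 1} := by
      ext x
      simp [c]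
    rw [h1]
    refine isClosed_iInter fun i => ?_
    exact (isClosed_le continuous_const (continuous_apply i)).inter
      (isClosed_le (continuous_apply i) continuous_const)
  · intro a
    have h1 : Continuous fun x : V → ℝ => ∑ A : Finset V, (∏ i ∈ A, (x i - a i)) *
        (∏ i ∈ Aᶜ, (1 - (x i - a i))) * (f (fun i => a i + if i ∈ A then 1 else 0) j : ℝ) := by
      fun_prop
    exact h1.continuousOn.congr fun x hx => C7a_cube f a x hx j

theorem real_mem [Fintype V] (f : (V → ℤ) → (J → ℤ)) (Q : Cube V) (S : Cube J)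
    (h : ∀ v, Q.Has v → S.Has (f v)) (x : V → ℝ) (hx : x ∈ Q.body) : real f x ∈ S.body := by
  have hhi : ∀ i, (Q.hi i : ℝ) ≤ Q.lo i + 1 := by
    intro i
    unfold Cube.hi
    split_ifs
    · push_cast
      exact le_rfl
    · linarith
  have hx' : ∀ i, (Q.lo i : ℝ) ≤ x i ∧ x i ≤ Q.lo i + 1 := fun i => ⟨(hx i).1, (hx i).2.trans (hhi i)⟩
  have hw : ∑ A : Finset V, (∏ i ∈ A, (x i - Q.lo i)) * (∏ i ∈ Aᶜ, (1 - (x i - Q.lo i))) = 1 := by
    rw [← Fintype.prod_add]
    simp
  have hw0 : ∀ A : Finset V, 0 ≤ (∏ i ∈ A, (x i - Q.lo i)) * (∏ i ∈ Aᶜ, (1 - (x i - Q.lo i))) := by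
    intro A
    refine mul_nonneg (Finset.prod_nonneg fun i _ => ?_) (Finset.prod_nonneg fun i _ => ?_)
    · have := (hx' i).1
      linarith
    · have := (hx' i).2
      linarith
  have hv : ∀ A : Finset V, (∏ i ∈ A, (x i - Q.lo i)) * (∏ i ∈ Aᶜ, (1 - (x i - Q.lo i))) = 0 ∨
      S.Has (f fun i => Q.lo i + if i ∈ A then 1 else 0) := by
    intro A
    by_cases hA : A ⊆ Q.fr
    · right
      apply h
      intro i
      constructor
      · show Q.lo i ≤ Q.lo i + (if i ∈ A then 1 else 0)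
        split_ifs
        · omega
        · omega
      · show Q.lo i + (if i ∈ A then 1 else 0) ≤ Q.hi i
        unfold Cube.hi
        by_cases hi : i ∈ A
        · rw [if_pos hi, if_pos (hA hi)]
        · rw [if_neg hi, add_zero]
          split_ifs
          · omega
          · exact le_rfl
    · left
      obtain ⟨i, hi, hi'⟩ := Finset.not_subset.1 hA
      have h1 := hx i
      unfold Cube.hi at h1
      rw [if_neg hi'] at h1
      rw [Finset.prod_eq_zero hi (by linarith [h1.1, h1.2]), zero_mul]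
  intro j
  rw [C7a_cube f Q.lo x hx' j]
  constructor
  · calc (S.lo j : ℝ) = ∑ A : Finset V, (∏ i ∈ A, (x i - Q.lo i)) * (∏ i ∈ Aᶜ, (1 - (x i - Q.lo i))) *
          (S.lo j : ℝ) := by rw [← Finset.sum_mul, hw, one_mul]
      _ ≤ _ := by
        refine Finset.sum_le_sum fun A _ => ?_
        rcases hv A with h1 | h1
        · rw [h1, zero_mul, zero_mul]
        · exact mul_le_mul_of_nonneg_left (by exact_mod_cast (h1 j).1) (hw0 A)
  · have h2 : ∑ A : Finset V, (∏ i ∈ A, (x i - Q.lo i)) * (∏ i ∈ Aᶜ, (1 - (x i - Q.lo i))) *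
        (S.hi j : ℝ) = (S.hi j : ℝ) := by rw [← Finset.sum_mul, hw, one_mul]
    rw [← h2]
    refine Finset.sum_le_sum fun A _ => ?_
    rcases hv A with h1 | h1
    · rw [h1, zero_mul, zero_mul]
    · exact mul_le_mul_of_nonneg_left (by exact_mod_cast (h1 j).2) (hw0 A)

theorem real_equi [Fintype V] (τV : Equiv.Perm V) (τJ : Equiv.Perm J) (f : (V → ℤ) → (J → ℤ))
    (hf : Equi τV τJ f) (x : V → ℝ) : real f (actP τV x) = actP τJ (real f x) := by
  funext j
  unfold real
  show _ = ∑ A : Finset V, (∏ i ∈ A, Int.fract (x i)) * (∏ i ∈ Aᶜ, (1 - Int.fract (x i))) *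
    (f (fun i => ⌊x i⌋ + if i ∈ A then 1 else 0) (τJ.symm j) : ℝ)
  symm
  refine Fintype.sum_equiv (Equiv.finsetCongr τV) _ _ fun A => ?_
  rw [Equiv.finsetCongr_apply, C7a_prod, C7a_prod]
  have hm : ∀ i, i ∈ A.map τV.toEmbedding ↔ τV.symm i ∈ A := by
    intro i
    rw [Finset.mem_map_equiv]
  congr 1
  · rw [← Equiv.prod_comp τV.symm fun i => if i ∈ A then Int.fract (x i) else 1 - Int.fract (x i)]
    refine Finset.prod_congr rfl fun i _ => ?_
    unfold actP
    by_cases h1 : τV.symm i ∈ A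
    · rw [if_pos h1, if_pos ((hm i).2 h1)]
    · rw [if_neg h1, if_neg fun h => h1 ((hm i).1 h)]
  · have h1 : (fun i => ⌊actP τV x i⌋ + if i ∈ A.map τV.toEmbedding then (1 : ℤ) else 0) =
        actP τV (fun i => ⌊x i⌋ + if i ∈ A then 1 else 0) := by
      funext i
      show (⌊x (τV.symm i)⌋ + if i ∈ A.map τV.toEmbedding then (1 : ℤ) else 0) =
        ⌊x (τV.symm i)⌋ + if τV.symm i ∈ A then 1 else 0
      by_cases h1 : τV.symm i ∈ A
      · rw [if_pos h1, if_pos ((hm i).2 h1)]
      · rw [if_neg h1, if_neg fun h => h1 ((hm i).1 h)]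
    rw [h1, hf]
    rfl

end AGE
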