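import Pool.Agent.AGE.Defs
import Pool.Agent.AGE.C1b
import Pool.Agent.AGE.C2a
import Pool.Agent.AGE.C6a
import Pool.Agent.AGE.C7a
import Pool.Agent.AGE.C7b
import Pool.Agent.AGE.C8

/-!
# AGE-C9: refinement of vertex maps

Plan. `real F` is continuous, hence uniformly continuous on the compact set of the bodies of the cubes of `K` (finitely many). Choose `D` such that points of one body at sup distance `≤ 1/D`
have `M₁ real F` at distance `< 1/2` in all coordinates (only finitely many coordinates of `J` vary on `K`, or use that on one cube `real F` is Lipschitz with constant `card V`: take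
`D > 2 M₁ (card V + 1)`). Put `F₁ v = rnd (fun j => M₁ * real F (fun i => v i / D) j)`, equivariant (`real_equi`, `round_equi`). For `Q.InM D c` the points `v / D` are in `c.body`, `M₁ real F (v/D)` lies in the
body of `M₁ S` (`Spn F c = Faces S`), so the roundings of the vertices of `Q` lie in a cube of `Grd M₁ (Faces S)` (`round_cube` with `T = Grd M₁ (Faces S)`, whose body is `M₁ S.body`). So
`F₁` is a vertex map on `Grd D K` with `Spn F₁ Q ⊆ Grd M₁ (Spn F c)`. Then apply `stag` to `F₁` on `Grd D K` (it is again `Src`) with dilation `M`, and `M₃ = D * M`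
(`grd_grd`; `Q.InM (D * M) c` implies `Q.InM M c'` for some `c'.InM D c`).
-/

set_option autoImplicit false

noncomputable section

namespace AGE

variable {V J : Type} [LinearOrder V] [LinearOrder J]

private theorem c9_hi_le (Q : Cube V) (j : V) : Q.lo j ≤ Q.hi j ∧ Q.hi j ≤ Q.lo j + 1 := by
  unfold Cube.hi
  split_ifs
  · exact ⟨by omega, le_refl _⟩
  · exact ⟨le_refl _, by omega⟩

private theorem c9_fr_sub {M : ℕ} {Q P : Cube V} (h : Q.InM M P) {j : V}
    (hj : j ∈ Q.fr ∨ ¬ (M : ℤ) ∣ Q.lo j) : j ∈ P.fr := by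
  by_contra hP
  have h1 := h j
  have h2 : P.hi j = P.lo j := by unfold Cube.hi; rw [if_neg hP]
  rw [h2] at h1
  have h3 := c9_hi_le Q j
  have h4 : Q.lo j = M * P.lo j := by omega
  have h5 : Q.hi j = Q.lo j := by omega
  rcases hj with hj | hj
  · have h6 : Q.hi j = Q.lo j + 1 := by unfold Cube.hi; rw [if_pos hj]
    omega
  · exact hj ⟨P.lo j, h4⟩

private theorem c9_inM_finite (M : ℕ) (P : Cube V) : {Q : Cube V | Q.InM M P}.Finite := by
  classical
  have h1 : (Set.pi Set.univ (fun j : {j // j ∈ P.fr} =>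
      Set.Icc ((M : ℤ) * P.lo j) ((M : ℤ) * P.hi j))).Finite :=
    Set.Finite.pi fun j => Set.finite_Icc _ _
  have h2 : ((P.fr.powerset : Finset (Finset V)) : Set (Finset V)).Finite :=
    Finset.finite_toSet _
  refine ((h1.prod h2).image (fun q : ({j // j ∈ P.fr} → ℤ) × Finset V =>
    (⟨fun j => if h : j ∈ P.fr then q.1 ⟨j, h⟩ else (M : ℤ) * P.lo j, q.2⟩ : Cube V))).subset ?_
  intro Q hQ
  have hQ' : Q.InM M P := hQ
  refine ⟨(fun j => Q.lo j, Q.fr), ⟨?_, ?_⟩, ?_⟩
  · intro j _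
    have h3 := hQ' j
    have h4 := c9_hi_le Q j
    exact ⟨h3.1, h4.1.trans h3.2⟩
  · rw [Finset.mem_coe, Finset.mem_powerset]
    intro j hj
    exact c9_fr_sub hQ' (Or.inl hj)
  · refine Cube.ext ?_ rfl
    funext j
    by_cases hj : j ∈ P.fr
    · simp only [dif_pos hj]
    · simp only [dif_neg hj]
      have h3 := hQ' j
      have h4 := c9_hi_le Q j
      have h5 : P.hi j = P.lo j := by unfold Cube.hi; rw [if_neg hj]
      rw [h5] at h3
      omega

private theorem c9_round {M : ℕ} (hM : 0 < M) {Q P : Cube V} (h : Q.InM M P) :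
    ∃ R : Cube V, R.Le P ∧ (∀ j, R.lo j = Q.lo j / (M : ℤ)) ∧
      ∀ j, j ∈ R.fr ↔ (j ∈ Q.fr ∨ ¬ (M : ℤ) ∣ Q.lo j) := by
  classical
  have hM' : (0 : ℤ) < (M : ℤ) := by exact_mod_cast hM
  refine ⟨⟨fun j => Q.lo j / (M : ℤ),
    P.fr.filter (fun j => j ∈ Q.fr ∨ ¬ (M : ℤ) ∣ Q.lo j)⟩, ?_, fun j => rfl, ?_⟩
  · intro j
    have h1 := h j
    have h2 := c9_hi_le Q j
    refine ⟨?_, ?_⟩
    · show P.lo j ≤ Q.lo j / (M : ℤ)
      rw [Int.le_ediv_iff_mul_le hM', mul_comm]
      exact h1.1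
    · unfold Cube.hi
      split_ifs with h3 h4 h4
      · show Q.lo j / (M : ℤ) + 1 ≤ P.lo j + 1
        have h5 : P.hi j = P.lo j + 1 := by unfold Cube.hi; rw [if_pos h4]
        rw [h5] at h1
        have h6 : Q.lo j < (P.lo j + 1) * (M : ℤ) := by
          rw [mul_comm]
          have h7 := (Finset.mem_filter.1 h3).2
          rcases h7 with h7 | h7
          · have h8 : Q.hi j = Q.lo j + 1 := by unfold Cube.hi; rw [if_pos h7]
            omega
          · rcases lt_or_eq_of_le (h2.1.trans h1.2) with h8 | h8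
            · exact h8
            · exact absurd ⟨_, h8⟩ h7
        have h9 := Int.ediv_lt_of_lt_mul hM' h6
        omega
      · exact absurd (Finset.mem_filter.1 h3).1 h4
      · show Q.lo j / (M : ℤ) ≤ P.lo j + 1
        have h5 : P.hi j = P.lo j + 1 := by unfold Cube.hi; rw [if_pos h4]
        rw [h5] at h1
        have h6 : Q.lo j ≤ (P.lo j + 1) * (M : ℤ) := by
          rw [mul_comm]
          exact h2.1.trans h1.2
        exact Int.ediv_le_of_le_mul hM' h6
      · show Q.lo j / (M : ℤ) ≤ P.lo j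
        have h5 : P.hi j = P.lo j := by unfold Cube.hi; rw [if_neg h4]
        rw [h5] at h1
        have h6 : Q.lo j ≤ P.lo j * (M : ℤ) := by
          rw [mul_comm]
          exact h2.1.trans h1.2
        exact Int.ediv_le_of_le_mul hM' h6
  · intro j
    rw [Finset.mem_filter]
    exact ⟨fun h1 => h1.2, fun h1 => ⟨c9_fr_sub h h1, h1⟩⟩

private theorem c9_src_grd {n N : ℕ} (M : ℕ) (hM : 0 < M) (K : Set (Cube V))
    (τ : Equiv.Perm V) (hK : Src n N K τ) : Src n N (Grd M K) τ where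
  fin := by
    have h1 : Grd M K = ⋃ P ∈ K, {Q : Cube V | Q.InM M P} := by
      ext Q
      simp only [Grd, Set.mem_ofPred_eq, Set.mem_iUnion, exists_prop]
    rw [h1]
    exact hK.fin.biUnion fun P _ => c9_inM_finite M P
  clo := closed_grd M K
  dim := by
    intro c hc
    obtain ⟨P, hP, -, h⟩ := grd_dim hM hc
    exact h.trans (hK.dim P hP)
  inv := inv_grd τ M K hK.inv
  pos := hK.pos
  ord := hK.ord
  fre := by
    intro c hc a ha
    obtain ⟨P, hP, hcP⟩ := hc
    obtain ⟨R, hRP, hlo, hfr⟩ := c9_round hM hcP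
    refine hK.fre R (hK.clo P hP R hRP) a ?_
    have hl : ∀ j, c.lo ((τ ^ a).symm j) = c.lo j := by
      intro j
      exact congrFun (congrArg Cube.lo ha) j
    have hf : ∀ j, (τ ^ a).symm j ∈ c.fr ↔ j ∈ c.fr := by
      intro j
      have h1 : c.fr.map (τ ^ a).toEmbedding = c.fr := congrArg Cube.fr ha
      constructor
      · intro h2
        rw [← h1, Finset.mem_map]
        exact ⟨_, h2, (τ ^ a).apply_symm_apply j⟩
      · intro h2
        rw [← h1, Finset.mem_map] at h2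
        obtain ⟨i, hi, hij⟩ := h2
        have h3 : (τ ^ a).symm j = i := by
          rw [← hij]
          exact (τ ^ a).symm_apply_apply i
        rw [h3]
        exact hi
    refine Cube.ext ?_ ?_
    · funext j
      show R.lo ((τ ^ a).symm j) = R.lo j
      rw [hlo, hlo, hl]
    · ext j
      show j ∈ R.fr.map (τ ^ a).toEmbedding ↔ j ∈ R.fr
      have h4 : j ∈ R.fr.map (τ ^ a).toEmbedding ↔ (τ ^ a).symm j ∈ R.fr := by
        rw [Finset.mem_map]
        constructor
        · rintro ⟨i, hi, hij⟩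
          have h3 : (τ ^ a).symm j = i := by
            rw [← hij]
            exact (τ ^ a).symm_apply_apply i
          rw [h3]
          exact hi
        · intro h2
          exact ⟨_, h2, (τ ^ a).apply_symm_apply j⟩
      rw [h4, hfr, hfr, hf, hl]
  ori := by
    intro c hc x hx y hy hxy
    obtain ⟨P, hP, hcP⟩ := hc
    exact hK.ori P hP x (c9_fr_sub hcP (Or.inl hx)) y (c9_fr_sub hcP (Or.inl hy)) hxy

private theorem c9_body_compact [Fintype V] (c : Cube V) : IsCompact c.body := by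
  have h : c.body = Set.Icc (fun j => (c.lo j : ℝ)) (fun j => (c.hi j : ℝ)) := by
    ext x
    simp only [Cube.body, Set.mem_ofPred_eq, Set.mem_Icc, Pi.le_def]
    exact ⟨fun h => ⟨fun j => (h j).1, fun j => (h j).2⟩, fun h j => ⟨h.1 j, h.2 j⟩⟩
  rw [h]
  exact isCompact_Icc

private theorem c9_unif [Fintype V] (F : (V → ℤ) → (J → ℤ)) (c : Cube V) (S : Cube J)
    (h : ∀ v, c.Has v → S.Has (F v)) (ε : ℝ) (hε : 0 < ε) :
    ∃ δ : ℝ, 0 < δ ∧ ∀ x ∈ c.body, ∀ y ∈ c.body, (∀ i, |x i - y i| < δ) →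
      ∀ j, |real F x j - real F y j| < ε := by
  have hcont : Continuous (fun (x : V → ℝ) (j : {j // j ∈ S.fr}) => real F x j) :=
    continuous_pi fun j => (continuous_apply (j : J)).comp (real_continuous F)
  have hu := (c9_body_compact c).uniformContinuousOn_of_continuous hcont.continuousOn
  rw [Metric.uniformContinuousOn_iff] at hu
  obtain ⟨δ, hδ, hδ'⟩ := hu ε hε
  refine ⟨δ, hδ, fun x hx y hy hxy j => ?_⟩
  by_cases hj : j ∈ S.fr
  · have h1 : dist x y < δ := by
      rw [dist_pi_lt_iff hδ]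
      intro i
      rw [Real.dist_eq]
      exact hxy i
    have h2 := hδ' x hx y hy h1
    rw [dist_pi_lt_iff hε] at h2
    have h3 := h2 ⟨j, hj⟩
    rw [Real.dist_eq] at h3
    exact h3
  · have h1 := real_mem F c S h x hx j
    have h2 := real_mem F c S h y hy j
    have h3 : S.hi j = S.lo j := by unfold Cube.hi; rw [if_neg hj]
    rw [h3] at h1 h2
    have h4 : real F x j = real F y j := by
      rw [le_antisymm h1.2 h1.1, le_antisymm h2.2 h2.1]
    rw [h4, sub_self, abs_zero]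
    exact hε

private theorem c9_body_grd (M : ℕ) (hM : 0 < M) (S : Cube J) (y : J → ℝ)
    (hy : ∀ j, (M : ℝ) * S.lo j ≤ y j ∧ y j ≤ (M : ℝ) * S.hi j) :
    y ∈ Body (Grd M (Faces S)) := by
  classical
  have hM1 : (1 : ℤ) ≤ (M : ℤ) := by exact_mod_cast hM
  refine ⟨⟨fun j => if j ∈ S.fr then min ⌊y j⌋ ((M : ℤ) * S.lo j + M - 1) else (M : ℤ) * S.lo j,
    S.fr⟩, ⟨S, Cube.le_refl' S, ?_⟩, ?_⟩
  · intro j
    unfold Cube.hi
    by_cases hj : j ∈ S.fr
    · simp only [if_pos hj]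
      have h1 : (M : ℤ) * S.lo j ≤ ⌊y j⌋ := by
        rw [Int.le_floor]
        push_cast
        exact (hy j).1
      refine ⟨le_min h1 (by omega), ?_⟩
      have h2 : min ⌊y j⌋ ((M : ℤ) * S.lo j + M - 1) ≤ (M : ℤ) * S.lo j + M - 1 := min_le_right _ _
      have h3 : (M : ℤ) * (S.lo j + 1) = (M : ℤ) * S.lo j + M := by ring
      rw [h3]
      omega
    · simp only [if_neg hj]
      exact ⟨le_refl _, le_refl _⟩
  · intro j
    unfold Cube.hi
    have h0 := hy j
    by_cases hj : j ∈ S.fr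
    · simp only [if_pos hj]
      have h4 : S.hi j = S.lo j + 1 := by unfold Cube.hi; rw [if_pos hj]
      rw [h4] at h0
      push_cast at h0 ⊢
      refine ⟨(min_le_left _ _).trans (Int.floor_le _), ?_⟩
      rcases min_choice ((⌊y j⌋ : ℤ) : ℝ) ((M : ℝ) * S.lo j + M - 1) with h5 | h5
      · rw [h5]
        exact (Int.lt_floor_add_one _).le
      · rw [h5]
        linarith
    · simp only [if_neg hj]
      have h4 : S.hi j = S.lo j := by unfold Cube.hi; rw [if_neg hj]
      rw [h4] at h0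
      push_cast
      exact h0

private theorem c9_grd_mono {M : ℕ} {K : Set (Cube J)} {S Q : Cube J} (hS : S ∈ Grd M K)
    (hQ : Q.Le S) : Q ∈ Grd M K := closed_grd M K S hS Q hQ

theorem refine {n N : ℕ} [Fintype V] [Nonempty J] (K : Set (Cube V)) (τV : Equiv.Perm V) (τJ : Equiv.Perm J)
    (hK : Src n N K τV) (hfr : ∀ i : V, ∀ a : ℕ, (τV ^ a) i = i → N ∣ a) (hJ : τJ ^ N = 1)
    (F : (V → ℤ) → (J → ℤ)) (hF : Equi τV τJ F) (hFv : VMap K Set.univ F)
    (M₁ : ℕ) (hM₁ : 0 < M₁) :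
    ∃ (M₃ : ℕ) (F' : (V → ℤ) → (J → ℤ)), 0 < M₃ ∧ Equi τV τJ F' ∧ Ax (Grd M₃ K) F' ∧
      (∀ c ∈ K, ∀ Q : Cube V, Q.InM M₃ c →
        ∃ S ∈ Grd M₁ (Spn F c), S.dim ≤ Q.dim ∧ ∀ v, Q.Has v → S.Has (F' v)) := by
  classical
  have hM1 : (0 : ℝ) < (M₁ : ℝ) := by exact_mod_cast hM₁
  -- choice of `D`
  have hev : ∀ c ∈ K, ∀ᶠ D : ℕ in Filter.atTop, ∀ x ∈ c.body, ∀ y ∈ c.body,
      (∀ i, |x i - y i| ≤ 1 / (D : ℝ)) → ∀ j, |real F x j - real F y j| < 1 / (2 * M₁) := by
    intro c hc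
    obtain ⟨S, -, hS⟩ := hFv c hc
    obtain ⟨δ, hδ, hδ'⟩ := c9_unif F c S hS (1 / (2 * M₁)) (by positivity)
    obtain ⟨D0, hD0⟩ := exists_nat_gt (1 / δ)
    filter_upwards [Filter.eventually_ge_atTop (D0 + 1)] with D hD x hx y hy hxy
    refine hδ' x hx y hy fun i => (hxy i).trans_lt ?_
    have h1 : (D0 : ℝ) < D := by exact_mod_cast hD
    have h2 : 1 / δ < D := hD0.trans h1
    have h3 : (0 : ℝ) < D := lt_trans (by positivity) h2
    rw [div_lt_iff₀ hδ] at h2
    rw [div_lt_iff₀ h3]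
    linarith
  obtain ⟨D, hD, hDpos⟩ := (((Filter.eventually_all_finite hK.fin).2 hev).and
    (Filter.eventually_gt_atTop 0)).exists
  have hDR : (0 : ℝ) < (D : ℝ) := by exact_mod_cast hDpos
  have hDZ : (0 : ℤ) < (D : ℤ) := by exact_mod_cast hDpos
  set F₁ : (V → ℤ) → (J → ℤ) := fun v =>
    rnd (fun j => (M₁ : ℝ) * real F (fun i => (v i : ℝ) / D) j) with hF₁
  have hEq : Equi τV τJ F₁ := by
    intro v
    have h1 : (fun i => ((actP τV v i : ℤ) : ℝ) / D) = actP τV (fun i => (v i : ℝ) / D) := rfl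
    have h2 := real_equi τV τJ F hF (fun i => (v i : ℝ) / D)
    simp only [hF₁]
    rw [h1, h2]
    exact round_equi τJ (fun j => (M₁ : ℝ) * real F (fun i => (v i : ℝ) / D) j)
  -- images of the small cubes
  have hsmall : ∀ c ∈ K, ∀ Q : Cube V, Q.InM D c →
      ∃ S ∈ Grd M₁ (Spn F c), ∀ v, Q.Has v → S.Has (F₁ v) := by
    intro c hc Q hQ
    obtain ⟨S₀, -, hS₀⟩ := hFv c hc
    obtain ⟨S, hSp, -, hS⟩ := spn_eq F c S₀ hS₀
    have hbody : ∀ v, Q.Has v → (fun i => (v i : ℝ) / D) ∈ c.body := by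
      intro v hv i
      have h1 := hQ i
      have h2 := hv i
      have h3 : (D : ℤ) * c.lo i ≤ v i := h1.1.trans h2.1
      have h4 : v i ≤ (D : ℤ) * c.hi i := h2.2.trans h1.2
      have h5 : (D : ℝ) * c.lo i ≤ v i := by exact_mod_cast h3
      have h6 : (v i : ℝ) ≤ (D : ℝ) * c.hi i := by exact_mod_cast h4
      refine ⟨?_, ?_⟩
      · rw [le_div_iff₀ hDR, mul_comm]
        exact h5
      · rw [div_le_iff₀ hDR, mul_comm]
        exact h6
    obtain ⟨R, hR, hRh⟩ := round_cube (Grd M₁ (Faces S)) (closed_grd M₁ (Faces S))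
      {y | ∃ v, Q.Has v ∧ y = fun j => (M₁ : ℝ) * real F (fun i => (v i : ℝ) / D) j}
      ⟨_, Q.lo, Q.has_lo, rfl⟩
      (by
        rintro y ⟨v, hv, rfl⟩
        refine c9_body_grd M₁ hM₁ S _ fun j => ?_
        have h1 := real_mem F c S hS _ (hbody v hv) j
        exact ⟨mul_le_mul_of_nonneg_left h1.1 hM1.le, mul_le_mul_of_nonneg_left h1.2 hM1.le⟩)
      (by
        rintro y ⟨v, hv, rfl⟩ z ⟨w, hw, rfl⟩ j
        have h1 := hD c hc _ (hbody v hv) _ (hbody w hw) (fun i => by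
          have h2 := hv i
          have h3 := hw i
          have h4 := c9_hi_le Q i
          have h5 : |(v i : ℝ) - w i| ≤ 1 := by
            rw [abs_le]
            have h6 : -1 ≤ v i - w i := by omega
            have h7 : v i - w i ≤ 1 := by omega
            exact ⟨by exact_mod_cast h6, by exact_mod_cast h7⟩
          rw [← sub_div, abs_div, abs_of_pos hDR]
          exact div_le_div_of_nonneg_right h5 hDR.le) j
        rw [← mul_sub, abs_mul, abs_of_pos hM1]
        calc (M₁ : ℝ) * |real F (fun i => (v i : ℝ) / D) j - real F (fun i => (w i : ℝ) / D) j|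
            < (M₁ : ℝ) * (1 / (2 * M₁)) := mul_lt_mul_of_pos_left h1 hM1
          _ = 1 / 2 := by field_simp)
    refine ⟨R, ?_, fun v hv => hRh _ ⟨v, hv, rfl⟩⟩
    rw [hSp]
    exact hR
  have hVM : VMap (Grd D K) Set.univ F₁ := by
    rintro Q ⟨c, hc, hQ⟩
    obtain ⟨S, -, hS⟩ := hsmall c hc Q hQ
    exact ⟨S, Set.mem_univ _, hS⟩
  obtain ⟨M, F', hM, hE', hAx, hst⟩ := stag (Grd D K) τV τJ (c9_src_grd D hDpos K τV hK) hfr hJ
    F₁ hEq hVM
  refine ⟨D * M, F', Nat.mul_pos hDpos hM, hE', ?_, ?_⟩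
  · rw [← grd_grd D M K hDpos hM]
    exact hAx
  · intro c hc Q hQ
    have h1 : Q ∈ Grd M (Grd D (Faces c)) := by
      rw [grd_grd D M (Faces c) hDpos hM]
      exact ⟨c, Cube.le_refl' c, hQ⟩
    obtain ⟨c', ⟨P, hPc, hc'P⟩, hQc'⟩ := h1
    have hc'c : c'.InM D c := by
      intro j
      have h2 := hc'P j
      have h3 := hPc j
      exact ⟨(mul_le_mul_of_nonneg_left h3.1 hDZ.le).trans h2.1,
        h2.2.trans (mul_le_mul_of_nonneg_left h3.2 hDZ.le)⟩
    obtain ⟨S, hS, hSd, hSh⟩ := hst c' ⟨c, hc, hc'c⟩ Q hQc'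
    obtain ⟨R, hR, hRh⟩ := hsmall c hc c' hc'c
    exact ⟨S, c9_grd_mono hR (spn_sub F₁ c' R hRh hS), hSd, hSh⟩

/-- the grids of a source complex are source complexes -/
theorem src_grd {n N : ℕ} (M : ℕ) (hM : 0 < M) (K : Set (Cube V)) (τ : Equiv.Perm V)
    (hK : Src n N K τ) : Src n N (Grd M K) τ :=
  c9_src_grd M hM K τ hK

end AGE
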