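import Pool.Agent.AGE.ASM0
import Pool.Agent.AGE.C1b
import Pool.Agent.AGE.C2a
import Pool.Agent.AGE.C2b
import Pool.Agent.AGE.C3
import Pool.Agent.AGE.C4b
import Pool.Agent.AGE.C5
import Pool.Agent.AGE.C6a
import Pool.Agent.AGE.C6b
import Pool.Agent.AGE.C8
import Pool.Agent.AGE.C9

/-!
# AGE-ASM9: refinement of the map between the approximations, comparison of the chain maps

Plan. `Sup` collects the properties of the spans `sp c` of a vertex map `b : K' → K`. `sup_exists`: `sp c` by choice from `spn_eq` (with `S₀ ∈ K` from `hb`): `Spn b c = Faces (sp c)`; `sp c ∈ K` because it is a face of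
`S₀`; monotone by `spn_mono` (`sp d ∈ Spn b d ⊆ Spn b c = Faces (sp c)`); equivariant: `spn_act` and `Cube.le_antisymm'`.
`asm_cmp`: `bs` by `push_exists_equi` (target order: `τV ^ N' = 1` because `N ∣ N'`, `hK.ord`); its values are in `CC (Spn b c) c.dim = CC (Faces (sp c)) c.dim`. `Mc`, `b1` by `refine` (C9) for `b` with `M₁ := M`
(`Spn b c = Faces (sp c)`); `pb` by `push_exists_equi` on `Grd Mc K'` (`src_grd`), a vertex map by the span property (for `Q ∈ Grd Mc K'` take its parent). `θ` by `carrier_unique` with carriers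
`C c := Grd M (Faces (sp c))` (`Car`: `closed_grd`, monotone from `sp` monotone, equivariant by `Cube.act_inM` and `Cube.act_le`), acyclic in all degrees by `acy_grd`, for the two chain maps `sub M ∘ bs` and `pb ∘ sub Mc`
(carried: `sub_mem`, and for `pb`: `sub Mc (one c)` is a chain of cubes `Q` with `Q.InM Mc c`, `pb (one Q) ∈ CC (Spn b1 Q) Q.dim`, `Spn b1 Q ⊆ Faces S`, `S ∈ Grd M (Faces (sp c))`; chain maps: `sub_bd`, `Push.chn`
extended by `eq_of_one`; `eps`: `Push.vtx`, `sub_pt`, `eps_pt`; equivariant: `sub_act` and the equivariance of `bs`, `pb` on cubes extended to chains by `eq_of_one` applied to `pb ∘ act τW` and `act τV ∘ pb`).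
-/

set_option autoImplicit false

noncomputable section

namespace AGE

variable {V J W : Type} [LinearOrder V] [LinearOrder J] [LinearOrder W]

/-- `sp` gives the spans of the vertex map `b : K' → K` -/
structure Sup (K' : Set (Cube W)) (K : Set (Cube V)) (τW : Equiv.Perm W) (τV : Equiv.Perm V)
    (b : (W → ℤ) → (V → ℤ)) (sp : Cube W → Cube V) : Prop where
  spn : ∀ c ∈ K', Spn b c = Faces (sp c)
  mem : ∀ c ∈ K', sp c ∈ K
  mon : ∀ c ∈ K', ∀ d : Cube W, d.Le c → (sp d).Le (sp c)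
  equ : ∀ c ∈ K', sp (c.act τW) = (sp c).act τV
  has : ∀ c ∈ K', ∀ v, c.Has v → (sp c).Has (b v)
  min : ∀ c ∈ K', ∀ S : Cube V, (∀ v, c.Has v → S.Has (b v)) → (sp c).Le S

theorem sup_exists (K' : Set (Cube W)) (hK' : Closed K') (K : Set (Cube V)) (hK : Closed K)
    (τW : Equiv.Perm W) (hi : Inv τW K') (τV : Equiv.Perm V) (b : (W → ℤ) → (V → ℤ))
    (hbe : Equi τW τV b) (hb : VMap K' K b) : ∃ sp : Cube W → Cube V, Sup K' K τW τV b sp := by
  have h : ∀ c : Cube W, ∃ S : Cube V, c ∈ K' →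
      (S ∈ K ∧ Spn b c = Faces S ∧ ∀ v, c.Has v → S.Has (b v)) := by
    intro c
    by_cases hc : c ∈ K'
    · obtain ⟨S₀, hS₀, h₀⟩ := hb c hc
      obtain ⟨S, h1, h2, h3⟩ := spn_eq b c S₀ h₀
      exact ⟨S, fun _ => ⟨hK S₀ hS₀ S h2, h1, h3⟩⟩
    · exact ⟨pt 0, fun h => absurd h hc⟩
  choose sp hsp using h
  have hself : ∀ c ∈ K', sp c ∈ Spn b c := by
    intro c hc
    rw [(hsp c hc).2.1]
    exact Cube.le_refl' _
  refine ⟨sp, ⟨fun c hc => (hsp c hc).2.1, fun c hc => (hsp c hc).1, ?_, ?_,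
    fun c hc => (hsp c hc).2.2, fun c hc S hS => hself c hc S hS⟩⟩
  · intro c hc d hd
    have h1 := spn_mono b c d hd (hself d (hK' c hc d hd))
    rw [(hsp c hc).2.1] at h1
    exact h1
  · intro c hc
    have hc' : c.act τW ∈ K' := (hi c).1 hc
    apply Cube.le_antisymm'
    · have h1 : ((sp (c.act τW)).act τV.symm).act τV = sp (c.act τW) := by
        rw [← Cube.act_mul]
        have : τV * τV.symm = 1 := mul_inv_cancel τV
        rw [this, Cube.act_one']
      have h2 : (sp (c.act τW)).act τV.symm ∈ Spn b c := by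
        rw [spn_act τW τV b hbe, h1]
        exact hself _ hc'
      rw [(hsp c hc).2.1] at h2
      have h3 := (Cube.act_le τV _ _).2 h2
      rwa [h1] at h3
    · have h1 := (spn_act τW τV b hbe c (sp c)).1 (hself c hc)
      rw [(hsp _ hc').2.1] at h1
      exact h1

private theorem asm9_faces_mono {P Q : Cube V} (h : P.Le Q) : Faces P ⊆ Faces Q :=
  fun _ hR => Cube.le_trans' hR h

private theorem asm9_grd_mono {K L : Set (Cube V)} (M : ℕ) (h : K ⊆ L) : Grd M K ⊆ Grd M L :=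
  fun _ ⟨P, hP, hQ⟩ => ⟨P, h hP, hQ⟩

private theorem asm9_inM_mono {M : ℕ} {Q P R : Cube V} (h : Q.InM M P) (h' : P.Le R) : Q.InM M R := by
  intro j
  obtain ⟨h1, h2⟩ := h j
  obtain ⟨h3, h4⟩ := h' j
  exact ⟨(mul_le_mul_of_nonneg_left h3 (by positivity)).trans h1,
    h2.trans (mul_le_mul_of_nonneg_left h4 (by positivity))⟩

theorem asm_cmp [Fintype W] (n N N' : ℕ) (hN : N ∣ N') (K : Set (Cube V))
    (τV : Equiv.Perm V) (hK : Src n N K τV) (K' : Set (Cube W)) (τW : Equiv.Perm W)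
    (hK' : Src n N' K' τW) (hfr : ∀ i : W, ∀ a : ℕ, (τW ^ a) i = i → N' ∣ a)
    (b : (W → ℤ) → (V → ℤ)) (hbe : Equi τW τV b) (hb : VMap K' K b) (sp : Cube W → Cube V)
    (hsp : Sup K' K τW τV b sp) (M : ℕ) (hM : 0 < M) (hne : K'.Nonempty → Nonempty V) :
    ∃ (bs : Ch W →ₗ[ℤ] Ch V) (Mc : ℕ) (b1 : (W → ℤ) → (V → ℤ)) (pb θ : Ch W →ₗ[ℤ] Ch V),
      (∀ c ∈ K', bs (one c) ∈ CC (Faces (sp c)) c.dim) ∧
      (∀ c ∈ K', bd (bs (one c)) = bs (bd (one c))) ∧
      (∀ c ∈ K', bs (act τW (one c)) = act τV (bs (one c))) ∧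
      0 < Mc ∧ Equi τW τV b1 ∧ Ax (Grd Mc K') b1 ∧
      (∀ c ∈ K', ∀ Q : Cube W, Q.InM Mc c →
        ∃ S ∈ Grd M (Faces (sp c)), S.dim ≤ Q.dim ∧ ∀ v, Q.Has v → S.Has (b1 v)) ∧
      Push (Grd Mc K') (Spn b1) b1 pb ∧
      (∀ c ∈ Grd Mc K', pb (act τW (one c)) = act τV (pb (one c))) ∧
      (∀ c ∈ K', θ (one c) ∈ CC (Grd M (Faces (sp c))) (c.dim + 1)) ∧
      (∀ c ∈ K', θ (act τW (one c)) = act τV (θ (one c))) ∧
      (∀ c ∈ K', pb (sub Mc (one c)) - sub M (bs (one c)) = bd (θ (one c)) + θ (bd (one c))) := by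
  have hJ : τV ^ N' = 1 := by
    obtain ⟨m, rfl⟩ := hN
    rw [pow_mul, hK.ord, one_pow]
  rcases K'.eq_empty_or_nonempty with hE | hE
  · subst hE
    refine ⟨0, 1, b, 0, 0, fun c hc => absurd hc (Set.notMem_empty c),
      fun c hc => absurd hc (Set.notMem_empty c), fun c hc => absurd hc (Set.notMem_empty c),
      one_pos, hbe, ?_, fun c hc => absurd hc (Set.notMem_empty c), ?_, ?_,
      fun c hc => absurd hc (Set.notMem_empty c), fun c hc => absurd hc (Set.notMem_empty c),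
      fun c hc => absurd hc (Set.notMem_empty c)⟩
    · rintro Q ⟨P, hP, _⟩
      exact absurd hP (Set.notMem_empty P)
    · refine ⟨?_, ?_, ?_⟩
      · rintro v ⟨P, hP, _⟩
        exact absurd hP (Set.notMem_empty P)
      · rintro v ⟨P, hP, _⟩
        exact absurd hP (Set.notMem_empty P)
      · rintro v ⟨P, hP, _⟩
        exact absurd hP (Set.notMem_empty P)
    · rintro v ⟨P, hP, _⟩
      exact absurd hP (Set.notMem_empty P)
  have hNV : Nonempty V := hne hE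
  have hbu : VMap K' Set.univ b := by
    intro Q hQ
    obtain ⟨S, _, hS⟩ := hb Q hQ
    exact ⟨S, Set.mem_univ S, hS⟩
  obtain ⟨bs, hbs, hbsE⟩ := push_exists_equi K' τW τV hK' hJ b hbu hbe
  obtain ⟨Mc, b1, hMc, hb1E, hb1A, hb1⟩ := refine K' τW τV hK' hfr hJ b hbe hbu M hM
  have hb1' : ∀ c ∈ K', ∀ Q : Cube W, Q.InM Mc c →
      ∃ S ∈ Grd M (Faces (sp c)), S.dim ≤ Q.dim ∧ ∀ v, Q.Has v → S.Has (b1 v) := by
    intro c hc Q hQ
    have := hb1 c hc Q hQ
    rwa [hsp.spn c hc] at this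
  have hKg : Src n N' (Grd Mc K') τW := src_grd Mc hMc K' τW hK'
  have hb1u : VMap (Grd Mc K') Set.univ b1 := by
    rintro Q ⟨c, hc, hQ⟩
    obtain ⟨S, _, _, hS⟩ := hb1' c hc Q hQ
    exact ⟨S, Set.mem_univ S, hS⟩
  obtain ⟨pb, hpb, hpbE⟩ := push_exists_equi (Grd Mc K') τW τV hKg hJ b1 hb1u hb1E
  have hbsC : ∀ c ∈ K', bs (one c) ∈ CC (Faces (sp c)) c.dim := by
    intro c hc
    have := hbs.car c hc
    rwa [hsp.spn c hc] at this
  have hoc : ∀ c ∈ K', one c ∈ CC K' c.dim := fun c hc => one_mem hc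
  have hCar : Car K' (fun c => Grd M (Faces (sp c))) τW τV := by
    refine ⟨fun c _ => closed_grd M _, fun c hc d hd => asm9_grd_mono M
      (asm9_faces_mono (hsp.mon c hc d hd)), ?_⟩
    intro c hc Q
    show (∃ P ∈ Faces (sp c), Q.InM M P) ↔ ∃ P ∈ Faces (sp (c.act τW)), (Q.act τV).InM M P
    rw [hsp.equ c hc]
    constructor
    · rintro ⟨P, hP, hQ⟩
      exact ⟨P.act τV, (Cube.act_le τV P (sp c)).2 hP, (Cube.act_inM τV M Q P).2 hQ⟩
    · rintro ⟨P, hP, hQ⟩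
      refine ⟨sp c, Cube.le_refl' _, ?_⟩
      have h1 := asm9_inM_mono hQ hP
      exact (Cube.act_inM τV M Q (sp c)).1 h1
  have h1' : ∀ c ∈ K', pb (sub Mc (one c)) ∈ CC (Grd M (Faces (sp c))) c.dim := by
    intro c hc
    have hsub : sub Mc (one c) ∈ CC (Grd Mc (Faces c)) c.dim :=
      sub_mem Mc (Faces c) c.dim (one_mem (Cube.le_refl' c))
    refine map_mem pb _ ?_ hsub
    rintro Q ⟨d, hd, hQ⟩ hQd
    have hQc : Q.InM Mc c := asm9_inM_mono hQ hd
    obtain ⟨S, hS, _, hSv⟩ := hb1' c hc Q hQc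
    have h2 := hpb.car Q ⟨c, hc, hQc⟩
    rw [hQd] at h2
    refine CC_mono ?_ c.dim h2
    intro P hP
    exact closed_grd M _ S hS P (spn_sub b1 Q S hSv hP)
  have h2g : ∀ c ∈ K', bd (pb (sub Mc (one c))) = pb (sub Mc (bd (one c))) := by
    intro c hc
    rw [sub_bd Mc hMc]
    exact eq_of_one (K := Grd Mc K') (bd ∘ₗ pb) (pb ∘ₗ bd) (fun Q hQ => hpb.chn Q hQ)
      (sub_mem Mc K' c.dim (hoc c hc))
  have h4g : ∀ c ∈ K', pb (sub Mc (act τW (one c))) = act τV (pb (sub Mc (one c))) := by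
    intro c hc
    rw [sub_act]
    exact eq_of_one (K := Grd Mc K') (pb ∘ₗ act τW) (act τV ∘ₗ pb) (fun Q hQ => hpbE Q hQ)
      (sub_mem Mc K' c.dim (hoc c hc))
  obtain ⟨θ, hθ1, hθ2, hθ3⟩ := carrier_unique K' τW τV hK' hJ (fun c => Grd M (Faces (sp c))) hCar
    (fun c _ i _ z hz hb0 he0 => acy_grd M hM (sp c) i z hz hb0 he0)
    (sub M ∘ₗ bs) (pb ∘ₗ sub Mc)
    (fun c hc => sub_mem M _ _ (hbsC c hc)) h1'
    (fun c hc => by
      show bd (sub M (bs (one c))) = sub M (bs (bd (one c)))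
      rw [← sub_bd M hM, hbs.chn c hc])
    h2g
    (fun c hc h0 => by
      obtain ⟨lo, fr⟩ := c
      have hfr0 : fr = ∅ := Finset.card_eq_zero.1 h0
      subst hfr0
      show eps (sub M (bs (one (pt lo)))) = eps (pb (sub Mc (one (pt lo))))
      have hpt : pt (fun j => (Mc : ℤ) * lo j) ∈ Grd Mc K' := by
        refine ⟨pt lo, hc, fun j => ⟨le_rfl, ?_⟩⟩
        show (if j ∈ (∅ : Finset W) then _ else _) ≤ (Mc : ℤ) * (if j ∈ (∅ : Finset W) then _ else _)
        rw [if_neg (Finset.notMem_empty j), if_neg (Finset.notMem_empty j)]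
        exact le_rfl
      rw [hbs.vtx lo hc, eps_sub, sub_pt, hpb.vtx _ hpt, eps_pt, eps_pt])
    (fun c hc => by
      show sub M (bs (act τW (one c))) = act τV (sub M (bs (one c)))
      rw [hbsE c hc, sub_act])
    h4g
  exact ⟨bs, Mc, b1, pb, θ, hbsC, hbs.chn, hbsE, hMc, hb1E, hb1A, hb1', hpb, hpbE, hθ1, hθ3, hθ2⟩

end AGE
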