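import Pool.Agent.AGE.ASM0
import Pool.Agent.AGE.ASM1
import Pool.Agent.AGE.ASM8
import Pool.Agent.AGE.ASM9
import Pool.Agent.AGE.C1a
import Pool.Agent.AGE.C1b
import Pool.Agent.AGE.C2b
import Pool.Agent.AGE.C5
import Pool.Agent.AGE.C6a

/-!
# AGE-ASM11: the coinduced vertex map and its chain map on the new approximation

The composition `F1 ∘ b1` and the chain map `Fp ∘ pb ∘ sub Mc`: carriers, boundaries, augmentation and equivariance.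
-/

set_option autoImplicit false

noncomputable section

namespace AGE

variable {V J W : Type} [LinearOrder V] [LinearOrder J] [LinearOrder W] {N : ℕ} [NeZero N]

private theorem asm11_a {M : ℕ} {Q P c : Cube V} (h : P.Le c) (hQ : Q.InM M P) : Q.InM M c := by
  intro j
  have h1 := hQ j
  have h2 := h j
  have hM : (0 : ℤ) ≤ (M : ℤ) := Int.natCast_nonneg M
  exact ⟨le_trans (mul_le_mul_of_nonneg_left h2.1 hM) h1.1, le_trans h1.2 (mul_le_mul_of_nonneg_left h2.2 hM)⟩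

private theorem asm11_b {M : ℕ} {R S c : Cube V} (h : R.Le S) (hQ : S.InM M c) : R.InM M c := by
  intro j
  have h1 := hQ j
  have h2 := h j
  exact ⟨le_trans h1.1 h2.1, le_trans h2.2 h1.2⟩

private theorem asm11_vm (K : Set (Cube V)) (hKc : Closed K) (M : ℕ)
    (K' : Set (Cube W)) (sp : Cube W → Cube V) (hsp : ∀ c ∈ K', sp c ∈ K)
    (Mc : ℕ) (b1 : (W → ℤ) → (V → ℤ))
    (hb1 : ∀ c ∈ K', ∀ Q : Cube W, Q.InM Mc c →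
      ∃ S ∈ Grd M (Faces (sp c)), S.dim ≤ Q.dim ∧ ∀ v, Q.Has v → S.Has (b1 v)) :
    VMap (Grd Mc K') (Grd M K) b1 := by
  rintro Q ⟨c, hc, hQ⟩
  obtain ⟨S, ⟨P, hP, hS⟩, _, h2⟩ := hb1 c hc Q hQ
  exact ⟨S, ⟨P, hKc _ (hsp c hc) P hP, hS⟩, h2⟩

theorem f2_cel (n : ℕ) (K : Set (Cube V)) (hKc : Closed K) (s : Cube V → Cube J)
    (hs1 : ∀ c ∈ K, ∀ d : Cube V, d.Le c → (s d).Le (s c)) (M : ℕ)
    (F1 : (V → ℤ) → (JJ N J → ℤ))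
    (hF2 : ∀ c ∈ K, ∀ Q : Cube V, Q.InM M c →
      ∃ S ∈ PP n (s c), S.dim ≤ Q.dim ∧ ∀ v, Q.Has v → S.Has (F1 v))
    (K' : Set (Cube W)) (sp : Cube W → Cube V) (hsp : ∀ c ∈ K', sp c ∈ K) (Mc : ℕ)
    (b1 : (W → ℤ) → (V → ℤ))
    (hb1 : ∀ c ∈ K', ∀ Q : Cube W, Q.InM Mc c →
      ∃ S ∈ Grd M (Faces (sp c)), S.dim ≤ Q.dim ∧ ∀ v, Q.Has v → S.Has (b1 v)) :
    ∀ c ∈ K', ∀ Q : Cube W, Q.InM Mc c →
      ∃ S ∈ PP n (s (sp c)), S.dim ≤ Q.dim ∧ ∀ v, Q.Has v → S.Has ((F1 ∘ b1) v) := by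
  intro c hc Q hQ
  obtain ⟨S, ⟨P, hP, hS⟩, h1, h2⟩ := hb1 c hc Q hQ
  obtain ⟨S₂, h3, h4, h5⟩ := hF2 P (hKc _ (hsp c hc) P hP) S hS
  exact ⟨S₂, pp_mono n (hs1 _ (hsp c hc) P hP) h3, le_trans h4 h1, fun v hv => h5 _ (h2 v hv)⟩

theorem f2_push (K : Set (Cube V)) (hKc : Closed K) (M : ℕ) (F1 : (V → ℤ) → (JJ N J → ℤ))
    (Fp : Ch V →ₗ[ℤ] Ch (JJ N J)) (hFp : Push (Grd M K) (Spn F1) F1 Fp)
    (K' : Set (Cube W)) (sp : Cube W → Cube V) (hsp : ∀ c ∈ K', sp c ∈ K)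
    (Mc : ℕ) (b1 : (W → ℤ) → (V → ℤ)) (hAx : Ax (Grd Mc K') b1)
    (hb1 : ∀ c ∈ K', ∀ Q : Cube W, Q.InM Mc c →
      ∃ S ∈ Grd M (Faces (sp c)), S.dim ≤ Q.dim ∧ ∀ v, Q.Has v → S.Has (b1 v))
    (pb : Ch W →ₗ[ℤ] Ch V) (hpb : Push (Grd Mc K') (Spn b1) b1 pb) :
    Push (Grd Mc K') (Spn (F1 ∘ b1)) (F1 ∘ b1) (Fp ∘ₗ pb) :=
  push_comp_ax (Grd Mc K') (closed_grd Mc K') (Grd M K) (closed_grd M K) b1 hAx
    (asm11_vm K hKc M K' sp hsp Mc b1 hb1) F1 pb Fp hpb hFp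

theorem f2_chain {n N₁ N' : ℕ} (K : Set (Cube V)) (τV : Equiv.Perm V) (hK : Src n N₁ K τV)
    (τJ : Equiv.Perm J) (s : Cube V → Cube J)
    (hs1 : ∀ c ∈ K, ∀ d : Cube V, d.Le c → (s d).Le (s c)) (M : ℕ) (hM : 0 < M)
    (F1 : (V → ℤ) → (JJ N J → ℤ))
    (hF2 : ∀ c ∈ K, ∀ Q : Cube V, Q.InM M c →
      ∃ S ∈ PP n (s c), S.dim ≤ Q.dim ∧ ∀ v, Q.Has v → S.Has (F1 v))
    (Fp : Ch V →ₗ[ℤ] Ch (JJ N J)) (hFp : Push (Grd M K) (Spn F1) F1 Fp)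
    (hFe : ∀ c ∈ Grd M K, Fp (act τV (one c)) = act (jjp N τJ) (Fp (one c)))
    (K' : Set (Cube W)) (τW : Equiv.Perm W) (hK' : Src n N' K' τW)
    (sp : Cube W → Cube V) (hsp : ∀ c ∈ K', sp c ∈ K) (Mc : ℕ) (hMc : 0 < Mc)
    (b1 : (W → ℤ) → (V → ℤ))
    (hb1 : ∀ c ∈ K', ∀ Q : Cube W, Q.InM Mc c →
      ∃ S ∈ Grd M (Faces (sp c)), S.dim ≤ Q.dim ∧ ∀ v, Q.Has v → S.Has (b1 v))
    (pb : Ch W →ₗ[ℤ] Ch V) (hpb : Push (Grd Mc K') (Spn b1) b1 pb)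
    (hpe : ∀ c ∈ Grd Mc K', pb (act τW (one c)) = act τV (pb (one c))) :
    (∀ c ∈ K', Fp (pb (sub Mc (one c))) ∈ CC (PP n (s (sp c))) c.dim) ∧
    (∀ c ∈ K', bd (Fp (pb (sub Mc (one c)))) = Fp (pb (sub Mc (bd (one c))))) ∧
    (∀ c ∈ K', c.dim = 0 → eps (Fp (pb (sub Mc (one c)))) = 1) ∧
    (∀ c ∈ K', Fp (pb (sub Mc (act τW (one c)))) =
      act (jjp N τJ) (Fp (pb (sub Mc (one c))))) := by
  have _ := hM
  have _ := hK'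
  have hvm := asm11_vm K hK.clo M K' sp hsp Mc b1 hb1
  have hx : ∀ c ∈ K', sub Mc (one c) ∈ CC (Grd Mc K') c.dim := fun c hc => sub_mem Mc K' c.dim (one_mem hc)
  have hpm : ∀ Q ∈ Grd Mc K', pb (one Q) ∈ CC (Grd M K) Q.dim := by
    intro Q hQ
    obtain ⟨S, hS, h2⟩ := hvm Q hQ
    refine CC_mono ?_ Q.dim (hpb.car Q hQ)
    intro R hR
    exact closed_grd M K S hS R (spn_sub b1 Q S h2 hR)
  have hy : ∀ c ∈ K', pb (sub Mc (one c)) ∈ CC (Grd M K) c.dim := by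
    intro c hc
    refine map_mem pb (CC (Grd M K) c.dim) ?_ (hx c hc)
    intro Q hQ hd
    rw [← hd]
    exact hpm Q hQ
  refine ⟨?_, ?_, ?_, ?_⟩
  · intro c hc
    have h1 : sub Mc (one c) ∈ CC (Grd Mc (Faces c)) c.dim :=
      sub_mem Mc (Faces c) c.dim (one_mem (Cube.le_refl' c))
    have h2 : (Fp ∘ₗ pb) (sub Mc (one c)) ∈ CC (PP n (s (sp c))) c.dim := by
      refine map_mem (Fp ∘ₗ pb) (CC (PP n (s (sp c))) c.dim) ?_ h1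
      rintro Q ⟨P, hP, hQP⟩ hd
      have hQc : Q.InM Mc c := asm11_a hP hQP
      obtain ⟨S, ⟨P', hP', hS⟩, h3, h4⟩ := hb1 c hc Q hQc
      rw [← hd]
      show Fp (pb (one Q)) ∈ CC (PP n (s (sp c))) Q.dim
      refine map_mem Fp (CC (PP n (s (sp c))) Q.dim) ?_ (hpb.car Q ⟨c, hc, hQc⟩)
      intro R hR hRd
      have h5 : R.Le S := spn_sub b1 Q S h4 hR
      have h6 : R.InM M P' := asm11_b h5 hS
      have h7 : P' ∈ K := hK.clo _ (hsp c hc) P' hP'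
      obtain ⟨S₂, h8, _, h9⟩ := hF2 P' h7 R h6
      rw [← hRd]
      refine CC_mono ?_ R.dim (hFp.car R ⟨P', h7, h6⟩)
      intro T hT
      exact closed_pp n (s (sp c)) S₂ (pp_mono n (hs1 _ (hsp c hc) P' hP') h8) T (spn_sub F1 R S₂ h9 hT)
    exact h2
  · intro c hc
    have h1 : (bd ∘ₗ pb) (sub Mc (one c)) = (pb ∘ₗ bd) (sub Mc (one c)) :=
      eq_of_one (bd ∘ₗ pb) (pb ∘ₗ bd) (fun Q hQ => hpb.chn Q hQ) (hx c hc)
    have h2 : (bd ∘ₗ Fp) (pb (sub Mc (one c))) = (Fp ∘ₗ bd) (pb (sub Mc (one c))) :=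
      eq_of_one (bd ∘ₗ Fp) (Fp ∘ₗ bd) (fun Q hQ => hFp.chn Q hQ) (hy c hc)
    rw [sub_bd Mc hMc]
    have h3 : bd (pb (sub Mc (one c))) = pb (bd (sub Mc (one c))) := h1
    have h4 : bd (Fp (pb (sub Mc (one c)))) = Fp (bd (pb (sub Mc (one c)))) := h2
    rw [h4, h3]
  · intro c hc hd
    have h1 : c.fr = ∅ := Finset.card_eq_zero.1 hd
    have h2 : c = pt c.lo := Cube.ext rfl h1
    have h3 : (pt (fun j => (Mc : ℤ) * c.lo j) : Cube W).InM Mc c := by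
      intro j
      have h4 : (pt (fun j => (Mc : ℤ) * c.lo j) : Cube W).hi j = (Mc : ℤ) * c.lo j :=
        if_neg (Finset.notMem_empty j)
      have h5 : c.hi j = c.lo j := by
        unfold Cube.hi
        rw [h1]
        exact if_neg (Finset.notMem_empty j)
      rw [h4, h5]
      exact ⟨le_refl _, le_refl _⟩
    have h6 : pt (fun j => (Mc : ℤ) * c.lo j) ∈ Grd Mc K' := ⟨c, hc, h3⟩
    obtain ⟨S, hS, h7⟩ := hvm _ h6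
    have h8 : pt (b1 (fun j => (Mc : ℤ) * c.lo j)) ∈ Grd M K :=
      closed_grd M K S hS _ (Cube.pt_le.2 (h7 _ (Cube.has_lo _)))
    rw [h2, sub_pt, hpb.vtx _ h6, hFp.vtx _ h8, eps_pt]
  · intro c hc
    have h1 : (pb ∘ₗ act τW) (sub Mc (one c)) = (act τV ∘ₗ pb) (sub Mc (one c)) :=
      eq_of_one (pb ∘ₗ act τW) (act τV ∘ₗ pb) (fun Q hQ => hpe Q hQ) (hx c hc)
    have h2 : (Fp ∘ₗ act τV) (pb (sub Mc (one c))) = (act (jjp N τJ) ∘ₗ Fp) (pb (sub Mc (one c))) :=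
      eq_of_one (Fp ∘ₗ act τV) (act (jjp N τJ) ∘ₗ Fp) (fun Q hQ => hFe Q hQ) (hy c hc)
    have h3 : pb (act τW (sub Mc (one c))) = act τV (pb (sub Mc (one c))) := h1
    have h4 : Fp (act τV (pb (sub Mc (one c)))) = act (jjp N τJ) (Fp (pb (sub Mc (one c)))) := h2
    rw [sub_act, h3, h4]

end AGE
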