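import Pool.Agent.AGE.Defs
import Pool.Agent.AGE.C1b
import Pool.Agent.AGE.C2a
import Pool.Agent.AGE.C9

/-!
# AGE-C12: coloured complexes are source complexes

Plan. `Box S`: finite (`V` finite, `lo` has values in `{0,1}`), closed: a face of `(1_A, B)` is `(1_(A u B'), B'')` with `B', B'' ⊆ B` disjoint. Dimension: `A u B ∈ S` has at most
`n + 2` elements (colours in `0..n+1` are different), `A` nonempty. Invariance: `Col.inv`. Order: `τ^N = 1` by `Col.fre` (`Equiv.ext`). Free: if `c.act (τ^a) = c` then `A` is mapped to itself by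
`τ^a`; an element `v` of `A` goes to an element of `A` of the same colour, so to itself, so `N ∣ a`. Orientation: for `x < y` in `c.fr ⊆ A u B`: colours are different
(`Col.inj`) and `col x ≤ col y` so `col x < col y`, hence `col (τ x) < col (τ y)` and `τ x < τ y` (otherwise `col (τ y) ≤ col (τ x)` by `Col.com`).
-/

set_option autoImplicit false

noncomputable section

namespace AGE

variable {V J : Type} [LinearOrder V] [LinearOrder J]

private theorem c12_col_pow {n N : ℕ} {S : Set (Finset V)} {τ : Equiv.Perm V} {col : V → ℕ}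
    (h : Col n N S τ col) (a : ℕ) (v : V) : col ((τ ^ a) v) = col v := by
  induction a with
  | zero => rfl
  | succ a ih =>
    rw [pow_succ', Equiv.Perm.mul_apply, h.cin, ih]

private theorem c12_act {S : Set (Finset V)} (σ : Equiv.Perm V)
    (hS : ∀ A, A ∈ S → A.map σ.toEmbedding ∈ S) {Q : Cube V} (hQ : Q ∈ Box S) :
    Q.act σ ∈ Box S := by
  obtain ⟨A, h1, h2, h3, h4⟩ := hQ
  refine ⟨A.map σ.toEmbedding, h1.map, ?_, ?_, ?_⟩
  · show Disjoint (A.map σ.toEmbedding) (Q.fr.map σ.toEmbedding)
    rw [Finset.disjoint_map]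
    exact h2
  · show A.map σ.toEmbedding ∪ Q.fr.map σ.toEmbedding ∈ S
    rw [← Finset.map_union]
    exact hS _ h3
  · intro j
    show Q.lo (σ.symm j) = _
    rw [h4]
    simp only [Finset.mem_map_equiv]

private theorem c12_card {n N : ℕ} {S : Set (Finset V)} {τ : Equiv.Perm V} {col : V → ℕ}
    (h : Col n N S τ col) {A : Finset V} (hA : A ∈ S) : A.card ≤ n + 2 := by
  have h1 : A.card ≤ (Finset.range (n + 2)).card := by
    refine Finset.card_le_card_of_injOn col ?_ ?_
    · intro v _
      have := h.cle v
      simp only [Finset.coe_range, Set.mem_Iio]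
      omega
    · intro v hv w hw e
      exact h.inj A hA v hv w hw e
  rwa [Finset.card_range] at h1

theorem src_box {n N : ℕ} [Fintype V] (S : Set (Finset V)) (τ : Equiv.Perm V) (col : V → ℕ)
    (h : Col n N S τ col) : Src n N (Box S) τ := by
  refine ⟨?_, ?_, ?_, ?_, h.pos, ?_, ?_, ?_⟩
  · -- finite
    have h1 : Box S ⊆ Set.range (fun x : Finset V × Finset V =>
        (⟨fun j => if j ∈ x.1 then 1 else 0, x.2⟩ : Cube V)) := by
      rintro Q ⟨A, _, _, _, h4⟩
      refine ⟨(A, Q.fr), ?_⟩
      refine Cube.ext ?_ rfl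
      funext j
      exact (h4 j).symm
    exact (Set.finite_range _).subset h1
  · -- closed
    rintro P ⟨A, hA, hd, hS, hlo⟩ Q hQ
    have hhi : ∀ j, P.hi j ≤ 1 := by
      intro j
      unfold Cube.hi
      rw [hlo j]
      by_cases hj : j ∈ P.fr
      · have hjA : j ∉ A := fun hc => Finset.disjoint_left.1 hd hc hj
        rw [if_pos hj, if_neg hjA]
        norm_num
      · rw [if_neg hj]
        split_ifs <;> norm_num
    have hQ0 : ∀ j, 0 ≤ Q.lo j := by
      intro j
      have := (hQ j).1
      rw [hlo j] at this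
      split_ifs at this <;> omega
    have hQ1 : ∀ j, Q.lo j ≤ 1 := by
      intro j
      have h1 := (hQ j).2
      have h2 := hhi j
      have h3 := (Q.has_lo j).2
      omega
    have hQf : ∀ j ∈ Q.fr, Q.lo j = 0 := by
      intro j hj
      have h1 := (hQ j).2
      have h2 := hhi j
      have h3 : Q.hi j = Q.lo j + 1 := if_pos hj
      have h4 := hQ0 j
      omega
    have hPf := Cube.fr_subset hQ
    refine ⟨(A ∪ P.fr).filter (fun j => Q.lo j = 1), ?_, ?_, ?_, ?_⟩
    · obtain ⟨v, hv⟩ := hA
      refine ⟨v, Finset.mem_filter.2 ⟨Finset.mem_union_left _ hv, ?_⟩⟩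
      have h1 := (hQ v).1
      rw [hlo v, if_pos hv] at h1
      have h2 := hQ1 v
      omega
    · rw [Finset.disjoint_left]
      intro j hj hj'
      have h1 := (Finset.mem_filter.1 hj).2
      have h2 := hQf j hj'
      omega
    · refine h.sub _ hS _ ?_
      intro j hj
      rcases Finset.mem_union.1 hj with hj | hj
      · exact (Finset.mem_filter.1 hj).1
      · exact Finset.mem_union_right _ (hPf hj)
    · intro j
      by_cases hj : Q.lo j = 1
      · have hjm : j ∈ A ∪ P.fr := by
          by_contra hc
          have hc1 : j ∉ A := fun h' => hc (Finset.mem_union_left _ h')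
          have hc2 : j ∉ P.fr := fun h' => hc (Finset.mem_union_right _ h')
          have h1 := (hQ j).2
          have h3 := (Q.has_lo j).2
          have h4 : P.hi j = 0 := by
            unfold Cube.hi
            rw [if_neg hc2, hlo j, if_neg hc1]
          omega
        rw [if_pos (Finset.mem_filter.2 ⟨hjm, hj⟩), hj]
      · have hjm : j ∉ (A ∪ P.fr).filter (fun j => Q.lo j = 1) :=
          fun h' => hj (Finset.mem_filter.1 h').2
        rw [if_neg hjm]
        have h1 := hQ0 j
        have h2 := hQ1 j
        omega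
  · -- dimension
    rintro c ⟨A, hA, hd, hS, _⟩
    have h1 := c12_card h hS
    rw [Finset.card_union_of_disjoint hd] at h1
    have h2 : 0 < A.card := hA.card_pos
    show c.fr.card ≤ n + 1
    omega
  · -- invariance
    intro Q
    constructor
    · intro hQ
      exact c12_act τ (fun A hA => (h.inv A).1 hA) hQ
    · intro hQ
      have h1 : (Q.act τ).act τ⁻¹ ∈ Box S := by
        refine c12_act τ⁻¹ (fun A hA => ?_) hQ
        rw [h.inv, Finset.map_map]
        have e : (Equiv.toEmbedding τ⁻¹).trans τ.toEmbedding = Function.Embedding.refl V := by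
          ext v
          show τ (τ⁻¹ v) = v
          exact τ.apply_symm_apply v
        rw [e, Finset.map_refl]
        exact hA
      rwa [← Cube.act_mul, inv_mul_cancel, Cube.act_one'] at h1
  · -- order
    refine Equiv.ext fun v => ?_
    exact (h.fre v N).2 dvd_rfl
  · -- free
    rintro c ⟨A, ⟨v, hv⟩, hd, hS, hlo⟩ a hc
    have h1 : (c.act (τ ^ a)).lo ((τ ^ a) v) = c.lo v := by
      show c.lo ((τ ^ a).symm ((τ ^ a) v)) = c.lo v
      rw [Equiv.symm_apply_apply]
    rw [hc, hlo, hlo, if_pos hv] at h1
    have h2 : (τ ^ a) v ∈ A := by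
      by_contra hn
      rw [if_neg hn] at h1
      omega
    have h3 := h.inj _ hS _ (Finset.mem_union_left _ h2) _ (Finset.mem_union_left _ hv)
      (c12_col_pow h a v)
    exact (h.fre v a).1 h3
  · -- orientation
    rintro c ⟨A, _, hd, hS, _⟩ x hx y hy hxy
    have h1 : col x ≠ col y := fun e =>
      hxy.ne (h.inj _ hS _ (Finset.mem_union_right _ hx) _ (Finset.mem_union_right _ hy) e)
    have h2 := h.com x y hxy
    rcases lt_trichotomy (τ x) (τ y) with h3 | h3 | h3
    · exact h3
    · exact absurd (τ.injective h3) hxy.ne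
    · have h4 := h.com _ _ h3
      rw [h.cin, h.cin] at h4
      omega

theorem src_grd_box {n N : ℕ} [Fintype V] (S : Set (Finset V)) (τ : Equiv.Perm V) (col : V → ℕ)
    (h : Col n N S τ col) (M : ℕ) (hM : 0 < M) : Src n N (Grd M (Box S)) τ :=
  src_grd M hM (Box S) τ (src_box S τ col h)

end AGE
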