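import Pool.Agent.AGE.ASM0
import Pool.Agent.AGE.C1b
import Pool.Agent.AGE.C2a
import Pool.Agent.AGE.C7a
import Pool.Agent.AGE.C7b
import Pool.Agent.AGE.C9
import Pool.Agent.AGE.C12

/-!
# AGE-ASM12: the state given by the data of the wires

`body_inM`: a point of the body of `Q`, multiplied by `M`, lies in one of the unit cubes of `M` times `Q`. `faces_finite`: a face of
`R` is given by two subsets of the free coordinates. `mk_state`: the structure with the scaled map `κ` and the complex of all faces of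
the cubes `s Q`. `St.F` stays in the control cubes, is equivariant and continuous.
-/

set_option autoImplicit false

noncomputable section

namespace AGE

variable {V J : Type} [LinearOrder V] [LinearOrder J]

private theorem asm12_hi (S : Cube J) (j : J) :
    S.hi j = S.lo j ∧ j ∉ S.fr ∨ S.hi j = S.lo j + 1 ∧ j ∈ S.fr := by
  unfold Cube.hi
  by_cases h : j ∈ S.fr <;> simp [h]

theorem body_inM (M : ℕ) (hM : 0 < M) (Q : Cube J) (x : J → ℝ) (hx : x ∈ Q.body) :
    ∃ P : Cube J, P.InM M Q ∧ (fun j => (M : ℝ) * x j) ∈ P.body := by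
  have hM' : (1 : ℤ) ≤ (M : ℤ) := by exact_mod_cast hM
  have hMr : (0 : ℝ) ≤ (M : ℝ) := Nat.cast_nonneg M
  let P : Cube J := ⟨fun j => if j ∈ Q.fr then min ⌊(M : ℝ) * x j⌋ ((M : ℤ) * Q.hi j - 1)
    else (M : ℤ) * Q.lo j, Q.fr⟩
  have key : ∀ j, (M : ℤ) * Q.lo j ≤ P.lo j ∧ P.hi j ≤ (M : ℤ) * Q.hi j ∧
      (P.lo j : ℝ) ≤ (M : ℝ) * x j ∧ (M : ℝ) * x j ≤ (P.hi j : ℝ) := by
    intro j
    obtain ⟨x1, x2⟩ := hx j
    have y1 : (M : ℝ) * (Q.lo j : ℝ) ≤ (M : ℝ) * x j := mul_le_mul_of_nonneg_left x1 hMr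
    have y2 : (M : ℝ) * x j ≤ (M : ℝ) * (Q.hi j : ℝ) := mul_le_mul_of_nonneg_left x2 hMr
    rcases asm12_hi Q j with ⟨e, hj⟩ | ⟨e, hj⟩
    · have p1 : P.lo j = (M : ℤ) * Q.lo j := if_neg hj
      have p2 : P.hi j = (M : ℤ) * Q.lo j := by rw [Cube.hi, if_neg hj, p1]
      rw [p1, p2]
      rw [e] at y2
      rw [e]
      refine ⟨le_rfl, le_rfl, ?_, ?_⟩
      · push_cast
        exact y1
      · push_cast
        exact y2
    · have p1 : P.lo j = min ⌊(M : ℝ) * x j⌋ ((M : ℤ) * Q.hi j - 1) := if_pos hj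
      have p2 : P.hi j = min ⌊(M : ℝ) * x j⌋ ((M : ℤ) * Q.hi j - 1) + 1 := by
        rw [Cube.hi, if_pos hj, p1]
      have f1 : (M : ℤ) * Q.lo j ≤ ⌊(M : ℝ) * x j⌋ := by
        rw [Int.le_floor]
        push_cast
        exact y1
      have f2 : (M : ℤ) * Q.lo j ≤ (M : ℤ) * Q.hi j - 1 := by
        rw [e, mul_add]
        linarith
      have m1 := min_le_left ⌊(M : ℝ) * x j⌋ ((M : ℤ) * Q.hi j - 1)
      have m2 := min_le_right ⌊(M : ℝ) * x j⌋ ((M : ℤ) * Q.hi j - 1)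
      rw [p1, p2]
      refine ⟨le_min f1 f2, by linarith, ?_, ?_⟩
      · have h1 : ((min ⌊(M : ℝ) * x j⌋ ((M : ℤ) * Q.hi j - 1) : ℤ) : ℝ) ≤ (⌊(M : ℝ) * x j⌋ : ℝ) := by
          exact_mod_cast m1
        exact h1.trans (Int.floor_le _)
      · rcases min_choice ⌊(M : ℝ) * x j⌋ ((M : ℤ) * Q.hi j - 1) with h | h
        · rw [h]
          push_cast
          exact (Int.lt_floor_add_one _).le
        · rw [h]
          push_cast
          linarith
  exact ⟨P, fun j => ⟨(key j).1, (key j).2.1⟩, fun j => ⟨(key j).2.2.1, (key j).2.2.2⟩⟩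

theorem faces_finite (R : Cube J) : (Faces R).Finite := by
  classical
  refine Set.Finite.subset ((R.fr.powerset ×ˢ R.fr.powerset).finite_toSet.image
    (fun z : Finset J × Finset J => (⟨fun j => if j ∈ z.2 then R.lo j + 1 else R.lo j, z.1⟩ : Cube J))) ?_
  intro Q hQ
  have hQ' : Q.Le R := hQ
  refine ⟨(Q.fr, R.fr.filter fun j => Q.lo j = R.lo j + 1), ?_, ?_⟩
  · rw [Finset.mem_coe, Finset.mem_product, Finset.mem_powerset, Finset.mem_powerset]
    exact ⟨Cube.fr_subset hQ', Finset.filter_subset _ _⟩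
  · refine Cube.ext ?_ rfl
    funext j
    show (if j ∈ R.fr.filter (fun j => Q.lo j = R.lo j + 1) then R.lo j + 1 else R.lo j) = Q.lo j
    by_cases hj : j ∈ R.fr.filter fun j => Q.lo j = R.lo j + 1
    · rw [if_pos hj]
      exact (Finset.mem_filter.1 hj).2.symm
    · rw [if_neg hj]
      by_contra hne
      obtain ⟨h1, h2⟩ := hQ' j
      have h3 : Q.lo j ≤ Q.hi j := by
        rcases asm12_hi Q j with ⟨e, _⟩ | ⟨e, _⟩ <;> omega
      rcases asm12_hi R j with ⟨e, hR⟩ | ⟨e, hR⟩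
      · omega
      · exact hj (Finset.mem_filter.2 ⟨hR, by omega⟩)

theorem mk_state (p n : ℕ) [Fact p.Prime] {X : Type} [TopologicalSpace X] (τX : X → X) (q : ℕ)
    (τJ : Equiv.Perm J) (hJ : τJ ^ (p ^ q) = 1) [Fintype V] (τV : Equiv.Perm V) (col : V → ℕ)
    (S : Set (Finset V)) (hcol : Col n (p ^ q) S τV col) (Ms M : ℕ) (hMs : 0 < Ms) (hM : 0 < M)
    (κ : X → V → ℝ) (hκc : Continuous κ) (hκe : ∀ x, κ (τX x) = actP τV (κ x))
    (hκb : ∀ x, κ x ∈ Body (Grd Ms (Box S))) (f : (V → ℤ) → (J → ℤ)) (hf : Equi τV τJ f)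
    (s : Cube V → Cube J)
    (hd : ∀ Q ∈ Grd M (Grd Ms (Box S)), (s Q).dim ≤ n + 2)
    (mon : ∀ Q ∈ Grd M (Grd Ms (Box S)), ∀ P : Cube V, P.Le Q → (s P).Le (s Q))
    (equ : ∀ Q ∈ Grd M (Grd Ms (Box S)), s (Q.act τV) = (s Q).act τJ)
    (has : ∀ Q ∈ Grd M (Grd Ms (Box S)), ∀ v, Q.Has v → (s Q).Has (f v))
    (φ lam nu xi : Ch V →ₗ[ℤ] Ch J)
    (dat : Dat n (Grd M (Grd Ms (Box S))) (fun Q => Faces (s Q)) τV τJ φ lam nu xi) :
    ∃ B : St p n X τX q J τJ,
      (∀ P ∈ B.T, ∃ Q ∈ Grd M (Grd Ms (Box S)), P.Le (s Q)) ∧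
      (∀ x, ∀ c ∈ Grd Ms (Box S), κ x ∈ c.body → ∃ Q : Cube V, Q.InM M c ∧
        B.F x ∈ (s Q).body) := by
  have hG : Grd M (Grd Ms (Box S)) = Grd (Ms * M) (Box S) := grd_grd Ms M (Box S) hMs hM
  have src : Src n (p ^ q) (Grd (Ms * M) (Box S)) τV :=
    src_grd_box S τV col hcol (Ms * M) (Nat.mul_pos hMs hM)
  have hsc : ∀ x, ∀ c ∈ Grd Ms (Box S), κ x ∈ c.body → ∃ Q ∈ Grd (Ms * M) (Box S), Q.InM M c ∧
      (fun v => (M : ℝ) * κ x v) ∈ Q.body := by
    intro x c hc hx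
    obtain ⟨Q, h1, h2⟩ := body_inM M hM c (κ x) hx
    refine ⟨Q, ?_, h1, h2⟩
    rw [← hG]
    exact ⟨c, hc, h1⟩
  rw [hG] at hd mon equ has dat ⊢
  let B : St p n X τX q J τJ :=
    { V := V
      fV := inferInstance
      oV := inferInstance
      τV := τV
      col := col
      S := S
      hcol := hcol
      Ms := Ms * M
      hMs := Nat.mul_pos hMs hM
      κ := fun x v => (M : ℝ) * κ x v
      hκc := continuous_pi fun v => continuous_const.mul ((continuous_apply v).comp hκc)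
      hκe := by
        intro x
        funext v
        show (M : ℝ) * κ (τX x) v = (M : ℝ) * κ x (τV.symm v)
        rw [hκe]
        rfl
      hκb := by
        intro x
        obtain ⟨c, hc, hx⟩ := hκb x
        obtain ⟨Q, hQ, _, h2⟩ := hsc x c hc hx
        exact ⟨Q, hQ, h2⟩
      hJ := hJ
      T := {P | ∃ Q ∈ Grd (Ms * M) (Box S), P.Le (s Q)}
      Tfin := by
        have h1 : {P : Cube J | ∃ Q ∈ Grd (Ms * M) (Box S), P.Le (s Q)} =
            ⋃ Q ∈ Grd (Ms * M) (Box S), Faces (s Q) := by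
          ext P
          simp only [Set.mem_iUnion, exists_prop]
          rfl
        rw [h1]
        exact src.fin.biUnion fun Q _ => faces_finite (s Q)
      Tclo := by
        rintro P ⟨Q, hQ, hP⟩ R hR
        exact ⟨Q, hQ, Cube.le_trans' hR hP⟩
      Tinv := by
        intro P
        constructor
        · rintro ⟨Q, hQ, hP⟩
          refine ⟨Q.act τV, (src.inv Q).1 hQ, ?_⟩
          rw [equ Q hQ, Cube.act_le]
          exact hP
        · rintro ⟨Q, hQ, hP⟩
          have e : (Q.act τV.symm).act τV = Q := by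
            rw [← Cube.act_mul]
            have h1 : τV * τV.symm = 1 := mul_inv_cancel τV
            rw [h1, Cube.act_one']
          have hQ' : Q.act τV.symm ∈ Grd (Ms * M) (Box S) := by
            rw [src.inv, e]
            exact hQ
          refine ⟨Q.act τV.symm, hQ', ?_⟩
          rw [← Cube.act_le τJ, ← equ _ hQ', e]
          exact hP
      Tdim := by
        rintro P ⟨Q, hQ, hP⟩
        exact (Cube.le_dim hP).trans (hd Q hQ)
      f := f
      hf := hf
      s := s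
      sT := fun c hc => ⟨c, hc, Cube.le_refl' _⟩
      smon := mon
      sequ := equ
      shas := has
      φ := φ
      lam := lam
      nu := nu
      xi := xi
      dat := dat }
  refine ⟨B, fun P hP => hP, fun x c hc hx => ?_⟩
  obtain ⟨Q, hQ, h1, h2⟩ := hsc x c hc hx
  exact ⟨Q, h1, real_mem f Q (s Q) (has Q hQ) _ h2⟩

theorem St.F_body {p n : ℕ} {X : Type} [TopologicalSpace X] {τX : X → X} {q : ℕ}
    {τJ : Equiv.Perm J} (A : St p n X τX q J τJ) (x : X) (c : Cube A.V)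
    (hc : c ∈ Grd A.Ms (Box A.S)) (hx : A.κ x ∈ c.body) : A.F x ∈ (A.s c).body :=
  real_mem A.f c (A.s c) (A.shas c hc) (A.κ x) hx

theorem St.F_equi {p n : ℕ} {X : Type} [TopologicalSpace X] {τX : X → X} {q : ℕ}
    {τJ : Equiv.Perm J} (A : St p n X τX q J τJ) (x : X) : A.F (τX x) = actP τJ (A.F x) := by
  unfold St.F
  rw [A.hκe]
  exact real_equi A.τV τJ A.f A.hf (A.κ x)

theorem St.F_cont {p n : ℕ} {X : Type} [TopologicalSpace X] {τX : X → X} {q : ℕ}
    {τJ : Equiv.Perm J} (A : St p n X τX q J τJ) : Continuous A.F :=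
  (real_continuous A.f).comp A.hκc

end AGE
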