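import Pool.Agent.AGE.ASM0
import Pool.Agent.AGE.ASM10
import Pool.Agent.AGE.C1b
import Pool.Agent.AGE.C2a
import Pool.Agent.AGE.C2b
import Pool.Agent.AGE.C3
import Pool.Agent.AGE.C4b
import Pool.Agent.AGE.C5
import Pool.Agent.AGE.C6a
import Pool.Agent.AGE.C6b
import Pool.Agent.AGE.C9

/-!
# AGE-ASM13: step B, chains

The vertex map of a state is refined to a cellular map `F'` of a grid, whose chain map `Fp` is compared with the subdivision of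
the chain map `φ` of the state by the uniqueness of the carried chain maps. The data are transferred by the homotopy.
-/

set_option autoImplicit false

noncomputable section

namespace AGE

variable {V J : Type} [LinearOrder V] [LinearOrder J]

/-- the carriers -/
private theorem ASM13_car (K : Set (Cube V)) (τV : Equiv.Perm V) (τJ : Equiv.Perm J)
    (s : Cube V → Cube J)
    (hs1 : ∀ c ∈ K, ∀ d : Cube V, d.Le c → (s d).Le (s c))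
    (hs2 : ∀ c ∈ K, s (c.act τV) = (s c).act τJ) (M₁ : ℕ) :
    Car K (fun c => Grd M₁ (Faces (s c))) τV τJ where
  clo := fun c _ => closed_grd M₁ (Faces (s c))
  mon := by
    rintro c hc d hdc Q ⟨P, hP, hQ⟩
    exact ⟨P, Cube.le_trans' hP (hs1 c hc d hdc), hQ⟩
  equ := by
    intro c hc Q
    constructor
    · rintro ⟨P, hP, hQ⟩
      refine ⟨P.act τJ, ?_, (Cube.act_inM τJ M₁ Q P).2 hQ⟩
      have h1 : (P.act τJ).Le ((s c).act τJ) := (Cube.act_le τJ P (s c)).2 hP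
      rw [← hs2 c hc] at h1
      exact h1
    · rintro ⟨P, hP, hQ⟩
      have h1 : (P.act τJ⁻¹).act τJ = P := by
        rw [← Cube.act_mul, mul_inv_cancel, Cube.act_one']
      refine ⟨P.act τJ⁻¹, ?_, ?_⟩
      · have h2 : P.Le (s (c.act τV)) := hP
        rw [hs2 c hc, ← h1, Cube.act_le] at h2
        exact h2
      · rw [← h1, Cube.act_inM] at hQ
        exact hQ

/-- the refined vertex map -/
private theorem ASM13_ref {n N : ℕ} [Fintype V] (K : Set (Cube V)) (τV : Equiv.Perm V) (τJ : Equiv.Perm J)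
    (hK : Src n N K τV) (hfr : ∀ i : V, ∀ a : ℕ, (τV ^ a) i = i → N ∣ a) (hJ : τJ ^ N = 1)
    (f : (V → ℤ) → (J → ℤ)) (hf : Equi τV τJ f) (s : Cube V → Cube J)
    (hs3 : ∀ c ∈ K, ∀ v, c.Has v → (s c).Has (f v)) (M₁ : ℕ) (hM₁ : 0 < M₁) :
    ∃ (M₃ : ℕ) (F' : (V → ℤ) → (J → ℤ)), 0 < M₃ ∧ Equi τV τJ F' ∧
      (∀ c ∈ K, ∀ Q : Cube V, Q.InM M₃ c →
        ∃ S ∈ Grd M₁ (Faces (s c)), S.dim ≤ Q.dim ∧ ∀ v, Q.Has v → S.Has (F' v)) := by
  rcases isEmpty_or_nonempty J with hE | hE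
  · refine ⟨1, f, one_pos, hf, fun c hc Q hQ => ⟨s c, ⟨s c, Cube.le_refl' _, fun j => (hE.false j).elim⟩, ?_, ?_⟩⟩
    · have h1 : (s c).dim = 0 := by
        unfold Cube.dim
        rw [Finset.card_eq_zero, Finset.eq_empty_iff_forall_notMem]
        exact fun j => (hE.false j).elim
      omega
    · exact fun v _ j => (hE.false j).elim
  · obtain ⟨M₃, F', h1, h2, _, h3⟩ := AGE.refine K τV τJ hK hfr hJ f hf
      (fun c hc => ⟨s c, Set.mem_univ _, hs3 c hc⟩) M₁ hM₁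
    refine ⟨M₃, F', h1, h2, fun c hc Q hQ => ?_⟩
    obtain ⟨S, ⟨P, hP, hS⟩, hSd, hSv⟩ := h3 c hc Q hQ
    exact ⟨S, ⟨P, spn_sub f c (s c) (hs3 c hc) hP, hS⟩, hSd, hSv⟩

private theorem ASM13_inM {M : ℕ} {Q c : Cube V} (h : Q ∈ Grd M (Faces c)) : Q.InM M c := by
  obtain ⟨P, hP, hQ⟩ := h
  intro j
  have hM : (0 : ℤ) ≤ M := Int.natCast_nonneg M
  exact ⟨(mul_le_mul_of_nonneg_left (hP j).1 hM).trans (hQ j).1,
    (hQ j).2.trans (mul_le_mul_of_nonneg_left (hP j).2 hM)⟩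

theorem asm_B {n N : ℕ} [Fintype V] (K : Set (Cube V)) (τV : Equiv.Perm V) (τJ : Equiv.Perm J)
    (hK : Src n N K τV) (hfr : ∀ i : V, ∀ a : ℕ, (τV ^ a) i = i → N ∣ a) (hJ : τJ ^ N = 1)
    (f : (V → ℤ) → (J → ℤ)) (hf : Equi τV τJ f) (s : Cube V → Cube J)
    (hs1 : ∀ c ∈ K, ∀ d : Cube V, d.Le c → (s d).Le (s c))
    (hs2 : ∀ c ∈ K, s (c.act τV) = (s c).act τJ)
    (hs3 : ∀ c ∈ K, ∀ v, c.Has v → (s c).Has (f v))
    (φ lam nu xi : Ch V →ₗ[ℤ] Ch J)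
    (hD : Dat n K (fun c => Faces (s c)) τV τJ φ lam nu xi) (M₁ : ℕ) (hM₁ : 0 < M₁) :
    Car K (fun c => Grd M₁ (Faces (s c))) τV τJ ∧
    ∃ (M₃ : ℕ) (F' : (V → ℤ) → (J → ℤ)) (Fp lam' nu' xi' : Ch V →ₗ[ℤ] Ch J),
      0 < M₃ ∧ Equi τV τJ F' ∧
      (∀ c ∈ K, ∀ Q : Cube V, Q.InM M₃ c →
        ∃ S ∈ Grd M₁ (Faces (s c)), S.dim ≤ Q.dim ∧ ∀ v, Q.Has v → S.Has (F' v)) ∧
      Push (Grd M₃ K) (Spn F') F' Fp ∧
      Dat n K (fun c => Grd M₁ (Faces (s c))) τV τJ (Fp ∘ₗ sub M₃) lam' nu' xi' := by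
  have hC := ASM13_car K τV τJ s hs1 hs2 M₁
  refine ⟨hC, ?_⟩
  obtain ⟨M₃, F', hM₃, hF', hcel⟩ := ASM13_ref K τV τJ hK hfr hJ f hf s hs3 M₁ hM₁
  have hK₃ := src_grd M₃ hM₃ K τV hK
  obtain ⟨Fp, hFp, hFpe⟩ := push_exists_equi (Grd M₃ K) τV τJ hK₃ hJ F' (by
    rintro Q ⟨c, hc, hQ⟩
    obtain ⟨S, _, _, hS⟩ := hcel c hc Q hQ
    exact ⟨S, Set.mem_univ _, hS⟩) hF'
  have hacy : ∀ c ∈ K, Acyc (Grd M₁ (Faces (s c))) (n + 1) := by
    intro c _ i hi z hz hb h0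
    exact acy_grd M₁ hM₁ (s c) i z hz hb h0
  have hsubK : ∀ c ∈ K, Grd M₃ (Faces c) ⊆ Grd M₃ K := by
    rintro c hc Q ⟨P, hP, hQ⟩
    exact ⟨P, hK.clo c hc P hP, hQ⟩
  have hsub : ∀ c : Cube V, sub M₃ (one c) ∈ CC (Grd M₃ (Faces c)) c.dim := fun c =>
    sub_mem M₃ (Faces c) c.dim (one_mem (Cube.le_refl' c))
  have hsub' : ∀ c ∈ K, sub M₃ (one c) ∈ CC (Grd M₃ K) c.dim := fun c hc =>
    CC_mono (hsubK c hc) _ (hsub c)
  -- the two chain maps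
  have h1 : ∀ c ∈ K, (sub M₁ ∘ₗ φ) (one c) ∈ CC (Grd M₁ (Faces (s c))) c.dim := fun c hc =>
    sub_mem M₁ (Faces (s c)) c.dim (hD.phC c hc)
  have h1' : ∀ c ∈ K, (Fp ∘ₗ sub M₃) (one c) ∈ CC (Grd M₁ (Faces (s c))) c.dim := by
    intro c hc
    rw [LinearMap.comp_apply]
    refine map_mem Fp _ (fun Q hQ hd => ?_) (hsub c)
    obtain ⟨S, hS, _, hSv⟩ := hcel c hc Q (ASM13_inM hQ)
    have h2 := hFp.car Q (hsubK c hc hQ)
    rw [hd] at h2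
    refine CC_mono (fun R hR => ?_) _ h2
    exact closed_grd M₁ (Faces (s c)) S hS R (spn_sub F' Q S hSv hR)
  have h2 : ∀ c ∈ K, bd ((sub M₁ ∘ₗ φ) (one c)) = (sub M₁ ∘ₗ φ) (bd (one c)) := by
    intro c hc
    rw [LinearMap.comp_apply, LinearMap.comp_apply, ← sub_bd M₁ hM₁, hD.phB c hc]
  have h2' : ∀ c ∈ K, bd ((Fp ∘ₗ sub M₃) (one c)) = (Fp ∘ₗ sub M₃) (bd (one c)) := by
    intro c hc
    rw [LinearMap.comp_apply, LinearMap.comp_apply, sub_bd M₃ hM₃]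
    have h3 := eq_of_one (K := Grd M₃ K) (bd ∘ₗ Fp) (Fp ∘ₗ bd) (fun Q hQ => by
      rw [LinearMap.comp_apply, LinearMap.comp_apply]
      exact hFp.chn Q hQ) (hsub' c hc)
    rw [LinearMap.comp_apply, LinearMap.comp_apply] at h3
    exact h3
  have h3 : ∀ c ∈ K, c.dim = 0 → eps ((sub M₁ ∘ₗ φ) (one c)) = 1 := by
    intro c hc hd
    rw [LinearMap.comp_apply, eps_sub]
    exact hD.phE c hc hd
  have h3' : ∀ c ∈ K, c.dim = 0 → eps ((Fp ∘ₗ sub M₃) (one c)) = 1 := by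
    intro c hc hd
    have h4 : c = pt c.lo := Cube.ext rfl (Finset.card_eq_zero.1 hd)
    have h5 : pt (fun j => (M₃ : ℤ) * c.lo j) ∈ Grd M₃ K := by
      refine ⟨c, hc, fun j => ?_⟩
      have h6 : (pt (fun j => (M₃ : ℤ) * c.lo j)).hi j = (M₃ : ℤ) * c.lo j := by
        unfold Cube.hi pt
        simp
      have h7 : c.hi j = c.lo j := by
        unfold Cube.hi
        rw [Finset.card_eq_zero.1 hd, if_neg (Finset.notMem_empty j)]
      rw [h6, h7]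
      exact ⟨le_refl _, le_refl _⟩
    rw [LinearMap.comp_apply, h4, sub_pt]
    have h8 : pt (fun j => (M₃ : ℤ) * (pt c.lo).lo j) = pt (fun j => (M₃ : ℤ) * c.lo j) := rfl
    rw [hFp.vtx _ h5, eps_pt]
  have h4 : ∀ c ∈ K, (sub M₁ ∘ₗ φ) (act τV (one c)) = act τJ ((sub M₁ ∘ₗ φ) (one c)) := by
    intro c hc
    rw [LinearMap.comp_apply, LinearMap.comp_apply, hD.phT c hc, sub_act]
  have h4' : ∀ c ∈ K, (Fp ∘ₗ sub M₃) (act τV (one c)) = act τJ ((Fp ∘ₗ sub M₃) (one c)) := by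
    intro c hc
    rw [LinearMap.comp_apply, LinearMap.comp_apply, sub_act]
    have h5 := eq_of_one (K := Grd M₃ K) (Fp ∘ₗ act τV) (act τJ ∘ₗ Fp) (fun Q hQ => by
      rw [LinearMap.comp_apply, LinearMap.comp_apply]
      exact hFpe Q hQ) (hsub' c hc)
    rw [LinearMap.comp_apply, LinearMap.comp_apply] at h5
    exact h5
  obtain ⟨κ, hκ1, hκ2, hκ3⟩ := carrier_unique K τV τJ hK hJ _ hC hacy (sub M₁ ∘ₗ φ) (Fp ∘ₗ sub M₃)
    h1 h1' h2 h2' (fun c hc hd => by rw [h3 c hc hd, h3' c hc hd]) h4 h4'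
  refine ⟨M₃, F', Fp, sub M₁ ∘ₗ lam - κ, sub M₁ ∘ₗ nu + κ, sub M₁ ∘ₗ xi, hM₃, hF', hcel, hFp, ?_⟩
  refine dat_transfer (N := N) K τV hK τJ _ (sub M₁ ∘ₗ φ) (sub M₁ ∘ₗ lam) (sub M₁ ∘ₗ nu) (sub M₁ ∘ₗ xi)
    (Fp ∘ₗ sub M₃) κ ?_ ?_ ?_ ?_ ?_ hκ1 hκ3 ?_ h1' h2' h3' h4'
  · exact fun c hc hd => sub_mem M₁ (Faces (s c)) _ (hD.laC c hc hd)
  · exact fun c hc hd => sub_mem M₁ (Faces (s c)) _ (hD.nuC c hc hd)
  · exact fun c hc hd => sub_mem M₁ (Faces (s c)) _ (hD.xiC c hc hd)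
  · intro c hc hd
    rw [LinearMap.comp_apply, LinearMap.comp_apply, LinearMap.comp_apply, ← map_add, hD.eqE c hc hd,
      sub_bd M₁ hM₁]
  · intro c hc hd
    have h5 : con τV τJ (sub M₁ ∘ₗ nu) (one c) = sub M₁ (con τV τJ nu (one c)) := by
      unfold con
      simp only [LinearMap.comp_apply]
      rw [sub_act]
    rw [h5, LinearMap.comp_apply, LinearMap.comp_apply, ← map_sub, hD.eqI c hc hd]
  · intro c hc
    have h5 := hκ2 c hc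
    rw [add_assoc, ← h5]
    abel

end AGE
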