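import Pool.Agent.AGE.ASM0
import Pool.Agent.AGE.ASM1
import Pool.Agent.AGE.C1a
import Pool.Agent.AGE.C1b
import Pool.Agent.AGE.C2b
import Pool.Agent.AGE.C5
import Pool.Agent.AGE.C6a

/-!
# AGE-ASM14: the chain map of the new approximation is homotopic to the normalized one

Plan. `f2_hom`: `κ₂ := κ ∘ bs + Fp ∘ θ`. For `c ∈ K'`: `pb (sub Mc (one c)) = sub M (bs (one c)) + bd (θ (one c)) + θ (bd (one c))`; apply `Fp`: `Fp (sub M x) = Fs x + bd (κ x) + κ (bd x)` for chains `x` of `K` (extend `hκ` by `eq_of_one`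
for the two linear maps), `Fp (bd y) = bd (Fp y)` for chains `y` of `Grd M K`; `bs` is a chain map. Carried: `bs (one c) ∈ CC (Faces (sp c)) c.dim`, `κ (one d) ∈ CC (PP n (s d)) (d.dim + 1)`, `d.Le (sp c)`;
`θ (one c) ∈ CC (Grd M (Faces (sp c))) (c.dim + 1)` and for a cube `P.InM M c0`, `c0.Le (sp c)`: `Fp (one P) ∈ CC (Spn F1 P) P.dim`, `Spn F1 P ⊆ Faces S₂ ⊆ PP n (s (sp c))`. Equivariance: the same extension argument.
-/

set_option autoImplicit false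

noncomputable section

namespace AGE

variable {V J W : Type} [LinearOrder V] [LinearOrder J] [LinearOrder W] {N : ℕ} [NeZero N]

theorem f2_hom {n N₁ N' : ℕ} (K : Set (Cube V)) (τV : Equiv.Perm V) (hK : Src n N₁ K τV)
    (τJ : Equiv.Perm J) (s : Cube V → Cube J)
    (hs1 : ∀ c ∈ K, ∀ d : Cube V, d.Le c → (s d).Le (s c)) (M : ℕ) (hM : 0 < M)
    (F1 : (V → ℤ) → (JJ N J → ℤ))
    (hF2 : ∀ c ∈ K, ∀ Q : Cube V, Q.InM M c →
      ∃ S ∈ PP n (s c), S.dim ≤ Q.dim ∧ ∀ v, Q.Has v → S.Has (F1 v))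
    (Fp : Ch V →ₗ[ℤ] Ch (JJ N J)) (hFp : Push (Grd M K) (Spn F1) F1 Fp)
    (hFe : ∀ c ∈ Grd M K, Fp (act τV (one c)) = act (jjp N τJ) (Fp (one c)))
    (κ Fs : Ch V →ₗ[ℤ] Ch (JJ N J))
    (hκ1 : ∀ c ∈ K, κ (one c) ∈ CC (PP n (s c)) (c.dim + 1))
    (hκ2 : ∀ c ∈ K, κ (act τV (one c)) = act (jjp N τJ) (κ (one c)))
    (hκ : ∀ c ∈ K, Fp (sub M (one c)) = Fs (one c) + bd (κ (one c)) + κ (bd (one c)))
    (K' : Set (Cube W)) (τW : Equiv.Perm W) (hK' : Src n N' K' τW)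
    (sp : Cube W → Cube V) (hsp : ∀ c ∈ K', sp c ∈ K) (bs φb θ : Ch W →ₗ[ℤ] Ch V)
    (hb1 : ∀ c ∈ K', bs (one c) ∈ CC (Faces (sp c)) c.dim)
    (hb2 : ∀ c ∈ K', bd (bs (one c)) = bs (bd (one c)))
    (hb3 : ∀ c ∈ K', bs (act τW (one c)) = act τV (bs (one c)))
    (hθ1 : ∀ c ∈ K', θ (one c) ∈ CC (Grd M (Faces (sp c))) (c.dim + 1))
    (hθ2 : ∀ c ∈ K', θ (act τW (one c)) = act τV (θ (one c)))
    (hθ : ∀ c ∈ K', φb (one c) - sub M (bs (one c)) = bd (θ (one c)) + θ (bd (one c))) :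
    ∃ κ₂ : Ch W →ₗ[ℤ] Ch (JJ N J),
      (∀ c ∈ K', κ₂ (one c) ∈ CC (PP n (s (sp c))) (c.dim + 1)) ∧
      (∀ c ∈ K', κ₂ (act τW (one c)) = act (jjp N τJ) (κ₂ (one c))) ∧
      (∀ c ∈ K', Fp (φb (one c)) = Fs (bs (one c)) + bd (κ₂ (one c)) + κ₂ (bd (one c))) := by
  have hGK : ∀ c ∈ K', Grd M (Faces (sp c)) ⊆ Grd M K := by
    rintro c hc Q ⟨P, hP, hQ⟩
    exact ⟨P, hK.clo _ (hsp c hc) P hP, hQ⟩
  have hFK : ∀ c ∈ K', Faces (sp c) ⊆ K := fun c hc P hP => hK.clo _ (hsp c hc) P hP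
  have hbK : ∀ c ∈ K', bs (one c) ∈ CC K c.dim := fun c hc => CC_mono (hFK c hc) _ (hb1 c hc)
  have hθK : ∀ c ∈ K', θ (one c) ∈ CC (Grd M K) (c.dim + 1) := fun c hc =>
    CC_mono (hGK c hc) _ (hθ1 c hc)
  refine ⟨κ ∘ₗ bs + Fp ∘ₗ θ, ?_, ?_, ?_⟩
  · intro c hc
    rw [LinearMap.add_apply, LinearMap.comp_apply, LinearMap.comp_apply]
    apply Submodule.add_mem
    · apply map_mem κ _ _ (hb1 c hc)
      intro d hd hdi
      have h1 := hκ1 d (hFK c hc hd)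
      rw [hdi] at h1
      exact CC_mono (pp_mono n (hs1 (sp c) (hsp c hc) d hd)) _ h1
    · apply map_mem Fp _ _ (hθ1 c hc)
      intro P hP hPd
      have h1 := hFp.car P (hGK c hc hP)
      rw [hPd] at h1
      refine CC_mono ?_ _ h1
      obtain ⟨c0, hc0, hPM⟩ := hP
      obtain ⟨S, hS, -, hS2⟩ := hF2 c0 (hFK c hc hc0) P hPM
      refine (spn_sub F1 P S hS2).trans ?_
      intro R hR
      exact pp_mono n (hs1 (sp c) (hsp c hc) c0 hc0) (closed_pp n (s c0) S hS R hR)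
  · intro c hc
    rw [LinearMap.add_apply, LinearMap.comp_apply, LinearMap.comp_apply, LinearMap.add_apply,
      LinearMap.comp_apply, LinearMap.comp_apply, hb3 c hc, hθ2 c hc, map_add]
    have e1 := eq_of_one (K := K) (κ ∘ₗ act τV) (act (jjp N τJ) ∘ₗ κ)
      (fun d hd => by
        rw [LinearMap.comp_apply, LinearMap.comp_apply]
        exact hκ2 d hd) (hbK c hc)
    have e2 := eq_of_one (K := Grd M K) (Fp ∘ₗ act τV) (act (jjp N τJ) ∘ₗ Fp)
      (fun d hd => by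
        rw [LinearMap.comp_apply, LinearMap.comp_apply]
        exact hFe d hd) (hθK c hc)
    rw [LinearMap.comp_apply, LinearMap.comp_apply] at e1 e2
    rw [e1, e2]
  · intro c hc
    have e1 := eq_of_one (K := K) (Fp ∘ₗ sub M) (Fs + bd ∘ₗ κ + κ ∘ₗ bd)
      (fun d hd => by
        rw [LinearMap.comp_apply, LinearMap.add_apply, LinearMap.add_apply,
          LinearMap.comp_apply, LinearMap.comp_apply]
        exact hκ d hd) (hbK c hc)
    have e2 := eq_of_one (K := Grd M K) (Fp ∘ₗ bd) (bd ∘ₗ Fp)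
      (fun d hd => by
        rw [LinearMap.comp_apply, LinearMap.comp_apply]
        exact (hFp.chn d hd).symm) (hθK c hc)
    rw [LinearMap.comp_apply, LinearMap.add_apply, LinearMap.add_apply,
      LinearMap.comp_apply, LinearMap.comp_apply] at e1
    rw [LinearMap.comp_apply, LinearMap.comp_apply] at e2
    have e3 : φb (one c) = sub M (bs (one c)) + bd (θ (one c)) + θ (bd (one c)) := by
      have := hθ c hc
      rw [sub_eq_iff_eq_add] at this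
      rw [this]
      abel
    rw [e3, map_add, map_add, e1, e2, hb2 c hc]
    simp only [LinearMap.add_apply, LinearMap.comp_apply, map_add]
    abel

end AGE
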