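import Pool.Agent.AGE.ASM0
import Pool.Agent.AGE.ASM12
import Pool.Agent.AGE.C1b
import Pool.Agent.AGE.APX

/-!
# AGE-ASM15: the base state

The state with the one-point target: `apx` with the trivial cover gives the approximation of `X`; the coordinates are
`J = Fin 0`, the chain map is the augmentation.
-/

set_option autoImplicit false

noncomputable section

namespace AGE

open TopologicalSpace

private theorem asm15_sub (P Q : Cube (Fin 0)) : P = Q := by
  apply Cube.ext
  · funext j
    exact j.elim0
  · rw [Finset.eq_empty_of_isEmpty P.fr, Finset.eq_empty_of_isEmpty Q.fr]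

private instance asm15_inst : Subsingleton (Cube (Fin 0)) := ⟨asm15_sub⟩

private theorem asm15_act {V : Type} [LinearOrder V] (τ : Equiv.Perm V) (c : Cube V) :
    act τ (one c) = psg τ c.fr • one (c.act τ) := by
  unfold act one
  rw [Finsupp.linearCombination_single, one_smul]

private theorem asm15_dat {V : Type} [LinearOrder V] (n : ℕ) (K : Set (Cube V))
    (τV : Equiv.Perm V) (φ : Ch V →ₗ[ℤ] Ch (Fin 0))
    (hφ : ∀ c : Cube V, φ (one c) = if c.fr = ∅ then one (pt fun _ => 0) else 0) :
    Dat n K (fun _ => Faces (pt fun _ => 0)) τV (1 : Equiv.Perm (Fin 0)) φ 0 0 0 where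
  phC := by
    intro c _
    rw [hφ]
    by_cases h : c.fr = ∅
    · rw [if_pos h]
      have h1 : c.dim = 0 := Finset.card_eq_zero.2 h
      rw [h1]
      exact one_mem (K := Faces (pt fun _ => 0)) (Q := pt fun _ => 0) (Cube.le_refl' _)
    · rw [if_neg h]
      exact Submodule.zero_mem _
  phB := by
    intro c _
    have h1 : φ (bd (one c)) = 0 := by
      rw [bd_one]
      unfold bdQ
      rw [map_sum]
      refine Finset.sum_eq_zero fun j _ => ?_
      rw [map_smul, map_sub, hφ, hφ]
      have h2 : (c.up j).fr = (c.dn j).fr := rfl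
      rw [h2, sub_self, smul_zero]
    rw [h1, hφ]
    by_cases h : c.fr = ∅
    · rw [if_pos h]
      exact bd_zero (one_mem (K := Faces (pt fun _ => 0)) (Q := pt fun _ => 0) (Cube.le_refl' _))
    · rw [if_neg h, map_zero]
  phE := by
    intro c _ h
    rw [hφ, if_pos (Finset.card_eq_zero.1 h)]
    unfold eps one
    rw [Finsupp.linearCombination_single, one_smul]
    exact if_pos rfl
  phT := by
    intro c _
    rw [asm15_act, map_smul, hφ, hφ]
    by_cases h : c.fr = ∅
    · have h2 : (c.act τV).fr = ∅ := by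
        show c.fr.map τV.toEmbedding = ∅
        rw [h, Finset.map_empty]
      rw [if_pos h, if_pos h2, h, asm15_act, asm15_sub ((pt fun _ => 0 : Cube (Fin 0)).act 1) (pt fun _ => 0),
        psg_one]
      have h3 : psg τV ∅ = 1 := psg_ori τV ∅ (by simp)
      rw [h3]
    · have h2 : ¬ (c.act τV).fr = ∅ := by
        show ¬ c.fr.map τV.toEmbedding = ∅
        rw [Finset.map_eq_empty]
        exact h
      rw [if_neg h, if_neg h2, map_zero, smul_zero]
  laC := by
    intro c _ _
    rw [LinearMap.zero_apply]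
    exact Submodule.zero_mem _
  nuC := by
    intro c _ _
    rw [LinearMap.zero_apply]
    exact Submodule.zero_mem _
  xiC := by
    intro c _ _
    rw [LinearMap.zero_apply]
    exact Submodule.zero_mem _
  eqE := by
    intro c _ h
    have h1 : ¬ c.fr = ∅ := by
      intro h2
      have h3 : c.dim = 0 := Finset.card_eq_zero.2 h2
      omega
    rw [hφ, if_neg h1, LinearMap.zero_apply, LinearMap.zero_apply, map_zero, add_zero]
  eqI := by
    intro c _ _
    unfold con
    rw [LinearMap.zero_comp, LinearMap.comp_zero]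
    simp only [LinearMap.zero_apply, sub_zero]

open Classical in
private theorem asm15_body {V X : Type} [LinearOrder V] [Fintype V] (S : Set (Finset V))
    (ph : V → X → ℝ) (h01 : ∀ v x, 0 ≤ ph v x ∧ ph v x ≤ 1) (x : X) (h1 : ∃ v, ph v x = 1)
    (hS : (Finset.univ.filter fun v => ph v x ≠ 0) ∈ S) :
    (fun v => ph v x) ∈ Body (Grd 1 (Box S)) := by
  set A : Finset V := Finset.univ.filter fun v => ph v x = 1 with hA
  set B : Finset V := Finset.univ.filter fun v => ph v x ≠ 0 ∧ ph v x ≠ 1 with hB
  set Q : Cube V := ⟨fun v => if v ∈ A then 1 else 0, B⟩ with hQ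
  have hmA : ∀ v, v ∈ A ↔ ph v x = 1 := by
    intro v
    rw [hA]
    simp
  have hmB : ∀ v, v ∈ B ↔ (ph v x ≠ 0 ∧ ph v x ≠ 1) := by
    intro v
    rw [hB]
    simp
  have hQB : Q ∈ Box S := by
    refine ⟨A, ?_, ?_, ?_, fun _ => rfl⟩
    · obtain ⟨v, hv⟩ := h1
      exact ⟨v, (hmA v).2 hv⟩
    · rw [Finset.disjoint_left]
      intro v hv hv'
      exact ((hmB v).1 hv').2 ((hmA v).1 hv)
    · have e : A ∪ B = Finset.univ.filter fun v => ph v x ≠ 0 := by
        ext v
        rw [Finset.mem_union, hmA, hmB]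
        simp only [Finset.mem_filter, Finset.mem_univ, true_and]
        constructor
        · rintro (h | h)
          · rw [h]
            norm_num
          · exact h.1
        · intro h
          by_cases h2 : ph v x = 1
          · exact Or.inl h2
          · exact Or.inr ⟨h, h2⟩
      show A ∪ B ∈ S
      rw [e]
      exact hS
  refine ⟨Q, ⟨Q, hQB, ?_⟩, ?_⟩
  · intro j
    push_cast
    constructor <;> omega
  · intro v
    have hlo : Q.lo v = if v ∈ A then 1 else 0 := rfl
    have hfr : v ∈ Q.fr ↔ v ∈ B := Iff.rfl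
    have h2 := h01 v x
    by_cases ha : v ∈ A
    · have hb : v ∉ B := fun hb => ((hmB v).1 hb).2 ((hmA v).1 ha)
      have e1 : Q.lo v = 1 := by rw [hlo, if_pos ha]
      have e2 : Q.hi v = 1 := by
        unfold Cube.hi
        rw [if_neg (fun h => hb (hfr.1 h)), e1]
      rw [e1, e2]
      have e3 := (hmA v).1 ha
      push_cast
      show (1 : ℝ) ≤ ph v x ∧ ph v x ≤ 1
      rw [e3]
      exact ⟨le_rfl, le_rfl⟩
    · have e1 : Q.lo v = 0 := by rw [hlo, if_neg ha]
      by_cases hb : v ∈ B
      · have e2 : Q.hi v = 1 := by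
          unfold Cube.hi
          rw [if_pos (hfr.2 hb), e1]
          norm_num
        rw [e1, e2]
        push_cast
        exact h2
      · have e2 : Q.hi v = 0 := by
          unfold Cube.hi
          rw [if_neg (fun h => hb (hfr.1 h)), e1]
        have e3 : ph v x = 0 := by
          by_contra h3
          exact hb ((hmB v).2 ⟨h3, fun h4 => ha ((hmA v).2 h4)⟩)
        rw [e1, e2]
        push_cast
        show (0 : ℝ) ≤ ph v x ∧ ph v x ≤ 0
        rw [e3]
        exact ⟨le_rfl, le_rfl⟩

/-- the base state, with an empty set of coordinates -/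
theorem base_empty (p : ℕ) [Fact p.Prime] (n : ℕ) {X : Type} [TopologicalSpace X]
    [CompactSpace X] [MetrizableSpace X] [MulAction (Multiplicative ℤ_[p]) X]
    [ContinuousSMul (Multiplicative ℤ_[p]) X]
    (hfree : ∀ (g : Multiplicative ℤ_[p]) (x : X), g • x = x → g = 1)
    (hdim : CovDimLE (Quotient (MulAction.orbitRel (Multiplicative ℤ_[p]) X)) (n + 1)) :
    ∃ P : Pack p n X (fun x => Multiplicative.ofAdd (1 : ℤ_[p]) • x),
      IsEmpty P.J ∧ P.A.T.Nonempty := by
  classical
  obtain ⟨q, V, iF, iO, τ, col, S, ph, _, hcol, hc, h01, hinv, h1, hS, _, _⟩ :=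
    apx p n hfree hdim Unit (fun _ => (Set.univ : Set X)) (fun _ => isOpen_univ)
      (Set.iUnion_const _) 0
  obtain ⟨φ, hφ⟩ := exists_lin (J := V) (J' := Fin 0)
    (fun c => if c.fr = ∅ then one (pt fun _ => 0) else 0)
  refine ⟨{ q := q, J := Fin 0, oJ := inferInstance, τJ := 1, A :=
    { V := V, fV := iF, oV := iO, τV := τ, col := col, S := S, hcol := hcol, Ms := 1,
      hMs := Nat.one_pos, κ := fun x v => ph v x, hκc := continuous_pi fun v => hc v,
      hκe := ?_, hκb := ?_, hJ := one_pow _, T := Set.univ, Tfin := Set.toFinite _,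
      Tclo := fun _ _ _ _ => Set.mem_univ _, Tinv := fun _ => ⟨fun _ => Set.mem_univ _, fun _ => Set.mem_univ _⟩,
      Tdim := ?_, f := fun _ _ => 0, hf := fun _ => rfl, s := fun _ => pt fun _ => 0,
      sT := fun _ _ => Set.mem_univ _, smon := fun _ _ _ _ => Cube.le_refl' _,
      sequ := fun _ _ => asm15_sub _ _, shas := fun _ _ _ _ j => j.elim0,
      φ := φ, lam := 0, nu := 0, xi := 0, dat := asm15_dat n _ τ φ hφ } },
    (inferInstance : IsEmpty (Fin 0)), ⟨pt fun _ => 0, Set.mem_univ _⟩⟩
  · intro x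
    funext v
    have h2 := hinv (τ.symm v) x
    rw [Equiv.apply_symm_apply] at h2
    exact h2
  · intro x
    exact asm15_body S ph h01 x (h1 x) (hS x)
  · intro Q _
    have h2 : Q.fr = ∅ := Finset.eq_empty_of_isEmpty _
    show Q.fr.card ≤ n + 2
    rw [h2, Finset.card_empty]
    exact Nat.zero_le _

theorem base_state (p : ℕ) [Fact p.Prime] (n : ℕ) {X : Type} [TopologicalSpace X]
    [CompactSpace X] [MetrizableSpace X] [MulAction (Multiplicative ℤ_[p]) X]
    [ContinuousSMul (Multiplicative ℤ_[p]) X]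
    (hfree : ∀ (g : Multiplicative ℤ_[p]) (x : X), g • x = x → g = 1)
    (hdim : CovDimLE (Quotient (MulAction.orbitRel (Multiplicative ℤ_[p]) X)) (n + 1)) :
    Nonempty (Pack p n X (fun x => Multiplicative.ofAdd (1 : ℤ_[p]) • x)) := by
  obtain ⟨P, _, _⟩ := base_empty p n hfree hdim
  exact ⟨P⟩

end AGE
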