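import Pool.Agent.AGE.ASM0
import Pool.Agent.AGE.ASM12

/-!
# AGE-ASM16: separation

Plan. `sep_grd`: a cube `Q` of `T' ⊆ Grd M T` lies in `M P`, `P ∈ T`; the coordinate `j` of `P` with `m ≤ P.lo j` works: `M m ≤ M P.lo j ≤ Q.lo j`, `Q.hi (..) ≤ M P.hi (..) ≤ 0`.
`sep_dist`: `A.F x ∈ Q.body` for some `Q ∈ A.T` (`St.F_body` and `A.hκb`, `A.sT`), `j` from `Sep`: `m ≤ F x j`. Let `P := p ^ q` (the order of the state: `τJ ^ P = 1`). `F (τX^[a] x) = actP (τJ ^ a) (F x)` (induction, `St.F_equi`,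
`actP_mul`), so `F (τX^[a] x) j = F x ((τJ ^ a).symm j) = F x ((τJ ^ b) j)` with `b := (P - 1) * a` because `τJ ^ (b + a) = τJ ^ (P * a) = 1`. `N ∣ P`; if `N ∣ b` then `N ∣ b + a - b = a` (`b + a = P * a`), a contradiction; so
`F x ((τJ ^ b) j) ≤ Q.hi ((τJ ^ b) j) ≤ 0`. The distance is `≥ m`.
-/

set_option autoImplicit false

noncomputable section

namespace AGE

variable {J : Type} [LinearOrder J]

theorem sep_grd (T T' : Set (Cube J)) (τJ : Equiv.Perm J) (N m M : ℕ) (h : Sep T τJ N m)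
    (hT : T' ⊆ Grd M T) : Sep T' τJ N (M * m) := by
  intro Q hQ
  obtain ⟨P, hP, hin⟩ := hT hQ
  obtain ⟨j, h1, h2⟩ := h P hP
  have hM : (0 : ℤ) ≤ (M : ℤ) := Int.natCast_nonneg M
  refine ⟨j, ?_, fun a ha => ?_⟩
  · push_cast
    exact (mul_le_mul_of_nonneg_left h1 hM).trans (hin j).1
  · have h3 := h2 a ha
    have h4 := (hin ((τJ ^ a) j)).2
    have h5 : (M : ℤ) * P.hi ((τJ ^ a) j) ≤ 0 := mul_nonpos_of_nonneg_of_nonpos hM h3
    exact h4.trans h5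

private theorem asm16_iter {p n : ℕ} {X : Type} [TopologicalSpace X] {τX : X → X} {q : ℕ}
    {τJ : Equiv.Perm J} (A : St p n X τX q J τJ) (a : ℕ) (x : X) :
    A.F (τX^[a] x) = actP (τJ ^ a) (A.F x) := by
  induction a with
  | zero =>
    rw [Function.iterate_zero, pow_zero]
    rfl
  | succ a ih =>
    rw [Function.iterate_succ_apply', St.F_equi, ih, pow_succ']
    rfl

theorem sep_dist {p n : ℕ} {X : Type} [TopologicalSpace X] {τX : X → X} {q : ℕ}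
    {τJ : Equiv.Perm J} (A : St p n X τX q J τJ) (N m : ℕ) (hN : N ∣ p ^ q)
    (h : Sep A.T τJ N m) (a : ℕ) (ha : ¬ N ∣ a) (x : X) :
    ∃ j, (m : ℝ) ≤ |A.F (τX^[a] x) j - A.F x j| := by
  obtain ⟨c, hc, hx⟩ := A.hκb x
  have hF : A.F x ∈ (A.s c).body := St.F_body A x c hc hx
  obtain ⟨j, h1, h2⟩ := h (A.s c) (A.sT c hc)
  refine ⟨j, ?_⟩
  have hP : 0 < p ^ q := A.hcol.pos
  have hJ : τJ ^ (p ^ q) = 1 := A.hJ
  have hba : (p ^ q - 1) * a + a = p ^ q * a := by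
    obtain ⟨t, ht⟩ : ∃ t, p ^ q = t + 1 := ⟨p ^ q - 1, by omega⟩
    rw [ht, Nat.add_sub_cancel]
    ring
  have hpow : τJ ^ ((p ^ q - 1) * a) * τJ ^ a = 1 := by
    rw [← pow_add, hba, pow_mul, hJ, one_pow]
  have hsym : (τJ ^ a).symm j = (τJ ^ ((p ^ q - 1) * a)) j := by
    have h3 : τJ ^ ((p ^ q - 1) * a) = (τJ ^ a)⁻¹ := eq_inv_of_mul_eq_one_left hpow
    rw [h3]
    rfl
  have hnb : ¬ N ∣ (p ^ q - 1) * a := by
    intro hb
    apply ha
    have h4 : N ∣ (p ^ q - 1) * a + a := by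
      rw [hba]
      exact Dvd.dvd.mul_right hN a
    exact (Nat.dvd_add_right hb).1 h4
  have h5 : A.F (τX^[a] x) j = A.F x ((τJ ^ ((p ^ q - 1) * a)) j) := by
    rw [asm16_iter]
    show A.F x ((τJ ^ a).symm j) = _
    rw [hsym]
  have h6 : A.F (τX^[a] x) j ≤ 0 := by
    rw [h5]
    refine (hF _).2.trans ?_
    exact_mod_cast h2 _ hnb
  have h7 : (m : ℝ) ≤ A.F x j := by
    refine le_trans ?_ (hF j).1
    exact_mod_cast h1
  rw [abs_sub_comm]
  exact le_trans (by linarith) (le_abs_self _)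

end AGE
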