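import Pool.Agent.AGE.ASM0
import Pool.Agent.AGE.ASM1
import Pool.Agent.AGE.PR1
import Pool.Agent.AGE.PR2
import Pool.Agent.AGE.C1b
import Pool.Agent.AGE.C2b

/-!
# AGE-ASM2: the projections `pr g` to the blocks

Everything is checked on the chains `one Q`. If all free coordinates of `Q` are in block `g` then `Q.fr` is the image of the free
coordinates of `blk g Q` (`ASM2_fr`), and faces, signs and permutations correspond. Otherwise a free coordinate `x` is not in block `g`;
the faces in other directions have projection `0`, and the two faces in direction `x` have the same projection.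
-/

set_option autoImplicit false

noncomputable section

namespace AGE

variable {V J : Type} [LinearOrder V] [LinearOrder J] {N : ℕ} [NeZero N]

/-- all free coordinates are in block `g` -/
private def ASM2_B (g : ZMod N) (Q : Cube (JJ N J)) : Prop := ∀ x ∈ Q.fr, ∃ j, x = JJ.a g j

private def ASM2_e (g : ZMod N) : J ↪ JJ N J := ⟨JJ.a g, fun _ _ h => by simpa using h⟩

private theorem ASM2_lt (g : ZMod N) (i j : J) : (JJ.a g i : JJ N J) < JJ.a g j ↔ i < j := by
  have h1 : (JJ.a g i : JJ N J) < JJ.a g j ↔ JJ.code (JJ.a g i : JJ N J) < JJ.code (JJ.a g j : JJ N J) :=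
    Iff.rfl
  rw [h1]
  simp only [JJ.code, Prod.Lex.toLex_lt_toLex, lt_self_iff_false, true_and, false_or,
    WithBot.coe_lt_coe]

private theorem ASM2_in {g : ZMod N} {Q : Cube (JJ N J)} (h : ASM2_B g Q) : prQ g Q = one (blk g Q) := by
  unfold prQ
  exact if_pos h

private theorem ASM2_out {g : ZMod N} {Q : Cube (JJ N J)} (h : ¬ ASM2_B g Q) : prQ g Q = 0 := by
  unfold prQ
  exact if_neg h

private theorem ASM2_fr {g : ZMod N} {Q : Cube (JJ N J)} (h : ASM2_B g Q) :
    Q.fr = (blk g Q).fr.map (ASM2_e g) := by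
  ext x
  rw [Finset.mem_map]
  constructor
  · intro hx
    obtain ⟨j, rfl⟩ := h x hx
    exact ⟨j, (mem_blk g Q j).2 hx, rfl⟩
  · rintro ⟨j, hj, rfl⟩
    exact (mem_blk g Q j).1 hj

private theorem ASM2_dim {g : ZMod N} {Q : Cube (JJ N J)} (h : ASM2_B g Q) : (blk g Q).dim = Q.dim := by
  unfold Cube.dim
  rw [ASM2_fr h, Finset.card_map]

private theorem ASM2_sg {g : ZMod N} {Q : Cube (JJ N J)} (h : ASM2_B g Q) (j : J) :
    sg Q.fr (JJ.a g j) = sg (blk g Q).fr j := by
  unfold sg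
  have h1 : Q.fr.filter (· < JJ.a g j) = ((blk g Q).fr.filter (· < j)).map (ASM2_e g) := by
    ext x
    rw [Finset.mem_filter, Finset.mem_map]
    constructor
    · rintro ⟨hx, hlt⟩
      obtain ⟨i, rfl⟩ := h x hx
      exact ⟨i, Finset.mem_filter.2 ⟨(mem_blk g Q i).2 hx, (ASM2_lt g i j).1 hlt⟩, rfl⟩
    · rintro ⟨i, hi, rfl⟩
      rw [Finset.mem_filter] at hi
      exact ⟨(mem_blk g Q i).1 hi.1, (ASM2_lt g i j).2 hi.2⟩
  rw [h1, Finset.card_map]

private theorem ASM2_up (g : ZMod N) (Q : Cube (JJ N J)) (j : J) :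
    blk g (Q.up (JJ.a g j)) = (blk g Q).up j := by
  apply Cube.ext
  · funext i
    show Function.update Q.lo (JJ.a g j) (Q.lo (JJ.a g j) + 1) (JJ.a g i) =
      Function.update (fun i => Q.lo (JJ.a g i)) j (Q.lo (JJ.a g j) + 1) i
    by_cases hij : i = j
    · subst hij
      rw [Function.update_self, Function.update_self]
    · have h1 : (JJ.a g i : JJ N J) ≠ JJ.a g j := fun h => hij (by simpa using h)
      rw [Function.update_of_ne hij, Function.update_of_ne h1]
  · ext i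
    rw [mem_blk]
    show JJ.a g i ∈ Q.fr.erase (JJ.a g j) ↔ i ∈ (blk g Q).fr.erase j
    rw [Finset.mem_erase, Finset.mem_erase, mem_blk]
    constructor
    · rintro ⟨h1, h2⟩
      exact ⟨fun h => h1 (by rw [h]), h2⟩
    · rintro ⟨h1, h2⟩
      exact ⟨fun h => h1 (by simpa using h), h2⟩

private theorem ASM2_dn (g : ZMod N) (Q : Cube (JJ N J)) (j : J) :
    blk g (Q.dn (JJ.a g j)) = (blk g Q).dn j := by
  apply Cube.ext
  · rfl
  · ext i
    rw [mem_blk]
    show JJ.a g i ∈ Q.fr.erase (JJ.a g j) ↔ i ∈ (blk g Q).fr.erase j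
    rw [Finset.mem_erase, Finset.mem_erase, mem_blk]
    constructor
    · rintro ⟨h1, h2⟩
      exact ⟨fun h => h1 (by rw [h]), h2⟩
    · rintro ⟨h1, h2⟩
      exact ⟨fun h => h1 (by simpa using h), h2⟩

private theorem ASM2_ext {M : Type} [AddCommGroup M] (α β : Ch (JJ N J) →ₗ[ℤ] M)
    (h : ∀ Q, α (one Q) = β (one Q)) : α = β := by
  apply Finsupp.lhom_ext
  intro Q c
  have h2 : (Finsupp.single Q c : Ch (JJ N J)) = c • one Q := by
    unfold one
    rw [Finsupp.smul_single, smul_eq_mul, mul_one]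
  rw [h2, map_smul, map_smul, h Q]

/-- the faces in a direction which is not in block `g` -/
private theorem ASM2_side (g : ZMod N) (Q : Cube (JJ N J)) {x : JJ N J} (hx : ∀ j, x ≠ JJ.a g j) :
    prQ g (Q.up x) = prQ g (Q.dn x) := by
  have h1 : ASM2_B g (Q.up x) ↔ ASM2_B g (Q.dn x) := Iff.rfl
  by_cases h : ASM2_B g (Q.up x)
  · rw [ASM2_in h, ASM2_in (h1.1 h)]
    congr 1
    apply Cube.ext
    · funext i
      show Function.update Q.lo x (Q.lo x + 1) (JJ.a g i) = Q.lo (JJ.a g i)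
      rw [Function.update_of_ne (hx i).symm]
    · rfl
  · rw [ASM2_out h, ASM2_out fun h2 => h (h1.2 h2)]

private theorem ASM2_bdQ (g : ZMod N) (Q : Cube (JJ N J)) : pr g (bdQ Q) =
    ∑ x ∈ Q.fr, sg Q.fr x • (prQ g (Q.up x) - prQ g (Q.dn x)) := by
  unfold bdQ
  rw [map_sum]
  refine Finset.sum_congr rfl fun x _ => ?_
  rw [map_smul, map_sub]
  unfold pr one
  rw [Finsupp.linearCombination_single, Finsupp.linearCombination_single, one_smul, one_smul]

private theorem ASM2_key (g : ZMod N) (Q : Cube (JJ N J)) : pr g (bd (one Q)) = bd (pr g (one Q)) := by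
  have h0 : pr g (one Q) = prQ g Q := by
    unfold pr one
    rw [Finsupp.linearCombination_single, one_smul]
  rw [bd_one, ASM2_bdQ, h0]
  by_cases h : ASM2_B g Q
  · rw [ASM2_in h, bd_one]
    have h1 : ∀ x ∈ Q.fr, ASM2_B g (Q.up x) ∧ ASM2_B g (Q.dn x) := fun x _ =>
      ⟨fun y hy => h y (Finset.mem_of_mem_erase hy), fun y hy => h y (Finset.mem_of_mem_erase hy)⟩
    have h2 : ∑ x ∈ Q.fr, sg Q.fr x • (prQ g (Q.up x) - prQ g (Q.dn x)) =
        ∑ x ∈ (blk g Q).fr.map (ASM2_e g), sg Q.fr x • (prQ g (Q.up x) - prQ g (Q.dn x)) :=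
      Finset.sum_congr (ASM2_fr h) fun _ _ => rfl
    rw [h2, Finset.sum_map]
    unfold bdQ
    refine Finset.sum_congr rfl fun j hj => ?_
    have h3 : JJ.a g j ∈ Q.fr := (mem_blk g Q j).1 hj
    show sg Q.fr (JJ.a g j) • (prQ g (Q.up (JJ.a g j)) - prQ g (Q.dn (JJ.a g j))) = _
    rw [ASM2_sg h, ASM2_in (h1 _ h3).1, ASM2_in (h1 _ h3).2, ASM2_up, ASM2_dn]
  · rw [ASM2_out h, map_zero]
    have h1 : ∃ x ∈ Q.fr, ∀ j, x ≠ JJ.a g j := by
      by_contra hn
      apply h
      intro x hx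
      by_contra hj
      exact hn ⟨x, hx, fun j he => hj ⟨j, he⟩⟩
    obtain ⟨x, hx, hxj⟩ := h1
    refine Finset.sum_eq_zero fun y hy => ?_
    by_cases hyx : y = x
    · rw [hyx, ASM2_side g Q hxj, sub_self, smul_zero]
    · have h2 : x ∈ Q.fr.erase y := Finset.mem_erase.2 ⟨Ne.symm hyx, hx⟩
      have h3 : ¬ ASM2_B g (Q.up y) := fun h4 => by
        obtain ⟨j, hj⟩ := h4 x h2
        exact hxj j hj
      have h5 : ¬ ASM2_B g (Q.dn y) := fun h4 => by
        obtain ⟨j, hj⟩ := h4 x h2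
        exact hxj j hj
      rw [ASM2_out h3, ASM2_out h5, sub_self, smul_zero]

private theorem ASM2_actB (τ : Equiv.Perm J) (g : ZMod N) (Q : Cube (JJ N J)) :
    ASM2_B (g + 1) (Q.act (jjp N τ)) ↔ ASM2_B g Q := by
  constructor
  · intro h y hy
    obtain ⟨j, hj⟩ := h (jjp N τ y) (Finset.mem_map_of_mem _ hy)
    cases y with
    | a g' i =>
      have h1 : (JJ.a (g' + 1) (τ i) : JJ N J) = JJ.a (g + 1) j := hj
      rw [JJ.a.injEq] at h1
      have h2 : g' = g := add_right_cancel h1.1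
      exact ⟨i, by rw [h2]⟩
    | e g' k =>
      have h1 : (JJ.e (g' + 1) k : JJ N J) = JJ.a (g + 1) j := hj
      cases h1
  · intro h x hx
    obtain ⟨y, hy, rfl⟩ := Finset.mem_map.1 hx
    obtain ⟨j, rfl⟩ := h y hy
    exact ⟨τ j, rfl⟩

private theorem ASM2_psg (τ : Equiv.Perm J) {g : ZMod N} {Q : Cube (JJ N J)} (h : ASM2_B g Q) :
    psg (jjp N τ) Q.fr = psg τ (blk g Q).fr := by
  unfold psg
  rw [ASM2_fr h, Finset.prod_map]
  refine Finset.prod_congr rfl fun i _ => ?_
  rw [Finset.prod_map]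
  refine Finset.prod_congr rfl fun j _ => ?_
  have h1 : (ASM2_e g i : JJ N J) < ASM2_e g j ↔ i < j := ASM2_lt g i j
  have h2 : jjp N τ (ASM2_e g j) < jjp N τ (ASM2_e g i) ↔ τ j < τ i := ASM2_lt (g + 1) (τ j) (τ i)
  simp only [h1, h2]

/-- the projection of a chain of `PP n t` is a chain of the `n`-skeleton of `t` -/
theorem pr_mem (n : ℕ) (t : Cube J) (g : ZMod N) (i : ℕ) {x : Ch (JJ N J)}
    (hx : x ∈ CC (PP n t) i) : pr g x ∈ CC (Sk n (Faces t)) i := by
  refine map_mem (K := PP n t) (pr g) _ (fun c hc hd => ?_) hx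
  rw [pr_one]
  by_cases h : ASM2_B g c
  · rw [ASM2_in h, ← hd, ← ASM2_dim h]
    exact one_mem ⟨(hc.1 g).1, (hc.1 g).2⟩
  · rw [ASM2_out h]
    exact Submodule.zero_mem _

theorem pr_top (n : ℕ) (t : Cube J) (g : ZMod N) (i : ℕ) (hi : n < i) {x : Ch (JJ N J)}
    (hx : x ∈ CC (PP n t) i) : pr g x = 0 := by
  have h1 : pr g x ∈ (⊥ : Submodule ℤ (Ch J)) := by
    refine map_mem (K := PP n t) (pr g) _ (fun c hc hd => ?_) hx
    rw [pr_one]
    by_cases h : ASM2_B g c
    · have h2 : (blk g c).dim ≤ n := (hc.1 g).2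
      rw [ASM2_dim h] at h2
      omega
    · rw [ASM2_out h]
      exact Submodule.zero_mem _
  rw [Submodule.mem_bot] at h1
  exact h1

/-- more generally: the projection of the chains of the faces of a cube -/
theorem pr_faces (S : Cube (JJ N J)) (g : ZMod N) (i : ℕ) {x : Ch (JJ N J)}
    (hx : x ∈ CC (Faces S) i) : pr g x ∈ CC (Faces (blk g S)) i := by
  refine map_mem (K := Faces S) (pr g) _ (fun c hc hd => ?_) hx
  rw [pr_one]
  by_cases h : ASM2_B g c
  · rw [ASM2_in h, ← hd, ← ASM2_dim h]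
    exact one_mem (blk_mono g hc)
  · rw [ASM2_out h]
    exact Submodule.zero_mem _

end AGE
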