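import Pool.Agent.AGE.ASM0
import Pool.Agent.AGE.C1b
import Pool.Agent.AGE.C2a

/-!
# AGE-ASM3: the coinduced vertex map

`rho_exists`: an equivariant map to `ZMod N` from representatives of the orbits. `coF_equi`: the coinduced vertex map is equivariant.
`coF_span`: the images of the vertices of a small cube lie in a cube with blocks of dimension at most `n` and join part in the infinite join.
-/

set_option autoImplicit false

noncomputable section

namespace AGE

variable {V J : Type} [LinearOrder V] [LinearOrder J] {N : ℕ} [NeZero N]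

omit [LinearOrder V] [NeZero N] in
private theorem asm3_zpow (τ : Equiv.Perm V) (h : ∀ v, ∀ a : ℕ, (τ ^ a) v = v ↔ N ∣ a) (r : V) (k : ℤ)
    (hk : (τ ^ k) r = r) : (N : ℤ) ∣ k := by
  obtain ⟨a, ha | ha⟩ := Int.eq_nat_or_neg k
  · rw [ha, zpow_natCast] at hk
    rw [ha]
    exact Int.natCast_dvd_natCast.2 ((h r a).1 hk)
  · rw [ha, zpow_neg, zpow_natCast, Equiv.Perm.inv_eq_iff_eq] at hk
    rw [ha]
    exact (dvd_neg (a := (N : ℤ))).2 (Int.natCast_dvd_natCast.2 ((h r a).1 hk.symm))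

omit [LinearOrder V] [NeZero N] in
private theorem asm3_rho (τ : Equiv.Perm V) (h : ∀ v, ∀ a : ℕ, (τ ^ a) v = v ↔ N ∣ a) :
    ∃ ρ : V → ZMod N, ∀ x, ρ (τ x) = ρ x + 1 := by
  have h1 : ∀ x : V, ∃ i : ℤ, (τ ^ i) (Quotient.mk (Equiv.Perm.SameCycle.setoid τ) x).out = x := by
    intro x
    have h2 := Quotient.mk_out (s := Equiv.Perm.SameCycle.setoid τ) x
    exact h2
  choose i hi using h1
  refine ⟨fun x => ((i x : ℤ) : ZMod N), fun x => ?_⟩
  have h3 : Quotient.mk (Equiv.Perm.SameCycle.setoid τ) (τ x) = Quotient.mk (Equiv.Perm.SameCycle.setoid τ) x := by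
    refine Quotient.sound ?_
    exact ⟨-1, by simp⟩
  have h4 := hi (τ x)
  have h5 := hi x
  rw [h3] at h4
  have h6 : (τ ^ (i x + 1)) (Quotient.mk (Equiv.Perm.SameCycle.setoid τ) x).out = τ x := by
    rw [add_comm, zpow_add, Equiv.Perm.mul_apply, h5, zpow_one]
  have h7 : (τ ^ (-(i x + 1) + i (τ x))) (Quotient.mk (Equiv.Perm.SameCycle.setoid τ) x).out =
      (Quotient.mk (Equiv.Perm.SameCycle.setoid τ) x).out := by
    rw [zpow_add, Equiv.Perm.mul_apply, h4, ← h6, zpow_neg, ← Equiv.Perm.mul_apply, inv_mul_cancel,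
      Equiv.Perm.one_apply]
  have h8 := asm3_zpow τ h _ _ h7
  have h9 : ((i x + 1 : ℤ) : ZMod N) = ((i (τ x) : ℤ) : ZMod N) := by
    rw [ZMod.intCast_eq_intCast_iff_dvd_sub]
    have e : i (τ x) - (i x + 1) = -(i x + 1) + i (τ x) := by ring
    rw [e]
    exact h8
  show ((i (τ x) : ℤ) : ZMod N) = ((i x : ℤ) : ZMod N) + 1
  rw [← h9]
  push_cast
  ring

set_option linter.unusedSectionVars false in
theorem rho_exists (τ : Equiv.Perm V) (h : ∀ v, ∀ a : ℕ, (τ ^ a) v = v ↔ N ∣ a) :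
    ∃ ρ : V → ZMod N, ∀ x, ρ (τ x) = ρ x + 1 := asm3_rho τ h

omit [LinearOrder V] [LinearOrder J] [NeZero N] in
private theorem asm3_hcon (τV : Equiv.Perm V) (τJ : Equiv.Perm J) (hV : τV ^ N = 1) (hJ : τJ ^ N = 1)
    (h : (V → ℤ) → (J → ℤ)) (g : ZMod N) (a : ℕ) (ha : (a : ZMod N) = g) (v : V → ℤ) :
    hcon τV τJ h g v = actP (τJ ^ a) (h (actP (τV ^ a).symm v)) := by
  have h1 : g.val = a % N := by rw [← ha, ZMod.val_natCast]
  unfold hcon
  rw [h1, ← pow_eq_pow_mod a hV, ← pow_eq_pow_mod a hJ]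

private theorem asm3_inv (τ : Equiv.Perm V) (K : Set (Cube V)) (h : Inv τ K) (a : ℕ) :
    Inv (τ ^ a) K := by
  induction a with
  | zero =>
    intro Q
    rw [pow_zero, Cube.act_one']
  | succ a ih =>
    intro Q
    rw [pow_succ', Cube.act_mul, ← h]
    exact ih Q

private theorem asm3_back (τ : Equiv.Perm V) (Q : Cube V) (a : ℕ) : (Q.act (τ ^ a).symm).act (τ ^ a) = Q := by
  rw [← Cube.act_mul]
  have e : (τ ^ a) * (τ ^ a).symm = 1 := by
    ext x
    simp
  rw [e, Cube.act_one']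

private theorem asm3_s (τV : Equiv.Perm V) (τJ : Equiv.Perm J) (K : Set (Cube V)) (hK : Inv τV K)
    (s : Cube V → Cube J) (hs2 : ∀ c ∈ K, s (c.act τV) = (s c).act τJ) (a : ℕ) :
    ∀ c ∈ K, s (c.act (τV ^ a)) = (s c).act (τJ ^ a) := by
  induction a with
  | zero =>
    intro c _
    rw [pow_zero, pow_zero, Cube.act_one', Cube.act_one']
  | succ a ih =>
    intro c hc
    rw [pow_succ', pow_succ', Cube.act_mul, Cube.act_mul, hs2 _ ((asm3_inv τV K hK a c).1 hc), ih c hc]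

private theorem asm3_box (S : Set (Finset V)) (τ : Equiv.Perm V)
    (hS : ∀ A, A ∈ S ↔ A.map τ.toEmbedding ∈ S) : Inv τ (Box S) := by
  classical
  intro Q
  constructor
  · rintro ⟨A, hA, hd, hAS, hl⟩
    refine ⟨A.map τ.toEmbedding, hA.map, ?_, ?_, ?_⟩
    · exact (Finset.disjoint_map _).2 hd
    · have h2 := (hS _).1 hAS
      have h4 : A.map τ.toEmbedding ∪ (Q.act τ).fr = (A ∪ Q.fr).map τ.toEmbedding := by
        ext x
        simp only [Finset.mem_union, Finset.mem_map_equiv, Cube.act]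
      exact h4 ▸ h2
    · intro j
      show Q.lo (τ.symm j) = _
      rw [hl]
      by_cases hj : τ.symm j ∈ A
      · rw [if_pos hj, if_pos (Finset.mem_map_equiv.2 hj)]
      · rw [if_neg hj, if_neg fun h => hj (Finset.mem_map_equiv.1 h)]
  · rintro ⟨A, hA, hd, hAS, hl⟩
    have h2 : (A.map τ.symm.toEmbedding).map τ.toEmbedding = A := by
      ext x
      simp only [Finset.mem_map_equiv, Equiv.symm_symm, Equiv.apply_symm_apply]
    refine ⟨A.map τ.symm.toEmbedding, hA.map, ?_, ?_, ?_⟩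
    · rw [← Finset.disjoint_map τ.toEmbedding, h2]
      exact hd
    · rw [hS]
      have h4 : (A.map τ.symm.toEmbedding ∪ Q.fr).map τ.toEmbedding = A ∪ (Q.act τ).fr := by
        ext x
        simp only [Finset.mem_union, Finset.mem_map_equiv, Cube.act, Equiv.symm_symm, Equiv.apply_symm_apply]
      exact h4 ▸ hAS
    · intro j
      have h5 := hl (τ j)
      have h6 : (Q.act τ).lo (τ j) = Q.lo j := by
        show Q.lo (τ.symm (τ j)) = Q.lo j
        rw [Equiv.symm_apply_apply]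
      rw [h6] at h5
      rw [h5]
      by_cases hj : τ j ∈ A
      · rw [if_pos hj, if_pos (Finset.mem_map_equiv.2 hj)]
      · rw [if_neg hj, if_neg fun h => hj (Finset.mem_map_equiv.1 h)]

set_option linter.unusedSectionVars false in
theorem coF_equi (τV : Equiv.Perm V) (τJ : Equiv.Perm J) (hV : τV ^ N = 1) (hJ : τJ ^ N = 1)
    (ρ : V → ZMod N) (hρ : ∀ x, ρ (τV x) = ρ x + 1) (col : V → ℕ)
    (hcol : ∀ v, col (τV v) = col v) (h : (V → ℤ) → (J → ℤ)) :
    Equi τV (jjp N τJ) (coF τV τJ ρ col h) := by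
  classical
  intro v
  funext x
  cases x with
  | a g j =>
    show hcon τV τJ h g (actP τV v) j = hcon τV τJ h (g - 1) v (τJ.symm j)
    have h1 : (((g - 1).val + 1 : ℕ) : ZMod N) = g := by
      push_cast
      rw [ZMod.natCast_zmod_val]
      ring
    have h2 : (((g - 1).val : ℕ) : ZMod N) = g - 1 := ZMod.natCast_zmod_val _
    rw [asm3_hcon τV τJ hV hJ h g _ h1, asm3_hcon τV τJ hV hJ h (g - 1) _ h2]
    have h3 : actP (τV ^ ((g - 1).val + 1)).symm (actP τV v) = actP (τV ^ ((g - 1).val)).symm v := by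
      funext y
      show v (τV.symm ((τV ^ ((g - 1).val + 1)) y)) = v ((τV ^ (g - 1).val) y)
      rw [pow_succ', Equiv.Perm.mul_apply, Equiv.symm_apply_apply]
    rw [h3, pow_succ']
    rfl
  | e g i =>
    show (if ∃ x, 0 < actP τV v x ∧ col x = i ∧ ρ x = g then (1 : ℤ) else 0) =
      (if ∃ x, 0 < v x ∧ col x = i ∧ ρ x = g - 1 then (1 : ℤ) else 0)
    have h1 : (∃ x, 0 < actP τV v x ∧ col x = i ∧ ρ x = g) ↔ (∃ x, 0 < v x ∧ col x = i ∧ ρ x = g - 1) := by
      constructor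
      · rintro ⟨x, h2, h3, h4⟩
        refine ⟨τV.symm x, h2, ?_, ?_⟩
        · rw [← hcol, Equiv.apply_symm_apply]
          exact h3
        · have h5 := hρ (τV.symm x)
          rw [Equiv.apply_symm_apply, h4] at h5
          rw [h5]
          ring
      · rintro ⟨x, h2, h3, h4⟩
        refine ⟨τV x, ?_, ?_, ?_⟩
        · show 0 < v (τV.symm (τV x))
          rw [Equiv.symm_apply_apply]
          exact h2
        · rw [hcol]
          exact h3
        · rw [hρ, h4]
          ring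
    by_cases h2 : ∃ x, 0 < v x ∧ col x = i ∧ ρ x = g - 1
    · rw [if_pos (h1.2 h2), if_pos h2]
    · rw [if_neg fun h3 => h2 (h1.1 h3), if_neg h2]

private theorem asm3_le (Q : Cube V) (x : V) : Q.lo x ≤ Q.hi x := by
  unfold Cube.hi
  split_ifs
  · omega
  · exact le_refl _

theorem coF_span [Fintype V] (n : ℕ) (S : Set (Finset V)) (τV : Equiv.Perm V) (col : V → ℕ)
    (hcol : Col n N S τV col) (Ms : ℕ) (hMs : 0 < Ms) (τJ : Equiv.Perm J) (hJ : τJ ^ N = 1)
    (s : Cube V → Cube J) (hs2 : ∀ c ∈ Grd Ms (Box S), s (c.act τV) = (s c).act τJ) (M : ℕ)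
    (hM : 0 < M) (h : (V → ℤ) → (J → ℤ))
    (hh : ∀ c ∈ Grd Ms (Box S), ∀ Q : Cube V, Q.InM M c →
      ∃ S' : Cube J, S'.Le (s c) ∧ S'.dim ≤ n ∧ ∀ v, Q.Has v → S'.Has (h v))
    (ρ : V → ZMod N) (hρ : ∀ x, ρ (τV x) = ρ x + 1) :
    ∀ c ∈ Grd Ms (Box S), ∀ Q : Cube V, Q.InM M c → ∃ P : Cube (JJ N J),
      (∀ v, Q.Has v → P.Has (coF τV τJ ρ col h v)) ∧
      (∀ g, (blk g P).Le (s c) ∧ (blk g P).dim ≤ n) ∧ EE P := by
  classical
  have _ := hJ
  have _ := hρ
  intro c hc Q hQ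
  have hK : Inv τV (Grd Ms (Box S)) := inv_grd τV Ms _ (asm3_box S τV hcol.inv)
  have hB : ∀ g : ZMod N, ∃ B : Cube J, B.Le (s c) ∧ B.dim ≤ n ∧ ∀ v, Q.Has v → B.Has (hcon τV τJ h g v) := by
    intro g
    have h1 : c.act (τV ^ g.val).symm ∈ Grd Ms (Box S) := by
      rw [asm3_inv τV _ hK g.val, asm3_back]
      exact hc
    have h2 : (Q.act (τV ^ g.val).symm).InM M (c.act (τV ^ g.val).symm) := (Cube.act_inM _ M Q c).2 hQ
    obtain ⟨S', h3, h4, h5⟩ := hh _ h1 _ h2
    have h6 : s c = (s (c.act (τV ^ g.val).symm)).act (τJ ^ g.val) := by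
      rw [← asm3_s τV τJ _ hK s hs2 g.val _ h1, asm3_back]
    refine ⟨S'.act (τJ ^ g.val), ?_, ?_, ?_⟩
    · rw [h6]
      exact (Cube.act_le _ _ _).2 h3
    · rw [Cube.act_dim]
      exact h4
    · intro v hv
      unfold hcon
      rw [Cube.act_has]
      exact h5 _ ((Cube.act_has _ _ _).2 hv)
  choose B hB1 hB2 hB3 using hB
  obtain ⟨b, ⟨A, hA, hd, hAS, hl⟩, hcb⟩ := hc
  have hMs1 : (0 : ℤ) < Ms := by exact_mod_cast hMs
  have hM1 : (0 : ℤ) < M := by exact_mod_cast hM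
  have hpos : ∀ x, 0 ≤ Q.lo x := by
    intro x
    have h1 := (hQ x).1
    have h2 := (hcb x).1
    have h3 : 0 ≤ b.lo x := by
      rw [hl]
      split_ifs
      · exact zero_le_one
      · exact le_refl _
    have h4 : 0 ≤ c.lo x := le_trans (mul_nonneg hMs1.le h3) h2
    exact le_trans (mul_nonneg hM1.le h4) h1
  have hin : ∀ x, 0 < Q.hi x → x ∈ A ∪ b.fr := by
    intro x hx
    by_contra hn
    rw [Finset.mem_union, not_or] at hn
    have h3 : b.hi x = 0 := by
      unfold Cube.hi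
      rw [if_neg hn.2, hl, if_neg hn.1]
    have h1 := (hQ x).2
    have h2 := (hcb x).2
    rw [h3, mul_zero] at h2
    have h4 : (M : ℤ) * c.hi x ≤ 0 := mul_nonpos_of_nonneg_of_nonpos hM1.le h2
    omega
  have hone : ∃ x, 0 < Q.lo x := by
    obtain ⟨x, hx⟩ := hA
    refine ⟨x, ?_⟩
    have h3 : b.lo x = 1 := by
      rw [hl, if_pos hx]
    have h1 := (hQ x).1
    have h2 := (hcb x).1
    rw [h3, mul_one] at h2
    have h4 : 0 < (M : ℤ) * c.lo x := mul_pos hM1 (lt_of_lt_of_le hMs1 h2)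
    omega
  set l : ZMod N → ℕ → ℤ := fun g i => if ∃ x, 0 < Q.lo x ∧ col x = i ∧ ρ x = g then 1 else 0 with hldef
  set r : Finset (ZMod N × ℕ) := (Finset.univ.filter fun x : V => 0 < Q.hi x ∧ l (ρ x) (col x) = 0).image
    (fun x => (ρ x, col x)) with hrdef
  have hl0 : ∀ g i, l g i = 0 ∨ l g i = 1 := by
    intro g i
    rw [hldef]
    show (if _ then (1 : ℤ) else 0) = 0 ∨ (if _ then (1 : ℤ) else 0) = 1
    split_ifs
    · exact Or.inr rfl
    · exact Or.inl rfl
  have hl1 : ∀ g i, l g i = 1 ↔ ∃ x, 0 < Q.lo x ∧ col x = i ∧ ρ x = g := by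
    intro g i
    rw [hldef]
    show (if _ then (1 : ℤ) else 0) = 1 ↔ _
    split_ifs with h1
    · exact ⟨fun _ => h1, fun _ => rfl⟩
    · exact ⟨fun h2 => absurd h2 (by norm_num), fun h2 => absurd h2 h1⟩
  have hr : ∀ g i, (g, i) ∈ r ↔ l g i = 0 ∧ ∃ x, 0 < Q.hi x ∧ col x = i ∧ ρ x = g := by
    intro g i
    rw [hrdef, Finset.mem_image]
    constructor
    · rintro ⟨x, hx, he⟩
      rw [Finset.mem_filter] at hx
      rw [Prod.mk.injEq] at he
      obtain ⟨e1, e2⟩ := he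
      rw [e1, e2] at hx
      exact ⟨hx.2.2, x, hx.2.1, e2, e1⟩
    · rintro ⟨h1, x, h2, h3, h4⟩
      refine ⟨x, Finset.mem_filter.2 ⟨Finset.mem_univ _, h2, ?_⟩, ?_⟩
      · rw [h3, h4]
        exact h1
      · rw [h3, h4]
  have hhi : ∀ g i, (mkC B l r).hi (.e g i) = if (g, i) ∈ r then l g i + 1 else l g i :=
    fun g i => mkC_hi_e B l r g i
  have hhi1 : ∀ g i, (mkC B l r).hi (.e g i) = 1 ↔ ∃ x, 0 < Q.hi x ∧ col x = i ∧ ρ x = g := by
    intro g i
    rw [hhi]
    by_cases h1 : (g, i) ∈ r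
    · rw [if_pos h1]
      have h2 := (hr g i).1 h1
      rw [h2.1]
      exact ⟨fun _ => h2.2, fun _ => by norm_num⟩
    · rw [if_neg h1, hl1]
      constructor
      · rintro ⟨x, h2, h3⟩
        exact ⟨x, lt_of_lt_of_le h2 (asm3_le Q x), h3⟩
      · intro h2
        rcases hl0 g i with h3 | h3
        · exact absurd ((hr g i).2 ⟨h3, h2⟩) h1
        · exact (hl1 g i).1 h3
  have hhi2 : ∀ g i, l g i ≤ (mkC B l r).hi (.e g i) ∧ (mkC B l r).hi (.e g i) ≤ 1 := by
    intro g i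
    rw [hhi]
    by_cases h1 : (g, i) ∈ r
    · rw [if_pos h1]
      have h2 := (hr g i).1 h1
      rw [h2.1]
      constructor
      · norm_num
      · norm_num
    · rw [if_neg h1]
      rcases hl0 g i with h3 | h3
      · rw [h3]
        constructor
        · norm_num
        · norm_num
      · rw [h3]
        constructor
        · norm_num
        · norm_num
  refine ⟨mkC B l r, ?_, ?_, ?_⟩
  · intro v hv x
    cases x with
    | a g j =>
      rw [mkC_lo_a, mkC_hi_a]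
      exact hB3 g v hv j
    | e g i =>
      rw [mkC_lo_e]
      by_cases h1 : ∃ x, 0 < v x ∧ col x = i ∧ ρ x = g
      · have h6 : coF τV τJ ρ col h v (.e g i) = 1 := if_pos h1
        rw [h6]
        obtain ⟨x, h2, h3⟩ := h1
        constructor
        · rcases hl0 g i with h4 | h4
          · rw [h4]
            exact zero_le_one
          · rw [h4]
        · exact ((hhi1 g i).2 ⟨x, lt_of_lt_of_le h2 (hv x).2, h3⟩).ge
      · have h6 : coF τV τJ ρ col h v (.e g i) = 0 := if_neg h1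
        rw [h6]
        have h5 : l g i = 0 := by
          rcases hl0 g i with h4 | h4
          · exact h4
          · obtain ⟨x, h2, h3⟩ := (hl1 g i).1 h4
            exact absurd ⟨x, lt_of_lt_of_le h2 (hv x).1, h3⟩ h1
        constructor
        · rw [h5]
        · rw [← h5]
          exact (hhi2 g i).1
  · intro g
    rw [blk_mkC]
    exact ⟨hB1 g, hB2 g⟩
  · constructor
    · intro g i
      rw [mkC_lo_e]
      refine ⟨?_, (hhi2 g i).2⟩
      rcases hl0 g i with h4 | h4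
      · rw [h4]
      · rw [h4]
        exact zero_le_one
    · refine Set.Finite.subset (Set.finite_range fun x : V => (ρ x, col x)) ?_
      rintro ⟨g, i⟩ hgi
      have h4 : l g i = 1 := hgi
      obtain ⟨x, _, h2, h3⟩ := (hl1 g i).1 h4
      refine ⟨x, ?_⟩
      show (ρ x, col x) = (g, i)
      rw [h2, h3]
    · obtain ⟨x, hx⟩ := hone
      refine ⟨ρ x, col x, ?_⟩
      rw [mkC_lo_e]
      exact (hl1 _ _).2 ⟨x, hx, rfl, rfl⟩
    · intro k g g' h1 h2
      obtain ⟨x, hx, hx2, hx3⟩ := (hhi1 g k).1 h1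
      obtain ⟨y, hy, hy2, hy3⟩ := (hhi1 g' k).1 h2
      have h3 : x = y := hcol.inj _ hAS x (by
        have := hin x hx
        exact this) y (by
        have := hin y hy
        exact this) (hx2.trans hy2.symm)
      rw [← hx3, ← hy3, h3]

end AGE
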