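import Pool.Agent.AGE.ASM0
import Pool.Agent.AGE.ASM1
import Pool.Agent.AGE.C6a
import Pool.Agent.AGE.C8
import Pool.Agent.AGE.C9

/-!
# AGE-ASM4: the staggered coinduced map

The theorem `stag` (C8), applied to the coinduced map on the subdivision `Grd M K`, gives a map which
is carried by the parts `PP n (s c)` of the coinduced complex.
-/

set_option autoImplicit false

noncomputable section

namespace AGE

variable {V J : Type} [LinearOrder V] [LinearOrder J] {N : ℕ} [NeZero N]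

theorem asm_stag [Fintype V] (n : ℕ) (K : Set (Cube V)) (τV : Equiv.Perm V) (τJ : Equiv.Perm J)
    (hK : Src n N K τV) (hfr : ∀ i : V, ∀ a : ℕ, (τV ^ a) i = i → N ∣ a) (hJ : τJ ^ N = 1)
    (s : Cube V → Cube J) (M : ℕ) (hM : 0 < M) (F : (V → ℤ) → (JJ N J → ℤ))
    (hFe : Equi τV (jjp N τJ) F)
    (hFv : ∀ c ∈ K, ∀ Q : Cube V, Q.InM M c → ∃ P : Cube (JJ N J),
      (∀ v, Q.Has v → P.Has (F v)) ∧ (∀ g, (blk g P).Le (s c) ∧ (blk g P).dim ≤ n) ∧ EE P) :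
    ∃ (M' : ℕ) (F1 : (V → ℤ) → (JJ N J → ℤ)), 0 < M' ∧ Equi τV (jjp N τJ) F1 ∧
      (∀ c ∈ Grd M K, ∀ Q : Cube V, Q.InM M' c →
        ∃ S ∈ Spn F c, S.dim ≤ Q.dim ∧ ∀ v, Q.Has v → S.Has (F1 v)) ∧
      (∀ c ∈ K, ∀ Q : Cube V, Q.InM (M * M') c →
        ∃ S ∈ PP n (s c), S.dim ≤ Q.dim ∧ ∀ v, Q.Has v → S.Has (F1 v)) := by
  have hne : Nonempty (JJ N J) := ⟨JJ.e 0 0⟩
  have hV : VMap (Grd M K) Set.univ F := by
    rintro Q ⟨c, hc, hQ⟩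
    obtain ⟨P, hP, -, -⟩ := hFv c hc Q hQ
    exact ⟨P, Set.mem_univ _, hP⟩
  obtain ⟨M', F1, hM', hE, -, hsp⟩ := stag (n := n) (N := N) (Grd M K) τV (jjp N τJ)
    (src_grd M hM K τV hK) hfr (jjp_pow τJ hJ) F hFe hV
  refine ⟨M', F1, hM', hE, hsp, ?_⟩
  intro c hc Q hQ
  have h1 : Q ∈ Grd M' (Grd M (Faces c)) := by
    rw [grd_grd M M' (Faces c) hM hM']
    exact ⟨c, Cube.le_refl' c, hQ⟩
  obtain ⟨c1, ⟨c0, hc0, hc1⟩, hQ1⟩ := h1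
  have hc0' : c0.Le c := hc0
  obtain ⟨S, hS, hd, hv⟩ := hsp c1 ⟨c0, hK.clo c hc c0 hc0', hc1⟩ Q hQ1
  have hMz : (0 : ℤ) ≤ (M : ℤ) := Int.natCast_nonneg M
  have h2 : c1.InM M c := fun j =>
    ⟨(mul_le_mul_of_nonneg_left (hc0' j).1 hMz).trans (hc1 j).1,
      (hc1 j).2.trans (mul_le_mul_of_nonneg_left (hc0' j).2 hMz)⟩
  obtain ⟨P, hP, hb, hEE⟩ := hFv c hc c1 h2
  have h3 : S.Le P := spn_sub F c1 P hP hS
  have h4 : Q.dim ≤ n + 1 := by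
    obtain ⟨P', hP', -, hdim⟩ := grd_dim (M := M * M') (K := K) (Nat.mul_pos hM hM') ⟨c, hc, hQ⟩
    exact hdim.trans (hK.dim P' hP')
  refine ⟨S, pp_of_le n (s c) h3 hb hEE (hd.trans (h4.trans (Nat.le_succ _))), hd, hv⟩

end AGE
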