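import Pool.Agent.AGE.ASM0
import Pool.Agent.AGE.ASM1
import Pool.Agent.AGE.ASM2
import Pool.Agent.AGE.C1b
import Pool.Agent.AGE.C3
import Pool.Agent.AGE.C4b
import Pool.Agent.AGE.C5
import Pool.Agent.AGE.C6a

/-!
# AGE-ASM5: block 0 of the push of the staggered coinduced map

Plan. Put `K1 := Grd M K` (closed, `closed_grd`; dimension `≤ n + 1`, `grd_dim`) and `A := pr 0 ∘ Fp ∘ sub M'` on the chains of `K1`.
(1) For `c1 ∈ K1` and `S ∈ Spn F c1` the cube `blk 0 S` is in `Spn h c1`: let `T0` be a cube containing all `h v`, `v` in `c1`; take `P` from `hFv` (`c1.InM M c`, `c ∈ K`) and the cube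
`P' := mkC (fun g => if g = 0 then T0 else blk g P) (fun g k => P.lo (e g k)) (the finite set of (g, k) with e g k ∈ P.fr)`; it contains all `F v` (`hF0`), so `S.Le P'`, so `(blk 0 S).Le T0`
(`blk_mono`, `blk_mkC`).
(2) `A` is a chain map on `K1` (`sub_bd`, `hFp.chn` extended to chains of `Grd M' K1 = Grd (M * M') K` by `eq_of_one`, `pr_bd`), `A (one c1) ∈ CC (Spn h c1) c1.dim`: `sub M' (one c1)` is a chain of cubes `Q` with
`Q.InM M' c1` (`sub_one_apply`), `Fp (one Q) ∈ CC (Spn F1 Q) Q.dim`, `Spn F1 Q ⊆ Faces S` (`spn_sub`) for the `S ∈ Spn F c1` of `hF1`, `pr_faces` gives a chain of `Faces (blk 0 S) ⊆ Spn h c1` (`Spn h c1` is closed).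
(3) `hp` has the same carriers (`hhp`). `Spn h c1 = Faces S'` with `S'.dim ≤ n` (`spn_eq`, `hh`), acyclic by `acy_faces`; vertices: `eps` is `1` for both (`sub_pt`, `Push.vtx`, `pr_one`). `carrier_unique'` with
`m = n + 1` (monotone by `spn_mono`) gives `κ` with `A - hp = bd κ + κ bd` on `K1`, `κ (one c1) ∈ CC (Spn h c1) (c1.dim + 1)`, which is `0` if `n ≤ c1.dim`.
(4) `k' (one c) := k (one c) + κ (sub M (one c))` for `c ∈ K`, `c.dim < n`, and `0` for the other cubes (`exists_lin`). `A (sub M x) = pr 0 (Fp (sub (M * M') x))` (`sub_sub`);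
`κ (sub M (one c)) ∈ CC (Faces (s c)) (c.dim + 1)` since `Spn h Q ⊆ Faces (s c)` for `Q.InM M c` (`hh`, `spn_sub`). For `c.dim = n` the term `bd κ (sub M c)` is `0`. For `c.dim > n`: `pr_top` with
`Fp (sub (M * M') (one c)) ∈ CC (PP n (s c)) c.dim`; (use `hF2`).
-/

set_option autoImplicit false

noncomputable section

namespace AGE

variable {V J : Type} [LinearOrder V] [LinearOrder J] {N : ℕ} [NeZero N]

private theorem asm5_one_single {c : Cube V} : one c ∈ CC ({c} : Set (Cube V)) c.dim :=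
  one_mem rfl

private theorem asm5_zero {P : Cube J} {i : ℕ} (h : P.dim < i) {x : Ch J} (hx : x ∈ CC (Faces P) i) :
    x = 0 := by
  rw [CC, Finsupp.mem_supported] at hx
  ext Q
  by_contra hQ
  have h1 : Q ∈ (x.support : Set (Cube J)) := by
    rw [Finset.mem_coe, Finsupp.mem_support_iff]
    exact hQ
  obtain ⟨h2, h3⟩ := hx h1
  have h4 := Cube.le_dim h2
  omega

private theorem asm5_spn_closed (f : (V → ℤ) → (J → ℤ)) (Q : Cube V) : Closed (Spn f Q) :=
  fun _ hP _ hR S hS => Cube.le_trans' hR (hP S hS)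

/-- step (1) of the plan -/
private theorem asm5_blk (n : ℕ) (K : Set (Cube V)) (s : Cube V → Cube J) (M : ℕ)
    (h : (V → ℤ) → (J → ℤ)) (F : (V → ℤ) → (JJ N J → ℤ)) (hF0 : ∀ v j, F v (.a 0 j) = h v j)
    (hFv : ∀ c ∈ K, ∀ Q : Cube V, Q.InM M c → ∃ P : Cube (JJ N J),
      (∀ v, Q.Has v → P.Has (F v)) ∧ (∀ g, (blk g P).Le (s c) ∧ (blk g P).dim ≤ n) ∧ EE P)
    (c1 : Cube V) (hc1 : c1 ∈ Grd M K) (S : Cube (JJ N J)) (hS : S ∈ Spn F c1) :
    blk 0 S ∈ Spn h c1 := by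
  classical
  intro T0 hT0
  obtain ⟨c, hc, hin⟩ := hc1
  obtain ⟨P, hP, -, -⟩ := hFv c hc c1 hin
  have hinj : Function.Injective (fun x : ZMod N × ℕ => (JJ.e x.1 x.2 : JJ N J)) := by
    rintro ⟨g, k⟩ ⟨g', k'⟩ hx
    simpa using hx
  have hle : S.Le (mkC (fun g => if g = 0 then T0 else blk g P) (fun g k => P.lo (.e g k))
      (P.fr.preimage (fun x : ZMod N × ℕ => (JJ.e x.1 x.2 : JJ N J)) hinj.injOn)) := by
    refine hS _ fun v hv x => ?_
    have h1 := hP v hv x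
    rcases x with ⟨g, j⟩ | ⟨g, k⟩
    · rw [mkC_lo_a, mkC_hi_a]
      by_cases hg : g = 0
      · subst hg
        rw [if_pos rfl, hF0]
        exact hT0 v hv j
      · rw [if_neg hg, blk_lo, blk_hi]
        exact h1
    · rw [mkC_lo_e, mkC_hi_e]
      refine ⟨h1.1, ?_⟩
      have h2 := h1.2
      unfold Cube.hi at h2
      by_cases hg : (JJ.e g k : JJ N J) ∈ P.fr
      · rw [if_pos hg] at h2
        rw [if_pos (by rw [Finset.mem_preimage]; exact hg)]
        exact h2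
      · rw [if_neg hg] at h2
        rw [if_neg (by rw [Finset.mem_preimage]; exact hg)]
        exact h2
  have h3 := blk_mono 0 hle
  rw [blk_mkC, if_pos rfl] at h3
  exact h3

omit [LinearOrder V] in
private theorem asm5_pt_dim {c : Cube V} (h : c.dim = 0) : c = pt c.lo := by
  have h1 : c.fr = ∅ := Finset.card_eq_zero.mp h
  ext x
  · rfl
  · rw [h1]
    rfl

private theorem asm5_eps (w : JJ N J → ℤ) : eps (pr 0 (one (pt w))) = 1 := by
  have h1 : pr 0 (one (pt w)) = one (blk 0 (pt w)) := by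
    rw [pr_one]
    unfold prQ
    rw [if_pos]
    intro x hx
    exact absurd hx (Finset.notMem_empty x)
  have h2 : blk 0 (pt w) = pt (fun j => w (.a 0 j)) := by
    ext x
    · rfl
    · rw [mem_blk]
      exact ⟨fun hx => absurd hx (Finset.notMem_empty _), fun hx => absurd hx (Finset.notMem_empty _)⟩
  rw [h1, h2, eps_pt]

open Classical in
theorem asm_pr (n : ℕ) (K : Set (Cube V)) (hKc : Closed K) (hKd : ∀ c ∈ K, c.dim ≤ n + 1)
    (s : Cube V → Cube J) (M : ℕ) (hM : 0 < M) (h : (V → ℤ) → (J → ℤ))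
    (hh : ∀ c ∈ K, ∀ Q : Cube V, Q.InM M c →
      ∃ S : Cube J, S.Le (s c) ∧ S.dim ≤ n ∧ ∀ v, Q.Has v → S.Has (h v))
    (hp k : Ch V →ₗ[ℤ] Ch J) (hhp : Push (Grd M K) (Spn h) h hp) (φ lam : Ch V →ₗ[ℤ] Ch J)
    (hk1 : ∀ c ∈ K, c.dim < n → k (one c) ∈ CC (Faces (s c)) (c.dim + 1))
    (hk2 : ∀ c ∈ K, c.dim < n →
      hp (sub M (one c)) = φ (one c) + bd (k (one c)) + k (bd (one c)))
    (hk3 : ∀ c ∈ K, c.dim = n →
      hp (sub M (one c)) = φ (one c) + bd (lam (one c)) + k (bd (one c)))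
    (F : (V → ℤ) → (JJ N J → ℤ)) (hF0 : ∀ v j, F v (.a 0 j) = h v j)
    (hFv : ∀ c ∈ K, ∀ Q : Cube V, Q.InM M c → ∃ P : Cube (JJ N J),
      (∀ v, Q.Has v → P.Has (F v)) ∧ (∀ g, (blk g P).Le (s c) ∧ (blk g P).dim ≤ n) ∧ EE P)
    (M' : ℕ) (hM' : 0 < M') (F1 : (V → ℤ) → (JJ N J → ℤ))
    (hF1 : ∀ c ∈ Grd M K, ∀ Q : Cube V, Q.InM M' c →
      ∃ S ∈ Spn F c, S.dim ≤ Q.dim ∧ ∀ v, Q.Has v → S.Has (F1 v))
    (hF2 : ∀ c ∈ K, ∀ Q : Cube V, Q.InM (M * M') c →
      ∃ S ∈ PP n (s c), S.dim ≤ Q.dim ∧ ∀ v, Q.Has v → S.Has (F1 v))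
    (Fp : Ch V →ₗ[ℤ] Ch (JJ N J)) (hFp : Push (Grd (M * M') K) (Spn F1) F1 Fp) :
    ∃ k' : Ch V →ₗ[ℤ] Ch J,
      (∀ c ∈ K, c.dim < n → k' (one c) ∈ CC (Faces (s c)) (c.dim + 1)) ∧
      (∀ c, ¬ (c ∈ K ∧ c.dim < n) → k' (one c) = 0) ∧
      (∀ c ∈ K, pr 0 (Fp (sub (M * M') (one c))) =
        if c.dim < n then φ (one c) + bd (k' (one c)) + k' (bd (one c)) else
        if c.dim = n then φ (one c) + bd (lam (one c)) + k' (bd (one c)) else 0) := by
  set K1 : Set (Cube V) := Grd M K with hK1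
  have hK1c : Closed K1 := closed_grd M K
  have hK1d : ∀ c ∈ K1, c.dim ≤ n + 1 := by
    intro c hc
    obtain ⟨P, hP, -, hd⟩ := grd_dim hM hc
    exact hd.trans (hKd P hP)
  have hgg : Grd M' K1 = Grd (M * M') K := grd_grd M M' K hM hM'
  set A : Ch V →ₗ[ℤ] Ch J := pr 0 ∘ₗ Fp ∘ₗ sub M' with hA
  have hAap : ∀ x, A x = pr 0 (Fp (sub M' x)) := fun _ => rfl
  -- spans
  have hspn : ∀ c1 ∈ K1, ∃ S : Cube J, Spn h c1 = Faces S ∧ S.dim ≤ n := by
    rintro c1 ⟨c, hc, hin⟩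
    obtain ⟨S0, -, hd, hS0⟩ := hh c hc c1 hin
    obtain ⟨S, hS, hle, -⟩ := spn_eq h c1 S0 hS0
    exact ⟨S, hS, (Cube.le_dim hle).trans hd⟩
  -- `A` is carried by `Spn h`
  have hAcar : ∀ c1 ∈ K1, A (one c1) ∈ CC (Spn h c1) c1.dim := by
    intro c1 hc1
    have h1 : sub M' (one c1) ∈ CC (Grd M' {c1}) c1.dim := sub_mem M' _ _ asm5_one_single
    refine map_mem (pr 0 ∘ₗ Fp) (CC (Spn h c1) c1.dim) ?_ h1
    rintro Q ⟨c1', hc1', hQ⟩ hQd
    rw [Set.mem_singleton_iff] at hc1'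
    subst hc1'
    have hQK : Q ∈ Grd (M * M') K := by
      rw [← hgg]
      exact ⟨c1', hc1, hQ⟩
    obtain ⟨S, hS, -, hSF⟩ := hF1 c1' hc1 Q hQ
    have h2 : Fp (one Q) ∈ CC (Faces S) Q.dim := CC_mono (spn_sub F1 Q S hSF) _ (hFp.car Q hQK)
    have h3 := pr_faces S 0 Q.dim h2
    have h4 : Faces (blk 0 S) ⊆ Spn h c1' := fun R hR =>
      asm5_spn_closed h c1' _ (asm5_blk n K s M h F hF0 hFv c1' hc1 S hS) R hR
    rw [← hQd]
    exact CC_mono h4 _ h3
  -- `A` is a chain map on `K1`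
  have hAchn : ∀ c1 ∈ K1, bd (A (one c1)) = A (bd (one c1)) := by
    intro c1 hc1
    have h1 : sub M' (one c1) ∈ CC (Grd (M * M') K) c1.dim := by
      rw [← hgg]
      exact sub_mem M' _ _ (one_mem hc1)
    have h2 : bd (Fp (sub M' (one c1))) = Fp (bd (sub M' (one c1))) :=
      eq_of_one (bd ∘ₗ Fp) (Fp ∘ₗ bd) (fun c hc => hFp.chn c hc) h1
    rw [hAap, hAap, ← pr_bd, h2, sub_bd M' hM']
  -- the chain homotopy
  obtain ⟨κ, hκ1, hκ2⟩ := carrier_unique' K1 hK1c (n + 1) hK1d (Spn h)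
    (fun c _ => asm5_spn_closed h c) (fun c _ d hd => spn_mono h c d hd)
    (fun c hc => by
      obtain ⟨S, hS, -⟩ := hspn c hc
      rw [hS]
      intro i _ z hz hb h0
      exact acy_faces S i z hz hb h0)
    hp A (fun c hc => hhp.car c hc) hAcar (fun c hc => hhp.chn c hc) hAchn
    (fun c hc h0 => by
      have e := asm5_pt_dim h0
      have h1 : pt c.lo ∈ K1 := e ▸ hc
      have h2 : pt (fun j => (M' : ℤ) * c.lo j) ∈ Grd (M * M') K := by
        rw [← hgg]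
        refine ⟨pt c.lo, h1, fun j => ⟨le_rfl, ?_⟩⟩
        have e1 : (pt (fun j => (M' : ℤ) * c.lo j)).hi j = (M' : ℤ) * c.lo j :=
          if_neg (Finset.notMem_empty j)
        have e2 : (pt c.lo).hi j = c.lo j := if_neg (Finset.notMem_empty j)
        rw [e1, e2]
      rw [e, hhp.vtx _ h1, hAap, sub_pt, hFp.vtx _ h2, eps_pt, asm5_eps])
  have hκ0 : ∀ c1 ∈ K1, n ≤ c1.dim → κ (one c1) = 0 := by
    intro c1 hc1 hd
    obtain ⟨S, hS, hSd⟩ := hspn c1 hc1
    have h1 := hκ1 c1 hc1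
    rw [hS] at h1
    exact asm5_zero (by omega) h1
  obtain ⟨k', hk'⟩ := exists_lin
    (fun c : Cube V => if c ∈ K ∧ c.dim < n then k (one c) + κ (sub M (one c)) else (0 : Ch J))
  have hk'1 : ∀ c ∈ K, c.dim < n → k' (one c) = k (one c) + κ (sub M (one c)) := by
    intro c hc hd
    rw [hk', if_pos ⟨hc, hd⟩]
  have hk'b : ∀ c ∈ K, c.dim ≤ n → k' (bd (one c)) = k (bd (one c)) + κ (sub M (bd (one c))) := by
    intro c hc hd
    rcases Nat.eq_zero_or_pos c.dim with h0 | h0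
    · have h1 : bd (one c) = 0 := bd_zero (K := K) (by rw [← h0]; exact one_mem hc)
      rw [h1]
      simp only [map_zero, add_zero]
    · obtain ⟨i, hi⟩ : ∃ i, c.dim = i + 1 := ⟨c.dim - 1, by omega⟩
      have h1 : bd (one c) ∈ CC K i := bd_mem hKc (by rw [← hi]; exact one_mem hc)
      have h2 := map_mem (k' - k - κ ∘ₗ sub M) (⊥ : Submodule ℤ (Ch J)) (fun d hd hdi => by
        rw [Submodule.mem_bot, LinearMap.sub_apply, LinearMap.sub_apply, LinearMap.comp_apply,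
          hk'1 d hd (by omega)]
        abel) h1
      rw [Submodule.mem_bot, LinearMap.sub_apply, LinearMap.sub_apply, LinearMap.comp_apply,
        _root_.sub_sub, sub_eq_zero] at h2
      exact h2
  refine ⟨k', ?_, ?_, ?_⟩
  · intro c hc hd
    rw [hk'1 c hc hd]
    refine Submodule.add_mem _ (hk1 c hc hd) ?_
    have h1 : sub M (one c) ∈ CC (Grd M {c}) c.dim := sub_mem M _ _ asm5_one_single
    refine map_mem κ _ ?_ h1
    rintro Q ⟨c', hc', hQ⟩ hQd
    rw [Set.mem_singleton_iff] at hc'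
    subst hc'
    obtain ⟨S, hSle, -, hS⟩ := hh c' hc Q hQ
    have h2 := hκ1 Q ⟨c', hc, hQ⟩
    rw [hQd] at h2
    exact CC_mono (fun R hR => Cube.le_trans' (spn_sub h Q S hS hR) hSle) _ h2
  · intro c hc
    rw [hk', if_neg hc]
  · intro c hc
    have e0 : pr 0 (Fp (sub (M * M') (one c))) = A (sub M (one c)) := by
      rw [hAap, AGE.sub_sub M M' hM hM']
    have hy : sub M (one c) ∈ CC K1 c.dim := sub_mem M _ _ (one_mem hc)
    have e1 : A (sub M (one c)) = hp (sub M (one c)) + (bd (κ (sub M (one c))) +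
        κ (sub M (bd (one c)))) := by
      have h1 : (A - hp) (sub M (one c)) = (bd ∘ₗ κ + κ ∘ₗ bd) (sub M (one c)) :=
        eq_of_one (A - hp) (bd ∘ₗ κ + κ ∘ₗ bd) (fun d hd => hκ2 d hd) hy
      have h2 : A (sub M (one c)) - hp (sub M (one c)) =
          bd (κ (sub M (one c))) + κ (bd (sub M (one c))) := h1
      rw [← sub_bd M hM, sub_eq_iff_eq_add] at h2
      rw [h2, add_comm]
    by_cases hlt : c.dim < n
    · rw [if_pos hlt, e0, e1, hk2 c hc hlt, hk'1 c hc hlt, hk'b c hc hlt.le, map_add]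
      abel
    · rw [if_neg hlt]
      by_cases heq : c.dim = n
      · rw [if_pos heq, e0, e1, hk3 c hc heq, hk'b c hc heq.le]
        have h1 := map_mem κ (⊥ : Submodule ℤ (Ch J)) (fun d hd hdi => by
          rw [Submodule.mem_bot]
          exact hκ0 d hd (by omega)) hy
        rw [Submodule.mem_bot] at h1
        rw [h1, map_zero]
        abel
      · rw [if_neg heq]
        have h1 : sub (M * M') (one c) ∈ CC (Grd (M * M') {c}) c.dim := sub_mem _ _ _ asm5_one_single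
        refine pr_top n (s c) 0 c.dim (by omega) (map_mem Fp (CC (PP n (s c)) c.dim) ?_ h1)
        rintro Q ⟨c', hc', hQ⟩ hQd
        rw [Set.mem_singleton_iff] at hc'
        subst hc'
        obtain ⟨S, hS, -, hSF⟩ := hF2 c' hc Q hQ
        have h2 := hFp.car Q ⟨c', hc, hQ⟩
        rw [hQd] at h2
        exact CC_mono (fun R hR => closed_pp n (s c') S hS R (spn_sub F1 Q S hSF hR)) _ h2

end AGE
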