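import Pool.Agent.AGE.ASM0
import Pool.Agent.AGE.ASM1
import Pool.Agent.AGE.ASM2
import Pool.Agent.AGE.C1b
import Pool.Agent.AGE.C2a
import Pool.Agent.AGE.C2b

/-!
# AGE-ASM6: the embeddings `iot g` of the chains in the blocks

Plan. `iotQ g Q = mkC ..` (ASM0: `mkC_lo_a`, `mkC_lo_e`, `mkC_mem_a`, `mkC_mem_e`, `blk_mkC`, `mkC_hi_e`). The free coordinates of `iotQ g Q` are exactly the `a g j`, `j ∈ Q.fr`; so its
dimension is `Q.dim`. `iot_mem`: blocks `Q` and `pt Q.lo` (both faces of `t`, dimension `≤ n`); join part: `1` at `e g 0` and `0` elsewhere, no free coordinates: `EE`. Total dimension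
`Q.dim ≤ n`. `pr_iot`: all free coordinates are in block `g`. `pr_iot_ne`: `Q.fr` is nonempty, its coordinates are not in block `g'`. `iot_act`: on `one Q`:
`(iotQ g Q).act (jjp N τ) = iotQ (g + 1) (Q.act τ)` (coordinatewise: the block `g' + 1` of the left side is block `g'` of `iotQ g Q` moved by `τ`, `blk_act`; `g' + 1 = g + 1 ↔ g' = g`), and
`psg (jjp N τ) (iotQ g Q).fr = psg τ Q.fr` (reindex by `JJ.a g`; `a g j < a g j' ↔ j < j'`, see the private lemmas of ACY3.lean).
-/

set_option autoImplicit false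

noncomputable section

namespace AGE

variable {V J : Type} [LinearOrder V] [LinearOrder J] {N : ℕ} [NeZero N]

private theorem ASM6_lt (h : ZMod N) (i j : J) : (JJ.a h i : JJ N J) < JJ.a h j ↔ i < j := by
  have h1 : (JJ.a h i : JJ N J) < JJ.a h j ↔ JJ.code (JJ.a h i : JJ N J) < JJ.code (JJ.a h j : JJ N J) :=
    Iff.rfl
  rw [h1]
  simp only [JJ.code, Prod.Lex.toLex_lt_toLex, lt_self_iff_false, true_and, false_or,
    WithBot.coe_lt_coe]

private theorem ASM6_ext {A B : Type} [AddCommGroup B] (f g : (A →₀ ℤ) →ₗ[ℤ] B)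
    (h : ∀ a, f (Finsupp.single a 1) = g (Finsupp.single a 1)) : f = g := by
  refine Finsupp.lhom_ext' fun a => ?_
  refine LinearMap.ext_ring ?_
  simpa using h a

private def ASM6_em (g : ZMod N) : J ↪ JJ N J := ⟨JJ.a g, fun _ _ h => (JJ.a.inj h).2⟩

private theorem ASM6_fr (g : ZMod N) (Q : Cube J) : (iotQ g Q).fr = Q.fr.map (ASM6_em g) := by
  ext y
  rw [Finset.mem_map]
  cases y with
  | a g' j =>
    unfold iotQ
    rw [mkC_mem_a]
    by_cases hg : g' = g
    · subst hg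
      rw [if_pos rfl]
      constructor
      · intro h
        exact ⟨j, h, rfl⟩
      · rintro ⟨j', hj', h⟩
        have := (JJ.a.inj h).2
        rw [← this]
        exact hj'
    · rw [if_neg hg]
      constructor
      · intro h
        exact absurd h (Finset.notMem_empty _)
      · rintro ⟨j', hj', h⟩
        exact absurd (JJ.a.inj h).1.symm hg
  | e g' k =>
    unfold iotQ
    rw [mkC_mem_e]
    constructor
    · intro h
      exact absurd h (Finset.notMem_empty _)
    · rintro ⟨j', hj', h⟩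
      cases h

private theorem ASM6_dim (g : ZMod N) (Q : Cube J) : (iotQ g Q).dim = Q.dim := by
  unfold Cube.dim
  rw [ASM6_fr, Finset.card_map]

private theorem ASM6_loe (g : ZMod N) (Q : Cube J) (g' : ZMod N) (k : ℕ) :
    (iotQ g Q).lo (.e g' k) = if g' = g ∧ k = 0 then 1 else 0 := rfl

private theorem ASM6_hie (g : ZMod N) (Q : Cube J) (g' : ZMod N) (k : ℕ) :
    (iotQ g Q).hi (.e g' k) = if g' = g ∧ k = 0 then 1 else 0 := by
  unfold Cube.hi
  rw [if_neg, ASM6_loe]
  unfold iotQ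
  rw [mkC_mem_e]
  exact Finset.notMem_empty _

private theorem ASM6_blk (g g' : ZMod N) (Q : Cube J) :
    blk g' (iotQ g Q) = if g' = g then Q else pt Q.lo := by
  unfold iotQ
  rw [blk_mkC]

private theorem ASM6_ee (g : ZMod N) (Q : Cube J) : EE (iotQ g Q) := by
  refine ⟨?_, ?_, ?_, ?_⟩
  · intro g' k
    rw [ASM6_loe, ASM6_hie]
    split_ifs <;> constructor <;> norm_num
  · refine (Set.finite_singleton ((g, 0) : ZMod N × ℕ)).subset ?_
    rintro ⟨g', k⟩ h
    have h' : (iotQ g Q).lo (.e g' k) = 1 := h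
    rw [ASM6_loe] at h'
    by_cases hc : g' = g ∧ k = 0
    · obtain ⟨h1, h2⟩ := hc
      rw [h1, h2]
      exact Set.mem_singleton _
    · rw [if_neg hc] at h'
      exact absurd h' (by norm_num)
  · refine ⟨g, 0, ?_⟩
    rw [ASM6_loe, if_pos ⟨rfl, rfl⟩]
  · intro k g1 g2 h1 h2
    rw [ASM6_hie] at h1 h2
    by_cases c1 : g1 = g ∧ k = 0
    · by_cases c2 : g2 = g ∧ k = 0
      · exact c1.1.trans c2.1.symm
      · rw [if_neg c2] at h2
        exact absurd h2 (by norm_num)
    · rw [if_neg c1] at h1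
      exact absurd h1 (by norm_num)

private theorem ASM6_act (τ : Equiv.Perm J) (g : ZMod N) (Q : Cube J) :
    (iotQ g Q).act (jjp N τ) = iotQ (g + 1) (Q.act τ) := by
  apply Cube.ext
  · funext y
    cases y with
    | a g' j =>
      have h1 : ((iotQ g Q).act (jjp N τ)).lo (.a g' j) =
          (if g' - 1 = g then Q else pt Q.lo).lo (τ.symm j) := rfl
      have h2 : (iotQ (g + 1) (Q.act τ)).lo (.a g' j) =
          (if g' = g + 1 then Q.act τ else pt (Q.act τ).lo).lo j := rfl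
      rw [h1, h2]
      have h3 : (Q.act τ).lo j = Q.lo (τ.symm j) := rfl
      have h4 : (pt (Q.act τ).lo).lo j = Q.lo (τ.symm j) := rfl
      have h5 : (pt Q.lo).lo (τ.symm j) = Q.lo (τ.symm j) := rfl
      split_ifs
      · rw [h3]
      · rw [h4]
      · rw [h3, h5]
      · rw [h4, h5]
    | e g' k =>
      have h1 : ((iotQ g Q).act (jjp N τ)).lo (.e g' k) =
          if g' - 1 = g ∧ k = 0 then 1 else 0 := rfl
      rw [h1, ASM6_loe]
      have h2 : (g' - 1 = g ∧ k = 0) ↔ (g' = g + 1 ∧ k = 0) := by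
        rw [sub_eq_iff_eq_add]
      simp only [h2]
  · have h1 : ((iotQ g Q).act (jjp N τ)).fr = (iotQ g Q).fr.map (jjp N τ).toEmbedding := rfl
    have h2 : (Q.act τ).fr = Q.fr.map τ.toEmbedding := rfl
    rw [h1, ASM6_fr, ASM6_fr, h2, Finset.map_map, Finset.map_map]
    rfl

private theorem ASM6_psg (τ : Equiv.Perm J) (g : ZMod N) (s : Finset J) :
    psg (jjp N τ) (s.map (ASM6_em g)) = psg τ s := by
  unfold psg
  rw [Finset.prod_map]
  refine Finset.prod_congr rfl fun x _ => ?_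
  rw [Finset.prod_map]
  refine Finset.prod_congr rfl fun y _ => ?_
  have h1 : ASM6_em g x = (JJ.a g x : JJ N J) := rfl
  have h2 : ASM6_em g y = (JJ.a g y : JJ N J) := rfl
  have h3 : jjp N τ (JJ.a g x) = JJ.a (g + 1) (τ x) := rfl
  have h4 : jjp N τ (JJ.a g y) = JJ.a (g + 1) (τ y) := rfl
  rw [h1, h2, h3, h4]
  have h5 : ((JJ.a g x : JJ N J) < JJ.a g y ∧ (JJ.a (g + 1) (τ y) : JJ N J) < JJ.a (g + 1) (τ x)) ↔
      (x < y ∧ τ y < τ x) := by
    rw [ASM6_lt, ASM6_lt]
  simp only [h5]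

theorem iot_mem (n : ℕ) (t : Cube J) (g : ZMod N) (i : ℕ) (hi : i ≤ n) {x : Ch J}
    (hx : x ∈ CC (Faces t) i) : iot g x ∈ CC (PP n t) i := by
  refine map_mem (iot g) (CC (PP n t) i) (fun c hc hci => ?_) hx
  rw [iot_one]
  have hm : iotQ g c ∈ PP n t := by
    refine ⟨fun g' => ?_, ASM6_ee g c, ?_⟩
    · rw [ASM6_blk]
      split_ifs
      · exact ⟨hc, by omega⟩
      · refine ⟨Cube.pt_le.2 (Cube.has_of_le hc (Cube.has_lo c)), ?_⟩
        have : (pt c.lo).dim = 0 := rfl
        omega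
    · rw [ASM6_dim]
      omega
  have h := one_mem hm
  rw [ASM6_dim, hci] at h
  exact h

theorem pr_iot (g : ZMod N) (x : Ch J) : pr g (iot g x) = x := by
  have h : (pr g) ∘ₗ (iot g) = (LinearMap.id : Ch J →ₗ[ℤ] Ch J) := by
    refine ASM6_ext _ _ fun Q => ?_
    rw [LinearMap.comp_apply, LinearMap.id_apply]
    change pr g (iot g (one Q)) = one Q
    rw [iot_one, pr_one, prQ, if_pos, ASM6_blk, if_pos rfl]
    intro y hy
    rw [ASM6_fr, Finset.mem_map] at hy
    obtain ⟨j, _, rfl⟩ := hy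
    exact ⟨j, rfl⟩
  have h2 := LinearMap.congr_fun h x
  rwa [LinearMap.comp_apply, LinearMap.id_apply] at h2

theorem pr_iot_ne (g g' : ZMod N) (hg : g' ≠ g) (K : Set (Cube J)) (i : ℕ) (hi : 0 < i)
    {x : Ch J} (hx : x ∈ CC K i) : pr g' (iot g x) = 0 := by
  have h : ((pr g') ∘ₗ (iot g)) x ∈ (⊥ : Submodule ℤ (Ch J)) := by
    refine map_mem ((pr g') ∘ₗ (iot g)) ⊥ (fun c _ hci => ?_) hx
    rw [Submodule.mem_bot, LinearMap.comp_apply, iot_one, pr_one, prQ, if_neg]
    intro hall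
    have hne : c.fr.Nonempty := by
      rw [← Finset.card_pos]
      have : c.fr.card = i := hci
      omega
    obtain ⟨j, hj⟩ := hne
    have hj' : (JJ.a g j : JJ N J) ∈ (iotQ g c).fr := by
      rw [ASM6_fr, Finset.mem_map]
      exact ⟨j, hj, rfl⟩
    obtain ⟨j', h'⟩ := hall _ hj'
    exact hg (JJ.a.inj h').1.symm
  rw [Submodule.mem_bot, LinearMap.comp_apply] at h
  exact h

theorem iot_act (τ : Equiv.Perm J) (g : ZMod N) (x : Ch J) :
    act (jjp N τ) (iot g x) = iot (g + 1) (act τ x) := by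
  have h : (act (jjp N τ)) ∘ₗ (iot g) = (iot (g + 1)) ∘ₗ (act τ) := by
    refine ASM6_ext _ _ fun Q => ?_
    rw [LinearMap.comp_apply, LinearMap.comp_apply]
    change act (jjp N τ) (iot g (one Q)) = iot (g + 1) (act τ (one Q))
    rw [iot_one, act_one, act_one, map_smul, iot_one, ASM6_act, ASM6_fr, ASM6_psg]
  have h2 := LinearMap.congr_fun h x
  rwa [LinearMap.comp_apply, LinearMap.comp_apply] at h2

end AGE
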