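import Pool.Agent.AGE.ASM0
import Pool.Agent.AGE.ASM1
import Pool.Agent.AGE.ASM2
import Pool.Agent.AGE.ASM6
import Pool.Agent.AGE.C1a
import Pool.Agent.AGE.C1b
import Pool.Agent.AGE.C2b

/-!
# AGE-ASM7: normalization of the coinduced chain map

`κ := Σ_g iot g ∘ (con τV τJ)^[g.val] k'` (sum over `g : ZMod N`) is equivariant, carried by the complexes `PP n (s c)`, and `pr 0 (κ c) = k' c`; so
`Fs := FF - bd ∘ κ - κ ∘ bd` has the projections wanted.
-/

set_option autoImplicit false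

noncomputable section

namespace AGE

variable {V J : Type} [LinearOrder V] [LinearOrder J] {N : ℕ} [NeZero N]

omit [NeZero N] in
private theorem asm7_orb {n : ℕ} {K : Set (Cube V)} {τV : Equiv.Perm V} {τJ : Equiv.Perm J}
    (hK : Src n N K τV) {s : Cube V → Cube J} (hs2 : ∀ c ∈ K, s (c.act τV) = (s c).act τJ)
    {c : Cube V} (hc : c ∈ K) (a : ℕ) :
    ∃ c' ∈ K, act (τV ^ a).symm (one c) = one c' ∧ c'.dim = c.dim ∧ (s c').act (τJ ^ a) = s c := by
  induction a with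
  | zero =>
    refine ⟨c, hc, ?_, rfl, ?_⟩
    · have h1 : (τV ^ 0).symm = 1 := rfl
      rw [h1, act_id]
    · rw [pow_zero, Cube.act_one']
  | succ a ih =>
    obtain ⟨c', hc', h1, h2, h3⟩ := ih
    have h4 : (c'.act τV.symm).act τV = c' := by
      rw [← Cube.act_mul]
      have h5 : τV * τV.symm = 1 := mul_inv_cancel τV
      rw [h5, Cube.act_one']
    refine ⟨c'.act τV.symm, hK.mem_symm hc', ?_, ?_, ?_⟩
    · have h5 : (τV ^ (a + 1)).symm = τV.symm * (τV ^ a).symm := by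
        have h6 : (τV ^ (a + 1))⁻¹ = τV⁻¹ * (τV ^ a)⁻¹ := by rw [pow_succ, mul_inv_rev]
        exact h6
      rw [h5, act_mul', h1, hK.act_symm_one hc']
    · rw [Cube.act_dim, h2]
    · have h5 := hs2 _ (hK.mem_symm hc')
      rw [h4] at h5
      rw [pow_succ, Cube.act_mul, ← h5, h3]

private theorem asm7_con_mem {n : ℕ} {K : Set (Cube V)} {τV : Equiv.Perm V} {τJ : Equiv.Perm J}
    (hK : Src n N K τV) {s : Cube V → Cube J} (hs2 : ∀ c ∈ K, s (c.act τV) = (s c).act τJ)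
    {k' : Ch V →ₗ[ℤ] Ch J} (hk1 : ∀ c ∈ K, c.dim < n → k' (one c) ∈ CC (Faces (s c)) (c.dim + 1))
    {c : Cube V} (hc : c ∈ K) (hn : c.dim < n) (a : ℕ) :
    (con τV τJ)^[a] k' (one c) ∈ CC (Faces (s c)) (c.dim + 1) := by
  obtain ⟨c', hc', h1, h2, h3⟩ := asm7_orb hK hs2 hc a
  rw [con_iter, h1, ← h2]
  refine act_mem (K := Faces (s c')) (τJ ^ a) (fun Q hQ => ?_) (hk1 c' hc' (by omega))
  have h4 : (Q.act (τJ ^ a)).Le ((s c').act (τJ ^ a)) := (Cube.act_le _ _ _).2 hQ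
  rw [h3] at h4
  exact h4

private theorem asm7_con_zero {n : ℕ} {K : Set (Cube V)} {τV : Equiv.Perm V} {τJ : Equiv.Perm J}
    (hK : Src n N K τV) {s : Cube V → Cube J} (hs2 : ∀ c ∈ K, s (c.act τV) = (s c).act τJ)
    {k' : Ch V →ₗ[ℤ] Ch J} (hk2 : ∀ c, ¬ (c ∈ K ∧ c.dim < n) → k' (one c) = 0)
    {c : Cube V} (hc : c ∈ K) (hn : ¬ c.dim < n) (a : ℕ) :
    (con τV τJ)^[a] k' (one c) = 0 := by
  obtain ⟨c', _, h1, h2, _⟩ := asm7_orb hK hs2 hc a
  rw [con_iter, h1, hk2 c' (fun h => hn (by rw [← h2]; exact h.2)), map_zero]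

private def asm7_k (N : ℕ) [NeZero N] (τV : Equiv.Perm V) (τJ : Equiv.Perm J) (k' : Ch V →ₗ[ℤ] Ch J) :
    Ch V →ₗ[ℤ] Ch (JJ N J) :=
  ∑ g : ZMod N, iot g ∘ₗ ((con τV τJ)^[g.val] k')

private theorem asm7_k_apply (τV : Equiv.Perm V) (τJ : Equiv.Perm J) (k' : Ch V →ₗ[ℤ] Ch J) (x : Ch V) :
    asm7_k N τV τJ k' x = ∑ g : ZMod N, iot g ((con τV τJ)^[g.val] k' x) := by
  unfold asm7_k
  rw [LinearMap.sum_apply]
  rfl

private theorem asm7_k_act (τV : Equiv.Perm V) (τJ : Equiv.Perm J) (hV : τV ^ N = 1) (hJ : τJ ^ N = 1)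
    (k' : Ch V →ₗ[ℤ] Ch J) (x : Ch V) :
    act (jjp N τJ) (asm7_k N τV τJ k' x) = asm7_k N τV τJ k' (act τV x) := by
  rw [asm7_k_apply, asm7_k_apply, map_sum, ← Equiv.sum_comp (Equiv.addRight (1 : ZMod N))
    (fun g => iot g ((con τV τJ)^[g.val] k' (act τV x)))]
  refine Finset.sum_congr rfl fun g _ => ?_
  rw [iot_act]
  have h1 : (Equiv.addRight (1 : ZMod N)) g = g + 1 := rfl
  rw [h1]
  congr 1
  have h2 : (con τV τJ)^[(g + 1).val] k' = (con τV τJ)^[g.val + 1] k' := by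
    have h3 : Function.IsPeriodicPt (con τV τJ) N k' := con_period τV τJ hV hJ k'
    have h4 : (g + 1).val = (g.val + 1) % N := by
      rw [ZMod.val_add, ZMod.val_one_eq_one_mod, Nat.add_mod_mod]
    rw [h4, h3.iterate_mod_apply]
  rw [h2, Function.iterate_succ_apply']
  have h3 : con τV τJ ((con τV τJ)^[g.val] k') (act τV x) =
      act τJ ((con τV τJ)^[g.val] k' (act τV.symm (act τV x))) := rfl
  rw [h3, act_symm_act]

private theorem asm7_bd_mem {K : Set (Cube V)} (hK : Closed K) {c : Cube V} (hc : c ∈ K) {i : ℕ}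
    (hi : c.dim = i + 1) : bd (one c) ∈ CC K i :=
  bd_mem hK (by rw [← hi]; exact one_mem hc)

private theorem asm7_bd_zero {c : Cube V} (hi : c.dim = 0) : bd (one c) = 0 := by
  refine bd_zero (K := Faces c) ?_
  have h := one_mem (K := Faces c) (Cube.le_refl' c)
  rwa [hi] at h

open Classical in
theorem asm_norm (n : ℕ) (K : Set (Cube V)) (τV : Equiv.Perm V) (τJ : Equiv.Perm J)
    (hK : Src n N K τV) (hJ : τJ ^ N = 1) (s : Cube V → Cube J)
    (hs1 : ∀ c ∈ K, ∀ d : Cube V, d.Le c → (s d).Le (s c))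
    (hs2 : ∀ c ∈ K, s (c.act τV) = (s c).act τJ)
    (φ lam : Ch V →ₗ[ℤ] Ch J) (FF : Ch V →ₗ[ℤ] Ch (JJ N J))
    (h1 : ∀ c ∈ K, FF (one c) ∈ CC (PP n (s c)) c.dim)
    (h2 : ∀ c ∈ K, bd (FF (one c)) = FF (bd (one c)))
    (h3 : ∀ c ∈ K, FF (act τV (one c)) = act (jjp N τJ) (FF (one c)))
    (k' : Ch V →ₗ[ℤ] Ch J)
    (hk1 : ∀ c ∈ K, c.dim < n → k' (one c) ∈ CC (Faces (s c)) (c.dim + 1))
    (hk2 : ∀ c, ¬ (c ∈ K ∧ c.dim < n) → k' (one c) = 0)
    (h4 : ∀ c ∈ K, pr 0 (FF (one c)) =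
      if c.dim < n then φ (one c) + bd (k' (one c)) + k' (bd (one c)) else
      if c.dim = n then φ (one c) + bd (lam (one c)) + k' (bd (one c)) else 0) :
    ∃ κ Fs : Ch V →ₗ[ℤ] Ch (JJ N J),
      (∀ c ∈ K, κ (one c) ∈ CC (PP n (s c)) (c.dim + 1)) ∧
      (∀ c ∈ K, κ (act τV (one c)) = act (jjp N τJ) (κ (one c))) ∧
      (∀ c ∈ K, FF (one c) = Fs (one c) + bd (κ (one c)) + κ (bd (one c))) ∧
      (∀ c ∈ K, Fs (one c) ∈ CC (PP n (s c)) c.dim) ∧
      (∀ c ∈ K, bd (Fs (one c)) = Fs (bd (one c))) ∧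
      (∀ c ∈ K, Fs (act τV (one c)) = act (jjp N τJ) (Fs (one c))) ∧
      (∀ c ∈ K, pr 0 (Fs (one c)) = if c.dim < n then φ (one c) else
        if c.dim = n then φ (one c) + bd (lam (one c)) else 0) := by
  classical
  have hV : τV ^ N = 1 := hK.ord
  set κ : Ch V →ₗ[ℤ] Ch (JJ N J) := asm7_k N τV τJ k' with hκ
  have kap : ∀ x, κ x = ∑ g : ZMod N, iot g ((con τV τJ)^[g.val] k' x) := asm7_k_apply τV τJ k'
  have kact : ∀ x, act (jjp N τJ) (κ x) = κ (act τV x) := asm7_k_act τV τJ hV hJ k'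
  have kmem : ∀ c ∈ K, κ (one c) ∈ CC (PP n (s c)) (c.dim + 1) := by
    intro c hc
    rw [kap]
    refine Submodule.sum_mem _ fun g _ => ?_
    by_cases hn : c.dim < n
    · exact iot_mem n (s c) g (c.dim + 1) hn (asm7_con_mem hK hs2 hk1 hc hn g.val)
    · rw [asm7_con_zero hK hs2 hk2 hc hn, map_zero]
      exact Submodule.zero_mem _
  have kpr : ∀ c ∈ K, pr 0 (κ (one c)) = k' (one c) := by
    intro c hc
    rw [kap, map_sum, Finset.sum_eq_single (0 : ZMod N)]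
    · rw [pr_iot, ZMod.val_zero]
      rfl
    · intro g _ hg
      by_cases hn : c.dim < n
      · exact pr_iot_ne g 0 hg.symm (Faces (s c)) (c.dim + 1) (Nat.succ_pos _)
          (asm7_con_mem hK hs2 hk1 hc hn g.val)
      · rw [asm7_con_zero hK hs2 hk2 hc hn, map_zero, map_zero]
    · intro h
      exact absurd (Finset.mem_univ _) h
  have kprb : ∀ c ∈ K, pr 0 (κ (bd (one c))) = k' (bd (one c)) := by
    intro c hc
    rcases Nat.eq_zero_or_pos c.dim with h0 | h0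
    · rw [asm7_bd_zero h0, map_zero, map_zero, map_zero]
    · obtain ⟨i, hi⟩ : ∃ i, c.dim = i + 1 := ⟨c.dim - 1, by omega⟩
      exact eq_of_one (K := K) ((pr 0) ∘ₗ κ) k' (fun d hd => kpr d hd) (asm7_bd_mem hK.clo hc hi)
  have kbd : ∀ c ∈ K, κ (bd (one c)) ∈ CC (PP n (s c)) c.dim := by
    intro c hc
    rcases Nat.eq_zero_or_pos c.dim with h0 | h0
    · rw [asm7_bd_zero h0, map_zero]
      exact Submodule.zero_mem _
    · obtain ⟨i, hi⟩ : ∃ i, c.dim = i + 1 := ⟨c.dim - 1, by omega⟩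
      rw [hi]
      refine map_mem (K := Faces c) κ _ (fun d hd hdi => ?_)
        (asm7_bd_mem (closed_faces c) (Cube.le_refl' c) hi)
      have hdK : d ∈ K := hK.clo c hc d hd
      have h5 := kmem d hdK
      rw [hdi] at h5
      exact CC_mono (pp_mono n (hs1 c hc d hd)) (i + 1) h5
  set Fs : Ch V →ₗ[ℤ] Ch (JJ N J) := FF - bd ∘ₗ κ - κ ∘ₗ bd with hFs
  have Fsa : ∀ x, Fs x = FF x - bd (κ x) - κ (bd x) := fun _ => rfl
  refine ⟨κ, Fs, kmem, fun c _ => (kact _).symm, fun c _ => ?_, fun c hc => ?_, fun c hc => ?_,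
    fun c hc => ?_, fun c hc => ?_⟩
  · rw [Fsa]
    abel
  · rw [Fsa]
    exact Submodule.sub_mem _ (Submodule.sub_mem _ (h1 c hc) (bd_mem (closed_pp n (s c)) (kmem c hc)))
      (kbd c hc)
  · rw [Fsa, Fsa, map_sub, map_sub, bd_bd, bd_bd, h2 c hc, map_zero, sub_zero, sub_zero]
  · rw [Fsa, Fsa, h3 c hc, ← kact, ← act_bd, ← act_bd, ← kact, map_sub, map_sub]
  · rw [Fsa, map_sub, map_sub, pr_bd, kpr c hc, kprb c hc, h4 c hc]
    by_cases hn : c.dim < n
    · rw [if_pos hn, if_pos hn]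
      abel
    · have h5 : k' (one c) = 0 := hk2 c fun h => hn h.2
      rw [if_neg hn, if_neg hn, h5, map_zero, sub_zero]
      by_cases he : c.dim = n
      · rw [if_pos he, if_pos he]
        abel
      · rw [if_neg he, if_neg he]
        obtain ⟨i, hi⟩ : ∃ i, c.dim = i + 1 := ⟨c.dim - 1, by omega⟩
        have h6 : k' (bd (one c)) ∈ (⊥ : Submodule ℤ (Ch J)) := by
          refine map_mem (K := K) k' _ (fun d _ hdi => ?_) (asm7_bd_mem hK.clo hc hi)
          rw [hk2 d fun h => by omega]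
          exact Submodule.zero_mem _
        rw [Submodule.mem_bot] at h6
        rw [h6, sub_zero]

end AGE
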