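import Pool.Agent.AGE.Defs
import Pool.Agent.AGE.C1b

/-!
# AGE-C10b: contractions of the coinduced complexes

Plan. Let `W` be a finite set of vertices of `PP n t`, `n ≥ 2`. Choose a column `k₀` in which all members of `W` vanish (`EE.fin`), `x₀ = e 0 k₀`. `Γ`: first raise the coordinate `x₀` from `0` to `1`
(one step); then, one coordinate per step, lower the finitely many coordinates `e g k ≠ x₀` which are nonzero at some member of `W` to `0`; then set the coordinates `a g j`, `j ∈ t.fr` (finitely
many, `ZMod N` is finite), to `t.lo j`, one per step. The end is the point with blocks `t.lo` and join part `x₀`. All the points are vertices of `PP n t` (join part: after the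
first step `x₀ = 1` and no other element of the column `k₀`). Edges: two vertices in a cube of dimension `≤ 1` of `PP n t` differ in at most one coordinate; the four points of a step lie in
a cube of dimension `≤ 2` which is in `PP n t`: blocks have dimension `≤ 2 ≤ n`, total dimension `≤ 2 ≤ n + 2`, join part: the coordinate `x₀` or another one moves and at most one more.
Take care that the set of coordinates equal to `1` on the whole cube is nonempty: after the first step it contains `x₀`; in the first step the moving coordinates are `x₀` and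
one more, and the cube of dimension `≤ 1` containing `v, v'` has a coordinate fixed at `1`. Columns: at most one `g` with `hi = 1` in each column because the cube containing `v, v'` has
this property.
-/

set_option autoImplicit false

noncomputable section

namespace AGE

variable {V J : Type} [LinearOrder V] [LinearOrder J]

/-- a cube with given lowest and highest vertices -/
private theorem c10b_mk {I : Type} [DecidableEq I] (F : Finset I) (lo hi : I → ℤ)
    (h : ∀ x, lo x ≤ hi x ∧ hi x ≤ lo x + 1) (hF : ∀ x, x ∉ F → lo x = hi x) :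
    ∃ fr : Finset I, fr ⊆ F ∧ ∀ x, (if x ∈ fr then lo x + 1 else lo x) = hi x := by
  classical
  refine ⟨F.filter (fun x => lo x < hi x), Finset.filter_subset _ _, fun x => ?_⟩
  by_cases hx : x ∈ F.filter (fun x => lo x < hi x)
  · rw [if_pos hx]
    have h1 := (Finset.mem_filter.1 hx).2
    have h2 := (h x).2
    omega
  · rw [if_neg hx]
    by_cases hxF : x ∈ F
    · have : ¬ lo x < hi x := fun hlt => hx (Finset.mem_filter.2 ⟨hxF, hlt⟩)
      have h1 := (h x).1
      omega
    · exact hF x hxF

private theorem c10b_hi {I : Type} [LinearOrder I] (Q : Cube I) (x : I) : Q.lo x ≤ Q.hi x ∧ Q.hi x ≤ Q.lo x + 1 := by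
  unfold Cube.hi
  split_ifs <;> constructor <;> omega

private theorem c10b_hi_not {I : Type} [LinearOrder I] (Q : Cube I) (x : I) (h : x ∉ Q.fr) : Q.hi x = Q.lo x := by
  unfold Cube.hi
  rw [if_neg h]

private theorem c10b_blk_hi {N : ℕ} [NeZero N] (g : ZMod N) (Q : Cube (JJ N J)) (j : J) :
    (blk g Q).hi j = Q.hi (.a g j) := by
  unfold Cube.hi blk
  by_cases h : JJ.a g j ∈ Q.fr
  · simp [h]
  · simp [h]

private theorem c10b_blk_dim {N : ℕ} [NeZero N] (g : ZMod N) (Q : Cube (JJ N J)) :
    (blk g Q).dim ≤ Q.dim := by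
  classical
  unfold Cube.dim blk
  refine (Finset.card_le_card_of_injOn (fun j => JJ.a g j) ?_ ?_)
  · intro j hj
    simpa using hj
  · intro j _ j' _ h
    simpa using h

/-- bounds at the vertices of a cube of `PP` -/
private theorem c10b_bd_a {N : ℕ} [NeZero N] {n : ℕ} {t : Cube J} {Q : Cube (JJ N J)}
    (hQ : Q ∈ PP (N := N) n t) {v : JJ N J → ℤ} (hv : Q.Has v) (g : ZMod N) (j : J) :
    t.lo j ≤ v (.a g j) ∧ v (.a g j) ≤ t.hi j := by
  have h1 := (hQ.1 g).1 j
  rw [c10b_blk_hi] at h1
  have h2 := hv (.a g j)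
  exact ⟨le_trans h1.1 h2.1, le_trans h2.2 h1.2⟩

private theorem c10b_bd_e {N : ℕ} [NeZero N] {n : ℕ} {t : Cube J} {Q : Cube (JJ N J)}
    (hQ : Q ∈ PP (N := N) n t) {v : JJ N J → ℤ} (hv : Q.Has v) (g : ZMod N) (k : ℕ) :
    0 ≤ v (.e g k) ∧ v (.e g k) ≤ 1 := by
  have h1 := hQ.2.1.rng g k
  have h2 := hv (.e g k)
  exact ⟨le_trans h1.1 h2.1, le_trans h2.2 h1.2⟩

/-- the end point -/
private def c10b_end {N : ℕ} [NeZero N] (t : Cube J) (k₀ : ℕ) : JJ N J → ℤ
  | .a _ j => t.lo j
  | .e g k => if g = 0 ∧ k = k₀ then 1 else 0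

/-- the four points of a step lie in a small cube -/
private theorem c10b_step {N : ℕ} [NeZero N] {n : ℕ} (hn : 2 ≤ n) {t : Cube J} (k₀ : ℕ)
    (v v' : JJ N J → ℤ) (hv0 : ∀ g, v (.e g k₀) = 0) (hv0' : ∀ g, v' (.e g k₀) = 0)
    (hvf : {x : ZMod N × ℕ | v (.e x.1 x.2) = 1}.Finite)
    (Q₀ : Cube (JJ N J)) (hQ₀ : Q₀ ∈ PP (N := N) n t) (hd : Q₀.dim ≤ 1) (hQv : Q₀.Has v)
    (hQv' : Q₀.Has v') (S : Finset (JJ N J)) (y : JJ N J)
    (hS : (S = ∅ ∧ y = .e 0 k₀) ∨ JJ.e 0 k₀ ∈ S)
    (hy : (∃ g k, y = JJ.e g k) ∨ ∃ g j, y = JJ.a g j ∧ j ∈ t.fr) :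
    ∃ Q ∈ PP (N := N) n t, Q.dim ≤ Q₀.dim + 1 ∧
      Q.Has (fun x => if x ∈ S then c10b_end t k₀ x else v x) ∧
      Q.Has (fun x => if x ∈ S then c10b_end t k₀ x else v' x) ∧
      Q.Has (fun x => if x ∈ insert y S then c10b_end t k₀ x else v x) ∧
      Q.Has (fun x => if x ∈ insert y S then c10b_end t k₀ x else v' x) := by
  classical
  set c : JJ N J → ℤ := c10b_end t k₀ with hc
  -- lowest and highest vertices
  set lo : JJ N J → ℤ := fun x => if x ∈ S then c x else
    if x = y then min (min (v x) (v' x)) (c x) else min (v x) (v' x) with hlo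
  set hi : JJ N J → ℤ := fun x => if x ∈ S then c x else
    if x = y then max (max (v x) (v' x)) (c x) else max (v x) (v' x) with hhi
  have hva : ∀ g j, t.lo j ≤ v (.a g j) ∧ v (.a g j) ≤ t.hi j := c10b_bd_a hQ₀ hQv
  have hva' : ∀ g j, t.lo j ≤ v' (.a g j) ∧ v' (.a g j) ≤ t.hi j := c10b_bd_a hQ₀ hQv'
  have hve : ∀ g k, 0 ≤ v (.e g k) ∧ v (.e g k) ≤ 1 := c10b_bd_e hQ₀ hQv
  have hve' : ∀ g k, 0 ≤ v' (.e g k) ∧ v' (.e g k) ≤ 1 := c10b_bd_e hQ₀ hQv'
  have hca : ∀ g j, c (.a g j) = t.lo j := fun g j => rfl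
  have hce : ∀ g k, c (.e g k) = if g = 0 ∧ k = k₀ then 1 else 0 := fun g k => rfl
  have hce01 : ∀ g k, 0 ≤ c (.e g k) ∧ c (.e g k) ≤ 1 := by
    intro g k; rw [hce]; split_ifs <;> constructor <;> norm_num
  have hthi : ∀ j, t.lo j ≤ t.hi j ∧ t.hi j ≤ t.lo j + 1 := fun j => c10b_hi t j
  have hQhi : ∀ x, Q₀.lo x ≤ Q₀.hi x ∧ Q₀.hi x ≤ Q₀.lo x + 1 := fun x => c10b_hi Q₀ x
  have hlohi : ∀ x, lo x ≤ hi x ∧ hi x ≤ lo x + 1 := by
    intro x
    by_cases h1 : x ∈ S
    · simp only [hlo, hhi, h1, if_true]
      constructor <;> omega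
    · have h3 := hQv x
      have h4 := hQv' x
      have h5 := hQhi x
      by_cases h2 : x = y
      · simp only [hlo, hhi, h2, if_true]
        have h1' : y ∉ S := h2 ▸ h1
        simp only [h1', if_false]
        rcases x with ⟨g, j⟩ | ⟨g, k⟩
        · have a1 := hva g j; have a2 := hva' g j; have a3 := hca g j; have a4 := hthi j
          rw [← h2]
          constructor <;> omega
        · have a1 := hve g k; have a2 := hve' g k; have a3 := hce01 g k
          rw [← h2]
          constructor <;> omega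
      · simp only [hlo, hhi, h1, h2, if_false]
        constructor <;> omega
  have hout : ∀ x, x ∉ insert y Q₀.fr → lo x = hi x := by
    intro x hx
    rw [Finset.mem_insert, not_or] at hx
    by_cases h1 : x ∈ S
    · simp [hlo, hhi, h1]
    · have h3 := hQv x
      have h4 := hQv' x
      have h5 := c10b_hi_not Q₀ x hx.2
      simp only [hlo, hhi, h1, hx.1, if_false]
      omega
  obtain ⟨fr, hfr, hfrhi⟩ := c10b_mk (insert y Q₀.fr) lo hi hlohi hout
  set Q : Cube (JJ N J) := ⟨lo, fr⟩ with hQ
  have hQh : ∀ x, Q.hi x = hi x := fun x => hfrhi x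
  have hQl : ∀ x, Q.lo x = lo x := fun x => rfl
  have hQdim : Q.dim ≤ Q₀.dim + 1 := by
    show fr.card ≤ Q₀.fr.card + 1
    exact (Finset.card_le_card hfr).trans (Finset.card_insert_le _ _)
  have hQdim2 : Q.dim ≤ 2 := by omega
  -- values of the highest vertex
  have hi1 : ∀ g k, hi (.e g k) = 1 → (g = 0 ∧ k = k₀) ∨ v (.e g k) = 1 ∨ v' (.e g k) = 1 := by
    intro g k h
    by_cases h0 : g = 0 ∧ k = k₀
    · exact Or.inl h0
    · have a1 := hve g k; have a2 := hve' g k; have a3 := hce g k
      rw [if_neg h0] at a3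
      right
      by_cases h1 : JJ.e g k ∈ S
      · simp only [hhi, h1, if_true] at h
        omega
      · by_cases h2 : JJ.e g k = y
        · simp only [hhi, h2, if_true] at h
          have h1' : y ∉ S := h2 ▸ h1
          simp only [h1', if_false] at h
          rw [← h2] at h
          omega
        · simp only [hhi, h1, h2, if_false] at h
          omega
  refine ⟨Q, ⟨fun g => ⟨fun j => ?_, ?_⟩, ⟨?_, ?_, ?_, ?_⟩, by omega⟩, hQdim, ?_, ?_, ?_, ?_⟩
  · -- blocks are faces of `t`
    rw [c10b_blk_hi, hQh]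
    show t.lo j ≤ lo (.a g j) ∧ hi (.a g j) ≤ t.hi j
    have a1 := hva g j; have a2 := hva' g j; have a3 := hca g j; have a4 := hthi j
    by_cases h1 : JJ.a g j ∈ S
    · simp only [hlo, hhi, h1, if_true]
      constructor <;> omega
    · by_cases h2 : JJ.a g j = y
      · have h1' : y ∉ S := h2 ▸ h1
        simp only [hlo, hhi, h2, if_true, h1', if_false]
        rw [← h2]
        constructor <;> omega
      · simp only [hlo, hhi, h1, h2, if_false]
        constructor <;> omega
  · exact (c10b_blk_dim g Q).trans (by omega)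
  · -- range
    intro g k
    rw [hQh]
    show 0 ≤ lo (.e g k) ∧ hi (.e g k) ≤ 1
    have a1 := hve g k; have a2 := hve' g k; have a3 := hce01 g k
    by_cases h1 : JJ.e g k ∈ S
    · simp only [hlo, hhi, h1, if_true]
      constructor <;> omega
    · by_cases h2 : JJ.e g k = y
      · have h1' : y ∉ S := h2 ▸ h1
        simp only [hlo, hhi, h2, if_true, h1', if_false]
        rw [← h2]
        constructor <;> omega
      · simp only [hlo, hhi, h1, h2, if_false]
        constructor <;> omega
  · -- finitely many ones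
    refine (hvf.union (Set.finite_singleton ((0 : ZMod N), k₀))).subset ?_
    rintro ⟨g, k⟩ h
    have h' : lo (.e g k) = 1 := h
    have a1 := hve g k; have a2 := hve' g k
    by_cases h0 : g = 0 ∧ k = k₀
    · right
      simp [h0.1, h0.2]
    · left
      show v (.e g k) = 1
      have a3 := hce g k
      rw [if_neg h0] at a3
      by_cases h1 : JJ.e g k ∈ S
      · simp only [hlo, h1, if_true] at h'
        omega
      · by_cases h2 : JJ.e g k = y
        · have h1' : y ∉ S := h2 ▸ h1
          simp only [hlo, h2, if_true, h1', if_false] at h'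
          rw [← h2] at h'
          omega
        · simp only [hlo, h1, h2, if_false] at h'
          omega
  · -- a coordinate fixed at one
    rcases hS with ⟨hS0, hy0⟩ | hS1
    · obtain ⟨g, k, hgk⟩ := hQ₀.2.1.one
      refine ⟨g, k, ?_⟩
      show lo (.e g k) = 1
      have b1 := hQv (.e g k); have b2 := hQv' (.e g k)
      have a1 := hve g k; have a2 := hve' g k
      have hk : k ≠ k₀ := by
        rintro rfl
        have := hv0 g
        omega
      have h2 : JJ.e g k ≠ y := by
        rw [hy0]
        intro h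
        injection h with h3 h4
        exact hk h4
      simp only [hlo, hS0, Finset.notMem_empty, if_false, h2]
      omega
    · refine ⟨0, k₀, ?_⟩
      show lo (.e 0 k₀) = 1
      have a3 := hce 0 k₀
      simp only [hlo, hS1, if_true]
      simpa using a3
  · -- columns
    intro k g g' h h'
    rw [hQh] at h h'
    have e1 : ∀ g, hi (.e g k) = 1 → (g = 0 ∧ k = k₀) ∨ (Q₀.hi (.e g k) = 1 ∧ k ≠ k₀) := by
      intro g h
      by_cases hk : k = k₀
      · rcases hi1 g k h with h0 | h1 | h1
        · exact Or.inl h0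
        · rw [hk, hv0] at h1; omega
        · rw [hk, hv0'] at h1; omega
      · right
        refine ⟨?_, hk⟩
        have r := hQ₀.2.1.rng g k
        rcases hi1 g k h with h0 | h1 | h1
        · exact absurd h0.2 hk
        · have := (hQv (.e g k)).2
          omega
        · have := (hQv' (.e g k)).2
          omega
    rcases e1 g h with h1 | h1 <;> rcases e1 g' h' with h2 | h2
    · rw [h1.1, h2.1]
    · exact absurd h1.2 h2.2
    · exact absurd h2.2 h1.2
    · exact hQ₀.2.1.col k g g' h1.1 h2.1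
  all_goals
    intro x
    rw [hQh, hQl]
    simp only [hlo, hhi, Finset.mem_insert]
    by_cases h1 : x ∈ S
    · simp [h1]
    · by_cases h2 : x = y
      · have h1' : y ∉ S := h2 ▸ h1
        simp only [h2, h1', if_true, if_false, true_or, or_false]
        constructor <;> omega
      · simp only [h1, h2, if_false, or_self]
        constructor <;> omega

theorem ctr_pp {N : ℕ} [NeZero N] (n : ℕ) (hn : 2 ≤ n) (t : Cube J) :
    CTR (PP (N := N) n t) := by
  classical
  intro W hW hWp
  have hh : ∀ v : JJ N J → ℤ, (pt v).Has v := by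
    intro v j
    unfold pt Cube.hi
    simp
  -- the ones of the members of `W`
  have hvf : ∀ v ∈ W, {x : ZMod N × ℕ | v (.e x.1 x.2) = 1}.Finite := fun v hv => (hWp v hv).2.1.fin
  have hUf : (⋃ v ∈ W, {x : ZMod N × ℕ | v (.e x.1 x.2) = 1}).Finite := hW.biUnion hvf
  set U : Finset (ZMod N × ℕ) := hUf.toFinset with hU
  obtain ⟨k₀, hk₀⟩ := Infinite.exists_notMem_finset (U.image Prod.snd)
  have hUmem : ∀ v ∈ W, ∀ g k, v (.e g k) ≠ 0 → (g, k) ∈ U := by
    intro v hv g k h
    rw [hU, Set.Finite.mem_toFinset, Set.mem_iUnion₂]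
    refine ⟨v, hv, ?_⟩
    show v (.e g k) = 1
    have := c10b_bd_e (hWp v hv) (hh v) g k
    omega
  have hv0 : ∀ v ∈ W, ∀ g, v (.e g k₀) = 0 := by
    intro v hv g
    by_contra h
    exact hk₀ (Finset.mem_image.2 ⟨(g, k₀), hUmem v hv g k₀ h, rfl⟩)
  -- the list of the moving coordinates
  set F : Finset (JJ N J) := (U.image (fun x => JJ.e x.1 x.2)) ∪
    ((Finset.univ : Finset (ZMod N)) ×ˢ t.fr).image (fun x => JJ.a x.1 x.2) with hF
  have hFy : ∀ y ∈ F, (∃ g k, y = JJ.e g k) ∨ ∃ g j, y = JJ.a g j ∧ j ∈ t.fr := by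
    intro y hy
    rw [hF, Finset.mem_union, Finset.mem_image, Finset.mem_image] at hy
    rcases hy with ⟨x, _, rfl⟩ | ⟨x, hx, rfl⟩
    · exact Or.inl ⟨x.1, x.2, rfl⟩
    · exact Or.inr ⟨x.1, x.2, rfl, (Finset.mem_product.1 hx).2⟩
  set x₀ : JJ N J := JJ.e 0 k₀ with hx₀
  set l : List (JJ N J) := x₀ :: F.toList with hl
  have hlen : l.length = F.toList.length + 1 := by simp [hl]
  have hstep : ∀ a < l.length, ∃ y, (l.take (a + 1)).toFinset = insert y (l.take a).toFinset ∧
      (((l.take a).toFinset = ∅ ∧ y = x₀) ∨ x₀ ∈ (l.take a).toFinset) ∧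
      ((∃ g k, y = JJ.e g k) ∨ ∃ g j, y = JJ.a g j ∧ j ∈ t.fr) := by
    intro a ha
    refine ⟨l[a], ?_, ?_, ?_⟩
    · have e := List.take_succ_eq_append_getElem (l := l) ha
      ext x
      rw [List.mem_toFinset, e, Finset.mem_insert, List.mem_toFinset, List.mem_append,
        List.mem_singleton]
      exact or_comm
    · rcases a with _ | a
      · left
        simp [hl]
      · right
        simp [hl]
    · rcases a with _ | a
      · left
        exact ⟨0, k₀, by simp [hl, hx₀]⟩
      · apply hFy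
        have : l[a + 1] ∈ F.toList := by
          simp only [hl, List.getElem_cons_succ]
          exact List.getElem_mem _
        exact Finset.mem_toList.1 this
  refine ⟨l.length, fun a v x => if x ∈ (l.take a).toFinset then c10b_end t k₀ x else v x,
    c10b_end t k₀, ?_, ?_, ?_, ?_⟩
  · intro v _
    funext x
    simp
  · intro v hv
    funext x
    by_cases hx : x ∈ (l.take l.length).toFinset
    · simp only [hx, if_true]
    · simp only [hx, if_false]
      rw [List.take_length] at hx
      rw [List.mem_toFinset, hl, List.mem_cons, not_or] at hx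
      rw [Finset.mem_toList] at hx
      have hxF := hx.2
      rw [hF, Finset.mem_union, not_or] at hxF
      rcases x with ⟨g, j⟩ | ⟨g, k⟩
      · show v (.a g j) = t.lo j
        have h1 := c10b_bd_a (hWp v hv) (hh v) g j
        have hj : j ∉ t.fr := by
          intro hj
          exact hxF.2 (Finset.mem_image.2 ⟨(g, j), Finset.mem_product.2 ⟨Finset.mem_univ _, hj⟩, rfl⟩)
        rw [c10b_hi_not t j hj] at h1
        omega
      · show v (.e g k) = if g = 0 ∧ k = k₀ then 1 else 0
        have hne : ¬ (g = 0 ∧ k = k₀) := by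
          rintro ⟨rfl, rfl⟩
          exact hx.1 rfl
        rw [if_neg hne]
        by_contra h
        exact hxF.1 (Finset.mem_image.2 ⟨(g, k), hUmem v hv g k h, rfl⟩)
  · intro v hv a ha
    obtain ⟨y, h1, h2, h3⟩ := hstep a ha
    obtain ⟨Q, hQ, hd, q1, _, q3, _⟩ := c10b_step hn k₀ v v (hv0 v hv) (hv0 v hv) (hvf v hv)
      (pt v) (hWp v hv) (by simp [pt, Cube.dim]) (hh v) (hh v) _ y h2 h3
    refine ⟨Q, hQ, ?_, q1, ?_⟩
    · simpa [pt, Cube.dim] using hd
    · simp only [h1]
      exact q3
  · rintro v hv v' hv' ⟨Q₀, hQ₀, hd₀, a1, a2⟩ a ha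
    obtain ⟨y, h1, h2, h3⟩ := hstep a ha
    obtain ⟨Q, hQ, hd, q1, q2, q3, q4⟩ := c10b_step hn k₀ v v' (hv0 v hv) (hv0 v' hv') (hvf v hv)
      Q₀ hQ₀ hd₀ a1 a2 _ y h2 h3
    refine ⟨Q, hQ, by omega, q1, q2, ?_, ?_⟩
    · simp only [h1]
      exact q3
    · simp only [h1]
      exact q4

end AGE
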