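import Mathlib

/-!
# Project AGE, layer FILL: definitions of the topological part
-/

set_option autoImplicit false

noncomputable section

namespace AGE

/-- clamp to `[α, β]` -/
def clm (α β x : ℝ) : ℝ := max α (min x β)

/-- clamp to `[0, 1]` -/
def cl (x : ℝ) : ℝ := max 0 (min x 1)

/-- `w` is a map `ℝ^N → Y` with support in the box `(α, β)^N` (value `b` outside) -/
structure Lp {E N : Type} [TopologicalSpace E] (Y : Set E) (b : E) (α β : ℝ)
    (w : (N → ℝ) → E) : Prop where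
  con : Continuous w
  mem : ∀ x, w x ∈ Y
  out : ∀ x, (∃ i, x i ≤ α ∨ β ≤ x i) → w x = b

/-- the generalized loop of `w` -/
def gl {E N : Type} [TopologicalSpace E] {Y : Set E} {b : Y} {α β : ℝ} {w : (N → ℝ) → E}
    (h : Lp Y (b : E) α β w) : GenLoop N Y b :=
  ⟨⟨fun y => ⟨w (fun i => α + (β - α) * (y i : ℝ)), h.mem _⟩, by
      refine Continuous.subtype_mk (h.con.comp ?_) _
      fun_prop⟩, by
      rintro y ⟨i, hi | hi⟩
      · exact Subtype.ext (h.out _ ⟨i, Or.inl (by simp [hi])⟩)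
      · exact Subtype.ext (h.out _ ⟨i, Or.inr (by simp [hi])⟩)⟩

/-- the homotopy class of a map with compact support (trivial for other maps) -/
def cls {E N : Type} [TopologicalSpace E] {Y : Set E} (b : Y) (w : (N → ℝ) → E) :
    HomotopyGroup N Y b :=
  open Classical in
  if h : ∃ p : ℝ × ℝ, p.1 < p.2 ∧ Lp Y (b : E) p.1 p.2 w then Quotient.mk _ (gl h.choose_spec.2)
  else Quotient.mk _ GenLoop.const

/-- the `k`-skeleton of the cube `[0, 1]^F` -/
def Yk (F : Type) (k : ℕ) : Set (F → ℝ) :=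
  {y | (∀ j, 0 ≤ y j ∧ y j ≤ 1) ∧ ∃ s : Finset F, s.card ≤ k ∧ ∀ j, j ∉ s → y j = 0 ∨ y j = 1}

theorem zero_mem_Yk (F : Type) (k : ℕ) : (0 : F → ℝ) ∈ Yk F k :=
  ⟨fun _ => ⟨le_refl _, zero_le_one⟩, ∅, by simp, fun _ _ => Or.inl rfl⟩

/-- the base point `0` of the skeleton -/
def yb (F : Type) (k : ℕ) : Yk F k := ⟨0, zero_mem_Yk F k⟩

/-- the contraction of the cube to `0`, one coordinate at a time -/
def ct {F : Type} [Fintype F] (s : ℝ) (y : F → ℝ) : F → ℝ := fun j =>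
  y j * cl (1 + ((Fintype.equivFin F j : ℕ) : ℝ) - (Fintype.card F : ℝ) * s)

/-- the piecewise linear map of the line which fixes the integers and is constant near them -/
def rh (x : ℝ) : ℝ := (⌊x⌋ : ℝ) + cl (2 * Int.fract x - 1 / 2)

/-- nearness to the integers: `1` at the integers, `0` at distance at least `1/4` -/
def ta (x : ℝ) : ℝ := max 0 (max (1 - 4 * Int.fract x) (4 * Int.fract x - 3))

/-- nearness to the integer walls -/
def tav {N : Type} [Fintype N] (x : N → ℝ) : ℝ := 1 - ∏ i, (1 - ta (x i))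

/-- the homotopy from `W` to its sharpening -/
def shh {F N : Type} [Fintype F] [Fintype N] (W : (N → ℝ) → (F → ℝ)) (s : ℝ) (x : N → ℝ) :
    F → ℝ :=
  ct (cl (2 * s - 1) * tav x)
    (W (fun i => (1 - cl (2 * s)) * x i + cl (2 * s) * rh (x i)))

/-- the sharpening of `W`: zero on the integer walls -/
def shp {F N : Type} [Fintype F] [Fintype N] (W : (N → ℝ) → (F → ℝ)) (x : N → ℝ) : F → ℝ :=
  ct (tav x) (W (fun i => rh (x i)))

/-- the cell loop of `W` (depends only on the restriction of `W` to the unit cube) -/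
def cel {F N : Type} [Fintype F] [Fintype N] (W : (N → ℝ) → (F → ℝ)) (x : N → ℝ) : F → ℝ :=
  shp W (fun i => cl (x i))

/-- `W` is good for `cel`: continuous on the unit cube, values in the `n`-skeleton, and in the
`(n-1)`-skeleton on the boundary -/
structure CW {F N : Type} (n : ℕ) (W : (N → ℝ) → (F → ℝ)) : Prop where
  con : ContinuousOn W {x | ∀ i, 0 ≤ x i ∧ x i ≤ 1}
  mem : ∀ x : N → ℝ, (∀ i, 0 ≤ x i ∧ x i ≤ 1) → W x ∈ Yk F n
  bdy : ∀ x : N → ℝ, (∀ i, 0 ≤ x i ∧ x i ≤ 1) → (∃ i, x i = 0 ∨ x i = 1) → W x ∈ Yk F (n - 1)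

/-- the box `[0, M] × [0, M]^N` -/
def Bx (N : Type) (M : ℝ) : Set (ℝ × (N → ℝ)) :=
  {p | (0 ≤ p.1 ∧ p.1 ≤ M) ∧ ∀ i, 0 ≤ p.2 i ∧ p.2 i ≤ M}

/-- its boundary -/
def Sx (N : Type) (M : ℝ) : Set (ℝ × (N → ℝ)) :=
  {p | p ∈ Bx N M ∧ (p.1 = 0 ∨ p.1 = M ∨ ∃ i, p.2 i = 0 ∨ p.2 i = M)}

/-- sup distance to `[0, M]^N` -/
def ds {N : Type} [Fintype N] (M : ℝ) (x : N → ℝ) : ℝ := ‖fun i => x i - clm 0 M (x i)‖

end AGE
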