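import Pool.Agent.AGE.FTD

/-!
# Project AGE, layer FILL: more definitions of the topological part
-/

set_option autoImplicit false

noncomputable section

namespace AGE

/-- `W` is good: continuous, with values in the `n`-skeleton, and in the `(n-1)`-skeleton on the
integer walls -/
structure WW {F N : Type} (n : ℕ) (W : (N → ℝ) → (F → ℝ)) : Prop where
  con : Continuous W
  mem : ∀ x, W x ∈ Yk F n
  wal : ∀ x : N → ℝ, (∃ i, ∃ k : ℤ, x i = k) → W x ∈ Yk F (n - 1)

/-- the coordinates of a point of `ℝ × ℝ^N` -/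
def pc {N : Type} (p : ℝ × (N → ℝ)) (o : Option N) : ℝ := o.elim p.1 p.2

/-- `u` is good on the boundary of the box: continuous, with values in the `n`-skeleton, and in
the `(n-1)`-skeleton at points with two integral coordinates -/
structure UU {F N : Type} (n : ℕ) (M : ℝ) (u : ℝ × (N → ℝ) → (F → ℝ)) : Prop where
  con : ContinuousOn u (Sx N M)
  mem : ∀ p ∈ Sx N M, u p ∈ Yk F n
  two : ∀ p ∈ Sx N M, ∀ a b : Option N, a ≠ b → (∃ k : ℤ, pc p a = k) →
    (∃ k : ℤ, pc p b = k) → u p ∈ Yk F (n - 1)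

/-- the map `u` on bottom and sides, seen on `ℝ^N` -/
def W0 {X N : Type} [Fintype N] (M : ℝ) (u : ℝ × (N → ℝ) → X) (x : N → ℝ) : X :=
  u (min (ds M x) M, fun i => clm 0 M (x i))

/-- the map `u` on the top face, seen on `ℝ^N` -/
def W1 {X N : Type} (M : ℝ) (u : ℝ × (N → ℝ) → X) (x : N → ℝ) : X :=
  u (M, fun i => clm 0 M (x i))

/-- the sharpening with support in the box `[-M, 2M]^N` -/
def hat {F N : Type} [Fintype F] [Fintype N] (M : ℝ) (W : (N → ℝ) → (F → ℝ)) (x : N → ℝ) :
    F → ℝ :=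
  shp W (fun i => clm (-M) (2 * M) (x i))

end AGE
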