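import Pool.Agent.AGE.Defs
import Pool.Agent.AGE.FTD
import Pool.Agent.AGE.FTE

/-!
# Project AGE, layer FILL: definitions of the discrete part
-/

set_option autoImplicit false

noncomputable section

namespace AGE

variable {V J : Type} [LinearOrder V] [LinearOrder J]


/-- number of elements of `s` below `j` -/
def rk (s : Finset J) (j : J) : ℕ := (s.filter (· < j)).card

/-- the `k`-th coordinate, `0` if out of range -/
def xat {n : ℕ} (x : Fin n → ℝ) (k : ℕ) : ℝ := if h : k < n then x ⟨k, h⟩ else 0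

/-- the increasing parametrization of the face `S` of `t`, in the coordinates of `t` relative to
`t.lo` -/
def stc (n : ℕ) (t S : Cube J) (x : Fin n → ℝ) (j : {j // j ∈ t.fr}) : ℝ :=
  ((S.lo j : ℝ) - (t.lo j : ℝ)) + (if (j : J) ∈ S.fr then xat x (rk S.fr j) else 0)

/-- the homomorphism from the `n`-chains to the homotopy group of the `n`-skeleton of `t` -/
def XX (n : ℕ) [Nontrivial (Fin n)] (t : Cube J) :
    Ch J →ₗ[ℤ] Additive (HomotopyGroup (Fin n) (Yk {j // j ∈ t.fr} n) (yb {j // j ∈ t.fr} n)) :=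
  Finsupp.linearCombination ℤ
    (fun S : Cube J => Additive.ofMul (cls (yb {j // j ∈ t.fr} n) (cel (stc n t S))))

/-- the sign of the order of `e` on `s` -/
def ivs (e : V → J) (s : Finset V) : ℤ :=
  ∏ x ∈ s, ∏ y ∈ s, if x < y ∧ e y < e x then (-1 : ℤ) else 1

/-- `g` maps `Q` isomorphically onto `S`: direction `i` to direction `e i`, reversed if
`ε i = -1` -/
structure ND (g : (V → ℤ) → (J → ℤ)) (Q : Cube V) (S : Cube J) (e : V → J) (ε : V → ℤ) :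
    Prop where
  inj : ∀ i ∈ Q.fr, ∀ i' ∈ Q.fr, e i = e i' → i = i'
  img : ∀ i ∈ Q.fr, e i ∈ S.fr
  srj : ∀ k ∈ S.fr, ∃ i ∈ Q.fr, e i = k
  sgn : ∀ i ∈ Q.fr, ε i = 1 ∨ ε i = -1
  vpl : ∀ i ∈ Q.fr, ε i = 1 → ∀ v, Q.Has v → g v (e i) = S.lo (e i) + (v i - Q.lo i)
  vmi : ∀ i ∈ Q.fr, ε i = -1 → ∀ v, Q.Has v → g v (e i) = S.lo (e i) + 1 - (v i - Q.lo i)
  oth : ∀ k, k ∉ S.fr → ∀ v, Q.Has v → g v k = S.lo k

/-- the cell of `ℤ^(n+1)` orthogonal to direction `p` -/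
def sc (n : ℕ) (p : Fin (n + 1)) (a : ℤ) (c : Fin n → ℤ) : Cube (Fin (n + 1)) :=
  ⟨Fin.insertNth (α := fun _ => ℤ) p a c, Finset.univ.erase p⟩

/-- the realization of `g` on the cell `sc n p a c`, in the coordinates of `t` relative to `t.lo` -/
def wc (n : ℕ) (t : Cube J) (g : (Fin (n + 1) → ℤ) → (J → ℤ)) (p : Fin (n + 1)) (a : ℤ)
    (c : Fin n → ℤ) (x : Fin n → ℝ) (j : {j // j ∈ t.fr}) : ℝ :=
  real g (Fin.insertNth (α := fun _ => ℝ) p (a : ℝ) (fun k => (c k : ℝ) + x k)) j - (t.lo j : ℝ)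

/-- the realization of `g` on `ℝ × ℝ^n`, in the coordinates of `t` relative to `t.lo` -/
def uu (n : ℕ) (t : Cube J) (g : (Fin (n + 1) → ℤ) → (J → ℤ)) (p : ℝ × (Fin n → ℝ))
    (j : {j // j ∈ t.fr}) : ℝ :=
  real g (Fin.cons (α := fun _ => ℝ) p.1 p.2) j - (t.lo j : ℝ)

/-- conclusion of `fill` -/
def Fills (n M : ℕ) (t : Cube J) (g : (Fin (n + 1) → ℤ) → (J → ℤ)) : Prop :=
  ∃ D₀ : ℕ, 3 ≤ D₀ ∧ ∀ D : ℕ, D₀ ≤ D → ∃ G : (Fin (n + 1) → ℤ) → (J → ℤ),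
    VMap (Grd (M * D) (Faces (ucube (n + 1)))) (Sk n (Faces t)) G ∧
    ∀ v, (∃ Q ∈ Grd (M * D) (Sk n (Faces (ucube (n + 1)))), Q.Has v) → G v = g (flo D 1 v)

end AGE
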