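import Pool.Agent.AGE.Defs
import Pool.Agent.AGE.C1b
import Pool.Agent.AGE.C7a
import Pool.Agent.AGE.C7b

/-!
# AGE-FD1: discretization of a map into the skeleton

Plan. Let `ψ : ℤ → ℝ`, `ψ a = 0` if `a ≤ 1`, `M` if `a ≥ M D - 1`, `a / D` otherwise. Put `G v = g (flo D 1 v)` if some `v i ≤ 0` or `v i ≥ M D`, and `G v = rnd (U (ψ ∘ v))` otherwise.
Choice of `D₀`: on `Body (Faces t)` the coordinates `j ∉ t.fr` are constant (`t.lo j`); for `j ∈ t.fr` (finitely many) `x ↦ U x j` is uniformly continuous on the compact box (`IsCompact.uniformContinuousOn_of_continuous`,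
`isCompact_univ_pi`/`isCompact_Icc`), so there is `δ > 0` with `|U x j - U y j| < 1/2` for all `j` if `x, y` in the box, `|x i - y i| ≤ δ` for all `i`. Take `D₀ ≥ 3` with `2 / D₀ ≤ δ`.
Let `Q` be a cube of `Grd (M D) (Faces (ucube (n+1)))`: `0 ≤ Q.lo i`, `Q.hi i ≤ M D`, `Q.hi i ≤ Q.lo i + 1`.
Case 1: no vertex of `Q` is on the boundary: all `1 ≤ v i ≤ M D - 1`. Then `ψ` of two vertices differ by at most `1/D` in each coordinate (check `a = 1, 2`: `0` and `2/D`: at most `2/D`), so `round_cube` for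
`T = Sk n (Faces t)` (closed: `closed_faces`, `Cube.le_dim`) and the family `{U (ψ ∘ v) : Q.Has v}` gives a cube of `Sk n (Faces t)` containing all `G v`.
Case 2: some vertex of `Q` has a coordinate `i₀` with value `0` (or `M D`). Then `Q.lo i₀ = 0`, `Q.hi i₀ ≤ 1` (or `Q.hi i₀ = M D`, `Q.lo i₀ ≥ M D - 1`) and for all vertices `ψ (v i₀) = 0` (or `M`) and
`(v i₀ + 1) / D = 0` (or `M`) because `D ≥ 3`. For every other coordinate `k` there is an integer `c` with `0 ≤ c`, `c + 1 ≤ M`, such that for all vertices `v` of `Q`: `c ≤ ψ (v k) ≤ c + 1` and `c ≤ (v k + 1) / D ≤ c + 1`: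
write `a = Q.lo k` (if `Q.lo k = M D` use `a = M D - 1`), `a + 1 = c' D + r`, `0 ≤ r < D`; if `r ≥ 1` take `c = c'`, if `r = 0` take `c = c' - 1` (then `c' ≥ 1`, and the floors of `(a+1)/D`, `(a+2)/D` are both `c'`, `a / D = c' - 1/D`). So the cube
`R` with free coordinates all `k ≠ i₀`, `lo k = c k`, `lo i₀ = 0` (or `M`) is in `Grd M (Sk n (Faces (ucube (n+1))))` (parent: the face of the unit cube in direction `i₀`), `R.Has (flo D 1 v)` and `ψ ∘ v ∈ R.body` for
all vertices `v` of `Q`. `hg` gives `S ∈ Sk n (Faces t)` with `S.Has (g w)` for all `w` with `R.Has w`. For boundary vertices `G v = g (flo D 1 v)`; for the other ones `G v = rnd (U (ψ ∘ v)) = rnd (real g (ψ ∘ v))` (`hUg`: the coordinate `i₀` of `ψ ∘ v` is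
`0` or `M`) and `real_mem`, `round_body` give `S.Has (G v)`.
The boundary statement: if `v` is a vertex of a cube in `Grd (M D) (Sk n (Faces (ucube (n+1))))` then some `v i = 0` or `M D` (the parent has dimension `≤ n`, so a coordinate `i ∉ fr` of the parent `P`, where `P.lo i = P.hi i ∈ {0, 1}`).
-/

set_option autoImplicit false

noncomputable section

namespace AGE

variable {V J : Type} [LinearOrder V] [LinearOrder J]


/-- the coordinate change: constant near `0` and near `M D` -/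
private def FD1_psi (M D : ℕ) (a : ℤ) : ℝ :=
  if a ≤ 1 then 0 else if (M : ℤ) * D - 1 ≤ a then (M : ℝ) else (a : ℝ) / D

private theorem FD1_MD {M D : ℕ} (hM : 0 < M) (hD : 4 ≤ D) : (4 : ℤ) ≤ (M : ℤ) * D := by
  have h1 : (1 : ℤ) ≤ M := by exact_mod_cast hM
  have h2 : (4 : ℤ) ≤ D := by exact_mod_cast hD
  nlinarith

private theorem FD1_psi_mem {M D : ℕ} (hD : 4 ≤ D) (a : ℤ) :
    0 ≤ FD1_psi M D a ∧ FD1_psi M D a ≤ M := by
  have hD0 : (0 : ℝ) < D := by
    have : 0 < D := by omega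
    exact_mod_cast this
  unfold FD1_psi
  split_ifs with h1 h2
  · exact ⟨le_rfl, Nat.cast_nonneg _⟩
  · exact ⟨Nat.cast_nonneg _, le_rfl⟩
  · have h3 : (0 : ℤ) ≤ a := by omega
    have h4 : a ≤ (M : ℤ) * D := by omega
    have h5 : (0 : ℝ) ≤ a := by exact_mod_cast h3
    have h6 : (a : ℝ) ≤ M * D := by exact_mod_cast h4
    exact ⟨div_nonneg h5 hD0.le, (div_le_iff₀ hD0).2 h6⟩

private theorem FD1_psi_succ {M D : ℕ} (hM : 0 < M) (hD : 4 ≤ D) (a : ℤ) :
    |FD1_psi M D a - FD1_psi M D (a + 1)| ≤ 2 / D := by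
  have hD0 : (0 : ℝ) < D := by
    have : 0 < D := by omega
    exact_mod_cast this
  have hMD := FD1_MD hM hD
  have hpos : (0 : ℝ) ≤ 2 / D := by positivity
  unfold FD1_psi
  by_cases h1 : a ≤ 1
  · rw [if_pos h1]
    by_cases h2 : a + 1 ≤ 1
    · rw [if_pos h2]
      simpa using hpos
    · have ha : a = 1 := by omega
      subst ha
      rw [if_neg h2, if_neg (by omega)]
      push_cast
      rw [zero_sub, abs_neg, abs_of_nonneg (by positivity)]
  · rw [if_neg h1, if_neg (by omega : ¬ a + 1 ≤ 1)]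
    by_cases h2 : (M : ℤ) * D - 1 ≤ a
    · rw [if_pos h2, if_pos (by omega : (M : ℤ) * D - 1 ≤ a + 1)]
      simpa using hpos
    · rw [if_neg h2]
      by_cases h3 : (M : ℤ) * D - 1 ≤ a + 1
      · rw [if_pos h3]
        have ha : a = (M : ℤ) * D - 2 := by omega
        have ha' : (a : ℝ) = M * D - 2 := by exact_mod_cast ha
        have e : (a : ℝ) / D - M = -(2 / D) := by
          rw [ha']
          field_simp
          ring
        rw [e, abs_neg, abs_of_nonneg hpos]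
      · rw [if_neg h3]
        have e : (a : ℝ) / D - ((a + 1 : ℤ) : ℝ) / D = -(1 / D) := by
          push_cast
          field_simp
          ring
        rw [e, abs_neg, abs_of_nonneg (by positivity)]
        gcongr
        norm_num

private theorem FD1_psi_lip {M D : ℕ} (hM : 0 < M) (hD : 4 ≤ D) {q a b : ℤ} (ha : q ≤ a) (ha' : a ≤ q + 1)
    (hb : q ≤ b) (hb' : b ≤ q + 1) : |FD1_psi M D a - FD1_psi M D b| ≤ 2 / D := by
  have hpos : (0 : ℝ) ≤ 2 / D := by positivity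
  rcases (by omega : a = b ∨ (b = a + 1) ∨ (a = b + 1)) with h | h | h
  · rw [h, sub_self, abs_zero]
    exact hpos
  · rw [h]
    exact FD1_psi_succ hM hD a
  · rw [h, abs_sub_comm]
    exact FD1_psi_succ hM hD b

private theorem FD1_c {M D : ℕ} (hM : 0 < M) (hD : 4 ≤ D) {a : ℤ} (ha0 : 0 ≤ a) :
    ∃ c : ℤ, 0 ≤ c ∧ c + 1 ≤ M ∧ ∀ v : ℤ, a ≤ v → v ≤ a + 1 → v ≤ (M : ℤ) * D →
      (c ≤ (v + 1) / (D : ℤ) ∧ (v + 1) / (D : ℤ) ≤ c + 1) ∧
        ((c : ℝ) ≤ FD1_psi M D v ∧ FD1_psi M D v ≤ c + 1) := by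
  have hMD := FD1_MD hM hD
  have hDz : (4 : ℤ) ≤ D := by exact_mod_cast hD
  have hMz : (1 : ℤ) ≤ M := by exact_mod_cast hM
  have hD0 : (0 : ℝ) < D := by
    have : 0 < D := by omega
    exact_mod_cast this
  set a' : ℤ := min a ((M : ℤ) * D - 1) with ha'
  have b1 : 0 ≤ a' := le_min ha0 (by omega)
  have b2 : a' ≤ (M : ℤ) * D - 1 := min_le_right _ _
  set c : ℤ := a' / (D : ℤ) with hc
  have c1 : c * D ≤ a' := Int.ediv_mul_le _ (by omega)
  have c2 : a' < (c + 1) * D := Int.lt_ediv_add_one_mul_self _ (by omega)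
  have c3 : (c + 1) * (D : ℤ) = c * D + D := by ring
  have c4 : (c + 2) * (D : ℤ) = c * D + 2 * D := by ring
  have c0 : 0 ≤ c := Int.ediv_nonneg b1 (by omega)
  have cM : c < M := Int.ediv_lt_of_lt_mul (by omega) (by omega)
  refine ⟨c, c0, by omega, fun v h1 h2 h3 => ⟨⟨?_, ?_⟩, ?_⟩⟩
  · have h4 : a' ≤ a := min_le_left _ _
    exact Int.le_ediv_of_mul_le (by omega) (by omega)
  · have h4 : v ≤ a' + 1 := by
      rcases min_choice a ((M : ℤ) * D - 1) with h | h <;> omega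
    have h5 : (v + 1) / (D : ℤ) < c + 2 := Int.ediv_lt_of_lt_mul (by omega) (by omega)
    omega
  · have h4 : a' ≤ v := (min_le_left _ _).trans h1
    have h5 : v ≤ a' + 1 := by
      rcases min_choice a ((M : ℤ) * D - 1) with h | h <;> omega
    unfold FD1_psi
    split_ifs with h6 h7
    · have h8 : c = 0 := by
        by_contra hne
        have h9 : 1 ≤ c := by omega
        have h10 : 1 * (D : ℤ) ≤ c * D := mul_le_mul_of_nonneg_right h9 (by omega)
        omega
      rw [h8]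
      norm_num
    · have h8 : (M : ℤ) ≤ c + 1 := by
        by_contra hlt
        have h9 : c + 2 ≤ (M : ℤ) := by omega
        have h10 : (c + 2) * (D : ℤ) ≤ M * D := mul_le_mul_of_nonneg_right h9 (by omega)
        omega
      have h9 : (M : ℝ) ≤ c + 1 := by exact_mod_cast h8
      have h10 : (c : ℝ) ≤ M := by exact_mod_cast cM.le
      exact ⟨h10, h9⟩
    · have h8 : c * (D : ℤ) ≤ v := by omega
      have h9 : v ≤ (c + 1) * (D : ℤ) := by omega
      have h8' : (c : ℝ) * D ≤ v := by exact_mod_cast h8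
      have h9' : (v : ℝ) ≤ (c + 1) * D := by exact_mod_cast h9
      exact ⟨(le_div_iff₀ hD0).2 h8', (div_le_iff₀ hD0).2 h9'⟩

/-- uniform continuity on the box -/
private theorem FD1_unif {n M : ℕ} {t : Cube J} {U : (Fin (n + 1) → ℝ) → (J → ℝ)}
    (hU : ContinuousOn U {x | ∀ i, 0 ≤ x i ∧ x i ≤ M})
    (hUT : ∀ x : Fin (n + 1) → ℝ, (∀ i, 0 ≤ x i ∧ x i ≤ M) → U x ∈ Body (Sk n (Faces t))) :
    ∃ δ : ℝ, 0 < δ ∧ ∀ x y : Fin (n + 1) → ℝ, (∀ i, 0 ≤ x i ∧ x i ≤ M) → (∀ i, 0 ≤ y i ∧ y i ≤ M) →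
      (∀ i, |x i - y i| < δ) → ∀ j, |U x j - U y j| < 1 / 2 := by
  have hK : IsCompact {x : Fin (n + 1) → ℝ | ∀ i, 0 ≤ x i ∧ x i ≤ M} := by
    have h1 : {x : Fin (n + 1) → ℝ | ∀ i, 0 ≤ x i ∧ x i ≤ M} =
        Set.pi Set.univ (fun _ : Fin (n + 1) => Set.Icc (0 : ℝ) M) := by
      ext x
      simp only [Set.mem_ofPred_eq, Set.mem_pi, Set.mem_univ, Set.mem_Icc, true_implies]
    rw [h1]
    exact isCompact_univ_pi fun _ => isCompact_Icc
  have hc : ContinuousOn (fun x => fun j : {j // j ∈ t.fr} => U x j)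
      {x : Fin (n + 1) → ℝ | ∀ i, 0 ≤ x i ∧ x i ≤ M} :=
    continuousOn_pi.2 fun j => (continuousOn_pi.1 hU) j
  have hu := hK.uniformContinuousOn_of_continuous hc
  rw [Metric.uniformContinuousOn_iff] at hu
  obtain ⟨δ, hδ, h⟩ := hu (1 / 2) (by norm_num)
  refine ⟨δ, hδ, fun x y hx hy hxy j => ?_⟩
  by_cases hj : j ∈ t.fr
  · have h1 := h x hx y hy ((dist_pi_lt_iff hδ).2 fun i => by rw [Real.dist_eq]; exact hxy i)
    have h2 := (dist_pi_lt_iff (by norm_num : (0 : ℝ) < 1 / 2)).1 h1 ⟨j, hj⟩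
    rw [Real.dist_eq] at h2
    exact h2
  · have h1 : ∀ z : Fin (n + 1) → ℝ, (∀ i, 0 ≤ z i ∧ z i ≤ M) → U z j = t.lo j := by
      intro z hz
      obtain ⟨Q, ⟨hQ, _⟩, hb⟩ := hUT z hz
      obtain ⟨h2, h3⟩ := hb j
      obtain ⟨h4, h5⟩ := hQ j
      have h6 : t.hi j = t.lo j := if_neg hj
      rw [h6] at h5
      have h7 : (t.lo j : ℝ) ≤ Q.lo j := by exact_mod_cast h4
      have h8 : (Q.hi j : ℝ) ≤ t.lo j := by exact_mod_cast h5
      linarith
    rw [h1 x hx, h1 y hy, sub_self, abs_zero]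
    norm_num

private theorem FD1_ucube {n : ℕ} {P : Cube (Fin (n + 1))} (h : P ∈ Faces (ucube (n + 1))) (i : Fin (n + 1)) :
    0 ≤ P.lo i ∧ P.hi i ≤ 1 := by
  have h1 := h i
  have h2 : (ucube (n + 1)).hi i = 1 := by
    unfold Cube.hi ucube
    simp
  rw [h2] at h1
  exact h1

private theorem FD1_hi (Q : Cube V) (i : V) : Q.lo i ≤ Q.hi i ∧ Q.hi i ≤ Q.lo i + 1 := by
  unfold Cube.hi
  split_ifs <;> omega

private theorem FD1_grd {n M D : ℕ} {Q : Cube (Fin (n + 1))}
    (hQ : Q ∈ Grd (M * D) (Faces (ucube (n + 1)))) (i : Fin (n + 1)) :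
    0 ≤ Q.lo i ∧ Q.hi i ≤ (M : ℤ) * D := by
  obtain ⟨P, hP, hin⟩ := hQ
  obtain ⟨h1, h2⟩ := FD1_ucube hP i
  obtain ⟨h3, h4⟩ := hin i
  push_cast at h3 h4
  have h5 : (0 : ℤ) ≤ (M : ℤ) * D := by positivity
  constructor
  · exact (mul_nonneg h5 h1).trans h3
  · refine h4.trans ?_
    have := mul_le_mul_of_nonneg_left h2 h5
    rwa [mul_one] at this

theorem disc (n M : ℕ) (hM : 0 < M) (t : Cube J) (g : (Fin (n + 1) → ℤ) → (J → ℤ))
    (hg : VMap (Grd M (Sk n (Faces (ucube (n + 1))))) (Sk n (Faces t)) g)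
    (U : (Fin (n + 1) → ℝ) → (J → ℝ))
    (hU : ContinuousOn U {x | ∀ i, 0 ≤ x i ∧ x i ≤ M})
    (hUT : ∀ x : Fin (n + 1) → ℝ, (∀ i, 0 ≤ x i ∧ x i ≤ M) → U x ∈ Body (Sk n (Faces t)))
    (hUg : ∀ x : Fin (n + 1) → ℝ, (∀ i, 0 ≤ x i ∧ x i ≤ M) → (∃ i, x i = 0 ∨ x i = M) →
      U x = real g x) :
    ∃ D₀ : ℕ, 3 ≤ D₀ ∧ ∀ D : ℕ, D₀ ≤ D → ∃ G : (Fin (n + 1) → ℤ) → (J → ℤ),
      VMap (Grd (M * D) (Faces (ucube (n + 1)))) (Sk n (Faces t)) G ∧
      ∀ v, (∃ Q ∈ Grd (M * D) (Sk n (Faces (ucube (n + 1)))), Q.Has v) → G v = g (flo D 1 v) := by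
  classical
  obtain ⟨δ, hδ, hunif⟩ := FD1_unif hU hUT
  refine ⟨max 4 (⌈2 / δ⌉₊ + 1), (by norm_num : 3 ≤ 4).trans (le_max_left _ _), fun D hD => ?_⟩
  have hD4 : 4 ≤ D := (le_max_left _ _).trans hD
  have hDz : (4 : ℤ) ≤ D := by exact_mod_cast hD4
  have hMD := FD1_MD hM hD4
  have hMz : (1 : ℤ) ≤ M := by exact_mod_cast hM
  have hD0 : (0 : ℝ) < D := by
    have : 0 < D := by omega
    exact_mod_cast this
  have hDδ : 2 / (D : ℝ) < δ := by
    have h1 : ⌈2 / δ⌉₊ + 1 ≤ D := (le_max_right _ _).trans hD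
    have h2 : (⌈2 / δ⌉₊ : ℝ) + 1 ≤ D := by exact_mod_cast h1
    have h3 : 2 / δ ≤ ⌈2 / δ⌉₊ := Nat.le_ceil _
    have h4 : 2 / δ < D := by linarith
    rw [div_lt_iff₀ hδ] at h4
    rw [div_lt_iff₀ hD0]
    linarith
  let G : (Fin (n + 1) → ℤ) → (J → ℤ) := fun v =>
    if ∃ i, v i ≤ 0 ∨ (M : ℤ) * D ≤ v i then g (flo D 1 v) else rnd (U (fun i => FD1_psi M D (v i)))
  have hbox : ∀ v : Fin (n + 1) → ℤ, ∀ i, 0 ≤ FD1_psi M D (v i) ∧ FD1_psi M D (v i) ≤ M :=
    fun v i => FD1_psi_mem hD4 (v i)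
  refine ⟨G, ?_, ?_⟩
  · intro Q hQ
    by_cases hbd : ∃ v, Q.Has v ∧ ∃ i, v i ≤ 0 ∨ (M : ℤ) * D ≤ v i
    · -- some vertex on the boundary
      obtain ⟨v₀, hv₀, i₀, hi₀⟩ := hbd
      obtain ⟨e', e, he, he', hev⟩ : ∃ e' e : ℤ, (e = M * e') ∧ (e' = 0 ∨ e' = 1) ∧ ∀ v, Q.Has v →
          (v i₀ + 1) / (D : ℤ) = e ∧ FD1_psi M D (v i₀) = e := by
        have hQi := FD1_grd hQ i₀
        have hh := FD1_hi Q i₀
        have hv := hv₀ i₀
        rcases hi₀ with hi₀ | hi₀
        · refine ⟨0, 0, by ring, Or.inl rfl, fun v hv' => ?_⟩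
          have h1 := hv' i₀
          refine ⟨Int.ediv_eq_zero_of_lt (by omega) (by omega), ?_⟩
          unfold FD1_psi
          rw [if_pos (by omega)]
          norm_num
        · refine ⟨1, M, by ring, Or.inr rfl, fun v hv' => ?_⟩
          have h1 := hv' i₀
          constructor
          · have h2 : (M : ℤ) ≤ (v i₀ + 1) / (D : ℤ) := Int.le_ediv_of_mul_le (by omega) (by omega)
            have h3 : ((M : ℤ) + 1) * D = (M : ℤ) * D + D := by ring
            have h4 : (v i₀ + 1) / (D : ℤ) < (M : ℤ) + 1 := Int.ediv_lt_of_lt_mul (by omega) (by omega)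
            omega
          · unfold FD1_psi
            rw [if_neg (by omega), if_pos (by omega)]
            norm_num
      have hcex : ∀ k : Fin (n + 1), ∃ c : ℤ, 0 ≤ c ∧ c + 1 ≤ M ∧ ∀ v, Q.Has v →
          (c ≤ (v k + 1) / (D : ℤ) ∧ (v k + 1) / (D : ℤ) ≤ c + 1) ∧
            ((c : ℝ) ≤ FD1_psi M D (v k) ∧ FD1_psi M D (v k) ≤ c + 1) := by
        intro k
        have hQk := FD1_grd hQ k
        have hh := FD1_hi Q k
        obtain ⟨c, h1, h2, h3⟩ := FD1_c hM hD4 hQk.1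
        refine ⟨c, h1, h2, fun v hv => ?_⟩
        have hvk := hv k
        exact h3 (v k) hvk.1 (by omega) (by omega)
      choose c hc0 hc1 hcv using hcex
      let R : Cube (Fin (n + 1)) := ⟨fun k => if k = i₀ then e else c k, Finset.univ.erase i₀⟩
      let P : Cube (Fin (n + 1)) := ⟨fun k => if k = i₀ then e' else 0, Finset.univ.erase i₀⟩
      have hRi : R.lo i₀ = e ∧ R.hi i₀ = e := by
        have h1 : R.lo i₀ = e := if_pos rfl
        exact ⟨h1, by unfold Cube.hi; rw [if_neg (Finset.notMem_erase _ _), h1]⟩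
      have hRk : ∀ k, k ≠ i₀ → R.lo k = c k ∧ R.hi k = c k + 1 := by
        intro k hk
        have h1 : R.lo k = c k := if_neg hk
        exact ⟨h1, by unfold Cube.hi; rw [if_pos (Finset.mem_erase.2 ⟨hk, Finset.mem_univ _⟩), h1]⟩
      have hPi : P.lo i₀ = e' ∧ P.hi i₀ = e' := by
        have h1 : P.lo i₀ = e' := if_pos rfl
        exact ⟨h1, by unfold Cube.hi; rw [if_neg (Finset.notMem_erase _ _), h1]⟩
      have hPk : ∀ k, k ≠ i₀ → P.lo k = 0 ∧ P.hi k = 1 := by
        intro k hk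
        have h1 : P.lo k = 0 := if_neg hk
        exact ⟨h1, by unfold Cube.hi; rw [if_pos (Finset.mem_erase.2 ⟨hk, Finset.mem_univ _⟩), h1]; norm_num⟩
      have hPf : P ∈ Faces (ucube (n + 1)) := by
        intro k
        have h2 : (ucube (n + 1)).hi k = 1 := by
          unfold Cube.hi ucube
          simp
        have h3 : (ucube (n + 1)).lo k = 0 := rfl
        rw [h2, h3]
        by_cases hk : k = i₀
        · rw [hk, hPi.1, hPi.2]
          rcases he' with h | h <;> omega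
        · rw [(hPk k hk).1, (hPk k hk).2]
          omega
      have hPd : P.dim ≤ n := by
        show (Finset.univ.erase i₀).card ≤ n
        rw [Finset.card_erase_of_mem (Finset.mem_univ _), Finset.card_univ, Fintype.card_fin]
        omega
      have hRG : R ∈ Grd M (Sk n (Faces (ucube (n + 1)))) := by
        refine ⟨P, ⟨hPf, hPd⟩, fun k => ?_⟩
        by_cases hk : k = i₀
        · rw [hk, hPi.1, hPi.2, hRi.1, hRi.2, he]
          exact ⟨le_rfl, le_rfl⟩
        · rw [(hPk k hk).1, (hPk k hk).2, (hRk k hk).1, (hRk k hk).2]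
          have := hc0 k
          have := hc1 k
          constructor
          · rw [mul_zero]
            exact hc0 k
          · rw [mul_one]
            exact hc1 k
      obtain ⟨S, hS, hSg⟩ := hg R hRG
      refine ⟨S, hS, fun v hv => ?_⟩
      show S.Has (if ∃ i, v i ≤ 0 ∨ (M : ℤ) * D ≤ v i then g (flo D 1 v)
        else rnd (U (fun i => FD1_psi M D (v i))))
      split_ifs with hvb
      · refine hSg _ fun k => ?_
        show R.lo k ≤ (v k + 1) / (D : ℤ) ∧ (v k + 1) / (D : ℤ) ≤ R.hi k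
        by_cases hk : k = i₀
        · rw [hk, hRi.1, hRi.2, (hev v hv).1]
          exact ⟨le_rfl, le_rfl⟩
        · rw [(hRk k hk).1, (hRk k hk).2]
          exact (hcv k v hv).1
      · refine round_body S _ ?_
        have hUv : U (fun i => FD1_psi M D (v i)) = real g (fun i => FD1_psi M D (v i)) := by
          refine hUg _ (hbox v) ⟨i₀, ?_⟩
          have h1 := (hev v hv).2
          rcases he' with h | h
          · left
            rw [h1, he, h]
            norm_num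
          · right
            rw [h1, he, h]
            norm_num
        rw [hUv]
        refine real_mem g R S hSg _ fun k => ?_
        by_cases hk : k = i₀
        · rw [hk, hRi.1, hRi.2, (hev v hv).2]
          exact ⟨le_rfl, le_rfl⟩
        · rw [(hRk k hk).1, (hRk k hk).2]
          have h1 := (hcv k v hv).2
          refine ⟨h1.1, ?_⟩
          push_cast
          exact h1.2
    · -- no vertex on the boundary
      push Not at hbd
      have hGv : ∀ v, Q.Has v → G v = rnd (U (fun i => FD1_psi M D (v i))) := by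
        intro v hv
        refine if_neg ?_
        rintro ⟨i, hi⟩
        have h1 := hbd v hv i
        omega
      have hcl : Closed (Sk n (Faces t)) := by
        rintro P ⟨hP, hPn⟩ R hR
        exact ⟨closed_faces t P hP R hR, (Cube.le_dim hR).trans hPn⟩
      obtain ⟨S, hS, hSY⟩ := round_cube (Sk n (Faces t)) hcl
        {y | ∃ v, Q.Has v ∧ y = U (fun i => FD1_psi M D (v i))}
        ⟨_, Q.lo, Q.has_lo, rfl⟩ (by
          rintro _ ⟨v, _, rfl⟩
          exact hUT _ (hbox v)) (by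
          rintro _ ⟨v, hv, rfl⟩ _ ⟨v', hv', rfl⟩ j
          refine hunif _ _ (hbox v) (hbox v') (fun i => ?_) j
          have h1 := hv i
          have h2 := hv' i
          have h3 := FD1_hi Q i
          exact (FD1_psi_lip hM hD4 h1.1 (by omega) h2.1 (by omega)).trans_lt hDδ)
      refine ⟨S, hS, fun v hv => ?_⟩
      rw [hGv v hv]
      exact hSY _ ⟨v, hv, rfl⟩
  · rintro v ⟨Q, ⟨P, ⟨hP, hPn⟩, hin⟩, hv⟩
    refine if_pos ?_
    obtain ⟨i, hi⟩ : ∃ i, i ∉ P.fr := by
      by_contra hcon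
      push Not at hcon
      have h1 : P.fr = Finset.univ := Finset.eq_univ_iff_forall.2 hcon
      unfold Cube.dim at hPn
      rw [h1, Finset.card_univ, Fintype.card_fin] at hPn
      omega
    obtain ⟨h1, h2⟩ := FD1_ucube hP i
    have h3 : P.hi i = P.lo i := if_neg hi
    obtain ⟨h4, h5⟩ := hin i
    obtain ⟨h6, h7⟩ := hv i
    rw [h3] at h5 h2
    push_cast at h4 h5
    refine ⟨i, ?_⟩
    rcases (by omega : P.lo i = 0 ∨ P.lo i = 1) with h | h
    · left
      rw [h, mul_zero] at h5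
      omega
    · right
      rw [h, mul_one] at h4
      omega

end AGE
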