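import Pool.Agent.AGE.Defs
import Pool.Agent.AGE.FTD
import Pool.Agent.AGE.FTE
import Pool.Agent.AGE.FDD
import Pool.Agent.AGE.C1b
import Pool.Agent.AGE.C7a
import Pool.Agent.AGE.C7b
import Pool.Agent.AGE.FD1

/-!
# AGE-FD2: from a vertex map on the boundary grid to a map into the skeleton, and back

Plan. `uu_good`: for `p ∈ Sx` the point `x = Fin.cons p.1 p.2 ∈ [0, M]^(n+1)` has a coordinate in `{0, M}`. General fact (prove it as a private lemma): if `A` is the set of coordinates of `x` which are not integers then `x` lies in the body of the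
cube `Q` with `fr = A`, `lo i = ⌊x i⌋`, and `Q ∈ Grd M (Faces (ucube (n+1)))`; if some coordinate `x i ∈ {0, M}` then `Q ∈ Grd M (Sk n (Faces (ucube (n+1))))` (parent: the face of the unit cube orthogonal to `i`). `hg` gives `S ∈ Faces t` with
`S.dim ≤ card A` and `S.Has (g v)` for the vertices; `real_mem`: `real g x ∈ S.body`; so `uu n t g p ∈ Yk F (card A)`: coordinates `j ∉ S.fr` of `real g x` are `S.lo j`, and `S.lo j - t.lo j ∈ {0, 1}`. `card A ≤ n` always (`i ∉ A`), and `≤ n - 1`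
if two coordinates are integral (`pc p none = x 0`, `pc p (some i) = x i.succ`). Continuity: `real_continuous`, `Fin.cons` is continuous (`Continuous.finCons`/`continuous_pi` with `Fin.cases`).
`fill_of_ext`: `disc` with `U' x j = t.lo j + U (x 0, fun i => x i.succ) ⟨j, h⟩` for `j ∈ t.fr`, `t.lo j` otherwise. `U' x ∈ Body (Sk n (Faces t))`: for `y ∈ Yk F n` with the finset `s`, `card s ≤ n`: the cube with `fr = s.map (Function.Embedding.subtype _)`,
`lo j = t.lo j + (1 if j ∉ s and y j = 1, else 0)`. On the boundary `U (p) = uu n t g p = real g x j - t.lo j` for `j ∈ t.fr`, and `real g x j = t.lo j` for `j ∉ t.fr` (`real_mem` with `S.Le t`). `Fin.cons (x 0) (fun i => x i.succ) = x` (`Fin.cons_self_tail`).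
`hg` for `disc`: `Cel` gives `S.dim ≤ Q.dim ≤ n` (`Q.dim ≤ n` for `Q ∈ Grd M (Sk n ..)`: `Q.fr ⊆ P.fr`).
-/

set_option autoImplicit false

noncomputable section

namespace AGE

variable {V J : Type} [LinearOrder V] [LinearOrder J]


private theorem FD2_hi_mem {Q : Cube J} {j : J} (h : j ∈ Q.fr) : Q.hi j = Q.lo j + 1 := by
  unfold Cube.hi
  rw [if_pos h]

private theorem FD2_hi_not {Q : Cube J} {j : J} (h : j ∉ Q.fr) : Q.hi j = Q.lo j := by
  unfold Cube.hi
  rw [if_neg h]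

/-- the set of coordinates which are not integers -/
private def FD2_A {m : ℕ} (x : Fin m → ℝ) : Finset (Fin m) :=
  open Classical in Finset.univ.filter fun i => ((⌊x i⌋ : ℤ) : ℝ) ≠ x i

private theorem FD2_mem_A {m : ℕ} (x : Fin m → ℝ) (i : Fin m) :
    i ∈ FD2_A x ↔ ((⌊x i⌋ : ℤ) : ℝ) ≠ x i := by
  unfold FD2_A
  simp

private theorem FD2_not_A {m : ℕ} (x : Fin m → ℝ) (i : Fin m) (k : ℤ) (h : x i = k) :
    i ∉ FD2_A x := by
  rw [FD2_mem_A, h]
  simp

/-- the cube of a point -/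
private def FD2_Q {m : ℕ} (x : Fin m → ℝ) : Cube (Fin m) := ⟨fun i => ⌊x i⌋, FD2_A x⟩

private theorem FD2_body {m : ℕ} (x : Fin m → ℝ) : x ∈ (FD2_Q x).body := by
  intro i
  have h1 : (FD2_Q x).lo i = ⌊x i⌋ := rfl
  by_cases h : i ∈ FD2_A x
  · have h2 : (FD2_Q x).hi i = ⌊x i⌋ + 1 := FD2_hi_mem (Q := FD2_Q x) h
    rw [h1, h2]
    push_cast
    exact ⟨Int.floor_le _, (Int.lt_floor_add_one _).le⟩
  · have h2 : (FD2_Q x).hi i = ⌊x i⌋ := FD2_hi_not (Q := FD2_Q x) h
    rw [FD2_mem_A, not_not] at h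
    rw [h1, h2, h]
    exact ⟨le_rfl, le_rfl⟩

private theorem FD2_grd {n M : ℕ} (x : Fin (n + 1) → ℝ) (hx : ∀ i, 0 ≤ x i ∧ x i ≤ (M : ℝ))
    (i0 : Fin (n + 1)) (h0 : x i0 = 0 ∨ x i0 = (M : ℝ)) :
    FD2_Q x ∈ Grd M (Sk n (Faces (ucube (n + 1)))) := by
  classical
  let P : Cube (Fin (n + 1)) :=
    ⟨fun i => if i = i0 then (if x i0 = 0 then 0 else 1) else 0, Finset.univ.erase i0⟩
  have hP0 : ∀ j, j ≠ i0 → P.lo j = 0 ∧ P.hi j = 1 := by
    intro j hj
    have h1 : P.lo j = 0 := if_neg hj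
    have h2 : P.hi j = P.lo j + 1 :=
      FD2_hi_mem (Q := P) (Finset.mem_erase.2 ⟨hj, Finset.mem_univ _⟩)
    omega
  have hP1 : P.hi i0 = P.lo i0 := FD2_hi_not (Q := P) (Finset.notMem_erase _ _)
  have hP2 : P.lo i0 = if x i0 = 0 then 0 else 1 := if_pos rfl
  have hu : ∀ j, (ucube (n + 1)).lo j = 0 ∧ (ucube (n + 1)).hi j = 1 := by
    intro j
    have h1 : (ucube (n + 1)).lo j = 0 := rfl
    have h2 : (ucube (n + 1)).hi j = (ucube (n + 1)).lo j + 1 :=
      FD2_hi_mem (Q := ucube (n + 1)) (Finset.mem_univ _)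
    omega
  refine ⟨P, ⟨?_, ?_⟩, ?_⟩
  · intro j
    rw [(hu j).1, (hu j).2]
    by_cases hj : j = i0
    · subst hj
      rw [hP1, hP2]
      split_ifs <;> constructor <;> norm_num
    · rw [(hP0 j hj).1, (hP0 j hj).2]
      constructor <;> norm_num
  · show (Finset.univ.erase i0).card ≤ n
    rw [Finset.card_erase_of_mem (Finset.mem_univ _), Finset.card_univ, Fintype.card_fin]
    omega
  · intro j
    have hlo : (FD2_Q x).lo j = ⌊x j⌋ := rfl
    have hf0 : 0 ≤ ⌊x j⌋ := Int.floor_nonneg.2 (hx j).1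
    have hfM : ⌊x j⌋ ≤ (M : ℤ) := by
      have h1 : ⌊x j⌋ ≤ ⌊(M : ℝ)⌋ := Int.floor_le_floor (hx j).2
      rwa [Int.floor_natCast] at h1
    by_cases hj : j = i0
    · subst hj
      rw [hP1, hP2, hlo]
      rcases h0 with h0 | h0
      · have h1 : j ∉ FD2_A x := FD2_not_A x j 0 (by rw [h0]; norm_num)
        have h2 : (FD2_Q x).hi j = ⌊x j⌋ := FD2_hi_not (Q := FD2_Q x) h1
        rw [h2, if_pos h0, h0]
        simp
      · have h1 : j ∉ FD2_A x := FD2_not_A x j M (by rw [h0]; norm_num)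
        have h2 : (FD2_Q x).hi j = ⌊x j⌋ := FD2_hi_not (Q := FD2_Q x) h1
        have h3 : ⌊x j⌋ = (M : ℤ) := by rw [h0, Int.floor_natCast]
        rw [h2, h3]
        split_ifs with h4
        · rw [h0] at h4
          have h5 : (M : ℤ) = 0 := by exact_mod_cast h4
          rw [h5]
          simp
        · simp
    · rw [(hP0 j hj).1, (hP0 j hj).2, hlo]
      by_cases h1 : j ∈ FD2_A x
      · have h2 : (FD2_Q x).hi j = ⌊x j⌋ + 1 := FD2_hi_mem (Q := FD2_Q x) h1
        rw [h2]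
        have h3 : ⌊x j⌋ ≠ (M : ℤ) := by
          intro h3
          rw [FD2_mem_A] at h1
          apply h1
          have h4 := Int.floor_le (x j)
          rw [h3] at h4 ⊢
          push_cast at h4 ⊢
          exact le_antisymm h4 (hx j).2
        constructor <;> omega
      · have h2 : (FD2_Q x).hi j = ⌊x j⌋ := FD2_hi_not (Q := FD2_Q x) h1
        rw [h2]
        constructor <;> omega

private theorem FD2_real {n M : ℕ} (t : Cube J) (g : (Fin (n + 1) → ℤ) → (J → ℤ))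
    (hg : Cel (Grd M (Sk n (Faces (ucube (n + 1))))) (Faces t) g)
    (x : Fin (n + 1) → ℝ) (hx : ∀ i, 0 ≤ x i ∧ x i ≤ (M : ℝ))
    (i0 : Fin (n + 1)) (h0 : x i0 = 0 ∨ x i0 = (M : ℝ)) :
    ∃ S : Cube J, S.Le t ∧ S.dim ≤ (FD2_A x).card ∧ real g x ∈ S.body := by
  obtain ⟨S, hS, hd, hv⟩ := hg _ (FD2_grd x hx i0 h0)
  exact ⟨S, hS, hd, real_mem g (FD2_Q x) S hv x (FD2_body x)⟩

private theorem FD2_yk {n : ℕ} (t : Cube J) (g : (Fin (n + 1) → ℤ) → (J → ℤ))
    (p : ℝ × (Fin n → ℝ)) (k : ℕ) (S : Cube J) (hS : S.Le t) (hd : S.dim ≤ k)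
    (hb : real g (Fin.cons (α := fun _ => ℝ) p.1 p.2) ∈ S.body) :
    uu n t g p ∈ Yk {j // j ∈ t.fr} k := by
  have hlt : ∀ j : {j // j ∈ t.fr}, ((t.lo j : ℤ) : ℝ) ≤ (S.lo j : ℝ) ∧
      ((S.hi j : ℤ) : ℝ) ≤ (t.lo j : ℝ) + 1 := by
    intro j
    have h1 := hS j
    rw [FD2_hi_mem j.2] at h1
    constructor
    · exact_mod_cast h1.1
    · exact_mod_cast h1.2
  refine ⟨?_, S.fr.subtype (fun j => j ∈ t.fr), ?_, ?_⟩
  · intro j
    have h1 := hb j
    have h2 := hlt j
    unfold uu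
    constructor
    · linarith [h1.1, h2.1]
    · linarith [h1.2, h2.2]
  · rw [Finset.card_subtype]
    exact (Finset.card_filter_le _ _).trans hd
  · intro j hj
    have h3 : (j : J) ∉ S.fr := fun h => hj (Finset.mem_subtype.2 h)
    have h1 := hb j
    rw [FD2_hi_not h3] at h1
    have h4 := hS j
    rw [FD2_hi_mem j.2, FD2_hi_not h3] at h4
    have h5 : real g (Fin.cons (α := fun _ => ℝ) p.1 p.2) j = (S.lo j : ℝ) :=
      le_antisymm h1.2 h1.1
    have h6 : S.lo j = t.lo j ∨ S.lo j = t.lo j + 1 := by omega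
    unfold uu
    rw [h5]
    rcases h6 with h6 | h6
    · left
      rw [h6, sub_self]
    · right
      rw [h6]
      push_cast
      ring

private theorem FD2_box {n M : ℕ} (p : ℝ × (Fin n → ℝ)) (hp : p ∈ Bx (Fin n) (M : ℝ))
    (i : Fin (n + 1)) :
    0 ≤ (Fin.cons p.1 p.2 : Fin (n + 1) → ℝ) i ∧ (Fin.cons p.1 p.2 : Fin (n + 1) → ℝ) i ≤ (M : ℝ) := by
  refine Fin.cases ?_ ?_ i
  · exact hp.1
  · intro i
    rw [Fin.cons_succ]
    exact hp.2 i

private theorem FD2_bdy {n M : ℕ} (p : ℝ × (Fin n → ℝ)) (hp : p ∈ Sx (Fin n) (M : ℝ)) :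
    ∃ i, (Fin.cons p.1 p.2 : Fin (n + 1) → ℝ) i = 0 ∨
      (Fin.cons p.1 p.2 : Fin (n + 1) → ℝ) i = (M : ℝ) := by
  rcases hp.2 with h | h | ⟨i, h⟩
  · exact ⟨0, Or.inl h⟩
  · exact ⟨0, Or.inr h⟩
  · exact ⟨i.succ, by rw [Fin.cons_succ]; exact h⟩

/-- the coordinate of `Fin (n + 1)` -/
private def FD2_ix {n : ℕ} (a : Option (Fin n)) : Fin (n + 1) := a.elim 0 Fin.succ

private theorem FD2_ix_inj {n : ℕ} {a b : Option (Fin n)} (h : FD2_ix a = FD2_ix b) : a = b := by
  cases a with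
  | none =>
    cases b with
    | none => rfl
    | some j => exact absurd h.symm (Fin.succ_ne_zero j)
  | some i =>
    cases b with
    | none => exact absurd h (Fin.succ_ne_zero i)
    | some j => exact congrArg some (Fin.succ_injective _ h)

private theorem FD2_pc {n : ℕ} (p : ℝ × (Fin n → ℝ)) (a : Option (Fin n)) :
    (Fin.cons p.1 p.2 : Fin (n + 1) → ℝ) (FD2_ix a) = pc p a := by
  cases a with
  | none => rfl
  | some i => rfl

theorem uu_good (n M : ℕ) (hM : 0 < M) (hn : 1 ≤ n) (t : Cube J)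
    (g : (Fin (n + 1) → ℤ) → (J → ℤ))
    (hg : Cel (Grd M (Sk n (Faces (ucube (n + 1))))) (Faces t) g) :
    UU n (M : ℝ) (uu n t g) := by
  classical
  refine ⟨?_, ?_, ?_⟩
  · refine Continuous.continuousOn ?_
    refine continuous_pi fun j => ?_
    have h1 : Continuous fun p : ℝ × (Fin n → ℝ) =>
        (Fin.cons (α := fun _ => ℝ) p.1 p.2 : Fin (n + 1) → ℝ) := by
      refine continuous_pi fun i => ?_
      refine Fin.cases ?_ ?_ i
      · exact continuous_fst
      · intro i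
        simp only [Fin.cons_succ]
        exact (continuous_apply i).comp continuous_snd
    have h2 := (real_continuous g).comp h1
    exact ((continuous_apply (j : J)).comp h2).sub continuous_const
  · intro p hp
    obtain ⟨i0, h0⟩ := FD2_bdy p hp
    obtain ⟨S, hS, hd, hb⟩ := FD2_real t g hg (Fin.cons p.1 p.2) (FD2_box p hp.1) i0 h0
    refine FD2_yk t g p n S hS (hd.trans ?_) hb
    have h1 : i0 ∉ FD2_A (Fin.cons p.1 p.2 : Fin (n + 1) → ℝ) := by
      rcases h0 with h0 | h0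
      · exact FD2_not_A _ i0 0 (by rw [h0]; norm_num)
      · exact FD2_not_A _ i0 M (by rw [h0]; norm_num)
    have h2 : FD2_A (Fin.cons p.1 p.2 : Fin (n + 1) → ℝ) ⊆ Finset.univ.erase i0 := fun i hi =>
      Finset.mem_erase.2 ⟨fun h => h1 (h ▸ hi), Finset.mem_univ _⟩
    have h3 := Finset.card_le_card h2
    rw [Finset.card_erase_of_mem (Finset.mem_univ _), Finset.card_univ, Fintype.card_fin] at h3
    omega
  · rintro p hp a b hab ⟨ka, hka⟩ ⟨kb, hkb⟩
    obtain ⟨i0, h0⟩ := FD2_bdy p hp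
    obtain ⟨S, hS, hd, hb⟩ := FD2_real t g hg (Fin.cons p.1 p.2) (FD2_box p hp.1) i0 h0
    refine FD2_yk t g p (n - 1) S hS (hd.trans ?_) hb
    have ha : FD2_ix a ∉ FD2_A (Fin.cons p.1 p.2 : Fin (n + 1) → ℝ) :=
      FD2_not_A _ _ ka (by rw [FD2_pc]; exact hka)
    have hb' : FD2_ix b ∉ FD2_A (Fin.cons p.1 p.2 : Fin (n + 1) → ℝ) :=
      FD2_not_A _ _ kb (by rw [FD2_pc]; exact hkb)
    have hne : FD2_ix a ≠ FD2_ix b := fun h => hab (FD2_ix_inj h)
    have h2 : FD2_A (Fin.cons p.1 p.2 : Fin (n + 1) → ℝ) ⊆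
        (Finset.univ.erase (FD2_ix a)).erase (FD2_ix b) := fun i hi =>
      Finset.mem_erase.2 ⟨fun h => hb' (h ▸ hi),
        Finset.mem_erase.2 ⟨fun h => ha (h ▸ hi), Finset.mem_univ _⟩⟩
    have h3 := Finset.card_le_card h2
    rw [Finset.card_erase_of_mem (Finset.mem_erase.2 ⟨hne.symm, Finset.mem_univ _⟩),
      Finset.card_erase_of_mem (Finset.mem_univ _), Finset.card_univ, Fintype.card_fin] at h3
    omega

theorem fill_of_ext (n M : ℕ) (hM : 0 < M) (hn : 1 ≤ n) (t : Cube J)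
    (g : (Fin (n + 1) → ℤ) → (J → ℤ))
    (hg : Cel (Grd M (Sk n (Faces (ucube (n + 1))))) (Faces t) g)
    (U : ℝ × (Fin n → ℝ) → ({j // j ∈ t.fr} → ℝ)) (hU : ContinuousOn U (Bx (Fin n) (M : ℝ)))
    (hUY : ∀ p ∈ Bx (Fin n) (M : ℝ), U p ∈ Yk {j // j ∈ t.fr} n)
    (hUu : ∀ p ∈ Sx (Fin n) (M : ℝ), U p = uu n t g p) : Fills n M t g := by
  classical
  have hbx : ∀ x : Fin (n + 1) → ℝ, (∀ i, 0 ≤ x i ∧ x i ≤ (M : ℝ)) →
      ((x 0, fun i => x i.succ) : ℝ × (Fin n → ℝ)) ∈ Bx (Fin n) (M : ℝ) :=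
    fun x hx => ⟨hx 0, fun i => hx i.succ⟩
  refine disc n M hM t g ?_
    (fun x j => if h : j ∈ t.fr then (t.lo j : ℝ) + U (x 0, fun i => x i.succ) ⟨j, h⟩
      else (t.lo j : ℝ)) ?_ ?_ ?_
  · intro Q hQ
    obtain ⟨S, hS, hd, hv⟩ := hg Q hQ
    obtain ⟨P, hP, hQP⟩ := hQ
    refine ⟨S, ⟨hS, hd.trans ?_⟩, hv⟩
    refine le_trans (Finset.card_le_card ?_) hP.2
    intro j hj
    by_contra hn'
    have h1 := hQP j
    rw [FD2_hi_mem hj, FD2_hi_not hn'] at h1
    omega
  · refine continuousOn_pi.2 fun j => ?_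
    by_cases h : j ∈ t.fr
    · simp only [h, dif_pos]
      refine continuousOn_const.add ?_
      have h1 : ContinuousOn (fun p => U p ⟨j, h⟩) (Bx (Fin n) (M : ℝ)) :=
        continuousOn_pi.1 hU ⟨j, h⟩
      have h2 : Continuous fun x : Fin (n + 1) → ℝ =>
          ((x 0, fun i : Fin n => x i.succ) : ℝ × (Fin n → ℝ)) := by fun_prop
      exact h1.comp h2.continuousOn (fun x hx => hbx x hx)
    · simp only [h, dif_neg, not_false_iff]
      exact continuousOn_const
  · intro x hx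
    obtain ⟨h01, s, hs, hns⟩ := hUY _ (hbx x hx)
    set u := U (x 0, fun i => x i.succ) with hu
    let S : Cube J := ⟨fun j => t.lo j + (if h : j ∈ t.fr then
      (if (⟨j, h⟩ : {j // j ∈ t.fr}) ∉ s ∧ u ⟨j, h⟩ = 1 then 1 else 0) else 0),
      s.map (Function.Embedding.subtype _)⟩
    have hfr : ∀ j, j ∈ S.fr ↔ ∃ h : j ∈ t.fr, (⟨j, h⟩ : {j // j ∈ t.fr}) ∈ s := by
      intro j
      show j ∈ s.map (Function.Embedding.subtype _) ↔ _
      rw [Finset.mem_map]
      constructor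
      · rintro ⟨⟨i, hi⟩, hi', rfl⟩
        exact ⟨hi, hi'⟩
      · rintro ⟨h, h'⟩
        exact ⟨⟨j, h⟩, h', rfl⟩
    have hlo : ∀ j, S.lo j = t.lo j + (if h : j ∈ t.fr then
      (if (⟨j, h⟩ : {j // j ∈ t.fr}) ∉ s ∧ u ⟨j, h⟩ = 1 then 1 else 0) else 0) := fun j => rfl
    refine ⟨S, ⟨?_, ?_⟩, ?_⟩
    · intro j
      by_cases h : j ∈ t.fr
      · rw [FD2_hi_mem h]
        by_cases h' : (⟨j, h⟩ : {j // j ∈ t.fr}) ∈ s
        · rw [FD2_hi_mem ((hfr j).2 ⟨h, h'⟩), hlo, dif_pos h, if_neg (fun h2 => h2.1 h')]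
          constructor <;> omega
        · rw [FD2_hi_not (fun h2 => h' ((hfr j).1 h2).2), hlo, dif_pos h]
          split_ifs <;> constructor <;> omega
      · rw [FD2_hi_not h, FD2_hi_not (fun h2 => h ((hfr j).1 h2).1), hlo, dif_neg h]
        constructor <;> omega
    · show (s.map (Function.Embedding.subtype _)).card ≤ n
      rw [Finset.card_map]
      exact hs
    · intro j
      by_cases h : j ∈ t.fr
      · have h1 := h01 ⟨j, h⟩
        simp only [dif_pos h]
        by_cases h' : (⟨j, h⟩ : {j // j ∈ t.fr}) ∈ s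
        · rw [FD2_hi_mem ((hfr j).2 ⟨h, h'⟩), hlo, dif_pos h, if_neg (fun h2 => h2.1 h')]
          push_cast
          constructor <;> linarith [h1.1, h1.2]
        · rw [FD2_hi_not (fun h2 => h' ((hfr j).1 h2).2), hlo, dif_pos h]
          rcases hns ⟨j, h⟩ h' with h3 | h3
          · rw [if_neg (fun h2 => by rw [h3] at h2; exact zero_ne_one h2.2), h3]
            push_cast
            constructor <;> linarith
          · rw [if_pos ⟨h', h3⟩, h3]
            push_cast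
            constructor <;> linarith
      · simp only [dif_neg h]
        rw [FD2_hi_not (fun h2 => h ((hfr j).1 h2).1), hlo, dif_neg h]
        push_cast
        constructor <;> linarith
  · rintro x hx ⟨i0, h0⟩
    have hc : (Fin.cons (x 0) (fun i => x i.succ) : Fin (n + 1) → ℝ) = x := by
      funext i
      refine Fin.cases ?_ ?_ i
      · rfl
      · intro i
        rfl
    have hS : ((x 0, fun i => x i.succ) : ℝ × (Fin n → ℝ)) ∈ Sx (Fin n) (M : ℝ) := by
      refine ⟨hbx x hx, ?_⟩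
      revert h0
      refine Fin.cases ?_ ?_ i0
      · rintro (h | h)
        · exact Or.inl h
        · exact Or.inr (Or.inl h)
      · intro i h
        exact Or.inr (Or.inr ⟨i, h⟩)
    obtain ⟨S, hSt, -, hb⟩ := FD2_real t g hg x hx i0 h0
    funext j
    by_cases h : j ∈ t.fr
    · simp only [dif_pos h]
      rw [hUu _ hS]
      show (t.lo j : ℝ) + (real g (Fin.cons (α := fun _ => ℝ) (x 0) (fun i => x i.succ)) j -
        (t.lo j : ℝ)) = real g x j
      rw [hc]
      ring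
    · simp only [dif_neg h]
      have h1 := hSt j
      have h2 := hb j
      rw [FD2_hi_not h] at h1
      have h3 : S.lo j ≤ S.hi j := by
        have h4 := h2.1.trans h2.2
        exact_mod_cast h4
      have h5 : S.lo j = t.lo j := by omega
      have h6 : S.hi j = t.lo j := by omega
      rw [h5, h6] at h2
      exact le_antisymm h2.1 h2.2

end AGE
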