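import Pool.Agent.AGE.Defs
import Pool.Agent.AGE.FTD
import Pool.Agent.AGE.FTE
import Pool.Agent.AGE.FDD
import Pool.Agent.AGE.C1b
import Pool.Agent.AGE.C7a

/-!
# AGE-FD6a: the boundary cells and the faces of `t` are good for `cel`

Plan. `sc_mem`: the parent is the face of the unit cube orthogonal to `p` (`lo p = 0` if `a = 0`, `1` if `a = M`). `cw_wc`: continuity `real_continuous`, `Fin.insertNth` continuous (`continuous_pi`, `Fin.succAboveCases`/`Fin.insertNth_apply_same`, `..succAbove`). For `x` in the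
unit cube the point is in the body of `sc n p a c`; `hg` gives `S ∈ Faces t`, `S.dim ≤ n`, `real_mem`; so `wc .. x ∈ Yk F n` (coordinates outside `S.fr`: `S.lo j - t.lo j ∈ {0, 1}`). If `x k = 0` (or `1`) the point is in the body of the
face `(sc n p a c).dn` (or `.up`) in direction `p.succAbove k`, of dimension `n - 1`, which is in the closed complex: `Yk F (n - 1)`. `cw_stc`: `stc x j` is `S.lo j - t.lo j ∈ {0, 1}` for `j ∉ S.fr`, and `x_m`, `m = rk S.fr j < n`, for `j ∈ S.fr` (there
`S.lo j = t.lo j`); `card S.fr = n`; if `x k ∈ {0, 1}` the coordinate `j ∈ S.fr` with `rk S.fr j = k` (`rk` is a bijection `S.fr → [0, n)`) is also integral.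
-/

set_option autoImplicit false

noncomputable section

namespace AGE

variable {V J : Type} [LinearOrder V] [LinearOrder J]


private theorem FD6a_hi_mem {I : Type} [LinearOrder I] {Q : Cube I} {j : I} (h : j ∈ Q.fr) :
    Q.hi j = Q.lo j + 1 := if_pos h

private theorem FD6a_hi_not {I : Type} [LinearOrder I] {Q : Cube I} {j : I} (h : j ∉ Q.fr) :
    Q.hi j = Q.lo j := if_neg h

/-- points of a face of `t` of dimension at most `m`, relative to `t.lo`, lie in the
`m`-skeleton -/
private theorem FD6a_Yk (t S : Cube J) (hS : S.Le t) (y : J → ℝ) (hy : y ∈ S.body) (m : ℕ)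
    (hm : S.dim ≤ m) :
    (fun j : {j // j ∈ t.fr} => y j - (t.lo j : ℝ)) ∈ Yk {j // j ∈ t.fr} m := by
  have hb : ∀ j, (S.lo j : ℝ) ≤ y j ∧ y j ≤ (S.hi j : ℝ) := hy
  refine ⟨fun j => ?_, S.fr.subtype (· ∈ t.fr), ?_, fun j hj => ?_⟩
  · have h1 := hS j
    have h2 := hb j
    have h3 := FD6a_hi_mem j.2
    have h4 : (t.lo j : ℝ) ≤ (S.lo j : ℝ) := by exact_mod_cast h1.1
    have h5 : (S.hi j : ℝ) ≤ (t.lo j : ℝ) + 1 := by
      rw [h3] at h1
      exact_mod_cast h1.2
    constructor
    · linarith
    · linarith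
  · rw [Finset.card_subtype]
    exact (Finset.card_le_card (Finset.filter_subset _ _)).trans hm
  · rw [Finset.mem_subtype] at hj
    have h1 := hS j
    have h2 := hb j
    have h3 := FD6a_hi_mem j.2
    have h4 := FD6a_hi_not hj
    rw [h4] at h1 h2
    rw [h3] at h1
    have h5 : y j = (S.lo j : ℝ) := le_antisymm h2.2 h2.1
    have h6 : S.lo j = t.lo j ∨ S.lo j = t.lo j + 1 := by omega
    rcases h6 with h6 | h6
    · left
      show y j - (t.lo j : ℝ) = 0
      rw [h5, h6, sub_self]
    · right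
      show y j - (t.lo j : ℝ) = 1
      rw [h5, h6]
      push_cast
      ring

/-- the point of the cell `sc` -/
private theorem FD6a_body (n : ℕ) (p : Fin (n + 1)) (a : ℤ) (c : Fin n → ℤ) (x : Fin n → ℝ)
    (Q : Cube (Fin (n + 1))) (hp : Q.lo p = a)
    (hk : ∀ k, (Q.lo (p.succAbove k) : ℝ) ≤ c k + x k ∧
      (c k + x k : ℝ) ≤ (Q.hi (p.succAbove k) : ℝ)) (hpf : p ∉ Q.fr) :
    Fin.insertNth (α := fun _ => ℝ) p (a : ℝ) (fun k => (c k : ℝ) + x k) ∈ Q.body := by
  show ∀ j, (Q.lo j : ℝ) ≤ Fin.insertNth (α := fun _ => ℝ) p (a : ℝ)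
      (fun k => (c k : ℝ) + x k) j ∧ Fin.insertNth (α := fun _ => ℝ) p (a : ℝ)
      (fun k => (c k : ℝ) + x k) j ≤ (Q.hi j : ℝ)
  rw [Fin.forall_iff_succAbove p]
  constructor
  · rw [Fin.insertNth_apply_same, FD6a_hi_not hpf, hp]
    exact ⟨le_rfl, le_rfl⟩
  · intro k
    rw [Fin.insertNth_apply_succAbove]
    exact hk k

theorem sc_mem (n M : ℕ) (hM : 0 < M) (p : Fin (n + 1)) (a : ℤ) (ha : a = 0 ∨ a = M)
    (c : Fin n → ℤ) (hc : ∀ k, 0 ≤ c k ∧ c k < M) :
    sc n p a c ∈ Grd M (Sk n (Faces (ucube (n + 1)))) ∧ (sc n p a c).dim = n := by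
  have hcard : (Finset.univ.erase p : Finset (Fin (n + 1))).card = n := by
    rw [Finset.card_erase_of_mem (Finset.mem_univ p), Finset.card_univ, Fintype.card_fin]
    rfl
  refine ⟨?_, hcard⟩
  let P : Cube (Fin (n + 1)) :=
    ⟨Function.update (fun _ => (0 : ℤ)) p (if a = 0 then 0 else 1), Finset.univ.erase p⟩
  have hPp : P.lo p = if a = 0 then 0 else 1 := by
    show Function.update (fun _ => (0 : ℤ)) p (if a = 0 then 0 else 1) p = _
    exact Function.update_self _ _ _
  have hPk : ∀ k : Fin n, P.lo (p.succAbove k) = 0 := by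
    intro k
    show Function.update (fun _ => (0 : ℤ)) p (if a = 0 then 0 else 1) (p.succAbove k) = 0
    rw [Function.update_of_ne (Fin.succAbove_ne p k)]
  have hpf : p ∉ P.fr := Finset.notMem_erase p _
  have hkf : ∀ k : Fin n, p.succAbove k ∈ P.fr := fun k =>
    Finset.mem_erase.mpr ⟨Fin.succAbove_ne p k, Finset.mem_univ _⟩
  have hpf' : p ∉ (sc n p a c).fr := Finset.notMem_erase p _
  have hkf' : ∀ k : Fin n, p.succAbove k ∈ (sc n p a c).fr := fun k =>
    Finset.mem_erase.mpr ⟨Fin.succAbove_ne p k, Finset.mem_univ _⟩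
  have hlp : (sc n p a c).lo p = a := Fin.insertNth_apply_same (α := fun _ => ℤ) p a c
  have hlk : ∀ k : Fin n, (sc n p a c).lo (p.succAbove k) = c k := fun k =>
    Fin.insertNth_apply_succAbove (α := fun _ => ℤ) p a c k
  have hu1 : ∀ j, (ucube (n + 1)).lo j = 0 := fun _ => rfl
  have hu2 : ∀ j, (ucube (n + 1)).hi j = 1 := fun j => by
    rw [FD6a_hi_mem (Finset.mem_univ j), hu1 j, zero_add]
  have hMz : (0 : ℤ) < (M : ℤ) := by exact_mod_cast hM
  refine ⟨P, ⟨?_, hcard.le⟩, ?_⟩
  · show ∀ j, (ucube (n + 1)).lo j ≤ P.lo j ∧ P.hi j ≤ (ucube (n + 1)).hi j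
    rw [Fin.forall_iff_succAbove p]
    constructor
    · rw [FD6a_hi_not hpf, hu1, hu2, hPp]
      split_ifs
      · exact ⟨le_rfl, zero_le_one⟩
      · exact ⟨zero_le_one, le_rfl⟩
    · intro k
      rw [FD6a_hi_mem (hkf k), hu1, hu2, hPk k]
      exact ⟨le_rfl, by norm_num⟩
  · show ∀ j, (M : ℤ) * P.lo j ≤ (sc n p a c).lo j ∧ (sc n p a c).hi j ≤ (M : ℤ) * P.hi j
    rw [Fin.forall_iff_succAbove p]
    constructor
    · rw [FD6a_hi_not hpf, FD6a_hi_not hpf', hlp, hPp]
      have h1 : (M : ℤ) * (if a = 0 then 0 else 1) = a := by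
        by_cases h0 : a = 0
        · rw [if_pos h0, h0, mul_zero]
        · rw [if_neg h0, mul_one]
          exact ((ha.resolve_left h0)).symm
      rw [h1]
      exact ⟨le_rfl, le_rfl⟩
    · intro k
      rw [FD6a_hi_mem (hkf k), FD6a_hi_mem (hkf' k), hPk k, hlk k]
      have h1 := hc k
      constructor
      · rw [mul_zero]
        exact h1.1
      · rw [zero_add, mul_one]
        omega

theorem cw_wc (n M : ℕ) (hM : 0 < M) (hn : 1 ≤ n) (t : Cube J)
    (g : (Fin (n + 1) → ℤ) → (J → ℤ))
    (hg : Cel (Grd M (Sk n (Faces (ucube (n + 1))))) (Faces t) g) (p : Fin (n + 1)) (a : ℤ)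
    (ha : a = 0 ∨ a = M) (c : Fin n → ℤ) (hc : ∀ k, 0 ≤ c k ∧ c k < M) :
    CW n (wc n t g p a c) := by
  obtain ⟨hQ, hdim⟩ := sc_mem n M hM p a ha c hc
  have hpf : p ∉ (sc n p a c).fr := Finset.notMem_erase p _
  have hkf : ∀ k : Fin n, p.succAbove k ∈ (sc n p a c).fr := fun k =>
    Finset.mem_erase.mpr ⟨Fin.succAbove_ne p k, Finset.mem_univ _⟩
  have hlp : (sc n p a c).lo p = a := Fin.insertNth_apply_same (α := fun _ => ℤ) p a c
  have hlk : ∀ k : Fin n, (sc n p a c).lo (p.succAbove k) = c k := fun k =>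
    Fin.insertNth_apply_succAbove (α := fun _ => ℤ) p a c k
  have hclo : Closed (Grd M (Sk n (Faces (ucube (n + 1))))) := closed_grd M _
  have key : ∀ (x : Fin n → ℝ) (m : ℕ) (Q : Cube (Fin (n + 1))),
      Q ∈ Grd M (Sk n (Faces (ucube (n + 1)))) → Q.dim ≤ m →
      Fin.insertNth (α := fun _ => ℝ) p (a : ℝ) (fun k => (c k : ℝ) + x k) ∈ Q.body →
      wc n t g p a c x ∈ Yk {j // j ∈ t.fr} m := by
    intro x m Q hQK hQd hQb
    obtain ⟨S, hS, hSd, hSv⟩ := hg Q hQK
    exact FD6a_Yk t S hS _ (real_mem g Q S hSv _ hQb) m (hSd.trans hQd)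
  refine ⟨?_, fun x hx => ?_, fun x hx hb => ?_⟩
  · refine Continuous.continuousOn ?_
    refine continuous_pi fun j => ?_
    have h1 : Continuous fun x : Fin n → ℝ =>
        Fin.insertNth (α := fun _ => ℝ) p (a : ℝ) (fun k => (c k : ℝ) + x k) := by
      refine continuous_pi ?_
      rw [Fin.forall_iff_succAbove p]
      constructor
      · simp only [Fin.insertNth_apply_same]
        exact continuous_const
      · intro k
        simp only [Fin.insertNth_apply_succAbove]
        exact continuous_const.add (continuous_apply k)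
    exact (((continuous_apply (j : J)).comp (real_continuous g)).comp h1).sub continuous_const
  · refine key x n (sc n p a c) hQ hdim.le (FD6a_body n p a c x _ hlp (fun k => ?_) hpf)
    rw [FD6a_hi_mem (hkf k), hlk k]
    have h1 := hx k
    push_cast
    constructor
    · linarith
    · linarith
  · obtain ⟨i, hi | hi⟩ := hb
    · have hle : ((sc n p a c).dn (p.succAbove i)).Le (sc n p a c) :=
        Cube.dn_le _ _ (hkf i)
      have hpf2 : p ∉ ((sc n p a c).dn (p.succAbove i)).fr := fun h =>
        hpf (Finset.mem_of_mem_erase h)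
      refine key x (n - 1) ((sc n p a c).dn (p.succAbove i)) (hclo _ hQ _ hle) ?_
        (FD6a_body n p a c x _ hlp (fun k => ?_) hpf2)
      · show ((sc n p a c).fr.erase (p.succAbove i)).card ≤ n - 1
        rw [Finset.card_erase_of_mem (hkf i)]
        exact Nat.sub_le_sub_right hdim.le 1
      · have h1 := hx k
        have h2 : ((sc n p a c).dn (p.succAbove i)).lo (p.succAbove k) = c k := hlk k
        by_cases hki : k = i
        · subst hki
          rw [FD6a_hi_not (Finset.notMem_erase _ _), h2, hi, add_zero]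
          exact ⟨le_rfl, le_rfl⟩
        · have h3 : p.succAbove k ∈ ((sc n p a c).dn (p.succAbove i)).fr :=
            Finset.mem_erase.mpr ⟨fun h => hki (Fin.succAbove_right_injective h), hkf k⟩
          rw [FD6a_hi_mem h3, h2]
          push_cast
          constructor
          · linarith
          · linarith
    · have hle : ((sc n p a c).up (p.succAbove i)).Le (sc n p a c) :=
        Cube.up_le _ _ (hkf i)
      have hpf2 : p ∉ ((sc n p a c).up (p.succAbove i)).fr := fun h =>
        hpf (Finset.mem_of_mem_erase h)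
      have hlp2 : ((sc n p a c).up (p.succAbove i)).lo p = a := by
        refine (Function.update_of_ne ?_ _ _).trans hlp
        exact (Fin.succAbove_ne p i).symm
      refine key x (n - 1) ((sc n p a c).up (p.succAbove i)) (hclo _ hQ _ hle) ?_
        (FD6a_body n p a c x _ hlp2 (fun k => ?_) hpf2)
      · show ((sc n p a c).fr.erase (p.succAbove i)).card ≤ n - 1
        rw [Finset.card_erase_of_mem (hkf i)]
        exact Nat.sub_le_sub_right hdim.le 1
      · have h1 := hx k
        by_cases hki : k = i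
        · subst hki
          have h2 : ((sc n p a c).up (p.succAbove k)).lo (p.succAbove k) = c k + 1 := by
            refine (Function.update_self _ _ _).trans ?_
            rw [hlk k]
          rw [FD6a_hi_not (Finset.notMem_erase _ _), h2, hi]
          push_cast
          exact ⟨le_rfl, le_rfl⟩
        · have hne : p.succAbove k ≠ p.succAbove i := fun h =>
            hki (Fin.succAbove_right_injective h)
          have h2 : ((sc n p a c).up (p.succAbove i)).lo (p.succAbove k) = c k :=
            (Function.update_of_ne hne _ _).trans (hlk k)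
          have h3 : p.succAbove k ∈ ((sc n p a c).up (p.succAbove i)).fr :=
            Finset.mem_erase.mpr ⟨hne, hkf k⟩
          rw [FD6a_hi_mem h3, h2]
          push_cast
          constructor
          · linarith
          · linarith

private theorem FD6a_rk_lt (s : Finset J) {j j' : J} (hj : j ∈ s) (h : j < j') :
    rk s j < rk s j' := by
  refine Finset.card_lt_card (Finset.ssubset_iff_subset_ne.mpr ⟨fun i hi => ?_, fun he => ?_⟩)
  · rw [Finset.mem_filter] at hi ⊢
    exact ⟨hi.1, hi.2.trans h⟩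
  · have h1 : j ∈ s.filter (· < j') := Finset.mem_filter.mpr ⟨hj, h⟩
    rw [← he, Finset.mem_filter] at h1
    exact lt_irrefl _ h1.2

private theorem FD6a_rk_card (s : Finset J) {j : J} (hj : j ∈ s) : rk s j < s.card := by
  refine Finset.card_lt_card (Finset.ssubset_iff_subset_ne.mpr
    ⟨Finset.filter_subset _ _, fun he => ?_⟩)
  rw [← he, Finset.mem_filter] at hj
  exact lt_irrefl _ hj.2

private theorem FD6a_rk_surj (s : Finset J) {k : ℕ} (hk : k < s.card) : ∃ j ∈ s, rk s j = k := by
  have hinj : Set.InjOn (rk s) (s : Set J) := by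
    intro j hj j' hj' h
    rcases lt_trichotomy j j' with h1 | h1 | h1
    · exact absurd h (FD6a_rk_lt s hj h1).ne
    · exact h1
    · exact absurd h (FD6a_rk_lt s hj' h1).ne'
  have hmaps : Set.MapsTo (rk s) (s : Set J) (Finset.range s.card : Set ℕ) := by
    intro j hj
    exact Finset.mem_coe.mpr (Finset.mem_range.mpr (FD6a_rk_card s hj))
  have hsurj := Finset.surjOn_of_injOn_of_card_le (rk s) hmaps hinj
    (by rw [Finset.card_range])
  obtain ⟨j, hj, h⟩ := hsurj (Finset.mem_coe.mpr (Finset.mem_range.mpr hk))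
  exact ⟨j, hj, h⟩

theorem cw_stc (n : ℕ) (hn : 1 ≤ n) (t S : Cube J) (hS : S.Le t) (hd : S.dim = n) :
    CW n (stc n t S) := by
  have hd' : S.fr.card = n := hd
  have hxat : ∀ (x : Fin n → ℝ) (k : ℕ) (hk : k < n), xat x k = x ⟨k, hk⟩ := fun x k hk =>
    dif_pos hk
  have hrk : ∀ j ∈ S.fr, rk S.fr j < n := fun j hj => by
    have h := FD6a_rk_card S.fr hj
    rwa [hd'] at h
  have hin : ∀ (x : Fin n → ℝ), (∀ i, 0 ≤ x i ∧ x i ≤ 1) → ∀ j : {j // j ∈ t.fr},
      (j : J) ∈ S.fr → stc n t S x j = xat x (rk S.fr j) := by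
    intro x _ j hj
    have h1 := hS j
    rw [FD6a_hi_mem hj, FD6a_hi_mem j.2] at h1
    have h2 : S.lo j = t.lo j := by omega
    show ((S.lo j : ℝ) - (t.lo j : ℝ)) + (if (j : J) ∈ S.fr then xat x (rk S.fr j) else 0) = _
    rw [if_pos hj, h2, sub_self, zero_add]
  have hout : ∀ (x : Fin n → ℝ) (j : {j // j ∈ t.fr}),
      (j : J) ∉ S.fr → stc n t S x j = 0 ∨ stc n t S x j = 1 := by
    intro x j hj
    have h1 := hS j
    rw [FD6a_hi_not hj, FD6a_hi_mem j.2] at h1
    have h2 : S.lo j = t.lo j ∨ S.lo j = t.lo j + 1 := by omega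
    have h3 : stc n t S x j = (S.lo j : ℝ) - (t.lo j : ℝ) := by
      show ((S.lo j : ℝ) - (t.lo j : ℝ)) +
        (if (j : J) ∈ S.fr then xat x (rk S.fr j) else 0) = _
      rw [if_neg hj, add_zero]
    rw [h3]
    rcases h2 with h2 | h2
    · left
      rw [h2, sub_self]
    · right
      rw [h2]
      push_cast
      ring
  have hbox : ∀ (x : Fin n → ℝ), (∀ i, 0 ≤ x i ∧ x i ≤ 1) → ∀ j : {j // j ∈ t.fr},
      0 ≤ stc n t S x j ∧ stc n t S x j ≤ 1 := by
    intro x hx j
    by_cases hj : (j : J) ∈ S.fr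
    · rw [hin x hx j hj, hxat x _ (hrk j hj)]
      exact hx _
    · rcases hout x j hj with h | h
      · rw [h]
        exact ⟨le_rfl, zero_le_one⟩
      · rw [h]
        exact ⟨zero_le_one, le_rfl⟩
  refine ⟨?_, fun x hx => ?_, fun x hx hb => ?_⟩
  · refine Continuous.continuousOn ?_
    refine continuous_pi fun j => ?_
    have h1 : ∀ k : ℕ, Continuous fun x : Fin n → ℝ => xat x k := by
      intro k
      by_cases hk : k < n
      · have h2 : (fun x : Fin n → ℝ => xat x k) = fun x => x ⟨k, hk⟩ :=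
          funext fun x => hxat x k hk
        rw [h2]
        exact continuous_apply _
      · have h2 : (fun x : Fin n → ℝ => xat x k) = fun _ => 0 :=
          funext fun x => dif_neg hk
        rw [h2]
        exact continuous_const
    by_cases hj : (j : J) ∈ S.fr
    · have h2 : (fun x : Fin n → ℝ => stc n t S x j) =
          fun x => ((S.lo j : ℝ) - (t.lo j : ℝ)) + xat x (rk S.fr j) := by
        funext x
        show ((S.lo j : ℝ) - (t.lo j : ℝ)) +
          (if (j : J) ∈ S.fr then xat x (rk S.fr j) else 0) = _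
        rw [if_pos hj]
      rw [h2]
      exact continuous_const.add (h1 _)
    · have h2 : (fun x : Fin n → ℝ => stc n t S x j) =
          fun _ => ((S.lo j : ℝ) - (t.lo j : ℝ)) + 0 := by
        funext x
        show ((S.lo j : ℝ) - (t.lo j : ℝ)) +
          (if (j : J) ∈ S.fr then xat x (rk S.fr j) else 0) = _
        rw [if_neg hj]
      rw [h2]
      exact continuous_const
  · refine ⟨hbox x hx, S.fr.subtype (· ∈ t.fr), ?_, fun j hj => ?_⟩
    · rw [Finset.card_subtype]
      exact (Finset.card_le_card (Finset.filter_subset _ _)).trans hd'.le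
    · rw [Finset.mem_subtype] at hj
      exact hout x j hj
  · obtain ⟨i, hi⟩ := hb
    obtain ⟨j0, hj0, hr⟩ := FD6a_rk_surj S.fr (k := i) (by rw [hd']; exact i.2)
    refine ⟨hbox x hx, (S.fr.erase j0).subtype (· ∈ t.fr), ?_, fun j hj => ?_⟩
    · rw [Finset.card_subtype]
      refine (Finset.card_le_card (Finset.filter_subset _ _)).trans ?_
      rw [Finset.card_erase_of_mem hj0, hd']
    · rw [Finset.mem_subtype, Finset.mem_erase, not_and] at hj
      by_cases hjS : (j : J) ∈ S.fr
      · have h1 : (j : J) = j0 := by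
          by_contra hne
          exact hj hne hjS
        have h2 : stc n t S x j = x i := by
          rw [hin x hx j hjS, hxat x _ (hrk j hjS)]
          refine congrArg x (Fin.ext ?_)
          show rk S.fr j = i
          rw [h1, hr]
        rw [h2]
        exact hi
      · exact hout x j hjS

end AGE
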