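import Pool.Agent.AGE.Defs
import Pool.Agent.AGE.FTD
import Pool.Agent.AGE.FTE
import Pool.Agent.AGE.FDD
import Pool.Agent.AGE.C1b
import Pool.Agent.AGE.C6a

/-!
# AGE-FD3: a cellular axial vertex map maps a nondegenerate cube isomorphically onto its span

Plan. Choose `j i` from `hA` for `i ∈ Q.fr`. (1) Every `k ∈ S.fr` is some `j i`: otherwise `g v k` is the same for all vertices `v` of `Q` (go from `Q.lo` to `v` changing one coordinate `i ∈ Q.fr` at a time: `Finset.induction_on` over
the set of changed coordinates; each change is between `update v i (Q.lo i)` and `update v i (Q.lo i + 1)` and does not change coordinate `k ≠ j i`), say `= a`; then the cube `S'` with `fr = S.fr.erase k`, `lo k = a`, `lo = S.lo` elsewhere contains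
all `g v`, so `S ∈ Spn g Q` (`hS`, `S ∈ Faces S`) gives `S.Le S'`, contradiction to `k ∈ S.fr`. (2) So `S.fr ⊆ image j Q.fr`, and `card S.fr = card Q.fr`: `j` is injective on `Q.fr` and the image is `S.fr`
(`Finset.card_image_iff`, `Finset.eq_of_subset_of_card_le`). Take `e = j` (any value outside `Q.fr`). (3) For `i ∈ Q.fr`, `k = e i`: `g v k` depends only on `v i` (changing another coordinate `i'` changes only the coordinate `e i' ≠ k`), it is not
constant (argument of (1)), and its values are `S.lo k` or `S.lo k + 1` (`hv`): so either `g v k = S.lo k + (v i - Q.lo i)` (`ε i = 1`) or `S.lo k + 1 - (v i - Q.lo i)` (`ε i = -1`). (4) `k ∉ S.fr`: `hv`.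
-/

set_option autoImplicit false

noncomputable section

namespace AGE

variable {V J : Type} [LinearOrder V] [LinearOrder J]


private theorem FD3_hi_mem {Q : Cube J} {j : J} (h : j ∈ Q.fr) : Q.hi j = Q.lo j + 1 := if_pos h

private theorem FD3_hi_not {Q : Cube J} {j : J} (h : j ∉ Q.fr) : Q.hi j = Q.lo j := if_neg h

private theorem FD3_upd {Q : Cube V} {v v' : V → ℤ} (hv : Q.Has v) (hv' : Q.Has v') (a : V) :
    Q.Has (Function.update v a (v' a)) := by
  intro j
  by_cases hj : j = a
  · subst hj
    rw [Function.update_self]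
    exact hv' j
  · rw [Function.update_of_ne hj]
    exact hv j

/-- changing coordinates with `e i ≠ k` does not change the value at `k` -/
private theorem FD3_const (g : (V → ℤ) → (J → ℤ)) (Q : Cube V) (e : V → J)
    (he : ∀ i ∈ Q.fr, ∀ v, Q.Has v → ∀ k, k ≠ e i →
      g (Function.update v i (Q.lo i + 1)) k = g (Function.update v i (Q.lo i)) k) (k : J)
    (A : Finset V) : A ⊆ Q.fr → (∀ i ∈ A, e i ≠ k) → ∀ v v', Q.Has v → Q.Has v' →
      (∀ i, i ∉ A → v i = v' i) → g v k = g v' k := by
  induction A using Finset.induction_on with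
  | empty =>
    intro _ _ v v' _ _ h
    have : v = v' := funext fun i => h i (Finset.notMem_empty i)
    rw [this]
  | insert a A ha ih =>
    intro hA hk v v' hv hv' h
    have haQ : a ∈ Q.fr := hA (Finset.mem_insert_self a A)
    have hak : k ≠ e a := (hk a (Finset.mem_insert_self a A)).symm
    have h1 : g (Function.update v a (v' a)) k = g v' k := by
      apply ih (fun i hi => hA (Finset.mem_insert_of_mem hi))
        (fun i hi => hk i (Finset.mem_insert_of_mem hi)) _ _ (FD3_upd hv hv' a) hv'
      intro i hi
      by_cases hia : i = a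
      · subst hia
        rw [Function.update_self]
      · rw [Function.update_of_ne hia]
        exact h i (fun hh => by
          rcases Finset.mem_insert.1 hh with hh | hh
          · exact hia hh
          · exact hi hh)
    rw [← h1]
    have key := he a haQ v hv k hak
    have e1 : g (Function.update v a (v a)) k = g v k := by rw [Function.update_eq_self]
    rw [← e1]
    have b1 := hv a
    have b2 := hv' a
    rw [FD3_hi_mem haQ] at b1 b2
    have c1 : v a = Q.lo a ∨ v a = Q.lo a + 1 := by omega
    have c2 : v' a = Q.lo a ∨ v' a = Q.lo a + 1 := by omega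
    rcases c1 with c1 | c1 <;> rcases c2 with c2 | c2 <;> rw [c1, c2]
    · exact key.symm
    · exact key

theorem nd_exists (g : (V → ℤ) → (J → ℤ)) (Q : Cube V) (S : Cube J) (hS : Spn g Q = Faces S)
    (hv : ∀ v, Q.Has v → S.Has (g v)) (hd : S.dim = Q.dim)
    (hA : ∀ i ∈ Q.fr, ∃ j, ∀ v, Q.Has v → ∀ k, k ≠ j →
      g (Function.update v i (Q.lo i + 1)) k = g (Function.update v i (Q.lo i)) k)
    (h0 : 0 < Q.dim) :
    ∃ (e : V → J) (ε : V → ℤ), ND g Q S e ε := by
  classical
  obtain ⟨i0, hi0⟩ : Q.fr.Nonempty := Finset.card_pos.1 h0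
  have : Nonempty J := ⟨(hA i0 hi0).choose⟩
  choose! e he using hA
  have hnc : ∀ k ∈ S.fr, ¬ ∀ v, Q.Has v → g v k = g Q.lo k := by
    intro k hk hcon
    have hSS : S ∈ Spn g Q := by
      rw [hS]
      exact Cube.le_refl' S
    have hle : S.Le ⟨Function.update S.lo k (g Q.lo k), S.fr.erase k⟩ := by
      apply hSS
      intro v hvv j
      by_cases hj : j = k
      · subst hj
        rw [FD3_hi_not (Q := ⟨Function.update S.lo j (g Q.lo j), S.fr.erase j⟩)
          (Finset.notMem_erase j _)]
        simp only [Function.update_self]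
        rw [hcon v hvv]
        exact ⟨le_rfl, le_rfl⟩
      · have h1 : (⟨Function.update S.lo k (g Q.lo k), S.fr.erase k⟩ : Cube J).hi j = S.hi j := by
          unfold Cube.hi
          simp only [Function.update_of_ne hj, Finset.mem_erase, ne_eq, hj, not_false_eq_true,
            true_and]
        rw [h1]
        simp only [Function.update_of_ne hj]
        exact hv v hvv j
    have h2 := Cube.fr_subset hle hk
    exact Finset.notMem_erase k _ h2
  have hagree : ∀ v v', Q.Has v → Q.Has v' → ∀ i, i ∉ Q.fr → v i = v' i := by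
    intro v v' h h' i hi
    have b1 := h i
    have b2 := h' i
    rw [FD3_hi_not hi] at b1 b2
    omega
  have hsrj : ∀ k ∈ S.fr, ∃ i ∈ Q.fr, e i = k := by
    intro k hk
    by_contra hcon
    push Not at hcon
    apply hnc k hk
    intro v hvv
    exact FD3_const g Q e he k Q.fr (Finset.Subset.refl _) hcon v Q.lo hvv Q.has_lo
      (hagree v Q.lo hvv Q.has_lo)
  have hsub : S.fr ⊆ Q.fr.image e := by
    intro k hk
    obtain ⟨i, hi, hik⟩ := hsrj k hk
    exact Finset.mem_image.2 ⟨i, hi, hik⟩
  have hcard : S.fr.card = Q.fr.card := hd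
  have himg : S.fr = Q.fr.image e :=
    Finset.eq_of_subset_of_card_le hsub (by rw [hcard]; exact Finset.card_image_le)
  have hinj : Set.InjOn e ↑Q.fr := by
    rw [← Finset.card_image_iff, ← himg, hcard]
  have hmem : ∀ i ∈ Q.fr, e i ∈ S.fr := by
    intro i hi
    rw [himg]
    exact Finset.mem_image_of_mem e hi
  -- the value at `e i` depends only on `v i`
  have hdep : ∀ i ∈ Q.fr, ∀ v v', Q.Has v → Q.Has v' → v i = v' i → g v (e i) = g v' (e i) := by
    intro i hi v v' h h' hii
    apply FD3_const g Q e he (e i) (Q.fr.erase i) (Finset.erase_subset _ _) _ v v' h h'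
    · intro m hm
      by_cases hmi : m = i
      · rw [hmi]; exact hii
      · exact hagree v v' h h' m (fun hmQ => hm (Finset.mem_erase.2 ⟨hmi, hmQ⟩))
    · intro m hm hem
      have hm' := Finset.mem_erase.1 hm
      exact hm'.1 (hinj hm'.2 hi hem)
  have hval : ∀ i ∈ Q.fr, ∀ v, Q.Has v → g v (e i) = S.lo (e i) ∨ g v (e i) = S.lo (e i) + 1 := by
    intro i hi v h
    have b := hv v h (e i)
    rw [FD3_hi_mem (hmem i hi)] at b
    omega
  have hup : ∀ i ∈ Q.fr, Q.Has (Function.update Q.lo i (Q.lo i + 1)) := by
    intro i hi j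
    by_cases hj : j = i
    · subst hj
      rw [Function.update_self, FD3_hi_mem hi]
      omega
    · rw [Function.update_of_ne hj]
      exact Q.has_lo j
  have hne : ∀ i ∈ Q.fr, g (Function.update Q.lo i (Q.lo i + 1)) (e i) ≠ g Q.lo (e i) := by
    intro i hi heq
    apply hnc (e i) (hmem i hi)
    intro v hvv
    have b := hvv i
    rw [FD3_hi_mem hi] at b
    have c : v i = Q.lo i ∨ v i = Q.lo i + 1 := by omega
    rcases c with c | c
    · exact hdep i hi v Q.lo hvv Q.has_lo c
    · rw [← heq]
      exact hdep i hi v _ hvv (hup i hi) (by rw [Function.update_self]; exact c)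
  refine ⟨e, fun i => if g Q.lo (e i) = S.lo (e i) then 1 else -1, ?_, hmem, hsrj, ?_, ?_, ?_, ?_⟩
  · intro i hi i' hi' h
    exact hinj hi hi' h
  · intro i hi
    split_ifs
    · exact Or.inl rfl
    · exact Or.inr rfl
  · intro i hi h1 v hvv
    have hlo : g Q.lo (e i) = S.lo (e i) := by
      by_contra hn
      rw [if_neg hn] at h1
      omega
    have b := hvv i
    rw [FD3_hi_mem hi] at b
    have c : v i = Q.lo i ∨ v i = Q.lo i + 1 := by omega
    rcases c with c | c
    · rw [hdep i hi v Q.lo hvv Q.has_lo c, hlo, c]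
      omega
    · rw [hdep i hi v _ hvv (hup i hi) (by rw [Function.update_self]; exact c), c]
      have h2 := hval i hi _ (hup i hi)
      have h3 := hne i hi
      rw [hlo] at h3
      omega
  · intro i hi h1 v hvv
    have hlo : g Q.lo (e i) ≠ S.lo (e i) := by
      intro hn
      rw [if_pos hn] at h1
      omega
    have h4 := hval i hi _ Q.has_lo
    have b := hvv i
    rw [FD3_hi_mem hi] at b
    have c : v i = Q.lo i ∨ v i = Q.lo i + 1 := by omega
    rcases c with c | c
    · rw [hdep i hi v Q.lo hvv Q.has_lo c, c]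
      omega
    · rw [hdep i hi v _ hvv (hup i hi) (by rw [Function.update_self]; exact c), c]
      have h2 := hval i hi _ (hup i hi)
      have h3 := hne i hi
      omega
  · intro k hk v hvv
    have b := hv v hvv k
    rw [FD3_hi_not hk] at b
    omega

end AGE
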