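import Pool.Agent.AGE.Defs
import Pool.Agent.AGE.FTD
import Pool.Agent.AGE.FTE
import Pool.Agent.AGE.FDD
import Pool.Agent.AGE.C1a
import Pool.Agent.AGE.C1b
import Pool.Agent.AGE.C6a

/-!
# AGE-FD4: the push on a nondegenerate cube

Plan. Induction on `Q.dim` (all `Q, S` at once). `Q.fr = ∅`: `Q = pt Q.lo`, `S.fr = ∅`, `S = pt (g Q.lo)` (`ND.oth`), `hφ.vtx`; the sign is `1` (empty products). Step: choose `i ∈ Q.fr`, `k = e i ∈ S.fr`.
`φ (one Q) = a • one S`: by `hφ.car` it is supported on cubes `R ∈ Spn g Q` with `R.dim = Q.dim = S.dim` and `R.Le S` (`spn_sub` and `S.Has (g v)` for the vertices, from `ND`), so `R = S`.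
Faces: for `i' ∈ Q.fr` the face `Q.up i'` satisfies `ND g (Q.up i') (S.up (e i')) e ε` if `ε i' = 1` and `ND g (Q.up i') (S.dn (e i')) e ε` if `ε i' = -1`; `Q.dn i'` the other way round (`(Q.up i').lo i' = Q.lo i' + 1`, the free set
is `Q.fr.erase i'`, mapped onto `S.fr.erase (e i')`). By induction `φ (one (Q.up i')) = s • one (S.up (e i'))` or `s • one (S.dn (e i'))`, `s = ivs e (Q.fr.erase i') * ∏ over the erase of ε`.
Compare in `bd (φ (one Q)) = φ (bd (one Q))` the coefficients of the cube `S.up k`: left `a * sg S.fr k` (the faces `S.up j`, `S.dn j`, `j ∈ S.fr`, are pairwise different cubes, because they differ in `fr` or in `lo`); right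
`sg Q.fr i * ε i * ivs e (Q.fr.erase i) * ∏ j ∈ Q.fr.erase i, ε j` (only `i' = i` contributes). `sg ^ 2 = 1`. Finally `ivs e Q.fr = sg S.fr (e i) * sg Q.fr i * ivs e (Q.fr.erase i)`: in `ivs e Q.fr` the pairs containing `i`
contribute `(-1) ^ (#{y < i, e i < e y} + #{y > i, e y < e i})` (`y ∈ Q.fr`), and `#{y < i} + #{e y < e i} = 2 #{y < i, e y < e i} + #{y < i, e i < e y} + #{y > i, e y < e i}`; the number of elements of `S.fr` below `e i` is
`#{y ∈ Q.fr : e y < e i}` (bijection `e`).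
-/

set_option autoImplicit false

noncomputable section

namespace AGE

variable {V J : Type} [LinearOrder V] [LinearOrder J]


private theorem FD4_hi_mem {Q : Cube J} {j : J} (h : j ∈ Q.fr) : Q.hi j = Q.lo j + 1 := if_pos h

private theorem FD4_hi_not {Q : Cube J} {j : J} (h : j ∉ Q.fr) : Q.hi j = Q.lo j := if_neg h

/-- a face of the same dimension is the whole cube -/
private theorem FD4_eq {R S : Cube J} (h : R.Le S) (hd : R.dim = S.dim) : R = S := by
  have h1 : R.fr ⊆ S.fr := Cube.fr_subset h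
  have h2 : R.fr = S.fr := Finset.eq_of_subset_of_card_le h1 (by
    unfold Cube.dim at hd
    omega)
  refine Cube.ext (funext fun j => ?_) h2
  have h3 := h j
  by_cases hj : j ∈ S.fr
  · have h4 : j ∈ R.fr := by rw [h2]; exact hj
    rw [FD4_hi_mem hj, FD4_hi_mem h4] at h3
    omega
  · have h4 : j ∉ R.fr := by rw [h2]; exact hj
    rw [FD4_hi_not hj, FD4_hi_not h4] at h3
    omega

/-- the image vertices lie in the target cube -/
private theorem FD4_has {g : (V → ℤ) → (J → ℤ)} {Q : Cube V} {S : Cube J} {e : V → J} {ε : V → ℤ}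
    (h : ND g Q S e ε) : ∀ v, Q.Has v → S.Has (g v) := by
  intro v hv k
  by_cases hk : k ∈ S.fr
  · obtain ⟨i, hi, rfl⟩ := h.srj k hk
    have h1 := hv i
    rw [FD4_hi_mem hi] at h1
    rw [FD4_hi_mem hk]
    rcases h.sgn i hi with h2 | h2
    · rw [h.vpl i hi h2 v hv]
      omega
    · rw [h.vmi i hi h2 v hv]
      omega
  · rw [h.oth k hk v hv, FD4_hi_not hk]
    exact ⟨le_rfl, le_rfl⟩

private theorem FD4_image {g : (V → ℤ) → (J → ℤ)} {Q : Cube V} {S : Cube J} {e : V → J}
    {ε : V → ℤ} (h : ND g Q S e ε) : S.fr = Q.fr.image e := by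
  ext k
  rw [Finset.mem_image]
  constructor
  · intro hk
    obtain ⟨i, hi, hik⟩ := h.srj k hk
    exact ⟨i, hi, hik⟩
  · rintro ⟨i, hi, rfl⟩
    exact h.img i hi

private theorem FD4_card {g : (V → ℤ) → (J → ℤ)} {Q : Cube V} {S : Cube J} {e : V → J}
    {ε : V → ℤ} (h : ND g Q S e ε) : Q.dim = S.dim := by
  unfold Cube.dim
  rw [FD4_image h]
  exact (Finset.card_image_of_injOn fun i hi i' hi' he =>
    h.inj i (Finset.mem_coe.1 hi) i' (Finset.mem_coe.1 hi') he).symm

/-- `ND` for a pair of corresponding faces -/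
private theorem FD4_face {g : (V → ℤ) → (J → ℤ)} {Q : Cube V} {S : Cube J} {e : V → J}
    {ε : V → ℤ} (h : ND g Q S e ε) {i : V} (hi : i ∈ Q.fr) {P : Cube V} {F : Cube J}
    (hPfr : P.fr = Q.fr.erase i) (hPlo : ∀ j, j ≠ i → P.lo j = Q.lo j) (hPle : P.Le Q)
    (hFfr : F.fr = S.fr.erase (e i)) (hFlo : ∀ k, k ≠ e i → F.lo k = S.lo k)
    (hF : ∀ v, P.Has v → g v (e i) = F.lo (e i)) : ND g P F e ε := by
  have hsub : ∀ j ∈ P.fr, j ∈ Q.fr ∧ j ≠ i ∧ e j ≠ e i := by
    intro j hj
    rw [hPfr, Finset.mem_erase] at hj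
    exact ⟨hj.2, hj.1, fun he => hj.1 (h.inj j hj.2 i hi he)⟩
  refine ⟨fun a ha b hb => h.inj a (hsub a ha).1 b (hsub b hb).1, fun a ha => ?_, fun k hk => ?_,
    fun a ha => h.sgn a (hsub a ha).1, fun a ha h1 v hv => ?_, fun a ha h1 v hv => ?_,
    fun k hk v hv => ?_⟩
  · rw [hFfr, Finset.mem_erase]
    exact ⟨(hsub a ha).2.2, h.img a (hsub a ha).1⟩
  · rw [hFfr, Finset.mem_erase] at hk
    obtain ⟨a, ha, hak⟩ := h.srj k hk.2
    refine ⟨a, ?_, hak⟩
    rw [hPfr, Finset.mem_erase]
    refine ⟨fun hai => hk.1 ?_, ha⟩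
    rw [← hak, hai]
  · rw [h.vpl a (hsub a ha).1 h1 v (Cube.has_of_le hPle hv), hFlo _ (hsub a ha).2.2,
      hPlo _ (hsub a ha).2.1]
  · rw [h.vmi a (hsub a ha).1 h1 v (Cube.has_of_le hPle hv), hFlo _ (hsub a ha).2.2,
      hPlo _ (hsub a ha).2.1]
  · by_cases hke : k = e i
    · rw [hke]
      exact hF v hv
    · have hkS : k ∉ S.fr := by
        intro h1
        exact hk (by rw [hFfr, Finset.mem_erase]; exact ⟨hke, h1⟩)
      rw [h.oth k hkS v (Cube.has_of_le hPle hv), hFlo k hke]

private theorem FD4_up_i (Q : Cube V) (i : V) : (Q.up i).lo i = Q.lo i + 1 := Function.update_self _ _ _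

private theorem FD4_up_ne (Q : Cube V) {i j : V} (h : j ≠ i) : (Q.up i).lo j = Q.lo j :=
  Function.update_of_ne h _ _

private theorem FD4_at_up {Q : Cube V} {i : V} {v : V → ℤ} (hv : (Q.up i).Has v) :
    v i = Q.lo i + 1 := by
  have h1 := hv i
  have h2 : (Q.up i).hi i = (Q.up i).lo i := FD4_hi_not (Finset.notMem_erase i Q.fr)
  rw [h2, FD4_up_i] at h1
  omega

private theorem FD4_at_dn {Q : Cube V} {i : V} {v : V → ℤ} (hv : (Q.dn i).Has v) :
    v i = Q.lo i := by
  have h1 := hv i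
  have h2 : (Q.dn i).hi i = (Q.dn i).lo i := FD4_hi_not (Finset.notMem_erase i Q.fr)
  have h3 : (Q.dn i).lo i = Q.lo i := rfl
  rw [h2, h3] at h1
  omega

private theorem FD4_coef (S : Cube J) {k j : J} (hk : k ∈ S.fr) (hj : j ∈ S.fr) :
    (one (S.up j) - one (S.dn j)) (S.up k) = if j = k then 1 else 0 := by
  have hfr : ∀ {a b : J}, a ∈ S.fr → b ∈ S.fr → S.fr.erase a = S.fr.erase b → a = b := by
    intro a b ha hb hab
    by_contra hne
    have h1 : a ∈ S.fr.erase b := Finset.mem_erase.2 ⟨hne, ha⟩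
    rw [← hab] at h1
    exact Finset.notMem_erase a S.fr h1
  have h2 : ∀ a : J, a ∈ S.fr → S.dn a ≠ S.up k := by
    intro a ha h1
    have h3 : S.fr.erase a = S.fr.erase k := congrArg Cube.fr h1
    have h4 := hfr ha hk h3
    have h5 : (S.dn a).lo k = (S.up k).lo k := by rw [h1]
    rw [FD4_up_i] at h5
    have h6 : (S.dn a).lo k = S.lo k := rfl
    omega
  rw [Finsupp.sub_apply]
  unfold one
  rw [Finsupp.single_eq_of_ne (h2 j hj).symm]
  by_cases hjk : j = k
  · rw [if_pos hjk, hjk, Finsupp.single_eq_same, sub_zero]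
  · rw [if_neg hjk, Finsupp.single_eq_of_ne, sub_zero]
    intro h1
    have h3 : S.fr.erase k = S.fr.erase j := congrArg Cube.fr h1
    exact hjk (hfr hj hk h3.symm)

private theorem FD4_sg_sq (s : Finset J) (j : J) : sg s j * sg s j = 1 := by
  unfold sg
  rw [← pow_add, ← two_mul, pow_mul]
  norm_num

/-- the sign of the order when the largest element is removed -/
private theorem FD4_ivs {e : V → J} {s : Finset V} {t : Finset J} {i : V} (hi : i ∈ s)
    (hmax : ∀ x ∈ s, x ≤ i) (hinj : ∀ x ∈ s, ∀ y ∈ s, e x = e y → x = y)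
    (ht : t = s.image e) :
    ivs e s = sg t (e i) * sg s i * ivs e (s.erase i) := by
  classical
  obtain ⟨u, hu⟩ : ∃ u, u = s.erase i := ⟨_, rfl⟩
  have hsu : s = insert i u := by rw [hu, Finset.insert_erase hi]
  have hiu : i ∉ u := by rw [hu]; exact Finset.notMem_erase i s
  have hlt : ∀ x ∈ u, x < i := by
    intro x hx
    rw [hu, Finset.mem_erase] at hx
    exact lt_of_le_of_ne (hmax x hx.2) hx.1
  have hne : ∀ x ∈ u, e x ≠ e i := by
    intro x hx he
    have h1 := hlt x hx
    rw [hu, Finset.mem_erase] at hx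
    exact hx.1 (hinj x hx.2 i hi he)
  rw [← hu]
  have h1 : ivs e s = (∏ x ∈ u, if e i < e x then (-1 : ℤ) else 1) * ivs e u := by
    unfold ivs
    rw [hsu, Finset.prod_insert hiu]
    have h2 : (∏ y ∈ insert i u, if i < y ∧ e y < e i then (-1 : ℤ) else 1) = 1 := by
      refine Finset.prod_eq_one fun y hy => ?_
      rw [if_neg]
      rintro ⟨h3, -⟩
      rcases Finset.mem_insert.1 hy with h4 | h4
      · rw [h4] at h3
        exact lt_irrefl _ h3
      · exact lt_asymm h3 (hlt y h4)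
    rw [h2, one_mul, ← Finset.prod_mul_distrib]
    refine Finset.prod_congr rfl fun x hx => ?_
    rw [Finset.prod_insert hiu]
    congr 1
    have h3 : (x < i ∧ e i < e x) ↔ e i < e x := ⟨fun h => h.2, fun h => ⟨hlt x hx, h⟩⟩
    simp only [h3]
  have h2 : (∏ x ∈ u, if e i < e x then (-1 : ℤ) else 1) =
      (-1) ^ (u.filter (fun x => e i < e x)).card := by
    rw [Finset.prod_ite, Finset.prod_const, Finset.prod_const_one, mul_one]
  have h3 : sg s i = (-1) ^ u.card := by
    unfold sg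
    have h4 : s.filter (· < i) = u := by
      ext x
      rw [Finset.mem_filter, hu, Finset.mem_erase]
      constructor
      · rintro ⟨h5, h6⟩
        exact ⟨h6.ne, h5⟩
      · rintro ⟨h5, h6⟩
        exact ⟨h6, lt_of_le_of_ne (hmax x h6) h5⟩
    rw [h4]
  have h4 : sg t (e i) = (-1) ^ (u.filter (fun x => e x < e i)).card := by
    unfold sg
    have h5 : t.filter (· < e i) = (u.filter (fun x => e x < e i)).image e := by
      ext k
      rw [Finset.mem_filter, Finset.mem_image, ht, Finset.mem_image]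
      constructor
      · rintro ⟨⟨x, hx, rfl⟩, h6⟩
        refine ⟨x, Finset.mem_filter.2 ⟨?_, h6⟩, rfl⟩
        rw [hu, Finset.mem_erase]
        refine ⟨fun h7 => ?_, hx⟩
        rw [h7] at h6
        exact lt_irrefl _ h6
      · rintro ⟨x, hx, rfl⟩
        rw [Finset.mem_filter, hu, Finset.mem_erase] at hx
        exact ⟨⟨x, hx.1.2, rfl⟩, hx.2⟩
    rw [h5, Finset.card_image_of_injOn]
    intro x hx y hy hxy
    rw [Finset.mem_coe, Finset.mem_filter, hu, Finset.mem_erase] at hx hy
    exact hinj x hx.1.2 y hy.1.2 hxy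
  have h5 : u.card = (u.filter (fun x => e x < e i)).card +
      (u.filter (fun x => e i < e x)).card := by
    rw [← Finset.card_filter_add_card_filter_not (s := u) (fun x => e x < e i)]
    congr 2
    refine Finset.filter_congr fun x hx => ?_
    rw [not_lt]
    exact ⟨fun h => lt_of_le_of_ne h (hne x hx).symm, fun h => h.le⟩
  rw [h1, h2, h3, h4, h5, pow_add]
  have h6 : ((-1 : ℤ) ^ (u.filter (fun x => e x < e i)).card) *
      ((-1 : ℤ) ^ (u.filter (fun x => e x < e i)).card) = 1 := by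
    rw [← pow_add, ← two_mul, pow_mul]
    norm_num
  calc (-1 : ℤ) ^ (u.filter (fun x => e i < e x)).card * ivs e u
      = ((-1 : ℤ) ^ (u.filter (fun x => e x < e i)).card *
        (-1 : ℤ) ^ (u.filter (fun x => e x < e i)).card) *
        ((-1 : ℤ) ^ (u.filter (fun x => e i < e x)).card * ivs e u) := by rw [h6, one_mul]
    _ = _ := by ring

private theorem FD4_aux (K : Set (Cube V)) (hK : Closed K) (g : (V → ℤ) → (J → ℤ))
    (φ : Ch V →ₗ[ℤ] Ch J) (hφ : Push K (Spn g) g φ) (e : V → J) (ε : V → ℤ) (n : ℕ) :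
    ∀ (Q : Cube V) (S : Cube J), Q.fr.card = n → Q ∈ K → ND g Q S e ε →
      φ (one Q) = (ivs e Q.fr * ∏ i ∈ Q.fr, ε i) • one S := by
  induction n with
  | zero =>
    intro Q S hn hQ h
    have h0 : Q.fr = ∅ := Finset.card_eq_zero.1 hn
    have hQ1 : Q = pt Q.lo := Cube.ext rfl h0
    have hS0 : S.fr = ∅ := by rw [FD4_image h, h0, Finset.image_empty]
    have hS1 : S = pt (g Q.lo) := by
      refine Cube.ext (funext fun k => ?_) hS0
      have h1 : k ∉ S.fr := by rw [hS0]; exact Finset.notMem_empty k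
      exact (h.oth k h1 Q.lo Q.has_lo).symm
    have h1 := hφ.vtx Q.lo (by rw [← hQ1]; exact hQ)
    rw [← hQ1, ← hS1] at h1
    rw [h1, h0]
    unfold ivs
    rw [Finset.prod_empty, Finset.prod_empty, one_mul, one_smul]
  | succ n ih =>
    intro Q S hn hQ h
    have hne : Q.fr.Nonempty := by
      rw [← Finset.card_pos]
      omega
    obtain ⟨i, hi, hmax⟩ : ∃ i ∈ Q.fr, ∀ x ∈ Q.fr, x ≤ i :=
      ⟨Q.fr.max' hne, Q.fr.max'_mem hne, fun x hx => Q.fr.le_max' x hx⟩
    -- the value of `φ` on `Q` up to a factor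
    obtain ⟨a, ha⟩ : ∃ a : ℤ, φ (one Q) = a • one S := by
      refine ⟨(φ (one Q)) S, ?_⟩
      have h1 := hφ.car Q hQ
      unfold CC at h1
      rw [Finsupp.mem_supported] at h1
      ext R
      rw [Finsupp.smul_apply]
      unfold one
      by_cases hR : R = S
      · rw [hR, Finsupp.single_eq_same, smul_eq_mul, mul_one]
      · rw [Finsupp.single_eq_of_ne hR, smul_zero]
        by_contra h2
        have h3 := h1 (Finsupp.mem_support_iff.2 h2)
        refine hR (FD4_eq (spn_sub g Q S (FD4_has h) h3.1) ?_)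
        rw [← FD4_card h]
        exact h3.2
    -- the faces
    have hface : ∀ j ∈ Q.fr, φ (one (Q.up j)) - φ (one (Q.dn j)) =
        (ivs e (Q.fr.erase j) * (∏ l ∈ Q.fr.erase j, ε l) * ε j) •
          (one (S.up (e j)) - one (S.dn (e j))) := by
      intro j hj
      have hc : (Q.fr.erase j).card = n := by
        rw [Finset.card_erase_of_mem hj, hn]
        omega
      have hu := hK Q hQ _ (Cube.up_le Q j hj)
      have hd := hK Q hQ _ (Cube.dn_le Q j hj)
      have huQ := Cube.up_le Q j hj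
      have hdQ := Cube.dn_le Q j hj
      rcases h.sgn j hj with hs | hs
      · have n1 : ND g (Q.up j) (S.up (e j)) e ε := by
          refine FD4_face h hj rfl (fun l hl => FD4_up_ne Q hl) huQ rfl
            (fun k hk => FD4_up_ne S hk) fun v hv => ?_
          rw [h.vpl j hj hs v (Cube.has_of_le huQ hv), FD4_at_up hv, FD4_up_i]
          ring
        have n2 : ND g (Q.dn j) (S.dn (e j)) e ε := by
          refine FD4_face h hj rfl (fun l _ => rfl) hdQ rfl (fun k _ => rfl) fun v hv => ?_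
          rw [h.vpl j hj hs v (Cube.has_of_le hdQ hv), FD4_at_dn hv]
          have h1 : (S.dn (e j)).lo (e j) = S.lo (e j) := rfl
          rw [h1]
          ring
        rw [ih _ _ hc hu n1, ih _ _ hc hd n2, hs, mul_one, smul_sub]
        rfl
      · have n1 : ND g (Q.up j) (S.dn (e j)) e ε := by
          refine FD4_face h hj rfl (fun l hl => FD4_up_ne Q hl) huQ rfl
            (fun k _ => rfl) fun v hv => ?_
          rw [h.vmi j hj hs v (Cube.has_of_le huQ hv), FD4_at_up hv]
          have h1 : (S.dn (e j)).lo (e j) = S.lo (e j) := rfl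
          rw [h1]
          ring
        have n2 : ND g (Q.dn j) (S.up (e j)) e ε := by
          refine FD4_face h hj rfl (fun l _ => rfl) hdQ rfl (fun k hk => FD4_up_ne S hk)
            fun v hv => ?_
          rw [h.vmi j hj hs v (Cube.has_of_le hdQ hv), FD4_at_dn hv, FD4_up_i]
          ring
        rw [ih _ _ hc hu n1, ih _ _ hc hd n2, hs, mul_neg, mul_one, neg_smul, ← smul_neg, neg_sub,
          smul_sub]
        rfl
    -- compare the coefficients of `S.up (e i)`
    have hb := hφ.chn Q hQ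
    rw [ha, map_smul, bd_one, bd_one] at hb
    have hL : (Finsupp.lapply (R := ℤ) (S.up (e i)) : Ch J →ₗ[ℤ] ℤ) (a • bdQ S) =
        a * sg S.fr (e i) := by
      unfold bdQ
      rw [map_smul, map_sum, smul_eq_mul]
      congr 1
      rw [Finset.sum_eq_single (e i)]
      · rw [map_smul, Finsupp.lapply_apply, FD4_coef S (h.img i hi) (h.img i hi), if_pos rfl,
          smul_eq_mul, mul_one]
      · intro j hj hji
        rw [map_smul, Finsupp.lapply_apply, FD4_coef S (h.img i hi) hj, if_neg hji, smul_zero]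
      · intro h1
        exact (h1 (h.img i hi)).elim
    have hR : (Finsupp.lapply (R := ℤ) (S.up (e i)) : Ch J →ₗ[ℤ] ℤ) (φ (bdQ Q)) =
        sg Q.fr i * (ivs e (Q.fr.erase i) * (∏ l ∈ Q.fr.erase i, ε l) * ε i) := by
      unfold bdQ
      rw [map_sum, map_sum, Finset.sum_eq_single i]
      · rw [map_smul, map_sub, hface i hi, map_smul, map_smul, Finsupp.lapply_apply,
          FD4_coef S (h.img i hi) (h.img i hi), if_pos rfl, smul_eq_mul, smul_eq_mul, mul_one]
      · intro j hj hji
        rw [map_smul, map_sub, hface j hj, map_smul, map_smul, Finsupp.lapply_apply,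
          FD4_coef S (h.img i hi) (h.img j hj), if_neg fun he => hji (h.inj j hj i hi he),
          smul_zero, smul_zero]
      · intro h1
        exact (h1 hi).elim
    have key : a * sg S.fr (e i) =
        sg Q.fr i * (ivs e (Q.fr.erase i) * (∏ l ∈ Q.fr.erase i, ε l) * ε i) := by
      rw [← hL, ← hR, hb]
    have hprod : ∏ l ∈ Q.fr, ε l = (∏ l ∈ Q.fr.erase i, ε l) * ε i := by
      rw [mul_comm]
      exact (Finset.mul_prod_erase Q.fr ε hi).symm
    have hiv := FD4_ivs (t := S.fr) hi hmax h.inj (FD4_image h)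
    rw [ha]
    congr 1
    rw [hiv, hprod]
    calc a = a * sg S.fr (e i) * sg S.fr (e i) := by rw [mul_assoc, FD4_sg_sq, mul_one]
      _ = sg Q.fr i * (ivs e (Q.fr.erase i) * (∏ l ∈ Q.fr.erase i, ε l) * ε i) *
          sg S.fr (e i) := by rw [key]
      _ = _ := by ring

theorem push_sign (K : Set (Cube V)) (hK : Closed K) (g : (V → ℤ) → (J → ℤ))
    (φ : Ch V →ₗ[ℤ] Ch J) (hφ : Push K (Spn g) g φ) (Q : Cube V) (hQ : Q ∈ K) (S : Cube J)
    (e : V → J) (ε : V → ℤ) (h : ND g Q S e ε) :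
    φ (one Q) = (ivs e Q.fr * ∏ i ∈ Q.fr, ε i) • one S :=
  FD4_aux K hK g φ hφ e ε _ Q S rfl hQ h

end AGE
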