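import Pool.Agent.AGE.FTD

/-!
# AGE-FT8: the contraction of the skeleta

Plan. `ct s y j = y j * cl (1 + idx j - card F * s)`, `idx j = (Fintype.equivFin F j : ℕ)`, `cl t = max 0 (min t 1)`. `s = 0`: `1 + idx j ≥ 1`, factor `1`. `s = 1`: `idx j + 1 ≤ card F`, factor `0`.
Continuity: `continuous_pi`, `cl` is continuous (`fun_prop` after unfolding). `ct_mem`: `0 ≤ cl ≤ 1`. The factor is different from `0` and `1` only if `-1 < idx j - card F * s < 0`, which holds for at most one
`j` (two different integers cannot lie in an open interval of length one; `Fintype.equivFin` is injective): if there is such a `j₀` take `insert j₀ s` (needs `Classical.decEq`), otherwise `s`; for the other `j`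
the product of two numbers from `{0, 1}` is `0` or `1`.
-/

set_option autoImplicit false

noncomputable section

namespace AGE

variable {F : Type} [Fintype F]

private theorem ft8_cl0 (x : ℝ) : 0 ≤ cl x := le_max_left _ _

private theorem ft8_cl1 (x : ℝ) : cl x ≤ 1 := max_le zero_le_one (min_le_right _ _)

private theorem ft8_ge {x : ℝ} (h : 1 ≤ x) : cl x = 1 := by
  unfold cl
  rw [min_eq_right h]
  exact max_eq_right zero_le_one

private theorem ft8_le {x : ℝ} (h : x ≤ 0) : cl x = 0 := by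
  unfold cl
  exact max_eq_left ((min_le_left _ _).trans h)

theorem ct_zero (y : F → ℝ) : ct 0 y = y := by
  funext j
  unfold ct
  rw [ft8_ge, mul_one]
  have : (0 : ℝ) ≤ ((Fintype.equivFin F j : ℕ) : ℝ) := Nat.cast_nonneg _
  linarith

theorem ct_one (y : F → ℝ) : ct 1 y = 0 := by
  funext j
  unfold ct
  rw [ft8_le, mul_zero]
  · rfl
  · have h : ((Fintype.equivFin F j : ℕ) : ℝ) + 1 ≤ (Fintype.card F : ℝ) := by
      exact_mod_cast (Fintype.equivFin F j).2
    linarith

theorem ct_base (s : ℝ) : ct s (0 : F → ℝ) = 0 := by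
  funext j
  unfold ct
  simp

theorem ct_continuous : Continuous (fun p : ℝ × (F → ℝ) => ct p.1 p.2) := by
  unfold ct cl
  fun_prop

theorem ct_mem (k : ℕ) (y : F → ℝ) (hy : y ∈ Yk F k) (s : ℝ) : ct s y ∈ Yk F (k + 1) := by
  classical
  obtain ⟨h1, t, ht, h2⟩ := hy
  refine ⟨fun j => ⟨mul_nonneg (h1 j).1 (ft8_cl0 _), mul_le_one₀ (h1 j).2 (ft8_cl0 _) (ft8_cl1 _)⟩, ?_⟩
  by_cases hex : ∃ j₀ : F, -1 < ((Fintype.equivFin F j₀ : ℕ) : ℝ) - (Fintype.card F : ℝ) * s ∧
      ((Fintype.equivFin F j₀ : ℕ) : ℝ) - (Fintype.card F : ℝ) * s < 0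
  · obtain ⟨j₀, h3, h4⟩ := hex
    refine ⟨insert j₀ t, (Finset.card_insert_le _ _).trans (by omega), fun j hj => ?_⟩
    rw [Finset.mem_insert, not_or] at hj
    have h5 : cl (1 + ((Fintype.equivFin F j : ℕ) : ℝ) - (Fintype.card F : ℝ) * s) = 0 ∨
        cl (1 + ((Fintype.equivFin F j : ℕ) : ℝ) - (Fintype.card F : ℝ) * s) = 1 := by
      have hne : (Fintype.equivFin F j : ℕ) ≠ (Fintype.equivFin F j₀ : ℕ) := fun h =>
        hj.1 ((Fintype.equivFin F).injective (Fin.ext h))
      rcases lt_or_gt_of_ne hne with h6 | h6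
      · left
        apply ft8_le
        have : ((Fintype.equivFin F j : ℕ) : ℝ) + 1 ≤ ((Fintype.equivFin F j₀ : ℕ) : ℝ) := by exact_mod_cast h6
        linarith
      · right
        apply ft8_ge
        have : ((Fintype.equivFin F j₀ : ℕ) : ℝ) + 1 ≤ ((Fintype.equivFin F j : ℕ) : ℝ) := by exact_mod_cast h6
        linarith
    show y j * _ = 0 ∨ y j * _ = 1
    rcases h2 j hj.2 with h7 | h7 <;> rcases h5 with h8 | h8 <;> rw [h7, h8] <;> simp
  · push Not at hex
    refine ⟨t, by omega, fun j hj => ?_⟩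
    have h5 : cl (1 + ((Fintype.equivFin F j : ℕ) : ℝ) - (Fintype.card F : ℝ) * s) = 0 ∨
        cl (1 + ((Fintype.equivFin F j : ℕ) : ℝ) - (Fintype.card F : ℝ) * s) = 1 := by
      rcases le_or_gt (((Fintype.equivFin F j : ℕ) : ℝ) - (Fintype.card F : ℝ) * s) (-1) with h6 | h6
      · left
        apply ft8_le
        linarith
      · right
        apply ft8_ge
        linarith [hex j h6]
    show y j * _ = 0 ∨ y j * _ = 1
    rcases h2 j hj with h7 | h7 <;> rcases h5 with h8 | h8 <;> rw [h7, h8] <;> simp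

theorem Yk_mono {k l : ℕ} (h : k ≤ l) : Yk F k ⊆ Yk F l := by
  rintro y ⟨h1, t, ht, h2⟩
  exact ⟨h1, t, ht.trans h, h2⟩

end AGE
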