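import Pool.Agent.AGE.FTD

/-!
# AGE-FT9: the piecewise linear functions `rh` and `ta`

`rh x = ⌊x⌋ + cl (2 fract x - 1/2)` and `ta x = max 0 (max (1 - 4 fract x) (4 fract x - 3))` are
continuous, commute with integer translations and with the flip `x ↦ 1 - x`; `rh` is an integer
where `ta` is positive.
-/

set_option autoImplicit false

noncomputable section

namespace AGE

theorem cl_mem (x : ℝ) : 0 ≤ cl x ∧ cl x ≤ 1 := by
  unfold cl
  exact ⟨le_max_left _ _, max_le zero_le_one (min_le_right _ _)⟩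

theorem cl_of {x : ℝ} (h : 0 ≤ x) (h' : x ≤ 1) : cl x = x := by
  unfold cl
  rw [min_eq_left h', max_eq_right h]

theorem cl_of_nonpos {x : ℝ} (h : x ≤ 0) : cl x = 0 := by
  unfold cl
  exact max_eq_left ((min_le_left _ _).trans h)

theorem cl_of_one_le {x : ℝ} (h : 1 ≤ x) : cl x = 1 := by
  unfold cl
  rw [min_eq_right h, max_eq_right zero_le_one]

theorem cl_one_sub (x : ℝ) : cl (1 - x) = 1 - cl x := by
  rcases le_total x 0 with h | h
  · rw [cl_of_nonpos h, cl_of_one_le (by linarith), sub_zero]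
  · rcases le_total x 1 with h' | h'
    · rw [cl_of h h', cl_of (by linarith) (by linarith)]
    · rw [cl_of_one_le h', cl_of_nonpos (by linarith), sub_self]

theorem cl_continuous : Continuous cl := by
  unfold cl
  fun_prop

private theorem ft9_rh_eq (x : ℝ) :
    rh x = x + (cl (2 * Int.fract x - 1 / 2) - Int.fract x) := by
  unfold rh
  have h := Int.floor_add_fract x
  linarith

theorem rh_continuous : Continuous rh := by
  have hg : Continuous fun t : ℝ => cl (2 * t - 1 / 2) - t :=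
    (cl_continuous.comp (by fun_prop)).sub continuous_id
  have h1 : Continuous fun x : ℝ => cl (2 * Int.fract x - 1 / 2) - Int.fract x := by
    refine ContinuousOn.comp_fract'' (f := fun t : ℝ => cl (2 * t - 1 / 2) - t)
      hg.continuousOn ?_
    have h0 : cl (2 * 0 - 1 / 2) = 0 := cl_of_nonpos (by norm_num)
    have h1 : cl (2 * 1 - 1 / 2) = 1 := cl_of_one_le (by norm_num)
    simp only [h0, h1]
    norm_num
  have h2 : rh = fun x : ℝ => x + (cl (2 * Int.fract x - 1 / 2) - Int.fract x) :=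
    funext ft9_rh_eq
  rw [h2]
  exact continuous_id.add h1

theorem rh_int (k : ℤ) : rh (k : ℝ) = k := by
  unfold rh
  rw [Int.floor_intCast, Int.fract_intCast, cl_of_nonpos (by norm_num), add_zero]

theorem rh_ge (x : ℝ) : (⌊x⌋ : ℝ) ≤ rh x := by
  unfold rh
  linarith [(cl_mem (2 * Int.fract x - 1 / 2)).1]

theorem rh_le (x : ℝ) : rh x ≤ (⌊x⌋ : ℝ) + 1 := by
  unfold rh
  linarith [(cl_mem (2 * Int.fract x - 1 / 2)).2]

theorem rh_add (k : ℤ) (x : ℝ) : rh ((k : ℝ) + x) = (k : ℝ) + rh x := by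
  unfold rh
  rw [Int.floor_intCast_add, Int.fract_intCast_add]
  push_cast
  ring

private theorem ft9_flip {x : ℝ} (h : Int.fract x ≠ 0) :
    ⌊1 - x⌋ = -⌊x⌋ ∧ Int.fract (1 - x) = 1 - Int.fract x := by
  have h0 : 0 < Int.fract x := lt_of_le_of_ne (Int.fract_nonneg x) (Ne.symm h)
  have h1 := Int.fract_lt_one x
  have h2 := Int.floor_add_fract x
  have h3 : ⌊1 - x⌋ = -⌊x⌋ := by
    rw [Int.floor_eq_iff]
    push_cast
    constructor <;> linarith
  refine ⟨h3, ?_⟩
  have h4 := Int.floor_add_fract (1 - x)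
  rw [h3] at h4
  push_cast at h4
  linarith

theorem rh_one_sub (x : ℝ) : rh (1 - x) = 1 - rh x := by
  by_cases h : Int.fract x = 0
  · have hx : x = (⌊x⌋ : ℝ) := by
      have h2 := Int.floor_add_fract x
      rw [h, add_zero] at h2
      exact h2.symm
    have h1 : (1 : ℝ) - (⌊x⌋ : ℝ) = ((1 - ⌊x⌋ : ℤ) : ℝ) := by push_cast; ring
    rw [hx, h1, rh_int, rh_int]
    push_cast
    ring
  · obtain ⟨h1, h2⟩ := ft9_flip h
    unfold rh
    rw [h1, h2]
    have h3 : 2 * (1 - Int.fract x) - 1 / 2 = 1 - (2 * Int.fract x - 1 / 2) := by ring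
    rw [h3, cl_one_sub]
    push_cast
    ring

theorem rh_unit {x : ℝ} (h : 0 ≤ x) (h' : x ≤ 1) : 0 ≤ rh x ∧ rh x ≤ 1 := by
  rcases eq_or_lt_of_le h' with h1 | h1
  · have h2 : rh x = 1 := by
      rw [h1]
      have := rh_int 1
      simpa using this
    rw [h2]
    exact ⟨zero_le_one, le_refl _⟩
  · have h2 : ⌊x⌋ = 0 := Int.floor_eq_zero_iff.2 ⟨h, h1⟩
    have h3 := rh_ge x
    have h4 := rh_le x
    rw [h2] at h3 h4
    push_cast at h3 h4
    exact ⟨h3, by linarith⟩

theorem ta_continuous : Continuous ta := by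
  have hg : Continuous fun t : ℝ => max 0 (max (1 - 4 * t) (4 * t - 3)) := by fun_prop
  refine ContinuousOn.comp_fract'' (f := fun t : ℝ => max 0 (max (1 - 4 * t) (4 * t - 3)))
    hg.continuousOn ?_
  norm_num

theorem ta_mem (x : ℝ) : 0 ≤ ta x ∧ ta x ≤ 1 := by
  unfold ta
  have h0 := Int.fract_nonneg x
  have h1 := Int.fract_lt_one x
  exact ⟨le_max_left _ _, max_le zero_le_one (max_le (by linarith) (by linarith))⟩

theorem ta_int (k : ℤ) : ta (k : ℝ) = 1 := by
  unfold ta
  rw [Int.fract_intCast]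
  norm_num

theorem ta_add (k : ℤ) (x : ℝ) : ta ((k : ℝ) + x) = ta x := by
  unfold ta
  rw [Int.fract_intCast_add]

theorem ta_one_sub (x : ℝ) : ta (1 - x) = ta x := by
  by_cases h : Int.fract x = 0
  · have hx : x = (⌊x⌋ : ℝ) := by
      have h2 := Int.floor_add_fract x
      rw [h, add_zero] at h2
      exact h2.symm
    have h1 : (1 : ℝ) - (⌊x⌋ : ℝ) = ((1 - ⌊x⌋ : ℤ) : ℝ) := by push_cast; ring
    rw [hx, h1, ta_int, ta_int]
  · obtain ⟨h1, h2⟩ := ft9_flip h
    unfold ta
    rw [h2]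
    have h3 : 1 - 4 * (1 - Int.fract x) = 4 * Int.fract x - 3 := by ring
    have h4 : 4 * (1 - Int.fract x) - 3 = 1 - 4 * Int.fract x := by ring
    rw [h3, h4, max_comm (4 * Int.fract x - 3)]

theorem ta_pos {x : ℝ} (h : 0 < ta x) : ∃ k : ℤ, rh x = k := by
  unfold ta at h
  rcases lt_max_iff.1 h with h1 | h1
  · exact absurd h1 (lt_irrefl _)
  · rcases lt_max_iff.1 h1 with h2 | h2
    · refine ⟨⌊x⌋, ?_⟩
      unfold rh
      rw [cl_of_nonpos (by linarith), add_zero]
    · refine ⟨⌊x⌋ + 1, ?_⟩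
      unfold rh
      rw [cl_of_one_le (by linarith)]
      push_cast
      ring

end AGE
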