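import Pool.Agent.AGE.FTD
import Pool.Agent.AGE.FTE
import Pool.Agent.AGE.FT8
import Pool.Agent.AGE.FT9

/-!
# AGE-FT10: the sharpening of a map

`tav x = 1 - ∏ i, (1 - ta (x i))`. `tav_wall`: the factor of `i` is `0` (`Finset.prod_eq_zero`). `tav_pos`: if all `ta (x i) = 0` the product is `1`; `ta_pos`. `tav_mem`: `Finset.prod_nonneg`, `Finset.prod_le_one`.
`shh_cont`: compositions of `ct_continuous`, `cl_continuous`, `rh_continuous`, `tav` continuous, `hW.con`. `shh_mem`: if `s ≤ 1/2` then `cl (2 s - 1) = 0` (`2 s - 1 ≤ 0`), `ct 0 = id`, `hW.mem`. If `s > 1/2`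
then `cl (2 s) = 1` and the argument of `W` is `rh ∘ x`; if `tav x = 0` again `ct 0`, otherwise `tav_pos` gives an integer coordinate of `rh ∘ x`, so `W (rh ∘ x) ∈ Yk (n-1)` and `ct_mem` gives `Yk (n - 1 + 1) = Yk n`.
`shp_wall`: `tav x = 1`, `ct_one`. `shp_shift`: `rh_add`, `ta_add`.
`hat_lp`: continuity by composition (`clm` is continuous), membership: `shp W y = shh W 1 y`; support: if `x i ≤ -M` then `clm (-M) (2M) (x i) = -M` is an integer, `shp_wall`; the same for `2M`.
-/

set_option autoImplicit false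

noncomputable section

namespace AGE

open Set

variable {F N : Type} [Fintype F] [Fintype N]

theorem tav_continuous : Continuous (tav : (N → ℝ) → ℝ) := by
  have h : Continuous fun x : N → ℝ => 1 - ∏ i, (1 - ta (x i)) :=
    continuous_const.sub (continuous_finsetProd _ fun i _ =>
      continuous_const.sub (ta_continuous.comp (continuous_apply i)))
  exact h

theorem tav_mem (x : N → ℝ) : 0 ≤ tav x ∧ tav x ≤ 1 := by
  have h0 : 0 ≤ ∏ i, (1 - ta (x i)) := Finset.prod_nonneg fun i _ => by linarith [(ta_mem (x i)).2]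
  have h1 : ∏ i, (1 - ta (x i)) ≤ 1 := Finset.prod_le_one (fun i _ => by linarith [(ta_mem (x i)).2])
    (fun i _ => by linarith [(ta_mem (x i)).1])
  unfold tav
  constructor <;> linarith

theorem tav_wall (x : N → ℝ) (h : ∃ i, ∃ k : ℤ, x i = k) : tav x = 1 := by
  obtain ⟨i, k, hk⟩ := h
  have h0 : ∏ i, (1 - ta (x i)) = 0 := by
    refine Finset.prod_eq_zero (Finset.mem_univ i) ?_
    rw [hk, ta_int, sub_self]
  unfold tav
  rw [h0, sub_zero]

theorem tav_pos (x : N → ℝ) (h : 0 < tav x) : ∃ i, ∃ k : ℤ, rh (x i) = k := by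
  by_contra hn
  push Not at hn
  have h0 : ∏ i, (1 - ta (x i)) = 1 := by
    refine Finset.prod_eq_one fun i _ => ?_
    have h1 : ta (x i) = 0 := by
      refine le_antisymm ?_ (ta_mem (x i)).1
      by_contra hc
      push Not at hc
      obtain ⟨k, hk⟩ := ta_pos hc
      exact hn i k hk
    rw [h1, sub_zero]
  unfold tav at h
  rw [h0, sub_self] at h
  exact lt_irrefl _ h

theorem shh_zero (W : (N → ℝ) → (F → ℝ)) (x : N → ℝ) : shh W 0 x = W x := by
  unfold shh
  rw [cl_of_nonpos (by norm_num : (2 : ℝ) * 0 - 1 ≤ 0), cl_of_nonpos (by norm_num : (2 : ℝ) * 0 ≤ 0), zero_mul, ct_zero]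
  congr 1
  funext i
  ring

theorem shh_one (W : (N → ℝ) → (F → ℝ)) (x : N → ℝ) : shh W 1 x = shp W x := by
  unfold shh shp
  rw [cl_of_one_le (by norm_num : (1 : ℝ) ≤ 2 * 1 - 1), cl_of_one_le (by norm_num : (1 : ℝ) ≤ 2 * 1), one_mul]
  congr 2
  funext i
  ring

theorem shh_continuous {n : ℕ} (W : (N → ℝ) → (F → ℝ)) (hW : WW n W) :
    Continuous (fun p : ℝ × (N → ℝ) => shh W p.1 p.2) := by
  have h1 : Continuous fun p : ℝ × (N → ℝ) => cl (2 * p.1 - 1) * tav p.2 :=
    (cl_continuous.comp ((continuous_const.mul continuous_fst).sub continuous_const)).mul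
      (tav_continuous.comp continuous_snd)
  have h2 : Continuous fun p : ℝ × (N → ℝ) => cl (2 * p.1) :=
    cl_continuous.comp (continuous_const.mul continuous_fst)
  have h3 : Continuous fun p : ℝ × (N → ℝ) =>
      W (fun i => (1 - cl (2 * p.1)) * p.2 i + cl (2 * p.1) * rh (p.2 i)) := by
    refine hW.con.comp (continuous_pi fun i => ?_)
    have h4 : Continuous fun p : ℝ × (N → ℝ) => p.2 i := (continuous_apply i).comp continuous_snd
    exact ((continuous_const.sub h2).mul h4).add (h2.mul (rh_continuous.comp h4))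
  exact ct_continuous.comp (h1.prodMk h3)

theorem shh_mem {n : ℕ} (hn : 1 ≤ n) (W : (N → ℝ) → (F → ℝ)) (hW : WW n W) (s : ℝ)
    (x : N → ℝ) : shh W s x ∈ Yk F n := by
  unfold shh
  rcases le_or_gt s (1 / 2) with hs | hs
  · rw [cl_of_nonpos (by linarith : 2 * s - 1 ≤ 0), zero_mul, ct_zero]
    exact hW.mem _
  · rw [cl_of_one_le (by linarith : 1 ≤ 2 * s)]
    have h1 : (fun i => (1 - 1) * x i + 1 * rh (x i)) = fun i => rh (x i) := by
      funext i
      ring
    rw [h1]
    rcases (tav_mem x).1.eq_or_lt with h2 | h2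
    · rw [← h2, mul_zero, ct_zero]
      exact hW.mem _
    · have h3 := ct_mem (n - 1) _ (hW.wal _ (tav_pos x h2)) (cl (2 * s - 1) * tav x)
      rw [Nat.sub_add_cancel hn] at h3
      exact h3

theorem shp_wall (W : (N → ℝ) → (F → ℝ)) (x : N → ℝ) (h : ∃ i, ∃ k : ℤ, x i = k) :
    shp W x = 0 := by
  unfold shp
  rw [tav_wall x h, ct_one]

theorem shp_shift (W : (N → ℝ) → (F → ℝ)) (c : N → ℤ) (x : N → ℝ) :
    shp W (fun i => (c i : ℝ) + x i) = shp (fun y => W (fun i => (c i : ℝ) + y i)) x := by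
  unfold shp tav
  simp only [ta_add, rh_add]

theorem hat_lp {n : ℕ} (hn : 1 ≤ n) (M : ℕ) (hM : 0 < M) (W : (N → ℝ) → (F → ℝ))
    (hW : WW n W) :
    Lp (Yk F n) ((yb F n : Yk F n) : F → ℝ) (-(M : ℝ)) (2 * (M : ℝ)) (hat (M : ℝ) W) := by
  have hM0 : (0 : ℝ) < M := by exact_mod_cast hM
  refine ⟨?_, fun x => ?_, ?_⟩
  · have h1 : hat (M : ℝ) W = fun x => shh W 1 (fun i => clm (-(M : ℝ)) (2 * (M : ℝ)) (x i)) :=
      funext fun x => (shh_one W _).symm
    rw [h1]
    have h2 : Continuous fun x : N → ℝ => ((1 : ℝ), fun i => clm (-(M : ℝ)) (2 * (M : ℝ)) (x i)) := by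
      refine continuous_const.prodMk (continuous_pi fun i => ?_)
      exact continuous_const.max ((continuous_apply i).min continuous_const)
    exact (shh_continuous W hW).comp h2
  · have h1 : hat (M : ℝ) W x = shh W 1 (fun i => clm (-(M : ℝ)) (2 * (M : ℝ)) (x i)) := (shh_one W _).symm
    rw [h1]
    exact shh_mem hn W hW _ _
  · rintro x ⟨i, hi | hi⟩
    · refine shp_wall W _ ⟨i, -(M : ℤ), ?_⟩
      push_cast
      unfold clm
      exact max_eq_left ((min_le_left _ _).trans hi)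
    · refine shp_wall W _ ⟨i, 2 * (M : ℤ), ?_⟩
      push_cast
      unfold clm
      rw [min_eq_right hi]
      exact max_eq_right (by linarith)

end AGE
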