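import Pool.Agent.AGE.FTD

/-!
# AGE-FT4: classes of maps with compact support

Plan. Mathlib: `Mathlib/Topology/Homotopy/HomotopyGroup.lean` (`GenLoop`, `GenLoop.Homotopic`, `HomotopyGroup N X x = Quotient (GenLoop.Homotopic.setoid N x)`, `Cube.boundary`).
`cls_eq`: `cls b w = [gl h']` for some box `(α', β')` with `h' : Lp Y b α' β' w`; `gl h' ~ gl h` by the homotopy `(s, y) ↦ w ((1 - s) (α' + (β' - α') y) + s (α + (β - α) y))`: for `y i = 0` the `i`-th
coordinate is a convex combination of `α'` and `α`, so at most one of them, and `w = b` there by `h'.out` or `h.out` (at most `max α α'`); the same for `y i = 1`. Build a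
`ContinuousMap.HomotopyRel` (structure with `toFun` continuous on `I × (N → I)`, `map_zero_left`, `map_one_left`, `prop'`).
`cls_const`: the constant map satisfies `Lp` for `(0, 1)`; `cls_eq` and `gl = const` (ext).
`cls_hom`: `cls_eq` for `H 0`, `H 1`; homotopy `(s, y) ↦ H s (α + (β - α) y)`.
`hom_of_cls`: `cls_eq`, `Quotient.exact`, get `K : ContinuousMap.HomotopyRel ..`; put `H s x = (K (projIcc 0 1 s, fun i => projIcc 0 1 ((x i - α) / (β - α)))).1`. `H 0 x = w₀ (fun i => α + (β - α) * proj ((x i - α)/(β - α)))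
= w₀ (clm α β ∘ x)`, which is `w₀ x`: inside the box the clamp does nothing, otherwise some `x i ≤ α` or `≥ β` and both are `b`. Outside the box some `projIcc` is `0` or `1`: the point is in `Cube.boundary` and
`K` is constant in `s` there (`K.eq_fst`).
-/

set_option autoImplicit false

noncomputable section

namespace AGE

open Set

/-- The same map in two boxes. -/
private theorem FT4_box {E N : Type} [TopologicalSpace E] {Y : Set E} {b : Y} {α β α' β' : ℝ}
    {w : (N → ℝ) → E} (h : Lp Y (b : E) α β w) (h' : Lp Y (b : E) α' β' w) :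
    GenLoop.Homotopic (gl h) (gl h') := by
  refine ⟨{ toFun := fun p => ⟨w (fun i => (1 - (p.1 : ℝ)) * (α + (β - α) * (p.2 i : ℝ)) +
              (p.1 : ℝ) * (α' + (β' - α') * (p.2 i : ℝ))), h.mem _⟩
            continuous_toFun := ?_
            map_zero_left := ?_
            map_one_left := ?_
            prop' := ?_ }⟩
  · refine Continuous.subtype_mk (h.con.comp ?_) _
    fun_prop
  · intro y
    refine Subtype.ext ?_
    show w _ = w _
    congr 1
    funext i
    show (1 - ((0 : unitInterval) : ℝ)) * _ + ((0 : unitInterval) : ℝ) * _ = _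
    simp
  · intro y
    refine Subtype.ext ?_
    show w _ = w _
    congr 1
    funext i
    show (1 - ((1 : unitInterval) : ℝ)) * _ + ((1 : unitInterval) : ℝ) * _ = _
    simp
  · intro t y hy
    have h1 : (gl h) y = b := (gl h).2 y hy
    show (⟨w _, _⟩ : Y) = (gl h) y
    rw [h1]
    refine Subtype.ext ?_
    show w _ = (b : E)
    obtain ⟨i, hi⟩ := hy
    have ht0 : 0 ≤ (t : ℝ) := t.2.1
    have ht1 : (t : ℝ) ≤ 1 := t.2.2
    rcases hi with hi | hi
    · have hi' : ((y i : unitInterval) : ℝ) = 0 := by rw [hi]; rfl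
      rcases le_total α α' with hα | hα
      · refine h'.out _ ⟨i, Or.inl ?_⟩
        show (1 - (t : ℝ)) * (α + (β - α) * (y i : ℝ)) + (t : ℝ) * (α' + (β' - α') * (y i : ℝ)) ≤ α'
        rw [hi']
        nlinarith
      · refine h.out _ ⟨i, Or.inl ?_⟩
        show (1 - (t : ℝ)) * (α + (β - α) * (y i : ℝ)) + (t : ℝ) * (α' + (β' - α') * (y i : ℝ)) ≤ α
        rw [hi']
        nlinarith
    · have hi' : ((y i : unitInterval) : ℝ) = 1 := by rw [hi]; rfl
      rcases le_total β β' with hβ | hβ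
      · refine h.out _ ⟨i, Or.inr ?_⟩
        show β ≤ (1 - (t : ℝ)) * (α + (β - α) * (y i : ℝ)) + (t : ℝ) * (α' + (β' - α') * (y i : ℝ))
        rw [hi']
        nlinarith
      · refine h'.out _ ⟨i, Or.inr ?_⟩
        show β' ≤ (1 - (t : ℝ)) * (α + (β - α) * (y i : ℝ)) + (t : ℝ) * (α' + (β' - α') * (y i : ℝ))
        rw [hi']
        nlinarith

theorem cls_eq {E N : Type} [TopologicalSpace E] {Y : Set E} (b : Y) (α β : ℝ) (hαβ : α < β)
    (w : (N → ℝ) → E) (h : Lp Y (b : E) α β w) : cls b w = Quotient.mk _ (gl h) := by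
  have hex : ∃ p : ℝ × ℝ, p.1 < p.2 ∧ Lp Y (b : E) p.1 p.2 w := ⟨(α, β), hαβ, h⟩
  have h1 : cls b w = Quotient.mk _ (gl hex.choose_spec.2) := by
    unfold cls
    rw [dif_pos hex]
  rw [h1]
  exact Quotient.sound (FT4_box _ h)

theorem cls_const {E N : Type} [TopologicalSpace E] {Y : Set E} (b : Y) :
    cls b (fun _ : N → ℝ => (b : E)) = Quotient.mk _ GenLoop.const := by
  have h : Lp Y (b : E) 0 1 (fun _ : N → ℝ => (b : E)) :=
    ⟨continuous_const, fun _ => b.2, fun _ _ => rfl⟩
  rw [cls_eq b 0 1 one_pos _ h]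
  congr 1

theorem cls_hom {E N : Type} [TopologicalSpace E] {Y : Set E} (b : Y) (α β : ℝ) (hαβ : α < β)
    (H : ℝ → (N → ℝ) → E) (hH : Continuous (fun p : ℝ × (N → ℝ) => H p.1 p.2))
    (hY : ∀ s ∈ Icc (0 : ℝ) 1, ∀ x, H s x ∈ Y)
    (ho : ∀ s ∈ Icc (0 : ℝ) 1, ∀ x : N → ℝ, (∃ i, x i ≤ α ∨ β ≤ x i) → H s x = b) :
    cls b (H 0) = cls b (H 1) := by
  have hl : ∀ s ∈ Icc (0 : ℝ) 1, Lp Y (b : E) α β (H s) := fun s hs =>
    ⟨hH.comp (continuous_const.prodMk continuous_id : Continuous fun x : N → ℝ => ((s, x) : ℝ × (N → ℝ))),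
      fun x => hY s hs x, fun x hx => ho s hs x hx⟩
  have h0 := hl 0 ⟨le_refl _, zero_le_one⟩
  have h1 := hl 1 ⟨zero_le_one, le_refl _⟩
  rw [cls_eq b α β hαβ _ h0, cls_eq b α β hαβ _ h1]
  refine Quotient.sound ?_
  show GenLoop.Homotopic (gl h0) (gl h1)
  refine ⟨{ toFun := fun p => ⟨H (p.1 : ℝ) (fun i => α + (β - α) * (p.2 i : ℝ)), hY _ p.1.2 _⟩
            continuous_toFun := ?_
            map_zero_left := ?_
            map_one_left := ?_
            prop' := ?_ }⟩
  · have hc : Continuous (fun p : unitInterval × (N → unitInterval) =>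
        (((p.1 : ℝ), fun i => α + (β - α) * (p.2 i : ℝ)) : ℝ × (N → ℝ))) := by fun_prop
    exact Continuous.subtype_mk (hH.comp hc) _
  · intro y
    rfl
  · intro y
    rfl
  · intro t y hy
    have h2 : (gl h0) y = b := (gl h0).2 y hy
    show (⟨H (t : ℝ) _, _⟩ : Y) = (gl h0) y
    rw [h2]
    refine Subtype.ext ?_
    show H (t : ℝ) _ = (b : E)
    obtain ⟨i, hi⟩ := hy
    refine ho _ t.2 _ ⟨i, ?_⟩
    rcases hi with hi | hi
    · left
      show α + (β - α) * ((y i : unitInterval) : ℝ) ≤ α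
      rw [hi]
      show α + (β - α) * 0 ≤ α
      simp
    · right
      show β ≤ α + (β - α) * ((y i : unitInterval) : ℝ)
      rw [hi]
      show β ≤ α + (β - α) * 1
      simp

theorem hom_of_cls {E N : Type} [TopologicalSpace E] {Y : Set E} (b : Y) (α β : ℝ) (hαβ : α < β)
    (w₀ w₁ : (N → ℝ) → E) (h₀ : Lp Y (b : E) α β w₀) (h₁ : Lp Y (b : E) α β w₁)
    (h : cls b w₀ = cls b w₁) :
    ∃ H : ℝ → (N → ℝ) → E, Continuous (fun p : ℝ × (N → ℝ) => H p.1 p.2) ∧
      (∀ x, H 0 x = w₀ x) ∧ (∀ x, H 1 x = w₁ x) ∧ (∀ s x, H s x ∈ Y) ∧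
      ∀ s, ∀ x : N → ℝ, (∃ i, x i ≤ α ∨ β ≤ x i) → H s x = b := by
  rw [cls_eq b α β hαβ _ h₀, cls_eq b α β hαβ _ h₁] at h
  have h2 : GenLoop.Homotopic (gl h₀) (gl h₁) := Quotient.exact h
  obtain ⟨K⟩ := h2
  have hd : 0 < β - α := by linarith
  set pr : ℝ → unitInterval := projIcc 0 1 zero_le_one with hpr
  have hprc : Continuous pr := continuous_projIcc
  have hval : ∀ t : ℝ, (pr t : ℝ) = max 0 (min 1 t) := fun t => rfl
  -- the boundary
  have hbd : ∀ x : N → ℝ, (∃ i, x i ≤ α ∨ β ≤ x i) →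
      (fun i => pr ((x i - α) / (β - α))) ∈ Cube.boundary N := by
    rintro x ⟨i, hi | hi⟩
    · refine ⟨i, Or.inl ?_⟩
      refine projIcc_of_le_left _ ?_
      exact div_nonpos_of_nonpos_of_nonneg (by linarith) hd.le
    · refine ⟨i, Or.inr ?_⟩
      refine projIcc_of_right_le _ ?_
      rw [le_div_iff₀ hd]
      linarith
  have hw : ∀ (w : (N → ℝ) → E) (hl : Lp Y (b : E) α β w) (x : N → ℝ),
      (((gl hl) (fun i => pr ((x i - α) / (β - α))) : Y) : E) = w x := by
    intro w hl x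
    by_cases hx : ∃ i, x i ≤ α ∨ β ≤ x i
    · have h3 : (gl hl) (fun i => pr ((x i - α) / (β - α))) = b := (gl hl).2 _ (hbd x hx)
      rw [h3, hl.out x hx]
    · show w _ = w x
      congr 1
      funext i
      have hx1 : α < x i := by
        by_contra hc
        exact hx ⟨i, Or.inl (not_lt.1 hc)⟩
      have hx2 : x i < β := by
        by_contra hc
        exact hx ⟨i, Or.inr (not_lt.1 hc)⟩
      have h4 : 0 ≤ (x i - α) / (β - α) := div_nonneg (by linarith) hd.le
      have h5 : (x i - α) / (β - α) ≤ 1 := by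
        rw [div_le_one hd]
        linarith
      show α + (β - α) * (pr ((x i - α) / (β - α)) : ℝ) = x i
      rw [hval, min_eq_right h5, max_eq_right h4, mul_div_cancel₀ _ hd.ne']
      ring
  refine ⟨fun s x => ((K (pr s, fun i => pr ((x i - α) / (β - α))) : Y) : E), ?_, ?_, ?_, ?_, ?_⟩
  · refine continuous_subtype_val.comp (K.continuous.comp ?_)
    refine Continuous.prodMk (hprc.comp continuous_fst) ?_
    refine continuous_pi fun i => hprc.comp ?_
    fun_prop
  · intro x
    have h3 : pr 0 = 0 := projIcc_left _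
    show ((K (pr 0, fun i => pr ((x i - α) / (β - α))) : Y) : E) = w₀ x
    rw [h3, ← hw w₀ h₀ x]
    exact congrArg Subtype.val (K.apply_zero _)
  · intro x
    have h3 : pr 1 = 1 := projIcc_right _
    show ((K (pr 1, fun i => pr ((x i - α) / (β - α))) : Y) : E) = w₁ x
    rw [h3, ← hw w₁ h₁ x]
    exact congrArg Subtype.val (K.apply_one _)
  · intro s x
    exact Subtype.property _
  · intro s x hx
    have h3 := K.eq_fst (pr s) (hbd x hx)
    have h4 : (gl h₀) (fun i => pr ((x i - α) / (β - α))) = b := (gl h₀).2 _ (hbd x hx)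
    exact (congrArg Subtype.val h3).trans (congrArg Subtype.val h4)

end AGE
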