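import Pool.Agent.AGE.FTD
import Pool.Agent.AGE.FT4

/-!
# AGE-FT5: cutting a class along a wall, translations

Plan. `cls_shift`: `cls_hom` with `H s x = w (x + s v)`; with `r = sum |v i|` (or `‖v‖`) the support of all of them is in the box `(α - r, β + r)`; `H 0 = w`.
`cls_cut`. If `a ≤ α`: `w₋ = w (update x i (min (x i) a))` is the constant `b` (its `i`-th coordinate is `≤ a ≤ α`) and `w₊ = w (update x i (max (x i) a))` is `w`: for `x i < a` both are `b`
(`max = a`, wall; `x i ≤ α`); `cls_one`. The same for `β ≤ a`. If `α < a < β`: let `m = (α + β)/2`, `θ t = if t ≤ m then min (2 t - α) a else max (2 t - β) a`, that is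
`θ t = min (2 t - α) a + max (2 t - β) a - a` (check: for `t ≤ m`: `2t - β ≤ α < a`; for `t ≥ m`: `2 t - α ≥ β > a`; so the single formula is right and continuous). `θ t ≤ α` for `t ≤ α`, `β ≤ θ t` for
`β ≤ t`. So `cls b w = cls b (w (update x i (θ (x i))))` by `cls_hom` with `H s x = w (update x i ((1 - s) x i + s θ (x i)))` (box `(α, β)`). Now `gl` of this map is
`transAt i (gl w₋) (gl w₊)` (`GenLoop.ext`, unfold `GenLoop.transAt`, `GenLoop.coe_copy`): with `t = α + (β - α) y i`: `y i ≤ 1/2` iff `t ≤ m`, and then `α + (β - α) (2 y i) = 2 t - α` and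
`min (2t - α) a = θ t`; for `y i > 1/2`: `α + (β - α)(2 y i - 1) = 2 t - β`, `max (2 t - β) a = θ t`. `HomotopyGroup.mul_spec` (`[p] * [q] = [transAt i q p]`), and the group is commutative
(`HomotopyGroup.commGroup`, `Nontrivial N`; check that the group instance of `commGroup` is the one of `HomotopyGroup.group`), so the order does not matter.
-/

set_option autoImplicit false

noncomputable section

namespace AGE

open Set

private theorem FT5_mul {N X : Type} [DecidableEq N] [Nontrivial N] [TopologicalSpace X] {x : X}
    (i : N) (p q : GenLoop N X x) :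
    @HMul.hMul (HomotopyGroup N X x) (HomotopyGroup N X x) (HomotopyGroup N X x) _
      (Quotient.mk _ p) (Quotient.mk _ q) = Quotient.mk _ (GenLoop.transAt i p q) := by
  rw [mul_comm]
  exact HomotopyGroup.mul_spec

theorem cls_one {E N : Type} [DecidableEq N] [Nontrivial N] [TopologicalSpace E] {Y : Set E}
    (b : Y) : cls b (fun _ : N → ℝ => (b : E)) = 1 := by
  rw [cls_const]
  exact HomotopyGroup.one_def.symm

theorem cls_shift {E N : Type} [Fintype N] [TopologicalSpace E] {Y : Set E} (b : Y) (α β : ℝ)
    (hαβ : α < β) (w : (N → ℝ) → E) (h : Lp Y (b : E) α β w) (v : N → ℝ) :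
    cls b (fun x => w (fun i => x i + v i)) = cls b w := by
  set r : ℝ := ∑ i, |v i| with hr
  have hr0 : 0 ≤ r := Finset.sum_nonneg fun i _ => abs_nonneg _
  have hvr : ∀ i, |v i| ≤ r := fun i => Finset.single_le_sum (f := fun i => |v i|)
    (fun j _ => abs_nonneg _) (Finset.mem_univ i)
  have key := cls_hom b (α - r) (β + r) (by linarith) (fun s x => w (fun i => x i + s * v i))
    (h.con.comp (by fun_prop)) (fun s _ x => h.mem _) (by
      rintro s ⟨hs0, hs1⟩ x ⟨i, hi⟩
      have h1 := abs_le.1 (hvr i)
      have h2 : s * v i ≤ r := by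
        rcases le_total 0 (v i) with h3 | h3
        · exact (mul_le_of_le_one_left h3 hs1).trans h1.2
        · exact (mul_nonpos_of_nonneg_of_nonpos hs0 h3).trans hr0
      have h3 : -r ≤ s * v i := by
        rcases le_total 0 (v i) with h4 | h4
        · exact (neg_nonpos.2 hr0).trans (mul_nonneg hs0 h4)
        · nlinarith
      refine h.out _ ⟨i, ?_⟩
      rcases hi with hi | hi
      · left
        show x i + s * v i ≤ α
        linarith
      · right
        show β ≤ x i + s * v i
        linarith)
  have e0 : (fun x : N → ℝ => w (fun i => x i + 0 * v i)) = w := by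
    funext x
    show w _ = w x
    congr 1
    funext i
    ring
  have e1 : (fun x : N → ℝ => w (fun i => x i + 1 * v i)) =
      fun x => w (fun i => x i + v i) := by
    funext x
    show w _ = w _
    congr 1
    funext i
    ring
  rw [e0, e1] at key
  exact key.symm

private theorem FT5_out {E N : Type} [DecidableEq N] [TopologicalSpace E]
    {Y : Set E} {b : Y} {α β : ℝ} {w : (N → ℝ) → E} (h : Lp Y (b : E) α β w)
    (i : N) {g : ℝ → ℝ} (hg : Continuous g)
    (h1 : ∀ x : N → ℝ, x i ≤ α → w (Function.update x i (g (x i))) = b)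
    (h2 : ∀ x : N → ℝ, β ≤ x i → w (Function.update x i (g (x i))) = b) :
    Lp Y (b : E) α β (fun x => w (Function.update x i (g (x i)))) where
  con := h.con.comp (continuous_id.update i (hg.comp (continuous_apply i)))
  mem := fun x => h.mem _
  out := by
    rintro x ⟨j, hj⟩
    by_cases hji : j = i
    · rw [hji] at hj
      rcases hj with hj | hj
      · exact h1 x hj
      · exact h2 x hj
    · refine h.out _ ⟨j, ?_⟩
      rw [Function.update_of_ne hji]
      exact hj

theorem cls_cut {E N : Type} [DecidableEq N] [Nontrivial N] [TopologicalSpace E]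
    {Y : Set E} (b : Y) (α β : ℝ) (hαβ : α < β) (w : (N → ℝ) → E) (h : Lp Y (b : E) α β w)
    (i : N) (a : ℝ) (ha : ∀ x : N → ℝ, x i = a → w x = b) :
    cls b w = cls b (fun x => w (Function.update x i (min (x i) a))) *
      cls b (fun x => w (Function.update x i (max (x i) a))) := by
  have hbel : ∀ (x : N → ℝ) (t : ℝ), t ≤ α → w (Function.update x i t) = b := fun x t ht =>
    h.out _ ⟨i, Or.inl (by rw [Function.update_self]; exact ht)⟩
  have habv : ∀ (x : N → ℝ) (t : ℝ), β ≤ t → w (Function.update x i t) = b := fun x t ht =>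
    h.out _ ⟨i, Or.inr (by rw [Function.update_self]; exact ht)⟩
  have hat : ∀ (x : N → ℝ) (t : ℝ), t = a → w (Function.update x i t) = b := fun x t ht =>
    ha _ (by rw [Function.update_self]; exact ht)
  rcases le_or_gt a α with hα | hα
  · have e1 : (fun x => w (Function.update x i (min (x i) a))) = fun _ : N → ℝ => (b : E) := by
      funext x
      exact hbel x _ ((min_le_right _ _).trans hα)
    have e2 : (fun x => w (Function.update x i (max (x i) a))) = w := by
      funext x
      rcases le_total a (x i) with h1 | h1
      · rw [max_eq_left h1, Function.update_eq_self]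
      · rw [hat x _ (max_eq_right h1)]
        exact (h.out x ⟨i, Or.inl (h1.trans hα)⟩).symm
    rw [e1, e2, cls_one, one_mul]
  rcases le_or_gt β a with hβ | hβ
  · have e1 : (fun x => w (Function.update x i (max (x i) a))) = fun _ : N → ℝ => (b : E) := by
      funext x
      exact habv x _ (hβ.trans (le_max_right _ _))
    have e2 : (fun x => w (Function.update x i (min (x i) a))) = w := by
      funext x
      rcases le_total (x i) a with h1 | h1
      · rw [min_eq_left h1, Function.update_eq_self]
      · rw [hat x _ (min_eq_right h1)]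
        exact (h.out x ⟨i, Or.inr (hβ.trans h1)⟩).symm
    rw [e1, e2, cls_one, mul_one]
  -- the main case
  set θ : ℝ → ℝ := fun t => min (2 * t - α) a + max (2 * t - β) a - a with hθ
  have hθc : Continuous θ := by
    rw [hθ]
    fun_prop
  have hθl : ∀ t, t ≤ α → θ t ≤ α := by
    intro t ht
    show min (2 * t - α) a + max (2 * t - β) a - a ≤ α
    rw [max_eq_right (by linarith : 2 * t - β ≤ a)]
    have := min_le_left (2 * t - α) a
    linarith
  have hθr : ∀ t, β ≤ t → β ≤ θ t := by
    intro t ht
    show β ≤ min (2 * t - α) a + max (2 * t - β) a - a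
    rw [min_eq_right (by linarith : a ≤ 2 * t - α)]
    have := le_max_left (2 * t - β) a
    linarith
  have hm : Lp Y (b : E) α β (fun x => w (Function.update x i (min (x i) a))) :=
    FT5_out h i (g := fun t => min t a) (by fun_prop) (fun x hx => hbel x _ ((min_le_left _ _).trans hx))
      (fun x hx => hat x _ (min_eq_right (hβ.le.trans hx)))
  have hp : Lp Y (b : E) α β (fun x => w (Function.update x i (max (x i) a))) :=
    FT5_out h i (g := fun t => max t a) (by fun_prop) (fun x hx => hat x _ (max_eq_right (hx.trans hα.le)))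
      (fun x hx => habv x _ (hx.trans (le_max_left _ _)))
  have ht : Lp Y (b : E) α β (fun x => w (Function.update x i (θ (x i)))) :=
    FT5_out h i hθc (fun x hx => hbel x _ (hθl _ hx)) (fun x hx => habv x _ (hθr _ hx))
  have key := cls_hom b α β hαβ
    (fun s x => w (Function.update x i ((1 - s) * x i + s * θ (x i))))
    (h.con.comp (continuous_snd.update i (by fun_prop))) (fun s _ x => h.mem _) (by
      rintro s ⟨hs0, hs1⟩ x ⟨j, hj⟩
      by_cases hji : j = i
      · rw [hji] at hj
        rcases hj with hj | hj
        · refine hbel x _ ?_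
          have := hθl _ hj
          nlinarith
        · refine habv x _ ?_
          have := hθr _ hj
          nlinarith
      · refine h.out _ ⟨j, ?_⟩
        rw [Function.update_of_ne hji]
        exact hj)
  have e0 : (fun x : N → ℝ => w (Function.update x i ((1 - 0) * x i + 0 * θ (x i)))) = w := by
    funext x
    show w (Function.update x i ((1 - 0) * x i + 0 * θ (x i))) = w x
    rw [sub_zero, one_mul, zero_mul, add_zero, Function.update_eq_self]
  have e1 : (fun x : N → ℝ => w (Function.update x i ((1 - 1) * x i + 1 * θ (x i)))) =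
      fun x => w (Function.update x i (θ (x i))) := by
    funext x
    show w (Function.update x i ((1 - 1) * x i + 1 * θ (x i))) = _
    rw [sub_self, zero_mul, zero_add, one_mul]
  rw [e0, e1] at key
  rw [key, cls_eq b α β hαβ _ ht, cls_eq b α β hαβ _ hm, cls_eq b α β hαβ _ hp, FT5_mul i]
  congr 1
  refine GenLoop.ext _ _ fun y => Subtype.ext ?_
  rw [GenLoop.transAt, GenLoop.coe_copy]
  have hy0 : 0 ≤ (y i : ℝ) := (y i).2.1
  have hy1 : (y i : ℝ) ≤ 1 := (y i).2.2
  have hba : 0 < β - α := by linarith
  have hupd : ∀ (z : unitInterval) (u : ℝ),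
      Function.update (fun k => α + (β - α) * ((Function.update y i z k : unitInterval) : ℝ)) i u =
        Function.update (fun k => α + (β - α) * (y k : ℝ)) i u := by
    intro z u
    funext k
    by_cases hk : k = i
    · rw [hk, Function.update_self, Function.update_self]
    · rw [Function.update_of_ne hk, Function.update_of_ne hk, Function.update_of_ne hk]
  split_ifs with hy
  · show w (Function.update (fun k => α + (β - α) * (y k : ℝ)) i (θ (α + (β - α) * (y i : ℝ)))) =
      w (Function.update (fun k => α + (β - α) *
        ((Function.update y i (projIcc 0 1 zero_le_one (2 * (y i : ℝ))) k : unitInterval) : ℝ)) i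
          (min (α + (β - α) *
        ((Function.update y i (projIcc 0 1 zero_le_one (2 * (y i : ℝ))) i : unitInterval) : ℝ)) a))
    rw [hupd, Function.update_self, projIcc_of_mem zero_le_one ⟨by linarith, by linarith⟩]
    congr 2
    show min (2 * (α + (β - α) * (y i : ℝ)) - α) a + max (2 * (α + (β - α) * (y i : ℝ)) - β) a - a =
      min (α + (β - α) * (2 * (y i : ℝ))) a
    have h3 : (β - α) * (y i : ℝ) ≤ (β - α) * (1 / 2) := mul_le_mul_of_nonneg_left hy hba.le
    rw [max_eq_right (by linarith : 2 * (α + (β - α) * (y i : ℝ)) - β ≤ a), add_sub_cancel_right]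
    congr 1
    ring
  · show w (Function.update (fun k => α + (β - α) * (y k : ℝ)) i (θ (α + (β - α) * (y i : ℝ)))) =
      w (Function.update (fun k => α + (β - α) *
        ((Function.update y i (projIcc 0 1 zero_le_one (2 * (y i : ℝ) - 1)) k : unitInterval) : ℝ)) i
          (max (α + (β - α) *
        ((Function.update y i (projIcc 0 1 zero_le_one (2 * (y i : ℝ) - 1)) i : unitInterval) : ℝ)) a))
    have hy' : 1 / 2 ≤ (y i : ℝ) := (not_le.1 hy).le
    rw [hupd, Function.update_self, projIcc_of_mem zero_le_one ⟨by linarith, by linarith⟩]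
    congr 2
    show min (2 * (α + (β - α) * (y i : ℝ)) - α) a + max (2 * (α + (β - α) * (y i : ℝ)) - β) a - a =
      max (α + (β - α) * (2 * (y i : ℝ) - 1)) a
    have h3 : (β - α) * (1 / 2) ≤ (β - α) * (y i : ℝ) := mul_le_mul_of_nonneg_left hy' hba.le
    rw [min_eq_right (by linarith : a ≤ 2 * (α + (β - α) * (y i : ℝ)) - α), add_sub_cancel_left]
    congr 1
    ring

end AGE
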