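import Pool.Agent.AGE.FTD
import Pool.Agent.AGE.FT4
import Pool.Agent.AGE.FT5

/-!
# AGE-FT7: flips and permutations of the coordinates

Plan. `cls_flip`: choose a box symmetric about `p / 2` containing the support: `α' = min α (p - β)`, `β' = p - α'` (then `β' ≥ β` and `β' ≥ p - α`...: `β' = max (p - α) β`); `Lp` is monotone in the box. Then
`gl` of the flipped map is `GenLoop.symmAt i (gl h')` (`α' + (β' - α')(1 - y) = p - (α' + (β' - α') y)`), `HomotopyGroup.inv_spec`.
`cls_swap`: with the centre `0`: enlarge the box to `(-R, R)`. For `0 ≤ s ≤ 1` let `L s x` be `x` with the two coordinates `i, j` replaced by `- (1 - s) x i + s x j` and `s x i + (1 - s) x j`.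
`L 0 = ` flip of coordinate `i` about `0` (`p = 0`), `L 1 = ` swap. If `|x k| ≥ 2 R` for some `k` then `|L s x k'| ≥ R` for some `k'`: clear for `k ≠ i, j`; with `a, b` the two new coordinates
and `D = (1-s)^2 + s^2 ≥ 1/2` one has `D x i = - (1 - s) a + s b`, `D x j = s a + (1 - s) b`, so `|x i|, |x j| ≤ 2 max |a| |b|`. So `cls_hom` with `H s x = w (L s x)` and the box `(-2R, 2R)` gives
`cls (w ∘ swap) = cls (w ∘ flip_i) = (cls w)⁻¹` (`cls_flip` with `p = 0`).
`cls_perm`: `Equiv.Perm.swap_induction_on` (with `w` generalized); `sign (swap i j * f) = - sign f`; `(x ∘ (swap * f))`.. take care of the order: `x ∘ (swap i j * f) = (x ∘ swap i j) ∘ f`, so apply the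
swap case to the map `x ↦ w (x ∘ f)`. `Int.units_eq_one_or`.
-/

set_option autoImplicit false

noncomputable section

namespace AGE

open Set

private theorem ft7_mono {E N : Type} [TopologicalSpace E] {Y : Set E} {b : E} {α β α' β' : ℝ}
    {w : (N → ℝ) → E} (h : Lp Y b α β w) (h1 : α' ≤ α) (h2 : β ≤ β') : Lp Y b α' β' w :=
  ⟨h.con, h.mem, fun x ⟨i, hi⟩ => h.out x ⟨i, hi.imp (fun h => h.trans h1) (fun h => h2.trans h)⟩⟩

private theorem ft7_cv {s R a b : ℝ} (h0 : 0 ≤ s) (h1 : s ≤ 1) (ha : a < R) (hb : b < R) :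
    (1 - s) * a + s * b < R := by
  rcases h0.lt_or_eq with h | h
  · have e1 : (1 - s) * a ≤ (1 - s) * R := mul_le_mul_of_nonneg_left ha.le (by linarith)
    have e2 : s * b < s * R := mul_lt_mul_of_pos_left hb h
    linarith
  · rw [← h]
    linarith

private theorem ft7_flipLp {E N : Type} [DecidableEq N] [TopologicalSpace E] {Y : Set E} {b : E}
    {α β : ℝ} {w : (N → ℝ) → E} (h : Lp Y b α β w) (i : N) (p : ℝ) (hp : α + β = p) :
    Lp Y b α β (fun x => w (Function.update x i (p - x i))) := by
  refine ⟨h.con.comp (continuous_id.update i (continuous_const.sub (continuous_apply i))),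
    fun x => h.mem _, ?_⟩
  rintro x ⟨k, hk⟩
  refine h.out _ ⟨k, ?_⟩
  by_cases hki : k = i
  · subst hki
    rw [Function.update_self]
    rcases hk with hk | hk
    · right; linarith
    · left; linarith
  · rw [Function.update_of_ne hki]
    exact hk

theorem cls_flip {E N : Type} [DecidableEq N] [Nontrivial N] [TopologicalSpace E] {Y : Set E}
    (b : Y) (α β : ℝ) (hαβ : α < β) (w : (N → ℝ) → E) (h : Lp Y (b : E) α β w) (i : N) (p : ℝ) :
    cls b (fun x => w (Function.update x i (p - x i))) = (cls b w)⁻¹ := by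
  have hb1 : p - α ≤ max (p - α) β := le_max_left _ _
  have hb2 : β ≤ max (p - α) β := le_max_right _ _
  obtain ⟨β', hβ'⟩ : ∃ β', β' = max (p - α) β := ⟨_, rfl⟩
  rw [← hβ'] at hb1 hb2
  obtain ⟨α', hα'⟩ : ∃ α', α' = p - β' := ⟨_, rfl⟩
  have ha1 : α' ≤ α := by linarith
  have hlt : α' < β' := by linarith
  have h' : Lp Y (b : E) α' β' w := ft7_mono h ha1 hb2
  have hf := ft7_flipLp h' i p (by linarith)
  rw [cls_eq b α' β' hlt _ hf, cls_eq b α' β' hlt w h']
  refine Eq.trans ?_ (HomotopyGroup.inv_spec (i := i) (p := gl h')).symm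
  refine congrArg (Quotient.mk _) ?_
  refine Subtype.ext (ContinuousMap.ext fun y => Subtype.ext ?_)
  change w (Function.update (fun k => α' + (β' - α') * (y k : ℝ)) i
    (p - (α' + (β' - α') * (y i : ℝ)))) =
    w (fun k => α' + (β' - α') * ((if k = i then unitInterval.symm (y i) else y k : unitInterval) : ℝ))
  congr 1
  funext k
  by_cases hk : k = i
  · subst hk
    rw [Function.update_self, if_pos rfl, unitInterval.coe_symm_eq]
    rw [hα']
    ring
  · rw [Function.update_of_ne hk, if_neg hk]

theorem cls_swap {E N : Type} [DecidableEq N] [Nontrivial N] [TopologicalSpace E] {Y : Set E}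
    (b : Y) (α β : ℝ) (hαβ : α < β) (w : (N → ℝ) → E) (h : Lp Y (b : E) α β w) (i j : N)
    (hij : i ≠ j) :
    cls b (fun x => w (fun k => x (Equiv.swap i j k))) = (cls b w)⁻¹ := by
  obtain ⟨R, hR⟩ : ∃ R, R = max (|α|) (|β|) + 1 := ⟨_, rfl⟩
  have hRa : |α| ≤ R - 1 := by rw [hR]; linarith [le_max_left (|α|) (|β|)]
  have hRb : |β| ≤ R - 1 := by rw [hR]; linarith [le_max_right (|α|) (|β|)]
  have hR0 : 0 < R := by linarith [abs_nonneg α]
  have h' : Lp Y (b : E) (-R) R w :=
    ft7_mono h (by linarith [neg_abs_le α]) (by linarith [le_abs_self β])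
  have h2 : Lp Y (b : E) (-(2 * R)) (2 * R) w :=
    ft7_mono h' (by linarith) (by linarith)
  have hji : ¬ j = i := fun h => hij h.symm
  let L : ℝ → (N → ℝ) → N → ℝ := fun s x k =>
    if k = i then -(1 - s) * x i + s * x j else if k = j then s * x i + (1 - s) * x j else x k
  have hL : Continuous (fun q : ℝ × (N → ℝ) => L q.1 q.2) := by
    refine continuous_pi fun k => ?_
    by_cases hki : k = i
    · have : (fun q : ℝ × (N → ℝ) => L q.1 q.2 k) =
          fun q => -(1 - q.1) * q.2 i + q.1 * q.2 j := by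
        funext q; simp only [L, if_pos hki]
      rw [this]
      fun_prop
    · by_cases hkj : k = j
      · have : (fun q : ℝ × (N → ℝ) => L q.1 q.2 k) =
            fun q => q.1 * q.2 i + (1 - q.1) * q.2 j := by
          funext q; simp only [L, if_neg hki, if_pos hkj]
        rw [this]
        fun_prop
      · have : (fun q : ℝ × (N → ℝ) => L q.1 q.2 k) = fun q => q.2 k := by
          funext q; simp only [L, if_neg hki, if_neg hkj]
        rw [this]
        fun_prop
  have key : ∀ s ∈ Icc (0 : ℝ) 1, ∀ x : N → ℝ, (∃ k, x k ≤ -(2 * R) ∨ 2 * R ≤ x k) →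
      ∃ k, L s x k ≤ -R ∨ R ≤ L s x k := by
    rintro s ⟨hs0, hs1⟩ x ⟨k, hk⟩
    by_contra hcon
    push Not at hcon
    have hLi : L s x i = -(1 - s) * x i + s * x j := by simp only [L, if_true]
    have hLj : L s x j = s * x i + (1 - s) * x j := by simp only [L, if_neg hji, if_true]
    obtain ⟨a1, a2⟩ := hcon i
    obtain ⟨b1, b2⟩ := hcon j
    rw [hLi] at a1 a2
    rw [hLj] at b1 b2
    have hD : (1 / 2 : ℝ) ≤ (1 - s) ^ 2 + s ^ 2 := by nlinarith [sq_nonneg (2 * s - 1)]
    have c1 := ft7_cv hs0 hs1 (neg_lt.1 a1) b2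
    have c2 := ft7_cv hs0 hs1 a2 (neg_lt.1 b1)
    have c3 := ft7_cv hs0 hs1 b2 a2
    have c4 := ft7_cv hs0 hs1 (neg_lt.1 b1) (neg_lt.1 a1)
    replace c1 : ((1 - s) ^ 2 + s ^ 2) * x i < R := by linarith
    replace c2 : -R < ((1 - s) ^ 2 + s ^ 2) * x i := by linarith
    replace c3 : ((1 - s) ^ 2 + s ^ 2) * x j < R := by linarith
    replace c4 : -R < ((1 - s) ^ 2 + s ^ 2) * x j := by linarith
    by_cases hki : k = i
    · subst hki
      rcases hk with hk | hk
      · nlinarith
      · nlinarith
    · by_cases hkj : k = j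
      · subst hkj
        rcases hk with hk | hk
        · nlinarith
        · nlinarith
      · have hLk : L s x k = x k := by simp only [L, if_neg hki, if_neg hkj]
        obtain ⟨d1, d2⟩ := hcon k
        rw [hLk] at d1 d2
        rcases hk with hk | hk
        · linarith
        · linarith
  have hom := cls_hom b (-(2 * R)) (2 * R) (by linarith) (fun s x => w (L s x))
    (h'.con.comp hL) (fun s _ x => h'.mem _) (fun s hs x hx => h'.out _ (key s hs x hx))
  have e0 : (fun x => w (L 0 x)) = fun x => w (Function.update x i (0 - x i)) := by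
    funext x
    congr 1
    funext k
    by_cases hki : k = i
    · subst hki
      rw [Function.update_self]
      simp only [L, if_true]
      ring
    · rw [Function.update_of_ne hki]
      by_cases hkj : k = j
      · subst hkj
        simp only [L, if_neg hki, if_true]
        ring
      · simp only [L, if_neg hki, if_neg hkj]
  have e1 : (fun x => w (L 1 x)) = fun x => w (fun k => x (Equiv.swap i j k)) := by
    funext x
    congr 1
    funext k
    by_cases hki : k = i
    · subst hki
      rw [Equiv.swap_apply_left]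
      simp only [L, if_true]
      ring
    · by_cases hkj : k = j
      · subst hkj
        rw [Equiv.swap_apply_right]
        simp only [L, if_neg hki, if_true]
        ring
      · rw [Equiv.swap_apply_of_ne_of_ne hki hkj]
        simp only [L, if_neg hki, if_neg hkj]
  rw [e0, e1] at hom
  rw [← hom]
  exact cls_flip b α β hαβ w h i 0

theorem cls_perm {E N : Type} [Fintype N] [DecidableEq N] [Nontrivial N] [TopologicalSpace E]
    {Y : Set E} (b : Y) (α β : ℝ) (hαβ : α < β) (w : (N → ℝ) → E) (h : Lp Y (b : E) α β w)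
    (σ : Equiv.Perm N) :
    cls b (fun x => w (fun k => x (σ k))) = (cls b w) ^ ((Equiv.Perm.sign σ : ℤˣ) : ℤ) := by
  induction σ using Equiv.Perm.swap_induction_on with
  | one =>
    simp only [Equiv.Perm.sign_one, Units.val_one, zpow_one, Equiv.Perm.one_apply]
  | swap_mul f i j hij ih =>
    have hf : Lp Y (b : E) α β (fun x => w (fun k => x (f k))) := by
      refine ⟨h.con.comp (continuous_pi fun k => continuous_apply (f k)), fun x => h.mem _, ?_⟩
      rintro x ⟨k, hk⟩
      refine h.out _ ⟨f.symm k, ?_⟩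
      simpa using hk
    have h1 := cls_swap b α β hαβ (fun x => w (fun k => x (f k))) hf i j hij
    rw [ih] at h1
    have h2 : ((Equiv.Perm.sign (Equiv.swap i j * f) : ℤˣ) : ℤ) =
        -((Equiv.Perm.sign f : ℤˣ) : ℤ) := by
      rw [Equiv.Perm.sign_mul, Equiv.Perm.sign_swap hij]
      simp
    rw [h2, zpow_neg]
    exact h1

end AGE
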