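import Pool.Agent.AGE.FTD
import Pool.Agent.AGE.FTE
import Pool.Agent.AGE.FT4
import Pool.Agent.AGE.FT5
import Pool.Agent.AGE.FT7
import Pool.Agent.AGE.FT8
import Pool.Agent.AGE.FT9
import Pool.Agent.AGE.FT10

/-!
# AGE-FT11: cell loops and their classes

Plan. `cel W x = shp W (cl ∘ x) = ct (tav (cl ∘ x)) (W (rh ∘ cl ∘ x))`; `rh (cl t) ∈ [0, 1]` (`rh_unit`), so only the values of `W` on the unit cube matter (`cel_congr`) and continuity follows from
`ContinuousOn` (`ContinuousOn.comp_continuous`). `cel_lp`: membership: if `tav = 0` use `ct 0` and `hW.mem`; otherwise `tav_pos`: some `rh (cl (x i))` is an integer in `[0, 1]`, so `0` or `1`, `hW.bdy`, `ct_mem`.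
Outside: `x i ≤ 0` gives `cl (x i) = 0`, an integer: `tav = 1`, `ct_one`. `cel_perm`: reindex the product in `tav` (`Equiv.prod_comp`). `cel_flip`: `cl_one_sub`, `rh_one_sub`, `ta_one_sub`; `Function.update` case
distinction `k = i`. `cls_cel_perm` = `cls_perm` for `w = cel W` and the box `(0, 1)`; `cls_cel_flip` = `cls_flip` with `p = 1`.
`cls_cel_deg`: `cls_hom` with `H s x = ct (s + (1 - s) * tav (cl ∘ x)) (W (rh ∘ cl ∘ x))`, box `(0, 1)`: in `Yk n` by `ct_mem` (`n - 1 + 1 = n`), `H 0 = cel W`, `H 1 = 0` (`ct_one`) and `cls_one`; outside the box `tav = 1`, so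
`s + (1 - s) = 1`.
-/

set_option autoImplicit false

noncomputable section

namespace AGE

open Set

variable {F N : Type} [Fintype F] [Fintype N]

private theorem FT11_arg (x : N → ℝ) (i : N) : 0 ≤ rh (cl (x i)) ∧ rh (cl (x i)) ≤ 1 :=
  rh_unit (cl_mem (x i)).1 (cl_mem (x i)).2

private theorem FT11_wall (x : N → ℝ) (h : ∃ i, x i ≤ 0 ∨ 1 ≤ x i) :
    ∃ i, ∃ k : ℤ, cl (x i) = k := by
  obtain ⟨i, hi | hi⟩ := h
  · exact ⟨i, 0, by rw [cl_of_nonpos hi, Int.cast_zero]⟩
  · exact ⟨i, 1, by rw [cl_of_one_le hi, Int.cast_one]⟩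

private theorem FT11_tavc : Continuous fun x : N → ℝ => tav (fun i => cl (x i)) :=
  tav_continuous.comp (continuous_pi fun i => cl_continuous.comp (continuous_apply i))

private theorem FT11_Wc (W : (N → ℝ) → (F → ℝ))
    (hW : ContinuousOn W {x | ∀ i, 0 ≤ x i ∧ x i ≤ 1}) :
    Continuous fun x : N → ℝ => W (fun i => rh (cl (x i))) :=
  hW.comp_continuous (f := fun (x : N → ℝ) (i : N) => rh (cl (x i)))
    (continuous_pi fun i => rh_continuous.comp (cl_continuous.comp (continuous_apply i)))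
    (fun x i => FT11_arg x i)

theorem cel_congr (W W' : (N → ℝ) → (F → ℝ))
    (h : ∀ x : N → ℝ, (∀ i, 0 ≤ x i ∧ x i ≤ 1) → W x = W' x) : cel W = cel W' := by
  funext x
  have h1 : W (fun i => rh (cl (x i))) = W' (fun i => rh (cl (x i))) :=
    h _ fun i => FT11_arg x i
  show ct (tav (fun i => cl (x i))) (W (fun i => rh (cl (x i)))) =
    ct (tav (fun i => cl (x i))) (W' (fun i => rh (cl (x i))))
  rw [h1]

theorem cel_lp {n : ℕ} (hn : 1 ≤ n) (W : (N → ℝ) → (F → ℝ)) (hW : CW n W) :
    Lp (Yk F n) ((yb F n : Yk F n) : F → ℝ) 0 1 (cel W) := by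
  refine ⟨?_, fun x => ?_, fun x hx => ?_⟩
  · have h1 : Continuous fun x : N → ℝ =>
        ct (tav (fun i => cl (x i))) (W (fun i => rh (cl (x i)))) :=
      ct_continuous.comp (FT11_tavc.prodMk (FT11_Wc W hW.con))
    exact h1
  · show ct (tav (fun i => cl (x i))) (W (fun i => rh (cl (x i)))) ∈ Yk F n
    have hu : ∀ i, 0 ≤ (fun i => rh (cl (x i))) i ∧ (fun i => rh (cl (x i))) i ≤ 1 :=
      fun i => FT11_arg x i
    rcases (tav_mem (fun i => cl (x i))).1.lt_or_eq with h0 | h0
    · obtain ⟨i, k, hk⟩ := tav_pos _ h0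
      have hk' : rh (cl (x i)) = k := hk
      have h2 : (fun i => rh (cl (x i))) i = 0 ∨ (fun i => rh (cl (x i))) i = 1 := by
        show rh (cl (x i)) = 0 ∨ rh (cl (x i)) = 1
        have h3 := FT11_arg x i
        rw [hk'] at h3 ⊢
        have h4 : (0 : ℤ) ≤ k := by exact_mod_cast h3.1
        have h5 : k ≤ (1 : ℤ) := by exact_mod_cast h3.2
        have h6 : k = 0 ∨ k = 1 := by omega
        rcases h6 with h6 | h6
        · left
          rw [h6, Int.cast_zero]
        · right
          rw [h6, Int.cast_one]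
      have h7 := ct_mem (n - 1) _ (hW.bdy _ hu ⟨i, h2⟩) (tav (fun i => cl (x i)))
      rwa [Nat.sub_add_cancel hn] at h7
    · rw [← h0, ct_zero]
      exact hW.mem _ hu
  · show shp W (fun i => cl (x i)) = 0
    exact shp_wall W _ (FT11_wall x hx)

theorem cel_perm (W : (N → ℝ) → (F → ℝ)) (σ : Equiv.Perm N) (x : N → ℝ) :
    cel (fun y => W (fun k => y (σ k))) x = cel W (fun k => x (σ k)) := by
  have h1 : tav (fun i => cl (x i)) = tav (fun i => cl (x (σ i))) := by
    unfold tav
    rw [Equiv.prod_comp σ (fun i => 1 - ta (cl (x i)))]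
  show ct (tav (fun i => cl (x i))) (W (fun k => rh (cl (x (σ k))))) =
    ct (tav (fun i => cl (x (σ i)))) (W (fun k => rh (cl (x (σ k)))))
  rw [h1]

theorem cel_flip [DecidableEq N] (W : (N → ℝ) → (F → ℝ)) (i : N) (x : N → ℝ) :
    cel (fun y => W (Function.update y i (1 - y i))) x =
      cel W (Function.update x i (1 - x i)) := by
  have h1 : tav (fun k => cl (x k)) = tav (fun k => cl (Function.update x i (1 - x i) k)) := by
    unfold tav
    congr 1
    refine Finset.prod_congr rfl fun k _ => ?_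
    show 1 - ta (cl (x k)) = 1 - ta (cl (Function.update x i (1 - x i) k))
    by_cases hk : k = i
    · subst hk
      rw [Function.update_self, cl_one_sub, ta_one_sub]
    · rw [Function.update_of_ne hk]
  have h2 : (Function.update (fun k => rh (cl (x k))) i (1 - rh (cl (x i))) : N → ℝ) =
      fun k => rh (cl (Function.update x i (1 - x i) k)) := by
    funext k
    by_cases hk : k = i
    · subst hk
      rw [Function.update_self, Function.update_self, cl_one_sub, rh_one_sub]
    · rw [Function.update_of_ne hk, Function.update_of_ne hk]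
  show ct (tav (fun k => cl (x k)))
      (W (Function.update (fun k => rh (cl (x k))) i (1 - rh (cl (x i))))) =
    ct (tav (fun k => cl (Function.update x i (1 - x i) k)))
      (W (fun k => rh (cl (Function.update x i (1 - x i) k))))
  rw [h1, h2]

variable [DecidableEq N] [Nontrivial N]

theorem cls_cel_perm {n : ℕ} (hn : 1 ≤ n) (W : (N → ℝ) → (F → ℝ)) (hW : CW n W)
    (σ : Equiv.Perm N) :
    cls (yb F n) (cel (fun y => W (fun k => y (σ k)))) =
      (cls (yb F n) (cel W)) ^ ((Equiv.Perm.sign σ : ℤˣ) : ℤ) := by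
  have h1 : cel (fun y => W (fun k => y (σ k))) = fun x => cel W (fun k => x (σ k)) :=
    funext fun x => cel_perm W σ x
  rw [h1]
  exact cls_perm (yb F n) 0 1 one_pos (cel W) (cel_lp hn W hW) σ

theorem cls_cel_flip {n : ℕ} (hn : 1 ≤ n) (W : (N → ℝ) → (F → ℝ)) (hW : CW n W) (i : N) :
    cls (yb F n) (cel (fun y => W (Function.update y i (1 - y i)))) =
      (cls (yb F n) (cel W))⁻¹ := by
  have h1 : cel (fun y => W (Function.update y i (1 - y i))) =
      fun x => cel W (Function.update x i (1 - x i)) :=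
    funext fun x => cel_flip W i x
  rw [h1]
  exact cls_flip (yb F n) 0 1 one_pos (cel W) (cel_lp hn W hW) i 1

theorem cls_cel_deg {n : ℕ} (hn : 1 ≤ n) (W : (N → ℝ) → (F → ℝ))
    (hW : ContinuousOn W {x | ∀ i, 0 ≤ x i ∧ x i ≤ 1})
    (h : ∀ x : N → ℝ, (∀ i, 0 ≤ x i ∧ x i ≤ 1) → W x ∈ Yk F (n - 1)) :
    cls (yb F n) (cel W) = 1 := by
  have h1 := cls_hom (yb F n) 0 1 one_pos
    (fun (s : ℝ) (x : N → ℝ) => ct (s + (1 - s) * tav (fun i => cl (x i)))
      (W (fun i => rh (cl (x i)))))
    (by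
      have h2 : Continuous fun p : ℝ × (N → ℝ) =>
          p.1 + (1 - p.1) * tav (fun i => cl (p.2 i)) :=
        continuous_fst.add ((continuous_const.sub continuous_fst).mul
          (FT11_tavc.comp continuous_snd))
      exact ct_continuous.comp (h2.prodMk ((FT11_Wc W hW).comp continuous_snd)))
    (by
      intro s _ x
      have h3 := ct_mem (n - 1) _ (h (fun i => rh (cl (x i))) fun i => FT11_arg x i)
        (s + (1 - s) * tav (fun i => cl (x i)))
      rwa [Nat.sub_add_cancel hn] at h3)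
    (by
      intro s _ x hx
      show ct (s + (1 - s) * tav (fun i => cl (x i))) (W (fun i => rh (cl (x i)))) = 0
      rw [tav_wall _ (FT11_wall x hx), mul_one, add_sub_cancel, ct_one])
  have h4 : (fun x : N → ℝ => ct ((0 : ℝ) + (1 - 0) * tav (fun i => cl (x i)))
      (W (fun i => rh (cl (x i))))) = cel W := by
    funext x
    show ct ((0 : ℝ) + (1 - 0) * tav (fun i => cl (x i))) (W (fun i => rh (cl (x i)))) =
      ct (tav (fun i => cl (x i))) (W (fun i => rh (cl (x i))))
    rw [zero_add, sub_zero, one_mul]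
  have h5 : (fun x : N → ℝ => ct ((1 : ℝ) + (1 - 1) * tav (fun i => cl (x i)))
      (W (fun i => rh (cl (x i))))) = fun _ : N → ℝ => ((yb F n : Yk F n) : F → ℝ) := by
    funext x
    show ct ((1 : ℝ) + (1 - 1) * tav (fun i => cl (x i))) (W (fun i => rh (cl (x i)))) = 0
    rw [sub_self, zero_mul, add_zero, ct_one]
  have h6 : cls (yb F n) (fun x : N → ℝ => ct ((0 : ℝ) + (1 - 0) * tav (fun i => cl (x i)))
      (W (fun i => rh (cl (x i))))) =
      cls (yb F n) (fun x : N → ℝ => ct ((1 : ℝ) + (1 - 1) * tav (fun i => cl (x i)))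
      (W (fun i => rh (cl (x i))))) := h1
  rw [h4, h5] at h6
  rw [h6]
  exact cls_one (yb F n)

end AGE
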