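import Pool.Agent.AGE.Defs
import Pool.Agent.AGE.FTD
import Pool.Agent.AGE.FTE
import Pool.Agent.AGE.FDD
import Pool.Agent.AGE.FT11

/-!
# AGE-FD5: flips of several coordinates; the sign of an injective map

Plan. `cw_flips`: composition with the homeomorphism of the unit cube `x ↦ (1 - x k if k ∈ A, x k otherwise)`, which preserves the boundary. `cls_flips`: `Finset.induction_on A`: for `A = insert i A'`, `i ∉ A'`: the map is
`x ↦ W' (update x i (1 - x i))` with `W' x = W (flip A' x)` (coordinate `i` is not flipped by `A'`), so `cls_cel_flip` and `cw_flips`; `(-1)^(card + 1)`.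
`exists_rank`: `k ↦ rk s (e k)` takes values `< n` and is injective (`rk s` is strictly increasing on `s`), so it is bijective on `Fin n`; `σ` is the inverse.
`sign_ivs`: by `hσ` the map `m ↦ e (σ m)` is strictly increasing (`rk s` is monotone: if `e (σ m) ≥ e (σ m')` then `rk s (e (σ m)) ≥ rk s (e (σ m'))`), so `e y < e x` iff `σ.symm y < σ.symm x`. Hence `ivs e univ = ∏ x, ∏ y, if x < y ∧ σ⁻¹ y < σ⁻¹ x then -1 else 1 =
sign σ⁻¹ = sign σ` by `Equiv.Perm.sign_eq_prod_prod_Ioi` or `_Iio` (`∏ y ∈ Ioi x, if σ x < σ y then 1 else -1`; rewrite `Finset.prod_ite`/`Finset.prod_filter`).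
-/

set_option autoImplicit false

noncomputable section

namespace AGE

variable {V J : Type} [LinearOrder V] [LinearOrder J]

theorem cw_flips {F N : Type} [DecidableEq N] {n : ℕ} (W : (N → ℝ) → (F → ℝ)) (hW : CW n W)
    (A : Finset N) : CW n (fun x => W (fun k => if k ∈ A then 1 - x k else x k)) := by
  have hφ : ∀ x : N → ℝ, (∀ i, 0 ≤ x i ∧ x i ≤ 1) →
      ∀ i, 0 ≤ (if i ∈ A then 1 - x i else x i) ∧ (if i ∈ A then 1 - x i else x i) ≤ 1 := by
    intro x hx i
    by_cases h : i ∈ A
    · rw [if_pos h]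
      exact ⟨by linarith [(hx i).2], by linarith [(hx i).1]⟩
    · rw [if_neg h]
      exact hx i
  have hc : Continuous fun (x : N → ℝ) (k : N) => if k ∈ A then 1 - x k else x k := by
    refine continuous_pi fun k => ?_
    by_cases h : k ∈ A
    · simp only [if_pos h]
      exact continuous_const.sub (continuous_apply k)
    · simp only [if_neg h]
      exact continuous_apply k
  refine ⟨?_, ?_, ?_⟩
  · exact hW.con.comp hc.continuousOn fun x hx => hφ x hx
  · intro x hx
    exact hW.mem _ (hφ x hx)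
  · rintro x hx ⟨i, hi⟩
    refine hW.bdy _ (hφ x hx) ⟨i, ?_⟩
    by_cases h : i ∈ A
    · simp only [if_pos h]
      rcases hi with hi | hi
      · exact Or.inr (by rw [hi]; norm_num)
      · exact Or.inl (by rw [hi]; norm_num)
    · simp only [if_neg h]
      exact hi

theorem cls_flips {F N : Type} [Fintype F] [Fintype N] [DecidableEq N] [Nontrivial N] {n : ℕ}
    (hn : 1 ≤ n) (W : (N → ℝ) → (F → ℝ)) (hW : CW n W) (A : Finset N) :
    cls (yb F n) (cel (fun x => W (fun k => if k ∈ A then 1 - x k else x k))) =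
      (cls (yb F n) (cel W)) ^ ((-1 : ℤ) ^ A.card) := by
  induction A using Finset.induction_on with
  | empty => simp
  | insert i A hi ih =>
    have h1 : (fun x : N → ℝ => W (fun k => if k ∈ insert i A then 1 - x k else x k)) =
        fun x => (fun y : N → ℝ => W (fun k => if k ∈ A then 1 - y k else y k))
          (Function.update x i (1 - x i)) := by
      funext x
      show W _ = W _
      congr 1
      funext k
      by_cases hk : k = i
      · subst hk
        rw [if_pos (Finset.mem_insert_self _ _), if_neg hi, Function.update_self]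
      · rw [Function.update_of_ne hk]
        by_cases hA : k ∈ A
        · rw [if_pos (Finset.mem_insert_of_mem hA), if_pos hA]
        · rw [if_neg hA, if_neg (fun h => (Finset.mem_insert.mp h).elim hk hA)]
    rw [h1, cls_cel_flip hn _ (cw_flips W hW A) i, ih, Finset.card_insert_of_notMem hi, pow_succ,
      mul_neg_one, zpow_neg]

private theorem fd5_rk_lt {s : Finset J} {a b : J} (ha : a ∈ s) (hab : a < b) : rk s a < rk s b := by
  refine Finset.card_lt_card ⟨fun x hx => ?_, fun h => ?_⟩
  · rw [Finset.mem_filter] at hx ⊢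
    exact ⟨hx.1, hx.2.trans hab⟩
  · exact lt_irrefl _ (Finset.mem_filter.mp (h (Finset.mem_filter.mpr ⟨ha, hab⟩))).2

theorem exists_rank (n : ℕ) (e : Fin n → J) (he : Function.Injective e) (s : Finset J)
    (hs : s.card = n) (hes : ∀ k, e k ∈ s) :
    ∃ σ : Equiv.Perm (Fin n), ∀ m, rk s (e (σ m)) = (m : ℕ) := by
  have hlt : ∀ k, rk s (e k) < n := by
    intro k
    rw [← hs]
    refine Finset.card_lt_card ⟨Finset.filter_subset _ _, fun h => ?_⟩
    exact lt_irrefl _ (Finset.mem_filter.mp (h (hes k))).2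
  have hinj : Function.Injective fun k => (⟨rk s (e k), hlt k⟩ : Fin n) := by
    intro k k' h
    have h1 : rk s (e k) = rk s (e k') := congrArg Fin.val h
    rcases lt_trichotomy (e k) (e k') with h2 | h2 | h2
    · exact absurd h1 (fd5_rk_lt (hes k) h2).ne
    · exact he h2
    · exact absurd h1 (fd5_rk_lt (hes k') h2).ne'
  have hbij : Function.Bijective fun k => (⟨rk s (e k), hlt k⟩ : Fin n) :=
    Finite.injective_iff_bijective.mp hinj
  refine ⟨(Equiv.ofBijective _ hbij).symm, fun m => ?_⟩
  have h := (Equiv.ofBijective _ hbij).apply_symm_apply m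
  exact congrArg Fin.val h

theorem sign_ivs (n : ℕ) (e : Fin n → J) (he : Function.Injective e) (s : Finset J)
    (hs : s.card = n) (hes : ∀ k, e k ∈ s) (σ : Equiv.Perm (Fin n))
    (hσ : ∀ m, rk s (e (σ m)) = (m : ℕ)) :
    ((Equiv.Perm.sign σ : ℤˣ) : ℤ) = ivs e Finset.univ := by
  have hr : ∀ x, rk s (e x) = (σ⁻¹ x : Fin n) := by
    intro x
    have h := hσ (σ⁻¹ x)
    have h5 : σ (σ⁻¹ x) = x := σ.apply_symm_apply x
    rwa [h5] at h
  have hlt : ∀ x y, e x < e y ↔ σ⁻¹ x < σ⁻¹ y := by
    intro x y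
    rw [Fin.lt_def, ← hr x, ← hr y]
    refine ⟨fun h => fd5_rk_lt (hes x) h, fun h => ?_⟩
    rcases lt_trichotomy (e x) (e y) with h2 | h2 | h2
    · exact h2
    · exact absurd (by rw [h2]) h.ne
    · exact absurd (fd5_rk_lt (hes y) h2) (lt_asymm h)
  rw [← Equiv.Perm.sign_inv, Equiv.Perm.sign_eq_prod_prod_Ioi, Units.coe_prod, ivs]
  refine Finset.prod_congr rfl fun x _ => ?_
  rw [Units.coe_prod, ← Finset.prod_filter_mul_prod_filter_not Finset.univ (fun y => x < y)]
  have h1 : ∏ y ∈ Finset.univ.filter (fun y => ¬ x < y), (if x < y ∧ e y < e x then (-1 : ℤ) else 1) = 1 := by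
    refine Finset.prod_eq_one fun y hy => ?_
    rw [if_neg (fun h => (Finset.mem_filter.mp hy).2 h.1)]
  have h2 : Finset.univ.filter (fun y => x < y) = Finset.Ioi x := by
    ext y
    simp
  rw [h1, mul_one, h2]
  refine Finset.prod_congr rfl fun y hy => ?_
  have hxy : x < y := Finset.mem_Ioi.mp hy
  by_cases h : σ⁻¹ x < σ⁻¹ y
  · rw [if_pos h, if_neg (fun h' => absurd ((hlt y x).mp h'.2) (lt_asymm h))]
    rfl
  · have h3 : σ⁻¹ y < σ⁻¹ x := by
      rcases lt_trichotomy (σ⁻¹ x) (σ⁻¹ y) with h4 | h4 | h4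
      · exact absurd h4 h
      · exact absurd (σ⁻¹.injective h4) hxy.ne
      · exact h4
    rw [if_neg h, if_pos ⟨hxy, (hlt y x).mpr h3⟩]
    rfl

end AGE
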