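import Pool.Agent.AGE.Defs
import Pool.Agent.AGE.FTD
import Pool.Agent.AGE.FTE
import Pool.Agent.AGE.FDD
import Pool.Agent.AGE.C1b
import Pool.Agent.AGE.C7a

/-!
# AGE-FD6b: a nondegenerate cell is a signed permutation of the standard parametrization of its image

Plan. `real_aff`: `real_cube` with `a = Q.lo` (for `y ∈ Q.body`: `Q.lo k ≤ y k ≤ Q.hi k ≤ Q.lo k + 1`): `real g y j = Σ_A w_A * g (Q.lo + 1_A) j`, `w_A = ∏_{k ∈ A} (y k - Q.lo k) * ∏_{k ∉ A} (1 - (y k - Q.lo k))`; `w_A = 0` unless `A ⊆ Q.fr` (for `k ∉ Q.fr` `y k = Q.lo k`); for `A ⊆ Q.fr` the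
point `Q.lo + 1_A` is a vertex of `Q`, so the value is `α + β * (Q.lo i + 1_A i)`. `Σ_A w_A = 1` and `Σ_{A ∋ i} w_A = y i - Q.lo i` (`Finset.prod_add`/`Fintype.sum_finset..`: `∏_k (f k + g k) = Σ_A ∏_{A} f ∏_{Aᶜ} g`, `Finset.prod_univ_add`? use `Finset.prod_add` on `univ`; for the second sum take the same product
with `g i` replaced by `0`).
`wc_nd`: `Q = sc n p a c`, the point `y = insertNth p a (c + x)` is in `Q.body`. At `j ∉ S.fr`: `real_aff` with `α = S.lo j`, `β = 0` (`ND.oth`). At `j ∈ S.fr`: `j = e i`, `i ∈ Q.fr` (`ND.srj`), `i = p.succAbove k`, `k = σ m`; `rk S.fr j = m` (`hσ`), `m < n`; `y i = c k + x k`, `Q.lo i = c k`; `ND.vpl` or `ND.vmi` and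
`real_aff` with `β = 1` or `-1` give `S.lo j + x k` or `S.lo j + 1 - x k`.
`ivs_erase`, `prod_erase`: `Finset.univ.erase p` is the image of the strictly increasing injective map `p.succAbove` (`Fin.image_succAbove_univ`, `Finset.prod_map`/`Finset.prod_image`).
-/

set_option autoImplicit false

noncomputable section

namespace AGE

variable {V J : Type} [LinearOrder V] [LinearOrder J]


private theorem wsum [Fintype V] (t : V → ℝ) :
    ∑ A : Finset V, (∏ k ∈ A, t k) * (∏ k ∈ Aᶜ, (1 - t k)) = 1 := by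
  have h := Finset.prod_add t (fun k => 1 - t k) (Finset.univ : Finset V)
  rw [Finset.powerset_univ] at h
  simp only [Finset.compl_eq_univ_sdiff]
  rw [← h]
  exact Finset.prod_eq_one fun k _ => by ring

private theorem wsumi [Fintype V] (t : V → ℝ) (i : V) :
    ∑ A : Finset V, (∏ k ∈ A, t k) * (∏ k ∈ Aᶜ, (1 - t k)) * (if i ∈ A then 1 else 0) = t i := by
  have h := Finset.prod_add t (fun k => if k = i then 0 else 1 - t k) (Finset.univ : Finset V)
  rw [Finset.powerset_univ] at h
  have h1 : ∏ k, (t k + if k = i then 0 else 1 - t k) = t i := by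
    rw [Finset.prod_eq_single i]
    · simp
    · intro k _ hk
      rw [if_neg hk]
      ring
    · intro hk
      exact absurd (Finset.mem_univ i) hk
  rw [h1] at h
  rw [h]
  refine Finset.sum_congr rfl fun A _ => ?_
  rw [Finset.compl_eq_univ_sdiff]
  by_cases hA : i ∈ A
  · rw [if_pos hA, mul_one]
    congr 1
    refine Finset.prod_congr rfl fun k hk => ?_
    have hki : k ≠ i := by
      rintro rfl
      exact (Finset.mem_sdiff.mp hk).2 hA
    rw [if_neg hki]
  · rw [if_neg hA, mul_zero]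
    have : ∏ k ∈ Finset.univ \ A, (if k = i then (0 : ℝ) else 1 - t k) = 0 :=
      Finset.prod_eq_zero (Finset.mem_sdiff.mpr ⟨Finset.mem_univ i, hA⟩) (if_pos rfl)
    rw [this, mul_zero]

theorem real_aff [Fintype V] (g : (V → ℤ) → (J → ℤ)) (Q : Cube V) (j : J) (i : V) (α β : ℝ)
    (h : ∀ v, Q.Has v → (g v j : ℝ) = α + β * v i) (y : V → ℝ) (hy : y ∈ Q.body) :
    real g y j = α + β * y i := by
  have hlo : ∀ k, (Q.lo k : ℝ) ≤ y k := fun k => (hy k).1
  have hhi : ∀ k, y k ≤ (Q.hi k : ℝ) := fun k => (hy k).2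
  have hhl : ∀ k, (Q.hi k : ℝ) ≤ Q.lo k + 1 := by
    intro k
    unfold Cube.hi
    split_ifs
    · push_cast
      exact le_rfl
    · linarith
  rw [real_cube g Q.lo y (fun k => ⟨hlo k, (hhi k).trans (hhl k)⟩) j]
  have key : ∀ A : Finset V, (∏ k ∈ A, (y k - Q.lo k)) * (∏ k ∈ Aᶜ, (1 - (y k - Q.lo k))) *
      (g (fun k => Q.lo k + if k ∈ A then 1 else 0) j : ℝ) =
      (α + β * Q.lo i) * ((∏ k ∈ A, (y k - Q.lo k)) * (∏ k ∈ Aᶜ, (1 - (y k - Q.lo k)))) +
      β * ((∏ k ∈ A, (y k - Q.lo k)) * (∏ k ∈ Aᶜ, (1 - (y k - Q.lo k))) *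
        (if i ∈ A then 1 else 0)) := by
    intro A
    by_cases hA : A ⊆ Q.fr
    · have hH : Q.Has (fun k => Q.lo k + if k ∈ A then 1 else 0) := by
        intro k
        unfold Cube.hi
        by_cases hk : k ∈ A
        · simp only [if_pos hk, if_pos (hA hk)]
          constructor <;> omega
        · simp only [if_neg hk]
          constructor
          · omega
          · split_ifs <;> omega
      rw [h _ hH]
      push_cast
      split_ifs <;> ring
    · obtain ⟨k, hkA, hk⟩ := Finset.not_subset.mp hA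
      have h0 : y k - Q.lo k = 0 := by
        have h1 := hhi k
        unfold Cube.hi at h1
        rw [if_neg hk] at h1
        linarith [hlo k]
      rw [Finset.prod_eq_zero hkA h0]
      ring
  rw [Finset.sum_congr rfl fun A _ => key A, Finset.sum_add_distrib, ← Finset.mul_sum,
    ← Finset.mul_sum, wsum, wsumi]
  ring

theorem wc_nd (n : ℕ) (t : Cube J) (g : (Fin (n + 1) → ℤ) → (J → ℤ)) (p : Fin (n + 1)) (a : ℤ)
    (c : Fin n → ℤ) (S : Cube J) (e : Fin (n + 1) → J) (ε : Fin (n + 1) → ℤ)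
    (h : ND g (sc n p a c) S e ε) (σ : Equiv.Perm (Fin n))
    (hσ : ∀ m, rk S.fr (e (p.succAbove (σ m))) = (m : ℕ)) (x : Fin n → ℝ)
    (hx : ∀ k, 0 ≤ x k ∧ x k ≤ 1) :
    wc n t g p a c x =
      stc n t S (fun m => if ε (p.succAbove (σ m)) = -1 then 1 - x (σ m) else x (σ m)) := by
  have hlo : ∀ k, (sc n p a c).lo (p.succAbove k) = c k := fun k => by
    show Fin.insertNth (α := fun _ => ℤ) p a c (p.succAbove k) = c k
    exact Fin.insertNth_apply_succAbove (α := fun _ => ℤ) p a c k
  have hlp : (sc n p a c).lo p = a := by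
    show Fin.insertNth (α := fun _ => ℤ) p a c p = a
    exact Fin.insertNth_apply_same (α := fun _ => ℤ) p a c
  have hfr : (sc n p a c).fr = Finset.univ.erase p := rfl
  set y : Fin (n + 1) → ℝ :=
    Fin.insertNth (α := fun _ => ℝ) p (a : ℝ) (fun k => (c k : ℝ) + x k) with hy
  have hyk : ∀ k, y (p.succAbove k) = (c k : ℝ) + x k := fun k => by
    rw [hy]
    exact Fin.insertNth_apply_succAbove (α := fun _ => ℝ) p _ _ k
  have hyp : y p = a := by
    rw [hy]
    exact Fin.insertNth_apply_same (α := fun _ => ℝ) p _ _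
  have hbody : y ∈ (sc n p a c).body := by
    intro i
    rcases Fin.eq_self_or_eq_succAbove p i with rfl | ⟨k, rfl⟩
    · have h1 : (sc n i a c).hi i = a := by
        unfold Cube.hi
        rw [hfr, if_neg (Finset.notMem_erase i _), hlp]
      rw [h1, hlp, hyp]
      exact ⟨le_rfl, le_rfl⟩
    · have h1 : (sc n p a c).hi (p.succAbove k) = c k + 1 := by
        unfold Cube.hi
        rw [hfr, if_pos (Finset.mem_erase.mpr ⟨Fin.succAbove_ne p k, Finset.mem_univ _⟩), hlo]
      rw [h1, hlo, hyk]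
      push_cast
      constructor <;> linarith [(hx k).1, (hx k).2]
  funext j
  show real g y j - (t.lo j : ℝ) = ((S.lo j : ℝ) - (t.lo j : ℝ)) + (if (j : J) ∈ S.fr then
    xat (fun m => if ε (p.succAbove (σ m)) = -1 then 1 - x (σ m) else x (σ m)) (rk S.fr j) else 0)
  by_cases hj : (j : J) ∈ S.fr
  · rw [if_pos hj]
    obtain ⟨i, hi, hij⟩ := h.srj j hj
    rcases Fin.eq_self_or_eq_succAbove p i with rfl | ⟨k, rfl⟩
    · rw [hfr] at hi
      exact absurd hi (Finset.notMem_erase _ _)
    · obtain ⟨m, rfl⟩ := σ.surjective k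
      have hr : rk S.fr (j : J) = (m : ℕ) := by rw [← hij]; exact hσ m
      have hxa : xat (fun m => if ε (p.succAbove (σ m)) = -1 then 1 - x (σ m) else x (σ m))
          (rk S.fr j) = if ε (p.succAbove (σ m)) = -1 then 1 - x (σ m) else x (σ m) := by
        unfold xat
        rw [hr, dif_pos m.isLt]
      rw [hxa]
      rcases h.sgn _ hi with hε | hε
      · have h1 := real_aff g (sc n p a c) (j : J) (p.succAbove (σ m))
          ((S.lo j : ℝ) - (c (σ m) : ℝ)) 1 (fun v hv => by
            have h2 := h.vpl _ hi hε v hv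
            rw [hij, hlo] at h2
            rw [h2]
            push_cast
            ring) y hbody
        rw [h1, hyk, hε, if_neg (by norm_num)]
        ring
      · have h1 := real_aff g (sc n p a c) (j : J) (p.succAbove (σ m))
          ((S.lo j : ℝ) + 1 + (c (σ m) : ℝ)) (-1) (fun v hv => by
            have h2 := h.vmi _ hi hε v hv
            rw [hij, hlo] at h2
            rw [h2]
            push_cast
            ring) y hbody
        rw [h1, hyk, if_pos hε]
        ring
  · rw [if_neg hj]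
    have h1 := real_aff g (sc n p a c) (j : J) p (S.lo j : ℝ) 0 (fun v hv => by
      rw [h.oth j hj v hv]
      ring) y hbody
    rw [h1]
    ring

private theorem erase_eq (n : ℕ) (p : Fin (n + 1)) :
    Finset.univ.erase p = (Finset.univ : Finset (Fin n)).map (Fin.succAboveEmb p) := by
  ext i
  rw [Finset.mem_erase, Finset.mem_map]
  constructor
  · rintro ⟨h, _⟩
    rcases Fin.eq_self_or_eq_succAbove p i with h1 | ⟨k, rfl⟩
    · exact absurd h1 h
    · exact ⟨k, Finset.mem_univ k, rfl⟩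
  · rintro ⟨k, _, rfl⟩
    exact ⟨Fin.succAbove_ne p k, Finset.mem_univ _⟩

theorem ivs_erase (n : ℕ) (p : Fin (n + 1)) (e : Fin (n + 1) → J) :
    ivs e (Finset.univ.erase p) = ivs (fun k => e (p.succAbove k)) Finset.univ := by
  unfold ivs
  rw [erase_eq, Finset.prod_map]
  refine Finset.prod_congr rfl fun x _ => ?_
  rw [Finset.prod_map]
  refine Finset.prod_congr rfl fun y _ => ?_
  show (if p.succAbove x < p.succAbove y ∧ e (p.succAbove y) < e (p.succAbove x) then (-1 : ℤ)
    else 1) = _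
  simp only [Fin.succAbove_lt_succAbove_iff]

theorem prod_erase_eq (n : ℕ) (p : Fin (n + 1)) (ε : Fin (n + 1) → ℤ) :
    ∏ i ∈ Finset.univ.erase p, ε i = ∏ k : Fin n, ε (p.succAbove k) := by
  rw [erase_eq, Finset.prod_map]
  rfl

end AGE
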