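import Pool.Agent.AGE.Defs
import Pool.Agent.AGE.FTD
import Pool.Agent.AGE.FTE
import Pool.Agent.AGE.FDD
import Pool.Agent.AGE.C1a
import Pool.Agent.AGE.C1b
import Pool.Agent.AGE.C6a
import Pool.Agent.AGE.C6b
import Pool.Agent.AGE.C7a
import Pool.Agent.AGE.FT4
import Pool.Agent.AGE.FT5
import Pool.Agent.AGE.FT11
import Pool.Agent.AGE.FD3
import Pool.Agent.AGE.FD4
import Pool.Agent.AGE.FD5
import Pool.Agent.AGE.FD6a
import Pool.Agent.AGE.FD6b

/-!
# AGE-FD6c: the class of a boundary cell is the image of its push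

Plan. Let `Q = sc n p a c` (`sc_mem`), `S₀` from `hg`, `S` from `spn_eq`: `Spn g Q = Faces S`, `S.Le S₀`, so `S.Le t`, `S.dim ≤ n`. If `S.dim < n`: `push_zero` gives `φ (one Q) = 0`, and `cls_cel_deg` gives class `1` (`ofMul 1 = 0`): the values of `wc` on the unit cube are in `Yk F (n - 1)` because
`real g y ∈ S.body` (`real_mem`), continuity from `cw_wc`. If `S.dim = n`: `nd_exists` (`hA` for `Q`) gives `h : ND g Q S e ε`. `push_sign`: `φ (one Q) = (ivs e Q.fr * ∏ i ∈ Q.fr, ε i) • one S`, so the right side is that multiple of `Additive.ofMul (cls (cel (stc n t S)))`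
(`map_smul`, `Finsupp.linearCombination_single`). Let `e' = e ∘ p.succAbove` (injective, into `S.fr`, `ND.inj`, `ND.img`); `exists_rank` gives `σ`; put `A = {m : ε (p.succAbove (σ m)) = -1}`. By `wc_nd` and `cel_congr`: `cel (wc ..) = cel (fun x => W' (fun m => x (σ m)))` with
`W' y = stc n t S (fun m => if m ∈ A then 1 - y m else y m)`. `cls_cel_perm` (`cw_flips`, `cw_stc`) and `cls_flips`: the class is `((cls (cel (stc n t S)))^((-1)^card A))^(sign σ)`. `sign_ivs`, `ivs_erase`: `sign σ = ivs e' univ = ivs e Q.fr`; `prod_erase_eq`: `∏ i ∈ Q.fr, ε i = ∏ k, ε (p.succAbove k) = (-1)^card A`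
(reindex by `σ`; `Finset.prod_ite`/`Finset.prod_pow_boole`; every `ε` is `1` or `-1`). `ofMul_zpow`, `zpow_mul`.
-/

set_option autoImplicit false

noncomputable section

namespace AGE

variable {V J : Type} [LinearOrder V] [LinearOrder J]


private theorem FD6c_hi {n : ℕ} (p : Fin (n + 1)) (a : ℤ) (c : Fin n → ℤ) (x : Fin n → ℝ)
    (hx : ∀ k, 0 ≤ x k ∧ x k ≤ 1) :
    (Fin.insertNth (α := fun _ => ℝ) p (a : ℝ) (fun k => (c k : ℝ) + x k)) ∈
      (sc n p a c).body := by
  have hlo : ∀ k, (sc n p a c).lo (p.succAbove k) = c k := fun k =>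
    Fin.insertNth_apply_succAbove (α := fun _ => ℤ) p a c k
  have hlp : (sc n p a c).lo p = a := Fin.insertNth_apply_same (α := fun _ => ℤ) p a c
  have hfr : (sc n p a c).fr = Finset.univ.erase p := rfl
  intro i
  rcases Fin.eq_self_or_eq_succAbove p i with rfl | ⟨k, rfl⟩
  · have h1 : (sc n i a c).hi i = a := by
      unfold Cube.hi
      rw [hfr, if_neg (Finset.notMem_erase i _), hlp]
    rw [h1, hlp, Fin.insertNth_apply_same (α := fun _ => ℝ)]
    exact ⟨le_rfl, le_rfl⟩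
  · have h1 : (sc n p a c).hi (p.succAbove k) = c k + 1 := by
      unfold Cube.hi
      rw [hfr, if_pos (Finset.mem_erase.mpr ⟨Fin.succAbove_ne p k, Finset.mem_univ _⟩), hlo]
    rw [h1, hlo, Fin.insertNth_apply_succAbove (α := fun _ => ℝ)]
    push_cast
    constructor <;> linarith [(hx k).1, (hx k).2]

private theorem FD6c_yk {t S : Cube J} (hSt : S.Le t) {y : J → ℝ} (hy : y ∈ S.body) {k : ℕ}
    (hk : S.dim ≤ k) :
    (fun j : {j // j ∈ t.fr} => y j - (t.lo j : ℝ)) ∈ Yk {j // j ∈ t.fr} k := by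
  have hbd : ∀ j : {j // j ∈ t.fr}, (t.lo j : ℤ) ≤ S.lo j ∧ S.hi j ≤ t.lo j + 1 := by
    intro j
    have h1 := hSt j
    have h2 : t.hi j = t.lo j + 1 := if_pos j.2
    rw [h2] at h1
    exact h1
  refine ⟨fun j => ?_, S.fr.subtype (fun j => j ∈ t.fr), ?_, fun j hj => ?_⟩
  · obtain ⟨h1, h2⟩ := hbd j
    have h3 : (t.lo j : ℝ) ≤ S.lo j := by exact_mod_cast h1
    have h4 : (S.hi j : ℝ) ≤ t.lo j + 1 := by exact_mod_cast h2
    have h5 := hy j
    constructor
    · linarith [h5.1]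
    · linarith [h5.2]
  · rw [Finset.card_subtype]
    exact (Finset.card_filter_le _ _).trans hk
  · have h1 : (j : J) ∉ S.fr := fun h => hj (Finset.mem_subtype.2 h)
    have h2 : S.hi j = S.lo j := if_neg h1
    have h3 := hy j
    rw [h2] at h3
    have h4 : y j = S.lo j := le_antisymm h3.2 h3.1
    obtain ⟨h5, h6⟩ := hbd j
    rw [h2] at h6
    have h7 : S.lo j = t.lo j ∨ S.lo j = t.lo j + 1 := by omega
    show y j - (t.lo j : ℝ) = 0 ∨ y j - (t.lo j : ℝ) = 1
    rw [h4]
    rcases h7 with h7 | h7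
    · left
      rw [h7, sub_self]
    · right
      rw [h7]
      push_cast
      ring

theorem cls_cell (n M : ℕ) (hM : 0 < M) [Nontrivial (Fin n)] (hn : 1 ≤ n) (t : Cube J)
    (g : (Fin (n + 1) → ℤ) → (J → ℤ))
    (hg : Cel (Grd M (Sk n (Faces (ucube (n + 1))))) (Faces t) g)
    (hA : Ax (Grd M (Sk n (Faces (ucube (n + 1))))) g)
    (φ : Ch (Fin (n + 1)) →ₗ[ℤ] Ch J)
    (hφ : Push (Grd M (Sk n (Faces (ucube (n + 1))))) (Spn g) g φ) (p : Fin (n + 1)) (a : ℤ)
    (ha : a = 0 ∨ a = M) (c : Fin n → ℤ) (hc : ∀ k, 0 ≤ c k ∧ c k < M) :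
    Additive.ofMul (cls (yb {j // j ∈ t.fr} n) (cel (wc n t g p a c))) =
      XX n t (φ (one (sc n p a c))) := by
  obtain ⟨hQ, hQd⟩ := sc_mem n M hM p a ha c hc
  obtain ⟨S₀, hS₀, hS₀d, hS₀v⟩ := hg _ hQ
  obtain ⟨S, hSpn, hSS₀, hSv⟩ := spn_eq g _ S₀ hS₀v
  have hSt : S.Le t := Cube.le_trans' hSS₀ hS₀
  have hSd : S.dim ≤ n := (Cube.le_dim hSS₀).trans (hS₀d.trans hQd.le)
  have hcw := cw_wc n M hM hn t g hg p a ha c hc
  rcases hSd.lt_or_eq with hlt | heq
  · have h1 : φ (one (sc n p a c)) = 0 :=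
      push_zero _ g φ hφ _ hQ S hSv (by rw [hQd]; exact hlt)
    rw [h1, map_zero, cls_cel_deg hn _ hcw.con]
    · rfl
    · intro x hx
      exact FD6c_yk hSt (real_mem g _ S hSv _ (FD6c_hi p a c x hx)) (by omega)
  · obtain ⟨e, ε, h⟩ := nd_exists g _ S hSpn hSv (by rw [heq, hQd]) (hA _ hQ) (by omega)
    have hfr : (sc n p a c).fr = Finset.univ.erase p := rfl
    have hmem : ∀ k, p.succAbove k ∈ (sc n p a c).fr := fun k => by
      rw [hfr]
      exact Finset.mem_erase.mpr ⟨Fin.succAbove_ne p k, Finset.mem_univ _⟩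
    have hinj : Function.Injective (fun k => e (p.succAbove k)) := fun k k' hkk =>
      Fin.succAbove_right_injective (h.inj _ (hmem k) _ (hmem k') hkk)
    have hes : ∀ k, e (p.succAbove k) ∈ S.fr := fun k => h.img _ (hmem k)
    obtain ⟨σ, hσ⟩ := exists_rank n (fun k => e (p.succAbove k)) hinj S.fr heq hes
    have hcs := cw_stc n hn t S hSt heq
    obtain ⟨A, hAd⟩ : ∃ A : Finset (Fin n),
        A = Finset.univ.filter (fun m => ε (p.succAbove (σ m)) = -1) := ⟨_, rfl⟩
    have h1 : cel (wc n t g p a c) = cel (fun x => (fun y : Fin n → ℝ =>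
        stc n t S (fun m => if m ∈ A then 1 - y m else y m)) (fun m => x (σ m))) := by
      refine cel_congr _ _ fun x hx => ?_
      rw [wc_nd n t g p a c S e ε h σ hσ x hx]
      show stc n t S _ = stc n t S _
      congr 1
      funext m
      by_cases hm : ε (p.succAbove (σ m)) = -1
      · rw [if_pos hm, if_pos (by rw [hAd]; exact Finset.mem_filter.2 ⟨Finset.mem_univ m, hm⟩)]
      · rw [if_neg hm, if_neg fun hmA => hm (by
          rw [hAd] at hmA
          exact (Finset.mem_filter.1 hmA).2)]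
    have hz : ivs e (sc n p a c).fr * ∏ i ∈ (sc n p a c).fr, ε i =
        (-1) ^ A.card * ((Equiv.Perm.sign σ : ℤˣ) : ℤ) := by
      rw [hfr, ivs_erase, prod_erase_eq, sign_ivs n _ hinj S.fr heq hes σ hσ, mul_comm]
      congr 1
      rw [← Equiv.prod_comp σ (fun k => ε (p.succAbove k)), hAd]
      have h2 : ∀ m, ε (p.succAbove (σ m)) = if ε (p.succAbove (σ m)) = -1 then (-1 : ℤ) else 1 := by
        intro m
        rcases h.sgn _ (hmem (σ m)) with h3 | h3
        · rw [if_neg (by rw [h3]; norm_num), h3]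
        · rw [if_pos h3, h3]
      rw [Finset.prod_congr rfl fun m _ => h2 m, Finset.prod_ite, Finset.prod_const,
        Finset.prod_const_one, mul_one]
    rw [push_sign _ (closed_grd M _) g φ hφ _ hQ S e ε h, hz, h1,
      cls_cel_perm hn _ (cw_flips _ hcs A) σ, cls_flips hn _ hcs A, ← zpow_mul, map_smul]
    have h3 : XX n t (one S) =
        Additive.ofMul (cls (yb {j // j ∈ t.fr} n) (cel (stc n t S))) := by
      unfold XX one
      rw [Finsupp.linearCombination_single, one_smul]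
    rw [h3]
    rfl

end AGE
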