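import Pool.Agent.AGE.Defs
import Pool.Agent.AGE.FTD
import Pool.Agent.AGE.FTE
import Pool.Agent.AGE.FDD
import Pool.Agent.AGE.C1a
import Pool.Agent.AGE.C1b
import Pool.Agent.AGE.C5
import Pool.Agent.AGE.C7a
import Pool.Agent.AGE.FT11
import Pool.Agent.AGE.FD6a

/-!
# AGE-FD7: the subdivided boundary of the unit cube; side cells

Plan. `sub_bd_ucube`: `bd_one`, `bdQ (ucube (n+1)) = Σ p, sg univ p • (one (up p) - one (dn p))`, `sg univ p = (-1)^p` (`Finset.card` of `univ.filter (· < p)` is `p`: `Fin.card_Iio`), and `sub M (one (ucube.up p)) = subQ M ..` is the sum of `one (sc n p M c)`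
over `c ∈ [0, M)^n`: compare with the definition of `subQ` (reindex `k : {j // j ∈ univ.erase p} → ℕ` by `c j = k (p.succAbove j)`), or compare coefficients with `sub_one_apply` (`sc n p a c` for different `c` are different; a cube `Q` with `Q.InM M (up p)`, `Q.dim = n` is `sc n p M c`,
`c j = Q.lo (p.succAbove j)`).
`ins_cyc`: `Fin.insertNth` at `i.succ`: the value at `i.succ` is `a`; at `i.succ.succAbove k` it is `y (i.cycleRange.symm k)`; `k = 0`: `succAbove = 0`, `cycleRange.symm 0 = i`; `0 < k ≤ i`: `succAbove k = k.castSucc`, `cycleRange.symm k = k - 1`; `k > i`: `succAbove k = k.succ`, `cycleRange.symm k = k`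
(Mathlib: `Fin.succAbove_cycleRange`, `Fin.cycleRange_symm_zero`, `Fin.cycleRange_symm_succ`, `Fin.insertNth_apply_same`, `Fin.insertNth_apply_succAbove`; it has been checked by evaluation for `n = 4`). One may use `Fin.succAbove_cycleRange : i.succ.succAbove (i.cycleRange j) = swap 0 i.succ j.succ`: prove
the equality after substituting `k = i.cycleRange j`.
`side_cls`: by `ins_cyc` with `y k = c k + x k` the map is `x ↦ wc n t g i.succ a (c ∘ ρ) (x ∘ ρ)`, `ρ = i.cycleRange.symm`; `cls_cel_perm` with `σ = ρ`; `Fin.sign_cycleRange`, `Equiv.Perm.sign_symm`.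
-/

set_option autoImplicit false

noncomputable section

namespace AGE

variable {V J : Type} [LinearOrder V] [LinearOrder J]


private theorem FD7_mem (n : ℕ) (p : Fin (n + 1)) (j : Fin n) :
    p.succAbove j ∈ Finset.univ.erase p :=
  Finset.mem_erase.2 ⟨Fin.succAbove_ne p j, Finset.mem_univ _⟩

private theorem FD7_sub (n M : ℕ) (p : Fin (n + 1)) (lo : Fin (n + 1) → ℤ)
    (hlo : ∀ k, k ≠ p → lo k = 0) :
    subQ M (⟨lo, Finset.univ.erase p⟩ : Cube (Fin (n + 1))) =
      ∑ c ∈ Fintype.piFinset (fun _ : Fin n => Finset.Ico 0 (M : ℤ)),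
        one (sc n p ((M : ℤ) * lo p) c) := by
  unfold subQ
  refine Finset.sum_bij (fun k _ => fun j : Fin n => ((k ⟨p.succAbove j, FD7_mem n p j⟩ : ℕ) : ℤ))
    ?_ ?_ ?_ ?_
  · intro k hk
    rw [Fintype.mem_piFinset] at hk ⊢
    intro j
    have h1 := hk ⟨p.succAbove j, FD7_mem n p j⟩
    rw [Finset.mem_range] at h1
    rw [Finset.mem_Ico]
    constructor
    · exact Int.natCast_nonneg _
    · exact_mod_cast h1
  · intro k1 _ k2 _ h
    funext x
    obtain ⟨x, hx⟩ := x
    have hxp : x ≠ p := (Finset.mem_erase.1 hx).1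
    obtain ⟨j, hj⟩ := Fin.exists_succAbove_eq hxp
    subst hj
    have h1 := congrFun h j
    exact_mod_cast h1
  · intro c hc
    rw [Fintype.mem_piFinset] at hc
    have hex : ∀ x : {j // j ∈ Finset.univ.erase p}, ∃ j : Fin n, p.succAbove j = (x : Fin (n + 1)) :=
      fun x => Fin.exists_succAbove_eq (Finset.mem_erase.1 x.2).1
    choose r hr using hex
    refine ⟨fun x => (c (r x)).toNat, ?_, ?_⟩
    · rw [Fintype.mem_piFinset]
      intro x
      have h1 := hc (r x)
      rw [Finset.mem_Ico] at h1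
      rw [Finset.mem_range]
      omega
    · funext j
      have h1 : r ⟨p.succAbove j, FD7_mem n p j⟩ = j :=
        Fin.succAbove_right_injective (hr ⟨p.succAbove j, FD7_mem n p j⟩)
      have h2 := hc j
      rw [Finset.mem_Ico] at h2
      show ((c (r ⟨p.succAbove j, FD7_mem n p j⟩)).toNat : ℤ) = c j
      rw [h1]
      exact Int.toNat_of_nonneg h2.1
  · intro k _
    congr 1
    refine Cube.ext (funext fun x => ?_) rfl
    by_cases hx : x = p
    · subst hx
      show (M : ℤ) * lo x + (if h : x ∈ Finset.univ.erase x then ((k ⟨x, h⟩ : ℕ) : ℤ) else 0) =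
        Fin.insertNth (α := fun _ => ℤ) x ((M : ℤ) * lo x)
          (fun j : Fin n => ((k ⟨x.succAbove j, FD7_mem n x j⟩ : ℕ) : ℤ)) x
      rw [dif_neg (Finset.notMem_erase x _), add_zero, Fin.insertNth_apply_same]
    · obtain ⟨j, hj⟩ := Fin.exists_succAbove_eq hx
      subst hj
      show (M : ℤ) * lo (p.succAbove j) +
        (if h : p.succAbove j ∈ Finset.univ.erase p then ((k ⟨p.succAbove j, h⟩ : ℕ) : ℤ) else 0) =
        Fin.insertNth (α := fun _ => ℤ) p ((M : ℤ) * lo p)
          (fun j : Fin n => ((k ⟨p.succAbove j, FD7_mem n p j⟩ : ℕ) : ℤ)) (p.succAbove j)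
      rw [dif_pos (FD7_mem n p j), hlo _ hx, mul_zero, zero_add, Fin.insertNth_apply_succAbove]

private theorem FD7_sub_one (M : ℕ) (P : Cube J) : sub M (one P) = subQ M P := by
  unfold sub one
  rw [Finsupp.linearCombination_single, one_smul]

private theorem FD7_sg (n : ℕ) (p : Fin (n + 1)) : sg Finset.univ p = (-1 : ℤ) ^ (p : ℕ) := by
  unfold sg
  have h1 : (Finset.univ.filter fun x : Fin (n + 1) => x < p) = Finset.Iio p := by
    ext x
    simp
  rw [h1, Fin.card_Iio]

theorem sub_bd_ucube (n M : ℕ) (hM : 0 < M) :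
    sub M (bd (one (ucube (n + 1)))) = ∑ p : Fin (n + 1), (-1 : ℤ) ^ (p : ℕ) •
      ∑ c ∈ Fintype.piFinset (fun _ : Fin n => Finset.Ico 0 (M : ℤ)),
        (one (sc n p (M : ℤ) c) - one (sc n p 0 c)) := by
  rw [bd_one]
  unfold bdQ
  rw [map_sum]
  refine Finset.sum_congr rfl fun p _ => ?_
  rw [map_smul, map_sub, FD7_sub_one, FD7_sub_one]
  have h0 : sg (ucube (n + 1)).fr p = (-1 : ℤ) ^ (p : ℕ) := FD7_sg n p
  have h1 : subQ M ((ucube (n + 1)).up p) =
      ∑ c ∈ Fintype.piFinset (fun _ : Fin n => Finset.Ico 0 (M : ℤ)), one (sc n p (M : ℤ) c) := by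
    have h2 := FD7_sub n M p (Function.update (fun _ => (0 : ℤ)) p (0 + 1)) (fun k hk => by
      rw [Function.update_of_ne hk])
    have h3 : (Function.update (fun _ => (0 : ℤ)) p (0 + 1) : Fin (n + 1) → ℤ) p = 1 := by
      rw [Function.update_self, zero_add]
    rw [h3, mul_one] at h2
    exact h2
  have h2 : subQ M ((ucube (n + 1)).dn p) =
      ∑ c ∈ Fintype.piFinset (fun _ : Fin n => Finset.Ico 0 (M : ℤ)), one (sc n p 0 c) := by
    have h3 := FD7_sub n M p (fun _ => (0 : ℤ)) (fun _ _ => rfl)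
    rw [mul_zero] at h3
    exact h3
  rw [h0, h1, h2, Finset.sum_sub_distrib]

theorem ins_cyc {R : Type} (n : ℕ) (i : Fin n) (a : R) (y : Fin n → R) :
    (Fin.cons (α := fun _ => R) (y i) (Function.update y i a) : Fin (n + 1) → R) =
      Fin.insertNth (α := fun _ => R) i.succ a (fun k => y (i.cycleRange.symm k)) := by
  funext x
  by_cases hx : x = i.succ
  · subst hx
    rw [Fin.insertNth_apply_same, Fin.cons_succ, Function.update_self]
  · obtain ⟨k, hk⟩ := Fin.exists_succAbove_eq hx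
    obtain ⟨j, rfl⟩ := i.cycleRange.surjective k
    subst hk
    rw [Fin.insertNth_apply_succAbove, Equiv.symm_apply_apply, Fin.succAbove_cycleRange]
    by_cases hj : j = i
    · subst hj
      rw [Equiv.swap_apply_right, Fin.cons_zero]
    · rw [Equiv.swap_apply_of_ne_of_ne (Fin.succ_ne_zero j)
        (fun h => hj (Fin.succ_injective _ h)), Fin.cons_succ, Function.update_of_ne hj]

theorem side_cls (n M : ℕ) (hM : 0 < M) [Nontrivial (Fin n)] (hn : 1 ≤ n) (t : Cube J)
    (g : (Fin (n + 1) → ℤ) → (J → ℤ))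
    (hg : Cel (Grd M (Sk n (Faces (ucube (n + 1))))) (Faces t) g) (i : Fin n) (a : ℤ)
    (ha : a = 0 ∨ a = M) (c : Fin n → ℤ) (hc : ∀ k, 0 ≤ c k ∧ c k < M) :
    cls (yb {j // j ∈ t.fr} n) (cel (fun x => uu n t g ((c i : ℝ) + x i,
        Function.update (fun k => (c k : ℝ) + x k) i (a : ℝ)))) =
      (cls (yb {j // j ∈ t.fr} n) (cel (wc n t g i.succ a
        (fun k => c (i.cycleRange.symm k))))) ^ ((-1 : ℤ) ^ (i : ℕ)) := by
  have h1 : (fun x : Fin n → ℝ => uu n t g ((c i : ℝ) + x i,
        Function.update (fun k => (c k : ℝ) + x k) i (a : ℝ))) =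
      fun x => wc n t g i.succ a (fun k => c (i.cycleRange.symm k))
        (fun k => x (i.cycleRange.symm k)) := by
    funext x j
    unfold uu wc
    have h2 := ins_cyc n i (a : ℝ) (fun k => (c k : ℝ) + x k)
    simp only
    rw [h2]
  have h2 := cls_cel_perm hn (wc n t g i.succ a (fun k => c (i.cycleRange.symm k)))
    (cw_wc n M hM hn t g hg i.succ a ha _ (fun k => hc _)) i.cycleRange.symm
  rw [h1, h2, Equiv.Perm.sign_symm, Fin.sign_cycleRange]
  congr 1

end AGE
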