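import Pool.Agent.AGE.FTD
import Pool.Agent.AGE.FTE

/-!
# AGE-FT13: regularity of the maps `W0`, `W1` and of the cells of `u`

The point `(min (ds M x) M, clamp x)` lies on the boundary of the box (`E_mem`), and it has two integral coordinates if `x` has one (`E_int`: the sup norm is attained at a clamped coordinate).
-/

set_option autoImplicit false

noncomputable section

namespace AGE

open Set

variable {F N : Type} [Fintype F] [Fintype N] [DecidableEq N]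

private theorem FT13_clm_mem {M : ℝ} (hM : 0 ≤ M) (t : ℝ) : 0 ≤ clm 0 M t ∧ clm 0 M t ≤ M := by
  unfold clm
  exact ⟨le_max_left _ _, max_le hM (min_le_right _ _)⟩

private theorem FT13_clm_ne {M : ℝ} (hM : 0 ≤ M) {t : ℝ} (h : t ≠ clm 0 M t) : clm 0 M t = 0 ∨ clm 0 M t = M := by
  unfold clm at h ⊢
  rcases le_total t 0 with h0 | h0
  · left
    exact max_eq_left ((min_le_left _ _).trans h0)
  · rcases le_total t M with h1 | h1
    · exact absurd (by rw [min_eq_left h1, max_eq_right h0]) h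
    · right
      rw [min_eq_right h1, max_eq_right hM]

private theorem FT13_clm_int (M : ℕ) (k : ℤ) : ∃ m : ℤ, clm 0 (M : ℝ) (k : ℝ) = m := by
  refine ⟨max 0 (min k M), ?_⟩
  unfold clm
  push_cast
  rfl

private theorem FT13_clm_cont {M : ℝ} : Continuous fun x : N → ℝ => fun i => clm 0 M (x i) := by
  unfold clm
  fun_prop

private theorem FT13_ds_cont {M : ℝ} : Continuous fun x : N → ℝ => ds M x := by
  unfold ds clm
  fun_prop

private theorem FT13_ds_nonneg (M : ℝ) (x : N → ℝ) : 0 ≤ ds M x := norm_nonneg _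

/-- the norm is attained -/
private theorem FT13_att {M : ℝ} {x : N → ℝ} (h : 0 < ds M x) : ∃ j, |x j - clm 0 M (x j)| = ds M x := by
  by_contra hne
  push Not at hne
  have h1 : ∀ j, ‖x j - clm 0 M (x j)‖ < ds M x := by
    intro j
    refine lt_of_le_of_ne ?_ ?_
    · exact norm_le_pi_norm (fun i => x i - clm 0 M (x i)) j
    · rw [Real.norm_eq_abs]
      exact hne j
  have h2 : ds M x < ds M x := by
    conv_lhs => unfold ds
    exact (pi_norm_lt_iff h).2 h1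
  exact lt_irrefl _ h2

theorem E_mem (M : ℝ) (hM : 0 < M) (x : N → ℝ) :
    ((min (ds M x) M, fun i => clm 0 M (x i)) : ℝ × (N → ℝ)) ∈ Sx N M := by
  refine ⟨⟨⟨le_min (FT13_ds_nonneg M x) hM.le, min_le_right _ _⟩, fun i => FT13_clm_mem hM.le (x i)⟩, ?_⟩
  rcases le_or_gt M (ds M x) with h | h
  · right; left
    exact min_eq_right h
  · rcases (FT13_ds_nonneg M x).eq_or_lt with h0 | h0
    · left
      show min (ds M x) M = 0
      rw [← h0]
      exact min_eq_left hM.le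
    · right; right
      obtain ⟨j, hj⟩ := FT13_att h0
      refine ⟨j, FT13_clm_ne hM.le ?_⟩
      intro he
      rw [← he, sub_self, abs_zero] at hj
      linarith

theorem E_int (M : ℕ) (hM : 0 < M) (x : N → ℝ) (h : ∃ i, ∃ k : ℤ, x i = k) :
    ∃ a b : Option N, a ≠ b ∧
      (∃ k : ℤ, pc ((min (ds (M : ℝ) x) M, fun i => clm 0 M (x i)) : ℝ × (N → ℝ)) a = k) ∧
      (∃ k : ℤ, pc ((min (ds (M : ℝ) x) M, fun i => clm 0 M (x i)) : ℝ × (N → ℝ)) b = k) := by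
  obtain ⟨i, k, hi⟩ := h
  have hM0 : (0 : ℝ) < M := by exact_mod_cast hM
  have hI : ∃ m : ℤ, clm 0 (M : ℝ) (x i) = m := by
    rw [hi]
    exact FT13_clm_int M k
  rcases le_or_gt (M : ℝ) (ds (M : ℝ) x) with h | h
  · refine ⟨none, some i, by simp, ⟨(M : ℤ), ?_⟩, hI⟩
    show min (ds (M : ℝ) x) M = _
    rw [min_eq_right h]
    simp
  · rcases (FT13_ds_nonneg (M : ℝ) x).eq_or_lt with h0 | h0
    · refine ⟨none, some i, by simp, ⟨0, ?_⟩, hI⟩
      show min (ds (M : ℝ) x) M = _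
      rw [← h0, min_eq_left hM0.le]
      simp
    · obtain ⟨j, hj⟩ := FT13_att h0
      have hne : x j ≠ clm 0 (M : ℝ) (x j) := by
        intro he
        rw [← he, sub_self, abs_zero] at hj
        linarith
      by_cases hji : j = i
      · subst hji
        obtain ⟨m, hm⟩ := hI
        refine ⟨none, some j, by simp, ⟨|k - m|, ?_⟩, ⟨m, hm⟩⟩
        show min (ds (M : ℝ) x) M = _
        rw [min_eq_left h.le, ← hj, hm, hi]
        push_cast
        rfl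
      · have hJ : ∃ m : ℤ, clm 0 (M : ℝ) (x j) = m := by
          rcases FT13_clm_ne hM0.le hne with e | e
          · exact ⟨0, by rw [e]; simp⟩
          · exact ⟨(M : ℤ), by rw [e]; simp⟩
        exact ⟨some j, some i, by simpa using hji, hJ, hI⟩

theorem W0_ww {n : ℕ} (M : ℕ) (hM : 0 < M) (u : ℝ × (N → ℝ) → (F → ℝ)) (hu : UU n (M : ℝ) u) :
    WW n (W0 (M : ℝ) u) := by
  have hM0 : (0 : ℝ) < M := by exact_mod_cast hM
  refine ⟨?_, fun x => hu.mem _ (E_mem (M : ℝ) hM0 x), ?_⟩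
  · have hc : Continuous fun x : N → ℝ => ((min (ds (M : ℝ) x) M, fun i => clm 0 M (x i)) : ℝ × (N → ℝ)) :=
      (FT13_ds_cont.min continuous_const).prodMk FT13_clm_cont
    exact hu.con.comp_continuous hc (fun x => E_mem (M : ℝ) hM0 x)
  · intro x hx
    obtain ⟨a, b, hab, ha, hb⟩ := E_int M hM x hx
    exact hu.two _ (E_mem (M : ℝ) hM0 x) a b hab ha hb

theorem W1_ww {n : ℕ} (M : ℕ) (hM : 0 < M) (u : ℝ × (N → ℝ) → (F → ℝ)) (hu : UU n (M : ℝ) u) :
    WW n (W1 (M : ℝ) u) := by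
  have hM0 : (0 : ℝ) < M := by exact_mod_cast hM
  have hmem : ∀ x : N → ℝ, (((M : ℝ), fun i => clm 0 (M : ℝ) (x i)) : ℝ × (N → ℝ)) ∈ Sx N (M : ℝ) := fun x =>
    ⟨⟨⟨hM0.le, le_rfl⟩, fun i => FT13_clm_mem hM0.le (x i)⟩, Or.inr (Or.inl rfl)⟩
  refine ⟨?_, fun x => hu.mem _ (hmem x), ?_⟩
  · have hc : Continuous fun x : N → ℝ => (((M : ℝ), fun i => clm 0 (M : ℝ) (x i)) : ℝ × (N → ℝ)) :=
      continuous_const.prodMk FT13_clm_cont
    exact hu.con.comp_continuous hc hmem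
  · rintro x ⟨i, k, hi⟩
    refine hu.two _ (hmem x) none (some i) (by simp) ⟨(M : ℤ), ?_⟩ ?_
    · show (M : ℝ) = _
      simp
    · show ∃ m : ℤ, clm 0 (M : ℝ) (x i) = m
      rw [hi]
      exact FT13_clm_int M k

omit [Fintype F] [Fintype N] [DecidableEq N] in
private theorem FT13_cw {n : ℕ} {M : ℝ} {u : ℝ × (N → ℝ) → (F → ℝ)} (hu : UU n M u)
    (P : (N → ℝ) → ℝ × (N → ℝ)) (hP : Continuous P)
    (h1 : ∀ x : N → ℝ, (∀ i, 0 ≤ x i ∧ x i ≤ 1) → P x ∈ Sx N M)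
    (h2 : ∀ x : N → ℝ, (∀ i, 0 ≤ x i ∧ x i ≤ 1) → ∀ i, (∃ k : ℤ, x i = k) →
      ∃ a b : Option N, a ≠ b ∧ (∃ k : ℤ, pc (P x) a = k) ∧ (∃ k : ℤ, pc (P x) b = k)) :
    CW n (fun x => u (P x)) := by
  refine ⟨hu.con.comp hP.continuousOn h1, fun x hx => hu.mem _ (h1 x hx), ?_⟩
  rintro x hx ⟨i, hi⟩
  have hk : ∃ k : ℤ, x i = k := by
    rcases hi with e | e
    · exact ⟨0, by rw [e]; simp⟩
    · exact ⟨1, by rw [e]; simp⟩
  obtain ⟨a, b, hab, ha, hb⟩ := h2 x hx i hk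
  exact hu.two _ (h1 x hx) a b hab ha hb

private theorem FT13_box {M : ℕ} {c : ℤ} (hc : 0 ≤ c ∧ c < M) {t : ℝ} (ht : 0 ≤ t ∧ t ≤ 1) :
    0 ≤ (c : ℝ) + t ∧ (c : ℝ) + t ≤ M := by
  have h1 : (0 : ℝ) ≤ c := by exact_mod_cast hc.1
  have h2 : (c : ℝ) + 1 ≤ M := by
    have : c + 1 ≤ (M : ℤ) := hc.2
    exact_mod_cast this
  constructor
  · linarith [ht.1]
  · linarith [ht.2]

private theorem FT13_int {c : ℤ} {t : ℝ} (h : ∃ k : ℤ, t = k) : ∃ k : ℤ, (c : ℝ) + t = k := by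
  obtain ⟨k, hk⟩ := h
  exact ⟨c + k, by rw [hk]; push_cast; rfl⟩

theorem cw_top {n : ℕ} (M : ℕ) (hM : 0 < M) (u : ℝ × (N → ℝ) → (F → ℝ)) (hu : UU n (M : ℝ) u)
    (c : N → ℤ) (hc : ∀ i, 0 ≤ c i ∧ c i < M) :
    CW n (fun x => u ((M : ℝ), fun i => (c i : ℝ) + x i)) := by
  have hM0 : (0 : ℝ) < M := by exact_mod_cast hM
  refine FT13_cw hu (fun x => ((M : ℝ), fun i => (c i : ℝ) + x i)) (by fun_prop) ?_ ?_
  · intro x hx
    exact ⟨⟨⟨hM0.le, le_rfl⟩, fun i => FT13_box (hc i) (hx i)⟩, Or.inr (Or.inl rfl)⟩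
  · intro x _ i hi
    exact ⟨none, some i, by simp, ⟨(M : ℤ), by show (M : ℝ) = _; simp⟩, FT13_int hi⟩

theorem cw_bot {n : ℕ} (M : ℕ) (hM : 0 < M) (u : ℝ × (N → ℝ) → (F → ℝ)) (hu : UU n (M : ℝ) u)
    (c : N → ℤ) (hc : ∀ i, 0 ≤ c i ∧ c i < M) :
    CW n (fun x => u ((0 : ℝ), fun i => (c i : ℝ) + x i)) := by
  have hM0 : (0 : ℝ) < M := by exact_mod_cast hM
  refine FT13_cw hu (fun x => ((0 : ℝ), fun i => (c i : ℝ) + x i)) (by fun_prop) ?_ ?_
  · intro x hx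
    exact ⟨⟨⟨le_rfl, hM0.le⟩, fun i => FT13_box (hc i) (hx i)⟩, Or.inl rfl⟩
  · intro x _ i hi
    exact ⟨none, some i, by simp, ⟨0, by show (0 : ℝ) = _; simp⟩, FT13_int hi⟩

private theorem FT13_upd {M : ℕ} (c : N → ℤ) (i : N) (m : ℤ) (x : N → ℝ) (j : N) (hj : ∃ k : ℤ, x j = k)
    (v : ℝ) (hv : v = m) :
    ∃ a b : Option N, a ≠ b ∧
      (∃ k : ℤ, pc (((c i : ℝ) + x i, Function.update (fun k => (c k : ℝ) + x k) i v) : ℝ × (N → ℝ)) a = k) ∧
      (∃ k : ℤ, pc (((c i : ℝ) + x i, Function.update (fun k => (c k : ℝ) + x k) i v) : ℝ × (N → ℝ)) b = k) := by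
  have hI : ∃ k : ℤ, pc (((c i : ℝ) + x i, Function.update (fun k => (c k : ℝ) + x k) i v) :
      ℝ × (N → ℝ)) (some i) = k := by
    refine ⟨m, ?_⟩
    show Function.update (fun k => (c k : ℝ) + x k) i v i = m
    rw [Function.update_self, hv]
  by_cases hji : j = i
  · subst hji
    exact ⟨none, some j, by simp, FT13_int hj, hI⟩
  · refine ⟨some j, some i, by simpa using hji, ?_, hI⟩
    show ∃ k : ℤ, Function.update (fun k => (c k : ℝ) + x k) i v j = k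
    rw [Function.update_of_ne hji]
    exact FT13_int hj

private theorem FT13_side {M : ℕ} (c : N → ℤ) (hc : ∀ i, 0 ≤ c i ∧ c i < M) (i : N) {x : N → ℝ}
    (hx : ∀ i, 0 ≤ x i ∧ x i ≤ 1) {v : ℝ} (hv : v = 0 ∨ v = M) :
    (((c i : ℝ) + x i, Function.update (fun k => (c k : ℝ) + x k) i v) : ℝ × (N → ℝ)) ∈ Sx N (M : ℝ) := by
  have hM0 : (0 : ℝ) ≤ M := Nat.cast_nonneg M
  refine ⟨⟨FT13_box (hc i) (hx i), fun k => ?_⟩, Or.inr (Or.inr ⟨i, ?_⟩)⟩
  · show 0 ≤ Function.update (fun k => (c k : ℝ) + x k) i v k ∧ Function.update (fun k => (c k : ℝ) + x k) i v k ≤ M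
    by_cases hk : k = i
    · subst hk
      rw [Function.update_self]
      rcases hv with e | e
      · rw [e]; exact ⟨le_rfl, hM0⟩
      · rw [e]; exact ⟨hM0, le_rfl⟩
    · rw [Function.update_of_ne hk]
      exact FT13_box (hc k) (hx k)
  · show Function.update (fun k => (c k : ℝ) + x k) i v i = 0 ∨ Function.update (fun k => (c k : ℝ) + x k) i v i = M
    rw [Function.update_self]
    exact hv

private theorem FT13_ucont (c : N → ℤ) (i : N) (v : ℝ) :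
    Continuous fun x : N → ℝ => (((c i : ℝ) + x i, Function.update (fun k => (c k : ℝ) + x k) i v) : ℝ × (N → ℝ)) := by
  refine Continuous.prodMk (by fun_prop) ?_
  exact Continuous.update (by fun_prop) i continuous_const

theorem cw_up {n : ℕ} (M : ℕ) (hM : 0 < M) (u : ℝ × (N → ℝ) → (F → ℝ)) (hu : UU n (M : ℝ) u)
    (c : N → ℤ) (hc : ∀ i, 0 ≤ c i ∧ c i < M) (i : N) :
    CW n (fun x => u ((c i : ℝ) + x i, Function.update (fun k => (c k : ℝ) + x k) i (M : ℝ))) := by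
  refine FT13_cw hu (fun x => ((c i : ℝ) + x i, Function.update (fun k => (c k : ℝ) + x k) i (M : ℝ)))
    (FT13_ucont c i _) ?_ ?_
  · intro x hx
    exact FT13_side c hc i hx (Or.inr rfl)
  · intro x _ j hj
    exact FT13_upd (M := M) c i (M : ℤ) x j hj (M : ℝ) (by simp)

theorem cw_dn {n : ℕ} (M : ℕ) (hM : 0 < M) (u : ℝ × (N → ℝ) → (F → ℝ)) (hu : UU n (M : ℝ) u)
    (c : N → ℤ) (hc : ∀ i, 0 ≤ c i ∧ c i < M) (i : N) :
    CW n (fun x => u ((c i : ℝ) + x i, Function.update (fun k => (c k : ℝ) + x k) i (0 : ℝ))) := by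
  refine FT13_cw hu (fun x => ((c i : ℝ) + x i, Function.update (fun k => (c k : ℝ) + x k) i (0 : ℝ)))
    (FT13_ucont c i _) ?_ ?_
  · intro x hx
    exact FT13_side c hc i hx (Or.inl rfl)
  · intro x _ j hj
    exact FT13_upd (M := M) c i 0 x j hj (0 : ℝ) (by simp)

end AGE
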