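import Mathlib

/-!
# AGE-FT12: a product over a large box of a function which is trivial if two coordinates are outside of the small box

Plan. Split the index set `[-M, 2M)^N` by the finset `A` of the coordinates `i` with `¬ (0 ≤ c i < M)`: `card A = 0` gives the first product, `card A = 1` the second, `card A ≥ 2` gives `1`.
For example: `Finset.prod_subset` to the subset `{c : at most one coordinate outside}`, which is the disjoint union of the small box and, for each `i`, of the set `B i = {c : c i ∈ [-M, 0) ∪ [M, 2M), c j ∈ [0, M) (j ≠ i)}`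
(`Finset.prod_disjUnion`/`Finset.prod_biUnion`, pairwise disjoint because `M > 0`: `c ∈ B i` has `c i` outside and all the others inside). `B i` is the disjoint union of the images of the small box under
the injective maps `c ↦ update c i (c i + M)` and `c ↦ update c i (-1 - c i)` (`Finset.prod_image`, `Finset.prod_mul_distrib`). Alternatively induct on nothing but use `Finset.prod_bij`.
-/

set_option autoImplicit false

noncomputable section

namespace AGE

theorem prod_shell {G N : Type} [CommMonoid G] [Fintype N] [DecidableEq N] (M : ℤ) (hM : 0 < M)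
    (f : (N → ℤ) → G)
    (h : ∀ c : N → ℤ, ∀ i j : N, i ≠ j → ¬ (0 ≤ c i ∧ c i < M) → ¬ (0 ≤ c j ∧ c j < M) →
      f c = 1) :
    ∏ c ∈ Fintype.piFinset (fun _ : N => Finset.Ico (-M) (2 * M)), f c =
      (∏ c ∈ Fintype.piFinset (fun _ : N => Finset.Ico 0 M), f c) *
        ∏ i : N, ∏ c ∈ Fintype.piFinset (fun _ : N => Finset.Ico 0 M),
          (f (Function.update c i (c i + M)) * f (Function.update c i (-1 - c i))) := by
  classical
  have hS : ∀ c : N → ℤ, c ∈ Fintype.piFinset (fun _ : N => Finset.Ico (0 : ℤ) M) ↔
      ∀ j, 0 ≤ c j ∧ c j < M := by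
    intro c
    simp only [Fintype.mem_piFinset, Finset.mem_Ico]
  have hB : ∀ c : N → ℤ, c ∈ Fintype.piFinset (fun _ : N => Finset.Ico (-M) (2 * M)) ↔
      ∀ j, -M ≤ c j ∧ c j < 2 * M := by
    intro c
    simp only [Fintype.mem_piFinset, Finset.mem_Ico]
  set S0 := Fintype.piFinset (fun _ : N => Finset.Ico (0 : ℤ) M) with hS0
  set BB := Fintype.piFinset (fun _ : N => Finset.Ico (-M) (2 * M)) with hBB
  let P : N → Finset (N → ℤ) := fun i => BB.filter (fun c => M ≤ c i ∧ ∀ j, j ≠ i → 0 ≤ c j ∧ c j < M)
  let Q : N → Finset (N → ℤ) := fun i => BB.filter (fun c => c i < 0 ∧ ∀ j, j ≠ i → 0 ≤ c j ∧ c j < M)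
  have hP : ∀ i c, c ∈ P i ↔ ((∀ j, -M ≤ c j ∧ c j < 2 * M) ∧ M ≤ c i ∧ ∀ j, j ≠ i → 0 ≤ c j ∧ c j < M) := by
    intro i c
    simp only [P, Finset.mem_filter, hB]
  have hQ : ∀ i c, c ∈ Q i ↔ ((∀ j, -M ≤ c j ∧ c j < 2 * M) ∧ c i < 0 ∧ ∀ j, j ≠ i → 0 ≤ c j ∧ c j < M) := by
    intro i c
    simp only [Q, Finset.mem_filter, hB]
  have hPprod : ∀ i, ∏ c ∈ P i, f c = ∏ c ∈ S0, f (Function.update c i (c i + M)) := by
    intro i
    refine Finset.prod_nbij' (fun c => Function.update c i (c i - M))
      (fun c => Function.update c i (c i + M)) ?_ ?_ ?_ ?_ ?_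
    · intro c hc
      obtain ⟨h1, h2, h3⟩ := (hP i c).1 hc
      rw [hS]
      intro j
      by_cases hj : j = i
      · subst hj
        simp only [Function.update_self]
        have := h1 j
        omega
      · rw [Function.update_of_ne hj]
        exact h3 j hj
    · intro c hc
      rw [hS] at hc
      rw [hP]
      refine ⟨?_, ?_, ?_⟩
      · intro j
        by_cases hj : j = i
        · subst hj
          simp only [Function.update_self]
          have := hc j
          omega
        · rw [Function.update_of_ne hj]
          have := hc j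
          omega
      · simp only [Function.update_self]
        have := hc i
        omega
      · intro j hj
        rw [Function.update_of_ne hj]
        exact hc j
    · intro c _
      simp
    · intro c _
      simp
    · intro c _
      simp
  have hQprod : ∀ i, ∏ c ∈ Q i, f c = ∏ c ∈ S0, f (Function.update c i (-1 - c i)) := by
    intro i
    refine Finset.prod_nbij' (fun c => Function.update c i (-1 - c i))
      (fun c => Function.update c i (-1 - c i)) ?_ ?_ ?_ ?_ ?_
    · intro c hc
      obtain ⟨h1, h2, h3⟩ := (hQ i c).1 hc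
      rw [hS]
      intro j
      by_cases hj : j = i
      · subst hj
        simp only [Function.update_self]
        have := h1 j
        omega
      · rw [Function.update_of_ne hj]
        exact h3 j hj
    · intro c hc
      rw [hS] at hc
      rw [hQ]
      refine ⟨?_, ?_, ?_⟩
      · intro j
        by_cases hj : j = i
        · subst hj
          simp only [Function.update_self]
          have := hc j
          omega
        · rw [Function.update_of_ne hj]
          have := hc j
          omega
      · simp only [Function.update_self]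
        have := hc i
        omega
      · intro j hj
        rw [Function.update_of_ne hj]
        exact hc j
    · intro c _
      simp
    · intro c _
      simp
    · intro c _
      simp
  have hdPQ : ∀ i, Disjoint (P i) (Q i) := by
    intro i
    rw [Finset.disjoint_left]
    intro c h1 h2
    have a := ((hP i c).1 h1).2.1
    have b := ((hQ i c).1 h2).2.1
    omega
  have hout : ∀ i c, c ∈ P i ∪ Q i → (¬ (0 ≤ c i ∧ c i < M)) ∧ ∀ j, j ≠ i → 0 ≤ c j ∧ c j < M := by
    intro i c hc
    rcases Finset.mem_union.1 hc with hc | hc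
    · obtain ⟨_, h2, h3⟩ := (hP i c).1 hc
      exact ⟨fun h => by omega, h3⟩
    · obtain ⟨_, h2, h3⟩ := (hQ i c).1 hc
      exact ⟨fun h => by omega, h3⟩
  have hpd : Set.PairwiseDisjoint (↑(Finset.univ : Finset N)) (fun i => P i ∪ Q i) := by
    intro i _ j _ hij
    show Disjoint (P i ∪ Q i) (P j ∪ Q j)
    rw [Finset.disjoint_left]
    intro c h1 h2
    exact (hout i c h1).1 ((hout j c h2).2 i hij)
  have hd0 : Disjoint S0 (Finset.univ.biUnion (fun i => P i ∪ Q i)) := by
    rw [Finset.disjoint_left]
    intro c h1 h2
    obtain ⟨i, _, hi⟩ := Finset.mem_biUnion.1 h2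
    exact (hout i c hi).1 ((hS c).1 h1 i)
  have hsub : S0 ∪ Finset.univ.biUnion (fun i => P i ∪ Q i) ⊆ BB := by
    intro c hc
    rcases Finset.mem_union.1 hc with hc | hc
    · rw [hB]
      intro j
      have := (hS c).1 hc j
      omega
    · obtain ⟨i, _, hi⟩ := Finset.mem_biUnion.1 hc
      rcases Finset.mem_union.1 hi with hi | hi
      · exact (Finset.mem_filter.1 hi).1
      · exact (Finset.mem_filter.1 hi).1
  have h1 : ∏ c ∈ BB, f c = ∏ c ∈ S0 ∪ Finset.univ.biUnion (fun i => P i ∪ Q i), f c := by
    symm
    apply Finset.prod_subset hsub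
    intro c hc hn
    have hc' := (hB c).1 hc
    have hn1 : c ∉ S0 := fun h => hn (Finset.mem_union_left _ h)
    have hn2 : ∀ i, c ∉ P i ∧ c ∉ Q i := by
      intro i
      constructor
      · intro h
        exact hn (Finset.mem_union_right _ (Finset.mem_biUnion.2
          ⟨i, Finset.mem_univ i, Finset.mem_union_left _ h⟩))
      · intro h
        exact hn (Finset.mem_union_right _ (Finset.mem_biUnion.2
          ⟨i, Finset.mem_univ i, Finset.mem_union_right _ h⟩))
    rw [hS] at hn1
    push Not at hn1
    obtain ⟨i, hi⟩ := hn1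
    have hi' : ¬ (0 ≤ c i ∧ c i < M) := fun hh => absurd hh.2 (not_lt.2 (hi hh.1))
    have hj : ∃ j, j ≠ i ∧ ¬ (0 ≤ c j ∧ c j < M) := by
      by_contra hcon
      push Not at hcon
      by_cases hlo : M ≤ c i
      · exact (hn2 i).1 ((hP i c).2 ⟨hc', hlo, hcon⟩)
      · exact (hn2 i).2 ((hQ i c).2 ⟨hc', by
          by_contra hneg
          exact hi' ⟨by omega, by omega⟩, hcon⟩)
    obtain ⟨j, hji, hj'⟩ := hj
    exact h c i j (Ne.symm hji) hi' hj'
  rw [h1, Finset.prod_union hd0, Finset.prod_biUnion hpd]
  congr 1
  apply Finset.prod_congr rfl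
  intro i _
  rw [Finset.prod_union (hdPQ i), hPprod, hQprod, Finset.prod_mul_distrib]

end AGE
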