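import Pool.Agent.AGE.FTD
import Pool.Agent.AGE.FT4
import Pool.Agent.AGE.FT5

/-!
# AGE-FT6: a class is the product of the classes of the cells of the grid

A map with compact support which is the base point on all integer walls is cut along the walls, one direction after the
other; the last step translates every cell to the unit cube.
-/

set_option autoImplicit false

noncomputable section

namespace AGE

open Set

section

variable {E N : Type} [Fintype N] [DecidableEq N] [TopologicalSpace E] {Y : Set E} {b : Y} {α β : ℤ}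

/-- maps with support in the box `(α, β)^N` which are `b` on the integer walls -/
private structure FT6_P (b : Y) (α β : ℤ) (w : (N → ℝ) → E) : Prop where
  lp : Lp Y (b : E) (α : ℝ) (β : ℝ) w
  wl : ∀ x : N → ℝ, (∃ i, ∃ k : ℤ, x i = k) → w x = b

omit [Fintype N] [DecidableEq N] [TopologicalSpace E] in
private theorem FT6_clm_int (c d : ℤ) (k : ℤ) : ∃ m : ℤ, clm (c : ℝ) (d : ℝ) (k : ℝ) = m := by
  refine ⟨max c (min k d), ?_⟩
  unfold clm
  push_cast
  rfl

omit [Fintype N] [DecidableEq N] [TopologicalSpace E] in
private theorem FT6_clm_lo {c d : ℤ} (_hcd : c ≤ d) {t : ℝ} (ht : t ≤ c) : clm (c : ℝ) (d : ℝ) t = c := by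
  unfold clm
  exact max_eq_left ((min_le_left _ _).trans ht)

omit [Fintype N] [DecidableEq N] [TopologicalSpace E] in
private theorem FT6_clm_hi {c d : ℤ} (hcd : c ≤ d) {t : ℝ} (ht : (d : ℝ) ≤ t) : clm (c : ℝ) (d : ℝ) t = d := by
  unfold clm
  rw [min_eq_right ht]
  exact max_eq_right (by exact_mod_cast hcd)

omit [Fintype N] [DecidableEq N] [TopologicalSpace E] in
private theorem FT6_clm_cont (c d : ℝ) : Continuous (clm c d) := by
  unfold clm
  fun_prop

omit [Fintype N] in
private theorem FT6_inh {w : (N → ℝ) → E} (h : FT6_P b α β w) (j : N) {c d : ℤ} (hc : α ≤ c) (hcd : c ≤ d)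
    (hd : d ≤ β) : FT6_P b α β (fun x => w (Function.update x j (clm (c : ℝ) (d : ℝ) (x j)))) := by
  have hc' : (α : ℝ) ≤ c := by exact_mod_cast hc
  have hd' : (d : ℝ) ≤ β := by exact_mod_cast hd
  refine ⟨⟨?_, fun x => h.lp.mem _, ?_⟩, ?_⟩
  · exact h.lp.con.comp (continuous_id.update j ((FT6_clm_cont _ _).comp (continuous_apply j)))
  · rintro x ⟨i, hi⟩
    by_cases hij : i = j
    · subst hij
      refine h.wl _ ⟨i, ?_⟩
      rw [Function.update_self]
      rcases hi with hi | hi
      · exact ⟨c, FT6_clm_lo hcd (hi.trans hc')⟩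
      · exact ⟨d, FT6_clm_hi hcd (hd'.trans hi)⟩
    · refine h.lp.out _ ⟨i, ?_⟩
      rw [Function.update_of_ne hij]
      exact hi
  · rintro x ⟨i, k, hi⟩
    refine h.wl _ ⟨i, ?_⟩
    by_cases hij : i = j
    · subst hij
      rw [Function.update_self, hi]
      exact FT6_clm_int c d k
    · rw [Function.update_of_ne hij]
      exact ⟨k, hi⟩

omit [Fintype N] in
private theorem FT6_one_dir [Nontrivial N] (hαβ : α < β) {w : (N → ℝ) → E} (h : FT6_P b α β w) (j : N) (d : ℤ)
    (hd : α ≤ d) : d ≤ β → cls b (fun x => w (Function.update x j (clm (α : ℝ) (d : ℝ) (x j)))) =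
      ∏ k ∈ Finset.Ico α d, cls b (fun x => w (Function.update x j (clm (k : ℝ) ((k + 1 : ℤ) : ℝ) (x j)))) := by
  induction d, hd using Int.leInduction with
  | base =>
    intro _
    rw [Finset.Ico_self, Finset.prod_empty]
    have h1 : (fun x : N → ℝ => w (Function.update x j (clm (α : ℝ) (α : ℝ) (x j)))) = fun _ => (b : E) := by
      funext x
      refine h.wl _ ⟨j, α, ?_⟩
      rw [Function.update_self]
      unfold clm
      exact max_eq_left (min_le_right _ _)
    rw [h1]
    exact cls_one b
  | succ d hd ih =>
    intro hdβ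
    have h1 := ih (by omega)
    have hI : Finset.Ico α (d + 1) = insert d (Finset.Ico α d) := by
      ext k
      simp only [Finset.mem_Ico, Finset.mem_insert]
      omega
    have h2 := cls_cut b (α : ℝ) (β : ℝ) (by exact_mod_cast hαβ) _
      (FT6_inh h j le_rfl (show α ≤ d + 1 by omega) hdβ).lp j (d : ℝ) (fun x hx => by
        refine h.wl _ ⟨j, ?_⟩
        rw [Function.update_self, hx]
        exact FT6_clm_int α (d + 1) d)
    have e1 : (fun x : N → ℝ => (fun x : N → ℝ => w (Function.update x j (clm (α : ℝ) ((d + 1 : ℤ) : ℝ) (x j))))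
        (Function.update x j (min (x j) d))) = fun x => w (Function.update x j (clm (α : ℝ) (d : ℝ) (x j))) := by
      funext x
      show w (Function.update (Function.update x j (min (x j) d)) j
        (clm (α : ℝ) ((d + 1 : ℤ) : ℝ) (Function.update x j (min (x j) (d : ℝ)) j))) = _
      rw [Function.update_idem, Function.update_self]
      have h3 : clm (α : ℝ) ((d + 1 : ℤ) : ℝ) (min (x j) d) = clm (α : ℝ) (d : ℝ) (x j) := by
        unfold clm
        rw [min_assoc, min_eq_left (show (d : ℝ) ≤ ((d + 1 : ℤ) : ℝ) by push_cast; linarith)]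
      rw [h3]
    have e2 : (fun x : N → ℝ => (fun x : N → ℝ => w (Function.update x j (clm (α : ℝ) ((d + 1 : ℤ) : ℝ) (x j))))
        (Function.update x j (max (x j) d))) =
        fun x => w (Function.update x j (clm (d : ℝ) ((d + 1 : ℤ) : ℝ) (x j))) := by
      funext x
      show w (Function.update (Function.update x j (max (x j) d)) j
        (clm (α : ℝ) ((d + 1 : ℤ) : ℝ) (Function.update x j (max (x j) (d : ℝ)) j))) = _
      rw [Function.update_idem, Function.update_self]
      have h3 : clm (α : ℝ) ((d + 1 : ℤ) : ℝ) (max (x j) d) = clm (d : ℝ) ((d + 1 : ℤ) : ℝ) (x j) := by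
        have hαd : (α : ℝ) ≤ d := by exact_mod_cast hd
        have hdd : (d : ℝ) ≤ ((d + 1 : ℤ) : ℝ) := by
          push_cast
          linarith
        unfold clm
        rw [max_eq_right (hαd.trans (le_min (le_max_right _ _) hdd)), min_max_distrib_right, min_eq_left hdd, max_comm]
      rw [h3]
    rw [e1, e2] at h2
    rw [h2, h1, hI, Finset.prod_insert (by simp), mul_comm]

omit [Fintype N] in
private theorem FT6_dir [Nontrivial N] (hαβ : α < β) {w : (N → ℝ) → E} (h : FT6_P b α β w) (j : N) :
    cls b w = ∏ k ∈ Finset.Ico α β,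
      cls b (fun x => w (Function.update x j (clm (k : ℝ) ((k + 1 : ℤ) : ℝ) (x j)))) := by
  rw [← FT6_one_dir hαβ h j β hαβ.le le_rfl]
  refine congrArg _ (funext fun x => ?_)
  rcases le_total (x j) α with h1 | h1
  · rw [h.lp.out x ⟨j, Or.inl h1⟩]
    symm
    refine h.wl _ ⟨j, α, ?_⟩
    rw [Function.update_self]
    exact FT6_clm_lo hαβ.le h1
  · rcases le_total (β : ℝ) (x j) with h2 | h2
    · rw [h.lp.out x ⟨j, Or.inr h2⟩]
      symm
      refine h.wl _ ⟨j, β, ?_⟩
      rw [Function.update_self]
      exact FT6_clm_hi hαβ.le h2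
    · have h3 : clm (α : ℝ) (β : ℝ) (x j) = x j := by
        unfold clm
        rw [min_eq_left h2, max_eq_right h1]
      rw [h3, Function.update_eq_self]

/-- `w` clamped to the cell `c` in the directions of `s` -/
private def FT6_W (w : (N → ℝ) → E) (s : Finset N) (c : N → ℤ) (x : N → ℝ) : E :=
  w (fun i => if i ∈ s then clm (c i : ℝ) ((c i + 1 : ℤ) : ℝ) (x i) else x i)

omit [Fintype N] [TopologicalSpace E] in
private theorem FT6_W_insert (w : (N → ℝ) → E) {s : Finset N} {j : N} (hj : j ∉ s) (c : N → ℤ) (k : ℤ) (x : N → ℝ) :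
    FT6_W w (insert j s) (Function.update c j k) x =
      FT6_W w s c (Function.update x j (clm (k : ℝ) ((k + 1 : ℤ) : ℝ) (x j))) := by
  unfold FT6_W
  refine congrArg w (funext fun i => ?_)
  by_cases hij : i = j
  · subst hij
    rw [if_pos (Finset.mem_insert_self _ _), if_neg hj, Function.update_self, Function.update_self]
  · rw [Function.update_of_ne hij, Function.update_of_ne hij]
    by_cases hi : i ∈ s
    · rw [if_pos (Finset.mem_insert_of_mem hi), if_pos hi]
    · rw [if_neg hi, if_neg fun h1 => (Finset.mem_insert.1 h1).elim hij hi]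

omit [Fintype N] in
private theorem FT6_W_P {w : (N → ℝ) → E} (h : FT6_P b α β w) (s : Finset N) (c : N → ℤ)
    (hc : ∀ i ∈ s, α ≤ c i ∧ c i < β) : FT6_P b α β (FT6_W w s c) := by
  induction s using Finset.induction_on with
  | empty =>
    have h1 : FT6_W w ∅ c = w := by
      funext x
      unfold FT6_W
      simp
    rw [h1]
    exact h
  | insert j s hj ih =>
    have h1 := ih fun i hi => hc i (Finset.mem_insert_of_mem hi)
    have h2 := hc j (Finset.mem_insert_self _ _)
    have h3 := FT6_inh h1 j h2.1 (show c j ≤ c j + 1 by omega) (show c j + 1 ≤ β by omega)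
    have h4 : (fun x => FT6_W w s c (Function.update x j (clm (c j : ℝ) ((c j + 1 : ℤ) : ℝ) (x j)))) =
        FT6_W w (insert j s) c := by
      funext x
      rw [← FT6_W_insert w hj c (c j) x, Function.update_eq_self]
    rw [h4] at h3
    exact h3

private theorem FT6_all [Nontrivial N] (hαβ : α < β) {w : (N → ℝ) → E} (h : FT6_P b α β w) (s : Finset N) :
    cls b w = ∏ c ∈ Fintype.piFinset (fun i : N => if i ∈ s then Finset.Ico α β else {0}),
      cls b (FT6_W w s c) := by
  induction s using Finset.induction_on with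
  | empty =>
    have h1 : Fintype.piFinset (fun i : N => if i ∈ (∅ : Finset N) then Finset.Ico α β else ({0} : Finset ℤ)) =
        {0} := by
      ext c
      simp only [Fintype.mem_piFinset, Finset.notMem_empty, if_false, Finset.mem_singleton]
      exact ⟨fun h2 => funext h2, fun h2 i => by rw [h2]; rfl⟩
    have h2 : FT6_W w ∅ 0 = w := by
      funext x
      unfold FT6_W
      simp
    rw [h1, Finset.prod_singleton, h2]
  | insert j s hj ih =>
    have h1 : ∀ c ∈ Fintype.piFinset (fun i : N => if i ∈ s then Finset.Ico α β else ({0} : Finset ℤ)),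
        cls b (FT6_W w s c) = ∏ k ∈ Finset.Ico α β, cls b (FT6_W w (insert j s) (Function.update c j k)) := by
      intro c hc
      rw [Fintype.mem_piFinset] at hc
      have h2 : FT6_P b α β (FT6_W w s c) := FT6_W_P h s c fun i hi => by
        have h3 := hc i
        rw [if_pos hi, Finset.mem_Ico] at h3
        exact h3
      rw [FT6_dir hαβ h2 j]
      refine Finset.prod_congr rfl fun k _ => congrArg _ (funext fun x => ?_)
      rw [FT6_W_insert w hj c k x]
    rw [ih, Finset.prod_congr rfl h1, Finset.prod_sigma']
    refine Finset.prod_bij' (fun z _ => Function.update z.1 j z.2) (fun c _ => ⟨Function.update c j 0, c j⟩)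
      ?_ ?_ ?_ ?_ ?_
    · rintro ⟨c, k⟩ hz
      simp only [Finset.mem_sigma, Fintype.mem_piFinset] at hz ⊢
      intro i
      by_cases hij : i = j
      · subst hij
        rw [Function.update_self, if_pos (Finset.mem_insert_self _ _)]
        exact hz.2
      · rw [Function.update_of_ne hij]
        have h2 := hz.1 i
        by_cases hi : i ∈ s
        · rw [if_pos (Finset.mem_insert_of_mem hi)]
          rw [if_pos hi] at h2
          exact h2
        · rw [if_neg fun h3 => (Finset.mem_insert.1 h3).elim hij hi]
          rw [if_neg hi] at h2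
          exact h2
    · intro c hc
      simp only [Finset.mem_sigma, Fintype.mem_piFinset] at hc ⊢
      refine ⟨fun i => ?_, ?_⟩
      · by_cases hij : i = j
        · subst hij
          rw [Function.update_self, if_neg hj]
          exact Finset.mem_singleton_self _
        · rw [Function.update_of_ne hij]
          have h2 := hc i
          by_cases hi : i ∈ s
          · rw [if_pos (Finset.mem_insert_of_mem hi)] at h2
            rw [if_pos hi]
            exact h2
          · rw [if_neg fun h3 => (Finset.mem_insert.1 h3).elim hij hi] at h2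
            rw [if_neg hi]
            exact h2
      · have h2 := hc j
        rw [if_pos (Finset.mem_insert_self _ _)] at h2
        exact h2
    · rintro ⟨c, k⟩ hz
      simp only [Finset.mem_sigma, Fintype.mem_piFinset] at hz
      have h2 := hz.1 j
      rw [if_neg hj, Finset.mem_singleton] at h2
      simp only [Function.update_idem, Function.update_self]
      rw [← h2, Function.update_eq_self]
    · intro c _
      simp only [Function.update_idem, Function.update_eq_self]
    · rintro ⟨c, k⟩ _
      rfl

end

theorem cls_grid {E N : Type} [Fintype N] [DecidableEq N] [Nontrivial N] [TopologicalSpace E]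
    {Y : Set E} (b : Y) (α β : ℤ) (hαβ : α < β) (w : (N → ℝ) → E)
    (h : Lp Y (b : E) (α : ℝ) (β : ℝ) w)
    (hw : ∀ x : N → ℝ, (∃ i, ∃ k : ℤ, x i = k) → w x = b) :
    cls b w = ∏ c ∈ Fintype.piFinset (fun _ : N => Finset.Ico α β),
      cls b (fun x => w (fun i => (c i : ℝ) + cl (x i))) := by
  have h1 := FT6_all hαβ (⟨h, hw⟩ : FT6_P b α β w) Finset.univ
  simp only [Finset.mem_univ, if_true] at h1
  rw [h1]
  refine Finset.prod_congr rfl fun c _ => ?_
  have h2 : FT6_W w Finset.univ c = fun x => (fun x : N → ℝ => w (fun i => (c i : ℝ) + cl (x i)))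
      (fun i => x i + (-(c i : ℝ))) := by
    funext x
    unfold FT6_W
    refine congrArg w (funext fun i => ?_)
    rw [if_pos (Finset.mem_univ i)]
    unfold clm cl
    push_cast
    rw [← max_add_add_left, ← min_add_add_left, add_zero]
    congr 2
    ring
  rw [h2]
  have h3 : Lp Y (b : E) 0 1 (fun x : N → ℝ => w (fun i => (c i : ℝ) + cl (x i))) := by
    refine ⟨?_, fun x => h.mem _, ?_⟩
    · refine h.con.comp (continuous_pi fun i => ?_)
      unfold cl
      fun_prop
    · rintro x ⟨i, hi⟩
      refine hw _ ⟨i, ?_⟩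
      rcases hi with hi | hi
      · refine ⟨c i, ?_⟩
        unfold cl
        rw [max_eq_left ((min_le_left _ _).trans hi), add_zero]
      · refine ⟨c i + 1, ?_⟩
        unfold cl
        rw [min_eq_right hi, max_eq_right zero_le_one]
        push_cast
        ring
  exact cls_shift b 0 1 one_pos _ h3 (fun i => -(c i : ℝ))

end AGE
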