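import Pool.Agent.AGE.FTD
import Pool.Agent.AGE.FTE
import Pool.Agent.AGE.FT4
import Pool.Agent.AGE.FT5
import Pool.Agent.AGE.FT6
import Pool.Agent.AGE.FT7
import Pool.Agent.AGE.FT8
import Pool.Agent.AGE.FT9
import Pool.Agent.AGE.FT10
import Pool.Agent.AGE.FT11
import Pool.Agent.AGE.FT12
import Pool.Agent.AGE.FT13

/-!
# AGE-FT14: the classes of the two maps `W0` and `W1`

`cls_hat` is `cls_grid` for `hat M W`. For `W1` all cells outside the small box are degenerate.
For `W0` the cells with two coordinates outside are degenerate (`prod_shell`), the small box gives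
the bottom and the cells with one coordinate outside give the sides; on the lower sides the
coordinate is reversed (`cls_cel_flip`).
-/

set_option autoImplicit false

noncomputable section

namespace AGE

open Set

variable {F N : Type} [Fintype F] [Fintype N] [DecidableEq N] [Nontrivial N]

private theorem FT14_clm_int (a b k : ℤ) : ∃ m : ℤ, clm (a : ℝ) (b : ℝ) (k : ℝ) = m := by
  refine ⟨max a (min k b), ?_⟩
  unfold clm
  push_cast
  rfl

private theorem FT14_clm_of {a b x : ℝ} (h1 : a ≤ x) (h2 : x ≤ b) : clm a b x = x := by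
  unfold clm
  rw [min_eq_left h2, max_eq_right h1]

private theorem FT14_clm_lo {M x : ℝ} (h : x ≤ 0) : clm 0 M x = 0 := by
  unfold clm
  exact max_eq_left ((min_le_left _ _).trans h)

private theorem FT14_clm_hi {M x : ℝ} (hM : 0 ≤ M) (h : M ≤ x) : clm 0 M x = M := by
  unfold clm
  rw [min_eq_right h]
  exact max_eq_right hM

private theorem FT14_clm_mem {M : ℝ} (hM : 0 ≤ M) (x : ℝ) : 0 ≤ clm 0 M x ∧ clm 0 M x ≤ M := by
  unfold clm
  exact ⟨le_max_left _ _, max_le hM (min_le_right _ _)⟩

/-- outside the small box the clamped coordinate is integral -/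
private theorem FT14_out (M : ℕ) (c : ℤ) (hc : ¬ (0 ≤ c ∧ c < M)) {x : ℝ} (h0 : 0 ≤ x)
    (h1 : x ≤ 1) : ∃ k : ℤ, clm 0 (M : ℝ) ((c : ℝ) + x) = k := by
  by_cases h : 0 ≤ c
  · have h2 : (M : ℤ) ≤ c := by
      by_contra h3
      exact hc ⟨h, not_le.mp h3⟩
    have h3 : (M : ℝ) ≤ c := by exact_mod_cast h2
    exact ⟨M, by rw [FT14_clm_hi (Nat.cast_nonneg M) (by linarith)]; simp⟩
  · have h2 : c ≤ -1 := by omega
    have h3 : (c : ℝ) ≤ -1 := by exact_mod_cast h2
    exact ⟨0, by rw [FT14_clm_lo (by linarith)]; simp⟩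

/-- inside the small box the clamp does nothing -/
private theorem FT14_in (M : ℕ) (c : ℤ) (hc : 0 ≤ c ∧ c < M) {x : ℝ} (h0 : 0 ≤ x)
    (h1 : x ≤ 1) : clm 0 (M : ℝ) ((c : ℝ) + x) = (c : ℝ) + x := by
  have h2 : (0 : ℝ) ≤ c := by exact_mod_cast hc.1
  have h3 : (c : ℝ) + 1 ≤ M := by exact_mod_cast hc.2
  exact FT14_clm_of (by linarith) (by linarith)

omit [DecidableEq N] [Nontrivial N] in
/-- the distance when only one coordinate is outside -/
private theorem FT14_ds (M : ℝ) (x : N → ℝ) (i : N) (h : ∀ k, k ≠ i → clm 0 M (x k) = x k) :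
    ds M x = |x i - clm 0 M (x i)| := by
  unfold ds
  apply le_antisymm
  · refine (pi_norm_le_iff_of_nonneg (abs_nonneg _)).mpr fun k => ?_
    by_cases hk : k = i
    · subst hk
      exact le_of_eq (Real.norm_eq_abs _)
    · rw [h k hk, sub_self, norm_zero]
      exact abs_nonneg _
  · have := norm_le_pi_norm (fun i => x i - clm 0 M (x i)) i
    rwa [Real.norm_eq_abs] at this

theorem cls_hat {n : ℕ} (hn : 1 ≤ n) (M : ℕ) (hM : 0 < M) (W : (N → ℝ) → (F → ℝ))
    (hW : WW n W) :
    cls (yb F n) (hat (M : ℝ) W) =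
      ∏ c ∈ Fintype.piFinset (fun _ : N => Finset.Ico (-(M : ℤ)) (2 * (M : ℤ))),
        cls (yb F n) (cel (fun x => W (fun i => (c i : ℝ) + x i))) := by
  have hlp := hat_lp hn M hM W hW
  have e1 : ((-(M : ℤ) : ℤ) : ℝ) = -(M : ℝ) := by push_cast; rfl
  have e2 : ((2 * (M : ℤ) : ℤ) : ℝ) = 2 * (M : ℝ) := by push_cast; rfl
  rw [cls_grid (yb F n) (-(M : ℤ)) (2 * (M : ℤ)) (by omega) (hat (M : ℝ) W)
    (by rw [e1, e2]; exact hlp) ?_]
  · refine Finset.prod_congr rfl fun c hc => ?_
    congr 1
    funext x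
    show shp W (fun i => clm (-(M : ℝ)) (2 * (M : ℝ)) ((c i : ℝ) + cl (x i))) =
      shp (fun y => W (fun i => (c i : ℝ) + y i)) (fun i => cl (x i))
    rw [← shp_shift]
    congr 1
    funext i
    have hi := Finset.mem_Ico.mp (Fintype.mem_piFinset.mp hc i)
    have h1 : -(M : ℝ) ≤ c i := by
      rw [← e1]
      exact_mod_cast hi.1
    have h2 : (c i : ℝ) + 1 ≤ 2 * (M : ℝ) := by
      rw [← e2]
      exact_mod_cast hi.2
    have h3 := cl_mem (x i)
    exact FT14_clm_of (by linarith) (by linarith)
  · rintro x ⟨i, k, hk⟩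
    refine shp_wall W _ ⟨i, ?_⟩
    show ∃ m : ℤ, clm (-(M : ℝ)) (2 * (M : ℝ)) (x i) = m
    rw [hk, ← e1, ← e2]
    exact FT14_clm_int _ _ k

theorem cls_W1 {n : ℕ} (hn : 1 ≤ n) (M : ℕ) (hM : 0 < M) (u : ℝ × (N → ℝ) → (F → ℝ))
    (hu : UU n (M : ℝ) u) :
    cls (yb F n) (hat (M : ℝ) (W1 (M : ℝ) u)) =
      ∏ c ∈ Fintype.piFinset (fun _ : N => Finset.Ico 0 (M : ℤ)),
        cls (yb F n) (cel (fun x => u ((M : ℝ), fun i => (c i : ℝ) + x i))) := by
  have hM0 : (0 : ℝ) ≤ M := Nat.cast_nonneg M
  rw [cls_hat hn M hM _ (W1_ww M hM u hu)]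
  symm
  have hsub : Fintype.piFinset (fun _ : N => Finset.Ico 0 (M : ℤ)) ⊆
      Fintype.piFinset (fun _ : N => Finset.Ico (-(M : ℤ)) (2 * (M : ℤ))) := by
    refine Fintype.piFinset_subset _ _ fun _ => Finset.Ico_subset_Ico ?_ ?_ <;> omega
  rw [← Finset.prod_subset hsub]
  · refine Finset.prod_congr rfl fun c hc => ?_
    congr 1
    refine cel_congr _ _ fun x hx => ?_
    show u ((M : ℝ), fun i => (c i : ℝ) + x i) = u ((M : ℝ), fun i => clm 0 (M : ℝ) ((c i : ℝ) + x i))
    congr 2
    funext i
    have hi := Finset.mem_Ico.mp (Fintype.mem_piFinset.mp hc i)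
    exact (FT14_in M (c i) hi (hx i).1 (hx i).2).symm
  · intro c _ hc
    have h1 : ∃ i, ¬ (0 ≤ c i ∧ c i < M) := by
      by_contra hcon
      push Not at hcon
      refine hc (Fintype.mem_piFinset.mpr fun i => Finset.mem_Ico.mpr ?_)
      exact hcon i
    obtain ⟨i, hi⟩ := h1
    refine cls_cel_deg hn _ ?_ ?_
    · refine Continuous.continuousOn ?_
      refine (W1_ww M hM u hu).con.comp ?_
      fun_prop
    · intro x hx
      refine hu.two ((M : ℝ), fun i => clm 0 (M : ℝ) ((c i : ℝ) + x i)) ?_ none (some i) (by simp) ⟨M, ?_⟩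
        (FT14_out M (c i) hi (hx i).1 (hx i).2)
      · exact ⟨⟨⟨hM0, le_rfl⟩, fun k => FT14_clm_mem hM0 _⟩, Or.inr (Or.inl rfl)⟩
      · show (M : ℝ) = _
        simp

theorem cls_W0 {n : ℕ} (hn : 1 ≤ n) (M : ℕ) (hM : 0 < M) (u : ℝ × (N → ℝ) → (F → ℝ))
    (hu : UU n (M : ℝ) u) :
    cls (yb F n) (hat (M : ℝ) (W0 (M : ℝ) u)) =
      (∏ c ∈ Fintype.piFinset (fun _ : N => Finset.Ico 0 (M : ℤ)),
        cls (yb F n) (cel (fun x => u ((0 : ℝ), fun i => (c i : ℝ) + x i)))) *
      ∏ i : N, ∏ c ∈ Fintype.piFinset (fun _ : N => Finset.Ico 0 (M : ℤ)),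
        (cls (yb F n) (cel (fun x =>
            u ((c i : ℝ) + x i, Function.update (fun k => (c k : ℝ) + x k) i (M : ℝ)))) *
          (cls (yb F n) (cel (fun x =>
            u ((c i : ℝ) + x i, Function.update (fun k => (c k : ℝ) + x k) i (0 : ℝ)))))⁻¹) := by
  have hM0 : (0 : ℝ) ≤ M := Nat.cast_nonneg M
  have hM1 : (0 : ℝ) < M := by exact_mod_cast hM
  rw [cls_hat hn M hM _ (W0_ww M hM u hu),
    prod_shell (M : ℤ) (by exact_mod_cast hM)
      (fun c : N → ℤ => cls (yb F n) (cel (fun x => W0 (M : ℝ) u (fun i => (c i : ℝ) + x i))))]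
  · congr 1
    · refine Finset.prod_congr rfl fun c hc => ?_
      congr 1
      refine cel_congr _ _ fun x hx => ?_
      have hin : ∀ k, clm 0 (M : ℝ) ((c k : ℝ) + x k) = (c k : ℝ) + x k := fun k =>
        FT14_in M (c k) (Finset.mem_Ico.mp (Fintype.mem_piFinset.mp hc k)) (hx k).1 (hx k).2
      have hds : ds (M : ℝ) (fun i => (c i : ℝ) + x i) = 0 := by
        obtain ⟨i, -⟩ := exists_pair_ne N
        rw [FT14_ds _ _ i (fun k _ => hin k), hin i, sub_self, abs_zero]
      show u (min (ds (M : ℝ) (fun i => (c i : ℝ) + x i)) M,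
        fun i => clm 0 (M : ℝ) ((c i : ℝ) + x i)) = u ((0 : ℝ), fun i => (c i : ℝ) + x i)
      rw [hds, min_eq_left hM0]
      simp only [hin]
    · refine Finset.prod_congr rfl fun i _ => Finset.prod_congr rfl fun c hc => ?_
      have hcm : ∀ k, 0 ≤ c k ∧ c k < M := fun k =>
        Finset.mem_Ico.mp (Fintype.mem_piFinset.mp hc k)
      have hci0 : (0 : ℝ) ≤ c i := by exact_mod_cast (hcm i).1
      have hciM : (c i : ℝ) + 1 ≤ M := by exact_mod_cast (hcm i).2
      congr 1
      · congr 1
        refine cel_congr _ _ fun x hx => ?_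
        have hi := hx i
        have hin : ∀ k, k ≠ i → clm 0 (M : ℝ) ((c k : ℝ) + x k) = (c k : ℝ) + x k := fun k _ =>
          FT14_in M (c k) (hcm k) (hx k).1 (hx k).2
        have hco : ∀ k, ((Function.update c i (c i + (M : ℤ)) k : ℤ) : ℝ) + x k =
            if k = i then (c i : ℝ) + M + x i else (c k : ℝ) + x k := by
          intro k
          by_cases hk : k = i
          · subst hk
            rw [if_pos rfl, Function.update_self]
            push_cast
            rfl
          · rw [if_neg hk, Function.update_of_ne hk]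
        have hclm : (fun k => clm 0 (M : ℝ) (((Function.update c i (c i + (M : ℤ)) k : ℤ) : ℝ) + x k)) =
            Function.update (fun k => (c k : ℝ) + x k) i (M : ℝ) := by
          funext k
          rw [hco k]
          by_cases hk : k = i
          · subst hk
            rw [if_pos rfl, Function.update_self]
            exact FT14_clm_hi hM0 (by linarith)
          · rw [if_neg hk, Function.update_of_ne hk]
            exact hin k hk
        have hds : ds (M : ℝ) (fun k => ((Function.update c i (c i + (M : ℤ)) k : ℤ) : ℝ) + x k) =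
            (c i : ℝ) + x i := by
          rw [FT14_ds _ _ i]
          · rw [hco i, if_pos rfl, FT14_clm_hi hM0 (by linarith)]
            rw [show (c i : ℝ) + M + x i - M = c i + x i by ring]
            exact abs_of_nonneg (by linarith)
          · intro k hk
            rw [hco k, if_neg hk]
            exact hin k hk
        show u (min (ds (M : ℝ) (fun k => ((Function.update c i (c i + (M : ℤ)) k : ℤ) : ℝ) + x k)) M,
          fun k => clm 0 (M : ℝ) (((Function.update c i (c i + (M : ℤ)) k : ℤ) : ℝ) + x k)) = _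
        rw [hds, hclm, min_eq_left (by linarith)]
      · rw [← cls_cel_flip hn _ (cw_dn M hM u hu c hcm i) i]
        congr 1
        refine cel_congr _ _ fun x hx => ?_
        have hi := hx i
        have hin : ∀ k, k ≠ i → clm 0 (M : ℝ) ((c k : ℝ) + x k) = (c k : ℝ) + x k := fun k _ =>
          FT14_in M (c k) (hcm k) (hx k).1 (hx k).2
        have hco : ∀ k, ((Function.update c i (-1 - c i) k : ℤ) : ℝ) + x k =
            if k = i then -1 - (c i : ℝ) + x i else (c k : ℝ) + x k := by
          intro k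
          by_cases hk : k = i
          · subst hk
            rw [if_pos rfl, Function.update_self]
            push_cast
            rfl
          · rw [if_neg hk, Function.update_of_ne hk]
        have hclm : (fun k => clm 0 (M : ℝ) (((Function.update c i (-1 - c i) k : ℤ) : ℝ) + x k)) =
            Function.update (fun k => (c k : ℝ) + (Function.update x i (1 - x i)) k) i (0 : ℝ) := by
          funext k
          rw [hco k]
          by_cases hk : k = i
          · subst hk
            rw [if_pos rfl, Function.update_self]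
            exact FT14_clm_lo (by linarith)
          · rw [if_neg hk, Function.update_of_ne hk, Function.update_of_ne hk]
            exact hin k hk
        have hds : ds (M : ℝ) (fun k => ((Function.update c i (-1 - c i) k : ℤ) : ℝ) + x k) =
            (c i : ℝ) + (1 - x i) := by
          rw [FT14_ds _ _ i]
          · rw [hco i, if_pos rfl, FT14_clm_lo (by linarith), sub_zero, abs_of_nonpos (by linarith)]
            ring
          · intro k hk
            rw [hco k, if_neg hk]
            exact hin k hk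
        show u (min (ds (M : ℝ) (fun k => ((Function.update c i (-1 - c i) k : ℤ) : ℝ) + x k)) M,
          fun k => clm 0 (M : ℝ) (((Function.update c i (-1 - c i) k : ℤ) : ℝ) + x k)) =
          u ((c i : ℝ) + (Function.update x i (1 - x i)) i,
            Function.update (fun k => (c k : ℝ) + (Function.update x i (1 - x i)) k) i (0 : ℝ))
        rw [hds, hclm, min_eq_left (by linarith), Function.update_self]
  · intro c i j hij hi hj
    refine cls_cel_deg hn _ ?_ ?_
    · refine Continuous.continuousOn ?_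
      refine (W0_ww M hM u hu).con.comp ?_
      fun_prop
    · intro x hx
      exact hu.two _ (E_mem (M : ℝ) hM1 (fun i => (c i : ℝ) + x i)) (some i) (some j) (by simpa using hij)
        (FT14_out M (c i) hi (hx i).1 (hx i).2) (FT14_out M (c j) hj (hx j).1 (hx j).2)

end AGE
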