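import Pool.Agent.AGE.FTD

/-!
# AGE-FT1: homotopy extension for a ball

`hep`: a map of the sphere which is homotopic to a map that extends over the ball extends over the ball. `hep_box` is the same for the box `[0,M] x [0,M]^N`.

Plan. `hep`: put `U x = U₁ (c + 2 • (x - c))` if `‖x - c‖ ≤ r / 2` and `U x = H (2 - 2 ‖x - c‖ / r) (c + (r / ‖x - c‖) • (x - c))` otherwise. Both formulas are continuous on
the closed sets `‖x - c‖ ≤ r/2` and `r/2 ≤ ‖x - c‖ ≤ r` and agree for `‖x - c‖ = r / 2` (`H 1`): `ContinuousOn.if'`, or `ContinuousOn.union_of_isClosed`-type pasting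
(write the ball as the union of the two closed pieces; congruence on each piece). On the sphere `2 - 2 = 0` and `c + 1 • (x - c) = x`.
`hep_box`: in `E = ℝ × (N → ℝ)` with the sup norm `Bx N M = closedBall (M/2, fun _ => M/2) (M/2)` and `Sx N M = sphere ..`: `Prod.norm_def`/`dist_prod_same..`, `pi_norm_le_iff_of_nonneg`, and
for the sphere: the sup is attained (`Finset.exists_mem_eq_sup'` or: if all `|p.2 i - M/2| < M/2` and `|p.1 - M/2| < M/2` then the norm is `< M/2`: `pi_norm_lt_iff`). `|t - M/2| = M/2` iff `t = 0 ∨ t = M`.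
-/

set_option autoImplicit false

noncomputable section

namespace AGE

open Metric Set

theorem hep {E X : Type} [NormedAddCommGroup E] [NormedSpace ℝ E] [TopologicalSpace X]
    (Y : Set X) (c : E) (r : ℝ) (hr : 0 < r) (H : ℝ → E → X)
    (hH : ContinuousOn (fun p : ℝ × E => H p.1 p.2) (Icc (0 : ℝ) 1 ×ˢ sphere c r))
    (hHY : ∀ s ∈ Icc (0 : ℝ) 1, ∀ x ∈ sphere c r, H s x ∈ Y)
    (U₁ : E → X) (hU : ContinuousOn U₁ (closedBall c r)) (hUY : ∀ x ∈ closedBall c r, U₁ x ∈ Y)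
    (h1 : ∀ x ∈ sphere c r, U₁ x = H 1 x) :
    ∃ U : E → X, ContinuousOn U (closedBall c r) ∧ (∀ x ∈ closedBall c r, U x ∈ Y) ∧
      ∀ x ∈ sphere c r, U x = H 0 x := by
  classical
  set U : E → X := fun x => if ‖x - c‖ ≤ r / 2 then U₁ (c + (2 : ℝ) • (x - c)) else
    H (2 - 2 * ‖x - c‖ / r) (c + (r / ‖x - c‖) • (x - c)) with hUdef
  have hA : ∀ x, ‖x - c‖ ≤ r / 2 → U x = U₁ (c + (2 : ℝ) • (x - c)) := fun x hx => if_pos hx
  have hsph : ∀ x : E, 0 < ‖x - c‖ → c + (r / ‖x - c‖) • (x - c) ∈ sphere c r := by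
    intro x hx
    rw [mem_sphere_iff_norm, add_sub_cancel_left, norm_smul, Real.norm_eq_abs, abs_of_pos (div_pos hr hx),
      div_mul_cancel₀ _ hx.ne']
  have hB : ∀ x, r / 2 ≤ ‖x - c‖ → U x = H (2 - 2 * ‖x - c‖ / r) (c + (r / ‖x - c‖) • (x - c)) := by
    intro x hx
    rcases eq_or_lt_of_le hx with h | h
    · have h2 : r / ‖x - c‖ = 2 := by
        rw [← h]
        field_simp
      have h3 : 2 - 2 * ‖x - c‖ / r = 1 := by
        rw [← h]
        field_simp
        norm_num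
      rw [hA x h.ge, h3, h2]
      refine h1 _ ?_
      have h4 := hsph x (by rw [← h]; positivity)
      rwa [h2] at h4
    · exact if_neg (not_le.2 h)
  have hin : ∀ x, ‖x - c‖ ≤ r / 2 → c + (2 : ℝ) • (x - c) ∈ closedBall c r := by
    intro x hx
    rw [mem_closedBall_iff_norm, add_sub_cancel_left, norm_smul, Real.norm_eq_abs, abs_of_pos (by norm_num : (0 : ℝ) < 2)]
    linarith
  have hI : ∀ x, r / 2 ≤ ‖x - c‖ → ‖x - c‖ ≤ r → (2 - 2 * ‖x - c‖ / r) ∈ Icc (0 : ℝ) 1 := by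
    intro x hx hx'
    constructor
    · have h2 : 2 * ‖x - c‖ / r ≤ 2 := by
        rw [div_le_iff₀ hr]
        linarith
      linarith
    · have h2 : 1 ≤ 2 * ‖x - c‖ / r := by
        rw [le_div_iff₀ hr]
        linarith
      linarith
  refine ⟨U, ?_, ?_, ?_⟩
  · have hcov : closedBall c r = {x | ‖x - c‖ ≤ r / 2} ∪ {x | r / 2 ≤ ‖x - c‖ ∧ ‖x - c‖ ≤ r} := by
      ext x
      rw [mem_closedBall_iff_norm]
      constructor
      · intro h
        rcases le_total ‖x - c‖ (r / 2) with h2 | h2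
        · exact Or.inl h2
        · exact Or.inr ⟨h2, h⟩
      · rintro (h | h)
        · have h' : ‖x - c‖ ≤ r / 2 := h
          linarith
        · exact h.2
    have hnc : Continuous fun x : E => ‖x - c‖ := (continuous_id.sub continuous_const).norm
    rw [hcov]
    refine ContinuousOn.union_of_isClosed ?_ ?_ (isClosed_le hnc continuous_const)
      ((isClosed_le continuous_const hnc).inter (isClosed_le hnc continuous_const))
    · refine ContinuousOn.congr (f := fun x => U₁ (c + (2 : ℝ) • (x - c))) ?_ (fun x hx => hA x hx)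
      exact hU.comp (by fun_prop) (fun x hx => hin x hx)
    · refine ContinuousOn.congr
        (f := fun x => H (2 - 2 * ‖x - c‖ / r) (c + (r / ‖x - c‖) • (x - c))) ?_ (fun x hx => hB x hx.1)
      have hpos : ∀ x ∈ {x : E | r / 2 ≤ ‖x - c‖ ∧ ‖x - c‖ ≤ r}, ‖x - c‖ ≠ 0 := by
        intro x hx
        have := hx.1
        exact (lt_of_lt_of_le (by positivity) this).ne'
      refine hH.comp (f := fun x : E => (2 - 2 * ‖x - c‖ / r, c + (r / ‖x - c‖) • (x - c))) ?_ ?_
      · refine ContinuousOn.prodMk (by fun_prop) ?_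
        refine continuousOn_const.add (ContinuousOn.smul ?_ (by fun_prop))
        exact continuousOn_const.div hnc.continuousOn hpos
      · intro x hx
        exact ⟨hI x hx.1 hx.2, hsph x (lt_of_le_of_ne (norm_nonneg _) (Ne.symm (hpos x hx)))⟩
  · intro x hx
    rw [mem_closedBall_iff_norm] at hx
    rcases le_total ‖x - c‖ (r / 2) with h2 | h2
    · rw [hA x h2]
      exact hUY _ (hin x h2)
    · rw [hB x h2]
      exact hHY _ (hI x h2 hx) _ (hsph x (lt_of_lt_of_le (by positivity) h2))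
  · intro x hx
    rw [mem_sphere_iff_norm] at hx
    rw [hB x (by rw [hx]; linarith), hx, div_self hr.ne', one_smul, add_sub_cancel]
    congr 1
    field_simp
    norm_num

theorem hep_box {N X : Type} [Fintype N] [TopologicalSpace X] (Y : Set X) (M : ℝ) (hM : 0 < M)
    (H : ℝ → ℝ × (N → ℝ) → X)
    (hH : ContinuousOn (fun p : ℝ × (ℝ × (N → ℝ)) => H p.1 p.2) (Icc (0 : ℝ) 1 ×ˢ Sx N M))
    (hHY : ∀ s ∈ Icc (0 : ℝ) 1, ∀ p ∈ Sx N M, H s p ∈ Y)
    (U₁ : ℝ × (N → ℝ) → X) (hU : ContinuousOn U₁ (Bx N M)) (hUY : ∀ p ∈ Bx N M, U₁ p ∈ Y)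
    (h1 : ∀ p ∈ Sx N M, U₁ p = H 1 p) :
    ∃ U : ℝ × (N → ℝ) → X, ContinuousOn U (Bx N M) ∧ (∀ p ∈ Bx N M, U p ∈ Y) ∧
      ∀ p ∈ Sx N M, U p = H 0 p := by
  have hdist : ∀ t : ℝ, dist t (M / 2) ≤ M / 2 ↔ 0 ≤ t ∧ t ≤ M := by
    intro t
    rw [Real.dist_eq, abs_le]
    constructor
    · rintro ⟨h2, h3⟩
      constructor <;> linarith
    · rintro ⟨h2, h3⟩
      constructor <;> linarith
  have hdeq : ∀ t : ℝ, t = 0 ∨ t = M → dist t (M / 2) = M / 2 := by
    rintro t (rfl | rfl)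
    · rw [Real.dist_eq, zero_sub, abs_neg, abs_of_pos (by linarith)]
    · rw [Real.dist_eq, sub_half, abs_of_pos (by linarith)]
  have hdlt : ∀ t : ℝ, 0 ≤ t → t ≤ M → ¬ (t = 0 ∨ t = M) → dist t (M / 2) < M / 2 := by
    intro t h2 h3 h4
    rw [not_or] at h4
    have h5 := lt_of_le_of_ne h2 (Ne.symm h4.1)
    have h6 := lt_of_le_of_ne h3 h4.2
    rw [Real.dist_eq, abs_lt]
    constructor <;> linarith
  have hball : Bx N M = closedBall ((M / 2, fun _ => M / 2) : ℝ × (N → ℝ)) (M / 2) := by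
    ext p
    rw [mem_closedBall, Prod.dist_eq, max_le_iff, dist_pi_le_iff (by linarith)]
    constructor
    · rintro ⟨h2, h3⟩
      exact ⟨(hdist _).2 h2, fun i => (hdist _).2 (h3 i)⟩
    · rintro ⟨h2, h3⟩
      exact ⟨(hdist _).1 h2, fun i => (hdist _).1 (h3 i)⟩
  have hsph : Sx N M = sphere ((M / 2, fun _ => M / 2) : ℝ × (N → ℝ)) (M / 2) := by
    ext p
    constructor
    · rintro ⟨h2, h3⟩
      rw [hball] at h2
      refine mem_sphere.2 (le_antisymm h2 ?_)
      rw [Prod.dist_eq]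
      rcases h3 with h3 | h3 | ⟨i, h3⟩
      · exact le_trans (hdeq _ (Or.inl h3)).ge (le_max_left _ _)
      · exact le_trans (hdeq _ (Or.inr h3)).ge (le_max_left _ _)
      · refine le_trans ?_ (le_max_right _ _)
        exact le_trans (hdeq _ h3).ge (dist_le_pi_dist p.2 (fun _ => M / 2) i)
    · intro h2
      have h3 : p ∈ Bx N M := by
        rw [hball]
        exact sphere_subset_closedBall h2
      refine ⟨h3, ?_⟩
      by_contra h4
      rw [not_or, not_or, not_exists] at h4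
      obtain ⟨h5, h6, h7⟩ := h4
      have h8 : dist p ((M / 2, fun _ => M / 2) : ℝ × (N → ℝ)) < M / 2 := by
        rw [Prod.dist_eq]
        refine max_lt (hdlt _ h3.1.1 h3.1.2 (fun h => h.elim h5 h6)) ?_
        exact (dist_pi_lt_iff (by linarith)).2 fun i => hdlt _ (h3.2 i).1 (h3.2 i).2 (h7 i)
      exact h8.ne (mem_sphere.1 h2)
  rw [hball] at hU hUY ⊢
  rw [hsph] at hH hHY h1 ⊢
  exact hep Y _ (M / 2) (by linarith) H hH hHY U₁ hU hUY h1

end AGE
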