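import Pool.Agent.AGE.FTD
import Pool.Agent.AGE.FT1

/-!
# AGE-FT2: pushing the sphere towards its top face

If `u` composed with `q₁ (h, z) = (h + ds (3 z - M) (1 - h / M), clamp (3 z - M))` extends from the boundary `Sx` of the box to the box `Bx`, then `u` extends: the map `q₁` is homotopic
to the identity through the maps `FT2_q s` of the boundary to itself.
-/

set_option autoImplicit false

noncomputable section

namespace AGE

open Metric Set

/-- the homotopy -/
private def FT2_q {N : Type} [Fintype N] (M s : ℝ) (p : ℝ × (N → ℝ)) : ℝ × (N → ℝ) :=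
  (p.1 + ds M (fun i => (1 + 2 * s) * p.2 i - s * M) * (1 - p.1 / M),
    fun i => clm 0 M ((1 + 2 * s) * p.2 i - s * M))

private theorem FT2_clm_mem {M : ℝ} (hM : 0 < M) (t : ℝ) : 0 ≤ clm 0 M t ∧ clm 0 M t ≤ M := by
  unfold clm
  exact ⟨le_max_left _ _, max_le hM.le (min_le_right _ _)⟩

private theorem FT2_clm_lo {M t : ℝ} (hM : 0 < M) (h : t ≤ 0) : clm 0 M t = 0 := by
  unfold clm
  rw [min_eq_left (h.trans hM.le), max_eq_left h]

private theorem FT2_clm_hi {M t : ℝ} (hM : 0 < M) (h : M ≤ t) : clm 0 M t = M := by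
  unfold clm
  rw [min_eq_right h, max_eq_right hM.le]

private theorem FT2_clm_mid {M t : ℝ} (h0 : 0 ≤ t) (h : t ≤ M) : clm 0 M t = t := by
  unfold clm
  rw [min_eq_left h, max_eq_right h0]

private theorem FT2_clm_cont (M : ℝ) : Continuous (clm 0 M) := by
  unfold clm
  exact continuous_const.max (continuous_id.min continuous_const)

private theorem FT2_dist {M s z : ℝ} (hM : 0 < M) (hs0 : 0 ≤ s) (h0 : 0 ≤ z) (h1 : z ≤ M) :
    ‖((1 + 2 * s) * z - s * M) - clm 0 M ((1 + 2 * s) * z - s * M)‖ ≤ s * M := by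
  have hsM : 0 ≤ s * M := mul_nonneg hs0 hM.le
  have h2 : -(s * M) ≤ (1 + 2 * s) * z - s * M := by nlinarith [mul_nonneg hs0 h0]
  have h3 : (1 + 2 * s) * z - s * M ≤ M + s * M := by nlinarith [mul_le_mul_of_nonneg_left h1 hs0]
  rw [Real.norm_eq_abs, abs_le]
  rcases le_total ((1 + 2 * s) * z - s * M) 0 with h | h
  · rw [FT2_clm_lo hM h]
    constructor
    · linarith
    · linarith
  · rcases le_total ((1 + 2 * s) * z - s * M) M with h' | h'
    · rw [FT2_clm_mid h h']
      constructor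
      · linarith
      · linarith
    · rw [FT2_clm_hi hM h']
      constructor
      · linarith
      · linarith

private theorem FT2_ds_le {N : Type} [Fintype N] {M s : ℝ} (hM : 0 < M) (hs0 : 0 ≤ s) (hs1 : s ≤ 1) {z : N → ℝ}
    (hz : ∀ i, 0 ≤ z i ∧ z i ≤ M) : ds M (fun i => (1 + 2 * s) * z i - s * M) ≤ M := by
  unfold ds
  have h1 : s * M ≤ M := by nlinarith
  refine le_trans ?_ h1
  rw [pi_norm_le_iff_of_nonneg (mul_nonneg hs0 hM.le)]
  intro i
  exact FT2_dist hM hs0 (hz i).1 (hz i).2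

private theorem FT2_ds_nonneg {N : Type} [Fintype N] (M : ℝ) (x : N → ℝ) : 0 ≤ ds M x := norm_nonneg _

private theorem FT2_maps {N : Type} [Fintype N] {M s : ℝ} (hM : 0 < M) (hs0 : 0 ≤ s) (hs1 : s ≤ 1)
    {p : ℝ × (N → ℝ)} (hp : p ∈ Sx N M) : FT2_q M s p ∈ Sx N M := by
  obtain ⟨⟨⟨hh0, hh1⟩, hz⟩, hb⟩ := hp
  have hd0 := FT2_ds_nonneg M (fun i => (1 + 2 * s) * p.2 i - s * M)
  have hd1 := FT2_ds_le hM hs0 hs1 hz
  have hf0 : 0 ≤ 1 - p.1 / M := by
    rw [sub_nonneg, div_le_one hM]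
    exact hh1
  have hf1 : M * (1 - p.1 / M) = M - p.1 := by
    field_simp
  refine ⟨⟨⟨?_, ?_⟩, fun i => FT2_clm_mem hM _⟩, ?_⟩
  · exact add_nonneg hh0 (mul_nonneg hd0 hf0)
  · have h1 := mul_le_mul_of_nonneg_right hd1 hf0
    rw [hf1] at h1
    simp only [FT2_q]
    linarith
  · rcases hb with hb | hb | ⟨i, hb⟩
    · by_cases hd : ds M (fun i => (1 + 2 * s) * p.2 i - s * M) = 0
      · left
        simp only [FT2_q]
        rw [hd, hb]
        ring
      · right
        right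
        by_contra hcon
        push Not at hcon
        refine hd ?_
        unfold ds
        rw [norm_eq_zero]
        funext i
        rw [Pi.zero_apply, sub_eq_zero]
        have h1 := hcon i
        simp only [FT2_q] at h1
        rcases le_total ((1 + 2 * s) * p.2 i - s * M) 0 with h | h
        · exact absurd (FT2_clm_lo hM h) h1.1
        · rcases le_total ((1 + 2 * s) * p.2 i - s * M) M with h' | h'
          · exact (FT2_clm_mid h h').symm
          · exact absurd (FT2_clm_hi hM h') h1.2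
    · right
      left
      simp only [FT2_q]
      rw [hb, div_self hM.ne']
      ring
    · right
      right
      refine ⟨i, ?_⟩
      simp only [FT2_q]
      have hsM : 0 ≤ s * M := mul_nonneg hs0 hM.le
      rcases hb with hb | hb
      · left
        refine FT2_clm_lo hM ?_
        rw [hb]
        linarith
      · right
        refine FT2_clm_hi hM ?_
        rw [hb]
        nlinarith

private theorem FT2_zero {N : Type} [Fintype N] {M : ℝ} {p : ℝ × (N → ℝ)}
    (hz : ∀ i, 0 ≤ p.2 i ∧ p.2 i ≤ M) : FT2_q M 0 p = p := by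
  have h1 : ∀ i, (1 + 2 * (0 : ℝ)) * p.2 i - 0 * M = p.2 i := fun i => by ring
  have h2 : ∀ i, clm 0 M (p.2 i) = p.2 i := fun i => FT2_clm_mid (hz i).1 (hz i).2
  unfold FT2_q ds
  simp only [h1, h2, sub_self]
  have h3 : ‖(fun _ : N => (0 : ℝ))‖ = 0 := by
    rw [norm_eq_zero]
    rfl
  rw [h3, zero_mul, add_zero]

private theorem FT2_cont {N : Type} [Fintype N] (M : ℝ) :
    Continuous (fun P : ℝ × (ℝ × (N → ℝ)) => FT2_q M P.1 P.2) := by
  have hz : ∀ i : N, Continuous (fun P : ℝ × (ℝ × (N → ℝ)) => (1 + 2 * P.1) * P.2.2 i - P.1 * M) := by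
    intro i
    fun_prop
  have hc : ∀ i : N, Continuous (fun P : ℝ × (ℝ × (N → ℝ)) => clm 0 M ((1 + 2 * P.1) * P.2.2 i - P.1 * M)) :=
    fun i => (FT2_clm_cont M).comp (hz i)
  have hd : Continuous (fun P : ℝ × (ℝ × (N → ℝ)) => ds M (fun i => (1 + 2 * P.1) * P.2.2 i - P.1 * M)) := by
    unfold ds
    exact continuous_norm.comp (continuous_pi fun i => (hz i).sub (hc i))
  unfold FT2_q
  refine Continuous.prodMk ?_ (continuous_pi hc)
  have h1 : Continuous (fun P : ℝ × (ℝ × (N → ℝ)) => P.2.1) := continuous_fst.comp continuous_snd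
  exact h1.add (hd.mul (continuous_const.sub (h1.div_const M)))

theorem ext_red {N X : Type} [Fintype N] [TopologicalSpace X] (Y : Set X) (M : ℝ) (hM : 0 < M)
    (u : ℝ × (N → ℝ) → X) (hu : ContinuousOn u (Sx N M)) (huY : ∀ p ∈ Sx N M, u p ∈ Y)
    (U₁ : ℝ × (N → ℝ) → X) (hU : ContinuousOn U₁ (Bx N M)) (hUY : ∀ p ∈ Bx N M, U₁ p ∈ Y)
    (h1 : ∀ p ∈ Sx N M, U₁ p = u (p.1 + ds M (fun i => 3 * p.2 i - M) * (1 - p.1 / M),
      fun i => clm 0 M (3 * p.2 i - M))) :
    ∃ U : ℝ × (N → ℝ) → X, ContinuousOn U (Bx N M) ∧ (∀ p ∈ Bx N M, U p ∈ Y) ∧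
      ∀ p ∈ Sx N M, U p = u p := by
  obtain ⟨U, hU1, hU2, hU3⟩ := hep_box Y M hM (fun s p => u (FT2_q M s p))
    (hu.comp (FT2_cont M).continuousOn fun P hP => FT2_maps hM hP.1.1 hP.1.2 hP.2)
    (fun s hs p hp => huY _ (FT2_maps hM hs.1 hs.2 hp)) U₁ hU hUY (fun p hp => by
      rw [h1 p hp]
      have h2 : ∀ i, (1 + 2 * (1 : ℝ)) * p.2 i - 1 * M = 3 * p.2 i - M := fun i => by ring
      simp only [FT2_q, h2])
  refine ⟨U, hU1, hU2, fun p hp => ?_⟩
  rw [hU3 p hp]
  simp only [FT2_zero hp.1.2]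

end AGE
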