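import Pool.Agent.AGE.FTD
import Pool.Agent.AGE.FT1
import Pool.Agent.AGE.FT2

/-!
# AGE-FT3: extension from a homotopy which is palindromic on the boundary

By `ext_red` it is enough to extend `u ∘ q₁`, which is given on the boundary by `G`; the map `(h, z) ↦ G (h / M) (3 z - M)` is defined
on the whole box and homotopic to it on the boundary, through `G (min (min (h / M) (1 - h / M)) (s / 2))`.
-/

set_option autoImplicit false

noncomputable section

namespace AGE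

open Metric Set

private theorem ft3_clm {M y : ℝ} (hM : 0 < M) (h1 : -M ≤ y) (h2 : y ≤ 2 * M) :
    |y - clm 0 M y| ≤ M := by
  unfold clm
  rw [abs_le]
  rcases le_total y M with h | h
  · rw [min_eq_left h]
    rcases le_total 0 y with h' | h'
    · rw [max_eq_right h']
      constructor <;> linarith
    · rw [max_eq_left h']
      constructor <;> linarith
  · rw [min_eq_right h, max_eq_right hM.le]
    constructor <;> linarith

private theorem ft3_clm' {M y : ℝ} (hM : 0 < M) (h : y = -M ∨ y = 2 * M) : M ≤ |y - clm 0 M y| := by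
  unfold clm
  rcases h with rfl | rfl
  · rw [min_eq_left (by linarith), max_eq_left (by linarith), sub_zero, abs_neg]
    exact le_abs_self M
  · rw [min_eq_right (by linarith), max_eq_right hM.le]
    have h1 : 2 * M - M = M := by ring
    rw [h1]
    exact le_abs_self M

private theorem ft3_ds_le {N : Type} [Fintype N] {M : ℝ} (hM : 0 < M) {x : N → ℝ}
    (h : ∀ i, -M ≤ x i ∧ x i ≤ 2 * M) : ds M x ≤ M := by
  unfold ds
  rw [pi_norm_le_iff_of_nonneg hM.le]
  intro i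
  rw [Real.norm_eq_abs]
  exact ft3_clm hM (h i).1 (h i).2

private theorem ft3_ds_eq {N : Type} [Fintype N] {M : ℝ} (hM : 0 < M) {x : N → ℝ}
    (h : ∀ i, -M ≤ x i ∧ x i ≤ 2 * M) (hx : ∃ i, x i = -M ∨ x i = 2 * M) : ds M x = M := by
  refine le_antisymm (ft3_ds_le hM h) ?_
  obtain ⟨i, hi⟩ := hx
  have h1 := norm_le_pi_norm (fun i => x i - clm 0 M (x i)) i
  rw [Real.norm_eq_abs] at h1
  exact (ft3_clm' hM hi).trans h1

private theorem ft3_closed (N : Type) [Fintype N] (M : ℝ) : IsClosed (Bx N M) := by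
  have h1 : Bx N M = ({p | 0 ≤ p.1} ∩ {p | p.1 ≤ M}) ∩ ⋂ i, ({p | 0 ≤ p.2 i} ∩ {p | p.2 i ≤ M}) := by
    ext p
    simp only [Bx, Set.mem_setOf_eq, Set.mem_inter_iff, Set.mem_iInter]
  rw [h1]
  refine ((isClosed_le continuous_const continuous_fst).inter
    (isClosed_le continuous_fst continuous_const)).inter (isClosed_iInter fun i => ?_)
  have h2 : Continuous fun p : ℝ × (N → ℝ) => p.2 i := (continuous_apply i).comp continuous_snd
  exact (isClosed_le continuous_const h2).inter (isClosed_le h2 continuous_const)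

private theorem ft3_closed' (N : Type) [Fintype N] (M : ℝ) :
    IsClosed {p : ℝ × (N → ℝ) | p.1 = 0 ∨ ∃ i, p.2 i = 0 ∨ p.2 i = M} := by
  have h1 : {p : ℝ × (N → ℝ) | p.1 = 0 ∨ ∃ i, p.2 i = 0 ∨ p.2 i = M} =
      {p | p.1 = 0} ∪ ⋃ i, ({p | p.2 i = 0} ∪ {p | p.2 i = M}) := by
    ext p
    simp only [Set.mem_setOf_eq, Set.mem_union, Set.mem_iUnion]
  rw [h1]
  refine (isClosed_eq continuous_fst continuous_const).union (isClosed_iUnion_of_finite fun i => ?_)
  have h2 : Continuous fun p : ℝ × (N → ℝ) => p.2 i := (continuous_apply i).comp continuous_snd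
  exact (isClosed_eq h2 continuous_const).union (isClosed_eq h2 continuous_const)

theorem ext_pal {N X : Type} [Fintype N] [TopologicalSpace X] (Y : Set X) (M : ℝ) (hM : 0 < M)
    (u : ℝ × (N → ℝ) → X) (hu : ContinuousOn u (Sx N M)) (huY : ∀ p ∈ Sx N M, u p ∈ Y)
    (G : ℝ → (N → ℝ) → X) (hG : Continuous (fun p : ℝ × (N → ℝ) => G p.1 p.2))
    (hGY : ∀ s ∈ Icc (0 : ℝ) 1, ∀ x, G s x ∈ Y)
    (h0 : ∀ x : N → ℝ, (∀ i, -M ≤ x i ∧ x i ≤ 2 * M) →
      G 0 x = u (min (ds M x) M, fun i => clm 0 M (x i)))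
    (h1 : ∀ x : N → ℝ, (∀ i, -M ≤ x i ∧ x i ≤ 2 * M) → G 1 x = u (M, fun i => clm 0 M (x i)))
    (hpal : ∀ s ∈ Icc (0 : ℝ) 1, ∀ x : N → ℝ, (∀ i, -M ≤ x i ∧ x i ≤ 2 * M) →
      (∃ i, x i = -M ∨ x i = 2 * M) → G s x = G (1 - s) x) :
    ∃ U : ℝ × (N → ℝ) → X, ContinuousOn U (Bx N M) ∧ (∀ p ∈ Bx N M, U p ∈ Y) ∧
      ∀ p ∈ Sx N M, U p = u p := by
  classical
  have hX : ∀ p ∈ Bx N M, ∀ i, -M ≤ 3 * p.2 i - M ∧ 3 * p.2 i - M ≤ 2 * M := by
    intro p hp i
    obtain ⟨a, b⟩ := hp.2 i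
    constructor <;> linarith
  have hXb : ∀ p : ℝ × (N → ℝ), (∃ i, p.2 i = 0 ∨ p.2 i = M) →
      ∃ i, 3 * p.2 i - M = -M ∨ 3 * p.2 i - M = 2 * M := by
    rintro p ⟨i, h | h⟩
    · exact ⟨i, Or.inl (by rw [h]; ring)⟩
    · exact ⟨i, Or.inr (by rw [h]; ring)⟩
  have ht : ∀ p ∈ Bx N M, 0 ≤ p.1 / M ∧ p.1 / M ≤ 1 := fun p hp =>
    ⟨div_nonneg hp.1.1 hM.le, (div_le_one hM).2 hp.1.2⟩
  have cX : Continuous fun p : ℝ × (N → ℝ) => fun i => 3 * p.2 i - M := by
    refine continuous_pi fun i => ?_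
    exact (continuous_const.mul ((continuous_apply i).comp continuous_snd)).sub continuous_const
  have hV : ContinuousOn (fun p : ℝ × (N → ℝ) => G (p.1 / M) (fun i => 3 * p.2 i - M)) (Bx N M) :=
    (hG.comp ((continuous_fst.div_const M).prodMk cX)).continuousOn
  -- the homotopy
  obtain ⟨H, hH1, hH2⟩ : ∃ H : ℝ → ℝ × (N → ℝ) → X,
      (∀ s (p : ℝ × (N → ℝ)), p.1 = M → H s p = G 1 (fun i => 3 * p.2 i - M)) ∧
      ∀ s (p : ℝ × (N → ℝ)), p.1 ≠ M →
        H s p = G (min (min (p.1 / M) (1 - p.1 / M)) (s / 2)) (fun i => 3 * p.2 i - M) :=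
    ⟨fun s p => if p.1 = M then G 1 (fun i => 3 * p.2 i - M) else
      G (min (min (p.1 / M) (1 - p.1 / M)) (s / 2)) (fun i => 3 * p.2 i - M),
      fun s p h => if_pos h, fun s p h => if_neg h⟩
  have hHB : ∀ s ∈ Icc (0 : ℝ) 1, ∀ p ∈ Bx N M, (p.1 = 0 ∨ ∃ i, p.2 i = 0 ∨ p.2 i = M) →
      H s p = G (min (min (p.1 / M) (1 - p.1 / M)) (s / 2)) (fun i => 3 * p.2 i - M) := by
    intro s hs p hp hb
    by_cases hpM : p.1 = M
    · have hb' : ∃ i, p.2 i = 0 ∨ p.2 i = M := by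
        rcases hb with hb | hb
        · exfalso
          rw [hpM] at hb
          exact hM.ne' hb
        · exact hb
      have h3 := hpal 0 ⟨le_rfl, zero_le_one⟩ (fun i => 3 * p.2 i - M) (hX p hp) (hXb p hb')
      rw [sub_zero] at h3
      have h4 : min (min (p.1 / M) (1 - p.1 / M)) (s / 2) = 0 := by
        rw [hpM, div_self hM.ne', sub_self, min_eq_right zero_le_one,
          min_eq_left (by linarith [hs.1])]
      rw [hH1 s p hpM, h4, h3]
    · exact hH2 s p hpM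
  have hHc : ContinuousOn (fun p : ℝ × (ℝ × (N → ℝ)) => H p.1 p.2) (Icc (0 : ℝ) 1 ×ˢ Sx N M) := by
    have hA : ContinuousOn (fun p : ℝ × (ℝ × (N → ℝ)) => H p.1 p.2)
        (Icc (0 : ℝ) 1 ×ˢ (Bx N M ∩ {p | p.1 = M})) := by
      have h3 : Continuous fun p : ℝ × (ℝ × (N → ℝ)) => G 1 (fun i => 3 * p.2.2 i - M) :=
        hG.comp (continuous_const.prodMk (cX.comp continuous_snd))
      refine h3.continuousOn.congr ?_
      rintro ⟨s, p⟩ ⟨-, -, hp⟩
      exact hH1 s p hp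
    have hB : ContinuousOn (fun p : ℝ × (ℝ × (N → ℝ)) => H p.1 p.2)
        (Icc (0 : ℝ) 1 ×ˢ (Bx N M ∩ {p | p.1 = 0 ∨ ∃ i, p.2 i = 0 ∨ p.2 i = M})) := by
      have h4 : Continuous fun p : ℝ × (ℝ × (N → ℝ)) =>
          min (min (p.2.1 / M) (1 - p.2.1 / M)) (p.1 / 2) := by
        have h5 : Continuous fun p : ℝ × (ℝ × (N → ℝ)) => p.2.1 / M :=
          (continuous_fst.comp continuous_snd).div_const M
        exact (h5.min (continuous_const.sub h5)).min (continuous_fst.div_const 2)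
      have h3 : Continuous fun p : ℝ × (ℝ × (N → ℝ)) =>
          G (min (min (p.2.1 / M) (1 - p.2.1 / M)) (p.1 / 2)) (fun i => 3 * p.2.2 i - M) :=
        hG.comp (h4.prodMk (cX.comp continuous_snd))
      refine h3.continuousOn.congr ?_
      rintro ⟨s, p⟩ ⟨hs, hp, hb⟩
      exact hHB s hs p hp hb
    have hcA : IsClosed (Icc (0 : ℝ) 1 ×ˢ (Bx N M ∩ {p | p.1 = M})) :=
      isClosed_Icc.prod ((ft3_closed N M).inter (isClosed_eq continuous_fst continuous_const))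
    have hcB : IsClosed (Icc (0 : ℝ) 1 ×ˢ (Bx N M ∩ {p | p.1 = 0 ∨ ∃ i, p.2 i = 0 ∨ p.2 i = M})) :=
      isClosed_Icc.prod ((ft3_closed N M).inter (ft3_closed' N M))
    refine (hA.union_of_isClosed hB hcA hcB).mono ?_
    rintro ⟨s, p⟩ ⟨hs, hp, h0 | h0 | h0⟩
    · exact Or.inr ⟨hs, hp, Or.inl h0⟩
    · exact Or.inl ⟨hs, hp, h0⟩
    · exact Or.inr ⟨hs, hp, Or.inr h0⟩
  have hHY : ∀ s ∈ Icc (0 : ℝ) 1, ∀ p ∈ Sx N M, H s p ∈ Y := by
    intro s hs p hp
    by_cases hpM : p.1 = M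
    · rw [hH1 s p hpM]
      exact hGY 1 ⟨zero_le_one, le_rfl⟩ _
    · rw [hH2 s p hpM]
      obtain ⟨t1, t2⟩ := ht p hp.1
      refine hGY _ ⟨le_min (le_min t1 (by linarith)) (by linarith [hs.1]), ?_⟩ _
      exact (min_le_left _ _).trans ((min_le_left _ _).trans t2)
  have hV1 : ∀ p ∈ Sx N M, (fun p : ℝ × (N → ℝ) => G (p.1 / M) (fun i => 3 * p.2 i - M)) p = H 1 p := by
    intro p hp
    show G (p.1 / M) (fun i => 3 * p.2 i - M) = H 1 p
    by_cases hpM : p.1 = M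
    · rw [hH1 1 p hpM, hpM, div_self hM.ne']
    · rw [hH2 1 p hpM]
      obtain ⟨t1, t2⟩ := ht p hp.1
      rcases hp.2 with h0 | h0 | h0
      · rw [h0, zero_div, sub_zero, min_eq_left zero_le_one, min_eq_left (by norm_num)]
      · exact absurd h0 hpM
      · have h5 : min (min (p.1 / M) (1 - p.1 / M)) (1 / 2) = min (p.1 / M) (1 - p.1 / M) := by
          refine min_eq_left ?_
          rcases le_total (p.1 / M) (1 / 2) with h6 | h6
          · exact (min_le_left _ _).trans h6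
          · exact (min_le_right _ _).trans (by linarith)
        rw [h5]
        rcases le_total (p.1 / M) (1 - p.1 / M) with h6 | h6
        · rw [min_eq_left h6]
        · rw [min_eq_right h6]
          exact hpal _ ⟨t1, t2⟩ _ (hX p hp.1) (hXb p h0)
  obtain ⟨U₁, hU1, hU2, hU3⟩ := hep_box Y M hM H hHc hHY
    (fun p : ℝ × (N → ℝ) => G (p.1 / M) (fun i => 3 * p.2 i - M)) hV
    (fun p hp => hGY _ ⟨(ht p hp).1, (ht p hp).2⟩ _) hV1
  refine ext_red Y M hM u hu huY U₁ hU1 hU2 fun p hp => ?_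
  rw [hU3 p hp]
  by_cases hpM : p.1 = M
  · rw [hH1 0 p hpM, h1 _ (hX p hp.1), hpM, div_self hM.ne', sub_self, mul_zero, add_zero]
  · rw [hH2 0 p hpM]
    obtain ⟨t1, t2⟩ := ht p hp.1
    have h5 : min (min (p.1 / M) (1 - p.1 / M)) ((0 : ℝ) / 2) = 0 := by
      rw [zero_div]
      exact min_eq_right (le_min t1 (by linarith))
    rw [h5, h0 _ (hX p hp.1)]
    have h6 := ft3_ds_le hM (hX p hp.1)
    rw [min_eq_left h6]
    rcases hp.2 with h0 | h0 | h0
    · rw [h0, zero_div, sub_zero, mul_one, zero_add]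
    · exact absurd h0 hpM
    · rw [ft3_ds_eq hM (hX p hp.1) (hXb p h0)]
      have h7 : p.1 + M * (1 - p.1 / M) = M := by
        field_simp
        ring
      rw [h7]

end AGE
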