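import Pool.Agent.AGE.FTD
import Pool.Agent.AGE.FTE
import Pool.Agent.AGE.FT3
import Pool.Agent.AGE.FT4
import Pool.Agent.AGE.FT8
import Pool.Agent.AGE.FT9
import Pool.Agent.AGE.FT10
import Pool.Agent.AGE.FT13
import Pool.Agent.AGE.FT14

/-!
# AGE-FT15: extension of `u` over the box when the classes of its cells cancel
-/

set_option autoImplicit false

noncomputable section

namespace AGE

open Set

variable {F N : Type} [Fintype F] [Fintype N] [DecidableEq N] [Nontrivial N]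

/-- concatenation of three homotopies, precomposed with a map -/
private def ft15_G {X N : Type} (A K B : ℝ → (N → ℝ) → X) (κ : (N → ℝ) → (N → ℝ))
    (s : ℝ) (x : N → ℝ) : X :=
  if s ≤ 1 / 3 then A (3 * s) (κ x) else
    if s ≤ 2 / 3 then K (3 * s - 1) (κ x) else B (3 - 3 * s) (κ x)

private theorem ft15_G_cont {X N : Type} [TopologicalSpace X] (A K B : ℝ → (N → ℝ) → X)
    (κ : (N → ℝ) → (N → ℝ)) (hA : Continuous (fun p : ℝ × (N → ℝ) => A p.1 p.2))
    (hK : Continuous (fun p : ℝ × (N → ℝ) => K p.1 p.2))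
    (hB : Continuous (fun p : ℝ × (N → ℝ) => B p.1 p.2)) (hκ : Continuous κ)
    (h1 : ∀ x, A 1 (κ x) = K 0 (κ x)) (h2 : ∀ x, K 1 (κ x) = B 1 (κ x)) :
    Continuous (fun p : ℝ × (N → ℝ) => ft15_G A K B κ p.1 p.2) := by
  unfold ft15_G
  have eA : Continuous (fun p : ℝ × (N → ℝ) => A (3 * p.1) (κ p.2)) :=
    hA.comp (f := fun p : ℝ × (N → ℝ) => (3 * p.1, κ p.2)) (by fun_prop)
  have eK : Continuous (fun p : ℝ × (N → ℝ) => K (3 * p.1 - 1) (κ p.2)) :=
    hK.comp (f := fun p : ℝ × (N → ℝ) => (3 * p.1 - 1, κ p.2)) (by fun_prop)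
  have eB : Continuous (fun p : ℝ × (N → ℝ) => B (3 - 3 * p.1) (κ p.2)) :=
    hB.comp (f := fun p : ℝ × (N → ℝ) => (3 - 3 * p.1, κ p.2)) (by fun_prop)
  refine Continuous.if_le eA (Continuous.if_le eK eB continuous_fst continuous_const ?_)
    continuous_fst continuous_const ?_
  · intro p hp
    have e1 : 3 * p.1 - 1 = 1 := by rw [hp]; norm_num
    have e2 : 3 - 3 * p.1 = 1 := by rw [hp]; norm_num
    rw [e1, e2]
    exact h2 p.2
  · intro p hp
    have e1 : 3 * p.1 = 1 := by rw [hp]; norm_num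
    have e2 : 3 * p.1 - 1 = 0 := by rw [hp]; norm_num
    have e3 : p.1 ≤ 2 / 3 := by rw [hp]; norm_num
    rw [if_pos e3, e2, e1]
    exact h1 p.2

private theorem ft15_G_mem {X N : Type} (Y : Set X) (A K B : ℝ → (N → ℝ) → X)
    (κ : (N → ℝ) → (N → ℝ)) (hA : ∀ s x, A s x ∈ Y) (hK : ∀ s x, K s x ∈ Y)
    (hB : ∀ s x, B s x ∈ Y) (s : ℝ) (x : N → ℝ) : ft15_G A K B κ s x ∈ Y := by
  unfold ft15_G
  split_ifs
  · exact hA _ _
  · exact hK _ _
  · exact hB _ _

private theorem ft15_G_pal {X N : Type} (A K B : ℝ → (N → ℝ) → X)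
    (κ : (N → ℝ) → (N → ℝ)) (x : N → ℝ) (z : X) (hAB : ∀ s, A s (κ x) = B s (κ x))
    (hK : ∀ s, K s (κ x) = z) (hA : A 1 (κ x) = z) (s : ℝ) :
    ft15_G A K B κ s x = ft15_G A K B κ (1 - s) x := by
  unfold ft15_G
  rcases lt_trichotomy s (1 / 3) with h | h | h
  · have g1 : s ≤ 1 / 3 := h.le
    have g2 : ¬ (1 - s ≤ 1 / 3) := by intro h'; linarith
    have g3 : ¬ (1 - s ≤ 2 / 3) := by intro h'; linarith
    have e : 3 - 3 * (1 - s) = 3 * s := by ring
    rw [if_pos g1, if_neg g2, if_neg g3, e]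
    exact hAB _
  · subst h
    have g2 : ¬ ((1 : ℝ) - 1 / 3 ≤ 1 / 3) := by norm_num
    have g3 : ((1 : ℝ) - 1 / 3 ≤ 2 / 3) := by norm_num
    have e : (3 : ℝ) * (1 / 3) = 1 := by norm_num
    rw [if_pos (le_refl _), if_neg g2, if_pos g3, hK, e, hA]
  · have g1 : ¬ (s ≤ 1 / 3) := by intro h'; linarith
    rw [if_neg g1]
    rcases lt_trichotomy s (2 / 3) with h' | h' | h'
    · have g2 : s ≤ 2 / 3 := h'.le
      have g3 : ¬ (1 - s ≤ 1 / 3) := by intro h''; linarith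
      have g4 : 1 - s ≤ 2 / 3 := by linarith
      rw [if_pos g2, if_neg g3, if_pos g4, hK, hK]
    · subst h'
      have g3 : ((1 : ℝ) - 2 / 3 ≤ 1 / 3) := by norm_num
      have e : (3 : ℝ) * (1 - 2 / 3) = 1 := by norm_num
      rw [if_pos (le_refl _), if_pos g3, hK, e, hA]
    · have g2 : ¬ (s ≤ 2 / 3) := by intro h''; linarith
      have g3 : 1 - s ≤ 1 / 3 := by linarith
      have e : 3 * (1 - s) = 3 - 3 * s := by ring
      rw [if_neg g2, if_pos g3, e]
      exact (hAB _).symm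

private theorem ft15_clm_idem (α β x : ℝ) (h : α ≤ β) :
    clm α β (clm α β x) = clm α β x := by
  unfold clm
  have h1 : α ≤ max α (min x β) := le_max_left _ _
  have h2 : max α (min x β) ≤ β := max_le h (min_le_right _ _)
  rw [min_eq_left h2, max_eq_right h1]

private theorem ft15_clm_of {α β x : ℝ} (h : α ≤ x) (h' : x ≤ β) : clm α β x = x := by
  unfold clm
  rw [min_eq_left h', max_eq_right h]

/-- on the walls `x i = -M` and `x i = 2 M` the two maps agree -/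
private theorem ft15_W (M : ℕ) (u : ℝ × (N → ℝ) → (F → ℝ)) (y : N → ℝ) (i : N)
    (hi : y i = -(M : ℝ) ∨ y i = 2 * (M : ℝ)) : W0 (M : ℝ) u y = W1 (M : ℝ) u y := by
  have hM : (0 : ℝ) ≤ M := Nat.cast_nonneg M
  have h1 : (M : ℝ) ≤ ds (M : ℝ) y := by
    unfold ds
    refine le_trans ?_ (norm_le_pi_norm _ i)
    rw [Real.norm_eq_abs]
    rcases hi with hi | hi
    · have e : clm 0 (M : ℝ) (y i) = 0 := by
        unfold clm
        rw [hi, min_eq_left (by linarith), max_eq_left (by linarith)]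
      rw [e, hi, sub_zero, abs_neg, abs_of_nonneg hM]
    · have e : clm 0 (M : ℝ) (y i) = M := by
        unfold clm
        rw [hi, min_eq_right (by linarith), max_eq_right hM]
      rw [e, hi]
      have e2 : 2 * (M : ℝ) - M = M := by ring
      rw [e2, abs_of_nonneg hM]
  unfold W0 W1
  rw [min_eq_right h1]

private theorem ft15_shh (M : ℕ) (u : ℝ × (N → ℝ) → (F → ℝ)) (x : N → ℝ) (i : N)
    (hi : x i = -(M : ℝ) ∨ x i = 2 * (M : ℝ)) (s : ℝ) :
    shh (W0 (M : ℝ) u) s x = shh (W1 (M : ℝ) u) s x := by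
  unfold shh
  congr 1
  refine ft15_W M u _ i ?_
  rcases hi with hi | hi
  · left
    have e : rh (x i) = x i := by
      have e1 : x i = ((-(M : ℤ) : ℤ) : ℝ) := by rw [hi]; push_cast; rfl
      rw [e1]
      exact rh_int _
    show (1 - cl (2 * s)) * x i + cl (2 * s) * rh (x i) = _
    rw [e, hi]
    ring
  · right
    have e : rh (x i) = x i := by
      have e1 : x i = ((2 * (M : ℤ) : ℤ) : ℝ) := by rw [hi]; push_cast; rfl
      rw [e1]
      exact rh_int _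
    show (1 - cl (2 * s)) * x i + cl (2 * s) * rh (x i) = _
    rw [e, hi]
    ring

private theorem ft15_int (M : ℕ) (x : N → ℝ) (i : N)
    (hi : x i = -(M : ℝ) ∨ x i = 2 * (M : ℝ)) : ∃ i, ∃ k : ℤ, x i = k := by
  refine ⟨i, ?_⟩
  rcases hi with hi | hi
  · exact ⟨-(M : ℤ), by rw [hi]; push_cast; rfl⟩
  · exact ⟨2 * (M : ℤ), by rw [hi]; push_cast; rfl⟩

theorem ext_cls {n : ℕ} (hn : 1 ≤ n) (M : ℕ) (hM : 0 < M) (u : ℝ × (N → ℝ) → (F → ℝ))
    (hu : UU n (M : ℝ) u)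
    (h : ∏ c ∈ Fintype.piFinset (fun _ : N => Finset.Ico 0 (M : ℤ)),
        cls (yb F n) (cel (fun x => u ((M : ℝ), fun i => (c i : ℝ) + x i))) =
      (∏ c ∈ Fintype.piFinset (fun _ : N => Finset.Ico 0 (M : ℤ)),
        cls (yb F n) (cel (fun x => u ((0 : ℝ), fun i => (c i : ℝ) + x i)))) *
      ∏ i : N, ∏ c ∈ Fintype.piFinset (fun _ : N => Finset.Ico 0 (M : ℤ)),
        (cls (yb F n) (cel (fun x =>
            u ((c i : ℝ) + x i, Function.update (fun k => (c k : ℝ) + x k) i (M : ℝ)))) *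
          (cls (yb F n) (cel (fun x =>
            u ((c i : ℝ) + x i, Function.update (fun k => (c k : ℝ) + x k) i (0 : ℝ)))))⁻¹)) :
    ∃ U : ℝ × (N → ℝ) → (F → ℝ), ContinuousOn U (Bx N (M : ℝ)) ∧
      (∀ p ∈ Bx N (M : ℝ), U p ∈ Yk F n) ∧ ∀ p ∈ Sx N (M : ℝ), U p = u p := by
  have hM' : (0 : ℝ) < M := Nat.cast_pos.mpr hM
  have hc : cls (yb F n) (hat (M : ℝ) (W0 (M : ℝ) u)) =
      cls (yb F n) (hat (M : ℝ) (W1 (M : ℝ) u)) := by
    rw [cls_W0 hn M hM u hu, cls_W1 hn M hM u hu, h]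
  have hW0 := W0_ww M hM u hu
  have hW1 := W1_ww M hM u hu
  obtain ⟨K, hKc, hK0, hK1, hKm, hKo⟩ := hom_of_cls (yb F n) (-(M : ℝ)) (2 * (M : ℝ))
    (by linarith) _ _ (hat_lp hn M hM _ hW0) (hat_lp hn M hM _ hW1) hc
  have hle : -(M : ℝ) ≤ 2 * (M : ℝ) := by linarith
  have hκc : Continuous (fun x : N → ℝ => fun i => clm (-(M : ℝ)) (2 * (M : ℝ)) (x i)) := by
    unfold clm
    fun_prop
  have hκ : ∀ x : N → ℝ, (∀ i, -(M : ℝ) ≤ x i ∧ x i ≤ 2 * M) →
      (fun i => clm (-(M : ℝ)) (2 * (M : ℝ)) (x i)) = x := fun x hx =>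
    funext fun i => ft15_clm_of (hx i).1 (hx i).2
  have hidem : ∀ (W : (N → ℝ) → (F → ℝ)) (x : N → ℝ),
      hat (M : ℝ) W (fun i => clm (-(M : ℝ)) (2 * (M : ℝ)) (x i)) =
        shp W (fun i => clm (-(M : ℝ)) (2 * (M : ℝ)) (x i)) := by
    intro W x
    unfold hat
    congr 1
    funext i
    exact ft15_clm_idem _ _ _ hle
  refine ext_pal (Yk F n) (M : ℝ) hM' u hu.con hu.mem
    (ft15_G (shh (W0 (M : ℝ) u)) K (shh (W1 (M : ℝ) u))
      (fun x i => clm (-(M : ℝ)) (2 * (M : ℝ)) (x i))) ?_ ?_ ?_ ?_ ?_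
  · refine ft15_G_cont _ _ _ _ (shh_continuous _ hW0) hKc (shh_continuous _ hW1) hκc ?_ ?_
    · intro x
      rw [shh_one, hK0, hidem]
    · intro x
      rw [shh_one, hK1, hidem]
  · intro s _ x
    exact ft15_G_mem _ _ _ _ _ (fun s x => shh_mem hn _ hW0 s x) hKm
      (fun s x => shh_mem hn _ hW1 s x) s x
  · intro x hx
    unfold ft15_G
    beta_reduce
    rw [if_pos (by norm_num), hκ x hx, mul_zero, shh_zero]
    rfl
  · intro x hx
    unfold ft15_G
    beta_reduce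
    rw [if_neg (by norm_num), if_neg (by norm_num), hκ x hx]
    have e : (3 : ℝ) - 3 * 1 = 0 := by norm_num
    rw [e, shh_zero]
    rfl
  · rintro s _ x hx ⟨i, hi⟩
    have e := hκ x hx
    refine ft15_G_pal _ _ _ _ x 0 ?_ ?_ ?_ s
    · intro s
      rw [e]
      exact ft15_shh M u x i hi s
    · intro s
      rw [e]
      refine hKo s x ⟨i, ?_⟩
      rcases hi with hi | hi
      · exact Or.inl hi.le
      · exact Or.inr hi.ge
    · rw [e, shh_one]
      exact shp_wall _ _ (ft15_int M x i hi)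

end AGE
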