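import Pool.Agent.AGE.Defs
import Pool.Agent.AGE.FTD
import Pool.Agent.AGE.FTE
import Pool.Agent.AGE.FDD
import Pool.Agent.AGE.C5
import Pool.Agent.AGE.C6b
import Pool.Agent.AGE.C7a
import Pool.Agent.AGE.FT13
import Pool.Agent.AGE.FT15
import Pool.Agent.AGE.FD2
import Pool.Agent.AGE.FD6a
import Pool.Agent.AGE.FD6c
import Pool.Agent.AGE.FD7

/-!
# AGE-FD8 (file FILLP.lean): the filling theorem

The classes of the boundary cells cancel because the push of the subdivided boundary of the unit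
cube is zero; hence the realization extends over the box, and the extension gives the vertex map.
-/

set_option autoImplicit false

noncomputable section

namespace AGE

variable {V J : Type} [LinearOrder V] [LinearOrder J]

omit [LinearOrder V] in
private theorem FILLP_reindex {n : ℕ} {A : Type} [AddCommMonoid A] (M : ℕ) (σ : Equiv.Perm (Fin n))
    (f : (Fin n → ℤ) → A) :
    ∑ c ∈ Fintype.piFinset (fun _ : Fin n => Finset.Ico 0 (M : ℤ)), f (fun k => c (σ.symm k)) =
      ∑ c ∈ Fintype.piFinset (fun _ : Fin n => Finset.Ico 0 (M : ℤ)), f c := by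
  refine Finset.sum_nbij' (fun c k => c (σ.symm k)) (fun c k => c (σ k)) ?_ ?_ ?_ ?_ ?_
  · intro c hc
    rw [Fintype.mem_piFinset] at hc ⊢
    exact fun k => hc _
  · intro c hc
    rw [Fintype.mem_piFinset] at hc ⊢
    exact fun k => hc _
  · intro c _
    funext k
    simp
  · intro c _
    funext k
    simp
  · intro c _
    rfl

theorem fill' (n : ℕ) (hn : 2 ≤ n) (M : ℕ) (hM : 0 < M) (t : Cube J)
    (g : (Fin (n + 1) → ℤ) → (J → ℤ))
    (hg : Cel (Grd M (Sk n (Faces (ucube (n + 1))))) (Faces t) g)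
    (hA : Ax (Grd M (Sk n (Faces (ucube (n + 1))))) g)
    (φ : Ch (Fin (n + 1)) →ₗ[ℤ] Ch J)
    (hφ : Push (Grd M (Sk n (Faces (ucube (n + 1))))) (Spn g) g φ)
    (h0 : φ (sub M (bd (one (ucube (n + 1))))) = 0) : Fills n M t g := by
  haveI : Nontrivial (Fin n) := Fin.nontrivial_iff_two_le.2 hn
  have hn1 : 1 ≤ n := by omega
  have hmem : ∀ c ∈ Fintype.piFinset (fun _ : Fin n => Finset.Ico 0 (M : ℤ)),
      ∀ k, 0 ≤ c k ∧ c k < M := by
    intro c hc k
    rw [Fintype.mem_piFinset] at hc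
    exact Finset.mem_Ico.1 (hc k)
  have key : ∑ p : Fin (n + 1), (-1 : ℤ) ^ (p : ℕ) •
      ∑ c ∈ Fintype.piFinset (fun _ : Fin n => Finset.Ico 0 (M : ℤ)),
        (Additive.ofMul (cls (yb {j // j ∈ t.fr} n) (cel (wc n t g p (M : ℤ) c))) -
          Additive.ofMul (cls (yb {j // j ∈ t.fr} n) (cel (wc n t g p 0 c)))) = 0 := by
    have h1 := congrArg (XX n t) h0
    rw [sub_bd_ucube n M hM, map_sum, map_sum, map_zero] at h1
    rw [← h1]
    refine Finset.sum_congr rfl fun p _ => ?_
    rw [map_smul, map_smul, map_sum, map_sum]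
    congr 1
    refine Finset.sum_congr rfl fun c hc => ?_
    rw [map_sub, map_sub, ← cls_cell n M hM hn1 t g hg hA φ hφ p (M : ℤ) (Or.inr rfl) c (hmem c hc),
      ← cls_cell n M hM hn1 t g hg hA φ hφ p 0 (Or.inl rfl) c (hmem c hc)]
  rw [Fin.sum_univ_succ] at key
  have htop : ∀ c : Fin n → ℤ, (fun x : Fin n → ℝ => uu n t g ((M : ℝ), fun i => (c i : ℝ) + x i)) =
      wc n t g 0 (M : ℤ) c := by
    intro c
    funext x j
    simp only [uu, wc, Fin.insertNth_zero', Int.cast_natCast]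
  have hbot : ∀ c : Fin n → ℤ, (fun x : Fin n → ℝ => uu n t g ((0 : ℝ), fun i => (c i : ℝ) + x i)) =
      wc n t g 0 0 c := by
    intro c
    funext x j
    simp only [uu, wc, Fin.insertNth_zero', Int.cast_zero]
  have hup : ∀ (i : Fin n), ∀ c ∈ Fintype.piFinset (fun _ : Fin n => Finset.Ico 0 (M : ℤ)),
      Additive.ofMul (cls (yb {j // j ∈ t.fr} n) (cel (fun x => uu n t g ((c i : ℝ) + x i,
        Function.update (fun k => (c k : ℝ) + x k) i (M : ℝ))))) =
      (-1 : ℤ) ^ (i : ℕ) • Additive.ofMul (cls (yb {j // j ∈ t.fr} n) (cel (wc n t g i.succ (M : ℤ)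
        (fun k => c (i.cycleRange.symm k))))) := by
    intro i c hc
    have h := side_cls n M hM hn1 t g hg i (M : ℤ) (Or.inr rfl) c (hmem c hc)
    simp only [Int.cast_natCast] at h
    rw [h, ofMul_zpow]
  have hdn : ∀ (i : Fin n), ∀ c ∈ Fintype.piFinset (fun _ : Fin n => Finset.Ico 0 (M : ℤ)),
      Additive.ofMul (cls (yb {j // j ∈ t.fr} n) (cel (fun x => uu n t g ((c i : ℝ) + x i,
        Function.update (fun k => (c k : ℝ) + x k) i (0 : ℝ))))) =
      (-1 : ℤ) ^ (i : ℕ) • Additive.ofMul (cls (yb {j // j ∈ t.fr} n) (cel (wc n t g i.succ 0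
        (fun k => c (i.cycleRange.symm k))))) := by
    intro i c hc
    have h := side_cls n M hM hn1 t g hg i 0 (Or.inl rfl) c (hmem c hc)
    simp only [Int.cast_zero] at h
    rw [h, ofMul_zpow]
  obtain ⟨U, hU, hUY, hUu⟩ := ext_cls hn1 M hM (uu n t g) (uu_good n M hM hn1 t g hg) (by
    apply Additive.ofMul.injective
    rw [ofMul_mul, ofMul_prod, ofMul_prod, ofMul_prod]
    simp only [htop, hbot]
    have hside : ∀ i : Fin n, Additive.ofMul
        (∏ c ∈ Fintype.piFinset (fun _ : Fin n => Finset.Ico 0 (M : ℤ)),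
        (cls (yb {j // j ∈ t.fr} n) (cel (fun x =>
            uu n t g ((c i : ℝ) + x i, Function.update (fun k => (c k : ℝ) + x k) i (M : ℝ)))) *
          (cls (yb {j // j ∈ t.fr} n) (cel (fun x =>
            uu n t g ((c i : ℝ) + x i, Function.update (fun k => (c k : ℝ) + x k) i (0 : ℝ)))))⁻¹)) =
        (-1 : ℤ) ^ (i : ℕ) • ∑ c ∈ Fintype.piFinset (fun _ : Fin n => Finset.Ico 0 (M : ℤ)),
        (Additive.ofMul (cls (yb {j // j ∈ t.fr} n) (cel (wc n t g i.succ (M : ℤ) c))) -
          Additive.ofMul (cls (yb {j // j ∈ t.fr} n) (cel (wc n t g i.succ 0 c)))) := by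
      intro i
      rw [ofMul_prod, ← FILLP_reindex M i.cycleRange (fun c =>
        Additive.ofMul (cls (yb {j // j ∈ t.fr} n) (cel (wc n t g i.succ (M : ℤ) c))) -
          Additive.ofMul (cls (yb {j // j ∈ t.fr} n) (cel (wc n t g i.succ 0 c)))),
        Finset.smul_sum]
      refine Finset.sum_congr rfl fun c hc => ?_
      rw [ofMul_mul, ofMul_inv, hup i c hc, hdn i c hc, smul_sub, sub_eq_add_neg]
    rw [Finset.sum_congr rfl fun i _ => hside i]
    rw [Finset.sum_sub_distrib] at key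
    simp only [Fin.val_zero, pow_zero, one_smul, Fin.val_succ, pow_succ, mul_neg, mul_one, neg_smul,
      Finset.sum_neg_distrib] at key
    rw [← sub_eq_add_neg, sub_eq_zero, sub_eq_iff_eq_add'] at key
    exact key)
  exact fill_of_ext n M hM hn1 t g hg U hU hUY hUu

end AGE
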