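import Pool.Agent.AGE.Defs

/-!
# Project AGE, layers LOOP and GEO1: definitions
-/

set_option autoImplicit false

noncomputable section

namespace AGE

variable {V J : Type} [LinearOrder V] [LinearOrder J]


/-- affine embedding of lattice points: the coordinate `e i` is `a (e i) + v i`, the others are
those of `a` -/
def embP {W : Type} (e : W → V) (a : V → ℤ) (v : W → ℤ) : V → ℤ :=
  fun j => a j + Function.extend e v 0 j

/-- affine embedding of cubes -/
def emb {W : Type} [LinearOrder W] (e : W ↪o V) (a : V → ℤ) (Q : Cube W) : Cube V :=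
  ⟨embP e a Q.lo, Q.fr.map e.toEmbedding⟩

/-- affine embedding of chains -/
def embC {W : Type} [LinearOrder W] (e : W ↪o V) (a : V → ℤ) : Ch W →ₗ[ℤ] Ch V :=
  Finsupp.linearCombination ℤ (fun Q => one (emb e a Q))

/-- `g` is axial on the cube `Q` -/
def AxAt (g : (V → ℤ) → (J → ℤ)) (Q : Cube V) : Prop :=
  ∀ i ∈ Q.fr, ∃ j, ∀ v, Q.Has v → ∀ k, k ≠ j →
    g (Function.update v i (Q.lo i + 1)) k = g (Function.update v i (Q.lo i)) k

/-- the top dimensional cube of `ℤ^n` with lowest vertex `c` -/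
def tc (n : ℕ) (c : Fin n → ℤ) : Cube (Fin n) := ⟨c, Finset.univ⟩

/-- loop data: a cellular axial map `om` of `ℤ^n` to the cube `t`, equal to `b` outside of the
open box `(0, L)^n`, with total push `z` -/
structure LoopD (n : ℕ) (t : Cube J) (b : J → ℤ) (z : Ch J) (L : ℕ)
    (om : (Fin n → ℤ) → (J → ℤ)) (φ : Ch (Fin n) →ₗ[ℤ] Ch J) : Prop where
  pos : 0 < L
  vmp : VMap Set.univ (Faces t) om
  axi : Ax Set.univ om
  psh : Push Set.univ (Spn om) om φ
  out : ∀ v, (∃ i, v i ≤ 0 ∨ (L : ℤ) ≤ v i) → om v = b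
  val : φ (sub L (one (ucube n))) = z

/-- `z` is the push of a loop at `b` in `t` -/
def IsLoop (n : ℕ) (t : Cube J) (b : J → ℤ) (z : Ch J) : Prop :=
  ∃ (L : ℕ) (om : (Fin n → ℤ) → (J → ℤ)) (φ : Ch (Fin n) →ₗ[ℤ] Ch J), LoopD n t b z L om φ

/-- the point `v` is in the box `[n + 1 - m, n + 2 + m]^n` -/
def InBx (n : ℕ) (m : ℕ) (v : Fin n → ℤ) : Prop :=
  ∀ i, (n : ℤ) + 1 - m ≤ v i ∧ v i ≤ (n : ℤ) + 2 + m

/-- the bubble over the `(n+1)`-cube `P`: the coordinate of rank `r < n` of `P` is raised on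
`InBx n (r + 1)` where `v r ≥ n + 2` (`v r ≤ n + 1` if `r = 0` and `s = false`), the one of rank
`n` on `InBx n 0` -/
def bub (n : ℕ) (P : Cube J) (s : Bool) (v : Fin n → ℤ) (j : J) : ℤ :=
  open Classical in
  P.lo j + (if j ∈ P.fr then
    (if h : (P.fr.filter (· < j)).card < n then
      (if InBx n ((P.fr.filter (· < j)).card + 1) v ∧
          (if (P.fr.filter (· < j)).card = 0 ∧ s = false then
            v ⟨(P.fr.filter (· < j)).card, h⟩ ≤ (n : ℤ) + 1
          else (n : ℤ) + 2 ≤ v ⟨(P.fr.filter (· < j)).card, h⟩) then 1 else 0)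
    else (if InBx n 0 v then 1 else 0)) else 0)

end AGE
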