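import Pool.Agent.AGE.Defs
import Pool.Agent.AGE.C1a
import Pool.Agent.AGE.C1b
import Pool.Agent.AGE.C5
import Pool.Agent.AGE.C6a
import Pool.Agent.AGE.LPD

/-!
# AGE-LP1: affine embeddings of cubes

Plan. `e` is injective and strictly monotone (`OrderEmbedding`). `Function.extend e v 0 (e i) = v i` (`Function.Injective.extend_apply`), `= 0` off the range (`Function.extend_apply'`). `emb_hi`: `(emb e a Q).hi (e i) = a (e i) + Q.hi i`, `= a j` off the range. `emb_has`: for `w` in
the image cube take `v i = w (e i) - a (e i)`. `emb_up`: `Function.update` and `Finset.map_erase`. `embC_bd`: on `one Q` with `bd_one`: `sg (fr.map e) (e i) = sg fr i` (the elements of `fr.map e` below `e i` are the images of those below `i`). `embC_sub`: compare the two sums of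
`subQ` (reindex the functions on `{j // j ∈ (fr.map e)}` by those on `{i // i ∈ fr}`) or compare coefficients with `sub_one_apply`. `emb_inM`: coordinatewise. `embC_mem`: on supported chains (`Submodule.sum_mem`, `Finsupp.mem_supported`).
`spn_emb`: `emb_has`. `push_emb`: fields: `vtx`: `emb e a (pt v) = pt (embP e a v)`; `car`: `spn_emb`, `emb_dim`; `chn`: `embC_bd`. `axAt_emb`: `embP e a (Function.update v i x) = Function.update (embP e a v) (e i) (a (e i) + x)`.
Cells: `c : Cube V` with `c.dim = m`, `e = c.fr.orderEmbOfFin h` (`Finset.range_orderEmbOfFin`: the range is `c.fr`). `cell_ucube`: `emb e c.lo (ucube m) = c`. `cell_inM`: for `R.InM M c` take `Q = ⟨fun i => R.lo (e i) - M * c.lo (e i), R.fr.preimage e⟩` (`R.fr ⊆ c.fr` because off `c.fr` `R.lo = R.hi`).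
`cell_faces`: `cell_inM` with `M = 1`.
-/

set_option autoImplicit false

noncomputable section

namespace AGE

variable {W V J : Type} [LinearOrder W] [LinearOrder V] [LinearOrder J]

theorem embP_apply (e : W ↪o V) (a : V → ℤ) (v : W → ℤ) (i : W) :
    embP e a v (e i) = a (e i) + v i := by
  unfold embP
  rw [e.injective.extend_apply]

theorem embP_off (e : W ↪o V) (a : V → ℤ) (v : W → ℤ) (j : V) (hj : ∀ i, e i ≠ j) :
    embP e a v j = a j := by
  unfold embP
  rw [Function.extend_apply' _ _ _ (fun h => h.elim fun i hi => hj i hi)]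
  simp

private theorem cases_range (e : W ↪o V) (j : V) : (∃ i, e i = j) ∨ (∀ i, e i ≠ j) := by
  by_cases h : ∃ i, e i = j
  · exact Or.inl h
  · exact Or.inr fun i hi => h ⟨i, hi⟩

private theorem emb_lo_at (e : W ↪o V) (a : V → ℤ) (Q : Cube W) (i : W) :
    (emb e a Q).lo (e i) = a (e i) + Q.lo i := embP_apply e a Q.lo i

private theorem emb_lo_off (e : W ↪o V) (a : V → ℤ) (Q : Cube W) (j : V) (hj : ∀ i, e i ≠ j) :
    (emb e a Q).lo j = a j := embP_off e a Q.lo j hj

private theorem emb_fr_at (e : W ↪o V) (a : V → ℤ) (Q : Cube W) (i : W) :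
    e i ∈ (emb e a Q).fr ↔ i ∈ Q.fr := by
  show e i ∈ Q.fr.map e.toEmbedding ↔ i ∈ Q.fr
  exact Finset.mem_map' e.toEmbedding

private theorem emb_fr_off (e : W ↪o V) (a : V → ℤ) (Q : Cube W) (j : V) (hj : ∀ i, e i ≠ j) :
    j ∉ (emb e a Q).fr := by
  intro h
  have h' : j ∈ Q.fr.map e.toEmbedding := h
  rw [Finset.mem_map] at h'
  obtain ⟨i, _, hi⟩ := h'
  exact hj i hi

theorem emb_hi (e : W ↪o V) (a : V → ℤ) (Q : Cube W) (i : W) :
    (emb e a Q).hi (e i) = a (e i) + Q.hi i := by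
  unfold Cube.hi
  by_cases h : i ∈ Q.fr
  · rw [if_pos ((emb_fr_at e a Q i).2 h), if_pos h, emb_lo_at, add_assoc]
  · rw [if_neg (fun h' => h ((emb_fr_at e a Q i).1 h')), if_neg h, emb_lo_at]

private theorem emb_hi_off (e : W ↪o V) (a : V → ℤ) (Q : Cube W) (j : V) (hj : ∀ i, e i ≠ j) :
    (emb e a Q).hi j = a j := by
  unfold Cube.hi
  rw [if_neg (emb_fr_off e a Q j hj), emb_lo_off e a Q j hj]

theorem emb_has (e : W ↪o V) (a : V → ℤ) (Q : Cube W) (w : V → ℤ) :
    (emb e a Q).Has w ↔ ∃ v, Q.Has v ∧ embP e a v = w := by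
  constructor
  · intro h
    refine ⟨fun i => w (e i) - a (e i), fun i => ?_, ?_⟩
    · have h1 := h (e i)
      rw [emb_lo_at, emb_hi] at h1
      show Q.lo i ≤ w (e i) - a (e i) ∧ w (e i) - a (e i) ≤ Q.hi i
      constructor
      · linarith [h1.1]
      · linarith [h1.2]
    · funext j
      rcases cases_range e j with ⟨i, rfl⟩ | hj
      · rw [embP_apply]
        ring
      · rw [embP_off e a _ j hj]
        have h1 := h j
        rw [emb_lo_off e a Q j hj, emb_hi_off e a Q j hj] at h1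
        exact le_antisymm h1.1 h1.2
  · rintro ⟨v, hv, rfl⟩ j
    rcases cases_range e j with ⟨i, rfl⟩ | hj
    · rw [emb_lo_at, emb_hi, embP_apply]
      constructor
      · linarith [(hv i).1]
      · linarith [(hv i).2]
    · rw [emb_lo_off e a Q j hj, emb_hi_off e a Q j hj, embP_off e a _ j hj]
      exact ⟨le_rfl, le_rfl⟩

theorem emb_dim (e : W ↪o V) (a : V → ℤ) (Q : Cube W) : (emb e a Q).dim = Q.dim :=
  Finset.card_map e.toEmbedding

theorem emb_inj (e : W ↪o V) (a : V → ℤ) {Q Q' : Cube W} (h : emb e a Q = emb e a Q') :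
    Q = Q' := by
  refine Cube.ext (funext fun i => ?_) ?_
  · have h1 := emb_lo_at e a Q i
    rw [h, emb_lo_at] at h1
    linarith
  · have h1 : Q.fr.map e.toEmbedding = Q'.fr.map e.toEmbedding := congrArg Cube.fr h
    exact Finset.map_injective _ h1

theorem emb_le (e : W ↪o V) (a : V → ℤ) {Q P : Cube W} (h : Q.Le P) :
    (emb e a Q).Le (emb e a P) := by
  intro j
  rcases cases_range e j with ⟨i, rfl⟩ | hj
  · rw [emb_lo_at, emb_lo_at, emb_hi, emb_hi]
    exact ⟨by linarith [(h i).1], by linarith [(h i).2]⟩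
  · rw [emb_lo_off e a _ j hj, emb_lo_off e a _ j hj, emb_hi_off e a _ j hj,
      emb_hi_off e a _ j hj]
    exact ⟨le_rfl, le_rfl⟩

theorem emb_inM (e : W ↪o V) (a : V → ℤ) (M : ℕ) {Q P : Cube W} (h : Q.InM M P) :
    (emb e (fun j => (M : ℤ) * a j) Q).InM M (emb e a P) := by
  intro j
  rcases cases_range e j with ⟨i, rfl⟩ | hj
  · rw [emb_lo_at, emb_lo_at, emb_hi, emb_hi, mul_add, mul_add]
    exact ⟨by linarith [(h i).1], by linarith [(h i).2]⟩
  · rw [emb_lo_off e _ _ j hj, emb_lo_off e _ _ j hj, emb_hi_off e _ _ j hj,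
      emb_hi_off e _ _ j hj]
    exact ⟨le_rfl, le_rfl⟩

theorem embC_one (e : W ↪o V) (a : V → ℤ) (Q : Cube W) : embC e a (one Q) = one (emb e a Q) := by
  unfold embC
  conv_lhs => rw [one]
  rw [Finsupp.linearCombination_single, one_smul]

private theorem sg_map (e : W ↪o V) (s : Finset W) (i : W) :
    sg (s.map e.toEmbedding) (e i) = sg s i := by
  unfold sg
  congr 1
  rw [Finset.filter_map, Finset.card_map]
  congr 1
  ext x
  simp only [Finset.mem_filter, Function.comp_apply]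
  constructor
  · rintro ⟨h1, h2⟩
    exact ⟨h1, e.lt_iff_lt.1 h2⟩
  · rintro ⟨h1, h2⟩
    exact ⟨h1, e.lt_iff_lt.2 h2⟩

private theorem embP_update (e : W ↪o V) (a : V → ℤ) (v : W → ℤ) (i : W) (x : ℤ) :
    Function.update (embP e a v) (e i) (a (e i) + x) = embP e a (Function.update v i x) := by
  funext j
  rcases cases_range e j with ⟨k, rfl⟩ | hj
  · rw [embP_apply]
    by_cases h : k = i
    · subst h
      rw [Function.update_self, Function.update_self]
    · rw [Function.update_of_ne h, Function.update_of_ne (fun h' => h (e.injective h')),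
        embP_apply]
  · rw [embP_off e a _ j hj, Function.update_of_ne (fun h' => hj i h'.symm),
      embP_off e a _ j hj]

private theorem erase_map' (e : W ↪o V) (s : Finset W) (i : W) :
    (s.map e.toEmbedding).erase (e i) = (s.erase i).map e.toEmbedding := by
  ext j
  rw [Finset.mem_erase, Finset.mem_map, Finset.mem_map]
  constructor
  · rintro ⟨h1, k, hk, rfl⟩
    exact ⟨k, Finset.mem_erase.2 ⟨fun h => h1 (by rw [h]; rfl), hk⟩, rfl⟩
  · rintro ⟨k, hk, rfl⟩
    exact ⟨fun h => (Finset.mem_erase.1 hk).1 (e.injective h), k, (Finset.mem_erase.1 hk).2, rfl⟩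

private theorem emb_up (e : W ↪o V) (a : V → ℤ) (Q : Cube W) (i : W) :
    (emb e a Q).up (e i) = emb e a (Q.up i) := by
  refine Cube.ext ?_ ?_
  · show Function.update (embP e a Q.lo) (e i) (embP e a Q.lo (e i) + 1) =
      embP e a (Function.update Q.lo i (Q.lo i + 1))
    rw [embP_apply, add_assoc, embP_update]
  · exact erase_map' e Q.fr i

private theorem emb_dn (e : W ↪o V) (a : V → ℤ) (Q : Cube W) (i : W) :
    (emb e a Q).dn (e i) = emb e a (Q.dn i) :=
  Cube.ext rfl (erase_map' e Q.fr i)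

private theorem lin_ext (A B : Ch W →ₗ[ℤ] Ch V) (h : ∀ Q, A (one Q) = B (one Q)) (x : Ch W) :
    A x = B x := by
  have hAB : A = B := by
    refine Finsupp.lhom_ext fun Q c => ?_
    have e : (Finsupp.single Q c : Ch W) = c • one Q := by
      unfold one
      rw [Finsupp.smul_single, smul_eq_mul, mul_one]
    rw [e, map_smul, map_smul, h]
  rw [hAB]

theorem embC_bd (e : W ↪o V) (a : V → ℤ) (x : Ch W) : bd (embC e a x) = embC e a (bd x) := by
  refine lin_ext (bd ∘ₗ embC e a) (embC e a ∘ₗ bd) (fun Q => ?_) x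
  rw [LinearMap.comp_apply, LinearMap.comp_apply, embC_one, bd_one, bd_one]
  unfold bdQ
  rw [map_sum]
  show ∑ j ∈ Q.fr.map e.toEmbedding, sg (Q.fr.map e.toEmbedding) j •
    (one ((emb e a Q).up j) - one ((emb e a Q).dn j)) = _
  rw [Finset.sum_map]
  refine Finset.sum_congr rfl fun i _ => ?_
  show sg (Q.fr.map e.toEmbedding) (e i) •
    (one ((emb e a Q).up (e i)) - one ((emb e a Q).dn (e i))) = _
  rw [sg_map, emb_up, emb_dn, map_smul, map_sub, embC_one, embC_one]

private def mapEq (e : W ↪o V) (s : Finset W) :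
    {i // i ∈ s} ≃ {j // j ∈ s.map e.toEmbedding} :=
  Equiv.ofBijective (fun x => ⟨e x.1, Finset.mem_map_of_mem _ x.2⟩)
    ⟨fun x y h => Subtype.ext (e.injective (congrArg Subtype.val h)), fun y => by
      obtain ⟨y, hy⟩ := y
      obtain ⟨i, hi, rfl⟩ := Finset.mem_map.1 hy
      exact ⟨⟨i, hi⟩, rfl⟩⟩

private theorem sub_one' {U : Type} [LinearOrder U] (M : ℕ) (Q : Cube U) :
    sub M (one Q) = subQ M Q := by
  unfold sub one
  rw [Finsupp.linearCombination_single, one_smul]

theorem embC_sub (e : W ↪o V) (a : V → ℤ) (M : ℕ) (hM : 0 < M) (x : Ch W) :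
    sub M (embC e a x) = embC e (fun j => (M : ℤ) * a j) (sub M x) := by
  refine lin_ext (sub M ∘ₗ embC e a) (embC e (fun j => (M : ℤ) * a j) ∘ₗ sub M) (fun Q => ?_) x
  rw [LinearMap.comp_apply, LinearMap.comp_apply, embC_one, sub_one', sub_one']
  unfold subQ
  rw [map_sum]
  refine Finset.sum_nbij' (fun k x => k (mapEq e Q.fr x)) (fun k y => k ((mapEq e Q.fr).symm y))
    ?_ ?_ ?_ ?_ ?_
  · intro k hk
    rw [Fintype.mem_piFinset] at hk ⊢
    exact fun x => hk _
  · intro k hk
    rw [Fintype.mem_piFinset] at hk ⊢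
    exact fun x => hk _
  · intro k _
    funext y
    exact congrArg k ((mapEq e Q.fr).apply_symm_apply y)
  · intro k _
    funext y
    exact congrArg k ((mapEq e Q.fr).symm_apply_apply y)
  · intro k _
    rw [embC_one]
    congr 1
    refine Cube.ext (funext fun j => ?_) rfl
    rcases cases_range e j with ⟨i, rfl⟩ | hj
    · rw [emb_lo_at]
      show (M : ℤ) * (emb e a Q).lo (e i) + (if h : e i ∈ (emb e a Q).fr then
        (k ⟨e i, h⟩ : ℤ) else 0) = (M : ℤ) * a (e i) + ((M : ℤ) * Q.lo i +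
          (if h : i ∈ Q.fr then (k (mapEq e Q.fr ⟨i, h⟩) : ℤ) else 0))
      rw [emb_lo_at, mul_add, add_assoc]
      congr 2
      by_cases h : i ∈ Q.fr
      · rw [dif_pos h, dif_pos ((emb_fr_at e a Q i).2 h)]
        rfl
      · rw [dif_neg h, dif_neg (fun h' => h ((emb_fr_at e a Q i).1 h'))]
    · rw [emb_lo_off e _ _ j hj]
      show (M : ℤ) * (emb e a Q).lo j + (if h : j ∈ (emb e a Q).fr then
        (k ⟨j, h⟩ : ℤ) else 0) = (M : ℤ) * a j
      rw [dif_neg (emb_fr_off e a Q j hj), emb_lo_off e _ _ j hj, add_zero]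

theorem spn_emb (e : W ↪o V) (a : V → ℤ) (g : (V → ℤ) → (J → ℤ)) (Q : Cube W) :
    Spn (g ∘ embP e a) Q = Spn g (emb e a Q) := by
  ext P
  constructor
  · intro h S hS
    exact h S fun v hv => hS _ ((emb_has e a Q _).2 ⟨v, hv, rfl⟩)
  · intro h S hS
    refine h S fun w hw => ?_
    obtain ⟨v, hv, rfl⟩ := (emb_has e a Q _).1 hw
    exact hS v hv

theorem push_emb (e : W ↪o V) (a : V → ℤ) (K : Set (Cube V)) (K' : Set (Cube W))
    (hK : ∀ Q ∈ K', emb e a Q ∈ K) (g : (V → ℤ) → (J → ℤ)) (φ : Ch V →ₗ[ℤ] Ch J)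
    (h : Push K (Spn g) g φ) : Push K' (Spn (g ∘ embP e a)) (g ∘ embP e a) (φ ∘ₗ embC e a) := by
  refine ⟨fun v hv => ?_, fun c hc => ?_, fun c hc => ?_⟩
  · have e1 : emb e a (pt v) = pt (embP e a v) := Cube.ext rfl (Finset.map_empty _)
    rw [LinearMap.comp_apply, embC_one, e1]
    exact h.vtx _ (e1 ▸ hK _ hv)
  · rw [LinearMap.comp_apply, embC_one, spn_emb, ← emb_dim e a c]
    exact h.car _ (hK c hc)
  · rw [LinearMap.comp_apply, LinearMap.comp_apply, ← embC_bd, embC_one]
    exact h.chn _ (hK c hc)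

theorem axAt_emb (e : W ↪o V) (a : V → ℤ) (g : (V → ℤ) → (J → ℤ)) (Q : Cube W) :
    AxAt (g ∘ embP e a) Q ↔ AxAt g (emb e a Q) := by
  have key : ∀ (v : W → ℤ) (i : W) (k : J),
      ((g ∘ embP e a) (Function.update v i (Q.lo i + 1)) k =
        (g ∘ embP e a) (Function.update v i (Q.lo i)) k) ↔
      (g (Function.update (embP e a v) (e i) ((emb e a Q).lo (e i) + 1)) k =
        g (Function.update (embP e a v) (e i) ((emb e a Q).lo (e i))) k) := by
    intro v i k
    rw [emb_lo_at, add_assoc, embP_update, embP_update, Function.comp_apply, Function.comp_apply]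
  constructor
  · intro h x hx
    rcases cases_range e x with ⟨i, rfl⟩ | hj
    · obtain ⟨j, hj⟩ := h i ((emb_fr_at e a Q i).1 hx)
      refine ⟨j, fun w hw k hk => ?_⟩
      obtain ⟨v, hv, rfl⟩ := (emb_has e a Q _).1 hw
      exact (key v i k).1 (hj v hv k hk)
    · exact absurd hx (emb_fr_off e a Q x hj)
  · intro h i hi
    obtain ⟨j, hj⟩ := h (e i) ((emb_fr_at e a Q i).2 hi)
    exact ⟨j, fun v hv k hk =>
      (key v i k).2 (hj _ ((emb_has e a Q _).2 ⟨v, hv, rfl⟩) k hk)⟩

private theorem mem_cell {m : ℕ} (c : Cube V) (h : c.fr.card = m) (j : V) :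
    j ∈ c.fr ↔ ∃ i, c.fr.orderEmbOfFin h i = j := by
  constructor
  · intro hj
    have h1 : j ∈ Set.range (c.fr.orderEmbOfFin h) := by
      rw [Finset.range_orderEmbOfFin]
      exact hj
    exact h1
  · rintro ⟨i, rfl⟩
    exact Finset.orderEmbOfFin_mem _ _ _

theorem cell_ucube {m : ℕ} (c : Cube V) (h : c.fr.card = m) :
    emb (c.fr.orderEmbOfFin h) c.lo (ucube m) = c := by
  refine Cube.ext (funext fun j => ?_) ?_
  · rcases cases_range (c.fr.orderEmbOfFin h) j with ⟨i, hi⟩ | hj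
    · rw [← hi, emb_lo_at]
      show c.lo _ + 0 = c.lo _
      rw [add_zero]
    · exact emb_lo_off _ _ _ j hj
  · ext j
    rcases cases_range (c.fr.orderEmbOfFin h) j with ⟨i, hi⟩ | hj
    · rw [← hi, emb_fr_at]
      constructor
      · intro _
        exact Finset.orderEmbOfFin_mem _ _ _
      · intro _
        exact Finset.mem_univ i
    · constructor
      · intro h'
        exact absurd h' (emb_fr_off _ _ _ j hj)
      · intro h'
        obtain ⟨i, hi⟩ := (mem_cell c h j).1 h'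
        exact absurd hi (hj i)

theorem cell_inM {m : ℕ} (c : Cube V) (h : c.fr.card = m) (M : ℕ) (R : Cube V) (hR : R.InM M c) :
    ∃ Q : Cube (Fin m), Q.InM M (ucube m) ∧
      emb (c.fr.orderEmbOfFin h) (fun j => (M : ℤ) * c.lo j) Q = R := by
  classical
  obtain ⟨Q, hQl, hQf⟩ : ∃ Q : Cube (Fin m),
      (∀ i, Q.lo i = R.lo (c.fr.orderEmbOfFin h i) - (M : ℤ) * c.lo (c.fr.orderEmbOfFin h i)) ∧
      (∀ i, i ∈ Q.fr ↔ c.fr.orderEmbOfFin h i ∈ R.fr) :=
    ⟨⟨fun i => R.lo (c.fr.orderEmbOfFin h i) - (M : ℤ) * c.lo (c.fr.orderEmbOfFin h i),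
      Finset.univ.filter fun i => c.fr.orderEmbOfFin h i ∈ R.fr⟩, fun i => rfl,
      fun i => by simp⟩
  have hQh : ∀ i, Q.hi i = R.hi (c.fr.orderEmbOfFin h i) -
      (M : ℤ) * c.lo (c.fr.orderEmbOfFin h i) := by
    intro i
    unfold Cube.hi
    by_cases hi : i ∈ Q.fr
    · rw [if_pos hi, if_pos ((hQf i).1 hi), hQl]
      ring
    · rw [if_neg hi, if_neg (fun h' => hi ((hQf i).2 h')), hQl]
  have hoff : ∀ j, (∀ i, c.fr.orderEmbOfFin h i ≠ j) → R.lo j = (M : ℤ) * c.lo j ∧ j ∉ R.fr := by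
    intro j hj
    have h1 := hR j
    have h2 : j ∉ c.fr := fun h' => by
      obtain ⟨i, hi⟩ := (mem_cell c h j).1 h'
      exact hj i hi
    have h3 : c.hi j = c.lo j := if_neg h2
    have h4 : R.lo j ≤ R.hi j := (Cube.has_lo R j).2
    rw [h3] at h1
    refine ⟨by linarith [h1.1, h1.2], fun h5 => ?_⟩
    have h6 : R.hi j = R.lo j + 1 := if_pos h5
    linarith [h1.1, h1.2]
  refine ⟨Q, fun i => ?_, ?_⟩
  · have h1 := hR (c.fr.orderEmbOfFin h i)
    have h2 : c.hi (c.fr.orderEmbOfFin h i) = c.lo (c.fr.orderEmbOfFin h i) + 1 :=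
      if_pos (Finset.orderEmbOfFin_mem _ _ _)
    have h3 : (ucube m).hi i = 1 := by
      have h5 : i ∈ (ucube m).fr := Finset.mem_univ i
      unfold Cube.hi
      rw [if_pos h5]
      show (0 : ℤ) + 1 = 1
      norm_num
    have h4 : (ucube m).lo i = 0 := rfl
    rw [h2, mul_add] at h1
    rw [hQl, hQh, h3, h4]
    exact ⟨by linarith [h1.1], by linarith [h1.2]⟩
  · refine Cube.ext (funext fun j => ?_) ?_
    · rcases cases_range (c.fr.orderEmbOfFin h) j with ⟨i, hi⟩ | hj
      · rw [← hi, emb_lo_at, hQl]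
        show (M : ℤ) * c.lo (c.fr.orderEmbOfFin h i) + (R.lo (c.fr.orderEmbOfFin h i) -
          (M : ℤ) * c.lo (c.fr.orderEmbOfFin h i)) = R.lo (c.fr.orderEmbOfFin h i)
        ring
      · rw [emb_lo_off _ _ _ j hj]
        exact (hoff j hj).1.symm
    · ext j
      rcases cases_range (c.fr.orderEmbOfFin h) j with ⟨i, hi⟩ | hj
      · rw [← hi, emb_fr_at, hQf]
      · constructor
        · intro h'
          exact absurd h' (emb_fr_off _ _ _ j hj)
        · intro h'
          exact absurd h' (hoff j hj).2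

theorem cell_faces {m : ℕ} (c : Cube V) (h : c.fr.card = m) (R : Cube V) (hR : R.Le c) :
    ∃ Q : Cube (Fin m), Q.Le (ucube m) ∧ emb (c.fr.orderEmbOfFin h) c.lo Q = R := by
  have h1 : R.InM 1 c := by
    intro j
    rw [Nat.cast_one, one_mul, one_mul]
    exact hR j
  obtain ⟨Q, hQ, hQ2⟩ := cell_inM c h 1 R h1
  refine ⟨Q, fun j => ?_, ?_⟩
  · have h2 := hQ j
    rw [Nat.cast_one, one_mul, one_mul] at h2
    exact h2
  · have h3 : (fun j => ((1 : ℕ) : ℤ) * c.lo j) = c.lo := by
      funext j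
      rw [Nat.cast_one, one_mul]
    rw [h3] at hQ2
    exact hQ2

end AGE
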