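import Pool.Agent.AGE.Defs
import Pool.Agent.AGE.C1b
import Pool.Agent.AGE.C2b
import Pool.Agent.AGE.C5
import Pool.Agent.AGE.C6a
import Pool.Agent.AGE.C6b

/-!
# AGE-C6c: the floor dilation (with offset) and its push

Plan. `flrQ D o Q = ⟨flo D o Q.lo, {i ∈ Q.fr : D ∣ Q.lo i + 1 + o}⟩` is the image cube: the images of the vertices of `Q` under `flo D o` are exactly the vertices of
`flrQ D o Q`. Define `fl D o` on `one Q` as `one (flrQ D o Q)` if `(flrQ D o Q).dim = Q.dim` and `0` otherwise. It is a chain map: if the dimensions agree, the faces correspond;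
if exactly one free direction `i` of `Q` is lost, the two faces in direction `i` have the same image and cancel, the other faces have dimension loss one; if more are lost all
faces give `0`. `fl_sub`: among the cubes of `subQ D P` only the one with all `k j = D - 1 - o` has image of full dimension, and its image is `P` (for `j ∈ P.fr`,
`lo = D P.lo j + D - 1 - o`; for `j ∉ P.fr` `(D P.lo j + o) / D = P.lo j`). `push_flr`: `φ ∘ fl D o` is a push of `f ∘ flo D o`: `Spn (f ∘ flo D o) Q = Spn f (flrQ D o Q)`.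
-/

set_option autoImplicit false

noncomputable section

namespace AGE

variable {V J : Type} [LinearOrder V] [LinearOrder J]

/-- the image of a cube under the floor dilation -/
def flrQ (D : ℕ) (o : ℤ) (Q : Cube V) : Cube V :=
  ⟨flo D o Q.lo, Q.fr.filter (fun i => (D : ℤ) ∣ Q.lo i + 1 + o)⟩

/-- the chain map of the floor dilation -/
def fl (D : ℕ) (o : ℤ) : Ch V →ₗ[ℤ] Ch V :=
  Finsupp.linearCombination ℤ
    (fun Q : Cube V => if (flrQ D o Q).dim = Q.dim then one (flrQ D o Q) else 0)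

private theorem C6c_hiQ (Q : Cube V) (j : V) :
    (j ∈ Q.fr ∧ Q.hi j = Q.lo j + 1) ∨ (j ∉ Q.fr ∧ Q.hi j = Q.lo j) := by
  by_cases h : j ∈ Q.fr
  · exact Or.inl ⟨h, if_pos h⟩
  · exact Or.inr ⟨h, if_neg h⟩

private theorem C6c_step (D : ℕ) (hD : 0 < D) (a : ℤ) (h : (D : ℤ) ∣ a + 1) :
    (a + 1) / (D : ℤ) = a / (D : ℤ) + 1 := by
  have hD' : (0 : ℤ) < D := by exact_mod_cast hD
  obtain ⟨b, hb⟩ := h
  rw [hb, Int.mul_ediv_cancel_left _ hD'.ne']
  have h1 : a = (D : ℤ) * (b - 1) + (D - 1) := by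
    rw [mul_sub, ← hb]
    ring
  rw [h1, Int.add_comm ((D : ℤ) * (b - 1)), Int.add_mul_ediv_left _ _ hD'.ne',
    Int.ediv_eq_zero_of_lt (by omega) (by omega)]
  ring

private theorem C6c_nstep (D : ℕ) (hD : 0 < D) (a : ℤ) (h : ¬ (D : ℤ) ∣ a + 1) :
    (a + 1) / (D : ℤ) = a / (D : ℤ) := by
  have hD' : (0 : ℤ) < D := by exact_mod_cast hD
  have e1 := Int.mul_ediv_add_emod a D
  have e2 := Int.emod_nonneg a hD'.ne'
  have e3 := Int.emod_lt_of_pos a hD'
  have e4 : a % (D : ℤ) + 1 < D := by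
    by_contra hc
    push Not at hc
    have h5 : a % (D : ℤ) + 1 = D := by omega
    exact h ⟨a / D + 1, by rw [mul_add, mul_one]; linarith⟩
  have h6 : a + 1 = (a % (D : ℤ) + 1) + (D : ℤ) * (a / D) := by linarith
  rw [h6, Int.add_mul_ediv_left _ _ hD'.ne', Int.ediv_eq_zero_of_lt (by omega) e4]
  ring

private theorem C6c_lo (D : ℕ) (o : ℤ) (Q : Cube V) (j : V) :
    (flrQ D o Q).lo j = (Q.lo j + o) / (D : ℤ) := rfl

private theorem C6c_hi (D : ℕ) (o : ℤ) (hD : 0 < D) (Q : Cube V) (j : V) :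
    (flrQ D o Q).hi j = (Q.hi j + o) / (D : ℤ) := by
  have e : Q.lo j + 1 + o = (Q.lo j + o) + 1 := by ring
  rcases C6c_hiQ Q j with ⟨hj, h1⟩ | ⟨hj, h1⟩
  · rw [h1, e]
    by_cases hd : (D : ℤ) ∣ Q.lo j + 1 + o
    · have h2 : (flrQ D o Q).hi j = (flrQ D o Q).lo j + 1 :=
        if_pos (Finset.mem_filter.2 ⟨hj, hd⟩)
      rw [h2, C6c_lo]
      rw [e] at hd
      rw [C6c_step D hD _ hd]
    · have h2 : (flrQ D o Q).hi j = (flrQ D o Q).lo j := by
        refine if_neg (fun h => ?_)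
        exact hd (Finset.mem_filter.1 h).2
      rw [h2, C6c_lo]
      rw [e] at hd
      rw [C6c_nstep D hD _ hd]
  · have h2 : (flrQ D o Q).hi j = (flrQ D o Q).lo j :=
      if_neg (fun h => hj (Finset.mem_filter.1 h).1)
    rw [h1, h2, C6c_lo]

private theorem C6c_mono (D : ℕ) (hD : 0 < D) {a b : ℤ} (h : a ≤ b) : a / (D : ℤ) ≤ b / (D : ℤ) := by
  have hD' : (0 : ℤ) < D := by exact_mod_cast hD
  exact Int.ediv_le_ediv hD' h

theorem flrQ_has (D : ℕ) (o : ℤ) (hD : 0 < D) (Q : Cube V) (w : V → ℤ) :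
    (flrQ D o Q).Has w ↔ ∃ v, Q.Has v ∧ flo D o v = w := by
  constructor
  · intro h
    refine ⟨fun j => if w j = (Q.lo j + o) / (D : ℤ) then Q.lo j else Q.hi j, ?_, ?_⟩
    · intro j
      have h1 := C6c_hiQ Q j
      have h2 : Q.lo j ≤ Q.hi j := by
        rcases h1 with h1 | h1
        · omega
        · omega
      show Q.lo j ≤ (if w j = (Q.lo j + o) / (D : ℤ) then Q.lo j else Q.hi j) ∧
        (if w j = (Q.lo j + o) / (D : ℤ) then Q.lo j else Q.hi j) ≤ Q.hi j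
      split_ifs
      · exact ⟨le_rfl, h2⟩
      · exact ⟨h2, le_rfl⟩
    · funext j
      show ((if w j = (Q.lo j + o) / (D : ℤ) then Q.lo j else Q.hi j) + o) / (D : ℤ) = w j
      split_ifs with hw
      · exact hw.symm
      · have h1 := h j
        rw [C6c_hi D o hD, C6c_lo] at h1
        rcases C6c_hiQ Q j with ⟨_, h3⟩ | ⟨_, h3⟩
        · have e : Q.hi j + o = (Q.lo j + o) + 1 := by rw [h3]; ring
          rw [e] at h1 ⊢
          by_cases hd : (D : ℤ) ∣ (Q.lo j + o) + 1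
          · rw [C6c_step D hD _ hd] at h1 ⊢
            omega
          · rw [C6c_nstep D hD _ hd] at h1
            exact absurd (le_antisymm h1.2 h1.1) hw
        · rw [h3] at h1
          exact absurd (le_antisymm h1.2 h1.1) hw
  · rintro ⟨v, hv, rfl⟩ j
    rw [C6c_hi D o hD, C6c_lo]
    exact ⟨C6c_mono D hD (by linarith [(hv j).1]), C6c_mono D hD (by linarith [(hv j).2])⟩

theorem flo_has (D : ℕ) (o : ℤ) (hD : 0 < D) (Q : Cube V) (v : V → ℤ) (hv : Q.Has v) :
    (flrQ D o Q).Has (flo D o v) :=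
  (flrQ_has D o hD Q _).2 ⟨v, hv, rfl⟩

theorem flr_inM (D : ℕ) (o : ℤ) (h0 : 0 ≤ o) (ho : o < D) (Q P : Cube V) (h : Q.InM D P) :
    (flrQ D o Q).Le P := by
  have hD' : (0 : ℤ) < D := by omega
  have hD : 0 < D := by exact_mod_cast hD'
  intro j
  rw [C6c_hi D o hD, C6c_lo]
  obtain ⟨h1, h2⟩ := h j
  constructor
  · rw [Int.le_ediv_iff_mul_le hD', mul_comm]
    linarith
  · have h3 : (Q.hi j + o) / (D : ℤ) < P.hi j + 1 := by
      rw [Int.ediv_lt_iff_lt_mul hD', add_mul, one_mul, mul_comm (P.hi j)]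
      linarith
    omega

theorem flrQ_mem (D : ℕ) (o : ℤ) (h0 : 0 ≤ o) (ho : o < D) (K : Set (Cube V)) (hK : Closed K)
    (Q : Cube V) (hQ : Q ∈ Grd D K) : flrQ D o Q ∈ K := by
  obtain ⟨P, hP, hQP⟩ := hQ
  exact hK P hP _ (flr_inM D o h0 ho Q P hQP)

theorem flrQ_mono (D : ℕ) (o : ℤ) (hD : 0 < D) (Q P : Cube V) (h : Q.Le P) :
    (flrQ D o Q).Le (flrQ D o P) := by
  intro j
  rw [C6c_hi D o hD, C6c_hi D o hD, C6c_lo, C6c_lo]
  exact ⟨C6c_mono D hD (by linarith [(h j).1]), C6c_mono D hD (by linarith [(h j).2])⟩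

theorem flrQ_dim (D : ℕ) (o : ℤ) (Q : Cube V) : (flrQ D o Q).dim ≤ Q.dim :=
  Finset.card_le_card (Finset.filter_subset _ _)

theorem flrQ_act (D : ℕ) (o : ℤ) (τ : Equiv.Perm V) (Q : Cube V) :
    flrQ D o (Q.act τ) = (flrQ D o Q).act τ := by
  refine Cube.ext rfl ?_
  ext x
  show x ∈ (Q.fr.map τ.toEmbedding).filter (fun i => (D : ℤ) ∣ Q.lo (τ.symm i) + 1 + o) ↔
    x ∈ (Q.fr.filter (fun i => (D : ℤ) ∣ Q.lo i + 1 + o)).map τ.toEmbedding
  rw [Finset.mem_filter, Finset.mem_map_equiv, Finset.mem_map_equiv, Finset.mem_filter]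

private theorem C6c_one (D : ℕ) (o : ℤ) (Q : Cube V) :
    fl D o (one Q) = if (flrQ D o Q).dim = Q.dim then one (flrQ D o Q) else 0 := by
  unfold fl one
  rw [Finsupp.linearCombination_single, one_smul]

private theorem C6c_fr (D : ℕ) (o : ℤ) (Q : Cube V) (h : (flrQ D o Q).dim = Q.dim) :
    (flrQ D o Q).fr = Q.fr :=
  Finset.eq_of_subset_of_card_le (Finset.filter_subset _ _) h.ge

private theorem C6c_dn (D : ℕ) (o : ℤ) (Q : Cube V) (j : V) :
    flrQ D o (Q.dn j) = (flrQ D o Q).dn j := by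
  refine Cube.ext rfl ?_
  ext x
  show x ∈ (Q.fr.erase j).filter (fun i => (D : ℤ) ∣ Q.lo i + 1 + o) ↔
    x ∈ (Q.fr.filter (fun i => (D : ℤ) ∣ Q.lo i + 1 + o)).erase j
  simp only [Finset.mem_filter, Finset.mem_erase]
  tauto

private theorem C6c_upfr (D : ℕ) (o : ℤ) (Q : Cube V) (j : V) :
    (flrQ D o (Q.up j)).fr = (flrQ D o Q).fr.erase j := by
  ext x
  show x ∈ (Q.fr.erase j).filter
      (fun i => (D : ℤ) ∣ Function.update Q.lo j (Q.lo j + 1) i + 1 + o) ↔
    x ∈ (Q.fr.filter (fun i => (D : ℤ) ∣ Q.lo i + 1 + o)).erase j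
  simp only [Finset.mem_filter, Finset.mem_erase]
  constructor
  · rintro ⟨⟨h1, h2⟩, h3⟩
    rw [Function.update_of_ne h1] at h3
    exact ⟨h1, h2, h3⟩
  · rintro ⟨h1, h2, h3⟩
    rw [Function.update_of_ne h1]
    exact ⟨⟨h1, h2⟩, h3⟩

private theorem C6c_up1 (D : ℕ) (o : ℤ) (hD : 0 < D) (Q : Cube V) (j : V)
    (h : (D : ℤ) ∣ Q.lo j + 1 + o) : flrQ D o (Q.up j) = (flrQ D o Q).up j := by
  refine Cube.ext ?_ (C6c_upfr D o Q j)
  funext k
  show (Function.update Q.lo j (Q.lo j + 1) k + o) / (D : ℤ) =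
    Function.update (flo D o Q.lo) j (flo D o Q.lo j + 1) k
  by_cases hk : k = j
  · subst hk
    rw [Function.update_self, Function.update_self]
    have e : Q.lo k + 1 + o = (Q.lo k + o) + 1 := by ring
    rw [e] at h ⊢
    rw [C6c_step D hD _ h]
    rfl
  · rw [Function.update_of_ne hk, Function.update_of_ne hk]
    rfl

private theorem C6c_up2 (D : ℕ) (o : ℤ) (hD : 0 < D) (Q : Cube V) (j : V)
    (h : ¬ (D : ℤ) ∣ Q.lo j + 1 + o) : flrQ D o (Q.up j) = flrQ D o (Q.dn j) := by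
  rw [C6c_dn]
  refine Cube.ext ?_ (C6c_upfr D o Q j)
  funext k
  show (Function.update Q.lo j (Q.lo j + 1) k + o) / (D : ℤ) = (Q.lo k + o) / (D : ℤ)
  by_cases hk : k = j
  · subst hk
    rw [Function.update_self]
    have e : Q.lo k + 1 + o = (Q.lo k + o) + 1 := by ring
    rw [e] at h ⊢
    rw [C6c_nstep D hD _ h]
  · rw [Function.update_of_ne hk]

private theorem C6c_bdone (Q : Cube V) : bd (one Q) = bdQ Q := by
  unfold bd
  rw [one, Finsupp.linearCombination_single, one_smul]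

private theorem C6c_face (D : ℕ) (o : ℤ) (hD : 0 < D) (Q : Cube V) (j : V) (hj : j ∈ Q.fr) :
    fl D o (one (Q.up j)) - fl D o (one (Q.dn j)) =
      if (flrQ D o Q).dim = Q.dim then one ((flrQ D o Q).up j) - one ((flrQ D o Q).dn j)
      else 0 := by
  have hu : (Q.up j).dim = Q.fr.card - 1 := Finset.card_erase_of_mem hj
  have hdn : (Q.dn j).dim = Q.fr.card - 1 := Finset.card_erase_of_mem hj
  have hpos : 0 < Q.fr.card := Finset.card_pos.2 ⟨j, hj⟩
  rw [C6c_one, C6c_one, hu, hdn]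
  by_cases hd : (D : ℤ) ∣ Q.lo j + 1 + o
  · have hjm : j ∈ (flrQ D o Q).fr := Finset.mem_filter.2 ⟨hj, hd⟩
    have h1 : (flrQ D o (Q.up j)).dim = (flrQ D o Q).fr.card - 1 := by
      show (flrQ D o (Q.up j)).fr.card = _
      rw [C6c_upfr, Finset.card_erase_of_mem hjm]
    have h2 : (flrQ D o (Q.dn j)).dim = (flrQ D o Q).fr.card - 1 := by
      rw [C6c_dn]
      exact Finset.card_erase_of_mem hjm
    have h3 : 0 < (flrQ D o Q).fr.card := Finset.card_pos.2 ⟨j, hjm⟩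
    rw [h1, h2, C6c_up1 D o hD Q j hd, C6c_dn]
    have h4 : ((flrQ D o Q).fr.card - 1 = Q.fr.card - 1) ↔ ((flrQ D o Q).dim = Q.dim) := by
      show ((flrQ D o Q).fr.card - 1 = Q.fr.card - 1) ↔ ((flrQ D o Q).fr.card = Q.fr.card)
      omega
    by_cases h5 : (flrQ D o Q).dim = Q.dim
    · rw [if_pos (h4.2 h5), if_pos (h4.2 h5), if_pos h5]
    · rw [if_neg (fun h => h5 (h4.1 h)), if_neg (fun h => h5 (h4.1 h)), if_neg h5, sub_zero]
  · have h5 : ¬ (flrQ D o Q).dim = Q.dim := by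
      intro h
      have h6 : j ∈ (flrQ D o Q).fr := by
        rw [C6c_fr D o Q h]
        exact hj
      exact hd (Finset.mem_filter.1 h6).2
    rw [C6c_up2 D o hD Q j hd, sub_self, if_neg h5]

private theorem C6c_bdQ (D : ℕ) (o : ℤ) (hD : 0 < D) (Q : Cube V) :
    fl D o (bdQ Q) = bd (fl D o (one Q)) := by
  have h1 : fl D o (bdQ Q) = ∑ j ∈ Q.fr, sg Q.fr j •
      (if (flrQ D o Q).dim = Q.dim then one ((flrQ D o Q).up j) - one ((flrQ D o Q).dn j)
        else 0) := by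
    unfold bdQ
    rw [map_sum]
    refine Finset.sum_congr rfl fun j hj => ?_
    rw [map_smul, map_sub, C6c_face D o hD Q j hj]
  rw [h1, C6c_one]
  by_cases h : (flrQ D o Q).dim = Q.dim
  · rw [if_pos h, C6c_bdone]
    unfold bdQ
    rw [C6c_fr D o Q h]
    refine Finset.sum_congr rfl fun j _ => ?_
    rw [if_pos h]
  · rw [if_neg h, map_zero]
    refine Finset.sum_eq_zero fun j _ => ?_
    rw [if_neg h, smul_zero]

omit [LinearOrder V] in
private theorem C6c_ext {M : Type} [AddCommGroup M] (α β : Ch V →ₗ[ℤ] M)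
    (h : ∀ Q, α (one Q) = β (one Q)) : α = β := by
  refine Finsupp.lhom_ext' fun Q => LinearMap.ext_ring ?_
  exact h Q

theorem fl_bd (D : ℕ) (o : ℤ) (hD : 0 < D) (x : Ch V) : fl D o (bd x) = bd (fl D o x) := by
  have h : (fl D o : Ch V →ₗ[ℤ] Ch V) ∘ₗ bd = bd ∘ₗ fl D o := by
    refine C6c_ext (V := V) _ _ fun Q => ?_
    rw [LinearMap.comp_apply, LinearMap.comp_apply, C6c_bdone]
    exact C6c_bdQ D o hD Q
  exact LinearMap.congr_fun h x

private theorem C6c_sub (D : ℕ) (o : ℤ) (h0 : 0 ≤ o) (ho : o < D) (P : Cube V) :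
    fl D o (subQ D P) = one P := by
  have hD' : (0 : ℤ) < D := by omega
  have hD : 0 < D := by exact_mod_cast hD'
  obtain ⟨n, rfl⟩ := Int.eq_ofNat_of_zero_le h0
  have hn : n < D := by exact_mod_cast ho
  unfold subQ
  rw [map_sum]
  have key : ∀ k : {j // j ∈ P.fr} → ℕ,
      k ∈ Fintype.piFinset (fun _ : {j // j ∈ P.fr} => Finset.range D) →
      k ≠ (fun _ => D - 1 - n) →
      fl D (n : ℤ) (one ⟨fun j => (D : ℤ) * P.lo j +
        (if h : j ∈ P.fr then (k ⟨j, h⟩ : ℤ) else 0), P.fr⟩) = 0 := by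
    intro k hk hne
    rw [C6c_one, if_neg]
    intro hdim
    apply hne
    funext j
    obtain ⟨j, hj⟩ := j
    have h1 := C6c_fr D (n : ℤ) (⟨fun j => (D : ℤ) * P.lo j +
        (if h : j ∈ P.fr then (k ⟨j, h⟩ : ℤ) else 0), P.fr⟩ : Cube V) hdim
    have h2 : j ∈ (flrQ D (n : ℤ) (⟨fun j => (D : ℤ) * P.lo j +
        (if h : j ∈ P.fr then (k ⟨j, h⟩ : ℤ) else 0), P.fr⟩ : Cube V)).fr := by
      rw [h1]
      exact hj
    have h3 := (Finset.mem_filter.1 h2).2
    have h4 : (D : ℤ) ∣ (D : ℤ) * P.lo j + (if h : j ∈ P.fr then (k ⟨j, h⟩ : ℤ) else 0) + 1 + n := h3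
    rw [dif_pos hj] at h4
    have h5 : (D : ℤ) ∣ (k ⟨j, hj⟩ : ℤ) + 1 + n := by
      have e : (D : ℤ) * P.lo j + (k ⟨j, hj⟩ : ℤ) + 1 + n =
        (D : ℤ) * P.lo j + ((k ⟨j, hj⟩ : ℤ) + 1 + n) := by ring
      rw [e] at h4
      exact (Int.dvd_add_right (Dvd.intro _ rfl)).1 h4
    have h6 : k ⟨j, hj⟩ < D := Finset.mem_range.1 (Fintype.mem_piFinset.1 hk ⟨j, hj⟩)
    obtain ⟨c, hc⟩ := h5
    have h7 : 0 < c := by
      by_contra hcc
      push Not at hcc
      have := mul_nonpos_of_nonneg_of_nonpos hD'.le hcc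
      omega
    have h8 : c < 2 := by
      by_contra hcc
      push Not at hcc
      have := mul_le_mul_of_nonneg_left hcc hD'.le
      omega
    have h9 : c = 1 := by omega
    subst h9
    show k ⟨j, hj⟩ = D - 1 - n
    omega
  rw [Finset.sum_eq_single (fun _ => D - 1 - n) key]
  · have hq : flrQ D (n : ℤ) (⟨fun j => (D : ℤ) * P.lo j +
        (if h : j ∈ P.fr then ((D - 1 - n : ℕ) : ℤ) else 0), P.fr⟩ : Cube V) = P := by
      refine Cube.ext ?_ ?_
      · funext j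
        show ((D : ℤ) * P.lo j + (if h : j ∈ P.fr then ((D - 1 - n : ℕ) : ℤ) else 0) + n) / (D : ℤ)
          = P.lo j
        have h1 : ∀ r : ℤ, 0 ≤ r → r < D → ((D : ℤ) * P.lo j + r) / (D : ℤ) = P.lo j := by
          intro r hr0 hr1
          rw [add_comm, Int.add_mul_ediv_left _ _ hD'.ne', Int.ediv_eq_zero_of_lt hr0 hr1, zero_add]
        rw [add_assoc]
        apply h1
        · split_ifs <;> omega
        · split_ifs <;> omega
      · ext j
        show j ∈ P.fr.filter (fun i => (D : ℤ) ∣ (D : ℤ) * P.lo i +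
          (if h : i ∈ P.fr then ((D - 1 - n : ℕ) : ℤ) else 0) + 1 + n) ↔ j ∈ P.fr
        rw [Finset.mem_filter]
        constructor
        · exact fun h => h.1
        · intro hj
          refine ⟨hj, ?_⟩
          rw [dif_pos hj]
          refine ⟨P.lo j + 1, ?_⟩
          have h2 : ((D - 1 - n : ℕ) : ℤ) = D - 1 - n := by omega
          rw [h2]
          ring
    rw [C6c_one, hq]
    exact if_pos rfl
  · intro h
    exfalso
    apply h
    rw [Fintype.mem_piFinset]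
    intro _
    rw [Finset.mem_range]
    omega

theorem fl_sub (D : ℕ) (o : ℤ) (h0 : 0 ≤ o) (ho : o < D) (x : Ch V) :
    fl D o (sub D x) = x := by
  have h : (fl D o : Ch V →ₗ[ℤ] Ch V) ∘ₗ sub D = LinearMap.id := by
    refine C6c_ext (V := V) _ _ fun Q => ?_
    rw [LinearMap.comp_apply, LinearMap.id_apply]
    have h1 : sub D (one Q) = subQ D Q := by
      unfold sub
      rw [one, Finsupp.linearCombination_single, one_smul]
    rw [h1]
    exact C6c_sub D o h0 ho Q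
  exact LinearMap.congr_fun h x

theorem fl_act (D : ℕ) (o : ℤ) (τ : Equiv.Perm V) (x : Ch V) :
    fl D o (act τ x) = act τ (fl D o x) := by
  have h : (fl D o : Ch V →ₗ[ℤ] Ch V) ∘ₗ act τ = act τ ∘ₗ fl D o := by
    refine C6c_ext (V := V) _ _ fun Q => ?_
    rw [LinearMap.comp_apply, LinearMap.comp_apply, AGE.act_one, map_smul, C6c_one, C6c_one,
      flrQ_act, Cube.act_dim, Cube.act_dim]
    by_cases hd : (flrQ D o Q).dim = Q.dim
    · rw [if_pos hd, if_pos hd, AGE.act_one, C6c_fr D o Q hd]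
    · rw [if_neg hd, if_neg hd, map_zero, smul_zero]
  exact LinearMap.congr_fun h x

theorem flr_equi (D : ℕ) (o : ℤ) (τ : Equiv.Perm V) :
    Equi τ τ (flo D o : (V → ℤ) → (V → ℤ)) :=
  fun _ => rfl

theorem push_flr (D : ℕ) (o : ℤ) (h0 : 0 ≤ o) (ho : o < D) (K : Set (Cube V)) (hK : Closed K)
    (f : (V → ℤ) → (J → ℤ)) (φ : Ch V →ₗ[ℤ] Ch J) (h : Push K (Spn f) f φ) :
    Push (Grd D K) (Spn (f ∘ flo D o)) (f ∘ flo D o) (φ ∘ₗ fl D o) := by
  have hD' : (0 : ℤ) < D := by omega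
  have hD : 0 < D := by exact_mod_cast hD'
  refine ⟨?_, ?_, ?_⟩
  · intro v hv
    have h1 : flrQ D o (pt v) = pt (flo D o v) := Cube.ext rfl (Finset.filter_empty _)
    have h2 := flrQ_mem D o h0 ho K hK _ hv
    rw [h1] at h2
    have h3 : (pt (flo D o v)).dim = (pt v).dim := rfl
    rw [LinearMap.comp_apply, C6c_one, h1, if_pos h3]
    exact h.vtx _ h2
  · intro c hc
    rw [LinearMap.comp_apply, C6c_one]
    by_cases hd : (flrQ D o c).dim = c.dim
    · rw [if_pos hd]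
      have h1 := h.car _ (flrQ_mem D o h0 ho K hK c hc)
      rw [hd] at h1
      refine CC_mono ?_ _ h1
      intro P hP S hS
      refine hP S fun w hw => ?_
      obtain ⟨v, hv, rfl⟩ := (flrQ_has D o hD c w).1 hw
      exact hS v hv
    · rw [if_neg hd, map_zero]
      exact Submodule.zero_mem _
  · intro c hc
    rw [LinearMap.comp_apply, LinearMap.comp_apply, fl_bd D o hD, C6c_one]
    by_cases hd : (flrQ D o c).dim = c.dim
    · rw [if_pos hd]
      exact h.chn _ (flrQ_mem D o h0 ho K hK c hc)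
    · rw [if_neg hd, map_zero, map_zero, map_zero, map_zero]

end AGE
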