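import Pool.Agent.AGE.Defs
import Pool.Agent.AGE.C1a
import Pool.Agent.AGE.C1b
import Pool.Agent.AGE.C4b
import Pool.Agent.AGE.C5
import Pool.Agent.AGE.C6a
import Pool.Agent.AGE.C6b
import Pool.Agent.AGE.C6c
import Pool.Agent.AGE.LPD
import Pool.Agent.AGE.LP1

/-!
# AGE-LP2: axial maps are cellular; pushes are local
-/

set_option autoImplicit false

noncomputable section

namespace AGE

variable {V J : Type} [LinearOrder V] [LinearOrder J]


/-- a coordinate which does not change in any direction is constant -/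
private theorem lp2_const (Q : Cube V) (g : (V → ℤ) → (J → ℤ)) (k : J)
    (h : ∀ i ∈ Q.fr, ∀ v, Q.Has v →
      g (Function.update v i (Q.lo i + 1)) k = g (Function.update v i (Q.lo i)) k) :
    ∀ v, Q.Has v → g v k = g Q.lo k := by
  have key : ∀ s : Finset V, s ⊆ Q.fr → ∀ v, Q.Has v → (∀ i, i ∉ s → v i = Q.lo i) →
      g v k = g Q.lo k := by
    intro s
    induction s using Finset.induction_on with
    | empty =>
      intro _ v _ hs
      have e : v = Q.lo := funext fun i => hs i (Finset.notMem_empty i)
      rw [e]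
    | insert i s his ih =>
      intro hsub v hv hs
      have hi : i ∈ Q.fr := hsub (Finset.mem_insert_self i s)
      have hv' : Q.Has (Function.update v i (Q.lo i)) := by
        intro l
        by_cases hl : l = i
        · subst hl
          rw [Function.update_self]
          exact Cube.has_lo Q l
        · rw [Function.update_of_ne hl]
          exact hv l
      have e1 := ih (fun x hx => hsub (Finset.mem_insert_of_mem hx))
        (Function.update v i (Q.lo i)) hv' (by
          intro l hl
          by_cases hli : l = i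
          · subst hli
            rw [Function.update_self]
          · rw [Function.update_of_ne hli]
            exact hs l (by
              rw [Finset.mem_insert]
              rintro (h' | h')
              · exact hli h'
              · exact hl h'))
      have h1 := hv i
      unfold Cube.hi at h1
      rw [if_pos hi] at h1
      rcases h1 with ⟨h1, h2⟩
      by_cases h3 : v i = Q.lo i
      · have e2 : Function.update v i (Q.lo i) = v := by
          rw [← h3]
          exact Function.update_eq_self i v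
        rwa [e2] at e1
      · have h4 : v i = Q.lo i + 1 := by omega
        have e2 : Function.update v i (Q.lo i + 1) = v := by
          rw [← h4]
          exact Function.update_eq_self i v
        have e3 := h i hi v hv
        rw [e2] at e3
        rw [e3, e1]
  intro v hv
  refine key Q.fr (Finset.Subset.refl _) v hv ?_
  intro i hi
  have h1 := hv i
  unfold Cube.hi at h1
  rw [if_neg hi] at h1
  omega

theorem cel_of_ax (K : Set (Cube V)) (T : Set (Cube J)) (hT : Closed T) (g : (V → ℤ) → (J → ℤ))
    (hg : VMap K T g) (hA : Ax K g) : Cel K T g := by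
  intro Q hQ
  obtain ⟨S₀, hS₀, hS₀'⟩ := hg Q hQ
  obtain ⟨S, hS, hSS, hSv⟩ := spn_eq g Q S₀ hS₀'
  refine ⟨S, hT S₀ hS₀ S hSS, ?_, hSv⟩
  choose j hj using hA Q hQ
  have hsub : S.fr ⊆ Q.fr.attach.image (fun i => j i.1 i.2) := by
    intro k hk
    by_contra hne
    have hne' : ∀ i (hi : i ∈ Q.fr), k ≠ j i hi := by
      intro i hi he
      exact hne (Finset.mem_image.mpr ⟨⟨i, hi⟩, Finset.mem_attach _ _, he.symm⟩)
    have hconst := lp2_const Q g k (fun i hi v hv => hj i hi v hv k (hne' i hi))
    have hS' : ∀ v, Q.Has v →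
        (⟨Function.update S.lo k (g Q.lo k), S.fr.erase k⟩ : Cube J).Has (g v) := by
      intro v hv l
      have h1 := hSv v hv l
      by_cases hl : l = k
      · subst hl
        have e : g v l = g Q.lo l := hconst v hv
        unfold Cube.hi
        simp only [Finset.mem_erase, ne_eq, not_true_eq_false, false_and, if_false,
          Function.update_self]
        rw [e]
        exact ⟨le_refl _, le_refl _⟩
      · unfold Cube.hi at h1 ⊢
        simp only [Finset.mem_erase, ne_eq, hl, not_false_eq_true, true_and,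
          Function.update_of_ne]
        exact h1
    have hmem : S ∈ Spn g Q := by
      rw [hS]
      exact Cube.le_refl' S
    have h2 := Cube.fr_subset (hmem _ hS') hk
    exact (Finset.mem_erase.mp h2).1 rfl
  calc S.dim ≤ (Q.fr.attach.image (fun i => j i.1 i.2)).card := Finset.card_le_card hsub
    _ ≤ Q.fr.attach.card := Finset.card_image_le
    _ = Q.dim := Finset.card_attach

theorem ax_flo [Nonempty J] (D : ℕ) (o : ℤ) (h0 : 0 ≤ o) (ho : o < D) (K : Set (Cube V))
    (hK : Closed K) (g : (V → ℤ) → (J → ℤ)) (hA : Ax K g) : Ax (Grd D K) (g ∘ flo D o) := by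
  intro Q hQ i hi
  have hD : 0 < D := by omega
  have hDz : (0 : ℤ) < D := by omega
  have hR := flrQ_mem D o h0 ho K hK Q hQ
  have hup : ∀ (v : V → ℤ) (x : ℤ), flo D o (Function.update v i x) =
      Function.update (flo D o v) i ((x + o) / (D : ℤ)) := by
    intro v x
    funext l
    unfold flo
    by_cases hl : l = i
    · subst hl
      rw [Function.update_self, Function.update_self]
    · rw [Function.update_of_ne hl, Function.update_of_ne hl]
  have hlo : (flrQ D o Q).lo i = (Q.lo i + o) / (D : ℤ) := rfl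
  by_cases hd : (D : ℤ) ∣ Q.lo i + 1 + o
  · have hiR : i ∈ (flrQ D o Q).fr := Finset.mem_filter.mpr ⟨hi, hd⟩
    obtain ⟨j, hj⟩ := hA _ hR i hiR
    refine ⟨j, fun v hv k hk => ?_⟩
    have h1 := hj (flo D o v) (flo_has D o hD Q v hv) k hk
    have e : (Q.lo i + 1 + o) / (D : ℤ) = (flrQ D o Q).lo i + 1 := by
      rw [hlo]
      obtain ⟨m, hm⟩ := hd
      have e1 : (Q.lo i + 1 + o) / (D : ℤ) = m := by
        rw [hm]
        exact Int.mul_ediv_cancel_left m hDz.ne'
      have e2 : (Q.lo i + o) / (D : ℤ) = m - 1 := by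
        have h2 : Q.lo i + o = ((D : ℤ) - 1) + D * (m - 1) := by linarith
        rw [h2, Int.add_mul_ediv_left _ _ hDz.ne',
          Int.ediv_eq_zero_of_lt (by omega) (by omega)]
        ring
      rw [e1, e2]
      ring
    show g (flo D o (Function.update v i (Q.lo i + 1))) k =
      g (flo D o (Function.update v i (Q.lo i))) k
    rw [hup, hup, e, ← hlo]
    exact h1
  · refine ⟨Classical.arbitrary J, fun v hv k _ => ?_⟩
    have e : (Q.lo i + 1 + o) / (D : ℤ) = (Q.lo i + o) / (D : ℤ) := by
      have h1 := Int.mul_ediv_add_emod (Q.lo i + 1 + o) (D : ℤ)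
      have h2 := Int.emod_nonneg (Q.lo i + 1 + o) hDz.ne'
      have h3 := Int.emod_lt_of_pos (Q.lo i + 1 + o) hDz
      have h4 : (Q.lo i + 1 + o) % (D : ℤ) ≠ 0 := fun h => hd (Int.dvd_of_emod_eq_zero h)
      have h5 : Q.lo i + o = ((Q.lo i + 1 + o) % (D : ℤ) - 1) +
          D * ((Q.lo i + 1 + o) / (D : ℤ)) := by linarith
      have h6 : ((Q.lo i + 1 + o) % (D : ℤ) - 1) / (D : ℤ) = 0 :=
        Int.ediv_eq_zero_of_lt (by omega) (by omega)
      conv_rhs => rw [h5]
      rw [Int.add_mul_ediv_left _ _ hDz.ne', h6, zero_add]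
    show g (flo D o (Function.update v i (Q.lo i + 1))) k =
      g (flo D o (Function.update v i (Q.lo i))) k
    rw [hup, hup, e]

theorem push_mono (K K' : Set (Cube V)) (h : K' ⊆ K) (g : (V → ℤ) → (J → ℤ))
    (φ : Ch V →ₗ[ℤ] Ch J) (hφ : Push K (Spn g) g φ) : Push K' (Spn g) g φ := by
  exact ⟨fun v hv => hφ.vtx v (h hv), fun c hc => hφ.car c (h hc), fun c hc => hφ.chn c (h hc)⟩

theorem push_loc (K K' : Set (Cube V)) (hK : Closed K) (hK' : Closed K')
    (g g' : (V → ℤ) → (J → ℤ)) (φ φ' : Ch V →ₗ[ℤ] Ch J) (hφ : Push K (Spn g) g φ)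
    (hφ' : Push K' (Spn g') g' φ') (Q : Cube V) (hQ : Q ∈ K) (hQ' : Q ∈ K')
    (hgg : ∀ v, Q.Has v → g v = g' v) (hv : VMap K Set.univ g) (hA : Ax K g) :
    φ (one Q) = φ' (one Q) := by
  have hsub : Faces Q ⊆ K := fun P hP => hK Q hQ P hP
  have hsub' : Faces Q ⊆ K' := fun P hP => hK' Q hQ' P hP
  have h1 := push_mono K (Faces Q) hsub g φ hφ
  have h2 := push_mono K' (Faces Q) hsub' g' φ' hφ'
  have h3 : Push (Faces Q) (Spn g) g φ' := by
    refine ⟨fun v hv => ?_, fun c hc => ?_, h2.chn⟩
    · have hv' : Q.Has v := Cube.pt_le.mp hv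
      rw [h2.vtx v hv, hgg v hv']
    · have e : Spn g c = Spn g' c := by
        ext P
        constructor
        · intro hP S hS
          exact hP S fun v hv => by
            rw [hgg v (Cube.has_of_le hc hv)]
            exact hS v hv
        · intro hP S hS
          exact hP S fun v hv => by
            rw [← hgg v (Cube.has_of_le hc hv)]
            exact hS v hv
      rw [e]
      exact h2.car c hc
  have h4 : Cel (Faces Q) Set.univ g := by
    refine cel_of_ax (Faces Q) Set.univ (fun _ _ _ _ => Set.mem_univ _) g ?_ ?_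
    · intro P hP
      exact hv P (hsub hP)
    · intro P hP
      exact hA P (hsub hP)
  exact push_unique (Faces Q) (closed_faces Q) g h4 φ φ' h1 h3 Q (Cube.le_refl' Q)

theorem push_shift (g g' : (V → ℤ) → (J → ℤ)) (φ φ' : Ch V →ₗ[ℤ] Ch J)
    (hφ : Push Set.univ (Spn g) g φ) (hφ' : Push Set.univ (Spn g') g' φ') (Q : Cube V)
    (a : V → ℤ) (hgg : ∀ v, Q.Has v → g v = g' (v + a)) (hv : VMap Set.univ Set.univ g)
    (hA : Ax Set.univ g) : φ (one Q) = φ' (one ⟨Q.lo + a, Q.fr⟩) := by
  have he : ∀ v : V → ℤ, embP ((RelEmbedding.refl (· ≤ ·) : V ↪o V) : V → V) a v = v + a := by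
    intro v
    funext i
    have := embP_apply (RelEmbedding.refl (· ≤ ·) : V ↪o V) a v i
    have e1 : (RelEmbedding.refl (· ≤ ·) : V ↪o V) i = i := rfl
    rw [e1] at this
    rw [this, Pi.add_apply]
    ring
  have h1 := push_emb (RelEmbedding.refl (· ≤ ·) : V ↪o V) a Set.univ Set.univ
    (fun _ _ => Set.mem_univ _) g' φ' hφ'
  have h2 := push_loc Set.univ Set.univ (fun _ _ _ _ => Set.mem_univ _)
    (fun _ _ _ _ => Set.mem_univ _) g _ φ _ hφ h1 Q (Set.mem_univ _) (Set.mem_univ _)
    (fun v hv => by
      show g v = g' (embP ((RelEmbedding.refl (· ≤ ·) : V ↪o V) : V → V) a v)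
      rw [he]
      exact hgg v hv) hv hA
  rw [h2, LinearMap.comp_apply, embC_one]
  refine congrArg (fun R => φ' (one R)) ?_
  refine Cube.ext ?_ ?_
  · show embP ((RelEmbedding.refl (· ≤ ·) : V ↪o V) : V → V) a Q.lo = Q.lo + a
    exact he Q.lo
  · show Q.fr.map (RelEmbedding.refl (· ≤ ·) : V ↪o V).toEmbedding = Q.fr
    ext x
    rw [Finset.mem_map]
    constructor
    · rintro ⟨y, hy, rfl⟩
      exact hy
    · intro hx
      exact ⟨x, hx, rfl⟩

theorem push_const (K : Set (Cube V)) (g : (V → ℤ) → (J → ℤ)) (φ : Ch V →ₗ[ℤ] Ch J)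
    (hφ : Push K (Spn g) g φ) (Q : Cube V) (hQ : Q ∈ K) (b : J → ℤ)
    (hb : ∀ v, Q.Has v → g v = b) (hd : 1 ≤ Q.dim) : φ (one Q) = 0 := by
  refine push_zero K g φ hφ Q hQ (pt b) (fun v hv => ?_) ?_
  · rw [hb v hv]
    exact Cube.has_lo (pt b)
  · have e : (pt b).dim = 0 := rfl
    omega

theorem sub_ucube (n L : ℕ) (hL : 0 < L) : sub L (one (ucube n)) =
    ∑ c ∈ Fintype.piFinset (fun _ : Fin n => Finset.Ico 0 (L : ℤ)), one (tc n c) := by
  classical
  refine Finsupp.ext fun P => ?_
  rw [sub_one_apply L hL (ucube n) P, Finsupp.finset_sum_apply]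
  by_cases hP : P.fr = Finset.univ ∧ P.lo ∈ Fintype.piFinset (fun _ : Fin n => Finset.Ico 0 (L : ℤ))
  · obtain ⟨h1, h2⟩ := hP
    rw [Fintype.mem_piFinset] at h2
    have hin : P.InM L (ucube n) ∧ P.dim = (ucube n).dim := by
      constructor
      · intro j
        have h3 := Finset.mem_Ico.mp (h2 j)
        unfold Cube.hi
        rw [h1]
        simp only [ucube, Finset.mem_univ, if_true]
        constructor
        · linarith
        · linarith
      · show P.fr.card = (Finset.univ : Finset (Fin n)).card
        rw [h1]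
    rw [if_pos hin, Finset.sum_eq_single P.lo]
    · have e : tc n P.lo = P := Cube.ext rfl h1.symm
      rw [e]
      exact (Finsupp.single_eq_same).symm
    · intro c _ hc
      refine Finsupp.single_eq_of_ne ?_
      intro h
      apply hc
      rw [h]
      rfl
    · intro h
      exact absurd (Fintype.mem_piFinset.mpr h2) h
  · rw [if_neg, Finset.sum_eq_zero]
    · intro c hc
      refine Finsupp.single_eq_of_ne ?_
      intro h
      apply hP
      rw [h]
      exact ⟨rfl, hc⟩
    · rintro ⟨h1, h2⟩
      apply hP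
      have h3 : P.fr = Finset.univ := by
        apply Finset.eq_univ_of_card
        have : P.fr.card = (Finset.univ : Finset (Fin n)).card := h2
        rw [this, Finset.card_univ]
      refine ⟨h3, Fintype.mem_piFinset.mpr fun j => Finset.mem_Ico.mpr ?_⟩
      have h4 := h1 j
      unfold Cube.hi at h4
      rw [h3] at h4
      simp only [ucube, Finset.mem_univ, if_true] at h4
      constructor
      · linarith [h4.1]
      · linarith [h4.2]

end AGE
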