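import Pool.Agent.AGE.Defs
import Pool.Agent.AGE.C1a
import Pool.Agent.AGE.C1b
import Pool.Agent.AGE.C5
import Pool.Agent.AGE.C6a
import Pool.Agent.AGE.C6b
import Pool.Agent.AGE.LPD
import Pool.Agent.AGE.LP1
import Pool.Agent.AGE.LP2

/-!
# AGE-LP3: larger boxes, the constant loop, the sum of two loops

`loop_mono`: the cubes outside of the smaller box are mapped to the base point. `loop_add`: the second loop is translated by the size of the first one; the
value is computed on the two diagonal boxes, all other cubes are mapped to the base point.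
-/

set_option autoImplicit false

noncomputable section

namespace AGE

variable {V J : Type} [LinearOrder V] [LinearOrder J]


private theorem lp3_univ : Closed (Set.univ : Set (Cube J)) := fun _ _ _ _ => Set.mem_univ _

private theorem lp3_dim (n : ℕ) (c : Cube (Fin n)) : c.dim ≤ n := by
  have h := Finset.card_le_univ c.fr
  rw [Fintype.card_fin] at h
  exact h

private theorem lp3_tc {n : ℕ} {c v : Fin n → ℤ} (h : (tc n c).Has v) (i : Fin n) : c i ≤ v i ∧ v i ≤ c i + 1 := by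
  have h1 := h i
  have h2 : (tc n c).hi i = c i + 1 := if_pos (Finset.mem_univ i)
  rw [h2] at h1
  exact h1

private theorem lp3_tcd (n : ℕ) (c : Fin n → ℤ) : (tc n c).dim = n := by
  show (Finset.univ : Finset (Fin n)).card = n
  rw [Finset.card_univ, Fintype.card_fin]

omit [LinearOrder J] in
private theorem lp3_sum (n L : ℕ) (hL : 0 < L) (φ : Ch (Fin n) →ₗ[ℤ] Ch J) :
    φ (sub L (one (ucube n))) =
      ∑ c ∈ Fintype.piFinset (fun _ : Fin n => Finset.Ico 0 (L : ℤ)), φ (one (tc n c)) := by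
  rw [sub_ucube n L hL, map_sum]

/-- the map of the sum of two loops -/
private def lp3_om {J : Type} (n L : ℕ) (f g : (Fin n → ℤ) → (J → ℤ)) (v : Fin n → ℤ) : J → ℤ :=
  open Classical in if ∀ i, v i ≤ (L : ℤ) then f v else g (fun i => v i - (L : ℤ))

private theorem lp3_a {J : Type} {n L : ℕ} {f g : (Fin n → ℤ) → (J → ℤ)} {v : Fin n → ℤ}
    (h : ∀ i, v i ≤ (L : ℤ)) : lp3_om n L f g v = f v := if_pos h

private theorem lp3_b {J : Type} {n L : ℕ} {f g : (Fin n → ℤ) → (J → ℤ)} {v : Fin n → ℤ}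
    (h : ¬ ∀ i, v i ≤ (L : ℤ)) : lp3_om n L f g v = g (fun i => v i - (L : ℤ)) := if_neg h

private theorem lp3_hi (Q : Cube V) (i : V) : Q.lo i ≤ Q.hi i ∧ Q.hi i ≤ Q.lo i + 1 := by
  unfold Cube.hi
  split_ifs
  · omega
  · omega

private theorem lp3_A {J : Type} {n L : ℕ} {f g : (Fin n → ℤ) → (J → ℤ)} {Q : Cube (Fin n)}
    (h : ∀ i, Q.hi i ≤ (L : ℤ)) {v : Fin n → ℤ} (hv : Q.Has v) : lp3_om n L f g v = f v :=
  lp3_a fun i => le_trans (hv i).2 (h i)

private theorem lp3_B {J : Type} {n L : ℕ} {f g : (Fin n → ℤ) → (J → ℤ)} {b : J → ℤ}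
    (hf : ∀ v, (∃ i, v i ≤ 0 ∨ (L : ℤ) ≤ v i) → f v = b) (hg : ∀ v, (∃ i, v i ≤ 0) → g v = b)
    {Q : Cube (Fin n)} (h : ¬ ∀ i, Q.hi i ≤ (L : ℤ)) {v : Fin n → ℤ} (hv : Q.Has v) :
    lp3_om n L f g v = g (fun i => v i - (L : ℤ)) := by
  by_cases h1 : ∀ i, v i ≤ (L : ℤ)
  · push Not at h
    obtain ⟨i, hi⟩ := h
    have h2 := lp3_hi Q i
    have h3 := hv i
    have h4 := h1 i
    rw [lp3_a h1, hf v ⟨i, Or.inr (by omega)⟩, hg _ ⟨i, by
      show v i - (L : ℤ) ≤ 0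
      omega⟩]
  · exact lp3_b h1

private theorem lp3_has (n : ℕ) (L : ℤ) (Q : Cube (Fin n)) (v : Fin n → ℤ) (hv : Q.Has v) :
    (⟨fun i => Q.lo i - L, Q.fr⟩ : Cube (Fin n)).Has (fun i => v i - L) := by
  intro i
  have h1 := hv i
  have h2 : (⟨fun i => Q.lo i - L, Q.fr⟩ : Cube (Fin n)).hi i = Q.hi i - L := by
    unfold Cube.hi
    by_cases h3 : i ∈ Q.fr
    · rw [if_pos h3, if_pos h3]
      show Q.lo i - L + 1 = Q.lo i + 1 - L
      ring
    · rw [if_neg h3, if_neg h3]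
  rw [h2]
  show Q.lo i - L ≤ v i - L ∧ v i - L ≤ Q.hi i - L
  omega

private theorem lp3_upd (Q : Cube V) (v : V → ℤ) (hv : Q.Has v) {i : V} (hi : i ∈ Q.fr) (x : ℤ)
    (hx : x = Q.lo i ∨ x = Q.lo i + 1) : Q.Has (Function.update v i x) := by
  intro k
  by_cases hk : k = i
  · rw [hk, Function.update_self]
    have h1 : Q.hi i = Q.lo i + 1 := if_pos hi
    rw [h1]
    omega
  · rw [Function.update_of_ne hk]
    exact hv k

theorem loop_mono (n : ℕ) (hn : 1 ≤ n) (t : Cube J) (b : J → ℤ) (z : Ch J) (L L' : ℕ)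
    (hL : L ≤ L') (om : (Fin n → ℤ) → (J → ℤ)) (φ : Ch (Fin n) →ₗ[ℤ] Ch J)
    (h : LoopD n t b z L om φ) : LoopD n t b z L' om φ := by
  have hLL : (L : ℤ) ≤ L' := by exact_mod_cast hL
  refine ⟨lt_of_lt_of_le h.pos hL, h.vmp, h.axi, h.psh, ?_, ?_⟩
  · rintro v ⟨i, hi | hi⟩
    · exact h.out v ⟨i, Or.inl hi⟩
    · exact h.out v ⟨i, Or.inr (hLL.trans hi)⟩
  · have h1 := h.val
    rw [lp3_sum n L h.pos] at h1
    rw [lp3_sum n L' (lt_of_lt_of_le h.pos hL), ← h1]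
    symm
    refine Finset.sum_subset ?_ ?_
    · intro c hc
      rw [Fintype.mem_piFinset] at hc ⊢
      intro i
      have h2 := Finset.mem_Ico.1 (hc i)
      exact Finset.mem_Ico.2 ⟨h2.1, by omega⟩
    · intro c hc hn'
      rw [Fintype.mem_piFinset] at hc hn'
      push Not at hn'
      obtain ⟨i, hi⟩ := hn'
      have h2 := Finset.mem_Ico.1 (hc i)
      have h3 : (L : ℤ) ≤ c i := by
        by_contra h4
        exact hi (Finset.mem_Ico.2 ⟨h2.1, by omega⟩)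
      refine push_const Set.univ om φ h.psh (tc n c) (Set.mem_univ _) b ?_ ?_
      · intro v hv
        exact h.out v ⟨i, Or.inr (le_trans h3 (lp3_tc hv i).1)⟩
      · rw [lp3_tcd]
        exact hn

theorem loop_zero [Nonempty J] (n : ℕ) (hn : 1 ≤ n) (t : Cube J) (b : J → ℤ) (hb : t.Has b) :
    IsLoop n t b 0 := by
  have h1 : VMap (Set.univ : Set (Cube (Fin n))) (Faces t) (fun _ => b) :=
    fun Q _ => ⟨pt b, Cube.pt_le.2 hb, fun v _ => Cube.has_lo (pt b)⟩
  have h2 : VMap (Set.univ : Set (Cube (Fin n))) Set.univ (fun _ => b) :=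
    fun Q _ => ⟨pt b, Set.mem_univ _, fun v _ => Cube.has_lo (pt b)⟩
  obtain ⟨φ, hφ⟩ := push_exists n Set.univ lp3_univ (fun c _ => lp3_dim n c) (fun _ : Fin n → ℤ => b) h2
  refine ⟨1, fun _ => b, φ, ⟨one_pos, h1, ?_, hφ, fun _ _ => rfl, ?_⟩⟩
  · intro Q _ i _
    exact ⟨Classical.arbitrary J, fun _ _ _ _ => rfl⟩
  · rw [lp3_sum n 1 one_pos]
    refine Finset.sum_eq_zero fun c _ => ?_
    refine push_const Set.univ _ φ hφ (tc n c) (Set.mem_univ _) b (fun _ _ => rfl) ?_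
    rw [lp3_tcd]
    exact hn

theorem loop_add (n : ℕ) (hn : 1 ≤ n) (t : Cube J) (b : J → ℤ) (z₁ z₂ : Ch J)
    (h₁ : IsLoop n t b z₁) (h₂ : IsLoop n t b z₂) : IsLoop n t b (z₁ + z₂) := by
  classical
  obtain ⟨L₁, om₁, φ₁, h₁⟩ := h₁
  obtain ⟨L₂, om₂, φ₂, h₂⟩ := h₂
  have hp1 : (0 : ℤ) < L₁ := by exact_mod_cast h₁.pos
  have hp2 : (0 : ℤ) < L₂ := by exact_mod_cast h₂.pos
  have hg : ∀ v, (∃ i, v i ≤ 0) → om₂ v = b := by
    rintro v ⟨i, hi⟩
    exact h₂.out v ⟨i, Or.inl hi⟩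
  have hB : ∀ Q : Cube (Fin n), (¬ ∀ i, Q.hi i ≤ (L₁ : ℤ)) → ∀ v, Q.Has v →
      lp3_om n L₁ om₁ om₂ v = om₂ (fun i => v i - (L₁ : ℤ)) :=
    fun Q hQ v hv => lp3_B h₁.out hg hQ hv
  have hvm : VMap Set.univ (Faces t) (lp3_om n L₁ om₁ om₂) := by
    intro Q _
    by_cases hQ : ∀ i, Q.hi i ≤ (L₁ : ℤ)
    · obtain ⟨S, hS, h3⟩ := h₁.vmp Q (Set.mem_univ _)
      refine ⟨S, hS, fun v hv => ?_⟩
      rw [lp3_A hQ hv]
      exact h3 v hv
    · obtain ⟨S, hS, h3⟩ := h₂.vmp ⟨fun i => Q.lo i - L₁, Q.fr⟩ (Set.mem_univ _)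
      refine ⟨S, hS, fun v hv => ?_⟩
      rw [hB Q hQ v hv]
      exact h3 _ (lp3_has n L₁ Q v hv)
  have hvm' : VMap Set.univ Set.univ (lp3_om n L₁ om₁ om₂) := by
    intro Q hQ
    obtain ⟨S, _, h3⟩ := hvm Q hQ
    exact ⟨S, Set.mem_univ _, h3⟩
  have hax : Ax Set.univ (lp3_om n L₁ om₁ om₂) := by
    intro Q _ i hi
    by_cases hQ : ∀ i, Q.hi i ≤ (L₁ : ℤ)
    · obtain ⟨j, hj⟩ := h₁.axi Q (Set.mem_univ _) i hi
      refine ⟨j, fun v hv k hk => ?_⟩
      rw [lp3_A hQ (lp3_upd Q v hv hi _ (Or.inr rfl)), lp3_A hQ (lp3_upd Q v hv hi _ (Or.inl rfl))]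
      exact hj v hv k hk
    · obtain ⟨j, hj⟩ := h₂.axi ⟨fun i => Q.lo i - L₁, Q.fr⟩ (Set.mem_univ _) i hi
      refine ⟨j, fun v hv k hk => ?_⟩
      rw [hB Q hQ _ (lp3_upd Q v hv hi _ (Or.inr rfl)), hB Q hQ _ (lp3_upd Q v hv hi _ (Or.inl rfl))]
      have h3 := hj _ (lp3_has n L₁ Q v hv) k hk
      have h4 : ∀ x : ℤ, (fun l => Function.update v i x l - (L₁ : ℤ)) =
          Function.update (fun l => v l - (L₁ : ℤ)) i (x - L₁) := by
        intro x
        funext l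
        by_cases hl : l = i
        · rw [hl, Function.update_self, Function.update_self]
        · rw [Function.update_of_ne hl, Function.update_of_ne hl]
      rw [h4, h4]
      have h5 : Q.lo i + 1 - (L₁ : ℤ) = Q.lo i - L₁ + 1 := by ring
      rw [h5]
      exact h3
  obtain ⟨φ, hφ⟩ := push_exists n Set.univ lp3_univ (fun c _ => lp3_dim n c) (lp3_om n L₁ om₁ om₂) hvm'
  refine ⟨L₁ + L₂, lp3_om n L₁ om₁ om₂, φ, ⟨Nat.add_pos_left h₁.pos L₂, hvm, hax, hφ, ?_, ?_⟩⟩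
  · rintro v ⟨i, hi⟩
    push_cast at hi
    by_cases h3 : ∀ k, v k ≤ (L₁ : ℤ)
    · rw [lp3_a h3]
      refine h₁.out v ⟨i, ?_⟩
      omega
    · rw [lp3_b h3]
      refine h₂.out _ ⟨i, ?_⟩
      show v i - (L₁ : ℤ) ≤ 0 ∨ (L₂ : ℤ) ≤ v i - L₁
      omega
  · have e1 : ((L₁ + L₂ : ℕ) : ℤ) = (L₁ : ℤ) + L₂ := by push_cast; ring
    rw [lp3_sum n (L₁ + L₂) (Nat.add_pos_left h₁.pos L₂), ← h₁.val, ← h₂.val, lp3_sum n L₁ h₁.pos,
      lp3_sum n L₂ h₂.pos, e1]
    have hd : Disjoint (Fintype.piFinset (fun _ : Fin n => Finset.Ico 0 (L₁ : ℤ)))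
        (Fintype.piFinset (fun _ : Fin n => Finset.Ico (L₁ : ℤ) (L₁ + L₂))) := by
      rw [Finset.disjoint_left]
      intro c h3 h4
      rw [Fintype.mem_piFinset] at h3 h4
      have h5 := Finset.mem_Ico.1 (h3 ⟨0, hn⟩)
      have h6 := Finset.mem_Ico.1 (h4 ⟨0, hn⟩)
      omega
    have hs : ∑ c ∈ Fintype.piFinset (fun _ : Fin n => Finset.Ico 0 ((L₁ : ℤ) + L₂)), φ (one (tc n c)) =
        ∑ c ∈ (Fintype.piFinset (fun _ : Fin n => Finset.Ico 0 (L₁ : ℤ))) ∪
          (Fintype.piFinset (fun _ : Fin n => Finset.Ico (L₁ : ℤ) (L₁ + L₂))), φ (one (tc n c)) := by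
      symm
      refine Finset.sum_subset ?_ ?_
      · intro c hc
        rw [Finset.mem_union, Fintype.mem_piFinset, Fintype.mem_piFinset] at hc
        rw [Fintype.mem_piFinset]
        intro i
        rcases hc with hc | hc
        · have h3 := Finset.mem_Ico.1 (hc i)
          exact Finset.mem_Ico.2 ⟨h3.1, by omega⟩
        · have h3 := Finset.mem_Ico.1 (hc i)
          exact Finset.mem_Ico.2 ⟨by omega, h3.2⟩
      · intro c hc hc2
        rw [Finset.mem_union, Fintype.mem_piFinset, Fintype.mem_piFinset, not_or] at hc2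
        rw [Fintype.mem_piFinset] at hc
        obtain ⟨h3, h4⟩ := hc2
        push Not at h3 h4
        obtain ⟨j, hj⟩ := h3
        obtain ⟨i, hi⟩ := h4
        have h5 := Finset.mem_Ico.1 (hc i)
        have h6 := Finset.mem_Ico.1 (hc j)
        have h7 : (L₁ : ℤ) ≤ c j := by
          by_contra h
          exact hj (Finset.mem_Ico.2 ⟨h6.1, by omega⟩)
        have h8 : c i < (L₁ : ℤ) := by
          by_contra h
          exact hi (Finset.mem_Ico.2 ⟨by omega, h5.2⟩)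
        refine push_const Set.univ _ φ hφ (tc n c) (Set.mem_univ _) b ?_ ?_
        · intro v hv
          have h9 := lp3_tc hv i
          have h10 := lp3_tc hv j
          by_cases h11 : ∀ k, v k ≤ (L₁ : ℤ)
          · rw [lp3_a h11]
            exact h₁.out v ⟨j, Or.inr (by omega)⟩
          · rw [lp3_b h11]
            refine hg _ ⟨i, ?_⟩
            show v i - (L₁ : ℤ) ≤ 0
            omega
        · rw [lp3_tcd]
          exact hn
    rw [hs, Finset.sum_union hd]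
    have hs1 : ∑ c ∈ Fintype.piFinset (fun _ : Fin n => Finset.Ico 0 (L₁ : ℤ)), φ (one (tc n c)) =
        ∑ c ∈ Fintype.piFinset (fun _ : Fin n => Finset.Ico 0 (L₁ : ℤ)), φ₁ (one (tc n c)) := by
      refine Finset.sum_congr rfl fun c hc => ?_
      rw [Fintype.mem_piFinset] at hc
      refine push_loc Set.univ Set.univ lp3_univ lp3_univ _ om₁ φ φ₁ hφ h₁.psh (tc n c) (Set.mem_univ _)
        (Set.mem_univ _) ?_ hvm' hax
      intro v hv
      refine lp3_a fun i => ?_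
      have h3 := Finset.mem_Ico.1 (hc i)
      have h4 := lp3_tc hv i
      omega
    have hs2 : ∑ c ∈ Fintype.piFinset (fun _ : Fin n => Finset.Ico (L₁ : ℤ) (L₁ + L₂)), φ (one (tc n c)) =
        ∑ c ∈ Fintype.piFinset (fun _ : Fin n => Finset.Ico 0 (L₂ : ℤ)), φ₂ (one (tc n c)) := by
      refine Finset.sum_bij' (fun c _ => c + fun _ => -(L₁ : ℤ)) (fun c _ => c + fun _ => (L₁ : ℤ)) ?_ ?_ ?_ ?_ ?_
      · intro c hc
        rw [Fintype.mem_piFinset] at hc ⊢
        intro i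
        have h3 := Finset.mem_Ico.1 (hc i)
        rw [Pi.add_apply]
        exact Finset.mem_Ico.2 ⟨by omega, by omega⟩
      · intro c hc
        rw [Fintype.mem_piFinset] at hc ⊢
        intro i
        have h3 := Finset.mem_Ico.1 (hc i)
        rw [Pi.add_apply]
        exact Finset.mem_Ico.2 ⟨by omega, by omega⟩
      · intro c _
        funext i
        rw [Pi.add_apply, Pi.add_apply]
        ring
      · intro c _
        funext i
        rw [Pi.add_apply, Pi.add_apply]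
        ring
      · intro c hc
        rw [Fintype.mem_piFinset] at hc
        refine push_shift _ om₂ φ φ₂ hφ h₂.psh (tc n c) (fun _ => -(L₁ : ℤ)) ?_ hvm' hax
        intro v hv
        have h5 : ¬ ∀ i, (tc n c).hi i ≤ (L₁ : ℤ) := by
          intro h6
          have h7 := h6 ⟨0, hn⟩
          have h8 : (tc n c).hi ⟨0, hn⟩ = c ⟨0, hn⟩ + 1 := if_pos (Finset.mem_univ _)
          have h3 := Finset.mem_Ico.1 (hc ⟨0, hn⟩)
          rw [h8] at h7
          omega
        rw [hB (tc n c) h5 v hv]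
        rfl
    rw [hs1, hs2]

end AGE
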