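import Pool.Agent.AGE.Defs
import Pool.Agent.AGE.C1a
import Pool.Agent.AGE.C1b
import Pool.Agent.AGE.C5
import Pool.Agent.AGE.C6a
import Pool.Agent.AGE.C6b
import Pool.Agent.AGE.LPD
import Pool.Agent.AGE.LP1
import Pool.Agent.AGE.LP2

/-!
# AGE-LP4: change of the base point of a loop

Plan. `loop_step`: `b` and `b'` differ only in the coordinate `j₀` and there by one. `L' = L + 2`, `om' v = if ∃ i, v i ≤ 0 ∨ L + 2 ≤ v i then b' else om (fun i => v i - 1)`, `φ'` from `push_exists`. Let `Q` be a cube of `ℤ^n`. (A) no vertex of `Q` is outer (outer: `∃ i, v i ≤ 0 ∨ L + 2 ≤ v i`): `om' v = om (v - 1)` for all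
vertices. (B) all are outer: constant `b'`. (C) mixed: let `w` be an outer vertex, with `w i ≤ 0` or `≥ L + 2`, and `v` a vertex which is not outer: `1 ≤ v i ≤ L + 1` and `|v i - w i| ≤ 1`, so `v i = 1` or `v i = L + 1` and `om (v - 1) = b`. So `om'` has only the values `b, b'` on `Q`, which lie in the edge of `t` between
them (`fr = {j₀}`, `lo j₀ = min (b j₀) (b' j₀)`; `j₀ ∈ t.fr`), and only the coordinate `j₀` changes: `VMap`, `Ax` (for `Ax` in case (A): the cube translated by `-1`). Value: `sub_ucube`: `c ∈ [1, L + 1)^n`: no vertex of `tc n c` is outer: `push_shift` gives `φ (one (tc n (c - 1)))`; reindex to `[0, L)^n`; the other `c`: all values in `{b, b'}`, contained in a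
cube of dimension `≤ 1 < 2 ≤ n`: `push_zero`.
`loop_base`: induction on the number of coordinates where `b` and `b'` differ (they are in `t.fr`, finite): change one coordinate at a time (`Function.update b j (b' j)` is again a vertex of `t`), `|b j - b' j| = 1`.
-/

set_option autoImplicit false

noncomputable section

namespace AGE

variable {V J : Type} [LinearOrder V] [LinearOrder J]


private theorem LP4_hi (Q : Cube V) (j : V) : Q.lo j ≤ Q.hi j ∧ Q.hi j ≤ Q.lo j + 1 := by
  unfold Cube.hi
  split_ifs <;> constructor <;> linarith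

private theorem LP4_near {Q : Cube V} {v w : V → ℤ} (hv : Q.Has v) (hw : Q.Has w) (i : V) :
    v i ≤ w i + 1 ∧ w i ≤ v i + 1 := by
  have h1 := hv i
  have h2 := hw i
  have h3 := LP4_hi Q i
  constructor <;> linarith [h1.1, h1.2, h2.1, h2.2, h3.1, h3.2]

private theorem LP4_upd {Q : Cube V} {v : V → ℤ} (hv : Q.Has v) {i : V} (hi : i ∈ Q.fr) :
    Q.Has (Function.update v i (Q.lo i + 1)) ∧ Q.Has (Function.update v i (Q.lo i)) := by
  have h0 : Q.hi i = Q.lo i + 1 := if_pos hi
  constructor
  · intro j
    by_cases hj : j = i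
    · subst hj
      rw [Function.update_self]
      constructor <;> linarith
    · rw [Function.update_of_ne hj]
      exact hv j
  · intro j
    by_cases hj : j = i
    · subst hj
      rw [Function.update_self]
      constructor <;> linarith
    · rw [Function.update_of_ne hj]
      exact hv j

private theorem LP4_shift {n : ℕ} {Q : Cube (Fin n)} {v : Fin n → ℤ} (hv : Q.Has v) :
    (⟨fun i => Q.lo i - 1, Q.fr⟩ : Cube (Fin n)).Has (fun i => v i - 1) := by
  intro j
  have h1 := hv j
  have h2 : (⟨fun i => Q.lo i - 1, Q.fr⟩ : Cube (Fin n)).hi j = Q.hi j - 1 := by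
    unfold Cube.hi
    show (if j ∈ Q.fr then (Q.lo j - 1) + 1 else Q.lo j - 1) = (if j ∈ Q.fr then Q.lo j + 1 else Q.lo j) - 1
    split_ifs <;> ring
  rw [h2]
  show Q.lo j - 1 ≤ v j - 1 ∧ v j - 1 ≤ Q.hi j - 1
  constructor <;> linarith [h1.1, h1.2]

open Classical in
/-- the shifted loop with the new base point -/
private def LP4_om {n : ℕ} (L : ℕ) (b' : J → ℤ) (om : (Fin n → ℤ) → (J → ℤ)) (v : Fin n → ℤ) :
    J → ℤ :=
  if ∃ i, v i ≤ 0 ∨ (L : ℤ) + 2 ≤ v i then b' else om (fun i => v i - 1)

private theorem LP4_two {n : ℕ} {L : ℕ} {b b' : J → ℤ} {om : (Fin n → ℤ) → (J → ℤ)}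
    (hout : ∀ v, (∃ i, v i ≤ 0 ∨ (L : ℤ) ≤ v i) → om v = b) {Q : Cube (Fin n)} {w : Fin n → ℤ}
    (hw : Q.Has w) (hwo : ∃ i, w i ≤ 0 ∨ (L : ℤ) + 2 ≤ w i) {v : Fin n → ℤ} (hv : Q.Has v) :
    LP4_om L b' om v = b ∨ LP4_om L b' om v = b' := by
  by_cases ho : ∃ i, v i ≤ 0 ∨ (L : ℤ) + 2 ≤ v i
  · right
    exact if_pos ho
  · left
    have h1 : LP4_om L b' om v = om (fun i => v i - 1) := if_neg ho
    rw [h1]
    refine hout _ ?_
    obtain ⟨i, hi⟩ := hwo
    have h2 := LP4_near hv hw i
    refine ⟨i, ?_⟩
    show v i - 1 ≤ 0 ∨ (L : ℤ) ≤ v i - 1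
    rcases hi with hi | hi
    · left
      linarith [h2.1]
    · right
      linarith [h2.2]

theorem loop_step (n : ℕ) (hn : 2 ≤ n) (t : Cube J) (b b' : J → ℤ) (hb : t.Has b)
    (hb' : t.Has b') (j₀ : J) (h : ∀ j, j ≠ j₀ → b j = b' j) (z : Ch J)
    (hl : IsLoop n t b z) : IsLoop n t b' z := by
  obtain ⟨L, om, φ, hL⟩ := hl
  have hom : ∀ v, t.Has (om v) := by
    intro v
    obtain ⟨S, hS, hS'⟩ := hL.vmp (pt v) (Set.mem_univ _)
    have h1 : (pt v).Has v := by
      have h2 := Cube.has_lo (pt v)
      exact h2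
    exact Cube.has_of_le hS (hS' v h1)
  have hom' : ∀ v, t.Has (LP4_om L b' om v) := by
    intro v
    by_cases ho : ∃ i, v i ≤ 0 ∨ (L : ℤ) + 2 ≤ v i
    · have h1 : LP4_om L b' om v = b' := if_pos ho
      rw [h1]
      exact hb'
    · have h1 : LP4_om L b' om v = om (fun i => v i - 1) := if_neg ho
      rw [h1]
      exact hom _
  have hvm : VMap Set.univ (Faces t) (LP4_om L b' om) :=
    fun Q _ => ⟨t, Cube.le_refl' t, fun v _ => hom' v⟩
  have hvu : VMap Set.univ Set.univ (LP4_om L b' om) :=
    fun Q _ => ⟨t, Set.mem_univ _, fun v _ => hom' v⟩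
  have hk : ∀ (x : J → ℤ), (x = b ∨ x = b') → ∀ k, k ≠ j₀ → x k = b k := by
    intro x hx k hk
    rcases hx with hx | hx
    · rw [hx]
    · rw [hx]
      exact (h k hk).symm
  have hax : Ax Set.univ (LP4_om L b' om) := by
    intro Q _ i hi
    by_cases hw : ∃ w, Q.Has w ∧ ∃ i, w i ≤ 0 ∨ (L : ℤ) + 2 ≤ w i
    · obtain ⟨w, hw1, hw2⟩ := hw
      refine ⟨j₀, fun v hv k hkj => ?_⟩
      have h1 := LP4_upd hv hi
      rw [hk _ (LP4_two hL.out hw1 hw2 h1.1) k hkj, hk _ (LP4_two hL.out hw1 hw2 h1.2) k hkj]
    · have hno : ∀ w, Q.Has w → LP4_om L b' om w = om (fun i => w i - 1) := by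
        intro w hw'
        exact if_neg fun hc => hw ⟨w, hw', hc⟩
      obtain ⟨j, hj⟩ := hL.axi ⟨fun i => Q.lo i - 1, Q.fr⟩ (Set.mem_univ _) i hi
      refine ⟨j, fun v hv k hkj => ?_⟩
      have h1 := LP4_upd hv hi
      rw [hno _ h1.1, hno _ h1.2]
      have h2 := hj (fun i => v i - 1) (LP4_shift hv) k hkj
      have h3 : (fun k => Function.update v i (Q.lo i + 1) k - 1) =
          Function.update (fun k => v k - 1) i ((Q.lo i - 1) + 1) := by
        funext k
        by_cases hki : k = i
        · subst hki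
          rw [Function.update_self, Function.update_self]
          ring
        · rw [Function.update_of_ne hki, Function.update_of_ne hki]
      have h4 : (fun k => Function.update v i (Q.lo i) k - 1) =
          Function.update (fun k => v k - 1) i (Q.lo i - 1) := by
        funext k
        by_cases hki : k = i
        · subst hki
          rw [Function.update_self, Function.update_self]
        · rw [Function.update_of_ne hki, Function.update_of_ne hki]
      rw [h3, h4]
      exact h2
  obtain ⟨φ', hφ'⟩ := push_exists n (Set.univ : Set (Cube (Fin n)))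
    (fun _ _ _ _ => Set.mem_univ _)
    (fun c _ => by
      have h1 : c.fr.card ≤ Fintype.card (Fin n) := Finset.card_le_univ _
      rw [Fintype.card_fin] at h1
      exact h1)
    (LP4_om L b' om) hvu
  -- the edge which contains `b` and `b'`
  have hS : ∀ x, (x = b ∨ x = b') →
      (⟨fun j => min (b j) (b' j), {j₀}⟩ : Cube J).Has x := by
    intro x hx j
    have h1 := LP4_near hb hb' j
    by_cases hj : j = j₀
    · have h2 : (⟨fun j => min (b j) (b' j), {j₀}⟩ : Cube J).hi j = min (b j) (b' j) + 1 :=
        if_pos (by rw [hj]; exact Finset.mem_singleton_self _)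
      rw [h2]
      show min (b j) (b' j) ≤ x j ∧ x j ≤ min (b j) (b' j) + 1
      rcases hx with hx | hx
      · rw [hx]
        refine ⟨min_le_left _ _, ?_⟩
        rcases min_choice (b j) (b' j) with h3 | h3 <;> rw [h3] <;> linarith [h1.1, h1.2]
      · rw [hx]
        refine ⟨min_le_right _ _, ?_⟩
        rcases min_choice (b j) (b' j) with h3 | h3 <;> rw [h3] <;> linarith [h1.1, h1.2]
    · have h2 : (⟨fun j => min (b j) (b' j), {j₀}⟩ : Cube J).hi j = min (b j) (b' j) :=
        if_neg (fun hc => hj (Finset.mem_singleton.1 hc))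
      rw [h2]
      show min (b j) (b' j) ≤ x j ∧ x j ≤ min (b j) (b' j)
      rw [hk x hx j hj, ← h j hj, min_self]
      exact ⟨le_refl _, le_refl _⟩
  refine ⟨L + 2, LP4_om L b' om, φ', ⟨by omega, hvm, hax, hφ', ?_, ?_⟩⟩
  · rintro v ⟨i, hi⟩
    refine if_pos ⟨i, ?_⟩
    push_cast at hi
    exact hi
  · rw [sub_ucube n (L + 2) (by omega), map_sum]
    have hz : φ (sub L (one (ucube n))) = z := hL.val
    rw [sub_ucube n L hL.pos, map_sum] at hz
    rw [← hz]
    have hsub : Fintype.piFinset (fun _ : Fin n => Finset.Ico (1 : ℤ) ((L : ℤ) + 1)) ⊆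
        Fintype.piFinset (fun _ : Fin n => Finset.Ico (0 : ℤ) ((L + 2 : ℕ) : ℤ)) := by
      refine Fintype.piFinset_subset _ _ fun _ => ?_
      refine Finset.Ico_subset_Ico (by norm_num) ?_
      push_cast
      linarith
    rw [← Finset.sum_subset hsub]
    · refine Finset.sum_nbij' (fun c i => c i - 1) (fun c i => c i + 1) ?_ ?_ ?_ ?_ ?_
      · intro c hc
        rw [Fintype.mem_piFinset] at hc ⊢
        intro i
        have h1 := Finset.mem_Ico.1 (hc i)
        exact Finset.mem_Ico.2 ⟨by linarith [h1.1], by linarith [h1.2]⟩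
      · intro c hc
        rw [Fintype.mem_piFinset] at hc ⊢
        intro i
        have h1 := Finset.mem_Ico.1 (hc i)
        exact Finset.mem_Ico.2 ⟨by linarith [h1.1], by linarith [h1.2]⟩
      · intro c _
        funext i
        show c i - 1 + 1 = c i
        ring
      · intro c _
        funext i
        show c i + 1 - 1 = c i
        ring
      · intro c hc
        rw [Fintype.mem_piFinset] at hc
        have h1 := push_shift (LP4_om L b' om) om φ' φ hφ' hL.psh (tc n c) (fun _ => (-1 : ℤ))
          (by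
            intro v hv
            have h2 : LP4_om L b' om v = om (fun i => v i - 1) := by
              refine if_neg ?_
              rintro ⟨i, hi⟩
              have h3 := Finset.mem_Ico.1 (hc i)
              have h4 := hv i
              have h5 : (tc n c).hi i = c i + 1 := if_pos (Finset.mem_univ i)
              have h6 : (tc n c).lo i = c i := rfl
              rw [h5, h6] at h4
              rcases hi with hi | hi
              · linarith [h3.1, h4.1]
              · linarith [h3.2, h4.2]
            rw [h2]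
            congr 1)
          hvu hax
        exact h1
    · intro c hc hc'
      rw [Fintype.mem_piFinset] at hc hc'
      push Not at hc'
      obtain ⟨i, hi⟩ := hc'
      have h1 := Finset.mem_Ico.1 (hc i)
      have h5 : (tc n c).hi i = c i + 1 := if_pos (Finset.mem_univ i)
      have hw : ∃ w, (tc n c).Has w ∧ ∃ i, w i ≤ 0 ∨ (L : ℤ) + 2 ≤ w i := by
        by_cases h0 : c i ≤ 0
        · exact ⟨(tc n c).lo, Cube.has_lo _, i, Or.inl h0⟩
        · refine ⟨(tc n c).hi, Cube.has_hi _, i, Or.inr ?_⟩
          rw [h5]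
          by_contra hlt
          refine hi (Finset.mem_Ico.2 ⟨?_, ?_⟩)
          · omega
          · omega
      obtain ⟨w, hw1, hw2⟩ := hw
      refine push_zero Set.univ (LP4_om L b' om) φ' hφ' (tc n c) (Set.mem_univ _)
        ⟨fun j => min (b j) (b' j), {j₀}⟩ (fun v hv => hS _ (LP4_two hL.out hw1 hw2 hv)) ?_
      have h6 : (tc n c).dim = n := by
        show (Finset.univ : Finset (Fin n)).card = n
        rw [Finset.card_univ, Fintype.card_fin]
      have h7 : (⟨fun j => min (b j) (b' j), {j₀}⟩ : Cube J).dim = 1 := Finset.card_singleton _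
      rw [h6, h7]
      omega

theorem loop_base (n : ℕ) (hn : 2 ≤ n) (t : Cube J) (b b' : J → ℤ) (hb : t.Has b)
    (hb' : t.Has b') (z : Ch J) (hl : IsLoop n t b z) : IsLoop n t b' z := by
  have key : ∀ s : Finset J, IsLoop n t (fun j => if j ∈ s then b' j else b j) z := by
    intro s
    induction s using Finset.induction_on with
    | empty =>
      have h1 : (fun j => if j ∈ (∅ : Finset J) then b' j else b j) = b :=
        funext fun j => if_neg (Finset.notMem_empty j)
      rw [h1]
      exact hl
    | insert a s _ ih =>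
      refine loop_step n hn t _ _ (fun j => ?_) (fun j => ?_) a (fun j hj => ?_) z ih
      · show t.lo j ≤ (if j ∈ s then b' j else b j) ∧ (if j ∈ s then b' j else b j) ≤ t.hi j
        split_ifs
        · exact hb' j
        · exact hb j
      · show t.lo j ≤ (if j ∈ insert a s then b' j else b j) ∧
          (if j ∈ insert a s then b' j else b j) ≤ t.hi j
        split_ifs
        · exact hb' j
        · exact hb j
      · show (if j ∈ s then b' j else b j) = (if j ∈ insert a s then b' j else b j)
        have h1 : j ∈ insert a s ↔ j ∈ s := by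
          rw [Finset.mem_insert]
          exact ⟨fun h => h.resolve_left hj, Or.inr⟩
        by_cases h2 : j ∈ s
        · rw [if_pos h2, if_pos (h1.2 h2)]
        · rw [if_neg h2, if_neg (fun hc => h2 (h1.1 hc))]
  have h1 : (fun j => if j ∈ t.fr then b' j else b j) = b' := by
    funext j
    by_cases hj : j ∈ t.fr
    · exact if_pos hj
    · have h2 : t.hi j = t.lo j := if_neg hj
      have h3 := hb j
      have h4 := hb' j
      rw [h2] at h3 h4
      show (if j ∈ t.fr then b' j else b j) = b' j
      rw [if_neg hj]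
      exact le_antisymm (h3.2.trans h4.1) (h4.2.trans h3.1)
  have h2 := key t.fr
  rw [h1] at h2
  exact h2

end AGE
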