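import Pool.Agent.AGE.Defs
import Pool.Agent.AGE.C1b
import Pool.Agent.AGE.LPD
import Pool.Agent.AGE.LP2

/-!
# AGE-LP5: the bubble is axial

Plan. Write `r j = (P.fr.filter (· < j)).card` for the rank of `j ∈ P.fr`; `r` is injective on `P.fr` with values `0, .., n` (`P.fr.card = n + 1`). `bub_mem`: `bub` adds `0` or `1` to `P.lo j` for `j ∈ P.fr`. `bub_out`: if `v i ≤ 0` or `v i ≥ 2 n + 3` for some `i` then `v` is in no `InBx n m`, `m ≤ n`, so all added terms are `0`
(`r j + 1 ≤ n`). `bub_in`: `InBx n 0 v` iff all `v i ∈ {n + 1, n + 2}`.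
`bub_ax`: let `Q` be a cube of `ℤ^n`. `InBx n m` is a product condition. Claim (M): at most one `m` is mixed on `Q` (some vertex satisfies `InBx n m`, another one does not): for `m < m'`: if a vertex satisfies `InBx n m` then all vertices satisfy `InBx n m'` (coordinates of two vertices differ by at most one and the bounds of
`m'` are weaker by at least one). If `m < m'` are both mixed: contradiction. Let `j*` be the coordinate of rank `m - 1` if the mixed `m` is `≥ 1`, of rank `n` if the mixed `m` is `0` (only `m ≤ n` matter; if there is no mixed `m ≤ n` any `j*`). Let `i ∈ Q.fr`. Case `Q.lo i = n + 1` (the direction between `n + 1` and `n + 2`): moving along `i` does not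
change `InBx n m` for any `m ≥ 0`, and changes only the comparison of `v i` with `n + 1, n + 2`: only the coordinate of rank `i` changes: `j` = the element of `P.fr` of rank `i`. Case `Q.lo i ≠ n + 1`: the comparison of `v i` with `n + 1 | n + 2` does not change; `InBx n m` can change only for the mixed `m`: only the coordinate
`j*` changes. (The element of `P.fr` of a given rank `≤ n` exists: `Finset.orderEmbOfFin`, or count.)
-/

set_option autoImplicit false

noncomputable section

namespace AGE

variable {V J : Type} [LinearOrder V] [LinearOrder J]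


theorem bub_mem (n : ℕ) (P : Cube J) (s : Bool) (v : Fin n → ℤ) : P.Has (bub n P s v) := by
  classical
  intro j
  unfold Cube.hi bub
  by_cases hj : j ∈ P.fr
  · rw [if_pos hj, if_pos hj]
    split_ifs <;> omega
  · rw [if_neg hj, if_neg hj]
    omega

private theorem LP5_out (n : ℕ) (v : Fin n → ℤ) (hv : ∃ i, v i ≤ 0 ∨ 2 * (n : ℤ) + 3 ≤ v i)
    (m : ℕ) (hm : m ≤ n) : ¬ InBx n m v := by
  intro h
  obtain ⟨i, hi⟩ := hv
  have h1 := h i
  have hm' : (m : ℤ) ≤ n := by exact_mod_cast hm
  omega

theorem bub_out (n : ℕ) (P : Cube J) (s : Bool) (v : Fin n → ℤ)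
    (hv : ∃ i, v i ≤ 0 ∨ 2 * (n : ℤ) + 3 ≤ v i) : bub n P s v = P.lo := by
  classical
  funext j
  unfold bub
  by_cases hj : j ∈ P.fr
  · rw [if_pos hj]
    by_cases h : (P.fr.filter (· < j)).card < n
    · rw [dif_pos h, if_neg (fun hh => LP5_out n v hv _ h hh.1), add_zero]
    · rw [dif_neg h, if_neg (LP5_out n v hv 0 (Nat.zero_le n)), add_zero]
  · rw [if_neg hj, add_zero]

private theorem LP5_congr (n : ℕ) (P : Cube J) (s : Bool) (v v' : Fin n → ℤ) (k : J)
    (h1 : k ∈ P.fr → ∀ h : (P.fr.filter (· < k)).card < n,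
      (InBx n ((P.fr.filter (· < k)).card + 1) v ↔ InBx n ((P.fr.filter (· < k)).card + 1) v') ∧
      (v ⟨(P.fr.filter (· < k)).card, h⟩ ≤ (n : ℤ) + 1 ↔
        v' ⟨(P.fr.filter (· < k)).card, h⟩ ≤ (n : ℤ) + 1) ∧
      ((n : ℤ) + 2 ≤ v ⟨(P.fr.filter (· < k)).card, h⟩ ↔
        (n : ℤ) + 2 ≤ v' ⟨(P.fr.filter (· < k)).card, h⟩))
    (h2 : k ∈ P.fr → ¬ (P.fr.filter (· < k)).card < n → (InBx n 0 v ↔ InBx n 0 v')) :
    bub n P s v k = bub n P s v' k := by
  classical
  unfold bub
  by_cases hk : k ∈ P.fr
  · rw [if_pos hk, if_pos hk]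
    by_cases h : (P.fr.filter (· < k)).card < n
    · rw [dif_pos h, dif_pos h]
      obtain ⟨a1, a2, a3⟩ := h1 hk h
      congr 1
      by_cases hs : (P.fr.filter (· < k)).card = 0 ∧ s = false
      · simp only [if_pos hs, a1, a2]
      · simp only [if_neg hs, a1, a3]
    · rw [dif_neg h, dif_neg h]
      have := h2 hk h
      simp only [this]
  · rw [if_neg hk, if_neg hk]

private theorem LP5_mono (n : ℕ) (Q : Cube (Fin n)) (v v' : Fin n → ℤ) (hv : Q.Has v)
    (hv' : Q.Has v') (m m' : ℕ) (hm : m < m') (h : InBx n m v) : InBx n m' v' := by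
  intro i
  have h1 := h i
  have h2 := hv i
  have h3 := hv' i
  have h4 : Q.hi i ≤ Q.lo i + 1 := by
    unfold Cube.hi
    split_ifs <;> omega
  have hm' : (m : ℤ) + 1 ≤ m' := by exact_mod_cast hm
  omega

private theorem LP5_upd (n : ℕ) (Q : Cube (Fin n)) (i : Fin n) (hi : i ∈ Q.fr) (v : Fin n → ℤ)
    (hv : Q.Has v) (x : ℤ) (hx : x = Q.lo i ∨ x = Q.lo i + 1) :
    Q.Has (Function.update v i x) := by
  intro j
  by_cases hj : j = i
  · subst hj
    rw [Function.update_self]
    have : Q.hi j = Q.lo j + 1 := if_pos hi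
    omega
  · rw [Function.update_of_ne hj]
    exact hv j

theorem bub_ax (n : ℕ) (hn : 1 ≤ n) (P : Cube J) (hP : P.dim = n + 1) (s : Bool) :
    Ax Set.univ (bub n P s) := by
  classical
  have hcard : P.fr.card = n + 1 := hP
  -- ranks
  have hle : ∀ j ∈ P.fr, (P.fr.filter (· < j)).card ≤ n := by
    intro j hj
    have h1 : P.fr.filter (· < j) ⊆ P.fr.erase j := by
      intro x hx
      rw [Finset.mem_filter] at hx
      exact Finset.mem_erase.2 ⟨hx.2.ne, hx.1⟩
    have h2 := Finset.card_le_card h1
    rw [Finset.card_erase_of_mem hj, hcard] at h2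
    omega
  have hlt : ∀ j ∈ P.fr, ∀ j' ∈ P.fr, j < j' →
      (P.fr.filter (· < j)).card < (P.fr.filter (· < j')).card := by
    intro j hj j' _ hjj
    apply Finset.card_lt_card
    rw [Finset.ssubset_iff_of_subset]
    · exact ⟨j, Finset.mem_filter.2 ⟨hj, hjj⟩, fun h => lt_irrefl j (Finset.mem_filter.1 h).2⟩
    · intro x hx
      rw [Finset.mem_filter] at hx ⊢
      exact ⟨hx.1, hx.2.trans hjj⟩
  have hinj : ∀ j ∈ P.fr, ∀ j' ∈ P.fr,
      (P.fr.filter (· < j)).card = (P.fr.filter (· < j')).card → j = j' := by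
    intro j hj j' hj' h
    rcases lt_trichotomy j j' with hh | hh | hh
    · have := hlt j hj j' hj' hh
      omega
    · exact hh
    · have := hlt j' hj' j hj hh
      omega
  have hsur : ∀ ρ, ρ ≤ n → ∃ j ∈ P.fr, (P.fr.filter (· < j)).card = ρ := by
    intro ρ hρ
    have h1 : P.fr.image (fun j => (P.fr.filter (· < j)).card) = Finset.range (n + 1) := by
      apply Finset.eq_of_subset_of_card_le
      · intro x hx
        obtain ⟨j, hj, rfl⟩ := Finset.mem_image.1 hx
        exact Finset.mem_range.2 (Nat.lt_succ_of_le (hle j hj))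
      · rw [Finset.card_range, Finset.card_image_of_injOn (fun j hj j' hj' h => hinj j hj j' hj' h),
          hcard]
    have h2 : ρ ∈ P.fr.image (fun j => (P.fr.filter (· < j)).card) := by
      rw [h1]
      exact Finset.mem_range.2 (Nat.lt_succ_of_le hρ)
    obtain ⟨j, hj, hjρ⟩ := Finset.mem_image.1 h2
    exact ⟨j, hj, hjρ⟩
  intro Q _ i hi
  by_cases hc : Q.lo i = (n : ℤ) + 1
  · obtain ⟨j, hj, hjr⟩ := hsur i.val (by have := i.isLt; omega)
    refine ⟨j, ?_⟩
    intro v hv k hk
    have hInB : ∀ m : ℕ, (InBx n m (Function.update v i (Q.lo i + 1)) ↔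
        InBx n m (Function.update v i (Q.lo i))) := by
      intro m
      constructor
      · intro h a
        have h1 := h a
        by_cases ha : a = i
        · subst ha
          rw [Function.update_self] at h1 ⊢
          omega
        · rw [Function.update_of_ne ha] at h1 ⊢
          exact h1
      · intro h a
        have h1 := h a
        by_cases ha : a = i
        · subst ha
          rw [Function.update_self] at h1 ⊢
          omega
        · rw [Function.update_of_ne ha] at h1 ⊢
          exact h1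
    apply LP5_congr
    · intro hkP h
      have hne : (⟨(P.fr.filter (· < k)).card, h⟩ : Fin n) ≠ i := by
        intro he
        apply hk
        apply hinj k hkP j hj
        rw [hjr, ← he]
      rw [Function.update_of_ne hne, Function.update_of_ne hne]
      exact ⟨hInB _, Iff.rfl, Iff.rfl⟩
    · intro _ _
      exact hInB 0
  · -- the direction does not cross the middle
    have hcmp : ∀ (v : Fin n → ℤ) (a : Fin n),
        ((Function.update v i (Q.lo i + 1)) a ≤ (n : ℤ) + 1 ↔
          (Function.update v i (Q.lo i)) a ≤ (n : ℤ) + 1) ∧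
        ((n : ℤ) + 2 ≤ (Function.update v i (Q.lo i + 1)) a ↔
          (n : ℤ) + 2 ≤ (Function.update v i (Q.lo i)) a) := by
      intro v a
      by_cases ha : a = i
      · subst ha
        rw [Function.update_self, Function.update_self]
        omega
      · rw [Function.update_of_ne ha, Function.update_of_ne ha]
        exact ⟨Iff.rfl, Iff.rfl⟩
    -- at most one mixed level
    have huniq : ∀ m m' : ℕ, (∃ v v', Q.Has v ∧ Q.Has v' ∧ InBx n m v ∧ ¬ InBx n m v') →
        (∃ v v', Q.Has v ∧ Q.Has v' ∧ InBx n m' v ∧ ¬ InBx n m' v') → m = m' := by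
      intro m m' h h'
      obtain ⟨v, v', hv, hv', a1, a2⟩ := h
      obtain ⟨w, w', hw, hw', b1, b2⟩ := h'
      rcases lt_trichotomy m m' with hh | hh | hh
      · exact absurd (LP5_mono n Q v w' hv hw' m m' hh a1) b2
      · exact hh
      · exact absurd (LP5_mono n Q w v' hw hv' m' m hh b1) a2
    have hmix : ∀ (v : Fin n → ℤ), Q.Has v → ∀ m : ℕ,
        ¬ (InBx n m (Function.update v i (Q.lo i + 1)) ↔ InBx n m (Function.update v i (Q.lo i))) →
        (∃ v v', Q.Has v ∧ Q.Has v' ∧ InBx n m v ∧ ¬ InBx n m v') := by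
      intro v hv m h
      have u1 := LP5_upd n Q i hi v hv (Q.lo i + 1) (Or.inr rfl)
      have u0 := LP5_upd n Q i hi v hv (Q.lo i) (Or.inl rfl)
      by_cases h1 : InBx n m (Function.update v i (Q.lo i + 1))
      · by_cases h2 : InBx n m (Function.update v i (Q.lo i))
        · exact absurd (iff_of_true h1 h2) h
        · exact ⟨_, _, u1, u0, h1, h2⟩
      · by_cases h2 : InBx n m (Function.update v i (Q.lo i))
        · exact ⟨_, _, u0, u1, h2, h1⟩
        · exact absurd (iff_of_false h1 h2) h
    by_cases hex : ∃ m : ℕ, m ≤ n ∧ (∃ v v', Q.Has v ∧ Q.Has v' ∧ InBx n m v ∧ ¬ InBx n m v')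
    · obtain ⟨m, hm, hmm⟩ := hex
      obtain ⟨j, hj, hjr⟩ : ∃ j ∈ P.fr, (P.fr.filter (· < j)).card = if m = 0 then n else m - 1 := by
        apply hsur
        split_ifs
        · exact le_refl n
        · omega
      refine ⟨j, ?_⟩
      intro v hv k hk
      apply LP5_congr
      · intro hkP h
        refine ⟨?_, (hcmp v _).1, (hcmp v _).2⟩
        by_contra hcon
        have h1 := huniq _ _ hmm (hmix v hv _ hcon)
        apply hk
        apply hinj k hkP j hj
        rw [hjr, if_neg (by omega), h1]
        omega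
      · intro hkP h
        by_contra hcon
        have h1 := huniq _ _ hmm (hmix v hv _ hcon)
        apply hk
        apply hinj k hkP j hj
        have := hle k hkP
        rw [hjr, if_pos h1]
        omega
    · obtain ⟨j, _, _⟩ := hsur 0 (Nat.zero_le n)
      refine ⟨j, ?_⟩
      intro v hv k hk
      apply LP5_congr
      · intro hkP h
        refine ⟨?_, (hcmp v _).1, (hcmp v _).2⟩
        by_contra hcon
        exact hex ⟨_, h, hmix v hv _ hcon⟩
      · intro hkP h
        by_contra hcon
        exact hex ⟨0, Nat.zero_le n, hmix v hv _ hcon⟩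

end AGE
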