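import Pool.Agent.AGE.Defs
import Pool.Agent.AGE.FTD
import Pool.Agent.AGE.FTE
import Pool.Agent.AGE.FDD
import Pool.Agent.AGE.C1a
import Pool.Agent.AGE.C1b
import Pool.Agent.AGE.C3
import Pool.Agent.AGE.C5
import Pool.Agent.AGE.C6a
import Pool.Agent.AGE.C6b
import Pool.Agent.AGE.LPD
import Pool.Agent.AGE.LP1
import Pool.Agent.AGE.LP2
import Pool.Agent.AGE.LP5
import Pool.Agent.AGE.FD4

/-!
# AGE-LP6: the total push of the bubble

The total push `z` of the bubble map over the `(n+1)`-cube `P` is a cycle of faces of `P` of dimension `n`, so it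
is a multiple of `bd (one P)`; the multiple is found by comparing the coefficients of the upper face of `P` in the
last direction. Only the central cube contributes to it, and there the bubble is nondegenerate.
-/

set_option autoImplicit false

noncomputable section

namespace AGE

variable {V J : Type} [LinearOrder V] [LinearOrder J]

private theorem LP6_hi_mem {Q : Cube J} {j : J} (h : j ∈ Q.fr) : Q.hi j = Q.lo j + 1 := if_pos h

private theorem LP6_hi_not {Q : Cube J} {j : J} (h : j ∉ Q.fr) : Q.hi j = Q.lo j := if_neg h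

/-- a face of the same dimension is the whole cube -/
private theorem LP6_eq {R S : Cube J} (h : R.Le S) (hd : R.dim = S.dim) : R = S := by
  have h1 : R.fr ⊆ S.fr := Cube.fr_subset h
  have h2 : R.fr = S.fr := Finset.eq_of_subset_of_card_le h1 (by
    unfold Cube.dim at hd
    omega)
  refine Cube.ext (funext fun j => ?_) h2
  have h3 := h j
  by_cases hj : j ∈ S.fr
  · have h4 : j ∈ R.fr := by rw [h2]; exact hj
    rw [LP6_hi_mem hj, LP6_hi_mem h4] at h3
    omega
  · have h4 : j ∉ R.fr := by rw [h2]; exact hj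
    rw [LP6_hi_not hj, LP6_hi_not h4] at h3
    omega

private theorem LP6_up_i (Q : Cube J) (i : J) : (Q.up i).lo i = Q.lo i + 1 := Function.update_self _ _ _

private theorem LP6_up_ne (Q : Cube J) {i j : J} (h : j ≠ i) : (Q.up i).lo j = Q.lo j :=
  Function.update_of_ne h _ _

private theorem LP6_coef (S : Cube J) {k j : J} (hk : k ∈ S.fr) (hj : j ∈ S.fr) :
    (one (S.up j) - one (S.dn j)) (S.up k) = if j = k then 1 else 0 := by
  have hfr : ∀ {a b : J}, a ∈ S.fr → b ∈ S.fr → S.fr.erase a = S.fr.erase b → a = b := by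
    intro a b ha hb hab
    by_contra hne
    have h1 : a ∈ S.fr.erase b := Finset.mem_erase.2 ⟨hne, ha⟩
    rw [← hab] at h1
    exact Finset.notMem_erase a S.fr h1
  have h2 : ∀ a : J, a ∈ S.fr → S.dn a ≠ S.up k := by
    intro a ha h1
    have h3 : S.fr.erase a = S.fr.erase k := congrArg Cube.fr h1
    have h4 := hfr ha hk h3
    have h5 : (S.dn a).lo k = (S.up k).lo k := by rw [h1]
    rw [LP6_up_i] at h5
    have h6 : (S.dn a).lo k = S.lo k := rfl
    omega
  rw [Finsupp.sub_apply]
  unfold one
  rw [Finsupp.single_eq_of_ne (h2 j hj).symm]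
  by_cases hjk : j = k
  · rw [if_pos hjk, hjk, Finsupp.single_eq_same, sub_zero]
  · rw [if_neg hjk, Finsupp.single_eq_of_ne, sub_zero]
    intro h1
    have h3 : S.fr.erase k = S.fr.erase j := congrArg Cube.fr h1
    exact hjk (hfr hj hk h3.symm)

/-- the coefficient of an upper face in the boundary -/
private theorem LP6_bdQ (S : Cube J) {k : J} (hk : k ∈ S.fr) : bdQ S (S.up k) = sg S.fr k := by
  unfold bdQ
  rw [Finsupp.finsetSum_apply, Finset.sum_eq_single k]
  · rw [Finsupp.smul_apply, LP6_coef S hk hk, if_pos rfl, smul_eq_mul, mul_one]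
  · intro j hj hjk
    rw [Finsupp.smul_apply, LP6_coef S hk hj, if_neg hjk, smul_zero]
  · intro h
    exact absurd hk h

/-- the rank of an element -/
private theorem LP6_rank {n : ℕ} (s : Finset J) (h : s.card = n) (k : Fin n) :
    (s.filter (· < s.orderEmbOfFin h k)).card = k.val := by
  have h1 : s.filter (· < s.orderEmbOfFin h k) =
      (Finset.Iio k).map (s.orderEmbOfFin h).toEmbedding := by
    ext x
    rw [Finset.mem_filter, Finset.mem_map]
    constructor
    · rintro ⟨hx, hlt⟩
      have h2 : x ∈ Set.range (s.orderEmbOfFin h) := by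
        rw [Finset.range_orderEmbOfFin]
        exact hx
      obtain ⟨a, rfl⟩ := h2
      exact ⟨a, Finset.mem_Iio.2 ((s.orderEmbOfFin h).lt_iff_lt.1 hlt), rfl⟩
    · rintro ⟨a, ha, rfl⟩
      exact ⟨Finset.orderEmbOfFin_mem s h a, (s.orderEmbOfFin h).lt_iff_lt.2 (Finset.mem_Iio.1 ha)⟩
  rw [h1, Finset.card_map, Fin.card_Iio]

/-- the bubble at the coordinates of rank less than `n` -/
private theorem LP6_bub_lt {n : ℕ} (P : Cube J) (hP : P.fr.card = n + 1) (s : Bool)
    (v : Fin n → ℤ) (i : Fin n) (hv : InBx n 0 v) :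
    bub n P s v (P.fr.orderEmbOfFin hP i.castSucc) = P.lo (P.fr.orderEmbOfFin hP i.castSucc) +
      (if i.val = 0 ∧ s = false then (if v i ≤ (n : ℤ) + 1 then 1 else 0)
        else (if (n : ℤ) + 2 ≤ v i then 1 else 0)) := by
  classical
  have h1 := LP6_rank P.fr hP i.castSucc
  have h2 : (P.fr.filter (· < P.fr.orderEmbOfFin hP i.castSucc)).card = i.val := by
    rw [h1, Fin.val_castSucc]
  have h3 : (P.fr.filter (· < P.fr.orderEmbOfFin hP i.castSucc)).card < n := by
    rw [h2]
    exact i.isLt
  have h4 : InBx n ((P.fr.filter (· < P.fr.orderEmbOfFin hP i.castSucc)).card + 1) v := by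
    intro a
    have h5 := hv a
    push_cast at h5 ⊢
    omega
  have h6 : (⟨(P.fr.filter (· < P.fr.orderEmbOfFin hP i.castSucc)).card, h3⟩ : Fin n) = i :=
    Fin.ext h2
  unfold bub
  rw [if_pos (Finset.orderEmbOfFin_mem P.fr hP i.castSucc), dif_pos h3, h6]
  rw [h2] at h4 ⊢
  congr 1
  by_cases h7 : i.val = 0 ∧ s = false
  · refine Eq.trans ?_ (if_pos h7).symm
    by_cases h8 : v i ≤ (n : ℤ) + 1
    · refine Eq.trans (if_pos ?_) (if_pos h8).symm
      refine ⟨h4, ?_⟩
      rw [if_pos h7]
      exact h8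
    · refine Eq.trans (if_neg ?_) (if_neg h8).symm
      rintro ⟨-, h9⟩
      rw [if_pos h7] at h9
      exact h8 h9
  · refine Eq.trans ?_ (if_neg h7).symm
    by_cases h8 : (n : ℤ) + 2 ≤ v i
    · refine Eq.trans (if_pos ?_) (if_pos h8).symm
      refine ⟨h4, ?_⟩
      rw [if_neg h7]
      exact h8
    · refine Eq.trans (if_neg ?_) (if_neg h8).symm
      rintro ⟨-, h9⟩
      rw [if_neg h7] at h9
      exact h8 h9

/-- the bubble at the last coordinate -/
private theorem LP6_bub_last {n : ℕ} (P : Cube J) (hP : P.fr.card = n + 1) (s : Bool)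
    (v : Fin n → ℤ) [Decidable (InBx n 0 v)] :
    bub n P s v (P.fr.orderEmbOfFin hP (Fin.last n)) = P.lo (P.fr.orderEmbOfFin hP (Fin.last n)) +
      (if InBx n 0 v then 1 else 0) := by
  have h1 := LP6_rank P.fr hP (Fin.last n)
  have h3 : ¬ (P.fr.filter (· < P.fr.orderEmbOfFin hP (Fin.last n))).card < n := by
    rw [h1, Fin.val_last]
    exact lt_irrefl n
  unfold bub
  rw [if_pos (Finset.orderEmbOfFin_mem P.fr hP (Fin.last n)), dif_neg h3]
  congr 1
  by_cases h : InBx n 0 v
  · rw [if_pos h, if_pos h]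
  · rw [if_neg h, if_neg h]

/-- the bubble off the free coordinates -/
private theorem LP6_bub_off {n : ℕ} (P : Cube J) (s : Bool) (v : Fin n → ℤ) (j : J)
    (hj : j ∉ P.fr) : bub n P s v j = P.lo j := by
  unfold bub
  rw [if_neg hj, add_zero]

/-- the sign in direction `i` -/
private def LP6_eps (n : ℕ) (s : Bool) (i : Fin n) : ℤ := if i.val = 0 ∧ s = false then -1 else 1

private theorem LP6_tc_has {n : ℕ} (c : Fin n → ℤ) (v : Fin n → ℤ) :
    (tc n c).Has v ↔ ∀ i, c i ≤ v i ∧ v i ≤ c i + 1 := by
  have h : ∀ i, (tc n c).hi i = c i + 1 := fun i => LP6_hi_mem (Q := tc n c) (Finset.mem_univ i)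
  constructor
  · intro h1 i
    have h2 := h1 i
    rw [h i] at h2
    exact h2
  · intro h1 i
    rw [h i]
    exact h1 i

/-- the bubble is nondegenerate on the central cube -/
private theorem LP6_nd {n : ℕ} (P : Cube J) (hP : P.fr.card = n + 1) (s : Bool) :
    ND (bub n P s) (tc n (fun _ => (n : ℤ) + 1)) (P.up (P.fr.orderEmbOfFin hP (Fin.last n)))
      (fun i => P.fr.orderEmbOfFin hP i.castSucc) (LP6_eps n s) := by
  classical
  have hin : ∀ v, (tc n (fun _ => (n : ℤ) + 1)).Has v → InBx n 0 v := by
    intro v hv i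
    have h1 := (LP6_tc_has _ _).1 hv i
    push_cast
    omega
  have hne : ∀ i : Fin n, P.fr.orderEmbOfFin hP i.castSucc ≠ P.fr.orderEmbOfFin hP (Fin.last n) := by
    intro i h
    exact (Fin.castSucc_lt_last i).ne ((P.fr.orderEmbOfFin hP).injective h)
  have hfr : (P.up (P.fr.orderEmbOfFin hP (Fin.last n))).fr =
      P.fr.erase (P.fr.orderEmbOfFin hP (Fin.last n)) := rfl
  refine ⟨fun i _ i' _ h => ?_, fun i _ => ?_, fun k hk => ?_, fun i _ => ?_,
    fun i _ h v hv => ?_, fun i _ h v hv => ?_, fun k hk v hv => ?_⟩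
  · exact Fin.castSucc_injective n ((P.fr.orderEmbOfFin hP).injective h)
  · rw [hfr, Finset.mem_erase]
    exact ⟨hne i, Finset.orderEmbOfFin_mem P.fr hP _⟩
  · rw [hfr, Finset.mem_erase] at hk
    have h2 : k ∈ Set.range (P.fr.orderEmbOfFin hP) := by
      rw [Finset.range_orderEmbOfFin]
      exact hk.2
    obtain ⟨a, rfl⟩ := h2
    have h3 : a ≠ Fin.last n := fun h => hk.1 (by rw [h])
    refine ⟨a.castPred h3, Finset.mem_univ _, ?_⟩
    show P.fr.orderEmbOfFin hP (a.castPred h3).castSucc = P.fr.orderEmbOfFin hP a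
    rw [Fin.castSucc_castPred]
  · unfold LP6_eps
    by_cases h7 : i.val = 0 ∧ s = false
    · rw [if_pos h7]
      exact Or.inr rfl
    · rw [if_neg h7]
      exact Or.inl rfl
  · have h1 := (LP6_tc_has _ _).1 hv i
    show bub n P s v (P.fr.orderEmbOfFin hP i.castSucc) =
      (P.up (P.fr.orderEmbOfFin hP (Fin.last n))).lo (P.fr.orderEmbOfFin hP i.castSucc) +
        (v i - ((n : ℤ) + 1))
    rw [LP6_up_ne P (hne i), LP6_bub_lt P hP s v i (hin v hv)]
    have h7 : ¬ (i.val = 0 ∧ s = false) := by
      intro h8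
      unfold LP6_eps at h
      rw [if_pos h8] at h
      norm_num at h
    rw [if_neg h7]
    by_cases h8 : (n : ℤ) + 2 ≤ v i
    · rw [if_pos h8]
      omega
    · rw [if_neg h8]
      omega
  · have h1 := (LP6_tc_has _ _).1 hv i
    show bub n P s v (P.fr.orderEmbOfFin hP i.castSucc) =
      (P.up (P.fr.orderEmbOfFin hP (Fin.last n))).lo (P.fr.orderEmbOfFin hP i.castSucc) + 1 -
        (v i - ((n : ℤ) + 1))
    rw [LP6_up_ne P (hne i), LP6_bub_lt P hP s v i (hin v hv)]
    have h7 : i.val = 0 ∧ s = false := by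
      by_contra h8
      unfold LP6_eps at h
      rw [if_neg h8] at h
      norm_num at h
    rw [if_pos h7]
    by_cases h8 : v i ≤ (n : ℤ) + 1
    · rw [if_pos h8]
      omega
    · rw [if_neg h8]
      omega
  · by_cases hkl : k = P.fr.orderEmbOfFin hP (Fin.last n)
    · rw [hkl, LP6_bub_last P hP s v, if_pos (hin v hv), LP6_up_i]
    · have hk' : k ∉ P.fr := by
        intro h
        apply hk
        rw [hfr, Finset.mem_erase]
        exact ⟨hkl, h⟩
      rw [LP6_bub_off P s v k hk', LP6_up_ne P hkl]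

/-- the product of the signs -/
private theorem LP6_prod (n : ℕ) (hn : 1 ≤ n) (s : Bool) :
    (∏ i : Fin n, LP6_eps n s i) = if s = false then -1 else 1 := by
  classical
  rw [Finset.prod_eq_single (⟨0, hn⟩ : Fin n)]
  · unfold LP6_eps
    by_cases hs : s = false
    · rw [if_pos ⟨rfl, hs⟩, if_pos hs]
    · rw [if_neg (fun h => hs h.2), if_neg hs]
  · intro i _ hi
    unfold LP6_eps
    rw [if_neg]
    rintro ⟨h, -⟩
    exact hi (Fin.ext h)
  · intro h
    exact absurd (Finset.mem_univ _) h

/-- the sign of the order of an increasing map -/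
private theorem LP6_ivs {n : ℕ} (e : Fin n → J) (he : ∀ x y, x < y → e x < e y) (s : Finset (Fin n)) :
    ivs e s = 1 := by
  unfold ivs
  refine Finset.prod_eq_one fun x _ => Finset.prod_eq_one fun y _ => ?_
  rw [if_neg]
  rintro ⟨h1, h2⟩
  exact lt_asymm (he x y h1) h2

omit [LinearOrder J] in
private theorem LP6_one_self (Q : Cube J) : (one Q) Q = 1 := by
  unfold one
  rw [Finsupp.single_eq_same]

/-- the main computation: the total push is `± (-1)^n` times the boundary of `P` -/
private theorem LP6_main (n : ℕ) (hn : 2 ≤ n) (P : Cube J) (hP : P.dim = n + 1) (s : Bool) :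
    IsLoop n P P.lo (((if s = false then (-1 : ℤ) else 1) * (-1) ^ n) • bd (one P)) := by
  classical
  have hP' : P.fr.card = n + 1 := hP
  obtain ⟨φ, hφ⟩ := push_exists n (Set.univ : Set (Cube (Fin n))) (fun _ _ _ _ => Set.mem_univ _)
    (fun c _ => by
      have h := Finset.card_le_univ c.fr
      rw [Fintype.card_fin] at h
      exact h) (bub n P s)
    (fun Q _ => ⟨P, Set.mem_univ _, fun v _ => bub_mem n P s v⟩)
  have hvm : VMap (Set.univ : Set (Cube (Fin n))) (Faces P) (bub n P s) :=
    fun Q _ => ⟨P, Cube.le_refl' P, fun v _ => bub_mem n P s v⟩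
  have hax : Ax (Set.univ : Set (Cube (Fin n))) (bub n P s) := bub_ax n (by omega) P hP s
  have hcel := cel_of_ax Set.univ (Faces P) (closed_faces P) (bub n P s) hvm hax
  have hL : 0 < 2 * n + 3 := by omega
  have hout : ∀ v : Fin n → ℤ, (∃ i, v i ≤ 0 ∨ ((2 * n + 3 : ℕ) : ℤ) ≤ v i) →
      bub n P s v = P.lo := by
    intro v hv
    refine bub_out n P s v ?_
    obtain ⟨i, hi⟩ := hv
    refine ⟨i, ?_⟩
    push_cast at hi
    exact hi
  -- the value
  have hz : φ (sub (2 * n + 3) (one (ucube n))) =
      ((if s = false then (-1 : ℤ) else 1) * (-1) ^ n) • bd (one P) := by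
    -- membership
    have hum : sub (2 * n + 3) (one (ucube n)) ∈ CC (Set.univ : Set (Cube (Fin n))) n := by
      have h1 : one (ucube n) ∈ CC (Set.univ : Set (Cube (Fin n))) n := by
        have h2 := one_mem (K := (Set.univ : Set (Cube (Fin n)))) (Q := ucube n) (Set.mem_univ _)
        have h3 : (ucube n).dim = n := by
          show (Finset.univ : Finset (Fin n)).card = n
          rw [Finset.card_univ, Fintype.card_fin]
        rw [h3] at h2
        exact h2
      exact CC_mono (Set.subset_univ _) n (sub_mem (2 * n + 3) Set.univ n h1)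
    have hmem : φ (sub (2 * n + 3) (one (ucube n))) ∈ CC (Faces P) n := by
      refine map_mem φ (CC (Faces P) n) ?_ hum
      intro c _ hc
      have h1 := hφ.car c (Set.mem_univ _)
      rw [hc] at h1
      exact CC_mono (spn_sub (bub n P s) c P fun v _ => bub_mem n P s v) n h1
    -- it is a cycle
    have hchn : ∀ (i : ℕ) (x : Ch (Fin n)), x ∈ CC (Set.univ : Set (Cube (Fin n))) i →
        bd (φ x) = φ (bd x) := by
      intro i x hx
      have h1 := eq_of_one (bd ∘ₗ φ) (φ ∘ₗ bd) (fun c hc => hφ.chn c hc) hx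
      exact h1
    have hface : ∀ R : Cube (Fin n), R.dim = n - 1 → (∃ i, (R.lo i = 0 ∧ R.hi i = 0) ∨
        (R.lo i = 1 ∧ R.hi i = 1)) → φ (sub (2 * n + 3) (one R)) = 0 := by
      intro R hR hi
      have h1 : sub (2 * n + 3) (one R) ∈ CC (Grd (2 * n + 3) {R}) R.dim :=
        sub_mem (2 * n + 3) {R} R.dim (one_mem (Set.mem_singleton R))
      have h2 : φ (sub (2 * n + 3) (one R)) ∈ (⊥ : Submodule ℤ (Ch J)) := by
        refine map_mem φ ⊥ ?_ h1
        intro c hc hcd
        obtain ⟨R', hR', hcR⟩ := hc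
        rw [Set.mem_singleton_iff] at hR'
        subst hR'
        rw [Submodule.mem_bot]
        refine push_const Set.univ (bub n P s) φ hφ c (Set.mem_univ _) P.lo ?_ (by omega)
        intro v hv
        apply hout
        obtain ⟨i, hi⟩ := hi
        refine ⟨i, ?_⟩
        have h3 := hcR i
        have h4 := hv i
        rcases hi with ⟨h5, h6⟩ | ⟨h5, h6⟩
        · rw [h5, h6] at h3
          left
          omega
        · rw [h5, h6] at h3
          right
          omega
      exact (Submodule.mem_bot ℤ).1 h2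
    have hbd : bd (φ (sub (2 * n + 3) (one (ucube n)))) = 0 := by
      rw [hchn n _ hum, ← sub_bd (2 * n + 3) hL, bd_one, bdQ, map_sum, map_sum]
      refine Finset.sum_eq_zero fun j hj => ?_
      have hdim : ((ucube n).fr.erase j).card = n - 1 := by
        rw [Finset.card_erase_of_mem hj]
        show (Finset.univ : Finset (Fin n)).card - 1 = n - 1
        rw [Finset.card_univ, Fintype.card_fin]
      rw [map_smul, map_smul, map_sub, map_sub, hface ((ucube n).up j) hdim ⟨j, Or.inr ?_⟩,
        hface ((ucube n).dn j) hdim ⟨j, Or.inl ?_⟩, sub_zero, smul_zero]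
      · have h1 : ((ucube n).dn j).lo j = 0 := rfl
        have h2 : ((ucube n).dn j).hi j = ((ucube n).dn j).lo j :=
          LP6_hi_not (Finset.notMem_erase j (ucube n).fr)
        exact ⟨h1, h2.trans h1⟩
      · have h1 : ((ucube n).up j).lo j = 1 := by
          rw [LP6_up_i]
          rfl
        have h2 : ((ucube n).up j).hi j = ((ucube n).up j).lo j :=
          LP6_hi_not (Finset.notMem_erase j (ucube n).fr)
        exact ⟨h1, h2.trans h1⟩
    -- so it is a multiple of the boundary of `P`
    obtain ⟨y, hy, hyz⟩ := acy_faces P n _ hmem (fun _ => hbd) (fun h => by omega)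
    have hyP : y = y P • one P := by
      refine Finsupp.ext fun Q => ?_
      rw [Finsupp.smul_apply]
      by_cases hQ : Q = P
      · rw [hQ, LP6_one_self, smul_eq_mul, mul_one]
      · have h1 : y Q = 0 := by
          by_contra h2
          have h3 : Q ∈ y.support := Finsupp.mem_support_iff.2 h2
          have h4 : (y.support : Set (Cube J)) ⊆ {Q : Cube J | Q ∈ Faces P ∧ Q.dim = n + 1} :=
            (Finsupp.mem_supported ℤ y).1 hy
          have h5 := h4 (Finset.mem_coe.2 h3)
          exact hQ (LP6_eq h5.1 (h5.2.trans hP.symm))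
        have h2 : (one P) Q = 0 := by
          unfold one
          rw [Finsupp.single_eq_of_ne hQ]
        rw [h1, h2, smul_zero]
    have hjl := Finset.orderEmbOfFin_mem P.fr hP' (Fin.last n)
    -- the coefficient of the upper face
    have hc1 : φ (sub (2 * n + 3) (one (ucube n)))
        (P.up (P.fr.orderEmbOfFin hP' (Fin.last n))) = y P * (-1) ^ n := by
      rw [← hyz]
      conv_lhs => rw [hyP]
      rw [map_smul, bd_one, Finsupp.smul_apply, LP6_bdQ P hjl, smul_eq_mul]
      unfold sg
      rw [LP6_rank P.fr hP' (Fin.last n), Fin.val_last]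
    have hc2 : φ (sub (2 * n + 3) (one (ucube n)))
        (P.up (P.fr.orderEmbOfFin hP' (Fin.last n))) = if s = false then -1 else 1 := by
      rw [sub_ucube n (2 * n + 3) hL, map_sum, Finsupp.finsetSum_apply,
        Finset.sum_eq_single (fun _ : Fin n => (n : ℤ) + 1)]
      · rw [push_sign Set.univ (fun _ _ _ _ => Set.mem_univ _) (bub n P s) φ hφ _
          (Set.mem_univ _) _ _ _ (LP6_nd P hP' s), Finsupp.smul_apply, LP6_one_self, smul_eq_mul,
          mul_one, LP6_ivs, one_mul]
        · exact LP6_prod n (by omega) s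
        · intro x y hxy
          exact (P.fr.orderEmbOfFin hP').lt_iff_lt.2 (Fin.castSucc_lt_castSucc_iff.2 hxy)
      · intro c _ hc
        by_contra hne
        obtain ⟨S₀, hS₀, hd₀, hS⟩ := hcel (tc n c) (Set.mem_univ _)
        have htd : (tc n c).dim = n := by
          show (Finset.univ : Finset (Fin n)).card = n
          rw [Finset.card_univ, Fintype.card_fin]
        have h1 := CC_mono (spn_sub (bub n P s) (tc n c) S₀ hS) _ (hφ.car (tc n c) (Set.mem_univ _))
        have h2 := (Finsupp.mem_supported ℤ _).1 h1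
        have h3 := h2 (Finset.mem_coe.2 (Finsupp.mem_support_iff.2 hne))
        have h4 : P.up (P.fr.orderEmbOfFin hP' (Fin.last n)) = S₀ := by
          refine LP6_eq h3.1 (le_antisymm (Cube.le_dim h3.1) ?_)
          have h5 := h3.2
          omega
        -- a vertex outside of the inner box
        have h5 : ∃ v, (tc n c).Has v ∧ ¬ InBx n 0 v := by
          have h6 : ∃ i, c i ≠ (n : ℤ) + 1 := by
            by_contra h7
            exact hc (funext fun i => by_contra fun h8 => h7 ⟨i, h8⟩)
          obtain ⟨i, hi⟩ := h6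
          rcases lt_or_gt_of_ne hi with h7 | h7
          · refine ⟨c, (LP6_tc_has _ _).2 fun a => ⟨le_rfl, by omega⟩, fun h8 => ?_⟩
            have h9 := h8 i
            push_cast at h9
            omega
          · refine ⟨fun a => c a + 1, (LP6_tc_has _ _).2 fun a => ⟨by omega, le_rfl⟩, fun h8 => ?_⟩
            have h9 := h8 i
            push_cast at h9
            omega
        obtain ⟨v, hv, hvn⟩ := h5
        have h6 := hS v hv
        rw [← h4] at h6
        have h7 := (h6 (P.fr.orderEmbOfFin hP' (Fin.last n))).1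
        rw [LP6_up_i, LP6_bub_last P hP' s v, if_neg hvn] at h7
        omega
      · intro h
        exfalso
        apply h
        rw [Fintype.mem_piFinset]
        intro _
        rw [Finset.mem_Ico]
        push_cast
        omega
    have hm : y P = (if s = false then (-1 : ℤ) else 1) * (-1) ^ n := by
      rw [← hc2, hc1, mul_assoc, ← pow_add, ← two_mul, pow_mul]
      norm_num
    rw [← hyz]
    conv_lhs => rw [hyP]
    rw [map_smul, hm]
  exact ⟨2 * n + 3, bub n P s, φ, hL, hvm, hax, hφ, hout, hz⟩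

theorem bubble (n : ℕ) (hn : 2 ≤ n) (P : Cube J) (hP : P.dim = n + 1) :
    IsLoop n P P.lo (bd (one P)) ∧ IsLoop n P P.lo (- bd (one P)) := by
  have ht := LP6_main n hn P hP true
  have hf := LP6_main n hn P hP false
  rw [if_neg (by decide), one_mul] at ht
  rw [if_pos rfl] at hf
  rcases neg_one_pow_eq_or ℤ n with h | h
  · rw [h, one_smul] at ht
    rw [h, mul_one, neg_smul, one_smul] at hf
    exact ⟨ht, hf⟩
  · rw [h, neg_smul, one_smul] at ht
    rw [h] at hf
    have h1 : ((-1 : ℤ) * -1) = 1 := by norm_num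
    rw [h1, one_smul] at hf
    exact ⟨hf, ht⟩

end AGE
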