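import Pool.Agent.AGE.Defs
import Pool.Agent.AGE.FTD
import Pool.Agent.AGE.FTE
import Pool.Agent.AGE.FDD
import Pool.Agent.AGE.C1a
import Pool.Agent.AGE.C1b
import Pool.Agent.AGE.LPD
import Pool.Agent.AGE.LP3
import Pool.Agent.AGE.LP4
import Pool.Agent.AGE.LP6

/-!
# AGE-LOOPP: loops realize all boundaries

The bubbles over the `(n+1)`-cubes of `t`, moved to the base point `b`, generate all boundaries.
-/

set_option autoImplicit false

noncomputable section

namespace AGE

variable {V J : Type} [LinearOrder V] [LinearOrder J]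


private theorem LOOPP_mono {n : ℕ} {P t : Cube J} (h : P.Le t) {b : J → ℤ} {z : Ch J}
    (hl : IsLoop n P b z) : IsLoop n t b z := by
  obtain ⟨L, om, φ, hd⟩ := hl
  refine ⟨L, om, φ, hd.pos, fun Q hQ => ?_, hd.axi, hd.psh, hd.out, hd.val⟩
  obtain ⟨S, hS, hv⟩ := hd.vmp Q hQ
  exact ⟨S, Cube.le_trans' hS h, hv⟩

private theorem LOOPP_nsmul [Nonempty J] {n : ℕ} (hn : 1 ≤ n) {t : Cube J} {b : J → ℤ}
    (hb : t.Has b) {z : Ch J} (h : IsLoop n t b z) (k : ℕ) : IsLoop n t b (k • z) := by
  induction k with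
  | zero =>
    rw [zero_smul]
    exact loop_zero n hn t b hb
  | succ k ih =>
    rw [succ_nsmul]
    exact loop_add n hn t b _ _ ih h

private theorem LOOPP_zsmul [Nonempty J] {n : ℕ} (hn : 1 ≤ n) {t : Cube J} {b : J → ℤ}
    (hb : t.Has b) {z : Ch J} (h : IsLoop n t b z) (h' : IsLoop n t b (-z)) (c : ℤ) :
    IsLoop n t b (c • z) := by
  obtain ⟨k, hk | hk⟩ := Int.eq_nat_or_neg c
  · rw [hk, natCast_zsmul]
    exact LOOPP_nsmul hn hb h k
  · have h1 : c • z = k • (-z) := by
      rw [hk, neg_smul, natCast_zsmul, smul_neg]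
    rw [h1]
    exact LOOPP_nsmul hn hb h' k

theorem loop' (n : ℕ) (hn : 2 ≤ n) (t : Cube J) (b : J → ℤ) (hb : t.Has b) (l : Ch J)
    (hl : l ∈ CC (Faces t) (n + 1)) [Nonempty J] : IsLoop n t b (bd l) := by
  classical
  have hn1 : 1 ≤ n := by omega
  have hsup : ∀ P ∈ l.support, P.Le t ∧ P.dim = n + 1 := by
    intro P hP
    have h1 := (Finsupp.mem_supported ℤ l).1 hl (Finset.mem_coe.2 hP)
    exact ⟨h1.1, h1.2⟩
  have hone : ∀ P ∈ l.support, IsLoop n t b (l P • bd (one P)) := by
    intro P hP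
    obtain ⟨h1, h2⟩ := hsup P hP
    obtain ⟨h3, h4⟩ := bubble n hn P h2
    have h5 : t.Has P.lo := Cube.has_of_le h1 (Cube.has_lo P)
    exact LOOPP_zsmul hn1 hb (loop_base n hn t P.lo b h5 hb _ (LOOPP_mono h1 h3))
      (loop_base n hn t P.lo b h5 hb _ (LOOPP_mono h1 h4)) (l P)
  have hsum : bd l = ∑ P ∈ l.support, l P • bd (one P) := by
    conv_lhs => rw [← Finsupp.sum_single l]
    unfold Finsupp.sum
    rw [map_sum]
    refine Finset.sum_congr rfl fun P _ => ?_
    have h1 : Finsupp.single P (l P) = l P • one P := by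
      unfold one
      rw [Finsupp.smul_single, smul_eq_mul, mul_one]
    rw [h1, map_smul]
  have key : ∀ S : Finset (Cube J), S ⊆ l.support →
      IsLoop n t b (∑ P ∈ S, l P • bd (one P)) := by
    intro S
    induction S using Finset.induction_on with
    | empty =>
      intro _
      rw [Finset.sum_empty]
      exact loop_zero n hn1 t b hb
    | insert P S hP ih =>
      intro hS
      rw [Finset.sum_insert hP]
      exact loop_add n hn1 t b _ _ (hone P (hS (Finset.mem_insert_self P S)))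
        (ih fun Q hQ => hS (Finset.mem_insert_of_mem hQ))
  rw [hsum]
  exact key l.support (Finset.Subset.refl _)

end AGE
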