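import Pool.Agent.AGE.Defs
import Pool.Agent.AGE.FTD
import Pool.Agent.AGE.FTE
import Pool.Agent.AGE.FDD
import Pool.Agent.AGE.LPD
import Pool.Agent.AGE.FILLP
import Pool.Agent.AGE.LOOPP

/-!
# Project AGE, layer FILL: filling of spheres in the `n`-skeleton of a cube, loops

`fill` is proved in FILLP.lean from the modules FT*, FD*; `loop` in LOOPP.lean from the modules LP*.
-/

set_option autoImplicit false

noncomputable section

namespace AGE

variable {V J : Type} [LinearOrder V] [LinearOrder J]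


theorem fill (n : ℕ) (hn : 2 ≤ n) (M : ℕ) (hM : 0 < M) (t : Cube J)
    (g : (Fin (n + 1) → ℤ) → (J → ℤ))
    (hg : Cel (Grd M (Sk n (Faces (ucube (n + 1))))) (Faces t) g)
    (hA : Ax (Grd M (Sk n (Faces (ucube (n + 1))))) g)
    (φ : Ch (Fin (n + 1)) →ₗ[ℤ] Ch J)
    (hφ : Push (Grd M (Sk n (Faces (ucube (n + 1))))) (Spn g) g φ)
    (h0 : φ (sub M (bd (one (ucube (n + 1))))) = 0) : Fills n M t g :=
  fill' n hn M hM t g hg hA φ hφ h0

theorem loop (n : ℕ) (hn : 2 ≤ n) (t : Cube J) (b : J → ℤ) (hb : t.Has b) (l : Ch J)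
    (hl : l ∈ CC (Faces t) (n + 1)) [Nonempty J] : IsLoop n t b (bd l) :=
  loop' n hn t b hb l hl

end AGE
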