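import Pool.Agent.AGE.Defs
import Pool.Agent.AGE.LPD

/-!
# Project AGE, layer GEO1: definitions
-/

set_option autoImplicit false

noncomputable section

namespace AGE

variable {V J : Type} [LinearOrder V] [LinearOrder J]


/-- `v` lies in `M` times the cube `c` -/
def InC (M : ℕ) (c : Cube V) (v : V → ℤ) : Prop :=
  ∀ i, (M : ℤ) * c.lo i ≤ v i ∧ v i ≤ (M : ℤ) * c.hi i

/-- `h` is obtained from the dilation of `f` by `L` by inserting `om c` at the lowest corner of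
every `n`-cell `c` of `K` (grid of size `M * L`) -/
structure Ins (n : ℕ) (K : Set (Cube V)) (M L : ℕ) (f : (V → ℤ) → (J → ℤ))
    (om : Cube V → (Fin n → ℤ) → (J → ℤ)) (h : (V → ℤ) → (J → ℤ)) : Prop where
  low : ∀ c ∈ K, c.dim < n → ∀ v, InC (M * L) c v → h v = f (flo L 0 v)
  cor : ∀ c ∈ K, ∀ hd : c.fr.card = n, ∀ v : Fin n → ℤ, (∀ i, 0 ≤ v i ∧ v i ≤ L) →
    h (embP (c.fr.orderEmbOfFin hd) (fun j => ((M * L : ℕ) : ℤ) * c.lo j) v) = om c v
  far : ∀ c ∈ K, c.dim = n → ∀ v, InC (M * L) c v →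
    (∃ i ∈ c.fr, ((M * L : ℕ) : ℤ) * c.lo i + L ≤ v i) → h v = f (flo L 0 v)

end AGE
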