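import Pool.Agent.AGE.Defs
import Pool.Agent.AGE.FTD
import Pool.Agent.AGE.FTE
import Pool.Agent.AGE.FDD
import Pool.Agent.AGE.C1a
import Pool.Agent.AGE.C1b
import Pool.Agent.AGE.C5
import Pool.Agent.AGE.C6a
import Pool.Agent.AGE.C6b
import Pool.Agent.AGE.FILL
import Pool.Agent.AGE.LPD
import Pool.Agent.AGE.LP1
import Pool.Agent.AGE.LP2
import Pool.Agent.AGE.GED

/-!
# AGE-GE3a: filling of one `(n+1)`-cell

Plan. `fill` with `t = s c`, `g = h ∘ embP e (M c.lo)`, `e = c.fr.orderEmbOfFin hd`, `φ = hp ∘ embC e (M c.lo)`. For `Q ∈ Grd M (Sk n (Faces (ucube (n+1))))` with parent `P`: `emb e c.lo P` is a face of `c` (`emb_le`, `cell_ucube`), in `K` (closed), of dimension `P.dim ≤ n` (`emb_dim`), and `emb e (M c.lo) Q` lies in `M` times it (`emb_inM`). So `push_emb`, `axAt_emb` give `hφ`,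
`hA`; control: the vertices of `emb e (M c.lo) Q` satisfy `InC M (emb e c.lo P)`, so `h v` is a vertex of `s (emb e c.lo P)`, a face of `s c` (`hs1`): `VMap` to `Faces (s c)`; `Cel` by `cel_of_ax`. `h0`: `embC (M c.lo) (sub M (bd (one ucube))) = sub M (embC e c.lo (bd (one ucube))) = sub M (bd (one c))` (`embC_sub`, `embC_bd`, `embC_one`, `cell_ucube`).
-/

set_option autoImplicit false

noncomputable section

namespace AGE

variable {V J : Type} [LinearOrder V] [LinearOrder J]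


theorem cell_fill (n : ℕ) (hn : 2 ≤ n) (K : Set (Cube V)) (hK : Closed K) (s : Cube V → Cube J)
    (hs1 : ∀ c ∈ K, ∀ d : Cube V, d.Le c → (s d).Le (s c)) (M : ℕ) (hM : 0 < M)
    (h : (V → ℤ) → (J → ℤ)) (hA : Ax (Grd M (Sk n K)) h)
    (hc : ∀ c ∈ Sk n K, ∀ v, InC M c v → (s c).Has (h v)) (hp : Ch V →ₗ[ℤ] Ch J)
    (hhp : Push (Grd M (Sk n K)) (Spn h) h hp) (c : Cube V) (hcK : c ∈ K)
    (hd : c.fr.card = n + 1) (h0 : hp (sub M (bd (one c))) = 0) :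
    Fills n M (s c) (h ∘ embP (c.fr.orderEmbOfFin hd) (fun j => (M : ℤ) * c.lo j)) := by
  have hKQ : ∀ Q ∈ Grd M (Sk n (Faces (ucube (n + 1)))), ∃ P ∈ Sk n K, P.Le c ∧
      (emb (c.fr.orderEmbOfFin hd) (fun j => (M : ℤ) * c.lo j) Q).InM M P := by
    rintro Q ⟨P0, ⟨hP0, hP0d⟩, hQ⟩
    have h1 : (emb (c.fr.orderEmbOfFin hd) c.lo P0).Le c := by
      have h2 := emb_le (c.fr.orderEmbOfFin hd) c.lo (Q := P0) (P := ucube (n + 1)) hP0
      rw [cell_ucube c hd] at h2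
      exact h2
    refine ⟨emb (c.fr.orderEmbOfFin hd) c.lo P0, ⟨hK c hcK _ h1, ?_⟩, h1, ?_⟩
    · rw [emb_dim]
      exact hP0d
    · exact emb_inM (c.fr.orderEmbOfFin hd) c.lo M hQ
  have hK' : ∀ Q ∈ Grd M (Sk n (Faces (ucube (n + 1)))),
      emb (c.fr.orderEmbOfFin hd) (fun j => (M : ℤ) * c.lo j) Q ∈ Grd M (Sk n K) := by
    intro Q hQ
    obtain ⟨P, hP, _, hQP⟩ := hKQ Q hQ
    exact ⟨P, hP, hQP⟩
  have hV : VMap (Grd M (Sk n (Faces (ucube (n + 1))))) (Faces (s c))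
      (h ∘ embP (c.fr.orderEmbOfFin hd) (fun j => (M : ℤ) * c.lo j)) := by
    intro Q hQ
    obtain ⟨P, hP, hPc, hQP⟩ := hKQ Q hQ
    refine ⟨s P, hs1 c hcK P hPc, fun v hv => ?_⟩
    refine hc P hP _ fun i => ?_
    have h1 := (emb_has (c.fr.orderEmbOfFin hd) (fun j => (M : ℤ) * c.lo j) Q _).2 ⟨v, hv, rfl⟩ i
    have h2 := hQP i
    exact ⟨h2.1.trans h1.1, h1.2.trans h2.2⟩
  have hAx : Ax (Grd M (Sk n (Faces (ucube (n + 1)))))
      (h ∘ embP (c.fr.orderEmbOfFin hd) (fun j => (M : ℤ) * c.lo j)) := by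
    intro Q hQ
    exact (axAt_emb (c.fr.orderEmbOfFin hd) (fun j => (M : ℤ) * c.lo j) h Q).2 (hA _ (hK' Q hQ))
  refine fill n hn M hM (s c) _ (cel_of_ax _ _ (closed_faces _) _ hV hAx) hAx
    (hp ∘ₗ embC (c.fr.orderEmbOfFin hd) (fun j => (M : ℤ) * c.lo j))
    (push_emb _ _ (Grd M (Sk n K)) _ hK' h hp hhp) ?_
  rw [LinearMap.comp_apply, ← embC_sub (c.fr.orderEmbOfFin hd) c.lo M hM, ← embC_bd, embC_one,
    cell_ucube c hd]
  exact h0

end AGE
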