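import Pool.Agent.AGE.Defs
import Pool.Agent.AGE.FTD
import Pool.Agent.AGE.FTE
import Pool.Agent.AGE.FDD
import Pool.Agent.AGE.C1b
import Pool.Agent.AGE.C6c
import Pool.Agent.AGE.LPD
import Pool.Agent.AGE.LP1
import Pool.Agent.AGE.GED

/-!
# AGE-GE3b: gluing of the fillings of the `(n+1)`-cells

Plan. `D` = the maximum of the `D₀ c` over the finitely many `(n+1)`-cells `c` (and `3`); `G c` the filling for `D`. Call `v` strictly inside `c` (`c ∈ K`, `c.fr.card = n + 1`) if `(M D) c.lo i < v i < (M D) (c.lo i + 1)` for `i ∈ c.fr` and `v i = (M D) c.lo i` for `i ∉ c.fr`; `v i` is a multiple of `M D` exactly for `i ∉ c.fr`, so `c` is determined by `v`.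
`H v = G c (fun k => v (e k) - (M D) c.lo (e k))` if there is such a `c`, `h (flo D 1 v)` otherwise. First claim: if `c.dim ≤ n` and `InC (M D) c v` then at most `n` coordinates of `v` are not multiples of `M D`: second case. Second claim: `Q.InM (M D) c`, `c.fr.card = n + 1`: `Q = emb e (M D c.lo) Q'`, `Q'.InM (M D) (ucube (n+1))` (`cell_inM`), so `Q' ∈ Grd (M D) (Faces (ucube (n+1)))`
and there is `S ∈ Sk n (Faces (s c))` with `S.Has (G c v')` for the vertices `v'` of `Q'`. Let `v = embP e (M D c.lo) v'` be a vertex of `Q` (`emb_has`). If all `0 < v' k < M D`: `v` is strictly inside `c`, the chosen cell is `c`, `H v = G c v'`. Otherwise `v` is not strictly inside any cell (at most `n` non-multiples), so `H v = h (flo D 1 v)`, and `G c v' = h (embP e (M c.lo) (flo D 1 v'))`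
because `v'` is a vertex of the cube `pt v'` of `Grd (M D) (Sk n (Faces (ucube (n+1))))` (parent: the face of the unit cube with the coordinate `k` fixed, `v' k ∈ {0, M D}`); and `flo D 1 (embP e (M D c.lo) v') = embP e (M c.lo) (flo D 1 v')` (`(M D x + y + 1) / D = M x + (y + 1) / D`; off the range `(M D x + 1) / D = M x` because `D ≥ 2`).
-/

set_option autoImplicit false

noncomputable section

namespace AGE

variable {V J : Type} [LinearOrder V] [LinearOrder J]


private def ge3b_str (N : ℤ) (c : Cube V) (v : V → ℤ) : Prop :=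
  (∀ i ∈ c.fr, N * c.lo i < v i ∧ v i < N * (c.lo i + 1)) ∧ (∀ i, i ∉ c.fr → v i = N * c.lo i)

omit [LinearOrder V] in
private theorem ge3b_str_fr {N : ℤ} (hN : 0 < N) {c : Cube V} {v : V → ℤ} (h : ge3b_str N c v)
    (i : V) : i ∈ c.fr ↔ ¬ N ∣ v i := by
  constructor
  · intro hi hd
    obtain ⟨h1, h2⟩ := h.1 i hi
    obtain ⟨q, hq⟩ := hd
    rw [hq] at h1 h2
    have h3 : c.lo i < q := lt_of_mul_lt_mul_left h1 hN.le
    have h4 : q < c.lo i + 1 := lt_of_mul_lt_mul_left h2 hN.le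
    omega
  · intro hi
    by_contra hn
    exact hi ⟨c.lo i, h.2 i hn⟩

omit [LinearOrder V] in
private theorem ge3b_str_lo {N : ℤ} (hN : 0 < N) {c : Cube V} {v : V → ℤ} (h : ge3b_str N c v)
    (i : V) : c.lo i = v i / N := by
  by_cases hi : i ∈ c.fr
  · obtain ⟨h1, h2⟩ := h.1 i hi
    symm
    rw [Int.ediv_eq_iff_of_pos hN]
    constructor
    · linarith
    · linarith
  · rw [h.2 i hi, Int.mul_ediv_cancel_left _ hN.ne']

omit [LinearOrder V] in
private theorem ge3b_str_unique {N : ℤ} (hN : 0 < N) {c c' : Cube V} {v : V → ℤ}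
    (h : ge3b_str N c v) (h' : ge3b_str N c' v) : c = c' := by
  refine Cube.ext ?_ ?_
  · funext i
    rw [ge3b_str_lo hN h, ge3b_str_lo hN h']
  · ext i
    rw [ge3b_str_fr hN h, ge3b_str_fr hN h']

private theorem ge3b_flo (M D : ℕ) (hD : 3 ≤ D) {m : ℕ} (e : Fin m ↪o V) (a : V → ℤ)
    (v : Fin m → ℤ) :
    flo D 1 (embP e (fun j => ((M * D : ℕ) : ℤ) * a j) v) =
      embP e (fun j => (M : ℤ) * a j) (flo D 1 v) := by
  have hD' : (0 : ℤ) < D := by omega
  funext j
  by_cases hj : ∃ k, e k = j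
  · obtain ⟨k, rfl⟩ := hj
    rw [embP_apply]
    show (embP e (fun j => ((M * D : ℕ) : ℤ) * a j) v (e k) + 1) / (D : ℤ) = _
    rw [embP_apply]
    show (((M * D : ℕ) : ℤ) * a (e k) + v k + 1) / (D : ℤ) = (M : ℤ) * a (e k) + (v k + 1) / (D : ℤ)
    have h1 : ((M * D : ℕ) : ℤ) * a (e k) + v k + 1 = (v k + 1) + (D : ℤ) * ((M : ℤ) * a (e k)) := by
      push_cast
      ring
    rw [h1, Int.add_mul_ediv_left _ _ hD'.ne']
    ring
  · have hj' : ∀ k, e k ≠ j := fun k hk => hj ⟨k, hk⟩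
    rw [embP_off _ _ _ _ hj']
    show (embP e (fun j => ((M * D : ℕ) : ℤ) * a j) v j + 1) / (D : ℤ) = _
    rw [embP_off _ _ _ _ hj']
    show (((M * D : ℕ) : ℤ) * a j + 1) / (D : ℤ) = (M : ℤ) * a j
    have h1 : ((M * D : ℕ) : ℤ) * a j + 1 = 1 + (D : ℤ) * ((M : ℤ) * a j) := by
      push_cast
      ring
    rw [h1, Int.add_mul_ediv_left _ _ hD'.ne']
    have h2 : (1 : ℤ) / (D : ℤ) = 0 := Int.ediv_eq_zero_of_lt (by norm_num) (by omega)
    rw [h2, zero_add]

private theorem ge3b_face (n N : ℕ) (v : Fin (n + 1) → ℤ) (h0 : ∀ k, 0 ≤ v k ∧ v k ≤ (N : ℤ))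
    (k : Fin (n + 1)) (hk : v k = 0 ∨ v k = N) :
    ∃ Q ∈ Grd N (Sk n (Faces (ucube (n + 1)))), Q.Has v := by
  classical
  obtain ⟨x, hx0, hx1, hxv⟩ : ∃ x : ℤ, 0 ≤ x ∧ x ≤ 1 ∧ v k = (N : ℤ) * x := by
    rcases hk with hk | hk
    · exact ⟨0, le_rfl, zero_le_one, by rw [hk, mul_zero]⟩
    · exact ⟨1, zero_le_one, le_rfl, by rw [hk, mul_one]⟩
  have hPlo : ∀ j, (⟨fun j => if j = k then x else 0, Finset.univ.erase k⟩ : Cube (Fin (n + 1))).lo j
      = if j = k then x else 0 := fun j => rfl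
  have hPhi : ∀ j, (⟨fun j => if j = k then x else 0, Finset.univ.erase k⟩ : Cube (Fin (n + 1))).hi j
      = if j = k then x else 1 := by
    intro j
    unfold Cube.hi
    by_cases hj : j = k
    · rw [if_neg (by simp [hj]), if_pos hj]
      exact if_pos hj
    · rw [if_pos (by simp [hj]), if_neg hj]
      show (if j = k then x else 0) + 1 = 1
      rw [if_neg hj, zero_add]
  refine ⟨pt v, ⟨⟨fun j => if j = k then x else 0, Finset.univ.erase k⟩, ⟨?_, ?_⟩, ?_⟩, ?_⟩
  · intro j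
    have h1 : (ucube (n + 1)).lo j = 0 := rfl
    have h2 : (ucube (n + 1)).hi j = 1 := by
      unfold Cube.hi ucube
      rw [if_pos (Finset.mem_univ j)]
      norm_num
    rw [h1, h2, hPlo, hPhi]
    by_cases hj : j = k
    · rw [if_pos hj, if_pos hj]
      exact ⟨hx0, hx1⟩
    · rw [if_neg hj, if_neg hj]
      exact ⟨le_rfl, le_rfl⟩
  · show (Finset.univ.erase k).card ≤ n
    rw [Finset.card_erase_of_mem (Finset.mem_univ k), Finset.card_univ, Fintype.card_fin]
    omega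
  · intro j
    have h1 : (pt v).lo j = v j := rfl
    have h2 : (pt v).hi j = v j := if_neg (Finset.notMem_empty j)
    rw [h1, h2, hPlo, hPhi]
    by_cases hj : j = k
    · rw [if_pos hj, if_pos hj, hj, hxv]
      exact ⟨le_rfl, le_rfl⟩
    · rw [if_neg hj, if_neg hj, mul_zero, mul_one]
      exact h0 j
  · exact Cube.pt_le.1 (Cube.le_refl' _)

theorem glue_fill (n : ℕ) (K : Set (Cube V)) (hK1 : K.Finite) (hK2 : Closed K)
    (s : Cube V → Cube J) (M : ℕ) (hM : 0 < M) (h : (V → ℤ) → (J → ℤ))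
    (hF : ∀ c ∈ K, ∀ hd : c.fr.card = n + 1,
      Fills n M (s c) (h ∘ embP (c.fr.orderEmbOfFin hd) (fun j => (M : ℤ) * c.lo j))) :
    ∃ (D : ℕ) (H : (V → ℤ) → (J → ℤ)), 3 ≤ D ∧
      (∀ c ∈ K, c.dim ≤ n → ∀ v, InC (M * D) c v → H v = h (flo D 1 v)) ∧
      (∀ c ∈ K, c.dim = n + 1 → ∀ Q : Cube V, Q.InM (M * D) c →
        ∃ S : Cube J, S.Le (s c) ∧ S.dim ≤ n ∧ ∀ v, Q.Has v → S.Has (H v)) := by
  classical
  -- the common size
  have hD0 : ∀ c : Cube V, ∃ D₀ : ℕ, ∀ (_ : c ∈ K) (hd : c.fr.card = n + 1), ∀ D : ℕ, D₀ ≤ D →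
      ∃ G : (Fin (n + 1) → ℤ) → (J → ℤ),
        VMap (Grd (M * D) (Faces (ucube (n + 1)))) (Sk n (Faces (s c))) G ∧
        ∀ v, (∃ Q ∈ Grd (M * D) (Sk n (Faces (ucube (n + 1)))), Q.Has v) →
          G v = (h ∘ embP (c.fr.orderEmbOfFin hd) (fun j => (M : ℤ) * c.lo j)) (flo D 1 v) := by
    intro c
    by_cases hc : c ∈ K ∧ c.fr.card = n + 1
    · obtain ⟨D₀, _, hD₀⟩ := hF c hc.1 hc.2
      exact ⟨D₀, fun _ _ => hD₀⟩
    · exact ⟨0, fun h1 h2 => absurd ⟨h1, h2⟩ hc⟩
  choose D₀ hD₀ using hD0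
  obtain ⟨D, hD3, hDG⟩ : ∃ D : ℕ, 3 ≤ D ∧ ∀ c ∈ K, D₀ c ≤ D := by
    refine ⟨hK1.toFinset.sup D₀ + 3, by omega, fun c hc => ?_⟩
    have h1 : D₀ c ≤ hK1.toFinset.sup D₀ := Finset.le_sup (by rwa [Set.Finite.mem_toFinset])
    omega
  have hG0 : ∀ c : Cube V, ∃ G : (Fin (n + 1) → ℤ) → (J → ℤ),
      ∀ (_ : c ∈ K) (hd : c.fr.card = n + 1),
        VMap (Grd (M * D) (Faces (ucube (n + 1)))) (Sk n (Faces (s c))) G ∧
        ∀ v, (∃ Q ∈ Grd (M * D) (Sk n (Faces (ucube (n + 1)))), Q.Has v) →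
          G v = (h ∘ embP (c.fr.orderEmbOfFin hd) (fun j => (M : ℤ) * c.lo j)) (flo D 1 v) := by
    intro c
    by_cases hc : c ∈ K ∧ c.fr.card = n + 1
    · obtain ⟨G, hG⟩ := hD₀ c hc.1 hc.2 D (hDG c hc.1)
      exact ⟨G, fun _ _ => hG⟩
    · exact ⟨fun _ _ => 0, fun h1 h2 => absurd ⟨h1, h2⟩ hc⟩
  choose G hG using hG0
  have hD' : 0 < D := by omega
  have hMD : 0 < M * D := Nat.mul_pos hM hD'
  have hN : (0 : ℤ) < ((M * D : ℕ) : ℤ) := by exact_mod_cast hMD
  -- the map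
  obtain ⟨H, hH1, hH2⟩ : ∃ H : (V → ℤ) → (J → ℤ),
      (∀ v, ∀ c ∈ K, ∀ hd : c.fr.card = n + 1, ge3b_str ((M * D : ℕ) : ℤ) c v →
        H v = G c (fun k => v (c.fr.orderEmbOfFin hd k) -
          ((M * D : ℕ) : ℤ) * c.lo (c.fr.orderEmbOfFin hd k))) ∧
      (∀ v, (∀ c ∈ K, c.fr.card = n + 1 → ¬ ge3b_str ((M * D : ℕ) : ℤ) c v) →
        H v = h (flo D 1 v)) := by
    have hex : ∀ v : V → ℤ, ∃ y : J → ℤ,
        (∀ c ∈ K, ∀ hd : c.fr.card = n + 1, ge3b_str ((M * D : ℕ) : ℤ) c v →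
          y = G c (fun k => v (c.fr.orderEmbOfFin hd k) -
            ((M * D : ℕ) : ℤ) * c.lo (c.fr.orderEmbOfFin hd k))) ∧
        ((∀ c ∈ K, c.fr.card = n + 1 → ¬ ge3b_str ((M * D : ℕ) : ℤ) c v) →
          y = h (flo D 1 v)) := by
      intro v
      by_cases hv : ∃ c ∈ K, c.fr.card = n + 1 ∧ ge3b_str ((M * D : ℕ) : ℤ) c v
      · obtain ⟨c, hcK, hd, hs⟩ := hv
        refine ⟨G c (fun k => v (c.fr.orderEmbOfFin hd k) -
            ((M * D : ℕ) : ℤ) * c.lo (c.fr.orderEmbOfFin hd k)), ?_, ?_⟩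
        · intro c' hc' hd' hs'
          have hcc : c = c' := ge3b_str_unique hN hs hs'
          subst hcc
          rfl
        · intro hn
          exact absurd hs (hn c hcK hd)
      · refine ⟨h (flo D 1 v), ?_, fun _ => rfl⟩
        intro c hc hd hs
        exact absurd ⟨c, hc, hd, hs⟩ hv
    choose H hH using hex
    exact ⟨H, fun v => (hH v).1, fun v => (hH v).2⟩
  refine ⟨D, H, hD3, ?_, ?_⟩
  · intro c hcK hcn v hv
    refine hH2 v ?_
    intro c' _ hd' hs
    have hsub : c'.fr ⊆ c.fr := by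
      intro i hi
      by_contra hn
      rw [ge3b_str_fr hN hs] at hi
      have h1 := hv i
      have h2 : c.hi i = c.lo i := if_neg hn
      rw [h2] at h1
      exact hi ⟨c.lo i, le_antisymm h1.2 h1.1⟩
    have h3 := Finset.card_le_card hsub
    have h4 : c.fr.card ≤ n := hcn
    omega
  · intro c hcK hcn Q hQ
    have hd : c.fr.card = n + 1 := hcn
    obtain ⟨Q', hQ', hQe⟩ := cell_inM c hd (M * D) Q hQ
    obtain ⟨hG1, hG2⟩ := hG c hcK hd
    obtain ⟨S, hS, hSv⟩ := hG1 Q' ⟨ucube (n + 1), Cube.le_refl' _, hQ'⟩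
    refine ⟨S, hS.1, hS.2, ?_⟩
    intro v hv
    rw [← hQe, emb_has] at hv
    obtain ⟨v', hv', hvv⟩ := hv
    have hbd : ∀ k, 0 ≤ v' k ∧ v' k ≤ ((M * D : ℕ) : ℤ) := by
      intro k
      have h1 := hv' k
      have h2 := hQ' k
      have h3 : (ucube (n + 1)).lo k = 0 := rfl
      have h4 : (ucube (n + 1)).hi k = 1 := by
        unfold Cube.hi ucube
        rw [if_pos (Finset.mem_univ k)]
        norm_num
      rw [h3, h4, mul_zero, mul_one] at h2
      exact ⟨h2.1.trans h1.1, h1.2.trans h2.2⟩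
    have hvk : ∀ k, v (c.fr.orderEmbOfFin hd k) =
        ((M * D : ℕ) : ℤ) * c.lo (c.fr.orderEmbOfFin hd k) + v' k := by
      intro k
      rw [← hvv, embP_apply]
    have hvo : ∀ j, j ∉ c.fr → v j = ((M * D : ℕ) : ℤ) * c.lo j := by
      intro j hj
      rw [← hvv]
      refine embP_off _ _ _ _ ?_
      intro k hk
      exact hj (hk ▸ Finset.orderEmbOfFin_mem c.fr hd k)
    have hrange : ∀ i ∈ c.fr, ∃ k, c.fr.orderEmbOfFin hd k = i := by
      intro i hi
      have h1 : i ∈ Set.range (c.fr.orderEmbOfFin hd) := by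
        rw [Finset.range_orderEmbOfFin]
        exact hi
      exact h1
    have hkey : H v = G c v' := by
      by_cases hin : ∀ k, 0 < v' k ∧ v' k < ((M * D : ℕ) : ℤ)
      · have hs : ge3b_str ((M * D : ℕ) : ℤ) c v := by
          refine ⟨?_, hvo⟩
          intro i hi
          obtain ⟨k, rfl⟩ := hrange i hi
          rw [hvk k, mul_add, mul_one]
          have h1 := hin k
          constructor
          · linarith
          · linarith
        rw [hH1 v c hcK hd hs]
        congr 1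
        funext k
        rw [hvk k]
        ring
      · push Not at hin
        obtain ⟨k, hk⟩ := hin
        have hk' : v' k = 0 ∨ v' k = ((M * D : ℕ) : ℤ) := by
          rcases (hbd k).1.lt_or_eq with h1 | h1
          · exact Or.inr (le_antisymm (hbd k).2 (hk h1))
          · exact Or.inl h1.symm
        have hdv : ((M * D : ℕ) : ℤ) ∣ v (c.fr.orderEmbOfFin hd k) := by
          rw [hvk k]
          refine dvd_add (dvd_mul_right _ _) ?_
          rcases hk' with h1 | h1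
          · rw [h1]
            exact dvd_zero _
          · rw [h1]
        have hns : ∀ c' ∈ K, c'.fr.card = n + 1 → ¬ ge3b_str ((M * D : ℕ) : ℤ) c' v := by
          intro c' _ hd' hs
          have hsub : c'.fr ⊆ c.fr.erase (c.fr.orderEmbOfFin hd k) := by
            intro i hi
            rw [ge3b_str_fr hN hs] at hi
            rw [Finset.mem_erase]
            constructor
            · intro hik
              rw [hik] at hi
              exact hi hdv
            · by_contra hn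
              exact hi ⟨c.lo i, hvo i hn⟩
          have h3 := Finset.card_le_card hsub
          rw [Finset.card_erase_of_mem (Finset.orderEmbOfFin_mem c.fr hd k)] at h3
          omega
        rw [hH2 v hns, hG2 v' (ge3b_face n (M * D) v' hbd k hk')]
        show h (flo D 1 v) = h (embP (c.fr.orderEmbOfFin hd) (fun j => (M : ℤ) * c.lo j)
          (flo D 1 v'))
        rw [← ge3b_flo M D hD3, hvv]
    rw [hkey]
    exact hSv v' hv'

end AGE
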