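import Pool.Agent.AGE.Defs
import Pool.Agent.AGE.C1b
import Pool.Agent.AGE.LPD
import Pool.Agent.AGE.GED

/-!
# AGE-GE1: staggered dilation (not equivariant), constant near the lowest corner of every cell

Plan. `J₀` = union of `(s c).fr` over the finite set `K`; `M = card J₀ + 2`; `o : J → ℕ` injective on `J₀` with values `< card J₀` there (`Finset.equivFin`), `0` outside. `f' v j = f (fun i => (v i + o j) / M) j`. If `Q.InM M c`, `Q.Has v` then `M c.lo i ≤ v i ≤ M c.hi i` and `0 ≤ o j ≤ M - 2 < M`, so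
`c.lo i ≤ (v i + o j) / M ≤ c.hi i`: a vertex of `c`; `hs` for this vertex gives the bounds of coordinate `j`. Axial: `Q.InM M c`, `i ∈ Q.fr`: `(Q.lo i + 1 + o j) / M ≠ (Q.lo i + o j) / M` only if `M ∣ Q.lo i + 1 + o j`, which holds for at most one `j ∈ J₀` (two such `j, j'` have `o j ≡ o j'` mod `M`, so equal); take this `j` (or any `j`, `Nonempty J`). For
`k ≠ j`: if `k ∈ J₀` the two arguments of `f` are equal; if `k ∉ J₀` both values lie in `[(s c).lo k, (s c).hi k]` and `k ∉ (s c).fr`, so both are `(s c).lo k`. Corner: `M c.lo i ≤ v i ≤ M c.lo i + 1` (equality if `i ∉ c.fr`) and `o j ≤ M - 2` give `(v i + o j) / M = c.lo i`.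
-/

set_option autoImplicit false

noncomputable section

namespace AGE

variable {V J : Type} [LinearOrder V] [LinearOrder J]

private theorem GE1_div {M : ℕ} (hM : 0 < M) {a b x : ℤ} {o : ℕ} (ho : o + 2 ≤ M)
    (h1 : (M : ℤ) * a ≤ x) (h2 : x ≤ (M : ℤ) * b) :
    a ≤ (x + (o : ℤ)) / (M : ℤ) ∧ (x + (o : ℤ)) / (M : ℤ) ≤ b := by
  have hM' : (0 : ℤ) < (M : ℤ) := by exact_mod_cast hM
  have ho' : (o : ℤ) + 2 ≤ (M : ℤ) := by exact_mod_cast ho
  have ho0 : (0 : ℤ) ≤ (o : ℤ) := Int.natCast_nonneg o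
  constructor
  · rw [Int.le_ediv_iff_mul_le hM']
    nlinarith [mul_comm a (M : ℤ)]
  · have : (x + (o : ℤ)) / (M : ℤ) < b + 1 := by
      rw [Int.ediv_lt_iff_lt_mul hM']
      nlinarith [mul_comm b (M : ℤ)]
    omega

private theorem GE1_corner {M : ℕ} (hM : 0 < M) {a x : ℤ} {o : ℕ} (ho : o + 2 ≤ M)
    (h1 : (M : ℤ) * a ≤ x) (h2 : x ≤ (M : ℤ) * a + 1) :
    (x + (o : ℤ)) / (M : ℤ) = a := by
  have hM' : (0 : ℤ) < (M : ℤ) := by exact_mod_cast hM
  have ho' : (o : ℤ) + 2 ≤ (M : ℤ) := by exact_mod_cast ho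
  have ho0 : (0 : ℤ) ≤ (o : ℤ) := Int.natCast_nonneg o
  apply le_antisymm
  · have : (x + (o : ℤ)) / (M : ℤ) < a + 1 := by
      rw [Int.ediv_lt_iff_lt_mul hM']
      nlinarith [mul_comm a (M : ℤ)]
    omega
  · rw [Int.le_ediv_iff_mul_le hM']
    nlinarith [mul_comm a (M : ℤ)]

private theorem GE1_succ {M : ℕ} (hM : 0 < M) {x : ℤ} (h : ¬ (M : ℤ) ∣ x + 1) :
    (x + 1) / (M : ℤ) = x / (M : ℤ) := by
  have hM' : (0 : ℤ) < (M : ℤ) := by exact_mod_cast hM
  have e := Int.mul_ediv_add_emod x (M : ℤ)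
  have m0 := Int.emod_nonneg x hM'.ne'
  have m1 := Int.emod_lt_of_pos x hM'
  have m2 : x % (M : ℤ) + 1 ≠ (M : ℤ) := by
    intro hh
    apply h
    refine ⟨x / (M : ℤ) + 1, ?_⟩
    linarith [mul_add (M : ℤ) (x / (M : ℤ)) 1]
  have m3 : x % (M : ℤ) + 1 < (M : ℤ) := by omega
  apply le_antisymm
  · have : (x + 1) / (M : ℤ) < x / (M : ℤ) + 1 := by
      rw [Int.ediv_lt_iff_lt_mul hM']
      nlinarith [mul_comm (x / (M : ℤ)) (M : ℤ)]
    omega
  · exact Int.ediv_le_ediv hM' (by omega)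

private theorem GE1_inj {M : ℕ} {x : ℤ} {a b : ℕ} (ha : a + 2 ≤ M) (hb : b + 2 ≤ M)
    (h1 : (M : ℤ) ∣ x + (a : ℤ)) (h2 : (M : ℤ) ∣ x + (b : ℤ)) : a = b := by
  have h3 : (M : ℤ) ∣ (a : ℤ) - (b : ℤ) := by
    have := dvd_sub h1 h2
    have e : x + (a : ℤ) - (x + (b : ℤ)) = (a : ℤ) - (b : ℤ) := by ring
    rwa [e] at this
  have h4 : (a : ℤ) - (b : ℤ) = 0 := by
    apply Int.eq_zero_of_abs_lt_dvd h3
    rw [abs_lt]
    constructor <;> omega
  omega

private theorem GE1_hi_not {Q : Cube J} {j : J} (h : j ∉ Q.fr) : Q.hi j = Q.lo j := if_neg h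

private theorem GE1_hi_mem {Q : Cube J} {j : J} (h : j ∈ Q.fr) : Q.hi j = Q.lo j + 1 := if_pos h

private theorem GE1_update {M : ℕ} {Q P : Cube V} (hQ : Q.InM M P) {v : V → ℤ} (hv : Q.Has v)
    (i : V) (x : ℤ) (h1 : Q.lo i ≤ x) (h2 : x ≤ Q.hi i) : InC M P (Function.update v i x) := by
  intro k
  by_cases hk : k = i
  · subst hk
    rw [Function.update_self]
    exact ⟨(hQ k).1.trans h1, h2.trans (hQ k).2⟩
  · rw [Function.update_of_ne hk]
    exact ⟨(hQ k).1.trans (hv k).1, (hv k).2.trans (hQ k).2⟩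


theorem stag1 [Nonempty J] (K : Set (Cube V)) (hK1 : K.Finite) (f : (V → ℤ) → (J → ℤ))
    (s : Cube V → Cube J) (hs : ∀ c ∈ K, ∀ v, c.Has v → (s c).Has (f v)) :
    ∃ (M : ℕ) (f' : (V → ℤ) → (J → ℤ)), 0 < M ∧ Ax (Grd M K) f' ∧
      (∀ c ∈ K, ∀ v, InC M c v → (s c).Has (f' v)) ∧
      (∀ c ∈ K, ∀ v, (∀ i, (M : ℤ) * c.lo i ≤ v i ∧
        v i ≤ (M : ℤ) * c.lo i + (if i ∈ c.fr then 1 else 0)) → f' v = f c.lo) := by
  classical
  set J₀ : Finset J := hK1.toFinset.biUnion (fun c => (s c).fr) with hJ₀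
  have hmem : ∀ c ∈ K, ∀ j ∈ (s c).fr, j ∈ J₀ := by
    intro c hc j hj
    rw [hJ₀, Finset.mem_biUnion]
    exact ⟨c, (Set.Finite.mem_toFinset hK1).2 hc, hj⟩
  set M : ℕ := J₀.card + 2 with hMdef
  have hM : 0 < M := by omega
  set o : J → ℕ := fun j => if h : j ∈ J₀ then ((J₀.equivFin ⟨j, h⟩ : Fin J₀.card) : ℕ) else 0
    with ho
  have ho2 : ∀ j, o j + 2 ≤ M := by
    intro j
    by_cases h : j ∈ J₀
    · have e : o j = ((J₀.equivFin ⟨j, h⟩ : Fin J₀.card) : ℕ) := by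
        rw [ho]; exact dif_pos h
      have := (J₀.equivFin ⟨j, h⟩ : Fin J₀.card).2
      omega
    · have e : o j = 0 := by
        rw [ho]; exact dif_neg h
      omega
  have hoinj : ∀ j ∈ J₀, ∀ k ∈ J₀, o j = o k → j = k := by
    intro j hj k hk h
    have e1 : o j = ((J₀.equivFin ⟨j, hj⟩ : Fin J₀.card) : ℕ) := by
      rw [ho]; exact dif_pos hj
    have e2 : o k = ((J₀.equivFin ⟨k, hk⟩ : Fin J₀.card) : ℕ) := by
      rw [ho]; exact dif_pos hk
    rw [e1, e2] at h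
    have h3 := J₀.equivFin.injective (Fin.ext h)
    exact congrArg Subtype.val h3
  have hval : ∀ c ∈ K, ∀ v, InC M c v → ∀ j, (s c).lo j ≤ f (fun i => (v i + (o j : ℤ)) / (M : ℤ)) j ∧
      f (fun i => (v i + (o j : ℤ)) / (M : ℤ)) j ≤ (s c).hi j := by
    intro c hc v hv j
    exact hs c hc _ (fun i => GE1_div hM (ho2 j) (hv i).1 (hv i).2) j
  refine ⟨M, fun v j => f (fun i => (v i + (o j : ℤ)) / (M : ℤ)) j, hM, ?_, ?_, ?_⟩
  · rintro Q ⟨c, hc, hQ⟩ i hi
    have hne : ∀ v, Q.Has v → ∀ k, ((k ∈ J₀ → ¬ (M : ℤ) ∣ Q.lo i + 1 + (o k : ℤ))) →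
        f (fun a => (Function.update v i (Q.lo i + 1) a + (o k : ℤ)) / (M : ℤ)) k
          = f (fun a => (Function.update v i (Q.lo i) a + (o k : ℤ)) / (M : ℤ)) k := by
      intro v hv k hk
      by_cases hkJ : k ∈ J₀
      · have : (fun a => (Function.update v i (Q.lo i + 1) a + (o k : ℤ)) / (M : ℤ))
            = (fun a => (Function.update v i (Q.lo i) a + (o k : ℤ)) / (M : ℤ)) := by
          funext a
          by_cases ha : a = i
          · subst ha
            rw [Function.update_self, Function.update_self]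
            have e : Q.lo a + 1 + (o k : ℤ) = Q.lo a + (o k : ℤ) + 1 := by ring
            have h1 := hk hkJ
            rw [e] at h1 ⊢
            exact GE1_succ hM h1
          · rw [Function.update_of_ne ha, Function.update_of_ne ha]
        rw [this]
      · have hkc : k ∉ (s c).fr := fun h => hkJ (hmem c hc k h)
        have h1 := hval c hc _ (GE1_update hQ hv i (Q.lo i + 1) (by omega)
          (by rw [GE1_hi_mem hi])) k
        have h2 := hval c hc _ (GE1_update hQ hv i (Q.lo i) le_rfl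
          (by rw [GE1_hi_mem hi]; omega)) k
        rw [GE1_hi_not hkc] at h1 h2
        exact (le_antisymm h1.2 h1.1).trans (le_antisymm h2.2 h2.1).symm
    by_cases h : ∃ j ∈ J₀, (M : ℤ) ∣ Q.lo i + 1 + (o j : ℤ)
    · obtain ⟨j, hj, hd⟩ := h
      refine ⟨j, fun v hv k hk => hne v hv k ?_⟩
      intro hkJ hd2
      exact hk (hoinj k hkJ j hj (GE1_inj (ho2 k) (ho2 j) hd2 hd))
    · refine ⟨Classical.arbitrary J, fun v hv k _ => hne v hv k ?_⟩
      intro hkJ hd2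
      exact h ⟨k, hkJ, hd2⟩
  · intro c hc v hv j
    exact hval c hc v hv j
  · intro c hc v hv
    funext j
    have : (fun i => (v i + (o j : ℤ)) / (M : ℤ)) = c.lo := by
      funext i
      apply GE1_corner hM (ho2 j) (hv i).1
      refine (hv i).2.trans ?_
      split_ifs <;> omega
    show f (fun i => (v i + (o j : ℤ)) / (M : ℤ)) j = f c.lo j
    rw [this]

end AGE
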