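import Pool.Agent.AGE.Defs
import Pool.Agent.AGE.C1b
import Pool.Agent.AGE.LPD
import Pool.Agent.AGE.LP1
import Pool.Agent.AGE.GED

/-!
# AGE-GE2a: insertion of loops at the corners of the `n`-cells (the map)

Plan. Call `v` strictly inside the corner of `c` (`c ∈ K`, `c.fr.card = n`) if for all `i`: `(M L) c.lo i < v i < (M L) c.lo i + L` if `i ∈ c.fr`, `v i = (M L) c.lo i` if `i ∉ c.fr`. Uniqueness: such a `v` has `v i` a multiple of `M L` exactly for `i ∉ c.fr` (`L ≤ M L`), so `c.fr` and `c.lo` are determined by `v` (`Cube.ext`).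
`h v = om c (fun k => v (e k) - (M L) c.lo (e k))` if there is such a `c` (`Classical.choose`; `e = c.fr.orderEmbOfFin hd`), `f (flo L 0 v)` otherwise. `low`: if `InC (M L) c v` and `c.dim < n` then `v i` is a multiple of `M L` for `i ∉ c.fr`, so `v` is not strictly inside any corner (there `n` coordinates are not multiples). `far`: if `v`
is strictly inside the corner of `c'` then `c'.fr ⊆ c.fr`, so equal (same cardinality), and `c'.lo = c.lo` (for `i ∈ c.fr`: `(M L) c.lo i ≤ v i ≤ (M L) (c.lo i + 1)` and `v i` is not a multiple), so `v` is strictly inside the corner of `c`, contradiction. `cor`: `w = embP .. v` (`embP_apply`, `embP_off`). If all `0 < v i < L`: strictly inside the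
corner of `c`, the chosen cell is `c` (then `subst`), and the argument of `om` is `v`. Otherwise `om c v = b c` (`hb'`), `w` is not strictly inside any corner (as in `far`), and `flo L 0 w` has coordinates `M c.lo i` or `M c.lo i + 1` for `i ∈ c.fr` (`(M L x + y) / L = M x + y / L`, `0 ≤ y ≤ L`), `M c.lo i` for `i ∉ c.fr`, so `f (flo L 0 w) = b c` (`hb`).
-/

set_option autoImplicit false

noncomputable section

namespace AGE

variable {V J : Type} [LinearOrder V] [LinearOrder J]


private def ge2a_str (N L : ℤ) (c : Cube V) (v : V → ℤ) : Prop :=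
  (∀ i ∈ c.fr, N * c.lo i < v i ∧ v i < N * c.lo i + L) ∧ ∀ i, i ∉ c.fr → v i = N * c.lo i

private theorem ge2a_aux {N x y : ℤ} (hN : 0 < N) (h1 : N * x < N * (y + 1)) : x ≤ y :=
  Int.lt_add_one_iff.1 (lt_of_mul_lt_mul_left h1 hN.le)

private theorem ge2a_sub {N L : ℤ} (hN : 0 < N) (hLN : L ≤ N) {c c' : Cube V} {v : V → ℤ}
    (hm : ∀ i, i ∉ c.fr → v i = N * c.lo i) (h' : ge2a_str N L c' v) : c'.fr ⊆ c.fr := by
  intro i hi
  by_contra hn
  have h1 := h'.1 i hi
  rw [hm i hn] at h1
  have h2 : c.lo i ≤ c'.lo i := ge2a_aux hN (by linarith [h1.2, mul_add N (c'.lo i) 1])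
  have h3 : N * c.lo i ≤ N * c'.lo i := mul_le_mul_of_nonneg_left h2 hN.le
  linarith [h1.1]

private theorem ge2a_eq {N L : ℤ} (hN : 0 < N) (hLN : L ≤ N) {c c' : Cube V} {v : V → ℤ}
    (hcc : c'.fr.card = c.fr.card) (hm : ∀ i, i ∉ c.fr → v i = N * c.lo i)
    (hb : ∀ i ∈ c.fr, N * c.lo i ≤ v i ∧ v i ≤ N * (c.lo i + 1))
    (h' : ge2a_str N L c' v) : c' = c := by
  have hs := ge2a_sub hN hLN hm h'
  have hfr : c'.fr = c.fr := Finset.eq_of_subset_of_card_le hs hcc.ge
  refine Cube.ext (funext fun i => ?_) hfr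
  by_cases hi : i ∈ c.fr
  · have h1 := h'.1 i (by rw [hfr]; exact hi)
    have h2 := hb i hi
    refine le_antisymm ?_ ?_
    · exact ge2a_aux hN (lt_of_lt_of_le h1.1 h2.2)
    · refine ge2a_aux hN (lt_of_le_of_lt h2.1 (lt_of_lt_of_le h1.2 ?_))
      linarith [mul_add N (c'.lo i) 1]
  · have h1 := h'.2 i (by rw [hfr]; exact hi)
    have h2 := hm i hi
    rw [h1] at h2
    exact mul_left_cancel₀ hN.ne' h2

private theorem ge2a_hi {c : Cube V} {i : V} (h : i ∈ c.fr) : c.hi i = c.lo i + 1 := if_pos h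

private theorem ge2a_hi' {c : Cube V} {i : V} (h : i ∉ c.fr) : c.hi i = c.lo i := if_neg h

theorem ins_map (n : ℕ) (K : Set (Cube V)) (M L : ℕ) (hM : 0 < M) (hL : 0 < L)
    (f : (V → ℤ) → (J → ℤ)) (b : Cube V → J → ℤ)
    (hb : ∀ c ∈ K, ∀ v, (∀ i, (M : ℤ) * c.lo i ≤ v i ∧
        v i ≤ (M : ℤ) * c.lo i + (if i ∈ c.fr then 1 else 0)) → f v = b c)
    (om : Cube V → (Fin n → ℤ) → (J → ℤ))
    (hb' : ∀ c ∈ K, c.dim = n → ∀ v, (∃ i, v i ≤ 0 ∨ (L : ℤ) ≤ v i) → om c v = b c) :
    ∃ h : (V → ℤ) → (J → ℤ), Ins n K M L f om h := by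
  classical
  have hM1 : (1 : ℤ) ≤ M := by exact_mod_cast hM
  have hL0 : (0 : ℤ) < L := by exact_mod_cast hL
  have hN : (0 : ℤ) < ((M * L : ℕ) : ℤ) := by exact_mod_cast Nat.mul_pos hM hL
  have hLN : (L : ℤ) ≤ ((M * L : ℕ) : ℤ) := by exact_mod_cast Nat.le_mul_of_pos_left L hM
  have hNe : ((M * L : ℕ) : ℤ) = (M : ℤ) * L := by push_cast; ring
  generalize hNdef : ((M * L : ℕ) : ℤ) = N at *
  have hout : ∀ c : Cube V, ∀ v, InC (M * L) c v → ∀ i, i ∉ c.fr → v i = N * c.lo i := by
    intro c v hv i hi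
    have h1 := hv i
    rw [ge2a_hi' hi, hNdef] at h1
    exact le_antisymm h1.2 h1.1
  have hin : ∀ c : Cube V, ∀ v, InC (M * L) c v → ∀ i ∈ c.fr,
      N * c.lo i ≤ v i ∧ v i ≤ N * (c.lo i + 1) := by
    intro c v hv i hi
    have h1 := hv i
    rw [ge2a_hi hi, hNdef] at h1
    exact h1
  let h : (V → ℤ) → (J → ℤ) := fun v =>
    if hx : ∃ c, c ∈ K ∧ c.fr.card = n ∧ ge2a_str N L c v then
      om hx.choose (fun k => v (hx.choose.fr.orderEmbOfFin hx.choose_spec.2.1 k) -
        N * hx.choose.lo (hx.choose.fr.orderEmbOfFin hx.choose_spec.2.1 k))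
    else f (flo L 0 v)
  have hneg : ∀ v, (¬ ∃ c, c ∈ K ∧ c.fr.card = n ∧ ge2a_str N L c v) → h v = f (flo L 0 v) :=
    fun v hv => dif_neg hv
  refine ⟨h, ?_, ?_, ?_⟩
  · intro c hc hcn v hv
    refine hneg v ?_
    rintro ⟨c', -, hcard, hs⟩
    have h1 := Finset.card_le_card (ge2a_sub hN hLN (hout c v hv) hs)
    have h2 : c.fr.card < n := hcn
    omega
  · intro c hc hd v hv
    rw [hNdef]
    set e := c.fr.orderEmbOfFin hd with he
    set w := embP e (fun j => N * c.lo j) v with hw
    have hw1 : ∀ k, w (e k) = N * c.lo (e k) + v k := fun k => embP_apply e _ v k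
    have hrange : ∀ j, j ∈ c.fr → ∃ k, e k = j := by
      intro j hj
      have h1 : j ∈ Set.range e := by
        rw [he, Finset.range_orderEmbOfFin]
        exact hj
      exact h1
    have hw2 : ∀ j, j ∉ c.fr → w j = N * c.lo j := by
      intro j hj
      refine embP_off e _ v j (fun i hi => hj ?_)
      rw [← hi, he]
      exact Finset.orderEmbOfFin_mem c.fr hd i
    by_cases hA : ∀ i, 0 < v i ∧ v i < L
    · have hstr : ge2a_str N L c w := by
        refine ⟨fun j hj => ?_, hw2⟩
        obtain ⟨k, rfl⟩ := hrange j hj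
        rw [hw1]
        constructor <;> linarith [(hA k).1, (hA k).2]
      have hx : ∃ c, c ∈ K ∧ c.fr.card = n ∧ ge2a_str N L c w := ⟨c, hc, hd, hstr⟩
      have hin' : ∀ i ∈ c.fr, N * c.lo i ≤ w i ∧ w i ≤ N * (c.lo i + 1) := by
        intro i hi
        have h1 := hstr.1 i hi
        constructor
        · exact h1.1.le
        · linarith [h1.2, mul_add N (c.lo i) 1]
      have huni : hx.choose = c :=
        ge2a_eq hN hLN (hx.choose_spec.2.1.trans hd.symm) hw2 hin' hx.choose_spec.2.2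
      have hgen : ∀ c' : Cube V, ∀ h2 : c'.fr.card = n, c' = c →
          om c' (fun k => w (c'.fr.orderEmbOfFin h2 k) - N * c'.lo (c'.fr.orderEmbOfFin h2 k)) =
            om c v := by
        intro c' h2 hcc
        subst hcc
        congr 1
        funext k
        have h3 := hw1 k
        rw [he] at h3
        rw [h3]
        ring
      have h4 : h w = om hx.choose (fun k => w (hx.choose.fr.orderEmbOfFin hx.choose_spec.2.1 k) -
        N * hx.choose.lo (hx.choose.fr.orderEmbOfFin hx.choose_spec.2.1 k)) := dif_pos hx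
      rw [h4]
      exact hgen _ _ huni
    · push Not at hA
      obtain ⟨i0, hi0⟩ := hA
      have hb1 : om c v = b c := by
        refine hb' c hc hd v ⟨i0, ?_⟩
        by_cases h1 : 0 < v i0
        · exact Or.inr (hi0 h1)
        · exact Or.inl (not_lt.1 h1)
      have hin' : ∀ i ∈ c.fr, N * c.lo i ≤ w i ∧ w i ≤ N * (c.lo i + 1) := by
        intro i hi
        obtain ⟨k, rfl⟩ := hrange i hi
        rw [hw1]
        have h1 := hv k
        constructor <;> linarith [h1.1, h1.2, mul_add N (c.lo (e k)) 1]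
      have hno : ¬ ∃ c, c ∈ K ∧ c.fr.card = n ∧ ge2a_str N L c w := by
        rintro ⟨c', -, hcard, hs⟩
        have hcc : c' = c := ge2a_eq hN hLN (hcard.trans hd.symm) hw2 hin' hs
        rw [hcc] at hs
        have h1 := hs.1 (e i0) (by rw [he]; exact Finset.orderEmbOfFin_mem c.fr hd i0)
        rw [hw1] at h1
        have h2 : 0 < v i0 := by linarith [h1.1]
        have h3 := hi0 h2
        linarith [h1.2]
      rw [hneg w hno, hb1]
      refine hb c hc _ (fun i => ?_)
      have hfl : flo L 0 w i = w i / (L : ℤ) := by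
        unfold flo
        push_cast
        rw [add_zero]
      rw [hfl]
      by_cases hi : i ∈ c.fr
      · rw [if_pos hi]
        obtain ⟨k, rfl⟩ := hrange i hi
        have h1 := hv k
        have h2 : w (e k) = v k + L * (M * c.lo (e k)) := by
          rw [hw1, hNe]
          ring
        rw [h2, Int.add_mul_ediv_left _ _ hL0.ne']
        have h3 : 0 ≤ v k / (L : ℤ) := Int.ediv_nonneg h1.1 hL0.le
        have h4 : v k / (L : ℤ) ≤ 1 := by
          refine Int.ediv_le_of_le_mul hL0 ?_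
          rw [one_mul]
          exact h1.2
        constructor <;> linarith
      · rw [if_neg hi, add_zero]
        have h2 : w i = L * (M * c.lo i) := by
          rw [hw2 i hi, hNe]
          ring
        rw [h2, Int.mul_ediv_cancel_left _ hL0.ne']
        exact ⟨le_rfl, le_rfl⟩
  · intro c hc hcn v hv hex
    refine hneg v ?_
    rintro ⟨c', -, hcard, hs⟩
    have hcc : c' = c := ge2a_eq hN hLN (hcard.trans hcn.symm) (hout c v hv) (hin c v hv) hs
    rw [hcc] at hs
    obtain ⟨i, hi, hi2⟩ := hex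
    have h1 := hs.1 i hi
    rw [hNdef] at hi2
    linarith [h1.2]

end AGE
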