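import Pool.Agent.AGE.Defs
import Pool.Agent.AGE.C1b
import Pool.Agent.AGE.C6c
import Pool.Agent.AGE.LPD
import Pool.Agent.AGE.LP1
import Pool.Agent.AGE.LP2
import Pool.Agent.AGE.GED

/-!
# AGE-GE2b: insertion of loops: control and axiality

`GE2b_cases`: on the vertices of a cube of the grid the map `h` is either the dilation of `f` or the loop `om c` in the coordinates of the cell `c`.
-/

set_option autoImplicit false

noncomputable section

namespace AGE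

variable {V J : Type} [LinearOrder V] [LinearOrder J]


private theorem GE2b_hiQ (Q : Cube V) (j : V) : Q.lo j ≤ Q.hi j ∧ Q.hi j ≤ Q.lo j + 1 := by
  unfold Cube.hi
  split_ifs
  · exact ⟨by omega, le_rfl⟩
  · exact ⟨le_rfl, by omega⟩

private theorem GE2b_inC {M : ℕ} {c Q : Cube V} (hQ : Q.InM M c) {v : V → ℤ} (hv : Q.Has v) :
    InC M c v := fun i => ⟨(hQ i).1.trans (hv i).1, (hv i).2.trans (hQ i).2⟩

private theorem GE2b_upd {Q : Cube V} {v : V → ℤ} (hv : Q.Has v) {i : V} (hi : i ∈ Q.fr) (x : ℤ)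
    (hx : x = Q.lo i ∨ x = Q.lo i + 1) : Q.Has (Function.update v i x) := by
  intro j
  by_cases h : j = i
  · subst h
    rw [Function.update_self]
    have h1 : Q.hi j = Q.lo j + 1 := if_pos hi
    rw [h1]
    omega
  · rw [Function.update_of_ne h]
    exact hv j

private theorem GE2b_cases (n : ℕ) (K : Set (Cube V)) (hKd : ∀ c ∈ K, c.dim ≤ n) (M L : ℕ)
    (f : (V → ℤ) → (J → ℤ)) (om : Cube V → (Fin n → ℤ) → (J → ℤ)) (h : (V → ℤ) → (J → ℤ))
    (hI : Ins n K M L f om h) (c : Cube V) (hc : c ∈ K) (Q : Cube V) (hQ : Q.InM (M * L) c) :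
    (∀ v, Q.Has v → h v = f (flo L 0 v)) ∨
    (∃ hd : c.fr.card = n, ∃ Q' : Cube (Fin n),
      emb (c.fr.orderEmbOfFin hd) (fun j => ((M * L : ℕ) : ℤ) * c.lo j) Q' = Q ∧
      ∀ v, Q'.Has v →
        h (embP (c.fr.orderEmbOfFin hd) (fun j => ((M * L : ℕ) : ℤ) * c.lo j) v) = om c v) := by
  rcases lt_or_eq_of_le (hKd c hc) with h1 | h1
  · exact Or.inl fun v hv => hI.low c hc h1 v (GE2b_inC hQ hv)
  · by_cases hf : ∃ i ∈ c.fr, ((M * L : ℕ) : ℤ) * c.lo i + L ≤ Q.lo i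
    · obtain ⟨i, hi, hi'⟩ := hf
      exact Or.inl fun v hv => hI.far c hc h1 v (GE2b_inC hQ hv) ⟨i, hi, hi'.trans (hv i).1⟩
    · right
      have hd : c.fr.card = n := h1
      obtain ⟨Q', hQ1, hQ2⟩ := cell_inM c hd (M * L) Q hQ
      refine ⟨hd, Q', hQ2, fun v hv => hI.cor c hc hd v fun i => ?_⟩
      have e1 : (0 : ℤ) ≤ Q'.lo i := by
        have := (hQ1 i).1
        have e2 : (ucube n).lo i = 0 := rfl
        rw [e2, mul_zero] at this
        exact this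
      have e2 : c.fr.orderEmbOfFin hd i ∈ c.fr := Finset.orderEmbOfFin_mem _ _ _
      have e3 : Q.lo (c.fr.orderEmbOfFin hd i) =
          ((M * L : ℕ) : ℤ) * c.lo (c.fr.orderEmbOfFin hd i) + Q'.lo i := by
        rw [← hQ2]
        exact embP_apply (c.fr.orderEmbOfFin hd) (fun j => ((M * L : ℕ) : ℤ) * c.lo j) Q'.lo i
      have e4 : Q.lo (c.fr.orderEmbOfFin hd i) <
          ((M * L : ℕ) : ℤ) * c.lo (c.fr.orderEmbOfFin hd i) + L := by
        by_contra hn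
        exact hf ⟨_, e2, not_lt.1 hn⟩
      have e5 := (GE2b_hiQ Q' i).2
      have e6 := hv i
      constructor
      · omega
      · omega

theorem ins_ax [Nonempty J] (n : ℕ) (K : Set (Cube V)) (hK : Closed K) (hKd : ∀ c ∈ K, c.dim ≤ n)
    (s : Cube V → Cube J) (M L : ℕ) (hM : 0 < M) (hL : 0 < L) (f : (V → ℤ) → (J → ℤ))
    (hA : Ax (Grd M K) f) (b : Cube V → J → ℤ) (z : Cube V → Ch J)
    (om : Cube V → (Fin n → ℤ) → (J → ℤ)) (ph : Cube V → Ch (Fin n) →ₗ[ℤ] Ch J)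
    (hom : ∀ c ∈ K, c.dim = n → LoopD n (s c) (b c) (z c) L (om c) (ph c))
    (h : (V → ℤ) → (J → ℤ)) (hI : Ins n K M L f om h) : Ax (Grd (M * L) K) h := by
  rintro Q ⟨c, hc, hQ⟩ i hi
  rcases GE2b_cases n K hKd M L f om h hI c hc Q hQ with h1 | ⟨hd, Q', hQ2, h1⟩
  · have h2 := ax_flo L 0 le_rfl (by exact_mod_cast hL) (Grd M K) (closed_grd M K) f hA
    rw [grd_grd M L K hM hL] at h2
    obtain ⟨j, hj⟩ := h2 Q ⟨c, hc, hQ⟩ i hi
    refine ⟨j, fun v hv k hk => ?_⟩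
    rw [h1 _ (GE2b_upd hv hi _ (Or.inr rfl)), h1 _ (GE2b_upd hv hi _ (Or.inl rfl))]
    exact hj v hv k hk
  · have h2 : AxAt (h ∘ embP (c.fr.orderEmbOfFin hd) (fun j => ((M * L : ℕ) : ℤ) * c.lo j)) Q' := by
      intro i' hi'
      obtain ⟨j, hj⟩ := (hom c hc hd).axi Q' (Set.mem_univ _) i' hi'
      refine ⟨j, fun v hv k hk => ?_⟩
      rw [Function.comp_apply, Function.comp_apply, h1 _ (GE2b_upd hv hi' _ (Or.inr rfl)),
        h1 _ (GE2b_upd hv hi' _ (Or.inl rfl))]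
      exact hj v hv k hk
    rw [axAt_emb, hQ2] at h2
    exact h2 i hi

theorem ins_ctl (n : ℕ) (K : Set (Cube V)) (hK : Closed K) (hKd : ∀ c ∈ K, c.dim ≤ n)
    (s : Cube V → Cube J) (M L : ℕ) (hM : 0 < M) (hL : 0 < L) (f : (V → ℤ) → (J → ℤ))
    (hc : ∀ c ∈ K, ∀ v, InC M c v → (s c).Has (f v)) (b : Cube V → J → ℤ) (z : Cube V → Ch J)
    (om : Cube V → (Fin n → ℤ) → (J → ℤ)) (ph : Cube V → Ch (Fin n) →ₗ[ℤ] Ch J)
    (hom : ∀ c ∈ K, c.dim = n → LoopD n (s c) (b c) (z c) L (om c) (ph c))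
    (h : (V → ℤ) → (J → ℤ)) (hI : Ins n K M L f om h) :
    ∀ c ∈ K, ∀ v, InC (M * L) c v → (s c).Has (h v) := by
  have hctl := hc
  intro c hc v hv
  have hQ : (pt v).InM (M * L) c := by
    intro i
    have e1 : (pt v).hi i = v i := if_neg (Finset.notMem_empty i)
    rw [e1]
    exact hv i
  have hvv : (pt v).Has v := Cube.has_lo (pt v)
  have hLz : (0 : ℤ) < L := by exact_mod_cast hL
  rcases GE2b_cases n K hKd M L f om h hI c hc (pt v) hQ with h1 | ⟨hd, Q', hQ2, h1⟩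
  · rw [h1 v hvv]
    refine hctl c hc _ fun i => ?_
    obtain ⟨e1, e2⟩ := hv i
    push_cast at e1 e2
    have e3 : flo L 0 v i = v i / (L : ℤ) := by
      unfold flo
      rw [add_zero]
    rw [e3]
    constructor
    · rw [Int.le_ediv_iff_mul_le hLz]
      calc (M : ℤ) * c.lo i * L = (M : ℤ) * L * c.lo i := by ring
        _ ≤ v i := e1
    · refine Int.ediv_le_of_le_mul hLz ?_
      calc v i ≤ (M : ℤ) * L * c.hi i := e2
        _ = (M : ℤ) * c.hi i * L := by ring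
  · rw [← hQ2] at hvv
    obtain ⟨v', hv', hv2⟩ := (emb_has _ _ Q' v).1 hvv
    rw [← hv2, h1 v' hv']
    obtain ⟨S, hS, hS'⟩ := (hom c hc hd).vmp (pt v') (Set.mem_univ _)
    exact Cube.has_of_le hS (hS' v' (Cube.has_lo (pt v')))

end AGE
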