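import Pool.Agent.AGE.Defs
import Pool.Agent.AGE.C1a
import Pool.Agent.AGE.C1b
import Pool.Agent.AGE.C5
import Pool.Agent.AGE.C6a
import Pool.Agent.AGE.C6b
import Pool.Agent.AGE.C6c
import Pool.Agent.AGE.LPD
import Pool.Agent.AGE.LP1
import Pool.Agent.AGE.LP2
import Pool.Agent.AGE.GED
import Pool.Agent.AGE.GE2b

/-!
# AGE-GE2c: insertion of loops: the push

The push of `h` is compared with the push of the dilation of `f` on the cubes outside of the corners where the loops are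
inserted. The corner of an `n`-cell is a scaled unit cube, on which the push of the dilation vanishes and the push of `h` is the
push of the loop.
-/

set_option autoImplicit false

noncomputable section

namespace AGE

variable {V J : Type} [LinearOrder V] [LinearOrder J]


private theorem GE2c_hi (Q : Cube V) (j : V) : Q.lo j ≤ Q.hi j ∧ Q.hi j ≤ Q.lo j + 1 := by
  unfold Cube.hi
  split_ifs
  · exact ⟨by omega, le_refl _⟩
  · exact ⟨le_refl _, by omega⟩

private theorem GE2c_inM {M : ℕ} {Q c : Cube V} (h : Q ∈ Grd M (Faces c)) : Q.InM M c := by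
  obtain ⟨P, hP, hQ⟩ := h
  intro j
  have hM : (0 : ℤ) ≤ M := Int.natCast_nonneg M
  exact ⟨(mul_le_mul_of_nonneg_left (hP j).1 hM).trans (hQ j).1,
    (hQ j).2.trans (mul_le_mul_of_nonneg_left (hP j).2 hM)⟩

private theorem GE2c_inC {M : ℕ} {Q c : Cube V} (h : Q.InM M c) {v : V → ℤ} (hv : Q.Has v) : InC M c v :=
  fun i => ⟨(h i).1.trans (hv i).1, (hv i).2.trans (h i).2⟩

/-- the corner of a cell -/
private def GE2c_Q (M : ℕ) (c : Cube V) : Cube V := ⟨fun j => (M : ℤ) * c.lo j, c.fr⟩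

private theorem GE2c_Q_hi (M : ℕ) (c : Cube V) (j : V) :
    (GE2c_Q M c).hi j = (M : ℤ) * c.lo j + (if j ∈ c.fr then 1 else 0) := by
  unfold Cube.hi GE2c_Q
  split_ifs
  · rfl
  · rw [add_zero]

private theorem GE2c_Q_inM {M : ℕ} (hM : 0 < M) (c : Cube V) : (GE2c_Q M c).InM M c := by
  intro j
  refine ⟨le_refl _, ?_⟩
  rw [GE2c_Q_hi]
  have hM' : (1 : ℤ) ≤ M := by exact_mod_cast hM
  unfold Cube.hi
  split_ifs
  · rw [mul_add, mul_one]
    linarith
  · rw [add_zero]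

private theorem GE2c_Q_big {M L : ℕ} (hM : 0 < M) (c : Cube V) {R : Cube V} (h : R.InM L (GE2c_Q M c)) :
    R.InM (M * L) c := by
  intro j
  have h1 := h j
  have h2 := GE2c_Q_inM hM c j
  have hL : (0 : ℤ) ≤ L := Int.natCast_nonneg L
  have h3 := mul_le_mul_of_nonneg_left h2.1 hL
  have h4 := mul_le_mul_of_nonneg_left h2.2 hL
  push_cast
  constructor
  · calc (M : ℤ) * L * c.lo j = L * (M * c.lo j) := by ring
      _ ≤ L * (GE2c_Q M c).lo j := h3
      _ ≤ R.lo j := h1.1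
  · calc R.hi j ≤ L * (GE2c_Q M c).hi j := h1.2
      _ ≤ L * (M * c.hi j) := h4
      _ = (M : ℤ) * L * c.hi j := by ring

/-- the cubes of the subdivision outside of the corner -/
private theorem GE2c_far {M L : ℕ} (c : Cube V) {R : Cube V} (h : R.InM (M * L) c)
    (hf : ¬ ∃ i ∈ c.fr, ((M * L : ℕ) : ℤ) * c.lo i + L ≤ R.lo i) : R.InM L (GE2c_Q M c) := by
  intro j
  have h1 := h j
  push_cast at h1
  have h5 : (L : ℤ) * (M * c.lo j) = M * L * c.lo j := by ring
  refine ⟨?_, ?_⟩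
  · show (L : ℤ) * (M * c.lo j) ≤ R.lo j
    rw [h5]
    exact h1.1
  · rw [GE2c_Q_hi]
    by_cases hj : j ∈ c.fr
    · rw [if_pos hj, mul_add, mul_one, h5]
      have h2 : ¬ ((M * L : ℕ) : ℤ) * c.lo j + L ≤ R.lo j := fun h3 => hf ⟨j, hj, h3⟩
      push_cast at h2
      have h3 := (GE2c_hi R j).2
      omega
    · rw [if_neg hj, add_zero, h5]
      have h2 : c.hi j = c.lo j := by
        unfold Cube.hi
        rw [if_neg hj]
      rw [h2] at h1
      exact h1.2

private theorem GE2c_supp {M L : ℕ} (hM : 0 < M) (hL : 0 < L) (c : Cube V) :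
    sub (M * L) (one c) - sub L (one (GE2c_Q M c)) ∈ CC {R : Cube V | R.InM (M * L) c ∧
      ∃ i ∈ c.fr, ((M * L : ℕ) : ℤ) * c.lo i + L ≤ R.lo i} c.dim := by
  classical
  rw [CC, Finsupp.mem_supported]
  intro R hR
  have hR1 := Finsupp.mem_support_iff.1 hR
  rw [Finsupp.sub_apply, sub_one_apply (M * L) (Nat.mul_pos hM hL) c R,
    sub_one_apply L hL (GE2c_Q M c) R] at hR1
  have hd : (GE2c_Q M c).dim = c.dim := rfl
  rw [hd] at hR1
  by_cases h1 : R.InM (M * L) c ∧ R.dim = c.dim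
  · by_cases h2 : ∃ i ∈ c.fr, ((M * L : ℕ) : ℤ) * c.lo i + L ≤ R.lo i
    · exact ⟨⟨h1.1, h2⟩, h1.2⟩
    · exfalso
      have h3 := GE2c_far c h1.1 h2
      rw [if_pos h1, if_pos ⟨h3, h1.2⟩, sub_self] at hR1
      exact hR1 rfl
  · exfalso
    have h3 : ¬ (R.InM L (GE2c_Q M c) ∧ R.dim = c.dim) := fun h4 => h1 ⟨GE2c_Q_big hM c h4.1, h4.2⟩
    rw [if_neg h1, if_neg h3, sub_self] at hR1
    exact hR1 rfl

theorem ins_val [Nonempty J] (n : ℕ) (hn : 1 ≤ n) (K : Set (Cube V)) (hK : Closed K)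
    (hKd : ∀ c ∈ K, c.dim ≤ n) (s : Cube V → Cube J) (M L : ℕ) (hM : 0 < M) (hL : 0 < L)
    (f : (V → ℤ) → (J → ℤ)) (hA : Ax (Grd M K) f)
    (hc : ∀ c ∈ K, ∀ v, InC M c v → (s c).Has (f v)) (b : Cube V → J → ℤ)
    (hb : ∀ c ∈ K, ∀ v, (∀ i, (M : ℤ) * c.lo i ≤ v i ∧
        v i ≤ (M : ℤ) * c.lo i + (if i ∈ c.fr then 1 else 0)) → f v = b c)
    (z : Cube V → Ch J) (om : Cube V → (Fin n → ℤ) → (J → ℤ))
    (ph : Cube V → Ch (Fin n) →ₗ[ℤ] Ch J)
    (hom : ∀ c ∈ K, c.dim = n → LoopD n (s c) (b c) (z c) L (om c) (ph c))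
    (h : (V → ℤ) → (J → ℤ)) (hI : Ins n K M L f om h) (ψ hp : Ch V →ₗ[ℤ] Ch J)
    (hψ : Push (Grd M K) (Spn f) f ψ) (hhp : Push (Grd (M * L) K) (Spn h) h hp) :
    (∀ c ∈ K, c.dim < n → hp (sub (M * L) (one c)) = ψ (sub M (one c))) ∧
    (∀ c ∈ K, c.dim = n → hp (sub (M * L) (one c)) = ψ (sub M (one c)) + z c) := by
  have hL' : (0 : ℤ) < L := by exact_mod_cast hL
  have hχ := push_flr L 0 (le_refl 0) hL' (Grd M K) (closed_grd M K) f ψ hψ
  rw [grd_grd M L K hM hL] at hχ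
  have hχs : ∀ c : Cube V, (ψ ∘ₗ fl L 0) (sub (M * L) (one c)) = ψ (sub M (one c)) := by
    intro c
    rw [LinearMap.comp_apply, ← sub_sub M L hM hL, fl_sub L 0 (le_refl 0) hL']
  have hAx := ins_ax n K hK hKd s M L hM hL f hA b z om ph hom h hI
  have hctl := ins_ctl n K hK hKd s M L hM hL f hc b z om ph hom h hI
  have hVM : VMap (Grd (M * L) K) Set.univ h := by
    rintro Q ⟨c, hcK, hQ⟩
    exact ⟨s c, Set.mem_univ _, fun v hv => hctl c hcK v (GE2c_inC hQ hv)⟩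
  have hloc : ∀ c ∈ K, ∀ R : Cube V, R.InM (M * L) c → (∀ v, R.Has v → h v = f (flo L 0 v)) →
      hp (one R) = (ψ ∘ₗ fl L 0) (one R) := by
    intro c hcK R hR hv
    exact push_loc (Grd (M * L) K) (Grd (M * L) K) (closed_grd _ _) (closed_grd _ _) h (f ∘ flo L 0) hp
      (ψ ∘ₗ fl L 0) hhp hχ R ⟨c, hcK, hR⟩ ⟨c, hcK, hR⟩ hv hVM hAx
  refine ⟨fun c hcK hd => ?_, fun c hcK hd => ?_⟩
  · rw [← hχs c]
    exact eq_of_one (K := Grd (M * L) (Faces c)) hp (ψ ∘ₗ fl L 0) (fun R hR => hloc c hcK R (GE2c_inM hR)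
      fun v hv => hI.low c hcK hd v (GE2c_inC (GE2c_inM hR) hv))
      (sub_mem (M * L) (Faces c) c.dim (one_mem (Cube.le_refl' c)))
  · have hcard : c.fr.card = n := hd
    -- outside of the corner
    have h1 : hp (sub (M * L) (one c) - sub L (one (GE2c_Q M c))) =
        (ψ ∘ₗ fl L 0) (sub (M * L) (one c) - sub L (one (GE2c_Q M c))) := by
      refine eq_of_one (K := {R : Cube V | R.InM (M * L) c ∧
        ∃ i ∈ c.fr, ((M * L : ℕ) : ℤ) * c.lo i + L ≤ R.lo i}) hp (ψ ∘ₗ fl L 0) (fun R hR => ?_)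
        (GE2c_supp hM hL c)
      obtain ⟨hR1, i, hi, hR2⟩ := hR
      exact hloc c hcK R hR1 fun v hv => hI.far c hcK hd v (GE2c_inC hR1 hv) ⟨i, hi, hR2.trans (hv i).1⟩
    -- the corner, push of the dilation
    have h2 : (ψ ∘ₗ fl L 0) (sub L (one (GE2c_Q M c))) = 0 := by
      rw [LinearMap.comp_apply, fl_sub L 0 (le_refl 0) hL']
      refine push_const (Grd M K) f ψ hψ (GE2c_Q M c) ⟨c, hcK, GE2c_Q_inM hM c⟩ (b c) (fun v hv => ?_) ?_
      · refine hb c hcK v fun i => ⟨(hv i).1, ?_⟩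
        have h3 := (hv i).2
        rw [GE2c_Q_hi] at h3
        exact h3
      · have h3 : (GE2c_Q M c).dim = n := hd
        rw [h3]
        exact hn
    -- the corner, push of the loop
    have h3 : hp (sub L (one (GE2c_Q M c))) = z c := by
      have hcu : emb (c.fr.orderEmbOfFin hcard) (fun j => (M : ℤ) * c.lo j) (ucube n) = GE2c_Q M c :=
        cell_ucube (GE2c_Q M c) hcard
      have ha : (fun j => (L : ℤ) * ((M : ℤ) * c.lo j)) = fun j => ((M * L : ℕ) : ℤ) * c.lo j := by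
        funext j
        push_cast
        ring
      have h4 : sub L (one (GE2c_Q M c)) = embC (c.fr.orderEmbOfFin hcard)
          (fun j => ((M * L : ℕ) : ℤ) * c.lo j) (sub L (one (ucube n))) := by
        rw [← ha, ← embC_sub (c.fr.orderEmbOfFin hcard) (fun j => (M : ℤ) * c.lo j) L hL, embC_one, hcu]
      have h5 : ∀ Q ∈ Grd L (Faces (ucube n)), emb (c.fr.orderEmbOfFin hcard)
          (fun j => ((M * L : ℕ) : ℤ) * c.lo j) Q ∈ Grd (M * L) K := by
        intro Q hQ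
        refine ⟨c, hcK, GE2c_Q_big hM c ?_⟩
        have h6 := emb_inM (c.fr.orderEmbOfFin hcard) (fun j => (M : ℤ) * c.lo j) L (GE2c_inM hQ)
        rw [hcu, ha] at h6
        exact h6
      have h6 := push_emb (c.fr.orderEmbOfFin hcard) (fun j => ((M * L : ℕ) : ℤ) * c.lo j) (Grd (M * L) K)
        (Grd L (Faces (ucube n))) h5 h hp hhp
      have hlo := hom c hcK hd
      rw [h4, ← hlo.val, ← LinearMap.comp_apply]
      refine eq_of_one (K := Grd L (Faces (ucube n))) _ _ (fun Q hQ => ?_)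
        (sub_mem L (Faces (ucube n)) (ucube n).dim (one_mem (Cube.le_refl' (ucube n))))
      refine (push_loc Set.univ (Grd L (Faces (ucube n))) (fun _ _ _ _ => Set.mem_univ _) (closed_grd _ _) (om c)
        (h ∘ embP (c.fr.orderEmbOfFin hcard) (fun j => ((M * L : ℕ) : ℤ) * c.lo j)) (ph c)
        (hp ∘ₗ embC (c.fr.orderEmbOfFin hcard) (fun j => ((M * L : ℕ) : ℤ) * c.lo j)) hlo.psh h6 Q
        (Set.mem_univ _) hQ (fun v hv => ?_) ?_ hlo.axi).symm
      · symm
        refine hI.cor c hcK hcard v fun i => ?_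
        have h7 := GE2c_inM hQ i
        have h8 := hv i
        have h9 : (ucube n).lo i = 0 := rfl
        have h10 : (ucube n).hi i = 1 := by
          unfold Cube.hi ucube
          simp
        rw [h9, h10, mul_zero, mul_one] at h7
        exact ⟨h7.1.trans h8.1, h8.2.trans h7.2⟩
      · intro Q _
        obtain ⟨S, _, hS⟩ := hlo.vmp Q (Set.mem_univ _)
        exact ⟨S, Set.mem_univ _, hS⟩
    rw [map_sub, map_sub, h2, h3, hχs, sub_zero] at h1
    rw [← h1]
    abel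

end AGE
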