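import Pool.Agent.AGE.Defs
import Pool.Agent.AGE.FTD
import Pool.Agent.AGE.FTE
import Pool.Agent.AGE.FDD
import Pool.Agent.AGE.C1a
import Pool.Agent.AGE.C1b
import Pool.Agent.AGE.C3
import Pool.Agent.AGE.C4b
import Pool.Agent.AGE.C5
import Pool.Agent.AGE.C6a
import Pool.Agent.AGE.C6b
import Pool.Agent.AGE.C6c
import Pool.Agent.AGE.FILL
import Pool.Agent.AGE.LPD
import Pool.Agent.AGE.LP1
import Pool.Agent.AGE.LP2
import Pool.Agent.AGE.LP3
import Pool.Agent.AGE.GED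
import Pool.Agent.AGE.GE1
import Pool.Agent.AGE.GE2a
import Pool.Agent.AGE.GE2b
import Pool.Agent.AGE.GE2c

/-!
# AGE-GE4: the map on the `n`-skeleton

Plan. `stag1` for `Sk n K` (finite; closed because faces have smaller dimension): `M`, `f'`. `ψ` from `push_exists` on `Grd M (Sk n K)` (`VMap`: control). `κ` from `carrier_unique'` on `Sk n K` (`m = n`) with the carriers `Faces (s c)` (acyclic: `acy_faces`), the chain maps `φ` and `ψ ∘ sub M`: `ψ (sub M (one c)) ∈ CC (Faces (s c)) c.dim`: `sub M (one c)` is a chain of cubes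
`R.InM M c` and `ψ (one R) ∈ CC (Spn f' R) _`, `Spn f' R ⊆ Faces (s c)` (`spn_sub`); chain map: `sub_bd`; in degree `0`: `eps` of both is `1` (`hD.phE`; `sub_pt`, `hψ.vtx`, `eps_pt`; a cube of dimension `0` is `pt c.lo`). So `ψ (sub M (one c)) - φ (one c) = bd (κ (one c)) + κ (bd (one c))` for `c ∈ Sk n K`. For the `n`-cells `c` let `l c = lam (one c) - κ (one c) ∈ CC (Faces (s c)) (n + 1)`
and take the loop data of `loop` (`t = s c`, `b = f c.lo`, `l c`); make the sizes equal by `loop_mono` (maximum over the finite set): `L`, `om`, `ph`. `ins_map` for `Sk n K` gives `h`, `ins_ax`, `ins_ctl`; `hp` from `push_exists` on `Grd (M * L) (Sk n K)`; `ins_val`: `c.dim < n`: `hp (sub (M L) (one c)) = ψ (sub M (one c)) = φ + bd κ + κ bd`; `c.dim = n`: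
`= φ + bd κ + κ bd + bd (lam - κ) = φ + bd lam + κ bd`. Put `k = κ`, `M₁ = M * L`.
-/

set_option autoImplicit false

noncomputable section

namespace AGE

variable {V J : Type} [LinearOrder V] [LinearOrder J]


private theorem ge4_cls {n : ℕ} {K : Set (Cube V)} (hK : Closed K) : Closed (Sk n K) :=
  fun P hP Q hQ => ⟨hK P hP.1 Q hQ, (Cube.le_dim hQ).trans hP.2⟩

private theorem ge4_inC {M : ℕ} {Q c : Cube V} (h : Q.InM M c) {v : V → ℤ} (hv : Q.Has v) : InC M c v :=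
  fun i => ⟨(h i).1.trans (hv i).1, (hv i).2.trans (h i).2⟩

private theorem ge4_vmap {M : ℕ} {K : Set (Cube V)} {s : Cube V → Cube J} {f : (V → ℤ) → (J → ℤ)}
    (hc : ∀ c ∈ K, ∀ v, InC M c v → (s c).Has (f v)) : VMap (Grd M K) Set.univ f := by
  rintro Q ⟨P, hP, hQ⟩
  exact ⟨s P, Set.mem_univ _, fun v hv => hc P hP v (ge4_inC hQ hv)⟩

private theorem ge4_one {K : Set (Cube V)} {c : Cube V} {i : ℕ} (h : c ∈ K) (hi : c.dim = i) : one c ∈ CC K i := by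
  have := one_mem h
  rwa [hi] at this

/-- the subdivided chain map is carried by the control -/
private theorem ge4_car {M : ℕ} {K : Set (Cube V)} (hK : Closed K) {s : Cube V → Cube J}
    (hs1 : ∀ c ∈ K, ∀ d : Cube V, d.Le c → (s d).Le (s c)) {f : (V → ℤ) → (J → ℤ)}
    (hc : ∀ c ∈ K, ∀ v, InC M c v → (s c).Has (f v)) {ψ : Ch V →ₗ[ℤ] Ch J}
    (hψ : Push (Grd M K) (Spn f) f ψ) (c : Cube V) (hcK : c ∈ K) :
    ψ (sub M (one c)) ∈ CC (Faces (s c)) c.dim := by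
  have h1 : sub M (one c) ∈ CC (Grd M (Faces c)) c.dim :=
    sub_mem M (Faces c) c.dim (ge4_one (Cube.le_refl' c) rfl)
  refine map_mem ψ _ ?_ h1
  rintro R ⟨P, hP, hR⟩ hd
  have hPK : P ∈ K := hK c hcK P hP
  have h2 := hψ.car R ⟨P, hPK, hR⟩
  rw [hd] at h2
  refine CC_mono (spn_sub f R (s c) fun v hv => ?_) _ h2
  exact Cube.has_of_le (hs1 c hcK P hP) (hc P hPK v (ge4_inC hR hv))

private theorem ge4_chn {M : ℕ} (hM : 0 < M) {K : Set (Cube V)} {f : (V → ℤ) → (J → ℤ)} {ψ : Ch V →ₗ[ℤ] Ch J}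
    (hψ : Push (Grd M K) (Spn f) f ψ) (c : Cube V) (hcK : c ∈ K) :
    bd (ψ (sub M (one c))) = ψ (sub M (bd (one c))) := by
  rw [sub_bd M hM]
  exact eq_of_one (bd ∘ₗ ψ) (ψ ∘ₗ bd) (fun R hR => hψ.chn R hR) (sub_mem M K c.dim (ge4_one hcK rfl))

private theorem ge4_eps {M : ℕ} {K : Set (Cube V)} {f : (V → ℤ) → (J → ℤ)} {ψ : Ch V →ₗ[ℤ] Ch J}
    (hψ : Push (Grd M K) (Spn f) f ψ) (c : Cube V) (hcK : c ∈ K) (hd : c.dim = 0) :
    eps (ψ (sub M (one c))) = 1 := by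
  have hc : c = pt c.lo := by
    apply Cube.ext
    · rfl
    · exact Finset.card_eq_zero.1 hd
  rw [hc, sub_pt]
  rw [hψ.vtx]
  · exact eps_pt _
  · refine ⟨c, hcK, fun i => ?_⟩
    have h1 : c.hi i = c.lo i := by
      unfold Cube.hi
      rw [if_neg]
      rw [Finset.card_eq_zero.1 hd]
      exact Finset.notMem_empty i
    have h2 : (pt fun j => (M : ℤ) * c.lo j).hi i = (M : ℤ) * c.lo i := by
      unfold Cube.hi pt
      simp
    rw [h2, h1]
    exact ⟨le_refl _, le_refl _⟩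

theorem geo_skel [Nonempty J] (n : ℕ) (hn : 2 ≤ n) (K : Set (Cube V)) (hK1 : K.Finite)
    (hK2 : Closed K) (τV : Equiv.Perm V) (τJ : Equiv.Perm J)
    (f : (V → ℤ) → (J → ℤ)) (s : Cube V → Cube J)
    (hs1 : ∀ c ∈ K, ∀ d : Cube V, d.Le c → (s d).Le (s c))
    (hs2 : ∀ c ∈ K, ∀ v, c.Has v → (s c).Has (f v))
    (φ lam nu xi : Ch V →ₗ[ℤ] Ch J)
    (hD : Dat n K (fun c => Faces (s c)) τV τJ φ lam nu xi) :
    ∃ (M₁ : ℕ) (h : (V → ℤ) → (J → ℤ)) (hp k : Ch V →ₗ[ℤ] Ch J), 0 < M₁ ∧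
      Ax (Grd M₁ (Sk n K)) h ∧ (∀ c ∈ Sk n K, ∀ v, InC M₁ c v → (s c).Has (h v)) ∧
      Push (Grd M₁ (Sk n K)) (Spn h) h hp ∧
      (∀ c ∈ Sk n K, k (one c) ∈ CC (Faces (s c)) (c.dim + 1)) ∧
      (∀ c ∈ K, c.dim < n →
        hp (sub M₁ (one c)) = φ (one c) + bd (k (one c)) + k (bd (one c))) ∧
      (∀ c ∈ K, c.dim = n →
        hp (sub M₁ (one c)) = φ (one c) + bd (lam (one c)) + k (bd (one c))) := by
  classical
  have hK' : Closed (Sk n K) := ge4_cls hK2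
  have hKf : (Sk n K).Finite := hK1.subset fun c hc => hc.1
  have hKd : ∀ c ∈ Sk n K, c.dim ≤ n := fun c hc => hc.2
  have hs1' : ∀ c ∈ Sk n K, ∀ d : Cube V, d.Le c → (s d).Le (s c) := fun c hc => hs1 c hc.1
  obtain ⟨M, f', hM, hA, hctl, hb⟩ := stag1 (Sk n K) hKf f s (fun c hc => hs2 c hc.1)
  obtain ⟨ψ, hψ⟩ := push_exists n (Grd M (Sk n K)) (closed_grd M _)
    (fun Q hQ => by
      obtain ⟨P, hP, _, h3⟩ := grd_dim hM hQ
      exact h3.trans (hKd P hP)) f' (ge4_vmap hctl)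
  obtain ⟨κ, hκ1, hκ2⟩ := carrier_unique' (Sk n K) hK' n hKd (fun c => Faces (s c))
    (fun c _ => closed_faces (s c)) (fun c hc d hd Q hQ => Cube.le_trans' hQ (hs1' c hc d hd))
    (fun c _ i _ z hz h1 h2 => acy_faces (s c) i z hz h1 h2) φ (ψ ∘ₗ sub M)
    (fun c hc => hD.phC c hc.1) (fun c hc => ge4_car hK' hs1' hctl hψ c hc)
    (fun c hc => hD.phB c hc.1) (fun c hc => ge4_chn hM hψ c hc)
    (fun c hc hd => by
      rw [hD.phE c hc.1 hd]
      exact (ge4_eps hψ c hc hd).symm)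
  have hκ3 : ∀ c ∈ Sk n K, ψ (sub M (one c)) = φ (one c) + bd (κ (one c)) + κ (bd (one c)) := by
    intro c hc
    have h := hκ2 c hc
    have h' : ψ (sub M (one c)) - φ (one c) = bd (κ (one c)) + κ (bd (one c)) := h
    rw [sub_eq_iff_eq_add] at h'
    rw [h']
    abel
  have hlp : ∀ c : Cube V, c ∈ Sk n K → c.dim = n →
      IsLoop n (s c) (f c.lo) (bd (lam (one c) - κ (one c))) := by
    intro c hc hd
    refine loop n hn (s c) (f c.lo) (hs2 c hc.1 c.lo (Cube.has_lo c)) _ ?_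
    have h1 := hD.laC c hc.1 hd
    have h2 := hκ1 c hc
    rw [hd] at h2
    exact Submodule.sub_mem _ h1 h2
  have hch : ∀ c : Cube V, ∃ (L : ℕ) (om : (Fin n → ℤ) → (J → ℤ)) (ph : Ch (Fin n) →ₗ[ℤ] Ch J),
      c ∈ Sk n K → c.dim = n → LoopD n (s c) (f c.lo) (bd (lam (one c) - κ (one c))) L om ph := by
    intro c
    by_cases h : c ∈ Sk n K ∧ c.dim = n
    · obtain ⟨L, om, ph, hL⟩ := hlp c h.1 h.2
      exact ⟨L, om, ph, fun _ _ => hL⟩
    · exact ⟨0, fun _ => Classical.arbitrary _, 0, fun h1 h2 => absurd ⟨h1, h2⟩ h⟩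
  choose Lc om ph hLc using hch
  obtain ⟨L, hL0, hL⟩ : ∃ L : ℕ, 0 < L ∧ ∀ c ∈ Sk n K, Lc c ≤ L := by
    refine ⟨hKf.toFinset.sup Lc + 1, Nat.succ_pos _, fun c hc => ?_⟩
    have h := Finset.le_sup (f := Lc) (hKf.mem_toFinset.2 hc)
    omega
  have hom : ∀ c ∈ Sk n K, c.dim = n →
      LoopD n (s c) (f c.lo) (bd (lam (one c) - κ (one c))) L (om c) (ph c) := fun c hc hd =>
    loop_mono n (by omega) _ _ _ (Lc c) L (hL c hc) _ _ (hLc c hc hd)
  obtain ⟨h, hI⟩ := ins_map n (Sk n K) M L hM hL0 f' (fun c => f c.lo) hb om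
    (fun c hc hd => (hom c hc hd).out)
  have hax := ins_ax n (Sk n K) hK' hKd s M L hM hL0 f' hA (fun c => f c.lo)
    (fun c => bd (lam (one c) - κ (one c))) om ph hom h hI
  have hct := ins_ctl n (Sk n K) hK' hKd s M L hM hL0 f' hctl (fun c => f c.lo)
    (fun c => bd (lam (one c) - κ (one c))) om ph hom h hI
  have hML : 0 < M * L := Nat.mul_pos hM hL0
  obtain ⟨hp, hhp⟩ := push_exists n (Grd (M * L) (Sk n K)) (closed_grd _ _)
    (fun Q hQ => by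
      obtain ⟨P, hP, _, h3⟩ := grd_dim hML hQ
      exact h3.trans (hKd P hP)) h (ge4_vmap hct)
  obtain ⟨hv1, hv2⟩ := ins_val n (by omega) (Sk n K) hK' hKd s M L hM hL0 f' hA hctl (fun c => f c.lo) hb
    (fun c => bd (lam (one c) - κ (one c))) om ph hom h hI ψ hp hψ hhp
  refine ⟨M * L, h, hp, κ, hML, hax, hct, hhp, hκ1, fun c hc hd => ?_, fun c hc hd => ?_⟩
  · have hcn : c ∈ Sk n K := ⟨hc, by omega⟩
    rw [hv1 c hcn hd, hκ3 c hcn]
  · have hcn : c ∈ Sk n K := ⟨hc, by omega⟩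
    rw [hv2 c hcn hd, hκ3 c hcn, map_sub]
    abel

end AGE
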