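import Pool.Agent.AGE.Defs
import Pool.Agent.AGE.FTD
import Pool.Agent.AGE.FTE
import Pool.Agent.AGE.FDD
import Pool.Agent.AGE.C1a
import Pool.Agent.AGE.C1b
import Pool.Agent.AGE.C3
import Pool.Agent.AGE.C4b
import Pool.Agent.AGE.C5
import Pool.Agent.AGE.C6a
import Pool.Agent.AGE.C6b
import Pool.Agent.AGE.C6c
import Pool.Agent.AGE.FILL
import Pool.Agent.AGE.LPD
import Pool.Agent.AGE.LP1
import Pool.Agent.AGE.LP2
import Pool.Agent.AGE.GED
import Pool.Agent.AGE.GE0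
import Pool.Agent.AGE.GE3a
import Pool.Agent.AGE.GE3b
import Pool.Agent.AGE.GE4

/-!
# AGE-GEO1P: the `n`-dimensional approximation (assembly)

Plan. `J` empty: `geo1_empty`. Otherwise `geo_skel`: `M₁, h, hp, k`. For an `(n+1)`-cell `c ∈ K`: `bd (one c)` is a combination of `n`-cells of `K`, so `hp (sub M₁ (bd (one c))) = φ (bd (one c)) + bd (lam (bd (one c))) + k (bd (bd (one c)))` (extend the last statement of `geo_skel` linearly to `CC K n`; `bd_mem`, `bd_bd`) `= bd (φ (one c) + lam (bd (one c))) = bd (bd (nu (one c))) = 0`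
(`hD.phB`, `hD.eqE`). `cell_fill`, `glue_fill`: `D`, `H`. Put `M = M₁ * D`. First claim: for `c.dim = n + 1` from `glue_fill`. For `c.dim ≤ n`: `Q.InM (M₁ D) c`: `H = h ∘ flo D 1` on the vertices of `Q`; apply `cel_of_ax` to the complex `{R | R.InM (M₁ D) c}`... or directly to `Grd (M₁ * D) (Faces c)` with `T = Faces (s c)`: `VMap` (`flo D 1 v` satisfies `InC M₁ c`, control),
`Ax` by `ax_flo` (`Grd (M₁ * D) = Grd D ∘ Grd M₁`; `Faces c ⊆ Sk n K`): `S.Le (s c)`, `S.dim ≤ Q.dim ≤ c.dim ≤ n`. `hp'` from `push_exists` (`m = n + 1`) for `H` on `Grd M K`. For `c ∈ Sk n K`: `hp' (sub (M₁ D) (one c)) = hp (fl D 1 (sub (M₁ * D) (one c))) = hp (sub M₁ (one c))`: on `Grd D (Grd M₁ (Sk n K))` the maps `H` and `h ∘ flo D 1` agree on vertices, `hp ∘ fl D 1` is a push of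
the second (`push_flr`), `push_loc` for every cube of `sub (M₁ D) (one c)` (`g = h ∘ flo D 1` is axial); `sub_sub`, `fl_sub`.
-/

set_option autoImplicit false

noncomputable section

namespace AGE

variable {V J : Type} [LinearOrder V] [LinearOrder J]


private theorem GEO1P_flo (D M : ℕ) (hD : 1 < D) (c : Cube V) (v : V → ℤ)
    (h : InC (M * D) c v) : InC M c (flo D 1 v) := by
  intro i
  have hD' : (0 : ℤ) < D := by exact_mod_cast (by omega : 0 < D)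
  have hD1 : (1 : ℤ) < D := by exact_mod_cast hD
  obtain ⟨h1, h2⟩ := h i
  push_cast at h1 h2
  show (M : ℤ) * c.lo i ≤ (v i + 1) / (D : ℤ) ∧ (v i + 1) / (D : ℤ) ≤ (M : ℤ) * c.hi i
  constructor
  · rw [Int.le_ediv_iff_mul_le hD']
    have h3 : (M : ℤ) * c.lo i * D = (M : ℤ) * D * c.lo i := by ring
    linarith
  · have h4 : (v i + 1) / (D : ℤ) < (M : ℤ) * c.hi i + 1 := by
      rw [Int.ediv_lt_iff_lt_mul hD']
      have h3 : ((M : ℤ) * c.hi i + 1) * D = (M : ℤ) * D * c.hi i + D := by ring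
      linarith
    omega

private theorem GEO1P_inC {M : ℕ} {Q c : Cube V} (h : Q.InM M c) {v : V → ℤ} (hv : Q.Has v) :
    InC M c v :=
  fun i => ⟨(h i).1.trans (hv i).1, (hv i).2.trans (h i).2⟩

private theorem GEO1P_skc {n : ℕ} {K : Set (Cube V)} (hK : Closed K) {c : Cube V}
    (hc : c ∈ Sk n K) : Faces c ⊆ Sk n K :=
  fun Q hQ => ⟨hK c hc.1 Q hQ, (Cube.le_dim hQ).trans hc.2⟩

private theorem GEO1P_grd {K K' : Set (Cube V)} (h : K ⊆ K') (M : ℕ) : Grd M K ⊆ Grd M K' := by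
  rintro Q ⟨P, hP, hQ⟩
  exact ⟨P, h hP, hQ⟩

theorem geo1' (n : ℕ) (hn : 2 ≤ n) (K : Set (Cube V)) (hK1 : K.Finite) (hK2 : Closed K)
    (hK3 : ∀ c ∈ K, c.dim ≤ n + 1) (τV : Equiv.Perm V) (τJ : Equiv.Perm J)
    (f : (V → ℤ) → (J → ℤ)) (s : Cube V → Cube J)
    (hs1 : ∀ c ∈ K, ∀ d : Cube V, d.Le c → (s d).Le (s c))
    (hs2 : ∀ c ∈ K, ∀ v, c.Has v → (s c).Has (f v))
    (φ lam nu xi : Ch V →ₗ[ℤ] Ch J)
    (hD : Dat n K (fun c => Faces (s c)) τV τJ φ lam nu xi) :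
    ∃ (M : ℕ) (h : (V → ℤ) → (J → ℤ)) (hp k : Ch V →ₗ[ℤ] Ch J), 0 < M ∧
      (∀ c ∈ K, ∀ Q : Cube V, Q.InM M c →
        ∃ S : Cube J, S.Le (s c) ∧ S.dim ≤ n ∧ ∀ v, Q.Has v → S.Has (h v)) ∧
      Push (Grd M K) (Spn h) h hp ∧
      (∀ c ∈ K, c.dim < n → k (one c) ∈ CC (Faces (s c)) (c.dim + 1)) ∧
      (∀ c ∈ K, c.dim < n →
        hp (sub M (one c)) = φ (one c) + bd (k (one c)) + k (bd (one c))) ∧
      (∀ c ∈ K, c.dim = n →
        hp (sub M (one c)) = φ (one c) + bd (lam (one c)) + k (bd (one c))) := by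
  rcases isEmpty_or_nonempty J with hJ | hJ
  · exact geo1_empty n hn K hK1 hK2 hK3 τV τJ f s hs1 hs2 φ lam nu xi hD
  obtain ⟨M₁, h, hp, k, hM1, hAx, hctl, hpush, hk, hlt, heq⟩ :=
    geo_skel n hn K hK1 hK2 τV τJ f s hs1 hs2 φ lam nu xi hD
  -- the boundary of an `(n+1)`-cell
  have hA : ∀ c ∈ K, c.fr.card = n + 1 → hp (sub M₁ (bd (one c))) = 0 := by
    intro c hc hd
    have h1 : bd (one c) ∈ CC (Faces c) n := by
      apply bd_mem (closed_faces c)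
      have h2 : one c ∈ CC (Faces c) c.dim := one_mem (Cube.le_refl' c)
      have h3 : c.dim = n + 1 := hd
      rw [h3] at h2
      exact h2
    have hsub : {Q : Cube V | Q ∈ Faces c ∧ Q.dim = n} ⊆
        {Q : Cube V | Q ∈ {Q : Cube V | Q ∈ K ∧ Q.dim = n} ∧ Q.dim = n} :=
      fun Q hQ => ⟨⟨hK2 c hc Q hQ.1, hQ.2⟩, hQ.2⟩
    have h4 : bd (one c) ∈ CC {Q : Cube V | Q ∈ K ∧ Q.dim = n} n :=
      Finsupp.supported_mono hsub h1
    have h5 : (hp ∘ₗ sub M₁) (bd (one c)) = (φ + bd ∘ₗ lam + k ∘ₗ bd) (bd (one c)) := by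
      refine eq_of_one (K := {Q : Cube V | Q ∈ K ∧ Q.dim = n}) _ _ (fun Q hQ => ?_) h4
      rw [LinearMap.comp_apply, heq Q hQ.1 hQ.2]
      rfl
    have h6 : (hp ∘ₗ sub M₁) (bd (one c)) = hp (sub M₁ (bd (one c))) := rfl
    have h7 : (φ + bd ∘ₗ lam + k ∘ₗ bd) (bd (one c)) =
        φ (bd (one c)) + bd (lam (bd (one c))) + k (bd (bd (one c))) := rfl
    rw [← h6, h5, h7, bd_bd, map_zero, add_zero, ← hD.phB c hc, ← map_add, hD.eqE c hc hd, bd_bd]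
  obtain ⟨D, H, hD3, hH1, hH2⟩ := glue_fill n K hK1 hK2 s M₁ hM1 h
    (fun c hc hd => cell_fill n hn K hK2 s hs1 M₁ hM1 h hAx hctl hp hpush c hc hd (hA c hc hd))
  have hD0 : 0 < D := by omega
  have hD1 : 1 < D := by omega
  have hD1' : (1 : ℤ) < D := by exact_mod_cast hD1
  have hM : 0 < M₁ * D := Nat.mul_pos hM1 hD0
  -- the map `h ∘ flo D 1` is axial
  have hax : Ax (Grd (M₁ * D) (Sk n K)) (h ∘ flo D 1) := by
    rw [← grd_grd M₁ D _ hM1 hD0]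
    exact ax_flo D 1 zero_le_one hD1' (Grd M₁ (Sk n K)) (closed_grd _ _) h hAx
  -- control
  have hcon : ∀ c ∈ Sk n K, ∀ v, InC (M₁ * D) c v → (s c).Has ((h ∘ flo D 1) v) :=
    fun c hc v hv => hctl c hc _ (GEO1P_flo D M₁ hD1 c v hv)
  have hfirst : ∀ c ∈ K, ∀ Q : Cube V, Q.InM (M₁ * D) c →
      ∃ S : Cube J, S.Le (s c) ∧ S.dim ≤ n ∧ ∀ v, Q.Has v → S.Has (H v) := by
    intro c hc Q hQ
    rcases Nat.lt_or_ge n c.dim with hlt' | hle
    · exact hH2 c hc (le_antisymm (hK3 c hc) hlt') Q hQ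
    · have hcs : c ∈ Sk n K := ⟨hc, hle⟩
      have hcel : Cel (Grd (M₁ * D) (Faces c)) (Faces (s c)) (h ∘ flo D 1) := by
        refine cel_of_ax _ _ (closed_faces _) _ (fun R hR => ?_) (fun R hR => ?_)
        · obtain ⟨P, hP, hRP⟩ := hR
          refine ⟨s c, Cube.le_refl' _, fun v hv => hcon c hcs v (GEO1P_inC (fun i => ?_) hv)⟩
          have hn0 : (0 : ℤ) ≤ ((M₁ * D : ℕ) : ℤ) := Int.natCast_nonneg _
          exact ⟨(mul_le_mul_of_nonneg_left (hP i).1 hn0).trans (hRP i).1,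
            (hRP i).2.trans (mul_le_mul_of_nonneg_left (hP i).2 hn0)⟩
        · exact hax R (GEO1P_grd (GEO1P_skc hK2 hcs) _ hR)
      obtain ⟨S, hS1, hS2, hS3⟩ := hcel Q ⟨c, Cube.le_refl' c, hQ⟩
      obtain ⟨P, hP, -, hdP⟩ := grd_dim (K := {c}) hM ⟨c, Set.mem_singleton c, hQ⟩
      rw [Set.mem_singleton_iff.1 hP] at hdP
      refine ⟨S, hS1, hS2.trans (hdP.trans hle), fun v hv => ?_⟩
      rw [hH1 c hc hle v (GEO1P_inC hQ hv)]
      exact hS3 v hv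
  obtain ⟨hp', hpush'⟩ := push_exists (n + 1) (Grd (M₁ * D) K) (closed_grd _ _)
    (fun Q hQ => by
      obtain ⟨P, hP, -, hdP⟩ := grd_dim hM hQ
      exact hdP.trans (hK3 P hP))
    H (fun Q hQ => by
      obtain ⟨c, hc, hQc⟩ := hQ
      obtain ⟨S, -, -, hS⟩ := hfirst c hc Q hQc
      exact ⟨S, Set.mem_univ _, hS⟩)
  -- comparison on the `n`-skeleton
  have hcmp : ∀ c ∈ Sk n K, hp' (sub (M₁ * D) (one c)) = hp (sub M₁ (one c)) := by
    intro c hc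
    have h1 : sub (M₁ * D) (one c) ∈ CC (Grd (M₁ * D) (Sk n K)) c.dim :=
      sub_mem (M₁ * D) (Sk n K) c.dim (one_mem hc)
    have hfl : Push (Grd (M₁ * D) (Sk n K)) (Spn (h ∘ flo D 1)) (h ∘ flo D 1) (hp ∘ₗ fl D 1) := by
      rw [← grd_grd M₁ D _ hM1 hD0]
      exact push_flr D 1 zero_le_one hD1' (Grd M₁ (Sk n K)) (closed_grd _ _) h hp hpush
    have h2 : (hp ∘ₗ fl D 1) (sub (M₁ * D) (one c)) = hp' (sub (M₁ * D) (one c)) := by
      refine eq_of_one _ _ (fun R hR => ?_) h1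
      refine push_loc (Grd (M₁ * D) (Sk n K)) (Grd (M₁ * D) K) (closed_grd _ _) (closed_grd _ _)
        (h ∘ flo D 1) H _ hp' hfl hpush' R hR (GEO1P_grd (fun Q hQ => hQ.1) _ hR) (fun v hv => ?_)
        (fun Q hQ => ?_) hax
      · obtain ⟨P, hP, hRP⟩ := hR
        exact (hH1 P hP.1 hP.2 v (GEO1P_inC hRP hv)).symm
      · obtain ⟨P, hP, hQP⟩ := hQ
        exact ⟨s P, Set.mem_univ _, fun v hv => hcon P hP v (GEO1P_inC hQP hv)⟩
    rw [← h2, LinearMap.comp_apply, ← sub_sub M₁ D hM1 hD0, fl_sub D 1 zero_le_one hD1']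
  refine ⟨M₁ * D, H, hp', k, hM, hfirst, hpush', fun c hc hd => hk c ⟨hc, hd.le⟩, ?_, ?_⟩
  · intro c hc hd
    rw [hcmp c ⟨hc, hd.le⟩, hlt c hc hd]
  · intro c hc hd
    rw [hcmp c ⟨hc, hd.le⟩, heq c hc hd]

end AGE
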