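import Pool.Agent.AGE.Defs
import Pool.Agent.AGE.FILL
import Pool.Agent.AGE.GEO1P

/-!
# Project AGE, layer GEO1: the `n`-dimensional approximation (main statement; see section 4 of the blueprint)
-/

set_option autoImplicit false

noncomputable section

namespace AGE

variable {V J : Type} [LinearOrder V] [LinearOrder J]

theorem geo1 (n : ℕ) (hn : 2 ≤ n) (K : Set (Cube V)) (hK1 : K.Finite) (hK2 : Closed K)
    (hK3 : ∀ c ∈ K, c.dim ≤ n + 1) (τV : Equiv.Perm V) (τJ : Equiv.Perm J)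
    (f : (V → ℤ) → (J → ℤ)) (s : Cube V → Cube J)
    (hs1 : ∀ c ∈ K, ∀ d : Cube V, d.Le c → (s d).Le (s c))
    (hs2 : ∀ c ∈ K, ∀ v, c.Has v → (s c).Has (f v))
    (φ lam nu xi : Ch V →ₗ[ℤ] Ch J)
    (hD : Dat n K (fun c => Faces (s c)) τV τJ φ lam nu xi) :
    ∃ (M : ℕ) (h : (V → ℤ) → (J → ℤ)) (hp k : Ch V →ₗ[ℤ] Ch J), 0 < M ∧
      (∀ c ∈ K, ∀ Q : Cube V, Q.InM M c →
        ∃ S : Cube J, S.Le (s c) ∧ S.dim ≤ n ∧ ∀ v, Q.Has v → S.Has (h v)) ∧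
      Push (Grd M K) (Spn h) h hp ∧
      (∀ c ∈ K, c.dim < n → k (one c) ∈ CC (Faces (s c)) (c.dim + 1)) ∧
      (∀ c ∈ K, c.dim < n →
        hp (sub M (one c)) = φ (one c) + bd (k (one c)) + k (bd (one c))) ∧
      (∀ c ∈ K, c.dim = n →
        hp (sub M (one c)) = φ (one c) + bd (lam (one c)) + k (bd (one c))) :=
  geo1' n hn K hK1 hK2 hK3 τV τJ f s hs1 hs2 φ lam nu xi hD

end AGE
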