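import Pool.Agent.AGE.ALG0

/-!
# AGE-INF1 (helper87): orbit lemmas for a free cyclic action on cells

`σ` acts on the cells, `K` is invariant, every `c ∈ K` has orbit of length exactly `N`.  `t` is the action of `σ⁻¹` on chains (no sign), `tB` the generator on `B`.
PLAN.
* `exists_rho`: let `c ~ c'` iff `∃ a : ℕ, (σ^a) c = c'`, for `c, c' ∈ K` an equivalence relation (`(σ^N) c = c` makes it symmetric; or use `σ.SameCycle` / orbits of `Subgroup.zpowers σ`).  Choose a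
  representative `r c` in every class (`Quotient.out`, or: `r c` a function constant on orbits with `r c` in the orbit of `c`).  For `c ∈ K` choose `a c : ℕ` with `(σ^(a c)) (r c) = c` and put
  `ρ c = (a c : ZMod N)`.  `σ c = (σ^(a c + 1)) (r c) = (σ^(a (σ c))) (r (σ c))` and `r (σ c) = r c`: so `(σ^|difference|)` fixes an element of `K`, hence `N` divides the difference (`fre`):
  `ρ (σ c) = ρ c + 1`.
* `free_avg`: `a0` = linear map with `a0 (single c 1) = if c ∈ K ∧ ρ c = 0 then m2 (single c 1) else 0` (`Finsupp.linearCombination`/`Finsupp.lift`, classical).  By `nrm_apply` and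
  `(t^i) (single c 1) = single (σ⁻¹^i c) 1` (induction, `ht`, `inv`): `nrm a0 (single c 1) = ∑_{i<N} (tB^i) (a0 (single (σ⁻¹^i c) 1))`, `ρ (σ⁻¹^i c) = ρ c - i`; this is 0 for exactly one `i < N`,
  `i = (ρ c).val` (`ZMod.natCast_zmod_val`, `ZMod.natCast_eq_natCast_iff'`/`ZMod.val_natCast_of_lt`), and the term is `(tB^i) (m2 ((t^i) (single c 1))) = m2 (single c 1)` (iterate `hm`, along the orbit).
* `free_h1`: `a (single c 1) = -(∑ l ∈ range (ρ c).val, ((con tB t)^l) x (single c 1))` for `c ∈ K` (0 outside `K`).  Put `c' = σ⁻¹ c ∈ K`, `i = (ρ c).val`; `ρ c' = ρ c - 1`.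
  `con a (single c 1) = tB (a (single c' 1)) = -(∑ l ∈ range (ρ c').val, ((con tB t)^(l+1)) x (single c 1))`.  If `i ≥ 1`: `(ρ c').val = i - 1` and the difference `con a - a` is the term `l = 0`,
  `x (single c 1)`.  If `i = 0`: `(ρ c').val = N - 1`, `a (single c 1) = 0` and `con a (single c 1) = -(nrm x (single c 1) - x (single c 1)) = x (single c 1)` (`Finset.sum_range_succ'`, `hx`).
-/

set_option autoImplicit false

noncomputable section

namespace AGE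
namespace ALG

open Finsupp

private theorem inf1_zinv {C : Type*} {K : Set C} {σ : Equiv.Perm C}
    (inv : ∀ c, c ∈ K ↔ σ c ∈ K) (n : ℕ) : ∀ c, c ∈ K ↔ (σ ^ n) c ∈ K := by
  induction n with
  | zero => intro c; rw [pow_zero, Equiv.Perm.one_apply]
  | succ n ih =>
      intro c
      rw [pow_succ, Equiv.Perm.mul_apply, ← ih (σ c)]
      exact inv c

private theorem inf1_symm {C : Type*} {K : Set C} {σ : Equiv.Perm C}
    (inv : ∀ c, c ∈ K ↔ σ c ∈ K) {c : C} (hc : c ∈ K) : σ.symm c ∈ K := by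
  rw [inv (σ.symm c), Equiv.apply_symm_apply]
  exact hc

private theorem inf1_zmem {C : Type*} {K : Set C} {σ : Equiv.Perm C}
    (inv : ∀ c, c ∈ K ↔ σ c ∈ K) (z : ℤ) (c : C) (hc : (σ ^ z) c ∈ K) : c ∈ K := by
  obtain ⟨n, rfl | rfl⟩ := Int.eq_nat_or_neg z
  · rw [zpow_natCast] at hc
    exact (inf1_zinv inv n c).2 hc
  · have h1 := (inf1_zinv inv n ((σ ^ (-(n : ℤ))) c)).1 hc
    rw [← Equiv.Perm.mul_apply, ← zpow_natCast, ← zpow_add, add_neg_cancel, zpow_zero,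
      Equiv.Perm.one_apply] at h1
    exact h1

private theorem inf1_zfre {C : Type*} {K : Set C} {N : ℕ} {σ : Equiv.Perm C}
    (fre : ∀ c ∈ K, ∀ a : ℕ, (σ ^ a) c = c → N ∣ a) {c : C} (hc : c ∈ K) (z : ℤ)
    (hz : (σ ^ z) c = c) : (N : ℤ) ∣ z := by
  obtain ⟨n, rfl | rfl⟩ := Int.eq_nat_or_neg z
  · rw [zpow_natCast] at hz
    exact Int.natCast_dvd_natCast.2 (fre c hc n hz)
  · have h1 : (σ ^ (n : ℤ)) ((σ ^ (-(n : ℤ))) c) = c := by
      rw [← Equiv.Perm.mul_apply, ← zpow_add, add_neg_cancel, zpow_zero, Equiv.Perm.one_apply]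
    rw [hz, zpow_natCast] at h1
    exact (dvd_neg).2 (Int.natCast_dvd_natCast.2 (fre c hc n h1))

theorem exists_rho {C : Type*} (K : Set C) (N : ℕ) (hN : 0 < N) (σ : Equiv.Perm C)
    (inv : ∀ c, c ∈ K ↔ σ c ∈ K) (ord : ∀ c ∈ K, (σ ^ N) c = c)
    (fre : ∀ c ∈ K, ∀ a : ℕ, (σ ^ a) c = c → N ∣ a) :
    ∃ ρ : C → ZMod N, ∀ c ∈ K, ρ (σ c) = ρ c + 1 := by
  classical
  have hex : ∀ c : C, ∃ a : ℤ,
      (σ ^ a) (Quotient.mk (Equiv.Perm.SameCycle.setoid σ) c).out = c := by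
    intro c
    have h1 : (Equiv.Perm.SameCycle.setoid σ) (Quotient.mk (Equiv.Perm.SameCycle.setoid σ) c).out c :=
      Quotient.mk_out c
    exact h1
  choose a ha using hex
  refine ⟨fun c => ((a c : ℤ) : ZMod N), fun c hc => ?_⟩
  have hq : Quotient.mk (Equiv.Perm.SameCycle.setoid σ) (σ c) =
      Quotient.mk (Equiv.Perm.SameCycle.setoid σ) c := by
    apply Quotient.sound
    show Equiv.Perm.SameCycle σ (σ c) c
    exact ⟨-1, by simp⟩
  have h1 := ha (σ c)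
  rw [hq] at h1
  have h2 := ha c
  obtain ⟨r, hr⟩ : ∃ r, r = (Quotient.mk (Equiv.Perm.SameCycle.setoid σ) c).out := ⟨_, rfl⟩
  rw [← hr] at h1 h2
  have hrK : r ∈ K := inf1_zmem inv (a c) r (by rw [h2]; exact hc)
  have h3 : (σ ^ (a c + 1)) r = σ c := by
    rw [add_comm, zpow_add, zpow_one, Equiv.Perm.mul_apply, h2]
  have h7 : ∀ z : ℤ, (σ ^ z) r = σ c → (σ ^ (-z)) (σ c) = r := by
    intro z hz
    rw [← hz, ← Equiv.Perm.mul_apply, ← zpow_add, neg_add_cancel, zpow_zero,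
      Equiv.Perm.one_apply]
  have h4 : (σ ^ (a c + 1 - a (σ c))) r = r := by
    rw [sub_eq_neg_add, zpow_add, Equiv.Perm.mul_apply, h3]
    exact h7 _ h1
  have h5 := inf1_zfre fre hrK _ h4
  have h6 : ((a c + 1 - a (σ c) : ℤ) : ZMod N) = 0 := (ZMod.intCast_zmod_eq_zero_iff_dvd _ _).2 h5
  push_cast at h6
  show ((a (σ c) : ℤ) : ZMod N) = ((a c : ℤ) : ZMod N) + 1
  exact (sub_eq_zero.1 h6).symm

private theorem inf1_tpow {C : Type*} {K : Set C} {σ : Equiv.Perm C}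
    (inv : ∀ c, c ∈ K ↔ σ c ∈ K) {t : (C →₀ ℤ) →ₗ[ℤ] (C →₀ ℤ)}
    (ht : ∀ c ∈ K, t (single c 1) = single (σ.symm c) 1) (i : ℕ) :
    ∀ c ∈ K, (t ^ i) (single c 1) = single ((σ.symm ^ i) c) 1 := by
  induction i with
  | zero => intro c _; rw [pow_zero, pow_zero]; rfl
  | succ i ih =>
      intro c hc
      have h1 : (t ^ (i + 1)) (single c 1) = (t ^ i) (t (single c 1)) := by rw [pow_succ]; rfl
      rw [h1, ht c hc, ih _ (inf1_symm inv hc), pow_succ, Equiv.Perm.mul_apply]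

private theorem inf1_rho {C : Type*} {K : Set C} {N : ℕ} {σ : Equiv.Perm C}
    (inv : ∀ c, c ∈ K ↔ σ c ∈ K) {ρ : C → ZMod N} (hρ : ∀ c ∈ K, ρ (σ c) = ρ c + 1) {c : C}
    (hc : c ∈ K) : ρ c = ρ (σ.symm c) + 1 := by
  have h1 := hρ _ (inf1_symm inv hc)
  rw [Equiv.apply_symm_apply] at h1
  exact h1

private theorem inf1_rhopow {C : Type*} {K : Set C} {N : ℕ} {σ : Equiv.Perm C}
    (inv : ∀ c, c ∈ K ↔ σ c ∈ K) {ρ : C → ZMod N} (hρ : ∀ c ∈ K, ρ (σ c) = ρ c + 1) (i : ℕ) :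
    ∀ c ∈ K, (σ.symm ^ i) c ∈ K ∧ ρ c = ρ ((σ.symm ^ i) c) + (i : ZMod N) := by
  induction i with
  | zero => intro c hc; rw [pow_zero]; simpa using hc
  | succ i ih =>
      intro c hc
      obtain ⟨h1, h2⟩ := ih _ (inf1_symm inv hc)
      rw [pow_succ, Equiv.Perm.mul_apply]
      refine ⟨h1, ?_⟩
      rw [inf1_rho inv hρ hc, h2]
      push_cast
      ring

private theorem inf1_val {N : ℕ} (z : ZMod N) (i : ℕ) (hi : i < N)
    (h : z = (i : ZMod N)) : z.val = i := by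
  rw [h, ZMod.val_natCast_of_lt hi]

theorem free_avg {C B : Type*} [AddCommGroup B] (K : Set C) (N : ℕ) (hN : 0 < N) (σ : Equiv.Perm C)
    (inv : ∀ c, c ∈ K ↔ σ c ∈ K) (ρ : C → ZMod N) (hρ : ∀ c ∈ K, ρ (σ c) = ρ c + 1)
    (t : (C →₀ ℤ) →ₗ[ℤ] (C →₀ ℤ)) (ht : ∀ c ∈ K, t (single c 1) = single (σ.symm c) 1)
    (tB : B →ₗ[ℤ] B) (m2 : (C →₀ ℤ) →ₗ[ℤ] B)
    (hm : ∀ c ∈ K, con tB t m2 (single c 1) = m2 (single c 1)) :
    ∃ a0 : (C →₀ ℤ) →ₗ[ℤ] B,
      (∀ c ∈ K, a0 (single c 1) = m2 (single c 1) ∨ a0 (single c 1) = 0) ∧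
      ∀ c ∈ K, nrm N tB t a0 (single c 1) = m2 (single c 1) := by
  classical
  have : NeZero N := ⟨hN.ne'⟩
  obtain ⟨a0, ha0⟩ : ∃ a0 : (C →₀ ℤ) →ₗ[ℤ] B, ∀ c,
      a0 (single c 1) = if c ∈ K ∧ ρ c = 0 then m2 (single c 1) else 0 :=
    ⟨Finsupp.linearCombination ℤ fun c => if c ∈ K ∧ ρ c = 0 then m2 (single c 1) else 0,
      fun c => by rw [Finsupp.linearCombination_single, one_smul]⟩
  have hit : ∀ i : ℕ, ∀ c ∈ K, (tB ^ i) (m2 (single ((σ.symm ^ i) c) 1)) = m2 (single c 1) := by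
    intro i
    induction i with
    | zero => intro c _; rw [pow_zero, pow_zero]; rfl
    | succ i ih =>
        intro c hc
        have h1 : (tB ^ (i + 1)) (m2 (single ((σ.symm ^ (i + 1)) c) 1)) =
            tB ((tB ^ i) (m2 (single ((σ.symm ^ (i + 1)) c) 1))) := by rw [pow_succ']; rfl
        rw [h1, pow_succ, Equiv.Perm.mul_apply, ih _ (inf1_symm inv hc), ← ht c hc]
        exact hm c hc
  refine ⟨a0, fun c hc => ?_, fun c hc => ?_⟩
  · rw [ha0]
    by_cases h : c ∈ K ∧ ρ c = 0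
    · rw [if_pos h]; exact Or.inl rfl
    · rw [if_neg h]; exact Or.inr rfl
  · rw [nrm_apply, Finset.sum_eq_single (ρ c).val]
    · rw [inf1_tpow inv ht _ c hc, ha0, if_pos, hit _ c hc]
      obtain ⟨h1, h2⟩ := inf1_rhopow inv hρ (ρ c).val c hc
      refine ⟨h1, ?_⟩
      rw [ZMod.natCast_zmod_val] at h2
      exact add_eq_right.1 h2.symm
    · intro i hi hne
      rw [inf1_tpow inv ht _ c hc, ha0, if_neg, map_zero]
      rintro ⟨_, h1⟩
      obtain ⟨_, h2⟩ := inf1_rhopow inv hρ i c hc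
      rw [h1, zero_add] at h2
      exact hne (inf1_val _ i (Finset.mem_range.1 hi) h2).symm
    · intro h
      exact absurd (Finset.mem_range.2 (ZMod.val_lt (ρ c))) h

theorem free_h1 {C B : Type*} [AddCommGroup B] (K : Set C) (N : ℕ) (hN : 0 < N) (σ : Equiv.Perm C)
    (inv : ∀ c, c ∈ K ↔ σ c ∈ K) (ρ : C → ZMod N) (hρ : ∀ c ∈ K, ρ (σ c) = ρ c + 1)
    (t : (C →₀ ℤ) →ₗ[ℤ] (C →₀ ℤ)) (ht : ∀ c ∈ K, t (single c 1) = single (σ.symm c) 1)
    (tB : B →ₗ[ℤ] B) (x : (C →₀ ℤ) →ₗ[ℤ] B) (hx : ∀ c ∈ K, nrm N tB t x (single c 1) = 0) :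
    ∃ a : (C →₀ ℤ) →ₗ[ℤ] B,
      (∀ c ∈ K, ∃ r : ℕ, a (single c 1) =
        -(∑ l ∈ Finset.range r, ((con tB t) ^ l) x (single c 1))) ∧
      ∀ c ∈ K, con tB t a (single c 1) - a (single c 1) = x (single c 1) := by
  classical
  have : NeZero N := ⟨hN.ne'⟩
  obtain ⟨a, ha⟩ : ∃ a : (C →₀ ℤ) →ₗ[ℤ] B, ∀ c, a (single c 1) =
      -(∑ l ∈ Finset.range (ρ c).val, ((con tB t) ^ l) x (single c 1)) :=
    ⟨Finsupp.linearCombination ℤ fun c =>
        -(∑ l ∈ Finset.range (ρ c).val, ((con tB t) ^ l) x (single c 1)),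
      fun c => by rw [Finsupp.linearCombination_single, one_smul]⟩
  refine ⟨a, fun c _ => ⟨_, ha c⟩, fun c hc => ?_⟩
  have h1 : con tB t a (single c 1) =
      -(∑ l ∈ Finset.range (ρ (σ.symm c)).val, ((con tB t) ^ (l + 1)) x (single c 1)) := by
    rw [con_apply, ht c hc, ha, map_neg, map_sum]
    refine congrArg Neg.neg (Finset.sum_congr rfl fun l _ => ?_)
    have h2 : ((con tB t) ^ (l + 1)) x = con tB t (((con tB t) ^ l) x) := by rw [pow_succ']; rfl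
    rw [h2, con_apply, ht c hc]
  have h3 : ∑ l ∈ Finset.range ((ρ (σ.symm c)).val + 1), ((con tB t) ^ l) x (single c 1) =
      ∑ l ∈ Finset.range (ρ c).val, ((con tB t) ^ l) x (single c 1) := by
    have h4 : ρ c = (((ρ (σ.symm c)).val + 1 : ℕ) : ZMod N) := by
      rw [Nat.cast_add, ZMod.natCast_zmod_val, Nat.cast_one]
      exact inf1_rho inv hρ hc
    have h5 := ZMod.val_lt (ρ (σ.symm c))
    rcases Nat.lt_or_ge ((ρ (σ.symm c)).val + 1) N with h6 | h6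
    · rw [inf1_val (ρ c) _ h6 h4]
    · have h7 : (ρ (σ.symm c)).val + 1 = N := by omega
      rw [h7, ZMod.natCast_self] at h4
      rw [h7, h4, ZMod.val_zero, Finset.range_zero, Finset.sum_empty]
      have h8 := hx c hc
      unfold nrm at h8
      rw [LinearMap.sum_apply, LinearMap.sum_apply] at h8
      exact h8
  rw [Finset.sum_range_succ', pow_zero] at h3
  rw [h1, ha, ← h3]
  have h9 : (1 : Module.End ℤ ((C →₀ ℤ) →ₗ[ℤ] B)) x (single c 1) = x (single c 1) := rfl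
  rw [h9]
  abel

end ALG
end AGE
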