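import Pool.Agent.AGE.ALG0
import Pool.Agent.AGE.INF1

/-!
# AGE-INF2 (helper87): inflation, abstract form

PLAN.  `C' , A', K', σ', tC'` = the finer source, action free of order `N' = N * N * r`.  All identities are first proved on the cells `c' ∈ K'` (`single c' 1 ∈ A'.E c' (A'.dim c')`), then for all
`x ∈ A'.E c' i` by `E_ind`/`E_ext` (`A'.le d c'` implies `d ∈ K'`, `A.le (sp d) (sp c')`, so `W (sp d) ≤ W (sp c')` by `hT.mono`).
(a) for every `a : (C →₀ ℤ) →ₗ B` and `x ∈ A'.E c' i`, `c' ∈ K'`: `con tB tC' (a ∘ₗ b) x = con tB tC a (b x)` (`hb3`), hence `(con tB tC')^l (a ∘ₗ b) x = (con tB tC)^l a (b x)` (induction; `tC' x ∈ A'.E (σ'⁻¹ c') i`).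
    `(con tB tC)^N a = a` (`con_pow_apply`, `hT.tN`, `hA.tN`), so `(con tB tC')^N` fixes `(a ∘ₗ b) x` and `nrm N' tB tC' (a ∘ₗ b) x = (N * r) • nrm N tB tC a (b x)` (`Finset.sum_range` over `N * (N*r)`:
    `Finset.sum_range_mul`-style or `Finset.range_eq_Ico`, induction on the number of periods).
(b) `y := con tB tC nu - nu - w ∘ₗ A.bd`, `m1 := m ∘ₗ b`, `m2 := r • nrm N tB tC' m1`.  On `A'.E c' n`: `con tB tC' m2 = m2` (`con (nrm N) - nrm N = con^N - 1`, (a)).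
    For `x ∈ A'.E c' (n+1)`: `m1 (A'.bd x) = m (A.bd (b x)) = - nrm N y (b x)` (`hb2`, `h6`), and for all `l`: `((con tB tC')^l m1) (A'.bd x) = m1 (A'.bd x)`: it is
    `(con tB tC')^l (m1 ∘ₗ A'.bd) x = -((con tB tC)^l (nrm N y)) (b x) = - nrm N y (b x)` (`con (nrm N y) = nrm N y`, because `con^N = 1`).  So `m2 (A'.bd x) = (r * N) • m1 (A'.bd x)`.
(c) `exists_rho` (order `N'`) for `K'`; `free_avg` for `{c ∈ K' | A'.dim c = n}` with `m2`: `a0`.  Its values are in `W (sp c) (n+2)` and killed by `bB` (those of `m2`: `tB` commutes with `bB`, `hT.tW`, `hse`).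
    `x0 := y ∘ₗ b + a0 ∘ₗ A'.bd`.  On cells of dimension `n + 1`: `nrm N' x0 = (N * r) • nrm N y (b c') + (nrm N' a0) (A'.bd c') = -(N * r) • m1 (A'.bd c') + m2 (A'.bd c') = 0`
    (`A'.bd` commutes with `tC'`: `nrm N' (a0 ∘ₗ A'.bd) = (nrm N' a0) ∘ₗ A'.bd`; `nrm N' a0 = m2` on `A'.E c' n` by `E_ext`).
(d) `free_h1` for `{c ∈ K' | A'.dim c = n + 1}`: `a` with `con a - a = x0`.  Carriers: `con^l x0 (single c 1) ∈ W (sp c) (n+2)`, killed by `bB` (`bB (x0 ..) = 0` by `h6` and (c); `con` preserves both).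
    But `y (b c) ∈ W (sp c) (n+2)` needs: `con nu` carried (`hT.tW`, `hA.tE`), `w (A.bd _)` carried.
`nu' := nu ∘ₗ b - a`, `xi' := w ∘ₗ b - a0`: `con nu' - nu' = (con nu - nu) ∘ₗ b - x0 = (y + w ∘ₗ A.bd) ∘ₗ b - y ∘ₗ b - a0 ∘ₗ A'.bd = (w ∘ₗ b - a0) ∘ₗ A'.bd` (`hb2`), and
`bB (nu' x) = bB (nu (b x)) = Fs (b x) + Lam (A.bd (b x))`.
Cut this into private lemmas (a), (b), (c), (d).
-/

set_option autoImplicit false

noncomputable section

namespace AGE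
namespace ALG

open Finsupp

private theorem inf2_sum_period {B : Type*} [AddCommGroup B] (f : ℕ → B) (N : ℕ)
    (hf : ∀ l, f (l + N) = f l) (k : ℕ) :
    ∑ l ∈ Finset.range (N * k), f l = k • ∑ l ∈ Finset.range N, f l := by
  have h1 : ∀ k x, f (N * k + x) = f x := by
    intro k
    induction k with
    | zero => intro x; rw [Nat.mul_zero, Nat.zero_add]
    | succ k ih =>
      intro x
      have : N * (k + 1) + x = (N * k + x) + N := by ring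
      rw [this, hf, ih]
  induction k with
  | zero => simp
  | succ k ih =>
    rw [Nat.mul_succ, Finset.sum_range_add, ih, succ_nsmul]
    congr 1
    exact Finset.sum_congr rfl fun x _ => h1 k x

private theorem inf2_conN {S B : Type*} [AddCommGroup S] [AddCommGroup B] (N : ℕ) (tB : B →ₗ[ℤ] B)
    (tS : S →ₗ[ℤ] S) (hB : ∀ x, (tB ^ N) x = x) (hS : ∀ x, (tS ^ N) x = x) (a : S →ₗ[ℤ] B) :
    ((con tB tS) ^ N) a = a := by
  ext x
  rw [con_pow_apply, hS, hB]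

private theorem inf2_con_nrm {S B : Type*} [AddCommGroup S] [AddCommGroup B] (N : ℕ) (tB : B →ₗ[ℤ] B)
    (tS : S →ₗ[ℤ] S) (a : S →ₗ[ℤ] B) :
    con tB tS (nrm N tB tS a) - nrm N tB tS a = ((con tB tS) ^ N) a - a := by
  have h1 : nrm N tB tS a = ∑ i ∈ Finset.range N, ((con tB tS) ^ i) a := by
    unfold nrm
    rw [LinearMap.sum_apply]
  rw [h1, map_sum]
  have h2 : ∑ i ∈ Finset.range N, (con tB tS) (((con tB tS) ^ i) a)
      = ∑ i ∈ Finset.range N, ((con tB tS) ^ (i + 1)) a := by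
    refine Finset.sum_congr rfl fun i _ => ?_
    rw [pow_succ']
    rfl
  rw [h2, ← Finset.sum_sub_distrib, Finset.sum_range_sub (fun i => ((con tB tS) ^ i) a)]
  simp

/-- `con` preserves carriers. -/
private theorem inf2_carr {C C' B : Type*} [AddCommGroup B] (A : Bas C) (A' : Bas C') (K : Set C)
    (K' : Set C') (N N' : ℕ) (σ : Equiv.Perm C) (σ' : Equiv.Perm C')
    (tC' : (C' →₀ ℤ) →ₗ[ℤ] (C' →₀ ℤ)) (hA' : Act A' K' N' σ' tC')
    (W : C → ℕ → Submodule ℤ B) (bB tB : B →ₗ[ℤ] B) (hT : Tgt A K N σ W bB tB)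
    (sp : C' → C) (hsp : ∀ c ∈ K', sp c ∈ K) (hse : ∀ c ∈ K', sp (σ' c) = σ (sp c))
    (i k : ℕ) (L : (C' →₀ ℤ) →ₗ[ℤ] B) (hL : ∀ c ∈ K', ∀ x ∈ A'.E c i, L x ∈ W (sp c) k) (l : ℕ) :
    ∀ c ∈ K', ∀ x ∈ A'.E c i, ((con tB tC') ^ l) L x ∈ W (sp c) k := by
  induction l with
  | zero => simpa using hL
  | succ l ih =>
    intro c hc x hx
    have h1 : ((con tB tC') ^ (l + 1)) L x = tB (((con tB tC') ^ l) L (tC' x)) := by
      rw [pow_succ']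
      rfl
    rw [h1]
    have hc0 : σ'.symm c ∈ K' := by
      rw [hA'.inv, Equiv.apply_symm_apply]
      exact hc
    have hx0 : tC' x ∈ A'.E (σ'.symm c) i := by
      refine hA'.tE _ hc0 i x ?_
      rw [Equiv.apply_symm_apply]
      exact hx
    have h2 := hT.tW (sp (σ'.symm c)) (hsp _ hc0) k _ (ih _ hc0 _ hx0)
    rw [← hse _ hc0, Equiv.apply_symm_apply] at h2
    exact h2

/-- `con` preserves cycles. -/
private theorem inf2_cyc {C C' B : Type*} [AddCommGroup B] (A : Bas C) (A' : Bas C') (K : Set C)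
    (K' : Set C') (N N' : ℕ) (σ : Equiv.Perm C) (σ' : Equiv.Perm C')
    (tC' : (C' →₀ ℤ) →ₗ[ℤ] (C' →₀ ℤ)) (hA' : Act A' K' N' σ' tC')
    (W : C → ℕ → Submodule ℤ B) (bB tB : B →ₗ[ℤ] B) (hT : Tgt A K N σ W bB tB)
    (i : ℕ) (L : (C' →₀ ℤ) →ₗ[ℤ] B) (hL : ∀ c ∈ K', ∀ x ∈ A'.E c i, bB (L x) = 0) (l : ℕ) :
    ∀ c ∈ K', ∀ x ∈ A'.E c i, bB (((con tB tC') ^ l) L x) = 0 := by
  induction l with
  | zero => simpa using hL
  | succ l ih =>
    intro c hc x hx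
    have h1 : ((con tB tC') ^ (l + 1)) L x = tB (((con tB tC') ^ l) L (tC' x)) := by
      rw [pow_succ']
      rfl
    rw [h1]
    have hc0 : σ'.symm c ∈ K' := by
      rw [hA'.inv, Equiv.apply_symm_apply]
      exact hc
    have hx0 : tC' x ∈ A'.E (σ'.symm c) i := by
      refine hA'.tE _ hc0 i x ?_
      rw [Equiv.apply_symm_apply]
      exact hx
    rw [← hT.tb, ih _ hc0 _ hx0, map_zero]

/-- powers of `tC'` and `b`. -/
private theorem inf2_pow {C C' : Type*} (A' : Bas C') (K' : Set C') (N' : ℕ) (σ' : Equiv.Perm C')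
    (tC : (C →₀ ℤ) →ₗ[ℤ] (C →₀ ℤ)) (tC' : (C' →₀ ℤ) →ₗ[ℤ] (C' →₀ ℤ)) (hA' : Act A' K' N' σ' tC')
    (b : (C' →₀ ℤ) →ₗ[ℤ] (C →₀ ℤ))
    (hb3 : ∀ c ∈ K', ∀ i, ∀ x ∈ A'.E c i, b (tC' x) = tC (b x)) (i l : ℕ) :
    ∀ c ∈ K', ∀ x ∈ A'.E c i, (∃ c0 ∈ K', (tC' ^ l) x ∈ A'.E c0 i) ∧ b ((tC' ^ l) x) = (tC ^ l) (b x) := by
  induction l with
  | zero => exact fun c hc x hx => ⟨⟨c, hc, by simpa using hx⟩, by simp⟩
  | succ l ih =>
    intro c hc x hx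
    obtain ⟨⟨c0, hc0, hx0⟩, h2⟩ := ih c hc x hx
    have h1 : (tC' ^ (l + 1)) x = tC' ((tC' ^ l) x) := by
      rw [pow_succ']
      rfl
    have h1' : (tC ^ (l + 1)) (b x) = tC ((tC ^ l) (b x)) := by
      rw [pow_succ']
      rfl
    rw [h1, h1']
    refine ⟨⟨σ'.symm c0, ?_, ?_⟩, ?_⟩
    · rw [hA'.inv, Equiv.apply_symm_apply]
      exact hc0
    · have hc1 : σ'.symm c0 ∈ K' := by
        rw [hA'.inv, Equiv.apply_symm_apply]
        exact hc0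
      refine hA'.tE _ hc1 i _ ?_
      rw [Equiv.apply_symm_apply]
      exact hx0
    · rw [hb3 c0 hc0 i _ hx0, h2]

private theorem inf2_tb_pow {C' : Type*} (A' : Bas C') (tC' : (C' →₀ ℤ) →ₗ[ℤ] (C' →₀ ℤ))
    (tb : ∀ x, tC' (A'.bd x) = A'.bd (tC' x)) (l : ℕ) : ∀ x, (tC' ^ l) (A'.bd x) = A'.bd ((tC' ^ l) x) := by
  induction l with
  | zero => intro x; simp
  | succ l ih =>
    intro x
    have h1 : ∀ z, (tC' ^ (l + 1)) z = tC' ((tC' ^ l) z) := by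
      intro z
      rw [pow_succ']
      rfl
    rw [h1, h1, ih, tb]

private theorem inf2_nrm_bd {C' B : Type*} [AddCommGroup B] (A' : Bas C')
    (tC' : (C' →₀ ℤ) →ₗ[ℤ] (C' →₀ ℤ)) (tb : ∀ x, tC' (A'.bd x) = A'.bd (tC' x)) (tB : B →ₗ[ℤ] B) (N : ℕ)
    (a : (C' →₀ ℤ) →ₗ[ℤ] B) (x : C' →₀ ℤ) :
    nrm N tB tC' (a ∘ₗ A'.bd) x = nrm N tB tC' a (A'.bd x) := by
  rw [nrm_apply, nrm_apply]
  refine Finset.sum_congr rfl fun l _ => ?_
  rw [LinearMap.comp_apply, inf2_tb_pow A' tC' tb]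

theorem infl_abs {C C' B : Type*} [AddCommGroup B] (A : Bas C) (A' : Bas C') (K : Set C) (K' : Set C')
    (n N r : ℕ) (hN : 0 < N) (hr : 0 < r) (σ : Equiv.Perm C) (σ' : Equiv.Perm C')
    (tC : (C →₀ ℤ) →ₗ[ℤ] (C →₀ ℤ)) (tC' : (C' →₀ ℤ) →ₗ[ℤ] (C' →₀ ℤ))
    (hA : Act A K N σ tC) (hA' : Act A' K' (N * N * r) σ' tC')
    (hsg : ∀ c ∈ K', tC' (single c 1) = single (σ'.symm c) 1)
    (hdim : ∀ c ∈ K', A'.dim (σ' c) = A'.dim c)
    (hord : ∀ c ∈ K', (σ' ^ (N * N * r)) c = c)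
    (hfre : ∀ c ∈ K', ∀ a : ℕ, (σ' ^ a) c = c → N * N * r ∣ a)
    (W : C → ℕ → Submodule ℤ B) (bB tB : B →ₗ[ℤ] B) (hT : Tgt A K N σ W bB tB)
    (b : (C' →₀ ℤ) →ₗ[ℤ] (C →₀ ℤ)) (sp : C' → C) (hsp : ∀ c ∈ K', sp c ∈ K)
    (hsm : ∀ c ∈ K', ∀ d, A'.le d c → A.le (sp d) (sp c)) (hse : ∀ c ∈ K', sp (σ' c) = σ (sp c))
    (hb1 : ∀ c ∈ K', ∀ i, ∀ x ∈ A'.E c i, b x ∈ A.E (sp c) i)
    (hb2 : ∀ c ∈ K', ∀ i, ∀ x ∈ A'.E c i, A.bd (b x) = b (A'.bd x))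
    (hb3 : ∀ c ∈ K', ∀ i, ∀ x ∈ A'.E c i, b (tC' x) = tC (b x))
    (Fs Lam nu w m : (C →₀ ℤ) →ₗ[ℤ] B)
    (h2 : ∀ c ∈ K, ∀ x ∈ A.E c (n + 1), nu x ∈ W c (n + 2))
    (h3 : ∀ c ∈ K, ∀ x ∈ A.E c n, w x ∈ W c (n + 2))
    (h4 : ∀ c ∈ K, ∀ x ∈ A.E c n, m x ∈ W c (n + 2) ∧ bB (m x) = 0)
    (h5 : ∀ c ∈ K, ∀ x ∈ A.E c (n + 1), Fs x + Lam (A.bd x) = bB (nu x))
    (h6 : ∀ c ∈ K, ∀ x ∈ A.E c (n + 1), bB ((con tB tC nu - nu - w ∘ₗ A.bd) x) = 0 ∧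
      nrm N tB tC (con tB tC nu - nu - w ∘ₗ A.bd) x = - m (A.bd x)) :
    ∃ nu' xi' : (C' →₀ ℤ) →ₗ[ℤ] B,
      (∀ c ∈ K', ∀ x ∈ A'.E c (n + 1), nu' x ∈ W (sp c) (n + 2)) ∧
      (∀ c ∈ K', ∀ x ∈ A'.E c n, xi' x ∈ W (sp c) (n + 2)) ∧
      (∀ c ∈ K', ∀ x ∈ A'.E c (n + 1), Fs (b x) + Lam (b (A'.bd x)) = bB (nu' x)) ∧
      (∀ c ∈ K', ∀ x ∈ A'.E c (n + 1), con tB tC' nu' x - nu' x = xi' (A'.bd x)) := by
  classical
  set y : (C →₀ ℤ) →ₗ[ℤ] B := con tB tC nu - nu - w ∘ₗ A.bd with hy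
  have hN' : 0 < N * N * r := Nat.mul_pos (Nat.mul_pos hN hN) hr
  -- (a)
  have ha : ∀ (a : (C →₀ ℤ) →ₗ[ℤ] B) (i l : ℕ), ∀ c ∈ K', ∀ x ∈ A'.E c i,
      ((con tB tC') ^ l) (a ∘ₗ b) x = ((con tB tC) ^ l) a (b x) := by
    intro a i l c hc x hx
    rw [con_pow_apply, con_pow_apply, LinearMap.comp_apply,
      (inf2_pow A' K' _ σ' tC tC' hA' b hb3 i l c hc x hx).2]
  have hanrm : ∀ (a : (C →₀ ℤ) →ₗ[ℤ] B) (i M : ℕ), ∀ c ∈ K', ∀ x ∈ A'.E c i,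
      nrm M tB tC' (a ∘ₗ b) x = nrm M tB tC a (b x) := by
    intro a i M c hc x hx
    rw [nrm_apply, nrm_apply]
    refine Finset.sum_congr rfl fun l _ => ?_
    have := ha a i l c hc x hx
    rw [con_pow_apply, con_pow_apply] at this
    exact this
  have hper : ∀ (a : (C →₀ ℤ) →ₗ[ℤ] B) (z : C →₀ ℤ),
      nrm (N * N * r) tB tC a z = (N * r) • nrm N tB tC a z := by
    intro a z
    rw [nrm_apply, nrm_apply, mul_assoc]
    refine inf2_sum_period (fun l => (tB ^ l) (a ((tC ^ l) z))) N (fun l => ?_) (N * r)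
    show (tB ^ (l + N)) (a ((tC ^ (l + N)) z)) = (tB ^ l) (a ((tC ^ l) z))
    rw [pow_add, pow_add]
    show (tB ^ l) ((tB ^ N) (a ((tC ^ l) ((tC ^ N) z)))) = (tB ^ l) (a ((tC ^ l) z))
    rw [hT.tN, hA.tN]
  -- (b)
  set m1 : (C' →₀ ℤ) →ₗ[ℤ] B := m ∘ₗ b with hm1
  set m2 : (C' →₀ ℤ) →ₗ[ℤ] B := r • nrm N tB tC' m1 with hm2
  have hm1c : ∀ c ∈ K', ∀ x ∈ A'.E c n, m1 x ∈ W (sp c) (n + 2) := fun c hc x hx =>
    (h4 _ (hsp c hc) _ (hb1 c hc n x hx)).1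
  have hm1z : ∀ c ∈ K', ∀ x ∈ A'.E c n, bB (m1 x) = 0 := fun c hc x hx =>
    (h4 _ (hsp c hc) _ (hb1 c hc n x hx)).2
  have hm2x : ∀ x, m2 x = r • ∑ l ∈ Finset.range N, ((con tB tC') ^ l) m1 x := by
    intro x
    rw [hm2, LinearMap.smul_apply]
    unfold nrm
    rw [LinearMap.sum_apply, LinearMap.sum_apply]
  have hm2c : ∀ c ∈ K', ∀ x ∈ A'.E c n, m2 x ∈ W (sp c) (n + 2) := by
    intro c hc x hx
    rw [hm2x]
    refine Submodule.smul_of_tower_mem _ _ (Submodule.sum_mem _ fun l _ => ?_)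
    exact inf2_carr A A' K K' N _ σ σ' tC' hA' W bB tB hT sp hsp hse n (n + 2) m1 hm1c l c hc x hx
  have hm2z : ∀ c ∈ K', ∀ x ∈ A'.E c n, bB (m2 x) = 0 := by
    intro c hc x hx
    rw [hm2x, map_nsmul, map_sum, Finset.sum_eq_zero, smul_zero]
    intro l _
    exact inf2_cyc A A' K K' N _ σ σ' tC' hA' W bB tB hT n m1 hm1z l c hc x hx
  have hm2f : ∀ c ∈ K', ∀ x ∈ A'.E c n, con tB tC' m2 x = m2 x := by
    intro c hc x hx
    have h1 : con tB tC' m2 - m2 = r • (((con tB tC') ^ N) m1 - m1) := by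
      rw [hm2, map_nsmul, ← smul_sub, inf2_con_nrm]
    have h2 : (((con tB tC') ^ N) m1 - m1) x = 0 := by
      rw [LinearMap.sub_apply, hm1, ha m n N c hc x hx, con_pow_apply, hT.tN, hA.tN,
        LinearMap.comp_apply, sub_self]
    have h3 : (con tB tC' m2 - m2) x = 0 := by
      rw [h1, LinearMap.smul_apply, h2, smul_zero]
    rw [LinearMap.sub_apply] at h3
    exact sub_eq_zero.mp h3
  have hyN : ∀ l, ((con tB tC) ^ l) (nrm N tB tC y) = nrm N tB tC y := by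
    intro l
    induction l with
    | zero => simp
    | succ l ih =>
      rw [pow_succ']
      show con tB tC (((con tB tC) ^ l) (nrm N tB tC y)) = _
      rw [ih]
      have := inf2_con_nrm N tB tC y
      rw [inf2_conN N tB tC hT.tN hA.tN, sub_self] at this
      exact sub_eq_zero.mp this
  have hm1b : ∀ c ∈ K', ∀ x ∈ A'.E c (n + 1), m1 (A'.bd x) = - nrm N tB tC y (b x) := by
    intro c hc x hx
    rw [hm1, LinearMap.comp_apply, ← hb2 c hc _ x hx,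
      (h6 _ (hsp c hc) _ (hb1 c hc _ x hx)).2, neg_neg]
  have hm1l : ∀ l, ∀ c ∈ K', ∀ x ∈ A'.E c (n + 1),
      ((con tB tC') ^ l) m1 (A'.bd x) = - nrm N tB tC y (b x) := by
    intro l c hc x hx
    obtain ⟨⟨c0, hc0, hx0⟩, h2⟩ := inf2_pow A' K' _ σ' tC tC' hA' b hb3 (n + 1) l c hc x hx
    rw [con_pow_apply, inf2_tb_pow A' tC' hA'.tb, hm1b c0 hc0 _ hx0, h2, map_neg]
    have h3 : (tB ^ l) (nrm N tB tC y ((tC ^ l) (b x))) = ((con tB tC) ^ l) (nrm N tB tC y) (b x) := by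
      rw [con_pow_apply]
    rw [h3, hyN]
  have hm2b : ∀ c ∈ K', ∀ x ∈ A'.E c (n + 1), m2 (A'.bd x) = - ((N * r) • nrm N tB tC y (b x)) := by
    intro c hc x hx
    rw [hm2x, Finset.sum_congr rfl fun l _ => hm1l l c hc x hx, Finset.sum_const, Finset.card_range,
      smul_neg, smul_neg, mul_comm N r, mul_smul]
  -- (c)
  obtain ⟨ρ, hρ⟩ := exists_rho K' (N * N * r) hN' σ' hA'.inv hord hfre
  have hinvk : ∀ k c, c ∈ {c | c ∈ K' ∧ A'.dim c = k} ↔ σ' c ∈ {c | c ∈ K' ∧ A'.dim c = k} := by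
    intro k c
    simp only [Set.mem_setOf_eq]
    constructor
    · rintro ⟨h1, h2⟩
      exact ⟨(hA'.inv c).mp h1, by rw [hdim c h1]; exact h2⟩
    · rintro ⟨h1, h2⟩
      have h3 := (hA'.inv c).mpr h1
      exact ⟨h3, by rw [← hdim c h3]; exact h2⟩
  obtain ⟨a0, ha0, ha0n⟩ := free_avg {c | c ∈ K' ∧ A'.dim c = n} (N * N * r) hN' σ' (hinvk n) ρ
    (fun c hc => hρ c hc.1) tC' (fun c hc => hsg c hc.1) tB m2
    (fun c hc => hm2f c hc.1 _ (by have := E_single_self A' c; rw [hc.2] at this; exact this))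
  have ha0c : ∀ c ∈ K', ∀ x ∈ A'.E c n, a0 x ∈ W (sp c) (n + 2) := by
    intro c hc x hx
    refine E_ind A' a0 _ (fun d hd hdd => ?_) x hx
    have hdK : d ∈ K' := hA'.face _ _ hc hd
    have h1 : m2 (single d 1) ∈ W (sp c) (n + 2) := hm2c c hc _ (E_single A' hd hdd)
    rcases ha0 d ⟨hdK, hdd⟩ with h | h
    · rw [h]; exact h1
    · rw [h]; exact zero_mem _
  have ha0z : ∀ c ∈ K', ∀ x ∈ A'.E c n, bB (a0 x) = 0 := by
    intro c hc x hx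
    have h0 := E_ext A' (bB ∘ₗ a0) 0 (t := c) (i := n) (fun d hd hdd => ?_) x hx
    · simpa using h0
    · have hdK : d ∈ K' := hA'.face _ _ hc hd
      have h1 : bB (m2 (single d 1)) = 0 := hm2z c hc _ (E_single A' hd hdd)
      rw [LinearMap.comp_apply, LinearMap.zero_apply]
      rcases ha0 d ⟨hdK, hdd⟩ with h | h
      · rw [h]; exact h1
      · rw [h, map_zero]
  have ha0m : ∀ c ∈ K', ∀ x ∈ A'.E c n, nrm (N * N * r) tB tC' a0 x = m2 x := by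
    intro c hc x hx
    exact E_ext A' _ _ (fun d hd hdd => ha0n d ⟨hA'.face _ _ hc hd, hdd⟩) x hx
  set x0 : (C' →₀ ℤ) →ₗ[ℤ] B := y ∘ₗ b + a0 ∘ₗ A'.bd with hx0
  have hx0n : ∀ c ∈ K', ∀ x ∈ A'.E c (n + 1), nrm (N * N * r) tB tC' x0 x = 0 := by
    intro c hc x hx
    rw [hx0, map_add, LinearMap.add_apply, hanrm y (n + 1) _ c hc x hx, hper,
      inf2_nrm_bd A' tC' hA'.tb, ha0m c hc _ (bd_E A' x hx), hm2b c hc x hx, add_neg_cancel]
  -- (d)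
  obtain ⟨a, ha1, ha2⟩ := free_h1 {c | c ∈ K' ∧ A'.dim c = n + 1} (N * N * r) hN' σ' (hinvk (n + 1)) ρ
    (fun c hc => hρ c hc.1) tC' (fun c hc => hsg c hc.1) tB x0
    (fun c hc => hx0n c hc.1 _ (by have := E_single_self A' c; rw [hc.2] at this; exact this))
  have hnuc : ∀ c ∈ K', ∀ x ∈ A'.E c (n + 1), (nu ∘ₗ b) x ∈ W (sp c) (n + 2) := fun c hc x hx =>
    h2 _ (hsp c hc) _ (hb1 c hc _ x hx)
  have hx0c : ∀ c ∈ K', ∀ x ∈ A'.E c (n + 1), x0 x ∈ W (sp c) (n + 2) := by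
    intro c hc x hx
    have e1 : x0 x = con tB tC nu (b x) - nu (b x) - w (b (A'.bd x)) + a0 (A'.bd x) := by
      rw [hx0, hy]
      simp only [LinearMap.add_apply, LinearMap.comp_apply, LinearMap.sub_apply]
      rw [hb2 c hc _ x hx]
    rw [e1]
    refine add_mem (sub_mem (sub_mem ?_ (hnuc c hc x hx)) ?_) (ha0c c hc _ (bd_E A' x hx))
    · have h1 := inf2_carr A A' K K' N _ σ σ' tC' hA' W bB tB hT sp hsp hse (n + 1) (n + 2) (nu ∘ₗ b)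
        hnuc 1 c hc x hx
      rw [ha nu (n + 1) 1 c hc x hx, pow_one] at h1
      exact h1
    · exact h3 _ (hsp c hc) _ (hb1 c hc n _ (bd_E A' x hx))
  have hx0z : ∀ c ∈ K', ∀ x ∈ A'.E c (n + 1), bB (x0 x) = 0 := by
    intro c hc x hx
    have e1 : x0 x = y (b x) + a0 (A'.bd x) := by
      rw [hx0]
      rfl
    rw [e1, map_add, (h6 _ (hsp c hc) _ (hb1 c hc _ x hx)).1, ha0z c hc _ (bd_E A' x hx), add_zero]
  have hac : ∀ c ∈ K', ∀ x ∈ A'.E c (n + 1), a x ∈ W (sp c) (n + 2) := by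
    intro c hc x hx
    refine E_ind A' a _ (fun d hd hdd => ?_) x hx
    have hdK : d ∈ K' := hA'.face _ _ hc hd
    obtain ⟨q, hq⟩ := ha1 d ⟨hdK, hdd⟩
    rw [hq]
    refine neg_mem (Submodule.sum_mem _ fun l _ => ?_)
    exact inf2_carr A A' K K' N _ σ σ' tC' hA' W bB tB hT sp hsp hse (n + 1) (n + 2) x0 hx0c l c hc _
      (E_single A' hd hdd)
  have haz : ∀ c ∈ K', ∀ x ∈ A'.E c (n + 1), bB (a x) = 0 := by
    intro c hc x hx
    have h0 := E_ext A' (bB ∘ₗ a) 0 (t := c) (i := n + 1) (fun d hd hdd => ?_) x hx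
    · simpa using h0
    · have hdK : d ∈ K' := hA'.face _ _ hc hd
      obtain ⟨q, hq⟩ := ha1 d ⟨hdK, hdd⟩
      rw [LinearMap.comp_apply, LinearMap.zero_apply, hq, map_neg, map_sum, Finset.sum_eq_zero, neg_zero]
      intro l _
      exact inf2_cyc A A' K K' N _ σ σ' tC' hA' W bB tB hT (n + 1) x0 hx0z l c hc _
        (E_single A' hd hdd)
  have haf : ∀ c ∈ K', ∀ x ∈ A'.E c (n + 1), con tB tC' a x - a x = x0 x := by
    intro c hc x hx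
    have h0 := E_ext A' (con tB tC' a - a) x0 (t := c) (i := n + 1) (fun d hd hdd => ?_) x hx
    · simpa using h0
    · rw [LinearMap.sub_apply]
      exact ha2 d ⟨hA'.face _ _ hc hd, hdd⟩
  refine ⟨nu ∘ₗ b - a, w ∘ₗ b - a0, ?_, ?_, ?_, ?_⟩
  · intro c hc x hx
    rw [LinearMap.sub_apply]
    exact sub_mem (hnuc c hc x hx) (hac c hc x hx)
  · intro c hc x hx
    rw [LinearMap.sub_apply]
    exact sub_mem (h3 _ (hsp c hc) _ (hb1 c hc n x hx)) (ha0c c hc x hx)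
  · intro c hc x hx
    rw [LinearMap.sub_apply, map_sub, haz c hc x hx, sub_zero, LinearMap.comp_apply,
      ← h5 _ (hsp c hc) _ (hb1 c hc _ x hx), hb2 c hc _ x hx]
  · intro c hc x hx
    have e1 : con tB tC' (nu ∘ₗ b - a) x = con tB tC nu (b x) - con tB tC' a x := by
      have h1 := ha nu (n + 1) 1 c hc x hx
      rw [pow_one, pow_one] at h1
      rw [map_sub, LinearMap.sub_apply, h1]
    have e2 := haf c hc x hx
    have e3 : x0 x = con tB tC nu (b x) - nu (b x) - w (b (A'.bd x)) + a0 (A'.bd x) := by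
      rw [hx0, hy]
      simp only [LinearMap.add_apply, LinearMap.comp_apply, LinearMap.sub_apply]
      rw [hb2 c hc _ x hx]
    have e4 : con tB tC' a x = a x + x0 x := by rw [← e2]; abel
    rw [e1, LinearMap.sub_apply, LinearMap.sub_apply, LinearMap.comp_apply, LinearMap.comp_apply, e4, e3]
    abel


end ALG
end AGE
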