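import Pool.Agent.AGE.Defs
import Pool.Agent.AGE.BAS
import Pool.Agent.AGE.INF2

/-!
# Project AGE, layer INFL: inflation (see section 3 of the blueprint)

The abstract theorem is `ALG.infl_abs` (INF2); here it is specialised to cubes.
-/

set_option autoImplicit false

noncomputable section

namespace AGE

variable {V J : Type} [LinearOrder V] [LinearOrder J]

private theorem infl_ext {n N : ℕ} {K : Set (Cube V)} {τ : Equiv.Perm V} (hK : Src n N K τ) {M : Type} [AddCommGroup M]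
    (L : Ch V →ₗ[ℤ] M) (W : Submodule ℤ M) {c : Cube V} (hc : c ∈ K) (i : ℕ)
    (h : ∀ d ∈ K, d.Le c → d.dim = i → L (one d) ∈ W) : ∀ x ∈ (cubeBas V).E c i, L x ∈ W :=
  ALG.E_ind (cubeBas V) L W fun d hd hi => h d (hK.clo c hc d hd) hd hi

private theorem infl_exteq {n N : ℕ} {K : Set (Cube V)} {τ : Equiv.Perm V} (hK : Src n N K τ) {M : Type} [AddCommGroup M]
    (L L' : Ch V →ₗ[ℤ] M) {c : Cube V} (hc : c ∈ K) (i : ℕ)
    (h : ∀ d ∈ K, d.Le c → d.dim = i → L (one d) = L' (one d)) : ∀ x ∈ (cubeBas V).E c i, L x = L' x :=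
  ALG.E_ext (cubeBas V) L L' fun d hd hi => h d (hK.clo c hc d hd) hd hi

theorem infl {W : Type} [LinearOrder W] (n N N' : ℕ) (hN : N * N ∣ N')
    (K : Set (Cube V)) (τV : Equiv.Perm V) (hK : Src n N K τV)
    (K' : Set (Cube W)) (τW : Equiv.Perm W) (hK' : Src n N' K' τW)
    (τJ : Equiv.Perm J) (hJ : τJ ^ N = 1)
    (C : Cube V → Set (Cube J)) (hC : Car K C τV τJ)
    (b : Ch W →ₗ[ℤ] Ch V) (sp : Cube W → Cube V) (hsp : ∀ c ∈ K', sp c ∈ K)
    (hsm : ∀ c ∈ K', ∀ d : Cube W, d.Le c → (sp d).Le (sp c))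
    (hse : ∀ c ∈ K', sp (c.act τW) = (sp c).act τV)
    (hb1 : ∀ c ∈ K', b (one c) ∈ CC (Faces (sp c)) c.dim)
    (hb2 : ∀ c ∈ K', bd (b (one c)) = b (bd (one c)))
    (hb3 : ∀ c ∈ K', b (act τW (one c)) = act τV (b (one c)))
    (Fs Lam nu w m : Ch V →ₗ[ℤ] Ch J)
    (h1 : ∀ c ∈ K, c.dim = n → Lam (one c) ∈ CC (C c) (n + 1))
    (h2 : ∀ c ∈ K, c.dim = n + 1 → nu (one c) ∈ CC (C c) (n + 2))
    (h3 : ∀ c ∈ K, c.dim = n → w (one c) ∈ CC (C c) (n + 2))
    (h4 : ∀ c ∈ K, c.dim = n → m (one c) ∈ CC (C c) (n + 2) ∧ bd (m (one c)) = 0)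
    (h5 : ∀ c ∈ K, c.dim = n + 1 → Fs (one c) + Lam (bd (one c)) = bd (nu (one c)))
    (h6 : ∀ c ∈ K, c.dim = n + 1 →
      bd ((con τV τJ nu - nu - w ∘ₗ bd) (one c)) = 0 ∧
      nrm N τV τJ (con τV τJ nu - nu - w ∘ₗ bd) (one c) = - m (bd (one c))) :
    ∃ nu' xi' : Ch W →ₗ[ℤ] Ch J,
      (∀ c ∈ K', c.dim = n + 1 → nu' (one c) ∈ CC (C (sp c)) (n + 2)) ∧
      (∀ c ∈ K', c.dim = n → xi' (one c) ∈ CC (C (sp c)) (n + 2)) ∧
      (∀ c ∈ K', c.dim = n + 1 → Fs (b (one c)) + Lam (b (bd (one c))) = bd (nu' (one c))) ∧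
      (∀ c ∈ K', c.dim = n + 1 →
        con τW τJ nu' (one c) - nu' (one c) = xi' (bd (one c))) := by
  obtain ⟨r, rfl⟩ := hN
  have hN0 : 0 < N := hK.pos
  have hr : 0 < r := by
    rcases Nat.eq_zero_or_pos r with h | h
    · have := hK'.pos
      rw [h, mul_zero] at this
      exact absurd this (lt_irrefl _)
    · exact h
  have hT : ALG.Tgt (cubeBas V) K N (actE τV) (fun c i => CC (C c) i) (bd : Ch J →ₗ[ℤ] Ch J) (act τJ) := by
    refine ⟨bd_bd, fun x => act_bd τJ x, fun x => act_pow_N τJ hJ x, ?_, ?_, ?_⟩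
    · intro a b hb hab i
      exact CC_mono (hC.mon b hb a hab) i
    · intro c hc i x hx
      exact act_mem τJ (fun Q hQ => (hC.equ c hc Q).1 hQ) hx
    · intro c hc i x hx
      exact bd_mem (hC.clo c hc) hx
  have key : ∀ c : Cube W, ∀ i, c.dim = i → one c ∈ (cubeBas W).E c i := fun c i hi => by
    have := ALG.E_single_self (cubeBas W) c
    rw [show (cubeBas W).dim c = i from hi] at this
    exact this
  obtain ⟨nu', xi', k1, k2, k3, k4⟩ := ALG.infl_abs (cubeBas V) (cubeBas W) K K' n N r hN0 hr (actE τV) (actE τW)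
    (act τV.symm) (act τW.symm) (src_act hK) (src_act hK')
    (fun c hc => hK'.act_symm_one hc) (fun c _ => Cube.act_dim τW c)
    (fun c _ => by rw [actE_pow, hK'.ord, Cube.act_one'])
    (fun c hc a ha => by
      rw [actE_pow] at ha
      exact hK'.fre c hc a ha)
    (fun c i => CC (C c) i) bd (act τJ) hT b sp hsp hsm hse
    (fun c hc i => infl_ext hK' b _ hc i fun d hd hdc hi => by
      have h := hb1 d hd
      rw [hi] at h
      exact CC_mono (fun Q hQ => Cube.le_trans' hQ (hsm c hc d hdc)) i h)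
    (fun c hc i => infl_exteq hK' (bd ∘ₗ b) (b ∘ₗ bd) hc i fun d hd _ _ => hb2 d hd)
    (fun c hc i => infl_exteq hK' (b ∘ₗ act τW.symm) (act τV.symm ∘ₗ b) hc i fun d hd _ _ => by
      have h := hb3 (d.act τW.symm) (hK'.mem_symm hd)
      show b (act τW.symm (one d)) = act τV.symm (b (one d))
      rw [← hK'.act_symm_one hd, act_act_symm] at h
      rw [h, act_symm_act])
    Fs Lam nu w m
    (fun c hc => infl_ext hK nu _ hc (n + 1) fun d hd hdc hi => CC_mono (hC.mon c hc d hdc) _ (h2 d hd hi))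
    (fun c hc => infl_ext hK w _ hc n fun d hd hdc hi => CC_mono (hC.mon c hc d hdc) _ (h3 d hd hi))
    (fun c hc x hx => ⟨infl_ext hK m _ hc n (fun d hd hdc hi => CC_mono (hC.mon c hc d hdc) _ (h4 d hd hi).1) x hx,
      infl_exteq hK (bd ∘ₗ m) 0 hc n (fun d hd _ hi => (h4 d hd hi).2) x hx⟩)
    (fun c hc => infl_exteq hK (Fs + Lam ∘ₗ bd) (bd ∘ₗ nu) hc (n + 1) fun d hd _ hi => h5 d hd hi)
    (fun c hc x hx => ⟨infl_exteq hK (bd ∘ₗ (con τV τJ nu - nu - w ∘ₗ bd)) 0 hc (n + 1)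
        (fun d hd _ hi => (h6 d hd hi).1) x hx,
      infl_exteq hK (ALG.nrm N (act τJ) (act τV.symm) (con τV τJ nu - nu - w ∘ₗ bd)) (-(m ∘ₗ bd)) hc (n + 1)
        (fun d hd _ hi => by
          have h := (h6 d hd hi).2
          rw [nrm_eq] at h
          exact h) x hx⟩)
  exact ⟨nu', xi', fun c hc hi => k1 c hc _ (key c _ hi), fun c hc hi => k2 c hc _ (key c _ hi),
    fun c hc hi => k3 c hc _ (key c _ hi), fun c hc hi => k4 c hc _ (key c _ hi)⟩

end AGE
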