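import Pool.Agent.AGE.ASM1
import Pool.Agent.AGE.ASM3
import Pool.Agent.AGE.ASM4
import Pool.Agent.AGE.ASM5
import Pool.Agent.AGE.ASM7
import Pool.Agent.AGE.ASM9
import Pool.Agent.AGE.ASM10
import Pool.Agent.AGE.ASM11
import Pool.Agent.AGE.ASM12
import Pool.Agent.AGE.ASM14
import Pool.Agent.AGE.C10b
import Pool.Agent.AGE.GEO1
import Pool.Agent.AGE.ALG
import Pool.Agent.AGE.INFL
import Pool.Agent.AGE.APX
import Pool.Agent.AGE.WIR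

/-!
# Project AGE, layer ASM: step A (the dimension of the target goes down)

From a state to a state over the coinduced complex: `geo1`, the coinduced map (`coF_equi`,
`coF_span`, `asm_stag`, `asm_pr`, `asm_norm`), `alg`, the new approximation `apx2`, the
comparison of chain maps (`asm_cmp`, `f2_cel`, `f2_push`, `f2_chain`, `f2_hom`), `infl`,
`dat_transfer`, `wir` and `mk_state`.
-/

set_option autoImplicit false

noncomputable section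

namespace AGE

open TopologicalSpace

variable {J : Type} [LinearOrder J]

/-- step A; the new target consists of cubes of the complexes `PP n t` -/
theorem stepA_pp (p : ℕ) [Fact p.Prime] (n : ℕ) (hn : 2 ≤ n) {X : Type} [TopologicalSpace X]
    [CompactSpace X] [MetrizableSpace X] [MulAction (Multiplicative ℤ_[p]) X]
    [ContinuousSMul (Multiplicative ℤ_[p]) X]
    (hfree : ∀ (g : Multiplicative ℤ_[p]) (x : X), g • x = x → g = 1)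
    (hdim : CovDimLE (Quotient (MulAction.orbitRel (Multiplicative ℤ_[p]) X)) (n + 1))
    {q : ℕ} [NeZero (p ^ q)] {τJ : Equiv.Perm J}
    (A : St p n X (fun x => Multiplicative.ofAdd (1 : ℤ_[p]) • x) q J τJ) (q₀ : ℕ) :
    ∃ q' : ℕ, q₀ ≤ q' ∧ q ≤ q' ∧
      ∃ B : St p n X (fun x => Multiplicative.ofAdd (1 : ℤ_[p]) • x) q' (JJ (p ^ q) J)
        (jjp (p ^ q) τJ),
        (∀ Q' ∈ B.T, ∃ t ∈ A.T, Q' ∈ PP n t) ∧
        Sep B.T (jjp (p ^ q) τJ) (p ^ q) 1 ∧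
        ∀ x j, |B.F x (.a 0 j) - A.F x j| ≤ 2 := by
  classical
  have hK := src_grd_box A.S A.τV A.col A.hcol A.Ms A.hMs
  set K : Set (Cube A.V) := Grd A.Ms (Box A.S) with hKdef
  have hfr : ∀ i : A.V, ∀ a : ℕ, (A.τV ^ a) i = i → p ^ q ∣ a := fun i a h => (A.hcol.fre i a).1 h
  -- the n-dimensional approximation
  obtain ⟨M, h, hp, k, hM, hh, hhp, hk1, hk2, hk3⟩ :=
    geo1 n hn K hK.fin hK.clo hK.dim A.τV τJ A.f A.s A.smon A.shas A.φ A.lam A.nu A.xi A.dat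
  -- the coinduced map
  obtain ⟨ρ, hρ⟩ := rho_exists (N := p ^ q) A.τV A.hcol.fre
  have hFe := coF_equi A.τV τJ hK.ord A.hJ ρ hρ A.col A.hcol.cin h
  have hFv := coF_span n A.S A.τV A.col A.hcol A.Ms A.hMs τJ A.hJ A.s A.sequ M hM h hh ρ hρ
  obtain ⟨M', F1, hM', hF1e, hF1s, hF1⟩ := asm_stag n K A.τV τJ hK hfr A.hJ A.s M hM
    (coF A.τV τJ ρ A.col h) hFe hFv
  have hMM : 0 < M * M' := Nat.mul_pos hM hM'
  have hK1 : Src n (p ^ q) (Grd (M * M') K) A.τV := src_grd (M * M') hMM K A.τV hK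
  have hF1v : VMap (Grd (M * M') K) Set.univ F1 := by
    rintro Q ⟨c, hc, hQ⟩
    obtain ⟨S, _, _, hS⟩ := hF1 c hc Q hQ
    exact ⟨S, Set.mem_univ _, hS⟩
  obtain ⟨Fp, hFp, hFpe⟩ := push_exists_equi (Grd (M * M') K) A.τV (jjp (p ^ q) τJ) hK1
    (jjp_pow τJ A.hJ) F1 hF1v hF1e
  obtain ⟨k', hk'1, hk'2, hk'3⟩ := asm_pr n K hK.clo hK.dim A.s M hM h hh hp k hhp A.φ A.lam hk1
    hk2 hk3 (coF A.τV τJ ρ A.col h) (coF_zero A.τV τJ ρ A.col h) hFv M' hM' F1 hF1s hF1 Fp hFp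
  -- the chain map FF = Fp ∘ sub
  have hFF1 : ∀ c ∈ K, Fp (sub (M * M') (one c)) ∈ CC (PP n (A.s c)) c.dim := by
    intro c hc
    have h1 : sub (M * M') (one c) ∈ CC (Grd (M * M') (Faces c)) c.dim :=
      sub_mem (M * M') (Faces c) c.dim (one_mem (Cube.le_refl' c))
    refine map_mem (K := Grd (M * M') (Faces c)) (i := c.dim) Fp _ ?_ h1
    intro Q hQ hQd
    obtain ⟨c0, hc0, hQc0⟩ := hQ
    have hc0K : c0 ∈ K := hK.clo c hc c0 hc0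
    obtain ⟨S, hS, _, hSv⟩ := hF1 c0 hc0K Q hQc0
    have h2 := hFp.car Q ⟨c0, hc0K, hQc0⟩
    rw [hQd] at h2
    refine CC_mono ?_ _ h2
    intro P hP
    exact closed_pp n _ S (pp_mono n (A.smon c hc c0 hc0) hS) P (spn_sub F1 Q S hSv hP)
  have hFF2 : ∀ c ∈ K, bd (Fp (sub (M * M') (one c))) = Fp (sub (M * M') (bd (one c))) := by
    intro c hc
    rw [sub_bd _ hMM]
    have h1 : sub (M * M') (one c) ∈ CC (Grd (M * M') K) c.dim :=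
      sub_mem (M * M') K c.dim (one_mem hc)
    exact eq_of_one (K := Grd (M * M') K) (bd ∘ₗ Fp) (Fp ∘ₗ bd) (fun Q hQ => hFp.chn Q hQ) h1
  have hFF3 : ∀ c ∈ K, Fp (sub (M * M') (act A.τV (one c))) =
      act (jjp (p ^ q) τJ) (Fp (sub (M * M') (one c))) := by
    intro c hc
    rw [sub_act]
    have h1 : sub (M * M') (one c) ∈ CC (Grd (M * M') K) c.dim :=
      sub_mem (M * M') K c.dim (one_mem hc)
    exact eq_of_one (K := Grd (M * M') K) (Fp ∘ₗ act A.τV) (act (jjp (p ^ q) τJ) ∘ₗ Fp)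
      (fun Q hQ => hFpe Q hQ) h1
  obtain ⟨κ, Fs, hκ1, hκ2, hκ3, hFs1, hFs2, hFs3, hFs4⟩ := asm_norm n K A.τV τJ hK A.hJ A.s
    A.smon A.sequ A.φ A.lam (Fp ∘ₗ sub (M * M')) hFF1 hFF2 hFF3 k' hk'1 hk'2 hk'3
  -- obstruction algebra
  obtain ⟨Lam, nu', w, m, hL, hnu, hw, hm, hLE, hyE⟩ := alg n hn K A.τV τJ hK A.hJ A.s A.smon
    A.sequ A.φ A.lam A.nu A.xi A.dat Fs hFs1 hFs2 hFs3 hFs4
  -- the new approximation
  obtain ⟨q', V', fV', oV', τ', col', S', κ', b, hq0, hqq, hcol', hκ'c, hκ'e, hκ'b, hbe, hbK,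
    hnear⟩ := apx2 p n hfree hdim q A.τV hK.ord K hK.fin hK.clo hK.inv A.κ A.hκc A.hκe A.hκb
    (max q₀ (2 * q))
  have hN : p ^ q * p ^ q ∣ p ^ q' := by
    rw [← pow_add]
    exact pow_dvd_pow p (by have := le_max_right q₀ (2 * q); omega)
  have hN1 : p ^ q ∣ p ^ q' := pow_dvd_pow p hqq
  have hK' : Src n (p ^ q') (Box S') τ' := src_box S' τ' col' hcol'
  have hfr' : ∀ i : V', ∀ a : ℕ, (τ' ^ a) i = i → p ^ q' ∣ a :=
    fun i a h => (hcol'.fre i a).1 h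
  have hneV : (Box S').Nonempty → Nonempty A.V := by
    rintro ⟨c, hc⟩
    obtain ⟨P, _, hP⟩ := hbK c hc
    have hK0 : (pt (b c.lo) : Cube A.V) ∈ K := by
      obtain ⟨P, hPK, hP⟩ := hbK c hc
      exact hK.clo P hPK _ (Cube.pt_le.2 (hP _ (Cube.has_lo c)))
    obtain ⟨D, ⟨E, hE, _⟩, _⟩ := hK0
    exact ⟨hE.choose⟩
  obtain ⟨sp, hsp⟩ := sup_exists (Box S') hK'.clo K hK.clo τ' hK'.inv A.τV b hbe hbK
  obtain ⟨bs, Mc, b1, pb, θ, hbs1, hbs2, hbs3, hMc, hb1e, hb1A, hb1s, hpb, hpbe, hθ1, hθ2,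
    hθ3⟩ := asm_cmp n (p ^ q) (p ^ q') hN1 K A.τV hK (Box S') τ' hK' hfr' b hbe hbK sp hsp
    (M * M') hMM (by
      rintro ⟨c, hc⟩
      obtain ⟨P, ⟨A', ⟨x, _⟩, _⟩, _⟩ := hsp.mem c hc
      exact ⟨x⟩)
  have hcel := f2_cel n K hK.clo A.s A.smon (M * M') F1 hF1 (Box S') sp hsp.mem Mc b1 hb1s
  have hF2p := f2_push K hK.clo (M * M') F1 Fp hFp (Box S') sp hsp.mem Mc b1 hb1A hb1s pb hpb
  obtain ⟨hc1, hc2, hc3, hc4⟩ := f2_chain (n := n) K A.τV hK τJ A.s A.smon (M * M') hMM F1 hF1 Fp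
    hFp hFpe (Box S') τ' hK' sp hsp.mem Mc hMc b1 hb1s pb hpb hpbe
  obtain ⟨κ₂, hκ₂1, hκ₂2, hκ₂3⟩ := f2_hom (n := n) K A.τV hK τJ A.s A.smon (M * M') hMM F1 hF1 Fp
    hFp hFpe κ Fs hκ1 hκ2 hκ3 (Box S') τ' hK' sp hsp.mem bs (pb ∘ₗ sub Mc) θ hbs1 hbs2 hbs3
    hθ1 hθ2 hθ3
  -- carriers on K
  have hCK : Car K (fun c => PP n (A.s c)) A.τV (jjp (p ^ q) τJ) :=
    ⟨fun c _ => closed_pp n (A.s c), fun c hc d hd => pp_mono n (A.smon c hc d hd),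
      fun c hc Q => by rw [A.sequ c hc]; exact pp_act n τJ (A.s c) Q⟩
  have hss : ∀ c ∈ Box S', ∀ d : Cube V', d.Le c → (A.s (sp d)).Le (A.s (sp c)) :=
    fun c hc d hd => A.smon (sp c) (hsp.mem c hc) (sp d) (hsp.mon c hc d hd)
  have hCK' : Car (Box S') (fun c => PP n (A.s (sp c))) τ' (jjp (p ^ q) τJ) :=
    ⟨fun c _ => closed_pp n _, fun c hc d hd => pp_mono n (hss c hc d hd),
      fun c hc Q => by
        rw [hsp.equ c hc, A.sequ _ (hsp.mem c hc)]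
        exact pp_act n τJ _ Q⟩
  obtain ⟨nu2, xi2, hi1, hi2, hi3, hi4⟩ := infl n (p ^ q) (p ^ q') hN K A.τV hK (Box S') τ' hK'
    (jjp (p ^ q) τJ) (jjp_pow τJ A.hJ) (fun c => PP n (A.s c)) hCK bs sp hsp.mem hsp.mon hsp.equ
    hbs1 hbs2 hbs3 Fs Lam nu' w m hL hnu hw hm hLE hyE
  have hLb : ∀ c ∈ Box S', c.dim = n → (Lam ∘ₗ bs) (one c) ∈ CC (PP n (A.s (sp c))) (n + 1) := by
    intro c hc hcd
    have h1 := hbs1 c hc
    rw [hcd] at h1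
    refine map_mem (K := Faces (sp c)) (i := n) Lam _ ?_ h1
    intro d hd hdd
    exact CC_mono (pp_mono n (A.smon _ (hsp.mem c hc) d hd)) _
      (hL d (hK.clo _ (hsp.mem c hc) d hd) hdd)
  have hdat := dat_transfer (n := n) (Box S') τ' hK' (jjp (p ^ q) τJ)
    (fun c => PP n (A.s (sp c))) (Fs ∘ₗ bs) (Lam ∘ₗ bs) nu2 xi2 ((Fp ∘ₗ pb) ∘ₗ sub Mc) κ₂ hLb hi1
    hi2 hi3 hi4 hκ₂1 hκ₂2 hκ₂3 hc1 hc2 hc3 hc4
  -- wires
  have hJ' : jjp (p ^ q) τJ ^ (p ^ q') = 1 := by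
    obtain ⟨r, hr⟩ := hN1
    rw [hr, pow_mul, jjp_pow τJ A.hJ, one_pow]
  have hF2e : Equi τ' (jjp (p ^ q) τJ) (F1 ∘ b1) := by
    intro v
    show F1 (b1 (actP τ' v)) = _
    rw [hb1e v, hF1e]
    rfl
  obtain ⟨M₂, f, s, φ2, lam2, nu3, xi3, hM₂, hf, hs1, hs2, hs3, hs4, hs5, hD2⟩ :=
    wir n hn (Box S') τ' (jjp (p ^ q) τJ) hK' hJ' _ hCK' (fun c _ _ => ctr_pp n hn _)
      Mc hMc (F1 ∘ b1) hF2e hcel (Fp ∘ₗ pb) hF2p _ _ _ hdat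
  have hg1 : Grd 1 (Box S') = Box S' := grd_one (Box S') hK'.clo
  obtain ⟨B, hT, hF⟩ := mk_state p n (fun x => Multiplicative.ofAdd (1 : ℤ_[p]) • x) q'
    (jjp (p ^ q) τJ) hJ' τ' col' S' hcol' 1 M₂ one_pos hM₂ κ' hκ'c hκ'e
    (by rw [hg1]; exact hκ'b) f hf s (by rw [hg1]; exact hs2) (by rw [hg1]; exact hs3)
    (by rw [hg1]; exact hs4) (by rw [hg1]; exact hs5) φ2 lam2 nu3 xi3 (by rw [hg1]; exact hD2)
  rw [hg1] at hT hF
  have hsPP : ∀ P ∈ B.T, ∃ c ∈ Box S', P ∈ PP n (A.s (sp c)) := by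
    intro P hP
    obtain ⟨Q, ⟨c, hc, hQc⟩, hPQ⟩ := hT P hP
    exact ⟨c, hc, closed_pp n _ _ (hs1 c hc Q hQc) P hPQ⟩
  refine ⟨q', le_trans (le_max_left _ _) hq0, hqq, B, ?_, ?_, ?_⟩
  · intro Q' hQ'
    obtain ⟨c, hc, hP⟩ := hsPP Q' hQ'
    exact ⟨_, A.sT _ (hsp.mem c hc), hP⟩
  · refine sep_pp B.T ?_ τJ
    intro Q' hQ'
    obtain ⟨c, _, hP⟩ := hsPP Q' hQ'
    exact hP.2.1
  · intro x j
    obtain ⟨Q, hQ, hxQ, c, hc, hcr, hcb⟩ := hnear x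
    obtain ⟨u, hu, hBu⟩ := hF x Q hQ hxQ
    have hPP := hs1 Q hQ u hu
    obtain ⟨c₂, hc₂, hxc₂⟩ := A.hκb x
    have hA2 := A.F_body x c₂ hc₂ hxc₂
    have hr2 : c₂.Has (rnd (A.κ x)) := round_body c₂ _ hxc₂
    have h1 : (A.s (pt (rnd (A.κ x)))).Le (A.s c) := A.smon c hc _ (Cube.pt_le.2 hcr)
    have h2 : (A.s (pt (rnd (A.κ x)))).Le (A.s c₂) := A.smon c₂ hc₂ _ (Cube.pt_le.2 hr2)
    have h3 : (sp Q).Le c := hsp.min Q hQ c hcb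
    have h4 : (A.s (sp Q)).Le (A.s c) := A.smon c hc _ h3
    have h5 := hBu (.a 0 j)
    have h6 : (A.s (sp Q)).lo j ≤ (s u).lo (.a 0 j) ∧ (s u).hi (.a 0 j) ≤ (A.s (sp Q)).hi j := by
      have h7 := (hPP.1 0).1 j
      rw [blk_lo, blk_hi] at h7
      exact h7
    have hw : ∀ R : Cube J, R.hi j ≤ R.lo j + 1 ∧ R.lo j ≤ R.hi j := by
      intro R
      unfold Cube.hi
      split_ifs <;> omega
    have h8 := h1 j
    have h9 := h2 j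
    have h10 := h4 j
    have h11 := hA2 j
    have h12 := hw (A.s c)
    have h13 := hw (A.s c₂)
    have h14 := hw (A.s (pt (rnd (A.κ x))))
    have e1 : ((A.s c).lo j : ℝ) ≤ B.F x (.a 0 j) := by
      have : ((A.s c).lo j : ℝ) ≤ ((s u).lo (.a 0 j) : ℝ) := by
        exact_mod_cast le_trans h10.1 h6.1
      linarith [h5.1]
    have e2 : B.F x (.a 0 j) ≤ ((A.s c).hi j : ℝ) := by
      have : ((s u).hi (.a 0 j) : ℝ) ≤ ((A.s c).hi j : ℝ) := by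
        exact_mod_cast le_trans h6.2 h10.2
      linarith [h5.2]
    have e3 : ((A.s c).hi j : ℝ) ≤ ((A.s c).lo j : ℝ) + 1 := by exact_mod_cast h12.1
    have e4 : ((A.s c₂).hi j : ℝ) ≤ ((A.s c₂).lo j : ℝ) + 1 := by exact_mod_cast h13.1
    have e5 : ((A.s c).lo j : ℝ) ≤ ((A.s c₂).hi j : ℝ) := by
      exact_mod_cast le_trans h8.1 (le_trans h14.2 h9.2)
    have e6 : ((A.s c₂).lo j : ℝ) ≤ ((A.s c).hi j : ℝ) := by
      exact_mod_cast le_trans h9.1 (le_trans h14.2 h8.2)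
    rw [abs_le]
    constructor <;> linarith [h11.1, h11.2]

theorem stepA (p : ℕ) [Fact p.Prime] (n : ℕ) (hn : 2 ≤ n) {X : Type} [TopologicalSpace X]
    [CompactSpace X] [MetrizableSpace X] [MulAction (Multiplicative ℤ_[p]) X]
    [ContinuousSMul (Multiplicative ℤ_[p]) X]
    (hfree : ∀ (g : Multiplicative ℤ_[p]) (x : X), g • x = x → g = 1)
    (hdim : CovDimLE (Quotient (MulAction.orbitRel (Multiplicative ℤ_[p]) X)) (n + 1))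
    {q : ℕ} [NeZero (p ^ q)] {τJ : Equiv.Perm J}
    (A : St p n X (fun x => Multiplicative.ofAdd (1 : ℤ_[p]) • x) q J τJ) (q₀ : ℕ) :
    ∃ q' : ℕ, q₀ ≤ q' ∧ q ≤ q' ∧
      ∃ B : St p n X (fun x => Multiplicative.ofAdd (1 : ℤ_[p]) • x) q' (JJ (p ^ q) J)
        (jjp (p ^ q) τJ),
        (∀ Q' ∈ B.T, ∃ Q ∈ A.T, Q.dim ≤ n ∧ (blk 0 Q').Le Q) ∧
        Sep B.T (jjp (p ^ q) τJ) (p ^ q) 1 ∧
        ∀ x j, |B.F x (.a 0 j) - A.F x j| ≤ 2 := by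
  obtain ⟨q', h1, h2, B, h3, h4, h5⟩ := stepA_pp p n hn hfree hdim A q₀
  refine ⟨q', h1, h2, B, fun Q' hQ' => ?_, h4, h5⟩
  obtain ⟨t, ht, hP⟩ := h3 Q' hQ'
  exact ⟨blk 0 Q', A.Tclo t ht _ (hP.1 0).1, (hP.1 0).2, Cube.le_refl' _⟩

end AGE
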