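import Pool.Agent.AGE.Defs
import Pool.Agent.AGE.C1b

/-!
# AGE-C10: contractions of grid boxes

Only the coordinates `j ∈ P.fr` vary. They are enumerated by `idx`; at time `a` the coordinate
`j` is `max (M P.lo j) (min (v j) (M P.hi j + idx j M - a))`. One step changes only the coordinate
with `idx j = a / M`, by at most `1`; two vertices of a common cube of dimension `≤ 1` differ in
at most one coordinate.
-/

set_option autoImplicit false

noncomputable section

namespace AGE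

variable {V J : Type} [LinearOrder V] [LinearOrder J]

/-- the values of the coordinates in the subdivided box -/
private theorem c10_mem {M : ℕ} {P Q : Cube J} :
    Q ∈ Grd M (Faces P) ↔ ∀ j, (M : ℤ) * P.lo j ≤ Q.lo j ∧ Q.hi j ≤ (M : ℤ) * P.hi j := by
  constructor
  · rintro ⟨P', hP', h⟩ j
    have h1 := hP' j
    have h2 := h j
    have hM : (0 : ℤ) ≤ M := Int.natCast_nonneg M
    exact ⟨(mul_le_mul_of_nonneg_left h1.1 hM).trans h2.1,
      h2.2.trans (mul_le_mul_of_nonneg_left h1.2 hM)⟩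
  · intro h
    exact ⟨P, fun j => ⟨le_rfl, le_rfl⟩, h⟩

/-- four points of the box with coordinates at distance at most one lie in a cube -/
private theorem c10_cube {M : ℕ} {P : Cube J} {d : ℕ} (p₁ p₂ p₃ p₄ : J → ℤ) (s : Finset J)
    (hs : s.card ≤ d)
    (hb : ∀ j, ((M : ℤ) * P.lo j ≤ p₁ j ∧ p₁ j ≤ (M : ℤ) * P.hi j) ∧
      ((M : ℤ) * P.lo j ≤ p₂ j ∧ p₂ j ≤ (M : ℤ) * P.hi j) ∧
      ((M : ℤ) * P.lo j ≤ p₃ j ∧ p₃ j ≤ (M : ℤ) * P.hi j) ∧
      ((M : ℤ) * P.lo j ≤ p₄ j ∧ p₄ j ≤ (M : ℤ) * P.hi j))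
    (hd : ∀ j, ∃ l : ℤ, (l ≤ p₁ j ∧ p₁ j ≤ l + 1) ∧ (l ≤ p₂ j ∧ p₂ j ≤ l + 1) ∧
      (l ≤ p₃ j ∧ p₃ j ≤ l + 1) ∧ (l ≤ p₄ j ∧ p₄ j ≤ l + 1))
    (hn : ∀ j, j ∉ s → p₁ j = p₂ j ∧ p₁ j = p₃ j ∧ p₁ j = p₄ j) :
    ∃ Q ∈ Grd M (Faces P), Q.dim ≤ d ∧ Q.Has p₁ ∧ Q.Has p₂ ∧ Q.Has p₃ ∧ Q.Has p₄ := by
  classical
  set Q : Cube J := ⟨fun j => min (min (p₁ j) (p₂ j)) (min (p₃ j) (p₄ j)),
    s.filter (fun j => ¬ (p₁ j = p₂ j ∧ p₁ j = p₃ j ∧ p₁ j = p₄ j))⟩ with hQ
  have hlo : ∀ j, Q.lo j = min (min (p₁ j) (p₂ j)) (min (p₃ j) (p₄ j)) := fun j => rfl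
  have hhi : ∀ j, Q.hi j = max (max (p₁ j) (p₂ j)) (max (p₃ j) (p₄ j)) := by
    intro j
    have h1 : Q.hi j = if j ∈ Q.fr then Q.lo j + 1 else Q.lo j := rfl
    rw [h1, hlo]
    obtain ⟨l, hl⟩ := hd j
    by_cases hj : p₁ j = p₂ j ∧ p₁ j = p₃ j ∧ p₁ j = p₄ j
    · have h2 : j ∉ Q.fr := by
        intro h
        exact (Finset.mem_filter.mp h).2 hj
      rw [if_neg h2]
      omega
    · have h2 : j ∈ Q.fr := by
        refine Finset.mem_filter.mpr ⟨?_, hj⟩
        by_contra hc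
        exact hj (hn j hc)
      rw [if_pos h2]
      omega
  refine ⟨Q, c10_mem.mpr fun j => ?_, ?_, ?_, ?_, ?_, ?_⟩
  · have := hb j
    rw [hlo, hhi]
    constructor
    · exact le_min (le_min this.1.1 this.2.1.1) (le_min this.2.2.1.1 this.2.2.2.1)
    · exact max_le (max_le this.1.2 this.2.1.2) (max_le this.2.2.1.2 this.2.2.2.2)
  · exact (Finset.card_filter_le _ _).trans hs
  all_goals
    intro j
    rw [hlo, hhi]
    omega

private theorem c10_idx (s : Finset J) : ∃ idx : J → ℕ, (∀ j ∈ s, idx j < s.card) ∧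
    ∀ i ∈ s, ∀ j ∈ s, idx i = idx j → i = j := by
  classical
  refine ⟨fun j => if h : j ∈ s then (s.equivFin ⟨j, h⟩ : ℕ) else 0, ?_, ?_⟩
  · intro j hj
    simp only [hj, dif_pos]
    exact (s.equivFin ⟨j, hj⟩).isLt
  · intro i hi j hj h
    simp only [hi, hj, dif_pos] at h
    have h2 := s.equivFin.injective (Fin.val_injective h)
    exact congrArg Subtype.val h2

theorem ctr_grd (M : ℕ) (hM : 0 < M) (P : Cube J) : CTR (Grd M (Faces P)) := by
  classical
  intro W _ hW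
  obtain ⟨idx, hlt, hinj⟩ := c10_idx P.fr
  -- the box
  have hbox : ∀ v ∈ W, ∀ j, (M : ℤ) * P.lo j ≤ v j ∧ v j ≤ (M : ℤ) * P.hi j := by
    intro v hv j
    have h := c10_mem.mp (hW v hv) j
    exact h
  have hH1 : ∀ j ∈ P.fr, (M : ℤ) * P.hi j = (M : ℤ) * P.lo j + M := by
    intro j hj
    rw [Cube.hi, if_pos hj]
    ring
  have hH2 : ∀ j, j ∉ P.fr → (M : ℤ) * P.hi j = (M : ℤ) * P.lo j := by
    intro j hj
    rw [Cube.hi, if_neg hj]
  have hM' : (0 : ℤ) < M := by exact_mod_cast hM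
  have hI : ∀ j, (0 : ℤ) ≤ (idx j : ℤ) * M := fun j => by positivity
  -- the active coordinate
  have hact : ∀ a : ℕ, (P.fr.filter (fun j => (idx j : ℤ) * M ≤ a ∧ (a : ℤ) < (idx j : ℤ) * M + M)).card ≤ 1 := by
    intro a
    rw [Finset.card_le_one]
    have hdiv : ∀ i ∈ P.fr.filter (fun j => (idx j : ℤ) * M ≤ a ∧ (a : ℤ) < (idx j : ℤ) * M + M),
        a / M = idx i := by
      intro i hi
      have h := (Finset.mem_filter.mp hi).2
      apply Nat.div_eq_of_lt_le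
      · exact_mod_cast h.1
      · have h2 := h.2
        have h3 : ((a : ℕ) : ℤ) < (((idx i + 1) * M : ℕ) : ℤ) := by
          push_cast
          linarith
        exact_mod_cast h3
    intro i hi j hj
    exact hinj i (Finset.mem_filter.mp hi).1 j (Finset.mem_filter.mp hj).1
      ((hdiv i hi).symm.trans (hdiv j hj))
  set Γ : ℕ → (J → ℤ) → (J → ℤ) := fun a v j =>
    max ((M : ℤ) * P.lo j) (min (v j) ((M : ℤ) * P.hi j + (idx j : ℤ) * M - a)) with hΓ
  have hval : ∀ a v j, Γ a v j =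
      max ((M : ℤ) * P.lo j) (min (v j) ((M : ℤ) * P.hi j + (idx j : ℤ) * M - a)) :=
    fun a v j => rfl
  -- the values stay in the box
  have hin : ∀ a, ∀ v ∈ W, ∀ j, (M : ℤ) * P.lo j ≤ Γ a v j ∧ Γ a v j ≤ (M : ℤ) * P.hi j := by
    intro a v hv j
    have h := hbox v hv j
    rw [hval]
    omega
  -- one step
  have hstep : ∀ (a : ℕ) v j, Γ (a + 1) v j ≤ Γ a v j ∧ Γ a v j ≤ Γ (a + 1) v j + 1 := by
    intro a v j
    rw [hval, hval]
    push_cast
    omega
  have hfix : ∀ (a : ℕ), ∀ v ∈ W, ∀ j,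
      j ∉ P.fr.filter (fun j => (idx j : ℤ) * M ≤ a ∧ (a : ℤ) < (idx j : ℤ) * M + M) →
        Γ a v j = Γ (a + 1) v j := by
    intro a v hv j hj
    have h := hbox v hv j
    have h0 := hI j
    rw [hval, hval]
    push_cast
    by_cases hf : j ∈ P.fr
    · have h1 := hH1 j hf
      have h2 : ¬ ((idx j : ℤ) * M ≤ a ∧ (a : ℤ) < (idx j : ℤ) * M + M) :=
        fun hc => hj (Finset.mem_filter.mpr ⟨hf, hc⟩)
      omega
    · have h1 := hH2 j hf
      omega
  refine ⟨P.fr.card * M, Γ, fun j => (M : ℤ) * P.lo j, ?_, ?_, ?_, ?_⟩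
  · intro v hv
    funext j
    have h := hbox v hv j
    have h0 := hI j
    rw [hval]
    push_cast
    omega
  · intro v hv
    funext j
    have h := hbox v hv j
    have h0 := hI j
    rw [hval]
    by_cases hf : j ∈ P.fr
    · have h1 := hH1 j hf
      have h2 : ((idx j : ℤ) + 1) * M ≤ ((P.fr.card * M : ℕ) : ℤ) := by
        have := hlt j hf
        push_cast
        exact mul_le_mul_of_nonneg_right (by exact_mod_cast this) hM'.le
      have h3 : ((idx j : ℤ) + 1) * M = (idx j : ℤ) * M + M := by ring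
      rw [h3] at h2
      omega
    · have h1 := hH2 j hf
      omega
  · intro v hv a _
    obtain ⟨Q, hQ, hQd, h1, h2, -, -⟩ := c10_cube (M := M) (P := P) (Γ a v) (Γ (a + 1) v) (Γ a v) (Γ (a + 1) v)
      _ (hact a) (fun j => ⟨hin a v hv j, hin (a + 1) v hv j, hin a v hv j, hin (a + 1) v hv j⟩)
      (fun j => ⟨Γ (a + 1) v j, by
        have h := hstep a v j
        omega⟩)
      (fun j hj => ⟨hfix a v hv j hj, rfl, hfix a v hv j hj⟩)
    exact ⟨Q, hQ, hQd, h1, h2⟩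
  · intro v hv v' hv' hvv a _
    obtain ⟨R, -, hRd, hR1, hR2⟩ := hvv
    obtain ⟨Q, hQ, hQd, h1, h2, h3, h4⟩ := c10_cube (M := M) (P := P) (Γ a v) (Γ a v') (Γ (a + 1) v)
      (Γ (a + 1) v')
      (R.fr ∪ P.fr.filter (fun j => (idx j : ℤ) * M ≤ a ∧ (a : ℤ) < (idx j : ℤ) * M + M))
      (d := 2)
      ((Finset.card_union_le _ _).trans (by
        have h1 := hact a
        have h2 : R.fr.card ≤ 1 := hRd
        omega))
      (fun j => ⟨hin a v hv j, hin a v' hv' j, hin (a + 1) v hv j, hin (a + 1) v' hv' j⟩)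
      (fun j => by
        have h1 := hR1 j
        have h2 := hR2 j
        have h3 : R.hi j ≤ R.lo j + 1 := by
          unfold Cube.hi
          split <;> omega
        refine ⟨max ((M : ℤ) * P.lo j)
          (min (min (v j) (v' j)) ((M : ℤ) * P.hi j + (idx j : ℤ) * M - (a + 1 : ℕ))), ?_⟩
        rw [hval, hval, hval, hval]
        push_cast
        omega)
      (fun j hj => by
        rw [Finset.mem_union, not_or] at hj
        have h1 := hR1 j
        have h2 := hR2 j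
        have h3 : R.hi j = R.lo j := by
          unfold Cube.hi
          rw [if_neg hj.1]
        have h4 : v j = v' j := by omega
        have h5 : Γ a v j = Γ a v' j := by rw [hval, hval, h4]
        have h6 := hfix a v hv j hj.2
        have h7 := hfix a v' hv' j hj.2
        exact ⟨h5, h6, h5.trans h7⟩)
    exact ⟨Q, hQ, hQd, h1, h2, h3, h4⟩

end AGE
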