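import Pool.Agent.AGE.Defs
import Pool.Agent.AGE.C1b
import Pool.Agent.AGE.C2a

/-!
# AGE-EQC: equivariant choice, set-valued version

`eqc`: a problem `P c y` on the cubes `c` of an invariant set `K` on which `τV` acts freely (order `N`), with `y` in any type `X` with a map `T` of period `N`,
which is solvable for every `c` and equivariant, has an equivariant solution. One chooses a representative in every orbit
(`EQC_set`), solutions for the representatives, and transports them along the orbits; this is well defined by `EQC_wd`.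
-/

set_option autoImplicit false

noncomputable section

namespace AGE

variable {V : Type} [LinearOrder V]

/-- cubes in the same orbit -/
private def EQC_set {N : ℕ} (hN : 0 < N) (τ : Equiv.Perm V) (hV : τ ^ N = 1) : Setoid (Cube V) where
  r c d := ∃ a : ℕ, c.act (τ ^ a) = d
  iseqv := by
    refine ⟨fun c => ⟨0, by rw [pow_zero, Cube.act_one']⟩, ?_, ?_⟩
    · rintro c d ⟨a, rfl⟩
      refine ⟨N * a - a, ?_⟩
      rw [← Cube.act_mul, ← pow_add, Nat.sub_add_cancel (Nat.le_mul_of_pos_left a hN), pow_mul, hV, one_pow,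
        Cube.act_one']
    · rintro c d e ⟨a, rfl⟩ ⟨b, rfl⟩
      exact ⟨b + a, by rw [pow_add, Cube.act_mul]⟩

private theorem EQC_iter {X : Type*} {N : ℕ} {T : X → X} (hT : ∀ x, T^[N] x = x) (m : ℕ) (x : X) :
    T^[N * m] x = x := by
  induction m with
  | zero => rw [Nat.mul_zero, Function.iterate_zero_apply]
  | succ m ih => rw [Nat.mul_succ, Function.iterate_add_apply, hT, ih]

private theorem EQC_wd_le {X : Type*} {N : ℕ} {τV : Equiv.Perm V} {T : X → X} (hT : ∀ x, T^[N] x = x)
    {r : Cube V} (hfre : ∀ a : ℕ, r.act (τV ^ a) = r → N ∣ a) {a b : ℕ} (hab : a ≤ b)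
    (h : r.act (τV ^ a) = r.act (τV ^ b)) (x : X) : T^[a] x = T^[b] x := by
  have h1 : (r.act (τV ^ (b - a))).act (τV ^ a) = r.act (τV ^ a) := by
    rw [← Cube.act_mul, ← pow_add, Nat.add_sub_cancel' hab, h]
  have h2 : ∀ Q : Cube V, (Q.act (τV ^ a)).act (τV ^ a)⁻¹ = Q := fun Q => by
    rw [← Cube.act_mul, inv_mul_cancel, Cube.act_one']
  obtain ⟨m, hm⟩ := hfre (b - a) (by rw [← h2 (r.act (τV ^ (b - a))), h1, h2])
  have h3 : b = a + N * m := by omega
  rw [h3, Function.iterate_add_apply, EQC_iter hT]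

private theorem EQC_wd {X : Type*} {N : ℕ} {τV : Equiv.Perm V} {T : X → X} (hT : ∀ x, T^[N] x = x)
    {r : Cube V} (hfre : ∀ a : ℕ, r.act (τV ^ a) = r → N ∣ a) {a b : ℕ}
    (h : r.act (τV ^ a) = r.act (τV ^ b)) (x : X) : T^[a] x = T^[b] x := by
  rcases le_total a b with hab | hab
  · exact EQC_wd_le hT hfre hab h x
  · exact (EQC_wd_le hT hfre hab h.symm x).symm

/-- equivariant choice in a type `X` with a map `T` of period `N` -/
theorem eqc {N : ℕ} (hN : 0 < N) (K : Set (Cube V)) (τV : Equiv.Perm V) (hV : τV ^ N = 1) (hinv : Inv τV K)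
    (hfre : ∀ c ∈ K, ∀ a : ℕ, c.act (τV ^ a) = c → N ∣ a) {X : Type*} [Nonempty X] (T : X → X)
    (hT : ∀ x, T^[N] x = x) (P : Cube V → X → Prop) (hP : ∀ c ∈ K, ∃ y, P c y)
    (hPe : ∀ c ∈ K, ∀ y, P c y → P (c.act τV) (T y)) :
    ∃ α : Cube V → X, (∀ c ∈ K, P c (α c)) ∧ ∀ c ∈ K, α (c.act τV) = T (α c) := by
  classical
  let S := EQC_set hN τV hV
  have hKa : ∀ (c : Cube V) (a : ℕ), c ∈ K ↔ c.act (τV ^ a) ∈ K := by
    intro c a
    induction a with
    | zero => rw [pow_zero, Cube.act_one']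
    | succ a ih => rw [pow_succ', Cube.act_mul, ← hinv]; exact ih
  let rp : Cube V → Cube V := fun c => (Quotient.mk S c).out
  have hrp : ∀ c, ∃ a : ℕ, (rp c).act (τV ^ a) = c := fun c => Quotient.exact (Quotient.out_eq (Quotient.mk S c))
  choose ex hex using hrp
  have hrK : ∀ c ∈ K, rp c ∈ K := fun c hc => by
    rw [hKa (rp c) (ex c), hex]
    exact hc
  have hrT : ∀ c, rp (c.act τV) = rp c := fun c => by
    have h : Quotient.mk S (c.act τV) = Quotient.mk S c :=
      (Quotient.sound (s := S) (a := c) (b := c.act τV) ⟨1, by rw [pow_one]⟩).symm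
    show (Quotient.mk S (c.act τV)).out = (Quotient.mk S c).out
    rw [h]
  let y : Cube V → X := fun r => if h : r ∈ K then (hP r h).choose else Classical.arbitrary X
  have hy : ∀ r ∈ K, P r (y r) := fun r h => by
    show P r (if h : r ∈ K then (hP r h).choose else Classical.arbitrary X)
    rw [dif_pos h]
    exact (hP r h).choose_spec
  have hPa : ∀ r ∈ K, ∀ a : ℕ, P (r.act (τV ^ a)) (T^[a] (y r)) := by
    intro r hr a
    induction a with
    | zero => rw [pow_zero, Cube.act_one', Function.iterate_zero_apply]; exact hy r hr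
    | succ a ih =>
      rw [pow_succ', Cube.act_mul, Function.iterate_succ_apply']
      exact hPe _ ((hKa r a).1 hr) _ ih
  refine ⟨fun c => T^[ex c] (y (rp c)), fun c hc => ?_, fun c hc => ?_⟩
  · have h := hPa (rp c) (hrK c hc) (ex c)
    rwa [hex] at h
  · show T^[ex (c.act τV)] (y (rp (c.act τV))) = T (T^[ex c] (y (rp c)))
    rw [hrT, ← Function.iterate_succ_apply' T (ex c) (y (rp c))]
    refine EQC_wd hT (hfre _ (hrK c hc)) ?_ _
    have h2 := hex (c.act τV)
    rw [hrT] at h2
    rw [h2, pow_succ', Cube.act_mul, hex]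

end AGE
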