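import Pool.Agent.AGE.WDefs

/-!
# AGE-W2: staircases

Plan. `stc_left`: `i` = element of `fr` of smallest rank; `stc_right`: `i` = element of largest rank. `stc_con`: let `x` have the pivot `i`. Induction on the number of elements of `fr` of rank smaller than `r i`: move
from `x` along the coordinate `i` by unit steps to the point with `x i = a i` (all these points are in `Stc` with pivot `i`); if `i` has the smallest rank this is `a`; otherwise let `i'` be
the predecessor of `i` in the rank order (largest rank below `r i`; `r` is injective on `fr`): the point has pivot `i'` with the value `b i'` in the coordinate `i'`; continue. `rkw_inj`: `rkw fr` is strictly monotone on `fr`.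
`stc_finite`: subset of the set of functions which are `a j` off `fr` and in the finite interval `[min (a j) (b j), max (a j) (b j)]` on `fr` (finite: image of a `Finset.pi`/`Fintype.piFinset` over the
subtype of `fr`, or `Set.Finite.subset` of `Set.Finite.pi'`-like statement; an injection into functions on `{j // j ∈ fr}` is convenient).
-/

set_option autoImplicit false

noncomputable section

namespace AGE

variable {V J : Type} [LinearOrder V] [LinearOrder J]

theorem cls_symm {r : ℕ} {x y : V → ℤ} (h : Cls r x y) : Cls r y x := by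
  intro j
  rw [abs_sub_comm]
  exact h j

theorem cls_trans {r s : ℕ} {x y z : V → ℤ} (h : Cls r x y) (h' : Cls s y z) :
    Cls (r + s) x z := by
  intro j
  have h1 := h j
  have h2 := h' j
  have h3 := abs_sub_le (x j) (y j) (z j)
  push_cast
  linarith

theorem cls_mono {r s : ℕ} (hrs : r ≤ s) {x y : V → ℤ} (h : Cls r x y) : Cls s x y :=
  fun j => le_trans (h j) (by exact_mod_cast hrs)

theorem adj_symm {x y : V → ℤ} (h : Adj x y) : Adj y x := by
  obtain ⟨j, h1, h2⟩ := h
  exact ⟨j, fun i hi => (h1 i hi).symm, by rw [abs_sub_comm]; exact h2⟩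

theorem cnn_symm {X : Set (V → ℤ)} {x y : V → ℤ} (h : Cnn X x y) : Cnn X y x := by
  unfold Cnn at h ⊢
  induction h with
  | refl => exact .refl
  | tail _ hbc ih => exact Relation.ReflTransGen.head ⟨hbc.2.1, hbc.1, adj_symm hbc.2.2⟩ ih

theorem cnn_mono {X Y : Set (V → ℤ)} (hXY : X ⊆ Y) {x y : V → ℤ} (h : Cnn X x y) :
    Cnn Y x y := by
  unfold Cnn at h ⊢
  induction h with
  | refl => exact .refl
  | tail _ hbc ih => exact ih.tail ⟨hXY hbc.1, hXY hbc.2.1, hbc.2.2⟩

theorem rkw_lt (fr : Finset V) {i j : V} (hi : i ∈ fr) (hij : i < j) : rkw fr i < rkw fr j := by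
  unfold rkw
  apply Finset.card_lt_card
  refine ⟨fun k hk => ?_, fun h => ?_⟩
  · rw [Finset.mem_filter] at hk ⊢
    exact ⟨hk.1, hk.2.trans hij⟩
  · have h1 : i ∈ fr.filter (· < i) := h (Finset.mem_filter.2 ⟨hi, hij⟩)
    exact lt_irrefl _ (Finset.mem_filter.1 h1).2

theorem rkw_inj (fr : Finset V) : Set.InjOn (rkw fr) (fr : Set V) := by
  intro i hi j hj h
  rcases lt_trichotomy i j with h1 | h1 | h1
  · have h2 := rkw_lt fr (Finset.mem_coe.1 hi) h1
    omega
  · exact h1
  · have h2 := rkw_lt fr (Finset.mem_coe.1 hj) h1
    omega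

theorem rkw2_inj (fr : Finset V) (i i' : V) : Set.InjOn (rkw2 fr i i') (fr : Set V) := by
  intro j hj k hk h
  unfold rkw2 at h
  by_cases h1 : j = i
  · by_cases h2 : k = i
    · rw [h1, h2]
    · rw [if_pos h1, if_neg h2] at h
      split_ifs at h
  · by_cases h2 : k = i
    · rw [if_neg h1, if_pos h2] at h
      split_ifs at h
    · rw [if_neg h1, if_neg h2] at h
      by_cases h3 : j = i'
      · by_cases h4 : k = i'
        · rw [h3, h4]
        · rw [if_pos h3, if_neg h4] at h
          omega
      · by_cases h4 : k = i'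
        · rw [if_neg h3, if_pos h4] at h
          omega
        · rw [if_neg h3, if_neg h4] at h
          exact rkw_inj fr hj hk (by omega)

theorem stc_left (fr : Finset V) (r : V → ℕ) (a b : V → ℤ) (hne : fr.Nonempty) :
    a ∈ Stc fr r a b := by
  obtain ⟨i, hi, h⟩ := Finset.exists_min_image fr r hne
  exact ⟨fun _ _ => rfl, i, hi, fun j hj hji => absurd (h j hj) (by omega), fun _ _ _ => rfl,
    min_le_left _ _, le_max_left _ _⟩

theorem stc_right (fr : Finset V) (r : V → ℕ) (a b : V → ℤ) (hne : fr.Nonempty)
    (hab : ∀ j, j ∉ fr → a j = b j) : b ∈ Stc fr r a b := by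
  obtain ⟨i, hi, h⟩ := Finset.exists_max_image fr r hne
  exact ⟨fun j hj => (hab j hj).symm, i, hi, fun _ _ _ => rfl,
    fun j hj hji => absurd (h j hj) (by omega), min_le_right _ _, le_max_right _ _⟩

private theorem line_le (X : Set (V → ℤ)) (x : V → ℤ) (i : V) (p q : ℤ) (hpq : p ≤ q)
    (h : ∀ t, p ≤ t → t ≤ q → Function.update x i t ∈ X) :
    Cnn X (Function.update x i p) (Function.update x i q) := by
  induction q, hpq using Int.leInduction with
  | base => exact .refl
  | succ q hpq ih =>
    refine Relation.ReflTransGen.tail (ih fun t h1 h2 => h t h1 (by omega))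
      ⟨h q hpq (by omega), h (q + 1) (by omega) le_rfl, i, fun j hj => ?_, ?_⟩
    · rw [Function.update_of_ne hj, Function.update_of_ne hj]
    · rw [Function.update_self, Function.update_self]
      simp

private theorem line_con (X : Set (V → ℤ)) (x : V → ℤ) (i : V) (p q : ℤ)
    (h : ∀ t, min p q ≤ t → t ≤ max p q → Function.update x i t ∈ X) :
    Cnn X (Function.update x i p) (Function.update x i q) := by
  rcases le_total p q with hpq | hpq
  · exact line_le X x i p q hpq fun t h1 h2 =>
      h t ((min_le_left _ _).trans h1) (h2.trans (le_max_right _ _))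
  · exact cnn_symm (line_le X x i q p hpq fun t h1 h2 =>
      h t ((min_le_right _ _).trans h1) (h2.trans (le_max_left _ _)))

private theorem stc_piv (fr : Finset V) (r : V → ℕ) (hr : Set.InjOn r (fr : Set V))
    (a b : V → ℤ) (m : ℕ) : ∀ i ∈ fr, (fr.filter (fun j => r j < r i)).card < m →
    ∀ x : V → ℤ, (∀ j, j ∉ fr → x j = a j) → (∀ j ∈ fr, r j < r i → x j = b j) →
    (∀ j ∈ fr, r i < r j → x j = a j) → min (a i) (b i) ≤ x i → x i ≤ max (a i) (b i) →
    Cnn (Stc fr r a b) a x := by
  induction m with
  | zero => intro i _ h; omega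
  | succ m ih =>
    intro i hi hm x h0 h1 h2 h3 h4
    have hline : Cnn (Stc fr r a b) (Function.update x i (a i)) (Function.update x i (x i)) := by
      apply line_con
      intro t ht1 ht2
      refine ⟨fun j hj => ?_, i, hi, fun j hj hji => ?_, fun j hj hji => ?_, ?_, ?_⟩
      · rw [Function.update_of_ne (ne_of_mem_of_not_mem hi hj).symm]
        exact h0 j hj
      · rw [Function.update_of_ne (by rintro rfl; omega)]
        exact h1 j hj hji
      · rw [Function.update_of_ne (by rintro rfl; omega)]
        exact h2 j hj hji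
      · rw [Function.update_self]
        exact (le_min (min_le_left _ _) h3).trans ht1
      · rw [Function.update_self]
        exact ht2.trans (max_le (le_max_left _ _) h4)
    rw [Function.update_eq_self] at hline
    refine Relation.ReflTransGen.trans ?_ hline
    by_cases hne : (fr.filter (fun j => r j < r i)).Nonempty
    · obtain ⟨i', hi', hmax⟩ := Finset.exists_max_image _ r hne
      rw [Finset.mem_filter] at hi'
      have hmax' : ∀ j ∈ fr, r j < r i → r j ≤ r i' := fun j hj hji =>
        hmax j (Finset.mem_filter.2 ⟨hj, hji⟩)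
      have hii : i' ≠ i := by rintro rfl; omega
      refine ih i' hi'.1 ?_ _ (fun j hj => ?_) (fun j hj hji => ?_) (fun j hj hji => ?_) ?_ ?_
      · refine lt_of_lt_of_le (Finset.card_lt_card ⟨fun j hj => ?_, fun h => ?_⟩)
          (Nat.lt_succ_iff.1 hm)
        · rw [Finset.mem_filter] at hj ⊢
          exact ⟨hj.1, by omega⟩
        · have h5 := h (Finset.mem_filter.2 hi')
          rw [Finset.mem_filter] at h5
          omega
      · rw [Function.update_of_ne (ne_of_mem_of_not_mem hi hj).symm]
        exact h0 j hj
      · rw [Function.update_of_ne (by rintro rfl; omega)]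
        exact h1 j hj (by omega)
      · rcases lt_trichotomy (r j) (r i) with h5 | h5 | h5
        · have h6 := hmax' j hj h5
          omega
        · have h6 : j = i := hr (Finset.mem_coe.2 hj) (Finset.mem_coe.2 hi) h5
          rw [h6, Function.update_self]
        · rw [Function.update_of_ne (by rintro rfl; omega)]
          exact h2 j hj h5
      · rw [Function.update_of_ne hii, h1 i' hi'.1 hi'.2]
        exact min_le_right _ _
      · rw [Function.update_of_ne hii, h1 i' hi'.1 hi'.2]
        exact le_max_right _ _
    · have h5 : Function.update x i (a i) = a := by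
        funext j
        by_cases hj : j = i
        · rw [hj, Function.update_self]
        · rw [Function.update_of_ne hj]
          by_cases hjf : j ∈ fr
          · refine h2 j hjf ?_
            by_contra h6
            rcases lt_or_eq_of_le (not_lt.1 h6) with h7 | h7
            · exact hne ⟨j, Finset.mem_filter.2 ⟨hjf, h7⟩⟩
            · exact hj (hr (Finset.mem_coe.2 hjf) (Finset.mem_coe.2 hi) h7)
          · exact h0 j hjf
      rw [h5]

theorem stc_con (fr : Finset V) (r : V → ℕ) (hr : Set.InjOn r (fr : Set V)) (a b : V → ℤ)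
    (x : V → ℤ) (hx : x ∈ Stc fr r a b) : Cnn (Stc fr r a b) a x := by
  obtain ⟨h0, i, hi, h1, h2, h3, h4⟩ := hx
  exact stc_piv fr r hr a b _ i hi (Nat.lt_succ_self _) x h0 h1 h2 h3 h4

/-- the rank has to be injective on `fr`: otherwise the coordinates of the rank of the pivot are
free -/
theorem stc_finite (fr : Finset V) (r : V → ℕ) (hr : Set.InjOn r (fr : Set V)) (a b : V → ℤ) :
    (Stc fr r a b).Finite := by
  have h1 : (Set.univ.pi fun j : fr =>
      Set.Icc (min (a j.1) (b j.1)) (max (a j.1) (b j.1))).Finite :=
    Set.Finite.pi fun j => Set.finite_Icc _ _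
  refine Set.Finite.of_finite_image (f := fun x : V → ℤ => fun j : fr => x j.1)
    (h1.subset ?_) ?_
  · rintro _ ⟨x, ⟨_, i, hi, hx1, hx2, hx3, hx4⟩, rfl⟩ ⟨j, hj⟩ _
    rcases lt_trichotomy (r j) (r i) with h5 | h5 | h5
    · exact ⟨(min_le_right _ _).trans (hx1 j hj h5).ge, (hx1 j hj h5).le.trans (le_max_right _ _)⟩
    · have h6 : j = i := hr (Finset.mem_coe.2 hj) (Finset.mem_coe.2 hi) h5
      subst h6
      exact ⟨hx3, hx4⟩
    · exact ⟨(min_le_left _ _).trans (hx2 j hj h5).ge, (hx2 j hj h5).le.trans (le_max_left _ _)⟩
  · intro x hx y hy hxy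
    funext j
    by_cases hj : j ∈ fr
    · exact congrFun hxy ⟨j, hj⟩
    · rw [hx.1 j hj, hy.1 j hj]

end AGE
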