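import Pool.Agent.AGE.WDefs
import Pool.Agent.AGE.C1b
import Pool.Agent.AGE.W2

/-!
# AGE-W3: distance from a set of lattice points, boxes

Plan. `dst` is an infimum of a set of natural numbers: `Nat.sInf_le`, `Nat.sInf_mem`. `dst_lip`: `dst_spec` for `v` and `cls_trans`. `inb_cls`: both coordinates lie in the interval `[M lo j, M hi j]`, of
length at most `M` (`hi j - lo j` is `0` or `1`). The rest is coordinatewise.
-/

set_option autoImplicit false

noncomputable section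

namespace AGE

variable {V J : Type} [LinearOrder V] [LinearOrder J]

theorem dst_le {P : Set (V → ℤ)} {v : V → ℤ} {r : ℕ} (h : ∃ x ∈ P, Cls r v x) :
    dst P v ≤ r :=
  Nat.sInf_le h

theorem dst_spec {P : Set (V → ℤ)} {v : V → ℤ} (h : ∃ r, ∃ x ∈ P, Cls r v x) :
    ∃ x ∈ P, Cls (dst P v) v x :=
  Nat.sInf_mem (s := {r : ℕ | ∃ x ∈ P, Cls r v x}) h

theorem dst_lip {P : Set (V → ℤ)} {v v' : V → ℤ} (h : ∃ r, ∃ x ∈ P, Cls r v x)
    (hv : Cls 1 v v') : dst P v' ≤ dst P v + 1 := by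
  obtain ⟨x, hx, hc⟩ := dst_spec h
  refine dst_le ⟨x, hx, ?_⟩
  rw [add_comm]
  exact cls_trans (cls_symm hv) hc

private theorem W3_hi (Q : Cube V) (j : V) :
    (j ∈ Q.fr ∧ Q.hi j = Q.lo j + 1) ∨ (j ∉ Q.fr ∧ Q.hi j = Q.lo j) := by
  by_cases h : j ∈ Q.fr
  · exact Or.inl ⟨h, if_pos h⟩
  · exact Or.inr ⟨h, if_neg h⟩

theorem inb_cls {M : ℕ} {c : Cube V} {v x : V → ℤ} (hv : InB M c v) (hx : InB M c x) :
    Cls M v x := by
  intro j
  have h1 := hv j
  have h2 := hx j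
  have h3 : (M : ℤ) * c.hi j ≤ (M : ℤ) * c.lo j + M := by
    rcases W3_hi c j with ⟨_, h⟩ | ⟨_, h⟩
    · rw [h, mul_add, mul_one]
    · rw [h]
      have h4 : (0 : ℤ) ≤ M := Int.natCast_nonneg M
      linarith
  rw [abs_le]
  constructor <;> linarith [h1.1, h1.2, h2.1, h2.2]

theorem inb_of_has {M : ℕ} {c Q : Cube V} (hQ : Q.InM M c) {v : V → ℤ} (hv : Q.Has v) :
    InB M c v :=
  fun j => ⟨(hQ j).1.trans (hv j).1, (hv j).2.trans (hQ j).2⟩

theorem has_cls {Q : Cube V} {v v' : V → ℤ} (hv : Q.Has v) (hv' : Q.Has v') : Cls 1 v v' := by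
  intro j
  have h1 := hv j
  have h2 := hv' j
  have h3 : Q.hi j ≤ Q.lo j + 1 := by
    rcases W3_hi Q j with ⟨_, h⟩ | ⟨_, h⟩
    · rw [h]
    · rw [h]
      linarith
  rw [abs_le]
  push_cast
  constructor <;> linarith [h1.1, h1.2, h2.1, h2.2]

theorem inb_of_ini {M : ℕ} {c : Cube V} {v : V → ℤ} (h : InI M c v) : InB M c v := by
  intro j
  rcases W3_hi c j with ⟨hj, _⟩ | ⟨hj, h2⟩
  · exact ⟨(h.1 j hj).1.le, (h.1 j hj).2.le⟩
  · rw [h2, h.2 j hj]
    exact ⟨le_rfl, le_rfl⟩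

theorem inb_iff_pt {M : ℕ} {c : Cube V} {v : V → ℤ} : InB M c v ↔ (pt v).InM M c := by
  have h : ∀ j, (pt v).hi j = v j := fun j => if_neg (Finset.notMem_empty j)
  have h' : ∀ j, (pt v).lo j = v j := fun j => rfl
  constructor
  · intro h1 j
    rw [h, h']
    exact h1 j
  · intro h1 j
    have h2 := h1 j
    rw [h, h'] at h2
    exact h2

private theorem W3_le {h : ℕ} (hh : 0 < h) (v : V → ℤ) (j : V) (y : ℤ) :
    y ≤ flo (2 * h) h v j ↔ 2 * (h : ℤ) * y - h ≤ v j := by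
  have h1 : (0 : ℤ) < ((2 * h : ℕ) : ℤ) := by exact_mod_cast Nat.mul_pos two_pos hh
  show y ≤ (v j + h) / ((2 * h : ℕ) : ℤ) ↔ _
  rw [Int.le_ediv_iff_mul_le h1]
  push_cast
  constructor <;> intro h2 <;> linarith

/-- block of a lattice point -/
theorem flo_eq {h : ℕ} (hh : 0 < h) {v : V → ℤ} {j : V} {y : ℤ}
    (h1 : 2 * (h : ℤ) * y - h ≤ v j) (h2 : v j < 2 * (h : ℤ) * y + h) :
    flo (2 * h) h v j = y := by
  refine le_antisymm ?_ ((W3_le hh v j y).mpr h1)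
  by_contra h3
  have h4 := (W3_le hh v j (y + 1)).mp (by omega)
  linarith

theorem flo_bounds {h : ℕ} (hh : 0 < h) (v : V → ℤ) (j : V) :
    2 * (h : ℤ) * flo (2 * h) h v j - h ≤ v j ∧ v j < 2 * (h : ℤ) * flo (2 * h) h v j + h := by
  refine ⟨(W3_le hh v j _).mp le_rfl, ?_⟩
  by_contra h3
  have h4 := (W3_le hh v j (flo (2 * h) h v j + 1)).mpr (by linarith)
  omega

theorem flo_inb {h L : ℕ} (hh : 0 < h) {c : Cube V} {v : V → ℤ} (hv : InB (2 * h * L) c v) :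
    InB L c (flo (2 * h) h v) := by
  intro j
  have h1 := hv j
  have hp : (0 : ℤ) < h := by exact_mod_cast hh
  push_cast at h1
  refine ⟨(W3_le hh v j _).mpr (by linarith [h1.1]), ?_⟩
  by_contra h3
  have h4 := (W3_le hh v j ((L : ℤ) * c.hi j + 1)).mp (by omega)
  linarith [h1.2]

theorem flo_cls {h : ℕ} (hh : 0 < h) {v v' : V → ℤ} (hv : Cls 1 v v') :
    Cls 1 (flo (2 * h) h v) (flo (2 * h) h v') := by
  have key : ∀ u u' : V → ℤ, Cls 1 u u' → ∀ j, flo (2 * h) h u j ≤ flo (2 * h) h u' j + 1 := by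
    intro u u' hu j
    have h1 := hu j
    rw [abs_le] at h1
    push_cast at h1
    have hp : (1 : ℤ) ≤ h := by exact_mod_cast hh
    have h5 := (flo_bounds hh u' j).2
    by_contra h3
    have h4 := (W3_le hh u j (flo (2 * h) h u' j + 2)).mp (by omega)
    linarith [h1.2]
  intro j
  have h1 := key v v' hv j
  have h2 := key v' v (cls_symm hv) j
  rw [abs_le]
  push_cast
  constructor <;> linarith

end AGE
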