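import Pool.Agent.AGE.WDefs2
import Pool.Agent.AGE.C1b
import Pool.Agent.AGE.C2a
import Pool.Agent.AGE.C6a
import Pool.Agent.AGE.C6c
import Pool.Agent.AGE.W2
import Pool.Agent.AGE.W3
import Pool.Agent.AGE.EQC

/-!
# AGE-GLU: gluing the local solutions

Plan. Choose `h ≥ 2` at least all `h₀ c` (`K` is finite), `M = 2 h L`. By `eqc` choose local solutions `(gc c, Rc c)` of the `(n+1)`-cells, equivariantly (transport of `Loc` by `(τV, τJ)`:
`T (g', R) = (v ↦ actP τJ (g' (actP τV.symm v)), x κ ↦ R (actP τV.symm x) (κ.act τJ.symm))`). `f v = gc c v` if `v` is interior to `M c` for an `(n+1)`-cell `c ∈ K` (unique), and `g (flo (2h) h v)` otherwise; so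
`f = gc c` on the whole box `M c` (`Loc.bdy`; a boundary point of `M c` is not interior to any `(n+1)`-cell). `R x κ`: `(∃ c ∈ K, c.dim = n+1 ∧ InB M c x ∧ Rc c x κ) ∨ (∃ e ∈ K, e.dim = n ∧ κ ∈ Ty ∧ κ ∈ C e ∧ x = mul (2h) (p e κ))`. Key facts:
if `x` is interior to `M d` and in the box `M c` (`c, d ∈ K`) then `d.Le c`; for an `(n+1)`-cell `c` and `x` in the box `M c`: `R x κ ↔ Rc c x κ` (`Loc.bnd` for boundary points). All fields of `Wst` follow from the fields of `Loc`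
for cubes in an `(n+1)`-cell; for cubes `Q` in `M e`, `e` of dimension `≤ n`: `f = g ∘ flo` on `Q` and the only core vertices on it are `mul (2h) (p e κ)` (`e` of dimension `n`), with `flo v = p e κ` for `Cls 1 v x` (`h ≥ 2`), and
different ports are far from each other (`psep`).
-/

set_option autoImplicit false

noncomputable section

namespace AGE

variable {V J : Type} [LinearOrder V] [LinearOrder J]

/-! ### geometry -/

private theorem GLU_hi_mem {c : Cube V} {j : V} (h : j ∈ c.fr) : c.hi j = c.lo j + 1 := if_pos h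

private theorem GLU_hi_not {c : Cube V} {j : V} (h : j ∉ c.fr) : c.hi j = c.lo j := if_neg h

private theorem GLU_le {M : ℕ} (hM : 0 < M) {d c : Cube V} {x : V → ℤ} (hd : InI M d x)
    (hc : InB M c x) : d.Le c := by
  have hM' : (0 : ℤ) < (M : ℤ) := by exact_mod_cast hM
  intro j
  obtain ⟨h1, h2⟩ := hc j
  by_cases hj : j ∈ d.fr
  · obtain ⟨h3, h4⟩ := hd.1 j hj
    rw [GLU_hi_mem hj] at h4 ⊢
    constructor
    · have : (M : ℤ) * c.lo j < (M : ℤ) * (d.lo j + 1) := lt_of_le_of_lt h1 h4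
      have := lt_of_mul_lt_mul_left this hM'.le
      omega
    · have : (M : ℤ) * d.lo j < (M : ℤ) * c.hi j := lt_of_lt_of_le h3 h2
      have := lt_of_mul_lt_mul_left this hM'.le
      omega
  · have h3 := hd.2 j hj
    rw [GLU_hi_not hj]
    rw [h3] at h1 h2
    exact ⟨le_of_mul_le_mul_left h1 hM', le_of_mul_le_mul_left h2 hM'⟩

private theorem GLU_eq_of_le {d c : Cube V} (h : d.Le c) (hd : c.dim ≤ d.dim) : d = c := by
  have hfr : d.fr = c.fr := Finset.eq_of_subset_of_card_le (Cube.fr_subset h) hd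
  refine Cube.ext (funext fun j => ?_) hfr
  have h1 := h j
  by_cases hj : j ∈ c.fr
  · have hj' : j ∈ d.fr := hfr ▸ hj
    rw [GLU_hi_mem hj, GLU_hi_mem hj'] at h1
    omega
  · have hj' : j ∉ d.fr := hfr ▸ hj
    rw [GLU_hi_not hj, GLU_hi_not hj'] at h1
    omega

private theorem GLU_inb_act {M : ℕ} {c : Cube V} {x : V → ℤ} (τ : Equiv.Perm V) :
    InB M (c.act τ) (actP τ x) ↔ InB M c x := by
  constructor
  · intro h j
    have h1 := h (τ j)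
    rw [Cube.act_hi] at h1
    simpa [actP, Cube.act] using h1
  · intro h j
    rw [Cube.act_hi]
    exact h (τ.symm j)

private theorem GLU_ini_act {M : ℕ} {c : Cube V} {x : V → ℤ} (τ : Equiv.Perm V) :
    InI M (c.act τ) (actP τ x) ↔ InI M c x := by
  have hfr : ∀ j, τ j ∈ (c.act τ).fr ↔ j ∈ c.fr := fun j => by simp [Cube.act]
  constructor
  · intro h
    refine ⟨fun j hj => ?_, fun j hj => ?_⟩
    · have h1 := h.1 (τ j) ((hfr j).2 hj)
      rw [Cube.act_hi] at h1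
      simpa [actP, Cube.act] using h1
    · have h1 := h.2 (τ j) (fun h' => hj ((hfr j).1 h'))
      simpa [actP, Cube.act] using h1
  · intro h
    refine ⟨fun j hj => ?_, fun j hj => ?_⟩
    · rw [Cube.act_hi]
      refine h.1 (τ.symm j) ((hfr _).1 ?_)
      rw [Equiv.apply_symm_apply]
      exact hj
    · refine h.2 (τ.symm j) (fun h' => hj ?_)
      have := (hfr _).2 h'
      rwa [Equiv.apply_symm_apply] at this

private theorem GLU_ini_mul {h L : ℕ} (hh : 0 < h) {c : Cube V} {x : V → ℤ} (hx : InI L c x) :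
    InI (2 * h * L) c (mul (2 * h) x) := by
  have hh' : (0 : ℤ) < ((2 * h : ℕ) : ℤ) := by exact_mod_cast (by omega : 0 < 2 * h)
  refine ⟨fun j hj => ?_, fun j hj => ?_⟩
  · obtain ⟨h1, h2⟩ := hx.1 j hj
    have h3 := mul_lt_mul_of_pos_left h1 hh'
    have h4 := mul_lt_mul_of_pos_left h2 hh'
    rw [← mul_assoc] at h3 h4
    unfold mul
    push_cast at h3 h4 ⊢
    exact ⟨h3, h4⟩
  · have h1 := hx.2 j hj
    unfold mul
    rw [h1]
    push_cast
    ring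

omit [LinearOrder V] in
private theorem GLU_mul_act (m : ℕ) (τ : Equiv.Perm V) (x : V → ℤ) :
    actP τ (mul m x) = mul m (actP τ x) := rfl

private theorem GLU_flo_mul {h : ℕ} (hh : 2 ≤ h) {v q : V → ℤ} (hv : Cls 1 v (mul (2 * h) q)) :
    flo (2 * h) h v = q := by
  funext j
  have h1 := hv j
  unfold mul at h1
  rw [abs_le] at h1
  push_cast at h1
  refine flo_eq (by omega) ?_ ?_ <;> omega

private theorem GLU_inM_dim {M : ℕ} (hM : 0 < M) {Q c : Cube V} (h : Q.InM M c) : Q.dim ≤ c.dim := by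
  obtain ⟨P, hP, -, h2⟩ := grd_dim (K := {c}) hM ⟨c, rfl, h⟩
  rw [Set.mem_singleton_iff] at hP
  rw [← hP]
  exact h2

private theorem GLU_flr {h L : ℕ} (hh : 0 < h) (hL : 0 < L) {Q c : Cube V} (hQ : Q.InM (2 * h * L) c) :
    (flrQ (2 * h) (h : ℤ) Q).InM L c := by
  have h1 : Q ∈ Grd (L * (2 * h)) {c} := ⟨c, rfl, by rw [mul_comm L]; exact hQ⟩
  rw [← grd_grd L (2 * h) {c} hL (by omega)] at h1
  obtain ⟨P, hP, hQP⟩ := h1
  have h2 : (flrQ (2 * h) (h : ℤ) Q).Le P := flr_inM (2 * h) h (by omega) (by push_cast; omega) Q P hQP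
  obtain ⟨c', hc', h3⟩ := closed_grd L {c} P hP _ h2
  rw [Set.mem_singleton_iff] at hc'
  rw [← hc']
  exact h3

/-! ### transport of local solutions -/

omit [LinearOrder V] in
private theorem GLU_actP_symm (τ : Equiv.Perm V) {X : Type} (v : V → X) : ∃ v', v = actP τ v' :=
  ⟨fun j => v (τ j), by funext j; simp [actP]⟩

private theorem GLU_act_symm (τ : Equiv.Perm V) (Q : Cube V) : ∃ Q' : Cube V, Q = Q'.act τ :=
  ⟨Q.act τ⁻¹, by rw [← Cube.act_mul, mul_inv_cancel, Cube.act_one']⟩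

omit [LinearOrder V] in
private theorem GLU_adj (τ : Equiv.Perm V) {x y : V → ℤ} (h : Adj x y) : Adj (actP τ x) (actP τ y) := by
  obtain ⟨j, h1, h2⟩ := h
  refine ⟨τ j, fun i hi => h1 _ (fun h' => hi ?_), by simpa [actP] using h2⟩
  rw [← h', Equiv.apply_symm_apply]

omit [LinearOrder V] in
private theorem GLU_cls (τ : Equiv.Perm V) {r : ℕ} {x y : V → ℤ} :
    Cls r (actP τ x) (actP τ y) ↔ Cls r x y := by
  constructor
  · intro h j
    simpa [actP] using h (τ j)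
  · intro h j
    exact h (τ.symm j)

private theorem GLU_tr {n N : ℕ} {K : Set (Cube V)} {τV : Equiv.Perm V} {τJ : Equiv.Perm J}
    (hK : Src n N K τV) {C : Cube V → Set (Cube J)} (hC : Car K C τV τJ) {Ty : Set (Cube J)}
    (hT : TyOk n τJ Ty) {L h : ℕ} {g : (V → ℤ) → (J → ℤ)} {p : Cube V → Cube J → (V → ℤ)}
    (hP : Prt n K C τV τJ Ty L g p) {c : Cube V} (hc : c ∈ K)
    {g' g'' : (V → ℤ) → (J → ℤ)} {R R' : (V → ℤ) → Cube J → Prop}
    (hg : ∀ v, g'' (actP τV v) = actP τJ (g' v))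
    (hR : ∀ x κ, R' (actP τV x) (κ.act τJ) ↔ R x κ)
    (hl : Loc n c L h (C c) g (BP n K C Ty p c) g' R) :
    Loc n (c.act τV) L h (C (c.act τV)) g (BP n K C Ty p (c.act τV)) g'' R' := by
  have hgf : ∀ v, g (flo (2 * h) h (actP τV v)) = actP τJ (g (flo (2 * h) h v)) := fun v => by
    have h1 : flo (2 * h) (h : ℤ) (actP τV v) = actP τV (flo (2 * h) (h : ℤ) v) :=
      flr_equi (2 * h) h τV v
    rw [h1, hP.equ]
  have hS : ∀ {Q : Cube V} {S : Cube J} {F F' : (V → ℤ) → (J → ℤ)}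
      (_ : ∀ v, F' (actP τV v) = actP τJ (F v)), (∀ v, Q.Has v → S.Has (F v)) →
      ∀ v, (Q.act τV).Has v → (S.act τJ).Has (F' v) := by
    intro Q S F F' hF h v hv
    obtain ⟨v, rfl⟩ := GLU_actP_symm τV v
    rw [hF, Cube.act_has]
    rw [Cube.act_has] at hv
    exact h v hv
  constructor
  · intro v h1 h2
    obtain ⟨v, rfl⟩ := GLU_actP_symm τV v
    rw [GLU_inb_act] at h1
    rw [GLU_ini_act] at h2
    rw [hg, hgf, hl.bdy v h1 h2]
  · intro Q hQ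
    obtain ⟨Q, rfl⟩ := GLU_act_symm τV Q
    rw [Cube.act_inM] at hQ
    rcases hl.cub Q hQ with h1 | ⟨⟨S, hS1, hS2, hS3⟩, S', hS1', hS2'⟩
    · left
      intro v hv
      obtain ⟨v, rfl⟩ := GLU_actP_symm τV v
      rw [Cube.act_has] at hv
      rw [hg, hgf, h1 v hv]
    · right
      exact ⟨⟨S.act τJ, (hC.equ c hc S).1 hS1, by rw [Cube.act_dim]; exact hS2, hS hg hS3⟩,
        S'.act τJ, by rw [Cube.act_dim]; exact hS1', hS (F := fun v => g (flo (2 * h) h v)) hgf hS2'⟩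
  · intro x κ h1
    obtain ⟨x, rfl⟩ := GLU_actP_symm τV x
    obtain ⟨κ, rfl⟩ := GLU_act_symm τJ κ
    rw [hR] at h1
    obtain ⟨h2, h3, h4⟩ := hl.box x κ h1
    exact ⟨(GLU_inb_act τV).2 h2, (hC.equ c hc κ).1 h3, by rw [Cube.act_dim]; exact h4⟩
  · intro x κ h1 h2
    obtain ⟨x, rfl⟩ := GLU_actP_symm τV x
    obtain ⟨κ, rfl⟩ := GLU_act_symm τJ κ
    rw [GLU_inb_act] at h1
    rw [GLU_ini_act] at h2
    rw [hR, hl.bnd x κ h1 h2]
    constructor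
    · rintro ⟨q, ⟨e, he, he1, he2, he3, he4, rfl⟩, rfl⟩
      refine ⟨p (e.act τV) (κ.act τJ), ⟨e.act τV, (hK.inv e).1 he, by rw [Cube.act_dim]; exact he1,
        (Cube.act_le τV _ _).2 he2, (hT.inv κ).1 he3, (hC.equ e he κ).1 he4, rfl⟩, ?_⟩
      rw [hP.peq e he he1.ge κ he3 he4, GLU_mul_act]
    · rintro ⟨q, ⟨e, he, he1, he2, he3, he4, rfl⟩, h3⟩
      obtain ⟨e, rfl⟩ := GLU_act_symm τV e
      rw [← hK.inv e] at he
      rw [Cube.act_dim] at he1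
      rw [Cube.act_le] at he2
      rw [← hT.inv κ] at he3
      rw [← hC.equ e he κ] at he4
      refine ⟨p e κ, ⟨e, he, he1, he2, he3, he4, rfl⟩, ?_⟩
      rw [hP.peq e he he1.ge κ he3 he4, ← GLU_mul_act] at h3
      funext j
      have := congrFun h3 (τV j)
      simpa [actP] using this
  · intro x κ h1 Q hQ hx v hv
    obtain ⟨x, rfl⟩ := GLU_actP_symm τV x
    obtain ⟨v, rfl⟩ := GLU_actP_symm τV v
    obtain ⟨κ, rfl⟩ := GLU_act_symm τJ κ
    obtain ⟨Q, rfl⟩ := GLU_act_symm τV Q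
    rw [hR] at h1
    rw [Cube.act_inM] at hQ
    rw [Cube.act_has] at hx hv
    rw [hg, Cube.act_has]
    exact hl.has x κ h1 Q hQ hx v hv
  · intro x κ x' κ' h1 h2 h3
    obtain ⟨x, rfl⟩ := GLU_actP_symm τV x
    obtain ⟨x', rfl⟩ := GLU_actP_symm τV x'
    obtain ⟨κ, rfl⟩ := GLU_act_symm τJ κ
    obtain ⟨κ', rfl⟩ := GLU_act_symm τJ κ'
    rw [hR] at h1 h2
    rw [GLU_cls] at h3
    rw [Cube.act_le, Cube.act_le]
    exact hl.nes x κ x' κ' h1 h2 h3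
  · intro σ hσ x κ x' κ' h1 h2 h3 h4
    obtain ⟨x, rfl⟩ := GLU_actP_symm τV x
    obtain ⟨x', rfl⟩ := GLU_actP_symm τV x'
    obtain ⟨κ, rfl⟩ := GLU_act_symm τJ κ
    obtain ⟨κ', rfl⟩ := GLU_act_symm τJ κ'
    obtain ⟨σ, rfl⟩ := GLU_act_symm τJ σ
    rw [hR] at h1 h2
    rw [Cube.act_le] at h3 h4
    rw [Cube.act_dim] at hσ
    have h5 := hl.con σ hσ x κ x' κ' h1 h2 h3 h4
    have h6 : ∀ a, a ∈ Ge R (2 * h * L) c σ → actP τV a ∈ Ge R' (2 * h * L) (c.act τV) (σ.act τJ) := by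
      rintro a ⟨ha1, κ, ha2, ha3⟩
      exact ⟨(GLU_inb_act τV).2 ha1, κ.act τJ, (hR a κ).2 ha2, (Cube.act_le τJ _ _).2 ha3⟩
    unfold Cnn at h5 ⊢
    exact Relation.ReflTransGen.lift (p := fun a b => a ∈ Ge R' (2 * h * L) (c.act τV) (σ.act τJ) ∧ b ∈ Ge R' (2 * h * L) (c.act τV) (σ.act τJ) ∧ Adj a b) (fun a : V → ℤ => actP τV a)
      (fun a b hab => ⟨h6 a hab.1, h6 b hab.2.1, GLU_adj τV hab.2.2⟩) _ _ h5
  · intro u hu hu1
    obtain ⟨u, rfl⟩ := GLU_act_symm τV u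
    rw [Cube.act_inM] at hu
    rw [Cube.act_dim] at hu1
    rcases hl.ess u hu hu1 with ⟨x, κ, h1, h2⟩ | ⟨S, h1, h2⟩
    · exact Or.inl ⟨actP τV x, κ.act τJ, (Cube.act_has τV u x).2 h1, (hR x κ).2 h2⟩
    · exact Or.inr ⟨S.act τJ, by rw [Cube.act_dim]; exact h1, hS hg h2⟩

/-! ### the equivariant choice of the local solutions -/

private theorem GLU_iter {N : ℕ} (τV : Equiv.Perm V) (τJ : Equiv.Perm J)
    (y : ((V → ℤ) → (J → ℤ)) × ((V → ℤ) → Cube J → Prop)) :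
    (fun y : ((V → ℤ) → (J → ℤ)) × ((V → ℤ) → Cube J → Prop) =>
      ((fun v => actP τJ (y.1 (actP τV⁻¹ v)) : (V → ℤ) → (J → ℤ)),
        (fun x κ => y.2 (actP τV⁻¹ x) (κ.act τJ⁻¹) : (V → ℤ) → Cube J → Prop)))^[N] y =
      ((fun v => actP (τJ ^ N) (y.1 (actP (τV ^ N)⁻¹ v)) : (V → ℤ) → (J → ℤ)),
        (fun x κ => y.2 (actP (τV ^ N)⁻¹ x) (κ.act (τJ ^ N)⁻¹) : (V → ℤ) → Cube J → Prop)) := by
  induction N with
  | zero =>
    rw [Function.iterate_zero_apply, pow_zero, pow_zero, inv_one, inv_one]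
    refine Prod.ext rfl ?_
    funext x κ
    show y.2 x κ = y.2 x (κ.act 1)
    rw [Cube.act_one']
  | succ k ih =>
    rw [Function.iterate_succ_apply', ih]
    refine Prod.ext ?_ ?_
    · funext v
      show actP τJ (actP (τJ ^ k) (y.1 (actP (τV ^ k)⁻¹ (actP τV⁻¹ v)))) = _
      rw [← actP_mul, ← actP_mul, ← pow_succ', ← mul_inv_rev, ← pow_succ']
    · funext x κ
      show y.2 (actP (τV ^ k)⁻¹ (actP τV⁻¹ x)) ((κ.act τJ⁻¹).act (τJ ^ k)⁻¹) = _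
      rw [← actP_mul, ← Cube.act_mul, ← mul_inv_rev, ← pow_succ', ← mul_inv_rev, ← pow_succ']

private theorem GLU_choice {N : ℕ} {n : ℕ} {K : Set (Cube V)} {τV : Equiv.Perm V}
    {τJ : Equiv.Perm J} (hK : Src n N K τV) (hJ : τJ ^ N = 1)
    {C : Cube V → Set (Cube J)} (hC : Car K C τV τJ) {Ty : Set (Cube J)} (hT : TyOk n τJ Ty)
    {L h : ℕ} {g : (V → ℤ) → (J → ℤ)} {p : Cube V → Cube J → (V → ℤ)}
    (hP : Prt n K C τV τJ Ty L g p)
    (hloc : ∀ c ∈ K, c.dim = n + 1 →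
      ∃ (g' : (V → ℤ) → (J → ℤ)) (R : (V → ℤ) → Cube J → Prop),
        Loc n c L h (C c) g (BP n K C Ty p c) g' R ∧
        ∀ w ∈ Ty, w ∈ C c → w.dim = n + 2 → ∃ x, R x w) :
    ∃ (gc : Cube V → (V → ℤ) → (J → ℤ)) (Rc : Cube V → (V → ℤ) → Cube J → Prop),
      (∀ c ∈ K, c.dim = n + 1 → Loc n c L h (C c) g (BP n K C Ty p c) (gc c) (Rc c) ∧
        ∀ w ∈ Ty, w ∈ C c → w.dim = n + 2 → ∃ x, Rc c x w) ∧
      (∀ c ∈ K, c.dim = n + 1 → ∀ v, gc (c.act τV) (actP τV v) = actP τJ (gc c v)) ∧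
      (∀ c ∈ K, c.dim = n + 1 → ∀ x κ, Rc (c.act τV) (actP τV x) (κ.act τJ) ↔ Rc c x κ) := by
  haveI : Nonempty (((V → ℤ) → (J → ℤ)) × ((V → ℤ) → Cube J → Prop)) :=
    ⟨(fun _ _ => 0, fun _ _ => False)⟩
  have hV1 : ∀ v : V → ℤ, actP τV⁻¹ (actP τV v) = v := fun v => by
    rw [← actP_mul, inv_mul_cancel, actP_one]
  have hJ1 : ∀ κ : Cube J, (κ.act τJ).act τJ⁻¹ = κ := fun κ => by
    rw [← Cube.act_mul, inv_mul_cancel, Cube.act_one']
  obtain ⟨α, h1, h2⟩ := eqc hK.pos {c | c ∈ K ∧ c.dim = n + 1} τV hK.ord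
    (fun Q => by
      show (Q ∈ K ∧ Q.dim = n + 1) ↔ (Q.act τV ∈ K ∧ (Q.act τV).dim = n + 1)
      rw [Cube.act_dim, ← hK.inv Q])
    (fun c hc => hK.fre c hc.1)
    (fun y : ((V → ℤ) → (J → ℤ)) × ((V → ℤ) → Cube J → Prop) =>
      ((fun v => actP τJ (y.1 (actP τV⁻¹ v)) : (V → ℤ) → (J → ℤ)),
        (fun x κ => y.2 (actP τV⁻¹ x) (κ.act τJ⁻¹) : (V → ℤ) → Cube J → Prop)))
    (fun y => by
      rw [GLU_iter, hK.ord, hJ, inv_one, inv_one]
      refine Prod.ext rfl ?_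
      funext x κ
      show y.2 x (κ.act 1) = y.2 x κ
      rw [Cube.act_one'])
    (fun c y => Loc n c L h (C c) g (BP n K C Ty p c) y.1 y.2 ∧
        ∀ w ∈ Ty, w ∈ C c → w.dim = n + 2 → ∃ x, y.2 x w)
    (fun c hc => by
      obtain ⟨g', R, h1, h2⟩ := hloc c hc.1 hc.2
      exact ⟨(g', R), h1, h2⟩)
    (fun c hc y hy => by
      refine ⟨GLU_tr hK hC hT hP hc.1 (fun v => ?_) (fun x κ => ?_) hy.1, ?_⟩
      · show actP τJ (y.1 (actP τV⁻¹ (actP τV v))) = _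
        rw [hV1]
      · show y.2 (actP τV⁻¹ (actP τV x)) ((κ.act τJ).act τJ⁻¹) ↔ _
        rw [hV1, hJ1]
      · intro w hw1 hw2 hw3
        obtain ⟨w, rfl⟩ := GLU_act_symm τJ w
        rw [← hT.inv w] at hw1
        rw [← hC.equ c hc.1 w] at hw2
        rw [Cube.act_dim] at hw3
        obtain ⟨x, hx⟩ := hy.2 w hw1 hw2 hw3
        refine ⟨actP τV x, ?_⟩
        show y.2 (actP τV⁻¹ (actP τV x)) ((w.act τJ).act τJ⁻¹)
        rw [hV1, hJ1]
        exact hx)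
  refine ⟨fun c => (α c).1, fun c => (α c).2, fun c hc hcd => h1 c ⟨hc, hcd⟩, ?_, ?_⟩
  · intro c hc hcd v
    show (α (c.act τV)).1 (actP τV v) = _
    rw [h2 c ⟨hc, hcd⟩]
    show actP τJ ((α c).1 (actP τV⁻¹ (actP τV v))) = _
    rw [hV1]
  · intro c hc hcd x κ
    show (α (c.act τV)).2 (actP τV x) (κ.act τJ) ↔ _
    rw [h2 c ⟨hc, hcd⟩]
    show (α c).2 (actP τV⁻¹ (actP τV x)) ((κ.act τJ).act τJ⁻¹) ↔ _
    rw [hV1, hJ1]

/-! ### gluing -/

theorem glue {N : ℕ} {n : ℕ} (hn : 2 ≤ n) {K : Set (Cube V)} {τV : Equiv.Perm V}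
    {τJ : Equiv.Perm J} (hK : Src n N K τV) (hJ : τJ ^ N = 1)
    {C : Cube V → Set (Cube J)} (hC : Car K C τV τJ) {Ty : Set (Cube J)} (hT : TyOk n τJ Ty)
    {L : ℕ} {g : (V → ℤ) → (J → ℤ)} {p : Cube V → Cube J → (V → ℤ)}
    (hP : Prt n K C τV τJ Ty L g p)
    (hloc : ∀ c ∈ K, c.dim = n + 1 → ∃ h₀ : ℕ, ∀ h : ℕ, h₀ ≤ h →
      ∃ (g' : (V → ℤ) → (J → ℤ)) (R : (V → ℤ) → Cube J → Prop),
        Loc n c L h (C c) g (BP n K C Ty p c) g' R ∧
        ∀ w ∈ Ty, w ∈ C c → w.dim = n + 2 → ∃ x, R x w) :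
    ∃ (h : ℕ) (f : (V → ℤ) → (J → ℤ)) (R : (V → ℤ) → Cube J → Prop),
      0 < h ∧ Wst n K C τV τJ (2 * h * L) f R ∧
      (∀ c ∈ K, c.dim = n + 1 → ∀ w ∈ Ty, w ∈ C c → w.dim = n + 2 →
        ∃ x, InB (2 * h * L) c x ∧ R x w) ∧
      (∀ e ∈ K, e.dim = n → ∀ κ ∈ Ty, κ ∈ C e → ∃ x, InB (2 * h * L) e x ∧ R x κ) ∧
      (∀ Q ∈ Grd (2 * h * L) K, Q.dim = n + 1 →
        (∀ v, Q.Has v → f v = g (flo (2 * h) h v)) ∨
        ((∃ S : Cube J, S.dim ≤ n ∧ ∀ v, Q.Has v → S.Has (f v)) ∧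
          ∃ S : Cube J, S.dim ≤ n ∧ ∀ v, Q.Has v → S.Has (g (flo (2 * h) h v)))) := by
  classical
  -- the scale
  obtain ⟨h, hh2, hloc'⟩ : ∃ h : ℕ, 2 ≤ h ∧ ∀ c ∈ K, c.dim = n + 1 →
      ∃ (g' : (V → ℤ) → (J → ℤ)) (R : (V → ℤ) → Cube J → Prop),
        Loc n c L h (C c) g (BP n K C Ty p c) g' R ∧
        ∀ w ∈ Ty, w ∈ C c → w.dim = n + 2 → ∃ x, R x w := by
    choose! h₀ hh₀ using hloc
    refine ⟨max 2 (hK.fin.toFinset.sup h₀), le_max_left _ _, fun c hc hcd => hh₀ c hc hcd _ ?_⟩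
    exact le_trans (Finset.le_sup (f := h₀) (hK.fin.mem_toFinset.2 hc)) (le_max_right _ _)
  have hh : 0 < h := by omega
  have hL := hP.hL
  have hM : 0 < 2 * h * L := by positivity
  obtain ⟨gc, Rc, hlc, hge, hRe⟩ := GLU_choice hK hJ hC hT hP hloc'
  -- geometry of cells of `K`
  have huniq : ∀ c ∈ K, c.dim = n + 1 → ∀ d, n + 1 ≤ d.dim → ∀ x, InI (2 * h * L) d x →
      InB (2 * h * L) c x → d = c := fun c _ hcd d hdd x h1 h2 =>
    GLU_eq_of_le (GLU_le hM h1 h2) (by omega)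
  have hnotI : ∀ e : Cube V, e.dim ≤ n → ∀ d : Cube V, d.dim = n + 1 → ∀ x, InB (2 * h * L) e x →
      ¬ InI (2 * h * L) d x := fun e hed d hdd x h1 h2 => by
    have := Cube.le_dim (GLU_le hM h2 h1)
    omega
  -- the map
  obtain ⟨f, hf1, hf2⟩ : ∃ f : (V → ℤ) → (J → ℤ),
      (∀ c ∈ K, c.dim = n + 1 → ∀ v, InB (2 * h * L) c v → f v = gc c v) ∧
      (∀ v, (∀ c ∈ K, c.dim = n + 1 → ¬ InI (2 * h * L) c v) → f v = g (flo (2 * h) h v)) := by
    refine ⟨fun v => if hv : ∃ c ∈ K, c.dim = n + 1 ∧ InI (2 * h * L) c v then gc hv.choose v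
      else g (flo (2 * h) h v), ?_, ?_⟩
    · intro c hc hcd v hcv
      by_cases hv : ∃ c ∈ K, c.dim = n + 1 ∧ InI (2 * h * L) c v
      · show (if hv : ∃ c ∈ K, c.dim = n + 1 ∧ InI (2 * h * L) c v then gc hv.choose v
          else g (flo (2 * h) h v)) = _
        rw [dif_pos hv]
        have h1 := hv.choose_spec
        rw [huniq c hc hcd _ h1.2.1.ge v h1.2.2 hcv]
      · show (if hv : ∃ c ∈ K, c.dim = n + 1 ∧ InI (2 * h * L) c v then gc hv.choose v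
          else g (flo (2 * h) h v)) = _
        rw [dif_neg hv, (hlc c hc hcd).1.bdy v hcv (fun h1 => hv ⟨c, hc, hcd, h1⟩)]
    · intro v hv
      exact dif_neg (fun ⟨c, hc, hcd, h1⟩ => hv c hc hcd h1)
  have hf3 : ∀ e : Cube V, e.dim ≤ n → ∀ v, InB (2 * h * L) e v → f v = g (flo (2 * h) h v) :=
    fun e hed v hv => hf2 v (fun c _ hcd => hnotI e hed c hcd v hv)
  -- the core relation
  obtain ⟨R, hR⟩ : ∃ R : (V → ℤ) → Cube J → Prop, ∀ x κ, R x κ ↔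
      ((∃ c ∈ K, c.dim = n + 1 ∧ InB (2 * h * L) c x ∧ Rc c x κ) ∨
        ∃ e ∈ K, e.dim = n ∧ κ ∈ Ty ∧ κ ∈ C e ∧ x = mul (2 * h) (p e κ)) :=
    ⟨fun x κ => (∃ c ∈ K, c.dim = n + 1 ∧ InB (2 * h * L) c x ∧ Rc c x κ) ∨
        ∃ e ∈ K, e.dim = n ∧ κ ∈ Ty ∧ κ ∈ C e ∧ x = mul (2 * h) (p e κ), fun _ _ => Iff.rfl⟩
  have hpI : ∀ e ∈ K, e.dim = n → ∀ κ ∈ Ty, κ ∈ C e →
      InI (2 * h * L) e (mul (2 * h) (p e κ)) := fun e he hed κ h1 h2 =>
    GLU_ini_mul hh (hP.pin e he hed.ge κ h1 h2)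
  -- `R` on the box of an `(n+1)`-cell
  have hRc : ∀ c ∈ K, c.dim = n + 1 → ∀ x, InB (2 * h * L) c x → ∀ κ, R x κ ↔ Rc c x κ := by
    intro c hc hcd x hx κ
    refine ⟨fun h1 => ?_, fun h1 => (hR x κ).2 (Or.inl ⟨c, hc, hcd, hx, h1⟩)⟩
    have key : ∀ e ∈ K, e.dim = n → κ ∈ Ty → κ ∈ C e → x = mul (2 * h) (p e κ) → Rc c x κ := by
      intro e he hed h2 h3 h4
      have h5 := hpI e he hed κ h2 h3
      rw [← h4] at h5
      have h6 : e.Le c := GLU_le hM h5 hx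
      have h7 : ¬ InI (2 * h * L) c x := hnotI e hed.le c hcd x (inb_of_ini h5)
      exact ((hlc c hc hcd).1.bnd x κ hx h7).2 ⟨p e κ, ⟨e, he, hed, h6, h2, h3, rfl⟩, h4⟩
    rcases (hR x κ).1 h1 with ⟨c', hc', hcd', hx', h2⟩ | ⟨e, he, hed, h2, h3, h4⟩
    · by_cases h3 : InI (2 * h * L) c' x
      · rw [huniq c hc hcd c' hcd'.ge x h3 hx] at h2
        exact h2
      · obtain ⟨q, ⟨e, he, hed, -, h4, h5, rfl⟩, h6⟩ := ((hlc c' hc' hcd').1.bnd x κ hx' h3).1 h2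
        exact key e he hed h4 h5 h6
    · exact key e he hed h2 h3 h4
  -- `R` on the box of a cell of dimension at most `n`
  have hRe' : ∀ e ∈ K, e.dim ≤ n → ∀ x, InB (2 * h * L) e x → ∀ κ, R x κ →
      e.dim = n ∧ κ ∈ Ty ∧ κ ∈ C e ∧ x = mul (2 * h) (p e κ) := by
    intro e he hed x hx κ h1
    have key : ∀ e' ∈ K, e'.dim = n → κ ∈ Ty → κ ∈ C e' → x = mul (2 * h) (p e' κ) →
        e.dim = n ∧ κ ∈ Ty ∧ κ ∈ C e ∧ x = mul (2 * h) (p e κ) := by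
      intro e' he' hed' h2 h3 h4
      have h5 := hpI e' he' hed' κ h2 h3
      rw [← h4] at h5
      have h6 : e' = e := GLU_eq_of_le (GLU_le hM h5 hx) (by omega)
      subst h6
      exact ⟨hed', h2, h3, h4⟩
    rcases (hR x κ).1 h1 with ⟨c', hc', hcd', hx', h2⟩ | ⟨e', he', hed', h2, h3, h4⟩
    · obtain ⟨q, ⟨e', he', hed', -, h4, h5, rfl⟩, h6⟩ :=
        ((hlc c' hc' hcd').1.bnd x κ hx' (hnotI e hed c' hcd' x hx)).1 h2
      exact key e' he' hed' h4 h5 h6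
    · exact key e' he' hed' h2 h3 h4
  -- the coarse map on cubes
  have hcoarse : ∀ c ∈ K, ∀ Q : Cube V, Q.InM (2 * h * L) c →
      ∃ S ∈ C c, S.dim ≤ n + 1 ∧ ∀ v, Q.Has v → S.Has (g (flo (2 * h) h v)) := by
    intro c hc Q hQ
    obtain ⟨S, h1, h2, h3⟩ := hP.cel c hc _ (GLU_flr hh hL hQ)
    refine ⟨S, h1, ?_, fun v hv => h3 _ (flo_has (2 * h) h (by omega) Q v hv)⟩
    have h4 := flrQ_dim (2 * h) (h : ℤ) Q
    have h5 := GLU_inM_dim hM hQ
    have h6 := hK.dim c hc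
    omega
  have hdim : ∀ c ∈ K, c.dim = n + 1 ∨ c.dim ≤ n := fun c hc => by
    have := hK.dim c hc
    omega
  have hport : ∀ c ∈ K, c.dim ≤ n → ∀ x κ, R x κ → InB (2 * h * L) c x → ∀ v, Cls 1 v x →
      flo (2 * h) h v = p c κ := by
    intro c hc hcd x κ h1 h2 v hv
    obtain ⟨-, -, -, h3⟩ := hRe' c hc hcd x h2 κ h1
    rw [h3] at hv
    exact GLU_flo_mul hh2 hv
  refine ⟨h, f, R, hh, ?_, ?_, ?_, ?_⟩
  · constructor
    · -- equ
      intro v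
      by_cases hv : ∃ c ∈ K, c.dim = n + 1 ∧ InI (2 * h * L) c v
      · obtain ⟨c, hc, hcd, h1⟩ := hv
        rw [hf1 c hc hcd v (inb_of_ini h1), hf1 (c.act τV) ((hK.inv c).1 hc) (by rw [Cube.act_dim]; exact hcd) _
          ((GLU_inb_act τV).2 (inb_of_ini h1)), hge c hc hcd]
      · rw [hf2 v (fun c hc hcd h1 => hv ⟨c, hc, hcd, h1⟩), hf2 (actP τV v) (fun c hc hcd h1 => ?_)]
        · have h1 : flo (2 * h) (h : ℤ) (actP τV v) = actP τV (flo (2 * h) (h : ℤ) v) :=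
            flr_equi (2 * h) h τV v
          rw [h1, hP.equ]
        · obtain ⟨c, rfl⟩ := GLU_act_symm τV c
          rw [← hK.inv c] at hc
          rw [Cube.act_dim] at hcd
          rw [GLU_ini_act] at h1
          exact hv ⟨c, hc, hcd, h1⟩
    · -- vmp
      intro c hc Q hQ
      rcases hdim c hc with hcd | hcd
      · rcases (hlc c hc hcd).1.cub Q hQ with h1 | ⟨⟨S, hS1, hS2, hS3⟩, -⟩
        · obtain ⟨S, hS1, hS2, hS3⟩ := hcoarse c hc Q hQ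
          refine ⟨S, hS1, hS2, fun v hv => ?_⟩
          rw [hf1 c hc hcd v (inb_of_has hQ hv), h1 v hv]
          exact hS3 v hv
        · refine ⟨S, hS1, by omega, fun v hv => ?_⟩
          rw [hf1 c hc hcd v (inb_of_has hQ hv)]
          exact hS3 v hv
      · obtain ⟨S, hS1, hS2, hS3⟩ := hcoarse c hc Q hQ
        refine ⟨S, hS1, hS2, fun v hv => ?_⟩
        rw [hf3 c hcd v (inb_of_has hQ hv)]
        exact hS3 v hv
    · -- req
      intro x κ h1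
      rcases (hR x κ).1 h1 with ⟨c, hc, hcd, hx, h2⟩ | ⟨e, he, hed, h2, h3, rfl⟩
      · exact (hR _ _).2 (Or.inl ⟨c.act τV, (hK.inv c).1 hc, by rw [Cube.act_dim]; exact hcd,
          (GLU_inb_act τV).2 hx, (hRe c hc hcd x κ).2 h2⟩)
      · refine (hR _ _).2 (Or.inr ⟨e.act τV, (hK.inv e).1 he, by rw [Cube.act_dim]; exact hed,
          (hT.inv κ).1 h2, (hC.equ e he κ).1 h3, ?_⟩)
        rw [hP.peq e he hed.ge κ h2 h3, GLU_mul_act]
    · -- rin
      intro x κ h1 c hc hx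
      rcases hdim c hc with hcd | hcd
      · exact ((hlc c hc hcd).1.box x κ ((hRc c hc hcd x hx κ).1 h1)).2.1
      · exact (hRe' c hc hcd x hx κ h1).2.2.1
    · -- rdm
      intro x κ h1
      rcases (hR x κ).1 h1 with ⟨c, hc, hcd, hx, h2⟩ | ⟨e, he, hed, h2, h3, h4⟩
      · exact ((hlc c hc hcd).1.box x κ h2).2.2
      · exact (hT.dim κ h2).2
    · -- has
      rintro Q ⟨c, hc, hQ⟩ x κ h1 hx v hv
      have hxc := inb_of_has hQ hx
      have hvc := inb_of_has hQ hv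
      rcases hdim c hc with hcd | hcd
      · rw [hf1 c hc hcd v hvc]
        exact (hlc c hc hcd).1.has x κ ((hRc c hc hcd x hxc κ).1 h1) Q hQ hx v hv
      · obtain ⟨h2, h3, h4, h5⟩ := hRe' c hc hcd x hxc κ h1
        rw [hf3 c hcd v hvc, hport c hc hcd x κ h1 hxc v (has_cls hv hx)]
        exact hP.phas c hc h2.ge κ h3 h4
    · -- nes
      rintro Q ⟨c, hc, hQ⟩ x κ x' κ' h1 h1' hx hx'
      have hxc := inb_of_has hQ hx
      have hxc' := inb_of_has hQ hx'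
      rcases hdim c hc with hcd | hcd
      · exact (hlc c hc hcd).1.nes x κ x' κ' ((hRc c hc hcd x hxc κ).1 h1)
          ((hRc c hc hcd x' hxc' κ').1 h1') (has_cls hx hx')
      · obtain ⟨h2, h3, h4, h5⟩ := hRe' c hc hcd x hxc κ h1
        obtain ⟨-, h3', h4', h5'⟩ := hRe' c hc hcd x' hxc' κ' h1'
        have h6 := hport c hc hcd x κ h1 hxc x (has_cls hx hx)
        have h7 := hport c hc hcd x' κ' h1' hxc' x (has_cls hx hx')
        have h8 : p c κ = p c κ' := h6.symm.trans h7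
        have h9 := (hP.psep c hc h2.ge κ h3 h4 c hc h2.ge κ' h3' h4' (by
          rw [h8]
          intro j
          simp
          omega)).2
        rw [h9]
        exact Or.inl (Cube.le_refl' _)
    · -- con
      intro c hc hcd σ hσ x κ x' κ' hx hx' h1 h1' h2 h2'
      refine cnn_mono ?_ ((hlc c hc hcd).1.con σ hσ x κ x' κ' ((hRc c hc hcd x hx κ).1 h1)
        ((hRc c hc hcd x' hx' κ').1 h1') h2 h2')
      rintro y ⟨hy1, κ, hy2, hy3⟩
      exact ⟨hy1, κ, (hRc c hc hcd y hy1 κ).2 hy2, hy3⟩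
    · -- ess
      rintro u ⟨c, hc, hu⟩ hud
      have hcd : c.dim = n + 1 := by
        have h1 := GLU_inM_dim hM hu
        have h2 := hK.dim c hc
        omega
      rcases (hlc c hc hcd).1.ess u hu hud with ⟨x, κ, h1, h2⟩ | ⟨S, h1, h2⟩
      · exact Or.inl ⟨x, κ, h1, (hRc c hc hcd x (inb_of_has hu h1) κ).2 h2⟩
      · refine Or.inr ⟨S, h1, fun v hv => ?_⟩
        rw [hf1 c hc hcd v (inb_of_has hu hv)]
        exact h2 v hv
  · intro c hc hcd w h1 h2 h3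
    obtain ⟨x, hx⟩ := (hlc c hc hcd).2 w h1 h2 h3
    have h4 := ((hlc c hc hcd).1.box x w hx).1
    exact ⟨x, h4, (hRc c hc hcd x h4 w).2 hx⟩
  · intro e he hed κ h1 h2
    exact ⟨mul (2 * h) (p e κ), inb_of_ini (hpI e he hed κ h1 h2),
      (hR _ _).2 (Or.inr ⟨e, he, hed, h1, h2, rfl⟩)⟩
  · rintro Q ⟨c, hc, hQ⟩ hQd
    have hcd : c.dim = n + 1 := by
      have h1 := GLU_inM_dim hM hQ
      have h2 := hK.dim c hc
      omega
    rcases (hlc c hc hcd).1.cub Q hQ with h1 | ⟨⟨S, hS1, hS2, hS3⟩, h2⟩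
    · left
      intro v hv
      rw [hf1 c hc hcd v (inb_of_has hQ hv), h1 v hv]
    · right
      refine ⟨⟨S, hS2, fun v hv => ?_⟩, h2⟩
      rw [hf1 c hc hcd v (inb_of_has hQ hv)]
      exact hS3 v hv

end AGE
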