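import Pool.Agent.AGE.Defs
import Pool.Agent.AGE.C1b
import Pool.Agent.AGE.C6a
import Pool.Agent.AGE.C6b

/-!
# AGE-PSH: comparison of pushes

If two vertex maps agree on the vertices of a cube `Q` then their pushes agree on `Q` (uniqueness of pushes on the faces of `Q`); if both map `Q` into
cubes of smaller dimension then both pushes vanish on `Q`.
-/

set_option autoImplicit false

noncomputable section

namespace AGE

variable {V J : Type} [LinearOrder V] [LinearOrder J]

theorem push_cmp (n : ℕ) (K : Set (Cube V)) (hK : Closed K) (f f' : (V → ℤ) → (J → ℤ))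
    (hf' : Cel K Set.univ f') (φ φ' : Ch V →ₗ[ℤ] Ch J) (h : Push K (Spn f) f φ)
    (h' : Push K (Spn f') f' φ') (Q : Cube V) (hQ : Q ∈ K) (hd : Q.dim = n + 1)
    (hc : (∀ v, Q.Has v → f v = f' v) ∨
      ((∃ S : Cube J, S.dim ≤ n ∧ ∀ v, Q.Has v → S.Has (f v)) ∧
        ∃ S : Cube J, S.dim ≤ n ∧ ∀ v, Q.Has v → S.Has (f' v))) :
    φ (one Q) = φ' (one Q) := by
  rcases hc with hc | ⟨⟨S, hS, hS2⟩, ⟨S', hS', hS2'⟩⟩
  · have hsub : ∀ c ∈ Faces Q, c ∈ K := fun c hcQ => hK Q hQ c hcQ
    have hspn : ∀ c ∈ Faces Q, Spn f c = Spn f' c := by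
      intro c hcQ
      have e : ∀ v, c.Has v → f v = f' v := fun v hv => hc v (Cube.has_of_le hcQ hv)
      ext P
      constructor
      · intro hP S hS
        exact hP S fun v hv => by
          rw [e v hv]
          exact hS v hv
      · intro hP S hS
        exact hP S fun v hv => by
          rw [← e v hv]
          exact hS v hv
    refine push_unique (Faces Q) (closed_faces Q) f' (fun c hcQ => hf' c (hsub c hcQ)) φ φ'
      ⟨fun v hv => ?_, fun c hcQ => ?_, fun c hcQ => h.chn c (hsub c hcQ)⟩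
      ⟨fun v hv => h'.vtx v (hsub _ hv), fun c hcQ => h'.car c (hsub c hcQ),
        fun c hcQ => h'.chn c (hsub c hcQ)⟩ Q (Cube.le_refl' Q)
    · rw [h.vtx v (hsub _ hv), hc v (Cube.pt_le.1 hv)]
    · rw [← hspn c hcQ]
      exact h.car c (hsub c hcQ)
  · rw [push_zero K f φ h Q hQ S hS2 (by omega), push_zero K f' φ' h' Q hQ S' hS2' (by omega)]

end AGE
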