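import Pool.Agent.AGE.WDefs
import Pool.Agent.AGE.C1b

/-!
# AGE-W1a: tube homotopies

The contraction `Γ` of the finite set of all `g y`, `β y` is run forwards on `g y` and then backwards on `β y`; the exponent is
`m r = min r (2 * A - r)` in depth `r`, cut at the distance `t` from the ends.
-/

set_option autoImplicit false

noncomputable section

namespace AGE

variable {V J : Type} [LinearOrder V] [LinearOrder J]

private theorem W1a_single {C : Set (Cube J)} {A : ℕ} {Γ : ℕ → (J → ℤ) → (J → ℤ)} {v : J → ℤ}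
    (hv : pt v ∈ C) (h0 : Γ 0 v = v)
    (h : ∀ a < A, ∃ Q ∈ C, Q.dim ≤ 1 ∧ Q.Has (Γ a v) ∧ Q.Has (Γ (a + 1) v)) (s : ℕ) :
    ∃ S ∈ C, S.dim ≤ 1 ∧ ∀ e, s ≤ e → e ≤ s + 1 → e ≤ A → S.Has (Γ e v) := by
  by_cases hs : s < A
  · obtain ⟨Q, hQ, hd, h1, h2⟩ := h s hs
    refine ⟨Q, hQ, hd, fun e he he' _ => ?_⟩
    rcases Nat.lt_or_ge e (s + 1) with h3 | h3
    · have h4 : e = s := by omega
      rw [h4]
      exact h1
    · have h4 : e = s + 1 := by omega
      rw [h4]
      exact h2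
  · by_cases hA : A = 0
    · refine ⟨pt v, hv, ?_, fun e _ _ he => ?_⟩
      · exact Nat.zero_le 1
      · have h4 : e = 0 := by omega
        rw [h4, h0]
        exact Cube.pt_le.1 (Cube.le_refl' _)
    · obtain ⟨Q, hQ, hd, h1, h2⟩ := h (A - 1) (by omega)
      refine ⟨Q, hQ, hd, fun e he _ he' => ?_⟩
      have h4 : e = A - 1 + 1 := by omega
      rw [h4]
      exact h2

private theorem W1a_pair {C : Set (Cube J)} {A : ℕ} {Γ : ℕ → (J → ℤ) → (J → ℤ)} {v v' : J → ℤ}
    (hv : ∃ Q ∈ C, Q.dim ≤ 1 ∧ Q.Has v ∧ Q.Has v') (h0 : Γ 0 v = v) (h0' : Γ 0 v' = v')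
    (h : ∀ a < A, ∃ Q ∈ C, Q.dim ≤ 2 ∧ Q.Has (Γ a v) ∧ Q.Has (Γ a v') ∧ Q.Has (Γ (a + 1) v) ∧
          Q.Has (Γ (a + 1) v')) (s : ℕ) :
    ∃ S ∈ C, S.dim ≤ 2 ∧ ∀ e, s ≤ e → e ≤ s + 1 → e ≤ A → S.Has (Γ e v) ∧ S.Has (Γ e v') := by
  by_cases hs : s < A
  · obtain ⟨Q, hQ, hd, h1, h2, h3, h4⟩ := h s hs
    refine ⟨Q, hQ, hd, fun e he he' _ => ?_⟩
    rcases Nat.lt_or_ge e (s + 1) with h5 | h5
    · have h6 : e = s := by omega
      rw [h6]
      exact ⟨h1, h2⟩
    · have h6 : e = s + 1 := by omega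
      rw [h6]
      exact ⟨h3, h4⟩
  · by_cases hA : A = 0
    · obtain ⟨Q, hQ, hd, h1, h2⟩ := hv
      refine ⟨Q, hQ, by omega, fun e _ _ he => ?_⟩
      have h4 : e = 0 := by omega
      rw [h4, h0, h0']
      exact ⟨h1, h2⟩
    · obtain ⟨Q, hQ, hd, h1, h2, h3, h4⟩ := h (A - 1) (by omega)
      refine ⟨Q, hQ, hd, fun e he _ he' => ?_⟩
      have h5 : e = A - 1 + 1 := by omega
      rw [h5]
      exact ⟨h3, h4⟩

theorem tube_hom (C : Set (Cube J)) (hR : CTR C) (g β : (V → ℤ) → (J → ℤ)) (Y : Set (V → ℤ))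
    (hY : Y.Finite) (hg : ∀ y ∈ Y, pt (g y) ∈ C) (hb : ∀ y ∈ Y, pt (β y) ∈ C) :
    ∃ (A : ℕ) (H : (V → ℤ) → ℕ → ℕ → (J → ℤ)), Hom C g β Y A H := by
  obtain ⟨A, Γ, c₀, s0, sA, s1, s2⟩ := hR (g '' Y ∪ β '' Y) ((hY.image g).union (hY.image β)) (by
    rintro v (⟨y, hy, rfl⟩ | ⟨y, hy, rfl⟩)
    · exact hg y hy
    · exact hb y hy)
  have mg : ∀ y ∈ Y, g y ∈ g '' Y ∪ β '' Y := fun y hy => Or.inl ⟨y, hy, rfl⟩
  have mb : ∀ y ∈ Y, β y ∈ g '' Y ∪ β '' Y := fun y hy => Or.inr ⟨y, hy, rfl⟩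
  refine ⟨A, fun y r t => if r ≤ A then Γ (min (min r (2 * A - r)) t) (g y)
    else Γ (min (min r (2 * A - r)) t) (β y), ?_⟩
  constructor
  · intro y hy t
    show (if 0 ≤ A then Γ (min (min 0 (2 * A - 0)) t) (g y)
      else Γ (min (min 0 (2 * A - 0)) t) (β y)) = g y
    rw [if_pos (Nat.zero_le A), show min (min 0 (2 * A - 0)) t = 0 by omega, s0 _ (mg y hy)]
  · intro y hy r t hr
    show (if r ≤ A then Γ (min (min r (2 * A - r)) t) (g y)
      else Γ (min (min r (2 * A - r)) t) (β y)) = β y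
    rw [show min (min r (2 * A - r)) t = 0 by omega]
    by_cases h : r ≤ A
    · rw [if_pos h]
      have hA : A = 0 := by omega
      have e1 := sA _ (mg y hy)
      have e2 := sA _ (mb y hy)
      rw [hA] at e1 e2
      rw [e1, ← e2, s0 _ (mb y hy)]
    · rw [if_neg h, s0 _ (mb y hy)]
  · intro y hy he r
    show (if r ≤ A then Γ (min (min r (2 * A - r)) 0) (g y)
      else Γ (min (min r (2 * A - r)) 0) (β y)) = g y
    rw [show min (min r (2 * A - r)) 0 = 0 by omega]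
    by_cases h : r ≤ A
    · rw [if_pos h, s0 _ (mg y hy)]
    · rw [if_neg h, s0 _ (mb y hy), he]
  · intro y hy he r t
    obtain ⟨S, hS, hd, hH⟩ := W1a_single (hg y hy) (s0 _ (mg y hy)) (s1 _ (mg y hy))
      (min (min (min r (2 * A - r)) (min (r + 1) (2 * A - (r + 1)))) t)
    refine ⟨S, hS, hd, fun r' t' h1 h2 h3 h4 => ?_⟩
    have h5 : (if r' ≤ A then Γ (min (min r' (2 * A - r')) t') (g y)
      else Γ (min (min r' (2 * A - r')) t') (β y)) = Γ (min (min r' (2 * A - r')) t') (g y) := by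
      rw [← he, ite_self]
    show S.Has (if r' ≤ A then Γ (min (min r' (2 * A - r')) t') (g y)
      else Γ (min (min r' (2 * A - r')) t') (β y))
    rw [h5]
    refine hH _ ?_ ?_ ?_
    · rcases Nat.lt_or_ge r' (r + 1) with h6 | h6
      · have h7 : r' = r := by omega
        subst h7
        omega
      · have h7 : r' = r + 1 := by omega
        subst h7
        omega
    · rcases Nat.lt_or_ge r' (r + 1) with h6 | h6
      · have h7 : r' = r := by omega
        subst h7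
        omega
      · have h7 : r' = r + 1 := by omega
        subst h7
        omega
    · omega
  · intro y hy y' hy' hgg hbb r t ht
    by_cases hr : r + 1 ≤ A
    · obtain ⟨S, hS, hd, hH⟩ := W1a_pair hgg (s0 _ (mg y hy)) (s0 _ (mg y' hy'))
        (s2 _ (mg y hy) _ (mg y' hy') hgg) r
      refine ⟨S, hS, hd, fun r' t' h1 h2 h3 h4 => ?_⟩
      have h5 : r' ≤ A := by omega
      show S.Has (if r' ≤ A then Γ (min (min r' (2 * A - r')) t') (g y)
          else Γ (min (min r' (2 * A - r')) t') (β y)) ∧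
        S.Has (if r' ≤ A then Γ (min (min r' (2 * A - r')) t') (g y')
          else Γ (min (min r' (2 * A - r')) t') (β y'))
      rw [if_pos h5, if_pos h5]
      exact hH _ (by omega) (by omega) (by omega)
    · obtain ⟨S, hS, hd, hH⟩ := W1a_pair hbb (s0 _ (mb y hy)) (s0 _ (mb y' hy'))
        (s2 _ (mb y hy) _ (mb y' hy') hbb) (2 * A - (r + 1))
      refine ⟨S, hS, hd, fun r' t' h1 h2 h3 h4 => ?_⟩
      have key : ∀ z ∈ Y, (if r' ≤ A then Γ (min (min r' (2 * A - r')) t') (g z)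
          else Γ (min (min r' (2 * A - r')) t') (β z)) = Γ (2 * A - r') (β z) := by
        intro z hz
        by_cases h5 : r' ≤ A
        · have h6 : r' = A := by omega
          rw [if_pos h5, show min (min r' (2 * A - r')) t' = A by omega, show 2 * A - r' = A by omega,
            sA _ (mg z hz), sA _ (mb z hz)]
        · rw [if_neg h5, show min (min r' (2 * A - r')) t' = 2 * A - r' by omega]
      show S.Has (if r' ≤ A then Γ (min (min r' (2 * A - r')) t') (g y)
          else Γ (min (min r' (2 * A - r')) t') (β y)) ∧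
        S.Has (if r' ≤ A then Γ (min (min r' (2 * A - r')) t') (g y')
          else Γ (min (min r' (2 * A - r')) t') (β y'))
      rw [key y hy, key y' hy']
      exact hH _ (by omega) (by omega) (by omega)

end AGE
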