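import Pool.Agent.AGE.WDefs
import Pool.Agent.AGE.C1b

/-!
# AGE-W1b: the middle path of a tube

The coordinates of `a.ty` are switched from `g a.A` to `g a.B` one after the other, according to
the distance (in the coordinates `c.fr`) from `a.A`. A unit step changes the distance by at most
one, hence at most one coordinate is switched.
-/

set_option autoImplicit false

noncomputable section

namespace AGE

variable {V J : Type} [LinearOrder V] [LinearOrder J]

omit [LinearOrder J] in
private theorem W1b_idx (s : Finset J) : ∃ e : J → ℕ, (∀ j ∈ s, e j < s.card) ∧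
    ∀ i ∈ s, ∀ j ∈ s, e i = e j → i = j := by
  classical
  refine ⟨fun j => if h : j ∈ s then (s.equivFin ⟨j, h⟩ : ℕ) else 0, ?_, ?_⟩
  · intro j hj
    simp only [hj, dif_pos]
    exact (s.equivFin ⟨j, hj⟩).isLt
  · intro i hi j hj h
    simp only [hi, hj, dif_pos] at h
    have h2 := s.equivFin.injective (Fin.val_injective h)
    exact congrArg Subtype.val h2

omit [LinearOrder V] in
/-- the distance changes by at most one in a unit step -/
private theorem W1b_dist (s : Finset V) (A y y' : V → ℤ) (h : Adj y y') :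
    |(∑ j ∈ s, |y j - A j|) - (∑ j ∈ s, |y' j - A j|)| ≤ 1 := by
  classical
  obtain ⟨i, hi, hi1⟩ := h
  rw [← Finset.sum_sub_distrib]
  refine (Finset.abs_sum_le_sum_abs _ _).trans ?_
  have h1 : ∀ j ∈ s, |(|y j - A j| - |y' j - A j|)| ≤ if j = i then 1 else 0 := by
    intro j _
    by_cases hj : j = i
    · subst hj
      rw [if_pos rfl]
      refine (abs_abs_sub_abs_le_abs_sub _ _).trans ?_
      rw [show y j - A j - (y' j - A j) = y j - y' j by ring]
      exact hi1
    · rw [if_neg hj, hi j hj, sub_self, abs_zero]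
  refine (Finset.sum_le_sum h1).trans ?_
  rw [Finset.sum_ite_eq']
  split_ifs <;> norm_num

theorem bet_exists {n : ℕ} {c : Cube V} {L : ℕ} {C : Set (Cube J)} {g : (V → ℤ) → (J → ℤ)}
    {a : Wire V J} (ha : WOk n c L C g a) : ∃ β : (V → ℤ) → (J → ℤ), Bet g a β := by
  classical
  obtain ⟨e, hlt, hinj⟩ := W1b_idx a.ty.fr
  have hA : a.ty.Has (g a.A) := by
    cases hep : a.ep
    · exact (ha.st0 hep).2.2.2
    · refine (ha.st1 hep).2.2 a.A fun j => ⟨le_rfl, ?_⟩
      split_ifs <;> omega
  have hB : a.ty.Has (g a.B) := Cube.has_of_le ha.le ha.hB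
  have hhi1 : ∀ j ∈ a.ty.fr, a.ty.hi j = a.ty.lo j + 1 := fun j hj => by
    unfold Cube.hi
    rw [if_pos hj]
  have hhi0 : ∀ j, j ∉ a.ty.fr → a.ty.hi j = a.ty.lo j := fun j hj => by
    unfold Cube.hi
    rw [if_neg hj]
  set K : (V → ℤ) → ℤ := fun y => ∑ j ∈ c.fr, |y j - a.A j| with hK
  set β : (V → ℤ) → (J → ℤ) := fun y j =>
    if j ∈ a.ty.fr ∧ (e j : ℤ) < K y then g a.B j else g a.A j with hβ
  have hval : ∀ y j, β y j = if j ∈ a.ty.fr ∧ (e j : ℤ) < K y then g a.B j else g a.A j :=
    fun y j => rfl
  have hT : ∀ y, a.ty.Has (β y) := by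
    intro y j
    rw [hval]
    split_ifs
    · exact hB j
    · exact hA j
  refine ⟨β, hT, ?_, ?_, ?_⟩
  · funext j
    have h0 : K a.A = 0 := by
      simp [hK]
    rw [hval, h0, if_neg]
    rintro ⟨-, h⟩
    omega
  · funext j
    have h1 : (n : ℤ) + 2 ≤ K a.B := by
      have h2 := ha.far
      have h3 : K a.B = ∑ j ∈ c.fr, |a.A j - a.B j| :=
        Finset.sum_congr rfl fun j _ => abs_sub_comm _ _
      rw [h3]
      exact h2
    rw [hval]
    split_ifs with hj
    · rfl
    · by_cases hf : j ∈ a.ty.fr
      · exfalso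
        refine hj ⟨hf, ?_⟩
        have h4 := hlt j hf
        have h5 : a.ty.fr.card ≤ n + 2 := ha.tyd
        omega
      · have h6 := hA j
        have h7 := hB j
        have h8 := hhi0 j hf
        omega
  · intro y y' hyy
    have hd := W1b_dist c.fr a.A y y' hyy
    have hd' : |K y - K y'| ≤ 1 := hd
    rw [abs_le] at hd'
    have hne : ∀ j, β y j ≠ β y' j → j ∈ a.ty.fr ∧ (e j : ℤ) = min (K y) (K y') := by
      intro j hj
      rw [hval, hval] at hj
      by_cases hf : j ∈ a.ty.fr
      · refine ⟨hf, ?_⟩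
        by_cases h1 : (e j : ℤ) < K y
        · by_cases h2 : (e j : ℤ) < K y'
          · rw [if_pos ⟨hf, h1⟩, if_pos ⟨hf, h2⟩] at hj
            exact absurd rfl hj
          · omega
        · by_cases h2 : (e j : ℤ) < K y'
          · omega
          · rw [if_neg (fun h => h1 h.2), if_neg (fun h => h2 h.2)] at hj
            exact absurd rfl hj
      · rw [if_neg (fun h => hf h.1), if_neg (fun h => hf h.1)] at hj
        exact absurd rfl hj
    set S : Cube J := ⟨fun j => min (β y j) (β y' j), a.ty.fr.filter (fun j => β y j ≠ β y' j)⟩ with hS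
    have hlo : ∀ j, S.lo j = min (β y j) (β y' j) := fun j => rfl
    have hhi : ∀ j, S.hi j = max (β y j) (β y' j) := by
      intro j
      have h1 : S.hi j = if j ∈ S.fr then S.lo j + 1 else S.lo j := rfl
      rw [h1, hlo]
      have h2 := hT y j
      have h3 := hT y' j
      by_cases hj : β y j = β y' j
      · have h4 : j ∉ S.fr := fun h => (Finset.mem_filter.mp h).2 hj
        rw [if_neg h4]
        omega
      · have h4 := (hne j hj).1
        have h5 : j ∈ S.fr := Finset.mem_filter.mpr ⟨h4, hj⟩
        have h6 := hhi1 j h4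
        rw [if_pos h5]
        omega
    refine ⟨S, ?_, ?_, ?_, ?_⟩
    · intro j
      have h2 := hT y j
      have h3 := hT y' j
      rw [hlo, hhi]
      omega
    · show S.fr.card ≤ 1
      rw [Finset.card_le_one]
      intro i hi j hj
      have h1 := hne i (Finset.mem_filter.mp hi).2
      have h2 := hne j (Finset.mem_filter.mp hj).2
      exact hinj i h1.1 j h2.1 (by omega)
    · intro j
      rw [hlo, hhi]
      omega
    · intro j
      rw [hlo, hhi]
      omega

end AGE
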