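import Pool.Agent.AGE.WDefs
import Pool.Agent.AGE.W2
import Pool.Agent.AGE.W3

/-!
# AGE-W4a: geometry of the wires, part 1: boxes and blocks

Plan. Everything is coordinatewise (`M = 2 h`). A point `x` of `Mn` has a pivot `i ∈ c.fr` with `x j = M A j + d` or `M B j + d` for `j ∈ c.fr`, `j ≠ i`, and `x i` between `M A i + d` and `M B i + d`;
off `c.fr` `x j = M A j = M L lo j`. `D ≤ d a`, `d a + D ≤ h`, `0 < D`; `L lo j ≤ A j`, `A j + 1 ≤ L hi j`, the same for `B`. `mn_flo`: take the pivot `i`; for `j ≠ i` the coordinate `v j` lies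
in `[M y + d - s, M y + d + s]` with `y = A j` or `B j` and `s < D`, so `flo v j = y` (`flo_eq`); for `i` the block is between `A i` and `B i`. `mn_ramp_A`: if the pivot has rank smaller than `i1`, `A = B` up to the
pivot so `x = qA`; if it is `i1` the other coordinates are those of `qA`; if larger then `x i1 = qB i1`, at distance at least `2 h` from `qA i1`.
-/

set_option autoImplicit false

noncomputable section

namespace AGE

variable {V J : Type} [LinearOrder V] [LinearOrder J]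

private theorem W4a_qA_in {c : Cube V} {h : ℕ} {d : ℤ} {a : Wire V J} {j : V} (hj : j ∈ c.fr) :
    qA c h d a j = 2 * (h : ℤ) * a.A j + d := by
  unfold qA shf mul
  rw [if_pos hj]
  push_cast
  ring

private theorem W4a_qA_out {c : Cube V} {h : ℕ} {d : ℤ} {a : Wire V J} {j : V} (hj : j ∉ c.fr) :
    qA c h d a j = 2 * (h : ℤ) * a.A j := by
  unfold qA shf mul
  rw [if_neg hj]
  push_cast
  ring

private theorem W4a_qB_in {c : Cube V} {h : ℕ} {d : ℤ} {a : Wire V J} {j : V} (hj : j ∈ c.fr) :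
    qB c h d a j = 2 * (h : ℤ) * a.B j + d := by
  unfold qB shf mul
  rw [if_pos hj]
  push_cast
  ring

private theorem W4a_qB_out {c : Cube V} {h : ℕ} {d : ℤ} {a : Wire V J} {j : V} (hj : j ∉ c.fr) :
    qB c h d a j = 2 * (h : ℤ) * a.B j := by
  unfold qB shf mul
  rw [if_neg hj]
  push_cast
  ring

private theorem W4a_tri {fr : Finset V} {i j : V} (hi : i ∈ fr) (hj : j ∈ fr) (h : j ≠ i) :
    rkw fr j < rkw fr i ∨ rkw fr i < rkw fr j := by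
  rcases lt_trichotomy (rkw fr j) (rkw fr i) with h1 | h1 | h1
  · exact Or.inl h1
  · exact absurd (rkw_inj fr (Finset.mem_coe.2 hj) (Finset.mem_coe.2 hi) h1) h
  · exact Or.inr h1

private theorem W4a_piv {c : Cube V} {h : ℕ} {d : ℤ} {a : Wire V J} {x : V → ℤ} (hx : x ∈ Mn c h d a) :
    (∀ j, j ∉ c.fr → x j = 2 * (h : ℤ) * a.A j) ∧ ∃ i ∈ c.fr,
      (∀ j ∈ c.fr, rkw c.fr j < rkw c.fr i → x j = 2 * (h : ℤ) * a.B j + d) ∧
      (∀ j ∈ c.fr, rkw c.fr i < rkw c.fr j → x j = 2 * (h : ℤ) * a.A j + d) ∧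
      ((2 * (h : ℤ) * a.A i + d ≤ x i ∧ x i ≤ 2 * (h : ℤ) * a.B i + d) ∨
        (2 * (h : ℤ) * a.B i + d ≤ x i ∧ x i ≤ 2 * (h : ℤ) * a.A i + d)) := by
  obtain ⟨h1, i, hi, h2, h3, h4, h5⟩ := hx
  refine ⟨fun j hj => ?_, i, hi, fun j hj hr => ?_, fun j hj hr => ?_, ?_⟩
  · rw [h1 j hj, W4a_qA_out hj]
  · rw [h2 j hj hr, W4a_qB_in hj]
  · rw [h3 j hj hr, W4a_qA_in hj]
  · rw [W4a_qA_in hi, W4a_qB_in hi] at h4 h5
    rcases le_total (2 * (h : ℤ) * a.A i + d) (2 * (h : ℤ) * a.B i + d) with h6 | h6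
    · rw [min_eq_left h6] at h4
      rw [max_eq_right h6] at h5
      exact Or.inl ⟨h4, h5⟩
    · rw [min_eq_right h6] at h4
      rw [max_eq_left h6] at h5
      exact Or.inr ⟨h4, h5⟩

/-- the basic inequalities of a coordinate -/
private theorem W4a_blk {H L lo hi D d α : ℤ} (hH : 0 ≤ H) (hdl : D ≤ d) (hdu : d + D ≤ H)
    (h1 : L * lo ≤ α) (h2 : α + 1 ≤ L * hi) :
    2 * H * L * lo + D ≤ 2 * H * α + d ∧ 2 * H * α + d + D ≤ 2 * H * L * hi := by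
  have h3 : 2 * H * (L * lo) ≤ 2 * H * α := mul_le_mul_of_nonneg_left h1 (by linarith)
  have h4 : 2 * H * (α + 1) ≤ 2 * H * (L * hi) := mul_le_mul_of_nonneg_left h2 (by linarith)
  have h5 : 2 * H * (L * lo) = 2 * H * L * lo := by ring
  have h6 : 2 * H * (L * hi) = 2 * H * L * hi := by ring
  have h7 : 2 * H * (α + 1) = 2 * H * α + 2 * H := by ring
  constructor <;> linarith

/-- the block of a coordinate near a node -/
private theorem W4a_flo {h : ℕ} (hh : 0 < h) {v : V → ℤ} {j : V} {y d D s : ℤ} (h1 : |v j - (2 * (h : ℤ) * y + d)| ≤ s)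
    (hs : s < D) (hdl : D ≤ d) (hdu : d + D ≤ h) : flo (2 * h) h v j = y := by
  have h2 := abs_le.1 h1
  have h3 : (0 : ℤ) < h := by exact_mod_cast hh
  have h4 := abs_nonneg (v j - (2 * (h : ℤ) * y + d))
  exact flo_eq hh (by linarith [h2.1]) (by linarith [h2.2])

private theorem W4a_hi {c : Cube V} {j : V} (hj : j ∉ c.fr) : c.hi j = c.lo j := if_neg hj

/-- coordinates which are not free -/
private theorem W4a_out {h L : ℕ} {c : Cube V} {v : V → ℤ} (hv : InB (2 * h * L) c v) {j : V} (hj : j ∉ c.fr) :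
    v j = 2 * (h : ℤ) * ((L : ℤ) * c.lo j) := by
  have h1 := hv j
  rw [W4a_hi hj] at h1
  push_cast at h1
  have h2 : 2 * (h : ℤ) * ((L : ℤ) * c.lo j) = 2 * (h : ℤ) * L * c.lo j := by ring
  rw [h2]
  exact le_antisymm h1.2 h1.1

private theorem W4a_flo_out {h L : ℕ} (hh : 0 < h) {c : Cube V} {v : V → ℤ} (hv : InB (2 * h * L) c v) {j : V}
    (hj : j ∉ c.fr) : flo (2 * h) h v j = (L : ℤ) * c.lo j := by
  have h1 := W4a_out hv hj
  have h3 : (0 : ℤ) < h := by exact_mod_cast hh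
  exact flo_eq hh (by linarith) (by linarith)

/-- the parameters of one wire -/
private structure W4a_P (c : Cube V) (L h : ℕ) (D d : ℤ) (a : Wire V J) : Prop where
  D0 : 0 < D
  h0 : 0 < h
  dl : D ≤ d
  du : d + D ≤ h
  hD : 2 * D ≤ h
  A1 : ∀ j ∈ c.fr, (L : ℤ) * c.lo j ≤ a.A j ∧ a.A j + 1 ≤ (L : ℤ) * c.hi j
  A0 : ∀ j, j ∉ c.fr → a.A j = (L : ℤ) * c.lo j
  B1 : ∀ j ∈ c.fr, (L : ℤ) * c.lo j ≤ a.B j ∧ a.B j + 1 ≤ (L : ℤ) * c.hi j
  B0 : ∀ j, j ∉ c.fr → a.B j = (L : ℤ) * c.lo j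
  m1 : a.i1 ∈ c.fr
  m2 : a.i2 ∈ c.fr
  n1 : a.A a.i1 ≠ a.B a.i1
  n2 : a.A a.i2 ≠ a.B a.i2
  s1 : ∀ j ∈ c.fr, rkw c.fr j < rkw c.fr a.i1 → a.A j = a.B j
  s2 : ∀ j ∈ c.fr, rkw c.fr a.i2 < rkw c.fr j → a.A j = a.B j

private theorem W4a_par {n : ℕ} {c : Cube V} {L h : ℕ} {C : Set (Cube J)} {g : (V → ℤ) → (J → ℤ)}
    {W : Finset (Wire V J)} {p : Cube J → (V → ℤ)} {ρ : ℕ} {D : ℤ} {d : Wire V J → ℤ}
    {A : Wire V J → ℕ} {β : Wire V J → (V → ℤ) → (J → ℤ)}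
    {H : Wire V J → (V → ℤ) → ℕ → ℕ → (J → ℤ)}
    (hp : LPar n c L h C g W p ρ D d A β H) {a : Wire V J} (ha : a ∈ W) : W4a_P c L h D (d a) a := by
  have hok := hp.ws.ok a ha
  have h1 := hp.rD
  have h2 := hp.hh
  have h3 : (0 : ℤ) ≤ ρ := Nat.cast_nonneg ρ
  refine ⟨by linarith, ?_, hp.dl a ha, hp.du a ha, h2, fun j hj => ?_, fun j hj => (hok.inA j).2 hj, fun j hj => ?_,
    fun j hj => hok.inB.2 j hj, hok.m1, hok.m2, hok.n1, hok.n2, hok.s1, hok.s2⟩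
  · have h4 : (0 : ℤ) < h := by linarith
    exact_mod_cast h4
  · have h4 := (hok.inA j).1 hj
    exact ⟨h4.1, h4.2⟩
  · have h4 := hok.inB.1 j hj
    exact ⟨h4.1.le, h4.2⟩

private theorem W4a_box {c : Cube V} {L h : ℕ} {D d : ℤ} {a : Wire V J} (P : W4a_P c L h D d a) {x : V → ℤ}
    (hx : x ∈ Mn c h d a) :
    (∀ j ∈ c.fr, ((2 * h * L : ℕ) : ℤ) * c.lo j + D ≤ x j ∧ x j + D ≤ ((2 * h * L : ℕ) : ℤ) * c.hi j) ∧
    (∀ j, j ∉ c.fr → x j = ((2 * h * L : ℕ) : ℤ) * c.lo j) := by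
  obtain ⟨h1, i, hi, h2, h3, h4⟩ := W4a_piv hx
  have hH : (0 : ℤ) ≤ h := Nat.cast_nonneg h
  push_cast
  constructor
  · intro j hj
    obtain ⟨a1, a2⟩ := W4a_blk hH P.dl P.du (P.A1 j hj).1 (P.A1 j hj).2
    obtain ⟨b1, b2⟩ := W4a_blk hH P.dl P.du (P.B1 j hj).1 (P.B1 j hj).2
    by_cases hji : j = i
    · subst hji
      rcases h4 with h4 | h4
      · constructor <;> linarith [h4.1, h4.2]
      · constructor <;> linarith [h4.1, h4.2]
    · rcases W4a_tri hi hj hji with h5 | h5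
      · rw [h2 j hj h5]
        exact ⟨b1, b2⟩
      · rw [h3 j hj h5]
        exact ⟨a1, a2⟩
  · intro j hj
    rw [h1 j hj, P.A0 j hj]
    ring

private theorem W4a_inb {c : Cube V} {L h : ℕ} {D d : ℤ} {a : Wire V J} (P : W4a_P c L h D d a) {x : V → ℤ}
    (hx : x ∈ Mn c h d a) : InB (2 * h * L) c x := by
  obtain ⟨h1, h2⟩ := W4a_box P hx
  have hD := P.D0
  intro j
  by_cases hj : j ∈ c.fr
  · have h3 := h1 j hj
    constructor <;> linarith [h3.1, h3.2]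
  · rw [W4a_hi hj, h2 j hj]
    exact ⟨le_rfl, le_rfl⟩

theorem mn_box {n : ℕ} {c : Cube V} {L h : ℕ} {C : Set (Cube J)} {g : (V → ℤ) → (J → ℤ)}
    {W : Finset (Wire V J)} {p : Cube J → (V → ℤ)} {ρ : ℕ} {D : ℤ} {d : Wire V J → ℤ}
    {A : Wire V J → ℕ} {β : Wire V J → (V → ℤ) → (J → ℤ)}
    {H : Wire V J → (V → ℤ) → ℕ → ℕ → (J → ℤ)}
    (hp : LPar n c L h C g W p ρ D d A β H) (a : Wire V J) (ha : a ∈ W)
    (x : V → ℤ) (hx : x ∈ Mn c h (d a) a) :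
    (∀ j ∈ c.fr, ((2 * h * L : ℕ) : ℤ) * c.lo j + D ≤ x j ∧
      x j + D ≤ ((2 * h * L : ℕ) : ℤ) * c.hi j) ∧
    (∀ j, j ∉ c.fr → x j = ((2 * h * L : ℕ) : ℤ) * c.lo j) :=
  W4a_box (W4a_par hp ha) hx

theorem mn_inb {n : ℕ} {c : Cube V} {L h : ℕ} {C : Set (Cube J)} {g : (V → ℤ) → (J → ℤ)}
    {W : Finset (Wire V J)} {p : Cube J → (V → ℤ)} {ρ : ℕ} {D : ℤ} {d : Wire V J → ℤ}
    {A : Wire V J → ℕ} {β : Wire V J → (V → ℤ) → (J → ℤ)}
    {H : Wire V J → (V → ℤ) → ℕ → ℕ → (J → ℤ)}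
    (hp : LPar n c L h C g W p ρ D d A β H) (a : Wire V J) (ha : a ∈ W)
    (x : V → ℤ) (hx : x ∈ Mn c h (d a) a) : InB (2 * h * L) c x :=
  W4a_inb (W4a_par hp ha) hx

theorem mn_ex {n : ℕ} {c : Cube V} {L h : ℕ} {C : Set (Cube J)} {g : (V → ℤ) → (J → ℤ)}
    {W : Finset (Wire V J)} {p : Cube J → (V → ℤ)} {ρ : ℕ} {D : ℤ} {d : Wire V J → ℤ}
    {A : Wire V J → ℕ} {β : Wire V J → (V → ℤ) → (J → ℤ)}
    {H : Wire V J → (V → ℤ) → ℕ → ℕ → (J → ℤ)}
    (hp : LPar n c L h C g W p ρ D d A β H) (a : Wire V J) (ha : a ∈ W)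
    (v : V → ℤ) (hv : InB (2 * h * L) c v) : ∃ r, ∃ x ∈ Mn c h (d a) a, Cls r v x := by
  have P := W4a_par hp ha
  have h1 : qA c h (d a) a ∈ Mn c h (d a) a := stc_left _ _ _ _ ⟨a.i1, P.m1⟩
  exact ⟨_, _, h1, inb_cls hv (W4a_inb P h1)⟩

theorem mn_flo {n : ℕ} {c : Cube V} {L h : ℕ} {C : Set (Cube J)} {g : (V → ℤ) → (J → ℤ)}
    {W : Finset (Wire V J)} {p : Cube J → (V → ℤ)} {ρ : ℕ} {D : ℤ} {d : Wire V J → ℤ}
    {A : Wire V J → ℕ} {β : Wire V J → (V → ℤ) → (J → ℤ)}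
    {H : Wire V J → (V → ℤ) → ℕ → ℕ → (J → ℤ)}
    (hp : LPar n c L h C g W p ρ D d A β H) (a : Wire V J) (ha : a ∈ W)
    (x : V → ℤ) (hx : x ∈ Mn c h (d a) a) :
    ∃ i ∈ c.fr, ∀ v : V → ℤ, InB (2 * h * L) c v → ∀ s : ℕ, (s : ℤ) < D → Cls s v x →
      flo (2 * h) h v ∈ Stc c.fr (rkw c.fr) a.A a.B ∧
      ∀ j, j ≠ i → flo (2 * h) h v j = flo (2 * h) h x j := by
  have P := W4a_par hp ha
  have hxb := W4a_inb P hx
  obtain ⟨h1, i, hi, h2, h3, h4⟩ := W4a_piv hx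
  have hH : (0 : ℤ) < h := by exact_mod_cast P.h0
  refine ⟨i, hi, fun v hv s hs hvx => ?_⟩
  have hs0 : (0 : ℤ) ≤ s := Nat.cast_nonneg s
  have hB : ∀ j ∈ c.fr, rkw c.fr j < rkw c.fr i → flo (2 * h) h v j = a.B j ∧ flo (2 * h) h x j = a.B j := by
    intro j hj hr
    have h5 := h2 j hj hr
    have h6 := hvx j
    rw [h5] at h6
    refine ⟨W4a_flo P.h0 h6 hs P.dl P.du, W4a_flo P.h0 (d := d a) (s := 0) ?_ P.D0 P.dl P.du⟩
    rw [h5, sub_self, abs_zero]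
  have hA : ∀ j ∈ c.fr, rkw c.fr i < rkw c.fr j → flo (2 * h) h v j = a.A j ∧ flo (2 * h) h x j = a.A j := by
    intro j hj hr
    have h5 := h3 j hj hr
    have h6 := hvx j
    rw [h5] at h6
    refine ⟨W4a_flo P.h0 h6 hs P.dl P.du, W4a_flo P.h0 (d := d a) (s := 0) ?_ P.D0 P.dl P.du⟩
    rw [h5, sub_self, abs_zero]
  refine ⟨⟨fun j hj => ?_, i, hi, fun j hj hr => (hB j hj hr).1, fun j hj hr => (hA j hj hr).1, ?_, ?_⟩, ?_⟩
  · rw [W4a_flo_out P.h0 hv hj, P.A0 j hj]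
  · obtain ⟨f1, f2⟩ := flo_bounds P.h0 v i
    have h6 := abs_le.1 (hvx i)
    have hdl := P.dl
    by_contra hc
    push Not at hc
    have h7 : ∀ m : ℤ, flo (2 * h) h v i < m → 2 * (h : ℤ) * m + d a ≤ x i → False := by
      intro m hm hm2
      have h8 : 2 * (h : ℤ) * (flo (2 * h) h v i + 1) ≤ 2 * (h : ℤ) * m :=
        mul_le_mul_of_nonneg_left hm (by linarith)
      have h9 : 2 * (h : ℤ) * (flo (2 * h) h v i + 1) = 2 * (h : ℤ) * flo (2 * h) h v i + 2 * h := by ring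
      linarith [h6.1]
    rcases h4 with h4 | h4
    · exact h7 (a.A i) (lt_of_lt_of_le hc (min_le_left _ _)) h4.1
    · exact h7 (a.B i) (lt_of_lt_of_le hc (min_le_right _ _)) h4.1
  · obtain ⟨f1, f2⟩ := flo_bounds P.h0 v i
    have h6 := abs_le.1 (hvx i)
    have hdl := P.dl
    have hdu := P.du
    by_contra hc
    push Not at hc
    have h7 : ∀ m : ℤ, m < flo (2 * h) h v i → x i ≤ 2 * (h : ℤ) * m + d a → False := by
      intro m hm hm2
      have h8 : 2 * (h : ℤ) * (m + 1) ≤ 2 * (h : ℤ) * flo (2 * h) h v i :=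
        mul_le_mul_of_nonneg_left hm (by linarith)
      have h9 : 2 * (h : ℤ) * (m + 1) = 2 * (h : ℤ) * m + 2 * h := by ring
      linarith [h6.2]
    rcases h4 with h4 | h4
    · exact h7 (a.B i) (lt_of_le_of_lt (le_max_right _ _) hc) h4.2
    · exact h7 (a.A i) (lt_of_le_of_lt (le_max_left _ _) hc) h4.2
  · intro j hj
    by_cases hjf : j ∈ c.fr
    · rcases W4a_tri hi hjf hj with h5 | h5
      · rw [(hB j hjf h5).1, (hB j hjf h5).2]
      · rw [(hA j hjf h5).1, (hA j hjf h5).2]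
    · rw [W4a_flo_out P.h0 hv hjf, W4a_flo_out P.h0 hxb hjf]

theorem flo_qA {n : ℕ} {c : Cube V} {L h : ℕ} {C : Set (Cube J)} {g : (V → ℤ) → (J → ℤ)}
    {W : Finset (Wire V J)} {p : Cube J → (V → ℤ)} {ρ : ℕ} {D : ℤ} {d : Wire V J → ℤ}
    {A : Wire V J → ℕ} {β : Wire V J → (V → ℤ) → (J → ℤ)}
    {H : Wire V J → (V → ℤ) → ℕ → ℕ → (J → ℤ)}
    (hp : LPar n c L h C g W p ρ D d A β H) (a : Wire V J) (ha : a ∈ W)
    (v : V → ℤ) (hv : InB (2 * h * L) c v) (s : ℕ) (hs : (s : ℤ) < D)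
    (hx : Cls s v (qA c h (d a) a)) : flo (2 * h) h v = a.A := by
  have P := W4a_par hp ha
  funext j
  by_cases hj : j ∈ c.fr
  · have h1 := hx j
    rw [W4a_qA_in hj] at h1
    exact W4a_flo P.h0 h1 hs P.dl P.du
  · rw [W4a_flo_out P.h0 hv hj, P.A0 j hj]

theorem flo_qB {n : ℕ} {c : Cube V} {L h : ℕ} {C : Set (Cube J)} {g : (V → ℤ) → (J → ℤ)}
    {W : Finset (Wire V J)} {p : Cube J → (V → ℤ)} {ρ : ℕ} {D : ℤ} {d : Wire V J → ℤ}
    {A : Wire V J → ℕ} {β : Wire V J → (V → ℤ) → (J → ℤ)}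
    {H : Wire V J → (V → ℤ) → ℕ → ℕ → (J → ℤ)}
    (hp : LPar n c L h C g W p ρ D d A β H) (a : Wire V J) (ha : a ∈ W)
    (v : V → ℤ) (hv : InB (2 * h * L) c v) (s : ℕ) (hs : (s : ℤ) < D)
    (hx : Cls s v (qB c h (d a) a)) : flo (2 * h) h v = a.B := by
  have P := W4a_par hp ha
  funext j
  by_cases hj : j ∈ c.fr
  · have h1 := hx j
    rw [W4a_qB_in hj] at h1
    exact W4a_flo P.h0 h1 hs P.dl P.du
  · rw [W4a_flo_out P.h0 hv hj, P.B0 j hj]

theorem mn_ramp_A {n : ℕ} {c : Cube V} {L h : ℕ} {C : Set (Cube J)} {g : (V → ℤ) → (J → ℤ)}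
    {W : Finset (Wire V J)} {p : Cube J → (V → ℤ)} {ρ : ℕ} {D : ℤ} {d : Wire V J → ℤ}
    {A : Wire V J → ℕ} {β : Wire V J → (V → ℤ) → (J → ℤ)}
    {H : Wire V J → (V → ℤ) → ℕ → ℕ → (J → ℤ)}
    (hp : LPar n c L h C g W p ρ D d A β H) (a : Wire V J) (ha : a ∈ W)
    (x : V → ℤ) (hx : x ∈ Mn c h (d a) a) (s : ℕ) (hs : (s : ℤ) < D)
    (h1 : |x a.i1 - qA c h (d a) a a.i1| ≤ s) : Cls s x (qA c h (d a) a) := by
  have P := W4a_par hp ha
  obtain ⟨h2, i, hi, h3, h4, h5⟩ := W4a_piv hx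
  have hH : (0 : ℤ) < h := by exact_mod_cast P.h0
  have hs0 : (0 : ℤ) ≤ s := Nat.cast_nonneg s
  have heq : ∀ j, x j = qA c h (d a) a j → |x j - qA c h (d a) a j| ≤ (s : ℤ) := by
    intro j hj
    rw [hj, sub_self, abs_zero]
    exact hs0
  have hout : ∀ j, j ∉ c.fr → x j = qA c h (d a) a j := by
    intro j hj
    rw [h2 j hj, W4a_qA_out hj]
  have hup : ∀ j ∈ c.fr, rkw c.fr i < rkw c.fr j → x j = qA c h (d a) a j := by
    intro j hj hr
    rw [h4 j hj hr, W4a_qA_in hj]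
  have hlo : ∀ j ∈ c.fr, rkw c.fr j < rkw c.fr i → rkw c.fr j < rkw c.fr a.i1 → x j = qA c h (d a) a j := by
    intro j hj hr hr2
    rw [h3 j hj hr, W4a_qA_in hj, P.s1 j hj hr2]
  intro j
  by_cases hj : j ∈ c.fr
  · rcases lt_trichotomy (rkw c.fr i) (rkw c.fr a.i1) with h6 | h6 | h6
    · by_cases hji : j = i
      · subst hji
        refine heq j ?_
        rw [W4a_qA_in hj]
        rw [← P.s1 j hj h6] at h5
        rcases h5 with h5 | h5
        · exact le_antisymm h5.2 h5.1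
        · exact le_antisymm h5.2 h5.1
      · rcases W4a_tri hi hj hji with h7 | h7
        · exact heq j (hlo j hj h7 (h7.trans h6))
        · exact heq j (hup j hj h7)
    · have hii : i = a.i1 := rkw_inj c.fr (Finset.mem_coe.2 hi) (Finset.mem_coe.2 P.m1) h6
      by_cases hji : j = i
      · rw [hji, hii]
        exact h1
      · rcases W4a_tri hi hj hji with h7 | h7
        · exact heq j (hlo j hj h7 (by rw [← h6]; exact h7))
        · exact heq j (hup j hj h7)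
    · exfalso
      have h7 := h3 a.i1 P.m1 h6
      rw [h7, W4a_qA_in P.m1] at h1
      have h8 := abs_le.1 h1
      have h9 := P.hD
      have h10 := P.D0
      rcases lt_or_gt_of_ne P.n1 with h11 | h11
      · have h12 : 2 * (h : ℤ) * (a.A a.i1 + 1) ≤ 2 * (h : ℤ) * a.B a.i1 :=
          mul_le_mul_of_nonneg_left h11 (by linarith)
        have h13 : 2 * (h : ℤ) * (a.A a.i1 + 1) = 2 * (h : ℤ) * a.A a.i1 + 2 * h := by ring
        linarith [h8.2]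
      · have h12 : 2 * (h : ℤ) * (a.B a.i1 + 1) ≤ 2 * (h : ℤ) * a.A a.i1 :=
          mul_le_mul_of_nonneg_left h11 (by linarith)
        have h13 : 2 * (h : ℤ) * (a.B a.i1 + 1) = 2 * (h : ℤ) * a.B a.i1 + 2 * h := by ring
        linarith [h8.1]
  · exact heq j (hout j hj)

theorem mn_ramp_B {n : ℕ} {c : Cube V} {L h : ℕ} {C : Set (Cube J)} {g : (V → ℤ) → (J → ℤ)}
    {W : Finset (Wire V J)} {p : Cube J → (V → ℤ)} {ρ : ℕ} {D : ℤ} {d : Wire V J → ℤ}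
    {A : Wire V J → ℕ} {β : Wire V J → (V → ℤ) → (J → ℤ)}
    {H : Wire V J → (V → ℤ) → ℕ → ℕ → (J → ℤ)}
    (hp : LPar n c L h C g W p ρ D d A β H) (a : Wire V J) (ha : a ∈ W)
    (x : V → ℤ) (hx : x ∈ Mn c h (d a) a) (s : ℕ) (hs : (s : ℤ) < D)
    (h1 : |x a.i2 - qB c h (d a) a a.i2| ≤ s) : Cls s x (qB c h (d a) a) := by
  have P := W4a_par hp ha
  obtain ⟨h2, i, hi, h3, h4, h5⟩ := W4a_piv hx
  have hH : (0 : ℤ) < h := by exact_mod_cast P.h0
  have hs0 : (0 : ℤ) ≤ s := Nat.cast_nonneg s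
  have heq : ∀ j, x j = qB c h (d a) a j → |x j - qB c h (d a) a j| ≤ (s : ℤ) := by
    intro j hj
    rw [hj, sub_self, abs_zero]
    exact hs0
  have hout : ∀ j, j ∉ c.fr → x j = qB c h (d a) a j := by
    intro j hj
    rw [h2 j hj, W4a_qB_out hj, P.A0 j hj, P.B0 j hj]
  have hlo : ∀ j ∈ c.fr, rkw c.fr j < rkw c.fr i → x j = qB c h (d a) a j := by
    intro j hj hr
    rw [h3 j hj hr, W4a_qB_in hj]
  have hup : ∀ j ∈ c.fr, rkw c.fr i < rkw c.fr j → rkw c.fr a.i2 < rkw c.fr j → x j = qB c h (d a) a j := by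
    intro j hj hr hr2
    rw [h4 j hj hr, W4a_qB_in hj, P.s2 j hj hr2]
  intro j
  by_cases hj : j ∈ c.fr
  · rcases lt_trichotomy (rkw c.fr a.i2) (rkw c.fr i) with h6 | h6 | h6
    · by_cases hji : j = i
      · subst hji
        refine heq j ?_
        rw [W4a_qB_in hj]
        rw [P.s2 j hj h6] at h5
        rcases h5 with h5 | h5
        · exact le_antisymm h5.2 h5.1
        · exact le_antisymm h5.2 h5.1
      · rcases W4a_tri hi hj hji with h7 | h7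
        · exact heq j (hlo j hj h7)
        · exact heq j (hup j hj h7 (h6.trans h7))
    · have hii : a.i2 = i := rkw_inj c.fr (Finset.mem_coe.2 P.m2) (Finset.mem_coe.2 hi) h6
      by_cases hji : j = i
      · rw [hji, ← hii]
        exact h1
      · rcases W4a_tri hi hj hji with h7 | h7
        · exact heq j (hlo j hj h7)
        · exact heq j (hup j hj h7 (by rw [h6]; exact h7))
    · exfalso
      have h7 := h4 a.i2 P.m2 h6
      rw [h7, W4a_qB_in P.m2] at h1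
      have h8 := abs_le.1 h1
      have h9 := P.hD
      have h10 := P.D0
      rcases lt_or_gt_of_ne P.n2 with h11 | h11
      · have h12 : 2 * (h : ℤ) * (a.A a.i2 + 1) ≤ 2 * (h : ℤ) * a.B a.i2 :=
          mul_le_mul_of_nonneg_left h11 (by linarith)
        have h13 : 2 * (h : ℤ) * (a.A a.i2 + 1) = 2 * (h : ℤ) * a.A a.i2 + 2 * h := by ring
        linarith [h8.1]
      · have h12 : 2 * (h : ℤ) * (a.B a.i2 + 1) ≤ 2 * (h : ℤ) * a.A a.i2 :=
          mul_le_mul_of_nonneg_left h11 (by linarith)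
        have h13 : 2 * (h : ℤ) * (a.B a.i2 + 1) = 2 * (h : ℤ) * a.B a.i2 + 2 * h := by ring
        linarith [h8.2]
  · exact heq j (hout j hj)

end AGE
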