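import Pool.Agent.AGE.WDefs
import Pool.Agent.AGE.W2
import Pool.Agent.AGE.W3

/-!
# AGE-W4b: geometry of the wires, part 2: disjointness

Everything follows from the residues modulo `2 h` of the coordinates of the points (`w4b_num`): outside of its pivot a point of the main part has
residue `d`, a point of a junction has residue `d` or the special residue (`0` or `h - 1`).
-/

set_option autoImplicit false

noncomputable section

namespace AGE

variable {V J : Type} [LinearOrder V] [LinearOrder J]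

private theorem w4b_num {h D e e' k k' : ℤ} {s : ℕ} (hs : (s : ℤ) + 2 ≤ D) (hh : 2 * D ≤ h)
    (h0 : 0 ≤ e) (h1 : e ≤ h) (h0' : 0 ≤ e') (h1' : e' ≤ h) (he : D - 1 ≤ |e - e'|)
    (hc : |2 * h * k + e - (2 * h * k' + e')| ≤ (s : ℤ)) : False := by
  have hs0 : (0 : ℤ) ≤ s := Int.natCast_nonneg s
  have h2 := abs_le.1 hc
  rcases lt_trichotomy k k' with h3 | h3 | h3
  · have h4 : 2 * h * 1 ≤ 2 * h * (k' - k) := mul_le_mul_of_nonneg_left (by omega) (by omega)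
    nlinarith [h2.1]
  · subst h3
    have h4 : 2 * h * k + e - (2 * h * k + e') = e - e' := by ring
    rw [h4] at hc
    linarith
  · have h4 : 2 * h * 1 ≤ 2 * h * (k - k') := mul_le_mul_of_nonneg_left (by omega) (by omega)
    nlinarith [h2.2]

private theorem w4b_third {fr : Finset V} (hc : 3 ≤ fr.card) (i i' : V) :
    ∃ j ∈ fr, j ≠ i ∧ j ≠ i' := by
  have h1 : ({i, i'} : Finset V).card < fr.card := lt_of_le_of_lt Finset.card_le_two (by omega)
  obtain ⟨j, hj, hj'⟩ := Finset.exists_mem_notMem_of_card_lt_card h1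
  rw [Finset.mem_insert, Finset.mem_singleton, not_or] at hj'
  exact ⟨j, hj, hj'⟩

private theorem w4b_qA {c : Cube V} (h : ℕ) (d : ℤ) (a : Wire V J) {j : V} (hj : j ∈ c.fr) :
    qA c h d a j = 2 * (h : ℤ) * a.A j + d := by
  simp only [qA, shf, mul, if_pos hj, Nat.cast_mul, Nat.cast_ofNat]

private theorem w4b_qB {c : Cube V} (h : ℕ) (d : ℤ) (a : Wire V J) {j : V} (hj : j ∈ c.fr) :
    qB c h d a j = 2 * (h : ℤ) * a.B j + d := by
  simp only [qB, shf, mul, if_pos hj, Nat.cast_mul, Nat.cast_ofNat]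

private theorem w4b_zP {c : Cube V} (h : ℕ) (a : Wire V J) {j : V} (hj : j ∈ c.fr) :
    zP c h a j = 2 * (h : ℤ) * a.P j + if a.ep then (h : ℤ) - 1 else 0 := by
  unfold zP
  cases a.ep with
  | true => simp only [if_true, shf, mul, if_pos hj, Nat.cast_mul, Nat.cast_ofNat]
  | false => simp [mul]

private theorem w4b_mB (h : ℕ) (a : Wire V J) (j : V) :
    mul (2 * h) a.B j = 2 * (h : ℤ) * a.B j := by
  simp only [mul, Nat.cast_mul, Nat.cast_ofNat]

/-- the pivot of a point of a staircase -/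
private theorem w4b_stc {fr : Finset V} {r : V → ℕ} (hr : Set.InjOn r (fr : Set V)) {a b x : V → ℤ}
    (hx : x ∈ Stc fr r a b) : ∃ i ∈ fr, (∀ j ∈ fr, j ≠ i → (r j < r i ∧ x j = b j) ∨
      (r i < r j ∧ x j = a j)) ∧ min (a i) (b i) ≤ x i ∧ x i ≤ max (a i) (b i) := by
  obtain ⟨_, i, hi, h1, h2, h3, h4⟩ := hx
  refine ⟨i, hi, fun j hj hji => ?_, h3, h4⟩
  rcases lt_trichotomy (r j) (r i) with h | h | h
  · exact Or.inl ⟨h, h1 j hj h⟩
  · exact absurd (hr hj hi h) hji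
  · exact Or.inr ⟨h, h2 j hj h⟩

private theorem w4b_mn {c : Cube V} {h : ℕ} {d : ℤ} {a : Wire V J} {x : V → ℤ}
    (hx : x ∈ Mn c h d a) : ∃ i ∈ c.fr, ∀ j ∈ c.fr, j ≠ i → ∃ k : ℤ, x j = 2 * (h : ℤ) * k + d := by
  obtain ⟨i, hi, h1, _, _⟩ := w4b_stc (rkw_inj c.fr) hx
  refine ⟨i, hi, fun j hj hji => ?_⟩
  rcases h1 j hj hji with ⟨_, h2⟩ | ⟨_, h2⟩
  · exact ⟨a.B j, by rw [h2, w4b_qB h d a hj]⟩
  · exact ⟨a.A j, by rw [h2, w4b_qA h d a hj]⟩

theorem mn_mn {n : ℕ} {c : Cube V} {L h : ℕ} {C : Set (Cube J)} {g : (V → ℤ) → (J → ℤ)}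
    {W : Finset (Wire V J)} {p : Cube J → (V → ℤ)} {ρ : ℕ} {D : ℤ} {d : Wire V J → ℤ}
    {A : Wire V J → ℕ} {β : Wire V J → (V → ℤ) → (J → ℤ)}
    {H : Wire V J → (V → ℤ) → ℕ → ℕ → (J → ℤ)}
    (hp : LPar n c L h C g W p ρ D d A β H) (a b : Wire V J) (ha : a ∈ W)
    (hb : b ∈ W) (hab : a ≠ b) (x y : V → ℤ) (hx : x ∈ Mn c h (d a) a)
    (hy : y ∈ Mn c h (d b) b) (s : ℕ) (hs : (s : ℤ) + 2 ≤ D) : ¬ Cls s x y := by
  have h3 : 3 ≤ c.fr.card := by
    have h4 := hp.dim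
    have h5 := hp.n2
    unfold Cube.dim at h4
    omega
  intro hxy
  obtain ⟨i, hi, h1⟩ := w4b_mn hx
  obtain ⟨i', hi', h2⟩ := w4b_mn hy
  obtain ⟨j, hj, hji, hji'⟩ := w4b_third h3 i i'
  obtain ⟨k, hk⟩ := h1 j hj hji
  obtain ⟨k', hk'⟩ := h2 j hj hji'
  have hc := hxy j
  rw [hk, hk'] at hc
  have e1 := hp.rD
  have e2 := hp.dl a ha
  have e3 := hp.du a ha
  have e4 := hp.dl b hb
  have e5 := hp.du b hb
  have e6 := hp.dd a ha b hb hab
  exact w4b_num hs hp.hh (by omega) (by omega) (by omega) (by omega) (by omega) hc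

theorem mn_stj {n : ℕ} {c : Cube V} {L h : ℕ} {C : Set (Cube J)} {g : (V → ℤ) → (J → ℤ)}
    {W : Finset (Wire V J)} {p : Cube J → (V → ℤ)} {ρ : ℕ} {D : ℤ} {d : Wire V J → ℤ}
    {A : Wire V J → ℕ} {β : Wire V J → (V → ℤ) → (J → ℤ)}
    {H : Wire V J → (V → ℤ) → ℕ → ℕ → (J → ℤ)}
    (hp : LPar n c L h C g W p ρ D d A β H) (a b : Wire V J) (ha : a ∈ W)
    (hb : b ∈ W) (hab : a ≠ b) (x y : V → ℤ) (hx : x ∈ Mn c h (d a) a)
    (hy : y ∈ Stj c h (d b) b) (s : ℕ) (hs : (s : ℤ) + 2 ≤ D) : ¬ Cls s x y := by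
  have h3 : 3 ≤ c.fr.card := by
    have h4 := hp.dim
    have h5 := hp.n2
    unfold Cube.dim at h4
    omega
  intro hxy
  obtain ⟨i, hi, h1⟩ := w4b_mn hx
  obtain ⟨i', hi', h2, _, _⟩ := w4b_stc (rkw2_inj c.fr b.i0 b.i1) hy
  obtain ⟨j, hj, hji, hji'⟩ := w4b_third h3 i i'
  obtain ⟨k, hk⟩ := h1 j hj hji
  have hc := hxy j
  have e1 := hp.rD
  have e2 := hp.dl a ha
  have e3 := hp.du a ha
  have e4 := hp.dl b hb
  have e5 := hp.du b hb
  have e6 := hp.dd a ha b hb hab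
  rcases h2 j hj hji' with ⟨_, h4⟩ | ⟨_, h4⟩
  · rw [hk, h4, w4b_qA h (d b) b hj] at hc
    exact w4b_num hs hp.hh (by omega) (by omega) (by omega) (by omega) (by omega) hc
  · rw [hk, h4, w4b_zP h b hj] at hc
    have e7 : (if b.ep then (h : ℤ) - 1 else 0) = (h : ℤ) - 1 ∨
        (if b.ep then (h : ℤ) - 1 else 0) = (0 : ℤ) := by
      split_ifs
      · exact Or.inl rfl
      · exact Or.inr rfl
    generalize (if b.ep then (h : ℤ) - 1 else 0) = e at hc e7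
    have e8 : D - 1 ≤ |d a - e| := by
      rcases e7 with rfl | rfl
      · have := neg_le_abs (d a - ((h : ℤ) - 1))
        omega
      · have := le_abs_self (d a - 0)
        omega
    exact w4b_num hs hp.hh (by omega) (by omega) (by omega) (by omega) e8 hc

theorem mn_enj {n : ℕ} {c : Cube V} {L h : ℕ} {C : Set (Cube J)} {g : (V → ℤ) → (J → ℤ)}
    {W : Finset (Wire V J)} {p : Cube J → (V → ℤ)} {ρ : ℕ} {D : ℤ} {d : Wire V J → ℤ}
    {A : Wire V J → ℕ} {β : Wire V J → (V → ℤ) → (J → ℤ)}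
    {H : Wire V J → (V → ℤ) → ℕ → ℕ → (J → ℤ)}
    (hp : LPar n c L h C g W p ρ D d A β H) (a b : Wire V J) (ha : a ∈ W)
    (hb : b ∈ W) (hab : a ≠ b) (x y : V → ℤ) (hx : x ∈ Mn c h (d a) a)
    (hy : y ∈ Enj c h (d b) b) (s : ℕ) (hs : (s : ℤ) + 2 ≤ D) : ¬ Cls s x y := by
  have h3 : 3 ≤ c.fr.card := by
    have h4 := hp.dim
    have h5 := hp.n2
    unfold Cube.dim at h4
    omega
  intro hxy
  obtain ⟨i, hi, h1⟩ := w4b_mn hx
  obtain ⟨i', hi', h2, _, _⟩ := w4b_stc (rkw2_inj c.fr b.i2 b.i2) hy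
  obtain ⟨j, hj, hji, hji'⟩ := w4b_third h3 i i'
  obtain ⟨k, hk⟩ := h1 j hj hji
  have hc := hxy j
  have e1 := hp.rD
  have e2 := hp.dl a ha
  have e3 := hp.du a ha
  have e4 := hp.dl b hb
  have e5 := hp.du b hb
  have e6 := hp.dd a ha b hb hab
  rcases h2 j hj hji' with ⟨_, h4⟩ | ⟨_, h4⟩
  · rw [hk, h4, w4b_qB h (d b) b hj] at hc
    exact w4b_num hs hp.hh (by omega) (by omega) (by omega) (by omega) (by omega) hc
  · rw [hk, h4, w4b_mB h b j, ← add_zero (2 * (h : ℤ) * b.B j)] at hc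
    have e8 : D - 1 ≤ |d a - 0| := by
      have := le_abs_self (d a - 0)
      omega
    exact w4b_num hs hp.hh (by omega) (by omega) le_rfl (by omega) e8 hc

theorem mn_stj_same {n : ℕ} {c : Cube V} {L h : ℕ} {C : Set (Cube J)} {g : (V → ℤ) → (J → ℤ)}
    {W : Finset (Wire V J)} {p : Cube J → (V → ℤ)} {ρ : ℕ} {D : ℤ} {d : Wire V J → ℤ}
    {A : Wire V J → ℕ} {β : Wire V J → (V → ℤ) → (J → ℤ)}
    {H : Wire V J → (V → ℤ) → ℕ → ℕ → (J → ℤ)}
    (hp : LPar n c L h C g W p ρ D d A β H) (a : Wire V J) (ha : a ∈ W)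
    (x y : V → ℤ) (hx : x ∈ Mn c h (d a) a) (hy : y ∈ Stj c h (d a) a) (s : ℕ)
    (hs : (s : ℤ) + 2 ≤ D) (hxy : Cls s x y) : y a.i1 = qA c h (d a) a a.i1 := by
  have h3 : 3 ≤ c.fr.card := by
    have h4 := hp.dim
    have h5 := hp.n2
    unfold Cube.dim at h4
    omega
  have e1 := hp.rD
  have e2 := hp.dl a ha
  have e3 := hp.du a ha
  have e9 := hp.hh
  have ok := hp.ws.ok a ha
  obtain ⟨i, hi, h1, hx3, hx4⟩ := w4b_stc (rkw_inj c.fr) hx
  obtain ⟨i', hi', h2, hy3, hy4⟩ := w4b_stc (rkw2_inj c.fr a.i0 a.i1) hy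
  -- a coordinate of residue `d a` for `x` cannot be special for `y`
  have hsp : ∀ j ∈ c.fr, ∀ k : ℤ, x j = 2 * (h : ℤ) * k + d a → y j = zP c h a j → False := by
    intro j hj k hk h4
    have hc := hxy j
    rw [hk, h4, w4b_zP h a hj] at hc
    have e7 : (if a.ep then (h : ℤ) - 1 else 0) = (h : ℤ) - 1 ∨
        (if a.ep then (h : ℤ) - 1 else 0) = (0 : ℤ) := by
      split_ifs
      · exact Or.inl rfl
      · exact Or.inr rfl
    generalize (if a.ep then (h : ℤ) - 1 else 0) = e at hc e7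
    have e8 : D - 1 ≤ |d a - e| := by
      rcases e7 with rfl | rfl
      · have := neg_le_abs (d a - ((h : ℤ) - 1))
        omega
      · have := le_abs_self (d a - 0)
        omega
    exact w4b_num hs hp.hh (by omega) (by omega) (by omega) (by omega) e8 hc
  have hres : ∀ j ∈ c.fr, j ≠ i → ∃ k : ℤ, x j = 2 * (h : ℤ) * k + d a := by
    intro j hj hji
    rcases h1 j hj hji with ⟨_, h4⟩ | ⟨_, h4⟩
    · exact ⟨a.B j, by rw [h4, w4b_qB h (d a) a hj]⟩
    · exact ⟨a.A j, by rw [h4, w4b_qA h (d a) a hj]⟩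
  have hlt : ∀ j ∈ c.fr, j ≠ i → j ≠ i' → rkw2 c.fr a.i0 a.i1 j < rkw2 c.fr a.i0 a.i1 i' ∧
      y j = qA c h (d a) a j := by
    intro j hj hji hji'
    rcases h2 j hj hji' with h4 | ⟨_, h4⟩
    · exact h4
    · obtain ⟨k, hk⟩ := hres j hj hji
      exact (hsp j hj k hk h4).elim
  have hr1 : rkw2 c.fr a.i0 a.i1 a.i1 ≤ 1 := by
    unfold rkw2
    by_cases he : a.i1 = a.i0
    · rw [if_pos he]
      exact Nat.zero_le 1
    · rw [if_neg he, if_pos rfl]
  obtain ⟨j0, hj0, hj0i, hj0i'⟩ := w4b_third h3 i i'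
  have hpos := (hlt j0 hj0 hj0i hj0i').1
  by_cases c1 : a.i1 = i'
  · exfalso
    subst c1
    have hne : a.i1 ≠ a.i0 := by
      intro he
      have : rkw2 c.fr a.i0 a.i1 a.i1 = 0 := by
        unfold rkw2
        rw [if_pos he]
      omega
    have hj00 : ∀ j ∈ c.fr, j ≠ i → j ≠ a.i1 → j = a.i0 := by
      intro j hj hji hj1
      have h5 := (hlt j hj hji hj1).1
      have h6 : rkw2 c.fr a.i0 a.i1 j = 0 := by omega
      by_contra hn
      unfold rkw2 at h6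
      rw [if_neg hn, if_neg hj1] at h6
      omega
    have hj0e : j0 = a.i0 := hj00 j0 hj0 hj0i hj0i'
    have hi0 : i ≠ a.i0 := by
      rw [← hj0e]
      exact fun he => hj0i he.symm
    have hii1 : i ≠ a.i1 := by
      intro he
      obtain ⟨j1, hj1, hj1a, hj1b⟩ := w4b_third h3 i j0
      have := hj00 j1 hj1 hj1a (by rw [← he]; exact hj1a)
      exact hj1b (by rw [this, hj0e])
    have hri : rkw2 c.fr a.i0 a.i1 i = rkw c.fr i + 2 := by
      unfold rkw2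
      rw [if_neg hi0, if_neg hii1]
    have hyi : y i = zP c h a i := by
      rcases h2 i hi hii1 with ⟨h5, _⟩ | ⟨_, h5⟩
      · omega
      · exact h5
    rcases h1 a.i1 ok.m1 (fun he => hii1 he.symm) with ⟨_, h6⟩ | ⟨h5, _⟩
    · -- `x i1 = qB i1`
      have h7 : zP c h a a.i1 = 2 * (h : ℤ) * a.A a.i1 + if a.ep then (h : ℤ) - 1 else 0 := by
        rw [w4b_zP h a ok.m1]
        have h8 : a.P a.i1 = a.A a.i1 := by
          rcases hep : a.ep with _ | _
          · exact ((ok.st0 hep).1 a.i1 hne).1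
          · rw [(ok.st1 hep).1]
        rw [h8]
      have h8 := w4b_qA h (d a) a ok.m1
      have h9 := w4b_qB h (d a) a ok.m1
      have e7 : (0 : ℤ) ≤ (if a.ep then (h : ℤ) - 1 else 0) ∧
          (if a.ep then (h : ℤ) - 1 else 0) ≤ (h : ℤ) := by
        split_ifs <;> omega
      rw [h7, h8] at hy3 hy4
      rw [h9] at h6
      have hc := abs_le.1 (hxy a.i1)
      rw [h6] at hc
      generalize (if a.ep then (h : ℤ) - 1 else 0) = e at e7 hy3 hy4
      have g1 : 2 * (h : ℤ) * a.A a.i1 ≤ y a.i1 := by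
        refine le_trans ?_ hy3
        exact le_min (by omega) (by omega)
      have g2 : y a.i1 ≤ 2 * (h : ℤ) * a.A a.i1 + h := by
        refine le_trans hy4 ?_
        exact max_le (by omega) (by omega)
      rcases lt_or_gt_of_ne ok.n1 with g3 | g3
      · have g4 : 2 * (h : ℤ) * (a.A a.i1 + 1) ≤ 2 * (h : ℤ) * a.B a.i1 :=
          mul_le_mul_of_nonneg_left (by omega) (by omega)
        have g5 : 2 * (h : ℤ) * (a.A a.i1 + 1) = 2 * (h : ℤ) * a.A a.i1 + 2 * h := by ring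
        omega
      · have g4 : 2 * (h : ℤ) * (a.B a.i1 + 1) ≤ 2 * (h : ℤ) * a.A a.i1 :=
          mul_le_mul_of_nonneg_left (by omega) (by omega)
        have g5 : 2 * (h : ℤ) * (a.B a.i1 + 1) = 2 * (h : ℤ) * a.B a.i1 + 2 * h := by ring
        omega
    · -- `rkw i < rkw i1`
      have h6 := ok.s1 i hi h5
      have h7 : qB c h (d a) a i = qA c h (d a) a i := by
        rw [w4b_qA h (d a) a hi, w4b_qB h (d a) a hi, h6]
      rw [h7, min_self] at hx3
      rw [h7, max_self] at hx4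
      have h8 : x i = 2 * (h : ℤ) * a.A i + d a := by
        rw [← w4b_qA h (d a) a hi]
        exact le_antisymm hx4 hx3
      exact hsp i hi _ h8 hyi
  · rcases h2 a.i1 ok.m1 c1 with ⟨_, h4⟩ | ⟨h5, _⟩
    · exact h4
    · omega

theorem mn_enj_same {n : ℕ} {c : Cube V} {L h : ℕ} {C : Set (Cube J)} {g : (V → ℤ) → (J → ℤ)}
    {W : Finset (Wire V J)} {p : Cube J → (V → ℤ)} {ρ : ℕ} {D : ℤ} {d : Wire V J → ℤ}
    {A : Wire V J → ℕ} {β : Wire V J → (V → ℤ) → (J → ℤ)}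
    {H : Wire V J → (V → ℤ) → ℕ → ℕ → (J → ℤ)}
    (hp : LPar n c L h C g W p ρ D d A β H) (a : Wire V J) (ha : a ∈ W)
    (x y : V → ℤ) (hx : x ∈ Mn c h (d a) a) (hy : y ∈ Enj c h (d a) a) (s : ℕ)
    (hs : (s : ℤ) + 2 ≤ D) (hxy : Cls s x y) : y a.i2 = qB c h (d a) a a.i2 := by
  have h3 : 3 ≤ c.fr.card := by
    have h4 := hp.dim
    have h5 := hp.n2
    unfold Cube.dim at h4
    omega
  have e1 := hp.rD
  have e2 := hp.dl a ha
  have e3 := hp.du a ha
  have e9 := hp.hh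
  have ok := hp.ws.ok a ha
  obtain ⟨i, hi, h1⟩ := w4b_mn hx
  obtain ⟨i', hi', h2, _, _⟩ := w4b_stc (rkw2_inj c.fr a.i2 a.i2) hy
  obtain ⟨j, hj, hji, hji'⟩ := w4b_third h3 i i'
  have hr2 : rkw2 c.fr a.i2 a.i2 a.i2 = 0 := by
    unfold rkw2
    rw [if_pos rfl]
  have hpos : rkw2 c.fr a.i2 a.i2 j < rkw2 c.fr a.i2 a.i2 i' := by
    rcases h2 j hj hji' with ⟨h4, _⟩ | ⟨_, h4⟩
    · exact h4
    · exfalso
      obtain ⟨k, hk⟩ := h1 j hj hji
      have hc := hxy j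
      rw [hk, h4, w4b_mB h a j, ← add_zero (2 * (h : ℤ) * a.B j)] at hc
      have e8 : D - 1 ≤ |d a - 0| := by
        have := le_abs_self (d a - 0)
        omega
      exact w4b_num hs hp.hh (by omega) (by omega) le_rfl (by omega) e8 hc
  have hne : a.i2 ≠ i' := by
    intro he
    rw [← he, hr2] at hpos
    omega
  rcases h2 a.i2 ok.m2 hne with ⟨_, h4⟩ | ⟨h5, _⟩
  · exact h4
  · omega

end AGE
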