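import Pool.Agent.AGE.WDefs
import Pool.Agent.AGE.W2
import Pool.Agent.AGE.W3
import Pool.Agent.AGE.W4a
import Pool.Agent.AGE.W4b

/-!
# AGE-W5a: the fine map: formula in a tube

Plan. `gW_tube`: the wire `a'` chosen in the definition has `dst (Mn a') v < ρ` too; if `a' ≠ a` then `dst_spec` (existence by `mn_ex`) gives `x ∈ Mn a`, `x' ∈ Mn a'` with `Cls (2 ρ) x x'`, against `mn_mn`. `gW_tube'`: if
`dst < ρ` this is `gW_tube`; if `dst = ρ` then `v` is in no tube (the same argument with `2 ρ`), the left side is `g (flo v)` and the right side is `H a (flo v) 0 _ = g (flo v)` by `h0` with `flo v ∈ Stc` by `mn_flo`.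
`gW_out`: definition. `gW_bdy`: a boundary point is at distance at least `D > ρ` from `Mn a` (`mn_box`).
-/

set_option autoImplicit false

noncomputable section

namespace AGE

variable {V J : Type} [LinearOrder V] [LinearOrder J]

private theorem W5a_uniq {n : ℕ} {c : Cube V} {L h : ℕ} {C : Set (Cube J)}
    {g : (V → ℤ) → (J → ℤ)} {W : Finset (Wire V J)} {p : Cube J → (V → ℤ)} {ρ : ℕ} {D : ℤ}
    {d : Wire V J → ℤ} {A : Wire V J → ℕ} {β : Wire V J → (V → ℤ) → (J → ℤ)}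
    {H : Wire V J → (V → ℤ) → ℕ → ℕ → (J → ℤ)}
    (hp : LPar n c L h C g W p ρ D d A β H) (a b : Wire V J) (ha : a ∈ W) (hb : b ∈ W)
    (v : V → ℤ) (hv : InB (2 * h * L) c v) (hd : dst (Mn c h (d a) a) v ≤ ρ)
    (hd' : dst (Mn c h (d b) b) v ≤ ρ) : a = b := by
  by_contra hab
  obtain ⟨x, hx, hxc⟩ := dst_spec (mn_ex hp a ha v hv)
  obtain ⟨y, hy, hyc⟩ := dst_spec (mn_ex hp b hb v hv)
  have h1 : Cls (dst (Mn c h (d a) a) v + dst (Mn c h (d b) b) v) x y :=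
    cls_trans (cls_symm hxc) hyc
  have h2 : Cls (2 * ρ) x y := cls_mono (by omega) h1
  have h3 := hp.rD
  refine mn_mn hp a b ha hb hab x y hx hy (2 * ρ) ?_ h2
  push_cast
  have h4 : (0 : ℤ) ≤ ρ := Int.natCast_nonneg ρ
  linarith

theorem gW_tube {n : ℕ} {c : Cube V} {L h : ℕ} {C : Set (Cube J)} {g : (V → ℤ) → (J → ℤ)}
    {W : Finset (Wire V J)} {p : Cube J → (V → ℤ)} {ρ : ℕ} {D : ℤ} {d : Wire V J → ℤ}
    {A : Wire V J → ℕ} {β : Wire V J → (V → ℤ) → (J → ℤ)}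
    {H : Wire V J → (V → ℤ) → ℕ → ℕ → (J → ℤ)}
    (hp : LPar n c L h C g W p ρ D d A β H) (a : Wire V J) (ha : a ∈ W)
    (v : V → ℤ) (hv : InB (2 * h * L) c v) (hd : dst (Mn c h (d a) a) v < ρ) :
    gW c h ρ g W d H v =
      H a (flo (2 * h) h v) (ρ - dst (Mn c h (d a) a) v) (tm c h (d a) a v) := by
  classical
  have hx : ∃ a ∈ W, dst (Mn c h (d a) a) v < ρ := ⟨a, ha, hd⟩
  have e : hx.choose = a :=
    W5a_uniq hp hx.choose a hx.choose_spec.1 ha v hv hx.choose_spec.2.le hd.le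
  unfold gW
  rw [dif_pos hx, e]

theorem gW_tube' {n : ℕ} {c : Cube V} {L h : ℕ} {C : Set (Cube J)} {g : (V → ℤ) → (J → ℤ)}
    {W : Finset (Wire V J)} {p : Cube J → (V → ℤ)} {ρ : ℕ} {D : ℤ} {d : Wire V J → ℤ}
    {A : Wire V J → ℕ} {β : Wire V J → (V → ℤ) → (J → ℤ)}
    {H : Wire V J → (V → ℤ) → ℕ → ℕ → (J → ℤ)}
    (hp : LPar n c L h C g W p ρ D d A β H) (a : Wire V J) (ha : a ∈ W)
    (v : V → ℤ) (hv : InB (2 * h * L) c v) (hd : dst (Mn c h (d a) a) v ≤ ρ) :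
    gW c h ρ g W d H v =
      H a (flo (2 * h) h v) (ρ - dst (Mn c h (d a) a) v) (tm c h (d a) a v) := by
  classical
  rcases hd.lt_or_eq with hlt | heq
  · exact gW_tube hp a ha v hv hlt
  · have hno : ¬ ∃ b ∈ W, dst (Mn c h (d b) b) v < ρ := by
      rintro ⟨b, hb, hbd⟩
      have e := W5a_uniq hp b a hb ha v hv hbd.le hd
      subst e
      omega
    have h1 : gW c h ρ g W d H v = g (flo (2 * h) h v) := by
      unfold gW
      rw [dif_neg hno]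
    obtain ⟨x, hx, hxc⟩ := dst_spec (mn_ex hp a ha v hv)
    obtain ⟨i, -, hi⟩ := mn_flo hp a ha x hx
    have h3 := hp.rD
    have h4 : (0 : ℤ) ≤ ρ := Int.natCast_nonneg ρ
    have hmem := (hi v hv (dst (Mn c h (d a) a) v) (by rw [heq]; linarith) hxc).1
    rw [h1, heq, Nat.sub_self, (hp.hom a ha).h0 _ hmem]

theorem gW_out (c : Cube V) (h ρ : ℕ) (g : (V → ℤ) → (J → ℤ)) (W : Finset (Wire V J))
    (d : Wire V J → ℤ) (H : Wire V J → (V → ℤ) → ℕ → ℕ → (J → ℤ)) (v : V → ℤ)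
    (hv : ∀ a ∈ W, ρ ≤ dst (Mn c h (d a) a) v) : gW c h ρ g W d H v = g (flo (2 * h) h v) := by
  classical
  have hno : ¬ ∃ b ∈ W, dst (Mn c h (d b) b) v < ρ := by
    rintro ⟨b, hb, hbd⟩
    exact absurd (hv b hb) (not_le.2 hbd)
  unfold gW
  rw [dif_neg hno]

theorem gW_bdy {n : ℕ} {c : Cube V} {L h : ℕ} {C : Set (Cube J)} {g : (V → ℤ) → (J → ℤ)}
    {W : Finset (Wire V J)} {p : Cube J → (V → ℤ)} {ρ : ℕ} {D : ℤ} {d : Wire V J → ℤ}
    {A : Wire V J → ℕ} {β : Wire V J → (V → ℤ) → (J → ℤ)}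
    {H : Wire V J → (V → ℤ) → ℕ → ℕ → (J → ℤ)}
    (hp : LPar n c L h C g W p ρ D d A β H) (v : V → ℤ)
    (hv : InB (2 * h * L) c v) (hv' : ¬ InI (2 * h * L) c v) :
    gW c h ρ g W d H v = g (flo (2 * h) h v) := by
  refine gW_out c h ρ g W d H v (fun a ha => ?_)
  by_contra hlt
  have hlt' := not_le.1 hlt
  apply hv'
  obtain ⟨x, hx, hxc⟩ := dst_spec (mn_ex hp a ha v hv)
  obtain ⟨hb1, -⟩ := mn_box hp a ha x hx
  have h3 := hp.rD
  have h4 : (0 : ℤ) ≤ ρ := Int.natCast_nonneg ρ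
  have h5 : ((dst (Mn c h (d a) a) v : ℕ) : ℤ) < ρ := by exact_mod_cast hlt'
  refine ⟨fun j hj => ?_, fun j hj => ?_⟩
  · have h6 := abs_le.1 (hxc j)
    obtain ⟨h7, h8⟩ := hb1 j hj
    constructor <;> linarith [h6.1, h6.2]
  · have h6 := hv j
    have h7 : c.hi j = c.lo j := if_neg hj
    rw [h7] at h6
    exact le_antisymm h6.2 h6.1

end AGE
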