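import Pool.Agent.AGE.WDefs
import Pool.Agent.AGE.C1b
import Pool.Agent.AGE.W2
import Pool.Agent.AGE.W3
import Pool.Agent.AGE.W4a
import Pool.Agent.AGE.W4b
import Pool.Agent.AGE.W5a

/-!
# AGE-W5b: the fine map: spans

A fine cube either meets no tube, or all its vertices are close to the main part of one wire; then their coarse points
are at most two neighbours, and the tube homotopy gives the span.
-/

set_option autoImplicit false

noncomputable section

namespace AGE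

variable {V J : Type} [LinearOrder V] [LinearOrder J]

private theorem W5b_min {Q : Cube V} (f : (V → ℤ) → ℕ)
    (hf : ∀ v v', Q.Has v → Q.Has v' → f v' ≤ f v + 1) :
    ∃ v₀, Q.Has v₀ ∧ ∀ v, Q.Has v → f v₀ ≤ f v ∧ f v ≤ f v₀ + 1 := by
  classical
  have hex : ∃ r, ∃ v, Q.Has v ∧ f v = r := ⟨_, Q.lo, Cube.has_lo Q, rfl⟩
  obtain ⟨v₀, h0, h1⟩ := Nat.find_spec hex
  refine ⟨v₀, h0, fun v hv => ⟨?_, hf v₀ v h0 hv⟩⟩
  rw [h1]
  exact Nat.find_min' hex ⟨v, hv, rfl⟩

omit [LinearOrder J] in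
private theorem W5b_tm {c : Cube V} {h : ℕ} {d : ℤ} {a : Wire V J} {v v' : V → ℤ}
    (hv : Cls 1 v v') : tm c h d a v' ≤ tm c h d a v + 1 := by
  have e1 : |v' a.i1 - qA c h d a a.i1| ≤ |v a.i1 - qA c h d a a.i1| + 1 := by
    have h1 := abs_sub_le (v' a.i1) (v a.i1) (qA c h d a a.i1)
    have h2 := hv a.i1
    rw [abs_sub_comm] at h2
    push_cast at h2
    linarith
  have e2 : |v' a.i2 - qB c h d a a.i2| ≤ |v a.i2 - qB c h d a a.i2| + 1 := by
    have h1 := abs_sub_le (v' a.i2) (v a.i2) (qB c h d a a.i2)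
    have h2 := hv a.i2
    rw [abs_sub_comm] at h2
    push_cast at h2
    linarith
  unfold tm
  generalize |v' a.i1 - qA c h d a a.i1| = X1 at *
  generalize |v a.i1 - qA c h d a a.i1| = X2 at *
  generalize |v' a.i2 - qB c h d a a.i2| = X3 at *
  generalize |v a.i2 - qB c h d a a.i2| = X4 at *
  omega

/-- the coarse edge -/
private theorem W5b_edge {n : ℕ} {c : Cube V} {L h : ℕ} {C : Set (Cube J)}
    {g : (V → ℤ) → (J → ℤ)}
    {W : Finset (Wire V J)} {p : Cube J → (V → ℤ)} {ρ : ℕ} {D : ℤ} {d : Wire V J → ℤ}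
    {A : Wire V J → ℕ} {β : Wire V J → (V → ℤ) → (J → ℤ)}
    {H : Wire V J → (V → ℤ) → ℕ → ℕ → (J → ℤ)}
    (hp : LPar n c L h C g W p ρ D d A β H) (y y' : V → ℤ) (hy : InB L c y) (hy' : InB L c y')
    (hyy : Adj y y') : ∃ S ∈ C, S.dim ≤ 1 ∧ S.Has (g y) ∧ S.Has (g y') := by
  classical
  obtain ⟨i, hi, hi1⟩ := hyy
  set E : Cube V := ⟨fun j => min (y j) (y' j), if y i = y' i then ∅ else {i}⟩ with hE
  have hhi : ∀ j, E.hi j = max (y j) (y' j) := by
    intro j
    by_cases h0 : y i = y' i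
    · have h1 : y j = y' j := by
        by_cases hj : j = i
        · rw [hj]
          exact h0
        · exact hi j hj
      have h2 : E.fr = ∅ := by simp [hE, h0]
      simp only [Cube.hi, h2, Finset.notMem_empty, if_false]
      simp [hE, h1]
    · have h2 : E.fr = {i} := by simp [hE, h0]
      simp only [Cube.hi, h2, Finset.mem_singleton]
      by_cases hj : j = i
      · rw [if_pos hj]
        subst hj
        simp only [hE]
        rw [abs_le] at hi1
        omega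
      · rw [if_neg hj]
        simp only [hE]
        rw [hi j hj]
        simp
  have hlo : ∀ j, E.lo j = min (y j) (y' j) := fun j => rfl
  have hQ : E.InM L c := by
    intro j
    rw [hhi, hlo]
    exact ⟨le_min (hy j).1 (hy' j).1, max_le (hy j).2 (hy' j).2⟩
  obtain ⟨S, hS, hd, hh⟩ := hp.cel E hQ
  refine ⟨S, hS, hd.trans ?_, hh y fun j => ?_, hh y' fun j => ?_⟩
  · simp only [Cube.dim, hE]
    split_ifs <;> simp
  · rw [hhi, hlo]
    exact ⟨min_le_left _ _, le_max_left _ _⟩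
  · rw [hhi, hlo]
    exact ⟨min_le_right _ _, le_max_right _ _⟩

theorem gW_cub {n : ℕ} {c : Cube V} {L h : ℕ} {C : Set (Cube J)} {g : (V → ℤ) → (J → ℤ)}
    {W : Finset (Wire V J)} {p : Cube J → (V → ℤ)} {ρ : ℕ} {D : ℤ} {d : Wire V J → ℤ}
    {A : Wire V J → ℕ} {β : Wire V J → (V → ℤ) → (J → ℤ)}
    {H : Wire V J → (V → ℤ) → ℕ → ℕ → (J → ℤ)}
    (hp : LPar n c L h C g W p ρ D d A β H) (Q : Cube V)
    (hQ : Q.InM (2 * h * L) c) :
    (∀ v, Q.Has v → gW c h ρ g W d H v = g (flo (2 * h) h v)) ∨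
    ((∃ S ∈ C, S.dim ≤ n ∧ ∀ v, Q.Has v → S.Has (gW c h ρ g W d H v)) ∧
      ∃ S : Cube J, S.dim ≤ n ∧ ∀ v, Q.Has v → S.Has (g (flo (2 * h) h v))) := by
  classical
  by_cases hno : ∀ v, Q.Has v → ∀ a ∈ W, ρ ≤ dst (Mn c h (d a) a) v
  · exact Or.inl fun v hv => gW_out c h ρ g W d H v (hno v hv)
  right
  push Not at hno
  obtain ⟨v₀, hv₀, a, ha, hd₀⟩ := hno
  have n2 := hp.n2
  have rD := hp.rD
  have rA := hp.rA a ha
  have hh' := hp.hh
  have hh0 : 0 < h := by omega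
  have hin : ∀ v, Q.Has v → InB (2 * h * L) c v := fun v hv => inb_of_has hQ hv
  have hinL : ∀ v, Q.Has v → InB L c (flo (2 * h) h v) := fun v hv => flo_inb hh0 (hin v hv)
  have hex : ∀ v, Q.Has v → ∃ r, ∃ x ∈ Mn c h (d a) a, Cls r v x :=
    fun v hv => mn_ex hp a ha v (hin v hv)
  obtain ⟨x, hx, hx0⟩ := dst_spec (hex v₀ hv₀)
  have hxv : ∀ v, Q.Has v → Cls ρ v x := by
    intro v hv
    exact cls_mono (by omega) (cls_trans (has_cls hv hv₀) hx0)
  have hdle : ∀ v, Q.Has v → dst (Mn c h (d a) a) v ≤ ρ := fun v hv => dst_le ⟨x, hx, hxv v hv⟩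
  have hgW : ∀ v, Q.Has v → gW c h ρ g W d H v =
      H a (flo (2 * h) h v) (ρ - dst (Mn c h (d a) a) v) (tm c h (d a) a v) :=
    fun v hv => gW_tube' hp a ha v (hin v hv) (hdle v hv)
  obtain ⟨i, hi, hfl⟩ := mn_flo hp a ha x hx
  have hY : ∀ v, Q.Has v → flo (2 * h) h v ∈ Stc c.fr (rkw c.fr) a.A a.B :=
    fun v hv => (hfl v (hin v hv) ρ (by omega) (hxv v hv)).1
  have hoff : ∀ v, Q.Has v → ∀ j, j ≠ i → flo (2 * h) h v j = flo (2 * h) h x j :=
    fun v hv => (hfl v (hin v hv) ρ (by omega) (hxv v hv)).2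
  have hcl : ∀ v v', Q.Has v → Q.Has v' → |flo (2 * h) h v i - flo (2 * h) h v' i| ≤ 1 := by
    intro v v' hv hv'
    have h1 := flo_cls hh0 (has_cls hv hv') i
    exact_mod_cast h1
  have hadj : ∀ v v', Q.Has v → Q.Has v' → Adj (flo (2 * h) h v) (flo (2 * h) h v') := by
    intro v v' hv hv'
    refine ⟨i, fun j hj => ?_, hcl v v' hv hv'⟩
    rw [hoff v hv j hj, hoff v' hv' j hj]
  -- the second vertex
  obtain ⟨v₁, hv₁, htwo⟩ : ∃ v₁, Q.Has v₁ ∧ ∀ v, Q.Has v →
      flo (2 * h) h v = flo (2 * h) h v₀ ∨ flo (2 * h) h v = flo (2 * h) h v₁ := by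
    have hext : ∀ v v', Q.Has v → Q.Has v' → flo (2 * h) h v i = flo (2 * h) h v' i →
        flo (2 * h) h v = flo (2 * h) h v' := by
      intro v v' hv hv' he
      funext j
      by_cases hj : j = i
      · rw [hj]
        exact he
      · rw [hoff v hv j hj, hoff v' hv' j hj]
    by_cases hall : ∀ v, Q.Has v → flo (2 * h) h v = flo (2 * h) h v₀
    · exact ⟨v₀, hv₀, fun v hv => Or.inl (hall v hv)⟩
    · push Not at hall
      obtain ⟨v₁, hv₁, hne⟩ := hall
      refine ⟨v₁, hv₁, fun v hv => ?_⟩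
      have h1 := hcl v v₀ hv hv₀
      have h2 := hcl v v₁ hv hv₁
      have h3 := hcl v₁ v₀ hv₁ hv₀
      have h4 : flo (2 * h) h v₁ i ≠ flo (2 * h) h v₀ i := fun he => hne (hext v₁ v₀ hv₁ hv₀ he)
      rw [abs_le] at h1 h2 h3
      by_cases h5 : flo (2 * h) h v i = flo (2 * h) h v₀ i
      · exact Or.inl (hext v v₀ hv hv₀ h5)
      · refine Or.inr (hext v v₁ hv hv₁ ?_)
        omega
  obtain ⟨S₁, hS₁C, hS₁d, hS₁a, hS₁b⟩ := W5b_edge hp _ _ (hinL v₀ hv₀) (hinL v₁ hv₁)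
    (hadj v₀ v₁ hv₀ hv₁)
  refine ⟨?_, S₁, by omega, fun v hv => ?_⟩
  swap
  · rcases htwo v hv with h1 | h1 <;> rw [h1]
    · exact hS₁a
    · exact hS₁b
  obtain ⟨vr, hvr, hr⟩ := W5b_min (Q := Q) (fun v => ρ - dst (Mn c h (d a) a) v) (by
    intro v v' hv hv'
    have h1 := dst_lip (hex v' hv') (has_cls hv' hv)
    omega)
  obtain ⟨vt, hvt, ht⟩ := W5b_min (Q := Q) (fun v => tm c h (d a) a v)
    (fun v v' hv hv' => W5b_tm (has_cls hv hv'))
  have hom := hp.hom a ha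
  have bet := hp.bet a ha
  have wok := hp.ws.ok a ha
  by_cases htA : A a ≤ tm c h (d a) a vt
  · obtain ⟨S₂, hS₂le, hS₂d, hS₂a, hS₂b⟩ := bet.adj _ _ (hadj v₀ v₁ hv₀ hv₁)
    obtain ⟨S, hS, hSd, hSh⟩ := hom.h4 _ (hY v₀ hv₀) _ (hY v₁ hv₁) ⟨S₁, hS₁C, hS₁d, hS₁a, hS₁b⟩
      ⟨S₂, hp.hC _ wok.tyC _ hS₂le, hS₂d, hS₂a, hS₂b⟩ (ρ - dst (Mn c h (d a) a) vr)
      (tm c h (d a) a vt) htA
    refine ⟨S, hS, by omega, fun v hv => ?_⟩
    rw [hgW v hv]
    have h1 := hSh _ _ (hr v hv).1 (hr v hv).2 (ht v hv).1 (ht v hv).2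
    rcases htwo v hv with h2 | h2 <;> rw [h2]
    · exact h1.1
    · exact h1.2
  · push Not at htA
    have hmain : ∃ y ∈ Stc c.fr (rkw c.fr) a.A a.B, g y = β a y ∧
        ∀ v, Q.Has v → flo (2 * h) h v = y := by
      have hor : |vt a.i1 - qA c h (d a) a a.i1| ≤ (A a : ℤ) + 2 ∨
          |vt a.i2 - qB c h (d a) a a.i2| ≤ (A a : ℤ) + 2 := by
        unfold tm at htA
        generalize |vt a.i1 - qA c h (d a) a a.i1| = X1 at *
        generalize |vt a.i2 - qB c h (d a) a a.i2| = X2 at *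
        omega
      rcases hor with h1 | h1
      · have h2 : Cls (A a + 2 + ρ) x (qA c h (d a) a) := by
          refine mn_ramp_A hp a ha x hx _ (by push_cast; omega) ?_
          have h3 := abs_sub_le (x a.i1) (vt a.i1) (qA c h (d a) a a.i1)
          have h4 := hxv vt hvt a.i1
          rw [abs_sub_comm] at h4
          push_cast
          linarith
        have h3 : ∀ v, Q.Has v → flo (2 * h) h v = a.A := fun v hv =>
          flo_qA hp a ha v (hin v hv) (ρ + (A a + 2 + ρ)) (by push_cast; omega)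
            (cls_trans (hxv v hv) h2)
        refine ⟨a.A, ?_, bet.bA.symm, h3⟩
        have h4 := hY v₀ hv₀
        rw [h3 v₀ hv₀] at h4
        exact h4
      · have h2 : Cls (A a + 2 + ρ) x (qB c h (d a) a) := by
          refine mn_ramp_B hp a ha x hx _ (by push_cast; omega) ?_
          have h3 := abs_sub_le (x a.i2) (vt a.i2) (qB c h (d a) a a.i2)
          have h4 := hxv vt hvt a.i2
          rw [abs_sub_comm] at h4
          push_cast
          linarith
        have h3 : ∀ v, Q.Has v → flo (2 * h) h v = a.B := fun v hv =>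
          flo_qB hp a ha v (hin v hv) (ρ + (A a + 2 + ρ)) (by push_cast; omega)
            (cls_trans (hxv v hv) h2)
        refine ⟨a.B, ?_, bet.bB.symm, h3⟩
        have h4 := hY v₀ hv₀
        rw [h3 v₀ hv₀] at h4
        exact h4
    obtain ⟨y, hyY, hgy, hy⟩ := hmain
    obtain ⟨S, hS, hSd, hSh⟩ := hom.h3 y hyY hgy (ρ - dst (Mn c h (d a) a) vr)
      (tm c h (d a) a vt)
    refine ⟨S, hS, by omega, fun v hv => ?_⟩
    rw [hgW v hv, hy v hv]
    exact hSh _ _ (hr v hv).1 (hr v hv).2 (ht v hv).1 (ht v hv).2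

end AGE
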