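import Pool.Agent.AGE.WDefs
import Pool.Agent.AGE.W2
import Pool.Agent.AGE.W3

/-!
# AGE-W4c: geometry of the wires, part 3: junctions

Plan. Coordinatewise, `M = 2 h`. `Stj`: if `a.ep = false` then `zP = M P`; for `j ≠ i0` `P j = A j` and `x j` is between `M A j` and `M A j + d`; for `i0` either the same or `P i0 = A i0 + 1 = L hi i0` and `x i0` is between
`M A i0 + d` and `M (A i0 + 1)`. If `a.ep = true`, `P = A` and `x j` is between `M A j + d` and `M A j + h - 1`. `Enj`: `x j` between `M B j` and `M B j + d`. Off `c.fr` all points have `x j = M L lo j`.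
`stj_flo0`: a neighbour `v` in the box is in the block of `A` or of `P` (for `i0` with `P i0 = A i0 + 1` the coordinate `v i0 ≤ M P i0` by the box). `stj_flo1`: `flo v j ∈ {A j, A j + 1}`. `stj_bnd`: if `x ≠ zP` then all
coordinates are strictly inside: the pivot `i` of `x`: coordinates before the pivot are those of `qA` (strictly inside), the coordinates `j ≠ i0` are strictly inside always (`L lo j < P j = A j < L hi j`), the coordinate `i0` has
the smallest rank, so either it is before the pivot, or it is the pivot and `x i0` is between `zP i0` and `qA i0`, `x i0 = zP i0` only if `x = zP`. If `ep = true` all coordinates are strictly inside.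
-/

set_option autoImplicit false

noncomputable section

namespace AGE

variable {V J : Type} [LinearOrder V] [LinearOrder J]

private theorem W4c_par {n : ℕ} {c : Cube V} {L h : ℕ} {C : Set (Cube J)} {g : (V → ℤ) → (J → ℤ)}
    {W : Finset (Wire V J)} {p : Cube J → (V → ℤ)} {ρ : ℕ} {D : ℤ} {d : Wire V J → ℤ}
    {A : Wire V J → ℕ} {β : Wire V J → (V → ℤ) → (J → ℤ)}
    {H : Wire V J → (V → ℤ) → ℕ → ℕ → (J → ℤ)}
    (hp : LPar n c L h C g W p ρ D d A β H) (a : Wire V J) (ha : a ∈ W) :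
    36 ≤ d a ∧ d a + 36 ≤ (h : ℤ) := by
  have h1 := hp.rA a ha
  have h2 := hp.rD
  have h3 := hp.dl a ha
  have h4 := hp.du a ha
  omega

private theorem W4c_btw {fr : Finset V} {r : V → ℕ} (hr : Set.InjOn r (fr : Set V))
    {a b x : V → ℤ} (hx : x ∈ Stc fr r a b) (j : V) (hj : j ∈ fr) :
    min (a j) (b j) ≤ x j ∧ x j ≤ max (a j) (b j) := by
  obtain ⟨_, i, hi, h1, h2, h3, h4⟩ := hx
  rcases lt_trichotomy (r j) (r i) with h | h | h
  · rw [h1 j hj h]
    exact ⟨min_le_right _ _, le_max_right _ _⟩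
  · have e : j = i := hr hj hi h
    subst e
    exact ⟨h3, h4⟩
  · rw [h2 j hj h]
    exact ⟨min_le_left _ _, le_max_left _ _⟩

private theorem W4c_low {h L : ℕ} {lo A : ℤ} (hA : (L : ℤ) * lo ≤ A) :
    ((2 * h * L : ℕ) : ℤ) * lo ≤ 2 * (h : ℤ) * A := by
  have h1 : (0 : ℤ) ≤ 2 * (h : ℤ) := by positivity
  calc ((2 * h * L : ℕ) : ℤ) * lo = 2 * (h : ℤ) * ((L : ℤ) * lo) := by push_cast; ring
    _ ≤ 2 * (h : ℤ) * A := mul_le_mul_of_nonneg_left hA h1

private theorem W4c_up {h L : ℕ} {hi A : ℤ} (hA : A < (L : ℤ) * hi) :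
    2 * (h : ℤ) * A + 2 * h ≤ ((2 * h * L : ℕ) : ℤ) * hi := by
  have h1 : (0 : ℤ) ≤ 2 * (h : ℤ) := by positivity
  have h2 : A + 1 ≤ (L : ℤ) * hi := hA
  calc 2 * (h : ℤ) * A + 2 * h = 2 * (h : ℤ) * (A + 1) := by ring
    _ ≤ 2 * (h : ℤ) * ((L : ℤ) * hi) := mul_le_mul_of_nonneg_left h2 h1
    _ = ((2 * h * L : ℕ) : ℤ) * hi := by push_cast; ring

private theorem W4c_eq {h L : ℕ} {lo A : ℤ} (hA : A = (L : ℤ) * lo) :
    2 * (h : ℤ) * A = ((2 * h * L : ℕ) : ℤ) * lo := by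
  rw [hA]
  push_cast
  ring

private theorem W4c_mul {h : ℕ} (v : V → ℤ) (j : V) : mul (2 * h) v j = 2 * (h : ℤ) * v j := by
  unfold mul
  push_cast
  ring

private theorem W4c_shf {fr : Finset V} {e : ℤ} (v : V → ℤ) (j : V) (hj : j ∈ fr) :
    shf fr e v j = v j + e := by
  unfold shf
  rw [if_pos hj]

private theorem W4c_shf' {fr : Finset V} {e : ℤ} (v : V → ℤ) (j : V) (hj : j ∉ fr) :
    shf fr e v j = v j := by
  unfold shf
  rw [if_neg hj, add_zero]

private theorem W4c_hi {c : Cube V} {j : V} (hj : j ∉ c.fr) : c.hi j = c.lo j := by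
  unfold Cube.hi
  rw [if_neg hj]

private theorem W4c_PA {n : ℕ} {c : Cube V} {L h : ℕ} {C : Set (Cube J)} {g : (V → ℤ) → (J → ℤ)}
    {W : Finset (Wire V J)} {p : Cube J → (V → ℤ)} {ρ : ℕ} {D : ℤ} {d : Wire V J → ℤ}
    {A : Wire V J → ℕ} {β : Wire V J → (V → ℤ) → (J → ℤ)}
    {H : Wire V J → (V → ℤ) → ℕ → ℕ → (J → ℤ)}
    (hp : LPar n c L h C g W p ρ D d A β H) (a : Wire V J) (ha : a ∈ W) (j : V)
    (hj : j ∉ c.fr) : a.P j = a.A j := by
  have ho := hp.ws.ok a ha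
  cases hep : a.ep with
  | false =>
    refine ((ho.st0 hep).1 j fun he => hj ?_).1
    rw [he]
    exact ho.m0
  | true => rw [(ho.st1 hep).1]

private theorem W4c_zP0 {n : ℕ} {c : Cube V} {L h : ℕ} {C : Set (Cube J)} {g : (V → ℤ) → (J → ℤ)}
    {W : Finset (Wire V J)} {p : Cube J → (V → ℤ)} {ρ : ℕ} {D : ℤ} {d : Wire V J → ℤ}
    {A : Wire V J → ℕ} {β : Wire V J → (V → ℤ) → (J → ℤ)}
    {H : Wire V J → (V → ℤ) → ℕ → ℕ → (J → ℤ)}
    (hp : LPar n c L h C g W p ρ D d A β H) (a : Wire V J) (ha : a ∈ W) (j : V)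
    (hj : j ∉ c.fr) : zP c h a j = 2 * (h : ℤ) * a.A j := by
  unfold zP
  split_ifs
  · rw [W4c_shf' _ _ hj, W4c_mul, W4c_PA hp a ha j hj]
  · rw [W4c_mul, W4c_PA hp a ha j hj]

/-- The coordinates of the points of the start junction. -/
private theorem W4c_stj {n : ℕ} {c : Cube V} {L h : ℕ} {C : Set (Cube J)} {g : (V → ℤ) → (J → ℤ)}
    {W : Finset (Wire V J)} {p : Cube J → (V → ℤ)} {ρ : ℕ} {D : ℤ} {d : Wire V J → ℤ}
    {A : Wire V J → ℕ} {β : Wire V J → (V → ℤ) → (J → ℤ)}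
    {H : Wire V J → (V → ℤ) → ℕ → ℕ → (J → ℤ)}
    (hp : LPar n c L h C g W p ρ D d A β H) (a : Wire V J) (ha : a ∈ W)
    (x : V → ℤ) (hx : x ∈ Stj c h (d a) a) :
    (∀ j, j ∉ c.fr → x j = 2 * (h : ℤ) * a.A j) ∧
    ∀ j ∈ c.fr, (a.P j = a.A j ∧ a.ep = false ∧ 2 * (h : ℤ) * a.A j ≤ x j ∧
        x j ≤ 2 * (h : ℤ) * a.A j + d a) ∨
      (a.P j = a.A j + 1 ∧ a.ep = false ∧ j = a.i0 ∧ a.P j = (L : ℤ) * c.hi j ∧
        2 * (h : ℤ) * a.A j + d a ≤ x j ∧ x j ≤ 2 * (h : ℤ) * a.A j + 2 * h) ∨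
      (a.P j = a.A j ∧ a.ep = true ∧ 2 * (h : ℤ) * a.A j + d a ≤ x j ∧
        x j ≤ 2 * (h : ℤ) * a.A j + h - 1) := by
  have hd := W4c_par hp a ha
  have ho := hp.ws.ok a ha
  refine ⟨fun j hj => ?_, fun j hj => ?_⟩
  · rw [hx.1 j hj, W4c_zP0 hp a ha j hj]
  · have hb := W4c_btw (rkw2_inj c.fr a.i0 a.i1) hx j hj
    have e1 : qA c h (d a) a j = 2 * (h : ℤ) * a.A j + d a := by
      unfold qA
      rw [W4c_shf _ _ hj, W4c_mul]
    rw [e1] at hb
    cases hep : a.ep with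
    | false =>
      have e2 : zP c h a j = 2 * (h : ℤ) * a.P j := by
        unfold zP
        rw [hep, if_neg (by simp), W4c_mul]
      rw [e2] at hb
      obtain ⟨s1, s2, _, _⟩ := ho.st0 hep
      have key : a.P j = a.A j ∨ (a.P j = a.A j + 1 ∧ j = a.i0 ∧ a.P j = (L : ℤ) * c.hi j) := by
        by_cases hji : j = a.i0
        · subst hji
          rcases s2 with s2 | ⟨s2, s3⟩
          · exact Or.inl s2
          · exact Or.inr ⟨s2, rfl, s3⟩
        · exact Or.inl (s1 j hji).1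
      rcases key with hP | ⟨hP, hji, hP'⟩
      · left
        rw [hP, min_eq_left (by linarith), max_eq_right (by linarith)] at hb
        exact ⟨hP, rfl, hb.1, hb.2⟩
      · right
        left
        have e3 : 2 * (h : ℤ) * a.P j = 2 * (h : ℤ) * a.A j + 2 * h := by
          rw [hP]
          ring
        rw [e3, min_eq_right (by linarith), max_eq_left (by linarith)] at hb
        exact ⟨hP, rfl, hji, hP', hb.1, hb.2⟩
    | true =>
      right
      right
      have hPA := (ho.st1 hep).1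
      have e2 : zP c h a j = 2 * (h : ℤ) * a.A j + ((h : ℤ) - 1) := by
        unfold zP
        rw [hep, if_pos rfl, W4c_shf _ _ hj, W4c_mul, hPA]
      rw [e2, min_eq_right (by linarith), max_eq_left (by linarith)] at hb
      exact ⟨by rw [hPA], rfl, hb.1, by linarith [hb.2]⟩

/-- The coordinates of the points of the end junction. -/
private theorem W4c_enj {n : ℕ} {c : Cube V} {L h : ℕ} {C : Set (Cube J)} {g : (V → ℤ) → (J → ℤ)}
    {W : Finset (Wire V J)} {p : Cube J → (V → ℤ)} {ρ : ℕ} {D : ℤ} {d : Wire V J → ℤ}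
    {A : Wire V J → ℕ} {β : Wire V J → (V → ℤ) → (J → ℤ)}
    {H : Wire V J → (V → ℤ) → ℕ → ℕ → (J → ℤ)}
    (hp : LPar n c L h C g W p ρ D d A β H) (a : Wire V J) (ha : a ∈ W)
    (x : V → ℤ) (hx : x ∈ Enj c h (d a) a) :
    (∀ j, j ∉ c.fr → x j = 2 * (h : ℤ) * a.B j) ∧
    ∀ j ∈ c.fr, 2 * (h : ℤ) * a.B j ≤ x j ∧ x j ≤ 2 * (h : ℤ) * a.B j + d a := by
  have hd := W4c_par hp a ha
  refine ⟨fun j hj => ?_, fun j hj => ?_⟩
  · rw [hx.1 j hj, W4c_mul]
  · have hb := W4c_btw (rkw2_inj c.fr a.i2 a.i2) hx j hj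
    have e1 : qB c h (d a) a j = 2 * (h : ℤ) * a.B j + d a := by
      unfold qB
      rw [W4c_shf _ _ hj, W4c_mul]
    rw [e1, W4c_mul, min_eq_left (by linarith), max_eq_right (by linarith)] at hb
    exact hb

theorem stj_box {n : ℕ} {c : Cube V} {L h : ℕ} {C : Set (Cube J)} {g : (V → ℤ) → (J → ℤ)}
    {W : Finset (Wire V J)} {p : Cube J → (V → ℤ)} {ρ : ℕ} {D : ℤ} {d : Wire V J → ℤ}
    {A : Wire V J → ℕ} {β : Wire V J → (V → ℤ) → (J → ℤ)}
    {H : Wire V J → (V → ℤ) → ℕ → ℕ → (J → ℤ)}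
    (hp : LPar n c L h C g W p ρ D d A β H) (a : Wire V J) (ha : a ∈ W)
    (x : V → ℤ) (hx : x ∈ Stj c h (d a) a) :
    InB (2 * h * L) c x ∧ ∀ j, |x j - 2 * (h : ℤ) * a.P j| ≤ 2 * h := by
  have hd := W4c_par hp a ha
  have ho := hp.ws.ok a ha
  obtain ⟨h1, h2⟩ := W4c_stj hp a ha x hx
  refine ⟨fun j => ?_, fun j => ?_⟩
  · by_cases hj : j ∈ c.fr
    · obtain ⟨k1, k2⟩ := (ho.inA j).1 hj
      have k3 := W4c_low (h := h) k1
      have k4 := W4c_up (h := h) k2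
      rcases h2 j hj with ⟨_, _, g1, g2⟩ | ⟨_, _, _, _, g1, g2⟩ | ⟨_, _, g1, g2⟩
      · exact ⟨by linarith, by linarith⟩
      · exact ⟨by linarith, by linarith⟩
      · exact ⟨by linarith, by linarith⟩
    · have k1 := W4c_eq (h := h) ((ho.inA j).2 hj)
      rw [W4c_hi hj, h1 j hj, k1]
      exact ⟨le_refl _, le_refl _⟩
  · rw [abs_le]
    by_cases hj : j ∈ c.fr
    · rcases h2 j hj with ⟨g0, _, g1, g2⟩ | ⟨g0, _, _, _, g1, g2⟩ | ⟨g0, _, g1, g2⟩
      · rw [g0]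
        exact ⟨by linarith, by linarith⟩
      · have e3 : 2 * (h : ℤ) * a.P j = 2 * (h : ℤ) * a.A j + 2 * h := by
          rw [g0]
          ring
        rw [e3]
        exact ⟨by linarith, by linarith⟩
      · rw [g0]
        exact ⟨by linarith, by linarith⟩
    · rw [h1 j hj, W4c_PA hp a ha j hj]
      exact ⟨by linarith, by linarith⟩

theorem enj_box {n : ℕ} {c : Cube V} {L h : ℕ} {C : Set (Cube J)} {g : (V → ℤ) → (J → ℤ)}
    {W : Finset (Wire V J)} {p : Cube J → (V → ℤ)} {ρ : ℕ} {D : ℤ} {d : Wire V J → ℤ}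
    {A : Wire V J → ℕ} {β : Wire V J → (V → ℤ) → (J → ℤ)}
    {H : Wire V J → (V → ℤ) → ℕ → ℕ → (J → ℤ)}
    (hp : LPar n c L h C g W p ρ D d A β H) (a : Wire V J) (ha : a ∈ W)
    (x : V → ℤ) (hx : x ∈ Enj c h (d a) a) :
    InI (2 * h * L) c x ∧ ∀ j, |x j - 2 * (h : ℤ) * a.B j| ≤ h := by
  have hd := W4c_par hp a ha
  have ho := hp.ws.ok a ha
  obtain ⟨h1, h2⟩ := W4c_enj hp a ha x hx
  refine ⟨⟨fun j hj => ?_, fun j hj => ?_⟩, fun j => ?_⟩
  · obtain ⟨k1, k2⟩ := ho.inB.1 j hj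
    have k3 := W4c_low (h := h) (A := a.B j - 1) (by linarith : (L : ℤ) * c.lo j ≤ a.B j - 1)
    have k4 := W4c_up (h := h) k2
    obtain ⟨g1, g2⟩ := h2 j hj
    constructor
    · have e : 2 * (h : ℤ) * (a.B j - 1) = 2 * (h : ℤ) * a.B j - 2 * h := by ring
      rw [e] at k3
      linarith
    · linarith
  · rw [h1 j hj]
    exact W4c_eq (ho.inB.2 j hj)
  · rw [abs_le]
    by_cases hj : j ∈ c.fr
    · obtain ⟨g1, g2⟩ := h2 j hj
      exact ⟨by linarith, by linarith⟩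
    · rw [h1 j hj]
      exact ⟨by linarith, by linarith⟩

theorem stj_flo0 {n : ℕ} {c : Cube V} {L h : ℕ} {C : Set (Cube J)} {g : (V → ℤ) → (J → ℤ)}
    {W : Finset (Wire V J)} {p : Cube J → (V → ℤ)} {ρ : ℕ} {D : ℤ} {d : Wire V J → ℤ}
    {A : Wire V J → ℕ} {β : Wire V J → (V → ℤ) → (J → ℤ)}
    {H : Wire V J → (V → ℤ) → ℕ → ℕ → (J → ℤ)}
    (hp : LPar n c L h C g W p ρ D d A β H) (a : Wire V J) (ha : a ∈ W)
    (hep : a.ep = false) (x v : V → ℤ) (hx : x ∈ Stj c h (d a) a) (hv : InB (2 * h * L) c v)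
    (hxv : Cls 1 v x) : flo (2 * h) h v = a.A ∨ flo (2 * h) h v = a.P := by
  have hd := W4c_par hp a ha
  have hh : 0 < h := by omega
  obtain ⟨h1, h2⟩ := W4c_stj hp a ha x hx
  -- the coordinates with `P j = A j`
  have hA : ∀ j, a.P j = a.A j → flo (2 * h) h v j = a.A j := by
    intro j hPj
    have hc := abs_le.1 (hxv j)
    push_cast at hc
    by_cases hj : j ∈ c.fr
    · rcases h2 j hj with ⟨g0, _, g1, g2⟩ | ⟨g0, _, _, _, g1, g2⟩ | ⟨g0, g3, g1, g2⟩
      · exact flo_eq hh (by linarith [hc.1]) (by linarith [hc.2])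
      · exact absurd (hPj.symm.trans g0) (by omega)
      · rw [hep] at g3
        exact absurd g3 (by simp)
    · have g := h1 j hj
      exact flo_eq hh (by linarith [hc.1]) (by linarith [hc.2])
  by_cases hall : ∀ j, a.P j = a.A j
  · left
    funext j
    exact hA j (hall j)
  · push Not at hall
    obtain ⟨i, hi⟩ := hall
    have hic : i ∈ c.fr := by
      by_contra hj
      exact hi (W4c_PA hp a ha i hj)
    rcases h2 i hic with ⟨g0, _⟩ | ⟨g0, _, gi, gL, g1, g2⟩ | ⟨g0, _⟩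
    · exact absurd g0 hi
    · have hc := abs_le.1 (hxv i)
      push_cast at hc
      have hother : ∀ j, j ≠ i → a.P j = a.A j := by
        intro j hj
        rw [gi] at hj
        exact (((hp.ws.ok a ha).st0 hep).1 j hj).1
      have e3 : 2 * (h : ℤ) * (a.A i + 1) = 2 * (h : ℤ) * a.A i + 2 * h := by ring
      rcases lt_or_ge (v i) (2 * (h : ℤ) * a.A i + h) with hlt | hge
      · left
        funext j
        by_cases hj : j = i
        · subst hj
          exact flo_eq hh (by linarith [hc.1]) hlt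
        · exact hA j (hother j hj)
      · right
        funext j
        by_cases hj : j = i
        · subst hj
          rw [g0]
          refine flo_eq hh ?_ ?_
          · rw [e3]
            linarith
          · rw [e3]
            linarith [hc.1]
        · rw [hA j (hother j hj), hother j hj]
    · exact absurd g0 hi

theorem stj_flo1 {n : ℕ} {c : Cube V} {L h : ℕ} {C : Set (Cube J)} {g : (V → ℤ) → (J → ℤ)}
    {W : Finset (Wire V J)} {p : Cube J → (V → ℤ)} {ρ : ℕ} {D : ℤ} {d : Wire V J → ℤ}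
    {A : Wire V J → ℕ} {β : Wire V J → (V → ℤ) → (J → ℤ)}
    {H : Wire V J → (V → ℤ) → ℕ → ℕ → (J → ℤ)}
    (hp : LPar n c L h C g W p ρ D d A β H) (a : Wire V J) (ha : a ∈ W)
    (hep : a.ep = true) (x v : V → ℤ) (hx : x ∈ Stj c h (d a) a) (hv : InB (2 * h * L) c v)
    (hxv : Cls 1 v x) : ∀ j, a.A j ≤ flo (2 * h) h v j ∧
      flo (2 * h) h v j ≤ a.A j + if j ∈ c.fr then 1 else 0 := by
  have hd := W4c_par hp a ha
  have hh : 0 < h := by omega
  obtain ⟨h1, h2⟩ := W4c_stj hp a ha x hx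
  intro j
  have hc := abs_le.1 (hxv j)
  push_cast at hc
  by_cases hj : j ∈ c.fr
  · rw [if_pos hj]
    rcases h2 j hj with ⟨_, g3, _⟩ | ⟨_, g3, _⟩ | ⟨g0, _, g1, g2⟩
    · rw [hep] at g3
      exact absurd g3 (by simp)
    · rw [hep] at g3
      exact absurd g3 (by simp)
    · have e3 : 2 * (h : ℤ) * (a.A j + 1) = 2 * (h : ℤ) * a.A j + 2 * h := by ring
      rcases lt_or_ge (v j) (2 * (h : ℤ) * a.A j + h) with hlt | hge
      · have e := flo_eq hh (v := v) (j := j) (y := a.A j) (by linarith [hc.1]) hlt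
        rw [e]
        exact ⟨le_refl _, by linarith⟩
      · have e := flo_eq hh (v := v) (j := j) (y := a.A j + 1) (by rw [e3]; linarith)
          (by rw [e3]; linarith [hc.1])
        rw [e]
        exact ⟨by linarith, le_refl _⟩
  · rw [if_neg hj, add_zero]
    have g := h1 j hj
    have e := flo_eq hh (v := v) (j := j) (y := a.A j) (by linarith [hc.1]) (by linarith [hc.2])
    rw [e]
    exact ⟨le_refl _, le_refl _⟩

theorem enj_flo {n : ℕ} {c : Cube V} {L h : ℕ} {C : Set (Cube J)} {g : (V → ℤ) → (J → ℤ)}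
    {W : Finset (Wire V J)} {p : Cube J → (V → ℤ)} {ρ : ℕ} {D : ℤ} {d : Wire V J → ℤ}
    {A : Wire V J → ℕ} {β : Wire V J → (V → ℤ) → (J → ℤ)}
    {H : Wire V J → (V → ℤ) → ℕ → ℕ → (J → ℤ)}
    (hp : LPar n c L h C g W p ρ D d A β H) (a : Wire V J) (ha : a ∈ W)
    (x v : V → ℤ) (hx : x ∈ Enj c h (d a) a) (hv : InB (2 * h * L) c v)
    (hxv : Cls 1 v x) : flo (2 * h) h v = a.B := by
  have hd := W4c_par hp a ha
  have hh : 0 < h := by omega
  obtain ⟨h1, h2⟩ := W4c_enj hp a ha x hx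
  funext j
  have hc := abs_le.1 (hxv j)
  push_cast at hc
  by_cases hj : j ∈ c.fr
  · obtain ⟨g1, g2⟩ := h2 j hj
    exact flo_eq hh (by linarith [hc.1]) (by linarith [hc.2])
  · have g := h1 j hj
    exact flo_eq hh (by linarith [hc.1]) (by linarith [hc.2])

theorem stj_bnd {n : ℕ} {c : Cube V} {L h : ℕ} {C : Set (Cube J)} {g : (V → ℤ) → (J → ℤ)}
    {W : Finset (Wire V J)} {p : Cube J → (V → ℤ)} {ρ : ℕ} {D : ℤ} {d : Wire V J → ℤ}
    {A : Wire V J → ℕ} {β : Wire V J → (V → ℤ) → (J → ℤ)}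
    {H : Wire V J → (V → ℤ) → ℕ → ℕ → (J → ℤ)}
    (hp : LPar n c L h C g W p ρ D d A β H) (a : Wire V J) (ha : a ∈ W)
    (x : V → ℤ) (hx : x ∈ Stj c h (d a) a) (hx' : ¬ InI (2 * h * L) c x) :
    a.ep = false ∧ x = mul (2 * h) a.P ∧ ¬ InI L c a.P := by
  have hd := W4c_par hp a ha
  have hh : 0 < h := by omega
  have ho := hp.ws.ok a ha
  obtain ⟨h1, h2⟩ := W4c_stj hp a ha x hx
  have hoff : ∀ j, j ∉ c.fr → x j = ((2 * h * L : ℕ) : ℤ) * c.lo j := by
    intro j hj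
    rw [h1 j hj]
    exact W4c_eq ((ho.inA j).2 hj)
  have hup : ∀ j ∈ c.fr, x j < 2 * (h : ℤ) * a.A j + 2 * h → x j < ((2 * h * L : ℕ) : ℤ) * c.hi j :=
    fun j hj hlt => lt_of_lt_of_le hlt (W4c_up (h := h) ((ho.inA j).1 hj).2)
  have hlow : ∀ j ∈ c.fr, 2 * (h : ℤ) * a.A j < x j → ((2 * h * L : ℕ) : ℤ) * c.lo j < x j :=
    fun j hj hlt => lt_of_le_of_lt (W4c_low (h := h) ((ho.inA j).1 hj).1) hlt
  cases hep : a.ep with
  | true =>
    exfalso
    refine hx' ⟨fun j hj => ?_, hoff⟩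
    rcases h2 j hj with ⟨_, g3, _⟩ | ⟨_, g3, _⟩ | ⟨g0, _, g1, g2⟩
    · rw [hep] at g3
      exact absurd g3 (by simp)
    · rw [hep] at g3
      exact absurd g3 (by simp)
    · exact ⟨hlow j hj (by linarith), hup j hj (by linarith)⟩
  | false =>
    obtain ⟨s1, s2, _, _⟩ := ho.st0 hep
    have hz : ∀ j, zP c h a j = 2 * (h : ℤ) * a.P j := by
      intro j
      unfold zP
      rw [hep, if_neg (by simp), W4c_mul]
    -- the coordinates different from `i0` are strictly inside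
    have hother : ∀ j ∈ c.fr, j ≠ a.i0 → ((2 * h * L : ℕ) : ℤ) * c.lo j < x j ∧
        x j < ((2 * h * L : ℕ) : ℤ) * c.hi j := by
      intro j hj hji
      obtain ⟨k1, k2⟩ := s1 j hji
      have k3 := k2 hj
      rcases h2 j hj with ⟨g0, _, g1, g2⟩ | ⟨g0, _, gi, _⟩ | ⟨_, g3, _⟩
      · refine ⟨?_, hup j hj (by linarith)⟩
        have k4 := W4c_low (h := h) (A := a.P j - 1) (by linarith : (L : ℤ) * c.lo j ≤ a.P j - 1)
        have e : 2 * (h : ℤ) * (a.P j - 1) = 2 * (h : ℤ) * a.P j - 2 * h := by ring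
        rw [e, g0] at k4
        linarith
      · exact absurd gi hji
      · rw [hep] at g3
        exact absurd g3 (by simp)
    obtain ⟨x0, i, hi, x1, x2, x3, x4⟩ := hx
    have r0 : rkw2 c.fr a.i0 a.i1 a.i0 = 0 := by
      unfold rkw2
      rw [if_pos rfl]
    have r1 : ∀ j, j ≠ a.i0 → 0 < rkw2 c.fr a.i0 a.i1 j := by
      intro j hj
      unfold rkw2
      rw [if_neg hj]
      split_ifs
      · exact one_pos
      · exact Nat.succ_pos _
    by_cases hii : i = a.i0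
    · subst hii
      -- `x i0` is not strictly inside
      have hxi : x a.i0 = 2 * (h : ℤ) * a.P a.i0 := by
        by_contra hne
        refine hx' ⟨fun j hj => ?_, hoff⟩
        by_cases hj0 : j = a.i0
        · subst hj0
          rcases h2 a.i0 hj with ⟨g0, _, g1, g2⟩ | ⟨g0, _, _, _, g1, g2⟩ | ⟨_, g3, _⟩
          · rw [g0] at hne
            refine ⟨hlow _ hj (lt_of_le_of_ne g1 (Ne.symm hne)), hup _ hj (by linarith)⟩
          · have e3 : 2 * (h : ℤ) * a.P a.i0 = 2 * (h : ℤ) * a.A a.i0 + 2 * h := by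
              rw [g0]
              ring
            rw [e3] at hne
            exact ⟨hlow _ hj (by linarith), hup _ hj (lt_of_le_of_ne g2 hne)⟩
          · rw [hep] at g3
            exact absurd g3 (by simp)
        · exact hother j hj hj0
      have hxP : x = mul (2 * h) a.P := by
        funext j
        rw [W4c_mul]
        by_cases hj0 : j = a.i0
        · subst hj0
          exact hxi
        · by_cases hj : j ∈ c.fr
          · rw [x2 j hj (by rw [r0]; exact r1 j hj0), hz]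
          · rw [x0 j hj, hz]
      refine ⟨rfl, hxP, fun hP => hx' ?_⟩
      have h2h : (0 : ℤ) < 2 * (h : ℤ) := by positivity
      refine ⟨fun j hj => ?_, hoff⟩
      obtain ⟨q1, q2⟩ := hP.1 j hj
      rw [hxP, W4c_mul]
      constructor
      · calc ((2 * h * L : ℕ) : ℤ) * c.lo j = 2 * (h : ℤ) * ((L : ℤ) * c.lo j) := by push_cast; ring
          _ < 2 * (h : ℤ) * a.P j := mul_lt_mul_of_pos_left q1 h2h
      · calc 2 * (h : ℤ) * a.P j < 2 * (h : ℤ) * ((L : ℤ) * c.hi j) := mul_lt_mul_of_pos_left q2 h2h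
          _ = ((2 * h * L : ℕ) : ℤ) * c.hi j := by push_cast; ring
    · exfalso
      have hxi : x a.i0 = 2 * (h : ℤ) * a.A a.i0 + d a := by
        rw [x1 a.i0 ho.m0 (by rw [r0]; exact r1 i hii)]
        unfold qA
        rw [W4c_shf _ _ ho.m0, W4c_mul]
      refine hx' ⟨fun j hj => ?_, hoff⟩
      by_cases hj0 : j = a.i0
      · subst hj0
        exact ⟨hlow _ hj (by linarith), hup _ hj (by linarith)⟩
      · exact hother j hj hj0

theorem zP_mem {n : ℕ} {c : Cube V} {L h : ℕ} {C : Set (Cube J)} {g : (V → ℤ) → (J → ℤ)}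
    {W : Finset (Wire V J)} {p : Cube J → (V → ℤ)} {ρ : ℕ} {D : ℤ} {d : Wire V J → ℤ}
    {A : Wire V J → ℕ} {β : Wire V J → (V → ℤ) → (J → ℤ)}
    {H : Wire V J → (V → ℤ) → ℕ → ℕ → (J → ℤ)}
    (hp : LPar n c L h C g W p ρ D d A β H) (a : Wire V J) (ha : a ∈ W) :
    zP c h a ∈ Stj c h (d a) a ∧ qA c h (d a) a ∈ Stj c h (d a) a ∧
    qA c h (d a) a ∈ Mn c h (d a) a ∧ qB c h (d a) a ∈ Mn c h (d a) a ∧
    qB c h (d a) a ∈ Enj c h (d a) a ∧ mul (2 * h) a.B ∈ Enj c h (d a) a := by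
  have ho := hp.ws.ok a ha
  have hne : c.fr.Nonempty := ⟨a.i0, ho.m0⟩
  have hAB : ∀ j, j ∉ c.fr → a.A j = a.B j := fun j hj => by
    rw [(ho.inA j).2 hj, ho.inB.2 j hj]
  have hqA : ∀ j, j ∉ c.fr → qA c h (d a) a j = 2 * (h : ℤ) * a.A j := by
    intro j hj
    unfold qA
    rw [W4c_shf' _ _ hj, W4c_mul]
  have hqB : ∀ j, j ∉ c.fr → qB c h (d a) a j = 2 * (h : ℤ) * a.A j := by
    intro j hj
    unfold qB
    rw [W4c_shf' _ _ hj, W4c_mul, hAB j hj]
  refine ⟨stc_left _ _ _ _ hne, stc_right _ _ _ _ hne fun j hj => ?_, stc_left _ _ _ _ hne,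
    stc_right _ _ _ _ hne fun j hj => ?_, stc_right _ _ _ _ hne fun j hj => ?_,
    stc_left _ _ _ _ hne⟩
  · rw [W4c_zP0 hp a ha j hj, hqA j hj]
  · rw [hqA j hj, hqB j hj]
  · rw [hqB j hj, W4c_mul, hAB j hj]

theorem cls_node {h : ℕ} (hh : 0 < h) (P Q x y : V → ℤ)
    (hx : ∀ j, |x j - 2 * (h : ℤ) * P j| ≤ 2 * h)
    (hy : ∀ j, |y j - 2 * (h : ℤ) * Q j| ≤ 2 * h) (hxy : Cls 1 x y) (h2 : 2 ≤ h) :
    Cls 2 P Q := by
  intro j
  have h1 := abs_le.1 (hx j)
  have h3 := abs_le.1 (hy j)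
  have h4 := abs_le.1 (hxy j)
  push_cast at h4
  have hh' : (2 : ℤ) ≤ h := by exact_mod_cast h2
  rw [abs_le]
  push_cast
  constructor
  · by_contra hc
    have h5 : P j - Q j ≤ -3 := by omega
    have h6 : 2 * (h : ℤ) * (P j - Q j) ≤ 2 * (h : ℤ) * (-3) :=
      mul_le_mul_of_nonneg_left h5 (by linarith)
    have h7 : 2 * (h : ℤ) * (P j - Q j) = 2 * (h : ℤ) * P j - 2 * (h : ℤ) * Q j := by ring
    linarith [h1.1, h1.2, h3.1, h3.2, h4.1, h4.2]
  · by_contra hc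
    have h5 : 3 ≤ P j - Q j := by omega
    have h6 : 2 * (h : ℤ) * 3 ≤ 2 * (h : ℤ) * (P j - Q j) :=
      mul_le_mul_of_nonneg_left h5 (by linarith)
    have h7 : 2 * (h : ℤ) * (P j - Q j) = 2 * (h : ℤ) * P j - 2 * (h : ℤ) * Q j := by ring
    linarith [h1.1, h1.2, h3.1, h3.2, h4.1, h4.2]

end AGE
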