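import Pool.Agent.AGE.WDefs
import Pool.Agent.AGE.C1b
import Pool.Agent.AGE.W2
import Pool.Agent.AGE.W3
import Pool.Agent.AGE.W4a
import Pool.Agent.AGE.W4b
import Pool.Agent.AGE.W4c
import Pool.Agent.AGE.W5a

/-!
# AGE-W6a: core vertices: values of the map

Plan. Let `x` be a core vertex of type `κ` and `v` a vertex with `Cls 1 v x`. (1) `x ∈ Mn a`: `dst v ≤ 1`, `gW_tube`, `ρ - dst ≥ 2 A a`, `Hom.h1` (with `flo v ∈ Stc`, `mn_flo`), `Bet.inT`. (2) `x ∈ Stj a`. If
`v` is in a tube `b` (`dst (Mn b) v < ρ`): `b = a` by `mn_stj` (`y ∈ Mn b` with `Cls ρ y x`); with `y ∈ Mn a`, `Cls (ρ-1) v y`: `x i1 = qA i1` (`mn_stj_same`), so `|v i1 - qA i1| ≤ 1` and `tm v = 0`; `|y i1 - qA i1| ≤ ρ`, `mn_ramp_A`, so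
`Cls (2 ρ) v qA` and `flo v = A` (`flo_qA`); by `Hom.h2` and `Bet.bA` the value is `g A`, which is in `a.ty` (`st0` / `st1`). If `v` is in no tube the value is `g (flo v)`: `stj_flo0` and `g P = g A`,
or `stj_flo1` and `st1`. (3) `x ∈ Enj a`: the same with `B`, `mn_enj`, `mn_enj_same`, `enj_flo`; the value is `g B`, in `a.te` (`hB`).
-/

set_option autoImplicit false

noncomputable section

namespace AGE

variable {V J : Type} [LinearOrder V] [LinearOrder J]

private theorem W6a_tyA {n : ℕ} {c : Cube V} {L : ℕ} {C : Set (Cube J)} {g : (V → ℤ) → (J → ℤ)}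
    {a : Wire V J} (h : WOk n c L C g a) : a.ty.Has (g a.A) := by
  cases hep : a.ep with
  | false => exact (h.st0 hep).2.2.2
  | true =>
    refine (h.st1 hep).2.2 a.A fun j => ⟨le_rfl, ?_⟩
    split_ifs <;> omega

theorem rw_has {n : ℕ} {c : Cube V} {L h : ℕ} {C : Set (Cube J)} {g : (V → ℤ) → (J → ℤ)}
    {W : Finset (Wire V J)} {p : Cube J → (V → ℤ)} {ρ : ℕ} {D : ℤ} {d : Wire V J → ℤ}
    {A : Wire V J → ℕ} {β : Wire V J → (V → ℤ) → (J → ℤ)}
    {H : Wire V J → (V → ℤ) → ℕ → ℕ → (J → ℤ)}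
    (hp : LPar n c L h C g W p ρ D d A β H) (x : V → ℤ) (κ : Cube J)
    (hx : RW c h W d x κ) (v : V → ℤ) (hv : InB (2 * h * L) c v) (hxv : Cls 1 v x) :
    κ.Has (gW c h ρ g W d H v) := by
  have hrD := hp.rD
  obtain ⟨a, ha, hx⟩ := hx
  have hok := hp.ws.ok a ha
  have hne : c.fr.Nonempty := ⟨a.i1, hok.m1⟩
  have hrA := hp.rA a ha
  rcases hx with ⟨hx, rfl⟩ | ⟨hx, rfl⟩ | ⟨hx, rfl⟩
  · -- main part
    have h1 : dst (Mn c h (d a) a) v ≤ 1 := dst_le ⟨x, hx, hxv⟩
    rw [gW_tube hp a ha v hv (by omega)]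
    obtain ⟨i, -, hi⟩ := mn_flo hp a ha x hx
    have h2 := (hi v hv 1 (by push_cast; omega) hxv).1
    rw [(hp.hom a ha).h1 _ h2 _ _ (by omega)]
    exact (hp.bet a ha).inT _
  · -- start junction
    by_cases hb : ∃ b ∈ W, dst (Mn c h (d b) b) v < ρ
    · obtain ⟨b, hbW, hb⟩ := hb
      obtain ⟨y, hy, hvy⟩ := dst_spec (mn_ex hp b hbW v hv)
      have hyx : Cls ρ y x := cls_mono (by omega) (cls_trans (cls_symm hvy) hxv)
      have hba : b = a := by
        by_contra hba
        exact mn_stj hp b a hbW ha hba y x hy hx ρ (by omega) hyx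
      subst hba
      have h1 := mn_stj_same hp b hbW y x hy hx ρ (by omega) hyx
      have h2 : Cls ρ y (qA c h (d b) b) := by
        refine mn_ramp_A hp b hbW y hy ρ (by omega) ?_
        rw [← h1]
        exact hyx b.i1
      have h3 : flo (2 * h) h v = b.A :=
        flo_qA hp b hbW v hv (2 * ρ) (by push_cast; omega) (cls_mono (by omega) (cls_trans hvy h2))
      have h4 : tm c h (d b) b v = 0 := by
        have h5 : |v b.i1 - qA c h (d b) b b.i1| ≤ 1 := by
          rw [← h1]
          exact_mod_cast hxv b.i1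
        unfold tm
        omega
      rw [gW_tube hp b hbW v hv hb, h4, h3,
        (hp.hom b hbW).h2 _ (stc_left _ _ _ _ hne) (hp.bet b hbW).bA.symm]
      exact W6a_tyA hok
    · push Not at hb
      rw [gW_out c h ρ g W d H v hb]
      cases hep : a.ep with
      | false =>
        rcases stj_flo0 hp a ha hep x v hx hv hxv with h1 | h1
        · rw [h1]
          exact W6a_tyA hok
        · rw [h1, (hok.st0 hep).2.2.1]
          exact W6a_tyA hok
      | true => exact (hok.st1 hep).2.2 _ (stj_flo1 hp a ha hep x v hx hv hxv)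
  · -- end junction
    by_cases hb : ∃ b ∈ W, dst (Mn c h (d b) b) v < ρ
    · obtain ⟨b, hbW, hb⟩ := hb
      obtain ⟨y, hy, hvy⟩ := dst_spec (mn_ex hp b hbW v hv)
      have hyx : Cls ρ y x := cls_mono (by omega) (cls_trans (cls_symm hvy) hxv)
      have hba : b = a := by
        by_contra hba
        exact mn_enj hp b a hbW ha hba y x hy hx ρ (by omega) hyx
      subst hba
      have h1 := mn_enj_same hp b hbW y x hy hx ρ (by omega) hyx
      have h2 : Cls ρ y (qB c h (d b) b) := by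
        refine mn_ramp_B hp b hbW y hy ρ (by omega) ?_
        rw [← h1]
        exact hyx b.i2
      have h3 : flo (2 * h) h v = b.B :=
        flo_qB hp b hbW v hv (2 * ρ) (by push_cast; omega) (cls_mono (by omega) (cls_trans hvy h2))
      have h4 : tm c h (d b) b v = 0 := by
        have h5 : |v b.i2 - qB c h (d b) b b.i2| ≤ 1 := by
          rw [← h1]
          exact_mod_cast hxv b.i2
        unfold tm
        omega
      have hAB : ∀ j, j ∉ c.fr → b.A j = b.B j := fun j hj => by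
        rw [(hok.inA j).2 hj, hok.inB.2 j hj]
      rw [gW_tube hp b hbW v hv hb, h4, h3,
        (hp.hom b hbW).h2 _ (stc_right _ _ _ _ hne hAB) (hp.bet b hbW).bB.symm]
      exact hok.hB
    · push Not at hb
      rw [gW_out c h ρ g W d H v hb, enj_flo hp a ha x v hx hv hxv]
      exact hok.hB

end AGE
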