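import Pool.Agent.AGE.WDefs
import Pool.Agent.AGE.C1b
import Pool.Agent.AGE.W2
import Pool.Agent.AGE.W3
import Pool.Agent.AGE.W4a
import Pool.Agent.AGE.W4b
import Pool.Agent.AGE.W4c

/-!
# AGE-W6b: core vertices: nested types, box, boundary

Cases for the parts of the wires which contain the core vertices: main parts of different wires and junctions of different nodes
are far from each other.
-/

set_option autoImplicit false

noncomputable section

namespace AGE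

variable {V J : Type} [LinearOrder V] [LinearOrder J]

theorem rw_nes {n : ℕ} {c : Cube V} {L h : ℕ} {C : Set (Cube J)} {g : (V → ℤ) → (J → ℤ)}
    {W : Finset (Wire V J)} {p : Cube J → (V → ℤ)} {ρ : ℕ} {D : ℤ} {d : Wire V J → ℤ}
    {A : Wire V J → ℕ} {β : Wire V J → (V → ℤ) → (J → ℤ)}
    {H : Wire V J → (V → ℤ) → ℕ → ℕ → (J → ℤ)}
    (hp : LPar n c L h C g W p ρ D d A β H) (x x' : V → ℤ) (κ κ' : Cube J)
    (hx : RW c h W d x κ) (hx' : RW c h W d x' κ') (hxx : Cls 1 x x') :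
    κ.Le κ' ∨ κ'.Le κ := by
  have hD : ((1 : ℕ) : ℤ) + 2 ≤ D := by
    have h1 := hp.rD
    push_cast
    omega
  have hh : 2 ≤ h := by
    have h1 := hp.rD
    have h2 := hp.hh
    omega
  have hh0 : 0 < h := by omega
  have hws := hp.ws
  obtain ⟨a, ha, hxa⟩ := hx
  obtain ⟨b, hb, hxb⟩ := hx'
  rcases hxa with ⟨h1, rfl⟩ | ⟨h1, rfl⟩ | ⟨h1, rfl⟩
  · rcases hxb with ⟨h2, rfl⟩ | ⟨h2, rfl⟩ | ⟨h2, rfl⟩
    · by_cases hab : a = b
      · rw [hab]
        exact Or.inl (Cube.le_refl' _)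
      · exact absurd hxx (mn_mn hp a b ha hb hab x x' h1 h2 1 hD)
    · by_cases hab : a = b
      · rw [hab]
        exact Or.inl (Cube.le_refl' _)
      · exact absurd hxx (mn_stj hp a b ha hb hab x x' h1 h2 1 hD)
    · by_cases hab : a = b
      · rw [hab]
        exact Or.inr (hws.ok b hb).le
      · exact absurd hxx (mn_enj hp a b ha hb hab x x' h1 h2 1 hD)
  · have k1 := (stj_box hp a ha x h1).2
    rcases hxb with ⟨h2, rfl⟩ | ⟨h2, rfl⟩ | ⟨h2, rfl⟩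
    · by_cases hab : b = a
      · rw [hab]
        exact Or.inl (Cube.le_refl' _)
      · exact absurd (cls_symm hxx) (mn_stj hp b a hb ha hab x' x h2 h1 1 hD)
    · have k2 := (stj_box hp b hb x' h2).2
      rcases hws.sPP a ha b hb (cls_node hh0 a.P b.P x x' k1 k2 hxx hh) with h3 | ⟨_, _, _, h3⟩
      · rw [h3]
        exact Or.inl (Cube.le_refl' _)
      · rw [h3]
        exact Or.inl (Cube.le_refl' _)
    · have k2 := (enj_box hp b hb x' h2).2
      obtain ⟨_, _, h3⟩ := hws.sPB a ha b hb (cls_node hh0 a.P b.B x x' k1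
        (fun j => (k2 j).trans (by omega)) hxx hh)
      rw [h3]
      exact Or.inl (Cube.le_refl' _)
  · have k1 := (enj_box hp a ha x h1).2
    rcases hxb with ⟨h2, rfl⟩ | ⟨h2, rfl⟩ | ⟨h2, rfl⟩
    · by_cases hab : b = a
      · rw [hab]
        exact Or.inl (hws.ok a ha).le
      · exact absurd (cls_symm hxx) (mn_enj hp b a hb ha hab x' x h2 h1 1 hD)
    · have k2 := (stj_box hp b hb x' h2).2
      obtain ⟨_, _, h3⟩ := hws.sPB b hb a ha (cls_node hh0 b.P a.B x' x k2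
        (fun j => (k1 j).trans (by omega)) (cls_symm hxx) hh)
      rw [h3]
      exact Or.inl (Cube.le_refl' _)
    · have k2 := (enj_box hp b hb x' h2).2
      obtain ⟨_, h3⟩ := hws.sBB a ha b hb (cls_node hh0 a.B b.B x x'
        (fun j => (k1 j).trans (by omega)) (fun j => (k2 j).trans (by omega)) hxx hh)
      rw [h3]
      exact Or.inl (Cube.le_refl' _)

theorem rw_box {n : ℕ} {c : Cube V} {L h : ℕ} {C : Set (Cube J)} {g : (V → ℤ) → (J → ℤ)}
    {W : Finset (Wire V J)} {p : Cube J → (V → ℤ)} {ρ : ℕ} {D : ℤ} {d : Wire V J → ℤ}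
    {A : Wire V J → ℕ} {β : Wire V J → (V → ℤ) → (J → ℤ)}
    {H : Wire V J → (V → ℤ) → ℕ → ℕ → (J → ℤ)}
    (hp : LPar n c L h C g W p ρ D d A β H) (x : V → ℤ) (κ : Cube J)
    (hx : RW c h W d x κ) : InB (2 * h * L) c x ∧ κ ∈ C ∧ κ.dim ≤ n + 2 := by
  obtain ⟨a, ha, hxa⟩ := hx
  have hok := hp.ws.ok a ha
  rcases hxa with ⟨h1, rfl⟩ | ⟨h1, rfl⟩ | ⟨h1, rfl⟩
  · exact ⟨mn_inb hp a ha x h1, hok.tyC, hok.tyd⟩
  · exact ⟨(stj_box hp a ha x h1).1, hok.tyC, hok.tyd⟩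
  · exact ⟨inb_of_ini (enj_box hp a ha x h1).1, hok.teC, (Cube.le_dim hok.le).trans hok.tyd⟩

theorem rw_bnd {n : ℕ} {c : Cube V} {L h : ℕ} {C : Set (Cube J)} {g : (V → ℤ) → (J → ℤ)}
    {W : Finset (Wire V J)} {p : Cube J → (V → ℤ)} {ρ : ℕ} {D : ℤ} {d : Wire V J → ℤ}
    {A : Wire V J → ℕ} {β : Wire V J → (V → ℤ) → (J → ℤ)}
    {H : Wire V J → (V → ℤ) → ℕ → ℕ → (J → ℤ)}
    (hp : LPar n c L h C g W p ρ D d A β H) (x : V → ℤ) (κ : Cube J)
    (hx : InB (2 * h * L) c x) (hx' : ¬ InI (2 * h * L) c x) :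
    RW c h W d x κ ↔ ∃ q, (∃ a ∈ W, a.ep = false ∧ ¬ InI L c a.P ∧ q = a.P ∧ κ = a.ty) ∧
      x = mul (2 * h) q := by
  have hD : 0 < D := by
    have h1 := hp.rD
    omega
  constructor
  · rintro ⟨a, ha, ⟨h1, rfl⟩ | ⟨h1, rfl⟩ | ⟨h1, rfl⟩⟩
    · exfalso
      obtain ⟨h2, h3⟩ := mn_box hp a ha x h1
      refine hx' ⟨fun j hj => ?_, h3⟩
      have h4 := h2 j hj
      exact ⟨by linarith [h4.1], by linarith [h4.2]⟩
    · obtain ⟨h2, h3, h4⟩ := stj_bnd hp a ha x h1 hx'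
      exact ⟨a.P, ⟨a, ha, h2, h4, rfl, rfl⟩, h3⟩
    · exact absurd (enj_box hp a ha x h1).1 hx'
  · rintro ⟨q, ⟨a, ha, h1, _, rfl, rfl⟩, rfl⟩
    refine ⟨a, ha, Or.inr (Or.inl ⟨?_, rfl⟩)⟩
    have h2 := (zP_mem hp a ha).1
    have h3 : zP c h a = mul (2 * h) a.P := by
      unfold zP
      rw [h1]
      rfl
    rw [h3] at h2
    exact h2

end AGE
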