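import Pool.Agent.AGE.WDefs
import Pool.Agent.AGE.C1b
import Pool.Agent.AGE.W2
import Pool.Agent.AGE.W3
import Pool.Agent.AGE.W4a
import Pool.Agent.AGE.W4c
import Pool.Agent.AGE.W6b

/-!
# AGE-W6c: core vertices: connection

Plan. Write `z σ = mul (2 h) (p σ)`. Claim: every core vertex `x` of type `κ ≥ σ` is connected to `z σ` in `Ge (RW ..) (2 h L) c σ`; then use `cnn_symm` and transitivity. All of `Mn a`, `Stj a` has the type `a.ty`, `Enj a` the type `a.te`; these sets are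
connected to their ends (`stc_con`, `rkw_inj`, `rkw2_inj`, `zP_mem`) and contained in the set `Ge` if the type is `≥ σ` (`rw_box` for `InB`). (1) `x ∈ Mn a` or `Stj a`, `σ ≤ a.ty`: `x` is connected to `qA`. If `a.te = a.ty`: on to `qB`
and through `Enj a` to `mul (2 h) B = z a.te = z a.ty`. Otherwise `prt` gives `P = p a.ty`, `ep = false`: through `Stj a` to `zP = z a.ty`. (2) `x ∈ Enj a`, `σ ≤ a.te`: `x` is connected to `z a.te`. (3) From `z κ`
(`κ = a.ty` or `a.te`) to `z σ`: if `σ = κ` nothing; otherwise `σ.dim < κ.dim ≤ n + 2` so `κ.dim = n + 2` and `κ = a.ty` also in the case `κ = a.te` (`a.te ≤ a.ty`, `dim a.ty ≤ n + 2`); `fac` gives `b` with `P = p κ`,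
`ep = false`, type `κ`, `te = σ`: `z κ = zP b` is connected through `Stj b`, `Mn b` (type `κ`) and `Enj b` (type `σ`) to `mul (2 h) b.B = z σ`.
-/

set_option autoImplicit false

noncomputable section

namespace AGE

variable {V J : Type} [LinearOrder V] [LinearOrder J]

private theorem w6c_eq {σ κ : Cube J} (h : σ.Le κ) (hd : κ.dim ≤ σ.dim) : σ = κ := by
  have h1 : σ.fr = κ.fr := Finset.eq_of_subset_of_card_le (Cube.fr_subset h) hd
  refine Cube.ext (funext fun j => ?_) h1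
  have h2 := h j
  by_cases hj : j ∈ σ.fr
  · have h3 : σ.hi j = σ.lo j + 1 := if_pos hj
    have h4 : κ.hi j = κ.lo j + 1 := if_pos (h1 ▸ hj)
    omega
  · have h3 : σ.hi j = σ.lo j := if_neg hj
    have h4 : κ.hi j = κ.lo j := if_neg (h1 ▸ hj)
    omega

private theorem w6c_trans {X : Set (V → ℤ)} {x y z : V → ℤ} (h : Cnn X x y) (h' : Cnn X y z) :
    Cnn X x z := Relation.ReflTransGen.trans h h'

private theorem w6c_part {n : ℕ} {c : Cube V} {L h : ℕ} {C : Set (Cube J)}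
    {g : (V → ℤ) → (J → ℤ)}
    {W : Finset (Wire V J)} {p : Cube J → (V → ℤ)} {ρ : ℕ} {D : ℤ} {d : Wire V J → ℤ}
    {A : Wire V J → ℕ} {β : Wire V J → (V → ℤ) → (J → ℤ)}
    {H : Wire V J → (V → ℤ) → ℕ → ℕ → (J → ℤ)}
    (hp : LPar n c L h C g W p ρ D d A β H) (σ : Cube J) (a : Wire V J) (ha : a ∈ W) :
    (σ.Le a.ty → ∀ x, x ∈ Mn c h (d a) a ∨ x ∈ Stj c h (d a) a →
      Cnn (Ge (RW c h W d) (2 * h * L) c σ) (zP c h a) x) ∧
    (σ.Le a.te → ∀ x, x ∈ Enj c h (d a) a →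
      Cnn (Ge (RW c h W d) (2 * h * L) c σ) (mul (2 * h) a.B) x) := by
  have hz := zP_mem hp a ha
  constructor
  · intro hσ
    have hS : Stj c h (d a) a ⊆ Ge (RW c h W d) (2 * h * L) c σ := by
      intro x hx
      have hR : RW c h W d x a.ty := ⟨a, ha, Or.inr (Or.inl ⟨hx, rfl⟩)⟩
      exact ⟨(rw_box hp x a.ty hR).1, a.ty, hR, hσ⟩
    have hM : Mn c h (d a) a ⊆ Ge (RW c h W d) (2 * h * L) c σ := by
      intro x hx
      have hR : RW c h W d x a.ty := ⟨a, ha, Or.inl ⟨hx, rfl⟩⟩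
      exact ⟨(rw_box hp x a.ty hR).1, a.ty, hR, hσ⟩
    intro x hx
    rcases hx with hx | hx
    · have h1 : Cnn (Ge (RW c h W d) (2 * h * L) c σ) (zP c h a) (qA c h (d a) a) :=
        cnn_mono hS (stc_con c.fr (rkw2 c.fr a.i0 a.i1) (rkw2_inj c.fr a.i0 a.i1) _ _ _ hz.2.1)
      have h2 : Cnn (Ge (RW c h W d) (2 * h * L) c σ) (qA c h (d a) a) x :=
        cnn_mono hM (stc_con c.fr (rkw c.fr) (rkw_inj c.fr) _ _ _ hx)
      exact w6c_trans h1 h2
    · exact cnn_mono hS (stc_con c.fr (rkw2 c.fr a.i0 a.i1) (rkw2_inj c.fr a.i0 a.i1) _ _ _ hx)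
  · intro hσ
    have hE : Enj c h (d a) a ⊆ Ge (RW c h W d) (2 * h * L) c σ := by
      intro x hx
      have hR : RW c h W d x a.te := ⟨a, ha, Or.inr (Or.inr ⟨hx, rfl⟩)⟩
      exact ⟨(rw_box hp x a.te hR).1, a.te, hR, hσ⟩
    intro x hx
    exact cnn_mono hE (stc_con c.fr (rkw2 c.fr a.i2 a.i2) (rkw2_inj c.fr a.i2 a.i2) _ _ _ hx)

private theorem w6c_z {n : ℕ} {c : Cube V} {L h : ℕ} {C : Set (Cube J)}
    {g : (V → ℤ) → (J → ℤ)}
    {W : Finset (Wire V J)} {p : Cube J → (V → ℤ)} {ρ : ℕ} {D : ℤ} {d : Wire V J → ℤ}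
    {A : Wire V J → ℕ} {β : Wire V J → (V → ℤ) → (J → ℤ)}
    {H : Wire V J → (V → ℤ) → ℕ → ℕ → (J → ℤ)}
    (hp : LPar n c L h C g W p ρ D d A β H) (σ : Cube J) (hσ : n + 1 ≤ σ.dim)
    (x : V → ℤ) (κ : Cube J) (hx : RW c h W d x κ) (hk : σ.Le κ) :
    Cnn (Ge (RW c h W d) (2 * h * L) c σ) (mul (2 * h) (p σ)) x := by
  -- from the node of `κ` to the node of `σ`
  have hfac : ∀ a ∈ W, (κ = a.ty ∨ κ = a.te) →
      Cnn (Ge (RW c h W d) (2 * h * L) c σ) (mul (2 * h) (p σ)) (mul (2 * h) (p κ)) := by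
    intro a ha hκ
    by_cases hσκ : σ = κ
    · rw [hσκ]
      exact Relation.ReflTransGen.refl
    · have h1 : σ.dim < κ.dim := by
        by_contra hc
        exact hσκ (w6c_eq hk (not_lt.1 hc))
      have hok := hp.ws.ok a ha
      have hle : κ.Le a.ty := by
        rcases hκ with h | h
        · rw [h]; exact Cube.le_refl' _
        · rw [h]; exact hok.le
      have hκty : κ = a.ty := by
        apply w6c_eq hle
        have h2 := hok.tyd
        omega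
      rw [hκty] at hk hσκ
      obtain ⟨b, hb, hbP, hbe, hbty, hbte⟩ := hp.ws.fac a ha σ hσ hk hσκ
      have hz := zP_mem hp b hb
      have hPb := w6c_part hp σ b hb
      have hbB := (hp.ws.prt b hb).1
      have h3 : zP c h b = mul (2 * h) (p κ) := by
        unfold zP
        rw [hbe, hbP, hκty]
        simp
      have h4 := hPb.1 (by rw [hbty]; exact hk) (qB c h (d b) b) (Or.inl hz.2.2.2.1)
      have h5 := hPb.2 (by rw [hbte]; exact Cube.le_refl' _) (qB c h (d b) b) hz.2.2.2.2.1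
      rw [h3] at h4
      rw [hbB, hbte] at h5
      exact w6c_trans h5 (cnn_symm h4)
  obtain ⟨a, ha, hm⟩ := hx
  have hPa := w6c_part hp σ a ha
  have hz := zP_mem hp a ha
  have hprt := hp.ws.prt a ha
  have h1 : (x ∈ Mn c h (d a) a ∨ x ∈ Stj c h (d a) a) ∧ κ = a.ty ∨
      x ∈ Enj c h (d a) a ∧ κ = a.te := by
    rcases hm with hm | hm | hm
    · exact Or.inl ⟨Or.inl hm.1, hm.2⟩
    · exact Or.inl ⟨Or.inr hm.1, hm.2⟩
    · exact Or.inr hm
  rcases h1 with ⟨hx, hκ⟩ | ⟨hx, hκ⟩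
  · refine w6c_trans (hfac a ha (Or.inl hκ)) ?_
    rw [hκ] at hk ⊢
    have h2 := hPa.1 hk x hx
    rcases hprt.2 with h3 | ⟨h3, h4⟩
    · have hk' : σ.Le a.te := by rw [h3]; exact hk
      have h5 := hPa.2 hk' (qB c h (d a) a) hz.2.2.2.2.1
      have h6 := hPa.1 hk (qB c h (d a) a) (Or.inl hz.2.2.2.1)
      rw [hprt.1, h3] at h5
      exact w6c_trans h5 (w6c_trans (cnn_symm h6) h2)
    · have h5 : zP c h a = mul (2 * h) (p a.ty) := by
        unfold zP
        rw [h4, h3]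
        simp
      rw [h5] at h2
      exact h2
  · refine w6c_trans (hfac a ha (Or.inr hκ)) ?_
    rw [hκ] at hk ⊢
    have h2 := hPa.2 hk x hx
    rw [hprt.1] at h2
    exact h2

theorem rw_con {n : ℕ} {c : Cube V} {L h : ℕ} {C : Set (Cube J)} {g : (V → ℤ) → (J → ℤ)}
    {W : Finset (Wire V J)} {p : Cube J → (V → ℤ)} {ρ : ℕ} {D : ℤ} {d : Wire V J → ℤ}
    {A : Wire V J → ℕ} {β : Wire V J → (V → ℤ) → (J → ℤ)}
    {H : Wire V J → (V → ℤ) → ℕ → ℕ → (J → ℤ)}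
    (hp : LPar n c L h C g W p ρ D d A β H) (σ : Cube J)
    (hσ : n + 1 ≤ σ.dim) (x x' : V → ℤ) (κ κ' : Cube J) (hx : RW c h W d x κ)
    (hx' : RW c h W d x' κ') (hk : σ.Le κ) (hk' : σ.Le κ') :
    Cnn (Ge (RW c h W d) (2 * h * L) c σ) x x' := by
  have h1 := w6c_z hp σ hσ x κ hx hk
  have h2 := w6c_z hp σ hσ x' κ' hx' hk'
  exact w6c_trans (cnn_symm h1) h2

end AGE
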