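import Pool.Agent.AGE.WDefs
import Pool.Agent.AGE.C1b
import Pool.Agent.AGE.W2
import Pool.Agent.AGE.W3
import Pool.Agent.AGE.W4a
import Pool.Agent.AGE.W4c
import Pool.Agent.AGE.W5b

/-!
# AGE-W6d: core vertices: essential cells

A cell of dimension `n + 1` of the fine box either contains a core vertex or is mapped into a cube of dimension at most `n`: the
blocks of its vertices are the vertices of a coarse cube; if this cube has dimension `n + 1` the coarse statement is used.
-/

set_option autoImplicit false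

noncomputable section

namespace AGE

variable {V J : Type} [LinearOrder V] [LinearOrder J]

private theorem W6d_hi {Q : Cube V} {j : V} (h : j ∈ Q.fr) : Q.hi j = Q.lo j + 1 := if_pos h

private theorem W6d_hi' {Q : Cube V} {j : V} (h : j ∉ Q.fr) : Q.hi j = Q.lo j := if_neg h

private theorem W6d_fr {M : ℕ} {u c : Cube V} (hu : u.InM M c) : u.fr ⊆ c.fr := by
  intro j hj
  by_contra hn
  have h1 := hu j
  rw [W6d_hi hj, W6d_hi' hn] at h1
  omega

private theorem W6d_val {u : Cube V} {v : V → ℤ} (hv : u.Has v) (j : V) :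
    v j = u.lo j ∨ (j ∈ u.fr ∧ v j = u.hi j) := by
  have h1 := hv j
  by_cases hj : j ∈ u.fr
  · rw [W6d_hi hj] at h1 ⊢
    have h2 : v j = u.lo j ∨ v j = u.lo j + 1 := by omega
    rcases h2 with h2 | h2
    · exact Or.inl h2
    · exact Or.inr ⟨hj, h2⟩
  · rw [W6d_hi' hj] at h1
    exact Or.inl (le_antisymm h1.2 h1.1)

theorem rw_ess {n : ℕ} {c : Cube V} {L h : ℕ} {C : Set (Cube J)} {g : (V → ℤ) → (J → ℤ)}
    {W : Finset (Wire V J)} {p : Cube J → (V → ℤ)} {ρ : ℕ} {D : ℤ} {d : Wire V J → ℤ}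
    {A : Wire V J → ℕ} {β : Wire V J → (V → ℤ) → (J → ℤ)}
    {H : Wire V J → (V → ℤ) → ℕ → ℕ → (J → ℤ)}
    (hp : LPar n c L h C g W p ρ D d A β H) (u : Cube V)
    (hu : u.InM (2 * h * L) c) (hd : u.dim = n + 1) :
    (∃ x κ, u.Has x ∧ RW c h W d x κ) ∨
      ∃ S : Cube J, S.dim ≤ n ∧ ∀ v, u.Has v → S.Has (gW c h ρ g W d H v) := by
  have hh : 0 < h := by
    have h1 := hp.hh
    have h2 := hp.rD
    omega
  have hfr : u.fr = c.fr := by
    refine Finset.eq_of_subset_of_card_le (W6d_fr hu) ?_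
    have h1 := hp.dim
    unfold Cube.dim at h1 hd
    omega
  rcases gW_cub hp u hu with h1 | ⟨⟨S, -, hS, hS'⟩, -⟩
  swap
  · exact Or.inr ⟨S, hS, hS'⟩
  have hlo : InB (2 * h * L) c u.lo := inb_of_has hu (Cube.has_lo u)
  have hhi : InB (2 * h * L) c u.hi := inb_of_has hu (Cube.has_hi u)
  have ylo : InB L c (flo (2 * h) h u.lo) := flo_inb hh hlo
  have yhi : InB L c (flo (2 * h) h u.hi) := flo_inb hh hhi
  have hcoord : ∀ (v w : V → ℤ) (j : V), v j = w j → flo (2 * h) h v j = flo (2 * h) h w j := by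
    intro v w j hvw
    unfold flo
    rw [hvw]
  have hstep : ∀ j, flo (2 * h) h u.hi j = flo (2 * h) h u.lo j ∨
      (j ∈ u.fr ∧ flo (2 * h) h u.hi j = flo (2 * h) h u.lo j + 1 ∧
        u.lo j = 2 * (h : ℤ) * flo (2 * h) h u.lo j + h - 1) := by
    intro j
    by_cases hj : j ∈ u.fr
    · have h2 := flo_bounds hh u.lo j
      have h3 := W6d_hi hj
      rcases lt_or_ge (u.lo j + 1) (2 * (h : ℤ) * flo (2 * h) h u.lo j + h) with h4 | h4
      · left
        exact flo_eq hh (by omega) (by omega)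
      · right
        refine ⟨hj, ?_, by omega⟩
        have h5 : 2 * (h : ℤ) * (flo (2 * h) h u.lo j + 1) = 2 * (h : ℤ) * flo (2 * h) h u.lo j + 2 * h := by
          ring
        exact flo_eq hh (by omega) (by omega)
    · left
      exact hcoord _ _ j (W6d_hi' hj)
  generalize hy : flo (2 * h) h u.lo = y at ylo hstep
  have hbox : ∀ fr' : Finset V, (∀ j, flo (2 * h) h u.hi j ≠ y j → j ∈ fr') → ∀ v, u.Has v →
      Cube.Has ⟨y, fr'⟩ (flo (2 * h) h v) := by
    intro fr' hfr' v hv j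
    have h2 : flo (2 * h) h v j = y j ∨ flo (2 * h) h v j = flo (2 * h) h u.hi j := by
      rcases W6d_val hv j with h3 | ⟨-, h3⟩
      · left
        rw [← hy]
        exact hcoord _ _ j h3
      · right
        exact hcoord _ _ j h3
    have h3 : y j ≤ Cube.hi ⟨y, fr'⟩ j := (Cube.has_lo (⟨y, fr'⟩ : Cube V) j).2
    change y j ≤ _ ∧ _ ≤ Cube.hi ⟨y, fr'⟩ j
    rcases h2 with h2 | h2
    · rw [h2]
      exact ⟨le_rfl, h3⟩
    · rw [h2]
      rcases hstep j with h4 | ⟨-, h4, -⟩
      · rw [h4]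
        exact ⟨le_rfl, h3⟩
      · have h5 : j ∈ fr' := hfr' j (by omega)
        have h6 : Cube.hi ⟨y, fr'⟩ j = y j + 1 := if_pos h5
        rw [h4, h6]
        exact ⟨by omega, le_rfl⟩
  have hin : ∀ fr' : Finset V, (∀ j ∈ fr', flo (2 * h) h u.hi j ≠ y j) →
      Cube.InM L (⟨y, fr'⟩ : Cube V) c := by
    intro fr' hfr' j
    refine ⟨(ylo j).1, ?_⟩
    by_cases hj : j ∈ fr'
    · have h6 : Cube.hi ⟨y, fr'⟩ j = y j + 1 := if_pos hj
      rcases hstep j with h4 | ⟨-, h4, -⟩
      · exact absurd h4 (hfr' j hj)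
      · rw [h6, ← h4]
        exact (yhi j).2
    · have h6 : Cube.hi ⟨y, fr'⟩ j = y j := if_neg hj
      rw [h6]
      exact (ylo j).2
  by_cases hall : ∀ j ∈ u.fr, flo (2 * h) h u.hi j ≠ y j
  · have hbox' := hbox u.fr (fun j hj => by
      rcases hstep j with h4 | ⟨h4, -⟩
      · exact absurd h4 hj
      · exact h4)
    rcases hp.ws.ess ⟨y, u.fr⟩ (hin u.fr hall) hd with ⟨S, hS, hS'⟩ | ⟨a, ha, hep, hA⟩
    · right
      refine ⟨S, hS, fun v hv => ?_⟩
      rw [h1 v hv]
      exact hS' _ (hbox' v hv)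
    · left
      have hP : a.P = y := ((hp.ws.ok a ha).st1 hep).1.trans hA
      have hz : zP c h a = u.lo := by
        funext j
        unfold zP
        rw [if_pos hep]
        unfold shf mul
        rw [hP, ← hfr]
        by_cases hj : j ∈ u.fr
        · rw [if_pos hj]
          rcases hstep j with h4 | ⟨-, -, h4⟩
          · exact absurd h4 (hall j hj)
          · rw [h4]
            push_cast
            ring
        · rw [if_neg hj]
          have h5 := hlo j
          have h6 := ylo j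
          have h7 : c.hi j = c.lo j := W6d_hi' (hfr ▸ hj)
          rw [h7] at h5 h6
          have h8 : u.lo j = ((2 * h * L : ℕ) : ℤ) * c.lo j := by omega
          have h9 : y j = (L : ℤ) * c.lo j := by omega
          rw [h8, h9]
          push_cast
          ring
      refine ⟨u.lo, a.ty, Cube.has_lo u, a, ha, Or.inr (Or.inl ⟨?_, rfl⟩)⟩
      rw [← hz]
      exact (zP_mem hp a ha).1
  · push Not at hall
    obtain ⟨j0, hj0, hj0'⟩ := hall
    have hlt : (u.fr.filter fun j => flo (2 * h) h u.hi j ≠ y j).card < u.fr.card := by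
      refine Finset.card_lt_card (Finset.filter_ssubset.2 ⟨j0, hj0, ?_⟩)
      exact fun h2 => h2 hj0'
    obtain ⟨S, -, hS, hS'⟩ := hp.cel ⟨y, u.fr.filter fun j => flo (2 * h) h u.hi j ≠ y j⟩
      (hin _ fun j hj => (Finset.mem_filter.1 hj).2)
    right
    refine ⟨S, ?_, fun v hv => ?_⟩
    · have h2 : u.fr.card = n + 1 := hd
      have h3 : S.dim ≤ (u.fr.filter fun j => flo (2 * h) h u.hi j ≠ y j).card := hS
      omega
    · rw [h1 v hv]
      refine hS' _ (hbox _ (fun j hj => Finset.mem_filter.2 ⟨?_, hj⟩) v hv)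
      rcases hstep j with h4 | ⟨h4, -⟩
      · exact absurd h4 hj
      · exact h4

end AGE
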