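import Pool.Agent.AGE.WDefs
import Pool.Agent.AGE.C1b
import Pool.Agent.AGE.W1a
import Pool.Agent.AGE.W1b
import Pool.Agent.AGE.W2
import Pool.Agent.AGE.W3
import Pool.Agent.AGE.W5a
import Pool.Agent.AGE.W5b
import Pool.Agent.AGE.W6a
import Pool.Agent.AGE.W6b
import Pool.Agent.AGE.W6c
import Pool.Agent.AGE.W6d

/-!
# AGE-W7: the local solution

Plan. For every wire `a ∈ W` choose `β a` (`bet_exists`) and `A a`, `H a` (`tube_hom` with `Y = Stc c.fr (rkw c.fr) a.A a.B`, finite by `stc_finite`; `pt (g y) ∈ C`: `hp.cel` for the point cube, `Y ⊆` box; `pt (β y) ∈ C`: face of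
`a.ty ∈ C`, closed). `ρ = 2 * max A + 2`, `D = 8 ρ + 20`, `d a = D * (number of a + 1)` for an injective numbering of the finite set `W` by numbers `< card W`, `h₀ = D * (card W + 2)`: `LPar` holds for all `h ≥ h₀`.
Then `g' = gW`, `R = RW` and the fields of `Loc` are `gW_bdy`, `gW_cub`, `rw_box`, `rw_bnd`, `rw_has` (with `inb_of_has`, `has_cls`), `rw_nes`, `rw_con`, `rw_ess`. The last statement: `zP ∈ Stj` (`zP_mem`; it is in `W4c`).
-/

set_option autoImplicit false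

noncomputable section

namespace AGE

variable {V J : Type} [LinearOrder V] [LinearOrder J]

private theorem W7_pt {S : Cube J} {v : J → ℤ} (h : S.Has v) : (pt v).Le S := by
  intro j
  have h1 : (pt v).hi j = v j := if_neg (Finset.notMem_empty j)
  rw [h1]
  exact h j

private theorem W7_stc {n : ℕ} {c : Cube V} {L : ℕ} {C : Set (Cube J)} {g : (V → ℤ) → (J → ℤ)} {a : Wire V J}
    (ha : WOk n c L C g a) {y : V → ℤ} (hy : y ∈ Stc c.fr (rkw c.fr) a.A a.B) : InB L c y := by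
  obtain ⟨h1, i, hi, h2, h3, h4, h5⟩ := hy
  intro j
  by_cases hj : j ∈ c.fr
  · have hA := (ha.inA j).1 hj
    have hB := ha.inB.1 j hj
    rcases lt_trichotomy (rkw c.fr j) (rkw c.fr i) with h6 | h6 | h6
    · rw [h2 j hj h6]
      exact ⟨hB.1.le, hB.2.le⟩
    · have h7 : j = i := rkw_inj c.fr hj hi h6
      rw [← h7] at h4 h5
      exact ⟨(le_min hA.1 hB.1.le).trans h4, h5.trans (max_le hA.2.le hB.2.le)⟩
    · rw [h3 j hj h6]
      exact ⟨hA.1, hA.2.le⟩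
  · have hA := (ha.inA j).2 hj
    have hh : c.hi j = c.lo j := if_neg hj
    rw [h1 j hj, hA, hh]
    exact ⟨le_rfl, le_rfl⟩

theorem loc_exists {n : ℕ} (hn : 2 ≤ n) {c : Cube V} (hc : c.dim = n + 1) {L : ℕ} (hL : 0 < L)
    {C : Set (Cube J)} (hC : Closed C) (hR : CTR C) {g : (V → ℤ) → (J → ℤ)}
    (hg : ∀ Q : Cube V, Q.InM L c → ∃ S ∈ C, S.dim ≤ Q.dim ∧ ∀ v, Q.Has v → S.Has (g v))
    (W : Finset (Wire V J)) (p : Cube J → (V → ℤ)) (hW : WsOk n c L C g W p) :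
    ∃ h₀ : ℕ, ∀ h : ℕ, h₀ ≤ h → ∃ (g' : (V → ℤ) → (J → ℤ)) (R : (V → ℤ) → Cube J → Prop),
      Loc n c L h C g
        (fun q κ => ∃ a ∈ W, a.ep = false ∧ ¬ InI L c a.P ∧ q = a.P ∧ κ = a.ty) g' R ∧
      ∀ a ∈ W, ∃ x, R x a.ty := by
  classical
  -- middle paths
  have hb : ∀ a : Wire V J, ∃ β : (V → ℤ) → (J → ℤ), a ∈ W → Bet g a β := by
    intro a
    by_cases ha : a ∈ W
    · obtain ⟨β, hβ⟩ := bet_exists (hW.ok a ha)
      exact ⟨β, fun _ => hβ⟩
    · exact ⟨g, fun h => absurd h ha⟩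
  choose β hβ using hb
  -- homotopies
  have hh : ∀ a : Wire V J, ∃ (A : ℕ) (H : (V → ℤ) → ℕ → ℕ → (J → ℤ)), a ∈ W →
      Hom C g (β a) (Stc c.fr (rkw c.fr) a.A a.B) A H := by
    intro a
    by_cases ha : a ∈ W
    · have h1 : ∀ y ∈ Stc c.fr (rkw c.fr) a.A a.B, pt (g y) ∈ C := by
        intro y hy
        have h2 : (pt y).InM L c := inb_iff_pt.1 (W7_stc (hW.ok a ha) hy)
        obtain ⟨S, hS, -, h3⟩ := hg (pt y) h2
        refine hC S hS _ (W7_pt (h3 y fun j => ?_))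
        have h4 : (pt y).hi j = y j := if_neg (Finset.notMem_empty j)
        rw [h4]
        exact ⟨le_rfl, le_rfl⟩
      have h2 : ∀ y ∈ Stc c.fr (rkw c.fr) a.A a.B, pt (β a y) ∈ C := fun y _ =>
        hC a.ty (hW.ok a ha).tyC _ (W7_pt ((hβ a ha).inT y))
      obtain ⟨A, H, hH⟩ := tube_hom C hR g (β a) _ (stc_finite c.fr (rkw c.fr) (rkw_inj c.fr) a.A a.B) h1 h2
      exact ⟨A, H, fun _ => hH⟩
    · exact ⟨0, fun _ _ _ => fun _ => 0, fun h => absurd h ha⟩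
  choose A H hH using hh
  -- the numbers
  set ρ : ℕ := 2 * W.sup A + 2 with hρ
  set Dn : ℕ := 8 * ρ + 20 with hDn
  set num : Wire V J → ℕ := fun a => if h : a ∈ W then (W.equivFin ⟨a, h⟩).val else 0 with hnum
  have hnl : ∀ a ∈ W, num a < W.card := by
    intro a ha
    have h1 : num a = (W.equivFin ⟨a, ha⟩).val := dif_pos ha
    rw [h1]
    exact (W.equivFin ⟨a, ha⟩).isLt
  have hni : ∀ a ∈ W, ∀ b ∈ W, a ≠ b → num a ≠ num b := by
    intro a ha b hb' hab h1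
    have h2 : num a = (W.equivFin ⟨a, ha⟩).val := dif_pos ha
    have h3 : num b = (W.equivFin ⟨b, hb'⟩).val := dif_pos hb'
    rw [h2, h3] at h1
    have h4 := W.equivFin.injective (Fin.ext h1)
    exact hab (congrArg Subtype.val h4)
  set d : Wire V J → ℤ := fun a => (Dn : ℤ) * ((num a : ℤ) + 1) with hd
  refine ⟨Dn * (W.card + 2), fun h hh0 => ?_⟩
  have hh1 : (Dn : ℤ) * ((W.card : ℤ) + 2) ≤ (h : ℤ) := by exact_mod_cast hh0
  have hD0 : (0 : ℤ) ≤ (Dn : ℤ) := Int.natCast_nonneg _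
  have hp : LPar n c L h C g W p ρ (Dn : ℤ) d A β H := by
    refine ⟨hn, hc, hL, hC, hg, hW, ?_, ?_, ?_, ?_, ?_, ?_, hβ, hH⟩
    · intro a ha
      have h1 : A a ≤ W.sup A := Finset.le_sup ha
      omega
    · rw [hDn]
      push_cast
      exact le_rfl
    · have h1 : (0 : ℤ) ≤ (Dn : ℤ) * (W.card : ℤ) := mul_nonneg hD0 (Int.natCast_nonneg _)
      linarith
    · intro a _
      have h1 : (0 : ℤ) ≤ (Dn : ℤ) * (num a : ℤ) := mul_nonneg hD0 (Int.natCast_nonneg _)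
      show (Dn : ℤ) ≤ (Dn : ℤ) * ((num a : ℤ) + 1)
      linarith
    · intro a ha
      have h1 : ((num a : ℕ) : ℤ) ≤ (W.card : ℤ) := by exact_mod_cast (hnl a ha).le
      have h2 := mul_le_mul_of_nonneg_left h1 hD0
      show (Dn : ℤ) * ((num a : ℤ) + 1) + (Dn : ℤ) ≤ (h : ℤ)
      linarith
    · intro a ha b hb' hab
      have h1 : (num a : ℤ) - (num b : ℤ) ≠ 0 := by
        have h2 := hni a ha b hb' hab
        omega
      have h2 : 1 ≤ |(num a : ℤ) - (num b : ℤ)| := Int.one_le_abs h1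
      have h3 : d a - d b = (Dn : ℤ) * ((num a : ℤ) - (num b : ℤ)) := by
        show (Dn : ℤ) * ((num a : ℤ) + 1) - (Dn : ℤ) * ((num b : ℤ) + 1) = _
        ring
      rw [h3, abs_mul, abs_of_nonneg hD0]
      exact le_mul_of_one_le_right hD0 h2
  have hne : c.fr.Nonempty := by
    rw [← Finset.card_pos]
    have h1 : c.fr.card = n + 1 := hc
    omega
  refine ⟨gW c h ρ g W d H, RW c h W d, ⟨gW_bdy hp, gW_cub hp, rw_box hp, rw_bnd hp, ?_,
      fun x κ x' κ' => rw_nes hp x x' κ κ', ?_, rw_ess hp⟩,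
    fun a ha => ⟨qA c h (d a) a, a, ha, Or.inl ⟨stc_left _ _ _ _ hne, rfl⟩⟩⟩
  · intro x κ hx Q hQ hQx v hv
    exact rw_has hp x κ hx v (inb_of_has hQ hv) (has_cls hv hQx)
  · intro σ hσ x κ x' κ' hx hx' hk hk'
    exact rw_con hp σ hσ x x' κ κ' hx hx' hk hk'

end AGE
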