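import Pool.Agent.AGE.WDefs2
import Pool.Agent.AGE.C1b
import Pool.Agent.AGE.W2
import Pool.Agent.AGE.W3

/-!
# AGE-W8: the wires of a cell

Plan. Three kinds of wires, `W` = the finite union of the images (`Ty` is finite, the cells in `L c` are finitely many). (i) for `w ∈ Ty ∩ C c` of dimension `n + 2` and every face `σ` of `w` of dimension `n + 1`
(`σ ∈ Ty ∩ C c`): `P = A = p c w`, `B = p c σ`, `ep = false`, `ty = w`, `te = σ`. (ii) for every `n`-face `e` of `c` and `κ ∈ Ty ∩ C e`: `P = p e κ`, `i0` the element of `c.fr` not in `e.fr`, `A = P` if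
`P i0 < L c.hi i0` and `A = P` minus one in the coordinate `i0` otherwise, `B = p c κ`, `ep = false`, `ty = te = κ`. (iii) for every `(n+1)`-cell `u` in `L c` without a cube `S` of dimension `≤ n` containing `g (u)`, `σ` as in
`Prt.ess` (chosen once for every `u`): `P = A = u.lo`, `B = p c σ`, `ep = true`, `ty = te = σ`. `A ≠ B` by `psep` / `ess` (`Cls (n+6)` fails in some coordinate, which is in `c.fr`, and `|A j - B j| ≥ n + 6`); `i1`, `i2` = elements of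
`c.fr` of smallest and largest rank with `A ≠ B`; for (i), (iii) put `i0 = i1`. `st0`: for (ii) `pin` for `e`, `g P = g A` by `pval` (`A` is in the box `L c`). `st1`: `v` is a vertex of `u`. `WsOk`: `psep`, `ess`, `esp`. The
statement on the boundary ports: a wire with `ep = false` and `P` not interior is of the kind (ii); conversely `p e κ` is in the interior of `L e`, so not in the interior of `L c`.
-/

set_option autoImplicit false

noncomputable section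

namespace AGE

variable {V J : Type} [LinearOrder V] [LinearOrder J]

private theorem w8_hi_le (Q : Cube V) (j : V) : Q.lo j ≤ Q.hi j ∧ Q.hi j ≤ Q.lo j + 1 := by
  unfold Cube.hi
  split_ifs
  · exact ⟨by omega, le_refl _⟩
  · exact ⟨le_refl _, by omega⟩

private theorem w8_hi_not {Q : Cube V} {j : V} (h : j ∉ Q.fr) : Q.hi j = Q.lo j := if_neg h

private theorem w8_hi_mem {Q : Cube V} {j : V} (h : j ∈ Q.fr) : Q.hi j = Q.lo j + 1 := if_pos h

private theorem w8_fr_sub {M : ℕ} {Q P : Cube V} (h : Q.InM M P) : Q.fr ⊆ P.fr := by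
  intro j hj
  by_contra hP
  have h1 := h j
  rw [w8_hi_not hP, w8_hi_mem hj] at h1
  linarith [h1.1, h1.2]

private theorem w8_inM_finite (M : ℕ) (P : Cube V) : {Q : Cube V | Q.InM M P}.Finite := by
  classical
  have h1 : (Set.pi Set.univ (fun j : {j // j ∈ P.fr} =>
      Set.Icc ((M : ℤ) * P.lo j) ((M : ℤ) * P.hi j))).Finite :=
    Set.Finite.pi fun j => Set.finite_Icc _ _
  have h2 : ((P.fr.powerset : Finset (Finset V)) : Set (Finset V)).Finite :=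
    Finset.finite_toSet _
  refine ((h1.prod h2).image (fun q : ({j // j ∈ P.fr} → ℤ) × Finset V =>
    (⟨fun j => if h : j ∈ P.fr then q.1 ⟨j, h⟩ else (M : ℤ) * P.lo j, q.2⟩ : Cube V))).subset ?_
  intro Q hQ
  have hQ' : Q.InM M P := hQ
  refine ⟨(fun j => Q.lo j, Q.fr), ⟨?_, ?_⟩, ?_⟩
  · intro j _
    have h3 := hQ' j
    have h4 := w8_hi_le Q j
    exact ⟨h3.1, h4.1.trans h3.2⟩
  · rw [Finset.mem_coe, Finset.mem_powerset]
    exact w8_fr_sub hQ'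
  · refine Cube.ext ?_ rfl
    funext j
    by_cases hj : j ∈ P.fr
    · simp only [dif_pos hj]
    · simp only [dif_neg hj]
      have h3 := hQ' j
      have h4 := w8_hi_le Q j
      rw [w8_hi_not hj] at h3
      exact le_antisymm h3.1 (h4.1.trans h3.2)

private theorem w8_first (fr : Finset V) (A B : V → ℤ) (h : ∃ j ∈ fr, A j ≠ B j) :
    ∃ i ∈ fr, A i ≠ B i ∧ ∀ j ∈ fr, rkw fr j < rkw fr i → A j = B j := by
  classical
  obtain ⟨j0, hj0, hj1⟩ := h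
  obtain ⟨i, hi, hmin⟩ := Finset.exists_min_image (fr.filter fun j => A j ≠ B j) (rkw fr)
    ⟨j0, Finset.mem_filter.2 ⟨hj0, hj1⟩⟩
  rw [Finset.mem_filter] at hi
  refine ⟨i, hi.1, hi.2, fun j hj hlt => ?_⟩
  by_contra hne
  have h1 := hmin j (Finset.mem_filter.2 ⟨hj, hne⟩)
  omega

private theorem w8_last (fr : Finset V) (A B : V → ℤ) (h : ∃ j ∈ fr, A j ≠ B j) :
    ∃ i ∈ fr, A i ≠ B i ∧ ∀ j ∈ fr, rkw fr i < rkw fr j → A j = B j := by
  classical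
  obtain ⟨j0, hj0, hj1⟩ := h
  obtain ⟨i, hi, hmax⟩ := Finset.exists_max_image (fr.filter fun j => A j ≠ B j) (rkw fr)
    ⟨j0, Finset.mem_filter.2 ⟨hj0, hj1⟩⟩
  rw [Finset.mem_filter] at hi
  refine ⟨i, hi.1, hi.2, fun j hj hlt => ?_⟩
  by_contra hne
  have h1 := hmax j (Finset.mem_filter.2 ⟨hj, hne⟩)
  omega

private theorem w8_ex {n : ℕ} (fr : Finset V) (A B : V → ℤ)
    (h : ∃ j ∈ fr, (n : ℤ) + 2 ≤ |A j - B j|) :
    ∃ i1 ∈ fr, ∃ i2 ∈ fr, A i1 ≠ B i1 ∧ A i2 ≠ B i2 ∧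
      (∀ j ∈ fr, rkw fr j < rkw fr i1 → A j = B j) ∧
      (∀ j ∈ fr, rkw fr i2 < rkw fr j → A j = B j) ∧
      (n : ℤ) + 2 ≤ ∑ j ∈ fr, |A j - B j| := by
  obtain ⟨j, hj, hj2⟩ := h
  have hne : A j ≠ B j := by
    intro h1
    rw [h1, sub_self, abs_zero] at hj2
    have h2 : (0 : ℤ) ≤ n := Int.natCast_nonneg n
    linarith
  obtain ⟨i1, m1, n1, s1⟩ := w8_first fr A B ⟨j, hj, hne⟩
  obtain ⟨i2, m2, n2, s2⟩ := w8_last fr A B ⟨j, hj, hne⟩
  exact ⟨i1, m1, i2, m2, n1, n2, s1, s2, hj2.trans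
    (Finset.single_le_sum (f := fun j => |A j - B j|) (fun i _ => abs_nonneg _) hj)⟩

private theorem w8_far {n : ℕ} {c : Cube V} {L : ℕ} {P B : V → ℤ}
    (hP : ∀ j, j ∉ c.fr → P j = (L : ℤ) * c.lo j) (hB : ∀ j, j ∉ c.fr → B j = (L : ℤ) * c.lo j)
    (h : ¬ Cls (n + 6) P B) : ∃ j ∈ c.fr, (n : ℤ) + 6 < |P j - B j| := by
  unfold Cls at h
  push Not at h
  obtain ⟨j, hj⟩ := h
  push_cast at hj
  refine ⟨j, ?_, hj⟩
  by_contra hjc
  rw [hP j hjc, hB j hjc, sub_self, abs_zero] at hj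
  have h2 : (0 : ℤ) ≤ n := Int.natCast_nonneg n
  linarith

private theorem w8_eq {Q P : Cube J} (h : Q.Le P) (hd : P.dim ≤ Q.dim) : Q = P := by
  have h1 : Q.fr = P.fr := Finset.eq_of_subset_of_card_le (Cube.fr_subset h) hd
  refine Cube.ext (funext fun j => ?_) h1
  have h2 := h j
  by_cases hj : j ∈ P.fr
  · have hj' : j ∈ Q.fr := by
      rw [h1]
      exact hj
    rw [show Q.hi j = Q.lo j + 1 from if_pos hj', show P.hi j = P.lo j + 1 from if_pos hj] at h2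
    linarith [h2.1, h2.2]
  · have hj' : j ∉ Q.fr := by
      rw [h1]
      exact hj
    rw [show Q.hi j = Q.lo j from if_neg hj', show P.hi j = P.lo j from if_neg hj] at h2
    linarith [h2.1, h2.2]

private theorem w8_k1 {n : ℕ} {K : Set (Cube V)}
    {C : Cube V → Set (Cube J)} {τV : Equiv.Perm V} {τJ : Equiv.Perm J} (hC : Car K C τV τJ)
    {Ty : Set (Cube J)} (hT : TyOk n τJ Ty) {L : ℕ} {g : (V → ℤ) → (J → ℤ)}
    {p : Cube V → Cube J → (V → ℤ)} (hP : Prt n K C τV τJ Ty L g p) (c : Cube V) (hc : c ∈ K)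
    (hd : c.dim = n + 1) (w : Cube J) (hw : w ∈ Ty) (hwC : w ∈ C c) (hwd : w.dim = n + 2)
    (σ : Cube J) (hσ : σ.Le w) (hσd : σ.dim = n + 1) :
    ∃ a : Wire V J, a.P = p c w ∧ a.B = p c σ ∧ a.ep = false ∧ a.ty = w ∧ a.te = σ ∧
      WOk n c L (C c) g a := by
  have hσC : σ ∈ C c := hC.clo c hc w hwC σ hσ
  have hσT : σ ∈ Ty := hT.fac w hw σ hσ (by omega)
  have pw : InI L c (p c w) := hP.pin c hc (by omega) w hw hwC
  have pσ : InI L c (p c σ) := hP.pin c hc (by omega) σ hσT hσC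
  have hsep : ¬ Cls (n + 6) (p c w) (p c σ) := by
    intro h
    have h1 := (hP.psep c hc (by omega) w hw hwC c hc (by omega) σ hσT hσC h).2
    rw [h1] at hwd
    omega
  obtain ⟨j, hj, hj2⟩ := w8_far pw.2 pσ.2 hsep
  obtain ⟨i1, m1, i2, m2, n1, n2, s1, s2, far⟩ :=
    w8_ex (n := n) c.fr (p c w) (p c σ) ⟨j, hj, by linarith⟩
  refine ⟨⟨p c w, p c w, p c σ, false, i1, i1, i2, w, σ⟩, rfl, rfl, rfl, rfl, rfl,
    { inA := fun j => ⟨fun hj => ⟨(pw.1 j hj).1.le, (pw.1 j hj).2⟩, fun hj => pw.2 j hj⟩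
      inB := pσ
      m0 := m1
      m1 := m1
      m2 := m2
      n1 := n1
      n2 := n2
      s1 := s1
      s2 := s2
      far := far
      tyC := hwC
      teC := hσC
      le := hσ
      tyd := hwd.le
      hB := hP.phas c hc (by omega) σ hσT hσC
      st0 := fun _ => ⟨fun j _ => ⟨rfl, fun hj => (pw.1 j hj).1⟩, Or.inl rfl, rfl,
        hP.phas c hc (by omega) w hw hwC⟩
      st1 := fun h => by cases h }⟩

private theorem w8_k2 {n : ℕ} {K : Set (Cube V)}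
    {C : Cube V → Set (Cube J)} {τV : Equiv.Perm V} {τJ : Equiv.Perm J} (hC : Car K C τV τJ)
    {Ty : Set (Cube J)} (hT : TyOk n τJ Ty) {L : ℕ} {g : (V → ℤ) → (J → ℤ)}
    {p : Cube V → Cube J → (V → ℤ)} (hP : Prt n K C τV τJ Ty L g p) (c : Cube V) (hc : c ∈ K)
    (hd : c.dim = n + 1) (e : Cube V) (he : e ∈ K) (hed : e.dim = n) (hec : e.Le c)
    (κ : Cube J) (hκ : κ ∈ Ty) (hκC : κ ∈ C e) :
    (¬ InI L c (p e κ)) ∧ ∃ a : Wire V J, a.P = p e κ ∧ a.B = p c κ ∧ a.ep = false ∧ a.ty = κ ∧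
      a.te = κ ∧ WOk n c L (C c) g a := by
  classical
  have hκc : κ ∈ C c := hC.mon c hc e hec hκC
  have pe : InI L e (p e κ) := hP.pin e he hed.ge κ hκ hκC
  have pc : InI L c (p c κ) := hP.pin c hc (by omega) κ hκ hκc
  have hL : (1 : ℤ) ≤ L := by exact_mod_cast hP.hL
  have hsub := Cube.fr_subset hec
  have hcard : (c.fr \ e.fr).card = 1 := by
    have h1 : c.fr.card = n + 1 := hd
    have h2 : e.fr.card = n := hed
    rw [Finset.card_sdiff_of_subset hsub]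
    omega
  obtain ⟨i0, hi0⟩ := Finset.card_eq_one.1 hcard
  have hi0c : i0 ∈ c.fr ∧ i0 ∉ e.fr := by
    have h1 : i0 ∈ c.fr \ e.fr := by
      rw [hi0]
      exact Finset.mem_singleton_self _
    exact Finset.mem_sdiff.1 h1
  have hoth : ∀ j ∈ c.fr, j ≠ i0 → j ∈ e.fr := by
    intro j hj hne
    by_contra hje
    have h1 : j ∈ c.fr \ e.fr := Finset.mem_sdiff.2 ⟨hj, hje⟩
    rw [hi0, Finset.mem_singleton] at h1
    exact hne h1
  have elo : ∀ j ∈ e.fr, e.lo j = c.lo j ∧ e.hi j = c.hi j := by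
    intro j hj
    have h1 := hec j
    have h2 := w8_hi_mem hj
    have h3 := w8_hi_mem (hsub hj)
    omega
  have eoff : ∀ j, j ∉ c.fr → e.lo j = c.lo j := by
    intro j hj
    have h1 := hec j
    have h2 := w8_hi_le e j
    have h3 := w8_hi_not hj
    omega
  have ei0 : e.lo i0 = c.lo i0 ∨ e.lo i0 = c.lo i0 + 1 := by
    have h1 := hec i0
    have h2 := w8_hi_not hi0c.2
    have h3 := w8_hi_mem hi0c.1
    omega
  have hPi0 : p e κ i0 = (L : ℤ) * e.lo i0 := pe.2 i0 hi0c.2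
  have hci0 : c.hi i0 = c.lo i0 + 1 := w8_hi_mem hi0c.1
  have hPoff : ∀ j, j ∉ c.fr → p e κ j = (L : ℤ) * c.lo j := by
    intro j hj
    rw [pe.2 j (fun h => hj (hsub h)), eoff j hj]
  refine ⟨fun h => ?_, ?_⟩
  · have h1 := h.1 i0 hi0c.1
    rw [hPi0, hci0, mul_add, mul_one] at h1
    rcases ei0 with h2 | h2
    · rw [h2] at h1
      exact lt_irrefl _ h1.1
    · rw [h2, mul_add, mul_one] at h1
      exact lt_irrefl _ h1.2
  · obtain ⟨δ, hδ0, hδ1, hδ⟩ : ∃ δ : ℤ, 0 ≤ δ ∧ δ ≤ 1 ∧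
        ((δ = 0 ∧ e.lo i0 = c.lo i0) ∨ (δ = 1 ∧ e.lo i0 = c.lo i0 + 1)) := by
      rcases ei0 with h2 | h2
      · exact ⟨0, le_rfl, by norm_num, Or.inl ⟨rfl, h2⟩⟩
      · exact ⟨1, by norm_num, le_rfl, Or.inr ⟨rfl, h2⟩⟩
    obtain ⟨A, hA0, hA⟩ : ∃ A : V → ℤ, A i0 = p e κ i0 - δ ∧ ∀ j, j ≠ i0 → A j = p e κ j :=
      ⟨Function.update (p e κ) i0 (p e κ i0 - δ), Function.update_self _ _ _,
        fun j hj => Function.update_of_ne hj _ _⟩
    have inA : ∀ j, (j ∈ c.fr → (L : ℤ) * c.lo j ≤ A j ∧ A j < (L : ℤ) * c.hi j) ∧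
        (j ∉ c.fr → A j = (L : ℤ) * c.lo j) := by
      intro j
      constructor
      · intro hj
        by_cases hji : j = i0
        · subst hji
          rw [hA0, hPi0, hci0, mul_add, mul_one]
          rcases hδ with ⟨h1, h2⟩ | ⟨h1, h2⟩
          · rw [h1, h2]
            constructor <;> linarith
          · rw [h1, h2, mul_add, mul_one]
            constructor <;> linarith
        · have hje := hoth j hj hji
          have h1 := pe.1 j hje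
          rw [(elo j hje).1, (elo j hje).2] at h1
          rw [hA j hji]
          exact ⟨h1.1.le, h1.2⟩
      · intro hj
        rw [hA j (fun h => hj (by rw [h]; exact hi0c.1)), hPoff j hj]
    have hInB : InB L c A := by
      intro j
      by_cases hj : j ∈ c.fr
      · exact ⟨((inA j).1 hj).1, ((inA j).1 hj).2.le⟩
      · rw [(inA j).2 hj, w8_hi_not hj]
        exact ⟨le_rfl, le_rfl⟩
    have habs : ∀ j, |A j - p e κ j| ≤ 1 := by
      intro j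
      by_cases hji : j = i0
      · rw [hji, hA0, abs_le]
        constructor <;> linarith
      · rw [hA j hji, sub_self, abs_zero]
        norm_num
    have hCls : Cls 1 A (p e κ) := fun j => by
      have h1 := habs j
      exact_mod_cast h1
    have hg : g A = g (p e κ) := hP.pval e he hed.ge κ hκ hκC c hc A hInB hCls
    have hsep : ¬ Cls (n + 6) (p e κ) (p c κ) := by
      intro h
      have h1 := (hP.psep e he hed.ge κ hκ hκC c hc (by omega) κ hκ hκc h).1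
      rw [h1] at hed
      omega
    obtain ⟨j, hj, hj2⟩ := w8_far hPoff pc.2 hsep
    have hfar : (n : ℤ) + 2 ≤ |A j - p c κ j| := by
      have h1 := habs j
      have h2 := abs_sub_le (p e κ j) (A j) (p c κ j)
      rw [abs_sub_comm (p e κ j) (A j)] at h2
      linarith
    obtain ⟨i1, m1, i2, m2, n1, n2, s1, s2, far⟩ :=
      w8_ex (n := n) c.fr A (p c κ) ⟨j, hj, hfar⟩
    refine ⟨⟨p e κ, A, p c κ, false, i0, i1, i2, κ, κ⟩, rfl, rfl, rfl, rfl, rfl,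
      { inA := inA
        inB := pc
        m0 := hi0c.1
        m1 := m1
        m2 := m2
        n1 := n1
        n2 := n2
        s1 := s1
        s2 := s2
        far := far
        tyC := hκc
        teC := hκc
        le := Cube.le_refl' κ
        tyd := (hT.dim κ hκ).2
        hB := hP.phas c hc (by omega) κ hκ hκc
        st0 := fun _ => ⟨fun j hji => ⟨(hA j hji).symm, fun hjc => ?_⟩, ?_, hg.symm, ?_⟩
        st1 := fun h => by cases h }⟩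
    · have hje := hoth j hjc hji
      have h1 := (pe.1 j hje).1
      rw [(elo j hje).1] at h1
      exact h1
    · show p e κ i0 = A i0 ∨ p e κ i0 = A i0 + 1 ∧ p e κ i0 = (L : ℤ) * c.hi i0
      rcases hδ with ⟨h1, h2⟩ | ⟨h1, h2⟩
      · left
        rw [hA0, h1, sub_zero]
      · right
        rw [hA0, h1, hPi0, h2, hci0]
        exact ⟨by ring, rfl⟩
    · show κ.Has (g A)
      rw [hg]
      exact hP.phas e he hed.ge κ hκ hκC

private theorem w8_k3 {n : ℕ} {K : Set (Cube V)}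
    {C : Cube V → Set (Cube J)} {τV : Equiv.Perm V} {τJ : Equiv.Perm J}
    {Ty : Set (Cube J)} {L : ℕ} {g : (V → ℤ) → (J → ℤ)}
    {p : Cube V → Cube J → (V → ℤ)} (hP : Prt n K C τV τJ Ty L g p) (c : Cube V) (hc : c ∈ K)
    (hd : c.dim = n + 1) (u : Cube V) (hu : u.InM L c) (hud : u.dim = n + 1)
    (hS : ¬ ∃ S : Cube J, S.dim ≤ n ∧ ∀ v, u.Has v → S.Has (g v)) :
    ∃ a : Wire V J, (∀ d ∈ K, n ≤ d.dim → ∀ κ ∈ Ty, κ ∈ C d → ¬ Cls (n + 6) u.lo (p d κ)) ∧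
      a.P = u.lo ∧ a.A = u.lo ∧ a.B = p c a.te ∧ a.ep = true ∧
      a.te = a.ty ∧ a.ty ∈ Ty ∧ a.ty.dim = n + 1 ∧ a.ty ∈ C c ∧ WOk n c L (C c) g a := by
  rcases hP.ess c hc u hu hud with h | ⟨⟨σ, hσ, hσC, hσd, hσg⟩, hfr⟩
  · exact absurd h hS
  have pσ : InI L c (p c σ) := hP.pin c hc (by omega) σ hσ hσC
  have hfrq : u.fr = c.fr := by
    refine Finset.eq_of_subset_of_card_le (w8_fr_sub hu) ?_
    have h1 : c.fr.card = n + 1 := hd
    have h2 : u.fr.card = n + 1 := hud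
    omega
  have hoff : ∀ j, j ∉ c.fr → u.lo j = (L : ℤ) * c.lo j := by
    intro j hj
    have h1 := hu j
    have h2 := w8_hi_le u j
    rw [w8_hi_not hj] at h1
    linarith [h1.1, h1.2, h2.1]
  obtain ⟨j, hj, hj2⟩ := w8_far hoff pσ.2 (hfr c hc (by omega) σ hσ hσC)
  obtain ⟨i1, m1, i2, m2, n1, n2, s1, s2, far⟩ :=
    w8_ex (n := n) c.fr u.lo (p c σ) ⟨j, hj, by linarith⟩
  refine ⟨⟨u.lo, u.lo, p c σ, true, i1, i1, i2, σ, σ⟩, hfr, rfl, rfl, rfl, rfl, rfl, hσ, hσd, hσC,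
    { inA := fun j => ⟨fun hj => ⟨(hu j).1, ?_⟩, hoff j⟩
      inB := pσ
      m0 := m1
      m1 := m1
      m2 := m2
      n1 := n1
      n2 := n2
      s1 := s1
      s2 := s2
      far := far
      tyC := hσC
      teC := hσC
      le := Cube.le_refl' σ
      tyd := by
        show σ.dim ≤ n + 2
        omega
      hB := hP.phas c hc (by omega) σ hσ hσC
      st0 := fun h => by cases h
      st1 := fun _ => ⟨rfl, rfl, fun v hv => hσg v fun j => ?_⟩ }⟩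
  · have h1 := (hu j).2
    rw [w8_hi_mem (by rw [hfrq]; exact hj)] at h1
    show u.lo j < _
    linarith
  · have h1 := hv j
    refine ⟨h1.1, h1.2.trans (le_of_eq ?_)⟩
    show u.lo j + (if j ∈ c.fr then 1 else 0) = u.hi j
    unfold Cube.hi
    rw [hfrq]
    split_ifs
    · rfl
    · rw [add_zero]

theorem wires_exist {n : ℕ} (hn : 2 ≤ n) {K : Set (Cube V)} (hKf : K.Finite) (hKc : Closed K)
    {C : Cube V → Set (Cube J)} {τV : Equiv.Perm V} {τJ : Equiv.Perm J} (hC : Car K C τV τJ)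
    {Ty : Set (Cube J)} (hT : TyOk n τJ Ty) {L : ℕ} {g : (V → ℤ) → (J → ℤ)}
    {p : Cube V → Cube J → (V → ℤ)} (hP : Prt n K C τV τJ Ty L g p) (c : Cube V) (hc : c ∈ K)
    (hd : c.dim = n + 1) :
    ∃ W : Finset (Wire V J), WsOk n c L (C c) g W (p c) ∧
      (∀ q κ, (∃ a ∈ W, a.ep = false ∧ ¬ InI L c a.P ∧ q = a.P ∧ κ = a.ty) ↔
        BP n K C Ty p c q κ) ∧
      ∀ w ∈ Ty, w ∈ C c → w.dim = n + 2 → ∃ a ∈ W, a.ty = w := by
  classical
  have hfrne : c.fr.Nonempty := by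
    rw [← Finset.card_pos]
    have h1 : c.fr.card = n + 1 := hd
    omega
  obtain ⟨i, _⟩ := hfrne
  haveI : Nonempty (Wire V J) := ⟨⟨fun _ => 0, fun _ => 0, fun _ => 0, false, i, i, i,
    pt (fun _ => 0), pt (fun _ => 0)⟩⟩
  have hI : ∀ w : Cube J, w ∈ Ty → w ∈ C c → w.dim = n + 2 → ∀ σ : Cube J, σ.Le w →
      σ.dim = n + 1 → ∃ a : Wire V J, a.P = p c w ∧ a.B = p c σ ∧ a.ep = false ∧ a.ty = w ∧
        a.te = σ ∧ WOk n c L (C c) g a :=
    fun w hw hwC hwd σ hσ hσd => w8_k1 hC hT hP c hc hd w hw hwC hwd σ hσ hσd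
  have hII : ∀ e : Cube V, e ∈ K → e.dim = n → e.Le c → ∀ κ : Cube J, κ ∈ Ty → κ ∈ C e →
      ∃ a : Wire V J, a.P = p e κ ∧ a.B = p c κ ∧ a.ep = false ∧ a.ty = κ ∧
        a.te = κ ∧ WOk n c L (C c) g a :=
    fun e he hed hec κ hκ hκC => (w8_k2 hC hT hP c hc hd e he hed hec κ hκ hκC).2
  have hIII : ∀ u : Cube V, u.InM L c → u.dim = n + 1 →
      (¬ ∃ S : Cube J, S.dim ≤ n ∧ ∀ v, u.Has v → S.Has (g v)) →
      ∃ a : Wire V J, (∀ d ∈ K, n ≤ d.dim → ∀ κ ∈ Ty, κ ∈ C d → ¬ Cls (n + 6) u.lo (p d κ)) ∧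
      a.P = u.lo ∧ a.A = u.lo ∧ a.B = p c a.te ∧ a.ep = true ∧
      a.te = a.ty ∧ a.ty ∈ Ty ∧ a.ty.dim = n + 1 ∧ a.ty ∈ C c ∧ WOk n c L (C c) g a :=
    fun u hu hud hS => w8_k3 hP c hc hd u hu hud hS
  choose! f1 hf1 using hI
  choose! f2 hf2 using hII
  choose! f3 hf3 using hIII
  have hfin : ({a : Wire V J | ∃ w σ : Cube J, (w ∈ Ty ∧ w ∈ C c ∧ w.dim = n + 2 ∧ σ.Le w ∧
        σ.dim = n + 1) ∧ a = f1 w σ} ∪
      {a : Wire V J | ∃ (e : Cube V) (κ : Cube J), (e ∈ K ∧ e.dim = n ∧ e.Le c ∧ κ ∈ Ty ∧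
        κ ∈ C e) ∧ a = f2 e κ} ∪
      {a : Wire V J | ∃ u : Cube V, (u.InM L c ∧ u.dim = n + 1 ∧
        ¬ ∃ S : Cube J, S.dim ≤ n ∧ ∀ v, u.Has v → S.Has (g v)) ∧ a = f3 u}).Finite := by
    refine Set.Finite.union (Set.Finite.union ?_ ?_) ?_
    · refine ((hT.fin.prod hT.fin).image (fun x => f1 x.1 x.2)).subset ?_
      rintro a ⟨w, σ, ⟨h1, h2, h3, h4, h5⟩, rfl⟩
      exact ⟨(w, σ), ⟨h1, hT.fac w h1 σ h4 (by omega)⟩, rfl⟩
    · refine ((hKf.prod hT.fin).image (fun x => f2 x.1 x.2)).subset ?_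
      rintro a ⟨e, κ, ⟨h1, h2, h3, h4, h5⟩, rfl⟩
      exact ⟨(e, κ), ⟨h1, h4⟩, rfl⟩
    · refine ((w8_inM_finite L c).image f3).subset ?_
      rintro a ⟨u, ⟨h1, h2, h3⟩, rfl⟩
      exact ⟨u, h1, rfl⟩
  obtain ⟨W, hW⟩ : ∃ W : Finset (Wire V J), ∀ a, a ∈ W ↔
      ((∃ w σ : Cube J, (w ∈ Ty ∧ w ∈ C c ∧ w.dim = n + 2 ∧ σ.Le w ∧
        σ.dim = n + 1) ∧ a = f1 w σ) ∨
      (∃ (e : Cube V) (κ : Cube J), (e ∈ K ∧ e.dim = n ∧ e.Le c ∧ κ ∈ Ty ∧
        κ ∈ C e) ∧ a = f2 e κ)) ∨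
      (∃ u : Cube V, (u.InM L c ∧ u.dim = n + 1 ∧
        ¬ ∃ S : Cube J, S.dim ≤ n ∧ ∀ v, u.Has v → S.Has (g v)) ∧ a = f3 u) :=
    ⟨hfin.toFinset, fun a => by
      rw [Set.Finite.mem_toFinset]
      rfl⟩
  have hdc : n ≤ c.dim := by omega
  -- general facts
  have G : ∀ a ∈ W, WOk n c L (C c) g a ∧ a.B = p c a.te ∧ (a.te ∈ Ty ∧ a.te ∈ C c) ∧
      (a.ty ∈ Ty ∧ a.ty ∈ C c) ∧ (a.te = a.ty ∨ (a.P = p c a.ty ∧ a.ep = false)) ∧
      ((a.ep = false ∧ ∃ d ∈ K, n ≤ d.dim ∧ a.ty ∈ C d ∧ a.P = p d a.ty ∧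
          (d = c ∨ (d.dim = n ∧ d.Le c))) ∨
        (a.ep = true ∧ ∃ u : Cube V, u.InM L c ∧ u.dim = n + 1 ∧
          (¬ ∃ S : Cube J, S.dim ≤ n ∧ ∀ v, u.Has v → S.Has (g v)) ∧ a = f3 u ∧ a.P = u.lo ∧
          (∀ d ∈ K, n ≤ d.dim → ∀ κ ∈ Ty, κ ∈ C d → ¬ Cls (n + 6) u.lo (p d κ)))) := by
    intro a ha
    rcases (hW a).1 ha with (⟨w, σ, ⟨h1, h2, h3, h4, h5⟩, rfl⟩ | ⟨e, κ, ⟨h1, h2, h3, h4, h5⟩, rfl⟩)
      | ⟨u, ⟨h1, h2, h3⟩, rfl⟩
    · obtain ⟨k1, k2, k3, k4, k5, k6⟩ := hf1 w h1 h2 h3 σ h4 h5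
      refine ⟨k6, by rw [k2, k5], ⟨?_, k6.teC⟩, ⟨by rw [k4]; exact h1, k6.tyC⟩,
        Or.inr ⟨by rw [k1, k4], k3⟩, Or.inl ⟨k3, c, hc, hdc, k6.tyC, by rw [k1, k4],
          Or.inl rfl⟩⟩
      rw [k5]
      exact hT.fac w h1 σ h4 (by omega)
    · obtain ⟨k1, k2, k3, k4, k5, k6⟩ := hf2 e h1 h2 h3 κ h4 h5
      exact ⟨k6, by rw [k2, k5], ⟨by rw [k5]; exact h4, k6.teC⟩, ⟨by rw [k4]; exact h4, k6.tyC⟩,
        Or.inl (by rw [k4, k5]), Or.inl ⟨k3, e, h1, h2.ge, by rw [k4]; exact h5,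
          by rw [k1, k4], Or.inr ⟨h2, h3⟩⟩⟩
    · obtain ⟨k0, k1, k2, k3, k4, k5, k6, k7, k8, k9⟩ := hf3 u h1 h2 h3
      exact ⟨k9, k3, ⟨by rw [k5]; exact k6, k9.teC⟩, ⟨k6, k8⟩, Or.inl k5,
        Or.inr ⟨k4, u, h1, h2, h3, rfl, k1, k0⟩⟩
  have E1 : ∀ w ∈ Ty, w ∈ C c → w.dim = n + 2 → ∀ σ : Cube J, σ.Le w → σ.dim = n + 1 →
      ∃ a ∈ W, a.P = p c w ∧ a.ep = false ∧ a.ty = w ∧ a.te = σ := by
    intro w h1 h2 h3 σ h4 h5
    obtain ⟨k1, k2, k3, k4, k5, k6⟩ := hf1 w h1 h2 h3 σ h4 h5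
    exact ⟨f1 w σ, (hW _).2 (Or.inl (Or.inl ⟨w, σ, ⟨h1, h2, h3, h4, h5⟩, rfl⟩)), k1, k3, k4, k5⟩
  refine ⟨W, ⟨fun a ha => (G a ha).1, ?_, ?_, ?_, ?_, ?_, ?_⟩, ?_, ?_⟩
  · -- sPP
    intro a ha b hb hab
    obtain ⟨-, -, -, ⟨ta, tca⟩, -, hea⟩ := G a ha
    obtain ⟨-, -, -, ⟨tb, tcb⟩, -, heb⟩ := G b hb
    rcases hea with ⟨ea, d, hd1, hd2, hd3, hd4, _⟩ | ⟨ea, u, hu1, hu2, hu3, hu4, hu5, hu6⟩
    · rcases heb with ⟨eb, d', hd1', hd2', hd3', hd4', _⟩ | ⟨eb, u', hu1', hu2', hu3', hu4', hu5',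
        hu6'⟩
      · have h1 : Cls (n + 6) (p d a.ty) (p d' b.ty) := by
          rw [← hd4, ← hd4']
          exact cls_mono (by omega) hab
        obtain ⟨h2, h3⟩ := hP.psep d hd1 hd2 a.ty ta hd3 d' hd1' hd2' b.ty tb hd3' h1
        right
        exact ⟨by rw [hd4, hd4', h2, h3], ea, eb, h3⟩
      · exfalso
        refine hu6' d hd1 hd2 a.ty ta hd3 ?_
        rw [← hd4, ← hu5']
        exact cls_symm (cls_mono (by omega) hab)
    · rcases heb with ⟨eb, d', hd1', hd2', hd3', hd4', _⟩ | ⟨eb, u', hu1', hu2', hu3', hu4', hu5',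
        hu6'⟩
      · exfalso
        refine hu6 d' hd1' hd2' b.ty tb hd3' ?_
        rw [← hd4', ← hu5]
        exact cls_mono (by omega) hab
      · left
        have h1 : u = u' := by
          refine hP.esp c hc u u' hu1 hu1' hu2 hu2' hu3 hu3' ?_
          rw [← hu5, ← hu5']
          exact hab
        rw [hu4, hu4', h1]
  · -- sPB
    intro a ha b hb hab
    obtain ⟨-, -, -, ⟨ta, tca⟩, -, hea⟩ := G a ha
    obtain ⟨-, hbB, ⟨tb, tcb⟩, -, -, -⟩ := G b hb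
    rcases hea with ⟨ea, d, hd1, hd2, hd3, hd4, _⟩ | ⟨ea, u, hu1, hu2, hu3, hu4, hu5, hu6⟩
    · have h1 : Cls (n + 6) (p d a.ty) (p c b.te) := by
        rw [← hd4, ← hbB]
        exact cls_mono (by omega) hab
      obtain ⟨h2, h3⟩ := hP.psep d hd1 hd2 a.ty ta hd3 c hc hdc b.te tb tcb h1
      exact ⟨by rw [hd4, hbB, h2, h3], ea, h3⟩
    · exfalso
      refine hu6 c hc hdc b.te tb tcb ?_
      rw [← hbB, ← hu5]
      exact cls_mono (by omega) hab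
  · -- sBB
    intro a ha b hb hab
    obtain ⟨-, haB, ⟨ta, tca⟩, -, -, -⟩ := G a ha
    obtain ⟨-, hbB, ⟨tb, tcb⟩, -, -, -⟩ := G b hb
    have h1 : Cls (n + 6) (p c a.te) (p c b.te) := by
      rw [← haB, ← hbB]
      exact cls_mono (by omega) hab
    obtain ⟨h2, h3⟩ := hP.psep c hc hdc a.te ta tca c hc hdc b.te tb tcb h1
    exact ⟨by rw [haB, hbB, h3], h3⟩
  · -- prt
    intro a ha
    exact ⟨(G a ha).2.1, (G a ha).2.2.2.2.1⟩
  · -- fac
    intro a ha σ hσd hσ hne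
    obtain ⟨hok, -, -, ⟨ta, tca⟩, -, -⟩ := G a ha
    have h1 : ¬ a.ty.dim ≤ σ.dim := fun h => hne (w8_eq hσ h)
    have h2 := hok.tyd
    obtain ⟨b, hb, hb1, hb2, hb3, hb4⟩ := E1 a.ty ta tca (by omega) σ hσ (by omega)
    exact ⟨b, hb, hb1, hb2, hb3, hb4⟩
  · -- ess
    intro u hu hud
    by_cases hS : ∃ S : Cube J, S.dim ≤ n ∧ ∀ v, u.Has v → S.Has (g v)
    · exact Or.inl hS
    · obtain ⟨k0, k1, k2, k3, k4, k5, k6, k7, k8, k9⟩ := hf3 u hu hud hS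
      exact Or.inr ⟨f3 u, (hW _).2 (Or.inr ⟨u, ⟨hu, hud, hS⟩, rfl⟩), k4, k2⟩
  · -- boundary ports
    intro q κ
    constructor
    · rintro ⟨a, ha, hep, hni, rfl, rfl⟩
      obtain ⟨-, -, -, ⟨ta, tca⟩, -, hea⟩ := G a ha
      rcases hea with ⟨ea, d, hd1, hd2, hd3, hd4, hd5⟩ | ⟨ea, _⟩
      · rcases hd5 with rfl | ⟨hd5, hd6⟩
        · exfalso
          apply hni
          rw [hd4]
          exact hP.pin d hd1 hd2 a.ty ta hd3
        · exact ⟨d, hd1, hd5, hd6, ta, hd3, hd4⟩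
      · rw [hep] at ea
        cases ea
    · rintro ⟨e, he, hed, hec, hκ, hκC, rfl⟩
      obtain ⟨k1, k2, k3, k4, k5, k6⟩ := hf2 e he hed hec κ hκ hκC
      refine ⟨f2 e κ, (hW _).2 (Or.inl (Or.inr ⟨e, κ, ⟨he, hed, hec, hκ, hκC⟩, rfl⟩)), k3, ?_,
        k1.symm, k4.symm⟩
      rw [k1]
      exact (w8_k2 hC hT hP c hc hd e he hed hec κ hκ hκC).1
  · -- types of dimension n + 2
    intro w hw hwC hwd
    have hne : w.fr.Nonempty := by
      rw [← Finset.card_pos]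
      have h1 : w.fr.card = n + 2 := hwd
      omega
    obtain ⟨j, hj⟩ := hne
    obtain ⟨a, ha, _, _, h3, _⟩ := E1 w hw hwC hwd (w.up j) (Cube.up_le w j hj) (by
      show (w.fr.erase j).card = n + 1
      rw [Finset.card_erase_of_mem hj]
      have h1 : w.fr.card = n + 2 := hwd
      omega)
    exact ⟨a, ha, h3⟩

end AGE
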