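import Pool.Agent.AGE.WDefs2

/-!
# Project AGE, layer WIR, ports: definitions
-/

set_option autoImplicit false

noncomputable section

namespace AGE

variable {V J : Type} [LinearOrder V] [LinearOrder J]


/-- `d` is a cell of dimension at least `n` and `κ` a type in `C d` -/
def PrtIx (n : ℕ) (K : Set (Cube V)) (C : Cube V → Set (Cube J)) (Ty : Set (Cube J))
    (d : Cube V) (κ : Cube J) : Prop := d ∈ K ∧ n ≤ d.dim ∧ κ ∈ Ty ∧ κ ∈ C d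

/-- the port of `(d, κ)` with offset `o d κ` -/
def wpP (L : ℕ) (o : Cube V → Cube J → ℤ) (d : Cube V) (κ : Cube J) : V → ℤ :=
  shf d.fr (o d κ) (mul L d.lo)

/-- offsets -/
structure Ofs (n : ℕ) (K : Set (Cube V)) (C : Cube V → Set (Cube J)) (τV : Equiv.Perm V)
    (τJ : Equiv.Perm J) (Ty : Set (Cube J)) (S B : ℤ) (o : Cube V → Cube J → ℤ) : Prop where
  bnd : ∀ d κ, PrtIx n K C Ty d κ → S ≤ o d κ ∧ o d κ ≤ B
  sep : ∀ d κ κ', PrtIx n K C Ty d κ → PrtIx n K C Ty d κ' → κ ≠ κ' → S ≤ |o d κ - o d κ'|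
  equ : ∀ d κ, PrtIx n K C Ty d κ → o (d.act τV) (κ.act τJ) = o d κ

/-- paths from `F (M₃ d.lo)` into `κ` -/
structure Pth (n : ℕ) (K : Set (Cube V)) (C : Cube V → Set (Cube J)) (τV : Equiv.Perm V)
    (τJ : Equiv.Perm J) (Ty : Set (Cube J)) (M₃ : ℕ) (F : (V → ℤ) → (J → ℤ)) (T : ℕ)
    (γ : Cube V → Cube J → ℕ → (J → ℤ)) : Prop where
  st : ∀ d κ, PrtIx n K C Ty d κ → γ d κ 0 = F (mul M₃ d.lo)
  fin : ∀ d κ, PrtIx n K C Ty d κ → ∀ t, T ≤ t → γ d κ t = γ d κ T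
  has : ∀ d κ, PrtIx n K C Ty d κ → κ.Has (γ d κ T)
  adj : ∀ d κ, PrtIx n K C Ty d κ → ∀ t, ∃ S ∈ C d, S.dim ≤ 1 ∧ S.Has (γ d κ t) ∧
    S.Has (γ d κ (t + 1))
  equ : ∀ d κ, PrtIx n K C Ty d κ → ∀ t, γ (d.act τV) (κ.act τJ) t = actP τJ (γ d κ t)

/-- `v` is near the port of `(d, κ)` -/
def Near (n : ℕ) (K : Set (Cube V)) (C : Cube V → Set (Cube J)) (Ty : Set (Cube J)) (L : ℕ)
    (o : Cube V → Cube J → ℤ) (T : ℕ) (v : V → ℤ) (x : Cube V × Cube J) : Prop :=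
  PrtIx n K C Ty x.1 x.2 ∧ Cls (T + 2) v (wpP L o x.1 x.2)

open Classical in
/-- the coarse map with ports, `L = M₃ * (2 * h)` -/
def gPt (n : ℕ) (K : Set (Cube V)) (C : Cube V → Set (Cube J)) (Ty : Set (Cube J)) (M₃ h : ℕ)
    (F : (V → ℤ) → (J → ℤ)) (o : Cube V → Cube J → ℤ) (T : ℕ)
    (γ : Cube V → Cube J → ℕ → (J → ℤ)) (v : V → ℤ) : J → ℤ :=
  if hx : ∃ x : Cube V × Cube J, Near n K C Ty (M₃ * (2 * h)) o T v x then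
    γ hx.choose.1 hx.choose.2
      (T + 2 - dst {wpP (M₃ * (2 * h)) o hx.choose.1 hx.choose.2} v)
  else F (flo (2 * h) h v)

/-- the parameters -/
structure PPar (n N : ℕ) (K : Set (Cube V)) (C : Cube V → Set (Cube J)) (τV : Equiv.Perm V)
    (τJ : Equiv.Perm J) (Ty : Set (Cube J)) (M₃ h : ℕ) (F : (V → ℤ) → (J → ℤ)) (S : ℤ)
    (o : Cube V → Cube J → ℤ) (T : ℕ) (γ : Cube V → Cube J → ℕ → (J → ℤ)) : Prop where
  n2 : 2 ≤ n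
  src : Src n N K τV
  per : τJ ^ N = 1
  car : Car K C τV τJ
  ty : TyOk n τJ Ty
  m3 : 0 < M₃
  Feq : Equi τV τJ F
  Fcl : ∀ c ∈ K, ∀ Q : Cube V, Q.InM M₃ c →
    ∃ S ∈ C c, S.dim ≤ Q.dim ∧ ∀ v, Q.Has v → S.Has (F v)
  Fty : ∀ c ∈ K, ∀ Q : Cube V, Q.InM M₃ c → Q.dim = n + 1 →
    (∃ S : Cube J, S.dim ≤ n ∧ ∀ v, Q.Has v → S.Has (F v)) ∨
    ∃ σ ∈ Ty, σ ∈ C c ∧ σ.dim = n + 1 ∧ ∀ v, Q.Has v → σ.Has (F v)
  hS : 2 * (T : ℤ) + n + 20 ≤ S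
  ofs : Ofs n K C τV τJ Ty S (h - S) o
  pth : Pth n K C τV τJ Ty M₃ F T γ

end AGE
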