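import Pool.Agent.AGE.WDefs2
import Pool.Agent.AGE.WPD
import Pool.Agent.AGE.C1b
import Pool.Agent.AGE.C2a
import Pool.Agent.AGE.EQC

/-!
# AGE-WP1: offsets of the ports

The finite set of types is numbered, the offsets are multiples of `S` chosen equivariantly.
-/

set_option autoImplicit false

noncomputable section

namespace AGE

variable {V J : Type} [LinearOrder V] [LinearOrder J]

private theorem WP1_iter (τJ : Equiv.Perm J) (k : ℕ) (u : Cube J → ℤ) (κ : Cube J) :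
    (fun (u : Cube J → ℤ) (κ : Cube J) => u (κ.act τJ⁻¹))^[k] u κ = u (κ.act (τJ⁻¹ ^ k)) := by
  induction k generalizing κ with
  | zero => rw [Function.iterate_zero, id, pow_zero, Cube.act_one']
  | succ k ih =>
    rw [Function.iterate_succ_apply', ih, pow_succ, Cube.act_mul]

theorem ofs_exist {n N : ℕ} {K : Set (Cube V)} {τV : Equiv.Perm V} {τJ : Equiv.Perm J}
    (hK : Src n N K τV) (hJ : τJ ^ N = 1) (C : Cube V → Set (Cube J)) {Ty : Set (Cube J)}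
    (hT : TyOk n τJ Ty) (S : ℤ) (hS : 0 < S) :
    ∃ (B : ℤ) (o : Cube V → Cube J → ℤ), S ≤ B ∧ Ofs n K C τV τJ Ty S B o := by
  classical
  have hbk : ∀ κ : Cube J, (κ.act τJ⁻¹).act τJ = κ := fun κ => by
    rw [← Cube.act_mul, mul_inv_cancel, Cube.act_one']
  have hbk' : ∀ κ : Cube J, (κ.act τJ).act τJ⁻¹ = κ := fun κ => by
    rw [← Cube.act_mul, inv_mul_cancel, Cube.act_one']
  set s : Finset (Cube J) := hT.fin.toFinset with hs
  have hms : ∀ κ ∈ Ty, κ ∈ s := fun κ hκ => by rw [hs, Set.Finite.mem_toFinset]; exact hκ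
  set e := s.equivFin with he
  set ν : Cube J → ℕ := fun κ => if h : κ ∈ s then (e ⟨κ, h⟩ : ℕ) else 0 with hν
  have hν1 : ∀ κ ∈ Ty, ν κ < s.card := fun κ hκ => by
    simp only [hν, dif_pos (hms κ hκ)]
    exact (e ⟨κ, hms κ hκ⟩).2
  have hν2 : ∀ κ ∈ Ty, ∀ κ' ∈ Ty, ν κ = ν κ' → κ = κ' := fun κ hκ κ' hκ' h => by
    simp only [hν, dif_pos (hms κ hκ), dif_pos (hms κ' hκ')] at h
    have h1 := e.injective (Fin.ext h)
    exact congrArg Subtype.val h1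
  obtain ⟨α, h1, h2⟩ := eqc hK.pos K τV hK.ord hK.inv hK.fre
    (fun (u : Cube J → ℤ) (κ : Cube J) => u (κ.act τJ⁻¹)) (fun u => by
      funext κ
      rw [WP1_iter, inv_pow, hJ, inv_one, Cube.act_one'])
    (fun _ (u : Cube J → ℤ) => (∀ κ ∈ Ty, S ≤ u κ ∧ u κ ≤ S * ((s.card : ℤ) + 1)) ∧
      ∀ κ ∈ Ty, ∀ κ' ∈ Ty, κ ≠ κ' → S ≤ |u κ - u κ'|)
    (fun c _ => by
      refine ⟨fun κ => S * ((ν κ : ℤ) + 1), fun κ hκ => ⟨?_, ?_⟩, fun κ hκ κ' hκ' hne => ?_⟩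
      · have h3 : (0 : ℤ) ≤ ν κ := Int.natCast_nonneg _
        nlinarith
      · have h3 : (ν κ : ℤ) < s.card := by exact_mod_cast hν1 κ hκ
        exact mul_le_mul_of_nonneg_left (by linarith) hS.le
      · have h3 : (ν κ : ℤ) ≠ ν κ' := fun h => hne (hν2 κ hκ κ' hκ' (by exact_mod_cast h))
        have h4 : S * ((ν κ : ℤ) + 1) - S * ((ν κ' : ℤ) + 1) = S * ((ν κ : ℤ) - ν κ') := by ring
        have h5 : (1 : ℤ) ≤ |(ν κ : ℤ) - ν κ'| := Int.one_le_abs (sub_ne_zero.2 h3)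
        show S ≤ |S * ((ν κ : ℤ) + 1) - S * ((ν κ' : ℤ) + 1)|
        rw [h4, abs_mul, abs_of_pos hS]
        nlinarith)
    (fun c _ u hu => by
      have hin : ∀ κ ∈ Ty, κ.act τJ⁻¹ ∈ Ty := fun κ hκ => by
        rw [hT.inv, hbk]
        exact hκ
      refine ⟨fun κ hκ => hu.1 _ (hin κ hκ), fun κ hκ κ' hκ' hne =>
        hu.2 _ (hin κ hκ) _ (hin κ' hκ') fun h => hne ?_⟩
      rw [← hbk κ, h, hbk])
  refine ⟨S * ((s.card : ℤ) + 1), α, ?_, ?_, ?_, ?_⟩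
  · have h3 : (0 : ℤ) ≤ s.card := Int.natCast_nonneg _
    nlinarith
  · intro d κ hd
    exact (h1 d hd.1).1 κ hd.2.2.1
  · intro d κ κ' hd hd' hne
    exact (h1 d hd.1).2 κ hd.2.2.1 κ' hd'.2.2.1 hne
  · intro d κ hd
    rw [h2 d hd.1]
    show α d ((κ.act τJ).act τJ⁻¹) = α d κ
    rw [hbk']

end AGE
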