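import Pool.Agent.AGE.WDefs2
import Pool.Agent.AGE.WPD
import Pool.Agent.AGE.C1b
import Pool.Agent.AGE.C2a
import Pool.Agent.AGE.EQC

/-!
# AGE-WP2: the paths of the ports

Combinatorial contractibility of `C d` gives a path from `F (M₃ d.lo)` to the lowest vertex of `κ`, for finitely many pairs of
bounded length. The equivariant choice is `eqc`.
-/

set_option autoImplicit false

noncomputable section

namespace AGE

variable {V J : Type} [LinearOrder V] [LinearOrder J]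


/-- a path between two vertices of a contractible complex -/
private theorem WP2_path {C : Set (Cube J)} (hC : CTR C) (p q : J → ℤ) (hp : pt p ∈ C) (hq : pt q ∈ C) :
    ∃ (m : ℕ) (u : ℕ → (J → ℤ)), u 0 = p ∧ (∀ t, m ≤ t → u t = q) ∧
      ∀ t, ∃ S ∈ C, S.dim ≤ 1 ∧ S.Has (u t) ∧ S.Has (u (t + 1)) := by
  obtain ⟨A, Γ, c₀, h0, hA, hE, _⟩ := hC {p, q} (Set.toFinite _) (by
    rintro v (rfl | rfl)
    · exact hp
    · exact hq)
  have hpm : p ∈ ({p, q} : Set (J → ℤ)) := Set.mem_insert _ _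
  have hqm : q ∈ ({p, q} : Set (J → ℤ)) := Set.mem_insert_of_mem _ rfl
  refine ⟨2 * A + 1, fun t => if t ≤ A then Γ t p else Γ (2 * A - t) q, ?_, ?_, ?_⟩
  · simp only
    rw [if_pos (Nat.zero_le A)]
    exact h0 p hpm
  · intro t ht
    simp only
    rw [if_neg (by omega)]
    have h1 : 2 * A - t = 0 := by omega
    rw [h1]
    exact h0 q hqm
  · intro t
    simp only
    by_cases h1 : t < A
    · rw [if_pos h1.le, if_pos (by omega)]
      exact hE p hpm t h1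
    · have h2 : (if t ≤ A then Γ t p else Γ (2 * A - t) q) = Γ (2 * A - t) q := by
        by_cases h3 : t ≤ A
        · have h4 : t = A := by omega
          have h5 : 2 * A - A = A := by omega
          rw [if_pos h3, h4, h5, hA p hpm, hA q hqm]
        · rw [if_neg h3]
      rw [h2, if_neg (by omega)]
      by_cases h3 : t < 2 * A
      · obtain ⟨Q, hQ, hd, ha, hb⟩ := hE q hqm (2 * A - (t + 1)) (by omega)
        have h4 : 2 * A - (t + 1) + 1 = 2 * A - t := by omega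
        rw [h4] at hb
        exact ⟨Q, hQ, hd, hb, ha⟩
      · have h4 : 2 * A - t = 0 := by omega
        have h5 : 2 * A - (t + 1) = 0 := by omega
        rw [h4, h5, h0 q hqm]
        have h6 : (pt q).Has q := Cube.has_lo (pt q)
        refine ⟨pt q, hq, ?_, h6, h6⟩
        unfold Cube.dim pt
        simp

/-- the action on families of paths -/
private def WP2_T (τJ : Equiv.Perm J) (u : Cube J → ℕ → (J → ℤ)) : Cube J → ℕ → (J → ℤ) :=
  fun κ t => actP τJ (u (κ.act τJ⁻¹) t)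

private theorem WP2_iter (τJ : Equiv.Perm J) (u : Cube J → ℕ → (J → ℤ)) (a : ℕ) (κ : Cube J) (t : ℕ) :
    (WP2_T τJ)^[a] u κ t = actP (τJ ^ a) (u (κ.act (τJ ^ a)⁻¹) t) := by
  induction a generalizing κ with
  | zero =>
    rw [Function.iterate_zero_apply, pow_zero, inv_one, Cube.act_one']
    rfl
  | succ a ih =>
    rw [Function.iterate_succ_apply']
    show actP τJ ((WP2_T τJ)^[a] u (κ.act τJ⁻¹) t) = _
    rw [ih, ← actP_mul, ← pow_succ', ← Cube.act_mul, ← mul_inv_rev, ← pow_succ']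

private theorem WP2_inv (τJ : Equiv.Perm J) (κ : Cube J) : (κ.act τJ⁻¹).act τJ = κ := by
  rw [← Cube.act_mul, mul_inv_cancel, Cube.act_one']

private theorem WP2_inv' (τJ : Equiv.Perm J) (κ : Cube J) : (κ.act τJ).act τJ⁻¹ = κ := by
  rw [← Cube.act_mul, inv_mul_cancel, Cube.act_one']

theorem pth_exist {n N : ℕ} {K : Set (Cube V)} {τV : Equiv.Perm V} {τJ : Equiv.Perm J}
    (hK : Src n N K τV) (hJ : τJ ^ N = 1) {C : Cube V → Set (Cube J)} (hC : Car K C τV τJ)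
    (hR : ∀ c ∈ K, n ≤ c.dim → CTR (C c)) {Ty : Set (Cube J)} (hT : TyOk n τJ Ty) {M₃ : ℕ}
    (hM₃ : 0 < M₃) {F : (V → ℤ) → (J → ℤ)} (hF : Equi τV τJ F)
    (hF1 : ∀ c ∈ K, ∀ Q : Cube V, Q.InM M₃ c →
      ∃ S ∈ C c, S.dim ≤ Q.dim ∧ ∀ v, Q.Has v → S.Has (F v)) :
    ∃ (T : ℕ) (γ : Cube V → Cube J → ℕ → (J → ℤ)), Pth n K C τV τJ Ty M₃ F T γ := by
  classical
  -- the starting point and the end point
  have hM' : (0 : ℤ) ≤ M₃ := Int.natCast_nonneg M₃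
  have hstart : ∀ d ∈ K, pt (F (mul M₃ d.lo)) ∈ C d := by
    intro d hd
    obtain ⟨S, hS, _, hSv⟩ := hF1 d hd (pt (mul M₃ d.lo)) (by
      intro j
      have h1 : (pt (mul M₃ d.lo)).hi j = (M₃ : ℤ) * d.lo j := by
        unfold Cube.hi pt
        simp [mul]
      rw [h1]
      refine ⟨le_refl _, mul_le_mul_of_nonneg_left ?_ hM'⟩
      unfold Cube.hi
      split_ifs
      · omega
      · exact le_refl _)
    exact hC.clo d hd S hS _ (Cube.pt_le.2 (hSv _ (Cube.has_lo (pt (mul M₃ d.lo)))))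
  have hend : ∀ d κ, PrtIx n K C Ty d κ → pt κ.lo ∈ C d := fun d κ h =>
    hC.clo d h.1 κ h.2.2.2 _ (Cube.pt_le.2 (Cube.has_lo κ))
  have hpath : ∀ x : Cube V × Cube J, ∃ m : ℕ, PrtIx n K C Ty x.1 x.2 →
      ∃ u : ℕ → (J → ℤ), u 0 = F (mul M₃ x.1.lo) ∧ (∀ t, m ≤ t → u t = x.2.lo) ∧
        ∀ t, ∃ S ∈ C x.1, S.dim ≤ 1 ∧ S.Has (u t) ∧ S.Has (u (t + 1)) := by
    intro x
    by_cases h : PrtIx n K C Ty x.1 x.2
    · obtain ⟨m, u, h1, h2, h3⟩ := WP2_path (hR x.1 h.1 h.2.1) _ _ (hstart x.1 h.1) (hend x.1 x.2 h)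
      exact ⟨m, fun _ => ⟨u, h1, h2, h3⟩⟩
    · exact ⟨0, fun h' => absurd h' h⟩
  choose m hm using hpath
  obtain ⟨T, hTb⟩ := ((hK.fin.prod hT.fin).image m).bddAbove
  have hT1 : ∀ d κ, PrtIx n K C Ty d κ → m (d, κ) ≤ T := fun d κ h =>
    hTb ⟨(d, κ), ⟨h.1, h.2.2.1⟩, rfl⟩
  have hfam : ∀ d ∈ K, ∃ u : Cube J → ℕ → (J → ℤ), ∀ κ, PrtIx n K C Ty d κ → u κ 0 = F (mul M₃ d.lo) ∧
      (∀ t, T ≤ t → u κ t = u κ T) ∧ κ.Has (u κ T) ∧
        ∀ t, ∃ S ∈ C d, S.dim ≤ 1 ∧ S.Has (u κ t) ∧ S.Has (u κ (t + 1)) := by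
    intro d hd
    have h1 : ∀ κ, ∃ u : ℕ → (J → ℤ), PrtIx n K C Ty d κ → u 0 = F (mul M₃ d.lo) ∧
        (∀ t, T ≤ t → u t = u T) ∧ κ.Has (u T) ∧
          ∀ t, ∃ S ∈ C d, S.dim ≤ 1 ∧ S.Has (u t) ∧ S.Has (u (t + 1)) := by
      intro κ
      by_cases h : PrtIx n K C Ty d κ
      · obtain ⟨u, hu1, hu2, hu3⟩ := hm (d, κ) h
        refine ⟨u, fun _ => ⟨hu1, fun t ht => ?_, ?_, hu3⟩⟩
        · rw [hu2 t ((hT1 d κ h).trans ht), hu2 T (hT1 d κ h)]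
        · rw [hu2 T (hT1 d κ h)]
          exact Cube.has_lo κ
      · exact ⟨fun _ => 0, fun h' => absurd h' h⟩
    choose u hu using h1
    exact ⟨u, hu⟩
  have hper : ∀ u : Cube J → ℕ → (J → ℤ), (WP2_T τJ)^[N] u = u := by
    intro u
    funext κ t
    rw [WP2_iter, hJ, inv_one, Cube.act_one']
    rfl
  obtain ⟨γ, hγ1, hγ2⟩ := eqc hK.pos K τV hK.ord hK.inv hK.fre (WP2_T τJ) hper
    (fun d u => ∀ κ, PrtIx n K C Ty d κ → u κ 0 = F (mul M₃ d.lo) ∧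
      (∀ t, T ≤ t → u κ t = u κ T) ∧ κ.Has (u κ T) ∧
        ∀ t, ∃ S ∈ C d, S.dim ≤ 1 ∧ S.Has (u κ t) ∧ S.Has (u κ (t + 1))) hfam (by
    intro c hc u hu κ hκ
    obtain ⟨_, h2, h3, h4⟩ := hκ
    have h5 : PrtIx n K C Ty c (κ.act τJ⁻¹) := by
      refine ⟨hc, ?_, ?_, ?_⟩
      · rw [Cube.act_dim] at h2
        exact h2
      · rw [hT.inv (κ.act τJ⁻¹), WP2_inv]
        exact h3
      · rw [hC.equ c hc (κ.act τJ⁻¹), WP2_inv]
        exact h4
    obtain ⟨h6, h7, h8, h9⟩ := hu _ h5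
    refine ⟨?_, fun t ht => ?_, ?_, fun t => ?_⟩
    · show actP τJ (u (κ.act τJ⁻¹) 0) = _
      rw [h6, ← hF]
      rfl
    · show actP τJ (u (κ.act τJ⁻¹) t) = actP τJ (u (κ.act τJ⁻¹) T)
      rw [h7 t ht]
    · have h10 := (Cube.act_has τJ _ _).2 h8
      rw [WP2_inv] at h10
      exact h10
    · obtain ⟨S, hS, hd, ha, hb⟩ := h9 t
      refine ⟨S.act τJ, (hC.equ c hc S).1 hS, ?_, (Cube.act_has τJ S _).2 ha, (Cube.act_has τJ S _).2 hb⟩
      rw [Cube.act_dim]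
      exact hd)
  refine ⟨T, γ, ⟨fun d κ h => (hγ1 d h.1 κ h).1, fun d κ h => (hγ1 d h.1 κ h).2.1,
    fun d κ h => (hγ1 d h.1 κ h).2.2.1, fun d κ h => (hγ1 d h.1 κ h).2.2.2, fun d κ h t => ?_⟩⟩
  rw [hγ2 d h.1]
  show actP τJ (γ d ((κ.act τJ).act τJ⁻¹) t) = _
  rw [WP2_inv']

end AGE
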