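import Pool.Agent.AGE.WDefs2
import Pool.Agent.AGE.WPD
import Pool.Agent.AGE.C1b
import Pool.Agent.AGE.C2a
import Pool.Agent.AGE.C6c
import Pool.Agent.AGE.W2
import Pool.Agent.AGE.W3

/-!
# AGE-WP3: geometry of the ports

Plan. `L = M₃ * (2 h)`. `wpP .. j = L * d.lo j + o` for `j ∈ d.fr`, `L * d.lo j` otherwise (`shf`, `mul`). Let `o = o d κ ∈ [S, h - S]`, `r < S` (so `r < h`).
`near_le`: for `j ∈ d.fr`: `L d.lo j < L d.lo j + S - r ≤ v j ≤ L d.lo j + h < L (d.lo j + 1)` and `L c.lo j ≤ v j ≤ L c.hi j` give `c.lo j ≤ d.lo j` and `d.lo j + 1 ≤ c.hi j` (if `c.lo j ≥ d.lo j + 1` then `v j ≥ L (d.lo j + 1)`; products of integers: `mul_le_mul_of_nonneg_left`). For `j ∉ d.fr`: `|v j - L d.lo j| ≤ r < L`, so `c.lo j ≤ d.lo j ≤ c.hi j`.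
`near_flo`: `(v j + h) / (2 h) = M₃ d.lo j` because `L d.lo j = (2h) (M₃ d.lo j)` and `0 ≤ v j - L d.lo j + h < 2 h` (`flo_eq` in W3 or `Int.ediv_emod_unique`/`Int.ediv_eq_iff..`).
`near_sep`: `wpP d j` and `wpP d' j` are `L lo + a`, `L lo' + a'` with `a, a' ∈ [0, h - S]`: if `lo j ≠ lo' j` the difference is `≥ L - (h - S) ≥ h + S > r`. So `d.lo = d'.lo`; if `j` is in exactly one of `d.fr`, `d'.fr` the difference is `≥ S`; so `d = d'` (`Cube.ext`). Then `κ = κ'` by `Ofs.sep` (`d.fr` is nonempty, `n ≥ 2`).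
`wpP_act`: `(d.act τV).fr = d.fr.map τV`, `(d.act τV).lo = actP τV d.lo`, `Ofs.equ`. `wpP_ini`: `0 < S ≤ o ≤ h - S < L`.
`prtIx_act`: `Src.inv`, `Cube.act_dim`, `TyOk.inv`, `Car.equ`. `cls_act`: `|x (τ.symm j) - y (τ.symm j)|`.
-/

set_option autoImplicit false

noncomputable section

namespace AGE

variable {V J : Type} [LinearOrder V] [LinearOrder J]


variable {n N : ℕ} {K : Set (Cube V)} {C : Cube V → Set (Cube J)} {τV : Equiv.Perm V}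
  {τJ : Equiv.Perm J} {Ty : Set (Cube J)} {M₃ h : ℕ} {F : (V → ℤ) → (J → ℤ)} {S : ℤ}
  {o : Cube V → Cube J → ℤ} {T : ℕ} {γ : Cube V → Cube J → ℕ → (J → ℤ)}

private theorem WP3_S (hp : PPar n N K C τV τJ Ty M₃ h F S o T γ) {d : Cube V} {κ : Cube J}
    (hd : PrtIx n K C Ty d κ) : 20 ≤ S ∧ 2 * S ≤ (h : ℤ) ∧ S ≤ o d κ ∧ o d κ ≤ (h : ℤ) - S := by
  have h1 := hp.ofs.bnd d κ hd
  have h2 := hp.hS
  have h3 : (0 : ℤ) ≤ (T : ℤ) := Int.natCast_nonneg T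
  have h4 : (0 : ℤ) ≤ (n : ℤ) := Int.natCast_nonneg n
  refine ⟨by linarith, by linarith, h1.1, h1.2⟩

private theorem WP3_L (M₃ h : ℕ) (hM : 0 < M₃) : ((M₃ * (2 * h) : ℕ) : ℤ) = 2 * (h : ℤ) * M₃ ∧
    2 * (h : ℤ) ≤ ((M₃ * (2 * h) : ℕ) : ℤ) := by
  have h1 : ((M₃ * (2 * h) : ℕ) : ℤ) = 2 * (h : ℤ) * M₃ := by
    push_cast
    ring
  refine ⟨h1, ?_⟩
  rw [h1]
  have h2 : (1 : ℤ) ≤ (M₃ : ℤ) := by exact_mod_cast hM
  have h3 : (0 : ℤ) ≤ (h : ℤ) := Int.natCast_nonneg h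
  nlinarith

private theorem WP3_wp (L : ℕ) (o : Cube V → Cube J → ℤ) (d : Cube V) (κ : Cube J) (j : V) :
    wpP L o d κ j = (L : ℤ) * d.lo j + if j ∈ d.fr then o d κ else 0 := rfl

private theorem WP3_bd {L : ℕ} {o : Cube V → Cube J → ℤ} {d : Cube V} {κ : Cube J} {r : ℕ}
    {v : V → ℤ} (hv : Cls r v (wpP L o d κ)) (j : V) :
    (j ∈ d.fr → o d κ - r ≤ v j - (L : ℤ) * d.lo j ∧ v j - (L : ℤ) * d.lo j ≤ o d κ + r) ∧
      (j ∉ d.fr → -(r : ℤ) ≤ v j - (L : ℤ) * d.lo j ∧ v j - (L : ℤ) * d.lo j ≤ r) := by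
  have h1 := abs_le.1 (hv j)
  rw [WP3_wp] at h1
  constructor
  · intro hj
    rw [if_pos hj] at h1
    exact ⟨by linarith [h1.1], by linarith [h1.2]⟩
  · intro hj
    rw [if_neg hj] at h1
    exact ⟨by linarith [h1.1], by linarith [h1.2]⟩

theorem near_le (hp : PPar n N K C τV τJ Ty M₃ h F S o T γ) {d : Cube V} {κ : Cube J}
    (hd : PrtIx n K C Ty d κ) {r : ℕ} (hr : (r : ℤ) < S) {v : V → ℤ}
    (hv : Cls r v (wpP (M₃ * (2 * h)) o d κ)) {c : Cube V} (hc : InB (M₃ * (2 * h)) c v) :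
    d.Le c := by
  obtain ⟨h20, hS2, ho1, ho2⟩ := WP3_S hp hd
  obtain ⟨hLe, hL2⟩ := WP3_L M₃ h hp.m3
  have hL0 : (0 : ℤ) < ((M₃ * (2 * h) : ℕ) : ℤ) := by linarith
  intro j
  obtain ⟨hb1, hb2⟩ := WP3_bd hv j
  obtain ⟨hc1, hc2⟩ := hc j
  by_cases hj : j ∈ d.fr
  · obtain ⟨h1, h2⟩ := hb1 hj
    have e1 : d.hi j = d.lo j + 1 := if_pos hj
    have e2 : ((M₃ * (2 * h) : ℕ) : ℤ) * c.lo j < ((M₃ * (2 * h) : ℕ) : ℤ) * (d.lo j + 1) := by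
      rw [mul_add, mul_one]
      linarith
    have e3 : ((M₃ * (2 * h) : ℕ) : ℤ) * d.lo j < ((M₃ * (2 * h) : ℕ) : ℤ) * c.hi j := by
      linarith
    have e4 := lt_of_mul_lt_mul_left e2 hL0.le
    have e5 := lt_of_mul_lt_mul_left e3 hL0.le
    rw [e1]
    constructor
    · omega
    · omega
  · obtain ⟨h1, h2⟩ := hb2 hj
    have e1 : d.hi j = d.lo j := if_neg hj
    have e2 : ((M₃ * (2 * h) : ℕ) : ℤ) * c.lo j < ((M₃ * (2 * h) : ℕ) : ℤ) * (d.lo j + 1) := by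
      rw [mul_add, mul_one]
      linarith
    have e3 : ((M₃ * (2 * h) : ℕ) : ℤ) * (d.lo j - 1) < ((M₃ * (2 * h) : ℕ) : ℤ) * c.hi j := by
      rw [mul_sub, mul_one]
      linarith
    have e4 := lt_of_mul_lt_mul_left e2 hL0.le
    have e5 := lt_of_mul_lt_mul_left e3 hL0.le
    rw [e1]
    constructor
    · omega
    · omega

theorem near_flo (hp : PPar n N K C τV τJ Ty M₃ h F S o T γ) {d : Cube V} {κ : Cube J}
    (hd : PrtIx n K C Ty d κ) {r : ℕ} (hr : (r : ℤ) < S) {v : V → ℤ}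
    (hv : Cls r v (wpP (M₃ * (2 * h)) o d κ)) : flo (2 * h) h v = mul M₃ d.lo := by
  obtain ⟨h20, hS2, ho1, ho2⟩ := WP3_S hp hd
  obtain ⟨hLe, hL2⟩ := WP3_L M₃ h hp.m3
  have hh : (0 : ℤ) < 2 * (h : ℤ) := by linarith
  funext j
  obtain ⟨hb1, hb2⟩ := WP3_bd hv j
  show (v j + (h : ℤ)) / ((2 * h : ℕ) : ℤ) = (M₃ : ℤ) * d.lo j
  have hc : ((2 * h : ℕ) : ℤ) = 2 * (h : ℤ) := by
    push_cast
    ring
  rw [hc, Int.ediv_eq_iff_of_pos hh]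
  have e0 : ((M₃ * (2 * h) : ℕ) : ℤ) * d.lo j = (M₃ : ℤ) * d.lo j * (2 * (h : ℤ)) := by
    rw [hLe]
    ring
  rw [e0] at hb1 hb2
  by_cases hj : j ∈ d.fr
  · obtain ⟨h1, h2⟩ := hb1 hj
    constructor
    · linarith
    · linarith
  · obtain ⟨h1, h2⟩ := hb2 hj
    constructor
    · linarith
    · linarith

theorem near_sep (hp : PPar n N K C τV τJ Ty M₃ h F S o T γ) {d d' : Cube V} {κ κ' : Cube J}
    (hd : PrtIx n K C Ty d κ) (hd' : PrtIx n K C Ty d' κ') {r : ℕ} (hr : (r : ℤ) < S)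
    (hv : Cls r (wpP (M₃ * (2 * h)) o d κ) (wpP (M₃ * (2 * h)) o d' κ')) : d = d' ∧ κ = κ' := by
  obtain ⟨h20, hS2, ho1, ho2⟩ := WP3_S hp hd
  obtain ⟨_, _, ho3, ho4⟩ := WP3_S hp hd'
  obtain ⟨hLe, hL2⟩ := WP3_L M₃ h hp.m3
  have hL0 : (0 : ℤ) < ((M₃ * (2 * h) : ℕ) : ℤ) := by linarith
  have hlo : ∀ j, d.lo j = d'.lo j := by
    intro j
    have h1 := abs_le.1 (hv j)
    rw [WP3_wp, WP3_wp] at h1
    have h2 : 0 ≤ (if j ∈ d.fr then o d κ else 0) ∧ (if j ∈ d.fr then o d κ else 0) ≤ (h : ℤ) - S := by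
      split_ifs
      · exact ⟨by linarith, ho2⟩
      · exact ⟨le_rfl, by linarith⟩
    have h3 : 0 ≤ (if j ∈ d'.fr then o d' κ' else 0) ∧
        (if j ∈ d'.fr then o d' κ' else 0) ≤ (h : ℤ) - S := by
      split_ifs
      · exact ⟨by linarith, ho4⟩
      · exact ⟨le_rfl, by linarith⟩
    have e2 : ((M₃ * (2 * h) : ℕ) : ℤ) * d.lo j < ((M₃ * (2 * h) : ℕ) : ℤ) * (d'.lo j + 1) := by
      rw [mul_add, mul_one]
      linarith [h1.1, h1.2, h2.1, h2.2, h3.1, h3.2]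
    have e3 : ((M₃ * (2 * h) : ℕ) : ℤ) * d'.lo j < ((M₃ * (2 * h) : ℕ) : ℤ) * (d.lo j + 1) := by
      rw [mul_add, mul_one]
      linarith [h1.1, h1.2, h2.1, h2.2, h3.1, h3.2]
    have e4 := lt_of_mul_lt_mul_left e2 hL0.le
    have e5 := lt_of_mul_lt_mul_left e3 hL0.le
    omega
  have hfr : ∀ j, j ∈ d.fr ↔ j ∈ d'.fr := by
    intro j
    have h1 := abs_le.1 (hv j)
    rw [WP3_wp, WP3_wp, hlo j] at h1
    by_cases hj : j ∈ d.fr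
    · by_cases hj' : j ∈ d'.fr
      · exact ⟨fun _ => hj', fun _ => hj⟩
      · rw [if_pos hj, if_neg hj'] at h1
        exfalso
        linarith [h1.1, h1.2]
    · by_cases hj' : j ∈ d'.fr
      · rw [if_neg hj, if_pos hj'] at h1
        exfalso
        linarith [h1.1, h1.2]
      · exact ⟨fun h' => absurd h' hj, fun h' => absurd h' hj'⟩
  have hdd : d = d' := Cube.ext (funext hlo) (Finset.ext hfr)
  subst hdd
  refine ⟨rfl, ?_⟩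
  by_contra hne
  have hsep := hp.ofs.sep d κ κ' hd hd' hne
  have hpos : 0 < d.fr.card := by
    have h1 : n ≤ d.fr.card := hd.2.1
    have h2 := hp.n2
    omega
  obtain ⟨j, hj⟩ := Finset.card_pos.1 hpos
  have h1 := hv j
  rw [WP3_wp, WP3_wp, if_pos hj, if_pos hj] at h1
  have h2 : ((M₃ * (2 * h) : ℕ) : ℤ) * d.lo j + o d κ -
      (((M₃ * (2 * h) : ℕ) : ℤ) * d.lo j + o d κ') = o d κ - o d κ' := by ring
  rw [h2] at h1
  linarith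

theorem wpP_act (hp : PPar n N K C τV τJ Ty M₃ h F S o T γ) {d : Cube V} {κ : Cube J}
    (hd : PrtIx n K C Ty d κ) : wpP (M₃ * (2 * h)) o (d.act τV) (κ.act τJ) =
      actP τV (wpP (M₃ * (2 * h)) o d κ) := by
  funext j
  show wpP (M₃ * (2 * h)) o (d.act τV) (κ.act τJ) j = wpP (M₃ * (2 * h)) o d κ (τV.symm j)
  rw [WP3_wp, WP3_wp, hp.ofs.equ d κ hd]
  have h1 : (d.act τV).lo j = d.lo (τV.symm j) := rfl
  have h2 : j ∈ (d.act τV).fr ↔ τV.symm j ∈ d.fr := by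
    show j ∈ d.fr.map τV.toEmbedding ↔ _
    rw [Finset.mem_map_equiv]
  rw [h1]
  by_cases hj : τV.symm j ∈ d.fr
  · rw [if_pos (h2.2 hj), if_pos hj]
  · rw [if_neg (fun h' => hj (h2.1 h')), if_neg hj]

theorem wpP_ini (hp : PPar n N K C τV τJ Ty M₃ h F S o T γ) {d : Cube V} {κ : Cube J}
    (hd : PrtIx n K C Ty d κ) : InI (M₃ * (2 * h)) d (wpP (M₃ * (2 * h)) o d κ) := by
  obtain ⟨h20, hS2, ho1, ho2⟩ := WP3_S hp hd
  obtain ⟨hLe, hL2⟩ := WP3_L M₃ h hp.m3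
  constructor
  · intro j hj
    have e1 : d.hi j = d.lo j + 1 := if_pos hj
    rw [WP3_wp, if_pos hj, e1, mul_add, mul_one]
    constructor
    · linarith
    · linarith
  · intro j hj
    rw [WP3_wp, if_neg hj, add_zero]

theorem prtIx_act (hp : PPar n N K C τV τJ Ty M₃ h F S o T γ) {d : Cube V} {κ : Cube J} :
    PrtIx n K C Ty (d.act τV) (κ.act τJ) ↔ PrtIx n K C Ty d κ := by
  constructor
  · rintro ⟨h1, h2, h3, h4⟩
    have h5 : d ∈ K := (hp.src.inv d).2 h1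
    refine ⟨h5, ?_, (hp.ty.inv κ).2 h3, (hp.car.equ d h5 κ).2 h4⟩
    rw [Cube.act_dim] at h2
    exact h2
  · rintro ⟨h1, h2, h3, h4⟩
    refine ⟨(hp.src.inv d).1 h1, ?_, (hp.ty.inv κ).1 h3, (hp.car.equ d h1 κ).1 h4⟩
    rw [Cube.act_dim]
    exact h2

theorem cls_act (τ : Equiv.Perm V) (r : ℕ) (x y : V → ℤ) :
    Cls r (actP τ x) (actP τ y) ↔ Cls r x y := by
  constructor
  · intro h1 j
    have h2 := h1 (τ j)
    unfold actP at h2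
    rw [Equiv.symm_apply_apply] at h2
    exact h2
  · intro h1 j
    exact h1 (τ.symm j)

theorem ess_far (hp : PPar n N K C τV τJ Ty M₃ h F S o T γ) {d : Cube V} {κ : Cube J}
    (hd : PrtIx n K C Ty d κ) {j : V} {v : V → ℤ} (hv : (2 * (h : ℤ)) ∣ v j + 1 + h)
    {r : ℕ} (hr : (r : ℤ) + 1 < S) : ¬ Cls r v (wpP (M₃ * (2 * h)) o d κ) := by
  intro hcl
  obtain ⟨h20, hS2, ho1, ho2⟩ := WP3_S hp hd
  obtain ⟨hLe, hL2⟩ := WP3_L M₃ h hp.m3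
  obtain ⟨hb1, hb2⟩ := WP3_bd hcl j
  have e0 : ((M₃ * (2 * h) : ℕ) : ℤ) * d.lo j = 2 * (h : ℤ) * ((M₃ : ℤ) * d.lo j) := by
    rw [hLe]
    ring
  rw [e0] at hb1 hb2
  have hdv : (2 * (h : ℤ)) ∣ v j - 2 * (h : ℤ) * ((M₃ : ℤ) * d.lo j) + 1 + h := by
    have h1 := dvd_sub hv (dvd_mul_right (2 * (h : ℤ)) ((M₃ : ℤ) * d.lo j))
    have h2 : v j + 1 + (h : ℤ) - 2 * (h : ℤ) * ((M₃ : ℤ) * d.lo j) =
        v j - 2 * (h : ℤ) * ((M₃ : ℤ) * d.lo j) + 1 + h := by ring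
    rw [h2] at h1
    exact h1
  have hr0 : (0 : ℤ) ≤ (r : ℤ) := Int.natCast_nonneg r
  have hlt : 0 < v j - 2 * (h : ℤ) * ((M₃ : ℤ) * d.lo j) + 1 + h ∧
      v j - 2 * (h : ℤ) * ((M₃ : ℤ) * d.lo j) + 1 + h < 2 * (h : ℤ) := by
    by_cases hj : j ∈ d.fr
    · obtain ⟨h1, h2⟩ := hb1 hj
      exact ⟨by linarith, by linarith⟩
    · obtain ⟨h1, h2⟩ := hb2 hj
      exact ⟨by linarith, by linarith⟩
  have h3 := Int.le_of_dvd hlt.1 hdv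
  linarith [hlt.2]

end AGE
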