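import Pool.Agent.AGE.WDefs2
import Pool.Agent.AGE.WPD
import Pool.Agent.AGE.C1b
import Pool.Agent.AGE.C2a
import Pool.Agent.AGE.C6c
import Pool.Agent.AGE.W2
import Pool.Agent.AGE.W3
import Pool.Agent.AGE.WP3

/-!
# AGE-WP4: the coarse map with ports, local structure

`gPt_near`: the port in the definition of `gPt` is unique (`near_sep`). `gPt_cub`: the values on the vertices of a small cube near a port are two
consecutive points of the path of this port, by the distance from the port; otherwise `gPt` is `F` of the floor. `gPt_equi`: equivariance.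
-/

set_option autoImplicit false

noncomputable section

namespace AGE

variable {V J : Type} [LinearOrder V] [LinearOrder J]


variable {n N : ℕ} {K : Set (Cube V)} {C : Cube V → Set (Cube J)} {τV : Equiv.Perm V}
  {τJ : Equiv.Perm J} {Ty : Set (Cube J)} {M₃ h : ℕ} {F : (V → ℤ) → (J → ℤ)} {S : ℤ}
  {o : Cube V → Cube J → ℤ} {T : ℕ} {γ : Cube V → Cube J → ℕ → (J → ℤ)}

private theorem wp4_uniq (hp : PPar n N K C τV τJ Ty M₃ h F S o T γ) {d : Cube V} {κ : Cube J}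
    (hd : PrtIx n K C Ty d κ) {v : V → ℤ} (hv : Cls (1 + (T + 2)) v (wpP (M₃ * (2 * h)) o d κ))
    {x : Cube V × Cube J} (hx : Near n K C Ty (M₃ * (2 * h)) o T v x) : x = (d, κ) := by
  obtain ⟨d', κ'⟩ := x
  have hS := hp.hS
  have h1 := near_sep hp hd hx.1 (r := 1 + (T + 2) + (T + 2)) (by push_cast; omega)
    (cls_trans (cls_symm hv) hx.2)
  rw [h1.1, h1.2]

theorem gPt_near (hp : PPar n N K C τV τJ Ty M₃ h F S o T γ) {d : Cube V} {κ : Cube J}
    {v : V → ℤ} (hv : Near n K C Ty (M₃ * (2 * h)) o T v (d, κ)) :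
    gPt n K C Ty M₃ h F o T γ v =
      γ d κ (T + 2 - dst {wpP (M₃ * (2 * h)) o d κ} v) := by
  have hx : ∃ x : Cube V × Cube J, Near n K C Ty (M₃ * (2 * h)) o T v x := ⟨_, hv⟩
  have h1 : hx.choose = (d, κ) :=
    wp4_uniq hp hv.1 (cls_mono (by omega) hv.2) hx.choose_spec
  unfold gPt
  rw [dif_pos hx, h1]

private theorem wp4_far {v : V → ℤ} (hv : ∀ x, ¬ Near n K C Ty (M₃ * (2 * h)) o T v x) :
    gPt n K C Ty M₃ h F o T γ v = F (flo (2 * h) h v) := by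
  unfold gPt
  rw [dif_neg fun ⟨x, hx⟩ => hv x hx]

theorem gPt_cub (hp : PPar n N K C τV τJ Ty M₃ h F S o T γ) {c : Cube V} (hc : c ∈ K)
    {Q : Cube V} (hQ : Q.InM (M₃ * (2 * h)) c) :
    (∃ (d : Cube V) (κ : Cube J) (t : ℕ), PrtIx n K C Ty d κ ∧ d.Le c ∧
      (∀ v, Q.Has v → gPt n K C Ty M₃ h F o T γ v = γ d κ t ∨
        gPt n K C Ty M₃ h F o T γ v = γ d κ (t + 1)) ∧
      ∀ v, Q.Has v → flo (2 * h) h v = mul M₃ d.lo) ∨
    ((∀ v, Q.Has v → ∀ x, ¬ Near n K C Ty (M₃ * (2 * h)) o T v x) ∧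
      ∀ v, Q.Has v → gPt n K C Ty M₃ h F o T γ v = F (flo (2 * h) h v)) := by
  classical
  by_cases hnear : ∃ v, Q.Has v ∧ ∃ x, Near n K C Ty (M₃ * (2 * h)) o T v x
  · left
    obtain ⟨v₀, hv₀, ⟨d, κ⟩, hx⟩ := hnear
    have hS := hp.hS
    have hd : PrtIx n K C Ty d κ := hx.1
    have hcl : ∀ v, Q.Has v → Cls (1 + (T + 2)) v (wpP (M₃ * (2 * h)) o d κ) :=
      fun v hv => cls_trans (has_cls hv hv₀) hx.2
    have hflo : ∀ v, Q.Has v → flo (2 * h) h v = mul M₃ d.lo := fun v hv =>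
      near_flo hp hd (r := 1 + (T + 2)) (by push_cast; omega) (hcl v hv)
    have hval : ∀ v, Q.Has v → gPt n K C Ty M₃ h F o T γ v =
        γ d κ (T + 2 - dst {wpP (M₃ * (2 * h)) o d κ} v) := by
      intro v hv
      obtain ⟨y, hy, hyc⟩ := dst_spec (P := {wpP (M₃ * (2 * h)) o d κ}) (v := v)
        ⟨_, _, rfl, hcl v hv⟩
      rw [Set.mem_singleton_iff] at hy
      subst hy
      by_cases hD : dst {wpP (M₃ * (2 * h)) o d κ} v ≤ T + 2
      · exact gPt_near hp ⟨hd, cls_mono hD hyc⟩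
      · have h0 : T + 2 - dst {wpP (M₃ * (2 * h)) o d κ} v = 0 := by omega
        rw [h0, hp.pth.st d κ hd, ← hflo v hv]
        refine wp4_far fun x hxn => hD ?_
        have h1 := wp4_uniq hp hd (hcl v hv) hxn
        subst h1
        exact dst_le ⟨_, rfl, hxn.2⟩
    have hex : ∃ t, ∃ v, Q.Has v ∧ T + 2 - dst {wpP (M₃ * (2 * h)) o d κ} v = t :=
      ⟨_, v₀, hv₀, rfl⟩
    obtain ⟨v₁, hv₁, he₁⟩ := Nat.find_spec hex
    refine ⟨d, κ, Nat.find hex, hd, near_le hp hd (r := T + 2) (by push_cast; omega) hx.2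
      (inb_of_has hQ hv₀), fun v hv => ?_, hflo⟩
    have hmin : Nat.find hex ≤ T + 2 - dst {wpP (M₃ * (2 * h)) o d κ} v :=
      Nat.find_min' hex ⟨v, hv, rfl⟩
    have hlip := dst_lip (P := {wpP (M₃ * (2 * h)) o d κ}) (v := v) (v' := v₁)
      ⟨_, _, rfl, hcl v hv⟩ (has_cls hv hv₁)
    rw [hval v hv]
    generalize Nat.find hex = t at he₁ hmin ⊢
    rcases (show T + 2 - dst {wpP (M₃ * (2 * h)) o d κ} v = t ∨
      T + 2 - dst {wpP (M₃ * (2 * h)) o d κ} v = t + 1 by omega) with h2 | h2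
    · left
      rw [h2]
    · right
      rw [h2]
  · right
    have h1 : ∀ v, Q.Has v → ∀ x, ¬ Near n K C Ty (M₃ * (2 * h)) o T v x :=
      fun v hv x hx => hnear ⟨v, hv, x, hx⟩
    exact ⟨h1, fun v hv => wp4_far (h1 v hv)⟩

private theorem wp4_dst (τ : Equiv.Perm V) (p v : V → ℤ) :
    dst {actP τ p} (actP τ v) = dst {p} v := by
  unfold dst
  congr 1
  ext r
  constructor
  · rintro ⟨x, hx, hc⟩
    rw [Set.mem_singleton_iff] at hx
    subst hx
    exact ⟨p, rfl, (cls_act τ r v p).1 hc⟩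
  · rintro ⟨x, hx, hc⟩
    rw [Set.mem_singleton_iff] at hx
    subst hx
    exact ⟨actP τ x, rfl, (cls_act τ r v x).2 hc⟩

theorem gPt_equi (hp : PPar n N K C τV τJ Ty M₃ h F S o T γ) :
    Equi τV τJ (gPt n K C Ty M₃ h F o T γ) := by
  intro v
  by_cases hx : ∃ x, Near n K C Ty (M₃ * (2 * h)) o T v x
  · obtain ⟨⟨d, κ⟩, hn⟩ := hx
    have hd : PrtIx n K C Ty d κ := hn.1
    have hn' : Near n K C Ty (M₃ * (2 * h)) o T (actP τV v) (d.act τV, κ.act τJ) := by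
      refine ⟨(prtIx_act hp).2 hd, ?_⟩
      rw [wpP_act hp hd]
      exact (cls_act τV _ _ _).2 hn.2
    rw [gPt_near hp hn, gPt_near hp hn', wpP_act hp hd, wp4_dst, hp.pth.equ d κ hd]
  · have h1 : ∀ x, ¬ Near n K C Ty (M₃ * (2 * h)) o T v x := fun x h => hx ⟨x, h⟩
    have h2 : ∀ x, ¬ Near n K C Ty (M₃ * (2 * h)) o T (actP τV v) x := by
      rintro ⟨d, κ⟩ hn
      have e1 : (d.act τV⁻¹).act τV = d := by
        rw [← Cube.act_mul, mul_inv_cancel, Cube.act_one']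
      have e2 : (κ.act τJ⁻¹).act τJ = κ := by
        rw [← Cube.act_mul, mul_inv_cancel, Cube.act_one']
      rw [← e1, ← e2] at hn
      have hd : PrtIx n K C Ty (d.act τV⁻¹) (κ.act τJ⁻¹) := (prtIx_act hp).1 hn.1
      refine h1 (d.act τV⁻¹, κ.act τJ⁻¹) ⟨hd, ?_⟩
      have h3 : Cls (T + 2) (actP τV v)
        (wpP (M₃ * (2 * h)) o ((d.act τV⁻¹).act τV) ((κ.act τJ⁻¹).act τJ)) := hn.2
      rw [wpP_act hp hd] at h3
      exact (cls_act τV _ _ _).1 h3
    rw [wp4_far h1, wp4_far h2, ← hp.Feq]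
    rfl

end AGE
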