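import Pool.Agent.AGE.WDefs2
import Pool.Agent.AGE.WPD
import Pool.Agent.AGE.C1b
import Pool.Agent.AGE.C2a
import Pool.Agent.AGE.C6a
import Pool.Agent.AGE.C6c
import Pool.Agent.AGE.W2
import Pool.Agent.AGE.W3
import Pool.Agent.AGE.WP3
import Pool.Agent.AGE.WP4

/-!
# AGE-WP5: the coarse map with ports has the required properties

Plan. `L = M₃ * (2 h)`; `h > 0` and `L > 0` if there is a port, but `hL` is needed in general: hypothesis `hh : 0 < h`.
`gPt_cel`: by `gPt_cub`: case (A): the edge cube `S ∈ C d` with `γ t, γ (t+1)`, `S.dim ≤ 1`, `C d ⊆ C c` (`Car.mon`); if `Q.dim ≥ 1` take `S`; if `Q.dim = 0` (`Q.fr = ∅`, one vertex `Q.lo`) take the point cube of the value (`Car.clo`). Case (B): `hp.Fcl` for `flrQ (2h) h Q` (`flr_inM`: it lies in `M₃ c`, because `Q.InM (M₃ * (2 h)) c` means `Q.InM (2 h) P'` ... direct: `(2h) (M₃ c.lo j) ≤ Q.lo j`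
gives `M₃ c.lo j ≤ (Q.lo j + h) / (2 h)`, and the vertex `Q.hi` the upper bound; or use `grd_grd` and `flrQ_mem` with the complex `{c}` and its faces), `flrQ_dim`, `flo_has`.
Fields of `Prt` with `p = wpP L o`: `equ`: `gPt_equi`; `peq`: `wpP_act`; `pin`: `wpP_ini`; `pval`: `v` with `Cls 1 v p` is near: `gPt v = γ d κ (T + 2 - dst)`, `dst {p} v ≤ 1`, so the argument is `≥ T`, `Pth.fin`; the same for `v = p` (`dst = 0`). `phas`: `gPt p = γ d κ T`, `Pth.has`. `psep`: `near_sep` with `r = n + 6 < S`. `ess`: by `gPt_cub` for `u` (`dim u = n + 1`, so `u.fr = c.fr`, `c.dim = n + 1`): case (A): first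
alternative (`S.dim ≤ 1 ≤ n`). Case (B): `gPt = F ∘ flo` on `u`; `flrQ (2h) h u` in `M₃ c`; if its dimension is `< n + 1` then `hp.Fcl` gives the first alternative. Otherwise its dimension is `n + 1` (all `i ∈ u.fr` satisfy `2 h ∣ u.lo i + 1 + h`), and `hp.Fty` gives the first alternative or `σ` (`flo_has`: `σ.Has (gPt v)`), and `ess_far` (with any `j ∈ u.fr`) says that `u.lo` is far from all ports. `esp`: both `u`, `u'` must be in the
last situation (otherwise the first alternative holds): for `j ∈ c.fr`: `2 h ∣ u.lo j + 1 + h` and `2 h ∣ u'.lo j + 1 + h`, `|u.lo j - u'.lo j| ≤ 2 < 2 h` (`h ≥ S ≥ 20` because... if `K` has a cell with a port; in general use the hypothesis `hh : 2 ≤ h`), so equal; for `j ∉ c.fr` both are `L c.lo j`; `u.fr = c.fr = u'.fr`.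
-/

set_option autoImplicit false

noncomputable section

namespace AGE

variable {V J : Type} [LinearOrder V] [LinearOrder J]


variable {n N : ℕ} {K : Set (Cube V)} {C : Cube V → Set (Cube J)} {τV : Equiv.Perm V}
  {τJ : Equiv.Perm J} {Ty : Set (Cube J)} {M₃ h : ℕ} {F : (V → ℤ) → (J → ℤ)} {S : ℤ}
  {o : Cube V → Cube J → ℤ} {T : ℕ} {γ : Cube V → Cube J → ℕ → (J → ℤ)}

private theorem WP5_hi (Q : Cube V) (j : V) :
    (j ∈ Q.fr ∧ Q.hi j = Q.lo j + 1) ∨ (j ∉ Q.fr ∧ Q.hi j = Q.lo j) := by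
  by_cases h : j ∈ Q.fr
  · exact Or.inl ⟨h, if_pos h⟩
  · exact Or.inr ⟨h, if_neg h⟩

private theorem WP5_in {M₃ h : ℕ} (hh : 0 < h) {c Q : Cube V} (hQ : Q.InM (M₃ * (2 * h)) c) :
    (flrQ (2 * h) h Q).InM M₃ c := by
  have key : ∀ w, (flrQ (2 * h) h Q).Has w → InB M₃ c w := by
    intro w hw
    obtain ⟨v, hv, rfl⟩ := (flrQ_has (2 * h) h (by omega) Q w).1 hw
    refine flo_inb hh ?_
    rw [mul_comm]
    exact inb_of_has hQ hv
  exact fun j => ⟨(key _ (Cube.has_lo _) j).1, (key _ (Cube.has_hi _) j).2⟩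

private theorem WP5_ne {u : Cube V} {D : ℕ} {z : ℤ} (h : (flrQ D z u).dim = u.dim) :
    ∀ j ∈ u.fr, (D : ℤ) ∣ u.lo j + 1 + z := by
  intro j hj
  have h1 : u.fr.filter (fun i => (D : ℤ) ∣ u.lo i + 1 + z) = u.fr :=
    Finset.eq_of_subset_of_card_le (Finset.filter_subset _ _) h.ge
  rw [← h1] at hj
  exact (Finset.mem_filter.1 hj).2

theorem gPt_cel (hp : PPar n N K C τV τJ Ty M₃ h F S o T γ) (hh : 2 ≤ h) {c : Cube V}
    (hc : c ∈ K) {Q : Cube V} (hQ : Q.InM (M₃ * (2 * h)) c) :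
    ∃ S ∈ C c, S.dim ≤ Q.dim ∧ ∀ v, Q.Has v → S.Has (gPt n K C Ty M₃ h F o T γ v) := by
  rcases gPt_cub hp hc hQ with ⟨d, κ, t, hd, hdc, hval, -⟩ | ⟨-, hval⟩
  · obtain ⟨R, hR, hR1, hRt, hRt1⟩ := hp.pth.adj d κ hd t
    have hRc : R ∈ C c := hp.car.mon c hc d hdc hR
    have hRv : ∀ v, Q.Has v → R.Has (gPt n K C Ty M₃ h F o T γ v) := by
      intro v hv
      rcases hval v hv with h1 | h1
      · rw [h1]
        exact hRt
      · rw [h1]
        exact hRt1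
    by_cases hQ0 : Q.dim = 0
    · refine ⟨pt (gPt n K C Ty M₃ h F o T γ Q.lo),
        hp.car.clo c hc R hRc _ (Cube.pt_le.2 (hRv _ (Cube.has_lo Q))), ?_, fun v hv => ?_⟩
      · rw [hQ0]
        exact le_rfl
      · have h1 : Q.fr = ∅ := Finset.card_eq_zero.1 hQ0
        have h2 : v = Q.lo := by
          funext j
          have h3 := hv j
          rcases WP5_hi Q j with ⟨h4, -⟩ | ⟨-, h4⟩
          · rw [h1] at h4
            exact absurd h4 (Finset.notMem_empty j)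
          · rw [h4] at h3
            exact le_antisymm h3.2 h3.1
        rw [h2]
        exact Cube.has_lo _
    · exact ⟨R, hRc, by omega, hRv⟩
  · obtain ⟨R, hR, hRd, hRv⟩ := hp.Fcl c hc _ (WP5_in (by omega) hQ)
    refine ⟨R, hR, hRd.trans (flrQ_dim _ _ _), fun v hv => ?_⟩
    rw [hval v hv]
    exact hRv _ (flo_has (2 * h) h (by omega) Q v hv)

private theorem WP5_ess (hp : PPar n N K C τV τJ Ty M₃ h F S o T γ) (hh : 2 ≤ h) {c : Cube V}
    (hc : c ∈ K) {u : Cube V} (hu : u.InM (M₃ * (2 * h)) c) (hdu : u.dim = n + 1) :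
    (∃ S : Cube J, S.dim ≤ n ∧ ∀ v, u.Has v → S.Has (gPt n K C Ty M₃ h F o T γ v)) ∨
    ((∃ σ ∈ Ty, σ ∈ C c ∧ σ.dim = n + 1 ∧
      ∀ v, u.Has v → σ.Has (gPt n K C Ty M₃ h F o T γ v)) ∧
      ∀ j ∈ u.fr, ((2 * h : ℕ) : ℤ) ∣ u.lo j + 1 + h) := by
  have hn := hp.n2
  rcases gPt_cub hp hc hu with ⟨d, κ, t, hd, hdc, hval, -⟩ | ⟨-, hval⟩
  · obtain ⟨R, hR, hR1, hRt, hRt1⟩ := hp.pth.adj d κ hd t
    refine Or.inl ⟨R, by omega, fun v hv => ?_⟩
    rcases hval v hv with h1 | h1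
    · rw [h1]
      exact hRt
    · rw [h1]
      exact hRt1
  · have hin := WP5_in (by omega) hu
    have hle := flrQ_dim (2 * h) h u
    have hfl : ∀ R : Cube J, (∀ v, (flrQ (2 * h) h u).Has v → R.Has (F v)) →
        ∀ v, u.Has v → R.Has (gPt n K C Ty M₃ h F o T γ v) := by
      intro R hR v hv
      rw [hval v hv]
      exact hR _ (flo_has (2 * h) h (by omega) u v hv)
    by_cases hd : (flrQ (2 * h) h u).dim = n + 1
    · rcases hp.Fty c hc _ hin hd with ⟨R, hR1, hR2⟩ | ⟨σ, h1, h2, h3, h4⟩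
      · exact Or.inl ⟨R, hR1, hfl R hR2⟩
      · exact Or.inr ⟨⟨σ, h1, h2, h3, hfl σ h4⟩, WP5_ne (hd.trans hdu.symm)⟩
    · obtain ⟨R, hR, hRd, hRv⟩ := hp.Fcl c hc _ hin
      exact Or.inl ⟨R, by omega, hfl R hRv⟩

private theorem WP5_fr {L : ℕ} {c u : Cube V} (hu : u.InM L c) (hd : c.dim ≤ u.dim) :
    u.fr = c.fr := by
  refine Finset.eq_of_subset_of_card_le (fun j hj => ?_) hd
  by_contra hjc
  have h1 := hu j
  have h2 : c.hi j = c.lo j := if_neg hjc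
  have h3 : u.hi j = u.lo j + 1 := if_pos hj
  rw [h2, h3] at h1
  omega

theorem gPt_prt (hp : PPar n N K C τV τJ Ty M₃ h F S o T γ) (hh : 2 ≤ h) :
    Prt n K C τV τJ Ty (M₃ * (2 * h)) (gPt n K C Ty M₃ h F o T γ) (wpP (M₃ * (2 * h)) o) := by
  have hS := hp.hS
  have hc0 : ∀ r : ℕ, ∀ x : V → ℤ, Cls r x x := fun r x j => by
    rw [sub_self, abs_zero]
    exact Int.natCast_nonneg r
  have key : ∀ d κ, PrtIx n K C Ty d κ → ∀ v, Cls 1 v (wpP (M₃ * (2 * h)) o d κ) →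
      gPt n K C Ty M₃ h F o T γ v = γ d κ T := by
    intro d κ hd v hv
    rw [gPt_near hp (d := d) (κ := κ) ⟨hd, cls_mono (by omega) hv⟩]
    have h1 : dst {wpP (M₃ * (2 * h)) o d κ} v ≤ 1 := dst_le ⟨_, rfl, hv⟩
    exact hp.pth.fin d κ hd _ (by omega)
  refine ⟨Nat.mul_pos hp.m3 (by omega), gPt_equi hp, fun c hc Q hQ => gPt_cel hp hh hc hQ,
    fun d hd hn κ hκ hκd => wpP_act hp ⟨hd, hn, hκ, hκd⟩,
    fun d hd hn κ hκ hκd => wpP_ini hp ⟨hd, hn, hκ, hκd⟩,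
    fun d hd hn κ hκ hκd c hc v hv hcl => ?_, fun d hd hn κ hκ hκd => ?_,
    fun d hd hn κ hκ hκd d' hd' hn' κ' hκ' hκd' hcl =>
      near_sep hp ⟨hd, hn, hκ, hκd⟩ ⟨hd', hn', hκ', hκd'⟩ (by push_cast; omega) hcl,
    fun c hc u hu hdu => ?_, fun c hc u u' hu hu' hdu hdu' hno hno' hcl => ?_⟩
  · rw [key d κ ⟨hd, hn, hκ, hκd⟩ v hcl, key d κ ⟨hd, hn, hκ, hκd⟩ _ (hc0 1 _)]
  · rw [key d κ ⟨hd, hn, hκ, hκd⟩ _ (hc0 1 _)]
    exact hp.pth.has d κ ⟨hd, hn, hκ, hκd⟩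
  · rcases WP5_ess hp hh hc hu hdu with h1 | ⟨h1, h2⟩
    · exact Or.inl h1
    · refine Or.inr ⟨h1, fun d hd hn κ hκ hκd => ?_⟩
      obtain ⟨j, hj⟩ : u.fr.Nonempty := Finset.card_pos.1 (by
        have h3 : u.fr.card = n + 1 := hdu
        omega)
      have h3 := h2 j hj
      push_cast at h3
      exact ess_far hp ⟨hd, hn, hκ, hκd⟩ h3 (by push_cast; omega)
  · rcases WP5_ess hp hh hc hu hdu with h1 | ⟨-, h1⟩
    · exact absurd h1 hno
    rcases WP5_ess hp hh hc hu' hdu' with h2 | ⟨-, h2⟩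
    · exact absurd h2 hno'
    have hcd := hp.src.dim c hc
    have hfr := WP5_fr hu (by omega)
    have hfr' := WP5_fr hu' (by omega)
    refine Cube.ext ?_ (hfr.trans hfr'.symm)
    funext j
    by_cases hj : j ∈ c.fr
    · have h3 := h1 j (hfr ▸ hj)
      have h4 := h2 j (hfr' ▸ hj)
      have h5 := hcl j
      rw [abs_le] at h5
      push_cast at h3 h4 h5
      obtain ⟨a, ha⟩ := h3
      obtain ⟨b, hb⟩ := h4
      have h6 : u.lo j - u'.lo j = 2 * (h : ℤ) * (a - b) := by linarith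
      have hh' : (2 : ℤ) ≤ h := by exact_mod_cast hh
      have h7 : a - b = 0 := by
        by_contra h8
        rcases lt_or_gt_of_ne h8 with h9 | h9
        · nlinarith
        · nlinarith
      rw [h7, mul_zero] at h6
      linarith
    · have h3 := hu j
      have h4 := hu' j
      have h5 : c.hi j = c.lo j := if_neg hj
      have h6 : u.hi j = u.lo j := if_neg (hfr ▸ hj)
      have h7 : u'.hi j = u'.lo j := if_neg (hfr' ▸ hj)
      rw [h5, h6] at h3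
      rw [h5, h7] at h4
      linarith

end AGE
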