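import Pool.Agent.AGE.WDefs2
import Pool.Agent.AGE.WPD
import Pool.Agent.AGE.C1b
import Pool.Agent.AGE.C2a
import Pool.Agent.AGE.C5
import Pool.Agent.AGE.C6a
import Pool.Agent.AGE.C6b
import Pool.Agent.AGE.C6c
import Pool.Agent.AGE.PSH
import Pool.Agent.AGE.W2
import Pool.Agent.AGE.W3
import Pool.Agent.AGE.WP3
import Pool.Agent.AGE.WP4
import Pool.Agent.AGE.WP5

/-!
# AGE-WP6: the push of the coarse map with ports

Plan. `χ = Fp ∘ fl (2h) h` is a push of `F ∘ flo (2h) h` on `Grd (2h) (Grd M₃ K) = Grd (M₃ * (2h)) K` (`push_flr`, `closed_grd`, `grd_grd`), which is cellular (`hp.Fcl`, `flrQ_mem`, `flrQ_dim`, `flo_has`). For an `(n+1)`-cube `Q` of `Grd (M₃ (2h)) K` in `c`: `gPt_cub`: case (B): both maps agree on `Q`; case (A): `gPt (Q)` is in a cube of dimension `≤ 1 ≤ n` and `F (flo ..)` is the constant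
`F (mul M₃ d.lo)` (point cube): `push_cmp` gives `φ (one Q) = χ (one Q)`. Sum over `sub (M₃ (2h)) (one c)` (all its cubes are of this kind: `sub_mem`; extend linearly, see the end of the proof of `wgl` in WGL.lean: `eq_of_one`). `χ (sub (M₃ * (2 h)) (one c)) = Fp (fl (sub (2h) (sub M₃ (one c)))) = Fp (sub M₃ (one c))` (`sub_sub`, `fl_sub`).
-/

set_option autoImplicit false

noncomputable section

namespace AGE

variable {V J : Type} [LinearOrder V] [LinearOrder J]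


variable {n N : ℕ} {K : Set (Cube V)} {C : Cube V → Set (Cube J)} {τV : Equiv.Perm V}
  {τJ : Equiv.Perm J} {Ty : Set (Cube J)} {M₃ h : ℕ} {F : (V → ℤ) → (J → ℤ)} {S : ℤ}
  {o : Cube V → Cube J → ℤ} {T : ℕ} {γ : Cube V → Cube J → ℕ → (J → ℤ)}

theorem gPt_push (hp : PPar n N K C τV τJ Ty M₃ h F S o T γ) (hh : 2 ≤ h)
    (Fp : Ch V →ₗ[ℤ] Ch J) (hFp : Push (Grd M₃ K) (Spn F) F Fp) (φ : Ch V →ₗ[ℤ] Ch J)
    (hφ : Push (Grd (M₃ * (2 * h)) K) (Spn (gPt n K C Ty M₃ h F o T γ))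
      (gPt n K C Ty M₃ h F o T γ) φ) (c : Cube V) (hc : c ∈ K) (hd : c.dim = n + 1) :
    φ (sub (M₃ * (2 * h)) (one c)) = Fp (sub M₃ (one c)) := by
  have hM3 : 0 < M₃ := hp.m3
  have hn : 2 ≤ n := hp.n2
  have h2h : 0 < 2 * h := by omega
  have hclM : Closed (Grd M₃ K) := closed_grd M₃ K
  have h0 : (0 : ℤ) ≤ (h : ℤ) := Int.natCast_nonneg h
  have ho : (h : ℤ) < ((2 * h : ℕ) : ℤ) := by omega
  have hgr : Grd (2 * h) (Grd M₃ K) = Grd (M₃ * (2 * h)) K := grd_grd M₃ (2 * h) K hM3 h2h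
  have hφ2 := push_flr (2 * h) (h : ℤ) h0 ho (Grd M₃ K) hclM F Fp hFp
  rw [hgr] at hφ2
  have hcel : Cel (Grd (M₃ * (2 * h)) K) Set.univ (F ∘ flo (2 * h) (h : ℤ)) := by
    intro Q hQ
    rw [← hgr] at hQ
    obtain ⟨P, hPK, hQP⟩ := flrQ_mem (2 * h) (h : ℤ) h0 ho (Grd M₃ K) hclM Q hQ
    obtain ⟨S, _, hSd, hS⟩ := hp.Fcl P hPK _ hQP
    exact ⟨S, Set.mem_univ _, hSd.trans (flrQ_dim _ _ Q), fun v hv =>
      hS _ (flo_has (2 * h) (h : ℤ) h2h Q v hv)⟩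
  have hcmp : ∀ Q ∈ {Q : Cube V | Q ∈ Grd (M₃ * (2 * h)) K ∧ Q.dim = n + 1},
      φ (one Q) = (Fp ∘ₗ fl (2 * h) (h : ℤ)) (one Q) := by
    rintro Q ⟨hQ, hQd⟩
    refine push_cmp n (Grd (M₃ * (2 * h)) K) (closed_grd _ K) (gPt n K C Ty M₃ h F o T γ)
      (F ∘ flo (2 * h) (h : ℤ)) hcel φ (Fp ∘ₗ fl (2 * h) (h : ℤ)) hφ hφ2 Q hQ hQd ?_
    obtain ⟨P, hPK, hQP⟩ := hQ
    rcases gPt_cub hp hPK hQP with ⟨d, κ, t, hI, -, hval, hflo⟩ | ⟨-, hval⟩
    · right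
      obtain ⟨S', -, hS1, hS2, hS3⟩ := hp.pth.adj d κ hI t
      refine ⟨⟨S', by omega, fun v hv => ?_⟩, pt (F (mul M₃ d.lo)), ?_, fun v hv => ?_⟩
      · rcases hval v hv with h1 | h1
        · rw [h1]
          exact hS2
        · rw [h1]
          exact hS3
      · show (∅ : Finset J).card ≤ n
        rw [Finset.card_empty]
        exact Nat.zero_le n
      · have h1 : (F ∘ flo (2 * h) (h : ℤ)) v = F (mul M₃ d.lo) := by
          show F (flo (2 * h) (h : ℤ) v) = F (mul M₃ d.lo)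
          rw [hflo v hv]
        rw [h1]
        exact Cube.has_lo (pt (F (mul M₃ d.lo)))
    · left
      exact hval
  have hmem : sub (M₃ * (2 * h)) (one c) ∈
      CC {Q : Cube V | Q ∈ Grd (M₃ * (2 * h)) K ∧ Q.dim = n + 1} (n + 1) := by
    have hm1 : one c ∈ CC K (n + 1) := by
      have := one_mem hc
      rwa [hd] at this
    have hm2 := sub_mem (M₃ * (2 * h)) K (n + 1) hm1
    refine Finsupp.supported_mono ?_ hm2
    rintro Q ⟨hq1, hq2⟩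
    exact ⟨⟨hq1, hq2⟩, hq2⟩
  rw [eq_of_one φ (Fp ∘ₗ fl (2 * h) (h : ℤ)) hcmp hmem, LinearMap.comp_apply,
    ← sub_sub M₃ (2 * h) hM3 h2h, fl_sub (2 * h) (h : ℤ) h0 ho]

end AGE
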