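import Pool.Agent.AGE.WDefs2
import Pool.Agent.AGE.C1b
import Pool.Agent.AGE.C2a
import Pool.Agent.AGE.C6a
import Pool.Agent.AGE.C6b
import Pool.Agent.AGE.C6c
import Pool.Agent.AGE.WPD
import Pool.Agent.AGE.WP1
import Pool.Agent.AGE.WP2
import Pool.Agent.AGE.WP3
import Pool.Agent.AGE.WP4
import Pool.Agent.AGE.WP5
import Pool.Agent.AGE.WP6

/-!
# AGE-WPO: ports (main statement; owner helper63)

Plan. `h'` large, `D' = 2 h'`, `L = M₃ D'`. Ports `p d κ = shf d.fr (o d κ) (mul L d.lo)` with offsets `o d κ` in `[S, h' - S]`, invariant under `(d, κ) ↦ (d.act τV, κ.act τJ)`, with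
`|o d κ - o d κ'| ≥ S` for `κ ≠ κ'` (`S` large: `S > n + 8 + T + 4`, `Ty` is finite; numbers chosen on orbit representatives of the cells). For `d, d'` different of dimension `n` or `n+1` the ports are far from each other: if
`d.lo j ≠ d'.lo j` then the coordinates `j` differ by at least `L - h' ≥ h'`; if `lo` agree then some `j` is in exactly one of the `fr`, and the offset there is `≥ S` against `0`. Paths `γ d κ : ℕ → (J → ℤ)` in `C d` (by `CTR`):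
`γ 0 = F (mul M₃ d.lo)`, `γ t, γ (t+1)` in a cube of `C d` of dimension `≤ 1`, `γ t = b ∈ κ` for `t ≥ T`, equivariant, `T` uniform. `g v = γ d κ (T + 2 - dist(v, p d κ))` if `dist ≤ T + 2` (sup distance, at most one
port), `F (flo D' h' v)` otherwise (at distance `≥ T + 2` both agree near the port: the block is `mul M₃ d.lo`). If a cube `Q` in `L c` has a vertex at distance `≤ T + 2` of `p d κ` then `d` is a face of `c`
and `g (Q) ⊆ {γ t, γ (t+1)}`. Otherwise `g = F ∘ flo` on `Q` with image in `flrQ D' h' Q`, in `M₃ c`. `ess`: `u.lo j = D' y j + h' - 1` for all `j ∈ c.fr`, far from all ports by residues; `hTy` for the cell `⟨y, c.fr⟩`. Push: on an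
`(n+1)`-cube `Q` either `g = F ∘ flo` on `Q` or both have spans of dimension `≤ 1`; `push_cmp` (PSH), `push_flr`, `fl_sub`, `sub_sub` (`sub L = sub D' ∘ sub M₃`).
-/

set_option autoImplicit false

noncomputable section

namespace AGE

variable {V J : Type} [LinearOrder V] [LinearOrder J]

theorem ports_exist {N : ℕ} (n : ℕ) (hn : 2 ≤ n) (K : Set (Cube V)) (τV : Equiv.Perm V)
    (τJ : Equiv.Perm J) (hK : Src n N K τV) (hJ : τJ ^ N = 1)
    (C : Cube V → Set (Cube J)) (hC : Car K C τV τJ)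
    (hR : ∀ c ∈ K, n ≤ c.dim → CTR (C c)) (Ty : Set (Cube J)) (hT : TyOk n τJ Ty)
    (M₃ : ℕ) (hM₃ : 0 < M₃) (F : (V → ℤ) → (J → ℤ)) (hF : Equi τV τJ F)
    (hF1 : ∀ c ∈ K, ∀ Q : Cube V, Q.InM M₃ c →
      ∃ S ∈ C c, S.dim ≤ Q.dim ∧ ∀ v, Q.Has v → S.Has (F v))
    (hTy : ∀ c ∈ K, ∀ Q : Cube V, Q.InM M₃ c → Q.dim = n + 1 →
      (∃ S : Cube J, S.dim ≤ n ∧ ∀ v, Q.Has v → S.Has (F v)) ∨
      ∃ σ ∈ Ty, σ ∈ C c ∧ σ.dim = n + 1 ∧ ∀ v, Q.Has v → σ.Has (F v))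
    (Fp : Ch V →ₗ[ℤ] Ch J) (hFp : Push (Grd M₃ K) (Spn F) F Fp) :
    ∃ (L : ℕ) (g : (V → ℤ) → (J → ℤ)) (p : Cube V → Cube J → (V → ℤ)),
      Prt n K C τV τJ Ty L g p ∧
      ∀ φ : Ch V →ₗ[ℤ] Ch J, Push (Grd L K) (Spn g) g φ → ∀ c ∈ K, c.dim = n + 1 →
        φ (sub L (one c)) = Fp (sub M₃ (one c)) := by
  obtain ⟨T, γ, hγ⟩ := pth_exist (n := n) hK hJ hC hR hT hM₃ hF hF1
  obtain ⟨B, o, hB, ho⟩ := ofs_exist (n := n) hK hJ C hT (2 * (T : ℤ) + n + 20) (by positivity)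
  obtain ⟨h, hh⟩ : ∃ h : ℕ, (h : ℤ) = B + (2 * (T : ℤ) + n + 20) := by
    refine ⟨(B + (2 * (T : ℤ) + n + 20)).toNat, Int.toNat_of_nonneg ?_⟩
    have h1 : (0 : ℤ) ≤ 2 * (T : ℤ) + n + 20 := by positivity
    linarith
  have hh2 : 2 ≤ h := by
    have h1 : (0 : ℤ) ≤ 2 * (T : ℤ) + n := by positivity
    have h2 : (2 : ℤ) ≤ (h : ℤ) := by rw [hh]; linarith
    exact_mod_cast h2
  have ho' : Ofs n K C τV τJ Ty (2 * (T : ℤ) + n + 20) (h - (2 * (T : ℤ) + n + 20)) o := by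
    have e : (h : ℤ) - (2 * (T : ℤ) + n + 20) = B := by rw [hh]; ring
    rw [e]
    exact ho
  have hp : PPar n N K C τV τJ Ty M₃ h F (2 * (T : ℤ) + n + 20) o T γ :=
    ⟨hn, hK, hJ, hC, hT, hM₃, hF, hF1, hTy, le_rfl, ho', hγ⟩
  exact ⟨M₃ * (2 * h), gPt n K C Ty M₃ h F o T γ, wpP (M₃ * (2 * h)) o, gPt_prt hp hh2,
    fun φ hφ c hc hd => gPt_push hp hh2 Fp hFp φ hφ c hc hd⟩

end AGE
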