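import Pool.Agent.AGE.WDefs2
import Pool.Agent.AGE.C1b
import Pool.Agent.AGE.C5
import Pool.Agent.AGE.C6a
import Pool.Agent.AGE.C6b
import Pool.Agent.AGE.C6c
import Pool.Agent.AGE.PSH
import Pool.Agent.AGE.W7
import Pool.Agent.AGE.W8
import Pool.Agent.AGE.WPO
import Pool.Agent.AGE.GLU

/-!
# AGE-WGL: the geometric part of the layer WIR
-/

set_option autoImplicit false

noncomputable section

namespace AGE

variable {V J : Type} [LinearOrder V] [LinearOrder J]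

theorem wgl {N : ℕ} (n : ℕ) (hn : 2 ≤ n) (K : Set (Cube V)) (τV : Equiv.Perm V)
    (τJ : Equiv.Perm J) (hK : Src n N K τV) (hJ : τJ ^ N = 1)
    (C : Cube V → Set (Cube J)) (hC : Car K C τV τJ)
    (hR : ∀ c ∈ K, n ≤ c.dim → CTR (C c)) (Ty : Set (Cube J)) (hT : TyOk n τJ Ty)
    (M₃ : ℕ) (hM₃ : 0 < M₃) (F : (V → ℤ) → (J → ℤ)) (hF : Equi τV τJ F)
    (hF1 : ∀ c ∈ K, ∀ Q : Cube V, Q.InM M₃ c →
      ∃ S ∈ C c, S.dim ≤ Q.dim ∧ ∀ v, Q.Has v → S.Has (F v))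
    (hTy : ∀ c ∈ K, ∀ Q : Cube V, Q.InM M₃ c → Q.dim = n + 1 →
      (∃ S : Cube J, S.dim ≤ n ∧ ∀ v, Q.Has v → S.Has (F v)) ∨
      ∃ σ ∈ Ty, σ ∈ C c ∧ σ.dim = n + 1 ∧ ∀ v, Q.Has v → σ.Has (F v))
    (Fp : Ch V →ₗ[ℤ] Ch J) (hFp : Push (Grd M₃ K) (Spn F) F Fp) :
    ∃ (M₂ : ℕ) (f : (V → ℤ) → (J → ℤ)) (R : (V → ℤ) → Cube J → Prop),
      0 < M₂ ∧ Wst n K C τV τJ M₂ f R ∧
      (∀ c ∈ K, c.dim = n + 1 → ∀ w ∈ Ty, w ∈ C c → w.dim = n + 2 →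
        ∃ x, InB M₂ c x ∧ R x w) ∧
      (∀ e ∈ K, e.dim = n → ∀ κ ∈ Ty, κ ∈ C e → ∃ x, InB M₂ e x ∧ R x κ) ∧
      (∀ φ' : Ch V →ₗ[ℤ] Ch J, Push (Grd M₂ K) (Spn f) f φ' → ∀ c ∈ K, c.dim = n + 1 →
        φ' (sub M₂ (one c)) = Fp (sub M₃ (one c))) := by
  obtain ⟨L, g, p, hP, hpush⟩ := ports_exist n hn K τV τJ hK hJ C hC hR Ty hT M₃ hM₃ F hF hF1
    hTy Fp hFp
  have hL := hP.hL
  have hloc : ∀ c ∈ K, c.dim = n + 1 → ∃ h₀ : ℕ, ∀ h : ℕ, h₀ ≤ h →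
      ∃ (g' : (V → ℤ) → (J → ℤ)) (R : (V → ℤ) → Cube J → Prop),
        Loc n c L h (C c) g (BP n K C Ty p c) g' R ∧
        ∀ w ∈ Ty, w ∈ C c → w.dim = n + 2 → ∃ x, R x w := by
    intro c hc hd
    obtain ⟨W, hW, hb, hw⟩ := wires_exist hn hK.fin hK.clo hC hT hP c hc hd
    obtain ⟨h₀, hh⟩ := loc_exists hn hd hL (hC.clo c hc) (hR c hc (by omega)) (hP.cel c hc) W
      (p c) hW
    have e : (fun (q : V → ℤ) (κ : Cube J) =>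
        ∃ a ∈ W, a.ep = false ∧ ¬ InI L c a.P ∧ q = a.P ∧ κ = a.ty) = BP n K C Ty p c := by
      funext q κ
      exact propext (hb q κ)
    refine ⟨h₀, fun h hh0 => ?_⟩
    obtain ⟨g', R, h1, h2⟩ := hh h hh0
    rw [e] at h1
    refine ⟨g', R, h1, fun w hw1 hw2 hw3 => ?_⟩
    obtain ⟨a, ha, hat⟩ := hw w hw1 hw2 hw3
    obtain ⟨x, hx⟩ := h2 a ha
    rw [hat] at hx
    exact ⟨x, hx⟩
  obtain ⟨h, f, R, hh, hWst, h1, h2, h3⟩ := glue hn hK hJ hC hT hP hloc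
  refine ⟨2 * h * L, f, R, Nat.mul_pos (by omega) hL, hWst, h1, h2, ?_⟩
  intro φ' hφ' c hc hd
  have hclL : Closed (Grd L K) := closed_grd L K
  have h0 : (0 : ℤ) ≤ (h : ℤ) := Int.natCast_nonneg h
  have ho : (h : ℤ) < ((2 * h : ℕ) : ℤ) := by omega
  obtain ⟨φ, hφ⟩ := push_exists (n + 1) (Grd L K) hclL (fun Q hQ => by
      obtain ⟨P, hPK, _, hPd⟩ := grd_dim hL hQ
      exact hPd.trans (hK.dim P hPK)) g (fun Q hQ => by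
      obtain ⟨P, hPK, hQP⟩ := hQ
      obtain ⟨S, _, _, hS⟩ := hP.cel P hPK Q hQP
      exact ⟨S, Set.mem_univ _, hS⟩)
  have hgr : Grd (2 * h) (Grd L K) = Grd (2 * h * L) K := by
    rw [grd_grd L (2 * h) K hL (by omega), Nat.mul_comm]
  have hφ2 := push_flr (2 * h) (h : ℤ) h0 ho (Grd L K) hclL g φ hφ
  have hcel : Cel (Grd (2 * h * L) K) Set.univ (g ∘ flo (2 * h) (h : ℤ)) := by
    intro Q hQ
    rw [← hgr] at hQ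
    obtain ⟨P, hPK, hQP⟩ := flrQ_mem (2 * h) (h : ℤ) h0 ho (Grd L K) hclL Q hQ
    obtain ⟨S, _, hSd, hS⟩ := hP.cel P hPK _ hQP
    exact ⟨S, Set.mem_univ _, hSd.trans (flrQ_dim _ _ Q), fun v hv =>
      hS _ (flo_has (2 * h) (h : ℤ) (by omega) Q v hv)⟩
  rw [hgr] at hφ2
  have hcmp : ∀ Q ∈ {Q : Cube V | Q ∈ Grd (2 * h * L) K ∧ Q.dim = n + 1},
      φ' (one Q) = (φ ∘ₗ fl (2 * h) (h : ℤ)) (one Q) := by
    rintro Q ⟨hQ, hQd⟩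
    exact push_cmp n (Grd (2 * h * L) K) (closed_grd _ K) f (g ∘ flo (2 * h) (h : ℤ)) hcel φ'
      (φ ∘ₗ fl (2 * h) (h : ℤ)) hφ' hφ2 Q hQ hQd (h3 Q hQ hQd)
  have hmem : sub (2 * h * L) (one c) ∈
      CC {Q : Cube V | Q ∈ Grd (2 * h * L) K ∧ Q.dim = n + 1} (n + 1) := by
    have hm1 : one c ∈ CC K (n + 1) := by
      have := one_mem hc
      rwa [hd] at this
    have hm2 := sub_mem (2 * h * L) K (n + 1) hm1
    refine Finsupp.supported_mono ?_ hm2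
    rintro Q ⟨hq1, hq2⟩
    exact ⟨⟨hq1, hq2⟩, hq2⟩
  rw [eq_of_one φ' (φ ∘ₗ fl (2 * h) (h : ℤ)) hcmp hmem, LinearMap.comp_apply,
    Nat.mul_comm (2 * h) L, ← sub_sub L (2 * h) hL (by omega), fl_sub (2 * h) (h : ℤ) h0 ho]
  exact hpush φ hφ c hc hd

end AGE
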