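import Pool.Agent.AGE.WI4
import Pool.Agent.AGE.C9

/-!
# AGE-WI5: the homology lemma

Plan. `lo := plc` of `lam` (`k = n`), `xo := plc` of `xi` (`k = n`), `nu' := plc` of `nu` (`k = n + 1`) (WI4). For `U ∈ K`, `U.dim = n + 1`, apply `bal` (WI3) with `i = n + 1` to
`g = bd ∘ nu' - φ' - lo ∘ bd`: for `u` with `gcel M u = U` (so `u ∈ Grd M K`) `bd (nu' (one u)) ∈ CC (R u) (n + 1)` (`bd_mem`, `R u` closed), `φ' (one u)` by `hφ`, `lo (bd (one u))`: the faces `v`
of `u` have `lo (one v) ∈ CC (R v) (n + 1)`, and `R v ⊆ R u` (`Car.mon`). `g (sub M (one U)) = bd (nu (one U)) - φ (one U) - lam (bd (one U)) = 0`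
(`sub_bd`, and `lo (sub M x) = lam x` for chains `x` of `n`-cells of `K`, `eq_of_one`). With `i = n + 2` to `g = con nu' - nu' - xo ∘ bd`: `con nu' (one u) = act τJ (nu' (one (u.act τV⁻¹)))`
(`Src.act_symm_one` for `Grd M K`, `src_grd`), in `CC (R u) (n + 2)` by `Car.equ`, `act_mem`; `con nu' (sub M (one U)) = con nu (one U)` (`sub_act`).
Let `m_U`, `k_U` be the maps. `lam' := lo + Σ_{U} m_U`, `xi' := xo + Σ_U k_U` (finite sum over the `(n+1)`-cells of `K`, `Src.fin`). For `u` with `gcel M u = U` and `U' ≠ U`: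
`m_U' (bd (one u)) = 0`, because a face `v` of `u` with `gcel M v = U'` would give `U' ≤ U` (`gcel_mono`), so `U' = U` (`eq_of_le_dim`). For `u ∈ Grd M K`, `u.dim = n + 1`:
`gcel M u ∈ K` has dimension `n + 1` (`gcel_dim`, `Src.dim`).
-/

set_option autoImplicit false

noncomputable section

namespace AGE

namespace WI

variable {V J : Type} [LinearOrder V] [LinearOrder J] [Fintype V]

private theorem WI5_eq {K : Set (Cube V)} {i : ℕ} (α β : Ch V →ₗ[ℤ] Ch J)
    (h : ∀ c ∈ K, c.dim = i → α (one c) = β (one c)) {x : Ch V} (hx : x ∈ CC K i) :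
    α x = β x := by
  have h1 : (α - β) x ∈ (⊥ : Submodule ℤ (Ch J)) := by
    refine map_mem (α - β) _ ?_ hx
    intro c hc hi
    rw [LinearMap.sub_apply, h c hc hi, sub_self]
    exact Submodule.zero_mem _
  have h2 := (Submodule.mem_bot ℤ).1 h1
  rw [LinearMap.sub_apply] at h2
  exact sub_eq_zero.1 h2

private theorem WI5_one {K : Set (Cube V)} {Q : Cube V} {i : ℕ} (h : Q ∈ K) (hi : Q.dim = i) :
    one Q ∈ CC K i := by
  have h1 := one_mem h
  rwa [hi] at h1

private theorem WI5_bd (u : Cube V) (n : ℕ) (hu : u.dim = n + 1) :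
    bd (one u) ∈ CC (Faces u) n :=
  bd_mem (closed_faces u) (WI5_one (Cube.le_refl' u) hu)

/-- the sum of the balancing maps over the cells of full dimension -/
private theorem WI5_sum {N : ℕ} (n : ℕ) (K : Set (Cube V)) (τV : Equiv.Perm V)
    (hK : Src n N K τV) (M : ℕ) (hM : 0 < M) (R : Cube V → Set (Cube J))
    (i : ℕ) (hi : n + 1 ≤ i)
    (hc : ∀ U ∈ K, U.dim = n + 1 → ∀ P : Cube J, n + 1 ≤ P.dim → Cnn M R U P)
    (g : Ch V →ₗ[ℤ] Ch J)
    (hg : ∀ u ∈ Grd M K, u.dim = n + 1 → g (one u) ∈ CC (R u) i)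
    (h0 : ∀ U ∈ K, U.dim = n + 1 → g (sub M (one U)) = 0) :
    ∃ m : Ch V →ₗ[ℤ] Ch J, (∀ v : Cube V, m (one v) ∈ CC (R v) i) ∧
      ∀ u ∈ Grd M K, u.dim = n + 1 → m (bd (one u)) = g (one u) := by
  classical
  have hb : ∀ U : Cube V, ∃ m : Ch V →ₗ[ℤ] Ch J, (U ∈ K ∧ U.dim = n + 1) →
      (∀ v : Cube V, ¬ (v.dim = n ∧ gcel M v = U) → m (one v) = 0) ∧
      (∀ v : Cube V, m (one v) ∈ CC (R v) i) ∧
      (∀ u : Cube V, u.dim = n + 1 → gcel M u = U → m (bd (one u)) = g (one u)) := by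
    intro U
    by_cases hU : U ∈ K ∧ U.dim = n + 1
    · obtain ⟨m, hm⟩ := bal n M hM R U hU.2 i hi (hc U hU.1 hU.2) g
        (fun u hu hgu => hg u ((mem_grd_iff M hM K hK.clo u).mpr (by rw [hgu]; exact hU.1)) hu)
        (h0 U hU.1 hU.2)
      exact ⟨m, fun _ => hm⟩
    · exact ⟨0, fun h => absurd h hU⟩
  choose m hm using hb
  refine ⟨∑ U ∈ hK.fin.toFinset.filter (fun U => U.dim = n + 1), m U, ?_, ?_⟩
  · intro v
    rw [LinearMap.sum_apply]
    refine Submodule.sum_mem _ fun U hU => ?_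
    rw [Finset.mem_filter, Set.Finite.mem_toFinset] at hU
    exact (hm U hU).2.1 v
  · intro u hu hd
    have hgu : gcel M u ∈ K := (mem_grd_iff M hM K hK.clo u).mp hu
    have hle := gcel_dim M u
    have hge := hK.dim _ hgu
    have hgd : (gcel M u).dim = n + 1 := by omega
    rw [LinearMap.sum_apply, Finset.sum_eq_single (gcel M u)]
    · exact (hm _ ⟨hgu, hgd⟩).2.2 u hd rfl
    · intro U hU hne
      rw [Finset.mem_filter, Set.Finite.mem_toFinset] at hU
      have h1 : m U (bd (one u)) = (0 : Ch V →ₗ[ℤ] Ch J) (bd (one u)) := by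
        refine WI5_eq (m U) 0 ?_ (WI5_bd u n hd)
        intro v hv hvn
        rw [LinearMap.zero_apply]
        refine (hm U hU).1 v ?_
        rintro ⟨-, h2⟩
        have h3 : (gcel M v).Le (gcel M u) := gcel_mono M hM hv
        rw [h2] at h3
        exact hne (eq_of_le_dim h3 (by rw [hgd, hU.2]))
      rw [h1, LinearMap.zero_apply]
    · intro h
      exact absurd (Finset.mem_filter.mpr ⟨(Set.Finite.mem_toFinset _).mpr hgu, hgd⟩) h

theorem hom {N : ℕ} (n : ℕ) (K : Set (Cube V)) (τV : Equiv.Perm V) (τJ : Equiv.Perm J)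
    (hK : Src n N K τV) (M : ℕ) (hM : 0 < M) (R : Cube V → Set (Cube J))
    (hR : Car (Grd M K) R τV τJ) (φ' φ lam nu xi : Ch V →ₗ[ℤ] Ch J)
    (hD : DatR n K (fun _ => Set.univ) τV τJ φ lam nu xi)
    (hφ : ∀ u ∈ Grd M K, u.dim = n + 1 → φ' (one u) ∈ CC (R u) (n + 1))
    (hs : ∀ c ∈ K, c.dim = n + 1 → φ' (sub M (one c)) = φ (one c))
    (ha : ∀ e ∈ K, e.dim = n → ∀ P : Cube J,
      P ∈ (lam (one e)).support ∨ P ∈ (xi (one e)).support →
      ∃ v : Cube V, v.dim = n ∧ gcel M v = e ∧ P ∈ R v)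
    (hb : ∀ U ∈ K, U.dim = n + 1 → ∀ P ∈ (nu (one U)).support,
      ∃ u : Cube V, u.dim = n + 1 ∧ gcel M u = U ∧ P ∈ R u)
    (hc : ∀ U ∈ K, U.dim = n + 1 → ∀ P : Cube J, n + 1 ≤ P.dim → Cnn M R U P) :
    ∃ lam' nu' xi' : Ch V →ₗ[ℤ] Ch J, DatR n (Grd M K) R τV τJ φ' lam' nu' xi' := by
  classical
  have hS : Src n N (Grd M K) τV := src_grd M hM K τV hK
  obtain ⟨lo, lo1, -, lo3⟩ := plc n M hM K R lam (n + 1) (fun e he hd => hD.laC e he hd)
    (fun e he hd P hP => ha e he hd P (Or.inl hP))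
  obtain ⟨xo, xo1, -, xo3⟩ := plc n M hM K R xi (n + 2) (fun e he hd => hD.xiC e he hd)
    (fun e he hd P hP => ha e he hd P (Or.inr hP))
  obtain ⟨nu', nu1, -, nu3⟩ := plc (n + 1) M hM K R nu (n + 2)
    (fun e he hd => hD.nuC e he hd) (fun U hU hd P hP => hb U hU hd P hP)
  have hbd : ∀ (o α : Ch V →ₗ[ℤ] Ch J),
      (∀ e ∈ K, e.dim = n → o (sub M (one e)) = α (one e)) → ∀ U ∈ K, U.dim = n + 1 →
        o (bd (sub M (one U))) = α (bd (one U)) := by
    intro o α ho U hU hd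
    rw [← sub_bd M hM]
    exact WI5_eq (o ∘ₗ sub M) α (fun c hc hi => ho c hc hi) (bd_mem hK.clo (WI5_one hU hd))
  have hfc : ∀ (o : Ch V →ₗ[ℤ] Ch J) (i : ℕ), (∀ v : Cube V, o (one v) ∈ CC (R v) i) →
      ∀ u ∈ Grd M K, u.dim = n + 1 → o (bd (one u)) ∈ CC (R u) i := by
    intro o i ho u hu hd
    exact map_mem o (CC (R u) i) (fun v hv _ => CC_mono (hR.mon u hu v hv) i (ho v))
      (WI5_bd u n hd)
  have hcon : ∀ (α : Ch V →ₗ[ℤ] Ch J) (x : Ch V),
      con τV τJ α x = act τJ (α (act τV.symm x)) := fun _ _ => rfl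
  obtain ⟨m, m1, m2⟩ := WI5_sum n K τV hK M hM R (n + 1) le_rfl hc
    (bd ∘ₗ nu' - φ' - lo ∘ₗ bd) (by
      intro u hu hd
      rw [LinearMap.sub_apply, LinearMap.sub_apply, LinearMap.comp_apply, LinearMap.comp_apply]
      exact Submodule.sub_mem _ (Submodule.sub_mem _ (bd_mem (hR.clo u hu) (nu1 u))
        (hφ u hu hd)) (hfc lo (n + 1) lo1 u hu hd)) (by
      intro U hU hd
      rw [LinearMap.sub_apply, LinearMap.sub_apply, LinearMap.comp_apply, LinearMap.comp_apply,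
        nu3 U hU hd, hs U hU hd, hbd lo lam lo3 U hU hd, ← hD.eqE U hU hd]
      abel)
  obtain ⟨k, k1, k2⟩ := WI5_sum n K τV hK M hM R (n + 2) (Nat.le_succ _) hc
    (con τV τJ nu' - nu' - xo ∘ₗ bd) (by
      intro u hu hd
      rw [LinearMap.sub_apply, LinearMap.sub_apply, LinearMap.comp_apply]
      refine Submodule.sub_mem _ (Submodule.sub_mem _ ?_ (nu1 u)) (hfc xo (n + 2) xo1 u hu hd)
      rw [hcon, hS.act_symm_one hu]
      refine act_mem τJ ?_ (nu1 (u.act τV.symm))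
      intro Q hQ
      have h1 := (hR.equ (u.act τV.symm) (hS.mem_symm hu) Q).mp hQ
      have h2 : (u.act τV.symm).act τV = u := by
        rw [← Cube.act_mul]
        have h3 : τV * τV.symm = 1 := mul_inv_cancel τV
        rw [h3, Cube.act_one']
      rwa [h2] at h1) (by
      intro U hU hd
      have h1 : con τV τJ nu' (sub M (one U)) = con τV τJ nu (one U) := by
        rw [hcon, hcon, ← sub_act, hK.act_symm_one hU,
          nu3 _ (hK.mem_symm hU) (by rw [Cube.act_dim]; exact hd)]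
      rw [LinearMap.sub_apply, LinearMap.sub_apply, LinearMap.comp_apply, h1,
        nu3 U hU hd, hbd xo xi xo3 U hU hd, hD.eqI U hU hd, sub_self])
  refine ⟨lo + m, nu', xo + k, ?_, ?_, ?_, ?_, ?_⟩
  · intro c _ _
    rw [LinearMap.add_apply]
    exact Submodule.add_mem _ (lo1 c) (m1 c)
  · intro c _ _
    exact nu1 c
  · intro c _ _
    rw [LinearMap.add_apply]
    exact Submodule.add_mem _ (xo1 c) (k1 c)
  · intro c hc' hd
    rw [LinearMap.add_apply, m2 c hc' hd, LinearMap.sub_apply, LinearMap.sub_apply,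
      LinearMap.comp_apply, LinearMap.comp_apply]
    abel
  · intro c hc' hd
    rw [LinearMap.add_apply, k2 c hc' hd, LinearMap.sub_apply, LinearMap.sub_apply,
      LinearMap.comp_apply]
    abel

end WI

end AGE
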