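import Pool.Agent.AGE.Defs

/-!
# Project AGE, layer WIR: definitions

Sets of lattice points are written in the coordinates of `V`; the box `M c` of a cube `c` consists of
the lattice points `v` with `(pt v).InM M c`.
-/

set_option autoImplicit false

noncomputable section

namespace AGE

variable {V J : Type} [LinearOrder V] [LinearOrder J]

/-- `v` is a lattice point of the box `M c` -/
def InB (M : ℕ) (c : Cube V) (v : V → ℤ) : Prop :=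
  ∀ j, (M : ℤ) * c.lo j ≤ v j ∧ v j ≤ (M : ℤ) * c.hi j

/-- `v` is a lattice point of the interior of the box `M c` -/
def InI (M : ℕ) (c : Cube V) (v : V → ℤ) : Prop :=
  (∀ j ∈ c.fr, (M : ℤ) * c.lo j < v j ∧ v j < (M : ℤ) * c.hi j) ∧
    ∀ j, j ∉ c.fr → v j = (M : ℤ) * c.lo j

/-- two lattice points which differ by at most one unit in one coordinate -/
def Adj (x y : V → ℤ) : Prop := ∃ j, (∀ i, i ≠ j → x i = y i) ∧ |x j - y j| ≤ 1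

/-- sup distance of lattice points at most `r` -/
def Cls (r : ℕ) (x y : V → ℤ) : Prop := ∀ j, |x j - y j| ≤ (r : ℤ)

/-- distance from a set of lattice points -/
def dst (P : Set (V → ℤ)) (v : V → ℤ) : ℕ := sInf {r : ℕ | ∃ x ∈ P, Cls r v x}

/-- the staircase from `a` to `b` in the coordinates `fr`, one coordinate after the other in the
order of the rank `r` -/
def Stc (fr : Finset V) (r : V → ℕ) (a b : V → ℤ) : Set (V → ℤ) :=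
  {x | (∀ j, j ∉ fr → x j = a j) ∧
    ∃ i ∈ fr, (∀ j ∈ fr, r j < r i → x j = b j) ∧ (∀ j ∈ fr, r i < r j → x j = a j) ∧
      min (a i) (b i) ≤ x i ∧ x i ≤ max (a i) (b i)}

/-- `v` plus `d` in the coordinates `fr` -/
def shf (fr : Finset V) (d : ℤ) (v : V → ℤ) : V → ℤ := fun j => v j + if j ∈ fr then d else 0

/-- the multiple `m v` -/
def mul (m : ℕ) (v : V → ℤ) : V → ℤ := fun j => (m : ℤ) * v j

/-- connection of two lattice points by unit steps in the set `X` -/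
def Cnn (X : Set (V → ℤ)) (x y : V → ℤ) : Prop :=
  Relation.ReflTransGen (fun a b => a ∈ X ∧ b ∈ X ∧ Adj a b) x y

/-- a core relation `R` (`R x κ`: the lattice point `x` is a core vertex of type `κ`): the core
vertices whose type contains `σ` -/
def Ge (R : (V → ℤ) → Cube J → Prop) (M : ℕ) (c : Cube V) (σ : Cube J) : Set (V → ℤ) :=
  {x | InB M c x ∧ ∃ κ, R x κ ∧ σ.Le κ}

/-- wires: a wire starts at the coarse node `P` (an essential cell if `ep`), its main part goes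
from `A` to `B`, `B` is the end node; `i0` is the first coordinate of the start junction, `i1` and
`i2` are the first and the last coordinate in which the main part moves; `ty` is the type of the wire,
`te` the type of the end node -/
structure Wire (V J : Type) where
  P : V → ℤ
  A : V → ℤ
  B : V → ℤ
  ep : Bool
  i0 : V
  i1 : V
  i2 : V
  ty : Cube J
  te : Cube J

/-- rank of a coordinate in `fr` -/
def rkw (fr : Finset V) (j : V) : ℕ := (fr.filter (· < j)).card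

/-- rank with `i` first and `i'` second -/
def rkw2 (fr : Finset V) (i i' : V) (j : V) : ℕ :=
  if j = i then 0 else if j = i' then 1 else rkw fr j + 2

/-- hypotheses on a wire in the box `L c` (`g` is the coarse map) -/
structure WOk (n : ℕ) (c : Cube V) (L : ℕ) (C : Set (Cube J)) (g : (V → ℤ) → (J → ℤ))
    (a : Wire V J) : Prop where
  inA : ∀ j, (j ∈ c.fr → (L : ℤ) * c.lo j ≤ a.A j ∧ a.A j < (L : ℤ) * c.hi j) ∧
    (j ∉ c.fr → a.A j = (L : ℤ) * c.lo j)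
  inB : InI L c a.B
  m0 : a.i0 ∈ c.fr
  m1 : a.i1 ∈ c.fr
  m2 : a.i2 ∈ c.fr
  n1 : a.A a.i1 ≠ a.B a.i1
  n2 : a.A a.i2 ≠ a.B a.i2
  s1 : ∀ j ∈ c.fr, rkw c.fr j < rkw c.fr a.i1 → a.A j = a.B j
  s2 : ∀ j ∈ c.fr, rkw c.fr a.i2 < rkw c.fr j → a.A j = a.B j
  far : (n : ℤ) + 2 ≤ ∑ j ∈ c.fr, |a.A j - a.B j|
  tyC : a.ty ∈ C
  teC : a.te ∈ C
  le : a.te.Le a.ty
  tyd : a.ty.dim ≤ n + 2
  hB : a.te.Has (g a.B)
  st0 : a.ep = false → (∀ j, j ≠ a.i0 → a.P j = a.A j ∧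
      (j ∈ c.fr → (L : ℤ) * c.lo j < a.P j)) ∧
    (a.P a.i0 = a.A a.i0 ∨ a.P a.i0 = a.A a.i0 + 1 ∧ a.P a.i0 = (L : ℤ) * c.hi a.i0) ∧
    g a.P = g a.A ∧ a.ty.Has (g a.A)
  st1 : a.ep = true → a.P = a.A ∧ a.i0 = a.i1 ∧
    ∀ v, (∀ j, a.A j ≤ v j ∧ v j ≤ a.A j + if j ∈ c.fr then 1 else 0) → a.ty.Has (g v)

/-- hypotheses on a finite set of wires -/
structure WsOk (n : ℕ) (c : Cube V) (L : ℕ) (C : Set (Cube J)) (g : (V → ℤ) → (J → ℤ))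
    (W : Finset (Wire V J)) (p : Cube J → (V → ℤ)) : Prop where
  ok : ∀ a ∈ W, WOk n c L C g a
  sPP : ∀ a ∈ W, ∀ b ∈ W, Cls 2 a.P b.P →
    a = b ∨ (a.P = b.P ∧ a.ep = false ∧ b.ep = false ∧ a.ty = b.ty)
  sPB : ∀ a ∈ W, ∀ b ∈ W, Cls 2 a.P b.B → a.P = b.B ∧ a.ep = false ∧ a.ty = b.te
  sBB : ∀ a ∈ W, ∀ b ∈ W, Cls 2 a.B b.B → a.B = b.B ∧ a.te = b.te
  prt : ∀ a ∈ W, a.B = p a.te ∧ (a.te = a.ty ∨ (a.P = p a.ty ∧ a.ep = false))
  fac : ∀ a ∈ W, ∀ σ : Cube J, n + 1 ≤ σ.dim → σ.Le a.ty → σ ≠ a.ty →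
    ∃ b ∈ W, b.P = p a.ty ∧ b.ep = false ∧ b.ty = a.ty ∧ b.te = σ
  ess : ∀ u : Cube V, u.InM L c → u.dim = n + 1 →
    (∃ S : Cube J, S.dim ≤ n ∧ ∀ v, u.Has v → S.Has (g v)) ∨
    ∃ a ∈ W, a.ep = true ∧ a.A = u.lo

/-- local solution of the wiring problem in the box `2 h L c`: `g` is the coarse map, `bp` the
boundary ports (coarse point and type), `g'` the fine map, `R` the core relation -/
structure Loc (n : ℕ) (c : Cube V) (L h : ℕ) (C : Set (Cube J)) (g : (V → ℤ) → (J → ℤ))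
    (bp : (V → ℤ) → Cube J → Prop) (g' : (V → ℤ) → (J → ℤ))
    (R : (V → ℤ) → Cube J → Prop) : Prop where
  bdy : ∀ v, InB (2 * h * L) c v → ¬ InI (2 * h * L) c v → g' v = g (flo (2 * h) h v)
  cub : ∀ Q : Cube V, Q.InM (2 * h * L) c →
    (∀ v, Q.Has v → g' v = g (flo (2 * h) h v)) ∨
    ((∃ S ∈ C, S.dim ≤ n ∧ ∀ v, Q.Has v → S.Has (g' v)) ∧
      ∃ S : Cube J, S.dim ≤ n ∧ ∀ v, Q.Has v → S.Has (g (flo (2 * h) h v)))
  box : ∀ x κ, R x κ → InB (2 * h * L) c x ∧ κ ∈ C ∧ κ.dim ≤ n + 2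
  bnd : ∀ x κ, InB (2 * h * L) c x → ¬ InI (2 * h * L) c x →
    (R x κ ↔ ∃ q, bp q κ ∧ x = mul (2 * h) q)
  has : ∀ x κ, R x κ → ∀ Q : Cube V, Q.InM (2 * h * L) c → Q.Has x → ∀ v, Q.Has v →
    κ.Has (g' v)
  nes : ∀ x κ x' κ', R x κ → R x' κ' → Cls 1 x x' → κ.Le κ' ∨ κ'.Le κ
  con : ∀ σ : Cube J, n + 1 ≤ σ.dim → ∀ x κ x' κ', R x κ → R x' κ' → σ.Le κ → σ.Le κ' →
    Cnn (Ge R (2 * h * L) c σ) x x'
  ess : ∀ u : Cube V, u.InM (2 * h * L) c → u.dim = n + 1 →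
    (∃ x κ, u.Has x ∧ R x κ) ∨ ∃ S : Cube J, S.dim ≤ n ∧ ∀ v, u.Has v → S.Has (g' v)

/-! ### the local construction -/

/-- tube homotopies: `H y r t`, `y` a coarse point, `r` the depth in the tube, `t` the distance from
the ends -/
structure Hom (C : Set (Cube J)) (g β : (V → ℤ) → (J → ℤ)) (Y : Set (V → ℤ)) (A : ℕ)
    (H : (V → ℤ) → ℕ → ℕ → (J → ℤ)) : Prop where
  h0 : ∀ y ∈ Y, ∀ t, H y 0 t = g y
  h1 : ∀ y ∈ Y, ∀ r t, 2 * A ≤ r → H y r t = β y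
  h2 : ∀ y ∈ Y, g y = β y → ∀ r, H y r 0 = g y
  h3 : ∀ y ∈ Y, g y = β y → ∀ r t, ∃ S ∈ C, S.dim ≤ 1 ∧ ∀ r' t', r ≤ r' → r' ≤ r + 1 →
    t ≤ t' → t' ≤ t + 1 → S.Has (H y r' t')
  h4 : ∀ y ∈ Y, ∀ y' ∈ Y, (∃ S ∈ C, S.dim ≤ 1 ∧ S.Has (g y) ∧ S.Has (g y')) →
    (∃ S ∈ C, S.dim ≤ 1 ∧ S.Has (β y) ∧ S.Has (β y')) → ∀ r t, A ≤ t →
    ∃ S ∈ C, S.dim ≤ 2 ∧ ∀ r' t', r ≤ r' → r' ≤ r + 1 → t ≤ t' → t' ≤ t + 1 →
      S.Has (H y r' t') ∧ S.Has (H y' r' t')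

/-- the middle path of a tube, inside the type of the wire -/
structure Bet (g : (V → ℤ) → (J → ℤ)) (a : Wire V J) (β : (V → ℤ) → (J → ℤ)) : Prop where
  inT : ∀ y, a.ty.Has (β y)
  bA : β a.A = g a.A
  bB : β a.B = g a.B
  adj : ∀ y y', Adj y y' → ∃ S : Cube J, S.Le a.ty ∧ S.dim ≤ 1 ∧ S.Has (β y) ∧ S.Has (β y')

/-- fine start of the main part (`d` is the offset of the wire) -/
def qA (c : Cube V) (h : ℕ) (d : ℤ) (a : Wire V J) : V → ℤ := shf c.fr d (mul (2 * h) a.A)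

/-- fine end of the main part -/
def qB (c : Cube V) (h : ℕ) (d : ℤ) (a : Wire V J) : V → ℤ := shf c.fr d (mul (2 * h) a.B)

/-- fine start node -/
def zP (c : Cube V) (h : ℕ) (a : Wire V J) : V → ℤ :=
  if a.ep then shf c.fr ((h : ℤ) - 1) (mul (2 * h) a.P) else mul (2 * h) a.P

/-- main part -/
def Mn (c : Cube V) (h : ℕ) (d : ℤ) (a : Wire V J) : Set (V → ℤ) :=
  Stc c.fr (rkw c.fr) (qA c h d a) (qB c h d a)

/-- start junction -/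
def Stj (c : Cube V) (h : ℕ) (d : ℤ) (a : Wire V J) : Set (V → ℤ) :=
  Stc c.fr (rkw2 c.fr a.i0 a.i1) (zP c h a) (qA c h d a)

/-- end junction -/
def Enj (c : Cube V) (h : ℕ) (d : ℤ) (a : Wire V J) : Set (V → ℤ) :=
  Stc c.fr (rkw2 c.fr a.i2 a.i2) (mul (2 * h) a.B) (qB c h d a)

/-- distance from the ends of the main part, minus `2` -/
def tm (c : Cube V) (h : ℕ) (d : ℤ) (a : Wire V J) (v : V → ℤ) : ℕ :=
  min (|v a.i1 - qA c h d a a.i1|).toNat (|v a.i2 - qB c h d a a.i2|).toNat - 2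

open Classical in
/-- the fine map -/
def gW (c : Cube V) (h ρ : ℕ) (g : (V → ℤ) → (J → ℤ)) (W : Finset (Wire V J))
    (d : Wire V J → ℤ) (H : Wire V J → (V → ℤ) → ℕ → ℕ → (J → ℤ)) (v : V → ℤ) : J → ℤ :=
  if hx : ∃ a ∈ W, dst (Mn c h (d a) a) v < ρ then
    H hx.choose (flo (2 * h) h v) (ρ - dst (Mn c h (d hx.choose) hx.choose) v)
      (tm c h (d hx.choose) hx.choose v)
  else g (flo (2 * h) h v)

/-- the core relation -/
def RW (c : Cube V) (h : ℕ) (W : Finset (Wire V J)) (d : Wire V J → ℤ) (x : V → ℤ)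
    (κ : Cube J) : Prop :=
  ∃ a ∈ W, (x ∈ Mn c h (d a) a ∧ κ = a.ty) ∨ (x ∈ Stj c h (d a) a ∧ κ = a.ty) ∨
    (x ∈ Enj c h (d a) a ∧ κ = a.te)

/-- the parameters of the local construction -/
structure LPar (n : ℕ) (c : Cube V) (L h : ℕ) (C : Set (Cube J)) (g : (V → ℤ) → (J → ℤ))
    (W : Finset (Wire V J)) (p : Cube J → (V → ℤ)) (ρ : ℕ) (D : ℤ) (d : Wire V J → ℤ)
    (A : Wire V J → ℕ) (β : Wire V J → (V → ℤ) → (J → ℤ))
    (H : Wire V J → (V → ℤ) → ℕ → ℕ → (J → ℤ)) : Prop where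
  n2 : 2 ≤ n
  dim : c.dim = n + 1
  hL : 0 < L
  hC : Closed C
  cel : ∀ Q : Cube V, Q.InM L c → ∃ S ∈ C, S.dim ≤ Q.dim ∧ ∀ v, Q.Has v → S.Has (g v)
  ws : WsOk n c L C g W p
  rA : ∀ a ∈ W, 2 * A a + 2 ≤ ρ
  rD : 8 * (ρ : ℤ) + 20 ≤ D
  hh : 2 * D ≤ h
  dl : ∀ a ∈ W, D ≤ d a
  du : ∀ a ∈ W, d a + D ≤ h
  dd : ∀ a ∈ W, ∀ b ∈ W, a ≠ b → D ≤ |d a - d b|
  bet : ∀ a ∈ W, Bet g a (β a)
  hom : ∀ a ∈ W, Hom C g (β a) (Stc c.fr (rkw c.fr) a.A a.B) (A a) (H a)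

/-- global solution of the wiring problem on `Grd M K` -/
structure Wst (n : ℕ) (K : Set (Cube V)) (C : Cube V → Set (Cube J)) (τV : Equiv.Perm V)
    (τJ : Equiv.Perm J) (M : ℕ) (f : (V → ℤ) → (J → ℤ)) (R : (V → ℤ) → Cube J → Prop) :
    Prop where
  equ : Equi τV τJ f
  vmp : ∀ c ∈ K, ∀ Q : Cube V, Q.InM M c →
    ∃ S ∈ C c, S.dim ≤ n + 1 ∧ ∀ v, Q.Has v → S.Has (f v)
  req : ∀ x κ, R x κ → R (actP τV x) (κ.act τJ)
  rin : ∀ x κ, R x κ → ∀ c ∈ K, InB M c x → κ ∈ C c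
  rdm : ∀ x κ, R x κ → κ.dim ≤ n + 2
  has : ∀ Q ∈ Grd M K, ∀ x κ, R x κ → Q.Has x → ∀ v, Q.Has v → κ.Has (f v)
  nes : ∀ Q ∈ Grd M K, ∀ x κ x' κ', R x κ → R x' κ' → Q.Has x → Q.Has x' →
    κ.Le κ' ∨ κ'.Le κ
  con : ∀ c ∈ K, c.dim = n + 1 → ∀ σ : Cube J, n + 1 ≤ σ.dim → ∀ x κ x' κ', InB M c x →
    InB M c x' → R x κ → R x' κ' → σ.Le κ → σ.Le κ' → Cnn (Ge R M c σ) x x'
  ess : ∀ u ∈ Grd M K, u.dim = n + 1 →
    (∃ x κ, u.Has x ∧ R x κ) ∨ ∃ S : Cube J, S.dim ≤ n ∧ ∀ v, u.Has v → S.Has (f v)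

end AGE
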