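import Pool.Agent.AGE.WI0
import Pool.Agent.AGE.WDefs

/-!
# AGE-WT0: the span cube `spc f c`

Plan. `spc_spec`: C6a `spn_eq` gives the `S` in the definition. `spc_le`: `spc f c ∈ Spn f c` (because `Spn f c = Faces (spc f c)` and `Le` is reflexive), and `Spn f c ⊆ Faces S`
(`spn_sub`). `spc_mono`: `spc_le`, `Cube.has_of_le`. `spc_act`: both cubes `S₁ = spc f (c.act τV)`, `S₂ = (spc f c).act τJ` satisfy `Faces S₁ = Spn f (c.act τV) = Faces S₂`
(`spn_act`; use `Cube.act_le` and write a cube `P` as `(P.act τJ.symm).act τJ`), hence `S₁.Le S₂` and `S₂.Le S₁`.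
-/

set_option autoImplicit false

noncomputable section

namespace AGE

namespace WI

variable {V J : Type} [LinearOrder V] [LinearOrder J]

theorem spc_spec (f : (V → ℤ) → (J → ℤ)) (c : Cube V)
    (h : ∃ S₀ : Cube J, ∀ v, c.Has v → S₀.Has (f v)) :
    Spn f c = Faces (spc f c) ∧ ∀ v, c.Has v → (spc f c).Has (f v) := by
  obtain ⟨S₀, hS₀⟩ := h
  have hex : ∃ S : Cube J, Spn f c = Faces S ∧ ∀ v, c.Has v → S.Has (f v) := by
    obtain ⟨S, h1, _, h3⟩ := spn_eq f c S₀ hS₀
    exact ⟨S, h1, h3⟩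
  unfold spc
  rw [dif_pos hex]
  exact hex.choose_spec

theorem spc_le (f : (V → ℤ) → (J → ℤ)) (c : Cube V) (S : Cube J)
    (h : ∀ v, c.Has v → S.Has (f v)) : (spc f c).Le S := by
  have h1 : spc f c ∈ Spn f c := by
    rw [(spc_spec f c ⟨S, h⟩).1]
    exact Cube.le_refl' _
  exact spn_sub f c S h h1

theorem spc_mono (f : (V → ℤ) → (J → ℤ)) (c d : Cube V) (hd : d.Le c)
    (h : ∃ S₀ : Cube J, ∀ v, c.Has v → S₀.Has (f v)) : (spc f d).Le (spc f c) := by
  apply spc_le
  intro v hv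
  exact (spc_spec f c h).2 v (Cube.has_of_le hd hv)

theorem spc_act (τV : Equiv.Perm V) (τJ : Equiv.Perm J) (f : (V → ℤ) → (J → ℤ))
    (hf : Equi τV τJ f) (c : Cube V) (h : ∃ S₀ : Cube J, ∀ v, c.Has v → S₀.Has (f v)) :
    spc f (c.act τV) = (spc f c).act τJ := by
  have hact : ∀ P : Cube J, (P.act τJ⁻¹).act τJ = P := by
    intro P
    rw [← Cube.act_mul, mul_inv_cancel, Cube.act_one']
  have h1 := spc_spec f c h
  have h' : ∃ S₀ : Cube J, ∀ v, (c.act τV).Has v → S₀.Has (f v) := by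
    refine ⟨(spc f c).act τJ, ?_⟩
    intro v hv
    have e : v = actP τV (actP τV⁻¹ v) := by
      rw [← actP_mul, mul_inv_cancel, actP_one]
    rw [e] at hv ⊢
    rw [hf, Cube.act_has]
    exact h1.2 _ ((Cube.act_has τV c _).1 hv)
  have h2 := spc_spec f (c.act τV) h'
  apply Cube.le_antisymm'
  · have m : spc f (c.act τV) ∈ Spn f (c.act τV) := by
      rw [h2.1]
      exact Cube.le_refl' _
    rw [← hact (spc f (c.act τV))] at m
    rw [← hact (spc f (c.act τV)), Cube.act_le]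
    have m2 := (spn_act τV τJ f hf c _).2 m
    rw [h1.1] at m2
    exact m2
  · have m : spc f c ∈ Spn f c := by
      rw [h1.1]
      exact Cube.le_refl' _
    have m2 := (spn_act τV τJ f hf c _).1 m
    rw [h2.1] at m2
    exact m2

end WI

end AGE
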