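import Pool.Agent.AGE.WDefs2
import Pool.Agent.AGE.WT0
import Pool.Agent.AGE.C9

/-!
# AGE-WTY: the types of the wires
-/

set_option autoImplicit false

noncomputable section

namespace AGE

namespace WI

variable {V J : Type} [LinearOrder V] [LinearOrder J]

private theorem faces_finite (G : Cube J) : {κ : Cube J | κ.Le G}.Finite := by
  classical
  refine Set.Finite.of_injOn (f := fun κ : Cube J =>
      (κ.fr, G.fr.filter (fun j => κ.lo j = G.lo j + 1)))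
    (t := (↑(G.fr.powerset ×ˢ G.fr.powerset) : Set (Finset J × Finset J))) ?_ ?_
    (Finset.finite_toSet _)
  · intro κ hκ
    simp only [Finset.coe_product, Set.mem_prod, Finset.mem_coe, Finset.mem_powerset]
    exact ⟨Cube.fr_subset hκ, Finset.filter_subset _ _⟩
  · intro κ hκ κ' hκ' h
    have h1 : κ.fr = κ'.fr := congrArg Prod.fst h
    have h2 : G.fr.filter (fun j => κ.lo j = G.lo j + 1) =
        G.fr.filter (fun j => κ'.lo j = G.lo j + 1) := congrArg Prod.snd h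
    ext1
    · funext j
      have a1 := hκ j
      have a2 := hκ' j
      have b1 : κ.lo j ≤ κ.hi j := by unfold Cube.hi; split_ifs <;> omega
      have b2 : κ'.lo j ≤ κ'.hi j := by unfold Cube.hi; split_ifs <;> omega
      by_cases hj : j ∈ G.fr
      · have hG : G.hi j = G.lo j + 1 := if_pos hj
        rw [hG] at a1 a2
        have h3 : (j ∈ G.fr.filter (fun j => κ.lo j = G.lo j + 1)) ↔
            (j ∈ G.fr.filter (fun j => κ'.lo j = G.lo j + 1)) := by rw [h2]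
        simp only [Finset.mem_filter, hj, true_and] at h3
        by_cases h4 : κ.lo j = G.lo j + 1
        · rw [h4, h3.1 h4]
        · have h5 : κ'.lo j ≠ G.lo j + 1 := fun h => h4 (h3.2 h)
          omega
      · have hG : G.hi j = G.lo j := if_neg hj
        rw [hG] at a1 a2
        omega
    · exact h1

theorem ty_exists {N : ℕ} (n : ℕ) (K : Set (Cube V)) (τV : Equiv.Perm V)
    (τJ : Equiv.Perm J) (hK : Src n N K τV) (hJ : τJ ^ N = 1)
    (C : Cube V → Set (Cube J)) (hC : Car K C τV τJ)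
    (M₃ : ℕ) (hM₃ : 0 < M₃) (F : (V → ℤ) → (J → ℤ))
    (hF1 : ∀ c ∈ K, ∀ Q : Cube V, Q.InM M₃ c →
      ∃ S ∈ C c, S.dim ≤ Q.dim ∧ ∀ v, Q.Has v → S.Has (F v))
    (φ lam nu xi : Ch V →ₗ[ℤ] Ch J) (hD : Dat n K C τV τJ φ lam nu xi) :
    ∃ Ty : Set (Cube J), TyOk n τJ Ty ∧
      (∀ c ∈ K, ∀ Q : Cube V, Q.InM M₃ c → Q.dim = n + 1 →
        (∃ S : Cube J, S.dim ≤ n ∧ ∀ v, Q.Has v → S.Has (F v)) ∨
        ∃ σ ∈ Ty, σ ∈ C c ∧ σ.dim = n + 1 ∧ ∀ v, Q.Has v → σ.Has (F v)) ∧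
      (∀ e ∈ K, e.dim = n → ∀ P : Cube J,
        P ∈ (lam (one e)).support ∨ P ∈ (xi (one e)).support → P ∈ Ty ∧ P ∈ C e) ∧
      (∀ U ∈ K, U.dim = n + 1 → ∀ P ∈ (nu (one U)).support,
        P ∈ Ty ∧ P ∈ C U ∧ P.dim = n + 2) := by
  classical
  set Gen : Set (Cube J) := (⋃ c ∈ K, ((lam (one c)).support : Set (Cube J))) ∪
    (⋃ c ∈ K, ((xi (one c)).support : Set (Cube J))) ∪
    (⋃ c ∈ K, ((nu (one c)).support : Set (Cube J))) ∪ (spc F '' Grd M₃ K) with hGen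
  have hGf : Gen.Finite := by
    refine Set.Finite.union (Set.Finite.union (Set.Finite.union ?_ ?_) ?_) ?_
    · exact hK.fin.biUnion fun c _ => Finset.finite_toSet _
    · exact hK.fin.biUnion fun c _ => Finset.finite_toSet _
    · exact hK.fin.biUnion fun c _ => Finset.finite_toSet _
    · exact (src_grd M₃ hM₃ K τV hK).fin.image _
  set Ty : Set (Cube J) := {κ | (n + 1 ≤ κ.dim ∧ κ.dim ≤ n + 2) ∧
    ∃ G ∈ Gen, ∃ a : ℕ, κ.Le (G.act (τJ ^ a))} with hTy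
  have hpow : ∀ a : ℕ, τJ ^ a = τJ ^ (a % N) := by
    intro a
    conv_lhs => rw [← Nat.div_add_mod a N, pow_add, pow_mul, hJ, one_pow, one_mul]
  have hgen : ∀ P : Cube J, P ∈ Gen → n + 1 ≤ P.dim → P.dim ≤ n + 2 → P ∈ Ty := by
    intro P hP h1 h2
    refine ⟨⟨h1, h2⟩, P, hP, 0, ?_⟩
    rw [pow_zero, Cube.act_one']
    exact Cube.le_refl' P
  have hsup : ∀ (x : Ch J) (A : Set (Cube J)) (i : ℕ), x ∈ CC A i → ∀ P ∈ x.support,
      P ∈ A ∧ P.dim = i := by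
    intro x A i hx P hP
    exact (Finsupp.mem_supported _ _).1 hx hP
  refine ⟨Ty, ⟨?_, ?_, fun κ hκ => hκ.1, ?_⟩, ?_, ?_, ?_⟩
  · refine Set.Finite.subset (s := ⋃ G ∈ Gen, ⋃ a ∈ Finset.range N,
        {κ : Cube J | κ.Le (G.act (τJ ^ a))}) ?_ ?_
    · refine hGf.biUnion fun G _ => ?_
      exact (Finset.finite_toSet (Finset.range N)).biUnion fun a _ => faces_finite _
    · rintro κ ⟨_, G, hG, a, ha⟩
      simp only [Set.mem_iUnion, Finset.mem_range]
      refine ⟨G, hG, a % N, Nat.mod_lt _ hK.pos, ?_⟩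
      rw [hpow a] at ha
      exact ha
  · intro κ
    constructor
    · rintro ⟨⟨h1, h2⟩, G, hG, a, ha⟩
      refine ⟨⟨by rw [Cube.act_dim]; exact h1, by rw [Cube.act_dim]; exact h2⟩, G, hG, a + 1, ?_⟩
      rw [pow_succ', Cube.act_mul, Cube.act_le]
      exact ha
    · rintro ⟨⟨h1, h2⟩, G, hG, a, ha⟩
      rw [Cube.act_dim] at h1 h2
      refine ⟨⟨h1, h2⟩, G, hG, N - 1 + a, ?_⟩
      rw [← Cube.act_le τJ, ← Cube.act_mul, ← pow_succ']
      have : N - 1 + a + 1 = N + a := by have := hK.pos; omega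
      rw [this, pow_add, hJ, one_mul]
      exact ha
  · rintro κ ⟨⟨_, h2⟩, G, hG, a, ha⟩ σ hσ h3
    exact ⟨⟨h3, (Cube.le_dim hσ).trans h2⟩, G, hG, a, Cube.le_trans' hσ ha⟩
  · intro c hc Q hQ hd
    by_cases h : ∃ S : Cube J, S.dim ≤ n ∧ ∀ v, Q.Has v → S.Has (F v)
    · exact Or.inl h
    · right
      obtain ⟨S, hS1, hS2, hS3⟩ := hF1 c hc Q hQ
      have hsp := spc_spec F Q ⟨S, hS3⟩
      have hle := spc_le F Q S hS3
      have hdim : (spc F Q).dim = n + 1 := by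
        have h1 := Cube.le_dim hle
        by_contra h2
        exact h ⟨spc F Q, by omega, hsp.2⟩
      refine ⟨spc F Q, hgen _ ?_ hdim.ge (by omega), hC.clo c hc S hS1 _ hle, hdim, hsp.2⟩
      exact Or.inr ⟨Q, ⟨c, hc, hQ⟩, rfl⟩
  · intro e he hd P hP
    rcases hP with hP | hP
    · obtain ⟨h1, h2⟩ := hsup _ _ _ (hD.laC e he hd) P hP
      refine ⟨hgen P ?_ h2.ge (by omega), h1⟩
      exact Or.inl (Or.inl (Or.inl (Set.mem_biUnion he hP)))
    · obtain ⟨h1, h2⟩ := hsup _ _ _ (hD.xiC e he hd) P hP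
      refine ⟨hgen P ?_ (by omega) h2.le, h1⟩
      exact Or.inl (Or.inl (Or.inr (Set.mem_biUnion he hP)))
  · intro U hU hd P hP
    obtain ⟨h1, h2⟩ := hsup _ _ _ (hD.nuC U hU hd) P hP
    refine ⟨hgen P ?_ (by omega) h2.le, h1, h2⟩
    exact Or.inl (Or.inr (Set.mem_biUnion hU hP))

end WI

end AGE
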