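import Pool.Agent.AGE.WT3
import Pool.Agent.AGE.WI5
import Pool.Agent.AGE.C6b
import Pool.Agent.AGE.C9
import Pool.Agent.AGE.WGL
import Pool.Agent.AGE.WTY

/-!
# Project AGE, layer WIR: wires (main statement; see section 5 of the blueprint)
-/

set_option autoImplicit false

noncomputable section

namespace AGE

variable {V J : Type} [LinearOrder V] [LinearOrder J]

open WI in
theorem wir {N : ℕ} [Fintype V] (n : ℕ) (hn : 2 ≤ n) (K : Set (Cube V)) (τV : Equiv.Perm V)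
    (τJ : Equiv.Perm J) (hK : Src n N K τV) (hJ : τJ ^ N = 1)
    (C : Cube V → Set (Cube J)) (hC : Car K C τV τJ)
    (hR : ∀ c ∈ K, n ≤ c.dim → CTR (C c))
    (M₃ : ℕ) (hM₃ : 0 < M₃) (F : (V → ℤ) → (J → ℤ)) (hF : Equi τV τJ F)
    (hF1 : ∀ c ∈ K, ∀ Q : Cube V, Q.InM M₃ c →
      ∃ S ∈ C c, S.dim ≤ Q.dim ∧ ∀ v, Q.Has v → S.Has (F v))
    (Fp : Ch V →ₗ[ℤ] Ch J) (hFp : Push (Grd M₃ K) (Spn F) F Fp)
    (lam nu xi : Ch V →ₗ[ℤ] Ch J) (hD : Dat n K C τV τJ (Fp ∘ₗ sub M₃) lam nu xi) :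
    ∃ (M₂ : ℕ) (f : (V → ℤ) → (J → ℤ)) (s : Cube V → Cube J) (φ' lam' nu' xi' : Ch V →ₗ[ℤ] Ch J),
      0 < M₂ ∧ Equi τV τJ f ∧
      (∀ c ∈ K, ∀ Q : Cube V, Q.InM M₂ c → s Q ∈ C c) ∧
      (∀ Q ∈ Grd M₂ K, (s Q).dim ≤ n + 2) ∧
      (∀ Q ∈ Grd M₂ K, ∀ P : Cube V, P.Le Q → (s P).Le (s Q)) ∧
      (∀ Q ∈ Grd M₂ K, s (Q.act τV) = (s Q).act τJ) ∧
      (∀ Q ∈ Grd M₂ K, ∀ v, Q.Has v → (s Q).Has (f v)) ∧
      Dat n (Grd M₂ K) (fun Q => Faces (s Q)) τV τJ φ' lam' nu' xi' := by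
  obtain ⟨Ty, hT, hT1, hT2, hT3⟩ := ty_exists n K τV τJ hK hJ C hC M₃ hM₃ F hF1 (Fp ∘ₗ sub M₃)
    lam nu xi hD
  obtain ⟨M, f, R, hM, hW, g1, g2, h3⟩ := wgl n hn K τV τJ hK hJ C hC hR Ty hT M₃ hM₃ F hF hF1
    hT1 Fp hFp
  have h1 : ∀ e ∈ K, e.dim = n → ∀ P : Cube J,
      P ∈ (lam (one e)).support ∨ P ∈ (xi (one e)).support →
      ∃ x κ, InB M e x ∧ R x κ ∧ P.Le κ := by
    intro e he hd P hP
    obtain ⟨hP1, hP2⟩ := hT2 e he hd P hP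
    obtain ⟨x, hx1, hx2⟩ := g2 e he hd P hP1 hP2
    exact ⟨x, P, hx1, hx2, Cube.le_refl' P⟩
  have h2 : ∀ U ∈ K, U.dim = n + 1 → ∀ P ∈ (nu (one U)).support,
      ∃ x κ, InB M U x ∧ R x κ ∧ P.Le κ := by
    intro U hU hd P hP
    obtain ⟨hP1, hP2, hP3⟩ := hT3 U hU hd P hP
    obtain ⟨x, hx1, hx2⟩ := g1 U hU hd P hP1 hP2 hP3
    exact ⟨x, P, hx1, hx2, Cube.le_refl' P⟩
  have hSrc : Src n N (Grd M K) τV := src_grd M hM K τV hK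
  have hvm : VMap (Grd M K) Set.univ f := by
    intro Q hQ
    obtain ⟨c, hc, hQc⟩ := hQ
    obtain ⟨S, _, _, hS⟩ := hW.vmp c hc Q hQc
    exact ⟨S, Set.mem_univ _, hS⟩
  obtain ⟨φ', hφ', hφe⟩ := push_exists_equi (Grd M K) τV τJ hSrc hJ f hvm hW.equ
  have hsub : ∀ Q ∈ Grd M K, Spn f Q ⊆ Faces (ctl f R Q) := fun Q hQ =>
    spn_sub f Q _ (ctl_has hW Q hQ)
  have hCar : Car (Grd M K) (fun Q => Faces (ctl f R Q)) τV τJ := by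
    refine ⟨fun c _ => closed_faces _, ?_, ?_⟩
    · intro c hc d hd P hP
      exact Cube.le_trans' hP (ctl_mono hW c hc d hd)
    · intro c hc Q
      show Q.Le (ctl f R c) ↔ (Q.act τJ).Le (ctl f R (c.act τV))
      rw [ctl_act hK hJ hW c hc, Cube.act_le]
  have hDR : DatR n K (fun _ => Set.univ) τV τJ (Fp ∘ₗ sub M₃) lam nu xi :=
    ⟨fun c hc hd => CC_mono (Set.subset_univ _) _ (hD.laC c hc hd),
      fun c hc hd => CC_mono (Set.subset_univ _) _ (hD.nuC c hc hd),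
      fun c hc hd => CC_mono (Set.subset_univ _) _ (hD.xiC c hc hd), hD.eqE, hD.eqI⟩
  obtain ⟨lam', nu', xi', hD'⟩ := hom n K τV τJ hK M hM (fun Q => Faces (ctl f R Q)) hCar φ'
    (Fp ∘ₗ sub M₃) lam nu xi hDR
    (fun u hu hd => by
      have := CC_mono (hsub u hu) _ (hφ'.car u hu)
      rw [hd] at this
      exact this)
    (fun c hc hd => h3 φ' hφ' c hc hd)
    (fun e he hd P hP => by
      obtain ⟨x, κ, hx, hRx, hPκ⟩ := h1 e he hd P hP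
      obtain ⟨v, hv1, hv2, hv3⟩ := ctl_place hM hK hW e he x hx κ hRx P hPκ
      exact ⟨v, hv1.trans hd, hv2, hv3⟩)
    (fun U hU hd P hP => by
      obtain ⟨x, κ, hx, hRx, hPκ⟩ := h2 U hU hd P hP
      obtain ⟨v, hv1, hv2, hv3⟩ := ctl_place hM hK hW U hU x hx κ hRx P hPκ
      exact ⟨v, hv1.trans hd, hv2, hv3⟩)
    (fun U hU hd P hP => ctl_cnn hM hK hW U hU hd P hP)
  refine ⟨M, f, ctl f R, φ', lam', nu', xi', hM, hW.equ, ctl_mem hC hW, ctl_dim hW, ctl_mono hW,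
    ctl_act hK hJ hW, ctl_has hW, ?_⟩
  refine ⟨fun c hc => CC_mono (hsub c hc) _ (hφ'.car c hc), fun c hc => hφ'.chn c hc, ?_, hφe,
    hD'.laC, hD'.nuC, hD'.xiC, hD'.eqE, hD'.eqI⟩
  intro c hc hd
  have hc0 : c = pt c.lo := by
    ext1
    · rfl
    · exact Finset.card_eq_zero.1 hd
  rw [hc0] at hc ⊢
  rw [hφ'.vtx _ hc, eps_pt]

end AGE
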