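import Pool.Agent.AGE.ASM12
import Pool.Agent.AGE.ASM13
import Pool.Agent.AGE.C10
import Pool.Agent.AGE.WIR

/-!
# Project AGE, layer ASM: step B (subdivision of a state)

The target of a state is replaced by a part of its `M₁`-fold subdivision: `asm_B` (chains),
`wir` (wires), `mk_state`.
-/

set_option autoImplicit false

noncomputable section

namespace AGE

variable {V J : Type} [LinearOrder V] [LinearOrder J]

theorem stepB (p n : ℕ) [Fact p.Prime] (hn : 2 ≤ n) {X : Type} [TopologicalSpace X]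
    {τX : X → X} {q : ℕ} {τJ : Equiv.Perm J} (A : St p n X τX q J τJ) (M₁ : ℕ) (hM₁ : 0 < M₁) :
    ∃ B : St p n X τX q J τJ, B.T ⊆ Grd M₁ A.T ∧
      ∀ x j, |B.F x j / (M₁ : ℝ) - A.F x j| ≤ 1 := by
  have hK := src_grd_box A.S A.τV A.col A.hcol A.Ms A.hMs
  obtain ⟨hC, M₃, F', Fp, lam', nu', xi', hM₃, hF', hcel, hFp, hD⟩ :=
    asm_B (Grd A.Ms (Box A.S)) A.τV τJ hK (fun i a h => (A.hcol.fre i a).1 h) A.hJ A.f A.hf A.s
      A.smon A.sequ A.shas A.φ A.lam A.nu A.xi A.dat M₁ hM₁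
  obtain ⟨M₂, f, s, φ2, lam2, nu2, xi2, hM₂, hf, hs1, hs2, hs3, hs4, hs5, hD2⟩ :=
    wir n hn (Grd A.Ms (Box A.S)) A.τV τJ hK A.hJ _ hC (fun c _ _ => ctr_grd M₁ hM₁ (A.s c))
      M₃ hM₃ F' hF' hcel Fp hFp lam' nu' xi' hD
  obtain ⟨B, hT, hF⟩ := mk_state p n τX q τJ A.hJ A.τV A.col A.S A.hcol A.Ms M₂ A.hMs hM₂ A.κ
    A.hκc A.hκe A.hκb f hf s hs2 hs3 hs4 hs5 φ2 lam2 nu2 xi2 hD2
  refine ⟨B, ?_, ?_⟩
  · intro P hP
    obtain ⟨Q, ⟨c, hc, hQc⟩, hPQ⟩ := hT P hP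
    have h1 : s Q ∈ Grd M₁ (Faces (A.s c)) := hs1 c hc Q hQc
    have h2 : P ∈ Grd M₁ (Faces (A.s c)) := closed_grd M₁ _ _ h1 P hPQ
    obtain ⟨R, hR, hPR⟩ := h2
    exact ⟨R, A.Tclo _ (A.sT c hc) R hR, hPR⟩
  · intro x j
    obtain ⟨c, hc, hx⟩ := A.hκb x
    obtain ⟨Q, hQ, hBF⟩ := hF x c hc hx
    have hAF := A.F_body x c hc hx
    obtain ⟨R, hR, hQR⟩ := hs1 c hc Q hQ
    have hM : (0 : ℝ) < (M₁ : ℝ) := by exact_mod_cast hM₁
    have h1 := hBF j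
    have h2 := hAF j
    have h3 := hQR j
    have h4 := hR j
    have h5 : ((M₁ : ℝ)) * (R.lo j : ℝ) ≤ ((s Q).lo j : ℝ) := by exact_mod_cast h3.1
    have h6 : ((s Q).hi j : ℝ) ≤ ((M₁ : ℝ)) * (R.hi j : ℝ) := by exact_mod_cast h3.2
    have h7 : ((A.s c).lo j : ℝ) ≤ (R.lo j : ℝ) := by exact_mod_cast h4.1
    have h8 : (R.hi j : ℝ) ≤ ((A.s c).hi j : ℝ) := by exact_mod_cast h4.2
    have h9 : ((A.s c).hi j : ℝ) ≤ ((A.s c).lo j : ℝ) + 1 := by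
      have : (A.s c).hi j ≤ (A.s c).lo j + 1 := by
        unfold Cube.hi
        split_ifs <;> omega
      exact_mod_cast this
    have h10 : ((A.s c).lo j : ℝ) ≤ B.F x j / (M₁ : ℝ) := by
      rw [le_div_iff₀ hM]
      nlinarith [h1.1]
    have h11 : B.F x j / (M₁ : ℝ) ≤ ((A.s c).hi j : ℝ) := by
      rw [div_le_iff₀ hM]
      nlinarith [h1.2]
    rw [abs_le]
    constructor <;> linarith [h2.1, h2.2]

end AGE
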