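import Pool.Agent.AGE.Defs

/-!
# Project AGE, module LIM2: bodies of finite complexes

Three elementary facts, all from the definitions `Cube.body`, `Body`, `Sk`, `Cube.hi`:
(1) the body of a finite set of cubes is closed in the product topology (finite union of sets
    `{x | ∀ j, lo j ≤ x j ∧ x j ≤ hi j}`, each an intersection of closed sets);
(2) `Sk n T ⊆ T`, so `Body (Sk n T) ⊆ Body T`;
(3) a point of `Body (Sk n T)` has at most `n` non-integral coordinates: for `x ∈ Q.body` and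
    `j ∉ Q.fr`: `Q.hi j = Q.lo j`, so `x j = Q.lo j`; take `s = Q.fr`;
(4) if every cube `Q'` of `T'` lies over a cube `Q ∈ T` of dimension at most `n` in the sense of
    `ha`, then `y ∈ Body T'` implies `(y (e j) / M)_j ∈ Body (Sk n T)`
    (`y ∈ Q'.body`: `M * Q.lo j ≤ Q'.lo (e j) ≤ y (e j) ≤ Q'.hi (e j) ≤ M * Q.hi j`, divide by
    `M > 0`; casts of integers to reals).
-/

set_option autoImplicit false

noncomputable section

namespace AGE

theorem lim2a {J : Type} [LinearOrder J] (T : Set (Cube J)) (hT : T.Finite) :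
    IsClosed (Body T) := by
  have h1 : Body T = ⋃ Q ∈ T, Q.body := by
    ext x
    simp only [Body, Set.mem_ofPred_eq, Set.mem_iUnion, exists_prop]
  rw [h1]
  refine hT.isClosed_biUnion fun Q _ => ?_
  have h2 : Q.body = ⋂ j, {x : J → ℝ | (Q.lo j : ℝ) ≤ x j ∧ x j ≤ (Q.hi j : ℝ)} := by
    ext x
    simp only [Cube.body, Set.mem_ofPred_eq, Set.mem_iInter]
  rw [h2]
  refine isClosed_iInter fun j => ?_
  exact (isClosed_le continuous_const (continuous_apply j)).inter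
    (isClosed_le (continuous_apply j) continuous_const)

theorem lim2b {J : Type} [LinearOrder J] (n : ℕ) (T : Set (Cube J)) :
    Body (Sk n T) ⊆ Body T := by
  rintro x ⟨Q, hQ, hx⟩
  exact ⟨Q, hQ.1, hx⟩

theorem lim2c {J : Type} [LinearOrder J] (n : ℕ) (T : Set (Cube J)) (x : J → ℝ)
    (hx : x ∈ Body (Sk n T)) : ∃ s : Finset J, s.card ≤ n ∧ ∀ j, j ∉ s → ∃ w : ℤ, x j = w := by
  obtain ⟨Q, hQ, hx⟩ := hx
  refine ⟨Q.fr, hQ.2, fun j hj => ⟨Q.lo j, ?_⟩⟩
  have h1 : Q.hi j = Q.lo j := if_neg hj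
  have h2 := hx j
  rw [h1] at h2
  exact le_antisymm h2.2 h2.1

theorem lim2d {J J' : Type} [LinearOrder J] [LinearOrder J'] (n M : ℕ) (hM : 0 < M)
    (T : Set (Cube J)) (T' : Set (Cube J')) (e : J → J')
    (ha : ∀ Q' ∈ T', ∃ Q ∈ T, Q.dim ≤ n ∧ ∀ j,
      (M : ℤ) * Q.lo j ≤ Q'.lo (e j) ∧ Q'.hi (e j) ≤ (M : ℤ) * Q.hi j)
    (y : J' → ℝ) (hy : y ∈ Body T') : (fun j => y (e j) / (M : ℝ)) ∈ Body (Sk n T) := by
  obtain ⟨Q', hQ', hy⟩ := hy
  obtain ⟨Q, hQ, hd, h⟩ := ha Q' hQ'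
  refine ⟨Q, ⟨hQ, hd⟩, fun j => ?_⟩
  have hM' : (0 : ℝ) < (M : ℝ) := by exact_mod_cast hM
  have h1 : (M : ℝ) * (Q.lo j : ℝ) ≤ (Q'.lo (e j) : ℝ) := by exact_mod_cast (h j).1
  have h2 : (Q'.hi (e j) : ℝ) ≤ (M : ℝ) * (Q.hi j : ℝ) := by exact_mod_cast (h j).2
  have h3 := hy (e j)
  constructor
  · rw [le_div_iff₀ hM', mul_comm]
    exact h1.trans h3.1
  · rw [div_le_iff₀ hM', mul_comm]
    exact h3.2.trans h2

end AGE
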