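import Pool.Agent.AGE.LIM5

/-!
# Project AGE, module LIM4: the quotient with its action

Plan. `Y := Set.range Z` (subtype of `P`, subspace topology; `Set.range Z` is in `Type`),
`ι := Subtype.val`, `f x := ⟨Z x, x, rfl⟩`. `Y` is T2 (subtype), compact (`isCompact_range`,
`isCompact_iff_compactSpace`), metrizable by `lim5 f`. Action: `g • y := f (g • x)` for a chosen
`x` with `f x = y` (`Classical.choose`); by `hZe` `f (g • x) = g • f x` for every `x`; `one_smul`
and `mul_smul` follow (surjectivity of `f`). Continuity of `G × Y → Y`: the map
`Prod.map id f : G × X → G × Y` is surjective, continuous and closed (`Continuous.isProperMap`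
for `f`: compact to T2, `isProperMap_id`, `IsProperMap.prodMap`, `IsProperMap.isClosedMap`), hence a
quotient map (`IsClosedMap.isQuotientMap`), and the composite `G × X → Y`, `(g, x) ↦ f (g • x)`
is continuous (`IsQuotientMap.continuous_iff`).
-/

set_option autoImplicit false

noncomputable section

namespace AGE

open TopologicalSpace

theorem lim4 {G X P : Type} [Group G] [TopologicalSpace G] [TopologicalSpace X] [CompactSpace X]
    [MetrizableSpace X] [MulAction G X] [ContinuousSMul G X] [TopologicalSpace P] [T2Space P]
    (Z : X → P) (hZ : Continuous Z)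
    (hZe : ∀ (g : G) (x x' : X), Z x = Z x' → Z (g • x) = Z (g • x')) :
    ∃ (Y : Type) (_ : TopologicalSpace Y) (_ : CompactSpace Y) (_ : MetrizableSpace Y)
      (_ : MulAction G Y) (_ : ContinuousSMul G Y) (f : X → Y) (ι : Y → P),
      Continuous f ∧ Function.Surjective f ∧ Continuous ι ∧ Function.Injective ι ∧
        (∀ x, ι (f x) = Z x) ∧ ∀ (g : G) (x : X), f (g • x) = g • f x := by
  classical
  let f : X → Set.range Z := fun x => ⟨Z x, x, rfl⟩
  have hf : Continuous f := hZ.subtype_mk _
  have hs : Function.Surjective f := by
    rintro ⟨_, x, rfl⟩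
    exact ⟨x, rfl⟩
  have hc : CompactSpace (Set.range Z) := isCompact_iff_compactSpace.1 (isCompact_range hZ)
  have hm : MetrizableSpace (Set.range Z) := lim5 f hf hs
  have hfe : ∀ (g : G) (x x' : X), f x = f x' → f (g • x) = f (g • x') := by
    intro g x x' h
    exact Subtype.ext (hZe g x x' (congrArg Subtype.val h))
  obtain ⟨act, hact⟩ : ∃ act : G → Set.range Z → Set.range Z,
      ∀ (g : G) (x : X), act g (f x) = f (g • x) :=
    ⟨fun g y => f (g • (hs y).choose), fun g x => hfe g _ _ (hs (f x)).choose_spec⟩
  let M : MulAction G (Set.range Z) :=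
    { smul := act
      one_smul := by
        intro y
        obtain ⟨x, rfl⟩ := hs y
        show act 1 (f x) = f x
        rw [hact, one_smul]
      mul_smul := by
        intro g h y
        obtain ⟨x, rfl⟩ := hs y
        show act (g * h) (f x) = act g (act h (f x))
        rw [hact, hact, hact, mul_smul] }
  have hsm : ∀ (g : G) (x : X), f (g • x) = M.toSMul.smul g (f x) := fun g x => (hact g x).symm
  have hcs : @ContinuousSMul G (Set.range Z) M.toSMul _ _ := by
    refine @ContinuousSMul.mk G (Set.range Z) M.toSMul _ _ ?_
    have hp : IsProperMap (Prod.map (id : G → G) f) :=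
      isProperMap_id.prodMap hf.isProperMap
    have hq : Topology.IsQuotientMap (Prod.map (id : G → G) f) :=
      hp.isClosedMap.isQuotientMap (continuous_id.prodMap hf)
        (Function.surjective_id.prodMap hs)
    rw [hq.continuous_iff]
    have h2 : Continuous fun p : G × X => f (p.1 • p.2) := hf.comp continuous_smul
    exact h2.congr fun p => hsm p.1 p.2
  exact ⟨Set.range Z, inferInstance, hc, hm, M, hcs, f, Subtype.val, hf, hs,
    continuous_subtype_val, Subtype.val_injective, fun _ => rfl, hsm⟩

end AGE
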