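import Pool.Agent.AGE.Defs

/-!
# Project AGE, module LIM6: the covering dimension of the limit space

Compactness gives a level `m` and a finite set `D` of coordinates such that points which are
within `1` on `D` lie in a common member of the cover. The limit space is covered by the
preimages of the open unit cubes shifted by `c r = (r + 1) / (n + 2)`, `r ≤ n`.
-/

set_option autoImplicit false

noncomputable section

namespace AGE

private theorem LIM6_min {α : Type} (D : Finset α) (f : α → ℝ) (hf : ∀ d, 0 < f d) :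
    ∃ ε : ℝ, 0 < ε ∧ ∀ d ∈ D, ε ≤ f d := by
  classical
  induction D using Finset.induction_on with
  | empty => exact ⟨1, one_pos, fun d hd => absurd hd (Finset.notMem_empty d)⟩
  | insert a D ha ih =>
    obtain ⟨ε, h0, h1⟩ := ih
    refine ⟨min ε (f a), lt_min h0 (hf a), fun d hd => ?_⟩
    rcases Finset.mem_insert.1 hd with rfl | hd
    · exact min_le_right _ _
    · exact (min_le_left _ _).trans (h1 d hd)

/-- compactness -/
private theorem LIM6_cpt {Y : Type} [TopologicalSpace Y] [CompactSpace Y] {K : Type}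
    (ζ : Y → K → ℝ) (hc : Continuous ζ) (hi : Function.Injective ζ) {I : Type} (U : I → Set Y)
    (hU : ∀ i, IsOpen (U i)) (hc' : (⋃ i, U i) = Set.univ) :
    ∃ (D : Finset K) (ε : ℝ), 0 < ε ∧
      ∀ y, ∃ i, ∀ y', (∀ d ∈ D, |ζ y' d - ζ y d| < ε) → y' ∈ U i := by
  classical
  have hemb := hc.isClosedEmbedding hi
  have h1 : ∀ i, ∃ O : Set (K → ℝ), IsOpen O ∧ ζ ⁻¹' O = U i := fun i =>
    hemb.isInducing.isOpen_iff.1 (hU i)
  choose O hO hOU using h1
  have h2 : Set.range ζ ⊆ ⋃ i, O i := by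
    rintro _ ⟨y, rfl⟩
    have h3 : y ∈ ⋃ i, U i := by
      rw [hc']
      trivial
    obtain ⟨i, hi'⟩ := Set.mem_iUnion.1 h3
    rw [← hOU i] at hi'
    exact Set.mem_iUnion.2 ⟨i, hi'⟩
  obtain ⟨V, hV, h4⟩ := lebesgue_number_lemma (isCompact_range hc) hO h2
  rw [Pi.uniformity, Filter.mem_iInf'] at hV
  obtain ⟨T, hT, V', hV', _, hVV, _⟩ := hV
  have h5 : ∀ d, ∃ ε : ℝ, 0 < ε ∧ ∀ a b : K → ℝ, |b d - a d| < ε → (a, b) ∈ V' d := by
    intro d
    obtain ⟨W, hW, hWV⟩ := Filter.mem_comap.1 (hV' d)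
    obtain ⟨ε, hε, h6⟩ := Metric.mem_uniformity_dist.1 hW
    refine ⟨ε, hε, fun a b hab => hWV ?_⟩
    show (a d, b d) ∈ W
    apply h6
    rw [dist_comm, Real.dist_eq]
    exact hab
  choose ε hε h7 using h5
  obtain ⟨ε0, h8, h9⟩ := LIM6_min hT.toFinset ε hε
  refine ⟨hT.toFinset, ε0, h8, fun y => ?_⟩
  obtain ⟨i, hi'⟩ := h4 (ζ y) ⟨y, rfl⟩
  refine ⟨i, fun y' hy' => ?_⟩
  rw [← hOU i]
  apply hi'
  show (ζ y, ζ y') ∈ V
  rw [hVV]
  refine Set.mem_iInter₂.2 fun d hd => h7 d _ _ ?_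
  have hd' : d ∈ hT.toFinset := hT.mem_toFinset.2 hd
  exact (hy' d hd').trans_le (h9 d hd')

/-- one level up the differences are at least `8` times as large -/
private theorem LIM6_up {Y : Type} (J : ℕ → Type) (e : ∀ k, J k → J (k + 1)) (M : ℕ → ℕ)
    (hM : ∀ k, 8 ≤ M k) (Z : ∀ k, Y → J k → ℝ)
    (hZe : ∀ k y j, Z k y j = Z (k + 1) y (e k j) / (M k : ℝ)) (k : ℕ) (j : J k) (m : ℕ)
    (hm : k ≤ m) :
    ∃ j' : J m, ∀ y y', |Z k y j - Z k y' j| * 8 ^ (m - k) ≤ |Z m y j' - Z m y' j'| := by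
  induction m, hm using Nat.le_induction with
  | base =>
    refine ⟨j, fun y y' => ?_⟩
    rw [Nat.sub_self, pow_zero, mul_one]
  | succ m hm ih =>
    obtain ⟨j', h⟩ := ih
    refine ⟨e m j', fun y y' => ?_⟩
    have h1 := h y y'
    have hM' : (8 : ℝ) ≤ (M m : ℝ) := by exact_mod_cast hM m
    have h2 : Z (m + 1) y (e m j') - Z (m + 1) y' (e m j') =
        (M m : ℝ) * (Z m y j' - Z m y' j') := by
      rw [hZe m y j', hZe m y' j']
      have h3 : (M m : ℝ) ≠ 0 := by positivity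
      field_simp
    rw [h2, abs_mul, abs_of_pos (by linarith : (0 : ℝ) < M m), Nat.succ_sub hm, pow_succ]
    calc |Z k y j - Z k y' j| * (8 ^ (m - k) * 8) = 8 * (|Z k y j - Z k y' j| * 8 ^ (m - k)) := by
          ring
      _ ≤ 8 * |Z m y j' - Z m y' j'| := by
          exact mul_le_mul_of_nonneg_left h1 (by norm_num)
      _ ≤ (M m : ℝ) * |Z m y j' - Z m y' j'| :=
          mul_le_mul_of_nonneg_right hM' (abs_nonneg _)

/-- a level `m` and finitely many coordinates -/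
private theorem LIM6_lev {Y : Type} [TopologicalSpace Y] [CompactSpace Y] (J : ℕ → Type)
    (e : ∀ k, J k → J (k + 1)) (M : ℕ → ℕ) (hM : ∀ k, 8 ≤ M k) (Z : ∀ k, Y → J k → ℝ)
    (hZc : ∀ k, Continuous (Z k)) (hZi : ∀ y y', (∀ k, Z k y = Z k y') → y = y')
    (hZe : ∀ k y j, Z k y j = Z (k + 1) y (e k j) / (M k : ℝ)) {I : Type} (U : I → Set Y)
    (hU : ∀ i, IsOpen (U i)) (hc' : (⋃ i, U i) = Set.univ) :
    ∃ (m : ℕ) (D : Finset (J m)), ∀ y, ∃ i, ∀ y', (∀ j ∈ D, |Z m y' j - Z m y j| < 1) →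
      y' ∈ U i := by
  classical
  have h1 : Continuous (fun (y : Y) (d : Σ k, J k) => Z d.1 y d.2) :=
    continuous_pi fun d => (continuous_apply d.2).comp (hZc d.1)
  have h2 : Function.Injective (fun (y : Y) (d : Σ k, J k) => Z d.1 y d.2) := by
    intro y y' h
    refine hZi y y' fun k => ?_
    funext j
    exact congrFun h ⟨k, j⟩
  obtain ⟨D, ε, hε, h3⟩ := LIM6_cpt _ h1 h2 U hU hc'
  obtain ⟨t, ht⟩ := exists_pow_lt_of_lt_one hε (by norm_num : (1 / 8 : ℝ) < 1)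
  have h4 : ∀ d : {d // d ∈ D}, ∃ j' : J (D.sup Sigma.fst + t), ∀ y y',
      |Z d.1.1 y d.1.2 - Z d.1.1 y' d.1.2| * 8 ^ (D.sup Sigma.fst + t - d.1.1) ≤
        |Z (D.sup Sigma.fst + t) y j' - Z (D.sup Sigma.fst + t) y' j'| := by
    intro d
    have h5 : d.1.1 ≤ D.sup Sigma.fst := Finset.le_sup (f := Sigma.fst) d.2
    exact LIM6_up J e M hM Z hZe d.1.1 d.1.2 (D.sup Sigma.fst + t) (by omega)
  choose j' hj' using h4
  refine ⟨D.sup Sigma.fst + t, Finset.univ.image j', fun y => ?_⟩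
  obtain ⟨i, hi⟩ := h3 y
  refine ⟨i, fun y' hy' => hi y' fun d hd => ?_⟩
  have h6 := hj' ⟨d, hd⟩ y' y
  have h7 := hy' (j' ⟨d, hd⟩) (Finset.mem_image_of_mem _ (Finset.mem_univ _))
  have h5 : d.1 ≤ D.sup Sigma.fst := Finset.le_sup (f := Sigma.fst) hd
  have h8 : (8 : ℝ) ^ t ≤ 8 ^ (D.sup Sigma.fst + t - d.1) :=
    pow_le_pow_right₀ (by norm_num) (by omega)
  have h9 : |Z d.1 y' d.2 - Z d.1 y d.2| * 8 ^ t < 1 := by
    refine lt_of_le_of_lt ?_ h7
    exact (mul_le_mul_of_nonneg_left h8 (abs_nonneg _)).trans h6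
  have h10 : (1 : ℝ) < ε * 8 ^ t := by
    have h11 : (1 / 8 : ℝ) ^ t * 8 ^ t = 1 := by
      rw [← mul_pow]
      norm_num
    have h12 : (0 : ℝ) < 8 ^ t := by positivity
    calc (1 : ℝ) = (1 / 8 : ℝ) ^ t * 8 ^ t := h11.symm
      _ < ε * 8 ^ t := mul_lt_mul_of_pos_right ht h12
  have h13 : |Z d.1 y' d.2 - Z d.1 y d.2| * 8 ^ t < ε * 8 ^ t := h9.trans h10
  exact lt_of_mul_lt_mul_right h13 (by positivity)

private def LIM6_c (n : ℕ) (r : Fin (n + 1)) : ℝ := ((r : ℕ) + 1) / ((n : ℝ) + 2)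

private theorem LIM6_c_pos (n : ℕ) (r : Fin (n + 1)) : 0 < LIM6_c n r := by
  unfold LIM6_c
  positivity

private theorem LIM6_c_lt (n : ℕ) (r : Fin (n + 1)) : LIM6_c n r < 1 := by
  unfold LIM6_c
  rw [div_lt_one (by positivity)]
  have h1 : ((r : ℕ) : ℝ) ≤ n := by exact_mod_cast Nat.lt_succ_iff.1 r.2
  linarith

private theorem LIM6_c_inj (n : ℕ) (r r' : Fin (n + 1)) (w : ℤ)
    (h : LIM6_c n r - LIM6_c n r' = w) : r = r' := by
  have h1 := LIM6_c_pos n r
  have h2 := LIM6_c_lt n r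
  have h3 := LIM6_c_pos n r'
  have h4 := LIM6_c_lt n r'
  have h5 : (w : ℝ) < 1 := by linarith
  have h6 : (-1 : ℝ) < w := by linarith
  have h7 : w < 1 := by exact_mod_cast h5
  have h8 : -1 < w := by exact_mod_cast h6
  have h9 : w = 0 := by omega
  rw [h9, Int.cast_zero, sub_eq_zero] at h
  unfold LIM6_c at h
  have h10 : ((n : ℝ) + 2) ≠ 0 := by positivity
  rw [div_left_inj' h10] at h
  have h11 : ((r : ℕ) : ℝ) = ((r' : ℕ) : ℝ) := by linarith
  exact Fin.ext (by exact_mod_cast h11)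

/-- for some shift no coordinate is integral -/
private theorem LIM6_shift {K : Type} (n : ℕ) (x : K → ℝ) (s : Finset K) (hs : s.card ≤ n)
    (h : ∀ j, j ∉ s → ∃ w : ℤ, x j = w) :
    ∃ r : Fin (n + 1), ∀ j, ∀ w : ℤ, x j - LIM6_c n r ≠ w := by
  classical
  by_contra hcon
  push Not at hcon
  choose j w hw using hcon
  have h1 : ∀ r, j r ∈ s := by
    intro r
    by_contra hr
    obtain ⟨v, hv⟩ := h (j r) hr
    have h2 := hw r
    rw [hv] at h2
    have h3 : LIM6_c n r = ((v - w r : ℤ) : ℝ) := by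
      push_cast
      linarith
    have h4 := LIM6_c_pos n r
    have h5 := LIM6_c_lt n r
    rw [h3] at h4 h5
    have h6 : 0 < v - w r := by exact_mod_cast h4
    have h7 : v - w r < 1 := by exact_mod_cast h5
    omega
  have h2 : Function.Injective j := by
    intro r r' hrr
    have h3 := hw r
    have h4 := hw r'
    rw [← hrr] at h4
    refine LIM6_c_inj n r r' (w r' - w r) ?_
    push_cast
    linarith
  have h3 := Finset.card_le_card_of_injOn (s := (Finset.univ : Finset (Fin (n + 1)))) (t := s) j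
    (fun r _ => h1 r) (fun _ _ _ _ hrr => h2 hrr)
  rw [Finset.card_univ, Fintype.card_fin] at h3
  omega

theorem lim6 (n : ℕ) {Y : Type} [TopologicalSpace Y] [CompactSpace Y] (J : ℕ → Type)
    (e : ∀ k, J k → J (k + 1)) (M : ℕ → ℕ) (hM : ∀ k, 8 ≤ M k) (Z : ∀ k, Y → J k → ℝ)
    (hZc : ∀ k, Continuous (Z k)) (hZi : ∀ y y', (∀ k, Z k y = Z k y') → y = y')
    (hZe : ∀ k y j, Z k y j = Z (k + 1) y (e k j) / (M k : ℝ))
    (hn : ∀ k y, ∃ s : Finset (J k), s.card ≤ n ∧ ∀ j, j ∉ s → ∃ w : ℤ, Z k y j = w) :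
    CovDimLE Y n := by
  classical
  intro I _ U hU hcov
  obtain ⟨m, D, hD⟩ := LIM6_lev J e M hM Z hZc hZi hZe U hU hcov
  rcases isEmpty_or_nonempty Y with hY | hY
  · refine ⟨Empty, inferInstance, fun x => x.elim, fun x => x.elim, ?_, fun x => x.elim,
      fun b => hY.elim b⟩
    ext b
    exact hY.elim b
  have hcj : ∀ j, Continuous fun y => Z m y j := fun j => (continuous_apply j).comp (hZc m)
  obtain ⟨C, hC⟩ := isCompact_univ.exists_bound_of_continuousOn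
    (f := fun (y : Y) (j : {j // j ∈ D}) => Z m y j.1)
    (continuous_pi fun j : {j // j ∈ D} => hcj j.1).continuousOn
  obtain ⟨b, hb⟩ := exists_nat_ge C
  have hb' : ∀ y, ∀ j : {j // j ∈ D}, |Z m y j.1| ≤ b := by
    intro y j
    have h1 := hC y (Set.mem_univ y)
    have h2 := norm_le_pi_norm (fun j : {j // j ∈ D} => Z m y j.1) j
    rw [Real.norm_eq_abs] at h2
    exact h2.trans (h1.trans hb)
  have hfin : Finite ({j // j ∈ D} → {z : ℤ // z ∈ Finset.Icc (-(b : ℤ) - 2) (b + 2)}) :=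
    Pi.finite
  refine ⟨Fin (n + 1) × ({j // j ∈ D} → {z : ℤ // z ∈ Finset.Icc (-(b : ℤ) - 2) (b + 2)}),
    Finite.instProd, fun q => {y | ∀ j : {j // j ∈ D}, ((q.2 j).1 : ℝ) < Z m y j.1 - LIM6_c n q.1 ∧
      Z m y j.1 - LIM6_c n q.1 < ((q.2 j).1 : ℝ) + 1}, ?_, ?_, ?_, ?_⟩
  · rintro ⟨r, l⟩
    have h1 : {y | ∀ j : {j // j ∈ D}, ((l j).1 : ℝ) < Z m y j.1 - LIM6_c n r ∧
        Z m y j.1 - LIM6_c n r < ((l j).1 : ℝ) + 1} =
        ⋂ j : {j // j ∈ D}, {y | ((l j).1 : ℝ) < Z m y j.1 - LIM6_c n r ∧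
          Z m y j.1 - LIM6_c n r < ((l j).1 : ℝ) + 1} := by
      ext y
      simp only [Set.mem_iInter]
      rfl
    show IsOpen {y | ∀ j : {j // j ∈ D}, ((l j).1 : ℝ) < Z m y j.1 - LIM6_c n r ∧
        Z m y j.1 - LIM6_c n r < ((l j).1 : ℝ) + 1}
    rw [h1]
    refine isOpen_iInter_of_finite fun j => ?_
    exact (isOpen_lt continuous_const ((hcj j.1).sub continuous_const)).inter
      (isOpen_lt ((hcj j.1).sub continuous_const) continuous_const)
  · rw [Set.eq_univ_iff_forall]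
    intro y
    obtain ⟨s, hs, hs'⟩ := hn m y
    obtain ⟨r, hr⟩ := LIM6_shift n (Z m y) s hs hs'
    have hl : ∀ j : {j // j ∈ D}, ⌊Z m y j.1 - LIM6_c n r⌋ ∈
        Finset.Icc (-(b : ℤ) - 2) (b + 2) := by
      intro j
      have h1 := abs_le.1 (hb' y j)
      have h2 := LIM6_c_pos n r
      have h3 := LIM6_c_lt n r
      rw [Finset.mem_Icc]
      constructor
      · rw [Int.le_floor]
        push_cast
        linarith [h1.1]
      · have h4 : (⌊Z m y j.1 - LIM6_c n r⌋ : ℝ) ≤ Z m y j.1 - LIM6_c n r := Int.floor_le _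
        have h5 : (⌊Z m y j.1 - LIM6_c n r⌋ : ℝ) ≤ ((b + 2 : ℤ) : ℝ) := by
          push_cast
          linarith [h1.2]
        exact_mod_cast h5
    refine Set.mem_iUnion.2 ⟨(r, fun j => ⟨⌊Z m y j.1 - LIM6_c n r⌋, hl j⟩), fun j => ?_⟩
    exact ⟨lt_of_le_of_ne (Int.floor_le _) (fun h => hr j.1 _ h.symm), Int.lt_floor_add_one _⟩
  · rintro ⟨r, l⟩
    by_cases hne : ∃ y₀, ∀ j : {j // j ∈ D}, ((l j).1 : ℝ) < Z m y₀ j.1 - LIM6_c n r ∧
        Z m y₀ j.1 - LIM6_c n r < ((l j).1 : ℝ) + 1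
    · obtain ⟨y₀, hy₀⟩ := hne
      obtain ⟨i, hi⟩ := hD y₀
      refine ⟨i, fun y' hy' => hi y' fun j hj => ?_⟩
      have h1 := hy₀ ⟨j, hj⟩
      have h2 := hy' ⟨j, hj⟩
      rw [abs_lt]
      constructor <;> linarith [h1.1, h1.2, h2.1, h2.2]
    · obtain ⟨y⟩ := hY
      obtain ⟨i, _⟩ := hD y
      exact ⟨i, fun y' hy' => absurd ⟨y', hy'⟩ hne⟩
  · intro y
    have h1 : {q : Fin (n + 1) ×
        ({j // j ∈ D} → {z : ℤ // z ∈ Finset.Icc (-(b : ℤ) - 2) (b + 2)}) |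
        y ∈ {y | ∀ j : {j // j ∈ D}, ((q.2 j).1 : ℝ) < Z m y j.1 - LIM6_c n q.1 ∧
          Z m y j.1 - LIM6_c n q.1 < ((q.2 j).1 : ℝ) + 1}}.ncard ≤
        (Set.univ : Set (Fin (n + 1))).ncard := by
      refine Set.ncard_le_ncard_of_injOn Prod.fst (fun _ _ => Set.mem_univ _) ?_ Set.finite_univ
      rintro ⟨r, l⟩ h ⟨r', l'⟩ h' (hrr : r = r')
      subst hrr
      refine Prod.ext rfl ?_
      funext j
      have h2 := h j
      have h3 := h' j
      have h4 : ((l j).1 : ℝ) < ((l' j).1 : ℝ) + 1 := by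
        have := h2.1
        have := h3.2
        dsimp only at *
        linarith
      have h5 : ((l' j).1 : ℝ) < ((l j).1 : ℝ) + 1 := by
        have := h3.1
        have := h2.2
        dsimp only at *
        linarith
      have h6 : (l j).1 < (l' j).1 + 1 := by exact_mod_cast h4
      have h7 : (l' j).1 < (l j).1 + 1 := by exact_mod_cast h5
      have h8 : (l j).1 = (l' j).1 := by omega
      exact Subtype.ext h8
    rw [Set.ncard_univ, Nat.card_fin] at h1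
    exact h1

end AGE
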