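import Pool.Agent.AGE.ASMA
import Pool.Agent.AGE.ASMB
import Pool.Agent.AGE.ASM15
import Pool.Agent.AGE.ASM16
import Pool.Agent.AGE.LIM

/-!
# Project AGE: the recursion and the main theorem

`pack_next`: one step of the construction (step A, then step B with factor `8`);
`main`: a compact metrizable free `ℤ_p`-space `X` with orbit space of dimension at most `n + 1`,
`n ≥ 2`, has a continuous equivariant map onto a compact metrizable free `ℤ_p`-space of
dimension at most `n`.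
-/

set_option autoImplicit false

noncomputable section

namespace AGE

open TopologicalSpace

theorem pack_next (p : ℕ) [Fact p.Prime] (n : ℕ) (hn : 2 ≤ n) {X : Type} [TopologicalSpace X]
    [CompactSpace X] [MetrizableSpace X] [MulAction (Multiplicative ℤ_[p]) X]
    [ContinuousSMul (Multiplicative ℤ_[p]) X]
    (hfree : ∀ (g : Multiplicative ℤ_[p]) (x : X), g • x = x → g = 1)
    (hdim : CovDimLE (Quotient (MulAction.orbitRel (Multiplicative ℤ_[p]) X)) (n + 1))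
    (P : Pack p n X (fun x => Multiplicative.ofAdd (1 : ℤ_[p]) • x)) :
    ∃ (P' : Pack p n X (fun x => Multiplicative.ofAdd (1 : ℤ_[p]) • x)) (e : P.J → P'.J),
      Nxt P P' e := by
  haveI : NeZero (p ^ P.q) := ⟨pow_ne_zero _ (Fact.out : p.Prime).ne_zero⟩
  obtain ⟨q', hq1, hq2, B, hBT, hBS, hBF⟩ := stepA p n hn hfree hdim P.A (P.q + 1)
  obtain ⟨C, hCT, hCF⟩ := stepB p n hn B 8 (by norm_num)
  refine ⟨⟨q', JJ (p ^ P.q) P.J, inferInstance, jjp (p ^ P.q) P.τJ, C⟩, JJ.a 0, ?_, ?_, ?_, ?_,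
    ?_⟩
  · exact hq1
  · intro i j h
    have h' : (JJ.a 0 i : JJ (p ^ P.q) P.J) = JJ.a 0 j := h
    rw [JJ.a.injEq] at h'
    exact h'.2
  · intro Q' hQ'
    obtain ⟨R, hR, hQR⟩ := hCT hQ'
    obtain ⟨Q, hQ, hQd, hRQ⟩ := hBT R hR
    refine ⟨Q, hQ, hQd, fun j => ?_⟩
    have h1 := hQR (.a 0 j)
    have h2 := hRQ j
    rw [blk_lo, blk_hi] at h2
    push_cast at h1 ⊢
    constructor
    · linarith [h1.1, h2.1]
    · linarith [h1.2, h2.2]
  · intro x j
    have h1 := hCF x (.a 0 j)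
    have h2 := hBF x j
    rw [abs_le] at h1 h2 ⊢
    constructor
    · have := h1.1
      have := h2.1
      show -3 ≤ C.F x (.a 0 j) / ((8 : ℕ) : ℝ) - P.A.F x j
      linarith
    · have := h1.2
      have := h2.2
      show C.F x (.a 0 j) / ((8 : ℕ) : ℝ) - P.A.F x j ≤ 3
      linarith
  · intro a ha x
    have h1 := sep_grd B.T C.T (jjp (p ^ P.q) P.τJ) (p ^ P.q) 1 8 hBS hCT
    exact sep_dist C (p ^ P.q) 8 (pow_dvd_pow p hq2) h1 a ha x

theorem smul_iterate (p : ℕ) [Fact p.Prime] {X : Type} [MulAction (Multiplicative ℤ_[p]) X]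
    (a : ℕ) (x : X) : (fun x : X => Multiplicative.ofAdd (1 : ℤ_[p]) • x)^[a] x =
      Multiplicative.ofAdd (a : ℤ_[p]) • x := by
  induction a generalizing x with
  | zero => simp
  | succ a ih =>
    rw [Function.iterate_succ_apply, ih, smul_smul, ← ofAdd_add]
    push_cast
    rfl

/-- **Theorem A** -/
theorem main (p : ℕ) [Fact p.Prime] (n : ℕ) (hn : 2 ≤ n) {X : Type} [TopologicalSpace X]
    [CompactSpace X] [MetrizableSpace X] [MulAction (Multiplicative ℤ_[p]) X]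
    [ContinuousSMul (Multiplicative ℤ_[p]) X]
    (hfree : ∀ (g : Multiplicative ℤ_[p]) (x : X), g • x = x → g = 1)
    (hdim : CovDimLE (Quotient (MulAction.orbitRel (Multiplicative ℤ_[p]) X)) (n + 1)) :
    ∃ (Y : Type) (_ : TopologicalSpace Y) (_ : CompactSpace Y) (_ : MetrizableSpace Y)
      (_ : MulAction (Multiplicative ℤ_[p]) Y) (_ : ContinuousSMul (Multiplicative ℤ_[p]) Y),
      (∀ (g : Multiplicative ℤ_[p]) (y : Y), g • y = y → g = 1) ∧ CovDimLE Y n ∧
      ∃ f : X → Y, Continuous f ∧ Function.Surjective f ∧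
        ∀ (g : Multiplicative ℤ_[p]) (x : X), f (g • x) = g • f x := by
  classical
  obtain ⟨P₀⟩ := base_state p n hfree hdim
  choose nx e hnx using fun P => pack_next p n hn hfree hdim P
  obtain ⟨P, e, hP⟩ : ∃ (P : ℕ → Pack p n X (fun x => Multiplicative.ofAdd (1 : ℤ_[p]) • x))
      (e : ∀ k, (P k).J → (P (k + 1)).J), ∀ k, Nxt (P k) (P (k + 1)) (e k) :=
    ⟨fun k => Nat.rec P₀ (fun _ Q => nx Q) k, fun k => e _, fun k => hnx _⟩
  have hF1 : ∀ k : ℕ, Continuous (P k).A.F := fun k => (P k).A.F_cont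
  have hF2 : ∀ (k : ℕ) (x : X), (P k).A.F (Multiplicative.ofAdd (1 : ℤ_[p]) • x) =
      actP (P k).τJ ((P k).A.F x) := fun k x => (P k).A.F_equi x
  have hF3 : ∀ (k : ℕ) (x : X), (P k).A.F x ∈ Body (P k).A.T := by
    intro k x
    obtain ⟨c, hc, hx⟩ := (P k).A.hκb x
    exact ⟨(P k).A.s c, (P k).A.sT c hc, (P k).A.F_body x c hc hx⟩
  have hF4 : ∀ k : ℕ, ∀ a : ℕ, ¬ p ^ (P k).q ∣ a → ∀ x, ∃ j, ((8 : ℕ) : ℝ) ≤
      |(P (k + 1)).A.F (Multiplicative.ofAdd (a : ℤ_[p]) • x) j - (P (k + 1)).A.F x j| := by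
    intro k a ha x
    obtain ⟨j, hj⟩ := (hP k).c a ha x
    rw [smul_iterate] at hj
    exact ⟨j, hj⟩
  exact lim p n (fun k => (P k).J) (fun k => (P k).τJ) (fun k => (P k).q)
    (strictMono_nat_of_lt_succ fun k => (hP k).q) (fun k => (P k).A.hJ)
    (fun k => (P k).A.F) hF1 hF2 (fun k => (P k).A.T) (fun k => (P k).A.Tfin)
    (fun k => (P k).A.Tclo) hF3 (fun _ => 8) (fun _ => le_refl _) (fun k => e k)
    (fun k => (hP k).inj) (fun k => (hP k).a) (fun k => (hP k).b) hF4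

end AGE
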