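import Mathlib

/-!
# Project AGE (MP_b5674c_gt): definitions

Ageev's conjecture is false for `m = 1`, `n ≥ 2`: a compact metrizable free `A_p`-space `X` with
`dim X / A_p ≤ n + 1` has an equivariant map to a compact metrizable free `A_p`-space of
dimension at most `n`. Blueprint: /team-store/age_blueprint.md.

Everything lives in elementary cubes of `ℤ^J`. A complex is a set of cubes closed under faces.
A vertex map is a map `(V → ℤ) → (J → ℤ)` of lattice points.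
-/

set_option autoImplicit false

noncomputable section

namespace AGE

/-! ## cubes -/

/-- the elementary cube of `ℤ^J` with lowest vertex `lo` and free coordinates `fr`: the product
of the intervals `[lo j, lo j + 1]`, `j ∈ fr`, and of the points `lo j`, `j ∉ fr` -/
@[ext] structure Cube (J : Type) where
  /-- lowest vertex -/
  lo : J → ℤ
  /-- free coordinates -/
  fr : Finset J

variable {V J : Type} [LinearOrder V] [LinearOrder J]

/-- the highest vertex of a cube -/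
def Cube.hi (Q : Cube J) (j : J) : ℤ := if j ∈ Q.fr then Q.lo j + 1 else Q.lo j

/-- `v` is a vertex of `Q` -/
def Cube.Has (Q : Cube J) (v : J → ℤ) : Prop := ∀ j, Q.lo j ≤ v j ∧ v j ≤ Q.hi j

/-- `Q` is a face of `P` -/
def Cube.Le (Q P : Cube J) : Prop := ∀ j, P.lo j ≤ Q.lo j ∧ Q.hi j ≤ P.hi j

/-- the dimension -/
def Cube.dim (Q : Cube J) : ℕ := Q.fr.card

/-- the geometric cube -/
def Cube.body (Q : Cube J) : Set (J → ℝ) := {x | ∀ j, (Q.lo j : ℝ) ≤ x j ∧ x j ≤ (Q.hi j : ℝ)}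

/-- the point cube -/
def pt (v : J → ℤ) : Cube J := ⟨v, ∅⟩

/-- the faces of a cube -/
def Faces (P : Cube J) : Set (Cube J) := {Q | Q.Le P}

/-- complexes: closed under faces -/
def Closed (K : Set (Cube J)) : Prop := ∀ P ∈ K, ∀ Q : Cube J, Q.Le P → Q ∈ K

/-- the `n`-skeleton -/
def Sk (n : ℕ) (K : Set (Cube J)) : Set (Cube J) := {Q | Q ∈ K ∧ Q.dim ≤ n}

/-- `Q` lies in `M` times `P` -/
def Cube.InM (M : ℕ) (Q P : Cube J) : Prop :=
  ∀ j, (M : ℤ) * P.lo j ≤ Q.lo j ∧ Q.hi j ≤ (M : ℤ) * P.hi j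

/-- the subdivision of `M` times `K` into elementary cubes -/
def Grd (M : ℕ) (K : Set (Cube J)) : Set (Cube J) := {Q | ∃ P ∈ K, Q.InM M P}

/-- the body of a complex -/
def Body (K : Set (Cube J)) : Set (J → ℝ) := {x | ∃ Q ∈ K, x ∈ Q.body}

/-! ## chains -/

/-- integral chains of elementary cubes -/
abbrev Ch (J : Type) : Type := Cube J →₀ ℤ

/-- one cube as a chain -/
def one (Q : Cube J) : Ch J := Finsupp.single Q 1

/-- the sign of the coordinate `j` in `s` -/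
def sg (s : Finset J) (j : J) : ℤ := (-1) ^ (s.filter (· < j)).card

/-- the upper face of `Q` in direction `j` -/
def Cube.up (Q : Cube J) (j : J) : Cube J := ⟨Function.update Q.lo j (Q.lo j + 1), Q.fr.erase j⟩

/-- the lower face of `Q` in direction `j` -/
def Cube.dn (Q : Cube J) (j : J) : Cube J := ⟨Q.lo, Q.fr.erase j⟩

/-- boundary of a cube -/
def bdQ (Q : Cube J) : Ch J := ∑ j ∈ Q.fr, sg Q.fr j • (one (Q.up j) - one (Q.dn j))

/-- the boundary -/
def bd : Ch J →ₗ[ℤ] Ch J := Finsupp.linearCombination ℤ bdQ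

/-- the augmentation -/
def eps : Ch J →ₗ[ℤ] ℤ := Finsupp.linearCombination ℤ (fun Q : Cube J => if Q.fr = ∅ then (1 : ℤ) else 0)

/-- `i`-dimensional chains of a set of cubes -/
def CC (K : Set (Cube J)) (i : ℕ) : Submodule ℤ (Ch J) :=
  Finsupp.supported ℤ ℤ {Q : Cube J | Q ∈ K ∧ Q.dim = i}

/-- subdivision of a cube: the sum of the `M ^ dim` cubes of `M` times `Q` of the same dimension -/
def subQ (M : ℕ) (Q : Cube J) : Ch J :=
  ∑ k ∈ Fintype.piFinset (fun _ : {j // j ∈ Q.fr} => Finset.range M),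
    one ⟨fun j => (M : ℤ) * Q.lo j + (if h : j ∈ Q.fr then (k ⟨j, h⟩ : ℤ) else 0), Q.fr⟩

/-- subdivision of chains -/
def sub (M : ℕ) : Ch J →ₗ[ℤ] Ch J := Finsupp.linearCombination ℤ (subQ M)

/-! ## permutations of the coordinates -/

/-- a permutation of the coordinates acts on points -/
def actP (τ : Equiv.Perm J) {R : Type} (v : J → R) : J → R := fun j => v (τ.symm j)

/-- a permutation of the coordinates acts on cubes -/
def Cube.act (τ : Equiv.Perm J) (Q : Cube J) : Cube J := ⟨actP τ Q.lo, Q.fr.map τ.toEmbedding⟩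

/-- the sign of `τ` on the finite set `s`: parity of the number of inversions -/
def psg (τ : Equiv.Perm J) (s : Finset J) : ℤ :=
  ∏ x ∈ s, ∏ y ∈ s, if x < y ∧ τ y < τ x then (-1 : ℤ) else 1

/-- a permutation of the coordinates acts on chains -/
def act (τ : Equiv.Perm J) : Ch J →ₗ[ℤ] Ch J :=
  Finsupp.linearCombination ℤ (fun Q => psg τ Q.fr • one (Q.act τ))

/-- a complex is invariant -/
def Inv (τ : Equiv.Perm J) (K : Set (Cube J)) : Prop := ∀ Q : Cube J, Q ∈ K ↔ Q.act τ ∈ K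

/-- conjugate of a linear map of chains: `τ_J α τ_V⁻¹` -/
def con (τV : Equiv.Perm V) (τJ : Equiv.Perm J) (α : Ch V →ₗ[ℤ] Ch J) : Ch V →ₗ[ℤ] Ch J :=
  act τJ ∘ₗ α ∘ₗ act τV.symm

/-- the norm `Σ_{i < N} con^i α` -/
def nrm (N : ℕ) (τV : Equiv.Perm V) (τJ : Equiv.Perm J) (α : Ch V →ₗ[ℤ] Ch J) :
    Ch V →ₗ[ℤ] Ch J :=
  ∑ i ∈ Finset.range N, (con τV τJ)^[i] α

/-! ## vertex maps -/

/-- `f` is a vertex map from `K` to `T` -/
def VMap (K : Set (Cube V)) (T : Set (Cube J)) (f : (V → ℤ) → (J → ℤ)) : Prop :=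
  ∀ Q ∈ K, ∃ S ∈ T, ∀ v, Q.Has v → S.Has (f v)

/-- cellular vertex maps: cubes go to cubes of at most the same dimension -/
def Cel (K : Set (Cube V)) (T : Set (Cube J)) (f : (V → ℤ) → (J → ℤ)) : Prop :=
  ∀ Q ∈ K, ∃ S ∈ T, S.dim ≤ Q.dim ∧ ∀ v, Q.Has v → S.Has (f v)

/-- axial maps: in every cube, moving in direction `i` changes only one coordinate `j(i)` of
`f` -/
def Ax (K : Set (Cube V)) (f : (V → ℤ) → (J → ℤ)) : Prop :=
  ∀ Q ∈ K, ∀ i ∈ Q.fr, ∃ j, ∀ v, Q.Has v → ∀ k, k ≠ j →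
    f (Function.update v i (Q.lo i + 1)) k = f (Function.update v i (Q.lo i)) k

/-- `f` commutes with the permutations -/
def Equi (τV : Equiv.Perm V) (τJ : Equiv.Perm J) (f : (V → ℤ) → (J → ℤ)) : Prop :=
  ∀ v, f (actP τV v) = actP τJ (f v)

/-- `φ` is a chain map on `K` carried by `C`, with the vertex map `f` in degree `0` -/
structure Push (K : Set (Cube V)) (C : Cube V → Set (Cube J)) (f : (V → ℤ) → (J → ℤ))
    (φ : Ch V →ₗ[ℤ] Ch J) : Prop where
  vtx : ∀ v, pt v ∈ K → φ (one (pt v)) = one (pt (f v))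
  car : ∀ c ∈ K, φ (one c) ∈ CC (C c) c.dim
  chn : ∀ c ∈ K, bd (φ (one c)) = φ (bd (one c))

/-- the faces of the span of `f (Q)`: all cubes contained in every cube that contains the images
of the vertices of `Q` -/
def Spn (f : (V → ℤ) → (J → ℤ)) (Q : Cube V) : Set (Cube J) :=
  {P | ∀ S : Cube J, (∀ v, Q.Has v → S.Has (f v)) → P.Le S}

/-- the unit cube of dimension `n` -/
def ucube (n : ℕ) : Cube (Fin n) := ⟨fun _ => 0, Finset.univ⟩

/-- the floor dilation of lattice points -/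
def flr (M : ℕ) (v : V → ℤ) : V → ℤ := fun i => v i / (M : ℤ)

/-- the floor dilation of lattice points with offset `o` -/
def flo (M : ℕ) (o : ℤ) (v : V → ℤ) : V → ℤ := fun i => (v i + o) / (M : ℤ)

/-! ## the obstruction data -/

/-- condition (I) as data: `φ` is an equivariant chain map of degree `0` carried by `C` and
`φ + lam bd = bd nu`, `con nu - nu = xi bd` on the `(n+1)`-cubes -/
structure Dat (n : ℕ) (K : Set (Cube V)) (C : Cube V → Set (Cube J)) (τV : Equiv.Perm V)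
    (τJ : Equiv.Perm J) (φ lam nu xi : Ch V →ₗ[ℤ] Ch J) : Prop where
  phC : ∀ c ∈ K, φ (one c) ∈ CC (C c) c.dim
  phB : ∀ c ∈ K, bd (φ (one c)) = φ (bd (one c))
  phE : ∀ c ∈ K, c.dim = 0 → eps (φ (one c)) = 1
  phT : ∀ c ∈ K, φ (act τV (one c)) = act τJ (φ (one c))
  laC : ∀ c ∈ K, c.dim = n → lam (one c) ∈ CC (C c) (n + 1)
  nuC : ∀ c ∈ K, c.dim = n + 1 → nu (one c) ∈ CC (C c) (n + 2)
  xiC : ∀ c ∈ K, c.dim = n → xi (one c) ∈ CC (C c) (n + 2)
  eqE : ∀ c ∈ K, c.dim = n + 1 → φ (one c) + lam (bd (one c)) = bd (nu (one c))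
  eqI : ∀ c ∈ K, c.dim = n + 1 → con τV τJ nu (one c) - nu (one c) = xi (bd (one c))

/-- carriers: closed, monotone, equivariant on `K` -/
structure Car (K : Set (Cube V)) (C : Cube V → Set (Cube J)) (τV : Equiv.Perm V)
    (τJ : Equiv.Perm J) : Prop where
  clo : ∀ c ∈ K, Closed (C c)
  mon : ∀ c ∈ K, ∀ d : Cube V, d.Le c → C d ⊆ C c
  equ : ∀ c ∈ K, ∀ Q : Cube J, Q ∈ C c ↔ Q.act τJ ∈ C (c.act τV)

/-- good source complexes: finite, closed, of dimension at most `n + 1`, with a free action of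
`⟨τ⟩` of order `N` which preserves the order of the free coordinates of each cube -/
structure Src (n N : ℕ) (K : Set (Cube V)) (τ : Equiv.Perm V) : Prop where
  fin : K.Finite
  clo : Closed K
  dim : ∀ c ∈ K, c.dim ≤ n + 1
  inv : Inv τ K
  pos : 0 < N
  ord : τ ^ N = 1
  fre : ∀ c ∈ K, ∀ a : ℕ, c.act (τ ^ a) = c → N ∣ a
  ori : ∀ c ∈ K, ∀ x ∈ c.fr, ∀ y ∈ c.fr, x < y → τ x < τ y

/-! ## the coloured cubical complexes -/

/-- the cubical structure of `{x ∈ [0,1]^V : max x = 1, supp x ∈ S}`: cubes `(1_A, B)`, `A`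
nonempty, `A` and `B` disjoint, `A ∪ B ∈ S` -/
def Box (S : Set (Finset V)) : Set (Cube V) :=
  {Q | ∃ A : Finset V, A.Nonempty ∧ Disjoint A Q.fr ∧ A ∪ Q.fr ∈ S ∧
    ∀ j, Q.lo j = if j ∈ A then 1 else 0}

/-- coloured invariant simplicial complexes with free action: `τ` has all orbits of length `N`
on the vertices, the colours `0, …, n + 1` are invariant and different on the members of `S`,
and `V` is ordered by colour first -/
structure Col (n N : ℕ) (S : Set (Finset V)) (τ : Equiv.Perm V) (col : V → ℕ) : Prop where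
  pos : 0 < N
  fre : ∀ v, ∀ a : ℕ, (τ ^ a) v = v ↔ N ∣ a
  cin : ∀ v, col (τ v) = col v
  cle : ∀ v, col v ≤ n + 1
  com : ∀ v w, v < w → col v ≤ col w
  sub : ∀ A ∈ S, ∀ B, B ⊆ A → B ∈ S
  inv : ∀ A, A ∈ S ↔ A.map τ.toEmbedding ∈ S
  inj : ∀ A ∈ S, ∀ v ∈ A, ∀ w ∈ A, col v = col w → v = w

/-! ## contractions -/

/-- combinatorial contractibility of a complex in dimensions at most `2`, for finite sets of
vertices -/
def CTR (C : Set (Cube J)) : Prop :=
  ∀ W : Set (J → ℤ), W.Finite → (∀ v ∈ W, pt v ∈ C) →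
    ∃ (A : ℕ) (Γ : ℕ → (J → ℤ) → (J → ℤ)) (c₀ : J → ℤ),
      (∀ v ∈ W, Γ 0 v = v) ∧ (∀ v ∈ W, Γ A v = c₀) ∧
      (∀ v ∈ W, ∀ a < A, ∃ Q ∈ C, Q.dim ≤ 1 ∧ Q.Has (Γ a v) ∧ Q.Has (Γ (a + 1) v)) ∧
      (∀ v ∈ W, ∀ v' ∈ W, (∃ Q ∈ C, Q.dim ≤ 1 ∧ Q.Has v ∧ Q.Has v') → ∀ a < A,
        ∃ Q ∈ C, Q.dim ≤ 2 ∧ Q.Has (Γ a v) ∧ Q.Has (Γ a v') ∧ Q.Has (Γ (a + 1) v) ∧
          Q.Has (Γ (a + 1) v'))

/-! ## the coinduced complexes -/

/-- the coordinates of the coinduced complex: `N` copies `a g` of `J` and the columns `e g k` of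
the infinite join -/
inductive JJ (N : ℕ) (J : Type) : Type
  | a (g : ZMod N) (j : J)
  | e (g : ZMod N) (k : ℕ)

/-- code of a coordinate (for the order) -/
def JJ.code {N : ℕ} {J : Type} : JJ N J → (ℕ ×ₗ ℕ) ×ₗ (WithBot J)
  | .a g j => toLex (toLex (0, g.val), (j : WithBot J))
  | .e g k => toLex (toLex (k + 1, g.val), ⊥)

theorem JJ.code_injective {N : ℕ} [NeZero N] {J : Type} :
    Function.Injective (JJ.code : JJ N J → _) := by
  intro x y h
  cases x <;> cases y <;> simp [JJ.code] at h ⊢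
  · exact ⟨ZMod.val_injective _ h.1, h.2⟩
  · exact ⟨ZMod.val_injective _ h.2, h.1⟩

instance {N : ℕ} [NeZero N] {J : Type} [LinearOrder J] : LinearOrder (JJ N J) :=
  LinearOrder.lift' JJ.code JJ.code_injective

/-- the generator on the coordinates of the coinduced complex: `(g, j) ↦ (g + 1, τ j)` -/
def jjp (N : ℕ) {J : Type} (τ : Equiv.Perm J) : Equiv.Perm (JJ N J) where
  toFun
    | .a g j => .a (g + 1) (τ j)
    | .e g k => .e (g + 1) k
  invFun
    | .a g j => .a (g - 1) (τ.symm j)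
    | .e g k => .e (g - 1) k
  left_inv x := by cases x <;> simp
  right_inv x := by cases x <;> simp

variable {N : ℕ} [NeZero N]

/-- block `g` of a cube of the coinduced complex -/
def blk (g : ZMod N) (Q : Cube (JJ N J)) : Cube J :=
  ⟨fun j => Q.lo (.a g j), Q.fr.preimage (JJ.a g) (fun _ _ _ _ h => by simpa using h)⟩

/-- the join part of a cube lies in the (cubical) infinite join of copies of `ℤ/N` -/
structure EE (Q : Cube (JJ N J)) : Prop where
  rng : ∀ g k, 0 ≤ Q.lo (.e g k) ∧ Q.hi (.e g k) ≤ 1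
  fin : {x : ZMod N × ℕ | Q.lo (.e x.1 x.2) = 1}.Finite
  one : ∃ g k, Q.lo (.e g k) = 1
  col : ∀ k g g', Q.hi (.e g k) = 1 → Q.hi (.e g' k) = 1 → g = g'

/-- the part of the coinduced complex over the cube `t`: all blocks in the `n`-skeleton of `t`,
join part in the infinite join, dimension at most `n + 2` -/
def PP (n : ℕ) (t : Cube J) : Set (Cube (JJ N J)) :=
  {Q | (∀ g, (blk g Q).Le t ∧ (blk g Q).dim ≤ n) ∧ EE Q ∧ Q.dim ≤ n + 2}

/-- the projection of a cube to block `g`, as a chain -/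
def prQ (g : ZMod N) (Q : Cube (JJ N J)) : Ch J :=
  open Classical in if ∀ x ∈ Q.fr, ∃ j, x = JJ.a g j then one (blk g Q) else 0

/-- the projection to block `g` -/
def pr (g : ZMod N) : Ch (JJ N J) →ₗ[ℤ] Ch J := Finsupp.linearCombination ℤ (prQ g)

/-! ## realization -/

/-- multi-affine extension of a vertex map -/
def real [Fintype V] (f : (V → ℤ) → (J → ℤ)) (x : V → ℝ) : J → ℝ := fun j =>
  ∑ A : Finset V, (∏ i ∈ A, Int.fract (x i)) * (∏ i ∈ Aᶜ, (1 - Int.fract (x i))) *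
    (f (fun i => ⌊x i⌋ + if i ∈ A then 1 else 0) j : ℝ)

/-- rounding of points -/
def rnd {J : Type} (x : J → ℝ) : J → ℤ := fun j => round (x j)

/-! ## the states of the construction -/

/-- a state: a coloured approximation `K = Grd Ms (Box S)` of `X` with its free action of order
`p ^ q`, an equivariant vertex map `f` from `K` to a finite invariant complex `T` of dimension at
most `n + 2` in `ℤ^J` with a control `s`, and the obstruction data -/
structure St (p n : ℕ) (X : Type) [TopologicalSpace X] (τX : X → X) (q : ℕ) (J : Type)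
    [LinearOrder J] (τJ : Equiv.Perm J) where
  V : Type
  fV : Fintype V
  oV : LinearOrder V
  τV : Equiv.Perm V
  col : V → ℕ
  S : Set (Finset V)
  hcol : Col n (p ^ q) S τV col
  Ms : ℕ
  hMs : 0 < Ms
  κ : X → V → ℝ
  hκc : Continuous κ
  hκe : ∀ x, κ (τX x) = actP τV (κ x)
  hκb : ∀ x, κ x ∈ Body (Grd Ms (Box S))
  hJ : τJ ^ (p ^ q) = 1
  T : Set (Cube J)
  Tfin : T.Finite
  Tclo : Closed T
  Tinv : Inv τJ T
  Tdim : ∀ Q ∈ T, Q.dim ≤ n + 2
  f : (V → ℤ) → (J → ℤ)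
  hf : Equi τV τJ f
  s : Cube V → Cube J
  sT : ∀ c ∈ Grd Ms (Box S), s c ∈ T
  smon : ∀ c ∈ Grd Ms (Box S), ∀ d : Cube V, d.Le c → (s d).Le (s c)
  sequ : ∀ c ∈ Grd Ms (Box S), s (c.act τV) = (s c).act τJ
  shas : ∀ c ∈ Grd Ms (Box S), ∀ v, c.Has v → (s c).Has (f v)
  φ : Ch V →ₗ[ℤ] Ch J
  lam : Ch V →ₗ[ℤ] Ch J
  nu : Ch V →ₗ[ℤ] Ch J
  xi : Ch V →ₗ[ℤ] Ch J
  dat : Dat n (Grd Ms (Box S)) (fun c => Faces (s c)) τV τJ φ lam nu xi

attribute [instance] St.fV St.oV

/-- the map `X → |T| ⊆ ℝ^J` of a state -/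
def St.F {p n : ℕ} {X : Type} [TopologicalSpace X] {τX : X → X} {q : ℕ} {J : Type}
    [LinearOrder J] {τJ : Equiv.Perm J} (A : St p n X τX q J τJ) (x : X) : J → ℝ :=
  real A.f (A.κ x)

/-- separation of `T` from its translates: every cube of `T` has a coordinate `j` which is at
least `M` such that the coordinates `τ^a j`, `N ∤ a`, are at most `0` -/
def Sep (T : Set (Cube J)) (τJ : Equiv.Perm J) (N M : ℕ) : Prop :=
  ∀ Q ∈ T, ∃ j, (M : ℤ) ≤ Q.lo j ∧ ∀ a : ℕ, ¬ N ∣ a → Q.hi ((τJ ^ a) j) ≤ 0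

/-- covering dimension at most `d` -/
def CovDimLE (B : Type) [TopologicalSpace B] (d : ℕ) : Prop :=
  ∀ (I : Type) (_ : Finite I) (U : I → Set B), (∀ i, IsOpen (U i)) → (⋃ i, U i) = Set.univ →
    ∃ (J : Type) (_ : Finite J) (W : J → Set B), (∀ j, IsOpen (W j)) ∧ (⋃ j, W j) = Set.univ ∧
      (∀ j, ∃ i, W j ⊆ U i) ∧ ∀ b, {j | b ∈ W j}.ncard ≤ d + 1

end AGE
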