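import Pool.Agent.AGE.Defs
import Pool.Agent.AGE.C1a
import Pool.Agent.AGE.C1b
import Pool.Agent.AGE.C5
import Pool.Agent.AGE.C6a

/-!
# AGE-GE0: the theorem `geo1` if `J` is empty

Plan. If `J` is empty there is only one cube `Q₀` (`lo`, `fr` are functions/finsets on the empty type), of dimension `0`. Take `M = 1`, `h = f`, `hp = φ`, `k = 0`. `sub 1 (one c) = one c` (`sub_one_apply`, or `sub` formula). The cube `S = s c`, dimension `0`. `Push`: `vtx`: `φ (one (pt v)) = m • one Q₀` with `eps = 1`, so `m = 1` and `one (pt (f v)) = one Q₀`; `car`: `Spn f c` contains `Q₀`;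
`chn`: `hD.phB`, on `Grd 1 K = K` (`grd_one`). `bd (lam (one c)) = 0`: `lam (one c) ∈ CC _ (n+1)` is `0` because there are no cubes of dimension `n + 1 > 0`.
-/

set_option autoImplicit false

noncomputable section

namespace AGE

variable {V J : Type} [LinearOrder V] [LinearOrder J]

private theorem GE0_sub1 (c : Cube V) : sub 1 (one c) = one c := by
  unfold sub
  conv_lhs => rw [one]
  rw [Finsupp.linearCombination_single, one_smul]
  unfold subQ
  rw [Finset.sum_eq_single (fun _ : {j // j ∈ c.fr} => 0)]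
  · congr 1
    refine Cube.ext (funext fun j => ?_) rfl
    show ((1 : ℕ) : ℤ) * c.lo j + (if h : j ∈ c.fr then ((0 : ℕ) : ℤ) else 0) = c.lo j
    split_ifs <;> simp
  · intro k hk hk2
    exfalso
    apply hk2
    funext x
    have h1 := Fintype.mem_piFinset.1 hk x
    rw [Finset.mem_range] at h1
    omega
  · intro h
    exfalso
    apply h
    rw [Fintype.mem_piFinset]
    intro x
    rw [Finset.mem_range]
    exact Nat.zero_lt_one

private theorem GE0_cube [IsEmpty J] (P Q : Cube J) : P = Q :=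
  Cube.ext (funext fun j => isEmptyElim j) (by
    rw [Finset.eq_empty_of_isEmpty P.fr, Finset.eq_empty_of_isEmpty Q.fr])

private theorem GE0_dim [IsEmpty J] (P : Cube J) : P.dim = 0 := by
  unfold Cube.dim
  rw [Finset.eq_empty_of_isEmpty P.fr, Finset.card_empty]

private theorem GE0_eps [IsEmpty J] (x : Ch J) (hx : eps x = 1) (Q : Cube J) : x = one Q := by
  have h1 : x = Finsupp.single Q (x Q) := by
    ext P
    rw [GE0_cube P Q, Finsupp.single_eq_same]
  have h2 : eps x = x Q := by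
    conv_lhs => rw [h1]
    unfold eps
    rw [Finsupp.linearCombination_single, if_pos (Finset.eq_empty_of_isEmpty Q.fr), smul_eq_mul,
      mul_one]
  rw [h1, ← h2, hx]
  rfl

private theorem GE0_bd [IsEmpty J] (x : Ch J) : bd x = 0 := by
  refine bd_zero (K := Set.univ) ?_
  unfold CC
  rw [Finsupp.mem_supported]
  intro Q _
  exact ⟨Set.mem_univ _, GE0_dim Q⟩

theorem geo1_empty [IsEmpty J] (n : ℕ) (hn : 2 ≤ n) (K : Set (Cube V)) (hK1 : K.Finite)
    (hK2 : Closed K)
    (hK3 : ∀ c ∈ K, c.dim ≤ n + 1) (τV : Equiv.Perm V) (τJ : Equiv.Perm J)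
    (f : (V → ℤ) → (J → ℤ)) (s : Cube V → Cube J)
    (hs1 : ∀ c ∈ K, ∀ d : Cube V, d.Le c → (s d).Le (s c))
    (hs2 : ∀ c ∈ K, ∀ v, c.Has v → (s c).Has (f v))
    (φ lam nu xi : Ch V →ₗ[ℤ] Ch J)
    (hD : Dat n K (fun c => Faces (s c)) τV τJ φ lam nu xi) :
    ∃ (M : ℕ) (h : (V → ℤ) → (J → ℤ)) (hp k : Ch V →ₗ[ℤ] Ch J), 0 < M ∧
      (∀ c ∈ K, ∀ Q : Cube V, Q.InM M c →
        ∃ S : Cube J, S.Le (s c) ∧ S.dim ≤ n ∧ ∀ v, Q.Has v → S.Has (h v)) ∧
      Push (Grd M K) (Spn h) h hp ∧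
      (∀ c ∈ K, c.dim < n → k (one c) ∈ CC (Faces (s c)) (c.dim + 1)) ∧
      (∀ c ∈ K, c.dim < n →
        hp (sub M (one c)) = φ (one c) + bd (k (one c)) + k (bd (one c))) ∧
      (∀ c ∈ K, c.dim = n →
        hp (sub M (one c)) = φ (one c) + bd (lam (one c)) + k (bd (one c))) := by
  refine ⟨1, f, φ, 0, Nat.zero_lt_one, fun c _ Q _ => ⟨s c, Cube.le_refl' _, ?_,
    fun v _ j => isEmptyElim j⟩, ⟨fun v hv => ?_, fun c hc => ?_, fun c hc => ?_⟩,
    fun c _ _ => ?_, fun c _ _ => ?_, fun c _ _ => ?_⟩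
  · rw [GE0_dim]
    exact Nat.zero_le n
  · rw [grd_one K hK2] at hv
    refine GE0_eps _ (hD.phE _ hv ?_) _
    exact Finset.card_empty
  · rw [grd_one K hK2] at hc
    have h1 := hD.phC c hc
    unfold CC at h1 ⊢
    rw [Finsupp.mem_supported] at h1 ⊢
    intro Q hQ
    exact ⟨fun S _ j => isEmptyElim j, (h1 hQ).2⟩
  · rw [grd_one K hK2] at hc
    exact hD.phB c hc
  · exact Submodule.zero_mem _
  · rw [GE0_sub1, GE0_bd]
    simp
  · rw [GE0_sub1, GE0_bd]
    simp

end AGE
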