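import Pool.Agent.AGE.WDefs2
import Pool.Agent.AGE.C1b
import Pool.Agent.AGE.C2a
import Pool.Agent.AGE.C6a
import Pool.Agent.AGE.C6c
import Pool.Agent.AGE.C9
import Pool.Agent.AGE.W2
import Pool.Agent.AGE.W3

/-!
# AGE-GLU2: gluing, second half (owner helper36)

From local solutions `gc c`, `Rc c` of the `(n+1)`-cells and global `f`, `R` which restrict to them, all fields of `Wst`.
-/

set_option autoImplicit false

noncomputable section

namespace AGE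

variable {V J : Type} [LinearOrder V] [LinearOrder J]

/-- what the first half of the gluing provides -/
structure Glu (n : ℕ) (K : Set (Cube V)) (C : Cube V → Set (Cube J)) (τV : Equiv.Perm V)
    (τJ : Equiv.Perm J) (Ty : Set (Cube J)) (L : ℕ) (g : (V → ℤ) → (J → ℤ))
    (p : Cube V → Cube J → (V → ℤ)) (h : ℕ) (gc : Cube V → (V → ℤ) → (J → ℤ))
    (Rc : Cube V → (V → ℤ) → Cube J → Prop) (f : (V → ℤ) → (J → ℤ))
    (R : (V → ℤ) → Cube J → Prop) : Prop where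
  h2 : 2 ≤ h
  loc : ∀ c ∈ K, c.dim = n + 1 → Loc n c L h (C c) g (BP n K C Ty p c) (gc c) (Rc c)
  lty : ∀ c ∈ K, c.dim = n + 1 → ∀ w ∈ Ty, w ∈ C c → w.dim = n + 2 → ∃ x, Rc c x w
  fin : ∀ c ∈ K, c.dim = n + 1 → ∀ v, InB (2 * h * L) c v → f v = gc c v
  fout : ∀ v, (∀ c ∈ K, c.dim = n + 1 → ¬ InI (2 * h * L) c v) → f v = g (flo (2 * h) h v)
  Rin : ∀ c ∈ K, c.dim = n + 1 → ∀ x κ, InB (2 * h * L) c x → (R x κ ↔ Rc c x κ)
  Rcs : ∀ x κ, R x κ → (∃ c ∈ K, c.dim = n + 1 ∧ InB (2 * h * L) c x) ∨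
    ∃ e ∈ K, e.dim = n ∧ κ ∈ Ty ∧ κ ∈ C e ∧ x = mul (2 * h) (p e κ)
  Rpt : ∀ e ∈ K, e.dim = n → ∀ κ ∈ Ty, κ ∈ C e → R (mul (2 * h) (p e κ)) κ
  feq : Equi τV τJ f
  req : ∀ x κ, R x κ → R (actP τV x) (κ.act τJ)


private theorem G2_le {M : ℕ} (hM : 0 < M) {c d : Cube V} {v : V → ℤ} (h1 : InI M d v)
    (h2 : InB M c v) : d.Le c := by
  have hp : (0 : ℤ) < (M : ℤ) := by exact_mod_cast hM
  intro j
  have h3 := h2 j
  have hc : c.lo j ≤ c.hi j ∧ c.hi j ≤ c.lo j + 1 := by unfold Cube.hi; split_ifs <;> omega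
  by_cases hj : j ∈ d.fr
  · have h4 := h1.1 j hj
    have hd : d.hi j = d.lo j + 1 := if_pos hj
    rw [hd] at h4 ⊢
    constructor
    · by_contra h5
      push Not at h5
      have h6 : d.lo j + 1 ≤ c.lo j := by omega
      have h7 : (M : ℤ) * (d.lo j + 1) ≤ (M : ℤ) * c.lo j := mul_le_mul_of_nonneg_left h6 hp.le
      linarith [h3.1, h4.2]
    · by_contra h5
      push Not at h5
      have h6 : c.hi j ≤ d.lo j := by omega
      have h7 : (M : ℤ) * c.hi j ≤ (M : ℤ) * d.lo j := mul_le_mul_of_nonneg_left h6 hp.le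
      linarith [h3.2, h4.1]
  · have h4 := h1.2 j hj
    have hd : d.hi j = d.lo j := if_neg hj
    rw [hd]
    rw [h4] at h3
    exact ⟨le_of_mul_le_mul_left h3.1 hp, le_of_mul_le_mul_left h3.2 hp⟩

private theorem G2_dim {n : ℕ} {K : Set (Cube V)} (hKd : ∀ c ∈ K, c.dim ≤ n + 1) {M : ℕ}
    {c Q : Cube V} (hQ : Q.InM M c) : Q.dim ≤ c.dim := by
  unfold Cube.dim
  refine Finset.card_le_card fun j hj => ?_
  by_contra h
  have h1 := hQ j
  have h2 : Q.hi j = Q.lo j + 1 := if_pos hj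
  have h3 : c.hi j = c.lo j := if_neg h
  rw [h2, h3] at h1
  omega

private theorem G2_flr {h L : ℕ} (hh : 0 < h) {c Q : Cube V} (hQ : Q.InM (2 * h * L) c) :
    (flrQ (2 * h) h Q).InM L c := by
  have h1 : InB L c (flrQ (2 * h) (h : ℤ) Q).lo := by
    obtain ⟨v, hv, hv'⟩ := (flrQ_has (2 * h) (h : ℤ) (by omega) Q _).1 (Cube.has_lo _)
    rw [← hv']
    exact flo_inb hh (inb_of_has hQ hv)
  have h2 : InB L c (flrQ (2 * h) (h : ℤ) Q).hi := by
    obtain ⟨v, hv, hv'⟩ := (flrQ_has (2 * h) (h : ℤ) (by omega) Q _).1 (Cube.has_hi _)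
    rw [← hv']
    exact flo_inb hh (inb_of_has hQ hv)
  intro j
  exact ⟨(h1 j).1, (h2 j).2⟩

private theorem G2_eqd {P Q : Cube V} (h : P.Le Q) (hd : Q.dim ≤ P.dim) : P = Q := by
  have h1 : P.fr = Q.fr := Finset.eq_of_subset_of_card_le (Cube.fr_subset h) hd
  refine Cube.le_antisymm' h fun j => ?_
  have h2 := h j
  by_cases hj : j ∈ Q.fr
  · have a1 : Q.hi j = Q.lo j + 1 := if_pos hj
    have a2 : P.hi j = P.lo j + 1 := if_pos (h1 ▸ hj)
    rw [a1, a2] at h2 ⊢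
    omega
  · have a1 : Q.hi j = Q.lo j := if_neg hj
    have a2 : P.hi j = P.lo j := if_neg (fun h => hj (h1 ▸ h))
    rw [a1, a2] at h2 ⊢
    omega

private theorem G2_mul {h L : ℕ} (hh : 0 < h) {c : Cube V} {x : V → ℤ} (hx : InI L c x) :
    InI (2 * h * L) c (mul (2 * h) x) := by
  have hp : (0 : ℤ) < 2 * (h : ℤ) := by positivity
  constructor
  · intro j hj
    have h1 := hx.1 j hj
    show ((2 * h * L : ℕ) : ℤ) * c.lo j < ((2 * h : ℕ) : ℤ) * x j ∧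
      ((2 * h : ℕ) : ℤ) * x j < ((2 * h * L : ℕ) : ℤ) * c.hi j
    push_cast
    rw [mul_assoc (2 * (h : ℤ)), mul_assoc (2 * (h : ℤ))]
    exact ⟨mul_lt_mul_of_pos_left h1.1 hp, mul_lt_mul_of_pos_left h1.2 hp⟩
  · intro j hj
    have h1 := hx.2 j hj
    show ((2 * h : ℕ) : ℤ) * x j = ((2 * h * L : ℕ) : ℤ) * c.lo j
    rw [h1]
    push_cast
    ring

private theorem G2_flo {h : ℕ} (hh : 2 ≤ h) {x v : V → ℤ} (hv : Cls 1 (mul (2 * h) x) v) :
    flo (2 * h) h v = x := by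
  funext j
  have h1 := hv j
  have h3 : (mul (2 * h) x) j = 2 * (h : ℤ) * x j := by
    show ((2 * h : ℕ) : ℤ) * x j = _
    push_cast
    ring
  rw [h3, abs_le] at h1
  push_cast at h1
  have hp : (2 : ℤ) ≤ h := by exact_mod_cast hh
  exact flo_eq (by omega) (by linarith [h1.2]) (by linarith [h1.1])

theorem glue2 {N : ℕ} {n : ℕ} (hn : 2 ≤ n) {K : Set (Cube V)} {τV : Equiv.Perm V}
    {τJ : Equiv.Perm J} (hK : Src n N K τV)
    {C : Cube V → Set (Cube J)} (hC : Car K C τV τJ) {Ty : Set (Cube J)} (hT : TyOk n τJ Ty)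
    {L : ℕ} {g : (V → ℤ) → (J → ℤ)} {p : Cube V → Cube J → (V → ℤ)}
    (hP : Prt n K C τV τJ Ty L g p) {h : ℕ} {gc : Cube V → (V → ℤ) → (J → ℤ)}
    {Rc : Cube V → (V → ℤ) → Cube J → Prop} {f : (V → ℤ) → (J → ℤ)}
    {R : (V → ℤ) → Cube J → Prop} (hG : Glu n K C τV τJ Ty L g p h gc Rc f R) :
    Wst n K C τV τJ (2 * h * L) f R ∧
      (∀ c ∈ K, c.dim = n + 1 → ∀ w ∈ Ty, w ∈ C c → w.dim = n + 2 →
        ∃ x, InB (2 * h * L) c x ∧ R x w) ∧
      (∀ e ∈ K, e.dim = n → ∀ κ ∈ Ty, κ ∈ C e → ∃ x, InB (2 * h * L) e x ∧ R x κ) ∧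
      (∀ Q ∈ Grd (2 * h * L) K, Q.dim = n + 1 →
        (∀ v, Q.Has v → f v = g (flo (2 * h) h v)) ∨
        ((∃ S : Cube J, S.dim ≤ n ∧ ∀ v, Q.Has v → S.Has (f v)) ∧
          ∃ S : Cube J, S.dim ≤ n ∧ ∀ v, Q.Has v → S.Has (g (flo (2 * h) h v)))) := by
  have hh : 0 < h := lt_of_lt_of_le (by norm_num) hG.h2
  have hL := hP.hL
  have hM : 0 < 2 * h * L := by positivity
  have hKd := hK.dim
  -- values of `f` on a cell of dimension at most `n`
  have hfl : ∀ c ∈ K, c.dim ≤ n → ∀ v, InB (2 * h * L) c v → f v = g (flo (2 * h) h v) := by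
    intro c hc hd v hv
    refine hG.fout v fun c' hc' hd' hv' => ?_
    have := Cube.le_dim (G2_le hM hv' hv)
    omega
  -- the span of `g ∘ flo` on a cube
  have hgs : ∀ c ∈ K, ∀ Q : Cube V, Q.InM (2 * h * L) c →
      ∃ S ∈ C c, S.dim ≤ n + 1 ∧ ∀ v, Q.Has v → S.Has (g (flo (2 * h) h v)) := by
    intro c hc Q hQ
    obtain ⟨S, hS1, hS2, hS3⟩ := hP.cel c hc _ (G2_flr hh hQ)
    refine ⟨S, hS1, ?_, fun v hv => hS3 _ (flo_has (2 * h) (h : ℤ) (by omega) Q v hv)⟩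
    have h1 := flrQ_dim (2 * h) (h : ℤ) Q
    have h2 := G2_dim hKd hQ
    have h3 := hKd c hc
    omega
  -- the two kinds of core vertices
  have hcc : ∀ x κ, R x κ → (∃ c ∈ K, c.dim = n + 1 ∧ InI (2 * h * L) c x ∧ Rc c x κ) ∨
      ∃ e ∈ K, e.dim = n ∧ κ ∈ Ty ∧ κ ∈ C e ∧ x = mul (2 * h) (p e κ) := by
    intro x κ hx
    rcases hG.Rcs x κ hx with ⟨c, hc, hd, hb⟩ | hr
    · have h1 := (hG.Rin c hc hd x κ hb).1 hx
      by_cases h2 : InI (2 * h * L) c x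
      · exact Or.inl ⟨c, hc, hd, h2, h1⟩
      · obtain ⟨q, ⟨e, he, hde, _, hκ1, hκ2, hq⟩, hxq⟩ := ((hG.loc c hc hd).bnd x κ hb h2).1 h1
        exact Or.inr ⟨e, he, hde, hκ1, hκ2, by rw [hxq, hq]⟩
    · exact Or.inr hr
  -- core vertices in the box of a cell of dimension at most `n`
  have hlow : ∀ c ∈ K, c.dim ≤ n → ∀ x κ, R x κ → InB (2 * h * L) c x →
      κ ∈ Ty ∧ κ ∈ C c ∧ c.dim = n ∧ x = mul (2 * h) (p c κ) := by
    intro c hc hd x κ hx hb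
    rcases hcc x κ hx with ⟨c', hc', hd', hi, _⟩ | ⟨e, he, hde, hκ1, hκ2, hxe⟩
    · have := Cube.le_dim (G2_le hM hi hb)
      omega
    · have hi : InI (2 * h * L) e x := by
        rw [hxe]
        exact G2_mul hh (hP.pin e he hde.ge κ hκ1 hκ2)
      have hle := G2_le hM hi hb
      have hec : e = c := G2_eqd hle (by omega)
      subst hec
      exact ⟨hκ1, hκ2, hde, hxe⟩
  refine ⟨⟨hG.feq, ?_, hG.req, ?_, ?_, ?_, ?_, ?_, ?_⟩, ?_, ?_, ?_⟩
  · -- vmp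
    intro c hc Q hQ
    rcases Nat.lt_or_ge n c.dim with hd | hd
    · have hd' : c.dim = n + 1 := le_antisymm (hKd c hc) hd
      rcases (hG.loc c hc hd').cub Q hQ with h1 | ⟨⟨S, hS1, hS2, hS3⟩, _⟩
      · obtain ⟨S, hS1, hS2, hS3⟩ := hgs c hc Q hQ
        refine ⟨S, hS1, hS2, fun v hv => ?_⟩
        rw [hG.fin c hc hd' v (inb_of_has hQ hv), h1 v hv]
        exact hS3 v hv
      · refine ⟨S, hS1, by omega, fun v hv => ?_⟩
        rw [hG.fin c hc hd' v (inb_of_has hQ hv)]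
        exact hS3 v hv
    · obtain ⟨S, hS1, hS2, hS3⟩ := hgs c hc Q hQ
      refine ⟨S, hS1, hS2, fun v hv => ?_⟩
      rw [hfl c hc hd v (inb_of_has hQ hv)]
      exact hS3 v hv
  · -- rin
    intro x κ hx c hc hb
    rcases hcc x κ hx with ⟨c', hc', hd', hi, hr⟩ | ⟨e, he, hde, hκ1, hκ2, hxe⟩
    · exact hC.mon c hc c' (G2_le hM hi hb) ((hG.loc c' hc' hd').box x κ hr).2.1
    · have hi : InI (2 * h * L) e x := by
        rw [hxe]
        exact G2_mul hh (hP.pin e he hde.ge κ hκ1 hκ2)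
      exact hC.mon c hc e (G2_le hM hi hb) hκ2
  · -- rdm
    intro x κ hx
    rcases hcc x κ hx with ⟨c', hc', hd', hi, hr⟩ | ⟨e, he, hde, hκ1, hκ2, hxe⟩
    · exact ((hG.loc c' hc' hd').box x κ hr).2.2
    · exact (hT.dim κ hκ1).2
  · -- has
    intro Q hQ x κ hx hQx v hv
    obtain ⟨c, hc, hQc⟩ := hQ
    rcases Nat.lt_or_ge n c.dim with hd | hd
    · have hd' : c.dim = n + 1 := le_antisymm (hKd c hc) hd
      have h1 := (hG.Rin c hc hd' x κ (inb_of_has hQc hQx)).1 hx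
      rw [hG.fin c hc hd' v (inb_of_has hQc hv)]
      exact (hG.loc c hc hd').has x κ h1 Q hQc hQx v hv
    · obtain ⟨h1, h2, h3, h4⟩ := hlow c hc hd x κ hx (inb_of_has hQc hQx)
      rw [hfl c hc hd v (inb_of_has hQc hv)]
      have h5 : flo (2 * h) h v = p c κ := by
        refine G2_flo hG.h2 ?_
        rw [← h4]
        exact has_cls hQx hv
      rw [h5]
      exact hP.phas c hc h3.ge κ h1 h2
  · -- nes
    intro Q hQ x κ x' κ' hx hx' hQx hQx'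
    obtain ⟨c, hc, hQc⟩ := hQ
    rcases Nat.lt_or_ge n c.dim with hd | hd
    · have hd' : c.dim = n + 1 := le_antisymm (hKd c hc) hd
      have h1 := (hG.Rin c hc hd' x κ (inb_of_has hQc hQx)).1 hx
      have h2 := (hG.Rin c hc hd' x' κ' (inb_of_has hQc hQx')).1 hx'
      exact (hG.loc c hc hd').nes x κ x' κ' h1 h2 (has_cls hQx hQx')
    · obtain ⟨h1, h2, h3, h4⟩ := hlow c hc hd x κ hx (inb_of_has hQc hQx)
      obtain ⟨k1, k2, k3, k4⟩ := hlow c hc hd x' κ' hx' (inb_of_has hQc hQx')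
      have h5 : flo (2 * h) h x' = p c κ := by
        refine G2_flo hG.h2 ?_
        rw [← h4]
        exact has_cls hQx hQx'
      have h6 : flo (2 * h) h x' = p c κ' := by
        refine G2_flo hG.h2 ?_
        rw [← k4]
        exact has_cls hQx' hQx'
      have h7 : p c κ = p c κ' := h5.symm.trans h6
      have h8 := hP.psep c hc h3.ge κ h1 h2 c hc h3.ge κ' k1 k2 (by
        intro j
        rw [h7]
        simp only [sub_self, abs_zero]
        positivity)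
      rw [h8.2]
      exact Or.inl (Cube.le_refl' _)
  · -- con
    intro c hc hd σ hσ x κ x' κ' hb hb' hx hx' hle hle'
    have h1 := (hG.Rin c hc hd x κ hb).1 hx
    have h2 := (hG.Rin c hc hd x' κ' hb').1 hx'
    have h3 := (hG.loc c hc hd).con σ hσ x κ x' κ' h1 h2 hle hle'
    refine cnn_mono ?_ h3
    rintro y ⟨hy1, κ₁, hy2, hy3⟩
    exact ⟨hy1, κ₁, (hG.Rin c hc hd y κ₁ hy1).2 hy2, hy3⟩
  · -- ess
    intro u hu hd
    obtain ⟨c, hc, huc⟩ := hu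
    have hd' : c.dim = n + 1 := le_antisymm (hKd c hc) (hd ▸ G2_dim hKd huc)
    rcases (hG.loc c hc hd').ess u huc hd with ⟨x, κ, hx, hr⟩ | ⟨S, hS1, hS2⟩
    · exact Or.inl ⟨x, κ, hx, (hG.Rin c hc hd' x κ (inb_of_has huc hx)).2 hr⟩
    · refine Or.inr ⟨S, hS1, fun v hv => ?_⟩
      rw [hG.fin c hc hd' v (inb_of_has huc hv)]
      exact hS2 v hv
  · intro c hc hd w hw hwC hwd
    obtain ⟨x, hx⟩ := hG.lty c hc hd w hw hwC hwd
    have hb := ((hG.loc c hc hd).box x w hx).1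
    exact ⟨x, hb, (hG.Rin c hc hd x w hb).2 hx⟩
  · intro e he hd κ hκ hκC
    exact ⟨mul (2 * h) (p e κ), inb_of_ini (G2_mul hh (hP.pin e he hd.ge κ hκ hκC)),
      hG.Rpt e he hd κ hκ hκC⟩
  · intro Q hQ hd
    obtain ⟨c, hc, hQc⟩ := hQ
    have hd' : c.dim = n + 1 := le_antisymm (hKd c hc) (hd ▸ G2_dim hKd hQc)
    rcases (hG.loc c hc hd').cub Q hQc with h1 | ⟨⟨S, hS1, hS2, hS3⟩, hS'⟩
    · left
      intro v hv
      rw [hG.fin c hc hd' v (inb_of_has hQc hv), h1 v hv]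
    · refine Or.inr ⟨⟨S, hS2, fun v hv => ?_⟩, hS'⟩
      rw [hG.fin c hc hd' v (inb_of_has hQc hv)]
      exact hS3 v hv

end AGE
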