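import Mathlib

/-!
# Project AGE, module LIM1: the limit functions

Iterating `F k ↦ σ k (F (k + 1))` gives a geometrically convergent sequence of functions; its limit is continuous,
compatible with the projections and takes values in the closed sets `B k`.
-/

set_option autoImplicit false

noncomputable section

namespace AGE

open Filter Topology

private def LIM1_G {X : Type} {J : ℕ → Type} (F : ∀ k, X → J k → ℝ) (M : ℕ → ℕ)
    (e : ∀ k, J k → J (k + 1)) : ℕ → ∀ k, X → J k → ℝ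
  | 0, k, x, j => F k x j
  | m + 1, k, x, j => LIM1_G F M e m (k + 1) x (e k j) / (M k : ℝ)

private theorem LIM1_step {X : Type} {J : ℕ → Type} {F : ∀ k, X → J k → ℝ} {M : ℕ → ℕ}
    {e : ∀ k, J k → J (k + 1)} (hM : ∀ k, 8 ≤ M k)
    (hb : ∀ k x j, |F (k + 1) x (e k j) / (M k : ℝ) - F k x j| ≤ 3) (m : ℕ) :
    ∀ k x j, dist (LIM1_G F M e m k x j) (LIM1_G F M e (m + 1) k x j) ≤ 3 * (1 / 8 : ℝ) ^ m := by
  induction m with
  | zero =>
    intro k x j
    rw [pow_zero, mul_one, dist_comm, Real.dist_eq]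
    exact hb k x j
  | succ m ih =>
    intro k x j
    have h1 := ih (k + 1) x (e k j)
    rw [Real.dist_eq] at h1 ⊢
    show |LIM1_G F M e m (k + 1) x (e k j) / (M k : ℝ) -
      LIM1_G F M e (m + 1) (k + 1) x (e k j) / (M k : ℝ)| ≤ _
    have h2 : (8 : ℝ) ≤ (M k : ℝ) := by exact_mod_cast hM k
    have h3 : (0 : ℝ) < (M k : ℝ) := by linarith
    rw [← sub_div, abs_div, abs_of_pos h3, div_le_iff₀ h3]
    have h4 : (0 : ℝ) ≤ 3 * (1 / 8 : ℝ) ^ (m + 1) := by positivity
    have h5 : 3 * (1 / 8 : ℝ) ^ m = 3 * (1 / 8 : ℝ) ^ (m + 1) * 8 := by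
      rw [pow_succ]
      ring
    calc _ ≤ 3 * (1 / 8 : ℝ) ^ m := h1
      _ = 3 * (1 / 8 : ℝ) ^ (m + 1) * 8 := h5
      _ ≤ 3 * (1 / 8 : ℝ) ^ (m + 1) * (M k : ℝ) := mul_le_mul_of_nonneg_left h2 h4

theorem lim1 {X : Type} [TopologicalSpace X] (J : ℕ → Type) (F : ∀ k, X → J k → ℝ)
    (hFc : ∀ k, Continuous (F k)) (M : ℕ → ℕ) (hM : ∀ k, 8 ≤ M k)
    (e : ∀ k, J k → J (k + 1))
    (hb : ∀ k x j, |F (k + 1) x (e k j) / (M k : ℝ) - F k x j| ≤ 3)
    (A B : ∀ k, Set (J k → ℝ)) (hA : ∀ k x, F k x ∈ A k) (hBA : ∀ k, B k ⊆ A k)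
    (hAB : ∀ k, ∀ y ∈ A (k + 1), (fun j => y (e k j) / (M k : ℝ)) ∈ B k)
    (hB : ∀ k, IsClosed (B k)) :
    ∃ Z : ∀ k, X → J k → ℝ, (∀ k, Continuous (Z k)) ∧
      (∀ k x j, Z k x j = Z (k + 1) x (e k j) / (M k : ℝ)) ∧
      (∀ k x j, |Z k x j - F k x j| ≤ 7 / 2) ∧ ∀ k x, Z k x ∈ B k := by
  have hs := fun m => LIM1_step hM hb m
  have hlim : ∀ k x j, ∃ z : ℝ, Tendsto (fun m => LIM1_G F M e m k x j) atTop (𝓝 z) := fun k x j =>
    cauchySeq_tendsto_of_complete
      (cauchySeq_of_le_geometric (1 / 8) 3 (by norm_num) fun m => hs m k x j)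
  choose Z hZ using hlim
  have hd : ∀ k x j m, dist (LIM1_G F M e m k x j) (Z k x j) ≤ 3 * (1 / 8 : ℝ) ^ m / (1 - 1 / 8) :=
    fun k x j m => dist_le_of_le_geometric_of_tendsto (1 / 8) 3 (by norm_num)
      (fun m => hs m k x j) (hZ k x j) m
  have hGc : ∀ m k, Continuous (LIM1_G F M e m k) := by
    intro m
    induction m with
    | zero =>
      intro k
      exact hFc k
    | succ m ih =>
      intro k
      refine continuous_pi fun j => ?_
      exact ((continuous_apply (e k j)).comp (ih (k + 1))).div_const _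
  have hGB : ∀ m k x, LIM1_G F M e (m + 1) k x ∈ B k := by
    intro m
    induction m with
    | zero =>
      intro k x
      exact hAB k _ (hA (k + 1) x)
    | succ m ih =>
      intro k x
      exact hAB k _ (hBA _ (ih (k + 1) x))
  have hgeo : Tendsto (fun m : ℕ => 3 * (1 / 8 : ℝ) ^ m / (1 - 1 / 8)) atTop (𝓝 0) := by
    have h1 := (tendsto_pow_atTop_nhds_zero_of_lt_one (r := (1 / 8 : ℝ)) (by norm_num)
      (by norm_num)).const_mul 3
    have h2 := h1.div_const (1 - 1 / 8 : ℝ)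
    rwa [mul_zero, zero_div] at h2
  refine ⟨Z, fun k => continuous_pi fun j => ?_, fun k x j => ?_, fun k x j => ?_, fun k x => ?_⟩
  · have hu : TendstoUniformly (fun m x => LIM1_G F M e m k x j) (fun x => Z k x j) atTop := by
      rw [Metric.tendstoUniformly_iff]
      intro ε hε
      have h1 := hgeo.eventually (gt_mem_nhds hε)
      filter_upwards [h1] with m hm x
      rw [dist_comm]
      exact (hd k x j m).trans_lt hm
    exact hu.continuous (Frequently.of_forall fun m => (continuous_apply j).comp (hGc m k))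
  · have h1 : Tendsto (fun m => LIM1_G F M e (m + 1) k x j) atTop (𝓝 (Z k x j)) :=
      (hZ k x j).comp (tendsto_add_atTop_nat 1)
    have h2 : Tendsto (fun m => LIM1_G F M e m (k + 1) x (e k j) / (M k : ℝ)) atTop
        (𝓝 (Z (k + 1) x (e k j) / (M k : ℝ))) := (hZ (k + 1) x (e k j)).div_const _
    exact tendsto_nhds_unique h1 h2
  · have h1 := hd k x j 0
    rw [dist_comm, Real.dist_eq] at h1
    have h2 : |Z k x j - F k x j| ≤ 3 * (1 / 8 : ℝ) ^ 0 / (1 - 1 / 8) := h1
    refine h2.trans ?_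
    norm_num
  · have h1 : Tendsto (fun m => LIM1_G F M e (m + 1) k x) atTop (𝓝 (Z k x)) := by
      rw [tendsto_pi_nhds]
      intro j
      exact (hZ k x j).comp (tendsto_add_atTop_nat 1)
    exact (hB k).mem_of_tendsto h1 (Eventually.of_forall fun m => hGB m k x)

end AGE
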