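import Mathlib

/-!
# Project AGE, module LIM5: a Hausdorff image of a compact metrizable space is metrizable

Plan. `X` is second countable (compact metrizable: `secondCountable_of_...`, e.g. through
`TopologicalSpace.metrizableSpaceMetric X` and `SecondCountableTopology` of a compact metric
space). `Y` is compact (`isCompact_range` / `Function.Surjective`), T2, so T3. Second
countability of `Y`: let `B` be a countable basis of `X` (`countableBasis X`), `C` the countable
family of finite unions of members of `B` (`Set.countable_setOf_finite_subset`). For `U ∈ C` put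
`V U := (f '' Uᶜ)ᶜ`, open because `f` is a closed map (`Continuous.isClosedMap`). The sets `V U`
form a basis (`isTopologicalBasis_of_isOpen_of_nhds`): for `y ∈ W` open, `f ⁻¹' {y}` is compact
and contained in the open set `f ⁻¹' W`; cover it by finitely many members of `B` contained in
`f ⁻¹' W` (`IsTopologicalBasis` + `IsCompact.elim_finite_subcover`), `U` their union; then
`y ∈ V U ⊆ W` (surjectivity for the inclusion). Finally
`TopologicalSpace.metrizableSpace_of_t3_secondCountable`. (If Mathlib already has the theorem,
just quote it.)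
-/

set_option autoImplicit false

noncomputable section

namespace AGE

open TopologicalSpace

theorem lim5 {X Y : Type} [TopologicalSpace X] [CompactSpace X] [MetrizableSpace X]
    [TopologicalSpace Y] [T2Space Y] (f : X → Y) (hf : Continuous f)
    (hs : Function.Surjective f) : MetrizableSpace Y := by
  have hX2 : SecondCountableTopology X := by
    let _ := metrizableSpaceMetric X
    infer_instance
  have hYc : CompactSpace Y := by
    have h := isCompact_range hf
    rw [hs.range_eq] at h
    exact ⟨h⟩
  have hcl : IsClosedMap f := hf.isClosedMap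
  -- the countable family
  set B : Set (Set X) := countableBasis X with hB
  have hBc : B.Countable := countable_countableBasis X
  have hBb : IsTopologicalBasis B := isBasis_countableBasis X
  set C : Set (Set (Set X)) := {s | s.Finite ∧ s ⊆ B} with hC
  have hCc : C.Countable := Set.countable_ofPred_finite_subset hBc
  set S : Set (Set Y) := (fun t : Set (Set X) => (f '' (⋃₀ t)ᶜ)ᶜ) '' C with hS
  have hSc : S.Countable := hCc.image _
  have hSb : IsTopologicalBasis S := by
    refine isTopologicalBasis_of_isOpen_of_nhds ?_ ?_
    · rintro _ ⟨t, ht, rfl⟩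
      have h1 : IsOpen (⋃₀ t) := isOpen_sUnion fun u hu => hBb.isOpen (ht.2 hu)
      exact (hcl _ h1.isClosed_compl).isOpen_compl
    · intro y W hy hW
      have hK : IsCompact (f ⁻¹' {y}) := (isClosed_singleton.preimage hf).isCompact
      have hWo : IsOpen (f ⁻¹' W) := hW.preimage hf
      have hcov : ∀ x ∈ f ⁻¹' {y}, ∃ b ∈ B, x ∈ b ∧ b ⊆ f ⁻¹' W := by
        intro x hx
        have hxW : x ∈ f ⁻¹' W := by
          have : f x = y := hx
          show f x ∈ W
          rw [this]
          exact hy
        obtain ⟨b, hb, hxb, hbW⟩ := hBb.exists_subset_of_mem_open hxW hWo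
        exact ⟨b, hb, hxb, hbW⟩
      obtain ⟨b', hb'1, hb'2, hb'3⟩ := hK.elim_finite_subcover_image
        (b := {b | b ∈ B ∧ b ⊆ f ⁻¹' W}) (c := id)
        (fun b hb => hBb.isOpen hb.1)
        (fun x hx => by
          obtain ⟨b, hb, hxb, hbW⟩ := hcov x hx
          exact Set.mem_iUnion₂.mpr ⟨b, ⟨hb, hbW⟩, hxb⟩)
      refine ⟨(f '' (⋃₀ b')ᶜ)ᶜ, ⟨b', ⟨hb'2, fun u hu => (hb'1 hu).1⟩, rfl⟩, ?_, ?_⟩
      · rintro ⟨x, hx, hxy⟩
        apply hx
        have h1 := hb'3 (show x ∈ f ⁻¹' {y} from hxy)
        obtain ⟨u, hu, hxu⟩ := Set.mem_iUnion₂.mp h1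
        exact ⟨u, hu, hxu⟩
      · intro z hz
        obtain ⟨x, rfl⟩ := hs z
        have hx : x ∈ ⋃₀ b' := by
          by_contra hx
          exact hz ⟨x, hx, rfl⟩
        obtain ⟨u, hu, hxu⟩ := hx
        exact (hb'1 hu).2 hxu
  have : SecondCountableTopology Y := hSb.secondCountableTopology hSc
  infer_instance

end AGE
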