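import Pool.Agent.AGE.WDefs

/-!
# Project AGE, layer WIR: definitions, second part (ports)
-/

set_option autoImplicit false

noncomputable section

namespace AGE

variable {V J : Type} [LinearOrder V] [LinearOrder J]

/-- the types of the wires: a finite invariant set of cubes of dimension `n + 1` or `n + 2`, closed
under faces of dimension `n + 1` -/
structure TyOk (n : ℕ) (τJ : Equiv.Perm J) (Ty : Set (Cube J)) : Prop where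
  fin : Ty.Finite
  inv : Inv τJ Ty
  dim : ∀ κ ∈ Ty, n + 1 ≤ κ.dim ∧ κ.dim ≤ n + 2
  fac : ∀ κ ∈ Ty, ∀ σ : Cube J, σ.Le κ → n + 1 ≤ σ.dim → σ ∈ Ty

/-- the coarse map `g` on `Grd L K` with the ports `p d κ`: `d` a cell of dimension `n` or `n + 1`,
`κ` a type in `C d` -/
structure Prt (n : ℕ) (K : Set (Cube V)) (C : Cube V → Set (Cube J)) (τV : Equiv.Perm V)
    (τJ : Equiv.Perm J) (Ty : Set (Cube J)) (L : ℕ) (g : (V → ℤ) → (J → ℤ))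
    (p : Cube V → Cube J → (V → ℤ)) : Prop where
  hL : 0 < L
  equ : Equi τV τJ g
  cel : ∀ c ∈ K, ∀ Q : Cube V, Q.InM L c →
    ∃ S ∈ C c, S.dim ≤ Q.dim ∧ ∀ v, Q.Has v → S.Has (g v)
  peq : ∀ d ∈ K, n ≤ d.dim → ∀ κ ∈ Ty, κ ∈ C d →
    p (d.act τV) (κ.act τJ) = actP τV (p d κ)
  pin : ∀ d ∈ K, n ≤ d.dim → ∀ κ ∈ Ty, κ ∈ C d → InI L d (p d κ)
  pval : ∀ d ∈ K, n ≤ d.dim → ∀ κ ∈ Ty, κ ∈ C d → ∀ c ∈ K, ∀ v, InB L c v →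
    Cls 1 v (p d κ) → g v = g (p d κ)
  phas : ∀ d ∈ K, n ≤ d.dim → ∀ κ ∈ Ty, κ ∈ C d → κ.Has (g (p d κ))
  psep : ∀ d ∈ K, n ≤ d.dim → ∀ κ ∈ Ty, κ ∈ C d → ∀ d' ∈ K, n ≤ d'.dim → ∀ κ' ∈ Ty, κ' ∈ C d' →
    Cls (n + 6) (p d κ) (p d' κ') → d = d' ∧ κ = κ'
  ess : ∀ c ∈ K, ∀ u : Cube V, u.InM L c → u.dim = n + 1 →
    (∃ S : Cube J, S.dim ≤ n ∧ ∀ v, u.Has v → S.Has (g v)) ∨
    ((∃ σ ∈ Ty, σ ∈ C c ∧ σ.dim = n + 1 ∧ ∀ v, u.Has v → σ.Has (g v)) ∧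
      ∀ d ∈ K, n ≤ d.dim → ∀ κ ∈ Ty, κ ∈ C d → ¬ Cls (n + 6) u.lo (p d κ))
  esp : ∀ c ∈ K, ∀ u u' : Cube V, u.InM L c → u'.InM L c → u.dim = n + 1 → u'.dim = n + 1 →
    (¬ ∃ S : Cube J, S.dim ≤ n ∧ ∀ v, u.Has v → S.Has (g v)) →
    (¬ ∃ S : Cube J, S.dim ≤ n ∧ ∀ v, u'.Has v → S.Has (g v)) → Cls 2 u.lo u'.lo → u = u'

/-- the boundary ports of a cell `c` -/
def BP (n : ℕ) (K : Set (Cube V)) (C : Cube V → Set (Cube J)) (Ty : Set (Cube J))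
    (p : Cube V → Cube J → (V → ℤ)) (c : Cube V) (q : V → ℤ) (κ : Cube J) : Prop :=
  ∃ e ∈ K, e.dim = n ∧ e.Le c ∧ κ ∈ Ty ∧ κ ∈ C e ∧ q = p e κ

end AGE
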