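import Pool.Agent.AGE.Defs
import Pool.Agent.AGE.C1a
import Pool.Agent.AGE.C1b
import Pool.Agent.AGE.C2a
import Pool.Agent.AGE.C2b
import Pool.Agent.AGE.C5
import Pool.Agent.AGE.C6a
import Pool.Agent.AGE.C6b
import Pool.Agent.AGE.C6c

/-!
# Project AGE, layer WI (wires, proof of `wir`; note: /team-store/age_wir_h36.md): definitions

`gcel M u` is the smallest cell `c` with `u` inside `M c`. `Lnk M R U P` is the adjacency of
`(n+1)`-cubes inside `M U` through inner `n`-cubes at which the cube `P` is allowed.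
`spc f c` is the cube spanned by the image of the vertices of `c`.
-/

set_option autoImplicit false

noncomputable section

namespace AGE

namespace WI

variable {V J : Type} [LinearOrder V] [LinearOrder J]

/-- the smallest cell `c` with `u.InM M c` -/
def gcel [Fintype V] (M : ℕ) (u : Cube V) : Cube V :=
  ⟨fun i => u.lo i / (M : ℤ), Finset.univ.filter (fun i => i ∈ u.fr ∨ ¬ (M : ℤ) ∣ u.lo i)⟩

/-- two cubes of full dimension inside `M U` meet in a common inner face of codimension one at
which the cube `P` is allowed -/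
def Lnk [Fintype V] (M : ℕ) (R : Cube V → Set (Cube J)) (U : Cube V) (P : Cube J)
    (u u' : Cube V) : Prop :=
  (gcel M u = U ∧ u.dim = U.dim) ∧ (gcel M u' = U ∧ u'.dim = U.dim) ∧
    ∃ v : Cube V, v.dim + 1 = U.dim ∧ gcel M v = U ∧ P ∈ R v ∧ v.Le u ∧ v.Le u'

/-- the cubes of full dimension in `M U` at which `P` is allowed are connected -/
def Cnn [Fintype V] (M : ℕ) (R : Cube V → Set (Cube J)) (U : Cube V) (P : Cube J) : Prop :=
  ∀ u u' : Cube V, gcel M u = U → u.dim = U.dim → P ∈ R u → gcel M u' = U → u'.dim = U.dim →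
    P ∈ R u' → Relation.ReflTransGen (Lnk M R U P) u u'

open Classical in
/-- the cube spanned by the images of the vertices of `c` -/
def spc (f : (V → ℤ) → (J → ℤ)) (c : Cube V) : Cube J :=
  if h : ∃ S : Cube J, Spn f c = Faces S ∧ ∀ v, c.Has v → S.Has (f v) then h.choose
  else ⟨f c.lo, ∅⟩

/-- the data `lam nu xi` satisfy the equations of `Dat` with values in `R` -/
structure DatR (n : ℕ) (K : Set (Cube V)) (R : Cube V → Set (Cube J)) (τV : Equiv.Perm V)
    (τJ : Equiv.Perm J) (φ lam nu xi : Ch V →ₗ[ℤ] Ch J) : Prop where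
  laC : ∀ c ∈ K, c.dim = n → lam (one c) ∈ CC (R c) (n + 1)
  nuC : ∀ c ∈ K, c.dim = n + 1 → nu (one c) ∈ CC (R c) (n + 2)
  xiC : ∀ c ∈ K, c.dim = n → xi (one c) ∈ CC (R c) (n + 2)
  eqE : ∀ c ∈ K, c.dim = n + 1 → φ (one c) + lam (bd (one c)) = bd (nu (one c))
  eqI : ∀ c ∈ K, c.dim = n + 1 → con τV τJ nu (one c) - nu (one c) = xi (bd (one c))

end WI

end AGE
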