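import Pool.Agent.AGE.WI0

/-!
# AGE-WI1: the smallest cell `gcel M u`

`gcel M u` is the least cell `P` with `u` inside `M P`; it is monotone, equivariant and compatible with composition of dilations; the inner faces of
codimension one of a cell have exactly two cofaces.  Everything is coordinatewise.
-/

set_option autoImplicit false

noncomputable section

namespace AGE

namespace WI

variable {V J : Type} [LinearOrder V] [LinearOrder J] [Fintype V]

omit [Fintype V] in
private theorem wi1_hi_mem {Q : Cube V} {j : V} (h : j ∈ Q.fr) : Q.hi j = Q.lo j + 1 := if_pos h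

omit [Fintype V] in
private theorem wi1_hi_not {Q : Cube V} {j : V} (h : j ∉ Q.fr) : Q.hi j = Q.lo j := if_neg h

private theorem wi1_mem {M : ℕ} {u : Cube V} {i : V} :
    i ∈ (gcel M u).fr ↔ i ∈ u.fr ∨ ¬ (M : ℤ) ∣ u.lo i := by
  unfold gcel
  simp

private theorem wi1_lo (M : ℕ) (u : Cube V) (i : V) : (gcel M u).lo i = u.lo i / (M : ℤ) := rfl

private theorem wi1_hi_iff {M : ℕ} (hM : 0 < M) (u : Cube V) (i : V) (h : ℤ) :
    u.hi i ≤ (M : ℤ) * h ↔ (gcel M u).hi i ≤ h := by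
  have hM' : (0 : ℤ) < M := by exact_mod_cast hM
  have key : u.lo i / (M : ℤ) < h ↔ u.lo i < h * M := Int.ediv_lt_iff_lt_mul hM'
  rw [mul_comm h] at key
  by_cases h1 : i ∈ u.fr
  · rw [wi1_hi_mem h1, wi1_hi_mem (wi1_mem.2 (Or.inl h1)), wi1_lo]
    constructor
    · intro h2
      exact key.2 (by omega)
    · intro h2
      exact key.1 (by omega)
  · by_cases h2 : (M : ℤ) ∣ u.lo i
    · have h3 : i ∉ (gcel M u).fr := fun h4 => (wi1_mem.1 h4).elim h1 fun h5 => h5 h2
      rw [wi1_hi_not h1, wi1_hi_not h3, wi1_lo]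
      obtain ⟨q, hq⟩ := h2
      rw [hq, Int.mul_ediv_cancel_left _ hM'.ne']
      exact mul_le_mul_iff_right₀ hM'
    · rw [wi1_hi_not h1, wi1_hi_mem (wi1_mem.2 (Or.inr h2)), wi1_lo]
      constructor
      · intro h4
        have h5 : u.lo i ≠ (M : ℤ) * h := fun e => h2 ⟨h, e⟩
        exact key.2 (lt_of_le_of_ne h4 h5)
      · intro h4
        exact (key.1 (by omega)).le

theorem gcel_le_iff (M : ℕ) (hM : 0 < M) (u P : Cube V) : u.InM M P ↔ (gcel M u).Le P := by
  have hM' : (0 : ℤ) < M := by exact_mod_cast hM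
  refine forall_congr' fun j => ?_
  rw [wi1_hi_iff hM, wi1_lo, Int.le_ediv_iff_mul_le hM', mul_comm (P.lo j)]

theorem gcel_inM (M : ℕ) (hM : 0 < M) (u : Cube V) : u.InM M (gcel M u) :=
  (gcel_le_iff M hM u _).2 (Cube.le_refl' _)

theorem mem_grd_iff (M : ℕ) (hM : 0 < M) (K : Set (Cube V)) (hK : Closed K) (u : Cube V) :
    u ∈ Grd M K ↔ gcel M u ∈ K := by
  constructor
  · rintro ⟨P, hP, hu⟩
    exact hK P hP _ ((gcel_le_iff M hM u P).1 hu)
  · intro h
    exact ⟨gcel M u, h, gcel_inM M hM u⟩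

theorem gcel_mono (M : ℕ) (hM : 0 < M) {P Q : Cube V} (h : P.Le Q) :
    (gcel M P).Le (gcel M Q) := by
  rw [← gcel_le_iff M hM]
  intro j
  have h1 := gcel_inM M hM Q j
  exact ⟨h1.1.trans (h j).1, (h j).2.trans h1.2⟩

theorem gcel_act (M : ℕ) (τ : Equiv.Perm V) (u : Cube V) :
    gcel M (u.act τ) = (gcel M u).act τ := by
  apply Cube.ext
  · rfl
  · ext i
    rw [wi1_mem]
    have h1 : i ∈ (u.act τ).fr ↔ τ.symm i ∈ u.fr := by
      simp only [Cube.act, Finset.mem_map_equiv]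
    have h2 : i ∈ ((gcel M u).act τ).fr ↔ τ.symm i ∈ (gcel M u).fr := by
      simp only [Cube.act, Finset.mem_map_equiv]
    rw [h1, h2, wi1_mem]
    exact Iff.rfl

theorem gcel_fr (M : ℕ) (u : Cube V) : u.fr ⊆ (gcel M u).fr :=
  fun _ hi => wi1_mem.2 (Or.inl hi)

theorem gcel_dim (M : ℕ) (u : Cube V) : u.dim ≤ (gcel M u).dim :=
  Finset.card_le_card (gcel_fr M u)

theorem gcel_gcel (M M' : ℕ) (hM : 0 < M) (hM' : 0 < M') (u : Cube V) :
    gcel M (gcel M' u) = gcel (M' * M) u := by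
  have h0 : (0 : ℤ) < M' := by exact_mod_cast hM'
  have h00 : (0 : ℤ) < M := by exact_mod_cast hM
  apply Cube.ext
  · funext i
    rw [wi1_lo, wi1_lo, wi1_lo, Int.ediv_ediv_of_nonneg h0.le]
    push_cast
    rfl
  · ext i
    rw [wi1_mem, wi1_mem, wi1_mem, wi1_lo]
    push_cast
    have h1 : ((M' : ℤ) * M ∣ u.lo i) ↔ ((M' : ℤ) ∣ u.lo i ∧ (M : ℤ) ∣ u.lo i / (M' : ℤ)) := by
      constructor
      · rintro ⟨q, hq⟩
        rw [hq, mul_assoc, Int.mul_ediv_cancel_left _ h0.ne']
        exact ⟨Dvd.intro _ rfl, Dvd.intro _ rfl⟩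
      · rintro ⟨⟨q, hq⟩, h2⟩
        rw [hq, Int.mul_ediv_cancel_left _ h0.ne'] at h2
        obtain ⟨p, hp⟩ := h2
        exact ⟨p, by rw [hq, hp, mul_assoc]⟩
    rw [h1]
    tauto

omit [Fintype V] in
theorem eq_of_le_dim {P Q : Cube V} (h : P.Le Q) (hd : Q.dim ≤ P.dim) : P = Q := by
  have hfr : P.fr = Q.fr := Finset.eq_of_subset_of_card_le (Cube.fr_subset h) hd
  refine Cube.ext (funext fun j => ?_) hfr
  have h1 := h j
  by_cases hj : j ∈ P.fr
  · rw [wi1_hi_mem hj, wi1_hi_mem (hfr ▸ hj)] at h1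
    omega
  · rw [wi1_hi_not hj, wi1_hi_not (hfr ▸ hj)] at h1
    omega

theorem fr_eq_of_dim (M : ℕ) {u : Cube V} (h : u.dim = (gcel M u).dim) :
    u.fr = (gcel M u).fr :=
  Finset.eq_of_subset_of_card_le (gcel_fr M u) h.ge

private theorem wi1_div {M : ℕ} (hM : 0 < M) {a : ℤ} (h : ¬ (M : ℤ) ∣ a) : (a - 1) / (M : ℤ) = a / (M : ℤ) := by
  have hM' : (0 : ℤ) < M := by exact_mod_cast hM
  have e1 := Int.mul_ediv_add_emod a M
  have e2 := Int.emod_nonneg a hM'.ne'
  have e3 := Int.emod_lt_of_pos a hM'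
  have e4 : a % (M : ℤ) ≠ 0 := fun e => h (Int.dvd_of_emod_eq_zero e)
  have e5 : a - 1 = (a % (M : ℤ) - 1) + M * (a / (M : ℤ)) := by omega
  rw [e5, Int.add_mul_ediv_left _ _ hM'.ne', Int.ediv_eq_zero_of_lt (by omega) (by omega), zero_add]

/-- the inner faces of codimension one: `i` is the missing direction, the two cofaces are
`⟨v.lo, U.fr⟩` and `⟨v.lo - e_i, U.fr⟩` -/
theorem coface (M : ℕ) (hM : 0 < M) (U v : Cube V) (hv : v.dim + 1 = U.dim)
    (hc : gcel M v = U) :
    ∃ i ∈ U.fr, v.fr = U.fr.erase i ∧ ¬ (M : ℤ) ∣ v.lo i ∧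
      gcel M ⟨v.lo, U.fr⟩ = U ∧ gcel M ⟨Function.update v.lo i (v.lo i - 1), U.fr⟩ = U ∧
      v = Cube.dn ⟨v.lo, U.fr⟩ i ∧
      v = Cube.up ⟨Function.update v.lo i (v.lo i - 1), U.fr⟩ i ∧
      ∀ u : Cube V, u.dim = U.dim → v.Le u →
        u.fr = U.fr → u = ⟨v.lo, U.fr⟩ ∨ u = ⟨Function.update v.lo i (v.lo i - 1), U.fr⟩ := by
  have hsub : v.fr ⊆ U.fr := by
    rw [← hc]
    exact gcel_fr M v
  have hcard : (U.fr \ v.fr).card = 1 := by
    rw [Finset.card_sdiff_of_subset hsub]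
    have h1 : v.fr.card + 1 = U.fr.card := hv
    omega
  obtain ⟨i, hi⟩ := Finset.card_eq_one.1 hcard
  have hiU : i ∈ U.fr ∧ i ∉ v.fr := by
    have : i ∈ U.fr \ v.fr := by
      rw [hi]
      exact Finset.mem_singleton_self i
    exact Finset.mem_sdiff.1 this
  have hfr : v.fr = U.fr.erase i := by
    ext j
    rw [Finset.mem_erase]
    constructor
    · intro hj
      exact ⟨fun e => hiU.2 (e ▸ hj), hsub hj⟩
    · rintro ⟨hne, hj⟩
      by_contra hn
      have : j ∈ U.fr \ v.fr := Finset.mem_sdiff.2 ⟨hj, hn⟩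
      rw [hi, Finset.mem_singleton] at this
      exact hne this
  have hnd : ¬ (M : ℤ) ∣ v.lo i := by
    have h1 : i ∈ (gcel M v).fr := by
      rw [hc]
      exact hiU.1
    exact (wi1_mem.1 h1).resolve_left hiU.2
  have hlo : ∀ j, v.lo j / (M : ℤ) = U.lo j := fun j => by
    rw [← wi1_lo, hc]
  have hdv : ∀ j, ¬ (M : ℤ) ∣ v.lo j → j ∈ U.fr := fun j hj => by
    rw [← hc]
    exact wi1_mem.2 (Or.inr hj)
  refine ⟨i, hiU.1, hfr, hnd, ?_, ?_, ?_, ?_, ?_⟩
  · apply Cube.ext
    · funext j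
      rw [wi1_lo]
      exact hlo j
    · ext j
      rw [wi1_mem]
      exact ⟨fun h => h.elim id (hdv j), Or.inl⟩
  · apply Cube.ext
    · funext j
      rw [wi1_lo]
      show Function.update v.lo i (v.lo i - 1) j / (M : ℤ) = U.lo j
      by_cases hj : j = i
      · subst hj
        rw [Function.update_self, wi1_div hM hnd]
        exact hlo _
      · rw [Function.update_of_ne hj]
        exact hlo j
    · ext j
      rw [wi1_mem]
      show j ∈ U.fr ∨ ¬ (M : ℤ) ∣ Function.update v.lo i (v.lo i - 1) j ↔ j ∈ U.fr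
      by_cases hj : j = i
      · subst hj
        exact ⟨fun _ => hiU.1, fun h => Or.inl h⟩
      · rw [Function.update_of_ne hj]
        exact ⟨fun h => h.elim id (hdv j), Or.inl⟩
  · exact Cube.ext rfl hfr
  · apply Cube.ext
    · show v.lo = Function.update (Function.update v.lo i (v.lo i - 1)) i
        (Function.update v.lo i (v.lo i - 1) i + 1)
      rw [Function.update_self, Function.update_idem, sub_add_cancel, Function.update_eq_self]
    · exact hfr
  · intro u _ hle hufr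
    have hother : ∀ j, j ≠ i → u.lo j = v.lo j := by
      intro j hj
      have h1 := hle j
      by_cases h2 : j ∈ U.fr
      · have h3 : j ∈ v.fr := by
          rw [hfr]
          exact Finset.mem_erase.2 ⟨hj, h2⟩
        rw [wi1_hi_mem h3, wi1_hi_mem (hufr ▸ h2)] at h1
        omega
      · rw [wi1_hi_not (fun h => h2 (hsub h)), wi1_hi_not (hufr ▸ h2)] at h1
        omega
    have h1 := hle i
    rw [wi1_hi_not hiU.2, wi1_hi_mem (hufr ▸ hiU.1)] at h1
    by_cases h2 : u.lo i = v.lo i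
    · left
      refine Cube.ext (funext fun j => ?_) hufr
      by_cases hj : j = i
      · rw [hj]
        exact h2
      · exact hother j hj
    · right
      refine Cube.ext (funext fun j => ?_) hufr
      show u.lo j = Function.update v.lo i (v.lo i - 1) j
      by_cases hj : j = i
      · rw [hj, Function.update_self]
        omega
      · rw [Function.update_of_ne hj]
        exact hother j hj

end WI

end AGE
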