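import Pool.Agent.AGE.WI1

/-!
# AGE-WI2: moving one unit of flux along links

Plan. Induction on `Relation.ReflTransGen`. For `u = u'` take `l = 0`. One link `u, u'` through the inner `n`-cube `v` (WI1 `coface`: the cubes of full dimension in `M U` above
`v` are exactly `u₁ = ⟨v.lo, U.fr⟩` and `u₂ = ⟨v.lo - e_i, U.fr⟩`; if `u = u'` take `l = 0`): `l = ±` the indicator of `v`: for `w` of full dimension with `gcel M w = U`
(so `w.fr = U.fr`), `bd (one w) = Σ_{j ∈ w.fr} sg w.fr j • (one (w.up j) - one (w.dn j))`, and `v = w.dn j` only for `w = u₁`, `j = i`, `v = w.up j` only for `w = u₂`,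
`j = i` (compare the free coordinates and the coordinate `i`). Then add the functions `l` (`Finsupp.linearCombination ℤ l` is additive in `l`).
`linearCombination ℤ l (one v) = l v`.
-/

set_option autoImplicit false

noncomputable section

namespace AGE

namespace WI

variable {V J : Type} [LinearOrder V] [LinearOrder J] [Fintype V]

omit [Fintype V] in
private theorem WI2_lc (l : Cube V → ℤ) (w : Cube V) :
    Finsupp.linearCombination ℤ l (bd (one w)) = ∑ j ∈ w.fr, sg w.fr j * (l (w.up j) - l (w.dn j)) := by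
  have h1 : ∀ Q : Cube V, Finsupp.linearCombination ℤ l (one Q) = l Q := by
    intro Q
    rw [one, Finsupp.linearCombination_single, one_smul]
  have h2 : bd (one w) = bdQ w := by
    rw [bd, one, Finsupp.linearCombination_single, one_smul]
  rw [h2, bdQ, map_sum]
  refine Finset.sum_congr rfl fun j _ => ?_
  rw [map_smul, map_sub, h1, h1, smul_eq_mul]

omit [Fintype V] in
private theorem WI2_sg (s : Finset V) (j : V) : sg s j * sg s j = 1 := by
  unfold sg
  rw [← pow_add, ← two_mul, pow_mul, neg_one_sq, one_pow]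

omit [Fintype V] in
private theorem WI2_erase {s : Finset V} {i j : V} (hi : i ∈ s) (h : s.erase j = s.erase i) : j = i := by
  by_contra hne
  have h1 : i ∈ s.erase j := Finset.mem_erase.2 ⟨fun h2 => hne h2.symm, hi⟩
  rw [h] at h1
  exact absurd rfl (Finset.mem_erase.1 h1).1

omit [Fintype V] in
private theorem WI2_dn {U v w : Cube V} {i j : V} (hi : i ∈ U.fr) (hv : v.fr = U.fr.erase i)
    (hw : w.fr = U.fr) : w.dn j = v ↔ j = i ∧ w = ⟨v.lo, U.fr⟩ := by
  constructor
  · intro h
    have h1 : w.fr.erase j = v.fr := congrArg Cube.fr h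
    have h2 : (w.dn j).lo = v.lo := congrArg Cube.lo h
    rw [hw, hv] at h1
    exact ⟨WI2_erase hi h1, Cube.ext h2 hw⟩
  · rintro ⟨rfl, h⟩
    rw [h]
    exact Cube.ext rfl hv.symm

omit [Fintype V] in
private theorem WI2_up {U v w : Cube V} {i j : V} (hi : i ∈ U.fr) (hv : v.fr = U.fr.erase i)
    (hw : w.fr = U.fr) : w.up j = v ↔ j = i ∧ w = ⟨Function.update v.lo i (v.lo i - 1), U.fr⟩ := by
  constructor
  · intro h
    have h1 : w.fr.erase j = v.fr := congrArg Cube.fr h
    have h2 : Function.update w.lo j (w.lo j + 1) = v.lo := congrArg Cube.lo h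
    rw [hw, hv] at h1
    have h3 := WI2_erase hi h1
    subst h3
    refine ⟨rfl, Cube.ext ?_ hw⟩
    show w.lo = Function.update v.lo j (v.lo j - 1)
    rw [← h2]
    funext k
    by_cases hk : k = j
    · subst hk
      rw [Function.update_self, Function.update_self]
      ring
    · rw [Function.update_of_ne hk, Function.update_of_ne hk]
  · rintro ⟨rfl, h⟩
    rw [h]
    refine Cube.ext ?_ hv.symm
    funext k
    by_cases hk : k = j
    · subst hk
      simp [Cube.up]
    · simp [Cube.up]

omit [LinearOrder J] in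
open Classical in
/-- one link -/
private theorem WI2_link (M : ℕ) (hM : 0 < M) (R : Cube V → Set (Cube J)) (U : Cube V) (P : Cube J)
    (u u' : Cube V) (h : Lnk M R U P u u') :
    ∃ l : Cube V → ℤ, (∀ v, l v ≠ 0 → v.dim + 1 = U.dim ∧ gcel M v = U ∧ P ∈ R v) ∧
      ∀ w : Cube V, gcel M w = U → w.dim = U.dim →
        Finsupp.linearCombination ℤ l (bd (one w)) =
          (if w = u' then (1 : ℤ) else 0) - (if w = u then (1 : ℤ) else 0) := by
  obtain ⟨⟨hu1, hu2⟩, ⟨hu1', hu2'⟩, v, hv1, hv2, hv3, hv4, hv5⟩ := h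
  by_cases huu : u = u'
  · refine ⟨0, fun v hv => absurd rfl hv, fun w _ _ => ?_⟩
    rw [WI2_lc, huu, sub_self]
    refine Finset.sum_eq_zero fun j _ => ?_
    simp
  · obtain ⟨i, hi, hvf, -, -, -, -, -, hco⟩ := coface M hM U v hv1 hv2
    have hfr : ∀ w : Cube V, gcel M w = U → w.dim = U.dim → w.fr = U.fr := by
      intro w h1 h2
      have h3 := fr_eq_of_dim M (u := w) (by rw [h1]; exact h2)
      rw [h1] at h3
      exact h3
    have key : ∀ s : ℤ, ∀ w : Cube V, gcel M w = U → w.dim = U.dim →
        Finsupp.linearCombination ℤ (fun x => if x = v then s else 0) (bd (one w)) =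
          sg U.fr i * ((if w = ⟨Function.update v.lo i (v.lo i - 1), U.fr⟩ then s else 0) -
            (if w = ⟨v.lo, U.fr⟩ then s else 0)) := by
      intro s w h1 h2
      have hwf := hfr w h1 h2
      rw [WI2_lc, hwf, Finset.sum_eq_single i]
      · have g1 : (w.up i = v) = (w = ⟨Function.update v.lo i (v.lo i - 1), U.fr⟩) := by
          rw [WI2_up hi hvf hwf]
          simp
        have g2 : (w.dn i = v) = (w = ⟨v.lo, U.fr⟩) := by
          rw [WI2_dn hi hvf hwf]
          simp
        simp only [g1, g2]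
      · intro j _ hj
        rw [if_neg (fun h => hj ((WI2_up hi hvf hwf).1 h).1), if_neg (fun h => hj ((WI2_dn hi hvf hwf).1 h).1),
          sub_self, mul_zero]
      · intro h
        exact absurd hi h
    have hsup : ∀ s : ℤ, ∀ x, (if x = v then s else 0) ≠ 0 → x.dim + 1 = U.dim ∧ gcel M x = U ∧ P ∈ R x := by
      intro s x hx
      have hxv : x = v := by
        by_contra hne
        rw [if_neg hne] at hx
        exact hx rfl
      rw [hxv]
      exact ⟨hv1, hv2, hv3⟩
    have hcu := hco u hu2 hv4 (hfr u hu1 hu2)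
    have hcu' := hco u' hu2' hv5 (hfr u' hu1' hu2')
    have hss := WI2_sg U.fr i
    rcases hcu with hcu | hcu <;> rcases hcu' with hcu' | hcu'
    · exact absurd (hcu.trans hcu'.symm) huu
    · refine ⟨fun x => if x = v then sg U.fr i else 0, hsup _, fun w h1 h2 => ?_⟩
      rw [key _ w h1 h2, ← hcu, ← hcu']
      split_ifs <;> simp [hss]
    · refine ⟨fun x => if x = v then - sg U.fr i else 0, hsup _, fun w h1 h2 => ?_⟩
      rw [key _ w h1 h2, ← hcu, ← hcu']
      split_ifs <;> simp [hss]
    · exact absurd (hcu.trans hcu'.symm) huu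

open Classical in
theorem flux (M : ℕ) (hM : 0 < M) (R : Cube V → Set (Cube J)) (U : Cube V) (P : Cube J)
    (u u' : Cube V) (h : Relation.ReflTransGen (Lnk M R U P) u u') :
    ∃ l : Cube V → ℤ, (∀ v, l v ≠ 0 → v.dim + 1 = U.dim ∧ gcel M v = U ∧ P ∈ R v) ∧
      ∀ w : Cube V, gcel M w = U → w.dim = U.dim →
        Finsupp.linearCombination ℤ l (bd (one w)) =
          (if w = u' then (1 : ℤ) else 0) - (if w = u then (1 : ℤ) else 0) := by
  induction h with
  | refl =>
    refine ⟨0, fun v hv => absurd rfl hv, fun w _ _ => ?_⟩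
    rw [WI2_lc, sub_self]
    refine Finset.sum_eq_zero fun j _ => ?_
    simp
  | tail hab hbc ih =>
    obtain ⟨l1, h1, h2⟩ := ih
    obtain ⟨l2, h3, h4⟩ := WI2_link M hM R U P _ _ hbc
    refine ⟨fun x => l1 x + l2 x, fun x hx => ?_, fun w hw1 hw2 => ?_⟩
    · by_cases h5 : l1 x = 0
      · refine h3 x fun h6 => hx ?_
        simp only [h5, h6, add_zero]
      · exact h1 x h5
    · have h5 := h2 w hw1 hw2
      have h6 := h4 w hw1 hw2
      rw [WI2_lc] at h5 h6 ⊢
      have h7 : ∑ j ∈ w.fr, sg w.fr j * (l1 (w.up j) + l2 (w.up j) - (l1 (w.dn j) + l2 (w.dn j))) =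
          (∑ j ∈ w.fr, sg w.fr j * (l1 (w.up j) - l1 (w.dn j))) +
            ∑ j ∈ w.fr, sg w.fr j * (l2 (w.up j) - l2 (w.dn j)) := by
        rw [← Finset.sum_add_distrib]
        exact Finset.sum_congr rfl fun j _ => by ring
      rw [h7, h5, h6]
      ring

end WI

end AGE
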