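import Pool.Agent.AGE.WI2

/-!
# AGE-WI3: balancing chains inside `M U`

Plan. Let `UU` be the support of `sub M (one U)`: all `u` with `gcel M u = U`, `u.dim = U.dim` (C5 `sub_one_apply`, WI1 `gcel_le_iff`: `u.InM M U` and `u.dim = U.dim` iff
`gcel M u = U` and `u.dim = U.dim`); so `sub M (one U) = Σ_{u ∈ UU} one u`. Let `PP` be the union of the supports of the `g (one u)`, `u ∈ UU` (finite). For `P ∈ PP` choose `u_P ∈ UU` with
`P` in the support of `g (one u_P)`; then `P ∈ R u_P` and `P.dim = i ≥ n + 1`. For `P ∈ PP` and `u ∈ UU` with `P` in the support of `g (one u)` let `l_{P,u}` be the function of WI2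
`flux` for a chain of links from `u_P` to `u` (`hc`). Put `m (one v) = Σ_{P ∈ PP} Σ_{u ∈ UU, P ∈ supp (g (one u))} (g (one u) P * l_{P,u} v) • one P`. Then for `w ∈ UU`
`m (bd (one w)) = Σ_P Σ_u g (one u) P * ([w = u] - [w = u_P]) • one P = g (one w) - Σ_P (Σ_u g (one u) P) [w = u_P] • one P = g (one w)`, because
`Σ_{u ∈ UU} g (one u) = g (sub M (one U)) = 0`.
-/

set_option autoImplicit false

noncomputable section

namespace AGE

namespace WI

variable {V J : Type} [LinearOrder V] [LinearOrder J] [Fintype V]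

/-- the subdivision of a cube is the sum of the cubes of full dimension of its grid -/
theorem mem_sub_support (M : ℕ) (hM : 0 < M) (U u : Cube V) :
    u ∈ (sub M (one U)).support ↔ gcel M u = U ∧ u.dim = U.dim := by
  classical
  rw [Finsupp.mem_support_iff, sub_one_apply M hM U u]
  constructor
  · intro h
    have h1 : u.InM M U ∧ u.dim = U.dim := by
      by_contra hn
      exact h (if_neg hn)
    refine ⟨eq_of_le_dim ((gcel_le_iff M hM u U).mp h1.1) ?_, h1.2⟩
    rw [← h1.2]
    exact gcel_dim M u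
  · intro h
    have h1 : u.InM M U := by
      rw [← h.1]
      exact gcel_inM M hM u
    rw [if_pos ⟨h1, h.2⟩]
    exact one_ne_zero

theorem sub_eq_sum (M : ℕ) (hM : 0 < M) (U : Cube V) :
    sub M (one U) = ∑ u ∈ (sub M (one U)).support, one u := by
  classical
  conv_lhs => rw [← Finsupp.sum_single (sub M (one U))]
  refine Finset.sum_congr rfl fun u hu => ?_
  rw [Finsupp.mem_support_iff, sub_one_apply M hM U u] at hu
  have h1 : u.InM M U ∧ u.dim = U.dim := by
    by_contra hn
    exact hu (if_neg hn)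
  rw [sub_one_apply M hM U u, if_pos h1]
  rfl

private theorem WI3_sum (x : Ch J) (PP : Finset (Cube J)) (h : x.support ⊆ PP) :
    ∑ P ∈ PP, x P • one P = x := by
  have h1 : ∀ P, x P • one P = Finsupp.single P (x P) := by
    intro P
    unfold one
    rw [Finsupp.smul_single, smul_eq_mul, mul_one]
  rw [Finset.sum_congr rfl (fun P _ => h1 P)]
  conv_rhs => rw [← Finsupp.sum_single x]
  refine (Finset.sum_subset h fun P _ hP => ?_).symm
  rw [Finsupp.notMem_support_iff.mp hP, Finsupp.single_zero]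

theorem bal (n M : ℕ) (hM : 0 < M) (R : Cube V → Set (Cube J)) (U : Cube V)
    (hU : U.dim = n + 1) (i : ℕ) (hi : n + 1 ≤ i)
    (hc : ∀ P : Cube J, n + 1 ≤ P.dim → Cnn M R U P) (g : Ch V →ₗ[ℤ] Ch J)
    (hg : ∀ u : Cube V, u.dim = n + 1 → gcel M u = U → g (one u) ∈ CC (R u) i)
    (h0 : g (sub M (one U)) = 0) :
    ∃ m : Ch V →ₗ[ℤ] Ch J,
      (∀ v : Cube V, ¬ (v.dim = n ∧ gcel M v = U) → m (one v) = 0) ∧
      (∀ v : Cube V, m (one v) ∈ CC (R v) i) ∧
      (∀ u : Cube V, u.dim = n + 1 → gcel M u = U → m (bd (one u)) = g (one u)) := by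
  classical
  set UU : Finset (Cube V) := (sub M (one U)).support with hUU
  have hmem : ∀ u, u ∈ UU ↔ gcel M u = U ∧ u.dim = U.dim := fun u =>
    mem_sub_support M hM U u
  have hsum : ∑ u ∈ UU, g (one u) = 0 := by
    rw [← map_sum, hUU, ← sub_eq_sum M hM U]
    exact h0
  have hgs : ∀ u ∈ UU, ∀ P, g (one u) P ≠ 0 → P ∈ R u ∧ P.dim = i := by
    intro u hu P hP
    have h1 := (hmem u).mp hu
    have h2 := hg u (h1.2.trans hU) h1.1
    rw [CC, Finsupp.mem_supported] at h2
    exact h2 (Finset.mem_coe.mpr (Finsupp.mem_support_iff.mpr hP))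
  set PP : Finset (Cube J) := UU.biUnion fun u => (g (one u)).support with hPP
  have hch : ∀ P : Cube J, ∃ u : Cube V, P ∈ PP → u ∈ UU ∧ g (one u) P ≠ 0 := by
    intro P
    by_cases hP : P ∈ PP
    · obtain ⟨u, hu, h1⟩ := Finset.mem_biUnion.mp hP
      exact ⟨u, fun _ => ⟨hu, Finsupp.mem_support_iff.mp h1⟩⟩
    · exact ⟨U, fun h => absurd h hP⟩
  choose c hc' using hch
  have hl : ∀ (P : Cube J) (u : Cube V), ∃ l : Cube V → ℤ, (u ∈ UU ∧ g (one u) P ≠ 0) →
      (∀ v, l v ≠ 0 → v.dim + 1 = U.dim ∧ gcel M v = U ∧ P ∈ R v) ∧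
      ∀ w : Cube V, gcel M w = U → w.dim = U.dim →
        Finsupp.linearCombination ℤ l (bd (one w)) =
          (if w = u then (1 : ℤ) else 0) - (if w = c P then (1 : ℤ) else 0) := by
    intro P u
    by_cases hu : u ∈ UU ∧ g (one u) P ≠ 0
    · have hP : P ∈ PP :=
        Finset.mem_biUnion.mpr ⟨u, hu.1, Finsupp.mem_support_iff.mpr hu.2⟩
      obtain ⟨h1, h2⟩ := hc' P hP
      have h3 := hgs u hu.1 P hu.2
      have h4 := hgs (c P) h1 P h2
      have h5 := (hmem u).mp hu.1
      have h6 := (hmem (c P)).mp h1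
      have h7 : Relation.ReflTransGen (Lnk M R U P) (c P) u :=
        hc P (by rw [h3.2]; exact hi) (c P) u h6.1 h6.2 h4.1 h5.1 h5.2 h3.1
      obtain ⟨l, hl1, hl2⟩ := flux M hM R U P (c P) u h7
      exact ⟨l, fun _ => ⟨hl1, hl2⟩⟩
    · exact ⟨fun _ => 0, fun h => absurd h hu⟩
  choose l hl using hl
  let m : Ch V →ₗ[ℤ] Ch J := ∑ P ∈ PP, ∑ u ∈ UU,
    (g (one u) P) • (LinearMap.smulRight (Finsupp.linearCombination ℤ (l P u)) (one P))
  have hm : ∀ x, m x = ∑ P ∈ PP, ∑ u ∈ UU,
      (g (one u) P) • (Finsupp.linearCombination ℤ (l P u) x • one P) := by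
    intro x
    show (∑ P ∈ PP, ∑ u ∈ UU, (g (one u) P) •
      (LinearMap.smulRight (Finsupp.linearCombination ℤ (l P u)) (one P))) x = _
    simp only [LinearMap.sum_apply, LinearMap.smul_apply, LinearMap.smulRight_apply]
  have hone : ∀ (P : Cube J) (u v : Cube V),
      Finsupp.linearCombination ℤ (l P u) (one v) = l P u v := by
    intro P u v
    unfold one
    rw [Finsupp.linearCombination_single, one_smul]
  refine ⟨m, fun v hv => ?_, fun v => ?_, fun w hw hwU => ?_⟩
  · rw [hm]
    refine Finset.sum_eq_zero fun P _ => Finset.sum_eq_zero fun u hu => ?_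
    rw [hone]
    by_cases hz : g (one u) P = 0
    · rw [hz, zero_smul]
    · by_cases hlz : l P u v = 0
      · rw [hlz, zero_smul, smul_zero]
      · exfalso
        have h1 := (hl P u ⟨hu, hz⟩).1 v hlz
        exact hv ⟨by omega, h1.2.1⟩
  · rw [hm]
    refine Submodule.sum_mem _ fun P _ => Submodule.sum_mem _ fun u hu => ?_
    rw [hone]
    by_cases hz : g (one u) P = 0
    · rw [hz, zero_smul]
      exact Submodule.zero_mem _
    · by_cases hlz : l P u v = 0
      · rw [hlz, zero_smul, smul_zero]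
        exact Submodule.zero_mem _
      · have h1 := (hl P u ⟨hu, hz⟩).1 v hlz
        have h2 := hgs u hu P hz
        refine Submodule.smul_mem _ _ (Submodule.smul_mem _ _ ?_)
        exact Finsupp.single_mem_supported ℤ _ ⟨h1.2.2, h2.2⟩
  · have hwm : w ∈ UU := (hmem w).mpr ⟨hwU, hw.trans hU.symm⟩
    rw [hm]
    have h1 : ∀ P ∈ PP, ∑ u ∈ UU,
        (g (one u) P) • (Finsupp.linearCombination ℤ (l P u) (bd (one w)) • one P) =
        g (one w) P • one P := by
      intro P _
      have h2 : ∀ u ∈ UU,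
          (g (one u) P) • (Finsupp.linearCombination ℤ (l P u) (bd (one w)) • one P) =
          (if w = u then g (one u) P else 0) • one P -
            g (one u) P • ((if w = c P then (1 : ℤ) else 0) • one P) := by
        intro u hu
        by_cases hz : g (one u) P = 0
        · rw [hz, zero_smul, zero_smul, ite_self, zero_smul, sub_zero]
        · rw [(hl P u ⟨hu, hz⟩).2 w hwU (hw.trans hU.symm), sub_smul, smul_sub]
          congr 1
          rw [smul_smul]
          congr 1
          split_ifs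
          · rw [mul_one]
          · rw [mul_zero]
      rw [Finset.sum_congr rfl h2, Finset.sum_sub_distrib, ← Finset.sum_smul, ← Finset.sum_smul,
        Finset.sum_ite_eq UU w (fun u => g (one u) P), if_pos hwm]
      have h3 : ∑ u ∈ UU, g (one u) P = 0 := by
        rw [← Finsupp.finsetSum_apply, hsum]
        rfl
      rw [h3, zero_smul, sub_zero]
    rw [Finset.sum_congr rfl h1]
    refine WI3_sum (g (one w)) PP ?_
    intro P hP
    exact Finset.mem_biUnion.mpr ⟨w, hwm, hP⟩

end WI

end AGE
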