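import Pool.Agent.AGE.WI3

/-!
# AGE-WI4: placing the values of a map on the fine grid

Plan. For `e ∈ K`, `e.dim = k` and `P` in the support of `α (one e)` choose a place `v_{e,P}` (`hp`). Put, for `v` with `v.dim = k`, `e = gcel M v ∈ K`, `e.dim = k`:
`β (one v) = Σ_{P ∈ supp (α (one e)), v_{e,P} = v} (α (one e) P) • one P`, and `β (one v) = 0` for the other `v` (`exists_lin`). Then `β (sub M (one e))` is the sum over the places
(WI3 `mem_sub_support`, `sub_eq_sum`), i.e. `α (one e)`.
-/

set_option autoImplicit false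

noncomputable section

namespace AGE

namespace WI

variable {V J : Type} [LinearOrder V] [LinearOrder J] [Fintype V]

theorem plc (k M : ℕ) (hM : 0 < M) (K : Set (Cube V)) (R : Cube V → Set (Cube J))
    (α : Ch V →ₗ[ℤ] Ch J) (i : ℕ)
    (hα : ∀ e ∈ K, e.dim = k → α (one e) ∈ CC Set.univ i)
    (hp : ∀ e ∈ K, e.dim = k → ∀ P ∈ (α (one e)).support,
      ∃ v : Cube V, v.dim = k ∧ gcel M v = e ∧ P ∈ R v) :
    ∃ β : Ch V →ₗ[ℤ] Ch J, (∀ v : Cube V, β (one v) ∈ CC (R v) i) ∧
      (∀ v : Cube V, ¬ (v.dim = k ∧ gcel M v ∈ K ∧ (gcel M v).dim = k) → β (one v) = 0) ∧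
      (∀ e ∈ K, e.dim = k → β (sub M (one e)) = α (one e)) := by
  classical
  have hp' : ∀ e : Cube V, ∀ P : Cube J, ∃ v : Cube V,
      (e ∈ K ∧ e.dim = k ∧ P ∈ (α (one e)).support) →
        v.dim = k ∧ gcel M v = e ∧ P ∈ R v := by
    intro e P
    by_cases h : e ∈ K ∧ e.dim = k ∧ P ∈ (α (one e)).support
    · obtain ⟨v, hv⟩ := hp e h.1 h.2.1 P h.2.2
      exact ⟨v, fun _ => hv⟩
    · exact ⟨e, fun h' => absurd h' h⟩
  choose w hw using hp'
  obtain ⟨β, hβ⟩ := exists_lin (J := V) (J' := J) (fun v : Cube V =>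
    if v.dim = k ∧ gcel M v ∈ K ∧ (gcel M v).dim = k then
      ∑ P ∈ (α (one (gcel M v))).support.filter (fun P => w (gcel M v) P = v),
        (α (one (gcel M v))) P • one P
    else 0)
  refine ⟨β, ?_, ?_, ?_⟩
  · intro v
    rw [hβ v]
    split_ifs with h
    · refine Submodule.sum_mem _ ?_
      intro P hP
      rw [Finset.mem_filter] at hP
      refine Submodule.smul_mem _ _ ?_
      have h1 := hw (gcel M v) P ⟨h.2.1, h.2.2, hP.1⟩
      rw [hP.2] at h1
      have h2 : P.dim = i := by
        have h3 := hα (gcel M v) h.2.1 h.2.2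
        unfold CC at h3
        rw [Finsupp.mem_supported] at h3
        exact (h3 hP.1).2
      have h4 := one_mem (K := R v) h1.2.2
      rw [h2] at h4
      exact h4
    · exact Submodule.zero_mem _
  · intro v h
    rw [hβ v, if_neg h]
  · intro e he hk
    rw [sub_eq_sum M hM e, map_sum]
    have h1 : ∀ v ∈ (sub M (one e)).support, β (one v) =
        ∑ P ∈ (α (one e)).support, if w e P = v then (α (one e)) P • one P else 0 := by
      intro v hv
      rw [mem_sub_support M hM e v] at hv
      rw [hβ v, if_pos ⟨hv.2.trans hk, by rw [hv.1]; exact he, by rw [hv.1]; exact hk⟩, hv.1,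
        Finset.sum_filter]
    rw [Finset.sum_congr rfl h1, Finset.sum_comm]
    have h2 : ∀ P ∈ (α (one e)).support,
        (∑ v ∈ (sub M (one e)).support, if w e P = v then (α (one e)) P • one P else 0) =
          (α (one e)) P • one P := by
      intro P hP
      have h3 := hw e P ⟨he, hk, hP⟩
      have h4 : w e P ∈ (sub M (one e)).support := by
        rw [mem_sub_support M hM e]
        exact ⟨h3.2.1, h3.1.trans hk.symm⟩
      rw [Finset.sum_ite_eq, if_pos h4]
    rw [Finset.sum_congr rfl h2]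
    conv_rhs => rw [← Finsupp.sum_single (α (one e))]
    unfold Finsupp.sum
    refine Finset.sum_congr rfl ?_
    intro P _
    unfold one
    rw [Finsupp.smul_single, smul_eq_mul, mul_one]

end WI

end AGE
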