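import Pool.Agent.AGE.WT0

/-!
# AGE-WT1: the control

`ctl f R Q` is the largest type of a core vertex in `Q` if there is one, and the span of `f (Q)` otherwise.
It is monotone, equivariant, contained in the carrier and contains the image of `Q`.
-/

set_option autoImplicit false

noncomputable section

namespace AGE

namespace WI

variable {V J : Type} [LinearOrder V] [LinearOrder J]

open Classical in
/-- the control: the largest type of a core vertex of `Q`, or the span of `f (Q)` -/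
def ctl (f : (V → ℤ) → (J → ℤ)) (R : (V → ℤ) → Cube J → Prop) (Q : Cube V) : Cube J :=
  if h : ∃ κ : Cube J, (∃ x, Q.Has x ∧ R x κ) ∧ ∀ x κ', Q.Has x → R x κ' → κ'.Le κ then h.choose
  else spc f Q

private theorem WT1_eq {P Q : Cube J} (h : P.Le Q) (hd : Q.dim ≤ P.dim) : P = Q := by
  have hfr : P.fr = Q.fr := Finset.eq_of_subset_of_card_le (Cube.fr_subset h) hd
  refine Cube.ext (funext fun j => ?_) hfr
  have h1 := h j
  unfold Cube.hi at h1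
  rw [hfr] at h1
  split_ifs at h1 <;> omega

private theorem WT1_ex {n : ℕ} {K : Set (Cube V)} {C : Cube V → Set (Cube J)}
    {τV : Equiv.Perm V}
    {τJ : Equiv.Perm J} {M : ℕ} {f : (V → ℤ) → (J → ℤ)} {R : (V → ℤ) → Cube J → Prop}
    (hW : Wst n K C τV τJ M f R) (Q : Cube V) (hQ : Q ∈ Grd M K) (x : V → ℤ) (κ : Cube J)
    (hx : Q.Has x) (hR : R x κ) :
    ∃ κ : Cube J, (∃ x, Q.Has x ∧ R x κ) ∧ ∀ x κ', Q.Has x → R x κ' → κ'.Le κ := by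
  classical
  have h1 : ∃ x κ, Q.Has x ∧ R x κ ∧ κ.dim =
      Nat.findGreatest (fun d => ∃ x κ, Q.Has x ∧ R x κ ∧ κ.dim = d) (n + 2) :=
    Nat.findGreatest_spec (P := fun d => ∃ x κ, Q.Has x ∧ R x κ ∧ κ.dim = d)
      (hW.rdm x κ hR) ⟨x, κ, hx, hR, rfl⟩
  obtain ⟨y, κm, hy, hRm, hdm⟩ := h1
  refine ⟨κm, ⟨y, hy, hRm⟩, fun x' κ' hx' hR' => ?_⟩
  rcases hW.nes Q hQ x' κ' y κm hR' hRm hx' hy with h | h
  · exact h
  · have h2 : κ'.dim ≤ κm.dim := by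
      rw [hdm]
      exact Nat.le_findGreatest (P := fun d => ∃ x κ, Q.Has x ∧ R x κ ∧ κ.dim = d)
        (hW.rdm x' κ' hR') ⟨x', κ', hx', hR', rfl⟩
    rw [WT1_eq h h2]
    exact Cube.le_refl' _

theorem ctl_core {n : ℕ} {K : Set (Cube V)} {C : Cube V → Set (Cube J)} {τV : Equiv.Perm V}
    {τJ : Equiv.Perm J} {M : ℕ} {f : (V → ℤ) → (J → ℤ)} {R : (V → ℤ) → Cube J → Prop}
    (hW : Wst n K C τV τJ M f R) (Q : Cube V) (hQ : Q ∈ Grd M K) (x : V → ℤ) (κ : Cube J)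
    (hx : Q.Has x) (hR : R x κ) :
    κ.Le (ctl f R Q) ∧ ∃ x', Q.Has x' ∧ R x' (ctl f R Q) := by
  have hex := WT1_ex hW Q hQ x κ hx hR
  have h1 : ctl f R Q = hex.choose := dif_pos hex
  rw [h1]
  exact ⟨hex.choose_spec.2 x κ hx hR, hex.choose_spec.1⟩

theorem ctl_span {f : (V → ℤ) → (J → ℤ)} {R : (V → ℤ) → Cube J → Prop} (Q : Cube V)
    (h : ¬ ∃ x κ, Q.Has x ∧ R x κ) : ctl f R Q = spc f Q := by
  refine dif_neg ?_
  rintro ⟨κ, ⟨x, hx, hR⟩, _⟩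
  exact h ⟨x, κ, hx, hR⟩

theorem ctl_mem {n : ℕ} {K : Set (Cube V)} {C : Cube V → Set (Cube J)} {τV : Equiv.Perm V}
    {τJ : Equiv.Perm J} {M : ℕ} {f : (V → ℤ) → (J → ℤ)} {R : (V → ℤ) → Cube J → Prop}
    (hC : Car K C τV τJ) (hW : Wst n K C τV τJ M f R) :
    ∀ c ∈ K, ∀ Q : Cube V, Q.InM M c → ctl f R Q ∈ C c := by
  intro c hc Q hQ
  by_cases h : ∃ x κ, Q.Has x ∧ R x κ
  · obtain ⟨x, κ, hx, hR⟩ := h
    obtain ⟨x', hx', hR'⟩ := (ctl_core hW Q ⟨c, hc, hQ⟩ x κ hx hR).2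
    exact hW.rin x' _ hR' c hc fun j => ⟨(hQ j).1.trans (hx' j).1, (hx' j).2.trans (hQ j).2⟩
  · rw [ctl_span Q h]
    obtain ⟨S, hS, _, hh⟩ := hW.vmp c hc Q hQ
    exact hC.clo c hc S hS _ (spc_le f Q S hh)

theorem ctl_dim {n : ℕ} {K : Set (Cube V)} {C : Cube V → Set (Cube J)} {τV : Equiv.Perm V}
    {τJ : Equiv.Perm J} {M : ℕ} {f : (V → ℤ) → (J → ℤ)} {R : (V → ℤ) → Cube J → Prop}
    (hW : Wst n K C τV τJ M f R) :
    ∀ Q ∈ Grd M K, (ctl f R Q).dim ≤ n + 2 := by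
  intro Q hQ
  by_cases h : ∃ x κ, Q.Has x ∧ R x κ
  · obtain ⟨x, κ, hx, hR⟩ := h
    obtain ⟨x', hx', hR'⟩ := (ctl_core hW Q hQ x κ hx hR).2
    exact hW.rdm x' _ hR'
  · rw [ctl_span Q h]
    obtain ⟨c, hc, hQc⟩ := hQ
    obtain ⟨S, _, hd, hh⟩ := hW.vmp c hc Q hQc
    have h1 := Cube.le_dim (spc_le f Q S hh)
    omega

theorem ctl_mono {n : ℕ} {K : Set (Cube V)} {C : Cube V → Set (Cube J)} {τV : Equiv.Perm V}
    {τJ : Equiv.Perm J} {M : ℕ} {f : (V → ℤ) → (J → ℤ)} {R : (V → ℤ) → Cube J → Prop}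
    (hW : Wst n K C τV τJ M f R) :
    ∀ Q ∈ Grd M K, ∀ P : Cube V, P.Le Q → (ctl f R P).Le (ctl f R Q) := by
  intro Q hQ P hPQ
  have hP : P ∈ Grd M K := by
    obtain ⟨c, hc, hQc⟩ := hQ
    exact ⟨c, hc, fun j => ⟨(hQc j).1.trans (hPQ j).1, (hPQ j).2.trans (hQc j).2⟩⟩
  by_cases h : ∃ x κ, P.Has x ∧ R x κ
  · obtain ⟨x, κ, hx, hR⟩ := h
    obtain ⟨x', hx', hR'⟩ := (ctl_core hW P hP x κ hx hR).2
    exact (ctl_core hW Q hQ x' _ (Cube.has_of_le hPQ hx') hR').1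
  · rw [ctl_span P h]
    by_cases h' : ∃ x κ, Q.Has x ∧ R x κ
    · obtain ⟨x, κ, hx, hR⟩ := h'
      obtain ⟨x', hx', hR'⟩ := (ctl_core hW Q hQ x κ hx hR).2
      exact spc_le f P _ fun v hv => hW.has Q hQ x' _ hR' hx' v (Cube.has_of_le hPQ hv)
    · rw [ctl_span Q h']
      obtain ⟨c, hc, hQc⟩ := hQ
      obtain ⟨S, _, _, hh⟩ := hW.vmp c hc Q hQc
      exact spc_mono f Q P hPQ ⟨S, hh⟩

private theorem WT1_pow {τV : Equiv.Perm V} {τJ : Equiv.Perm J}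
    {R : (V → ℤ) → Cube J → Prop} (hR : ∀ x κ, R x κ → R (actP τV x) (κ.act τJ)) (m : ℕ)
    (x : V → ℤ) (κ : Cube J) (h : R x κ) : R (actP (τV ^ m) x) (κ.act (τJ ^ m)) := by
  induction m with
  | zero =>
    rw [pow_zero, pow_zero, Cube.act_one']
    exact h
  | succ m ih =>
    rw [pow_succ', pow_succ', Cube.act_mul]
    exact hR _ _ ih

private theorem WT1_conv {N : ℕ} {τV : Equiv.Perm V} {τJ : Equiv.Perm J}
    {R : (V → ℤ) → Cube J → Prop} (hR : ∀ x κ, R x κ → R (actP τV x) (κ.act τJ))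
    (hN : 0 < N) (hV : τV ^ N = 1) (hJ : τJ ^ N = 1)
    (x : V → ℤ) (κ : Cube J) (h : R (actP τV x) (κ.act τJ)) : R x κ := by
  have h1 := WT1_pow hR (N - 1) _ _ h
  rw [← Cube.act_mul, ← actP_mul, ← pow_succ, ← pow_succ, Nat.sub_add_cancel hN, hV, hJ,
    Cube.act_one'] at h1
  exact h1

theorem ctl_act {n N : ℕ} {K : Set (Cube V)} {C : Cube V → Set (Cube J)} {τV : Equiv.Perm V}
    {τJ : Equiv.Perm J} {M : ℕ} {f : (V → ℤ) → (J → ℤ)} {R : (V → ℤ) → Cube J → Prop}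
    (hK : Src n N K τV) (hJ : τJ ^ N = 1) (hW : Wst n K C τV τJ M f R) :
    ∀ Q ∈ Grd M K, ctl f R (Q.act τV) = (ctl f R Q).act τJ := by
  intro Q hQ
  have hQ' : Q.act τV ∈ Grd M K := (inv_grd τV M K hK.inv Q).1 hQ
  have hconv := WT1_conv hW.req hK.pos hK.ord hJ
  have hbx : ∀ x : V → ℤ, actP τV (actP τV⁻¹ x) = x := fun x => by
    rw [← actP_mul, mul_inv_cancel, actP_one]
  have hbk : ∀ κ : Cube J, (κ.act τJ⁻¹).act τJ = κ := fun κ => by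
    rw [← Cube.act_mul, mul_inv_cancel, Cube.act_one']
  have hback : ∀ x κ, (Q.act τV).Has x → R x κ → Q.Has (actP τV⁻¹ x) ∧
      R (actP τV⁻¹ x) (κ.act τJ⁻¹) := by
    intro x κ hx hR
    constructor
    · rw [← Cube.act_has τV, hbx]
      exact hx
    · apply hconv
      rw [hbx, hbk]
      exact hR
  by_cases h : ∃ x κ, Q.Has x ∧ R x κ
  · obtain ⟨x, κ, hx, hR⟩ := h
    obtain ⟨x₁, hx₁, hR₁⟩ := (ctl_core hW Q hQ x κ hx hR).2
    have h2 := ctl_core hW (Q.act τV) hQ' (actP τV x₁) ((ctl f R Q).act τJ)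
      ((Cube.act_has τV Q x₁).2 hx₁) (hW.req _ _ hR₁)
    obtain ⟨h3, x', hx', hR'⟩ := h2
    obtain ⟨h4, h5⟩ := hback x' _ hx' hR'
    have h6 := (ctl_core hW Q hQ _ _ h4 h5).1
    rw [← Cube.act_le τJ, hbk] at h6
    exact Cube.le_antisymm' h6 h3
  · have h' : ¬ ∃ x κ, (Q.act τV).Has x ∧ R x κ := by
      rintro ⟨x, κ, hx, hR⟩
      obtain ⟨h4, h5⟩ := hback x κ hx hR
      exact h ⟨_, _, h4, h5⟩
    rw [ctl_span Q h, ctl_span _ h']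
    obtain ⟨c, hc, hQc⟩ := hQ
    obtain ⟨S, _, _, hh⟩ := hW.vmp c hc Q hQc
    exact spc_act τV τJ f hW.equ Q ⟨S, hh⟩

theorem ctl_has {n : ℕ} {K : Set (Cube V)} {C : Cube V → Set (Cube J)} {τV : Equiv.Perm V}
    {τJ : Equiv.Perm J} {M : ℕ} {f : (V → ℤ) → (J → ℤ)} {R : (V → ℤ) → Cube J → Prop}
    (hW : Wst n K C τV τJ M f R) :
    ∀ Q ∈ Grd M K, ∀ v, Q.Has v → (ctl f R Q).Has (f v) := by
  intro Q hQ v hv
  by_cases h : ∃ x κ, Q.Has x ∧ R x κ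
  · obtain ⟨x, κ, hx, hR⟩ := h
    obtain ⟨x', hx', hR'⟩ := (ctl_core hW Q hQ x κ hx hR).2
    exact hW.has Q hQ x' _ hR' hx' v hv
  · rw [ctl_span Q h]
    obtain ⟨c, hc, hQc⟩ := hQ
    obtain ⟨S, _, _, hh⟩ := hW.vmp c hc Q hQc
    exact (spc_spec f Q ⟨S, hh⟩).2 v hv

end WI

end AGE
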