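import Pool.Agent.AGE.WI1
import Pool.Agent.AGE.WDefs

/-!
# AGE-WT2: the cubes of full dimension around a lattice point are linked through the point
-/

set_option autoImplicit false

noncomputable section

namespace AGE

namespace WI

variable {V J : Type} [LinearOrder V] [LinearOrder J] [Fintype V]

omit [LinearOrder V] [Fintype V] in
private theorem wt2_div (M : ℕ) (hM : 0 < M) (a b : ℤ) (h1 : (M : ℤ) * b ≤ a)
    (h2 : a < (M : ℤ) * b + M) : a / (M : ℤ) = b := by
  have hMz : (0 : ℤ) < M := by omega
  have e : a = (a - M * b) + M * b := by ring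
  have h3 : (a - (M : ℤ) * b) / (M : ℤ) = 0 := Int.ediv_eq_zero_of_lt (by linarith) (by linarith)
  rw [e, Int.add_mul_ediv_left _ _ hMz.ne', h3, zero_add]

omit [LinearOrder V] [Fintype V] in
private theorem wt2_ndvd (M : ℕ) (a b : ℤ) (h1 : (M : ℤ) * b < a)
    (h2 : a < (M : ℤ) * b + M) : ¬ (M : ℤ) ∣ a := by
  rintro ⟨c, hc⟩
  have hMz : (0 : ℤ) ≤ M := by omega
  have h3 : b < c := lt_of_mul_lt_mul_left (by linarith) hMz
  have h4 : c < b + 1 := lt_of_mul_lt_mul_left (by rw [mul_add, mul_one]; linarith) hMz
  omega

private theorem wt2_iff (M : ℕ) (U w : Cube V) (h1 : ∀ i, w.lo i / (M : ℤ) = U.lo i)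
    (h2 : ∀ i, (i ∈ U.fr ↔ i ∈ w.fr ∨ ¬ (M : ℤ) ∣ w.lo i)) : gcel M w = U := by
  unfold gcel
  refine Cube.ext (funext h1) ?_
  ext i
  rw [Finset.mem_filter, h2 i]
  constructor
  · rintro ⟨_, h⟩
    exact h
  · intro h
    exact ⟨Finset.mem_univ _, h⟩

private theorem wt2_full (M : ℕ) (hM : 0 < M) (U : Cube V) (a : V → ℤ)
    (h1 : ∀ i ∈ U.fr, (M : ℤ) * U.lo i ≤ a i ∧ a i < (M : ℤ) * U.lo i + M)
    (h2 : ∀ i, i ∉ U.fr → a i = (M : ℤ) * U.lo i) : gcel M ⟨a, U.fr⟩ = U := by
  have hMz : (0 : ℤ) < M := by omega
  refine wt2_iff M U _ ?_ ?_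
  · intro i
    show a i / (M : ℤ) = U.lo i
    by_cases hi : i ∈ U.fr
    · exact wt2_div M hM _ _ (h1 i hi).1 (h1 i hi).2
    · rw [h2 i hi]
      exact Int.mul_ediv_cancel_left _ hMz.ne'
  · intro i
    show i ∈ U.fr ↔ i ∈ U.fr ∨ ¬ (M : ℤ) ∣ a i
    constructor
    · exact Or.inl
    · rintro (h | h)
      · exact h
      · by_contra hi
        rw [h2 i hi] at h
        exact h (Dvd.intro _ rfl)

private theorem wt2_face (M : ℕ) (hM : 0 < M) (U : Cube V) (a : V → ℤ) (k : V) (hk : k ∈ U.fr)
    (h1 : ∀ i ∈ U.fr, (M : ℤ) * U.lo i ≤ a i ∧ a i < (M : ℤ) * U.lo i + M)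
    (h2 : ∀ i, i ∉ U.fr → a i = (M : ℤ) * U.lo i) (h3 : (M : ℤ) * U.lo k < a k) :
    gcel M ⟨a, U.fr.erase k⟩ = U := by
  have hMz : (0 : ℤ) < M := by omega
  refine wt2_iff M U _ ?_ ?_
  · intro i
    show a i / (M : ℤ) = U.lo i
    by_cases hi : i ∈ U.fr
    · exact wt2_div M hM _ _ (h1 i hi).1 (h1 i hi).2
    · rw [h2 i hi]
      exact Int.mul_ediv_cancel_left _ hMz.ne'
  · intro i
    show i ∈ U.fr ↔ i ∈ U.fr.erase k ∨ ¬ (M : ℤ) ∣ a i
    constructor
    · intro hi
      by_cases hik : i = k
      · subst hik
        exact Or.inr (wt2_ndvd M _ _ h3 (h1 i hi).2)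
      · exact Or.inl (Finset.mem_erase.mpr ⟨hik, hi⟩)
    · rintro (h | h)
      · exact (Finset.mem_erase.mp h).2
      · by_contra hi
        rw [h2 i hi] at h
        exact h (Dvd.intro _ rfl)

private theorem wt2_inv (M : ℕ) (hM : 0 < M) (U u : Cube V) (hu : gcel M u = U)
    (hd : u.dim = U.dim) : u.fr = U.fr ∧
      (∀ i ∈ U.fr, (M : ℤ) * U.lo i ≤ u.lo i ∧ u.lo i < (M : ℤ) * U.lo i + M) ∧
      ∀ i, i ∉ U.fr → u.lo i = (M : ℤ) * U.lo i := by
  have hMz : (0 : ℤ) < M := by omega
  have hf : u.fr = U.fr := by
    have := fr_eq_of_dim M (u := u) (by rw [hu]; exact hd)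
    rw [this, hu]
  have hlo : ∀ i, u.lo i / (M : ℤ) = U.lo i := by
    intro i
    rw [← hu]
    rfl
  refine ⟨hf, fun i _ => ?_, fun i hi => ?_⟩
  · rw [← hlo i]
    have h1 := Int.mul_ediv_add_emod (u.lo i) (M : ℤ)
    have h2 := Int.emod_nonneg (u.lo i) hMz.ne'
    have h3 := Int.emod_lt_of_pos (u.lo i) hMz
    constructor
    · linarith
    · linarith
  · have hd : (M : ℤ) ∣ u.lo i := by
      by_contra hn
      apply hi
      rw [← hu]
      exact Finset.mem_filter.mpr ⟨Finset.mem_univ _, Or.inr hn⟩
    rw [← hlo i]
    exact (Int.mul_ediv_cancel' hd).symm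

private theorem wt2_place (M : ℕ) (hM : 0 < M) (U : Cube V) (y y' : V → ℤ) (hy : InB M U y)
    (hy' : InB M U y') (h : ∀ i, |y i - y' i| ≤ 1) :
    ∃ w : Cube V, gcel M w = U ∧ w.dim = U.dim ∧ w.Has y ∧ w.Has y' := by
  have hMz : (0 : ℤ) < M := by omega
  have hin : ∀ i ∈ U.fr, (M : ℤ) * U.hi i = M * U.lo i + M := by
    intro i hi
    unfold Cube.hi
    rw [if_pos hi]
    ring
  have hout : ∀ i, i ∉ U.fr → (M : ℤ) * U.hi i = M * U.lo i := by
    intro i hi
    unfold Cube.hi
    rw [if_neg hi]
  refine ⟨⟨fun i => if i ∈ U.fr ∧ min (y i) (y' i) = (M : ℤ) * U.lo i + M then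
    min (y i) (y' i) - 1 else min (y i) (y' i), U.fr⟩, wt2_full M hM U _ ?_ ?_, rfl, ?_, ?_⟩
  · intro i hi
    have h1 := hy i
    have h2 := hy' i
    rw [hin i hi] at h1 h2
    have h3 := abs_le.mp (h i)
    split_ifs with h4
    · omega
    · have h5 : min (y i) (y' i) ≠ (M : ℤ) * U.lo i + M := fun h5 => h4 ⟨hi, h5⟩
      omega
  · intro i hi
    have h1 := hy i
    have h2 := hy' i
    rw [hout i hi] at h1 h2
    rw [if_neg (fun h4 => hi h4.1)]
    omega
  · intro i
    have h1 := hy i
    have h2 := hy' i
    have h3 := abs_le.mp (h i)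
    unfold Cube.hi
    by_cases hi : i ∈ U.fr
    · rw [hin i hi] at h1 h2
      dsimp only
      rw [if_pos hi]
      split_ifs with h4
      · omega
      · have h5 : min (y i) (y' i) ≠ (M : ℤ) * U.lo i + M := fun h5 => h4 ⟨hi, h5⟩
        omega
    · rw [hout i hi] at h1 h2
      dsimp only
      rw [if_neg hi, if_neg (fun h4 => hi h4.1)]
      omega
  · intro i
    have h1 := hy i
    have h2 := hy' i
    have h3 := abs_le.mp (h i)
    unfold Cube.hi
    by_cases hi : i ∈ U.fr
    · rw [hin i hi] at h1 h2
      dsimp only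
      rw [if_pos hi]
      split_ifs with h4
      · omega
      · have h5 : min (y i) (y' i) ≠ (M : ℤ) * U.lo i + M := fun h5 => h4 ⟨hi, h5⟩
        omega
    · rw [hout i hi] at h1 h2
      dsimp only
      rw [if_neg hi, if_neg (fun h4 => hi h4.1)]
      omega

theorem star_link (M : ℕ) (hM : 0 < M) (U : Cube V) (y : V → ℤ) (hy : InB M U y)
    (R' : Cube V → Set (Cube J)) (P : Cube J)
    (h : ∀ v : Cube V, v.dim + 1 = U.dim → gcel M v = U → v.Has y → P ∈ R' v)
    (u u' : Cube V) (hu : gcel M u = U) (hud : u.dim = U.dim) (huy : u.Has y)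
    (hu' : gcel M u' = U) (hud' : u'.dim = U.dim) (huy' : u'.Has y) :
    Relation.ReflTransGen (Lnk M R' U P) u u' := by
  classical
  obtain ⟨hf', hi', ho'⟩ := wt2_inv M hM U u' hu' hud'
  have key : ∀ (n : ℕ) (u : Cube V), gcel M u = U → u.dim = U.dim → u.Has y →
      (U.fr.filter (fun i => u.lo i ≠ u'.lo i)).card = n →
      Relation.ReflTransGen (Lnk M R' U P) u u' := by
    intro n
    induction n with
    | zero =>
      intro u hu hud huy hn
      obtain ⟨hf, hi, ho⟩ := wt2_inv M hM U u hu hud
      have e : u = u' := by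
        refine Cube.ext (funext fun i => ?_) (hf.trans hf'.symm)
        by_cases hiU : i ∈ U.fr
        · by_contra hne
          have h1 : i ∈ U.fr.filter (fun i => u.lo i ≠ u'.lo i) :=
            Finset.mem_filter.mpr ⟨hiU, hne⟩
          rw [Finset.card_eq_zero.mp hn] at h1
          exact absurd h1 (Finset.notMem_empty i)
        · rw [ho i hiU, ho' i hiU]
      rw [e]
    | succ n ih =>
      intro u hu hud huy hn
      obtain ⟨hf, hi, ho⟩ := wt2_inv M hM U u hu hud
      obtain ⟨i, hmem⟩ : (U.fr.filter (fun i => u.lo i ≠ u'.lo i)).Nonempty := by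
        rw [← Finset.card_pos, hn]
        exact Nat.succ_pos n
      obtain ⟨hiU, hne⟩ := Finset.mem_filter.mp hmem
      have y1 := huy i
      have y2 := huy' i
      unfold Cube.hi at y1 y2
      rw [hf, if_pos hiU] at y1
      rw [hf', if_pos hiU] at y2
      have b1 := hi i hiU
      have b2 := hi' i hiU
      have wmem : gcel M ⟨Function.update u.lo i (u'.lo i), U.fr⟩ = U := by
        refine wt2_full M hM U _ ?_ ?_
        · intro l hl
          by_cases hli : l = i
          · subst hli
            rw [Function.update_self]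
            exact b2
          · rw [Function.update_of_ne hli]
            exact hi l hl
        · intro l hl
          have hli : l ≠ i := fun h => hl (h ▸ hiU)
          rw [Function.update_of_ne hli]
          exact ho l hl
      have why : (⟨Function.update u.lo i (u'.lo i), U.fr⟩ : Cube V).Has y := by
        intro l
        by_cases hli : l = i
        · subst hli
          unfold Cube.hi
          rw [if_pos hiU]
          simp only [Function.update_self]
          exact y2
        · have h1 := huy l
          unfold Cube.hi at h1 ⊢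
          rw [hf] at h1
          simp only [Function.update_of_ne hli]
          exact h1
      have vmem : gcel M ⟨Function.update u.lo i (y i), U.fr.erase i⟩ = U := by
        refine wt2_face M hM U _ i hiU ?_ ?_ ?_
        · intro l hl
          by_cases hli : l = i
          · subst hli
            rw [Function.update_self]
            constructor
            · linarith [b1.1, y1.1]
            · rcases lt_or_gt_of_ne hne with h1 | h1
              · have : y l = u'.lo l := by omega
                rw [this]
                exact b2.2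
              · have : y l = u.lo l := by omega
                rw [this]
                exact b1.2
          · rw [Function.update_of_ne hli]
            exact hi l hl
        · intro l hl
          have hli : l ≠ i := fun h => hl (h ▸ hiU)
          rw [Function.update_of_ne hli]
          exact ho l hl
        · rw [Function.update_self]
          rcases lt_or_gt_of_ne hne with h1 | h1
          · have : u.lo i < y i := by omega
            linarith [b1.1]
          · have : u'.lo i < y i := by omega
            linarith [b2.1]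
      have vdim : (⟨Function.update u.lo i (y i), U.fr.erase i⟩ : Cube V).dim + 1 = U.dim := by
        show (U.fr.erase i).card + 1 = U.fr.card
        exact Finset.card_erase_add_one hiU
      have vy : (⟨Function.update u.lo i (y i), U.fr.erase i⟩ : Cube V).Has y := by
        intro l
        by_cases hli : l = i
        · subst hli
          unfold Cube.hi
          simp only [Function.update_self, Finset.mem_erase, ne_eq, not_true_eq_false,
            false_and, if_false]
          exact ⟨le_refl _, le_refl _⟩
        · have h1 := huy l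
          unfold Cube.hi at h1 ⊢
          rw [hf] at h1
          simp only [Function.update_of_ne hli, Finset.mem_erase, ne_eq, hli,
            not_false_eq_true, true_and]
          exact h1
      have vu : (⟨Function.update u.lo i (y i), U.fr.erase i⟩ : Cube V).Le u := by
        intro l
        by_cases hli : l = i
        · subst hli
          unfold Cube.hi
          simp only [Function.update_self, Finset.mem_erase, ne_eq, not_true_eq_false,
            false_and, if_false]
          rw [hf, if_pos hiU]
          exact y1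
        · unfold Cube.hi
          simp only [Function.update_of_ne hli, Finset.mem_erase, ne_eq, hli,
            not_false_eq_true, true_and]
          rw [hf]
          exact ⟨le_refl _, le_refl _⟩
      have vw : (⟨Function.update u.lo i (y i), U.fr.erase i⟩ : Cube V).Le
          ⟨Function.update u.lo i (u'.lo i), U.fr⟩ := by
        intro l
        by_cases hli : l = i
        · subst hli
          unfold Cube.hi
          simp only [Function.update_self, Finset.mem_erase, ne_eq, not_true_eq_false,
            false_and, if_false]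
          rw [if_pos hiU]
          exact y2
        · unfold Cube.hi
          simp only [Function.update_of_ne hli, Finset.mem_erase, ne_eq, hli,
            not_false_eq_true, true_and]
          exact ⟨le_refl _, le_refl _⟩
      have hcard : (U.fr.filter (fun l =>
          (⟨Function.update u.lo i (u'.lo i), U.fr⟩ : Cube V).lo l ≠ u'.lo l)).card = n := by
        have e : U.fr.filter (fun l =>
            (⟨Function.update u.lo i (u'.lo i), U.fr⟩ : Cube V).lo l ≠ u'.lo l) =
            (U.fr.filter (fun l => u.lo l ≠ u'.lo l)).erase i := by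
          ext l
          rw [Finset.mem_filter, Finset.mem_erase, Finset.mem_filter]
          by_cases hli : l = i
          · subst hli
            simp
          · simp only [Function.update_of_ne hli]
            constructor
            · rintro ⟨h1, h2⟩
              exact ⟨hli, h1, h2⟩
            · rintro ⟨_, h1, h2⟩
              exact ⟨h1, h2⟩
        rw [e, Finset.card_erase_of_mem hmem, hn]
        rfl
      refine Relation.ReflTransGen.head ?_ (ih _ wmem rfl why hcard)
      exact ⟨⟨hu, hud⟩, ⟨wmem, rfl⟩, _, vdim, vmem, h _ vdim vmem vy, vu, vw⟩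
  exact key _ u hu hud huy rfl

theorem pt_place (M : ℕ) (hM : 0 < M) (e : Cube V) (y : V → ℤ) (hy : InB M e y) :
    ∃ w : Cube V, gcel M w = e ∧ w.dim = e.dim ∧ w.Has y := by
  obtain ⟨w, h1, h2, h3, _⟩ := wt2_place M hM e y y hy hy (fun i => by
    rw [sub_self, abs_zero]
    exact zero_le_one)
  exact ⟨w, h1, h2, h3⟩

theorem adj_common (M : ℕ) (hM : 0 < M) (U : Cube V) (y y' : V → ℤ) (hy : InB M U y)
    (hy' : InB M U y') (h : Adj y y') :
    ∃ w : Cube V, gcel M w = U ∧ w.dim = U.dim ∧ w.Has y ∧ w.Has y' := by
  obtain ⟨j, h1, h2⟩ := h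
  refine wt2_place M hM U y y' hy hy' fun i => ?_
  by_cases hi : i = j
  · rw [hi]
    exact h2
  · rw [h1 i hi, sub_self, abs_zero]
    exact zero_le_one

end WI

end AGE
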