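import Pool.Agent.AGE.WT1
import Pool.Agent.AGE.WT2

/-!
# AGE-WT3: the cubes at which `P` is allowed are connected

Plan. `ctl_cnn`. Let `R' Q = Faces (ctl f R Q)`, `P ∈ R' u`, `P ∈ R' u'`, `n + 1 ≤ P.dim`, `u, u'` of full dimension in `M U`. If `u` has no core vertex then by `Wst.ess` there is `S` with `S.dim ≤ n` containing `f (u)`, so
`ctl f R u = spc f u ≤ S` (`ctl_span`, `spc_le`) and `P.dim ≤ n` (`Cube.le_dim`), a contradiction. So by `ctl_core` there are core vertices `x` of `u` and `x'` of `u'` with the types `κ = ctl f R u`,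
`κ' = ctl f R u'`, `P ≤ κ, κ'`. `Wst.con` gives a path `x = y_0, y_1, .., y_k = x'` in `Ge R M U P`, consecutive points `Adj`. By induction along the path: for every cube `w` of full
dimension in `M U` with `w.Has y_j`: `u` is linked to `w`. Start and step: `star_link` (WT2) around `y_j` (for an inner `n`-cube `v` with `v.Has y_j`: `y_j` has a type `κ_j` with `P ≤ κ_j ≤ ctl f R v`,
`ctl_core`), and `adj_common` gives a cube containing `y_j` and `y_(j+1)`. All these cubes are in `Grd M K` (`U ∈ K`, `mem_grd_iff`).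
`ctl_place`: `pt_place` and `ctl_core`.
-/

set_option autoImplicit false

noncomputable section

namespace AGE

namespace WI

variable {V J : Type} [LinearOrder V] [LinearOrder J] [Fintype V]

private theorem WT3_inb {M : ℕ} {U u : Cube V} (hu : u.InM M U) {x : V → ℤ} (hx : u.Has x) : InB M U x :=
  fun j => ⟨(hu j).1.trans (hx j).1, (hx j).2.trans (hu j).2⟩

private theorem WT3_core {n N : ℕ} {K : Set (Cube V)} {C : Cube V → Set (Cube J)} {τV : Equiv.Perm V}
    {τJ : Equiv.Perm J} {M : ℕ} (hM : 0 < M) {f : (V → ℤ) → (J → ℤ)}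
    {R : (V → ℤ) → Cube J → Prop} (hK : Src n N K τV) (hW : Wst n K C τV τJ M f R)
    {U : Cube V} (hU : U ∈ K) (hd : U.dim = n + 1) {P : Cube J} (hP : n + 1 ≤ P.dim)
    {u : Cube V} (hu : gcel M u = U) (hud : u.dim = U.dim) (hPu : P ∈ Faces (ctl f R u)) :
    ∃ x κ, u.Has x ∧ R x κ ∧ P.Le κ := by
  have huG : u ∈ Grd M K := (mem_grd_iff M hM K hK.clo u).2 (by rw [hu]; exact hU)
  by_cases hc : ∃ x κ, u.Has x ∧ R x κ
  · obtain ⟨x, κ, hx, hR⟩ := hc
    obtain ⟨_, x', hx', hR'⟩ := ctl_core hW u huG x κ hx hR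
    exact ⟨x', _, hx', hR', hPu⟩
  · exfalso
    rcases hW.ess u huG (hud.trans hd) with h1 | ⟨S, hS, hS2⟩
    · exact hc h1
    · have h2 : P.Le (ctl f R u) := hPu
      rw [ctl_span u hc] at h2
      have h3 := Cube.le_dim h2
      have h4 := Cube.le_dim (spc_le f u S hS2)
      omega

private theorem WT3_star {n N : ℕ} {K : Set (Cube V)} {C : Cube V → Set (Cube J)} {τV : Equiv.Perm V}
    {τJ : Equiv.Perm J} {M : ℕ} (hM : 0 < M) {f : (V → ℤ) → (J → ℤ)}
    {R : (V → ℤ) → Cube J → Prop} (hK : Src n N K τV) (hW : Wst n K C τV τJ M f R)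
    {U : Cube V} (hU : U ∈ K) {P : Cube J} {y : V → ℤ} (hy : y ∈ Ge R M U P)
    {u u' : Cube V} (hu : gcel M u = U) (hud : u.dim = U.dim) (huy : u.Has y)
    (hu' : gcel M u' = U) (hud' : u'.dim = U.dim) (huy' : u'.Has y) :
    Relation.ReflTransGen (Lnk M (fun Q => Faces (ctl f R Q)) U P) u u' := by
  obtain ⟨hyb, κ, hR, hPκ⟩ := hy
  refine star_link M hM U y hyb _ P ?_ u u' hu hud huy hu' hud' huy'
  intro v _ hv hvy
  have hvG : v ∈ Grd M K := (mem_grd_iff M hM K hK.clo v).2 (by rw [hv]; exact hU)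
  exact Cube.le_trans' hPκ (ctl_core hW v hvG y κ hvy hR).1

theorem ctl_cnn {n N : ℕ} {K : Set (Cube V)} {C : Cube V → Set (Cube J)} {τV : Equiv.Perm V}
    {τJ : Equiv.Perm J} {M : ℕ} (hM : 0 < M) {f : (V → ℤ) → (J → ℤ)}
    {R : (V → ℤ) → Cube J → Prop} (hK : Src n N K τV) (hW : Wst n K C τV τJ M f R)
    (U : Cube V) (hU : U ∈ K) (hd : U.dim = n + 1) (P : Cube J) (hP : n + 1 ≤ P.dim) :
    Cnn M (fun Q => Faces (ctl f R Q)) U P := by
  intro u u' hu hud hPu hu' hud' hPu'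
  obtain ⟨x, κ, hx, hR, hPκ⟩ := WT3_core hM hK hW hU hd hP hu hud hPu
  obtain ⟨x', κ', hx', hR', hPκ'⟩ := WT3_core hM hK hW hU hd hP hu' hud' hPu'
  have hxb : InB M U x := WT3_inb (by rw [← hu]; exact gcel_inM M hM u) hx
  have hxb' : InB M U x' := WT3_inb (by rw [← hu']; exact gcel_inM M hM u') hx'
  have hpath := hW.con U hU hd P hP x κ x' κ' hxb hxb' hR hR' hPκ hPκ'
  have hxG : x ∈ Ge R M U P := ⟨hxb, κ, hR, hPκ⟩
  have key : ∀ y, Relation.ReflTransGen (fun a b => a ∈ Ge R M U P ∧ b ∈ Ge R M U P ∧ Adj a b) x y →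
      ∀ w : Cube V, gcel M w = U → w.dim = U.dim → w.Has y →
        Relation.ReflTransGen (Lnk M (fun Q => Faces (ctl f R Q)) U P) u w := by
    intro y hy
    induction hy with
    | refl =>
      intro w hw hwd hwy
      exact WT3_star hM hK hW hU hxG hu hud hx hw hwd hwy
    | tail _ h2 ih =>
      intro w hw hwd hwz
      obtain ⟨hyG, hzG, hadj⟩ := h2
      obtain ⟨w0, hw0, hwd0, hw0y, hw0z⟩ := adj_common M hM U _ _ hyG.1 hzG.1 hadj
      exact (ih w0 hw0 hwd0 hw0y).trans (WT3_star hM hK hW hU hzG hw0 hwd0 hw0z hw hwd hwz)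
  exact key x' hpath u' hu' hud' hx'

theorem ctl_place {n N : ℕ} {K : Set (Cube V)} {C : Cube V → Set (Cube J)} {τV : Equiv.Perm V}
    {τJ : Equiv.Perm J} {M : ℕ} (hM : 0 < M) {f : (V → ℤ) → (J → ℤ)}
    {R : (V → ℤ) → Cube J → Prop} (hK : Src n N K τV) (hW : Wst n K C τV τJ M f R)
    (e : Cube V) (he : e ∈ K) (x : V → ℤ) (hx : InB M e x) (κ : Cube J) (hR : R x κ)
    (P : Cube J) (hP : P.Le κ) :
    ∃ v : Cube V, v.dim = e.dim ∧ gcel M v = e ∧ P ∈ Faces (ctl f R v) := by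
  obtain ⟨w, hw, hwd, hwx⟩ := pt_place M hM e x hx
  have hwG : w ∈ Grd M K := (mem_grd_iff M hM K hK.clo w).2 (by rw [hw]; exact he)
  exact ⟨w, hwd, hw, Cube.le_trans' hP (ctl_core hW w hwG x κ hwx hR).1⟩

end WI

end AGE
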